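import Pool.Agent.Helper58.FL.Theta

/- Helper58.FL.Cat -/
section
/-!
# `(∞,n)`-categories and flagged `(∞,n)`-categories

`(∞,n)`-categories are modelled, following Rezk, by the injectively fibrant simplicial
presheaves on `Θ_n` which satisfy the Segal and the completeness conditions.
-/

open CategoryTheory MonoidalCategory Opposite

set_option autoImplicit false

namespace FL

section Discrete

variable {A : Type} [SmallCategory A]

/-- A presheaf of sets, viewed as a (discrete) simplicial presheaf. -/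
abbrev disc (F : Aᵒᵖ ⥤ Type) : SP A := F ⋙ Functor.const SimplexCategoryᵒᵖ

/-- Functoriality of `disc`. -/
abbrev discMap {F G : Aᵒᵖ ⥤ Type} (f : F ⟶ G) : disc F ⟶ disc G :=
  Functor.whiskerRight f (Functor.const SimplexCategoryᵒᵖ)

/-- The representable presheaf `h_a`. -/
abbrev rep (a : A) : SP A := disc (yoneda.obj a)

/-- Functoriality of `h_a`. -/
abbrev repMap {a b : A} (f : a ⟶ b) : rep a ⟶ rep b := discMap (yoneda.map f)

/-- The Yoneda embedding `a ↦ h_a` of `A` in simplicial presheaves on `A`. -/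
@[simps]
def yo (A : Type) [SmallCategory A] : A ⥤ SP A where
  obj a := rep a
  map u := repMap u
  map_id _ := by
    ext b k u
    exact Category.comp_id (obj := A) _
  map_comp _ _ := by
    ext b k u
    exact (Category.assoc (obj := A) _ _ _).symm

/-- The terminal presheaf. -/
abbrev one (A : Type) [SmallCategory A] : SP A := disc ((Functor.const Aᵒᵖ).obj PUnit.{1})

/-- The empty presheaf. -/
abbrev empt (A : Type) [SmallCategory A] : SP A := disc ((Functor.const Aᵒᵖ).obj PEmpty.{1})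

/-- The map from the empty presheaf to the terminal one. -/
def emptToOne (A : Type) [SmallCategory A] : empt A ⟶ one A :=
  discMap ((Functor.const Aᵒᵖ).map (↾ PEmpty.elim))

/-- The inclusion of a sieve on `a` in the representable presheaf `h_a`. -/
abbrev sieveIncl {a : A} (S : Sieve a) : disc S.functor ⟶ rep a := discMap S.functorInclusion

end Discrete

section V

variable {C : Type} [SmallCategory C]

/-- A `k`-simplex of `V[m](X_1, …, X_m)` at `θ`: a monotone map `f : [θ.len] → [m]` and, for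
every `f(i-1) < j ≤ f(i)`, a `k`-simplex of `X_j(θ_i)`. -/
structure VS {m : ℕ} (X : Fin m → SP C) (θ : Wr C) (k : SimplexCategoryᵒᵖ) : Type where
  f : Fin (θ.len + 1) →o Fin (m + 1)
  g : ∀ (i : Fin θ.len) (j : Fin m), Jump f i j → ((X j).obj (op (θ.obj i))).obj k

namespace VS

variable {m : ℕ} {X Y Z : Fin m → SP C}

lemma ext' {θ : Wr C} {k : SimplexCategoryᵒᵖ} {u v : VS X θ k} (hf : u.f = v.f)
    (hg : ∀ i j (h : Jump u.f i j) (h' : Jump v.f i j), u.g i j h = v.g i j h') : u = v := by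
  obtain ⟨f, g⟩ := u
  obtain ⟨f', g'⟩ := v
  simp only at hf
  subst hf
  congr 1
  funext i j h
  exact hg i j h h

/-- The simplicial structure of `V[m](X)(θ)`. -/
@[simps f g]
def mapk {θ : Wr C} {k l : SimplexCategoryᵒᵖ} (α : k ⟶ l) (u : VS X θ k) : VS X θ l where
  f := u.f
  g i j h := ((X j).obj (op (θ.obj i))).map α (u.g i j h)

/-- The presheaf structure of `V[m](X)`. -/
@[simps f]
noncomputable def mapθ {θ θ' : Wr C} (φ : θ' ⟶ θ) {k : SimplexCategoryᵒᵖ} (u : VS X θ k) :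
    VS X θ' k where
  f := u.f.comp (Wr.Hom.f φ)
  g i j h := ((X j).map (Wr.Hom.g φ i h.split.choose h.split.choose_spec.1).op).app k
    (u.g h.split.choose j h.split.choose_spec.2)

lemma mapθ_g {θ θ' : Wr C} (φ : θ' ⟶ θ) {k : SimplexCategoryᵒᵖ} (u : VS X θ k)
    {i : Fin θ'.len} {j : Fin θ.len} {l : Fin m} (h : Jump (Wr.Hom.f φ) i j)
    (h' : Jump u.f j l) :
    (mapθ φ u).g i l (h.comp h') = ((X l).map (Wr.Hom.g φ i j h).op).app k (u.g j l h') := by
  have hj := (h.comp h').split.choose_spec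
  have e : (h.comp h').split.choose = j := hj.2.unique h'
  show ((X l).map (Wr.Hom.g φ i _ hj.1).op).app k (u.g _ l hj.2) = _
  have aux : ∀ j' (e : j' = j) (h1 : Jump (Wr.Hom.f φ) i j') (h2 : Jump u.f j' l),
      ((X l).map (Wr.Hom.g φ i j' h1).op).app k (u.g j' l h2) =
        ((X l).map (Wr.Hom.g φ i j h).op).app k (u.g j l h') := by
    rintro j' rfl h1 h2; rfl
  exact aux _ e _ _

/-- Functoriality of `V[m]`. -/
@[simps f g]
def push (p : ∀ j, X j ⟶ Y j) {θ : Wr C} {k : SimplexCategoryᵒᵖ} (u : VS X θ k) : VS Y θ k where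
  f := u.f
  g i j h := ((p j).app _).app k (u.g i j h)

end VS

/-- Rezk's presheaf `V[m](X_1, …, X_m)` on `Δ ≀ C`. -/
noncomputable def V {m : ℕ} (X : Fin m → SP C) : SP (Wr C) where
  obj θ :=
    { obj := fun k => VS X θ.unop k
      map := fun α => ↾ fun u => u.mapk α
      map_id := fun k => by
        ext u
        refine VS.ext' rfl fun i j h h' => ?_
        exact ConcreteCategory.congr_hom (((X j).obj (op (θ.unop.obj i))).map_id k) _
      map_comp := fun α β => by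
        ext u
        refine VS.ext' rfl fun i j h h' => ?_
        exact ConcreteCategory.congr_hom (((X j).obj (op (θ.unop.obj i))).map_comp α β) _ }
  map φ :=
    { app := fun k => ↾ fun u => u.mapθ φ.unop
      naturality := fun k l α => by
        ext u
        refine VS.ext' rfl fun i j h h' => ?_
        obtain ⟨r, hr, hr'⟩ := Jump.split (f := Wr.Hom.f φ.unop) (g := u.f) h
        refine (VS.mapθ_g φ.unop (u.mapk α) hr hr').trans ?_
        show _ = ((X j).obj _).map α ((u.mapθ φ.unop).g i j _)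
        rw [VS.mapθ_g φ.unop u hr hr']
        exact ConcreteCategory.congr_hom (((X j).map (Wr.Hom.g φ.unop i r hr).op).naturality α) _ }
  map_id θ := by
    ext k u
    refine VS.ext' rfl fun i j h h' => ?_
    refine (VS.mapθ_g (𝟙 θ.unop) u (jump_id.mpr rfl) h').trans ?_
    exact ConcreteCategory.congr_hom (NatTrans.congr_app ((X j).map_id (op (θ.unop.obj i))) k) _
  map_comp {θ θ' θ''} φ ψ := by
    ext k u
    refine VS.ext' rfl fun i l h h' => ?_
    obtain ⟨r, hr, hr'⟩ := Jump.split (f := Wr.Hom.f (ψ.unop ≫ φ.unop)) (g := u.f) h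
    obtain ⟨s, hs, hs'⟩ := Jump.split (f := Wr.Hom.f ψ.unop) (g := Wr.Hom.f φ.unop) hr
    refine (VS.mapθ_g (ψ.unop ≫ φ.unop) u hr hr').trans ?_
    show _ = ((u.mapθ φ.unop).mapθ ψ.unop).g i l _
    refine Eq.trans ?_ (VS.mapθ_g ψ.unop (u.mapθ φ.unop) hs (hs'.comp hr')).symm
    rw [VS.mapθ_g φ.unop u hs' hr']
    have e := Wr.comp_g ψ.unop φ.unop hs hs'
    have e' : Wr.Hom.g (ψ.unop ≫ φ.unop) i r hr = Wr.Hom.g (ψ.unop ≫ φ.unop) i r (hs.comp hs') :=
      rfl
    rw [e', e, op_comp, (X l).map_comp]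
    rfl

/-- Functoriality of `V[m]`. -/
noncomputable def V.map {m : ℕ} {X Y : Fin m → SP C} (p : ∀ j, X j ⟶ Y j) : V X ⟶ V Y where
  app θ :=
    { app := fun k => ↾ fun u => u.push p
      naturality := fun k l α => by
        ext u
        refine VS.ext' rfl fun i j h h' => ?_
        exact ConcreteCategory.congr_hom (((p j).app (op (θ.unop.obj i))).naturality α) _ }
  naturality θ θ' φ := by
    ext k u
    refine VS.ext' rfl fun i j h h' => ?_
    obtain ⟨r, hr, hr'⟩ := Jump.split (f := Wr.Hom.f φ.unop) (g := u.f) h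
    refine Eq.trans ?_ (VS.mapθ_g φ.unop (u.push p) hr hr').symm
    show ((p j).app _).app k ((u.mapθ φ.unop).g i j _) = _
    rw [VS.mapθ_g φ.unop u hr hr']
    exact ConcreteCategory.congr_hom
      (NatTrans.congr_app ((p j).naturality (Wr.Hom.g φ.unop i r hr).op) k) _

/-- The suspension `V[1](X)`. -/
noncomputable abbrev V1 (X : SP C) : SP (Wr C) := V fun _ : Fin 1 => X

/-- Functoriality of the suspension. -/
noncomputable abbrev V1map {X Y : SP C} (p : X ⟶ Y) : V1 X ⟶ V1 Y := V.map fun _ : Fin 1 => p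

/-- The spine of `[m](θ_1, …, θ_m)`: the sieve of all morphisms whose image is contained in
one of the pieces `[1](θ_i)` (or is a vertex). -/
def spine (θ : Wr C) : Sieve θ where
  arrows η φ := (∃ v, ∀ t, Wr.Hom.f φ t = v) ∨
    ∃ i : Fin θ.len, ∀ t, Wr.Hom.f φ t = i.castSucc ∨ Wr.Hom.f φ t = i.succ
  downward_closed {η ζ φ} h ψ := by
    rcases h with ⟨v, hv⟩ | ⟨i, hi⟩
    · exact Or.inl ⟨v, fun t => hv _⟩
    · exact Or.inr ⟨i, fun t => hi _⟩

/-- The suspension of a sieve on `θ`, a sieve on `[1](θ)`. -/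
def suspSieve {θ : C} (S : Sieve θ) : Sieve (⟨1, fun _ => θ⟩ : Wr C) where
  arrows η φ := ∀ (i : Fin η.len) (j : Fin 1) (h : Jump (Wr.Hom.f φ) i j),
    S.arrows (Wr.Hom.g φ i j h)
  downward_closed {η ζ φ} h ψ := by
    intro i j hij
    obtain ⟨r, hr, hr'⟩ := Jump.split (f := Wr.Hom.f ψ) (g := Wr.Hom.f φ) hij
    have := Wr.comp_g ψ φ hr hr'
    have e : Wr.Hom.g (ψ ≫ φ) i j hij = Wr.Hom.g (ψ ≫ φ) i j (hr.comp hr') := rfl
    rw [e, this]
    exact S.downward_closed (h r j hr') _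

/-- The presheaf of sets `[m](θ) ↦ {0,1}^{m+1}`, that is the nerve of the free-standing
isomorphism. -/
noncomputable def isoPsh (C : Type) [SmallCategory C] : (Wr C)ᵒᵖ ⥤ Type where
  obj θ := Fin (θ.unop.len + 1) → Bool
  map φ := ↾ fun u t => u (Wr.Hom.f φ.unop t)

/-- The completeness map: nerve of the free-standing isomorphism to the point. -/
noncomputable def isoMap (C : Type) [SmallCategory C] : disc (isoPsh C) ⟶ one (Wr C) :=
  discMap { app := fun _ => ↾ fun _ => PUnit.unit, naturality := fun _ _ _ => rfl }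

end V

/-- The Segal covers of the objects of `Θ_n`: spines and their suspensions. -/
inductive SegCov : (n : ℕ) → (θ : Th n) → Sieve θ → Prop
  | spine (n : ℕ) (θ : Wr (Th n)) : SegCov (n + 1) θ (FL.spine θ)
  | susp {n : ℕ} {θ : Th n} {S : Sieve θ} (h : SegCov n θ S) :
      SegCov (n + 1) (⟨1, fun _ => θ⟩ : Wr (Th n)) (suspSieve S)

/-- The completeness maps: nerve of the free-standing isomorphism to the point, and its
suspensions. -/
inductive IsCompl : (n : ℕ) → {X Y : SP (Th n)} → (X ⟶ Y) → Prop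
  | base (n : ℕ) : IsCompl (n + 1) (X := disc (isoPsh (Th n))) (Y := one (Wr (Th n)))
      (isoMap (Th n))
  | susp {n : ℕ} {X Y : SP (Th n)} (f : X ⟶ Y) (h : IsCompl n f) :
      IsCompl (n + 1) (X := V1 X) (Y := V1 Y) (V1map f)

/-- The inclusion `∂c_k ⟶ c_k` of the boundary of the `k`-cell. -/
inductive IsBd : (n k : ℕ) → {X Y : SP (Th n)} → (X ⟶ Y) → Prop
  | zero (n : ℕ) : IsBd n 0 (emptToOne (Th n))
  | susp {n k : ℕ} {X Y : SP (Th n)} (f : X ⟶ Y) (h : IsBd n k f) :
      IsBd (n + 1) (k + 1) (X := V1 X) (Y := V1 Y) (V1map f)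

/-- `(∞,n)`-categories: injectively fibrant simplicial presheaves on `Θ_n` satisfying the Segal
conditions and the completeness conditions. -/
structure IsCat (n : ℕ) (C : SP (Th n)) : Prop where
  inj : InjFib C
  segal : ∀ (θ : Th n) (S : Sieve θ), SegCov n θ S → HoEq (Mp.pre (sieveIncl S) C)
  complete : ∀ (X Y : SP (Th n)) (f : X ⟶ Y), IsCompl n f → HoEq (Mp.pre f C)

end FL
end

/- Helper58.FL.Flag -/
section
/-!
# Flagged `(∞,n)`-categories and the restricted Yoneda functors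

A flagged `(∞,n)`-category is an injectively fibrant simplicial presheaf `D` on
`G_n = Θ_n × [n]^op`, that is a sequence `D_0 ⟶ D_1 ⟶ … ⟶ D_n` of simplicial presheaves on
`Θ_n`, such that `D_i` is an `(∞,i)`-category and the maps `D_i ⟶ D_j` are surjective on
`k`-morphisms with fixed source and target for `k ≤ i ≤ j`.
-/

open CategoryTheory MonoidalCategory Opposite

set_option autoImplicit false

namespace FL

/-- The category `Θ_n × [n]^op`. -/
abbrev Gn (n : ℕ) : Type := Th n × (Fin (n + 1))ᵒᵖ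

noncomputable instance (n : ℕ) : SmallCategory (Gn n) := inferInstance

section

variable {n : ℕ}

/-- The `i`-th level `D_i` of `D_0 ⟶ … ⟶ D_n`. -/
noncomputable def level (D : SP (Gn n)) (i : Fin (n + 1)) : SP (Th n) :=
  (Prod.sectL (Th n) (op i)).op ⋙ D

/-- The natural transformation underlying `levelMap`. -/
noncomputable def secMap {i j : Fin (n + 1)} (h : i ≤ j) :
    Prod.sectL (Th n) (op j) ⟶ Prod.sectL (Th n) (op i) where
  app θ := (𝟙 θ, (homOfLE h).op)
  naturality θ θ' f := by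
    refine Prod.ext ?_ (Subsingleton.elim _ _)
    exact (Category.comp_id _).trans (Category.id_comp _).symm

/-- The maps `D_i ⟶ D_j`. -/
noncomputable def levelMap (D : SP (Gn n)) {i j : Fin (n + 1)} (h : i ≤ j) :
    level D i ⟶ level D j :=
  Functor.whiskerRight (NatTrans.op (secMap h)) D

/-- `Z` is `i`-truncated (lies in `Cat_i ⊂ Cat_n`): the maps `Z(t_i θ) ⟶ Z(θ)` are
equivalences. -/
def Truncated (i : ℕ) (Z : SP (Th n)) : Prop :=
  ∀ θ : Th n, HoEq (Z.map ((trUnit n i).app θ).op)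

/-- Flagged `(∞,n)`-categories. -/
structure Flagged (D : SP (Gn n)) : Prop where
  inj : InjFib D
  cat : ∀ i, IsCat n (level D i)
  trunc : ∀ i : Fin (n + 1), Truncated i.1 (level D i)
  surj : ∀ (i j : Fin (n + 1)) (h : i ≤ j) (k : ℕ), k ≤ i.1 →
    ∀ (X Y : SP (Th n)) (b : X ⟶ Y), IsBd n k b → ∀ (x : X ⟶ level D i) (y : Y ⟶ level D j),
      x ≫ levelMap D h = b ≫ y → ∃ z : Y ⟶ level D i, b ≫ z = x ∧ z ≫ levelMap D h = y

/-- The sequence `C_{≤ 0} ⟶ C_{≤ 1} ⟶ … ⟶ C_{≤ n} = C`, where `C_{≤ i} = C ∘ t_i`. -/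
noncomputable def filt (C : SP (Th n)) : SP (Gn n) := (tower n).op ⋙ C

/-- Functoriality of `filt` on mapping spaces. -/
@[simps]
noncomputable def filtS {C C' : SP (Th n)} {m : SimplexCategory} (φ : MpS C C' m) :
    MpS (filt C) (filt C') m where
  app a k s x := φ.app (op ((tower n).obj a.unop)) k s x
  nat_left f k s x := φ.nat_left ((tower n).map f.unop).op k s x
  nat_right a _ _ g s x := φ.nat_right (op ((tower n).obj a.unop)) g s x

/-- The restricted Yoneda functor to `Θ_n`: `(N D)(θ) = Map(θ_{≤ 0} ⟶ … ⟶ θ_{≤ n}, D)`. -/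
noncomputable def ND (D : SP (Gn n)) : SP (Th n) where
  obj θ := Mp (filt (rep θ.unop)) D
  map f := Mp.pre (Functor.whiskerLeft (tower n).op (repMap f.unop)) D
  map_id θ := by
    ext k φ
    refine MpS.ext ?_
    funext a l s x
    show φ.app a l s _ = φ.app a l s _
    congr 1
    exact Category.comp_id (obj := Th n) _
  map_comp {θ θ' θ''} f g := by
    ext k φ
    refine MpS.ext ?_
    funext a l s x
    show φ.app a l s _ = φ.app a l s _
    congr 1
    exact (Category.assoc (obj := Th n) _ _ _).symm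

/-- The functoriality of `ND` in `D`, as a map of mapping spaces. -/
noncomputable def NDmap (D D' : SP (Gn n)) : Mp D D' ⟶ Mp (ND D) (ND D') where
  app m := ↾ fun φ =>
    { app := fun θ k s ψ => MpS.comp ψ (MpS.res s φ)
      nat_left := fun f k s ψ => rfl
      nat_right := fun θ k l g s ψ => rfl }
  naturality m m' α := by
    ext φ
    rfl

end

end FL
end

/- Helper58.FL.Pre -/
section
/-!
# Homotopy (co)limits, gaunt colimit diagrams and presheaves on `Cat_n`
-/

open CategoryTheory MonoidalCategory Opposite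

set_option autoImplicit false

namespace FL

section Diagrams

/-- A chain `j_0 ⟶ j_1 ⟶ … ⟶ j_k` in `J`, i.e. a functor from `{0 < 1 < … < k}` to `J`:
a `k`-simplex of the nerve of `J`. -/
structure Chain (J : Type) [SmallCategory J] (k : SimplexCategory) : Type where
  obj : Fin (k.len + 1) → J
  map : ∀ i j : Fin (k.len + 1), i ≤ j → (obj i ⟶ obj j)
  map_id : ∀ i, map i i (le_refl _) = 𝟙 (obj i)
  map_comp : ∀ i j l (h : i ≤ j) (h' : j ≤ l), map i j h ≫ map j l h' = map i l (h.trans h')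

variable {J : Type} [SmallCategory J]

/-- Restriction of chains along `α : [l] → [k]`. -/
def Chain.res {k l : SimplexCategory} (σ : Chain J k) (α : l ⟶ k) : Chain J l where
  obj i := σ.obj (α.toOrderHom i)
  map _ _ h := σ.map _ _ (α.toOrderHom.monotone h)
  map_id _ := σ.map_id _
  map_comp _ _ _ _ _ := σ.map_comp _ _ _ _ _

/-- The map `j_0 ⟶ j_{α(0)}` from the first object of `σ` to the first object of its restriction
along `α : [l] → [k]`. -/
def Chain.zeroTo {k l : SimplexCategory} (σ : Chain J k) (α : l ⟶ k) :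
    σ.obj 0 ⟶ (σ.res α).obj 0 :=
  σ.map _ _ (Fin.zero_le _)

/-- The nerve of `J`. -/
def Nv (J : Type) [SmallCategory J] : SSet.{0} where
  obj k := Chain J k.unop
  map α := ↾ fun σ => σ.res α.unop
  map_id _ := rfl
  map_comp _ _ := rfl

/-- A `k`-simplex of the nerve of the under category `j/J`: a chain `j_0 ⟶ … ⟶ j_k` together
with a morphism `j ⟶ j_0`. -/
structure WS (j : J) (k : SimplexCategory) : Type where
  σ : Chain J k
  u : j ⟶ σ.obj 0

/-- Restriction along `α : [l] → [k]`. -/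
@[simps]
def WS.res {j : J} {k l : SimplexCategory} (w : WS j k) (α : l ⟶ k) : WS j l where
  σ := w.σ.res α
  u := w.u ≫ w.σ.zeroTo α

/-- The weight `j ↦ N(j/J)` of homotopy limits. -/
def W (J : Type) [SmallCategory J] : SP J where
  obj j :=
    { obj := fun k => WS j.unop k.unop
      map := fun α => ↾ fun w => w.res α.unop
      map_id := fun k => by
        ext w
        obtain ⟨σ, u⟩ := w
        exact congrArg (WS.mk σ) ((congrArg (u ≫ ·) (σ.map_id 0)).trans (Category.comp_id u))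
      map_comp := fun {k l m} α β => by
        ext w
        obtain ⟨σ, u⟩ := w
        exact congrArg (WS.mk (σ.res (β.unop ≫ α.unop)))
          ((congrArg (u ≫ ·) (σ.map_comp _ _ _ _ _).symm).trans (Category.assoc _ _ _).symm) }
  map f :=
    { app := fun k => ↾ fun w => ⟨w.σ, f.unop ≫ w.u⟩
      naturality := fun k l α => by
        ext w
        exact congrArg (WS.mk (w.σ.res α.unop)) (Category.assoc f.unop w.u (w.σ.zeroTo α.unop)).symm }
  map_id j := by
    ext k w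
    exact congrArg (WS.mk w.σ) (Category.id_comp _)
  map_comp f g := by
    ext k w
    exact congrArg (WS.mk w.σ) (Category.assoc _ _ _)

/-- The (Bousfield–Kan) homotopy limit of a diagram of simplicial sets indexed by `Jᵒᵖ`: the
simplicial set of natural transformations `N(j/J) × Δ[m] ⟶ G(j)`. -/
abbrev Holim (G : SP J) : SSet.{0} := Mp (W J) G

variable {A : Type} [SmallCategory A]

/-- A `k`-simplex of the homotopy colimit of the diagram `p` at `a`: a chain
`j_0 ⟶ … ⟶ j_k` in `J` and a `k`-simplex of `p(j_0)(a)`. -/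
structure HS (p : J ⥤ SP A) (a : Aᵒᵖ) (k : SimplexCategoryᵒᵖ) : Type where
  σ : Chain J k.unop
  x : ((p.obj (σ.obj 0)).obj a).obj k

/-- Restriction along `α : [l] → [k]`. -/
@[simps]
def HS.res {p : J ⥤ SP A} {a : Aᵒᵖ} {k l : SimplexCategoryᵒᵖ} (w : HS p a k) (α : k ⟶ l) :
    HS p a l where
  σ := w.σ.res α.unop
  x := ((p.map (w.σ.zeroTo α.unop)).app a).app l (((p.obj (w.σ.obj 0)).obj a).map α w.x)

/-- The functoriality of `p` in elements. -/
lemma diag_comp (p : J ⥤ SP A) {i j l : J} (f : i ⟶ j) (g : j ⟶ l) {a : Aᵒᵖ}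
    {k : SimplexCategoryᵒᵖ} (x : ((p.obj i).obj a).obj k) :
    ((p.map (f ≫ g)).app a).app k x = ((p.map g).app a).app k (((p.map f).app a).app k x) := by
  rw [p.map_comp]; rfl

lemma diag_id (p : J ⥤ SP A) {i : J} {a : Aᵒᵖ} {k : SimplexCategoryᵒᵖ}
    (x : ((p.obj i).obj a).obj k) : ((p.map (𝟙 i)).app a).app k x = x := by
  rw [p.map_id]; rfl

/-- The (Bousfield–Kan) homotopy colimit of a diagram of simplicial presheaves. -/
def Hoco (p : J ⥤ SP A) : SP A where
  obj a :=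
    { obj := fun k => HS p a k
      map := fun α => ↾ fun w => w.res α
      map_id := fun k => by
        ext w
        obtain ⟨σ, x⟩ := w
        refine congrArg (HS.mk σ) ?_
        refine (congrArg (fun f => ((p.map f).app a).app k _) (σ.map_id 0)).trans ?_
        exact (diag_id p _).trans (sset_id _ x)
      map_comp := fun {k l m} α β => by
        ext w
        obtain ⟨σ, x⟩ := w
        refine congrArg (HS.mk (σ.res (β.unop ≫ α.unop))) ?_
        refine (congrArg _ (sset_comp _ α β x)).trans ?_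
        refine (congrArg (fun f => ((p.map f).app a).app m _) (σ.map_comp 0 _ _ (Fin.zero_le _)
          (α.unop.toOrderHom.monotone (Fin.zero_le (β.unop.toOrderHom 0)))).symm).trans ?_
        refine (diag_comp p _ _ _).trans ?_
        exact congrArg _ (hom_natk (p.map (σ.zeroTo α.unop)) β _) }
  map f :=
    { app := fun k => ↾ fun w => ⟨w.σ, ((p.obj (w.σ.obj 0)).map f).app k w.x⟩
      naturality := fun k l α => by
        ext w
        refine congrArg (HS.mk (w.σ.res α.unop)) ?_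
        refine (hom_nat (p.map (w.σ.zeroTo α.unop)) f _).symm.trans ?_
        exact congrArg _ (sp_nat _ f α _) }
  map_id a := by
    ext k w
    exact congrArg (HS.mk w.σ) (sp_id _ _)
  map_comp f g := by
    ext k w
    exact congrArg (HS.mk w.σ) (sp_comp _ f g _)

/-- The simplex of `Map(p(j), C)` attached by a coherent cocone `Λ : hocolim p ⟶ C` to a simplex
of `N(j/J)`. -/
@[simps]
def coneS {p : J ⥤ SP A} {C : SP A} (Λ : Hoco p ⟶ C) {j : J} {k : SimplexCategory}
    (w : WS j k) : MpS (p.obj j) C k where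
  app a l s x := (Λ.app a).app l
    ⟨w.σ.res s, ((p.map (w.u ≫ w.σ.zeroTo s)).app a).app l x⟩
  nat_left f l s x := by
    refine (congrArg _ (congrArg (HS.mk (w.σ.res s)) (hom_nat _ f x))).trans ?_
    exact hom_nat Λ f ⟨w.σ.res s, _⟩
  nat_right a l m g s x := by
    refine Eq.trans (congrArg _ (congrArg (HS.mk (w.σ.res (g.unop ≫ s))) ?_))
      (hom_natk Λ g ⟨w.σ.res s, _⟩)
    refine Eq.trans ?_ (congrArg (((p.map ((w.σ.res s).zeroTo g.unop)).app a).app m)
      (hom_natk (p.map (w.u ≫ w.σ.zeroTo s)) g x))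
    refine Eq.trans ?_ (diag_comp p (w.u ≫ w.σ.zeroTo s) ((w.σ.res s).zeroTo g.unop) _)
    refine congrArg (fun f => ((p.map f).app a).app m _) ?_
    refine Eq.trans ?_ (Category.assoc _ _ _).symm
    exact congrArg (w.u ≫ ·) (w.σ.map_comp _ _ _ _ _).symm

end Diagrams

section Presheaves

/-- The type of `(∞,n)`-categories. -/
abbrev CatN (n : ℕ) : Type 1 := { C : SP (Th n) // IsCat n C }

/-- A presheaf on the `∞`-category `Cat_n`: a simplicial functor from the opposite of the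
simplicial category `CatN n` to simplicial sets. -/
structure PSh (n : ℕ) : Type 1 where
  obj : CatN n → SSet.{0}
  act : ∀ {C C' : CatN n} {k : SimplexCategoryᵒᵖ}, MpS C.1 C'.1 k.unop → (obj C').obj k →
    (obj C).obj k
  act_nat : ∀ {C C' : CatN n} {k l : SimplexCategoryᵒᵖ} (α : k ⟶ l) (φ : MpS C.1 C'.1 k.unop)
    (x : (obj C').obj k), act (φ.res α.unop) ((obj C').map α x) = (obj C).map α (act φ x)
  act_id : ∀ {C : CatN n} {k : SimplexCategoryᵒᵖ} (x : (obj C).obj k),
    act (MpS.ofHom k.unop (𝟙 C.1)) x = x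
  act_comp : ∀ {C C' C'' : CatN n} {k : SimplexCategoryᵒᵖ} (φ : MpS C.1 C'.1 k.unop)
    (ψ : MpS C'.1 C''.1 k.unop) (x : (obj C'').obj k), act (φ.comp ψ) x = act φ (act ψ x)

variable {n : ℕ}

/-- Objectwise Kan presheaves. -/
def PSh.Kan (F : PSh n) : Prop := ∀ C, SSet.KanComplex (F.obj C)

/-- Morphisms of presheaves on `Cat_n`. -/
structure PSh.Hom (F G : PSh n) : Type 1 where
  app (C : CatN n) : F.obj C ⟶ G.obj C
  act : ∀ {C C' : CatN n} {k : SimplexCategoryᵒᵖ} (φ : MpS C.1 C'.1 k.unop)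
    (x : (F.obj C').obj k), (app C).app k (F.act φ x) = G.act φ ((app C').app k x)

/-- `F ≃ G`, for presheaves on `Cat_n` such that `G` is injectively fibrant: there is an
objectwise equivalence `F ⟶ G`. -/
def PSh.Equiv (F G : PSh n) : Prop := ∃ φ : PSh.Hom F G, ∀ C, HoEq (φ.app C)

/-- An `m`-simplex of the mapping space of `F` and `G`. -/
@[ext]
structure PSh.MapS (F G : PSh n) (m : SimplexCategory) : Type 1 where
  app (C : CatN n) (k : SimplexCategoryᵒᵖ) (s : k.unop ⟶ m) (x : (F.obj C).obj k) :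
    (G.obj C).obj k
  nat : ∀ (C : CatN n) {k l : SimplexCategoryᵒᵖ} (g : k ⟶ l) (s : k.unop ⟶ m)
    (x : (F.obj C).obj k), app C l (g.unop ≫ s) ((F.obj C).map g x) =
      (G.obj C).map g (app C k s x)
  act : ∀ {C C' : CatN n} {k : SimplexCategoryᵒᵖ} (s : k.unop ⟶ m) (φ : MpS C.1 C'.1 k.unop)
    (x : (F.obj C').obj k), app C k s (F.act φ x) = G.act φ (app C' k s x)

/-- The simplicial structure of the mapping spaces of `PSh n`. -/
@[simps]
def PSh.MapS.res {F G : PSh n} {m m' : SimplexCategory} (α : m' ⟶ m) (φ : PSh.MapS F G m) :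
    PSh.MapS F G m' where
  app C k s x := φ.app C k (s ≫ α) x
  nat C k l g s x := by
    rw [Category.assoc]
    exact φ.nat C g (s ≫ α) x
  act s ψ x := φ.act (s ≫ α) ψ x

/-- The mapping spaces of `PSh n`. -/
def PSh.Map (F G : PSh n) : SSet.{1} where
  obj m := PSh.MapS F G m.unop
  map α := ↾ fun φ => φ.res α.unop
  map_id m := by ext φ; simp
  map_comp α β := by ext φ; simp

/-- The restriction of a presheaf on `Cat_n` along a diagram in `Cat_n`. -/
noncomputable def PSh.along (F : PSh n) {J : Type} [SmallCategory J] (p : J ⥤ SP (Th n))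
    (hp : ∀ j, IsCat n (p.obj j)) : SP J where
  obj j := F.obj ⟨p.obj j.unop, hp _⟩
  map {j j'} f :=
    { app := fun k => ↾ fun x =>
        F.act (C := ⟨_, hp j'.unop⟩) (C' := ⟨_, hp j.unop⟩) (MpS.ofHom k.unop (p.map f.unop)) x
      naturality := fun k l α => by
        ext x
        exact F.act_nat (C := ⟨_, hp j'.unop⟩) (C' := ⟨_, hp j.unop⟩) α
          (MpS.ofHom k.unop (p.map f.unop)) x }
  map_id j := by
    ext k x
    refine Eq.trans ?_ (F.act_id (C := ⟨_, hp j.unop⟩) x)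
    show F.act (C := ⟨_, hp j.unop⟩) (C' := ⟨_, hp j.unop⟩)
      (MpS.ofHom k.unop (p.map (𝟙 j.unop))) x = _
    rw [p.map_id]
  map_comp {j j' j''} f g := by
    ext k x
    refine Eq.trans ?_ (F.act_comp (C := ⟨_, hp j''.unop⟩) (C' := ⟨_, hp j'.unop⟩)
      (C'' := ⟨_, hp j.unop⟩) (MpS.ofHom k.unop (p.map g.unop))
      (MpS.ofHom k.unop (p.map f.unop)) x)
    refine congrArg (fun t => F.act (C := ⟨_, hp j''.unop⟩) (C' := ⟨_, hp j.unop⟩) t x) ?_
    show MpS.ofHom k.unop (p.map (g.unop ≫ f.unop)) = _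
    rw [p.map_comp]
    rfl

/-- The comparison map `F(C) ⟶ holim_j F(p(j))` of a coherent cocone `hocolim p ⟶ C` in
`Cat_n`. -/
noncomputable def PSh.compare (F : PSh n) {J : Type} [SmallCategory J] (p : J ⥤ SP (Th n))
    (hp : ∀ j, IsCat n (p.obj j)) {C : SP (Th n)} (hC : IsCat n C) (Λ : Hoco p ⟶ C) :
    F.obj ⟨C, hC⟩ ⟶ Holim (F.along p hp) where
  app k := ↾ fun x =>
    { app := fun j l s w => F.act (C := ⟨_, hp j.unop⟩) (C' := ⟨_, hC⟩) (coneS Λ w)
        ((F.obj ⟨C, hC⟩).map s.op x)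
      nat_left := fun {j j'} f l s w => by
        refine Eq.trans ?_ (F.act_comp (C := ⟨_, hp j'.unop⟩) (C' := ⟨_, hp j.unop⟩)
          (C'' := ⟨_, hC⟩) (MpS.ofHom l.unop (p.map f.unop)) (coneS Λ w) _)
        refine congrArg (fun t => F.act (C := ⟨_, hp j'.unop⟩) (C' := ⟨_, hC⟩) t _) ?_
        refine MpS.ext ?_
        funext a m s' y
        refine congrArg ((Λ.app a).app m) (congrArg (HS.mk (Chain.res (WS.σ w) s')) ?_)
        refine Eq.trans ?_ (diag_comp p f.unop (WS.u w ≫ Chain.zeroTo (WS.σ w) s') y)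
        exact congrArg (fun f => ((p.map f).app a).app m y)
          (Category.assoc f.unop (WS.u w) (Chain.zeroTo (WS.σ w) s'))
      nat_right := fun j l m g s w => by
        refine Eq.trans ?_ (F.act_nat (C := ⟨_, hp j.unop⟩) (C' := ⟨_, hC⟩) g (coneS Λ w) _)
        refine congrArg₂ (F.act (C := ⟨_, hp j.unop⟩) (C' := ⟨_, hC⟩)) ?_ ?_
        · refine MpS.ext ?_
          funext a r s' y
          refine congrArg ((Λ.app a).app r)
            (congrArg (HS.mk (Chain.res (WS.σ w) (s' ≫ g.unop))) ?_)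
          refine congrArg (fun f => ((p.map f).app a).app r y) ?_
          refine (Category.assoc (WS.u w) (Chain.zeroTo (WS.σ w) g.unop) _).trans ?_
          exact congrArg (WS.u w ≫ ·) ((WS.σ w).map_comp _ _ _ _ _)
        · exact sset_comp _ _ _ _ }
  naturality k k' α := by
    ext x
    refine MpS.ext ?_
    funext j l s w
    exact congrArg _ (sset_comp _ α s.op x).symm

/-- Gaunt colimit diagrams: diagrams `p : J ⥤ Cat_n` together with a coherent cocone
`Λ : hocolim p ⟶ C` such that for all `i ≤ n` and all `Z ∈ Cat_n` the map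
`Map(C ∘ t_i, Z) ⟶ Map(hocolim_j p(j) ∘ t_i, Z)` is an equivalence, i.e. the induced cocone
`p(j)_{≤ i} ⟶ C_{≤ i}` is a colimit cocone. -/
structure IsGaunt {J : Type} [SmallCategory J] (p : J ⥤ SP (Th n)) {C : SP (Th n)}
    (Λ : Hoco p ⟶ C) : Prop where
  cat_obj : ∀ j, IsCat n (p.obj j)
  cat_pt : IsCat n C
  colim : ∀ i : ℕ, i ≤ n → ∀ Z : SP (Th n), IsCat n Z →
    HoEq (Mp.pre (Functor.whiskerLeft (tr n i).op Λ) Z)

/-- A presheaf on `Cat_n` satisfies gaunt descent if it sends (the opposites of) gaunt colimit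
diagrams to limit diagrams. -/
def PSh.GauntDescent (F : PSh n) : Prop :=
  ∀ (J : Type) [SmallCategory J] (p : J ⥤ SP (Th n)) (C : SP (Th n)) (Λ : Hoco p ⟶ C)
    (h : IsGaunt p Λ), HoEq (F.compare p h.cat_obj h.cat_pt Λ)

/-- The restricted Yoneda functor: `(Y D)(C) = Map(C_{≤ 0} ⟶ … ⟶ C_{≤ n}, D)`. -/
noncomputable def YD (D : SP (Gn n)) : PSh n where
  obj C := Mp (filt C.1) D
  act φ ψ := MpS.comp (filtS φ) ψ
  act_nat _ _ _ := rfl
  act_id _ := rfl
  act_comp _ _ _ := rfl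

/-- The functoriality of `YD` in `D`, as a map of mapping spaces. -/
noncomputable def YDmap (D D' : SP (Gn n)) :
    SSet.uliftFunctor.{1, 0}.obj (Mp D D') ⟶ PSh.Map (YD D) (YD D') where
  app m := ↾ fun φ =>
    { app := fun C k s ψ => MpS.comp ψ (MpS.res s φ.down)
      nat := fun C k l g s ψ => rfl
      act := fun s φ ψ => rfl }
  naturality m m' α := by
    ext φ
    rfl

end Presheaves

end FL
end

/- Helper58.FL.Statement -/
section
/-!
# The conjecture and the listed known theorems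
-/

open CategoryTheory MonoidalCategory Opposite

set_option autoImplicit false

namespace FL

section Sieves

variable {A : Type} [SmallCategory A]

/-- The objects of the category of arrows of a sieve. -/
structure SvObj {a : A} (S : Sieve a) : Type where
  b : A
  f : b ⟶ a
  mem : S.arrows f

/-- The category of arrows `b ⟶ a` belonging to a sieve on `a`, a full subcategory of `A/a`. -/
instance {a : A} (S : Sieve a) : SmallCategory (SvObj S) where
  Hom x y := { g : x.b ⟶ y.b // g ≫ y.f = x.f }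
  id x := ⟨𝟙 _, Category.id_comp _⟩
  comp {x y z} g h := ⟨g.1 ≫ h.1, by rw [Category.assoc, h.2, g.2]⟩
  id_comp g := Subtype.ext (Category.id_comp _)
  comp_id g := Subtype.ext (Category.comp_id _)
  assoc g h k := Subtype.ext (Category.assoc _ _ _)

/-- The projection `(b ⟶ a) ↦ b`. -/
@[simps]
def svProj {a : A} (S : Sieve a) : SvObj S ⥤ A where
  obj x := x.b
  map g := g.1

/-- The comparison map `X(a) ⟶ holim X(b)`, the homotopy limit being taken over the arrows
`b ⟶ a` of the sieve `S`. -/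
def sieveCompare (X : SP A) {a : A} (S : Sieve a) :
    X.obj (op a) ⟶ Holim ((svProj S).op ⋙ X) where
  app k := ↾ fun x =>
    { app := fun j _ s _ => (X.map j.unop.f.op).app _ ((X.obj (op a)).map s.op x)
      nat_left := fun {j j'} f l s w => by
        have e : j.unop.f.op ≫ f.unop.1.op = j'.unop.f.op :=
          Quiver.Hom.unop_inj f.unop.2
        refine (congrArg (fun t => (X.map t).app l _) e.symm).trans ?_
        exact sp_comp X _ _ _
      nat_right := fun j l m g s w => by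
        refine (congrArg _ (sset_comp _ s.op g x)).trans ?_
        exact sp_nat X _ _ _ }
  naturality k k' α := by
    ext x
    refine MpS.ext ?_
    funext j l s w
    exact congrArg _ (sset_comp _ α s.op x).symm

/-- The diagram of representable presheaves of a sieve. -/
abbrev svDiag {a : A} (S : Sieve a) : SvObj S ⥤ SP A := svProj S ⋙ yo A

/-- The canonical cocone on the diagram of representable presheaves of a sieve on `a`. -/
def svCone {a : A} (S : Sieve a) : Hoco (svDiag S) ⟶ rep a where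
  app b :=
    { app := fun k => ↾ fun (w : HS (svDiag S) b k) => w.x ≫ (w.σ.obj 0).f
      naturality := fun k l α => by
        ext w
        refine (Category.assoc (obj := A) (HS.x w) ((HS.σ w).zeroTo α.unop).1 _).trans ?_
        exact congrArg (fun t => CategoryStruct.comp (obj := A) (HS.x w) t)
          ((HS.σ w).zeroTo α.unop).2 }
  naturality b b' f := by
    ext k w
    exact Category.assoc (obj := A) _ _ _

end Sieves

section Statement

variable {n : ℕ}

/-- Segal presheaves: presheaves which send (the opposites of) the Segal covers to limit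
diagrams. -/
def SegalDescent (X : SP (Th n)) : Prop :=
  ∀ (θ : Th n) (S : Sieve θ), SegCov n θ S → HoEq (sieveCompare X S)

/-- The theorem of Ayala and Francis on flagged `(∞,n)`-categories (listed as known): the
restricted Yoneda functor `N : fCat_n ⟶ PShv(Θ_n)` is fully faithful, and its essential image
consists of the Segal presheaves. -/
def KnownTheorem (n : ℕ) : Prop :=
  (∀ D D' : SP (Gn n), Flagged D → Flagged D' → HoEq (NDmap D D')) ∧
  ∀ X : SP (Th n), ObjKan X →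
    (SegalDescent X ↔ ∃ D : SP (Gn n), Flagged D ∧ ∃ f : X ⟶ ND D, ObjHoEq f)

/-- The fact (listed as known) that Segal covers are gaunt colimit diagrams in `Cat_n`. -/
def KnownGaunt (n : ℕ) : Prop :=
  ∀ (θ : Th n) (S : Sieve θ), SegCov n θ S → IsGaunt (svDiag S) (svCone S)

/-- The conjecture of Ayala and Francis (the affirmative answer to Q1): the restricted Yoneda
functor `Y : fCat_n ⟶ PShv(Cat_n)` is fully faithful, and its essential image consists of the
presheaves satisfying gaunt descent. -/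
def Conjecture (n : ℕ) : Prop :=
  (∀ D D' : SP (Gn n), Flagged D → Flagged D' → HoEq (YDmap D D')) ∧
  ∀ F : PSh n, F.Kan →
    (F.GauntDescent ↔ ∃ D : SP (Gn n), Flagged D ∧ PSh.Equiv F (YD D))

end Statement

end FL
end

/- Helper58.FL.Can -/
section
/-!
# The canonical diagram of a simplicial presheaf, tensors, the last vertex map
-/

open CategoryTheory MonoidalCategory Opposite

set_option autoImplicit false

namespace FL

section Tensor

variable {A : Type} [SmallCategory A]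

/-- The tensor of a simplicial presheaf with a simplicial set. -/
def tn (X : SP A) (K : SSet.{0}) : SP A := X ⋙ tensorRight K

/-- Functoriality of the tensor. -/
def tnMap {X Y : SP A} {K L : SSet.{0}} (f : X ⟶ Y) (g : K ⟶ L) : tn X K ⟶ tn Y L where
  app a := f.app a ⊗ₘ g
  naturality a b h := by
    ext k ⟨x, y⟩
    exact Prod.ext (hom_nat f h x) rfl

@[simp] lemma tn_obj_obj (X : SP A) (K : SSet.{0}) (a : Aᵒᵖ) (k : SimplexCategoryᵒᵖ) :
    ((tn X K).obj a).obj k = ((X.obj a).obj k × K.obj k) := rfl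

lemma tnMap_app_app {X Y : SP A} {K L : SSet.{0}} (f : X ⟶ Y) (g : K ⟶ L) (a : Aᵒᵖ)
    (k : SimplexCategoryᵒᵖ) (x : (X.obj a).obj k) (y : K.obj k) :
    ((tnMap f g).app a).app k (x, y) = ((f.app a).app k x, g.app k y) := rfl

lemma tn_map_app {X : SP A} {K : SSet.{0}} {a b : Aᵒᵖ} (f : a ⟶ b)
    (k : SimplexCategoryᵒᵖ) (x : (X.obj a).obj k) (y : K.obj k) :
    ((tn X K).map f).app k (x, y) = ((X.map f).app k x, y) := rfl

lemma tn_obj_map {X : SP A} {K : SSet.{0}} {a : Aᵒᵖ}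
    {k l : SimplexCategoryᵒᵖ} (α : k ⟶ l) (x : (X.obj a).obj k) (y : K.obj k) :
    ((tn X K).obj a).map α (x, y) = ((X.obj a).map α x, K.map α y) := rfl

lemma tnMap_id (X : SP A) (K : SSet.{0}) : tnMap (𝟙 X) (𝟙 K) = 𝟙 _ := rfl

lemma tnMap_comp {X Y Z : SP A} {K L M : SSet.{0}} (f : X ⟶ Y) (g : K ⟶ L) (f' : Y ⟶ Z)
    (g' : L ⟶ M) : tnMap f g ≫ tnMap f' g' = tnMap (f ≫ f') (g ≫ g') := rfl

/-- The universal property of the mapping space: maps `K ⟶ Map(X, Y)` are maps
`X ⊗ K ⟶ Y`. -/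
def Mp.adj {X Y : SP A} {K : SSet.{0}} : (K ⟶ Mp X Y) ≃ (tn X K ⟶ Y) where
  toFun f :=
    { app := fun a =>
        { app := fun k => ↾ fun (z : (X.obj a).obj k × K.obj k) =>
            (f.app k z.2 : MpS X Y k.unop).app a k (𝟙 _) z.1
          naturality := fun k l α => by
            ext ⟨x, y⟩
            show (f.app l (K.map α y) : MpS X Y l.unop).app a l (𝟙 _) ((X.obj a).map α x) = _
            rw [sset_nat f α y]
            show (f.app k y : MpS X Y k.unop).app a l (𝟙 _ ≫ α.unop) ((X.obj a).map α x) = _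
            refine Eq.trans ?_ ((f.app k y : MpS X Y k.unop).nat_right a α (𝟙 _) x)
            rw [Category.comp_id, Category.id_comp] }
      naturality := fun a b g => by
        ext k ⟨x, y⟩
        exact (f.app k y : MpS X Y k.unop).nat_left g k (𝟙 _) x }
  invFun f :=
    { app := fun k => ↾ fun y =>
        { app := fun a l s x => (f.app a).app l (x, K.map s.op y)
          nat_left := fun g l s x => hom_nat f g (x, K.map s.op y)
          nat_right := fun a {l m} g s x => by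
            refine Eq.trans ?_ (hom_natk f g (x, K.map s.op y))
            refine congrArg ((f.app a).app m) (Prod.ext rfl ?_)
            exact sset_comp K s.op g y }
      naturality := fun k l α => by
        ext y
        refine MpS.ext ?_
        funext a m s x
        refine congrArg ((f.app a).app m) (Prod.ext rfl ?_)
        exact (sset_comp K α s.op y).symm }
  left_inv f := by
    ext k y
    refine MpS.ext ?_
    funext a l s x
    show (f.app l (K.map s.op y) : MpS X Y l.unop).app a l (𝟙 _) x = _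
    rw [sset_nat f s.op y]
    show (f.app k y : MpS X Y k.unop).app a l (𝟙 _ ≫ s) x = _
    rw [Category.id_comp]
    rfl
  right_inv f := by
    ext a k ⟨x, y⟩
    refine congrArg ((f.app a).app k) (Prod.ext rfl ?_)
    exact sset_id K y

lemma Mp.adj_apply {X Y : SP A} {K : SSet.{0}} (f : K ⟶ Mp X Y) (a : Aᵒᵖ)
    (k : SimplexCategoryᵒᵖ) (x : (X.obj a).obj k) (y : K.obj k) :
    ((Mp.adj f).app a).app k (x, y) = (f.app k y : MpS X Y k.unop).app a k (𝟙 _) x := rfl

lemma Mp.adj_symm_apply {X Y : SP A} {K : SSet.{0}} (f : tn X K ⟶ Y) (k : SimplexCategoryᵒᵖ)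
    (y : K.obj k) (a : Aᵒᵖ) (l : SimplexCategoryᵒᵖ) (s : l.unop ⟶ k.unop)
    (x : (X.obj a).obj l) :
    ((Mp.adj.symm f).app k y : MpS X Y k.unop).app a l s x = (f.app a).app l (x, K.map s.op y) :=
  rfl

lemma Mp.adj_pre {X X' Y : SP A} {K : SSet.{0}} (g : X ⟶ X') (f : K ⟶ Mp X' Y) :
    Mp.adj (f ≫ Mp.pre g Y) = tnMap g (𝟙 K) ≫ Mp.adj f := rfl

lemma Mp.adj_post {X Y Y' : SP A} {K : SSet.{0}} (g : Y ⟶ Y') (f : K ⟶ Mp X Y) :
    Mp.adj (f ≫ Mp.post X g) = Mp.adj f ≫ g := rfl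

lemma Mp.adj_comp {X Y : SP A} {K L : SSet.{0}} (j : K ⟶ L) (f : L ⟶ Mp X Y) :
    Mp.adj (j ≫ f) = tnMap (𝟙 X) j ≫ Mp.adj f := rfl

end Tensor

section LastVertex

/-- The image of a chain under a functor. -/
@[simps obj map]
def Chain.push {I J : Type} [SmallCategory I] [SmallCategory J] (F : I ⥤ J)
    {k : SimplexCategory} (σ : Chain I k) : Chain J k where
  obj i := F.obj (σ.obj i)
  map i j h := F.map (σ.map i j h)
  map_id i := by rw [σ.map_id, F.map_id]
  map_comp i j l h h' := by rw [← F.map_comp, σ.map_comp]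

/-- The last vertex map of a chain `[m_0] ⟶ … ⟶ [m_k]`: the map `[k] ⟶ [m_k]` sending `i` to
the image of the last vertex of `[m_i]`. -/
def lastV {k : SimplexCategory} (σ : Chain SimplexCategory k) : k ⟶ σ.obj (Fin.last _) :=
  SimplexCategory.Hom.mk
    ⟨fun i => (σ.map i (Fin.last _) (Fin.le_last i)).toOrderHom (Fin.last _), fun i j h => by
      show (σ.map i _ _).toOrderHom _ ≤ (σ.map j _ _).toOrderHom _
      rw [← σ.map_comp i j (Fin.last _) h (Fin.le_last j)]
      exact (σ.map j (Fin.last _) (Fin.le_last j)).toOrderHom.monotone (Fin.le_last _)⟩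

lemma lastV_res {k l : SimplexCategory} (σ : Chain SimplexCategory k) (α : l ⟶ k) :
    α ≫ lastV σ = lastV (σ.res α) ≫
      σ.map (α.toOrderHom (Fin.last _)) (Fin.last _) (Fin.le_last _) := by
  ext i : 3
  show (σ.map (α.toOrderHom i) (Fin.last _) _).toOrderHom (Fin.last _) =
    (σ.map (α.toOrderHom (Fin.last _)) (Fin.last _) _).toOrderHom
      ((σ.map (α.toOrderHom i) (α.toOrderHom (Fin.last _)) _).toOrderHom (Fin.last _))
  rw [← σ.map_comp (α.toOrderHom i) (α.toOrderHom (Fin.last _)) (Fin.last _)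
    (α.toOrderHom.monotone (Fin.le_last i)) (Fin.le_last _)]
  rfl

/-- The category of simplices of a simplicial set. -/
structure Simp (K : SSet.{0}) : Type where
  m : SimplexCategory
  x : K.obj (op m)

instance (K : SSet.{0}) : SmallCategory (Simp K) where
  Hom e e' := { g : e.m ⟶ e'.m // K.map g.op e'.x = e.x }
  id _ := ⟨𝟙 _, sset_id K _⟩
  comp g h := ⟨g.1 ≫ h.1, (sset_comp K h.1.op g.1.op _).trans
    ((congrArg (K.map g.1.op) h.2).trans g.2)⟩
  id_comp _ := Subtype.ext (Category.id_comp _)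
  comp_id _ := Subtype.ext (Category.comp_id _)
  assoc _ _ _ := Subtype.ext (Category.assoc _ _ _)

/-- The forgetful functor from the category of simplices to `Δ`. -/
@[simps]
def Simp.toΔ (K : SSet.{0}) : Simp K ⥤ SimplexCategory where
  obj e := Simp.m e
  map g := g.1

/-- The last vertex map `N(Δ/K) ⟶ K`. -/
def lastMap (K : SSet.{0}) : Nv (Simp K) ⟶ K where
  app k := ↾ fun (σ : Chain (Simp K) k.unop) =>
    K.map (lastV (σ.push (Simp.toΔ K))).op (σ.obj (Fin.last _)).x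
  naturality k l α := by
    ext (σ : Chain (Simp K) k.unop)
    show K.map (lastV ((σ.res α.unop).push (Simp.toΔ K))).op
        (σ.obj (α.unop.toOrderHom (Fin.last _))).x =
      K.map α (K.map (lastV (σ.push (Simp.toΔ K))).op (σ.obj (Fin.last _)).x)
    rw [← (σ.map (α.unop.toOrderHom (Fin.last _)) (Fin.last _) (Fin.le_last _)).2]
    refine (sset_comp K _ _ _).symm.trans (Eq.trans ?_ (sset_comp K _ _ _))
    refine congrArg (fun t => K.map t (σ.obj (Fin.last _)).x) ?_
    exact congrArg Quiver.Hom.op (lastV_res (σ.push (Simp.toΔ K)) α.unop).symm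

end LastVertex

section Canonical

variable {A : Type} [SmallCategory A]

/-- The objects of the category of elements of a simplicial presheaf `C`: triples `(a, m, x)`
with `x ∈ C(a)_m`. -/
structure El (C : SP A) : Type where
  a : A
  m : SimplexCategory
  x : (C.obj (op a)).obj (op m)

/-- Morphisms of the category of elements. -/
@[ext]
structure El.Hom {C : SP A} (e e' : El C) : Type where
  f : e.a ⟶ e'.a
  g : e.m ⟶ e'.m
  h : (C.map f.op).app _ ((C.obj (op e'.a)).map g.op e'.x) = e.x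

instance (C : SP A) : SmallCategory (El C) where
  Hom := El.Hom
  id _ := ⟨𝟙 _, 𝟙 _, (sp_id C _).trans (sset_id _ _)⟩
  comp {e e' e''} u v := ⟨u.f ≫ v.f, u.g ≫ v.g, by
    refine (sp_comp C v.f.op u.f.op _).trans (Eq.trans ?_ u.h)
    refine congrArg ((C.map u.f.op).app _) ?_
    refine (congrArg ((C.map v.f.op).app _) (sset_comp _ v.g.op u.g.op _)).trans ?_
    refine (sp_nat C v.f.op u.g.op _).trans ?_
    exact congrArg ((C.obj _).map u.g.op) v.h⟩
  id_comp _ := El.Hom.ext (Category.id_comp _) (Category.id_comp _)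
  comp_id _ := El.Hom.ext (Category.comp_id _) (Category.comp_id _)
  assoc _ _ _ := El.Hom.ext (Category.assoc _ _ _) (Category.assoc _ _ _)

/-- The projection of the category of elements of `C` to `A`. -/
@[simps]
def El.toA (C : SP A) : El C ⥤ A where
  obj e := El.a e
  map u := El.Hom.f u

/-- The projection of the category of elements of `C` to `Δ`. -/
@[simps]
def El.toΔ (C : SP A) : El C ⥤ SimplexCategory where
  obj e := El.m e
  map u := El.Hom.g u

/-- The canonical diagram of a simplicial presheaf `C`: the diagram of representable presheaves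
`h_a` indexed by the category of elements of `C`. -/
abbrev canDiag (C : SP A) : El C ⥤ SP A := El.toA C ⋙ yo A

lemma can_aux (C : SP A) {a a' b : A} {m m' k l : SimplexCategory}
    (x : (C.obj (op a)).obj (op m)) (f : a' ⟶ a) (g : m' ⟶ m)
    (x' : (C.obj (op a')).obj (op m'))
    (hx : (C.map f.op).app _ ((C.obj (op a)).map g.op x) = x') (v : k ⟶ m) (v' : l ⟶ m')
    (α : l ⟶ k) (hv : α ≫ v = v' ≫ g) (w : b ⟶ a) (w' : b ⟶ a') (hw : w' ≫ f = w) :
    (C.map w'.op).app (op l) ((C.obj (op a')).map v'.op x') =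
      (C.obj (op b)).map α.op ((C.map w.op).app (op k) ((C.obj (op a)).map v.op x)) := by
  subst hx hw
  rw [← sp_nat, ← sp_nat, ← sset_comp, ← sset_comp, ← sp_comp, ← op_comp, ← op_comp, ← op_comp, hv]

/-- The canonical cocone `hocolim h_a ⟶ C`, given by the last vertex map. -/
def canCone (C : SP A) : Hoco (canDiag C) ⟶ C where
  app b :=
    { app := fun k => ↾ fun (w : HS (canDiag C) b k) =>
        (C.map (Quiver.Hom.op ((w.x : b.unop ⟶ (w.σ.obj 0).a) ≫
          El.Hom.f (w.σ.map 0 (Fin.last _) (Fin.zero_le _))))).app k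
          ((C.obj (op (w.σ.obj (Fin.last _)).a)).map (lastV (w.σ.push (El.toΔ C))).op
            (w.σ.obj (Fin.last _)).x)
      naturality := fun k l α => by
        ext (w : HS (canDiag C) b k)
        obtain ⟨σ, (u : b.unop ⟶ (σ.obj 0).a)⟩ := w
        have hx := El.Hom.h (σ.map (α.unop.toOrderHom (Fin.last _)) (Fin.last _) (Fin.le_last _))
        have hf : El.Hom.f (σ.map 0 (Fin.last _) (Fin.zero_le _)) =
            El.Hom.f (σ.map 0 (α.unop.toOrderHom 0) (Fin.zero_le _)) ≫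
            El.Hom.f (σ.map (α.unop.toOrderHom 0) (α.unop.toOrderHom (Fin.last _))
              (α.unop.toOrderHom.monotone (Fin.zero_le _))) ≫
            El.Hom.f (σ.map (α.unop.toOrderHom (Fin.last _)) (Fin.last _) (Fin.le_last _)) := by
          rw [← σ.map_comp 0 (α.unop.toOrderHom 0) (Fin.last _) (Fin.zero_le _) (Fin.le_last _),
            ← σ.map_comp (α.unop.toOrderHom 0) (α.unop.toOrderHom (Fin.last _)) (Fin.last _)
              (α.unop.toOrderHom.monotone (Fin.zero_le _)) (Fin.le_last _)]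
          rfl
        refine can_aux C _ _ _ _ hx (lastV (σ.push (El.toΔ C)))
          (lastV ((σ.push (El.toΔ C)).res α.unop)) α.unop (lastV_res _ _) _ _ ?_
        rw [hf]
        refine (Category.assoc _ _ _).trans ?_
        exact Category.assoc u _ _ }
  naturality b b' f := by
    ext k (w : HS (canDiag C) b k)
    obtain ⟨σ, (u : b.unop ⟶ (σ.obj 0).a)⟩ := w
    show (C.map (Quiver.Hom.op ((f.unop ≫ u) ≫
        El.Hom.f (σ.map 0 (Fin.last _) (Fin.zero_le _))))).app k _ =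
      (C.map f).app k ((C.map (Quiver.Hom.op (u ≫
        El.Hom.f (σ.map 0 (Fin.last _) (Fin.zero_le _))))).app k _)
    rw [← sp_comp, Category.assoc]
    rfl

end Canonical

section Restriction

variable {n : ℕ}

/-- The restriction of a presheaf on `Cat_n` to `Θ_n`. -/
noncomputable abbrev PSh.restr (F : PSh n) (hrep : ∀ θ : Th n, IsCat n (rep θ)) : SP (Th n) :=
  F.along (yo (Th n)) hrep

/-- The simplex of `Map(h_a, C)` corresponding to a simplex of `C(a)` (Yoneda). -/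
def yoS {A : Type} [SmallCategory A] {C : SP A} {a : A} {k : SimplexCategory}
    (x : (C.obj (op a)).obj (op k)) : MpS (rep a) C k where
  app b l s u := (C.map (Quiver.Hom.op (u : b.unop ⟶ a))).app l ((C.obj (op a)).map s.op x)
  nat_left f l s u := sp_comp C (Quiver.Hom.op (u : _ ⟶ a)) f _
  nat_right b l m g s u := by
    refine (congrArg _ (sset_comp _ s.op g x)).trans ?_
    exact sp_nat C (Quiver.Hom.op (u : b.unop ⟶ a)) g _

end Restriction

end FL
end

/- Helper58.FL.Tools -/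
section
/-!
# Auxiliary notions for the proofs (homotopies, trivial fibrations, injective fibrations, …)
-/

open CategoryTheory MonoidalCategory Simplicial Opposite

set_option autoImplicit false

namespace FL

universe u

/-- Two maps of simplicial sets are homotopic. -/
def Htpy {X Y : SSet.{u}} (f g : X ⟶ Y) : Prop := Nonempty (SSet.Homotopy f g)

/-- Trivial fibrations of simplicial sets. -/
def TrivFib {E B : SSet.{0}} (p : E ⟶ B) : Prop :=
  ∀ n : ℕ, HasLiftingProperty (∂Δ[n].ι : (∂Δ[n] : SSet.{0}) ⟶ Δ[n]) p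

/-- Kan fibrations of simplicial sets. -/
abbrev KanFib {E B : SSet.{0}} (p : E ⟶ B) : Prop :=
  ∀ (n : ℕ) (i : Fin (n + 2)), HasLiftingProperty (Λ[n + 1, i].ι : (Λ[n + 1, i] : SSet.{0}) ⟶ _) p

section

variable {A : Type} [SmallCategory A]

/-- Deformation retractions of simplicial presheaves: maps `r` with a section `s` and
a simplicial homotopy from `r ≫ s` (at the vertex `0 = δ 1`) to the identity (at the vertex
`1 = δ 0`). -/
def SDR {X Y : SP A} (r : X ⟶ Y) : Prop :=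
  ∃ s : Y ⟶ X, s ≫ r = 𝟙 Y ∧ ∃ h : MpS X X ⦋1⦌,
    h.res (SimplexCategory.δ 1) = MpS.ofHom ⦋0⦌ (r ≫ s) ∧
    h.res (SimplexCategory.δ 0) = MpS.ofHom ⦋0⦌ (𝟙 X)

/-- Injective fibrations. -/
def InjFibration {Z Z' : SP A} (q : Z ⟶ Z') : Prop :=
  ∀ ⦃X Y : SP A⦄ (i : X ⟶ Y), TrivCof i → HasLiftingProperty i q

/-- Injective trivial fibrations: the right lifting property with respect to all objectwise
monomorphisms. -/
def InjTrivFibration {Z Z' : SP A} (q : Z ⟶ Z') : Prop :=
  ∀ ⦃X Y : SP A⦄ (i : X ⟶ Y), (∀ a, Mono (i.app a)) → HasLiftingProperty i q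

end

/-- Injectively fibrant presheaves on `Cat_n`. -/
def PSh.InjFib {n : ℕ} (G : PSh n) : Prop :=
  ∀ ⦃F F' : PSh n⦄ (i : PSh.Hom F F'), (∀ C, Mono (i.app C)) → (∀ C, WE (i.app C)) →
    ∀ f : PSh.Hom F G, ∃ g : PSh.Hom F' G, ∀ C, i.app C ≫ g.app C = f.app C

/-- The map of `i`-th levels induced by a map of simplicial presheaves on `Θ_n × [n]^op`. -/
noncomputable def levelHom {n : ℕ} {X Y : SP (Gn n)} (f : X ⟶ Y) (i : Fin (n + 1)) :
    level X i ⟶ level Y i :=
  Functor.whiskerLeft (Prod.sectL (Th n) (op i)).op f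

/-- The diagram `j ↦ Map(p(j), Z)` attached to a diagram `p` of simplicial presheaves. -/
noncomputable def mpDiag {A J : Type} [SmallCategory A] [SmallCategory J] (p : J ⥤ SP A) (Z : SP A) :
    SP J where
  obj j := Mp (p.obj j.unop) Z
  map f := Mp.pre (p.map f.unop) Z
  map_id j := by
    ext k φ
    refine MpS.ext ?_
    funext a l s x
    exact congrArg (MpS.app φ a l s) (diag_id p _)
  map_comp f g := by
    ext k φ
    refine MpS.ext ?_
    funext a l s x
    exact congrArg (MpS.app φ a l s) (diag_comp p _ _ _)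

end FL
end

/- Helper45.FL.Triv -/
section
/-! Trivial fibrations of simplicial sets. -/

open CategoryTheory MonoidalCategory CartesianMonoidalCategory Simplicial Opposite
  HomotopicalAlgebra Limits

set_option autoImplicit false

namespace Pool.Agent.Helper45.FL2

open FL SSet SSet.modelCategoryQuillen

universe u

/-- Constructor for homotopies. -/
theorem htpy_mk {X Y : SSet.{u}} {f g : X ⟶ Y} (h : X ⊗ Δ[1] ⟶ Y) (h₀ : SSet.ι₀ ≫ h = f)
    (h₁ : SSet.ι₁ ≫ h = g) : Htpy f g :=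
  ⟨{ h := h
     h₀ := h₀
     h₁ := h₁
     rel := by
      ext m ⟨⟨x, hx⟩, _⟩
      exact hx.elim }⟩

theorem htpy_elim {X Y : SSet.{u}} {f g : X ⟶ Y} (H : Htpy f g) :
    ∃ h : X ⊗ Δ[1] ⟶ Y, SSet.ι₀ ≫ h = f ∧ SSet.ι₁ ≫ h = g := by
  obtain ⟨H⟩ := H
  exact ⟨H.h, H.h₀, H.h₁⟩

theorem htpy_refl {X Y : SSet.{u}} (f : X ⟶ Y) : Htpy f f :=
  htpy_mk (fst _ _ ≫ f) (by rw [← Category.assoc, ι₀_fst, Category.id_comp])
    (by rw [← Category.assoc, ι₁_fst, Category.id_comp])

theorem fin2 : ∀ a : Fin (1 + 1), a = 0 ∨ a = 1 := by decide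

theorem horn_ι_const : (Λ[1, 0] : (Δ[1] : SSet.{u}).Subcomplex).ι =
    SSet.const (stdSimplex.obj₀Equiv.{u}.symm 0) := by
  ext ⟨m⟩ ⟨s, hs⟩
  induction m using SimplexCategory.rec with | _ m =>
  refine SSet.stdSimplex.ext _ _ fun i => ?_
  have h : s i ≠ 1 := by
    intro hi
    rw [mem_horn_iff_notMem_range] at hs
    obtain ⟨j, hj, hj'⟩ := hs
    apply hj'
    refine ⟨i, ?_⟩
    rw [hi]
    exact ((fin2 j).resolve_left hj).symm
  exact (fin2 (s i)).resolve_right h

/-- the chosen vertex -/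
theorem whisk {X : SSet.{u}} : X ◁ (Λ[1, 0] : (Δ[1] : SSet.{u}).Subcomplex).ι =
    fst _ _ ≫ SSet.ι₀ := by
  refine CartesianMonoidalCategory.hom_ext _ _ ?_ ?_
  · rw [whiskerLeft_fst, Category.assoc, ι₀_fst, Category.comp_id]
  · rw [whiskerLeft_snd, Category.assoc, ι₀_snd, horn_ι_const, comp_const, comp_const]

theorem whisk_δ_one {X : SSet.{u}} : X ◁ (stdSimplex.{u}.δ (1 : Fin 2)) =
    fst _ _ ≫ SSet.ι₀ := by
  refine CartesianMonoidalCategory.hom_ext _ _ ?_ ?_
  · rw [whiskerLeft_fst, Category.assoc, ι₀_fst, Category.comp_id]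
  · rw [whiskerLeft_snd, Category.assoc, ι₀_snd, stdSimplex.δ_one_eq_const, comp_const, comp_const]

theorem exists_sec {X : SSet.{u}} : ∃ j : X ⟶ X ⊗ (Λ[1, 0] : SSet.{u}), j ≫ fst _ _ = 𝟙 X := by
  refine ⟨lift (𝟙 X) (SSet.const ⟨stdSimplex.obj₀Equiv.{u}.symm 0, ?_⟩), lift_fst _ _⟩
  rw [mem_horn_iff_notMem_range]
  refine ⟨1, by decide, ?_⟩
  rintro ⟨i, hi⟩
  have h0 : (0 : Fin (1 + 1)) = 1 := hi
  exact absurd h0 (by decide)

/-- Relative path lifting. -/
theorem rel_path {X E B : SSet.{u}} (p : E ⟶ B) [Fibration p] (A : X.Subcomplex)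
    (h : X ⊗ Δ[1] ⟶ B) (f : X ⟶ E) (k : (A : SSet.{u}) ⊗ Δ[1] ⟶ E)
    (h1 : f ≫ p = SSet.ι₀ ≫ h) (h2 : k ≫ p = A.ι ▷ _ ≫ h) (h3 : SSet.ι₀ ≫ k = A.ι ≫ f) :
    ∃ h' : X ⊗ Δ[1] ⟶ E, h' ≫ p = h ∧ SSet.ι₀ ≫ h' = f ∧ A.ι ▷ _ ≫ h' = k := by
  have hA : anodyneExtensions (A.unionProd Λ[1, 0]).ι :=
    anodyneExtensions_unionProd_ι A _ (anodyneExtensions.horn_ι 0)
  have hp : (fibrations SSet.{u}) p := (HomotopicalAlgebra.fibration_iff p).1 inferInstance
  have hlp := hA p hp
  have hpo := Subcomplex.unionProd.isPushout A (Λ[1, 0] : (Δ[1] : SSet.{u}).Subcomplex)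
  have w : A.ι ▷ (Λ[1, 0] : SSet.{u}) ≫ fst _ _ ≫ f =
      (A : SSet.{u}) ◁ (Λ[1, 0] : (Δ[1] : SSet.{u}).Subcomplex).ι ≫ k := by
    rw [whisk, whiskerRight_fst_assoc, Category.assoc, h3]
  have hsq : CommSq (hpo.desc (fst _ _ ≫ f) k w) (A.unionProd Λ[1, 0]).ι p h := ⟨by
    apply hpo.hom_ext
    · rw [← Category.assoc, hpo.inl_desc, ← Category.assoc, Subcomplex.unionProd.ι₁_ι, whisk,
        Category.assoc, Category.assoc, h1]
    · rw [← Category.assoc, hpo.inr_desc, ← Category.assoc, Subcomplex.unionProd.ι₂_ι, h2]⟩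
  refine ⟨hsq.lift, hsq.fac_right, ?_, ?_⟩
  · have h4 : X ◁ (Λ[1, 0] : (Δ[1] : SSet.{u}).Subcomplex).ι ≫ hsq.lift = fst _ _ ≫ f := by
      rw [← Subcomplex.unionProd.ι₁_ι A, Category.assoc, hsq.fac_left, hpo.inl_desc]
    rw [whisk, Category.assoc] at h4
    obtain ⟨j, hj⟩ := exists_sec (X := X)
    rw [← cancel_epi (𝟙 X), ← hj, Category.assoc, Category.assoc, h4]
  · rw [← Subcomplex.unionProd.ι₂_ι A, Category.assoc, hsq.fac_left, hpo.inr_desc]

/-- Filling of the horn `Λ[2, 0]` in spaces of maps. -/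
theorem horn_fill {X E B : SSet.{u}} (p : E ⟶ B) [Fibration p] (e₁ e₂ : X ⊗ Δ[1] ⟶ E)
    (b : X ⊗ Δ[2] ⟶ B) (h : SSet.ι₀ ≫ e₁ = SSet.ι₀ ≫ e₂)
    (h₁ : X ◁ stdSimplex.δ (2 : Fin 3) ≫ b = e₁ ≫ p)
    (h₂ : X ◁ stdSimplex.δ (1 : Fin 3) ≫ b = e₂ ≫ p) :
    ∃ l : X ⊗ Δ[2] ⟶ E, X ◁ stdSimplex.δ (2 : Fin 3) ≫ l = e₁ ∧
      X ◁ stdSimplex.δ (1 : Fin 3) ≫ l = e₂ ∧ l ≫ p = b := by
  have w : stdSimplex.{u}.δ (1 : Fin 2) ≫ MonoidalClosed.curry e₁ =
      stdSimplex.{u}.δ (1 : Fin 2) ≫ MonoidalClosed.curry e₂ := by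
    rw [← MonoidalClosed.curry_natural_left, ← MonoidalClosed.curry_natural_left, whisk_δ_one,
      Category.assoc, Category.assoc, h]
  have hpo := horn₂₀.isPushout.{u}
  have i1 : horn₂₀.ι₀₁.{u} ≫ Λ[2, 0].ι = stdSimplex.δ (2 : Fin 3) := horn.ι_ι _ _ _
  have i2 : horn₂₀.ι₀₂.{u} ≫ Λ[2, 0].ι = stdSimplex.δ (1 : Fin 3) := horn.ι_ι _ _ _
  have hsq : CommSq (hpo.desc (MonoidalClosed.curry e₁) (MonoidalClosed.curry e₂) w)
      Λ[2, 0].ι ((ihom X).map p) (MonoidalClosed.curry b) := ⟨by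
    apply hpo.hom_ext
    · rw [← Category.assoc, hpo.inl_desc, ← MonoidalClosed.curry_natural_right, ← h₁,
        MonoidalClosed.curry_natural_left, ← i1, Category.assoc]
    · rw [← Category.assoc, hpo.inr_desc, ← MonoidalClosed.curry_natural_right, ← h₂,
        MonoidalClosed.curry_natural_left, ← i2, Category.assoc]⟩
  refine ⟨MonoidalClosed.uncurry hsq.lift, ?_, ?_, ?_⟩
  · rw [← MonoidalClosed.uncurry_natural_left, ← i1, Category.assoc, hsq.fac_left, hpo.inl_desc,
      MonoidalClosed.uncurry_curry]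
  · rw [← MonoidalClosed.uncurry_natural_left, ← i2, Category.assoc, hsq.fac_left, hpo.inr_desc,
      MonoidalClosed.uncurry_curry]
  · rw [← MonoidalClosed.uncurry_natural_right, hsq.fac_right, MonoidalClosed.uncurry_curry]

theorem ends₀ {X : SSet.{u}} : SSet.ι₀ ≫ X ◁ stdSimplex.{u}.δ (0 : Fin 3) =
    SSet.ι₁ ≫ X ◁ stdSimplex.{u}.δ (2 : Fin 3) := by
  refine CartesianMonoidalCategory.hom_ext _ _ ?_ ?_
  · rw [Category.assoc, Category.assoc, whiskerLeft_fst, whiskerLeft_fst, ι₀_fst, ι₁_fst]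
  · rw [Category.assoc, Category.assoc, whiskerLeft_snd, whiskerLeft_snd, ← Category.assoc,
      ← Category.assoc, ι₀_snd, ι₁_snd, const_comp, const_comp]
    congr 1

theorem ends₁ {X : SSet.{u}} : SSet.ι₁ ≫ X ◁ stdSimplex.{u}.δ (0 : Fin 3) =
    SSet.ι₁ ≫ X ◁ stdSimplex.{u}.δ (1 : Fin 3) := by
  refine CartesianMonoidalCategory.hom_ext _ _ ?_ ?_
  · rw [Category.assoc, Category.assoc, whiskerLeft_fst, whiskerLeft_fst]
  · rw [Category.assoc, Category.assoc, whiskerLeft_snd, whiskerLeft_snd, ← Category.assoc,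
      ← Category.assoc, ι₁_snd, const_comp, const_comp]
    congr 1

/-- The third edge of a horn. -/
theorem horn_edge {X E B : SSet.{u}} (p : E ⟶ B) [Fibration p] (e₁ e₂ : X ⊗ Δ[1] ⟶ E)
    (b : X ⊗ Δ[2] ⟶ B) (h : SSet.ι₀ ≫ e₁ = SSet.ι₀ ≫ e₂)
    (h₁ : X ◁ stdSimplex.δ (2 : Fin 3) ≫ b = e₁ ≫ p)
    (h₂ : X ◁ stdSimplex.δ (1 : Fin 3) ≫ b = e₂ ≫ p) :
    ∃ H : X ⊗ Δ[1] ⟶ E, SSet.ι₀ ≫ H = SSet.ι₁ ≫ e₁ ∧ SSet.ι₁ ≫ H = SSet.ι₁ ≫ e₂ ∧
      H ≫ p = X ◁ stdSimplex.δ (0 : Fin 3) ≫ b := by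
  obtain ⟨l, hl₁, hl₂, hl₃⟩ := horn_fill p e₁ e₂ b h h₁ h₂
  refine ⟨X ◁ stdSimplex.δ (0 : Fin 3) ≫ l, ?_, ?_, ?_⟩
  · rw [← Category.assoc, ends₀, Category.assoc, hl₁]
  · rw [← Category.assoc, ends₁, Category.assoc, hl₂]
  · rw [Category.assoc, hl₃]

theorem boundary_const {m : SimplexCategoryᵒᵖ} (s : (∂Δ[1] : SSet.{u}).obj m)
    (i j : Fin (m.unop.len + 1)) :
    stdSimplex.asOrderHom s.1 i = stdSimplex.asOrderHom s.1 j := by
  have hs : ¬ Function.Surjective (stdSimplex.asOrderHom s.1) := s.2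
  by_contra hne
  apply hs
  intro b
  rcases fin2 (stdSimplex.asOrderHom s.1 i) with h1 | h1 <;>
    rcases fin2 (stdSimplex.asOrderHom s.1 j) with h2 | h2 <;> rcases fin2 b with h3 | h3
  · exact absurd (h1.trans h2.symm) hne
  · exact absurd (h1.trans h2.symm) hne
  · exact ⟨i, h1.trans h3.symm⟩
  · exact ⟨j, h2.trans h3.symm⟩
  · exact ⟨j, h2.trans h3.symm⟩
  · exact ⟨i, h1.trans h3.symm⟩
  · exact absurd (h1.trans h2.symm) hne
  · exact absurd (h1.trans h2.symm) hne

open Classical in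
/-- The map given by two maps on the ends. -/
noncomputable def two {X Y : SSet.{u}} (f g : X ⟶ Y) : X ⊗ (∂Δ[1] : SSet.{u}) ⟶ Y where
  app m := ↾ fun z => if stdSimplex.asOrderHom z.2.1 0 = 0 then f.app m z.1 else g.app m z.1
  naturality m n α := by
    ext ⟨x, s⟩
    have h1 : stdSimplex.asOrderHom (((∂Δ[1] : SSet.{u}).map α s).1) 0 =
        stdSimplex.asOrderHom s.1 0 := boundary_const s _ _
    change (if stdSimplex.asOrderHom (((∂Δ[1] : SSet.{u}).map α s).1) 0 = 0 then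
      f.app n (X.map α x) else g.app n (X.map α x)) =
      Y.map α (if stdSimplex.asOrderHom s.1 0 = 0 then f.app m x else g.app m x)
    rw [h1]
    split_ifs
    · exact NatTrans.naturality_apply f α x
    · exact NatTrans.naturality_apply g α x

theorem obj₀_mem (i : Fin (1 + 1)) :
    stdSimplex.obj₀Equiv.{u}.symm i ∈ (∂Δ[1] : (Δ[1] : SSet.{u}).Subcomplex).obj (op ⦋0⦌) := by
  rw [boundary_obj_eq_univ 0 1 (by decide)]
  trivial

/-- the ends of the cylinder -/
noncomputable def en (X : SSet.{u}) (i : Fin (1 + 1)) : X ⟶ X ⊗ (∂Δ[1] : SSet.{u}) :=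
  CartesianMonoidalCategory.lift (𝟙 X) (SSet.const ⟨stdSimplex.obj₀Equiv.{u}.symm i, obj₀_mem i⟩)

theorem en_zero (X : SSet.{u}) : en X 0 ≫ X ◁ (∂Δ[1] : (Δ[1] : SSet.{u}).Subcomplex).ι =
    SSet.ι₀ := by
  refine CartesianMonoidalCategory.hom_ext _ _ ?_ ?_
  · rw [Category.assoc, whiskerLeft_fst, en, lift_fst, ι₀_fst]
  · rw [Category.assoc, whiskerLeft_snd, en, lift_snd_assoc, ι₀_snd, const_comp]
    rfl

theorem en_one (X : SSet.{u}) : en X 1 ≫ X ◁ (∂Δ[1] : (Δ[1] : SSet.{u}).Subcomplex).ι =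
    SSet.ι₁ := by
  refine CartesianMonoidalCategory.hom_ext _ _ ?_ ?_
  · rw [Category.assoc, whiskerLeft_fst, en, lift_fst, ι₁_fst]
  · rw [Category.assoc, whiskerLeft_snd, en, lift_snd_assoc, ι₁_snd, const_comp]
    rfl

theorem en_zero_two {X Y : SSet.{u}} (f g : X ⟶ Y) : en X 0 ≫ two f g = f := by
  ext m x
  refine Eq.trans (b := if stdSimplex.asOrderHom ((en X 0).app m x).2.1 0 = 0 then f.app m x
    else g.app m x) rfl (if_pos rfl)

theorem en_one_two {X Y : SSet.{u}} (f g : X ⟶ Y) : en X 1 ≫ two f g = g := by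
  ext m x
  refine Eq.trans (b := if stdSimplex.asOrderHom ((en X 1).app m x).2.1 0 = 0 then f.app m x
    else g.app m x) rfl (if_neg ?_)
  intro h
  have h0 : (1 : Fin (1 + 1)) = 0 := h
  exact absurd h0 (by decide)

theorem two_comp {X Y Z : SSet.{u}} (f g : X ⟶ Y) (p : Y ⟶ Z) (q : X ⟶ Z) (hf : f ≫ p = q)
    (hg : g ≫ p = q) : two f g ≫ p = fst _ _ ≫ q := by
  ext m ⟨x, s⟩
  change p.app m (if stdSimplex.asOrderHom s.1 0 = 0 then f.app m x else g.app m x) = q.app m x
  split_ifs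
  · rw [← hf]; rfl
  · rw [← hg]; rfl

theorem TrivFib.lift {E B : SSet.{0}} {p : E ⟶ B} (hp : TrivFib p) {K L : SSet.{0}} (i : K ⟶ L)
    [Mono i] : HasLiftingProperty i p := by
  have h1 : I.{0}.rlp p := by
    rintro _ _ _ ⟨n⟩
    exact hp n
  rw [← rlp_monomorphisms] at h1
  exact h1 i (MorphismProperty.monomorphisms.infer_property _)

theorem mono_whiskerLeft (X : SSet.{u}) {K L : SSet.{u}} (i : K ⟶ L) [Mono i] :
    Mono (X ◁ i) := by
  constructor
  intro Z g h w
  refine CartesianMonoidalCategory.hom_ext _ _ ?_ ?_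
  · have := congr($w ≫ fst _ _)
    simpa only [Category.assoc, whiskerLeft_fst] using this
  · have := congr($w ≫ snd _ _)
    simp only [Category.assoc, whiskerLeft_snd] at this
    rw [← cancel_mono i, Category.assoc, Category.assoc, this]

theorem TrivFib.hoEq {E B : SSet.{0}} {p : E ⟶ B} (hp : TrivFib p) : HoEq p := by
  have h1 := TrivFib.lift hp (⊥ : B.Subcomplex).ι
  have sq : CommSq (Subcomplex.isInitialBot.to E) (⊥ : B.Subcomplex).ι p (𝟙 B) :=
    ⟨Subcomplex.isInitialBot.hom_ext _ _⟩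
  have hm := mono_whiskerLeft E (∂Δ[1] : (Δ[1] : SSet.{0}).Subcomplex).ι
  have h2 := TrivFib.lift hp (E ◁ (∂Δ[1] : (Δ[1] : SSet.{0}).Subcomplex).ι)
  have sq' : CommSq (two (p ≫ sq.lift) (𝟙 E)) (E ◁ (∂Δ[1] : (Δ[1] : SSet.{0}).Subcomplex).ι) p
      (fst _ _ ≫ p) := ⟨by
    rw [two_comp _ _ p p (by rw [Category.assoc, sq.fac_right, Category.comp_id])
      (Category.id_comp _), whiskerLeft_fst_assoc]⟩
  refine ⟨sq.lift, htpy_mk sq'.lift ?_ ?_, ?_⟩
  · rw [← en_zero, Category.assoc, sq'.fac_left, en_zero_two]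
  · rw [← en_one, Category.assoc, sq'.fac_left, en_one_two]
  · rw [sq.fac_right]
    exact htpy_refl _

theorem TrivFib.kanFib {E B : SSet.{0}} {p : E ⟶ B} (hp : TrivFib p) : KanFib p :=
  fun _ _ => TrivFib.lift hp _

theorem fibration_of_kanFib {E B : SSet.{0}} {p : E ⟶ B} (hp : KanFib p) : Fibration p := by
  rw [SSet.modelCategoryQuillen.fibration_iff]
  rintro _ _ _ h
  simp only [J, MorphismProperty.iSup_iff] at h
  obtain ⟨n, ⟨i⟩⟩ := h
  exact hp n i

theorem ι₀_nat {X Y : SSet.{u}} (f : X ⟶ Y) : SSet.ι₀ ≫ f ▷ Δ[1] = f ≫ SSet.ι₀ := by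
  refine CartesianMonoidalCategory.hom_ext _ _ ?_ ?_
  · rw [Category.assoc, Category.assoc, whiskerRight_fst, ι₀_fst_assoc, ι₀_fst, Category.comp_id]
  · rw [Category.assoc, Category.assoc, whiskerRight_snd, ι₀_snd, ι₀_snd, comp_const]

theorem ι₁_nat {X Y : SSet.{u}} (f : X ⟶ Y) : SSet.ι₁ ≫ f ▷ Δ[1] = f ≫ SSet.ι₁ := by
  refine CartesianMonoidalCategory.hom_ext _ _ ?_ ?_
  · rw [Category.assoc, Category.assoc, whiskerRight_fst, ι₁_fst_assoc, ι₁_fst, Category.comp_id]
  · rw [Category.assoc, Category.assoc, whiskerRight_snd, ι₁_snd, ι₁_snd, comp_const]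

theorem whisk_δ_zero {X : SSet.{u}} : X ◁ (stdSimplex.{u}.δ (0 : Fin 2)) =
    fst _ _ ≫ SSet.ι₁ := by
  refine CartesianMonoidalCategory.hom_ext _ _ ?_ ?_
  · rw [whiskerLeft_fst, Category.assoc, ι₁_fst, Category.comp_id]
  · rw [whiskerLeft_snd, Category.assoc, ι₁_snd, stdSimplex.δ_zero_eq_const, comp_const, comp_const]

theorem collapse {X : SSet.{u}} : X ◁ stdSimplex.{u}.δ (0 : Fin 3) ≫
    X ◁ stdSimplex.{u}.σ (1 : Fin 2) = fst _ _ ≫ SSet.ι₁ := by
  rw [← MonoidalCategory.whiskerLeft_comp]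
  have h : stdSimplex.{u}.δ (0 : Fin 3) ≫ stdSimplex.{u}.σ (1 : Fin 2) =
      stdSimplex.{u}.σ (0 : Fin 1) ≫ stdSimplex.{u}.δ (0 : Fin 2) :=
    stdSimplex.{u}.δ_comp_σ_of_le (i := (0 : Fin 2)) (j := (0 : Fin 1)) le_rfl
  rw [h, stdSimplex.δ_zero_eq_const, comp_const]
  refine CartesianMonoidalCategory.hom_ext _ _ ?_ ?_
  · rw [whiskerLeft_fst, Category.assoc, ι₁_fst, Category.comp_id]
  · rw [whiskerLeft_snd, Category.assoc, ι₁_snd, comp_const, comp_const]

theorem edge_two {X : SSet.{u}} : X ◁ stdSimplex.{u}.δ (2 : Fin 3) ≫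
    X ◁ stdSimplex.{u}.σ (1 : Fin 2) = 𝟙 _ := by
  rw [← MonoidalCategory.whiskerLeft_comp]
  have h : stdSimplex.{u}.δ (2 : Fin 3) ≫ stdSimplex.{u}.σ (1 : Fin 2) = 𝟙 _ :=
    stdSimplex.{u}.δ_comp_σ_succ (i := (1 : Fin 2))
  rw [h, MonoidalCategory.whiskerLeft_id]

theorem edge_one {X : SSet.{u}} : X ◁ stdSimplex.{u}.δ (1 : Fin 3) ≫
    X ◁ stdSimplex.{u}.σ (1 : Fin 2) = 𝟙 _ := by
  rw [← MonoidalCategory.whiskerLeft_comp]
  have h : stdSimplex.{u}.δ (1 : Fin 3) ≫ stdSimplex.{u}.σ (1 : Fin 2) = 𝟙 _ :=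
    stdSimplex.{u}.δ_comp_σ_self (i := (1 : Fin 2))
  rw [h, MonoidalCategory.whiskerLeft_id]

/-- Relative homotopy lifting starting from nothing. -/
theorem path_lift {X E B : SSet.{u}} (p : E ⟶ B) [Fibration p] (h : X ⊗ Δ[1] ⟶ B) (f : X ⟶ E)
    (h1 : f ≫ p = SSet.ι₀ ≫ h) :
    ∃ h' : X ⊗ Δ[1] ⟶ E, h' ≫ p = h ∧ SSet.ι₀ ≫ h' = f := by
  obtain ⟨h', a, b, -⟩ := rel_path p (⊥ : X.Subcomplex) h f
    (fst _ _ ≫ Subcomplex.isInitialBot.to E) h1 (by
      ext m ⟨⟨x, hx⟩, _⟩
      exact hx.elim) (Subcomplex.isInitialBot.hom_ext _ _)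
  exact ⟨h', a, b⟩

/-- A strong version: the section and the fibrewise homotopy. -/
theorem exists_fibrewise {E B : SSet.{u}} {p : E ⟶ B} [Fibration p] [IsFibrant E] (h : HoEq p) :
    ∃ (s : B ⟶ E) (H : E ⊗ Δ[1] ⟶ E), s ≫ p = 𝟙 B ∧ SSet.ι₀ ≫ H = p ≫ s ∧ SSet.ι₁ ≫ H = 𝟙 E ∧
      H ≫ p = fst _ _ ≫ p := by
  obtain ⟨g, hg₁, hg₂⟩ := h
  obtain ⟨K, K0, K1⟩ := htpy_elim hg₁
  obtain ⟨G, G0, G1⟩ := htpy_elim hg₂
  obtain ⟨h', hp', h0'⟩ := path_lift p G g G0.symm
  have hs : (SSet.ι₁ ≫ h') ≫ p = 𝟙 B := by rw [Category.assoc, hp', G1]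
  obtain ⟨s, hsd⟩ : ∃ s, s = SSet.ι₁ ≫ h' := ⟨_, rfl⟩
  rw [← hsd] at hs
  obtain ⟨H₁, H₁0, H₁1, -⟩ := horn_edge (terminal.from E) (p ▷ Δ[1] ≫ h') K (terminal.from _)
    (by rw [← Category.assoc, ι₀_nat, Category.assoc, h0', K0]) (Subsingleton.elim _ _)
    (Subsingleton.elim _ _)
  rw [← Category.assoc, ι₁_nat, Category.assoc, ← hsd] at H₁0
  rw [K1] at H₁1
  obtain ⟨H, H0, H1, Hp⟩ := horn_edge p (H₁ ≫ p ≫ s) H₁ (E ◁ stdSimplex.{u}.σ (1 : Fin 2) ≫ H₁ ≫ p)
    (by
      rw [← Category.assoc, H₁0, Category.assoc, ← Category.assoc s, hs, Category.id_comp])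
    (by
      rw [← Category.assoc, edge_two, Category.id_comp, Category.assoc, Category.assoc, hs,
        Category.comp_id])
    (by
      rw [← Category.assoc, edge_one, Category.id_comp])
  refine ⟨s, H, hs, ?_, ?_, ?_⟩
  · rw [H0, ← Category.assoc, H₁1, Category.id_comp]
  · rw [H1, H₁1]
  · rw [Hp, ← Category.assoc, collapse, Category.assoc, ← Category.assoc SSet.ι₁ H₁, H₁1,
      Category.id_comp]

/-- A fibration with a section and a fibrewise homotopy is a trivial fibration. -/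
theorem lift_of_fibrewise {E B : SSet.{u}} {p : E ⟶ B} [Fibration p] {s : B ⟶ E}
    {H : E ⊗ Δ[1] ⟶ E} (hs : s ≫ p = 𝟙 B) (H0 : SSet.ι₀ ≫ H = p ≫ s) (H1 : SSet.ι₁ ≫ H = 𝟙 E)
    (Hp : H ≫ p = fst _ _ ≫ p) {X : SSet.{u}} (A : X.Subcomplex) : HasLiftingProperty A.ι p := by
  constructor
  intro u v sq
  obtain ⟨h', hp', h0', hk⟩ := rel_path p A (fst _ _ ≫ v) (v ≫ s) (u ▷ Δ[1] ≫ H)
    (by rw [Category.assoc, hs, Category.comp_id, ι₀_fst_assoc])
    (by rw [Category.assoc, Hp, whiskerRight_fst_assoc, whiskerRight_fst_assoc, sq.w])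
    (by rw [← Category.assoc, ι₀_nat, Category.assoc, H0, ← Category.assoc, sq.w, Category.assoc])
  exact ⟨⟨{
    l := SSet.ι₁ ≫ h'
    fac_left := by
      rw [← Category.assoc, ← ι₁_nat, Category.assoc, hk, ← Category.assoc, ι₁_nat,
        Category.assoc, H1, Category.comp_id]
    fac_right := by rw [Category.assoc, hp', ι₁_fst_assoc] }⟩⟩

/-- A Kan fibration between Kan complexes which is a homotopy equivalence is a trivial
fibration. -/
theorem trivFib_of_hoEq {E B : SSet.{0}} {p : E ⟶ B} (hE : SSet.KanComplex E)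
    (_ : SSet.KanComplex B) (hp : KanFib p) (h : HoEq p) : TrivFib p := by
  have := fibration_of_kanFib hp
  obtain ⟨s, H, hs, H0, H1, Hp⟩ := exists_fibrewise h
  exact fun n => lift_of_fibrewise hs H0 H1 Hp _

end Pool.Agent.Helper45.FL2
end

/- Helper88.FL.Htpy -/
section
/-!
# Project FL, module FL-1: homotopy calculus for maps into Kan complexes
-/

open CategoryTheory MonoidalCategory Simplicial Opposite HomotopicalAlgebra CartesianMonoidalCategory

set_option autoImplicit false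
set_option linter.unusedVariables false

namespace Pool.Agent.Helper88.FL

open _root_.FL

universe u

/-! ### Vertices of the cylinder -/

/-- `X ⟶ X ⊗ Δ[0]` -/
noncomputable def jj (X : SSet.{u}) : X ⟶ X ⊗ Δ[0] := lift (𝟙 X) (SSet.const (SSet.stdSimplex.obj₀Equiv.{u}.symm 0))

theorem jj_δ_one (X : SSet.{u}) : jj X ≫ X ◁ (SSet.stdSimplex.δ (1 : Fin 2)) = SSet.ι₀ := by
  rw [SSet.stdSimplex.δ_one_eq_const]; rfl

theorem jj_δ_zero (X : SSet.{u}) : jj X ≫ X ◁ (SSet.stdSimplex.δ (0 : Fin 2)) = SSet.ι₁ := by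
  rw [SSet.stdSimplex.δ_zero_eq_const]; rfl

theorem fst_jj (X : SSet.{u}) : fst X _ ≫ jj X = 𝟙 _ := by
  ext k ⟨x, s⟩
  rfl

theorem hom_ext_jj {X Y : SSet.{u}} {a b : X ⊗ Δ[0] ⟶ Y} (h : jj X ≫ a = jj X ≫ b) : a = b := by
  rw [← Category.id_comp a, ← fst_jj, Category.assoc, h, ← Category.assoc, fst_jj, Category.id_comp]

theorem htpy_iff {X Y : SSet.{u}} (f g : X ⟶ Y) :
    Htpy f g ↔ ∃ h : X ⊗ Δ[1] ⟶ Y, SSet.ι₀ ≫ h = f ∧ SSet.ι₁ ≫ h = g := by
  constructor
  · rintro ⟨H⟩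
    exact ⟨H.h, H.h₀, H.h₁⟩
  · rintro ⟨h, h0, h1⟩
    exact ⟨{ h := h, h₀ := h0, h₁ := h1, rel := by ext k ⟨⟨x, hx⟩, s⟩; exact hx.elim }⟩

theorem htpy_refl {X Y : SSet.{u}} (f : X ⟶ Y) : Htpy f f :=
  (htpy_iff f f).2 ⟨fst _ _ ≫ f, by rw [← Category.assoc, SSet.ι₀_fst, Category.id_comp],
    by rw [← Category.assoc, SSet.ι₁_fst, Category.id_comp]⟩

/-- filling of horns in dimension two in the internal hom -/
theorem fill {X Y : SSet.{u}} (hY : SSet.KanComplex Y) (i : Fin 3)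
    (f : ∀ (j : Fin 3), j ≠ i → (X ⊗ Δ[1] ⟶ Y))
    (hf : ∀ (j k : Fin 3) (hj : j ≠ i) (hk : k ≠ i) (hjk : j < k),
      X ◁ SSet.stdSimplex.δ (k.pred (Fin.ne_zero_of_lt hjk)) ≫ f j hj =
      X ◁ SSet.stdSimplex.δ (j.castPred (Fin.ne_last_of_lt hjk)) ≫ f k hk) :
    ∃ T : X ⊗ Δ[2] ⟶ Y, ∀ (j : Fin 3) (hj : j ≠ i), X ◁ SSet.stdSimplex.δ j ≫ T = f j hj := by
  have hc : SSet.horn.IsCompatible (i := i) (fun (j : Fin 3) (hj : j ≠ i) => MonoidalClosed.curry (f j hj)) := by
    rw [SSet.horn.isCompatible_iff]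
    intro j k hj hk hjk
    have := hf j k hj hk hjk
    rw [← MonoidalClosed.curry_natural_left, ← MonoidalClosed.curry_natural_left, this]
  obtain ⟨φ, hφ⟩ := hc.exists_lift_of_kanComplex
  refine ⟨MonoidalClosed.uncurry φ, fun j hj => ?_⟩
  rw [← MonoidalClosed.uncurry_natural_left, hφ j hj, MonoidalClosed.uncurry_curry]

theorem jj_δ_δ {X Y : SSet.{u}} (a : Fin 2) (b : Fin 3) (T : X ⊗ Δ[2] ⟶ Y) :
    jj X ≫ X ◁ SSet.stdSimplex.δ a ≫ X ◁ SSet.stdSimplex.δ b ≫ T =
      jj X ≫ X ◁ (SSet.stdSimplex.δ a ≫ SSet.stdSimplex.δ b) ≫ T := by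
  rw [MonoidalCategory.whiskerLeft_comp, Category.assoc]

theorem δ10 : (SSet.stdSimplex.δ (1 : Fin 2) ≫ SSet.stdSimplex.δ (0 : Fin 3) : (Δ[0] : SSet.{u}) ⟶ Δ[2]) =
    SSet.stdSimplex.δ (0 : Fin 2) ≫ SSet.stdSimplex.δ (2 : Fin 3) :=
  (SSet.stdSimplex.δ_comp_δ (i := (0 : Fin 2)) (j := (1 : Fin 2)) (by decide)).symm

theorem δ00 : (SSet.stdSimplex.δ (0 : Fin 2) ≫ SSet.stdSimplex.δ (0 : Fin 3) : (Δ[0] : SSet.{u}) ⟶ Δ[2]) =
    SSet.stdSimplex.δ (0 : Fin 2) ≫ SSet.stdSimplex.δ (1 : Fin 3) :=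
  (SSet.stdSimplex.δ_comp_δ (i := (0 : Fin 2)) (j := (0 : Fin 2)) (by decide)).symm

theorem δ11 : (SSet.stdSimplex.δ (1 : Fin 2) ≫ SSet.stdSimplex.δ (1 : Fin 3) : (Δ[0] : SSet.{u}) ⟶ Δ[2]) =
    SSet.stdSimplex.δ (1 : Fin 2) ≫ SSet.stdSimplex.δ (2 : Fin 3) :=
  (SSet.stdSimplex.δ_comp_δ (i := (1 : Fin 2)) (j := (1 : Fin 2)) (by decide)).symm

theorem ι₀_eq {X Y : SSet.{u}} (h : X ⊗ Δ[1] ⟶ Y) : SSet.ι₀ ≫ h = jj X ≫ X ◁ SSet.stdSimplex.δ (1 : Fin 2) ≫ h := by
  rw [← Category.assoc, jj_δ_one]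

theorem ι₁_eq {X Y : SSet.{u}} (h : X ⊗ Δ[1] ⟶ Y) : SSet.ι₁ ≫ h = jj X ≫ X ◁ SSet.stdSimplex.δ (0 : Fin 2) ≫ h := by
  rw [← Category.assoc, jj_δ_zero]

theorem htpy_symm {X Y : SSet.{u}} (hY : SSet.KanComplex Y) {f g : X ⟶ Y} (h : Htpy f g) :
    Htpy g f := by
  obtain ⟨H, H0, H1⟩ := (htpy_iff f g).1 h
  have hc0 : SSet.ι₀ ≫ fst X Δ[1] ≫ f = f := by rw [← Category.assoc, SSet.ι₀_fst, Category.id_comp]
  have hc1 : SSet.ι₁ ≫ fst X Δ[1] ≫ f = f := by rw [← Category.assoc, SSet.ι₁_fst, Category.id_comp]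
  obtain ⟨T, hT⟩ := fill hY (0 : Fin 3) (fun j _ => if j = 2 then H else fst X Δ[1] ≫ f) (by
    intro j k hj hk hjk
    obtain rfl : j = 1 := by omega
    obtain rfl : k = 2 := by omega
    refine hom_ext_jj ?_
    rw [if_neg (by decide), if_pos rfl]
    change jj X ≫ X ◁ SSet.stdSimplex.δ (1 : Fin 2) ≫ fst X Δ[1] ≫ f = jj X ≫ X ◁ SSet.stdSimplex.δ (1 : Fin 2) ≫ H
    rw [← ι₀_eq, ← ι₀_eq, hc0, H0])
  have h1 := hT 1 (by decide)
  have h2 := hT 2 (by decide)
  rw [if_neg (by decide)] at h1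
  rw [if_pos rfl] at h2
  refine (htpy_iff g f).2 ⟨X ◁ SSet.stdSimplex.δ (0 : Fin 3) ≫ T, ?_, ?_⟩
  · rw [ι₀_eq, jj_δ_δ, δ10, ← jj_δ_δ, h2, ← ι₁_eq, H1]
  · rw [ι₁_eq, jj_δ_δ, δ00, ← jj_δ_δ, h1, ← ι₁_eq, hc1]

theorem htpy_trans {X Y : SSet.{u}} (hY : SSet.KanComplex Y) {f g h : X ⟶ Y} (h₁ : Htpy f g)
    (h₂ : Htpy g h) : Htpy f h := by
  obtain ⟨H, H0, H1⟩ := (htpy_iff f g).1 h₁
  obtain ⟨K, K0, K1⟩ := (htpy_iff g h).1 h₂
  obtain ⟨T, hT⟩ := fill hY (1 : Fin 3) (fun j _ => if j = 2 then H else K) (by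
    intro j k hj hk hjk
    obtain rfl : j = 0 := by omega
    obtain rfl : k = 2 := by omega
    refine hom_ext_jj ?_
    rw [if_neg (by decide), if_pos rfl]
    change jj X ≫ X ◁ SSet.stdSimplex.δ (1 : Fin 2) ≫ K = jj X ≫ X ◁ SSet.stdSimplex.δ (0 : Fin 2) ≫ H
    rw [← ι₀_eq, ← ι₁_eq, K0, H1])
  have h1 := hT 0 (by decide)
  have h2 := hT 2 (by decide)
  rw [if_neg (by decide)] at h1
  rw [if_pos rfl] at h2
  refine (htpy_iff f h).2 ⟨X ◁ SSet.stdSimplex.δ (1 : Fin 3) ≫ T, ?_, ?_⟩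
  · rw [ι₀_eq, jj_δ_δ, δ11, ← jj_δ_δ, h2, ← ι₀_eq, H0]
  · rw [ι₁_eq, jj_δ_δ, ← δ00, ← jj_δ_δ, h1, ← ι₁_eq, K1]

theorem htpy_post {X Y Z : SSet.{u}} {f f' : X ⟶ Y} (h : Htpy f f') (g : Y ⟶ Z) : Htpy (f ≫ g) (f' ≫ g) := by
  obtain ⟨H, H0, H1⟩ := (htpy_iff f f').1 h
  exact (htpy_iff _ _).2 ⟨H ≫ g, by rw [← Category.assoc, H0], by rw [← Category.assoc, H1]⟩

theorem htpy_pre {X Y Z : SSet.{u}} (f : X ⟶ Y) {g g' : Y ⟶ Z} (h : Htpy g g') : Htpy (f ≫ g) (f ≫ g') := by
  obtain ⟨H, H0, H1⟩ := (htpy_iff g g').1 h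
  refine (htpy_iff _ _).2 ⟨f ▷ _ ≫ H, ?_, ?_⟩
  · rw [← Category.assoc, SSet.ι₀_comp, Category.assoc, H0]
  · rw [← Category.assoc, SSet.ι₁_comp, Category.assoc, H1]

theorem htpy_comp {X Y Z : SSet.{u}} (hZ : SSet.KanComplex Z) {f f' : X ⟶ Y} {g g' : Y ⟶ Z}
    (h₁ : Htpy f f') (h₂ : Htpy g g') : Htpy (f ≫ g) (f' ≫ g') :=
  htpy_trans hZ (htpy_post h₁ g) (htpy_pre f' h₂)

theorem hoEq_of_isIso {X Y : SSet.{u}} (f : X ⟶ Y) [IsIso f] : HoEq f := by
  refine ⟨inv f, ?_, ?_⟩
  · rw [IsIso.hom_inv_id]; exact htpy_refl _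
  · rw [IsIso.inv_hom_id]; exact htpy_refl _

theorem hoEq_comp {X Y Z : SSet.{u}} (hX : SSet.KanComplex X) (hY : SSet.KanComplex Y)
    (hZ : SSet.KanComplex Z) {f : X ⟶ Y} {g : Y ⟶ Z} (hf : HoEq f) (hg : HoEq g) :
    HoEq (f ≫ g) := by
  obtain ⟨f', h1, h2⟩ := hf
  obtain ⟨g', h3, h4⟩ := hg
  refine ⟨g' ≫ f', ?_, ?_⟩
  · have := htpy_pre f (htpy_post h3 f')
    rw [Category.id_comp, Category.assoc] at this
    rw [Category.assoc]
    exact htpy_trans hX this h1
  · have := htpy_pre g' (htpy_post h2 g)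
    rw [Category.id_comp, Category.assoc] at this
    rw [Category.assoc]
    exact htpy_trans hZ this h4

theorem hoEq_of_comp_left {X Y Z : SSet.{u}} (hX : SSet.KanComplex X) (hY : SSet.KanComplex Y)
    (hZ : SSet.KanComplex Z) {f : X ⟶ Y} {g : Y ⟶ Z} (hf : HoEq f) (hfg : HoEq (f ≫ g)) :
    HoEq g := by
  obtain ⟨f', h1, h2⟩ := hf
  obtain ⟨q, h3, h4⟩ := hfg
  refine ⟨q ≫ f, ?_, ?_⟩
  · -- g q f ~ f' f g q f ~ f' f ~ 1
    have a1 : Htpy (g ≫ q ≫ f) ((f' ≫ f) ≫ g ≫ q ≫ f) := by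
      have := htpy_symm hY (htpy_post h2 (g ≫ q ≫ f))
      rw [Category.id_comp] at this
      exact this
    have a2 : Htpy ((f' ≫ f) ≫ g ≫ q ≫ f) (f' ≫ f) := by
      have := htpy_pre f' (htpy_post h3 f)
      rw [Category.id_comp] at this
      simpa only [Category.assoc] using this
    exact htpy_trans hY a1 (htpy_trans hY a2 h2)
  · rw [Category.assoc]; exact h4

theorem hoEq_of_comp_right {X Y Z : SSet.{u}} (hX : SSet.KanComplex X) (hY : SSet.KanComplex Y)
    (hZ : SSet.KanComplex Z) {f : X ⟶ Y} {g : Y ⟶ Z} (hg : HoEq g) (hfg : HoEq (f ≫ g)) :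
    HoEq f := by
  obtain ⟨g', h1, h2⟩ := hg
  obtain ⟨q, h3, h4⟩ := hfg
  refine ⟨g ≫ q, ?_, ?_⟩
  · rw [← Category.assoc]; exact h3
  · -- g q f ~ g q f g g' ~ g g' ~ 1
    have a1 : Htpy (g ≫ q ≫ f) ((g ≫ q ≫ f) ≫ g ≫ g') := by
      have := htpy_symm hY (htpy_pre (g ≫ q ≫ f) h1)
      rw [Category.comp_id] at this
      exact this
    have a2 : Htpy ((g ≫ q ≫ f) ≫ g ≫ g') (g ≫ g') := by
      have := htpy_pre g (htpy_post h4 g')
      rw [Category.id_comp] at this
      simpa only [Category.assoc] using this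
    rw [Category.assoc]
    exact htpy_trans hY a1 (htpy_trans hY a2 h1)

theorem hoEq_of_htpy {X Y : SSet.{u}} (hX : SSet.KanComplex X) (hY : SSet.KanComplex Y)
    {f g : X ⟶ Y} (h : Htpy f g) (hf : HoEq f) : HoEq g := by
  obtain ⟨f', h1, h2⟩ := hf
  exact ⟨f', htpy_trans hX (htpy_post (htpy_symm hY h) f') h1, htpy_trans hY (htpy_pre f' (htpy_symm hY h)) h2⟩

/-- Isomorphic maps (no Kan hypothesis needed). -/
theorem hoEq_of_arrow_iso {X Y X' Y' : SSet.{u}} {f : X ⟶ Y} {f' : X' ⟶ Y'} (e : X ≅ X')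
    (e' : Y ≅ Y') (h : f ≫ e'.hom = e.hom ≫ f') (hf : HoEq f) : HoEq f' := by
  obtain ⟨g, h1, h2⟩ := hf
  obtain rfl : f' = e.inv ≫ f ≫ e'.hom := by rw [h, Iso.inv_hom_id_assoc]
  refine ⟨e'.inv ≫ g ≫ e.hom, ?_, ?_⟩
  · have := htpy_pre e.inv (htpy_post h1 e.hom)
    rw [Category.id_comp, Iso.inv_hom_id] at this
    change Htpy _ _
    simpa only [Category.assoc, Iso.hom_inv_id_assoc] using this
  · have := htpy_pre e'.inv (htpy_post h2 e'.hom)
    rw [Category.id_comp, Iso.inv_hom_id] at this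
    change Htpy _ _
    simpa only [Category.assoc, Iso.hom_inv_id_assoc] using this

/-! ### Universe lift -/

/-- a map between lifted simplicial sets, lowered -/
def dn {X Y : SSet.{0}} (g : SSet.uliftFunctor.{1, 0}.obj X ⟶ SSet.uliftFunctor.{1, 0}.obj Y) : X ⟶ Y where
  app k := ↾ fun x => (g.app k (ULift.up x)).down
  naturality k l α := by
    ext x
    exact congrArg ULift.down (sset_nat g α (show (SSet.uliftFunctor.{1, 0}.obj X).obj k from ULift.up x))

theorem dn_comp {X Y Z : SSet.{0}} (g : SSet.uliftFunctor.{1, 0}.obj X ⟶ SSet.uliftFunctor.{1, 0}.obj Y)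
    (h : SSet.uliftFunctor.{1, 0}.obj Y ⟶ SSet.uliftFunctor.{1, 0}.obj Z) : dn (g ≫ h) = dn g ≫ dn h := rfl

theorem dn_map {X Y : SSet.{0}} (f : X ⟶ Y) : dn (SSet.uliftFunctor.{1, 0}.map f) = f := rfl

theorem map_dn {X Y : SSet.{0}} (g : SSet.uliftFunctor.{1, 0}.obj X ⟶ SSet.uliftFunctor.{1, 0}.obj Y) :
    SSet.uliftFunctor.{1, 0}.map (dn g) = g := rfl

/-- a homotopy, lifted -/
noncomputable def upH {X Y : SSet.{0}} (H : X ⊗ Δ[1] ⟶ Y) :
    SSet.uliftFunctor.{1, 0}.obj X ⊗ Δ[1] ⟶ SSet.uliftFunctor.{1, 0}.obj Y where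
  app k := ↾ fun z => ULift.up (H.app k (z.1.down, ULift.up z.2.down))
  naturality k l α := by
    ext ⟨x, t⟩
    exact congrArg ULift.up (sset_nat H α (show (X ⊗ Δ[1] : SSet.{0}).obj k from (x.down, ULift.up t.down)))

/-- a homotopy, lowered -/
noncomputable def dnH {X Y : SSet.{0}} (H : SSet.uliftFunctor.{1, 0}.obj X ⊗ Δ[1] ⟶ SSet.uliftFunctor.{1, 0}.obj Y) :
    X ⊗ Δ[1] ⟶ Y where
  app k := ↾ fun z => (H.app k (ULift.up z.1, ULift.up z.2.down)).down
  naturality k l α := by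
    ext ⟨x, t⟩
    exact congrArg ULift.down (sset_nat H α
      (show (SSet.uliftFunctor.{1, 0}.obj X ⊗ Δ[1] : SSet.{1}).obj k from (ULift.up x, ULift.up t.down)))

theorem htpy_up {X Y : SSet.{0}} {f g : X ⟶ Y} (h : Htpy f g) :
    Htpy (SSet.uliftFunctor.{1, 0}.map f) (SSet.uliftFunctor.{1, 0}.map g) := by
  obtain ⟨H, H0, H1⟩ := (htpy_iff f g).1 h
  refine (htpy_iff _ _).2 ⟨upH H, ?_, ?_⟩
  · rw [← H0]; rfl
  · rw [← H1]; rfl

theorem htpy_dn {X Y : SSet.{0}} {f g : SSet.uliftFunctor.{1, 0}.obj X ⟶ SSet.uliftFunctor.{1, 0}.obj Y}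
    (h : Htpy f g) : Htpy (dn f) (dn g) := by
  obtain ⟨H, H0, H1⟩ := (htpy_iff f g).1 h
  refine (htpy_iff _ _).2 ⟨dnH H, ?_, ?_⟩
  · rw [← H0]; rfl
  · rw [← H1]; rfl

/-- The universe lift reflects and preserves homotopy equivalences. -/
theorem hoEq_ulift_iff {X Y : SSet.{0}} (f : X ⟶ Y) :
    HoEq (SSet.uliftFunctor.{1, 0}.map f) ↔ HoEq f := by
  constructor
  · rintro ⟨g, h1, h2⟩
    exact ⟨dn g, htpy_dn h1, htpy_dn h2⟩
  · rintro ⟨g, h1, h2⟩
    exact ⟨SSet.uliftFunctor.{1, 0}.map g, htpy_up h1, htpy_up h2⟩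

end Pool.Agent.Helper88.FL
end

/- Helper43.FLU.Triv -/
section
/-!
# Project FLQ: trivial fibrations of simplicial sets in an arbitrary universe
-/

open CategoryTheory MonoidalCategory CartesianMonoidalCategory Simplicial Opposite
  HomotopicalAlgebra Limits

set_option autoImplicit false

namespace Pool.Agent.Helper43.FLU

open FL SSet SSet.modelCategoryQuillen
open Pool.Agent.Helper45.FL2 (htpy_mk htpy_elim htpy_refl fin2 rel_path horn_edge boundary_const two
  en en_zero en_one en_zero_two en_one_two two_comp mono_whiskerLeft ι₀_nat ι₁_nat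
  exists_fibrewise lift_of_fibrewise)

universe u

/-- Trivial fibrations of simplicial sets. -/
def TrivFib {E B : SSet.{u}} (p : E ⟶ B) : Prop :=
  ∀ n : ℕ, HasLiftingProperty (∂Δ[n].ι : (∂Δ[n] : SSet.{u}) ⟶ Δ[n]) p

/-- Kan fibrations of simplicial sets. -/
abbrev KanFib {E B : SSet.{u}} (p : E ⟶ B) : Prop :=
  ∀ (n : ℕ) (i : Fin (n + 2)), HasLiftingProperty (Λ[n + 1, i].ι : (Λ[n + 1, i] : SSet.{u}) ⟶ _) p

theorem TrivFib.lift {E B : SSet.{u}} {p : E ⟶ B} (hp : TrivFib p) {K L : SSet.{u}} (i : K ⟶ L)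
    [Mono i] : HasLiftingProperty i p := by
  have h1 : I.{u}.rlp p := by
    rintro _ _ _ ⟨n⟩
    exact hp n
  rw [← rlp_monomorphisms] at h1
  exact h1 i (MorphismProperty.monomorphisms.infer_property _)

theorem TrivFib.hoEq {E B : SSet.{u}} {p : E ⟶ B} (hp : TrivFib p) : HoEq p := by
  have h1 := TrivFib.lift hp (⊥ : B.Subcomplex).ι
  have sq : CommSq (Subcomplex.isInitialBot.to E) (⊥ : B.Subcomplex).ι p (𝟙 B) :=
    ⟨Subcomplex.isInitialBot.hom_ext _ _⟩
  have hm := mono_whiskerLeft E (∂Δ[1] : (Δ[1] : SSet.{u}).Subcomplex).ι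
  have h2 := TrivFib.lift hp (E ◁ (∂Δ[1] : (Δ[1] : SSet.{u}).Subcomplex).ι)
  have sq' : CommSq (two (p ≫ sq.lift) (𝟙 E)) (E ◁ (∂Δ[1] : (Δ[1] : SSet.{u}).Subcomplex).ι) p
      (fst _ _ ≫ p) := ⟨by
    rw [two_comp _ _ p p (by rw [Category.assoc, sq.fac_right, Category.comp_id])
      (Category.id_comp _), whiskerLeft_fst_assoc]⟩
  refine ⟨sq.lift, htpy_mk sq'.lift ?_ ?_, ?_⟩
  · rw [← en_zero, Category.assoc, sq'.fac_left, en_zero_two]
  · rw [← en_one, Category.assoc, sq'.fac_left, en_one_two]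
  · rw [sq.fac_right]
    exact htpy_refl _

theorem TrivFib.kanFib {E B : SSet.{u}} {p : E ⟶ B} (hp : TrivFib p) : KanFib p :=
  fun _ _ => TrivFib.lift hp _

theorem fibration_of_kanFib {E B : SSet.{u}} {p : E ⟶ B} (hp : KanFib p) : Fibration p := by
  rw [SSet.modelCategoryQuillen.fibration_iff]
  rintro _ _ _ h
  simp only [J, MorphismProperty.iSup_iff] at h
  obtain ⟨n, ⟨i⟩⟩ := h
  exact hp n i

theorem trivFib_of_hoEq {E B : SSet.{u}} {p : E ⟶ B} (hE : SSet.KanComplex E)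
    (_ : SSet.KanComplex B) (hp : KanFib p) (h : HoEq p) : TrivFib p := by
  have := fibration_of_kanFib hp
  obtain ⟨s, H, hs, H0, H1, Hp⟩ := exists_fibrewise h
  exact fun n => lift_of_fibrewise hs H0 H1 Hp _

end Pool.Agent.Helper43.FLU
end

/- Helper58.FL2.Loc -/
section
/-!
# Local maps, sub-presheaves, fibres
-/

open CategoryTheory MonoidalCategory Simplicial Opposite

set_option autoImplicit false

namespace FL

section

variable {A : Type} [SmallCategory A]

/-- The map `f` is local with respect to `X` (usually `X` is injectively fibrant). -/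
def Loc (X : SP A) {P Q : SP A} (f : P ⟶ Q) : Prop := HoEq (Mp.pre f X)

/-- Sub-simplicial-presheaves. -/
@[ext]
structure Sb (P : SP A) : Type where
  mem (a : Aᵒᵖ) (k : SimplexCategoryᵒᵖ) : Set ((P.obj a).obj k)
  mapA : ∀ {a b : Aᵒᵖ} (f : a ⟶ b) (k : SimplexCategoryᵒᵖ) (x : (P.obj a).obj k),
    x ∈ mem a k → (P.map f).app k x ∈ mem b k
  mapk : ∀ (a : Aᵒᵖ) {k l : SimplexCategoryᵒᵖ} (α : k ⟶ l) (x : (P.obj a).obj k),
    x ∈ mem a k → (P.obj a).map α x ∈ mem a l

namespace Sb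

variable {P : SP A}

lemma mem_injective : Function.Injective (Sb.mem : Sb P → _) := by
  intro S T h
  exact Sb.ext h

instance : LE (Sb P) := ⟨fun S T => S.mem ≤ T.mem⟩

instance : LT (Sb P) := ⟨fun S T => S.mem < T.mem⟩

instance : Max (Sb P) := ⟨fun S T =>
  { mem := S.mem ⊔ T.mem
    mapA := fun f k x hx => hx.elim (fun h => Or.inl (S.mapA f k x h))
      fun h => Or.inr (T.mapA f k x h)
    mapk := fun a _ _ α x hx => hx.elim (fun h => Or.inl (S.mapk a α x h))
      fun h => Or.inr (T.mapk a α x h) }⟩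

instance : Min (Sb P) := ⟨fun S T =>
  { mem := S.mem ⊓ T.mem
    mapA := fun f k x hx => ⟨S.mapA f k x hx.1, T.mapA f k x hx.2⟩
    mapk := fun a _ _ α x hx => ⟨S.mapk a α x hx.1, T.mapk a α x hx.2⟩ }⟩

instance : DistribLattice (Sb P) :=
  Function.Injective.distribLattice _ mem_injective Iff.rfl Iff.rfl (fun _ _ => rfl) fun _ _ => rfl

instance : BoundedOrder (Sb P) where
  top := { mem := fun _ _ => Set.univ, mapA := fun _ _ _ _ => trivial,
           mapk := fun _ _ _ _ _ _ => trivial }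
  le_top _ _ _ _ _ := trivial
  bot := { mem := fun _ _ => ∅, mapA := fun _ _ _ h => h.elim,
           mapk := fun _ _ _ _ _ h => h.elim }
  bot_le _ _ _ _ h := h.elim

@[simp] lemma mem_sup (S T : Sb P) (a : Aᵒᵖ) (k : SimplexCategoryᵒᵖ) (x : (P.obj a).obj k) :
    x ∈ (S ⊔ T).mem a k ↔ x ∈ S.mem a k ∨ x ∈ T.mem a k := Iff.rfl

@[simp] lemma mem_inf (S T : Sb P) (a : Aᵒᵖ) (k : SimplexCategoryᵒᵖ) (x : (P.obj a).obj k) :
    x ∈ (S ⊓ T).mem a k ↔ x ∈ S.mem a k ∧ x ∈ T.mem a k := Iff.rfl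

@[simp] lemma mem_top (a : Aᵒᵖ) (k : SimplexCategoryᵒᵖ) (x : (P.obj a).obj k) :
    x ∈ (⊤ : Sb P).mem a k := trivial

@[simp] lemma mem_bot (a : Aᵒᵖ) (k : SimplexCategoryᵒᵖ) (x : (P.obj a).obj k) :
    ¬ x ∈ (⊥ : Sb P).mem a k := id

/-- The simplicial presheaf underlying a sub-presheaf. -/
@[simps obj_obj]
def toSP (S : Sb P) : SP A where
  obj a :=
    { obj := fun k => { x : (P.obj a).obj k // x ∈ S.mem a k }
      map := fun {k l} α => ↾ fun x => ⟨(P.obj a).map α x.1, S.mapk a α x.1 x.2⟩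
      map_id := fun k => by
        ext x
        exact sset_id (P.obj a) x.1
      map_comp := fun α β => by
        ext x
        exact sset_comp (P.obj a) α β x.1 }
  map {a b} f :=
    { app := fun k => ↾ fun x => ⟨(P.map f).app k x.1, S.mapA f k x.1 x.2⟩
      naturality := fun k l α => by
        ext x
        exact sp_nat P f α x.1 }
  map_id a := by
    ext k x
    exact sp_id P x.1
  map_comp f g := by
    ext k x
    exact sp_comp P f g x.1

/-- The inclusion of a sub-presheaf. -/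
def ι (S : Sb P) : S.toSP ⟶ P where
  app _ := { app := fun _ => ↾ fun x => x.1, naturality := fun _ _ _ => rfl }
  naturality _ _ _ := rfl

/-- A map which sends the sub-presheaf `S` into `T` restricts to a map `S ⟶ T`. -/
def restr {Q : SP A} (f : P ⟶ Q) (S : Sb P) (T : Sb Q)
    (h : ∀ (a : Aᵒᵖ) (k : SimplexCategoryᵒᵖ) (x : (P.obj a).obj k), x ∈ S.mem a k → (f.app a).app k x ∈ T.mem a k) : S.toSP ⟶ T.toSP where
  app a :=
    { app := fun k => ↾ fun x => ⟨(f.app a).app k x.1, h a k x.1 x.2⟩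
      naturality := fun k l α => by
        refine ConcreteCategory.hom_ext _ _ fun x => ?_
        exact Subtype.ext (hom_natk f α x.1) }
  naturality a b g := by
    refine NatTrans.ext (funext fun k => ?_)
    refine ConcreteCategory.hom_ext _ _ fun x => ?_
    exact Subtype.ext (hom_nat f g x.1)

/-- The inclusion of sub-presheaves. -/
def ofLE {S T : Sb P} (h : S ≤ T) : S.toSP ⟶ T.toSP where
  app a := { app := fun k => ↾ fun x => ⟨x.1, h a k x.2⟩, naturality := fun _ _ _ => rfl }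
  naturality _ _ _ := rfl

/-- The image of a map, as a sub-presheaf. -/
def range {Q : SP A} (f : P ⟶ Q) : Sb Q where
  mem a k := Set.range ((f.app a).app k)
  mapA := by
    rintro a b g k _ ⟨y, rfl⟩
    exact ⟨(P.map g).app k y, hom_nat f g y⟩
  mapk := by
    rintro a k l α _ ⟨y, rfl⟩
    exact ⟨(P.obj a).map α y, hom_natk f α y⟩

/-- The preimage of a sub-presheaf. -/
def comap {Q : SP A} (f : P ⟶ Q) (S : Sb Q) : Sb P where
  mem a k := { x | (f.app a).app k x ∈ S.mem a k }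
  mapA := by
    intro a b g k x hx
    show (f.app b).app k ((P.map g).app k x) ∈ S.mem b k
    rw [hom_nat]
    exact S.mapA g k _ hx
  mapk := by
    intro a k l α x hx
    show (f.app a).app l ((P.obj a).map α x) ∈ S.mem a l
    rw [hom_natk]
    exact S.mapk a α _ hx

end Sb

/-- `S ≤ T`, and the inclusion is local with respect to `X`. -/
def LocT (X : SP A) {P : SP A} (S T : Sb P) : Prop := ∃ h : S ≤ T, Loc X (Sb.ofLE h)

/-- Simplicial homotopy equivalences of simplicial presheaves. -/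
def SHE {X Y : SP A} (f : X ⟶ Y) : Prop :=
  ∃ g : Y ⟶ X, (∃ h : MpS X X ⦋1⦌, h.res (SimplexCategory.δ 1) = MpS.ofHom ⦋0⦌ (f ≫ g) ∧
    h.res (SimplexCategory.δ 0) = MpS.ofHom ⦋0⦌ (𝟙 X)) ∧
    ∃ h : MpS Y Y ⦋1⦌, h.res (SimplexCategory.δ 1) = MpS.ofHom ⦋0⦌ (g ≫ f) ∧
    h.res (SimplexCategory.δ 0) = MpS.ofHom ⦋0⦌ (𝟙 Y)

end

section Fibres

/-- The constant `k`-simplex at the vertex `x`. -/
def cst (K : SSet.{0}) (x : K.obj (op ⦋0⦌)) (k : SimplexCategoryᵒᵖ) : K.obj k :=
  K.map (SimplexCategory.const k.unop ⦋0⦌ 0).op x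

lemma cst_map (K : SSet.{0}) (x : K.obj (op ⦋0⦌)) {k l : SimplexCategoryᵒᵖ} (α : k ⟶ l) :
    K.map α (cst K x k) = cst K x l := by
  refine (sset_comp K _ α x).symm.trans ?_
  refine congrArg (fun t => K.map t x) ?_
  refine Quiver.Hom.unop_inj ?_
  ext i : 3
  exact Subsingleton.elim (α := Fin 1) _ _

lemma cst_zero (K : SSet.{0}) (x : K.obj (op ⦋0⦌)) : cst K x (op ⦋0⦌) = x := by
  refine Eq.trans ?_ (sset_id K x)
  refine congrArg (fun t => K.map t x) ?_
  refine Quiver.Hom.unop_inj ?_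
  ext i : 3
  exact Subsingleton.elim (α := Fin 1) _ _

lemma app_cst {K L : SSet.{0}} (f : K ⟶ L) (x : K.obj (op ⦋0⦌)) (k : SimplexCategoryᵒᵖ) :
    f.app k (cst K x k) = cst L (f.app _ x) k := sset_nat f _ x

/-- The fibre of `p : E ⟶ B` over the vertex `b`. -/
@[simps obj]
def Fb {E B : SSet.{0}} (p : E ⟶ B) (b : B.obj (op ⦋0⦌)) : SSet.{0} where
  obj k := { z : E.obj k // p.app k z = cst B b k }
  map {k l} α := ↾ fun z => ⟨E.map α z.1, by
    rw [sset_nat p α z.1, z.2, cst_map]⟩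
  map_id k := by
    ext z
    exact sset_id E z.1
  map_comp α β := by
    ext z
    exact sset_comp E α β z.1

/-- The map of fibres induced by a commutative square. -/
def Fb.map {E B E' B' : SSet.{0}} {p : E ⟶ B} {p' : E' ⟶ B'} (f : E ⟶ E') (g : B ⟶ B')
    (h : f ≫ p' = p ≫ g) (b : B.obj (op ⦋0⦌)) : Fb p b ⟶ Fb p' (g.app _ b) where
  app k := ↾ fun z => ⟨f.app k z.1, by
    have := ConcreteCategory.congr_hom (NatTrans.congr_app h k) z.1
    refine this.trans ?_
    show g.app k (p.app k z.1) = _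
    rw [z.2, app_cst]⟩
  naturality k l α := by
    refine ConcreteCategory.hom_ext _ _ fun z => ?_
    exact Subtype.ext (sset_nat f α z.1)

/-- The inclusion of the fibre. -/
def Fb.ι {E B : SSet.{0}} (p : E ⟶ B) (b : B.obj (op ⦋0⦌)) : Fb p b ⟶ E where
  app _ := ↾ fun z => z.1
  naturality _ _ _ := rfl

/-- Two vertices are connected by an edge. -/
def Cn (B : SSet.{0}) (b b' : B.obj (op ⦋0⦌)) : Prop :=
  ∃ e : B.obj (op ⦋1⦌), B.map (SimplexCategory.δ 1).op e = b ∧
    B.map (SimplexCategory.δ 0).op e = b'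

/-- The fibre product of `p : E ⟶ B` and `q : E' ⟶ B`. -/
@[simps obj]
def Fp {E E' B : SSet.{0}} (p : E ⟶ B) (q : E' ⟶ B) : SSet.{0} where
  obj k := { z : E.obj k × E'.obj k // p.app k z.1 = q.app k z.2 }
  map {k l} α := ↾ fun z => ⟨(E.map α z.1.1, E'.map α z.1.2), by
    show p.app l (E.map α z.1.1) = q.app l (E'.map α z.1.2)
    rw [sset_nat p, sset_nat q, z.2]⟩
  map_id k := by
    refine ConcreteCategory.hom_ext _ _ fun z => ?_
    exact Subtype.ext (Prod.ext (sset_id E z.1.1) (sset_id E' z.1.2))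
  map_comp α β := by
    refine ConcreteCategory.hom_ext _ _ fun z => ?_
    exact Subtype.ext (Prod.ext (sset_comp E α β z.1.1) (sset_comp E' α β z.1.2))

/-- The first projection of a fibre product. -/
def Fp.fst {E E' B : SSet.{0}} (p : E ⟶ B) (q : E' ⟶ B) : Fp p q ⟶ E where
  app _ := ↾ fun z => z.1.1
  naturality _ _ _ := rfl

/-- The second projection of a fibre product. -/
def Fp.snd {E E' B : SSet.{0}} (p : E ⟶ B) (q : E' ⟶ B) : Fp p q ⟶ E' where
  app _ := ↾ fun z => z.1.2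
  naturality _ _ _ := rfl

/-- The universal property of fibre products. -/
def Fp.lift {E E' B K : SSet.{0}} {p : E ⟶ B} {q : E' ⟶ B} (f : K ⟶ E) (g : K ⟶ E')
    (h : f ≫ p = g ≫ q) : K ⟶ Fp p q where
  app k := ↾ fun z => ⟨(f.app k z, g.app k z), ConcreteCategory.congr_hom (NatTrans.congr_app h k) z⟩
  naturality k l α := by
    refine ConcreteCategory.hom_ext _ _ fun z => ?_
    exact Subtype.ext (Prod.ext (sset_nat f α z) (sset_nat g α z))

/-- Functoriality of fibre products. -/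
def Fp.map {E E' B F F' D : SSet.{0}} {p : E ⟶ B} {q : E' ⟶ B} {r : F ⟶ D} {s : F' ⟶ D}
    (f : E ⟶ F) (f' : E' ⟶ F') (g : B ⟶ D) (h : f ≫ r = p ≫ g) (h' : f' ≫ s = q ≫ g) :
    Fp p q ⟶ Fp r s where
  app k := ↾ fun z => ⟨(f.app k z.1.1, f'.app k z.1.2), by
    have e := ConcreteCategory.congr_hom (NatTrans.congr_app h k) z.1.1
    have e' := ConcreteCategory.congr_hom (NatTrans.congr_app h' k) z.1.2
    refine e.trans (Eq.trans ?_ e'.symm)
    exact congrArg (g.app k) z.2⟩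
  naturality k l α := by
    refine ConcreteCategory.hom_ext _ _ fun z => ?_
    exact Subtype.ext (Prod.ext (sset_nat f α z.1.1) (sset_nat f' α z.1.2))

end Fibres

end FL
end

/- Helper46.FL.PreHo -/
section
/-!
FL-5b PREHO: objectwise weak equivalences and mapping spaces.  The statements of the other sections
used (FL-1, FL-2, FL-3, FL-4, FL-5a) are explicit hypotheses.
-/

open CategoryTheory MonoidalCategory Simplicial Opposite HomotopicalAlgebra SSet.modelCategoryQuillen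

set_option autoImplicit false

namespace Pool.Agent.Helper46.FLb

open FL

variable {A : Type} [SmallCategory A]

/-- Objectwise weak equivalences induce equivalences on mapping spaces into injectively fibrant
objects. -/
theorem Mp_pre_hoEq
    (h_comp : ∀ {X Y Z : SSet.{0}}, SSet.KanComplex X → SSet.KanComplex Y → SSet.KanComplex Z →
      ∀ {f : X ⟶ Y} {g : Y ⟶ Z}, HoEq f → HoEq g → HoEq (f ≫ g))
    (h_tf : ∀ {E B : SSet.{0}} {p : E ⟶ B}, TrivFib p → HoEq p)
    (h_we : ∀ {X Y : SSet.{0}} {f : X ⟶ Y}, HoEq f → WE f)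
    (h_we' : ∀ {X Y Z : SSet.{0}} {f : X ⟶ Y} {g : Y ⟶ Z}, WE g → WE (f ≫ g) → WE f)
    (h_kan : ∀ (X : SP A) {Z : SP A}, InjFib Z → SSet.KanComplex (Mp X Z))
    (h_pre : ∀ {X Y Z : SP A} (i : X ⟶ Y), TrivCof i → InjFib Z → TrivFib (Mp.pre i Z))
    (h_cyl : ∀ {X Y : SP A} (f : X ⟶ Y), ∃ (C : SP A) (i : X ⟶ C) (r : C ⟶ Y),
      i ≫ r = f ∧ (∀ a, Mono (i.app a)) ∧ SDR r)
    (h_sdr : ∀ {X Y : SP A} {r : X ⟶ Y}, SDR r → ∀ Z : SP A, HoEq (Mp.pre r Z))
    (h_sdra : ∀ {X Y : SP A} {r : X ⟶ Y}, SDR r → ∀ a : Aᵒᵖ, HoEq (r.app a))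
    {X Y Z : SP A} (f : X ⟶ Y) (hf : ∀ a, WE (f.app a)) (hZ : InjFib Z) :
    HoEq (Mp.pre f Z) := by
  obtain ⟨C, i, r, hir, hi, hr⟩ := h_cyl f
  have hwi : ∀ a, WE (i.app a) := by
    intro a
    refine h_we' (g := r.app a) (h_we (h_sdra hr a)) ?_
    have h1 : i.app a ≫ r.app a = f.app a := by rw [← hir]; rfl
    rw [h1]
    exact hf a
  have h1 : HoEq (Mp.pre i Z) := h_tf (h_pre i ⟨hi, hwi⟩ hZ)
  have h2 : HoEq (Mp.pre r Z) := h_sdr hr Z
  have h3 : Mp.pre f Z = Mp.pre r Z ≫ Mp.pre i Z := by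
    rw [← hir]; rfl
  rw [h3]
  exact h_comp (h_kan Y hZ) (h_kan C hZ) (h_kan X hZ) h2 h1

/-- the inclusion of `Z(a)` into the mapping space from the representable presheaf -/
def yoIn (Z : SP A) (a : Aᵒᵖ) : Z.obj a ⟶ Mp (rep a.unop) Z where
  app k := ↾ fun (x : (Z.obj a).obj k) => (yoS (C := Z) (a := a.unop) (k := k.unop) x :
    MpS (rep a.unop) Z k.unop)
  naturality k l α := by
    ext x
    refine MpS.ext ?_
    funext b m s u
    exact congrArg ((Z.map (Quiver.Hom.op (u : b.unop ⟶ a.unop))).app m) (sset_comp _ α s.op x).symm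

/-- evaluation at the identity -/
def yoOut (Z : SP A) (a : Aᵒᵖ) : Mp (rep a.unop) Z ⟶ Z.obj a where
  app k := ↾ fun (φ : MpS (rep a.unop) Z k.unop) => φ.app a k (𝟙 _) (𝟙 a.unop : a.unop ⟶ a.unop)
  naturality k l α := by
    ext (φ : MpS (rep a.unop) Z k.unop)
    show φ.app a l (𝟙 _ ≫ α.unop) (𝟙 a.unop : a.unop ⟶ a.unop) = _
    refine Eq.trans ?_ (φ.nat_right a α (𝟙 _) (𝟙 a.unop : a.unop ⟶ a.unop))
    rw [Category.id_comp, Category.comp_id]
    rfl

theorem yoIn_yoOut (Z : SP A) (a : Aᵒᵖ) : yoIn Z a ≫ yoOut Z a = 𝟙 _ := by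
  ext k x
  show (Z.map (Quiver.Hom.op (𝟙 a.unop))).app k ((Z.obj a).map (𝟙 k.unop).op x) = x
  refine Eq.trans (congrArg _ (sset_id (Z.obj a) x)) ?_
  exact sp_id Z x

theorem InjFib.objKan (h_kan : ∀ (X : SP A) {Z : SP A}, InjFib Z → SSet.KanComplex (Mp X Z))
    {Z : SP A} (hZ : InjFib Z) : ObjKan Z := by
  intro a
  have hM := h_kan (rep a.unop) hZ
  refine (isFibrant_iff _).2 ⟨?_⟩
  rw [SSet.modelCategoryQuillen.fibrations_eq]
  intro _ _ _ hf
  simp only [SSet.modelCategoryQuillen.J, MorphismProperty.iSup_iff] at hf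
  obtain ⟨n, ⟨i⟩⟩ := hf
  refine ⟨fun {t _} _ ↦ ?_⟩
  obtain ⟨σ, hσ⟩ := SSet.KanComplex.hornFilling (S := Mp (rep a.unop) Z) (t ≫ yoIn Z a)
  refine ⟨⟨⟨σ ≫ yoOut Z a, ?_, by subsingleton⟩⟩⟩
  rw [← Category.assoc, ← hσ, Category.assoc, yoIn_yoOut, Category.comp_id]

end Pool.Agent.Helper46.FLb
end

/- Helper53.FL.Poly -/
section
/-!
# Polynomial functors on simplicial sets and their right adjoints
-/

open CategoryTheory MonoidalCategory Simplicial Opposite HomotopicalAlgebra Limits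

set_option autoImplicit false
set_option linter.unusedVariables false

namespace Helper53FL

open FL

lemma ty_ext {A B : Type} {f g : A ⟶ B} (h : ∀ a : A, f a = g a) : f = g := by
  ext a; exact h a

lemma ss_ext {K L : SSet.{0}} {f g : K ⟶ L} (h : ∀ (k : SimplexCategoryᵒᵖ) (x : K.obj k),
    f.app k x = g.app k x) : f = g :=
  NatTrans.ext (funext fun k => ty_ext (h k))

/-- Data of a functor `K ↦ ∐_{c ∈ C_k} K_{m(c)}`. -/
structure PF : Type 1 where
  C : SimplexCategory → Type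
  m : ∀ {k : SimplexCategory}, C k → SimplexCategory
  act : ∀ {l k : SimplexCategory} (_ : l ⟶ k) (c : C k), (c' : C l) × (m c' ⟶ m c)
  act_id : ∀ {k : SimplexCategory} (c : C k), act (𝟙 k) c = ⟨c, 𝟙 _⟩
  act_comp : ∀ {j l k : SimplexCategory} (β : j ⟶ l) (α : l ⟶ k) (c : C k),
    act (β ≫ α) c = ⟨(act β (act α c).1).1, (act β (act α c).1).2 ≫ (act α c).2⟩

/-- Stable families. -/
structure PF.Sub (F : PF) where
  mem : ∀ {k : SimplexCategory}, F.C k → Prop
  act : ∀ {l k : SimplexCategory} (α : l ⟶ k) (c : F.C k), mem c → mem (F.act α c).1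

/-- Everything. -/
def PF.top (F : PF) : F.Sub where
  mem _ := True
  act _ _ _ := trivial

variable {F : PF}

/-- Simplices. -/
structure GS (P : F.Sub) (K : SSet.{0}) (k : SimplexCategory) : Type where
  c : F.C k
  h : P.mem c
  x : K.obj (op (F.m c))

lemma GS.congr {P : F.Sub} {K : SSet.{0}} {k n : SimplexCategory} (x : K.obj (op n))
    {d d' : (c : F.C k) × (F.m c ⟶ n)} (hd : d = d') (h : P.mem d.1) (h' : P.mem d'.1) :
    (GS.mk d.1 h (K.map d.2.op x) : GS P K k) = GS.mk d'.1 h' (K.map d'.2.op x) := by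
  subst hd; rfl

lemma GS.congr' {P : F.Sub} {K : SSet.{0}} {k : SimplexCategory} {c : F.C k} (h : P.mem c)
    {x x' : K.obj (op (F.m c))} (hx : x = x') : (GS.mk c h x : GS P K k) = GS.mk c h x' := by
  rw [hx]

/-- The functor. -/
def G (P : F.Sub) (K : SSet.{0}) : SSet.{0} where
  obj k := GS P K k.unop
  map α := ↾ fun (y : GS P K _) =>
    (GS.mk (F.act α.unop y.c).1 (P.act _ _ y.h) (K.map (F.act α.unop y.c).2.op y.x) : GS P K _)
  map_id k := by
    ext (y : GS P K k.unop)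
    obtain ⟨c, h, x⟩ := y
    refine (GS.congr (P := P) x (F.act_id c) _ h).trans ?_
    exact GS.congr' h (sset_id K x)
  map_comp {k l m} α β := by
    ext (y : GS P K k.unop)
    obtain ⟨c, h, x⟩ := y
    refine (GS.congr (P := P) x (F.act_comp β.unop α.unop c) _ (P.act _ _ (P.act _ _ h))).trans ?_
    exact GS.congr' _ (sset_comp K (F.act α.unop c).2.op (F.act β.unop (F.act α.unop c).1).2.op x)

/-- Functoriality. -/
def G.map {P P' : F.Sub} (hP : ∀ {k : SimplexCategory} (c : F.C k), P.mem c → P'.mem c)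
    {K L : SSet.{0}} (f : K ⟶ L) : G P K ⟶ G P' L where
  app k := ↾ fun (y : GS P K k.unop) => (GS.mk y.c (hP _ y.h) (f.app _ y.x) : GS P' L k.unop)
  naturality k l α := by
    ext (y : GS P K k.unop)
    exact GS.congr' _ (sset_nat f _ y.x)

/-- Representable simplicial sets. -/
def hh (m : SimplexCategory) : SSet.{0} where
  obj k := k.unop ⟶ m
  map α := ↾ fun g => α.unop ≫ g
  map_id k := ty_ext fun (g : k.unop ⟶ m) => Category.id_comp g
  map_comp {k l n} α β := ty_ext fun (g : k.unop ⟶ m) => Category.assoc β.unop α.unop g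

/-- Functoriality of `hh`. -/
def hhm {m n : SimplexCategory} (f : m ⟶ n) : hh m ⟶ hh n where
  app k := ↾ fun (g : k.unop ⟶ m) => (g ≫ f : k.unop ⟶ n)
  naturality k l α := ty_ext fun (g : k.unop ⟶ m) => Category.assoc α.unop g f

/-- Yoneda. -/
def yon {K : SSet.{0}} {m : SimplexCategory} (x : K.obj (op m)) : hh m ⟶ K where
  app k := ↾ fun (g : k.unop ⟶ m) => K.map g.op x
  naturality k l α := ty_ext fun (g : k.unop ⟶ m) => sset_comp K g.op α x

/-- The right adjoint. -/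
def R (P : F.Sub) (E : SSet.{0}) : SSet.{0} where
  obj m := G P (hh m.unop) ⟶ E
  map α := ↾ fun f => G.map (fun _ h => h) (hhm α.unop) ≫ f
  map_id m := by
    refine ty_ext fun f => ss_ext fun k (y : GS P _ k.unop) => ?_
    obtain ⟨c, h, (x : F.m c ⟶ m.unop)⟩ := y
    exact congrArg (fun x' : F.m c ⟶ m.unop => f.app k (GS.mk c h x')) (Category.comp_id x)
  map_comp {m n p} α β := by
    refine ty_ext fun f => ss_ext fun k (y : GS P _ k.unop) => ?_
    obtain ⟨c, h, (x : F.m c ⟶ p.unop)⟩ := y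
    exact congrArg (fun x' : F.m c ⟶ m.unop => f.app k (GS.mk c h x'))
      (Category.assoc x β.unop α.unop).symm

/-- Functoriality of the right adjoint. -/
def R.map (P : F.Sub) {E B : SSet.{0}} (p : E ⟶ B) : R P E ⟶ R P B where
  app m := ↾ fun f => f ≫ p
  naturality m n α := rfl

/-- Restriction. -/
def R.res {P P' : F.Sub} (hP : ∀ {k : SimplexCategory} (c : F.C k), P.mem c → P'.mem c)
    (E : SSet.{0}) : R P' E ⟶ R P E where
  app m := ↾ fun f => G.map hP (𝟙 _) ≫ f
  naturality m n α := rfl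

/-- The adjunction. -/
def adj {P : F.Sub} {K E : SSet.{0}} : (K ⟶ R P E) ≃ (G P K ⟶ E) where
  toFun a :=
    { app := fun k => ↾ fun (y : GS P K k.unop) =>
        (show G P (hh (F.m y.c)) ⟶ E from a.app (op (F.m y.c)) y.x).app k
          (show GS P (hh (F.m y.c)) k.unop from ⟨y.c, y.h, 𝟙 (F.m y.c)⟩)
      naturality := fun k l α => by
        refine ty_ext fun (y : GS P K k.unop) => ?_
        obtain ⟨c, h, x⟩ := y
        have h1 := sset_nat a (F.act α.unop c).2.op x
        have h2 := sset_nat (show G P (hh (F.m c)) ⟶ E from a.app (op (F.m c)) x) α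
          (show GS P (hh (F.m c)) k.unop from ⟨c, h, 𝟙 (F.m c)⟩)
        refine Eq.trans ?_ h2
        refine (congrArg (fun f : G P (hh (F.m (F.act α.unop c).1)) ⟶ E =>
          f.app l (show GS P (hh _) l.unop from ⟨(F.act α.unop c).1, P.act _ _ h, 𝟙 _⟩)) h1).trans ?_
        refine congrArg (fun g : F.m (F.act α.unop c).1 ⟶ F.m c =>
          (show G P (hh (F.m c)) ⟶ E from a.app (op (F.m c)) x).app l
            (show GS P (hh _) l.unop from ⟨(F.act α.unop c).1, P.act _ _ h, g⟩)) ?_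
        exact (Category.id_comp (F.act α.unop c).2).trans (Category.comp_id (F.act α.unop c).2).symm }
  invFun f :=
    { app := fun m => ↾ fun x => (show G P (hh m.unop) ⟶ E from G.map (fun _ h => h) (yon x) ≫ f)
      naturality := fun m n α => by
        refine ty_ext fun x => ss_ext fun k (y : GS P _ k.unop) => ?_
        exact congrArg (fun x' => f.app k (show GS P K k.unop from ⟨y.c, y.h, x'⟩))
          (sset_comp K α (show F.m y.c ⟶ n.unop from y.x).op x).symm }
  left_inv a := by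
    refine ss_ext fun m x => ss_ext fun k (y : GS P _ k.unop) => ?_
    obtain ⟨c, h, (x' : F.m c ⟶ m.unop)⟩ := y
    have h1 := sset_nat a x'.op x
    refine (congrArg (fun f : G P (hh (F.m c)) ⟶ E =>
          f.app k (show GS P (hh _) k.unop from ⟨c, h, 𝟙 _⟩)) h1).trans ?_
    exact congrArg (fun g : F.m c ⟶ m.unop =>
      (show G P (hh m.unop) ⟶ E from a.app m x).app k
        (show GS P (hh _) k.unop from ⟨c, h, g⟩)) (Category.id_comp x')
  right_inv f := by
    refine ss_ext fun k (y : GS P _ k.unop) => ?_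
    exact congrArg (fun x' => f.app k (show GS P K k.unop from ⟨y.c, y.h, x'⟩)) (sset_id K y.x)

lemma adj_left {P : F.Sub} {K L E : SSet.{0}} (i : K ⟶ L) (a : L ⟶ R P E) :
    adj (i ≫ a) = G.map (fun _ h => h) i ≫ adj a := rfl

lemma adj_right {P : F.Sub} {K E B : SSet.{0}} (a : K ⟶ R P E) (p : E ⟶ B) :
    adj (a ≫ R.map P p) = adj a ≫ p := rfl

lemma adj_res {P P' : F.Sub} (hP : ∀ {k : SimplexCategory} (c : F.C k), P.mem c → P'.mem c)
    {K E : SSet.{0}} (a : K ⟶ R P' E) :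
    adj (a ≫ R.res hP E) = G.map hP (𝟙 K) ≫ adj a := rfl

end Helper53FL
end

/- Helper68.FL.BdFill -/
section
/-!
# Filling boundaries, elementwise
-/

open CategoryTheory MonoidalCategory Simplicial Opposite

set_option autoImplicit false

namespace FL68

lemma yo_app {B : SSet.{0}} {n : ℕ} (b : Δ[n] ⟶ B) (l : SimplexCategory) (α : l ⟶ ⦋n⦌) :
    b.app (op l) (SSet.stdSimplex.objEquiv.symm α) = B.map α.op (SSet.yonedaEquiv b) := by
  obtain ⟨y, rfl⟩ := SSet.yonedaEquiv.symm.surjective b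
  rw [Equiv.apply_symm_apply]
  rfl

/-- The boundary filling property of `p`, elementwise. -/
def BdFill {E B : SSet.{0}} (p : E ⟶ B) (n : ℕ) : Prop :=
  ∀ (e : ∀ (l : SimplexCategory) (α : l ⟶ ⦋n⦌), ¬ Function.Surjective α.toOrderHom →
      E.obj (op l))
    (_ : ∀ (l l' : SimplexCategory) (α : l ⟶ ⦋n⦌) (β : l' ⟶ l)
      (h : ¬ Function.Surjective α.toOrderHom)
      (h' : ¬ Function.Surjective (β ≫ α).toOrderHom), E.map β.op (e l α h) = e l' (β ≫ α) h')
    (y : B.obj (op ⦋n⦌))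
    (_ : ∀ (l : SimplexCategory) (α : l ⟶ ⦋n⦌) (h : ¬ Function.Surjective α.toOrderHom),
      p.app (op l) (e l α h) = B.map α.op y),
    ∃ x : E.obj (op ⦋n⦌), p.app _ x = y ∧
      ∀ (l : SimplexCategory) (α : l ⟶ ⦋n⦌) (h : ¬ Function.Surjective α.toOrderHom),
        E.map α.op x = e l α h

theorem bdFill_of_lift {E B : SSet.{0}} {p : E ⟶ B} {n : ℕ}
    (hp : HasLiftingProperty (∂Δ[n].ι : (∂Δ[n] : SSet.{0}) ⟶ Δ[n]) p) : BdFill p n := by
  intro e he y hy
  let t : (∂Δ[n] : SSet.{0}) ⟶ E :=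
    { app := fun m => ↾ fun (s : (∂Δ[n] : SSet.{0}).obj m) =>
        e m.unop (SSet.stdSimplex.objEquiv s.1) s.2
      naturality := fun m m' γ => by
        ext s
        exact (he m.unop m'.unop (SSet.stdSimplex.objEquiv s.1) γ.unop s.2 _).symm }
  let b : Δ[n] ⟶ B := SSet.yonedaEquiv.symm y
  have sq : CommSq t (∂Δ[n].ι : (∂Δ[n] : SSet.{0}) ⟶ Δ[n]) p b := ⟨by
    ext m s
    exact hy m.unop (SSet.stdSimplex.objEquiv s.1) s.2⟩
  refine ⟨SSet.yonedaEquiv sq.lift, ?_, ?_⟩
  · have h := congrArg SSet.yonedaEquiv sq.fac_right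
    exact h.trans (Equiv.apply_symm_apply _ _)
  · intro l α h
    have h1 := congrArg (fun f : (∂Δ[n] : SSet.{0}) ⟶ E =>
      f.app (op l) ⟨SSet.stdSimplex.objEquiv.symm α, h⟩) sq.fac_left
    exact (yo_app sq.lift l α).symm.trans h1

theorem lift_of_bdFill {E B : SSet.{0}} {p : E ⟶ B} {n : ℕ} (hp : BdFill p n) :
    HasLiftingProperty (∂Δ[n].ι : (∂Δ[n] : SSet.{0}) ⟶ Δ[n]) p := by
  refine ⟨fun {t b} sq => ?_⟩
  obtain ⟨x, hx1, hx2⟩ := hp
    (fun l α h => t.app (op l) ⟨SSet.stdSimplex.objEquiv.symm α, h⟩)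
    (fun l l' α β h h' => (FL.sset_nat t β.op _).symm)
    (SSet.yonedaEquiv b)
    (fun l α h => by
      have h1 := congrArg (fun f : (∂Δ[n] : SSet.{0}) ⟶ B =>
        f.app (op l) ⟨SSet.stdSimplex.objEquiv.symm α, h⟩) sq.w
      exact h1.trans (yo_app b l α))
  refine ⟨⟨⟨SSet.yonedaEquiv.symm x, ?_, ?_⟩⟩⟩
  · ext m s
    exact hx2 m.unop (SSet.stdSimplex.objEquiv s.1) s.2
  · rw [SSet.yonedaEquiv_symm_comp, hx1, Equiv.symm_apply_apply]

end FL68
end

/- Helper41.FL2.BiNerve -/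
section
/-!
# The bivariant relative nerve

Families of simplices `φ(σ) ∈ G(σ_0, σ_k)_k`, natural in the chain `σ`, lift along objectwise
trivial fibrations of diagrams `G`, contravariant in the first and covariant in the second
variable.
-/

open CategoryTheory MonoidalCategory Simplicial Opposite

set_option autoImplicit false

namespace Helper41FL2

open FL FL68

variable {A : Type} [SmallCategory A]

/-- The pair of the first and the last object of a chain. -/
abbrev E2 {k : SimplexCategory} (σ : Chain A k) : A × Aᵒᵖ := (σ.obj 0, op (σ.obj (Fin.last _)))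

/-- The map of the ends of a chain to the ends of its restriction. -/
def endTo {k l : SimplexCategory} (σ : Chain A k) (α : l ⟶ k) : E2 σ ⟶ E2 (σ.res α) :=
  ((σ.map _ _ (Fin.zero_le _), (σ.map _ _ (Fin.le_last _)).op) :
    (σ.obj 0 ⟶ σ.obj (α.toOrderHom 0)) ×
      (op (σ.obj (Fin.last _)) ⟶ op (σ.obj (α.toOrderHom (Fin.last _)))))

lemma endTo_comp {k l m : SimplexCategory} (σ : Chain A k) (α : l ⟶ k) (β : m ⟶ l) :
    endTo σ α ≫ endTo (σ.res α) β = endTo σ (β ≫ α) := by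
  refine Prod.ext (σ.map_comp _ _ _ _ _) ?_
  exact congrArg Quiver.Hom.op (σ.map_comp _ _ _ _ _)

/-- The inverse of `endTo`. -/
def endBack {k l : SimplexCategory} (σ : Chain A k) (α : l ⟶ k) (h0 : α.toOrderHom 0 ≤ 0)
    (h1 : Fin.last _ ≤ α.toOrderHom (Fin.last _)) : E2 (σ.res α) ⟶ E2 σ :=
  ((σ.map _ _ h0, (σ.map _ _ h1).op) :
    (σ.obj (α.toOrderHom 0) ⟶ σ.obj 0) ×
      (op (σ.obj (α.toOrderHom (Fin.last _))) ⟶ op (σ.obj (Fin.last _))))

lemma endTo_back {k l : SimplexCategory} (σ : Chain A k) (α : l ⟶ k) (h0 : α.toOrderHom 0 ≤ 0)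
    (h1 : Fin.last _ ≤ α.toOrderHom (Fin.last _)) :
    endTo σ α ≫ endBack σ α h0 h1 = 𝟙 _ := by
  refine Prod.ext ((σ.map_comp _ _ _ _ _).trans (σ.map_id _)) ?_
  exact congrArg Quiver.Hom.op ((σ.map_comp _ _ _ _ _).trans (σ.map_id _))

lemma endBack_to {k l : SimplexCategory} (σ : Chain A k) (α : l ⟶ k) (h0 : α.toOrderHom 0 ≤ 0)
    (h1 : Fin.last _ ≤ α.toOrderHom (Fin.last _)) :
    endBack σ α h0 h1 ≫ endTo σ α = 𝟙 _ := by
  refine Prod.ext ((σ.map_comp _ _ _ _ _).trans (σ.map_id _)) ?_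
  exact congrArg Quiver.Hom.op ((σ.map_comp _ _ _ _ _).trans (σ.map_id _))

/-- A `k`-simplex of the relative nerve of `G`. -/
structure RN (G : SP (A × Aᵒᵖ)) (k : SimplexCategory) : Type where
  σ : Chain A k
  g : ∀ (l : SimplexCategory) (α : l ⟶ k), (G.obj (op (E2 (σ.res α)))).obj (op l)
  nat : ∀ {l l' : SimplexCategory} (α : l ⟶ k) (β : l' ⟶ l),
    (G.map (endTo (σ.res α) β).op).app (op l') (g l' (β ≫ α)) =
      (G.obj (op (E2 (σ.res α)))).map β.op (g l α)

lemma RN.ext_of {G : SP (A × Aᵒᵖ)} {k : SimplexCategory} {z z' : RN G k} (h : z.σ = z'.σ)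
    (h' : HEq z.g z'.g) : z = z' := by
  cases z
  cases z'
  cases h
  cases h'
  rfl

/-- Restriction. -/
def RN.res {G : SP (A × Aᵒᵖ)} {k k' : SimplexCategory} (z : RN G k) (γ : k' ⟶ k) : RN G k' where
  σ := z.σ.res γ
  g l α := z.g l (α ≫ γ)
  nat α β := z.nat (α ≫ γ) β

lemma RN.g_id_comp {G : SP (A × Aᵒᵖ)} {k l : SimplexCategory} (z : RN G k) (α : l ⟶ k) :
    z.g l (𝟙 l ≫ α) = z.g l α := eq_of_heq (congr_arg_heq (z.g l) (Category.id_comp α))

lemma RN.g_comp_id {G : SP (A × Aᵒᵖ)} {k l : SimplexCategory} (z : RN G k) (α : l ⟶ k) :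
    z.g l (α ≫ 𝟙 k) = z.g l α := eq_of_heq (congr_arg_heq (z.g l) (Category.comp_id α))

lemma RN.res_id {G : SP (A × Aᵒᵖ)} {k : SimplexCategory} (z : RN G k) : z.res (𝟙 k) = z := by
  refine RN.ext_of rfl (heq_of_eq ?_)
  funext l α
  exact z.g_comp_id α

/-- The relative nerve. -/
def RNv (G : SP (A × Aᵒᵖ)) : SSet.{0} where
  obj k := RN G k.unop
  map α := ↾ fun z => z.res α.unop
  map_id _ := by
    ext z
    exact z.res_id
  map_comp _ _ := rfl

/-- Functoriality. -/
def RN.mapq {G G' : SP (A × Aᵒᵖ)} (q : G ⟶ G') {k : SimplexCategory} (z : RN G k) : RN G' k where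
  σ := z.σ
  g l α := (q.app _).app _ (z.g l α)
  nat {l l'} α β := by
    refine (hom_nat q _ _).symm.trans ?_
    refine (congrArg ((q.app _).app (op l')) (z.nat α β)).trans ?_
    exact hom_natk q β.op _

/-- Functoriality. -/
def RNv.mapq {G G' : SP (A × Aᵒᵖ)} (q : G ⟶ G') : RNv G ⟶ RNv G' where
  app k := ↾ fun (z : RN G k.unop) => RN.mapq q z
  naturality _ _ _ := rfl

/-- The value at the identity. -/
def val {G : SP (A × Aᵒᵖ)} {k : SimplexCategory} (z : RN G k) (τ : Chain A k) (h : z.σ = τ) :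
    (G.obj (op (E2 τ))).obj (op k) := by
  subst h
  exact z.g k (𝟙 k)

lemma val_res_self {G : SP (A × Aᵒᵖ)} {k l : SimplexCategory} (z : RN G k) (α : l ⟶ k)
    (h : (z.res α).σ = z.σ.res α) : val (z.res α) (z.σ.res α) h = z.g l α :=
  z.g_id_comp α

lemma val_res {G : SP (A × Aᵒᵖ)} {k l : SimplexCategory} (z : RN G k) (τ : Chain A k)
    (h : z.σ = τ) (β : l ⟶ k) (h' : (z.res β).σ = τ.res β) :
    (G.map (endTo τ β).op).app (op l) (val (z.res β) (τ.res β) h') =
      (G.obj (op (E2 τ))).map β.op (val z τ h) := by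
  subst h
  refine Eq.trans ?_ (z.nat (𝟙 k) β)
  refine congrArg ((G.map (endTo z.σ β).op).app (op l)) ?_
  refine (val_res_self z β h').trans ?_
  exact (z.g_comp_id β).symm

lemma val_mapq {G G' : SP (A × Aᵒᵖ)} (q : G ⟶ G') {k : SimplexCategory} (z : RN G k)
    (τ : Chain A k) (h : z.σ = τ) (h' : (z.mapq q).σ = τ) :
    val (z.mapq q) τ h' = (q.app (op (E2 τ))).app (op k) (val z τ h) := by
  subst h
  rfl

lemma RN.ext' {G : SP (A × Aᵒᵖ)} {k : SimplexCategory} {z z' : RN G k} (h : z.σ = z'.σ)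
    (h' : ∀ (l : SimplexCategory) (α : l ⟶ k) (h1 : (z.res α).σ = z'.σ.res α),
      val (z.res α) (z'.σ.res α) h1 = z'.g l α) : z = z' := by
  obtain ⟨σ, g, n⟩ := z
  obtain ⟨σ', g', n'⟩ := z'
  obtain rfl : σ = σ' := h
  refine RN.ext_of rfl (heq_of_eq ?_)
  funext l α
  exact (RN.g_id_comp (RN.mk σ g n) α).symm.trans (h' l α rfl)

lemma val_congr {G : SP (A × Aᵒᵖ)} {k : SimplexCategory} {z z' : RN G k} (hz : z = z')
    (τ : Chain A k) (h : z.σ = τ) (h' : z'.σ = τ) : val z τ h = val z' τ h' := by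
  subst hz
  rfl

lemma RN.ext'' {G : SP (A × Aᵒᵖ)} {k : SimplexCategory} {z z' : RN G k} (τ : Chain A k)
    (h : z.σ = τ) (h' : z'.σ = τ)
    (H : ∀ (l : SimplexCategory) (α : l ⟶ k) (h1 : (z.res α).σ = τ.res α)
      (h2 : (z'.res α).σ = τ.res α),
      val (z.res α) (τ.res α) h1 = val (z'.res α) (τ.res α) h2) : z = z' := by
  subst h'
  exact RN.ext' h fun l α h1 => (H l α h1 rfl).trans (val_res_self z' α rfl)

lemma map_endTo_comp (G : SP (A × Aᵒᵖ)) {k l m : SimplexCategory} (σ : Chain A k) (α : l ⟶ k)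
    (β : m ⟶ l) (o : SimplexCategoryᵒᵖ)
    (x : (G.obj (op (E2 (σ.res (β ≫ α))))).obj o) :
    (G.map (endTo σ α).op).app o ((G.map (endTo (σ.res α) β).op).app o x) =
      (G.map (endTo σ (β ≫ α)).op).app o x := by
  refine (sp_comp G _ _ x).symm.trans ?_
  exact congrArg (fun f => (G.map (Quiver.Hom.op f)).app o x) (endTo_comp σ α β)

lemma map_back (G : SP (A × Aᵒᵖ)) {k l : SimplexCategory} (σ : Chain A k) (α : l ⟶ k)
    (h0 : α.toOrderHom 0 ≤ 0) (h1 : Fin.last _ ≤ α.toOrderHom (Fin.last _))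
    (o : SimplexCategoryᵒᵖ) (x : (G.obj (op (E2 (σ.res α)))).obj o) :
    (G.map (endBack σ α h0 h1).op).app o ((G.map (endTo σ α).op).app o x) = x := by
  refine (sp_comp G _ _ x).symm.trans ?_
  refine (congrArg (fun f => (G.map (Quiver.Hom.op f)).app o x) (endBack_to σ α h0 h1)).trans ?_
  exact sp_id G x

lemma map_back' (G : SP (A × Aᵒᵖ)) {k l : SimplexCategory} (σ : Chain A k) (α : l ⟶ k)
    (h0 : α.toOrderHom 0 ≤ 0) (h1 : Fin.last _ ≤ α.toOrderHom (Fin.last _))
    (o : SimplexCategoryᵒᵖ) (x : (G.obj (op (E2 σ))).obj o) :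
    (G.map (endTo σ α).op).app o ((G.map (endBack σ α h0 h1).op).app o x) = x := by
  refine (sp_comp G _ _ x).symm.trans ?_
  refine (congrArg (fun f => (G.map (Quiver.Hom.op f)).app o x) (endTo_back σ α h0 h1)).trans ?_
  exact sp_id G x

lemma surj_zero {l k : SimplexCategory} (α : l ⟶ k) (h : Function.Surjective α.toOrderHom) :
    α.toOrderHom 0 ≤ 0 := by
  obtain ⟨i, hi⟩ := h 0
  rw [← hi]
  exact α.toOrderHom.monotone (Fin.zero_le _)

lemma surj_last {l k : SimplexCategory} (α : l ⟶ k) (h : Function.Surjective α.toOrderHom) :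
    Fin.last _ ≤ α.toOrderHom (Fin.last _) := by
  obtain ⟨i, hi⟩ := h (Fin.last _)
  rw [← hi]
  exact α.toOrderHom.monotone (Fin.le_last _)

theorem rn_bdFill {G G' : SP (A × Aᵒᵖ)} (q : G ⟶ G') (hq : ∀ j, TrivFib (q.app j)) (n : ℕ) :
    BdFill (RNv.mapq q) n := by
  classical
  intro (e : ∀ (l : SimplexCategory) (α : l ⟶ ⦋n⦌), ¬ Function.Surjective α.toOrderHom → RN G l)
    (he : ∀ (l l' : SimplexCategory) (α : l ⟶ ⦋n⦌) (β : l' ⟶ l)
      (h : ¬ Function.Surjective α.toOrderHom)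
      (h' : ¬ Function.Surjective (β ≫ α).toOrderHom), (e l α h).res β = e l' (β ≫ α) h')
    (z' : RN G' ⦋n⦌)
    (hz' : ∀ (l : SimplexCategory) (α : l ⟶ ⦋n⦌) (h : ¬ Function.Surjective α.toOrderHom),
      (e l α h).mapq q = z'.res α)
  have hσ : ∀ (l : SimplexCategory) (α : l ⟶ ⦋n⦌) (h : ¬ Function.Surjective α.toOrderHom),
      (e l α h).σ = z'.σ.res α := fun l α h => congrArg RN.σ (hz' l α h)
  let v : ∀ (l : SimplexCategory) (α : l ⟶ ⦋n⦌), ¬ Function.Surjective α.toOrderHom →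
      (G.obj (op (E2 (z'.σ.res α)))).obj (op l) :=
    fun l α h => val (e l α h) (z'.σ.res α) (hσ l α h)
  have hcomp : ∀ {l l' : SimplexCategory} (α : l ⟶ ⦋n⦌) (β : l' ⟶ l),
      ¬ Function.Surjective α.toOrderHom → ¬ Function.Surjective (β ≫ α).toOrderHom := by
    intro l l' α β h h'
    exact h (Function.Surjective.of_comp (g := β.toOrderHom) h')
  have hv_nat : ∀ {l l' : SimplexCategory} (α : l ⟶ ⦋n⦌) (β : l' ⟶ l)
      (h : ¬ Function.Surjective α.toOrderHom) (h' : ¬ Function.Surjective (β ≫ α).toOrderHom),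
      (G.map (endTo (z'.σ.res α) β).op).app (op l') (v l' (β ≫ α) h') =
        (G.obj (op (E2 (z'.σ.res α)))).map β.op (v l α h) := by
    intro l l' α β h h'
    have h1 : ((e l α h).res β).σ = (z'.σ.res α).res β := congrArg (Chain.res · β) (hσ l α h)
    refine Eq.trans ?_ (val_res (e l α h) (z'.σ.res α) (hσ l α h) β h1)
    exact congrArg ((G.map (endTo (z'.σ.res α) β).op).app (op l'))
      (val_congr (he l l' α β h h').symm _ _ _)
  have hv_q : ∀ {l : SimplexCategory} (α : l ⟶ ⦋n⦌) (h : ¬ Function.Surjective α.toOrderHom),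
      (q.app _).app (op l) (v l α h) = z'.g l α := by
    intro l α h
    refine (val_mapq q (e l α h) (z'.σ.res α) (hσ l α h) (hσ l α h)).symm.trans ?_
    refine (val_congr (hz' l α h) (z'.σ.res α) _ rfl).trans ?_
    exact val_res_self z' α rfl
  obtain ⟨x, hx1, hx2⟩ := bdFill_of_lift (hq (op (E2 z'.σ)) n)
    (fun l α h => (G.map (endTo z'.σ α).op).app (op l) (v l α h))
    (by
      intro l l' α β h h'
      refine (sp_nat G (endTo z'.σ α).op β.op (v l α h)).symm.trans ?_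
      refine (congrArg ((G.map (endTo z'.σ α).op).app (op l')) (hv_nat α β h h').symm).trans ?_
      exact map_endTo_comp G z'.σ α β _ _)
    (z'.g ⦋n⦌ (𝟙 _))
    (by
      intro l α h
      refine (hom_nat q (endTo z'.σ α).op (v l α h)).trans ?_
      refine (congrArg ((G'.map (endTo z'.σ α).op).app (op l))
        ((hv_q α h).trans (z'.g_comp_id α).symm)).trans ?_
      exact z'.nat (𝟙 _) α)
  let g : ∀ (l : SimplexCategory) (α : l ⟶ ⦋n⦌), (G.obj (op (E2 (z'.σ.res α)))).obj (op l) :=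
    fun l α => if h : Function.Surjective α.toOrderHom then
      (G.map (endBack z'.σ α (surj_zero α h) (surj_last α h)).op).app (op l)
        ((G.obj (op (E2 z'.σ))).map α.op x)
    else v l α h
  have hg1 : ∀ {l : SimplexCategory} (α : l ⟶ ⦋n⦌) (h : ¬ Function.Surjective α.toOrderHom),
      g l α = v l α h := fun α h => dif_neg h
  have hg2 : ∀ {l : SimplexCategory} (α : l ⟶ ⦋n⦌) (h : Function.Surjective α.toOrderHom),
      g l α = (G.map (endBack z'.σ α (surj_zero α h) (surj_last α h)).op).app (op l)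
        ((G.obj (op (E2 z'.σ))).map α.op x) := fun α h => dif_pos h
  have key : ∀ {l : SimplexCategory} (α : l ⟶ ⦋n⦌),
      (G.map (endTo z'.σ α).op).app (op l) (g l α) = (G.obj (op (E2 z'.σ))).map α.op x := by
    intro l α
    by_cases h : Function.Surjective α.toOrderHom
    · rw [hg2 α h]
      exact map_back' G z'.σ α (surj_zero α h) (surj_last α h) (op l) _
    · rw [hg1 α h]
      exact (hx2 l α h).symm
  have inj : ∀ {l : SimplexCategory} (α : l ⟶ ⦋n⦌) (_ : Function.Surjective α.toOrderHom)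
      (G₀ : SP (A × Aᵒᵖ)) (o : SimplexCategoryᵒᵖ) (y y' : (G₀.obj (op (E2 (z'.σ.res α)))).obj o),
      (G₀.map (endTo z'.σ α).op).app o y = (G₀.map (endTo z'.σ α).op).app o y' → y = y' := by
    intro l α h G₀ o y y' hyy
    have h1 := congrArg
      ((G₀.map (endBack z'.σ α (surj_zero α h) (surj_last α h)).op).app o) hyy
    have h2 := map_back G₀ z'.σ α (surj_zero α h) (surj_last α h) o y
    have h3 := map_back G₀ z'.σ α (surj_zero α h) (surj_last α h) o y'
    exact h2.symm.trans (h1.trans h3)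
  have hnat : ∀ {l l' : SimplexCategory} (α : l ⟶ ⦋n⦌) (β : l' ⟶ l),
      (G.map (endTo (z'.σ.res α) β).op).app (op l') (g l' (β ≫ α)) =
        (G.obj (op (E2 (z'.σ.res α)))).map β.op (g l α) := by
    intro l l' α β
    by_cases h : Function.Surjective α.toOrderHom
    · apply inj α h
      refine (map_endTo_comp G z'.σ α β _ _).trans ?_
      refine (key (β ≫ α)).trans ?_
      refine (sset_comp _ α.op β.op x).trans ?_
      refine (congrArg ((G.obj (op (E2 z'.σ))).map β.op) (key α).symm).trans ?_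
      exact (sp_nat G (endTo z'.σ α).op β.op (g l α)).symm
    · rw [hg1 α h, hg1 (β ≫ α) (hcomp α β h)]
      exact hv_nat α β h _
  refine ⟨(⟨z'.σ, g, hnat⟩ : RN G ⦋n⦌), ?_, ?_⟩
  · refine RN.ext_of rfl (heq_of_eq ?_)
    funext l α
    change (q.app _).app (op l) (g l α) = z'.g l α
    by_cases h : Function.Surjective α.toOrderHom
    · apply inj α h
      refine (hom_nat q (endTo z'.σ α).op (g l α)).symm.trans ?_
      refine (congrArg ((q.app _).app (op l)) (key α)).trans ?_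
      refine (hom_natk q α.op x).trans ?_
      refine (congrArg ((G'.obj (op (E2 z'.σ))).map α.op) hx1).trans ?_
      refine (z'.nat (𝟙 _) α).symm.trans ?_
      exact congrArg ((G'.map (endTo z'.σ α).op).app (op l)) (z'.g_comp_id α)
    · rw [hg1 α h]
      exact hv_q α h
  · intro l α h
    refine RN.ext'' (z'.σ.res α) rfl (hσ l α h) fun l' β h1 h2 => ?_
    refine (val_res_self (RN.res (⟨z'.σ, g, hnat⟩ : RN G ⦋n⦌) α) β rfl).trans ?_
    change g l' (β ≫ α) = _
    rw [hg1 (β ≫ α) (hcomp α β h)]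
    exact val_congr (he l l' α β h _).symm _ _ _

theorem rnv_trivFib {G G' : SP (A × Aᵒᵖ)} (q : G ⟶ G') (hq : ∀ j, TrivFib (q.app j)) :
    TrivFib (RNv.mapq q) := fun n => lift_of_bdFill (rn_bdFill q hq n)

/-- The projection of the relative nerve. -/
def RNv.proj (G : SP (A × Aᵒᵖ)) : RNv G ⟶ Nv A where
  app k := ↾ fun (z : RN G k.unop) => z.σ
  naturality _ _ _ := rfl

/-- Families of simplices `φ(σ) ∈ G(σ_0, σ_k)_k`, natural in the chain `σ`. -/
structure Fam (G : SP (A × Aᵒᵖ)) : Type where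
  v : ∀ {k : SimplexCategory} (σ : Chain A k), (G.obj (op (E2 σ))).obj (op k)
  nat : ∀ {k l : SimplexCategory} (σ : Chain A k) (α : l ⟶ k),
    (G.map (endTo σ α).op).app (op l) (v (σ.res α)) = (G.obj (op (E2 σ))).map α.op (v σ)

/-- The section of the relative nerve attached to a family. -/
def Fam.sec {G : SP (A × Aᵒᵖ)} (f : Fam G) : Nv A ⟶ RNv G where
  app k := ↾ fun (σ : Chain A k.unop) =>
    (⟨σ, fun l α => f.v (σ.res α), fun α β => f.nat (σ.res α) β⟩ : RN G k.unop)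
  naturality k l α := by
    ext σ
    rfl

/-- Families lift along objectwise trivial fibrations. -/
theorem Fam.lift {G G' : SP (A × Aᵒᵖ)} (q : G ⟶ G') (hq : ∀ j, TrivFib (q.app j))
    (f : Fam G') : ∃ g : Fam G, ∀ {k : SimplexCategory} (σ : Chain A k),
      (q.app (op (E2 σ))).app (op k) (g.v σ) = f.v σ := by
  have hl := Pool.Agent.Helper45.FL2.TrivFib.lift (rnv_trivFib q hq)
    ((⊥ : (Nv A).Subcomplex).ι)
  let t : ((⊥ : (Nv A).Subcomplex) : SSet.{0}) ⟶ RNv G :=
    { app := fun k => ↾ fun x => (x.2 : False).elim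
      naturality := fun k l α => by
        ext x
        exact (x.2 : False).elim }
  have sq : CommSq t ((⊥ : (Nv A).Subcomplex).ι) (RNv.mapq q) f.sec := ⟨by
    ext k x
    exact (x.2 : False).elim⟩
  have h2 : sq.lift ≫ RNv.mapq q = f.sec := sq.fac_right
  have hs : sq.lift ≫ RNv.proj G = 𝟙 _ := by
    have h3 : sq.lift ≫ RNv.mapq q ≫ RNv.proj G' = f.sec ≫ RNv.proj G' :=
      (Category.assoc _ _ _).symm.trans (congrArg (· ≫ RNv.proj G') h2)
    exact h3
  have hσ : ∀ {k : SimplexCategory} (σ : Chain A k),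
      (sq.lift.app (op k) σ : RN G k).σ = σ := fun {k} σ =>
    congrArg (fun (f : Nv A ⟶ Nv A) => f.app (op k) σ) hs
  refine ⟨⟨fun {k} σ => val (sq.lift.app (op k) σ : RN G k) σ (hσ σ), ?_⟩, ?_⟩
  · intro k l σ α
    have h1 : (sq.lift.app (op l) (σ.res α) : RN G l) =
      (sq.lift.app (op k) σ : RN G k).res α := sset_nat sq.lift α.op σ
    refine (congrArg ((G.map (endTo σ α).op).app (op l))
      (val_congr h1 (σ.res α) (hσ (σ.res α)) (congrArg (Chain.res · α) (hσ σ)))).trans ?_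
    exact val_res (sq.lift.app (op k) σ : RN G k) σ (hσ σ) α _
  · intro k σ
    have h4 : (sq.lift.app (op k) σ : RN G k).mapq q = f.sec.app (op k) σ :=
      congrArg (fun (f : Nv A ⟶ RNv G') => f.app (op k) σ) h2
    refine (val_mapq q (sq.lift.app (op k) σ : RN G k) σ (hσ σ) (hσ σ)).symm.trans ?_
    exact val_congr h4 σ (hσ σ) rfl

end Helper41FL2
end

/- Helper36.FL.Filt -/
section
/-! FL-15a: `Map(C_{≤ •}, D) = Map(C, N D)`, and `N D` is injectively fibrant. -/

open CategoryTheory MonoidalCategory Opposite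

set_option autoImplicit false

namespace Pool.Agent.Helper36.FL

open _root_.FL

section

variable {n : ℕ}

/-- The forward map on simplices. -/
@[simps]
noncomputable def fwdS {C : SP (Th n)} {D : SP (Gn n)} {m : SimplexCategory}
    (ψ : MpS (filt C) D m) : MpS C (ND D) m where
  app a l s x :=
    ({ app := fun g m' t u => ψ.app g m' (t ≫ s)
          ((C.map (Quiver.Hom.op (u : (tower n).obj g.unop ⟶ a.unop))).app m'
            ((C.obj a).map t.op x))
       nat_left := fun {g g'} f k t u => by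
          refine Eq.trans ?_ (ψ.nat_left f k (t ≫ s) _)
          refine congrArg (ψ.app g' k (t ≫ s)) ?_
          exact sp_comp C (Quiver.Hom.op (u : (tower n).obj g.unop ⟶ a.unop))
            (Quiver.Hom.op ((tower n).map f.unop)) _
       nat_right := fun g {k k'} h t u => by
          refine Eq.trans ?_ (ψ.nat_right g h (t ≫ s) _)
          refine congrArg₂ (ψ.app g k') (Category.assoc _ _ _) ?_
          refine (congrArg _ (sset_comp (C.obj a) t.op h x)).trans ?_
          exact sp_nat C (Quiver.Hom.op (u : (tower n).obj g.unop ⟶ a.unop)) h _ } :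
      MpS (filt (rep a.unop)) D l.unop)
  nat_left {a b} f k s x := by
    refine MpS.ext ?_
    funext g m' t u
    refine congrArg (ψ.app g m' (t ≫ s)) ?_
    refine (congrArg _ (sp_nat C f t.op x).symm).trans ?_
    exact (sp_comp C f (Quiver.Hom.op (u : (tower n).obj g.unop ⟶ b.unop)) _).symm
  nat_right a {k l} h s x := by
    refine MpS.ext ?_
    funext g m' t u
    refine congrArg₂ (ψ.app g m') (Category.assoc _ _ _).symm ?_
    exact congrArg _ (sset_comp (C.obj a) h t.op x).symm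

/-- The backward map on simplices. -/
@[simps]
noncomputable def bwdS {C : SP (Th n)} {D : SP (Gn n)} {m : SimplexCategory}
    (Φ : MpS C (ND D) m) : MpS (filt C) D m where
  app g l s c := (Φ.app (op ((tower n).obj g.unop)) l s c : MpS (filt (rep _)) D l.unop).app g l
    (𝟙 _) (𝟙 ((tower n).obj g.unop))
  nat_left {g g'} f k s c := by
    refine (congrArg (fun z : MpS (filt (rep _)) D k.unop => z.app g' k (𝟙 _)
      (𝟙 ((tower n).obj g'.unop))) (Φ.nat_left ((tower n).map f.unop).op k s c)).trans ?_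
    refine Eq.trans ?_ ((Φ.app (op ((tower n).obj g.unop)) k s c :
      MpS (filt (rep _)) D k.unop).nat_left f k (𝟙 _) (𝟙 ((tower n).obj g.unop)))
    refine congrArg ((Φ.app (op ((tower n).obj g.unop)) k s c :
      MpS (filt (rep _)) D k.unop).app g' k (𝟙 _)) ?_
    exact (Category.id_comp ((tower n).map f.unop)).trans
      (Category.comp_id ((tower n).map f.unop)).symm
  nat_right g {k l} h s c := by
    refine (congrArg (fun z : MpS (filt (rep _)) D l.unop => z.app g l (𝟙 _)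
      (𝟙 ((tower n).obj g.unop))) (Φ.nat_right (op ((tower n).obj g.unop)) h s c)).trans ?_
    refine Eq.trans ?_ ((Φ.app (op ((tower n).obj g.unop)) k s c :
      MpS (filt (rep _)) D k.unop).nat_right g h (𝟙 _) (𝟙 ((tower n).obj g.unop)))
    exact congrArg (fun t => (Φ.app (op ((tower n).obj g.unop)) k s c :
      MpS (filt (rep _)) D k.unop).app g l t (𝟙 ((tower n).obj g.unop)))
      ((Category.id_comp h.unop).trans (Category.comp_id h.unop).symm)

theorem bwdS_fwdS {C : SP (Th n)} {D : SP (Gn n)} {m : SimplexCategory}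
    (ψ : MpS (filt C) D m) : bwdS (fwdS ψ) = ψ := by
  refine MpS.ext ?_
  funext g l s c
  refine congrArg₂ (ψ.app g l) (Category.id_comp s) ?_
  exact (sp_id C _).trans (sset_id (C.obj _) c)

theorem fwdS_bwdS {C : SP (Th n)} {D : SP (Gn n)} {m : SimplexCategory}
    (Φ : MpS C (ND D) m) : fwdS (bwdS Φ) = Φ := by
  refine MpS.ext ?_
  funext a l s x
  refine MpS.ext ?_
  funext g m' t u
  refine (congrArg (fun z : MpS (filt (rep _)) D m'.unop => z.app g m' (𝟙 _)
      (𝟙 ((tower n).obj g.unop))) (Φ.nat_left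
        (Quiver.Hom.op (u : (tower n).obj g.unop ⟶ a.unop)) m' (t ≫ s)
        ((C.obj a).map t.op x))).trans ?_
  refine (congrArg (fun z : MpS (filt (rep a.unop)) D m'.unop => z.app g m' (𝟙 _)
      (𝟙 ((tower n).obj g.unop) ≫ (u : (tower n).obj g.unop ⟶ a.unop)))
        (Φ.nat_right a t.op s x)).trans ?_
  exact congrArg₂ ((Φ.app a l s x : MpS (filt (rep a.unop)) D l.unop).app g m')
    (Category.id_comp t) (Category.id_comp (u : (tower n).obj g.unop ⟶ a.unop))

/-- `Map(C_{≤ •}, D) = Map(C, N D)`. -/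
noncomputable def filtIso (C : SP (Th n)) (D : SP (Gn n)) : Mp (filt C) D ≅ Mp C (ND D) where
  hom :=
    { app := fun k => ↾ fun (ψ : MpS (filt C) D k.unop) => fwdS ψ
      naturality := fun k l α => by
        ext (ψ : MpS (filt C) D k.unop)
        refine MpS.ext ?_
        funext a l' s x
        refine MpS.ext ?_
        funext g m' t u
        exact congrArg (fun z => ψ.app g m' z _) (Category.assoc _ _ _) }
  inv :=
    { app := fun k => ↾ fun (Φ : MpS C (ND D) k.unop) => bwdS Φ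
      naturality := fun k l α => by
        ext (ψ : MpS C (ND D) k.unop)
        rfl }
  hom_inv_id := by
    ext k (ψ : MpS (filt C) D k.unop)
    exact bwdS_fwdS ψ
  inv_hom_id := by
    ext k (Φ : MpS C (ND D) k.unop)
    exact fwdS_bwdS Φ

/-- `Map(C_{≤ •}, D) = Map(C, N D)`. -/
theorem exists_filtIso (C : SP (Th n)) (D : SP (Gn n)) :
    ∃ e : Mp (filt C) D ≅ Mp C (ND D),
      ∀ (k : SimplexCategoryᵒᵖ) (ψ : MpS (filt C) D k.unop) (a : (Th n)ᵒᵖ)
        (l : SimplexCategoryᵒᵖ) (s : l.unop ⟶ k.unop) (x : (C.obj a).obj l) (g : (Gn n)ᵒᵖ)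
        (m : SimplexCategoryᵒᵖ) (t : m.unop ⟶ l.unop)
        (u : (tower n).obj g.unop ⟶ a.unop),
        ((e.hom.app k ψ : MpS C (ND D) k.unop).app a l s x : MpS (filt (rep a.unop)) D l.unop).app
          g m t u =
        ψ.app g m (t ≫ s) ((C.map (Quiver.Hom.op u)).app m ((C.obj a).map t.op x)) :=
  ⟨filtIso C D, fun _ _ _ _ _ _ _ _ _ _ => rfl⟩

/-- Vertices of the mapping space are maps. -/
noncomputable def toHom {A : Type} [SmallCategory A] {X Y : SP A}
    (φ : MpS X Y (SimplexCategory.mk 0)) : X ⟶ Y where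
  app a :=
    { app := fun k => ↾ fun x => φ.app a k (SimplexCategory.const k.unop (SimplexCategory.mk 0) 0) x
      naturality := fun k l α => by
        ext x
        exact φ.nat_right a α (SimplexCategory.const k.unop (SimplexCategory.mk 0) 0) x }
  naturality a b f := by
    ext k x
    exact φ.nat_left f k _ x

theorem toHom_app {A : Type} [SmallCategory A] {X Y : SP A}
    (φ : MpS X Y (SimplexCategory.mk 0)) (a : Aᵒᵖ) (k : SimplexCategoryᵒᵖ)
    (s : k.unop ⟶ SimplexCategory.mk 0) (x : (X.obj a).obj k) :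
    ((toHom φ).app a).app k x = φ.app a k s x :=
  congrArg (fun z => φ.app a k z x) (SimplexCategory.eq_const_to_zero s).symm

theorem ND_injFib {D : SP (Gn n)} (hD : InjFib D) : InjFib (ND D) := by
  intro X Y i hi f
  have hi' : TrivCof (Functor.whiskerLeft (tower n).op i : filt X ⟶ filt Y) :=
    ⟨fun a => hi.1 _, fun a => hi.2 _⟩
  obtain ⟨h, hh⟩ := hD _ hi' (toHom (bwdS (MpS.ofHom (SimplexCategory.mk 0) f)))
  refine ⟨toHom (fwdS (MpS.ofHom (SimplexCategory.mk 0) h)), ?_⟩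
  ext a k x
  change ((toHom (fwdS (MpS.ofHom (SimplexCategory.mk 0) h))).app a).app k ((i.app a).app k x) =
    (f.app a).app k x
  refine (toHom_app _ a k (SimplexCategory.const k.unop (SimplexCategory.mk 0) 0) _).trans ?_
  refine MpS.ext ?_
  funext g m' t u
  have e1 : ((i.app (op ((tower n).obj g.unop))).app m'
      ((X.map (Quiver.Hom.op (u : (tower n).obj g.unop ⟶ a.unop))).app m'
        ((X.obj a).map t.op x))) =
      (Y.map (Quiver.Hom.op (u : (tower n).obj g.unop ⟶ a.unop))).app m'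
        ((Y.obj a).map t.op ((i.app a).app k x)) :=
    (hom_nat i _ _).trans (congrArg _ (hom_natk i t.op x))
  have e2 := congrArg (fun z : filt X ⟶ D => (z.app g).app m'
      ((X.map (Quiver.Hom.op (u : (tower n).obj g.unop ⟶ a.unop))).app m'
        ((X.obj a).map t.op x))) hh
  refine (congrArg ((h.app g).app m') e1.symm).trans (e2.trans ?_)
  refine (toHom_app _ g m' (t ≫ SimplexCategory.const k.unop (SimplexCategory.mk 0) 0) _).trans ?_
  exact congrArg (fun z : MpS X (ND D) (SimplexCategory.mk 0) =>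
    ((z.app a k (SimplexCategory.const k.unop (SimplexCategory.mk 0) 0) x :
      MpS (filt (rep a.unop)) D k.unop).app g m' t u))
    (fwdS_bwdS (MpS.ofHom (SimplexCategory.mk 0) f))

end

end Pool.Agent.Helper36.FL
end
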