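import Pool.Agent.Helper58.FL.Theta

/- Helper58.FLP.Public -/
section
/-!
# The conjecture of Ayala and Francis on flagged `(∞,n)`-categories: statement
-/

open CategoryTheory MonoidalCategory CartesianMonoidalCategory Opposite

set_option autoImplicit false

namespace FLP

open FL (SP HoEq InjFib Wr Th tr trMap trUnit)

noncomputable section

section Basic

/-- The `m`-simplices of a simplicial set. -/
abbrev Sx (K : SSet.{0}) (m : SimplexCategory) : Type := K.obj (op m)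

/-- The vertices of a simplicial set. -/
abbrev Vt (K : SSet.{0}) : Type := Sx K (SimplexCategory.mk 0)

/-- The value of a map of simplicial sets at a simplex. -/
def ev {K L : SSet.{0}} (f : K ⟶ L) {m : SimplexCategory} (x : Sx K m) : Sx L m := f.app (op m) x

/-- The restriction of a simplex along `α : [l] ⟶ [m]`. -/
def res {K : SSet.{0}} {l m : SimplexCategory} (α : l ⟶ m) (x : Sx K m) : Sx K l := K.map α.op x

/-- The vertex `x` as a map from the point. -/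
def nm {K : SSet.{0}} (x : Vt K) : 𝟙_ SSet.{0} ⟶ K := SSet.const x

lemma nm_ev {K L : SSet.{0}} (f : K ⟶ L) (x : Vt K) : nm x ≫ f = nm (ev f x) :=
  SSet.const_comp ..

/-- Two vertices are connected by an edge. -/
def Edge {K : SSet.{0}} (x y : Vt K) : Prop := Nonempty (SSet.Homotopy (nm x) (nm y))

variable {A B : Type} [SmallCategory A] [SmallCategory B]

/-- The value of a simplicial presheaf. -/
abbrev vl (X : SP A) (a : A) : SSet.{0} := X.obj (op a)

/-- The restriction `X ∘ t` along a functor `t : B ⥤ A`. -/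
abbrev rs (t : B ⥤ A) (X : SP A) : SP B := t.op ⋙ X

/-- The constant presheaf. -/
abbrev cst (A : Type) [SmallCategory A] (K : SSet.{0}) : SP A := (Functor.const Aᵒᵖ).obj K

/-- Functoriality of the constant presheaf. -/
abbrev cstMap (A : Type) [SmallCategory A] {K L : SSet.{0}} (f : K ⟶ L) : cst A K ⟶ cst A L :=
  (Functor.const Aᵒᵖ).map f

/-- The maps `X × Δ[m] ⟶ Y`. -/
abbrev Mx (X Y : SP A) (m : SimplexCategory) : Type := X ⊗ cst A (SSet.stdSimplex.obj m) ⟶ Y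

/-- Restriction of maps `X × Δ[m] ⟶ Y` along `Δ[l] ⟶ Δ[m]`. -/
def Mx.res {X Y : SP A} {m l : SimplexCategory} (α : l ⟶ m) (φ : Mx X Y m) : Mx X Y l :=
  X ◁ cstMap A (SSet.stdSimplex.map α) ≫ φ

/-- The composite `X × Δ[m] ⟶ Y × Δ[m] ⟶ Z`. -/
def Mx.comp {X Y Z : SP A} {m : SimplexCategory} (φ : Mx X Y m) (ψ : Mx Y Z m) : Mx X Z m :=
  lift φ (snd _ _) ≫ ψ

/-- The map `X ⟶ Y` as a map `X × Δ[m] ⟶ Y`. -/
def Mx.of {X Y : SP A} (f : X ⟶ Y) (m : SimplexCategory) : Mx X Y m := fst _ _ ≫ f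

/-- Restriction of maps `X × Δ[m] ⟶ Y` along a functor `t : B ⥤ A`. -/
def Mx.along (t : B ⥤ A) {X Y : SP A} {m : SimplexCategory} (φ : Mx X Y m) :
    Mx (rs t X) (rs t Y) m :=
  Functor.whiskerLeft t.op φ

lemma Mx.res_id {X Y : SP A} {m : SimplexCategory} (φ : Mx X Y m) : φ.res (𝟙 m) = φ := by
  simp [Mx.res]

lemma Mx.res_comp {X Y : SP A} {m l k : SimplexCategory} (α : l ⟶ m) (β : k ⟶ l)
    (φ : Mx X Y m) : φ.res (β ≫ α) = (φ.res α).res β := by
  simp [Mx.res]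

lemma Mx.comp_res {X Y Z : SP A} {m l : SimplexCategory} (α : l ⟶ m) (φ : Mx X Y m)
    (ψ : Mx Y Z m) : (φ.res α).comp (ψ.res α) = (φ.comp ψ).res α := by
  rw [Mx.comp, Mx.comp, Mx.res, Mx.res, Mx.res, ← Category.assoc, ← Category.assoc]
  congr 1

lemma Mx.of_res {X Y : SP A} (f : X ⟶ Y) {m l : SimplexCategory} (α : l ⟶ m) :
    (Mx.of f m).res α = Mx.of f l := by
  rw [Mx.res, Mx.of, Mx.of, whiskerLeft_fst_assoc]

lemma Mx.comp_assoc {X Y Z T : SP A} {m : SimplexCategory} (φ : Mx X Y m) (ψ : Mx Y Z m)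
    (χ : Mx Z T m) : (φ.comp ψ).comp χ = φ.comp (ψ.comp χ) := by
  rw [Mx.comp, Mx.comp, Mx.comp, Mx.comp, ← Category.assoc]
  congr 1

lemma Mx.id_comp {X Y : SP A} {m : SimplexCategory} (φ : Mx X Y m) :
    (Mx.of (𝟙 X) m).comp φ = φ := by
  rw [Mx.comp, Mx.of, Category.comp_id, lift_fst_snd, Category.id_comp]

lemma Mx.of_comp {X Y Z : SP A} {m : SimplexCategory} (f : X ⟶ Y) (g : Y ⟶ Z) :
    (Mx.of (f ≫ g) m) = (Mx.of f m).comp (Mx.of g m) := by
  rw [Mx.comp, Mx.of, Mx.of, Mx.of, lift_fst_assoc, Category.assoc]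

/-- The mapping space: the simplicial set of maps `X × Δ[m] ⟶ Y`. -/
def Mp (X Y : SP A) : SSet.{0} where
  obj m := Mx X Y m.unop
  map α := ↾ Mx.res α.unop
  map_id _ := ConcreteCategory.hom_ext _ _ Mx.res_id
  map_comp α β := ConcreteCategory.hom_ext _ _ (Mx.res_comp α.unop β.unop)

lemma Mp.pre_nat {X X' : SP A} (f : X ⟶ X') (Y : SP A) {m l : SimplexCategory} (α : l ⟶ m)
    (φ : Mx X' Y m) : (Mx.of f l).comp (φ.res α) = ((Mx.of f m).comp φ).res α := by
  rw [← Mx.of_res f α, Mx.comp_res]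

/-- Precomposition with a map. -/
def Mp.pre {X X' : SP A} (f : X ⟶ X') (Y : SP A) : Mp X' Y ⟶ Mp X Y where
  app m := ↾ (Mx.of f m.unop).comp
  naturality _ _ α := ConcreteCategory.hom_ext _ _ (Mp.pre_nat f Y α.unop)

/-- A presheaf of sets, viewed as a discrete simplicial presheaf. -/
abbrev disc (F : Aᵒᵖ ⥤ Type) : SP A := F ⋙ Functor.const SimplexCategoryᵒᵖ

end Basic

section Cat

variable {C : Type} [SmallCategory C]

/-- The object `[1](c)`. -/
abbrev seg (c : C) : Wr C := ⟨1, fun _ => c⟩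

/-- The functoriality of `[1](c)`. -/
def segMap {c c' : C} (f : c ⟶ c') : seg c ⟶ seg c' := Wr.ofComp fun _ => f

lemma segMap_id (c : C) : segMap (𝟙 c) = 𝟙 (seg c) := by
  refine Wr.hom_ext' rfl fun i j h h' => ?_
  obtain rfl : i = j := FL.jump_id.mp h
  exact Wr.ofComp_g (X := fun _ => c) (Y := fun _ => c) _ i h

lemma segMap_comp {c c' c'' : C} (f : c ⟶ c') (g : c' ⟶ c'') :
    segMap (f ≫ g) = segMap f ≫ segMap g := by
  refine Wr.hom_ext' rfl fun i j h h' => ?_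
  obtain rfl : i = j := FL.jump_id.mp h
  have e := Wr.comp_g (X := (⟨1, fun _ => c⟩ : Wr C)) (Y := ⟨1, fun _ => c'⟩)
    (Z := ⟨1, fun _ => c''⟩) (Wr.ofComp fun _ => f) (Wr.ofComp fun _ => g) (i := i) (j := i)
    (k := i) (FL.jump_id.mpr rfl) (FL.jump_id.mpr rfl)
  refine (Wr.ofComp_g (X := fun _ => c) (Y := fun _ => c'') _ i h).trans ?_
  refine Eq.trans ?_ e.symm
  exact (congrArg₂ (· ≫ ·)
    (Wr.ofComp_g (X := fun _ => c) (Y := fun _ => c') (fun _ => f) i (FL.jump_id.mpr rfl))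
    (Wr.ofComp_g (X := fun _ => c') (Y := fun _ => c'') (fun _ => g) i
      (FL.jump_id.mpr rfl))).symm

/-- The functor `c ↦ [1](c)`. -/
def segF (C : Type) [SmallCategory C] : C ⥤ Wr C where
  obj c := seg c
  map f := segMap f
  map_id := segMap_id
  map_comp := segMap_comp

/-- The vertex `i` of `[1](c)`. -/
def vtx (c : C) (i : Fin 2) : (Wr.pt : Wr C) ⟶ seg c :=
  ({ f := ⟨fun _ => i, fun _ _ _ => le_refl _⟩, g := fun j => j.elim0 } : Wr.Hom Wr.pt (seg c))

lemma vtx_seg {c c' : C} (f : c ⟶ c') (i : Fin 2) : vtx c i ≫ segMap f = vtx c' i :=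
  Wr.hom_ext' rfl fun (j : Fin 0) _ _ _ => j.elim0

/-- The space of objects `X([0])`. -/
abbrev Ob (X : SP (Wr C)) : SSet.{0} := vl X Wr.pt

/-- The presheaf `c ↦ X([1](c))`. -/
abbrev mor (X : SP (Wr C)) : SP C := rs (segF C) X

/-- The end `i` of the elements of `X([1](c))`. -/
def endAt (X : SP (Wr C)) (i : Fin 2) (c : Cᵒᵖ) : (mor X).obj c ⟶ Ob X :=
  X.map (vtx c.unop i).op

lemma endAt_nat (X : SP (Wr C)) (i : Fin 2) {c c' : Cᵒᵖ} (f : c ⟶ c') :
    (mor X).map f ≫ endAt X i c' = endAt X i c := by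
  show X.map (segMap f.unop).op ≫ X.map (vtx c'.unop i).op = X.map (vtx c.unop i).op
  rw [← X.map_comp, ← op_comp, vtx_seg]

lemma ends_nat' (X : SP (Wr C)) {c c' : Cᵒᵖ} (f : c ⟶ c') :
    (mor X).map f ≫ lift (endAt X 0 c') (endAt X 1 c') =
      lift (endAt X 0 c) (endAt X 1 c) ≫ (cst C (Ob X ⊗ Ob X)).map f := by
  rw [comp_lift, endAt_nat, endAt_nat]
  exact (Category.comp_id _).symm

/-- The map `X([1](c)) ⟶ X([0]) × X([0])`. -/
def ends (X : SP (Wr C)) : mor X ⟶ cst C (Ob X ⊗ Ob X) where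
  app c := lift (endAt X 0 c) (endAt X 1 c)
  naturality _ _ := ends_nat' X

/-- The pair of objects `(x, y)`. -/
def pair (X : SP (Wr C)) (x y : Vt (Ob X)) : cst C (𝟙_ SSet.{0}) ⟶ cst C (Ob X ⊗ Ob X) :=
  cstMap C (lift (nm x) (nm y))

/-- The mapping presheaf `X(x, y)`: the fibre of `X([1](c)) ⟶ X([0]) × X([0])` over `(x, y)`. -/
def Hm (X : SP (Wr C)) (x y : Vt (Ob X)) : SP C := Limits.pullback (ends X) (pair X x y)

/-- The map `X([0]) ⟶ Y([0])`. -/
def obm {X Y : SP (Wr C)} (f : X ⟶ Y) : Ob X ⟶ Ob Y := f.app (op Wr.pt)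

/-- The map `X([1](c)) ⟶ Y([1](c))`. -/
def morm {X Y : SP (Wr C)} (f : X ⟶ Y) : mor X ⟶ mor Y := Functor.whiskerLeft (segF C).op f

/-- The map `X([0]) × X([0]) ⟶ Y([0]) × Y([0])`. -/
def obm2 {X Y : SP (Wr C)} (f : X ⟶ Y) : cst C (Ob X ⊗ Ob X) ⟶ cst C (Ob Y ⊗ Ob Y) :=
  cstMap C (obm f ⊗ₘ obm f)

lemma ends_nat {X Y : SP (Wr C)} (f : X ⟶ Y) : ends X ≫ obm2 f = morm f ≫ ends Y := by
  ext c : 2
  show lift _ _ ≫ (_ ⊗ₘ _) = f.app _ ≫ lift _ _
  rw [comp_lift, lift_map]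
  congr 1
  · exact f.naturality _
  · exact f.naturality _

lemma pair_nat {X Y : SP (Wr C)} (f : X ⟶ Y) (x y : Vt (Ob X)) :
    pair X x y ≫ obm2 f = 𝟙 _ ≫ pair Y (ev (obm f) x) (ev (obm f) y) := by
  rw [Category.id_comp, pair, pair, obm2, ← Functor.map_comp, lift_map, nm_ev, nm_ev]

/-- The functoriality of `X(x, y)`. -/
def HmMap {X Y : SP (Wr C)} (f : X ⟶ Y) (x y : Vt (Ob X)) :
    Hm X x y ⟶ Hm Y (ev (obm f) x) (ev (obm f) y) :=
  Limits.pullback.map _ _ _ _ (morm f) (𝟙 _) (obm2 f) (ends_nat f) (pair_nat f x y)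

/-- The morphism `φ : η ⟶ θ` factors through a vertex or one of the segments of `θ`. -/
def InSpine {η θ : Wr C} (φ : η ⟶ θ) : Prop :=
  (∃ v, ∀ t, Wr.Hom.f φ t = v) ∨
    ∃ i : Fin θ.len, ∀ t, Wr.Hom.f φ t = i.castSucc ∨ Wr.Hom.f φ t = i.succ

lemma InSpine.comp {η ζ θ : Wr C} {φ : η ⟶ θ} (h : InSpine φ) (ψ : ζ ⟶ η) :
    InSpine (ψ ≫ φ) := by
  rcases h with ⟨v, hv⟩ | ⟨i, hi⟩
  · exact Or.inl ⟨v, fun t => hv _⟩
  · exact Or.inr ⟨i, fun t => hi _⟩

/-- The representable presheaf. -/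
abbrev rep {A : Type} [SmallCategory A] (a : A) : Aᵒᵖ ⥤ Type := yoneda.obj a

/-- The spine of `θ`. -/
def spine (θ : Wr C) : Subfunctor (rep θ) where
  obj η := {φ | InSpine φ}
  map ψ _ h := h.comp ψ.unop

/-- The inclusion of the spine. -/
abbrev spineι (θ : Wr C) : disc (spine θ).toFunctor ⟶ disc (rep θ) :=
  Functor.whiskerRight (spine θ).ι (Functor.const SimplexCategoryᵒᵖ)

/-- The projection `[m](c) ↦ [m]`. -/
def shape (C : Type) [SmallCategory C] : Wr C ⥤ SimplexCategory where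
  obj θ := SimplexCategory.mk θ.len
  map φ := SimplexCategory.Hom.mk (Wr.Hom.f φ)

/-- The nerve of the free-standing isomorphism. -/
def iso (C : Type) [SmallCategory C] : SP (Wr C) := disc ((shape C).op ⋙ SSet.coherentIso.{0})

/-- The Segal condition. -/
def Segal (X : SP (Wr C)) : Prop := ∀ θ : Wr C, HoEq (Mp.pre (spineι θ) X)

/-- The completeness condition. -/
def Complete (X : SP (Wr C)) : Prop := HoEq (Mp.pre (toUnit (iso C)) X)

end Cat

/-- `(∞,n)`-categories. -/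
inductive IsCat : (n : ℕ) → SP (Th n) → Prop
  | zero (X : SP (Th 0)) (inj : InjFib X) : IsCat 0 X
  | succ (n : ℕ) (X : SP (Wr (Th n))) (inj : InjFib X) (segal : Segal X) (complete : Complete X)
      (hom : ∀ x y : Vt (Ob X), IsCat n (Hm X x y)) : IsCat (n + 1) X

/-- `Z` is `i`-truncated, that is it lies in `Cat_i ⊂ Cat_n`. -/
def Truncated {n : ℕ} (i : ℕ) (Z : SP (Th n)) : Prop :=
  ∀ θ : Th n, HoEq (Z.map ((trUnit n i).app θ).op)

/-- The object `[0]` of `Θ_n`. -/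
def pt : (n : ℕ) → Th n
  | 0 => Discrete.mk PUnit.unit
  | _ + 1 => Wr.pt

/-- The map `f` is surjective on path components of spaces of `k`-morphisms with fixed source and
target. -/
inductive Surj : (n k : ℕ) → {X Y : SP (Th n)} → (X ⟶ Y) → Prop
  | zero (n : ℕ) {X Y : SP (Th n)} (f : X ⟶ Y)
      (h : ∀ y : Vt (vl Y (pt n)), ∃ x : Vt (vl X (pt n)), Edge (ev (f.app _) x) y) : Surj n 0 f
  | succ (n k : ℕ) {X Y : SP (Wr (Th n))} (f : X ⟶ Y)
      (h : ∀ x y : Vt (Ob X), Surj n k (HmMap f x y)) : Surj (n + 1) (k + 1) f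

section Flagged

variable {n : ℕ}

/-- The category `Θ_n × [n]^op`: a simplicial presheaf on it is a sequence `D_0 ⟶ … ⟶ D_n`. -/
abbrev Gn (n : ℕ) : Type := Th n × (Fin (n + 1))ᵒᵖ

/-- The level `D_i`. -/
def level (D : SP (Gn n)) (i : Fin (n + 1)) : SP (Th n) := rs (Prod.sectL (Th n) (op i)) D

/-- The morphism `(θ, j) ⟶ (θ, i)`. -/
def down (θ : Th n) {i j : Fin (n + 1)} (h : i ≤ j) : ((θ, op j) : Gn n) ⟶ (θ, op i) :=
  Prod.mkHom (𝟙 θ) (homOfLE h).op

/-- The map `D_i(θ) ⟶ D_j(θ)`. -/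
def levelAt (D : SP (Gn n)) {i j : Fin (n + 1)} (h : i ≤ j) (θ : (Th n)ᵒᵖ) :
    (level D i).obj θ ⟶ (level D j).obj θ :=
  D.map (down θ.unop h).op

lemma levelAt_nat (D : SP (Gn n)) {i j : Fin (n + 1)} (h : i ≤ j) {θ θ' : (Th n)ᵒᵖ}
    (f : θ ⟶ θ') : (level D i).map f ≫ levelAt D h θ' = levelAt D h θ ≫ (level D j).map f := by
  refine (D.map_comp _ _).symm.trans (Eq.trans ?_ (D.map_comp _ _))
  refine congrArg D.map (Quiver.Hom.unop_inj (Prod.ext ?_ (Subsingleton.elim _ _)))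
  exact (Category.id_comp _).trans (Category.comp_id _).symm

/-- The map `D_i ⟶ D_j`. -/
def levelMap (D : SP (Gn n)) {i j : Fin (n + 1)} (h : i ≤ j) : level D i ⟶ level D j where
  app θ := levelAt D h θ
  naturality _ _ := levelAt_nat D h

/-- Flagged `(∞,n)`-categories. -/
structure Flagged (D : SP (Gn n)) : Prop where
  inj : InjFib D
  cat : ∀ i, IsCat n (level D i)
  trunc : ∀ i : Fin (n + 1), Truncated i.1 (level D i)
  surj : ∀ (i j : Fin (n + 1)) (h : i ≤ j) (k : ℕ), k ≤ i.1 → Surj n k (levelMap D h)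

end Flagged

section Presheaves

variable {n : ℕ}

/-- The `(∞,n)`-categories. -/
structure CatN (n : ℕ) : Type 1 where
  X : SP (Th n)
  cat : IsCat n X

/-- Maps of `(∞,n)`-categories. -/
abbrev CatN.Mx (C C' : CatN n) (m : SimplexCategory) : Type := FLP.Mx C.X C'.X m

/-- Simplicial presheaves on the simplicial category `Cat_n`. -/
structure PSh (n : ℕ) : Type 1 where
  obj : CatN n → SSet.{0}
  act : ∀ (C C' : CatN n) {m : SimplexCategory}, C.Mx C' m → Sx (obj C') m → Sx (obj C) m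
  act_res : ∀ (C C' : CatN n) {m l : SimplexCategory} (α : l ⟶ m) (φ : C.Mx C' m)
    (x : Sx (obj C') m), act C C' (φ.res α) (res α x) = res α (act C C' φ x)
  act_id : ∀ (C : CatN n) {m : SimplexCategory} (x : Sx (obj C) m), act C C (Mx.of (𝟙 C.X) m) x = x
  act_comp : ∀ (C C' C'' : CatN n) {m : SimplexCategory} (φ : C.Mx C' m) (ψ : C'.Mx C'' m)
    (x : Sx (obj C'') m), act C C'' (φ.comp ψ) x = act C C' φ (act C' C'' ψ x)

namespace PSh

/-- Objectwise Kan presheaves. -/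
def Kan (F : PSh n) : Prop := ∀ C, SSet.KanComplex (F.obj C)

/-- Equivalences. -/
def Equiv (F G : PSh n) : Prop := ∃ f : ∀ C, F.obj C ⟶ G.obj C,
  (∀ (C C' : CatN n) {m : SimplexCategory} (φ : C.Mx C' m) (x : Sx (F.obj C') m),
    ev (f C) (F.act C C' φ x) = G.act C C' φ (ev (f C') x)) ∧ ∀ C, HoEq (f C)

/-- Maps `F × Δ[m] ⟶ G`. -/
@[ext]
structure MapS (F G : PSh n) (m : SimplexCategory) : Type 1 where
  app : ∀ (C : CatN n) {l : SimplexCategory}, (l ⟶ m) → Sx (F.obj C) l → Sx (G.obj C) l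
  nat : ∀ (C : CatN n) {l k : SimplexCategory} (α : k ⟶ l) (s : l ⟶ m) (x : Sx (F.obj C) l),
    app C (α ≫ s) (FLP.res α x) = FLP.res α (app C s x)
  act : ∀ (C C' : CatN n) {l : SimplexCategory} (s : l ⟶ m) (φ : C.Mx C' l)
    (x : Sx (F.obj C') l), app C s (F.act C C' φ x) = G.act C C' φ (app C' s x)

lemma MapS.res_nat {F G : PSh n} {m m' : SimplexCategory} (α : m' ⟶ m) (φ : MapS F G m)
    (C : CatN n) {l k : SimplexCategory} (β : k ⟶ l) (s : l ⟶ m') (x : Sx (F.obj C) l) :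
    φ.app C ((β ≫ s) ≫ α) (FLP.res β x) = FLP.res β (φ.app C (s ≫ α) x) := by
  rw [Category.assoc]
  exact φ.nat C β (s ≫ α) x

/-- Functoriality in `Δ[m]`. -/
def MapS.res {F G : PSh n} {m m' : SimplexCategory} (α : m' ⟶ m) (φ : MapS F G m) :
    MapS F G m' where
  app C _ s x := φ.app C (s ≫ α) x
  nat := φ.res_nat α
  act C C' _ s := φ.act C C' (s ≫ α)

lemma MapS.res_id {F G : PSh n} {m : SimplexCategory} (φ : MapS F G m) : φ.res (𝟙 m) = φ := by
  refine MapS.ext ?_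
  funext C l s x
  exact congrArg (fun t => φ.app C t x) (Category.comp_id s)

lemma MapS.res_comp {F G : PSh n} {m l k : SimplexCategory} (α : l ⟶ m) (β : k ⟶ l)
    (φ : MapS F G m) : φ.res (β ≫ α) = (φ.res α).res β := by
  refine MapS.ext ?_
  funext C j s x
  exact congrArg (fun t => φ.app C t x) (Category.assoc s β α).symm

/-- The mapping spaces. -/
def Map (F G : PSh n) : SSet.{1} where
  obj m := MapS F G m.unop
  map α := ↾ MapS.res α.unop
  map_id _ := ConcreteCategory.hom_ext _ _ MapS.res_id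
  map_comp α β := ConcreteCategory.hom_ext _ _ (MapS.res_comp α.unop β.unop)

lemma map_nat (F : PSh n) (C C' : CatN n) (f : C.X ⟶ C'.X) {m l : SimplexCategory} (α : l ⟶ m)
    (x : Sx (F.obj C') m) :
    F.act C C' (Mx.of f l) (FLP.res α x) = FLP.res α (F.act C C' (Mx.of f m) x) := by
  rw [← Mx.of_res f α]
  exact F.act_res C C' α _ x

/-- The action of a map of `Cat_n`. -/
def map (F : PSh n) (C C' : CatN n) (f : C.X ⟶ C'.X) : F.obj C' ⟶ F.obj C where
  app m := ↾ F.act C C' (Mx.of f m.unop)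
  naturality _ _ α := ConcreteCategory.hom_ext _ _ (F.map_nat C C' f α.unop)

lemma map_id (F : PSh n) (C : CatN n) : F.map C C (𝟙 C.X) = 𝟙 (F.obj C) := by
  refine NatTrans.ext (funext fun m => ConcreteCategory.hom_ext _ _ fun x => ?_)
  exact F.act_id C (m := m.unop) x

lemma map_comp (F : PSh n) (C C' C'' : CatN n) (f : C.X ⟶ C'.X) (g : C'.X ⟶ C''.X) :
    F.map C C'' (f ≫ g) = F.map C' C'' g ≫ F.map C C' f := by
  refine NatTrans.ext (funext fun m => ConcreteCategory.hom_ext _ _ fun x => ?_)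
  show F.act C C'' (Mx.of (f ≫ g) m.unop) x = _
  rw [Mx.of_comp]
  exact F.act_comp C C' C'' (m := m.unop) (Mx.of f _) (Mx.of g _) x

lemma actM_nat (F : PSh n) (C C' : CatN n) {m l : SimplexCategory} (α : l ⟶ m)
    (p : C.Mx C' m × Sx (F.obj C') m) :
    F.act C C' (p.1.res α) (FLP.res α p.2) = FLP.res α (F.act C C' p.1 p.2) :=
  F.act_res C C' α p.1 p.2

/-- The action as a map `Map(C, C') × F(C') ⟶ F(C)`. -/
def actM (F : PSh n) (C C' : CatN n) : Mp C.X C'.X ⊗ F.obj C' ⟶ F.obj C where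
  app m := ↾ fun (p : C.Mx C' m.unop × Sx (F.obj C') m.unop) => F.act C C' p.1 p.2
  naturality _ _ α := ConcreteCategory.hom_ext _ _ (F.actM_nat C C' α.unop)

variable {J : Type} [SmallCategory J]

/-- Diagrams of `(∞,n)`-categories. -/
structure Diag (n : ℕ) (J : Type) [SmallCategory J] : Type 1 where
  p : J ⥤ SP (Th n)
  cat : ∀ j, IsCat n (p.obj j)

/-- The value of a diagram at `j`. -/
def _root_.FLP.PSh.Diag.at (p : Diag n J) (j : J) : CatN n := ⟨p.p.obj j, p.cat j⟩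

/-- The map `F(p(j)) ⟶ F(p(j'))`. -/
def alongMap (F : PSh n) (p : Diag n J) {j j' : Jᵒᵖ} (f : j ⟶ j') :
    F.obj (p.at j.unop) ⟶ F.obj (p.at j'.unop) :=
  F.map (p.at j'.unop) (p.at j.unop) (p.p.map f.unop)

lemma alongMap_id (F : PSh n) (p : Diag n J) (j : Jᵒᵖ) : F.alongMap p (𝟙 j) = 𝟙 _ :=
  (congrArg _ (p.p.map_id j.unop)).trans (F.map_id (p.at j.unop))

lemma alongMap_comp (F : PSh n) (p : Diag n J) {j j' j'' : Jᵒᵖ} (f : j ⟶ j') (g : j' ⟶ j'') :
    F.alongMap p (f ≫ g) = F.alongMap p f ≫ F.alongMap p g :=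
  (congrArg _ (p.p.map_comp g.unop f.unop)).trans
    (F.map_comp (p.at j''.unop) (p.at j'.unop) (p.at j.unop) (p.p.map g.unop) (p.p.map f.unop))

/-- The diagram `j ↦ F(p(j))`. -/
def along (F : PSh n) (p : Diag n J) : SP J where
  obj j := F.obj (p.at j.unop)
  map f := F.alongMap p f
  map_id := F.alongMap_id p
  map_comp := F.alongMap_comp p

section

variable {B : Type} [SmallCategory B] (t : B ⥤ Th n) (Z : SP B)

lemma rp_res (C C' : CatN n) {m l : SimplexCategory} (α : l ⟶ m) (φ : C.Mx C' m)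
    (x : Mx (rs t C'.X) Z m) :
    ((φ.res α).along t).comp (x.res α) = ((φ.along t).comp x).res α :=
  Mx.comp_res α (φ.along t) x

lemma rp_id (C : CatN n) {m : SimplexCategory} (x : Mx (rs t C.X) Z m) :
    ((Mx.of (𝟙 C.X) m).along t).comp x = x :=
  Mx.id_comp x

lemma rp_comp (C C' C'' : CatN n) {m : SimplexCategory} (φ : C.Mx C' m) (ψ : C'.Mx C'' m)
    (x : Mx (rs t C''.X) Z m) :
    ((φ.comp ψ).along t).comp x = (φ.along t).comp ((ψ.along t).comp x) :=
  Mx.comp_assoc (φ.along t) (ψ.along t) x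

/-- The presheaf `C ↦ Map(C ∘ t, Z)`. -/
def rp : PSh n where
  obj C := Mp (rs t C.X) Z
  act _ _ _ φ x := (φ.along t).comp x
  act_res := rp_res t Z
  act_id := rp_id t Z
  act_comp := rp_comp t Z

end

/-- The weight `j ↦ N(j/J)` of homotopy limits. -/
abbrev Wt (J : Type) [SmallCategory J] : SP J := Under.mapFunctor J ⋙ nerveFunctor

/-- Homotopy coherent cocones on the diagram `p` with vertex `C`. -/
abbrev Cocone (p : Diag n J) (C : CatN n) : Type := Wt J ⟶ (rp (𝟭 (Th n)) C.X).along p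

/-- The value at `j` of the comparison map. -/
def cmpAt (F : PSh n) {p : Diag n J} {C : CatN n} (Λ : Cocone p C) {m : SimplexCategory}
    (x : Sx (F.obj C) m) (j : Jᵒᵖ) :
    (Wt J).obj j ⊗ SSet.stdSimplex.obj m ⟶ (F.along p).obj j :=
  (Λ.app j ⊗ₘ SSet.yonedaEquiv.symm x) ≫ F.actM (p.at j.unop) C

lemma cmpAt_nat (F : PSh n) {p : Diag n J} {C : CatN n} (Λ : Cocone p C) {m : SimplexCategory}
    (x : Sx (F.obj C) m) {j j' : Jᵒᵖ} (f : j ⟶ j') :
    (Wt J ⊗ cst J (SSet.stdSimplex.obj m)).map f ≫ F.cmpAt Λ x j' =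
      F.cmpAt Λ x j ≫ (F.along p).map f := by
  refine NatTrans.ext (funext fun k => ConcreteCategory.hom_ext _ _ fun w => ?_)
  have e : (Λ.app j').app k (((Wt J).map f).app k w.1) =
      (Mx.of (p.p.map f.unop) k.unop).comp ((Λ.app j).app k w.1 : (p.at j.unop).Mx C k.unop) :=
    ConcreteCategory.congr_hom (NatTrans.congr_app (Λ.naturality f) k) w.1
  have h := F.act_comp (p.at j'.unop) (p.at j.unop) C (Mx.of (p.p.map f.unop) k.unop)
    ((Λ.app j).app k w.1 : (p.at j.unop).Mx C k.unop)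
    ((SSet.yonedaEquiv.symm x : _ ⟶ F.obj C).app k w.2)
  exact (congrArg (fun t => F.act (p.at j'.unop) C t
    ((SSet.yonedaEquiv.symm x : _ ⟶ F.obj C).app k w.2)) e).trans h

/-- The value at `x` of the comparison map. -/
def cmp (F : PSh n) {p : Diag n J} {C : CatN n} (Λ : Cocone p C) {m : SimplexCategory}
    (x : Sx (F.obj C) m) : Mx (Wt J) (F.along p) m where
  app j := F.cmpAt Λ x j
  naturality _ _ := F.cmpAt_nat Λ x

lemma cmp_nat (F : PSh n) {p : Diag n J} {C : CatN n} (Λ : Cocone p C) {m l : SimplexCategory}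
    (α : l ⟶ m) (x : Sx (F.obj C) m) : F.cmp Λ (FLP.res α x) = (F.cmp Λ x).res α := by
  refine NatTrans.ext (funext fun j => NatTrans.ext (funext fun k =>
    ConcreteCategory.hom_ext _ _ fun w => ?_))
  have e : (SSet.yonedaEquiv.symm (FLP.res α x) : _ ⟶ F.obj C) =
      SSet.stdSimplex.map α ≫ (SSet.yonedaEquiv.symm x : _ ⟶ F.obj C) :=
    (SSet.yonedaEquiv_symm_naturality_left α x).symm
  show F.act (p.at j.unop) C ((Λ.app j).app k w.1)
    ((SSet.yonedaEquiv.symm (FLP.res α x) : _ ⟶ F.obj C).app k w.2) = _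
  rw [e]
  rfl

/-- The comparison map `F(C) ⟶ holim_j F(p(j))` of a homotopy coherent cocone. -/
def compare (F : PSh n) {p : Diag n J} {C : CatN n} (Λ : Cocone p C) :
    F.obj C ⟶ Mp (Wt J) (F.along p) where
  app m := ↾ F.cmp Λ
  naturality _ _ α := ConcreteCategory.hom_ext _ _ (F.cmp_nat Λ α.unop)

/-- Gaunt colimit diagrams. -/
def IsGaunt {p : Diag n J} {C : CatN n} (Λ : Cocone p C) : Prop :=
  ∀ i ≤ n, ∀ Z : CatN n, HoEq ((rp (tr n i) Z.X).compare Λ)

/-- Gaunt descent. -/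
def GauntDescent (F : PSh n) : Prop :=
  ∀ (J : Type) [SmallCategory J] (p : Diag n J) (C : CatN n) (Λ : Cocone p C),
    IsGaunt Λ → HoEq (F.compare Λ)

end PSh

/-- The functoriality of `(θ, i) ↦ t_i θ`. -/
def towMap {x y : Gn n} (u : x ⟶ y) : (tr n x.2.unop).obj x.1 ⟶ (tr n y.2.unop).obj y.1 :=
  (tr n x.2.unop).map u.1 ≫ (trMap n y.2.unop x.2.unop (leOfHom u.2.unop)).app y.1

lemma towMap_id (x : Gn n) : towMap (𝟙 x) = 𝟙 _ := (FL.tower n).map_id x

lemma towMap_comp {x y z : Gn n} (u : x ⟶ y) (v : y ⟶ z) :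
    towMap (u ≫ v) = towMap u ≫ towMap v := (FL.tower n).map_comp u v

/-- The functor `(θ, i) ↦ t_i θ` from `Θ_n × [n]^op` to `Θ_n`. -/
def tower (n : ℕ) : Gn n ⥤ Th n where
  obj x := (tr n x.2.unop).obj x.1
  map u := towMap u
  map_id := towMap_id
  map_comp := towMap_comp

/-- The restricted Yoneda functor: `(Y D)(C) = Map(C_{≤ 0} ⟶ … ⟶ C_{≤ n}, D)`. -/
abbrev YD (D : SP (Gn n)) : PSh n := PSh.rp (tower n) D

/-- The value of `YDmap` at a simplex. -/
def yd {D D' : SP (Gn n)} {m : SimplexCategory} (φ : Mx D D' m) (C : CatN n)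
    {l : SimplexCategory} (s : l ⟶ m) (x : Sx ((YD D).obj C) l) : Sx ((YD D').obj C) l :=
  Mx.comp x (φ.res s)

lemma yd_nat {D D' : SP (Gn n)} {m : SimplexCategory} (φ : Mx D D' m) (C : CatN n)
    {l k : SimplexCategory} (α : k ⟶ l) (s : l ⟶ m) (x : Sx ((YD D).obj C) l) :
    yd φ C (α ≫ s) (res α x) = res α (yd φ C s x) := by
  show Mx.comp (Mx.res α x) (φ.res (α ≫ s)) = Mx.res α (Mx.comp x (φ.res s))
  rw [Mx.res_comp, Mx.comp_res]

lemma yd_act {D D' : SP (Gn n)} {m : SimplexCategory} (φ : Mx D D' m) (C C' : CatN n)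
    {l : SimplexCategory} (s : l ⟶ m) (ψ : C.Mx C' l) (x : Sx ((YD D).obj C') l) :
    yd φ C s ((YD D).act C C' ψ x) = (YD D').act C C' ψ (yd φ C' s x) :=
  Mx.comp_assoc _ x (φ.res s)

/-- The value of `YDmap` at a simplex. -/
def ydm {D D' : SP (Gn n)} {m : SimplexCategory} (φ : Mx D D' m) :
    PSh.MapS (YD D) (YD D') m where
  app C _ s := yd φ C s
  nat := yd_nat φ
  act := yd_act φ

lemma ydm_nat {D D' : SP (Gn n)} {m l : SimplexCategory} (α : l ⟶ m) (φ : Mx D D' m) :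
    ydm (φ.res α) = (ydm φ).res α := by
  refine PSh.MapS.ext ?_
  funext C j s x
  show Mx.comp x ((φ.res α).res s) = Mx.comp x (φ.res (s ≫ α))
  rw [Mx.res_comp]

/-- The functoriality of the restricted Yoneda functor, on mapping spaces. -/
def YDmap (D D' : SP (Gn n)) :
    SSet.uliftFunctor.{1, 0}.obj (Mp D D') ⟶ PSh.Map (YD D) (YD D') where
  app m := ↾ fun φ => ydm φ.down
  naturality _ _ α := ConcreteCategory.hom_ext _ _ fun φ => ydm_nat α.unop φ.down

/-- The conjecture. -/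
def Conjecture (n : ℕ) : Prop :=
  (∀ D D' : SP (Gn n), Flagged D → Flagged D' → HoEq (YDmap D D')) ∧
  ∀ F : PSh n, F.Kan →
    (F.GauntDescent ↔ ∃ D : SP (Gn n), Flagged D ∧ PSh.Equiv F (YD D))

end Presheaves

end

end FLP
end

/- Helper58.FLP.PublicInj -/
section
/-!
# Injectively fibrant presheaves on `Cat_n`
-/

open CategoryTheory MonoidalCategory CartesianMonoidalCategory Opposite

set_option autoImplicit false

namespace FLP

open FL (WE)

namespace PSh

variable {n : ℕ}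

/-- Morphisms of presheaves on `Cat_n`. -/
structure Hom (F G : PSh n) : Type 1 where
  app : ∀ C, F.obj C ⟶ G.obj C
  act : ∀ (C C' : CatN n) {m : SimplexCategory} (φ : C.Mx C' m) (x : Sx (F.obj C') m),
    ev (app C) (F.act C C' φ x) = G.act C C' φ (ev (app C') x)

/-- Injectively fibrant presheaves on `Cat_n`. -/
def InjFib (G : PSh n) : Prop :=
  ∀ (F F' : PSh n) (i : Hom F F'), (∀ C, Mono (i.app C)) → (∀ C, WE (i.app C)) →
    ∀ f : Hom F G, ∃ g : Hom F' G, ∀ C, i.app C ≫ g.app C = f.app C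

end PSh

end FLP
end
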