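import Pool.Agent.Helper43.FLQ.Public
import Pool.Agent.Helper16.FDG.G01

/- Helper43.FLU.Base -/
section
/-!
# Project FLQ: mapping spaces of presheaves of simplicial sets in an arbitrary universe
-/

open CategoryTheory MonoidalCategory Simplicial Opposite

set_option autoImplicit false

namespace Pool.Agent.Helper43.FLU

open FL (HoEq Htpy sset_id sset_comp sset_nat Chain)
open FLQ (SPU)

universe u

section Elements

/-! Elementwise forms of functoriality and naturality. -/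

variable {A : Type} [SmallCategory A]

lemma sp_id (X : SPU.{u} A) {a : Aᵒᵖ} {k : SimplexCategoryᵒᵖ} (x : (X.obj a).obj k) :
    (X.map (𝟙 a)).app k x = x := by
  rw [CategoryTheory.Functor.map_id]; rfl

lemma sp_comp (X : SPU.{u} A) {a b c : Aᵒᵖ} (f : a ⟶ b) (g : b ⟶ c) {k : SimplexCategoryᵒᵖ}
    (x : (X.obj a).obj k) : (X.map (f ≫ g)).app k x = (X.map g).app k ((X.map f).app k x) := by
  rw [CategoryTheory.Functor.map_comp]; rfl

lemma sp_nat (X : SPU.{u} A) {a b : Aᵒᵖ} (f : a ⟶ b) {k l : SimplexCategoryᵒᵖ} (α : k ⟶ l)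
    (x : (X.obj a).obj k) :
    (X.map f).app l ((X.obj a).map α x) = (X.obj b).map α ((X.map f).app k x) :=
  sset_nat (X.map f) α x

lemma hom_nat {X Y : SPU.{u} A} (u : X ⟶ Y) {a b : Aᵒᵖ} (f : a ⟶ b) {k : SimplexCategoryᵒᵖ}
    (x : (X.obj a).obj k) :
    (u.app b).app k ((X.map f).app k x) = (Y.map f).app k ((u.app a).app k x) :=
  ConcreteCategory.congr_hom (NatTrans.congr_app (u.naturality f) k) x

lemma hom_natk {X Y : SPU.{u} A} (u : X ⟶ Y) {a : Aᵒᵖ} {k l : SimplexCategoryᵒᵖ} (α : k ⟶ l)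
    (x : (X.obj a).obj k) :
    (u.app a).app l ((X.obj a).map α x) = (Y.obj a).map α ((u.app a).app k x) :=
  sset_nat (u.app a) α x

end Elements

section Maps

variable {A : Type} [SmallCategory A]

/-- An `m`-simplex of the mapping space of `X` and `Y`: a map `X × Δ[m] ⟶ Y`, written out as a
family of functions `X(a)_k × Δ[m]_k → Y(a)_k`, natural in `a` and in `k`
(a `k`-simplex of `Δ[m]` is a monotone map `s : [k] → [m]`). -/
@[ext]
structure MpS (X Y : SPU.{u} A) (m : SimplexCategory) : Type u where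
  app (a : Aᵒᵖ) (k : SimplexCategoryᵒᵖ) (s : k.unop ⟶ m) (x : (X.obj a).obj k) : (Y.obj a).obj k
  nat_left : ∀ {a b : Aᵒᵖ} (f : a ⟶ b) (k : SimplexCategoryᵒᵖ) (s : k.unop ⟶ m)
    (x : (X.obj a).obj k), app b k s ((X.map f).app k x) = (Y.map f).app k (app a k s x)
  nat_right : ∀ (a : Aᵒᵖ) {k l : SimplexCategoryᵒᵖ} (g : k ⟶ l) (s : k.unop ⟶ m)
    (x : (X.obj a).obj k), app a l (g.unop ≫ s) ((X.obj a).map g x) =
      (Y.obj a).map g (app a k s x)

namespace MpS

variable {X Y Z : SPU.{u} A} {m n : SimplexCategory}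

/-- The simplicial structure: restriction along `α : [n] → [m]`. -/
@[simps]
def res (α : n ⟶ m) (φ : MpS X Y m) : MpS X Y n where
  app a k s x := φ.app a k (s ≫ α) x
  nat_left f k s x := φ.nat_left f k _ x
  nat_right a k l g s x := by
    rw [Category.assoc]
    exact φ.nat_right a g (s ≫ α) x

/-- Composition of maps. -/
@[simps]
def comp (φ : MpS X Y m) (ψ : MpS Y Z m) : MpS X Z m where
  app a k s x := ψ.app a k s (φ.app a k s x)
  nat_left f k s x := by rw [φ.nat_left, ψ.nat_left]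
  nat_right a k l g s x := by rw [φ.nat_right, ψ.nat_right]

/-- The simplex of the mapping space given by a strict map. -/
@[simps]
def ofHom (m : SimplexCategory) (f : X ⟶ Y) : MpS X Y m where
  app a k _ x := (f.app a).app k x
  nat_left g _ _ x := hom_nat f g x
  nat_right _ _ _ g _ x := hom_natk f g x

end MpS

/-- The mapping space: the simplicial set of maps `X × Δ[m] ⟶ Y`. -/
def Mp (X Y : SPU.{u} A) : SSet.{u} where
  obj m := MpS X Y m.unop
  map α := ↾ fun φ => φ.res α.unop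
  map_id m := by ext φ; simp
  map_comp α β := by ext φ; simp

/-- Precomposition with a strict map, as a map of mapping spaces. -/
def Mp.pre {X X' : SPU.{u} A} (f : X ⟶ X') (Y : SPU.{u} A) : Mp X' Y ⟶ Mp X Y where
  app m := ↾ fun φ => (MpS.ofHom m.unop f).comp φ
  naturality m n α := by ext φ; rfl

/-- Postcomposition with a strict map, as a map of mapping spaces. -/
def Mp.post (X : SPU.{u} A) {Y Y' : SPU.{u} A} (f : Y ⟶ Y') : Mp X Y ⟶ Mp X Y' where
  app m := ↾ fun φ => φ.comp (MpS.ofHom m.unop f)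
  naturality m n α := by ext φ; rfl

end Maps

section Tensor

variable {A : Type} [SmallCategory A]

/-- The tensor of a simplicial presheaf with a simplicial set. -/
def tn (X : SPU.{u} A) (K : SSet.{u}) : SPU.{u} A := X ⋙ tensorRight K

/-- Functoriality of the tensor. -/
def tnMap {X Y : SPU.{u} A} {K L : SSet.{u}} (f : X ⟶ Y) (g : K ⟶ L) : tn X K ⟶ tn Y L where
  app a := f.app a ⊗ₘ g
  naturality a b h := by
    ext k ⟨x, y⟩
    exact Prod.ext (hom_nat f h x) rfl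

@[simp] lemma tn_obj_obj (X : SPU.{u} A) (K : SSet.{u}) (a : Aᵒᵖ) (k : SimplexCategoryᵒᵖ) :
    ((tn X K).obj a).obj k = ((X.obj a).obj k × K.obj k) := rfl

lemma tnMap_app_app {X Y : SPU.{u} A} {K L : SSet.{u}} (f : X ⟶ Y) (g : K ⟶ L) (a : Aᵒᵖ)
    (k : SimplexCategoryᵒᵖ) (x : (X.obj a).obj k) (y : K.obj k) :
    ((tnMap f g).app a).app k (x, y) = ((f.app a).app k x, g.app k y) := rfl

lemma tn_map_app {X : SPU.{u} A} {K : SSet.{u}} {a b : Aᵒᵖ} (f : a ⟶ b)
    (k : SimplexCategoryᵒᵖ) (x : (X.obj a).obj k) (y : K.obj k) :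
    ((tn X K).map f).app k (x, y) = ((X.map f).app k x, y) := rfl

lemma tn_obj_map {X : SPU.{u} A} {K : SSet.{u}} {a : Aᵒᵖ}
    {k l : SimplexCategoryᵒᵖ} (α : k ⟶ l) (x : (X.obj a).obj k) (y : K.obj k) :
    ((tn X K).obj a).map α (x, y) = ((X.obj a).map α x, K.map α y) := rfl

lemma tnMap_id (X : SPU.{u} A) (K : SSet.{u}) : tnMap (𝟙 X) (𝟙 K) = 𝟙 _ := rfl

lemma tnMap_comp {X Y Z : SPU.{u} A} {K L M : SSet.{u}} (f : X ⟶ Y) (g : K ⟶ L) (f' : Y ⟶ Z)
    (g' : L ⟶ M) : tnMap f g ≫ tnMap f' g' = tnMap (f ≫ f') (g ≫ g') := rfl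

/-- The universal property of the mapping space: maps `K ⟶ Map(X, Y)` are maps
`X ⊗ K ⟶ Y`. -/
def Mp.adj {X Y : SPU.{u} A} {K : SSet.{u}} : (K ⟶ Mp X Y) ≃ (tn X K ⟶ Y) where
  toFun f :=
    { app := fun a =>
        { app := fun k => ↾ fun (z : (X.obj a).obj k × K.obj k) =>
            (f.app k z.2 : MpS X Y k.unop).app a k (𝟙 _) z.1
          naturality := fun k l α => by
            ext ⟨x, y⟩
            show (f.app l (K.map α y) : MpS X Y l.unop).app a l (𝟙 _) ((X.obj a).map α x) = _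
            rw [sset_nat f α y]
            show (f.app k y : MpS X Y k.unop).app a l (𝟙 _ ≫ α.unop) ((X.obj a).map α x) = _
            refine Eq.trans ?_ ((f.app k y : MpS X Y k.unop).nat_right a α (𝟙 _) x)
            rw [Category.comp_id, Category.id_comp] }
      naturality := fun a b g => by
        ext k ⟨x, y⟩
        exact (f.app k y : MpS X Y k.unop).nat_left g k (𝟙 _) x }
  invFun f :=
    { app := fun k => ↾ fun y =>
        { app := fun a l s x => (f.app a).app l (x, K.map s.op y)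
          nat_left := fun g l s x => hom_nat f g (x, K.map s.op y)
          nat_right := fun a {l m} g s x => by
            refine Eq.trans ?_ (hom_natk f g (x, K.map s.op y))
            refine congrArg ((f.app a).app m) (Prod.ext rfl ?_)
            exact sset_comp K s.op g y }
      naturality := fun k l α => by
        ext y
        refine MpS.ext ?_
        funext a m s x
        refine congrArg ((f.app a).app m) (Prod.ext rfl ?_)
        exact (sset_comp K α s.op y).symm }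
  left_inv f := by
    ext k y
    refine MpS.ext ?_
    funext a l s x
    show (f.app l (K.map s.op y) : MpS X Y l.unop).app a l (𝟙 _) x = _
    rw [sset_nat f s.op y]
    show (f.app k y : MpS X Y k.unop).app a l (𝟙 _ ≫ s) x = _
    rw [Category.id_comp]
    rfl
  right_inv f := by
    ext a k ⟨x, y⟩
    refine congrArg ((f.app a).app k) (Prod.ext rfl ?_)
    exact sset_id K y

lemma Mp.adj_apply {X Y : SPU.{u} A} {K : SSet.{u}} (f : K ⟶ Mp X Y) (a : Aᵒᵖ)
    (k : SimplexCategoryᵒᵖ) (x : (X.obj a).obj k) (y : K.obj k) :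
    ((Mp.adj f).app a).app k (x, y) = (f.app k y : MpS X Y k.unop).app a k (𝟙 _) x := rfl

lemma Mp.adj_symm_apply {X Y : SPU.{u} A} {K : SSet.{u}} (f : tn X K ⟶ Y) (k : SimplexCategoryᵒᵖ)
    (y : K.obj k) (a : Aᵒᵖ) (l : SimplexCategoryᵒᵖ) (s : l.unop ⟶ k.unop)
    (x : (X.obj a).obj l) :
    ((Mp.adj.symm f).app k y : MpS X Y k.unop).app a l s x = (f.app a).app l (x, K.map s.op y) :=
  rfl

lemma Mp.adj_pre {X X' Y : SPU.{u} A} {K : SSet.{u}} (g : X ⟶ X') (f : K ⟶ Mp X' Y) :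
    Mp.adj (f ≫ Mp.pre g Y) = tnMap g (𝟙 K) ≫ Mp.adj f := rfl

lemma Mp.adj_post {X Y Y' : SPU.{u} A} {K : SSet.{u}} (g : Y ⟶ Y') (f : K ⟶ Mp X Y) :
    Mp.adj (f ≫ Mp.post X g) = Mp.adj f ≫ g := rfl

lemma Mp.adj_comp {X Y : SPU.{u} A} {K L : SSet.{u}} (j : K ⟶ L) (f : L ⟶ Mp X Y) :
    Mp.adj (j ≫ f) = tnMap (𝟙 X) j ≫ Mp.adj f := rfl

end Tensor

/-- Objectwise Kan presheaves. -/
def ObjKan {A : Type} [SmallCategory A] (Z : SPU.{u} A) : Prop := ∀ a, SSet.KanComplex (Z.obj a)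

/-- Objectwise homotopy equivalences. -/
def ObjHoEq {A : Type} [SmallCategory A] {X Y : SPU.{u} A} (f : X ⟶ Y) : Prop :=
  ∀ a, HoEq (f.app a)

end Pool.Agent.Helper43.FLU
end

/- Helper85.FL.FL3 -/
section
/-!
FL-3: weak homotopy equivalences of simplicial sets.
-/

open CategoryTheory MonoidalCategory MonoidalClosed Simplicial Opposite HomotopicalAlgebra Limits
open CartesianMonoidalCategory

set_option autoImplicit false

namespace Helper85FL

open FL

universe u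

open Pool.Agent.Helper45.FL2 (htpy_mk htpy_elim htpy_refl horn_edge TrivFib.lift TrivFib.hoEq
  trivFib_of_hoEq)

open SSet.modelCategoryQuillen in
/-- Two homotopies with the same source. -/
theorem htpy_of_span {X Y : SSet.{u}} (hY : SSet.KanComplex Y) {f g h : X ⟶ Y} (h₁ : Htpy f g)
    (h₂ : Htpy f h) : Htpy g h := by
  obtain ⟨e₁, h10, h11⟩ := htpy_elim h₁
  obtain ⟨e₂, h20, h21⟩ := htpy_elim h₂
  have hfib : Fibration (terminal.from Y) := hY
  obtain ⟨H, hH0, hH1, -⟩ := horn_edge (terminal.from Y) e₁ e₂ (terminal.from _)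
    (h10.trans h20.symm) (terminal.hom_ext _ _) (terminal.hom_ext _ _)
  exact htpy_mk H (hH0.trans h11) (hH1.trans h21)

theorem htpy_symm {X Y : SSet.{u}} (hY : SSet.KanComplex Y) {f g : X ⟶ Y} (h : Htpy f g) :
    Htpy g f :=
  htpy_of_span hY h (htpy_refl f)

theorem htpy_trans {X Y : SSet.{u}} (hY : SSet.KanComplex Y) {f g h : X ⟶ Y} (h₁ : Htpy f g)
    (h₂ : Htpy g h) : Htpy f h :=
  htpy_of_span hY (htpy_symm hY h₁) h₂

theorem htpy_whiskerRight {X Y : SSet.{u}} {a b : X ⟶ Y} (h : Htpy a b) (Z : SSet.{u}) :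
    Htpy (a ▷ Z) (b ▷ Z) := by
  obtain ⟨H, rfl, rfl⟩ := htpy_elim h
  refine htpy_mk (lift (lift (fst _ _ ≫ fst _ _) (snd _ _) ≫ H) (fst _ _ ≫ snd _ _)) ?_ ?_
  · rfl
  · rfl

theorem htpy_precomp {X Y Z : SSet.{u}} {f g : Y ⟶ Z} (a : X ⟶ Y) (h : Htpy f g) :
    Htpy (a ≫ f) (a ≫ g) := by
  obtain ⟨H, rfl, rfl⟩ := htpy_elim h
  exact htpy_mk (a ▷ Δ[1] ≫ H) rfl rfl

theorem htpy_postcomp {X Y Z : SSet.{u}} {f g : X ⟶ Y} (h : Htpy f g) (b : Y ⟶ Z) :
    Htpy (f ≫ b) (g ≫ b) := by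
  obtain ⟨H, rfl, rfl⟩ := htpy_elim h
  exact htpy_mk (H ≫ b) rfl rfl

theorem hoEq_comp {X Y Z : SSet.{u}} (hX : SSet.KanComplex X) (hZ : SSet.KanComplex Z)
    {f : X ⟶ Y} {g : Y ⟶ Z} (hf : HoEq f) (hg : HoEq g) : HoEq (f ≫ g) := by
  obtain ⟨f', hf1, hf2⟩ := hf
  obtain ⟨g', hg1, hg2⟩ := hg
  have hf1' : Htpy (f ≫ f') (𝟙 X) := hf1
  have hf2' : Htpy (f' ≫ f) (𝟙 Y) := hf2
  have hg1' : Htpy (g ≫ g') (𝟙 Y) := hg1
  have hg2' : Htpy (g' ≫ g) (𝟙 Z) := hg2
  refine ⟨g' ≫ f', ?_, ?_⟩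
  · have h := htpy_precomp f (htpy_postcomp hg1' f')
    rw [Category.id_comp, Category.assoc] at h
    rw [Category.assoc]
    exact htpy_trans hX h hf1'
  · have h := htpy_precomp g' (htpy_postcomp hf2' g)
    rw [Category.id_comp, Category.assoc] at h
    rw [Category.assoc]
    exact htpy_trans hZ h hg2'

theorem hoEq_of_comp_left {X Y Z : SSet.{u}} (hY : SSet.KanComplex Y)
    {f : X ⟶ Y} {g : Y ⟶ Z} (hf : HoEq f) (hfg : HoEq (f ≫ g)) : HoEq g := by
  obtain ⟨f', hf1, hf2⟩ := hf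
  obtain ⟨k, hk1, hk2⟩ := hfg
  have hf2' : Htpy (f' ≫ f) (𝟙 Y) := hf2
  have hk1' : Htpy ((f ≫ g) ≫ k) (𝟙 X) := hk1
  have hk2' : Htpy (k ≫ f ≫ g) (𝟙 Z) := hk2
  refine ⟨k ≫ f, ?_, ?_⟩
  · have h1 := htpy_postcomp hf2' (g ≫ k ≫ f)
    have h2 := htpy_precomp f' (htpy_postcomp hk1' f)
    rw [Category.id_comp] at h1 h2
    simp only [Category.assoc] at h1 h2
    exact htpy_trans hY (htpy_trans hY (htpy_symm hY h1) h2) hf2'
  · rw [Category.assoc]
    exact hk2'

theorem hoEq_of_comp_right {X Y Z : SSet.{u}} (hY : SSet.KanComplex Y)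
    {f : X ⟶ Y} {g : Y ⟶ Z} (hg : HoEq g) (hfg : HoEq (f ≫ g)) : HoEq f := by
  obtain ⟨g', hg1, hg2⟩ := hg
  obtain ⟨k, hk1, hk2⟩ := hfg
  have hg1' : Htpy (g ≫ g') (𝟙 Y) := hg1
  have hk1' : Htpy ((f ≫ g) ≫ k) (𝟙 X) := hk1
  have hk2' : Htpy (k ≫ f ≫ g) (𝟙 Z) := hk2
  refine ⟨g ≫ k, ?_, ?_⟩
  · rw [← Category.assoc]
    exact hk1'
  · have h1 := htpy_precomp (g ≫ k ≫ f) hg1'
    have h2 := htpy_precomp g (htpy_postcomp hk2' g')
    rw [Category.comp_id] at h1
    rw [Category.id_comp] at h2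
    simp only [Category.assoc] at h1 h2
    rw [Category.assoc]
    exact htpy_trans hY (htpy_trans hY (htpy_symm hY h1) h2) hg1'

theorem htpy_uncurry {X A K : SSet.{u}} {φ ψ : A ⟶ (ihom X).obj K} (h : Htpy φ ψ) :
    Htpy (MonoidalClosed.uncurry φ) (MonoidalClosed.uncurry ψ) := by
  obtain ⟨H, rfl, rfl⟩ := htpy_elim h
  refine htpy_mk ((α_ X A Δ[1]).hom ≫ MonoidalClosed.uncurry H) ?_ ?_
  · refine Eq.trans ?_ (MonoidalClosed.uncurry_natural_left _ _).symm
    rfl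
  · refine Eq.trans ?_ (MonoidalClosed.uncurry_natural_left _ _).symm
    rfl

theorem htpy_curry {X A K : SSet.{u}} {φ ψ : X ⊗ A ⟶ K} (h : Htpy φ ψ) :
    Htpy (MonoidalClosed.curry φ) (MonoidalClosed.curry ψ) := by
  obtain ⟨H, rfl, rfl⟩ := htpy_elim h
  refine htpy_mk (MonoidalClosed.curry ((α_ X A Δ[1]).inv ≫ H)) ?_ ?_
  · refine (MonoidalClosed.curry_natural_left _ _).symm.trans ?_
    rfl
  · refine (MonoidalClosed.curry_natural_left _ _).symm.trans ?_
    rfl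

theorem htpy_of_uncurry {X A K : SSet.{u}} {φ ψ : A ⟶ (ihom X).obj K}
    (h : Htpy (MonoidalClosed.uncurry φ) (MonoidalClosed.uncurry ψ)) : Htpy φ ψ := by
  have := htpy_curry h
  rwa [MonoidalClosed.curry_uncurry, MonoidalClosed.curry_uncurry] at this

theorem htpy_pre {X Y : SSet.{u}} {a b : X ⟶ Y} (h : Htpy a b) (K : SSet.{u}) :
    Htpy ((MonoidalClosed.pre a).app K) ((MonoidalClosed.pre b).app K) := by
  apply htpy_of_uncurry
  rw [MonoidalClosed.uncurry_pre, MonoidalClosed.uncurry_pre]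
  exact htpy_postcomp (htpy_whiskerRight h _) _

theorem we_of_hoEq {X Y : SSet.{0}} {f : X ⟶ Y} (h : HoEq f) : WE f := by
  obtain ⟨g, h1, h2⟩ := h
  intro K _
  refine ⟨(MonoidalClosed.pre g).app K, ?_, ?_⟩
  · have := htpy_pre (a := g ≫ f) (b := 𝟙 Y) h2 K
    rw [MonoidalClosed.pre_map, MonoidalClosed.pre_id] at this
    exact this
  · have := htpy_pre (a := f ≫ g) (b := 𝟙 X) h1 K
    rw [MonoidalClosed.pre_map, MonoidalClosed.pre_id] at this
    exact this

theorem kan_ihom (X : SSet.{0}) {K : SSet.{0}} (hK : SSet.KanComplex K) :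
    SSet.KanComplex ((ihom X).obj K) := by
  infer_instance

theorem we_comp {X Y Z : SSet.{0}} {f : X ⟶ Y} {g : Y ⟶ Z} (hf : WE f) (hg : WE g) :
    WE (f ≫ g) := by
  intro K hK
  rw [MonoidalClosed.pre_map]
  exact hoEq_comp (kan_ihom _ hK) (kan_ihom _ hK) (hg K hK) (hf K hK)

theorem we_of_comp_left {X Y Z : SSet.{0}} {f : X ⟶ Y} {g : Y ⟶ Z} (hf : WE f)
    (hfg : WE (f ≫ g)) : WE g := by
  intro K hK
  have h := hfg K hK
  rw [MonoidalClosed.pre_map] at h
  exact hoEq_of_comp_right (kan_ihom _ hK) (hf K hK) h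

theorem we_of_comp_right {X Y Z : SSet.{0}} {f : X ⟶ Y} {g : Y ⟶ Z} (hg : WE g)
    (hfg : WE (f ≫ g)) : WE f := by
  intro K hK
  have h := hfg K hK
  rw [MonoidalClosed.pre_map] at h
  exact hoEq_of_comp_left (kan_ihom _ hK) (hg K hK) h


theorem kanFib_iff {E B : SSet.{0}} (p : E ⟶ B) :
    KanFib p ↔ SSet.modelCategoryQuillen.J.{0}.rlp p := by
  constructor
  · intro h A B i hi
    simp only [SSet.modelCategoryQuillen.J, MorphismProperty.iSup_iff] at hi
    obtain ⟨n, ⟨k⟩⟩ := hi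
    exact h n k
  · intro h n i
    apply h
    simp only [SSet.modelCategoryQuillen.J, MorphismProperty.iSup_iff]
    exact ⟨n, ⟨i⟩⟩

open SSet.modelCategoryQuillen in
theorem kanFib_iff_fibration {E B : SSet.{0}} (p : E ⟶ B) : KanFib p ↔ Fibration p := by
  rw [kanFib_iff, SSet.modelCategoryQuillen.fibration_iff]

theorem lift_pre_symm {A B C D : SSet.{0}} (i : A ⟶ B) (j : C ⟶ D) (K : SSet.{0}) :
    HasLiftingProperty j ((MonoidalClosed.pre i).app K) ↔
      HasLiftingProperty i ((MonoidalClosed.pre j).app K) := by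
  let sq₁₃ := Functor.PullbackObjObj.ofIsTerminal MonoidalClosed.internalHom i (terminal.from K)
    terminalIsTerminal
  let sq₁₃' := Functor.PullbackObjObj.ofIsTerminal MonoidalClosed.internalHom j (terminal.from K)
    terminalIsTerminal
  let sq₁₂ := Functor.PushoutObjObj.ofHasPushout (curriedTensor SSet.{0}) i j
  have h1 := MonoidalClosed.internalHomAdjunction₂.hasLiftingProperty_iff sq₁₂ sq₁₃
  have h2 := MonoidalClosed.internalHomAdjunction₂.hasLiftingProperty_iff sq₁₂.flipTensor sq₁₃'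
  have h3 := HasLiftingProperty.iff_of_arrow_iso_left
    (show Arrow.mk sq₁₂.ι ≅ Arrow.mk sq₁₂.flipTensor.ι from
      Arrow.isoMk (Iso.refl _) (β_ _ _)) (terminal.from K)
  exact h1.symm.trans (h3.trans h2)

theorem we_of_lift_kan {X Y : SSet.{0}} (i : X ⟶ Y) [Mono i]
    (h : ∀ {E B : SSet.{0}} (p : E ⟶ B), SSet.KanComplex E → SSet.KanComplex B → KanFib p →
      HasLiftingProperty i p) : WE i := by
  intro K hK
  have h1 : TrivFib ((MonoidalClosed.pre i).app K) := by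
    intro n
    rw [lift_pre_symm]
    apply h
    · infer_instance
    · infer_instance
    · rw [kanFib_iff_fibration]
      infer_instance
  exact TrivFib.hoEq h1

open SSet.modelCategoryQuillen in
theorem lift_of_we {X Y : SSet.{0}} (i : X ⟶ Y) [Mono i] (h : WE i) {E B : SSet.{0}}
    (p : E ⟶ B) (hE : SSet.KanComplex E) (hB : SSet.KanComplex B) (hp : KanFib p) :
    HasLiftingProperty i p := by
  have hpf : Fibration p := (kanFib_iff_fibration p).mp hp
  let sq := Functor.PullbackObjObj.ofHasPullback MonoidalClosed.internalHom i p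
  have hB' : TrivFib ((MonoidalClosed.pre i).app B) := by
    apply trivFib_of_hoEq (kan_ihom Y hB) (kan_ihom X hB)
    · rw [kanFib_iff_fibration]
      infer_instance
    · exact h B hB
  have hfst : TrivFib sq.fst := by
    intro n
    have : HasLiftingProperty ∂Δ[n].ι ((MonoidalClosed.internalHom.map i.op).app B) := hB' n
    exact sq.isPullback.flip.hasLiftingProperty ∂Δ[n].ι
  have hfstfib : Fibration sq.fst := by
    rw [← kanFib_iff_fibration]
    intro n k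
    exact TrivFib.lift hfst _
  have hEX : SSet.KanComplex ((MonoidalClosed.internalHom.obj (op X)).obj E) := kan_ihom X hE
  have hpt : SSet.KanComplex sq.pt := isFibrant_of_fibration sq.fst
  have hπ : HoEq sq.π := by
    refine hoEq_of_comp_right hpt (TrivFib.hoEq hfst) ?_
    have e : sq.π ≫ sq.fst = (MonoidalClosed.pre i).app E := sq.π_fst
    exact Eq.mpr (congrArg HoEq e) (h E hE)
  have hπt : TrivFib sq.π := by
    apply trivFib_of_hoEq (kan_ihom Y hE) hpt
    · rw [kanFib_iff_fibration]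
      exact SSet.fibration_pullbackObjObjπ sq
    · exact hπ
  have h1 : HasLiftingProperty (initial.to (𝟙_ SSet.{0})) sq.π := TrivFib.lift hπt _
  let sq₁₂ := Functor.PushoutObjObj.ofIsInitialRight (curriedTensor SSet.{0}) i
    (initial.to (𝟙_ SSet.{0})) initialIsInitial
  have h2 := (MonoidalClosed.internalHomAdjunction₂.hasLiftingProperty_iff sq₁₂ sq).mpr h1
  have h3 := HasLiftingProperty.iff_of_arrow_iso_left
    (show Arrow.mk sq₁₂.ι ≅ Arrow.mk i from
      Arrow.isoMk (ρ_ X) (ρ_ Y) (by rfl)) p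
  exact h3.mp h2

theorem we_iff_lift {X Y : SSet.{0}} (i : X ⟶ Y) [Mono i] :
    WE i ↔ ∀ {E B : SSet.{0}} (p : E ⟶ B), SSet.KanComplex E → SSet.KanComplex B → KanFib p →
      HasLiftingProperty i p :=
  ⟨fun h _ _ p hE hB hp => lift_of_we i h p hE hB hp, fun h => we_of_lift_kan i h⟩

/-- Maps with the left lifting property with respect to all Kan fibrations (e.g. anodyne
extensions). -/
theorem we_of_lift {X Y : SSet.{0}} (i : X ⟶ Y) [Mono i]
    (h : ∀ {E B : SSet.{0}} (p : E ⟶ B), KanFib p → HasLiftingProperty i p) : WE i :=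
  we_of_lift_kan i fun p _ _ hp => h p hp

theorem htpy_curry' {X K : SSet.{0}} {φ ψ : X ⟶ K} (h : Htpy φ ψ) :
    Htpy (MonoidalClosed.curry' φ) (MonoidalClosed.curry' ψ) :=
  htpy_curry (htpy_precomp (ρ_ X).hom h)

theorem htpy_uncurry' {X K : SSet.{0}} {φ ψ : 𝟙_ SSet.{0} ⟶ (ihom X).obj K} (h : Htpy φ ψ) :
    Htpy (MonoidalClosed.uncurry' φ) (MonoidalClosed.uncurry' ψ) :=
  htpy_precomp (ρ_ X).inv (htpy_uncurry h)

theorem curry'_pre {X Y K : SSet.{0}} (f : X ⟶ Y) (u : Y ⟶ K) :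
    MonoidalClosed.curry' u ≫ (MonoidalClosed.pre f).app K = MonoidalClosed.curry' (f ≫ u) := by
  unfold MonoidalClosed.curry'
  rw [MonoidalClosed.curry_pre_app]
  rfl

theorem uncurry'_pre {X Y K : SSet.{0}} (f : X ⟶ Y) (u : 𝟙_ SSet.{0} ⟶ (ihom Y).obj K) :
    MonoidalClosed.uncurry' (u ≫ (MonoidalClosed.pre f).app K) =
      f ≫ MonoidalClosed.uncurry' u := by
  obtain ⟨v, rfl⟩ : ∃ v, MonoidalClosed.curry' v = u :=
    ⟨MonoidalClosed.uncurry' u, MonoidalClosed.curry'_uncurry' u⟩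
  rw [curry'_pre, MonoidalClosed.uncurry'_curry', MonoidalClosed.uncurry'_curry']

/-- Between Kan complexes weak equivalences are homotopy equivalences. -/
theorem hoEq_of_we {X Y : SSet.{0}} {f : X ⟶ Y} (hX : SSet.KanComplex X)
    (hY : SSet.KanComplex Y) (h : WE f) : HoEq f := by
  obtain ⟨s, _, hs⟩ := h X hX
  obtain ⟨t, ht, _⟩ := h Y hY
  have hYY := kan_ihom Y hY
  have hs' : Htpy (s ≫ (MonoidalClosed.pre f).app X) (𝟙 _) := hs
  have ht' : Htpy ((MonoidalClosed.pre f).app Y ≫ t) (𝟙 _) := ht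
  -- the homotopy inverse
  set γ := MonoidalClosed.curry' (𝟙 X) ≫ s with hγ
  set g := MonoidalClosed.uncurry' γ with hg
  have h1 : Htpy (f ≫ g) (𝟙 X) := by
    have h2 := htpy_uncurry' (htpy_precomp (MonoidalClosed.curry' (𝟙 X)) hs')
    rw [Category.comp_id, MonoidalClosed.uncurry'_curry', ← Category.assoc, uncurry'_pre] at h2
    exact h2
  refine ⟨g, h1, ?_⟩
  have h3 : Htpy (f ≫ g ≫ f) (f ≫ 𝟙 Y) := by
    have := htpy_postcomp h1 f
    rw [Category.id_comp, Category.assoc] at this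
    rw [Category.comp_id]
    exact this
  have h4 := htpy_postcomp (htpy_curry' h3) t
  rw [← curry'_pre, ← curry'_pre, Category.assoc, Category.assoc] at h4
  have h5 := htpy_precomp (MonoidalClosed.curry' (g ≫ f)) ht'
  have h6 := htpy_precomp (MonoidalClosed.curry' (𝟙 Y)) ht'
  rw [Category.comp_id] at h5 h6
  have h7 := htpy_trans hYY (htpy_trans hYY (htpy_symm hYY h5) h4) h6
  have h8 := htpy_uncurry' h7
  rw [MonoidalClosed.uncurry'_curry', MonoidalClosed.uncurry'_curry'] at h8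
  exact h8

end Helper85FL
end

/- Helper83.FL.MpFib -/
section
/-!
# FL-4: mapping spaces into injectively fibrant simplicial presheaves

The statements of section FL-4, with the statements of FL-1 and FL-3 they use collected in the
structure `Deps`.
-/

open CategoryTheory MonoidalCategory Simplicial Opposite HomotopicalAlgebra

set_option autoImplicit false

namespace Pool.Agent.Helper83.FL4

open FL Pool.Agent.Helper45.FL2

/-- The three statements of FL-1 and FL-3 used below. -/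
structure Deps : Prop where
  comp_right : ∀ {X Y Z : SSet.{0}}, SSet.KanComplex X → SSet.KanComplex Y →
    SSet.KanComplex Z → ∀ {f : X ⟶ Y} {g : Y ⟶ Z}, HoEq g → HoEq (f ≫ g) → HoEq f
  we_iff_lift : ∀ {X Y : SSet.{0}} (i : X ⟶ Y) [Mono i],
    WE i ↔ ∀ {E B : SSet.{0}} (p : E ⟶ B), SSet.KanComplex E → SSet.KanComplex B → KanFib p →
      HasLiftingProperty i p
  we_of_lift : ∀ {X Y : SSet.{0}} (i : X ⟶ Y) [Mono i],
    (∀ {E B : SSet.{0}} (p : E ⟶ B), KanFib p → HasLiftingProperty i p) → WE i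

section Fibrations

open SSet.modelCategoryQuillen

lemma kanFib_iff {E B : SSet.{0}} (p : E ⟶ B) : KanFib p ↔ Fibration p := by
  constructor
  · intro h
    rw [fibration_iff]
    intro _ _ _ hj
    simp only [J, MorphismProperty.iSup_iff] at hj
    obtain ⟨n, ⟨i⟩⟩ := hj
    exact h n i
  · intro h n i
    infer_instance

lemma kan_of_lift {E : SSet.{0}} (h : ∀ (n : ℕ) (i : Fin (n + 2)) (f : (Λ[n + 1, i] : SSet.{0}) ⟶ E),
    ∃ g : Δ[n + 1] ⟶ E, Λ[n + 1, i].ι ≫ g = f) : SSet.KanComplex E := by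
  refine (isFibrant_iff _).2 ?_
  rw [fibration_iff]
  intro _ _ _ hj
  simp only [J, MorphismProperty.iSup_iff] at hj
  obtain ⟨n, ⟨i⟩⟩ := hj
  refine ⟨fun {t _} _ ↦ ?_⟩
  obtain ⟨g, hg⟩ := h n i t
  exact ⟨⟨{ l := g, fac_left := hg, fac_right := Limits.terminal.hom_ext _ _ }⟩⟩

lemma kan_of_kanFib {E B : SSet.{0}} {p : E ⟶ B} (hp : KanFib p) (hB : SSet.KanComplex B) :
    SSet.KanComplex E := by
  have := (kanFib_iff p).1 hp
  exact isFibrant_of_fibration p

lemma we_of_anodyne (D : Deps) {X Y : SSet.{0}} (i : X ⟶ Y) [Mono i] (h : SSet.anodyneExtensions i) :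
    WE i :=
  D.we_of_lift i fun p hp => h p ((kanFib_iff p).1 hp).mem

/-- The pushout-product of a monomorphism which is a weak equivalence and a monomorphism is a weak
equivalence. -/
lemma we_unionProd (D : Deps) {X Y : SSet.{0}} (S : X.Subcomplex) (T : Y.Subcomplex)
    (hS : ∀ {E B : SSet.{0}} (p : E ⟶ B), SSet.KanComplex E → SSet.KanComplex B → KanFib p →
      HasLiftingProperty S.ι p) : WE (S.unionProd T).ι := by
  rw [D.we_iff_lift]
  intro E B p hE hB hp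
  have hp' := (kanFib_iff p).1 hp
  let sq₁₂ := SSet.Subcomplex.unionProd.pushoutObjObj S T
  change HasLiftingProperty sq₁₂.ι p
  rw [HasLiftingProperty.iff_of_arrow_iso_left
    (show Arrow.mk sq₁₂.ι ≅ Arrow.mk sq₁₂.flipTensor.ι from
      Arrow.isoMk (Iso.refl _) (β_ _ _))]
  let sq₁₃ := Functor.PullbackObjObj.ofHasPullback MonoidalClosed.internalHom T.ι p
  rw [MonoidalClosed.internalHomAdjunction₂.hasLiftingProperty_iff _ sq₁₃]
  have h1 : Fibration sq₁₃.π := SSet.fibration_pullbackObjObjπ sq₁₃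
  have h2 : SSet.KanComplex ((ihom (Y : SSet)).obj E) := inferInstance
  have h3 : SSet.KanComplex ((ihom (T : SSet)).obj E) := inferInstance
  have h4 : Fibration ((MonoidalClosed.pre T.ι).app B) := inferInstance
  have h6 : (fibrations SSet.{0}).IsStableUnderBaseChange := by
    rw [fibrations_eq]
    infer_instance
  have h5 : fibrations SSet.{0} sq₁₃.fst :=
    MorphismProperty.of_isPullback sq₁₃.isPullback.flip h4.mem
  refine hS _ h2 ?_ ((kanFib_iff _).2 h1)
  have h7 : Fibration sq₁₃.fst := ⟨h5⟩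
  exact kan_of_kanFib ((kanFib_iff _).2 h7) h3

end Fibrations

section

variable {A : Type} [SmallCategory A]

/-- The pushout-product `X ⊗ L ∪ Y ⊗ K` as a subpresheaf of `Y ⊗ L`. -/
def PP {X Y : SP A} (i : X ⟶ Y) {K L : SSet.{0}} (j : K ⟶ L) : SP A where
  obj a := ((SSet.Subcomplex.range (i.app a)).unionProd (SSet.Subcomplex.range j) : SSet)
  map {a b} f :=
    { app := fun k => ↾ fun z => ⟨(((Y.map f).app k z.1.1 : (Y.obj b).obj k), z.1.2), by
        refine (SSet.Subcomplex.mem_unionProd_iff _ _ _).2 ?_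
        have hz := (SSet.Subcomplex.mem_unionProd_iff _ _ _).1 z.2
        rcases hz with hz | ⟨x, hx⟩
        · exact Or.inl hz
        · refine Or.inr ⟨(X.map f).app k x, (hom_nat i f x).trans ?_⟩
          exact congrArg ((Y.map f).app k) hx⟩
      naturality := fun k l α => by
        ext z
        refine Subtype.ext (Prod.ext ?_ rfl)
        exact sp_nat Y f α _ }
  map_id a := by
    ext k z
    refine Subtype.ext (Prod.ext ?_ rfl)
    exact sp_id Y _
  map_comp f g := by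
    ext k z
    refine Subtype.ext (Prod.ext ?_ rfl)
    exact sp_comp Y f g _

/-- The inclusion of the pushout-product. -/
def PPι {X Y : SP A} (i : X ⟶ Y) {K L : SSet.{0}} (j : K ⟶ L) : PP i j ⟶ tn Y L where
  app a := ((SSet.Subcomplex.range (i.app a)).unionProd (SSet.Subcomplex.range j)).ι
  naturality _ _ _ := rfl

/-- The map `X ⊗ L ⟶ P`. -/
def PPl {X Y : SP A} (i : X ⟶ Y) {K L : SSet.{0}} (j : K ⟶ L) : tn X L ⟶ PP i j where
  app a :=
    { app := fun k => ↾ fun (z : (X.obj a).obj k × L.obj k) => ⟨((i.app a).app k z.1, z.2), by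
        exact (SSet.Subcomplex.mem_unionProd_iff _ _ _).2 (Or.inr ⟨z.1, rfl⟩)⟩
      naturality := fun k l α => by
        ext z
        refine Subtype.ext (Prod.ext ?_ rfl)
        exact hom_natk i α _ }
  naturality a b f := by
    ext k z
    refine Subtype.ext (Prod.ext ?_ rfl)
    exact hom_nat i f _

/-- The map `Y ⊗ K ⟶ P`. -/
def PPr {X Y : SP A} (i : X ⟶ Y) {K L : SSet.{0}} (j : K ⟶ L) : tn Y K ⟶ PP i j where
  app a :=
    { app := fun k => ↾ fun (z : (Y.obj a).obj k × K.obj k) => ⟨(z.1, j.app k z.2), by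
        exact (SSet.Subcomplex.mem_unionProd_iff _ _ _).2 (Or.inl ⟨z.2, rfl⟩)⟩
      naturality := fun k l α => by
        ext z
        refine Subtype.ext (Prod.ext rfl ?_)
        exact sset_nat j α _ }
  naturality _ _ _ := rfl

lemma PPl_ι {X Y : SP A} (i : X ⟶ Y) {K L : SSet.{0}} (j : K ⟶ L) :
    PPl i j ≫ PPι i j = tnMap i (𝟙 L) := rfl

lemma PPr_ι {X Y : SP A} (i : X ⟶ Y) {K L : SSet.{0}} (j : K ⟶ L) :
    PPr i j ≫ PPι i j = tnMap (𝟙 Y) j := rfl

lemma PP_cases {X Y : SP A} (i : X ⟶ Y) {K L : SSet.{0}} (j : K ⟶ L) {a : Aᵒᵖ}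
    {k : SimplexCategoryᵒᵖ} (z : ((PP i j).obj a).obj k) :
    (∃ (x : (X.obj a).obj k) (l : L.obj k), ((PPl i j).app a).app k (x, l) = z) ∨
    (∃ (y : (Y.obj a).obj k) (t : K.obj k), ((PPr i j).app a).app k (y, t) = z) := by
  obtain ⟨⟨y, l⟩, hz⟩ := z
  rcases (SSet.Subcomplex.mem_unionProd_iff _ _ _).1 hz with ⟨t, ht⟩ | ⟨x, hx⟩
  · exact Or.inr ⟨y, t, Subtype.ext (Prod.ext rfl ht)⟩
  · exact Or.inl ⟨x, l, Subtype.ext (Prod.ext hx rfl)⟩

lemma app_inj {X Y : SP A} {i : X ⟶ Y} (hi : ∀ a, Mono (i.app a)) {a : Aᵒᵖ}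
    {k : SimplexCategoryᵒᵖ} : Function.Injective ((i.app a).app k) := by
  have := hi a
  have h : Mono ((i.app a).app k) := inferInstance
  exact (mono_iff_injective _).1 h

lemma j_inj {K L : SSet.{0}} (j : K ⟶ L) [Mono j] {k : SimplexCategoryᵒᵖ} :
    Function.Injective (j.app k) := by
  have h : Mono (j.app k) := inferInstance
  exact (mono_iff_injective _).1 h

/-- Maps out of the pushout-product. -/
lemma exists_PPdesc {X Y Z : SP A} (i : X ⟶ Y) (hi : ∀ a, Mono (i.app a)) {K L : SSet.{0}}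
    (j : K ⟶ L) [Mono j] (u : tn X L ⟶ Z) (v : tn Y K ⟶ Z)
    (huv : tnMap (𝟙 X) j ≫ u = tnMap i (𝟙 K) ≫ v) :
    ∃ f : PP i j ⟶ Z, PPl i j ≫ f = u ∧ PPr i j ≫ f = v := by
  classical
  have huv' : ∀ (a : Aᵒᵖ) (k : SimplexCategoryᵒᵖ) (x : (X.obj a).obj k) (t : K.obj k),
      (u.app a).app k (x, j.app k t) = (v.app a).app k ((i.app a).app k x, t) := fun a k x t =>
    congrArg (fun (g : tn X K ⟶ Z) => (g.app a).app k (x, t)) huv
  have key : ∀ (a : Aᵒᵖ) (k : SimplexCategoryᵒᵖ) (z : ((PP i j).obj a).obj k),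
      ∃ w : (Z.obj a).obj k,
        (∀ (x : (X.obj a).obj k) (l : L.obj k), ((PPl i j).app a).app k (x, l) = z →
          (u.app a).app k (x, l) = w) ∧
        (∀ (y : (Y.obj a).obj k) (t : K.obj k), ((PPr i j).app a).app k (y, t) = z →
          (v.app a).app k (y, t) = w) := by
    intro a k z
    rcases PP_cases i j z with ⟨x, l, rfl⟩ | ⟨y, t, rfl⟩
    · refine ⟨(u.app a).app k (x, l), fun x' l' h => ?_, fun y t h => ?_⟩
      · have h1 := congrArg (fun z => z.1.1) h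
        have h2 := congrArg (fun z => z.1.2) h
        have h3 : x' = x := app_inj hi h1
        have h4 : l' = l := h2
        rw [h3, h4]
      · have h1 : y = (i.app a).app k x := congrArg (fun z => z.1.1) h
        have h2 : j.app k t = l := congrArg (fun z => z.1.2) h
        rw [h1, ← h2]
        exact (huv' a k x t).symm
    · refine ⟨(v.app a).app k (y, t), fun x l h => ?_, fun y' t' h => ?_⟩
      · have h1 : (i.app a).app k x = y := congrArg (fun z => z.1.1) h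
        have h2 : l = j.app k t := congrArg (fun z => z.1.2) h
        rw [← h1, h2]
        exact huv' a k x t
      · have h1 : y' = y := congrArg (fun z => z.1.1) h
        have h2 : j.app k t' = j.app k t := congrArg (fun z => z.1.2) h
        rw [h1, j_inj j h2]
  choose F hF1 hF2 using key
  refine ⟨{ app := fun a => { app := fun k => ↾ (F a k), naturality := ?_ }, naturality := ?_ },
    ?_, ?_⟩
  · intro k l α
    ext z
    show F a l (((PP i j).obj a).map α z) = (Z.obj a).map α (F a k z)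
    rcases PP_cases i j z with ⟨x, y, h⟩ | ⟨y, t, h⟩
    · refine Eq.trans ?_ (congrArg ((Z.obj a).map α) (hF1 a k _ x y h))
      refine Eq.trans ?_ (hom_natk u α (x, y))
      refine (hF1 a l _ ((X.obj a).map α x) (L.map α y) ?_).symm
      exact (sset_nat ((PPl i j).app a) α (x, y)).trans (congrArg _ h)
    · refine Eq.trans ?_ (congrArg ((Z.obj a).map α) (hF2 a k _ y t h))
      refine Eq.trans ?_ (hom_natk v α (y, t))
      refine (hF2 a l _ ((Y.obj a).map α y) (K.map α t) ?_).symm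
      exact (sset_nat ((PPr i j).app a) α (y, t)).trans (congrArg _ h)
  · intro a b f
    ext k z
    show F b k (((PP i j).map f).app k z) = (Z.map f).app k (F a k z)
    rcases PP_cases i j z with ⟨x, y, h⟩ | ⟨y, t, h⟩
    · refine Eq.trans ?_ (congrArg ((Z.map f).app k) (hF1 a k _ x y h))
      refine Eq.trans ?_ (hom_nat u f (x, y))
      refine (hF1 b k _ ((X.map f).app k x) y ?_).symm
      exact (hom_nat (PPl i j) f (x, y)).trans (congrArg _ h)
    · refine Eq.trans ?_ (congrArg ((Z.map f).app k) (hF2 a k _ y t h))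
      refine Eq.trans ?_ (hom_nat v f (y, t))
      refine (hF2 b k _ ((Y.map f).app k y) t ?_).symm
      exact (hom_nat (PPr i j) f (y, t)).trans (congrArg _ h)
  · ext a k ⟨x, l⟩
    exact (hF1 a k _ x l rfl).symm
  · ext a k ⟨y, t⟩
    exact (hF2 a k _ y t rfl).symm

lemma PPι_trivCof_of_anodyne (D : Deps) {X Y : SP A} (i : X ⟶ Y) {K L : SSet.{0}} (j : K ⟶ L) [Mono j]
    (hj : SSet.anodyneExtensions j) : TrivCof (PPι i j) := by
  refine ⟨fun a => ?_, fun a => ?_⟩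
  · show Mono ((SSet.Subcomplex.range (i.app a)).unionProd (SSet.Subcomplex.range j)).ι
    infer_instance
  · show WE ((SSet.Subcomplex.range (i.app a)).unionProd (SSet.Subcomplex.range j)).ι
    refine we_of_anodyne D _ (SSet.anodyneExtensions_unionProd_ι _ _ ?_)
    refine (SSet.anodyneExtensions.arrow_mk_iso_iff ?_).1 hj
    exact Arrow.isoMk (asIso (SSet.Subcomplex.toRange j)) (Iso.refl _) rfl

lemma PPι_trivCof (D : Deps) {X Y : SP A} (i : X ⟶ Y) (hi : TrivCof i) {K L : SSet.{0}} (j : K ⟶ L) [Mono j] :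
    TrivCof (PPι i j) := by
  refine ⟨fun a => ?_, fun a => ?_⟩
  · show Mono ((SSet.Subcomplex.range (i.app a)).unionProd (SSet.Subcomplex.range j)).ι
    infer_instance
  · show WE ((SSet.Subcomplex.range (i.app a)).unionProd (SSet.Subcomplex.range j)).ι
    refine we_unionProd D _ _ fun {E B} p hE hB hp => ?_
    have := hi.1 a
    have h := (D.we_iff_lift (i.app a)).1 (hi.2 a) p hE hB hp
    refine (HasLiftingProperty.iff_of_arrow_iso_left (e := ?_) p).1 h
    exact Arrow.isoMk (asIso (SSet.Subcomplex.toRange (i.app a))) (Iso.refl _) rfl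

/-- The extension property for the pushout-product. -/
lemma exists_ext {X Y Z : SP A} (i : X ⟶ Y) (hi : ∀ a, Mono (i.app a)) {K L : SSet.{0}}
    (j : K ⟶ L) [Mono j] (hP : TrivCof (PPι i j)) (hZ : InjFib Z) (u : tn X L ⟶ Z)
    (v : tn Y K ⟶ Z) (huv : tnMap (𝟙 X) j ≫ u = tnMap i (𝟙 K) ≫ v) :
    ∃ l : tn Y L ⟶ Z, tnMap i (𝟙 L) ≫ l = u ∧ tnMap (𝟙 Y) j ≫ l = v := by
  obtain ⟨f, hf1, hf2⟩ := exists_PPdesc i hi j u v huv
  obtain ⟨l, hl⟩ := hZ (PPι i j) hP f
  refine ⟨l, ?_, ?_⟩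
  · rw [← PPl_ι i j, Category.assoc, hl, hf1]
  · rw [← PPr_ι i j, Category.assoc, hl, hf2]

lemma PP_hom_ext {X Y Z : SP A} (i : X ⟶ Y) {K L : SSet.{0}} (j : K ⟶ L) (f g : PP i j ⟶ Z)
    (h1 : PPl i j ≫ f = PPl i j ≫ g) (h2 : PPr i j ≫ f = PPr i j ≫ g) : f = g := by
  ext a k z
  rcases PP_cases i j z with ⟨x, y, h⟩ | ⟨y, t, h⟩
  · subst h
    exact congrArg (fun (g : tn X L ⟶ Z) => (g.app a).app k (x, y)) h1
  · subst h
    exact congrArg (fun (g : tn Y K ⟶ Z) => (g.app a).app k (y, t)) h2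

/-- The relative extension property for the pushout-product. -/
lemma exists_rel_ext {X Y Z Z' : SP A} (i : X ⟶ Y) (hi : ∀ a, Mono (i.app a)) {K L : SSet.{0}}
    (j : K ⟶ L) [Mono j] (hP : TrivCof (PPι i j)) (q : Z ⟶ Z') (hq : InjFibration q)
    (u : tn X L ⟶ Z) (v : tn Y K ⟶ Z) (w : tn Y L ⟶ Z')
    (huv : tnMap (𝟙 X) j ≫ u = tnMap i (𝟙 K) ≫ v)
    (huw : u ≫ q = tnMap i (𝟙 L) ≫ w) (hvw : v ≫ q = tnMap (𝟙 Y) j ≫ w) :
    ∃ l : tn Y L ⟶ Z, tnMap i (𝟙 L) ≫ l = u ∧ tnMap (𝟙 Y) j ≫ l = v ∧ l ≫ q = w := by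
  obtain ⟨f, hf1, hf2⟩ := exists_PPdesc i hi j u v huv
  have h := hq (PPι i j) hP
  have sq : CommSq f (PPι i j) q w := ⟨by
    refine PP_hom_ext i j _ _ ?_ ?_
    · rw [← Category.assoc, hf1, ← Category.assoc, PPl_ι, huw]
    · rw [← Category.assoc, hf2, ← Category.assoc, PPr_ι, hvw]⟩
  refine ⟨sq.lift, ?_, ?_, sq.fac_right⟩
  · rw [← PPl_ι i j, Category.assoc, sq.fac_left, hf1]
  · rw [← PPr_ι i j, Category.assoc, sq.fac_left, hf2]

lemma horn_anodyne (n : ℕ) (i : Fin (n + 2)) :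
    SSet.anodyneExtensions (Λ[n + 1, i].ι : (Λ[n + 1, i] : SSet.{0}) ⟶ _) :=
  SSet.anodyneExtensions.horn_ι i

lemma lift_pre {X Y Z : SP A} (i : X ⟶ Y) (hi : ∀ a, Mono (i.app a)) {K L : SSet.{0}}
    (j : K ⟶ L) [Mono j] (hP : TrivCof (PPι i j)) (hZ : InjFib Z) :
    HasLiftingProperty j (Mp.pre i Z) := by
  refine ⟨fun {f g} sq => ?_⟩
  obtain ⟨l, hl1, hl2⟩ := exists_ext i hi j hP hZ (Mp.adj g) (Mp.adj f)
    (congrArg Mp.adj sq.w).symm
  refine ⟨⟨{ l := Mp.adj.symm l, fac_left := ?_, fac_right := ?_ }⟩⟩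
  · apply Mp.adj.injective
    exact (Mp.adj_comp j (Mp.adj.symm l)).trans
      ((congrArg (tnMap (𝟙 Y) j ≫ ·) (Mp.adj.apply_symm_apply l)).trans hl2)
  · apply Mp.adj.injective
    exact (Mp.adj_pre i (Mp.adj.symm l)).trans
      ((congrArg (tnMap i (𝟙 L) ≫ ·) (Mp.adj.apply_symm_apply l)).trans hl1)

theorem Mp_pre_kanFib_of (D : Deps) {X Y Z : SP A} (i : X ⟶ Y) (hi : ∀ a, Mono (i.app a)) (hZ : InjFib Z) :
    KanFib (Mp.pre i Z) := fun n k =>
  lift_pre i hi _ (PPι_trivCof_of_anodyne D i _ (horn_anodyne n k)) hZ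

theorem Mp_pre_trivFib_of (D : Deps) {X Y Z : SP A} (i : X ⟶ Y) (hi : TrivCof i) (hZ : InjFib Z) :
    TrivFib (Mp.pre i Z) := fun _ =>
  lift_pre i hi.1 _ (PPι_trivCof D i hi _) hZ

lemma tnMap_trivCof (D : Deps) (X : SP A) {K L : SSet.{0}} (j : K ⟶ L) [Mono j]
    (hj : SSet.anodyneExtensions j) : TrivCof (tnMap (𝟙 X) j) := by
  have hm : ∀ a, Mono ((tnMap (𝟙 X) j).app a) := fun a => by
    have h : ∀ k, Mono (((tnMap (𝟙 X) j).app a).app k) := fun k => by
      refine (mono_iff_injective _).2 ?_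
      rintro ⟨x, y⟩ ⟨x', y'⟩ h
      have h1 : x = x' := congrArg Prod.fst h
      have h2 : j.app k y = j.app k y' := congrArg Prod.snd h
      rw [h1, j_inj j h2]
    exact NatTrans.mono_of_mono_app _
  refine ⟨hm, fun a => ?_⟩
  have := hm a
  refine we_of_anodyne D _ ?_
  exact hj.whiskerLeft (X.obj a)

theorem Mp_kan_of (D : Deps) (X : SP A) {Z : SP A} (hZ : InjFib Z) : SSet.KanComplex (Mp X Z) := by
  refine kan_of_lift fun n k f => ?_
  obtain ⟨l, hl⟩ := hZ _ (tnMap_trivCof D X _ (horn_anodyne n k)) (Mp.adj f)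
  refine ⟨Mp.adj.symm l, ?_⟩
  apply Mp.adj.injective
  exact (Mp.adj_comp _ (Mp.adj.symm l)).trans
      ((congrArg (tnMap (𝟙 X) Λ[n + 1, k].ι ≫ ·) (Mp.adj.apply_symm_apply l)).trans hl)

theorem Mp_post_kanFib_of (D : Deps) (X : SP A) {Z Z' : SP A} (q : Z ⟶ Z') (hq : InjFibration q) :
    KanFib (Mp.post X q) := by
  intro n k
  refine ⟨fun {f g} sq => ?_⟩
  have h := hq _ (tnMap_trivCof D X _ (horn_anodyne n k))
  have sq' : CommSq (Mp.adj f) (tnMap (𝟙 X) Λ[n + 1, k].ι) q (Mp.adj g) :=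
    ⟨congrArg Mp.adj sq.w⟩
  refine ⟨⟨{ l := Mp.adj.symm sq'.lift, fac_left := ?_, fac_right := ?_ }⟩⟩
  · apply Mp.adj.injective
    exact (Mp.adj_comp _ (Mp.adj.symm sq'.lift)).trans
      ((congrArg (tnMap (𝟙 X) Λ[n + 1, k].ι ≫ ·) (Mp.adj.apply_symm_apply sq'.lift)).trans
        sq'.fac_left)
  · apply Mp.adj.injective
    exact (Mp.adj_post q (Mp.adj.symm sq'.lift)).trans
      ((congrArg (· ≫ q) (Mp.adj.apply_symm_apply sq'.lift)).trans sq'.fac_right)

/-- The relative lifting property. -/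
theorem rel_lift_of (D : Deps) {X Y Z Z' : SP A} (i : X ⟶ Y) (hi : ∀ a, Mono (i.app a)) (q : Z ⟶ Z')
    (hq : InjFibration q) (hZ : InjFib Z) (hZ' : InjFib Z') (h : HoEq (Mp.pre i Z))
    (h' : HoEq (Mp.pre i Z')) {K L : SSet.{0}} (j : K ⟶ L) [Mono j] (u : tn X L ⟶ Z)
    (v : tn Y K ⟶ Z) (w : tn Y L ⟶ Z') (huv : tnMap (𝟙 X) j ≫ u = tnMap i (𝟙 K) ≫ v)
    (huw : u ≫ q = tnMap i (𝟙 L) ≫ w) (hvw : v ≫ q = tnMap (𝟙 Y) j ≫ w) :
    ∃ l : tn Y L ⟶ Z, tnMap i (𝟙 L) ≫ l = u ∧ tnMap (𝟙 Y) j ≫ l = v ∧ l ≫ q = w := by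
  let φ : Mp Y Z ⟶ Limits.pullback (Mp.post X q) (Mp.pre i Z') :=
    Limits.pullback.lift (Mp.pre i Z) (Mp.post Y q) rfl
  have hφ1 : φ ≫ Limits.pullback.fst _ _ = Mp.pre i Z := Limits.pullback.lift_fst _ _ _
  have hφ2 : φ ≫ Limits.pullback.snd _ _ = Mp.post Y q := Limits.pullback.lift_snd _ _ _
  have kXZ : SSet.KanComplex (Mp X Z) := Mp_kan_of D X hZ
  have kXZ' : SSet.KanComplex (Mp X Z') := Mp_kan_of D X hZ'
  have kYZ : SSet.KanComplex (Mp Y Z) := Mp_kan_of D Y hZ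
  have kYZ' : SSet.KanComplex (Mp Y Z') := Mp_kan_of D Y hZ'
  have h1 : TrivFib (Mp.pre i Z') := trivFib_of_hoEq kYZ' kXZ' (Mp_pre_kanFib_of D i hi hZ') h'
  have h2 : TrivFib (Limits.pullback.fst (Mp.post X q) (Mp.pre i Z')) := fun n => by
    have := h1 n
    infer_instance
  have kP : SSet.KanComplex (Limits.pullback (Mp.post X q) (Mp.pre i Z')) :=
    kan_of_kanFib (TrivFib.kanFib h2) kXZ
  have h3 : HoEq φ := by
    refine D.comp_right kYZ kP kXZ (TrivFib.hoEq h2) ?_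
    rw [hφ1]
    exact h
  have key : ∀ {K L : SSet.{0}} (j : K ⟶ L) [Mono j] (f : K ⟶ Mp Y Z)
      (g : L ⟶ Limits.pullback (Mp.post X q) (Mp.pre i Z')),
      f ≫ φ = j ≫ g → (tnMap (𝟙 X) j ≫ Mp.adj (g ≫ Limits.pullback.fst _ _) =
        tnMap i (𝟙 K) ≫ Mp.adj f ∧
        Mp.adj (g ≫ Limits.pullback.fst _ _) ≫ q =
          tnMap i (𝟙 L) ≫ Mp.adj (g ≫ Limits.pullback.snd _ _) ∧
        Mp.adj f ≫ q = tnMap (𝟙 Y) j ≫ Mp.adj (g ≫ Limits.pullback.snd _ _)) := by
    intro K L j _ f g hfg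
    refine ⟨?_, ?_, ?_⟩
    · have := congrArg (fun t => Mp.adj (t ≫ Limits.pullback.fst _ _)) hfg
      simp only [Category.assoc, hφ1] at this
      exact this.symm
    · have := congrArg (fun t => Mp.adj (g ≫ t))
        (Limits.pullback.condition (f := Mp.post X q) (g := Mp.pre i Z'))
      simp only [← Category.assoc] at this
      exact this
    · have := congrArg (fun t => Mp.adj (t ≫ Limits.pullback.snd _ _)) hfg
      simp only [Category.assoc, hφ2] at this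
      exact this
  have h4 : KanFib φ := by
    intro n k
    refine ⟨fun {f g} sq => ?_⟩
    obtain ⟨k1, k2, k3⟩ := key _ f g sq.w
    obtain ⟨l, hl1, hl2, hl3⟩ := exists_rel_ext i hi _
      (PPι_trivCof_of_anodyne D i _ (horn_anodyne n k)) q hq _ _ _ k1 k2 k3
    refine ⟨⟨{ l := Mp.adj.symm l, fac_left := ?_, fac_right := ?_ }⟩⟩
    · apply Mp.adj.injective
      exact (Mp.adj_comp _ (Mp.adj.symm l)).trans
        ((congrArg (tnMap (𝟙 Y) Λ[n + 1, k].ι ≫ ·) (Mp.adj.apply_symm_apply l)).trans hl2)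
    · apply Limits.pullback.hom_ext
      · rw [Category.assoc, hφ1]
        apply Mp.adj.injective
        exact (Mp.adj_pre i (Mp.adj.symm l)).trans
          ((congrArg (tnMap i (𝟙 _) ≫ ·) (Mp.adj.apply_symm_apply l)).trans hl1)
      · rw [Category.assoc, hφ2]
        apply Mp.adj.injective
        exact (Mp.adj_post q (Mp.adj.symm l)).trans
          ((congrArg (· ≫ q) (Mp.adj.apply_symm_apply l)).trans hl3)
  have h5 : TrivFib φ := trivFib_of_hoEq kYZ kP h4 h3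
  have h6 := TrivFib.lift h5 j
  have hc : Mp.adj.symm u ≫ Mp.post X q = Mp.adj.symm w ≫ Mp.pre i Z' := by
    apply Mp.adj.injective
    refine ((Mp.adj_post q (Mp.adj.symm u)).trans
      ((congrArg (· ≫ q) (Mp.adj.apply_symm_apply u)).trans ?_)).trans
      ((Mp.adj_pre i (Mp.adj.symm w)).trans
      (congrArg (tnMap i (𝟙 _) ≫ ·) (Mp.adj.apply_symm_apply w))).symm
    exact huw
  have sq : CommSq (Mp.adj.symm v) j φ (Limits.pullback.lift _ _ hc) := ⟨by
    apply Limits.pullback.hom_ext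
    · rw [Category.assoc, hφ1, Category.assoc, Limits.pullback.lift_fst]
      apply Mp.adj.injective
      refine ((Mp.adj_pre i (Mp.adj.symm v)).trans
        ((congrArg (tnMap i (𝟙 _) ≫ ·) (Mp.adj.apply_symm_apply v)).trans ?_)).trans
        ((Mp.adj_comp j (Mp.adj.symm u)).trans
        (congrArg (tnMap (𝟙 _) j ≫ ·) (Mp.adj.apply_symm_apply u))).symm
      exact huv.symm
    · rw [Category.assoc, hφ2, Category.assoc, Limits.pullback.lift_snd]
      apply Mp.adj.injective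
      refine ((Mp.adj_post q (Mp.adj.symm v)).trans
        ((congrArg (· ≫ q) (Mp.adj.apply_symm_apply v)).trans ?_)).trans
        ((Mp.adj_comp j (Mp.adj.symm w)).trans
        (congrArg (tnMap (𝟙 _) j ≫ ·) (Mp.adj.apply_symm_apply w))).symm
      exact hvw⟩
  refine ⟨Mp.adj sq.lift, ?_, ?_, ?_⟩
  · refine (Mp.adj_pre i sq.lift).symm.trans ?_
    rw [← hφ1, ← Category.assoc, sq.fac_right, Limits.pullback.lift_fst]
    exact Mp.adj.apply_symm_apply u
  · refine (Mp.adj_comp j sq.lift).symm.trans ?_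
    rw [sq.fac_left]
    exact Mp.adj.apply_symm_apply v
  · refine (Mp.adj_post q sq.lift).symm.trans ?_
    rw [← hφ2, ← Category.assoc, sq.fac_right, Limits.pullback.lift_snd]
    exact Mp.adj.apply_symm_apply w

end

end Pool.Agent.Helper83.FL4
end

/- Helper54.FL2.FibA -/
section
/-!
# Project FL2, module G5 (FIB), part A: lifting of paths, fibres
-/

open CategoryTheory MonoidalCategory CartesianMonoidalCategory Simplicial Opposite
  HomotopicalAlgebra Limits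

set_option autoImplicit false

namespace Pool.Agent.Helper54.FL2

open _root_.FL SSet SSet.modelCategoryQuillen Pool.Agent.Helper45.FL2

/-! ### Fibre products -/

section Fp

variable {E E' B K : SSet.{0}} {p : E ⟶ B} {q : E' ⟶ B}

theorem Fp_lift_fst (f : K ⟶ E) (g : K ⟶ E') (h : f ≫ p = g ≫ q) :
    Fp.lift f g h ≫ Fp.fst p q = f := rfl

theorem Fp_lift_snd (f : K ⟶ E) (g : K ⟶ E') (h : f ≫ p = g ≫ q) :
    Fp.lift f g h ≫ Fp.snd p q = g := rfl

theorem Fp_w (p : E ⟶ B) (q : E' ⟶ B) : Fp.fst p q ≫ p = Fp.snd p q ≫ q := by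
  refine NatTrans.ext (funext fun k => ?_)
  refine ConcreteCategory.hom_ext _ _ fun z => ?_
  exact z.2

theorem Fp_ext {a b : K ⟶ Fp p q} (h1 : a ≫ Fp.fst p q = b ≫ Fp.fst p q)
    (h2 : a ≫ Fp.snd p q = b ≫ Fp.snd p q) : a = b := by
  refine NatTrans.ext (funext fun k => ?_)
  refine ConcreteCategory.hom_ext _ _ fun z => ?_
  refine Subtype.ext (Prod.ext ?_ ?_)
  · exact ConcreteCategory.congr_hom (NatTrans.congr_app h1 k) z
  · exact ConcreteCategory.congr_hom (NatTrans.congr_app h2 k) z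

theorem Fp_lift_of {K L : SSet.{0}} (i : K ⟶ L) (p : E ⟶ B) (q : E' ⟶ B)
    (h : HasLiftingProperty i q) : HasLiftingProperty i (Fp.fst p q) := by
  constructor
  intro u v sq
  have sq' : CommSq (u ≫ Fp.snd p q) i q (v ≫ p) := ⟨by
    rw [Category.assoc, ← Fp_w, ← Category.assoc, sq.w, Category.assoc]⟩
  exact ⟨⟨{
    l := Fp.lift v sq'.lift sq'.fac_right.symm
    fac_left := by
      refine Fp_ext ?_ ?_
      · rw [Category.assoc, Fp_lift_fst, sq.w]
      · rw [Category.assoc, Fp_lift_snd, sq'.fac_left]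
    fac_right := Fp_lift_fst _ _ _ }⟩⟩

theorem Fp_lift_of' {K L : SSet.{0}} (i : K ⟶ L) (p : E ⟶ B) (q : E' ⟶ B)
    (h : HasLiftingProperty i p) : HasLiftingProperty i (Fp.snd p q) := by
  constructor
  intro u v sq
  have sq' : CommSq (u ≫ Fp.fst p q) i p (v ≫ q) := ⟨by
    rw [Category.assoc, Fp_w, ← Category.assoc, sq.w, Category.assoc]⟩
  exact ⟨⟨{
    l := Fp.lift sq'.lift v sq'.fac_right
    fac_left := by
      refine Fp_ext ?_ ?_
      · rw [Category.assoc, Fp_lift_fst, sq'.fac_left]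
      · rw [Category.assoc, Fp_lift_snd, sq.w]
    fac_right := Fp_lift_snd _ _ _ }⟩⟩

end Fp

theorem Fp_fst_kanFib {E₁ E₂ B : SSet.{0}} (p : E₁ ⟶ B) (q : E₂ ⟶ B) (hq : KanFib q) :
    KanFib (Fp.fst p q) := fun n i => Fp_lift_of _ p q (hq n i)

theorem Fp_snd_kanFib {E₁ E₂ B : SSet.{0}} (p : E₁ ⟶ B) (q : E₂ ⟶ B) (hp : KanFib p) :
    KanFib (Fp.snd p q) := fun n i => Fp_lift_of' _ p q (hp n i)

theorem Fp_fst_trivFib {E₁ E₂ B : SSet.{0}} (p : E₁ ⟶ B) (q : E₂ ⟶ B) (hq : TrivFib q) :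
    TrivFib (Fp.fst p q) := fun n => Fp_lift_of _ p q (hq n)

theorem Fp_snd_trivFib {E₁ E₂ B : SSet.{0}} (p : E₁ ⟶ B) (q : E₂ ⟶ B) (hp : TrivFib p) :
    TrivFib (Fp.snd p q) := fun n => Fp_lift_of' _ p q (hp n)

/-! ### Fibres -/

section Fb

variable {E B : SSet.{0}} {p : E ⟶ B} {b : B.obj (op ⦋0⦌)}

theorem Fb_ι_p (p : E ⟶ B) (b : B.obj (op ⦋0⦌)) : Fb.ι p b ≫ p = SSet.const b := by
  refine NatTrans.ext (funext fun k => ?_)
  refine ConcreteCategory.hom_ext _ _ fun z => ?_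
  exact z.2

theorem exists_fb {K : SSet.{0}} (u : K ⟶ E) (h : u ≫ p = SSet.const b) :
    ∃ u' : K ⟶ Fb p b, u' ≫ Fb.ι p b = u :=
  ⟨{ app := fun k => ↾ fun z => ⟨u.app k z, ConcreteCategory.congr_hom (NatTrans.congr_app h k) z⟩
     naturality := fun k l α => by
      refine ConcreteCategory.hom_ext _ _ fun z => ?_
      exact Subtype.ext (sset_nat u α z) }, rfl⟩

theorem Fb_ext {K : SSet.{0}} {u v : K ⟶ Fb p b} (h : u ≫ Fb.ι p b = v ≫ Fb.ι p b) : u = v := by
  refine NatTrans.ext (funext fun k => ?_)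
  refine ConcreteCategory.hom_ext _ _ fun z => ?_
  have := ConcreteCategory.congr_hom (NatTrans.congr_app h k) z
  exact Subtype.ext this

theorem Fb_map_ι {E' B' : SSet.{0}} {p' : E' ⟶ B'} (f : E ⟶ E') (g : B ⟶ B')
    (h : f ≫ p' = p ≫ g) (b : B.obj (op ⦋0⦌)) :
    Fb.map f g h b ≫ Fb.ι p' (g.app _ b) = Fb.ι p b ≫ f := rfl

end Fb

theorem kanFib_toUnit {X : SSet.{0}} (hX : SSet.KanComplex X) : KanFib (toUnit X) := by
  intro n i
  constructor
  intro u v sq
  obtain ⟨σ, hσ⟩ := KanComplex.hornFilling u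
  exact ⟨⟨{ l := σ, fac_left := hσ.symm, fac_right := toUnit_unique _ _ }⟩⟩

theorem kan_of_kanFib_toUnit {X : SSet.{0}} (h : KanFib (toUnit X)) : SSet.KanComplex X := by
  rw [KanComplex.iff]
  intro n i f hf
  have := fibration_of_kanFib h
  obtain ⟨φ, hφ, -⟩ := hf.exists_lift (toUnit X) (toUnit _) (by intros; exact toUnit_unique _ _)
  exact ⟨φ, hφ⟩

theorem kanFib_comp {X Y Z : SSet.{0}} {f : X ⟶ Y} {g : Y ⟶ Z} (hf : KanFib f) (hg : KanFib g) :
    KanFib (f ≫ g) := by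
  intro n i
  have := hf n i
  have := hg n i
  infer_instance

/-- The total space of a Kan fibration over a Kan complex. -/
theorem kan_total {E B : SSet.{0}} {p : E ⟶ B} (hp : KanFib p) (hB : SSet.KanComplex B) :
    SSet.KanComplex E := by
  refine kan_of_kanFib_toUnit ?_
  rw [toUnit_unique (toUnit E) (p ≫ toUnit B)]
  exact kanFib_comp hp (kanFib_toUnit hB)

theorem kan_fb {E B : SSet.{0}} {p : E ⟶ B} (hp : KanFib p) (b : B.obj (op ⦋0⦌)) :
    SSet.KanComplex (Fb p b) := by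
  refine kan_of_kanFib_toUnit ?_
  intro n i
  constructor
  intro u v sq
  have := hp n i
  have sq' : CommSq (u ≫ Fb.ι p b) Λ[n + 1, i].ι p (SSet.const b) := ⟨by
    rw [Category.assoc, Fb_ι_p, comp_const, comp_const]⟩
  obtain ⟨l, hl⟩ := exists_fb (p := p) (b := b) sq'.lift sq'.fac_right
  refine ⟨⟨{ l := l, fac_left := ?_, fac_right := toUnit_unique _ _ }⟩⟩
  refine Fb_ext ?_
  rw [Category.assoc, hl, sq'.fac_left]

theorem kan_unit : SSet.KanComplex (𝟙_ SSet.{0}) := by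
  refine kan_of_kanFib_toUnit ?_
  intro n i
  constructor
  intro u v sq
  exact ⟨⟨{ l := v, fac_left := toUnit_unique _ _, fac_right := toUnit_unique _ _ }⟩⟩

/-! ### Lifting of paths, from both ends -/

theorem horn_ι_const₁ : (Λ[1, 1] : (Δ[1] : SSet.{0}).Subcomplex).ι =
    SSet.const (stdSimplex.obj₀Equiv.{0}.symm 1) := by
  ext ⟨m⟩ ⟨s, hs⟩
  induction m using SimplexCategory.rec with | _ m =>
  refine SSet.stdSimplex.ext _ _ fun i => ?_
  have h : s i ≠ 0 := by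
    intro hi
    rw [mem_horn_iff_notMem_range] at hs
    obtain ⟨j, hj, hj'⟩ := hs
    apply hj'
    refine ⟨i, ?_⟩
    rw [hi]
    exact ((fin2 j).resolve_right hj).symm
  exact (fin2 (s i)).resolve_left h

theorem whisk₁ {X : SSet.{0}} : X ◁ (Λ[1, 1] : (Δ[1] : SSet.{0}).Subcomplex).ι =
    fst _ _ ≫ SSet.ι₁ := by
  refine CartesianMonoidalCategory.hom_ext _ _ ?_ ?_
  · rw [whiskerLeft_fst, Category.assoc, ι₁_fst, Category.comp_id]
  · rw [whiskerLeft_snd, Category.assoc, ι₁_snd, horn_ι_const₁, comp_const, comp_const]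

theorem exists_sec₁ {X : SSet.{0}} : ∃ j : X ⟶ X ⊗ (Λ[1, 1] : SSet.{0}), j ≫ fst _ _ = 𝟙 X := by
  refine ⟨lift (𝟙 X) (SSet.const ⟨stdSimplex.obj₀Equiv.{0}.symm 1, ?_⟩), lift_fst _ _⟩
  rw [mem_horn_iff_notMem_range]
  refine ⟨0, by decide, ?_⟩
  rintro ⟨i, hi⟩
  have h0 : (1 : Fin (1 + 1)) = 0 := hi
  exact absurd h0 (by decide)

/-- Relative path lifting, starting from the end `1`. -/
theorem rel_path₁ {X E B : SSet.{0}} (p : E ⟶ B) [Fibration p] (A : X.Subcomplex)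
    (h : X ⊗ Δ[1] ⟶ B) (f : X ⟶ E) (k : (A : SSet.{0}) ⊗ Δ[1] ⟶ E)
    (h1 : f ≫ p = SSet.ι₁ ≫ h) (h2 : k ≫ p = A.ι ▷ _ ≫ h) (h3 : SSet.ι₁ ≫ k = A.ι ≫ f) :
    ∃ h' : X ⊗ Δ[1] ⟶ E, h' ≫ p = h ∧ SSet.ι₁ ≫ h' = f ∧ A.ι ▷ _ ≫ h' = k := by
  have hA : anodyneExtensions (A.unionProd Λ[1, 1]).ι :=
    anodyneExtensions_unionProd_ι A _ (anodyneExtensions.horn_ι 1)
  have hp : (fibrations SSet.{0}) p := (HomotopicalAlgebra.fibration_iff p).1 inferInstance
  have hlp := hA p hp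
  have hpo := Subcomplex.unionProd.isPushout A (Λ[1, 1] : (Δ[1] : SSet.{0}).Subcomplex)
  have w : A.ι ▷ (Λ[1, 1] : SSet.{0}) ≫ fst _ _ ≫ f =
      (A : SSet.{0}) ◁ (Λ[1, 1] : (Δ[1] : SSet.{0}).Subcomplex).ι ≫ k := by
    rw [whisk₁, whiskerRight_fst_assoc, Category.assoc, h3]
  have hsq : CommSq (hpo.desc (fst _ _ ≫ f) k w) (A.unionProd Λ[1, 1]).ι p h := ⟨by
    apply hpo.hom_ext
    · rw [← Category.assoc, hpo.inl_desc, ← Category.assoc, Subcomplex.unionProd.ι₁_ι, whisk₁,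
        Category.assoc, Category.assoc, h1]
    · rw [← Category.assoc, hpo.inr_desc, ← Category.assoc, Subcomplex.unionProd.ι₂_ι, h2]⟩
  refine ⟨hsq.lift, hsq.fac_right, ?_, ?_⟩
  · have h4 : X ◁ (Λ[1, 1] : (Δ[1] : SSet.{0}).Subcomplex).ι ≫ hsq.lift = fst _ _ ≫ f := by
      rw [← Subcomplex.unionProd.ι₁_ι A, Category.assoc, hsq.fac_left, hpo.inl_desc]
    rw [whisk₁, Category.assoc] at h4
    obtain ⟨j, hj⟩ := exists_sec₁ (X := X)
    rw [← cancel_epi (𝟙 X), ← hj, Category.assoc, Category.assoc, h4]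
  · rw [← Subcomplex.unionProd.ι₂_ι A, Category.assoc, hsq.fac_left, hpo.inr_desc]

theorem path_lift₁ {X E B : SSet.{0}} (p : E ⟶ B) [Fibration p] (h : X ⊗ Δ[1] ⟶ B) (f : X ⟶ E)
    (h1 : f ≫ p = SSet.ι₁ ≫ h) :
    ∃ h' : X ⊗ Δ[1] ⟶ E, h' ≫ p = h ∧ SSet.ι₁ ≫ h' = f := by
  obtain ⟨h', a, b, -⟩ := rel_path₁ p (⊥ : X.Subcomplex) h f
    (fst _ _ ≫ Subcomplex.isInitialBot.to E) h1 (by
      ext m ⟨⟨x, hx⟩, _⟩
      exact hx.elim) (Subcomplex.isInitialBot.hom_ext _ _)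
  exact ⟨h', a, b⟩

theorem hom_ext_en {X Y : SSet.{0}} {a b : X ⊗ (∂Δ[1] : SSet.{0}) ⟶ Y}
    (h0 : en X 0 ≫ a = en X 0 ≫ b) (h1 : en X 1 ≫ a = en X 1 ≫ b) : a = b := by
  refine NatTrans.ext (funext fun m => ?_)
  refine ConcreteCategory.hom_ext _ _ fun z => ?_
  have key : ∀ i : Fin (1 + 1), stdSimplex.asOrderHom z.2.1 0 = i → (en X i).app m z.1 = z := by
    intro i hi
    refine Prod.ext rfl ?_
    refine Subtype.ext ?_
    obtain ⟨m⟩ := m
    induction m using SimplexCategory.rec with | _ m =>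
    refine SSet.stdSimplex.ext _ _ fun j => ?_
    have := boundary_const z.2 j 0
    exact (this.trans hi).symm
  rcases fin2 (stdSimplex.asOrderHom z.2.1 0) with h | h
  · have := key 0 h
    rw [← this]
    exact ConcreteCategory.congr_hom (NatTrans.congr_app h0 m) z.1
  · have := key 1 h
    rw [← this]
    exact ConcreteCategory.congr_hom (NatTrans.congr_app h1 m) z.1

theorem en_nat {X Y : SSet.{0}} (f : X ⟶ Y) (i : Fin (1 + 1)) :
    en X i ≫ f ▷ (∂Δ[1] : SSet.{0}) = f ≫ en Y i := rfl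

/-- Relative path lifting with both ends fixed. -/
theorem rel_path_two {X E B : SSet.{0}} (p : E ⟶ B) [Fibration p] (A : X.Subcomplex)
    (hA : anodyneExtensions A.ι) (h : X ⊗ Δ[1] ⟶ B) (f₀ f₁ : X ⟶ E)
    (k : (A : SSet.{0}) ⊗ Δ[1] ⟶ E) (h0 : f₀ ≫ p = SSet.ι₀ ≫ h) (h1 : f₁ ≫ p = SSet.ι₁ ≫ h)
    (hk : k ≫ p = A.ι ▷ _ ≫ h) (k0 : SSet.ι₀ ≫ k = A.ι ≫ f₀) (k1 : SSet.ι₁ ≫ k = A.ι ≫ f₁) :
    ∃ h' : X ⊗ Δ[1] ⟶ E, h' ≫ p = h ∧ SSet.ι₀ ≫ h' = f₀ ∧ SSet.ι₁ ≫ h' = f₁ ∧
      A.ι ▷ _ ≫ h' = k := by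
  have hU : anodyneExtensions (A.unionProd ∂Δ[1]).ι := anodyneExtensions_unionProd_ι' A _ hA
  have hp : (fibrations SSet.{0}) p := (HomotopicalAlgebra.fibration_iff p).1 inferInstance
  have hlp := hU p hp
  have hpo := Subcomplex.unionProd.isPushout A (∂Δ[1] : (Δ[1] : SSet.{0}).Subcomplex)
  have w : A.ι ▷ (∂Δ[1] : SSet.{0}) ≫ two f₀ f₁ =
      (A : SSet.{0}) ◁ (∂Δ[1] : (Δ[1] : SSet.{0}).Subcomplex).ι ≫ k := by
    refine hom_ext_en ?_ ?_
    · rw [← Category.assoc, en_nat, Category.assoc, en_zero_two, ← Category.assoc, en_zero, k0]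
    · rw [← Category.assoc, en_nat, Category.assoc, en_one_two, ← Category.assoc, en_one, k1]
  have hsq : CommSq (hpo.desc (two f₀ f₁) k w) (A.unionProd ∂Δ[1]).ι p h := ⟨by
    apply hpo.hom_ext
    · rw [← Category.assoc, hpo.inl_desc, ← Category.assoc, Subcomplex.unionProd.ι₁_ι]
      refine hom_ext_en ?_ ?_
      · rw [← Category.assoc, en_zero_two, ← Category.assoc, en_zero, h0]
      · rw [← Category.assoc, en_one_two, ← Category.assoc, en_one, h1]
    · rw [← Category.assoc, hpo.inr_desc, ← Category.assoc, Subcomplex.unionProd.ι₂_ι, hk]⟩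
  have h4 : X ◁ (∂Δ[1] : (Δ[1] : SSet.{0}).Subcomplex).ι ≫ hsq.lift = two f₀ f₁ := by
    rw [← Subcomplex.unionProd.ι₁_ι A, Category.assoc, hsq.fac_left, hpo.inl_desc]
  refine ⟨hsq.lift, hsq.fac_right, ?_, ?_, ?_⟩
  · rw [← en_zero, Category.assoc, h4, en_zero_two]
  · rw [← en_one, Category.assoc, h4, en_one_two]
  · rw [← Subcomplex.unionProd.ι₂_ι A, Category.assoc, hsq.fac_left, hpo.inr_desc]

/-! ### The extension property over a given map of the base -/

/-- Every partial lift of `v` on `A` extends to a lift of `v`. -/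
def Ex {X E B : SSet.{0}} (p : E ⟶ B) (A : X.Subcomplex) (v : X ⟶ B) : Prop :=
  ∀ u : (A : SSet.{0}) ⟶ E, u ≫ p = A.ι ≫ v → ∃ f : X ⟶ E, A.ι ≫ f = u ∧ f ≫ p = v

theorem Ex.htpy {X E B : SSet.{0}} {p : E ⟶ B} (hp : KanFib p) (A : X.Subcomplex)
    (h : X ⊗ Δ[1] ⟶ B) (h0 : Ex p A (SSet.ι₀ ≫ h)) : Ex p A (SSet.ι₁ ≫ h) := by
  have := fibration_of_kanFib hp
  intro u hu
  obtain ⟨k, hk, hk1⟩ := path_lift₁ p (A.ι ▷ Δ[1] ≫ h) u (by
    rw [hu, ι₁_comp_assoc])
  obtain ⟨f, hf, hfp⟩ := h0 (SSet.ι₀ ≫ k) (by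
    rw [Category.assoc, hk, ι₀_comp_assoc])
  obtain ⟨h', hp', h0', hA'⟩ := rel_path p A h f k hfp hk hf.symm
  refine ⟨SSet.ι₁ ≫ h', ?_, ?_⟩
  · rw [← ι₁_comp_assoc, hA', hk1]
  · rw [Category.assoc, hp']

theorem lift_of_ex {X E B : SSet.{0}} {p : E ⟶ B} (A : X.Subcomplex)
    (h : ∀ v : X ⟶ B, Ex p A v) : HasLiftingProperty A.ι p := by
  constructor
  intro u v sq
  obtain ⟨f, hf, hfp⟩ := h v u sq.w
  exact ⟨⟨{ l := f, fac_left := hf, fac_right := hfp }⟩⟩

/-- The fibre of `p` over `b` is contractible, in terms of extensions. -/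
def Ctr {E B : SSet.{0}} (p : E ⟶ B) (b : B.obj (op ⦋0⦌)) : Prop :=
  ∀ n : ℕ, Ex p (∂Δ[n] : (Δ[n] : SSet.{0}).Subcomplex) (SSet.const b)

theorem ctr_of_hoEq {E B : SSet.{0}} {p : E ⟶ B} (hp : KanFib p) (b : B.obj (op ⦋0⦌))
    (h : HoEq (toUnit (Fb p b))) : Ctr p b := by
  intro n u hu
  have hT : TrivFib (toUnit (Fb p b)) :=
    trivFib_of_hoEq (kan_fb hp b) kan_unit (kanFib_toUnit (kan_fb hp b)) h
  obtain ⟨u', hu'⟩ := exists_fb (p := p) (b := b) u (by rw [hu, comp_const])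
  have := hT n
  have sq : CommSq u' ∂Δ[n].ι (toUnit (Fb p b)) (toUnit _) := ⟨toUnit_unique _ _⟩
  refine ⟨sq.lift ≫ Fb.ι p b, ?_, ?_⟩
  · rw [← Category.assoc, sq.fac_left, hu']
  · rw [Category.assoc, Fb_ι_p, comp_const]

theorem const_inj₀ {B : SSet.{0}} {x y : B.obj (op ⦋0⦌)}
    (h : (SSet.const x : (Δ[0] : SSet.{0}) ⟶ B) = SSet.const y) : x = y := by
  have := congrArg yonedaEquiv h
  rwa [yonedaEquiv_const, yonedaEquiv_const] at this

theorem exists_path_of_cn {X B : SSet.{0}} {b b' : B.obj (op ⦋0⦌)} (h : Cn B b b') :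
    ∃ h : X ⊗ Δ[1] ⟶ B, SSet.ι₀ ≫ h = SSet.const b ∧ SSet.ι₁ ≫ h = SSet.const b' := by
  obtain ⟨e, rfl, rfl⟩ := h
  refine ⟨snd _ _ ≫ yonedaEquiv.symm e, ?_, ?_⟩
  · rw [← Category.assoc, ι₀_snd, const_comp]
    congr 1
    refine const_inj₀ ?_
    rw [← const_comp, ← stdSimplex.δ_one_eq_const]
    refine yonedaEquiv.injective ?_
    rw [yonedaEquiv_const]
    erw [stdSimplex.yonedaEquiv_δ_comp]
  · rw [← Category.assoc, ι₁_snd, const_comp]
    congr 1
    refine const_inj₀ ?_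
    rw [← const_comp, ← stdSimplex.δ_zero_eq_const]
    refine yonedaEquiv.injective ?_
    rw [yonedaEquiv_const]
    erw [stdSimplex.yonedaEquiv_δ_comp]

theorem Ctr.of_cn {E B : SSet.{0}} {p : E ⟶ B} (hp : KanFib p) {b b' : B.obj (op ⦋0⦌)}
    (h : Cn B b b') (hb : Ctr p b) : Ctr p b' := by
  intro n
  obtain ⟨H, h0, h1⟩ := exists_path_of_cn (X := Δ[n]) h
  rw [← h1]
  refine Ex.htpy hp _ H ?_
  rw [h0]
  exact hb n

/-! ### The contraction of the simplex to its first vertex -/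

/-- the contraction -/
noncomputable def contr (n : ℕ) : (Δ[n] : SSet.{0}) ⊗ Δ[1] ⟶ Δ[n] where
  app m := ↾ fun z => stdSimplex.objMk ⟨fun i =>
    if stdSimplex.asOrderHom z.2 i = 0 then 0 else stdSimplex.asOrderHom z.1 i, by
      intro i j hij
      dsimp only
      split_ifs with h1 h2 h2
      · exact le_rfl
      · exact Fin.zero_le _
      · exact absurd (le_antisymm ((stdSimplex.asOrderHom z.2).monotone hij |>.trans_eq h2)
          (Fin.zero_le _)) h1
      · exact (stdSimplex.asOrderHom z.1).monotone hij⟩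
  naturality m m' α := by
    refine ConcreteCategory.hom_ext _ _ fun z => ?_
    obtain ⟨m⟩ := m
    obtain ⟨m'⟩ := m'
    induction m using SimplexCategory.rec with | _ m =>
    induction m' using SimplexCategory.rec with | _ m' =>
    refine SSet.stdSimplex.ext _ _ fun j => ?_
    rfl

theorem contr_one (n : ℕ) : SSet.ι₁ ≫ contr n = 𝟙 _ := by
  refine NatTrans.ext (funext fun m => ?_)
  refine ConcreteCategory.hom_ext _ _ fun z => ?_
  obtain ⟨m⟩ := m
  induction m using SimplexCategory.rec with | _ m =>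
  refine SSet.stdSimplex.ext _ _ fun j => ?_
  rfl

theorem contr_zero (n : ℕ) : SSet.ι₀ ≫ contr n = SSet.const (stdSimplex.obj₀Equiv.{0}.symm 0) := by
  refine NatTrans.ext (funext fun m => ?_)
  refine ConcreteCategory.hom_ext _ _ fun z => ?_
  obtain ⟨m⟩ := m
  induction m using SimplexCategory.rec with | _ m =>
  refine SSet.stdSimplex.ext _ _ fun j => ?_
  rfl

theorem trivFib_of_ctr {E B : SSet.{0}} {p : E ⟶ B} (hp : KanFib p)
    (h : ∀ b, Ctr p b) : TrivFib p := by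
  intro n
  refine lift_of_ex _ fun v => ?_
  have h1 : v = SSet.ι₁ ≫ contr n ≫ v := by
    rw [← Category.assoc, contr_one, Category.id_comp]
  rw [h1]
  refine Ex.htpy hp _ _ ?_
  rw [← Category.assoc, contr_zero, const_comp]
  exact h _ n

theorem trivFib_of_ctr' {E B : SSet.{0}} {p : E ⟶ B} (hp : KanFib p)
    (O : Set (B.obj (op ⦋0⦌))) (hO : ∀ b, ∃ b' ∈ O, Cn B b' b)
    (h : ∀ b ∈ O, Ctr p b) : TrivFib p := by
  refine trivFib_of_ctr hp fun b => ?_
  obtain ⟨b', hb', hc⟩ := hO b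
  exact Ctr.of_cn hp hc (h b' hb')

theorem trivFib_of_fibres {E B : SSet.{0}} {p : E ⟶ B} (hp : KanFib p)
    (O : Set (B.obj (op (SimplexCategory.mk 0))))
    (hO : ∀ b, ∃ b' ∈ O, Cn B b' b)
    (h : ∀ b ∈ O, HoEq (CartesianMonoidalCategory.toUnit (Fb p b))) : TrivFib p :=
  trivFib_of_ctr' hp O hO fun b hb => ctr_of_hoEq hp b (h b hb)

end Pool.Agent.Helper54.FL2
end

/- Helper54.FL2.FibB -/
section
/-!
# Project FL2, module G5 (FIB), part B: mapping path fibrations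
-/

open CategoryTheory MonoidalCategory CartesianMonoidalCategory Simplicial Opposite
  HomotopicalAlgebra Limits

set_option autoImplicit false

namespace Pool.Agent.Helper54.FL2

open _root_.FL SSet SSet.modelCategoryQuillen Pool.Agent.Helper45.FL2

/-! ### Path objects -/

/-- the path object -/
noncomputable def PP (Y : SSet.{0}) : SSet.{0} := (ihom (Δ[1] : SSet.{0})).obj Y

/-- evaluation of paths -/
noncomputable def pev (Y : SSet.{0}) : PP Y ⊗ Δ[1] ⟶ Y :=
  (β_ (PP Y) (Δ[1] : SSet.{0})).hom ≫ (ihom.ev (Δ[1] : SSet.{0})).app Y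

/-- the map to the path object given by a homotopy -/
noncomputable def pth {K Y : SSet.{0}} (h : K ⊗ Δ[1] ⟶ Y) : K ⟶ PP Y :=
  MonoidalClosed.curry ((β_ (Δ[1] : SSet.{0}) K).hom ≫ h)

theorem br_ev {K Y : SSet.{0}} (φ : K ⟶ (ihom (Δ[1] : SSet.{0})).obj Y) :
    φ ▷ Δ[1] ≫ (β_ _ (Δ[1] : SSet.{0})).hom ≫ (ihom.ev (Δ[1] : SSet.{0})).app Y =
      (β_ K (Δ[1] : SSet.{0})).hom ≫ MonoidalClosed.uncurry φ := by
  rw [← Category.assoc, BraidedCategory.braiding_naturality_left, Category.assoc,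
    ← MonoidalClosed.uncurry_eq]

theorem pth_ev {K Y : SSet.{0}} (h : K ⊗ Δ[1] ⟶ Y) : pth h ▷ Δ[1] ≫ pev Y = h := by
  have h1 : MonoidalClosed.uncurry (MonoidalClosed.curry ((β_ (Δ[1] : SSet.{0}) K).hom ≫ h)) =
    (β_ (Δ[1] : SSet.{0}) K).hom ≫ h := MonoidalClosed.uncurry_curry _
  refine (br_ev _).trans ((congrArg ((β_ K (Δ[1] : SSet.{0})).hom ≫ ·) h1).trans ?_)
  rw [← Category.assoc, SymmetricCategory.symmetry, Category.id_comp]

theorem pth_ext {K Y : SSet.{0}} {a b : K ⟶ PP Y} (h : a ▷ Δ[1] ≫ pev Y = b ▷ Δ[1] ≫ pev Y) :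
    a = b := by
  have h' := (br_ev a).symm.trans (h.trans (br_ev b))
  exact MonoidalClosed.uncurry_injective ((cancel_epi _).1 h')

/-- the start of a path -/
noncomputable def e₀ (Y : SSet.{0}) : PP Y ⟶ Y := SSet.ι₀ ≫ pev Y

/-- the end of a path -/
noncomputable def e₁ (Y : SSet.{0}) : PP Y ⟶ Y := SSet.ι₁ ≫ pev Y

theorem comp_e₀ {K Y : SSet.{0}} (a : K ⟶ PP Y) : a ≫ e₀ Y = SSet.ι₀ ≫ a ▷ Δ[1] ≫ pev Y := by
  rw [e₀, ι₀_comp_assoc]

theorem comp_e₁ {K Y : SSet.{0}} (a : K ⟶ PP Y) : a ≫ e₁ Y = SSet.ι₁ ≫ a ▷ Δ[1] ≫ pev Y := by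
  rw [e₁, ι₁_comp_assoc]

theorem e₀_trivFib {Y : SSet.{0}} (hY : SSet.KanComplex Y) : TrivFib (e₀ Y) := by
  intro n
  constructor
  intro u v sq
  have := fibration_of_kanFib (kanFib_toUnit hY)
  obtain ⟨h', -, h1, h2⟩ := rel_path (toUnit Y) (∂Δ[n] : (Δ[n] : SSet.{0}).Subcomplex)
    (toUnit _) v (u ▷ Δ[1] ≫ pev Y) (toUnit_unique _ _) (toUnit_unique _ _) (by
      rw [← comp_e₀, sq.w])
  refine ⟨⟨{ l := pth h', fac_left := ?_, fac_right := ?_ }⟩⟩
  · refine pth_ext ?_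
    rw [comp_whiskerRight, Category.assoc, pth_ev, h2]
  · rw [comp_e₀, pth_ev, h1]

/-! ### Mapping path spaces -/

section MP

variable {X Y K : SSet.{0}} (f : X ⟶ Y)

/-- the mapping path space -/
noncomputable def MP : SSet.{0} := Fp f (e₀ Y)

/-- the retraction -/
noncomputable def mr : MP f ⟶ X := Fp.fst f (e₀ Y)

/-- the universal path -/
noncomputable def mpath : MP f ⊗ Δ[1] ⟶ Y := Fp.snd f (e₀ Y) ▷ Δ[1] ≫ pev Y

/-- the end point -/
noncomputable def mq : MP f ⟶ Y := SSet.ι₁ ≫ mpath f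

theorem ι₀_mpath : SSet.ι₀ ≫ mpath f = mr f ≫ f := by
  refine (ι₀_comp_assoc (Fp.snd f (e₀ Y)) (pev Y)).trans ?_
  exact (Fp_w f (e₀ Y)).symm

variable {f}

/-- maps to the mapping path space -/
noncomputable def mpl (x : K ⟶ X) (h : K ⊗ Δ[1] ⟶ Y) (w : x ≫ f = SSet.ι₀ ≫ h) : K ⟶ MP f :=
  Fp.lift x (pth h) (by rw [comp_e₀, pth_ev, w])

theorem mpl_mr (x : K ⟶ X) (h : K ⊗ Δ[1] ⟶ Y) (w : x ≫ f = SSet.ι₀ ≫ h) :
    mpl x h w ≫ mr f = x := rfl

theorem mpl_mpath (x : K ⟶ X) (h : K ⊗ Δ[1] ⟶ Y) (w : x ≫ f = SSet.ι₀ ≫ h) :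
    mpl x h w ▷ Δ[1] ≫ mpath f = h := pth_ev h

theorem mpl_mq (x : K ⟶ X) (h : K ⊗ Δ[1] ⟶ Y) (w : x ≫ f = SSet.ι₀ ≫ h) :
    mpl x h w ≫ mq f = SSet.ι₁ ≫ h := by
  rw [mq, ← ι₁_comp_assoc, mpl_mpath]

theorem comp_mq (a : K ⟶ MP f) : a ≫ mq f = SSet.ι₁ ≫ a ▷ Δ[1] ≫ mpath f := by
  rw [mq, ι₁_comp_assoc]

theorem comp_mr (a : K ⟶ MP f) : a ≫ mr f ≫ f = SSet.ι₀ ≫ a ▷ Δ[1] ≫ mpath f := by
  rw [ι₀_comp_assoc, ι₀_mpath]

theorem mp_ext {a b : K ⟶ MP f} (h1 : a ≫ mr f = b ≫ mr f)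
    (h2 : a ▷ Δ[1] ≫ mpath f = b ▷ Δ[1] ≫ mpath f) : a = b := by
  exact Fp_ext h1 (pth_ext h2)

variable (f)

/-- the section -/
noncomputable def ms : X ⟶ MP f := mpl (𝟙 X) (fst _ _ ≫ f) (by rw [ι₀_fst_assoc, Category.id_comp])

theorem ms_mr : ms f ≫ mr f = 𝟙 X := rfl

theorem ms_mq : ms f ≫ mq f = f := by
  rw [ms, mpl_mq, ι₁_fst_assoc]

theorem ms_mpath : ms f ▷ Δ[1] ≫ mpath f = fst _ _ ≫ f := mpl_mpath _ _ _

variable {f}

theorem mr_trivFib (hY : SSet.KanComplex Y) : TrivFib (mr f) :=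
  Fp_fst_trivFib f (e₀ Y) (e₀_trivFib hY)

theorem kan_mp (hX : SSet.KanComplex X) (hY : SSet.KanComplex Y) : SSet.KanComplex (MP f) :=
  kan_total (TrivFib.kanFib (mr_trivFib (f := f) hY)) hX

theorem mq_kanFib (hX : SSet.KanComplex X) (hY : SSet.KanComplex Y) : KanFib (mq f) := by
  intro n i
  constructor
  intro u v sq
  obtain ⟨x, hx⟩ := KanComplex.hornFilling (u ≫ mr f)
  have := fibration_of_kanFib (kanFib_toUnit hY)
  obtain ⟨h', -, h0, h1, h2⟩ := rel_path_two (toUnit Y) (Λ[n + 1, i] : (Δ[n + 1] : SSet.{0}).Subcomplex)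
    (anodyneExtensions.horn_ι i) (toUnit _) (x ≫ f) v (u ▷ Δ[1] ≫ mpath f)
    (toUnit_unique _ _) (toUnit_unique _ _) (toUnit_unique _ _)
    (by rw [← comp_mr, ← Category.assoc, hx, Category.assoc]) (by rw [← comp_mq, sq.w])
  refine ⟨⟨{ l := mpl x h' h0.symm, fac_left := ?_, fac_right := ?_ }⟩⟩
  · refine mp_ext ?_ ?_
    · rw [Category.assoc, mpl_mr, hx]
    · rw [comp_whiskerRight, Category.assoc, mpl_mpath, h2]
  · rw [mpl_mq, h1]

theorem ms_hoEq (hX : SSet.KanComplex X) (hY : SSet.KanComplex Y) : HoEq (ms f) := by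
  refine Pool.Agent.Helper88.FL.hoEq_of_comp_right hX (kan_mp hX hY) hX
    (TrivFib.hoEq (mr_trivFib (f := f) hY)) ?_
  rw [ms_mr]
  exact Pool.Agent.Helper88.FL.hoEq_of_isIso _

theorem mq_trivFib_of_hoEq (hX : SSet.KanComplex X) (hY : SSet.KanComplex Y) (h : HoEq f) :
    TrivFib (mq f) := by
  refine trivFib_of_hoEq (kan_mp hX hY) hY (mq_kanFib hX hY) ?_
  refine Pool.Agent.Helper88.FL.hoEq_of_comp_left hX (kan_mp hX hY) hY (ms_hoEq hX hY) ?_
  rw [ms_mq]
  exact h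

theorem hoEq_of_mq (hX : SSet.KanComplex X) (hY : SSet.KanComplex Y) (h : HoEq (mq f)) :
    HoEq f := by
  have := Pool.Agent.Helper88.FL.hoEq_comp hX (kan_mp hX hY) hY (ms_hoEq (f := f) hX hY) h
  rwa [ms_mq] at this

end MP

/-! ### The comparison map -/

section Theta

variable {E B E' B' : SSet.{0}} {p : E ⟶ B} {p' : E' ⟶ B'} {f : E ⟶ E'} {g : B ⟶ B'}

/-- the map of mapping path spaces -/
noncomputable def mmap (w : f ≫ p' = p ≫ g) : MP f ⟶ MP g :=
  mpl (mr f ≫ p) (mpath f ≫ p') (by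
    rw [Category.assoc, ← w, ← Category.assoc, ← ι₀_mpath, Category.assoc])

theorem mmap_mr (w : f ≫ p' = p ≫ g) : mmap w ≫ mr g = mr f ≫ p := rfl

theorem mmap_mpath (w : f ≫ p' = p ≫ g) : mmap w ▷ Δ[1] ≫ mpath g = mpath f ≫ p' :=
  mpl_mpath _ _ _

theorem mmap_mq (w : f ≫ p' = p ≫ g) : mmap w ≫ mq g = mq f ≫ p' := by
  rw [mmap, mpl_mq, ← Category.assoc]
  rfl

/-- the comparison map -/
noncomputable def Th (w : f ≫ p' = p ≫ g) : MP f ⟶ Fp (mq g) p' :=
  Fp.lift (mmap w) (mq f) (mmap_mq w)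

theorem Th_fst (w : f ≫ p' = p ≫ g) : Th w ≫ Fp.fst (mq g) p' = mmap w := rfl

theorem Th_snd (w : f ≫ p' = p ≫ g) : Th w ≫ Fp.snd (mq g) p' = mq f := rfl

theorem Th_kanFib (w : f ≫ p' = p ≫ g) (hp : KanFib p) (hp' : KanFib p') : KanFib (Th w) := by
  intro n i
  constructor
  intro u v sq
  have hpi := hp n i
  have := fibration_of_kanFib hp'
  have w1 : u ≫ mmap w = Λ[n + 1, i].ι ≫ v ≫ Fp.fst (mq g) p' := by
    rw [← Th_fst w, ← Category.assoc, sq.w, Category.assoc]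
  have w2 : u ≫ mq f = Λ[n + 1, i].ι ≫ v ≫ Fp.snd (mq g) p' := by
    rw [← Th_snd w, ← Category.assoc, sq.w, Category.assoc]
  have sq1 : CommSq (u ≫ mr f) Λ[n + 1, i].ι p (v ≫ Fp.fst (mq g) p' ≫ mr g) := ⟨by
    rw [Category.assoc, ← mmap_mr w, ← Category.assoc, w1]
    simp only [Category.assoc]⟩
  obtain ⟨h', hp1, h0, h1, h2⟩ := rel_path_two p' (Λ[n + 1, i] : (Δ[n + 1] : SSet.{0}).Subcomplex)
    (anodyneExtensions.horn_ι i) ((v ≫ Fp.fst (mq g) p') ▷ Δ[1] ≫ mpath g) (sq1.lift ≫ f)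
    (v ≫ Fp.snd (mq g) p') (u ▷ Δ[1] ≫ mpath f)
    (by
      rw [Category.assoc, w, ← Category.assoc, sq1.fac_right, ← comp_mr]
      simp only [Category.assoc])
    (by rw [← comp_mq, Category.assoc, Category.assoc, Fp_w])
    (by
      rw [Category.assoc, ← mmap_mpath w, ← Category.assoc, ← comp_whiskerRight, w1,
        comp_whiskerRight, Category.assoc])
    (by rw [← comp_mr, ← Category.assoc, ← Category.assoc, sq1.fac_left])
    (by rw [← comp_mq, w2])
  refine ⟨⟨{ l := mpl sq1.lift h' h0.symm, fac_left := ?_, fac_right := ?_ }⟩⟩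
  · refine mp_ext ?_ ?_
    · rw [Category.assoc, mpl_mr, sq1.fac_left]
    · rw [comp_whiskerRight, Category.assoc, mpl_mpath, h2]
  · refine Fp_ext (mp_ext ?_ ?_) ?_
    · rw [Category.assoc, Category.assoc, ← Category.assoc (Th w), Th_fst, mmap_mr,
        ← Category.assoc, mpl_mr, sq1.fac_right, Category.assoc]
    · rw [Category.assoc, Th_fst, comp_whiskerRight, Category.assoc, mmap_mpath,
        ← Category.assoc, mpl_mpath, hp1]
    · rw [Category.assoc, Th_snd, mpl_mq, h1]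

theorem kan_Q (hB : SSet.KanComplex B) (hB' : SSet.KanComplex B')
    (hp' : KanFib p') : SSet.KanComplex (Fp (mq g) p') :=
  kan_total (Fp_fst_kanFib (mq g) p' hp') (kan_mp hB hB')

theorem Th_trivFib (w : f ≫ p' = p ≫ g) (hp : KanFib p) (hp' : KanFib p')
    (hB : SSet.KanComplex B) (hB' : SSet.KanComplex B') (hf : HoEq f) (hg : HoEq g) :
    TrivFib (Th w) := by
  have hE := kan_total hp hB
  have hE' := kan_total hp' hB'
  refine trivFib_of_hoEq (kan_mp hE hE') (kan_Q hB hB' hp') (Th_kanFib w hp hp') ?_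
  refine Pool.Agent.Helper88.FL.hoEq_of_comp_right (g := Fp.snd (mq g) p') (kan_mp hE hE')
    (kan_Q hB hB' hp') hE'
    (TrivFib.hoEq (Fp_snd_trivFib (mq g) p' (mq_trivFib_of_hoEq hB hB' hg))) ?_
  rw [Th_snd]
  exact TrivFib.hoEq (mq_trivFib_of_hoEq hE hE' hf)

end Theta

end Pool.Agent.Helper54.FL2
end

/- Helper54.FL2.Fib -/
section
/-!
# Project FL2, module G5 (FIB): maps of Kan fibrations
-/

open CategoryTheory MonoidalCategory CartesianMonoidalCategory Simplicial Opposite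
  HomotopicalAlgebra Limits

set_option autoImplicit false

namespace Pool.Agent.Helper54.FL2

open _root_.FL SSet SSet.modelCategoryQuillen Pool.Agent.Helper45.FL2

/-! ### Edges -/

theorem cn_of_path {B : SSet.{0}} {b b' : B.obj (op ⦋0⦌)} (h : (Δ[0] : SSet.{0}) ⊗ Δ[1] ⟶ B)
    (h0 : SSet.ι₀ ≫ h = SSet.const b) (h1 : SSet.ι₁ ≫ h = SSet.const b') : Cn B b b' := by
  let pt : (Δ[0] : SSet.{0}).obj (op ⦋1⦌) := stdSimplex.const 0 0 _
  let pt0 : (Δ[0] : SSet.{0}).obj (op ⦋0⦌) := stdSimplex.const 0 0 _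
  let ed : (Δ[1] : SSet.{0}).obj (op ⦋1⦌) := stdSimplex.objEquiv.symm (𝟙 _)
  refine ⟨h.app _ (pt, ed), ?_, ?_⟩
  · have e1 := sset_nat h (SimplexCategory.δ 1).op (pt, ed)
    have e2 := ConcreteCategory.congr_hom (NatTrans.congr_app h0 (op ⦋0⦌)) pt0
    refine e1.symm.trans (Eq.trans ?_ (e2.trans (cst_zero B b)))
    refine congrArg (h.app _) (Prod.ext rfl ?_)
    refine SSet.stdSimplex.ext _ _ fun j => ?_
    obtain rfl : j = 0 := Subsingleton.elim (α := Fin 1) _ _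
    rfl
  · have e1 := sset_nat h (SimplexCategory.δ 0).op (pt, ed)
    have e2 := ConcreteCategory.congr_hom (NatTrans.congr_app h1 (op ⦋0⦌)) pt0
    refine e1.symm.trans (Eq.trans ?_ (e2.trans (cst_zero B b')))
    refine congrArg (h.app _) (Prod.ext rfl ?_)
    refine SSet.stdSimplex.ext _ _ fun j => ?_
    obtain rfl : j = 0 := Subsingleton.elim (α := Fin 1) _ _
    rfl

theorem cn_iff {B : SSet.{0}} {b b' : B.obj (op ⦋0⦌)} :
    Cn B b b' ↔ Htpy (SSet.const b : (Δ[0] : SSet.{0}) ⟶ B) (SSet.const b') := by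
  rw [Pool.Agent.Helper88.FL.htpy_iff]
  constructor
  · exact fun h => exists_path_of_cn h
  · rintro ⟨h, h0, h1⟩
    exact cn_of_path h h0 h1

theorem cn_refl {B : SSet.{0}} (b : B.obj (op ⦋0⦌)) : Cn B b b :=
  cn_iff.2 (Pool.Agent.Helper88.FL.htpy_refl _)

theorem cn_trans {B : SSet.{0}} (hB : SSet.KanComplex B) {a b c : B.obj (op ⦋0⦌)}
    (h : Cn B a b) (h' : Cn B b c) : Cn B a c :=
  cn_iff.2 (Pool.Agent.Helper88.FL.htpy_trans hB (cn_iff.1 h) (cn_iff.1 h'))

theorem cn_map {B D : SSet.{0}} (g : B ⟶ D) {b b' : B.obj (op ⦋0⦌)} (h : Cn B b b') :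
    Cn D (g.app _ b) (g.app _ b') := by
  have := Pool.Agent.Helper88.FL.htpy_post (cn_iff.1 h) g
  rw [const_comp, const_comp] at this
  exact cn_iff.2 this

theorem cn_of_trivFib {E B : SSet.{0}} {r : E ⟶ B} (hr : TrivFib r) {x y : E.obj (op ⦋0⦌)}
    (h : r.app _ x = r.app _ y) : Cn E x y := by
  have hm := mono_whiskerLeft (Δ[0] : SSet.{0}) (∂Δ[1] : (Δ[1] : SSet.{0}).Subcomplex).ι
  have h2 := TrivFib.lift hr ((Δ[0] : SSet.{0}) ◁ (∂Δ[1] : (Δ[1] : SSet.{0}).Subcomplex).ι)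
  have sq : CommSq (two (SSet.const x : (Δ[0] : SSet.{0}) ⟶ E) (SSet.const y))
      ((Δ[0] : SSet.{0}) ◁ (∂Δ[1] : (Δ[1] : SSet.{0}).Subcomplex).ι) r
      (fst _ _ ≫ SSet.const (r.app _ x)) := ⟨by
    rw [two_comp _ _ r (SSet.const (r.app _ x)) (const_comp _ _) (by rw [const_comp, h]),
      whiskerLeft_fst_assoc]⟩
  refine cn_of_path sq.lift ?_ ?_
  · rw [← en_zero, Category.assoc, sq.fac_left, en_zero_two]
  · rw [← en_one, Category.assoc, sq.fac_left, en_one_two]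

theorem cn_lift {E B : SSet.{0}} {q : E ⟶ B} (hq : KanFib q) {b : B.obj (op ⦋0⦌)}
    {z : E.obj (op ⦋0⦌)} (h : Cn B b (q.app _ z)) : ∃ z', q.app _ z' = b ∧ Cn E z' z := by
  have := fibration_of_kanFib hq
  obtain ⟨H, H0, H1⟩ := exists_path_of_cn (X := Δ[0]) h
  obtain ⟨h', hh, h1⟩ := path_lift₁ q H (SSet.const z) (by rw [H1, const_comp])
  let pt0 : (Δ[0] : SSet.{0}).obj (op ⦋0⦌) := stdSimplex.const 0 0 _
  have hc : SSet.ι₀ ≫ h' = SSet.const ((SSet.ι₀ ≫ h').app _ pt0) := by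
    refine yonedaEquiv.injective ?_
    rw [yonedaEquiv_const]
    have : (stdSimplex.objEquiv.symm (𝟙 _) : (Δ[0] : SSet.{0}).obj (op ⦋0⦌)) = pt0 :=
      SSet.stdSimplex.ext _ _ fun j => by
        obtain rfl : j = 0 := Subsingleton.elim (α := Fin 1) _ _
        rfl
    change (SSet.ι₀ ≫ h').app _ (stdSimplex.objEquiv.symm (𝟙 _)) = _
    rw [this]
  refine ⟨(SSet.ι₀ ≫ h').app _ pt0, ?_, cn_of_path h' hc h1⟩
  refine const_inj₀ ?_
  rw [← const_comp, ← hc, Category.assoc, hh, H0]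

/-! ### The fibres of the comparison map -/

section

variable {E B E' B' : SSet.{0}} {p : E ⟶ B} {p' : E' ⟶ B'} {f : E ⟶ E'} {g : B ⟶ B'}

/-- the inclusion of the mapping path space of a fibre -/
noncomputable def JJ (w : f ≫ p' = p ≫ g) (b : B.obj (op ⦋0⦌)) :
    MP (Fb.map f g w b) ⟶ MP f :=
  mpl (mr _ ≫ Fb.ι p b) (mpath _ ≫ Fb.ι p' (g.app _ b)) (by
    rw [Category.assoc, ← Fb_map_ι f g w b, ← Category.assoc, ← ι₀_mpath, Category.assoc])

theorem JJ_mr (w : f ≫ p' = p ≫ g) (b : B.obj (op ⦋0⦌)) :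
    JJ w b ≫ mr f = mr _ ≫ Fb.ι p b := rfl

theorem JJ_mpath (w : f ≫ p' = p ≫ g) (b : B.obj (op ⦋0⦌)) :
    JJ w b ▷ Δ[1] ≫ mpath f = mpath _ ≫ Fb.ι p' (g.app _ b) := mpl_mpath _ _ _

theorem JJ_mq (w : f ≫ p' = p ≫ g) (b : B.obj (op ⦋0⦌)) :
    JJ w b ≫ mq f = mq _ ≫ Fb.ι p' (g.app _ b) := by
  rw [JJ, mpl_mq, ← Category.assoc]
  rfl

theorem ms_const {K : SSet.{0}} (g : B ⟶ B') (b : B.obj (op ⦋0⦌)) :
    (SSet.const ((ms g).app _ b) : K ⟶ MP g) = SSet.const b ≫ ms g := (const_comp _ _).symm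

theorem const_mq {K : SSet.{0}} (g : B ⟶ B') (b : B.obj (op ⦋0⦌)) :
    (SSet.const ((ms g).app _ b) : K ⟶ MP g) ≫ mq g = SSet.const (g.app _ b) := by
  rw [ms_const, Category.assoc, ms_mq, const_comp]

theorem JJ_mmap (w : f ≫ p' = p ≫ g) (b : B.obj (op ⦋0⦌)) :
    JJ w b ≫ mmap w = SSet.const ((ms g).app _ b) := by
  rw [ms_const]
  refine mp_ext ?_ ?_
  · rw [Category.assoc, mmap_mr, ← Category.assoc, JJ_mr, Category.assoc, Fb_ι_p, comp_const,
      Category.assoc, ms_mr, Category.comp_id]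
  · rw [comp_whiskerRight, Category.assoc, mmap_mpath, ← Category.assoc, JJ_mpath,
      Category.assoc, Fb_ι_p, comp_const, comp_whiskerRight, Category.assoc, ms_mpath,
      whiskerRight_fst_assoc, const_comp, comp_const]

/-- A map to `MP f` over the constant path at `b` comes from the mapping path space of the
fibre. -/
theorem exists_JJ (w : f ≫ p' = p ≫ g) (b : B.obj (op ⦋0⦌)) {K : SSet.{0}} (u : K ⟶ MP f)
    (h : u ≫ mmap w = SSet.const ((ms g).app _ b)) :
    ∃ u' : K ⟶ MP (Fb.map f g w b), u' ≫ JJ w b = u := by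
  rw [ms_const] at h
  have h1 : (u ≫ mr f) ≫ p = SSet.const b := by
    have := congrArg (· ≫ mr g) h
    simp only [Category.assoc] at this
    rw [mmap_mr, ms_mr, Category.comp_id] at this
    rw [Category.assoc, this]
  have h2 : (u ▷ Δ[1] ≫ mpath f) ≫ p' = SSet.const (g.app _ b) := by
    have := congrArg (fun t => t ▷ Δ[1] ≫ mpath g) h
    simp only [comp_whiskerRight, Category.assoc] at this
    rw [mmap_mpath, ms_mpath, whiskerRight_fst_assoc, const_comp, comp_const] at this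
    rw [Category.assoc, this]
  obtain ⟨x, hx⟩ := exists_fb _ h1
  obtain ⟨k, hk⟩ := exists_fb _ h2
  have hw : x ≫ Fb.map f g w b = SSet.ι₀ ≫ k := by
    refine Fb_ext ?_
    rw [Category.assoc, Fb_map_ι, ← Category.assoc, hx, Category.assoc, Category.assoc, hk,
      comp_mr]
  refine ⟨mpl x k hw, mp_ext ?_ ?_⟩
  · rw [Category.assoc, JJ_mr, ← Category.assoc, mpl_mr, hx]
  · rw [comp_whiskerRight, Category.assoc, JJ_mpath, ← Category.assoc, mpl_mpath, hk]

theorem mono_JJ (w : f ≫ p' = p ≫ g) (b : B.obj (op ⦋0⦌)) {K : SSet.{0}}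
    {u v : K ⟶ MP (Fb.map f g w b)} (h : u ≫ JJ w b = v ≫ JJ w b) : u = v := by
  refine mp_ext (Fb_ext ?_) (Fb_ext ?_)
  · rw [Category.assoc, Category.assoc, ← JJ_mr, ← Category.assoc, h, Category.assoc]
  · rw [Category.assoc, Category.assoc, ← JJ_mpath, ← Category.assoc, ← comp_whiskerRight, h,
      comp_whiskerRight, Category.assoc]

theorem mq_fb_trivFib (w : f ≫ p' = p ≫ g) (h : TrivFib (Th w)) (b : B.obj (op ⦋0⦌)) :
    TrivFib (mq (Fb.map f g w b)) := by
  intro n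
  constructor
  intro u v sq
  have := h n
  have sq' : CommSq (u ≫ JJ w b) ∂Δ[n].ι (Th w) (Fp.lift (SSet.const ((ms g).app _ b))
      (v ≫ Fb.ι p' (g.app _ b)) (by
        rw [Category.assoc, Fb_ι_p, comp_const, const_mq])) := ⟨by
    refine Fp_ext ?_ ?_
    · rw [Category.assoc, Category.assoc, Th_fst, JJ_mmap, Category.assoc, Fp_lift_fst,
        comp_const, comp_const]
    · rw [Category.assoc, Category.assoc, Th_snd, JJ_mq, Category.assoc, Fp_lift_snd,
        ← Category.assoc, ← Category.assoc, sq.w]⟩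
  have hl := sq'.fac_right
  have hl1 : sq'.lift ≫ mmap w = SSet.const ((ms g).app _ b) := by
    rw [← Th_fst w, ← Category.assoc, hl, Fp_lift_fst]
  obtain ⟨l, hl2⟩ := exists_JJ w b sq'.lift hl1
  refine ⟨⟨{ l := l, fac_left := ?_, fac_right := ?_ }⟩⟩
  · refine mono_JJ w b ?_
    rw [Category.assoc, hl2, sq'.fac_left]
  · refine Fb_ext ?_
    rw [Category.assoc, ← JJ_mq, ← Category.assoc, hl2, ← Th_snd w, ← Category.assoc, hl,
      Fp_lift_snd]

theorem Fb_map_hoEq (hp : KanFib p) (hp' : KanFib p')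
    (hB : SSet.KanComplex B) (hB' : SSet.KanComplex B') (f : E ⟶ E') (g : B ⟶ B')
    (w : f ≫ p' = p ≫ g) (hf : HoEq f) (hg : HoEq g) (b : B.obj (op (SimplexCategory.mk 0))) :
    HoEq (Fb.map f g w b) :=
  hoEq_of_mq (kan_fb hp b) (kan_fb hp' _)
    (TrivFib.hoEq (mq_fb_trivFib w (Th_trivFib w hp hp' hB hB' hf hg) b))

theorem Th_trivFib_of_fibres (hp : KanFib p) (hp' : KanFib p')
    (hB : SSet.KanComplex B) (hB' : SSet.KanComplex B') (w : f ≫ p' = p ≫ g)
    (O : Set (B.obj (op (SimplexCategory.mk 0))))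
    (hO : ∀ b, ∃ b' ∈ O, Cn B b' b) (h : ∀ b ∈ O, HoEq (Fb.map f g w b)) : TrivFib (Th w) := by
  refine trivFib_of_ctr' (Th_kanFib w hp hp')
    {z | ∃ b ∈ O, (Fp.fst (mq g) p').app _ z = (ms g).app _ b} ?_ ?_
  · intro z
    obtain ⟨b', hb', hc⟩ := hO ((mr g).app _ ((Fp.fst (mq g) p').app _ z))
    have h1 : Cn (MP g) ((ms g).app _ b') ((Fp.fst (mq g) p').app _ z) := by
      refine cn_trans (kan_mp hB hB') (cn_map (ms g) hc) ?_
      exact cn_of_trivFib (mr_trivFib (f := g) hB') rfl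
    obtain ⟨z', hz', hcz⟩ := cn_lift (Fp_fst_kanFib (mq g) p' hp') h1
    exact ⟨z', ⟨b', hb', hz'⟩, hcz⟩
  · rintro z ⟨b, hb, hz⟩ n u hu
    have hT : TrivFib (mq (Fb.map f g w b)) :=
      mq_trivFib_of_hoEq (kan_fb hp b) (kan_fb hp' _) (h b hb)
    have hTn := hT n
    have hfst : (SSet.const z : (Δ[n] : SSet.{0}) ⟶ _) ≫ Fp.fst (mq g) p' =
        SSet.const ((ms g).app _ b) := by rw [const_comp, hz]
    have hu1 : u ≫ mmap w = SSet.const ((ms g).app _ b) := by
      rw [← Th_fst w, ← Category.assoc, hu, Category.assoc, hfst, comp_const]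
    obtain ⟨u', hu'⟩ := exists_JJ w b u hu1
    obtain ⟨v', hv'⟩ := exists_fb (p := p') (b := g.app _ b)
      ((SSet.const z : (Δ[n] : SSet.{0}) ⟶ _) ≫ Fp.snd (mq g) p') (by
        rw [Category.assoc, ← Fp_w, ← Category.assoc, hfst, const_mq])
    have sq : CommSq u' ∂Δ[n].ι (mq (Fb.map f g w b)) v' := ⟨by
      refine Fb_ext ?_
      rw [Category.assoc, ← JJ_mq, ← Category.assoc, hu', ← Th_snd w, ← Category.assoc, hu,
        Category.assoc, Category.assoc, hv']⟩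
    refine ⟨sq.lift ≫ JJ w b, ?_, ?_⟩
    · rw [← Category.assoc, sq.fac_left, hu']
    · refine Fp_ext ?_ ?_
      · rw [Category.assoc, Category.assoc, Th_fst, JJ_mmap, comp_const, hfst]
      · rw [Category.assoc, Category.assoc, Th_snd, JJ_mq, ← Category.assoc, sq.fac_right, hv']

theorem hoEq_of_fibres (hp : KanFib p) (hp' : KanFib p')
    (hB : SSet.KanComplex B) (hB' : SSet.KanComplex B') (f : E ⟶ E') (g : B ⟶ B')
    (w : f ≫ p' = p ≫ g) (hg : HoEq g) (O : Set (B.obj (op (SimplexCategory.mk 0))))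
    (hO : ∀ b, ∃ b' ∈ O, Cn B b' b) (h : ∀ b ∈ O, HoEq (Fb.map f g w b)) : HoEq f := by
  have hE := kan_total hp hB
  have hE' := kan_total hp' hB'
  refine hoEq_of_mq hE hE' ?_
  rw [← Th_snd w]
  exact Pool.Agent.Helper88.FL.hoEq_comp (kan_mp hE hE') (kan_Q hB hB' hp') hE'
    (TrivFib.hoEq (Th_trivFib_of_fibres hp hp' hB hB' w O hO h))
    (TrivFib.hoEq (Fp_snd_trivFib (mq g) p' (mq_trivFib_of_hoEq hB hB' hg)))

end

/-! ### Fibre products -/

/-- The fibre of the first projection of a fibre product. -/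
def fbFp {E₁ E₂ B : SSet.{0}} (p : E₁ ⟶ B) (q : E₂ ⟶ B) (x : E₁.obj (op ⦋0⦌))
    (b : B.obj (op ⦋0⦌)) (hb : p.app _ x = b) : Fb q b ≅ Fb (Fp.fst p q) x where
  hom :=
    { app := fun k => ↾ fun z => ⟨⟨(cst E₁ x k, z.1), by rw [app_cst, hb, z.2]⟩, rfl⟩
      naturality := fun k l α => by
        refine ConcreteCategory.hom_ext _ _ fun z => ?_
        refine Subtype.ext (Subtype.ext (Prod.ext ?_ rfl))
        exact (cst_map E₁ x α).symm }
  inv :=
    { app := fun k => ↾ fun z => ⟨z.1.1.2, by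
        have h1 : p.app k z.1.1.1 = q.app k z.1.1.2 := z.1.2
        have h2 : z.1.1.1 = cst E₁ x k := z.2
        rw [← h1, h2, app_cst, hb]⟩
      naturality := fun k l α => rfl }
  hom_inv_id := rfl
  inv_hom_id := by
    refine NatTrans.ext (funext fun k => ?_)
    refine ConcreteCategory.hom_ext _ _ fun z => ?_
    refine Subtype.ext (Subtype.ext (Prod.ext ?_ rfl))
    exact z.2.symm

theorem Fp_map_hoEq {E₁ E₂ B F₁ F₂ D : SSet.{0}} {p : E₁ ⟶ B} {q : E₂ ⟶ B} {r : F₁ ⟶ D}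
    {s : F₂ ⟶ D} (hB : SSet.KanComplex B) (hD : SSet.KanComplex D)
    (hE₁ : SSet.KanComplex E₁) (hF₁ : SSet.KanComplex F₁) (_hE₂ : SSet.KanComplex E₂)
    (_hF₂ : SSet.KanComplex F₂) (hq : KanFib q) (hs : KanFib s)
    (f : E₁ ⟶ F₁) (f' : E₂ ⟶ F₂) (g : B ⟶ D) (h : f ≫ r = p ≫ g) (h' : f' ≫ s = q ≫ g)
    (hf : HoEq f) (hf' : HoEq f') (hg : HoEq g) : HoEq (Fp.map f f' g h h') := by
  refine hoEq_of_fibres (Fp_fst_kanFib p q hq) (Fp_fst_kanFib r s hs) hE₁ hF₁
    (Fp.map f f' g h h') f rfl hf Set.univ (fun b => ⟨b, trivial, cn_refl b⟩) ?_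
  intro x _
  refine Pool.Agent.Helper88.FL.hoEq_of_arrow_iso (fbFp p q x (p.app _ x) rfl)
    (fbFp r s (f.app _ x) (g.app _ (p.app _ x))
      (ConcreteCategory.congr_hom (NatTrans.congr_app h _) x)) ?_
    (Fb_map_hoEq hq hs hB hD f' g h' hf' hg (p.app _ x))
  refine NatTrans.ext (funext fun k => ?_)
  refine ConcreteCategory.hom_ext _ _ fun z => ?_
  refine Subtype.ext (Subtype.ext (Prod.ext ?_ rfl))
  exact (app_cst f x k).symm

end Pool.Agent.Helper54.FL2
end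

/- Helper43.FLU.WLift -/
section
/-!
# Project FLQ: the Bousfield-Kan weight lifts against objectwise trivial fibrations
-/

open CategoryTheory MonoidalCategory Simplicial Opposite

set_option autoImplicit false

namespace Pool.Agent.Helper43.FLU

open FL (HoEq Htpy sset_id sset_comp sset_nat Chain WS W)
open FLQ (SPU)

universe u

lemma yo_app {B : SSet.{u}} {n : ℕ} (b : Δ[n] ⟶ B) (l : SimplexCategory) (α : l ⟶ ⦋n⦌) :
    b.app (op l) (SSet.stdSimplex.objEquiv.symm α) = B.map α.op (SSet.yonedaEquiv b) := by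
  obtain ⟨y, rfl⟩ := SSet.yonedaEquiv.symm.surjective b
  rw [Equiv.apply_symm_apply]
  rfl

/-- The boundary filling property of `p`, elementwise. -/
def BdFill {E B : SSet.{u}} (p : E ⟶ B) (n : ℕ) : Prop :=
  ∀ (e : ∀ (l : SimplexCategory) (α : l ⟶ ⦋n⦌), ¬ Function.Surjective α.toOrderHom →
      E.obj (op l))
    (_ : ∀ (l l' : SimplexCategory) (α : l ⟶ ⦋n⦌) (β : l' ⟶ l)
      (h : ¬ Function.Surjective α.toOrderHom)
      (h' : ¬ Function.Surjective (β ≫ α).toOrderHom), E.map β.op (e l α h) = e l' (β ≫ α) h')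
    (y : B.obj (op ⦋n⦌))
    (_ : ∀ (l : SimplexCategory) (α : l ⟶ ⦋n⦌) (h : ¬ Function.Surjective α.toOrderHom),
      p.app (op l) (e l α h) = B.map α.op y),
    ∃ x : E.obj (op ⦋n⦌), p.app _ x = y ∧
      ∀ (l : SimplexCategory) (α : l ⟶ ⦋n⦌) (h : ¬ Function.Surjective α.toOrderHom),
        E.map α.op x = e l α h

theorem bdFill_of_lift {E B : SSet.{u}} {p : E ⟶ B} {n : ℕ}
    (hp : HasLiftingProperty (∂Δ[n].ι : (∂Δ[n] : SSet.{u}) ⟶ Δ[n]) p) : BdFill p n := by
  intro e he y hy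
  let t : (∂Δ[n] : SSet.{u}) ⟶ E :=
    { app := fun m => ↾ fun (s : (∂Δ[n] : SSet.{u}).obj m) =>
        e m.unop (SSet.stdSimplex.objEquiv s.1) s.2
      naturality := fun m m' γ => by
        ext s
        exact (he m.unop m'.unop (SSet.stdSimplex.objEquiv s.1) γ.unop s.2 _).symm }
  let b : Δ[n] ⟶ B := SSet.yonedaEquiv.symm y
  have sq : CommSq t (∂Δ[n].ι : (∂Δ[n] : SSet.{u}) ⟶ Δ[n]) p b := ⟨by
    ext m s
    exact hy m.unop (SSet.stdSimplex.objEquiv s.1) s.2⟩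
  refine ⟨SSet.yonedaEquiv sq.lift, ?_, ?_⟩
  · have h := congrArg SSet.yonedaEquiv sq.fac_right
    exact h.trans (Equiv.apply_symm_apply _ _)
  · intro l α h
    have h1 := congrArg (fun f : (∂Δ[n] : SSet.{u}) ⟶ E =>
      f.app (op l) ⟨SSet.stdSimplex.objEquiv.symm α, h⟩) sq.fac_left
    exact (yo_app sq.lift l α).symm.trans h1

theorem lift_of_bdFill {E B : SSet.{u}} {p : E ⟶ B} {n : ℕ} (hp : BdFill p n) :
    HasLiftingProperty (∂Δ[n].ι : (∂Δ[n] : SSet.{u}) ⟶ Δ[n]) p := by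
  refine ⟨fun {t b} sq => ?_⟩
  obtain ⟨x, hx1, hx2⟩ := hp
    (fun l α h => t.app (op l) ⟨SSet.stdSimplex.objEquiv.symm α, h⟩)
    (fun l l' α β h h' => (sset_nat t β.op _).symm)
    (SSet.yonedaEquiv b)
    (fun l α h => by
      have h1 := congrArg (fun f : (∂Δ[n] : SSet.{u}) ⟶ B =>
        f.app (op l) ⟨SSet.stdSimplex.objEquiv.symm α, h⟩) sq.w
      exact h1.trans (yo_app b l α))
  refine ⟨⟨⟨SSet.yonedaEquiv.symm x, ?_, ?_⟩⟩⟩
  · ext m s
    exact hx2 m.unop (SSet.stdSimplex.objEquiv s.1) s.2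
  · rw [SSet.yonedaEquiv_symm_comp, hx1, Equiv.symm_apply_apply]

variable {J : Type} [SmallCategory J]

/-- Functoriality of a diagram along the first-vertex maps of a chain. -/
lemma chain_zeroTo_comp {k l m : SimplexCategory} (σ : Chain J k) (α : l ⟶ k) (β : m ⟶ l) :
    σ.zeroTo α ≫ (σ.res α).zeroTo β = σ.zeroTo (β ≫ α) :=
  σ.map_comp _ _ _ _ _

lemma chain_zeroTo_id {k : SimplexCategory} (σ : Chain J k) :
    σ.zeroTo (𝟙 k) = 𝟙 _ := σ.map_id _

/-- A `k`-simplex of the relative nerve of `G`. -/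
structure RN (G : SPU.{u} J) (k : SimplexCategory) : Type u where
  σ : Chain J k
  g : ∀ (l : SimplexCategory) (α : l ⟶ k), (G.obj (op ((σ.res α).obj 0))).obj (op l)
  nat : ∀ {l l' : SimplexCategory} (α : l ⟶ k) (β : l' ⟶ l),
    (G.map ((σ.res α).zeroTo β).op).app (op l') (g l' (β ≫ α)) =
      (G.obj (op ((σ.res α).obj 0))).map β.op (g l α)

lemma RN.ext_of {G : SPU.{u} J} {k : SimplexCategory} {z z' : RN G k} (h : z.σ = z'.σ)
    (h' : HEq z.g z'.g) : z = z' := by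
  cases z
  cases z'
  cases h
  cases h'
  rfl

/-- Restriction. -/
def RN.res {G : SPU.{u} J} {k k' : SimplexCategory} (z : RN G k) (γ : k' ⟶ k) : RN G k' where
  σ := z.σ.res γ
  g l α := z.g l (α ≫ γ)
  nat α β := z.nat (α ≫ γ) β

lemma RN.g_id_comp {G : SPU.{u} J} {k l : SimplexCategory} (z : RN G k) (α : l ⟶ k) :
    z.g l (𝟙 l ≫ α) = z.g l α := eq_of_heq (congr_arg_heq (z.g l) (Category.id_comp α))

lemma RN.g_comp_id {G : SPU.{u} J} {k l : SimplexCategory} (z : RN G k) (α : l ⟶ k) :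
    z.g l (α ≫ 𝟙 k) = z.g l α := eq_of_heq (congr_arg_heq (z.g l) (Category.comp_id α))

lemma RN.res_id {G : SPU.{u} J} {k : SimplexCategory} (z : RN G k) : z.res (𝟙 k) = z := by
  refine RN.ext_of rfl (heq_of_eq ?_)
  funext l α
  exact z.g_comp_id α

/-- The relative nerve. -/
def RNv (G : SPU.{u} J) : SSet.{u} where
  obj k := RN G k.unop
  map α := ↾ fun z => z.res α.unop
  map_id _ := by
    ext z
    exact z.res_id
  map_comp _ _ := rfl

/-- Functoriality. -/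
def RN.mapq {G G' : SPU.{u} J} (q : G ⟶ G') {k : SimplexCategory} (z : RN G k) : RN G' k where
  σ := z.σ
  g l α := (q.app _).app _ (z.g l α)
  nat {l l'} α β := by
    refine (hom_nat q _ _).symm.trans ?_
    refine (congrArg ((q.app _).app (op l')) (z.nat α β)).trans ?_
    exact hom_natk q β.op _

/-- Functoriality. -/
def RNv.mapq {G G' : SPU.{u} J} (q : G ⟶ G') : RNv G ⟶ RNv G' where
  app k := ↾ fun (z : RN G k.unop) => RN.mapq q z
  naturality _ _ _ := rfl

/-- The value at the identity. -/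
def val {G : SPU.{u} J} {k : SimplexCategory} (z : RN G k) (τ : Chain J k) (h : z.σ = τ) :
    (G.obj (op (τ.obj 0))).obj (op k) := by
  subst h
  exact z.g k (𝟙 k)

lemma val_res_self {G : SPU.{u} J} {k l : SimplexCategory} (z : RN G k) (α : l ⟶ k)
    (h : (z.res α).σ = z.σ.res α) : val (z.res α) (z.σ.res α) h = z.g l α :=
  z.g_id_comp α

lemma val_res {G : SPU.{u} J} {k l : SimplexCategory} (z : RN G k) (τ : Chain J k) (h : z.σ = τ)
    (β : l ⟶ k) (h' : (z.res β).σ = τ.res β) :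
    (G.map (τ.zeroTo β).op).app (op l) (val (z.res β) (τ.res β) h') =
      (G.obj (op (τ.obj 0))).map β.op (val z τ h) := by
  subst h
  refine Eq.trans ?_ (z.nat (𝟙 k) β)
  refine congrArg ((G.map (z.σ.zeroTo β).op).app (op l)) ?_
  refine (val_res_self z β h').trans ?_
  exact (z.g_comp_id β).symm

lemma val_mapq {G G' : SPU.{u} J} (q : G ⟶ G') {k : SimplexCategory} (z : RN G k) (τ : Chain J k)
    (h : z.σ = τ) (h' : (z.mapq q).σ = τ) :
    val (z.mapq q) τ h' = (q.app (op (τ.obj 0))).app (op k) (val z τ h) := by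
  subst h
  rfl

lemma RN.ext' {G : SPU.{u} J} {k : SimplexCategory} {z z' : RN G k} (h : z.σ = z'.σ)
    (h' : ∀ (l : SimplexCategory) (α : l ⟶ k) (h1 : (z.res α).σ = z'.σ.res α),
      val (z.res α) (z'.σ.res α) h1 = z'.g l α) : z = z' := by
  obtain ⟨σ, g, n⟩ := z
  obtain ⟨σ', g', n'⟩ := z'
  obtain rfl : σ = σ' := h
  refine RN.ext_of rfl (heq_of_eq ?_)
  funext l α
  exact (RN.g_id_comp (RN.mk σ g n) α).symm.trans (h' l α rfl)

lemma val_congr {G : SPU.{u} J} {k : SimplexCategory} {z z' : RN G k} (hz : z = z') (τ : Chain J k)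
    (h : z.σ = τ) (h' : z'.σ = τ) : val z τ h = val z' τ h' := by
  subst hz
  rfl

lemma RN.ext'' {G : SPU.{u} J} {k : SimplexCategory} {z z' : RN G k} (τ : Chain J k)
    (h : z.σ = τ) (h' : z'.σ = τ)
    (H : ∀ (l : SimplexCategory) (α : l ⟶ k) (h1 : (z.res α).σ = τ.res α)
      (h2 : (z'.res α).σ = τ.res α),
      val (z.res α) (τ.res α) h1 = val (z'.res α) (τ.res α) h2) : z = z' := by
  subst h'
  exact RN.ext' h fun l α h1 => (H l α h1 rfl).trans (val_res_self z' α rfl)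

lemma map_zeroTo_comp (G : SPU.{u} J) {k l m : SimplexCategory} (σ : Chain J k) (α : l ⟶ k)
    (β : m ⟶ l) (o : SimplexCategoryᵒᵖ)
    (x : (G.obj (op ((σ.res (β ≫ α)).obj 0))).obj o) :
    (G.map (σ.zeroTo α).op).app o ((G.map ((σ.res α).zeroTo β).op).app o x) =
      (G.map (σ.zeroTo (β ≫ α)).op).app o x := by
  refine (sp_comp G _ _ x).symm.trans ?_
  exact congrArg (fun f => (G.map (Quiver.Hom.op f)).app o x) (chain_zeroTo_comp σ α β)

lemma map_back (G : SPU.{u} J) {k : SimplexCategory} (σ : Chain J k) (i j : Fin (k.len + 1))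
    (hij : i ≤ j) (hji : j ≤ i) (o : SimplexCategoryᵒᵖ) (x : (G.obj (op (σ.obj j))).obj o) :
    (G.map (σ.map j i hji).op).app o ((G.map (σ.map i j hij).op).app o x) = x := by
  refine (sp_comp G _ _ x).symm.trans ?_
  refine (congrArg (fun f => (G.map (Quiver.Hom.op f)).app o x)
    ((σ.map_comp j i j hji hij).trans (σ.map_id j))).trans ?_
  exact sp_id G x

lemma surj_zero {l k : SimplexCategory} (α : l ⟶ k) (h : Function.Surjective α.toOrderHom) :
    α.toOrderHom 0 ≤ 0 := by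
  obtain ⟨i, hi⟩ := h 0
  rw [← hi]
  exact α.toOrderHom.monotone (Fin.zero_le _)

theorem rn_bdFill {G G' : SPU.{u} J} (q : G ⟶ G') (hq : ∀ j, TrivFib (q.app j)) (n : ℕ) :
    BdFill (RNv.mapq q) n := by
  classical
  intro (e : ∀ (l : SimplexCategory) (α : l ⟶ ⦋n⦌), ¬ Function.Surjective α.toOrderHom → RN G l)
    (he : ∀ (l l' : SimplexCategory) (α : l ⟶ ⦋n⦌) (β : l' ⟶ l)
      (h : ¬ Function.Surjective α.toOrderHom)
      (h' : ¬ Function.Surjective (β ≫ α).toOrderHom), (e l α h).res β = e l' (β ≫ α) h')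
    (z' : RN G' ⦋n⦌)
    (hz' : ∀ (l : SimplexCategory) (α : l ⟶ ⦋n⦌) (h : ¬ Function.Surjective α.toOrderHom),
      (e l α h).mapq q = z'.res α)
  have hσ : ∀ (l : SimplexCategory) (α : l ⟶ ⦋n⦌) (h : ¬ Function.Surjective α.toOrderHom),
      (e l α h).σ = z'.σ.res α := fun l α h => congrArg RN.σ (hz' l α h)
  let v : ∀ (l : SimplexCategory) (α : l ⟶ ⦋n⦌), ¬ Function.Surjective α.toOrderHom →
      (G.obj (op ((z'.σ.res α).obj 0))).obj (op l) :=
    fun l α h => val (e l α h) (z'.σ.res α) (hσ l α h)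
  have hcomp : ∀ {l l' : SimplexCategory} (α : l ⟶ ⦋n⦌) (β : l' ⟶ l),
      ¬ Function.Surjective α.toOrderHom → ¬ Function.Surjective (β ≫ α).toOrderHom := by
    intro l l' α β h h'
    exact h (Function.Surjective.of_comp (g := β.toOrderHom) h')
  have hv_nat : ∀ {l l' : SimplexCategory} (α : l ⟶ ⦋n⦌) (β : l' ⟶ l)
      (h : ¬ Function.Surjective α.toOrderHom) (h' : ¬ Function.Surjective (β ≫ α).toOrderHom),
      (G.map ((z'.σ.res α).zeroTo β).op).app (op l') (v l' (β ≫ α) h') =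
        (G.obj (op ((z'.σ.res α).obj 0))).map β.op (v l α h) := by
    intro l l' α β h h'
    have h1 : ((e l α h).res β).σ = (z'.σ.res α).res β := congrArg (Chain.res · β) (hσ l α h)
    refine Eq.trans ?_ (val_res (e l α h) (z'.σ.res α) (hσ l α h) β h1)
    exact congrArg ((G.map ((z'.σ.res α).zeroTo β).op).app (op l'))
      (val_congr (he l l' α β h h').symm _ _ _)
  have hv_q : ∀ {l : SimplexCategory} (α : l ⟶ ⦋n⦌) (h : ¬ Function.Surjective α.toOrderHom),
      (q.app _).app (op l) (v l α h) = z'.g l α := by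
    intro l α h
    refine (val_mapq q (e l α h) (z'.σ.res α) (hσ l α h) (hσ l α h)).symm.trans ?_
    refine (val_congr (hz' l α h) (z'.σ.res α) _ rfl).trans ?_
    exact val_res_self z' α rfl
  obtain ⟨x, hx1, hx2⟩ := bdFill_of_lift (hq (op (z'.σ.obj 0)) n)
    (fun l α h => (G.map (z'.σ.zeroTo α).op).app (op l) (v l α h))
    (by
      intro l l' α β h h'
      refine (sp_nat G (z'.σ.zeroTo α).op β.op (v l α h)).symm.trans ?_
      refine (congrArg ((G.map (z'.σ.zeroTo α).op).app (op l')) (hv_nat α β h h').symm).trans ?_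
      exact map_zeroTo_comp G z'.σ α β _ _)
    (z'.g ⦋n⦌ (𝟙 _))
    (by
      intro l α h
      refine (hom_nat q (z'.σ.zeroTo α).op (v l α h)).trans ?_
      refine (congrArg ((G'.map (z'.σ.zeroTo α).op).app (op l))
        ((hv_q α h).trans (z'.g_comp_id α).symm)).trans ?_
      exact z'.nat (𝟙 _) α)
  let g : ∀ (l : SimplexCategory) (α : l ⟶ ⦋n⦌), (G.obj (op ((z'.σ.res α).obj 0))).obj (op l) :=
    fun l α => if h : Function.Surjective α.toOrderHom then
      (G.map (z'.σ.map (α.toOrderHom 0) 0 (surj_zero α h)).op).app (op l)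
        ((G.obj (op (z'.σ.obj 0))).map α.op x)
    else v l α h
  have hg1 : ∀ {l : SimplexCategory} (α : l ⟶ ⦋n⦌) (h : ¬ Function.Surjective α.toOrderHom),
      g l α = v l α h := fun α h => dif_neg h
  have hg2 : ∀ {l : SimplexCategory} (α : l ⟶ ⦋n⦌) (h : Function.Surjective α.toOrderHom),
      g l α = (G.map (z'.σ.map (α.toOrderHom 0) 0 (surj_zero α h)).op).app (op l)
        ((G.obj (op (z'.σ.obj 0))).map α.op x) := fun α h => dif_pos h
  have key : ∀ {l : SimplexCategory} (α : l ⟶ ⦋n⦌),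
      (G.map (z'.σ.zeroTo α).op).app (op l) (g l α) = (G.obj (op (z'.σ.obj 0))).map α.op x := by
    intro l α
    by_cases h : Function.Surjective α.toOrderHom
    · rw [hg2 α h]
      exact map_back G z'.σ (α.toOrderHom 0) 0 (surj_zero α h) (Fin.zero_le _) (op l) _
    · rw [hg1 α h]
      exact (hx2 l α h).symm
  have inj : ∀ {l : SimplexCategory} (α : l ⟶ ⦋n⦌) (_ : Function.Surjective α.toOrderHom)
      (G₀ : SPU.{u} J) (o : SimplexCategoryᵒᵖ) (y y' : (G₀.obj (op ((z'.σ.res α).obj 0))).obj o),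
      (G₀.map (z'.σ.zeroTo α).op).app o y = (G₀.map (z'.σ.zeroTo α).op).app o y' → y = y' := by
    intro l α h G₀ o y y' hyy
    have h1 := congrArg
      ((G₀.map (z'.σ.map (α.toOrderHom 0) 0 (surj_zero α h)).op).app o) hyy
    have h2 := map_back G₀ z'.σ 0 (α.toOrderHom 0) (Fin.zero_le _) (surj_zero α h) o y
    have h3 := map_back G₀ z'.σ 0 (α.toOrderHom 0) (Fin.zero_le _) (surj_zero α h) o y'
    exact h2.symm.trans (h1.trans h3)
  have hnat : ∀ {l l' : SimplexCategory} (α : l ⟶ ⦋n⦌) (β : l' ⟶ l),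
      (G.map ((z'.σ.res α).zeroTo β).op).app (op l') (g l' (β ≫ α)) =
        (G.obj (op ((z'.σ.res α).obj 0))).map β.op (g l α) := by
    intro l l' α β
    by_cases h : Function.Surjective α.toOrderHom
    · apply inj α h
      refine (map_zeroTo_comp G z'.σ α β _ _).trans ?_
      refine (key (β ≫ α)).trans ?_
      refine (sset_comp _ α.op β.op x).trans ?_
      refine (congrArg ((G.obj (op (z'.σ.obj 0))).map β.op) (key α).symm).trans ?_
      exact (sp_nat G (z'.σ.zeroTo α).op β.op (g l α)).symm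
    · rw [hg1 α h, hg1 (β ≫ α) (hcomp α β h)]
      exact hv_nat α β h _
  refine ⟨(⟨z'.σ, g, hnat⟩ : RN G ⦋n⦌), ?_, ?_⟩
  · refine RN.ext_of rfl (heq_of_eq ?_)
    funext l α
    change (q.app _).app (op l) (g l α) = z'.g l α
    by_cases h : Function.Surjective α.toOrderHom
    · apply inj α h
      refine (hom_nat q (z'.σ.zeroTo α).op (g l α)).symm.trans ?_
      refine (congrArg ((q.app _).app (op l)) (key α)).trans ?_
      refine (hom_natk q α.op x).trans ?_
      refine (congrArg ((G'.obj (op (z'.σ.obj 0))).map α.op) hx1).trans ?_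
      refine (z'.nat (𝟙 _) α).symm.trans ?_
      exact congrArg ((G'.map (z'.σ.zeroTo α).op).app (op l)) (z'.g_comp_id α)
    · rw [hg1 α h]
      exact hv_q α h
  · intro l α h
    refine RN.ext'' (z'.σ.res α) rfl (hσ l α h) fun l' β h1 h2 => ?_
    refine (val_res_self (RN.res (⟨z'.σ, g, hnat⟩ : RN G ⦋n⦌) α) β rfl).trans ?_
    change g l' (β ≫ α) = _
    rw [hg1 (β ≫ α) (hcomp α β h)]
    exact val_congr (he l l' α β h _).symm _ _ _

theorem rnv_trivFib {G G' : SPU.{u} J} (q : G ⟶ G') (hq : ∀ j, TrivFib (q.app j)) :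
    TrivFib (RNv.mapq q) := fun n => lift_of_bdFill (rn_bdFill q hq n)

/-- The weight of homotopy limits. -/
abbrev WU (J : Type) [SmallCategory J] : SPU.{u} J := W J ⋙ SSet.uliftFunctor.{u, 0}

/-- The nerve. -/
abbrev NvU (J : Type) [SmallCategory J] : SSet.{u} := SSet.uliftFunctor.{u, 0}.obj (FL.Nv J)

/-- The projection of the relative nerve. -/
def RNv.proj (G : SPU.{u} J) : RNv G ⟶ NvU J where
  app k := ↾ fun (z : RN G k.unop) => ULift.up z.σ
  naturality _ _ _ := rfl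

/-- The section of the relative nerve attached to a map from the weight. -/
def secOf {G : SPU.{u} J} (f : WU J ⟶ G) : NvU J ⟶ RNv G where
  app k := ↾ fun (σ : ULift.{u} (Chain J k.unop)) =>
    (⟨σ.down, fun l α => (f.app (op ((σ.down.res α).obj 0))).app (op l)
        (ULift.up (⟨σ.down.res α, 𝟙 _⟩ : WS _ l)), by
      intro l l' α β
      refine (hom_nat f ((σ.down.res α).zeroTo β).op
        (a := op (((σ.down.res α).res β).obj 0))
        (ULift.up (⟨(σ.down.res α).res β, 𝟙 _⟩ : WS _ l'))).symm.trans ?_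
      refine Eq.trans ?_ (hom_natk f β.op (a := op ((σ.down.res α).obj 0))
        (ULift.up (⟨σ.down.res α, 𝟙 _⟩ : WS _ l)))
      refine congrArg ((f.app (op ((σ.down.res α).obj 0))).app (op l')) ?_
      refine congrArg ULift.up ?_
      exact congrArg (WS.mk ((σ.down.res α).res β))
        ((Category.comp_id _).trans (Category.id_comp _).symm)⟩ : RN G k.unop)
  naturality k l α := by
    ext σ
    rfl

/-- The value of a section. -/
lemma sec_σ {G : SPU.{u} J} {s : NvU J ⟶ RNv G} (hs : s ≫ RNv.proj G = 𝟙 _)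
    {k : SimplexCategoryᵒᵖ} (σ : Chain J k.unop) :
    (s.app k (ULift.up σ) : RN G k.unop).σ = σ :=
  congrArg (fun f : NvU.{u} J ⟶ NvU.{u} J => ULift.down (f.app k (ULift.up σ))) hs

/-- The map from the weight attached to a section of the relative nerve. -/
def ofSec {G : SPU.{u} J} (s : NvU J ⟶ RNv G) (hs : s ≫ RNv.proj G = 𝟙 _) : WU J ⟶ G where
  app j :=
    { app := fun k => ↾ fun (w : ULift.{u} (WS j.unop k.unop)) =>
        (G.map w.down.u.op).app k (val (s.app k (ULift.up w.down.σ) : RN G k.unop) w.down.σ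
          (sec_σ hs w.down.σ))
      naturality := fun k l α => by
        refine ConcreteCategory.hom_ext _ _ fun (w : ULift.{u} (WS j.unop k.unop)) => ?_
        obtain ⟨w⟩ := w
        have h := sec_σ hs w.σ
        have h' := sec_σ hs (k := l) (w.σ.res α.unop)
        have h1 : (s.app l (ULift.up (w.σ.res α.unop)) : RN G l.unop) =
          (s.app k (ULift.up w.σ) : RN G k.unop).res α.unop := sset_nat s α (ULift.up w.σ)
        show (G.map (w.u ≫ w.σ.zeroTo α.unop).op).app l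
          (val (s.app l (ULift.up (w.σ.res α.unop)) : RN G l.unop) (w.σ.res α.unop) h') =
          (G.obj j).map α ((G.map w.u.op).app k
            (val (s.app k (ULift.up w.σ) : RN G k.unop) w.σ h))
        refine (sp_comp G (w.σ.zeroTo α.unop).op w.u.op _).trans ?_
        refine Eq.trans ?_ (sp_nat G w.u.op α _)
        refine congrArg ((G.map w.u.op).app l) ?_
        refine (congrArg ((G.map (w.σ.zeroTo α.unop).op).app l)
          (val_congr h1 (w.σ.res α.unop) h' (congrArg (Chain.res · α.unop) h))).trans ?_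
        exact val_res (s.app k (ULift.up w.σ) : RN G k.unop) w.σ h α.unop _ }
  naturality j j' f := by
    refine NatTrans.ext (funext fun k => ?_)
    refine ConcreteCategory.hom_ext _ _ fun (w : ULift.{u} (WS j.unop k.unop)) => ?_
    exact sp_comp G w.down.u.op f _

/-- The weight lifts against objectwise trivial fibrations. -/
theorem W_lift {G G' : SPU.{u} J} (q : G ⟶ G') (hq : ∀ j, TrivFib (q.app j)) (f : WU J ⟶ G') :
    ∃ g : WU J ⟶ G, g ≫ q = f := by
  have hl := TrivFib.lift (rnv_trivFib q hq) ((⊥ : (NvU.{u} J).Subcomplex).ι)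
  let t : ((⊥ : (NvU.{u} J).Subcomplex) : SSet.{u}) ⟶ RNv G :=
    { app := fun k => ↾ fun x => (x.2 : False).elim
      naturality := fun k l α => by
        ext x
        exact (x.2 : False).elim }
  have sq : CommSq t ((⊥ : (NvU.{u} J).Subcomplex).ι) (RNv.mapq q) (secOf f) := ⟨by
    ext k x
    exact (x.2 : False).elim⟩
  have h2 : sq.lift ≫ RNv.mapq q = secOf f := sq.fac_right
  have hs : sq.lift ≫ RNv.proj G = 𝟙 _ := by
    have h3 : sq.lift ≫ RNv.mapq q ≫ RNv.proj G' = secOf f ≫ RNv.proj G' :=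
      (Category.assoc _ _ _).symm.trans (congrArg (· ≫ RNv.proj G') h2)
    exact h3
  refine ⟨ofSec sq.lift hs, ?_⟩
  refine NatTrans.ext (funext fun j => NatTrans.ext (funext fun k => ?_))
  refine ConcreteCategory.hom_ext _ _ fun (w : ULift.{u} (WS j.unop k.unop)) => ?_
  obtain ⟨w⟩ := w
  have h := sec_σ hs w.σ
  change (q.app j).app k ((G.map w.u.op).app k
    (val (sq.lift.app k (ULift.up w.σ) : RN G k.unop) w.σ h)) = (f.app j).app k (ULift.up w)
  refine (hom_nat q w.u.op _).trans ?_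
  have h4 : (sq.lift.app k (ULift.up w.σ) : RN G k.unop).mapq q =
      (secOf f).app k (ULift.up w.σ) :=
    congrArg (fun (f : NvU J ⟶ RNv G') => f.app k (ULift.up w.σ)) h2
  refine (congrArg ((G'.map w.u.op).app k)
    ((val_mapq q (sq.lift.app k (ULift.up w.σ) : RN G k.unop) w.σ h h).symm.trans
      (val_congr h4 w.σ h rfl))).trans ?_
  refine (hom_nat f w.u.op (a := op (w.σ.obj 0))
    (ULift.up (⟨w.σ, 𝟙 _⟩ : WS _ k.unop))).symm.trans ?_
  refine congrArg ((f.app j).app k) (congrArg ULift.up ?_)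
  obtain ⟨σ, u⟩ := w
  exact congrArg (WS.mk σ) (Category.comp_id u)

end Pool.Agent.Helper43.FLU
end

/- Helper43.FLU.BiNerve -/
section
/-!
# Project FLQ: the bivariant relative nerve (any universe)
-/

open CategoryTheory MonoidalCategory Simplicial Opposite

set_option autoImplicit false

namespace Pool.Agent.Helper43.FLU.Bi

open FL (HoEq Htpy sset_id sset_comp sset_nat Chain WS W)
open FLQ (SPU)
open Helper41FL2 (E2 endTo endTo_comp endBack endTo_back endBack_to surj_zero surj_last)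

universe u

variable {A : Type} [SmallCategory A]

/-- A `k`-simplex of the relative nerve of `G`. -/
structure RN (G : SPU.{u} (A × Aᵒᵖ)) (k : SimplexCategory) : Type u where
  σ : Chain A k
  g : ∀ (l : SimplexCategory) (α : l ⟶ k), (G.obj (op (E2 (σ.res α)))).obj (op l)
  nat : ∀ {l l' : SimplexCategory} (α : l ⟶ k) (β : l' ⟶ l),
    (G.map (endTo (σ.res α) β).op).app (op l') (g l' (β ≫ α)) =
      (G.obj (op (E2 (σ.res α)))).map β.op (g l α)

lemma RN.ext_of {G : SPU.{u} (A × Aᵒᵖ)} {k : SimplexCategory} {z z' : RN G k} (h : z.σ = z'.σ)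
    (h' : HEq z.g z'.g) : z = z' := by
  cases z
  cases z'
  cases h
  cases h'
  rfl

/-- Restriction. -/
def RN.res {G : SPU.{u} (A × Aᵒᵖ)} {k k' : SimplexCategory} (z : RN G k) (γ : k' ⟶ k) : RN G k' where
  σ := z.σ.res γ
  g l α := z.g l (α ≫ γ)
  nat α β := z.nat (α ≫ γ) β

lemma RN.g_id_comp {G : SPU.{u} (A × Aᵒᵖ)} {k l : SimplexCategory} (z : RN G k) (α : l ⟶ k) :
    z.g l (𝟙 l ≫ α) = z.g l α := eq_of_heq (congr_arg_heq (z.g l) (Category.id_comp α))

lemma RN.g_comp_id {G : SPU.{u} (A × Aᵒᵖ)} {k l : SimplexCategory} (z : RN G k) (α : l ⟶ k) :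
    z.g l (α ≫ 𝟙 k) = z.g l α := eq_of_heq (congr_arg_heq (z.g l) (Category.comp_id α))

lemma RN.res_id {G : SPU.{u} (A × Aᵒᵖ)} {k : SimplexCategory} (z : RN G k) : z.res (𝟙 k) = z := by
  refine RN.ext_of rfl (heq_of_eq ?_)
  funext l α
  exact z.g_comp_id α

/-- The relative nerve. -/
def RNv (G : SPU.{u} (A × Aᵒᵖ)) : SSet.{u} where
  obj k := RN G k.unop
  map α := ↾ fun z => z.res α.unop
  map_id _ := by
    ext z
    exact z.res_id
  map_comp _ _ := rfl

/-- Functoriality. -/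
def RN.mapq {G G' : SPU.{u} (A × Aᵒᵖ)} (q : G ⟶ G') {k : SimplexCategory} (z : RN G k) : RN G' k where
  σ := z.σ
  g l α := (q.app _).app _ (z.g l α)
  nat {l l'} α β := by
    refine (hom_nat q _ _).symm.trans ?_
    refine (congrArg ((q.app _).app (op l')) (z.nat α β)).trans ?_
    exact hom_natk q β.op _

/-- Functoriality. -/
def RNv.mapq {G G' : SPU.{u} (A × Aᵒᵖ)} (q : G ⟶ G') : RNv G ⟶ RNv G' where
  app k := ↾ fun (z : RN G k.unop) => RN.mapq q z
  naturality _ _ _ := rfl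

/-- The value at the identity. -/
def val {G : SPU.{u} (A × Aᵒᵖ)} {k : SimplexCategory} (z : RN G k) (τ : Chain A k) (h : z.σ = τ) :
    (G.obj (op (E2 τ))).obj (op k) := by
  subst h
  exact z.g k (𝟙 k)

lemma val_res_self {G : SPU.{u} (A × Aᵒᵖ)} {k l : SimplexCategory} (z : RN G k) (α : l ⟶ k)
    (h : (z.res α).σ = z.σ.res α) : val (z.res α) (z.σ.res α) h = z.g l α :=
  z.g_id_comp α

lemma val_res {G : SPU.{u} (A × Aᵒᵖ)} {k l : SimplexCategory} (z : RN G k) (τ : Chain A k)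
    (h : z.σ = τ) (β : l ⟶ k) (h' : (z.res β).σ = τ.res β) :
    (G.map (endTo τ β).op).app (op l) (val (z.res β) (τ.res β) h') =
      (G.obj (op (E2 τ))).map β.op (val z τ h) := by
  subst h
  refine Eq.trans ?_ (z.nat (𝟙 k) β)
  refine congrArg ((G.map (endTo z.σ β).op).app (op l)) ?_
  refine (val_res_self z β h').trans ?_
  exact (z.g_comp_id β).symm

lemma val_mapq {G G' : SPU.{u} (A × Aᵒᵖ)} (q : G ⟶ G') {k : SimplexCategory} (z : RN G k)
    (τ : Chain A k) (h : z.σ = τ) (h' : (z.mapq q).σ = τ) :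
    val (z.mapq q) τ h' = (q.app (op (E2 τ))).app (op k) (val z τ h) := by
  subst h
  rfl

lemma RN.ext' {G : SPU.{u} (A × Aᵒᵖ)} {k : SimplexCategory} {z z' : RN G k} (h : z.σ = z'.σ)
    (h' : ∀ (l : SimplexCategory) (α : l ⟶ k) (h1 : (z.res α).σ = z'.σ.res α),
      val (z.res α) (z'.σ.res α) h1 = z'.g l α) : z = z' := by
  obtain ⟨σ, g, n⟩ := z
  obtain ⟨σ', g', n'⟩ := z'
  obtain rfl : σ = σ' := h
  refine RN.ext_of rfl (heq_of_eq ?_)
  funext l α
  exact (RN.g_id_comp (RN.mk σ g n) α).symm.trans (h' l α rfl)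

lemma val_congr {G : SPU.{u} (A × Aᵒᵖ)} {k : SimplexCategory} {z z' : RN G k} (hz : z = z')
    (τ : Chain A k) (h : z.σ = τ) (h' : z'.σ = τ) : val z τ h = val z' τ h' := by
  subst hz
  rfl

lemma RN.ext'' {G : SPU.{u} (A × Aᵒᵖ)} {k : SimplexCategory} {z z' : RN G k} (τ : Chain A k)
    (h : z.σ = τ) (h' : z'.σ = τ)
    (H : ∀ (l : SimplexCategory) (α : l ⟶ k) (h1 : (z.res α).σ = τ.res α)
      (h2 : (z'.res α).σ = τ.res α),
      val (z.res α) (τ.res α) h1 = val (z'.res α) (τ.res α) h2) : z = z' := by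
  subst h'
  exact RN.ext' h fun l α h1 => (H l α h1 rfl).trans (val_res_self z' α rfl)

lemma map_endTo_comp (G : SPU.{u} (A × Aᵒᵖ)) {k l m : SimplexCategory} (σ : Chain A k) (α : l ⟶ k)
    (β : m ⟶ l) (o : SimplexCategoryᵒᵖ)
    (x : (G.obj (op (E2 (σ.res (β ≫ α))))).obj o) :
    (G.map (endTo σ α).op).app o ((G.map (endTo (σ.res α) β).op).app o x) =
      (G.map (endTo σ (β ≫ α)).op).app o x := by
  refine (sp_comp G _ _ x).symm.trans ?_
  exact congrArg (fun f => (G.map (Quiver.Hom.op f)).app o x) (endTo_comp σ α β)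

lemma map_back (G : SPU.{u} (A × Aᵒᵖ)) {k l : SimplexCategory} (σ : Chain A k) (α : l ⟶ k)
    (h0 : α.toOrderHom 0 ≤ 0) (h1 : Fin.last _ ≤ α.toOrderHom (Fin.last _))
    (o : SimplexCategoryᵒᵖ) (x : (G.obj (op (E2 (σ.res α)))).obj o) :
    (G.map (endBack σ α h0 h1).op).app o ((G.map (endTo σ α).op).app o x) = x := by
  refine (sp_comp G _ _ x).symm.trans ?_
  refine (congrArg (fun f => (G.map (Quiver.Hom.op f)).app o x) (endBack_to σ α h0 h1)).trans ?_
  exact sp_id G x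

lemma map_back' (G : SPU.{u} (A × Aᵒᵖ)) {k l : SimplexCategory} (σ : Chain A k) (α : l ⟶ k)
    (h0 : α.toOrderHom 0 ≤ 0) (h1 : Fin.last _ ≤ α.toOrderHom (Fin.last _))
    (o : SimplexCategoryᵒᵖ) (x : (G.obj (op (E2 σ))).obj o) :
    (G.map (endTo σ α).op).app o ((G.map (endBack σ α h0 h1).op).app o x) = x := by
  refine (sp_comp G _ _ x).symm.trans ?_
  refine (congrArg (fun f => (G.map (Quiver.Hom.op f)).app o x) (endTo_back σ α h0 h1)).trans ?_
  exact sp_id G x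

theorem rn_bdFill {G G' : SPU.{u} (A × Aᵒᵖ)} (q : G ⟶ G') (hq : ∀ j, TrivFib (q.app j)) (n : ℕ) :
    BdFill (RNv.mapq q) n := by
  classical
  intro (e : ∀ (l : SimplexCategory) (α : l ⟶ ⦋n⦌), ¬ Function.Surjective α.toOrderHom → RN G l)
    (he : ∀ (l l' : SimplexCategory) (α : l ⟶ ⦋n⦌) (β : l' ⟶ l)
      (h : ¬ Function.Surjective α.toOrderHom)
      (h' : ¬ Function.Surjective (β ≫ α).toOrderHom), (e l α h).res β = e l' (β ≫ α) h')
    (z' : RN G' ⦋n⦌)
    (hz' : ∀ (l : SimplexCategory) (α : l ⟶ ⦋n⦌) (h : ¬ Function.Surjective α.toOrderHom),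
      (e l α h).mapq q = z'.res α)
  have hσ : ∀ (l : SimplexCategory) (α : l ⟶ ⦋n⦌) (h : ¬ Function.Surjective α.toOrderHom),
      (e l α h).σ = z'.σ.res α := fun l α h => congrArg RN.σ (hz' l α h)
  let v : ∀ (l : SimplexCategory) (α : l ⟶ ⦋n⦌), ¬ Function.Surjective α.toOrderHom →
      (G.obj (op (E2 (z'.σ.res α)))).obj (op l) :=
    fun l α h => val (e l α h) (z'.σ.res α) (hσ l α h)
  have hcomp : ∀ {l l' : SimplexCategory} (α : l ⟶ ⦋n⦌) (β : l' ⟶ l),
      ¬ Function.Surjective α.toOrderHom → ¬ Function.Surjective (β ≫ α).toOrderHom := by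
    intro l l' α β h h'
    exact h (Function.Surjective.of_comp (g := β.toOrderHom) h')
  have hv_nat : ∀ {l l' : SimplexCategory} (α : l ⟶ ⦋n⦌) (β : l' ⟶ l)
      (h : ¬ Function.Surjective α.toOrderHom) (h' : ¬ Function.Surjective (β ≫ α).toOrderHom),
      (G.map (endTo (z'.σ.res α) β).op).app (op l') (v l' (β ≫ α) h') =
        (G.obj (op (E2 (z'.σ.res α)))).map β.op (v l α h) := by
    intro l l' α β h h'
    have h1 : ((e l α h).res β).σ = (z'.σ.res α).res β := congrArg (Chain.res · β) (hσ l α h)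
    refine Eq.trans ?_ (val_res (e l α h) (z'.σ.res α) (hσ l α h) β h1)
    exact congrArg ((G.map (endTo (z'.σ.res α) β).op).app (op l'))
      (val_congr (he l l' α β h h').symm _ _ _)
  have hv_q : ∀ {l : SimplexCategory} (α : l ⟶ ⦋n⦌) (h : ¬ Function.Surjective α.toOrderHom),
      (q.app _).app (op l) (v l α h) = z'.g l α := by
    intro l α h
    refine (val_mapq q (e l α h) (z'.σ.res α) (hσ l α h) (hσ l α h)).symm.trans ?_
    refine (val_congr (hz' l α h) (z'.σ.res α) _ rfl).trans ?_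
    exact val_res_self z' α rfl
  obtain ⟨x, hx1, hx2⟩ := bdFill_of_lift (hq (op (E2 z'.σ)) n)
    (fun l α h => (G.map (endTo z'.σ α).op).app (op l) (v l α h))
    (by
      intro l l' α β h h'
      refine (sp_nat G (endTo z'.σ α).op β.op (v l α h)).symm.trans ?_
      refine (congrArg ((G.map (endTo z'.σ α).op).app (op l')) (hv_nat α β h h').symm).trans ?_
      exact map_endTo_comp G z'.σ α β _ _)
    (z'.g ⦋n⦌ (𝟙 _))
    (by
      intro l α h
      refine (hom_nat q (endTo z'.σ α).op (v l α h)).trans ?_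
      refine (congrArg ((G'.map (endTo z'.σ α).op).app (op l))
        ((hv_q α h).trans (z'.g_comp_id α).symm)).trans ?_
      exact z'.nat (𝟙 _) α)
  let g : ∀ (l : SimplexCategory) (α : l ⟶ ⦋n⦌), (G.obj (op (E2 (z'.σ.res α)))).obj (op l) :=
    fun l α => if h : Function.Surjective α.toOrderHom then
      (G.map (endBack z'.σ α (surj_zero α h) (surj_last α h)).op).app (op l)
        ((G.obj (op (E2 z'.σ))).map α.op x)
    else v l α h
  have hg1 : ∀ {l : SimplexCategory} (α : l ⟶ ⦋n⦌) (h : ¬ Function.Surjective α.toOrderHom),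
      g l α = v l α h := fun α h => dif_neg h
  have hg2 : ∀ {l : SimplexCategory} (α : l ⟶ ⦋n⦌) (h : Function.Surjective α.toOrderHom),
      g l α = (G.map (endBack z'.σ α (surj_zero α h) (surj_last α h)).op).app (op l)
        ((G.obj (op (E2 z'.σ))).map α.op x) := fun α h => dif_pos h
  have key : ∀ {l : SimplexCategory} (α : l ⟶ ⦋n⦌),
      (G.map (endTo z'.σ α).op).app (op l) (g l α) = (G.obj (op (E2 z'.σ))).map α.op x := by
    intro l α
    by_cases h : Function.Surjective α.toOrderHom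
    · rw [hg2 α h]
      exact map_back' G z'.σ α (surj_zero α h) (surj_last α h) (op l) _
    · rw [hg1 α h]
      exact (hx2 l α h).symm
  have inj : ∀ {l : SimplexCategory} (α : l ⟶ ⦋n⦌) (_ : Function.Surjective α.toOrderHom)
      (G₀ : SPU.{u} (A × Aᵒᵖ)) (o : SimplexCategoryᵒᵖ) (y y' : (G₀.obj (op (E2 (z'.σ.res α)))).obj o),
      (G₀.map (endTo z'.σ α).op).app o y = (G₀.map (endTo z'.σ α).op).app o y' → y = y' := by
    intro l α h G₀ o y y' hyy
    have h1 := congrArg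
      ((G₀.map (endBack z'.σ α (surj_zero α h) (surj_last α h)).op).app o) hyy
    have h2 := map_back G₀ z'.σ α (surj_zero α h) (surj_last α h) o y
    have h3 := map_back G₀ z'.σ α (surj_zero α h) (surj_last α h) o y'
    exact h2.symm.trans (h1.trans h3)
  have hnat : ∀ {l l' : SimplexCategory} (α : l ⟶ ⦋n⦌) (β : l' ⟶ l),
      (G.map (endTo (z'.σ.res α) β).op).app (op l') (g l' (β ≫ α)) =
        (G.obj (op (E2 (z'.σ.res α)))).map β.op (g l α) := by
    intro l l' α β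
    by_cases h : Function.Surjective α.toOrderHom
    · apply inj α h
      refine (map_endTo_comp G z'.σ α β _ _).trans ?_
      refine (key (β ≫ α)).trans ?_
      refine (sset_comp _ α.op β.op x).trans ?_
      refine (congrArg ((G.obj (op (E2 z'.σ))).map β.op) (key α).symm).trans ?_
      exact (sp_nat G (endTo z'.σ α).op β.op (g l α)).symm
    · rw [hg1 α h, hg1 (β ≫ α) (hcomp α β h)]
      exact hv_nat α β h _
  refine ⟨(⟨z'.σ, g, hnat⟩ : RN G ⦋n⦌), ?_, ?_⟩
  · refine RN.ext_of rfl (heq_of_eq ?_)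
    funext l α
    change (q.app _).app (op l) (g l α) = z'.g l α
    by_cases h : Function.Surjective α.toOrderHom
    · apply inj α h
      refine (hom_nat q (endTo z'.σ α).op (g l α)).symm.trans ?_
      refine (congrArg ((q.app _).app (op l)) (key α)).trans ?_
      refine (hom_natk q α.op x).trans ?_
      refine (congrArg ((G'.obj (op (E2 z'.σ))).map α.op) hx1).trans ?_
      refine (z'.nat (𝟙 _) α).symm.trans ?_
      exact congrArg ((G'.map (endTo z'.σ α).op).app (op l)) (z'.g_comp_id α)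
    · rw [hg1 α h]
      exact hv_q α h
  · intro l α h
    refine RN.ext'' (z'.σ.res α) rfl (hσ l α h) fun l' β h1 h2 => ?_
    refine (val_res_self (RN.res (⟨z'.σ, g, hnat⟩ : RN G ⦋n⦌) α) β rfl).trans ?_
    change g l' (β ≫ α) = _
    rw [hg1 (β ≫ α) (hcomp α β h)]
    exact val_congr (he l l' α β h _).symm _ _ _

theorem rnv_trivFib {G G' : SPU.{u} (A × Aᵒᵖ)} (q : G ⟶ G') (hq : ∀ j, TrivFib (q.app j)) :
    TrivFib (RNv.mapq q) := fun n => lift_of_bdFill (rn_bdFill q hq n)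

/-- The projection of the relative nerve. -/
def RNv.proj (G : SPU.{u} (A × Aᵒᵖ)) : RNv G ⟶ NvU.{u} A where
  app k := ↾ fun (z : RN G k.unop) => ULift.up z.σ
  naturality _ _ _ := rfl

/-- Families of simplices `φ(σ) ∈ G(σ_0, σ_k)_k`, natural in the chain `σ`. -/
structure Fam (G : SPU.{u} (A × Aᵒᵖ)) : Type u where
  v : ∀ {k : SimplexCategory} (σ : Chain A k), (G.obj (op (E2 σ))).obj (op k)
  nat : ∀ {k l : SimplexCategory} (σ : Chain A k) (α : l ⟶ k),
    (G.map (endTo σ α).op).app (op l) (v (σ.res α)) = (G.obj (op (E2 σ))).map α.op (v σ)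

/-- The section of the relative nerve attached to a family. -/
def Fam.sec {G : SPU.{u} (A × Aᵒᵖ)} (f : Fam G) : NvU.{u} A ⟶ RNv G where
  app k := ↾ fun (σ : ULift.{u} (Chain A k.unop)) =>
    (⟨σ.down, fun l α => f.v (σ.down.res α), fun α β => f.nat (σ.down.res α) β⟩ : RN G k.unop)
  naturality k l α := by
    ext σ
    rfl

/-- Families lift along objectwise trivial fibrations. -/
theorem Fam.lift {G G' : SPU.{u} (A × Aᵒᵖ)} (q : G ⟶ G') (hq : ∀ j, TrivFib (q.app j))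
    (f : Fam G') : ∃ g : Fam G, ∀ {k : SimplexCategory} (σ : Chain A k),
      (q.app (op (E2 σ))).app (op k) (g.v σ) = f.v σ := by
  have hl := TrivFib.lift (rnv_trivFib q hq) ((⊥ : (NvU.{u} A).Subcomplex).ι)
  let t : ((⊥ : (NvU.{u} A).Subcomplex) : SSet.{u}) ⟶ RNv G :=
    { app := fun k => ↾ fun x => (x.2 : False).elim
      naturality := fun k l α => by
        ext x
        exact (x.2 : False).elim }
  have sq : CommSq t ((⊥ : (NvU.{u} A).Subcomplex).ι) (RNv.mapq q) f.sec := ⟨by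
    ext k x
    exact (x.2 : False).elim⟩
  have h2 : sq.lift ≫ RNv.mapq q = f.sec := sq.fac_right
  have hs : sq.lift ≫ RNv.proj G = 𝟙 _ := by
    have h3 : sq.lift ≫ RNv.mapq q ≫ RNv.proj G' = f.sec ≫ RNv.proj G' :=
      (Category.assoc _ _ _).symm.trans (congrArg (· ≫ RNv.proj G') h2)
    exact h3
  have hσ : ∀ {k : SimplexCategory} (σ : Chain A k),
      (sq.lift.app (op k) (ULift.up σ) : RN G k).σ = σ := fun {k} σ =>
    congrArg (fun (f : NvU.{u} A ⟶ NvU.{u} A) => ULift.down (f.app (op k) (ULift.up σ))) hs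
  refine ⟨⟨fun {k} σ => val (sq.lift.app (op k) (ULift.up σ) : RN G k) σ (hσ σ), ?_⟩, ?_⟩
  · intro k l σ α
    have h1 : (sq.lift.app (op l) (ULift.up (σ.res α)) : RN G l) =
      (sq.lift.app (op k) (ULift.up σ) : RN G k).res α := sset_nat sq.lift α.op (ULift.up σ)
    refine (congrArg ((G.map (endTo σ α).op).app (op l))
      (val_congr h1 (σ.res α) (hσ (σ.res α)) (congrArg (Chain.res · α) (hσ σ)))).trans ?_
    exact val_res (sq.lift.app (op k) (ULift.up σ) : RN G k) σ (hσ σ) α _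
  · intro k σ
    have h4 : (sq.lift.app (op k) (ULift.up σ) : RN G k).mapq q = f.sec.app (op k) (ULift.up σ) :=
      congrArg (fun (f : NvU.{u} A ⟶ RNv G') => f.app (op k) (ULift.up σ)) h2
    refine (val_mapq q (sq.lift.app (op k) (ULift.up σ) : RN G k) σ (hσ σ) (hσ σ)).symm.trans ?_
    exact val_congr h4 σ (hσ σ) rfl

end Pool.Agent.Helper43.FLU.Bi
end

/- Helper43.FLU.Holim -/
section
/-!
# Project FLQ: homotopy invariance of Bousfield-Kan homotopy limits (any universe)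
-/

open CategoryTheory MonoidalCategory CartesianMonoidalCategory Simplicial Opposite Limits
  HomotopicalAlgebra

set_option autoImplicit false

namespace Pool.Agent.Helper43.FLU

open FL (HoEq Htpy sset_id sset_comp sset_nat Chain WS W)
open FLQ (SPU)
open Pool.Agent.Helper45.FL2 (htpy_mk htpy_elim htpy_refl fin2 rel_path horn_edge boundary_const two
  en en_zero en_one en_zero_two en_one_two two_comp mono_whiskerLeft ι₀_nat ι₁_nat
  exists_fibrewise lift_of_fibrewise)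
open Pool.Agent.Helper88.FL (hoEq_comp hoEq_of_comp_left hoEq_of_comp_right hoEq_of_isIso)

universe u

section SSetLevel

variable {X X' G G' K L : SSet.{u}}

/-- currying of maps of simplicial sets -/
noncomputable def curS (f : X ⊗ K ⟶ G) : X ⟶ (ihom K).obj G :=
  MonoidalClosed.curry ((β_ K X).hom ≫ f)

/-- uncurrying of maps of simplicial sets -/
noncomputable def uncS (g : X ⟶ (ihom K).obj G) : X ⊗ K ⟶ G :=
  (β_ K X).inv ≫ MonoidalClosed.uncurry g

lemma uncS_curS (f : X ⊗ K ⟶ G) : uncS (curS f) = f := by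
  simp [uncS, curS]

lemma curS_uncS (g : X ⟶ (ihom K).obj G) : curS (uncS g) = g := by
  simp [uncS, curS]

lemma curS_left (a : X' ⟶ X) (f : X ⊗ K ⟶ G) : curS (a ▷ K ≫ f) = a ≫ curS f := by
  rw [curS, curS, ← MonoidalClosed.curry_natural_left]
  congr 1

lemma curS_right (f : X ⊗ K ⟶ G) (b : G ⟶ G') : curS (f ≫ b) = curS f ≫ (ihom K).map b := by
  rw [curS, curS, ← MonoidalClosed.curry_natural_right, Category.assoc]

lemma curS_pre (i : K ⟶ L) (f : X ⊗ L ⟶ G) :
    curS (X ◁ i ≫ f) = curS f ≫ (MonoidalClosed.pre i).app G := by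
  rw [curS, curS, MonoidalClosed.curry_pre_app]
  congr 1

lemma uncS_left (a : X' ⟶ X) (g : X ⟶ (ihom K).obj G) : uncS (a ≫ g) = a ▷ K ≫ uncS g := by
  conv_lhs => rw [← curS_uncS g, ← curS_left, uncS_curS]

lemma uncS_right (g : X ⟶ (ihom K).obj G) (b : G ⟶ G') :
    uncS (g ≫ (ihom K).map b) = uncS g ≫ b := by
  conv_lhs => rw [← curS_uncS g, ← curS_right, uncS_curS]

lemma uncS_pre (i : K ⟶ L) (g : X ⟶ (ihom L).obj G) :
    uncS (g ≫ (MonoidalClosed.pre i).app G) = X ◁ i ≫ uncS g := by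
  conv_lhs => rw [← curS_uncS g, ← curS_pre, uncS_curS]

end SSetLevel

variable {J : Type} [SmallCategory J]

/-- the power `G^K` -/
noncomputable def pw (G : SPU.{u} J) (K : SSet.{u}) : SPU.{u} J := G ⋙ ihom K

/-- restriction of powers -/
noncomputable def pwPre (G : SPU.{u} J) {K L : SSet.{u}} (i : K ⟶ L) : pw G L ⟶ pw G K :=
  Functor.whiskerLeft G (MonoidalClosed.pre i)

/-- functoriality of powers -/
noncomputable def pwMap {G G' : SPU.{u} J} (q : G ⟶ G') (K : SSet.{u}) : pw G K ⟶ pw G' K :=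
  Functor.whiskerRight q (ihom K)

lemma pwPre_app (G : SPU.{u} J) {K L : SSet.{u}} (i : K ⟶ L) (j : Jᵒᵖ) :
    (pwPre G i).app j = (MonoidalClosed.pre i).app (G.obj j) := rfl

lemma pwMap_app {G G' : SPU.{u} J} (q : G ⟶ G') (K : SSet.{u}) (j : Jᵒᵖ) :
    (pwMap q K).app j = (ihom K).map (q.app j) := rfl

lemma pw_comm {G G' : SPU.{u} J} (q : G ⟶ G') {K L : SSet.{u}} (i : K ⟶ L) :
    pwPre G i ≫ pwMap q K = pwMap q L ≫ pwPre G' i := by
  ext1
  ext1 j
  exact ((MonoidalClosed.pre i).naturality (q.app j)).symm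

/-- currying -/
noncomputable def cur {X G : SPU.{u} J} {K : SSet.{u}} (f : tn X K ⟶ G) : X ⟶ pw G K where
  app j := curS (f.app j : X.obj j ⊗ K ⟶ G.obj j)
  naturality j j' g := by
    have h : X.map g ▷ K ≫ f.app j' = f.app j ≫ G.map g := f.naturality g
    exact (curS_left (X.map g) _).symm.trans ((congrArg curS h).trans (curS_right _ _))

/-- uncurrying -/
noncomputable def unc {X G : SPU.{u} J} {K : SSet.{u}} (f : X ⟶ pw G K) : tn X K ⟶ G where
  app j := uncS (f.app j : X.obj j ⟶ (ihom K).obj (G.obj j))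
  naturality j j' g := by
    have h : X.map g ≫ f.app j' = f.app j ≫ (ihom K).map (G.map g) := f.naturality g
    exact (uncS_left (X.map g) _).symm.trans ((congrArg uncS h).trans (uncS_right _ _))

lemma unc_cur {X G : SPU.{u} J} {K : SSet.{u}} (f : tn X K ⟶ G) : unc (cur f) = f := by
  ext1
  ext1 j
  exact uncS_curS _

lemma cur_unc {X G : SPU.{u} J} {K : SSet.{u}} (f : X ⟶ pw G K) : cur (unc f) = f := by
  ext1
  ext1 j
  exact curS_uncS _

lemma cur_pre {X G : SPU.{u} J} {K L : SSet.{u}} (i : K ⟶ L) (f : tn X L ⟶ G) :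
    cur (tnMap (𝟙 X) i ≫ f) = cur f ≫ pwPre G i := by
  ext1
  ext1 j
  exact curS_pre i _

lemma cur_map {X G G' : SPU.{u} J} {K : SSet.{u}} (f : tn X K ⟶ G) (q : G ⟶ G') :
    cur (f ≫ q) = cur f ≫ pwMap q K := by
  ext1
  ext1 j
  exact curS_right _ _

lemma unc_pre {X G : SPU.{u} J} {K L : SSet.{u}} (i : K ⟶ L) (f : X ⟶ pw G L) :
    unc (f ≫ pwPre G i) = tnMap (𝟙 X) i ≫ unc f := by
  conv_lhs => rw [← cur_unc f, ← cur_pre, unc_cur]

lemma unc_map {X G G' : SPU.{u} J} {K : SSet.{u}} (f : X ⟶ pw G K) (q : G ⟶ G') :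
    unc (f ≫ pwMap q K) = unc f ≫ q := by
  conv_lhs => rw [← cur_unc f, ← cur_map, unc_cur]

section SSetLevel2

variable {X Y G G' : SSet.{u}}

theorem two_ext (f g : X ⊗ (∂Δ[1] : SSet.{u}) ⟶ Y) (h0 : en X 0 ≫ f = en X 0 ≫ g)
    (h1 : en X 1 ≫ f = en X 1 ≫ g) : f = g := by
  ext m ⟨x, s⟩
  have key : ∀ i : Fin (1 + 1), SSet.stdSimplex.asOrderHom s.1 0 = i →
      ((x, s) : (X ⊗ (∂Δ[1] : SSet.{u})).obj m) = (en X i).app m x := by
    intro i hi
    refine Prod.ext rfl (Subtype.ext ?_)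
    refine SSet.stdSimplex.ext _ _ fun j => ?_
    exact (boundary_const s j 0).trans hi
  rcases fin2 (SSet.stdSimplex.asOrderHom s.1 0) with h | h
  · have h2 := key _ h
    have h3 := ConcreteCategory.congr_hom (NatTrans.congr_app h0 m) x
    rw [h2]
    exact h3
  · have h2 := key _ h
    have h3 := ConcreteCategory.congr_hom (NatTrans.congr_app h1 m) x
    rw [h2]
    exact h3

lemma en_nat (f : X ⟶ Y) (i : Fin (1 + 1)) :
    en X i ≫ f ▷ (∂Δ[1] : SSet.{u}) = f ≫ en Y i := by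
  refine CartesianMonoidalCategory.hom_ext _ _ ?_ ?_
  · rw [Category.assoc, Category.assoc, whiskerRight_fst, en, en, lift_fst_assoc, lift_fst,
      Category.id_comp, Category.comp_id]
  · rw [Category.assoc, Category.assoc, whiskerRight_snd, en, en, lift_snd, lift_snd]
    rfl

/-- evaluation at the vertex `0` -/
noncomputable def ev0 (X : SSet.{u}) : (ihom Δ[1]).obj X ⟶ X := SSet.ι₀ ≫ uncS (𝟙 _)

/-- evaluation at the vertex `1` -/
noncomputable def ev1 (X : SSet.{u}) : (ihom Δ[1]).obj X ⟶ X := SSet.ι₁ ≫ uncS (𝟙 _)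

lemma comp_ev0 (g : Y ⟶ (ihom Δ[1]).obj X) : g ≫ ev0 X = SSet.ι₀ ≫ uncS g := by
  rw [ev0, ← Category.assoc, ← ι₀_nat, Category.assoc, ← uncS_left, Category.comp_id]

lemma comp_ev1 (g : Y ⟶ (ihom Δ[1]).obj X) : g ≫ ev1 X = SSet.ι₁ ≫ uncS g := by
  rw [ev1, ← Category.assoc, ← ι₁_nat, Category.assoc, ← uncS_left, Category.comp_id]

lemma ev0_nat (b : G ⟶ G') : (ihom Δ[1]).map b ≫ ev0 G' = ev0 G ≫ b := by
  rw [comp_ev0, ev0, ← Category.id_comp ((ihom Δ[1]).map b), uncS_right, Category.assoc]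

lemma ev1_nat (b : G ⟶ G') : (ihom Δ[1]).map b ≫ ev1 G' = ev1 G ≫ b := by
  rw [comp_ev1, ev1, ← Category.id_comp ((ihom Δ[1]).map b), uncS_right, Category.assoc]

open SSet.modelCategoryQuillen in
/-- a simplicial set with fillers of horns is a Kan complex -/
theorem kan_of_fill {X : SSet.{u}} (h : ∀ (n : ℕ) (i : Fin (n + 2))
    (t : (Λ[n + 1, i] : SSet.{u}) ⟶ X), ∃ l : Δ[n + 1] ⟶ X, Λ[n + 1, i].ι ≫ l = t) :
    SSet.KanComplex X := by
  refine (isFibrant_iff X).2 ⟨?_⟩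
  rw [SSet.modelCategoryQuillen.fibrations_eq]
  intro _ _ _ hf
  simp only [SSet.modelCategoryQuillen.J, MorphismProperty.iSup_iff] at hf
  obtain ⟨n, ⟨i⟩⟩ := hf
  refine ⟨fun {t _} _ => ?_⟩
  obtain ⟨l, hl⟩ := h n i t
  exact ⟨⟨{ l := l, fac_left := hl, fac_right := by subsingleton }⟩⟩

open SSet.modelCategoryQuillen in
/-- fillers of horns in a Kan complex -/
theorem fill_of_kan {X : SSet.{u}} (hX : SSet.KanComplex X) (n : ℕ) (i : Fin (n + 2))
    (t : (Λ[n + 1, i] : SSet.{u}) ⟶ X) : ∃ l : Δ[n + 1] ⟶ X, Λ[n + 1, i].ι ≫ l = t := by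
  have hf : Fibration (terminal.from X) := (isFibrant_iff X).1 hX
  have hl : HasLiftingProperty (Λ[n + 1, i].ι : (Λ[n + 1, i] : SSet.{u}) ⟶ _)
    (terminal.from X) := SSet.anodyneExtensions.horn_ι i _ ((fibration_iff _).1 hf)
  have sq : CommSq t (Λ[n + 1, i].ι : (Λ[n + 1, i] : SSet.{u}) ⟶ _)
    (terminal.from X) (terminal.from _) := ⟨Subsingleton.elim _ _⟩
  exact ⟨sq.lift, sq.fac_left⟩

variable {P : SSet.{u}}

/-- the first projection of the mapping path space is a trivial fibration -/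
theorem fst_trivFib {q : G ⟶ G'} {fst' : P ⟶ G} {snd' : P ⟶ (ihom Δ[1]).obj G'}
    (hP : IsPullback fst' snd' q (ev0 G')) (hG' : SSet.KanComplex G') : TrivFib fst' := by
  intro n
  constructor
  intro t b sq
  obtain ⟨h, -, h0, h1⟩ := rel_path (terminal.from G') (∂Δ[n] : (Δ[n] : SSet.{u}).Subcomplex)
    (terminal.from _) (b ≫ q) (uncS (t ≫ snd')) (Subsingleton.elim _ _) (Subsingleton.elim _ _)
    (by rw [← comp_ev0, Category.assoc, ← hP.w, ← Category.assoc, sq.w, Category.assoc])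
  have hw : b ≫ q = curS h ≫ ev0 G' := by rw [comp_ev0, uncS_curS, h0]
  refine ⟨⟨{ l := hP.lift _ _ hw, fac_left := ?_, fac_right := hP.lift_fst _ _ hw }⟩⟩
  apply hP.hom_ext
  · rw [Category.assoc, hP.lift_fst, sq.w]
  · rw [Category.assoc, hP.lift_snd, ← curS_left, h1, curS_uncS]

open SSet.modelCategoryQuillen in
/-- the second projection of the mapping path space is a Kan fibration -/
theorem snd_kanFib {q : G ⟶ G'} {fst' : P ⟶ G} {snd' : P ⟶ (ihom Δ[1]).obj G'}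
    (hP : IsPullback fst' snd' q (ev0 G')) (hG : SSet.KanComplex G) (hG' : SSet.KanComplex G') :
    KanFib (snd' ≫ ev1 G') := by
  intro n i
  constructor
  intro t b sq
  obtain ⟨a, ha⟩ := fill_of_kan hG n i (t ≫ fst')
  have hl : HasLiftingProperty (Λ[n + 1, i].ι : (Λ[n + 1, i] : SSet.{u}) ⟶ _)
    ((MonoidalClosed.pre (∂Δ[1].ι : (∂Δ[1] : SSet.{u}) ⟶ Δ[1])).app G') :=
    SSet.anodyneExtensions.horn_ι i _ ((fibration_iff _).1 inferInstance)
  have sq2 : CommSq (t ≫ snd') (Λ[n + 1, i].ι : (Λ[n + 1, i] : SSet.{u}) ⟶ _)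
      ((MonoidalClosed.pre (∂Δ[1].ι : (∂Δ[1] : SSet.{u}) ⟶ Δ[1])).app G')
      (curS (two (a ≫ q) b)) := ⟨by
    rw [← curS_left, ← curS_uncS ((t ≫ snd') ≫ _), uncS_pre]
    congr 1
    symm
    apply two_ext
    · rw [← Category.assoc, en_nat, Category.assoc, en_zero_two, ← Category.assoc (en _ 0),
        en_zero, ← comp_ev0, ← Category.assoc, ha, Category.assoc, Category.assoc, hP.w]
    · rw [← Category.assoc, en_nat, Category.assoc, en_one_two, ← Category.assoc (en _ 1),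
        en_one, ← comp_ev1, Category.assoc, sq.w]⟩
  have key : uncS (sq2.lift ≫
      (MonoidalClosed.pre (∂Δ[1].ι : (∂Δ[1] : SSet.{u}) ⟶ Δ[1])).app G') =
      two (a ≫ q) b := by
    rw [sq2.fac_right, uncS_curS]
  rw [uncS_pre] at key
  have hw : a ≫ q = sq2.lift ≫ ev0 G' := by
    rw [comp_ev0, ← en_zero, Category.assoc, key, en_zero_two]
  refine ⟨⟨{ l := hP.lift _ _ hw, fac_left := ?_, fac_right := ?_ }⟩⟩
  · apply hP.hom_ext
    · rw [Category.assoc, hP.lift_fst, ha]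
    · rw [Category.assoc, hP.lift_snd, sq2.fac_left]
  · rw [← Category.assoc, hP.lift_snd, comp_ev1, ← en_one, Category.assoc, key, en_one_two]

/-- the mapping path space is a Kan complex -/
theorem path_kan {q : G ⟶ G'} {fst' : P ⟶ G} {snd' : P ⟶ (ihom Δ[1]).obj G'}
    (hP : IsPullback fst' snd' q (ev0 G')) (hG : SSet.KanComplex G) (hG' : SSet.KanComplex G') :
    SSet.KanComplex P := by
  refine kan_of_fill fun n i t => ?_
  obtain ⟨b, hb⟩ := fill_of_kan hG n i (t ≫ fst')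
  have hl := TrivFib.kanFib (fst_trivFib hP hG') n i
  have sq : CommSq t (Λ[n + 1, i].ι : (Λ[n + 1, i] : SSet.{u}) ⟶ _) fst' b := ⟨hb.symm⟩
  exact ⟨sq.lift, sq.fac_left⟩

end SSetLevel2

/-- lifting against the map of homotopy limits -/
theorem post_lift {G G' P : SPU.{u} J} (q : G ⟶ G') {K L : SSet.{u}} (i : K ⟶ L) (fst : P ⟶ pw G K)
    (snd : P ⟶ pw G' L) (hP : IsPullback fst snd (pwMap q K) (pwPre G' i))
    (π : pw G L ⟶ P) (h1 : π ≫ fst = pwPre G i) (h2 : π ≫ snd = pwMap q L)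
    (hπ : ∀ j, TrivFib (π.app j)) : HasLiftingProperty i (Mp.post (WU J) q) := by
  constructor
  intro t b sq
  have h3 : Mp.adj t ≫ q = tnMap (𝟙 (WU J)) i ≫ Mp.adj b := by
    rw [← Mp.adj_post, ← Mp.adj_comp, sq.w]
  have h4 : cur (Mp.adj t) ≫ pwMap q K = cur (Mp.adj b) ≫ pwPre G' i := by
    rw [← cur_map, h3, cur_pre]
  obtain ⟨g, hg⟩ := W_lift π hπ (hP.lift _ _ h4)
  refine ⟨⟨⟨Mp.adj.symm (unc g), ?_, ?_⟩⟩⟩
  · apply Mp.adj.injective
    rw [Mp.adj_comp, Equiv.apply_symm_apply, ← unc_pre, ← h1, ← Category.assoc, hg,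
      hP.lift_fst, unc_cur]
  · apply Mp.adj.injective
    rw [Mp.adj_post, Equiv.apply_symm_apply, ← unc_map, ← h2, ← Category.assoc, hg,
      hP.lift_snd, unc_cur]

/-- the pullback-hom of a boundary inclusion and a trivial fibration -/
theorem pullbackHom_trivFib {E B : SSet.{u}} {p : E ⟶ B} (hp : TrivFib p) (m : ℕ)
    (sq : MonoidalClosed.internalHom.PullbackObjObj (∂Δ[m].ι : (∂Δ[m] : SSet.{u}) ⟶ Δ[m]) p) :
    TrivFib sq.π := by
  intro n
  rw [← MonoidalClosed.internalHomAdjunction₂.hasLiftingProperty_iff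
    (SSet.Subcomplex.unionProd.pushoutObjObj.{u} ∂Δ[m] ∂Δ[n])]
  have h : (MorphismProperty.monomorphisms SSet.{u}).rlp p := by
    rw [SSet.rlp_monomorphisms]
    rintro _ _ _ ⟨n⟩
    exact hp n
  rw [SSet.Subcomplex.unionProd.pushoutObjObj_ι]
  have hm : Mono (SSet.Subcomplex.ι (SSet.Subcomplex.unionProd.{u} ∂Δ[m] ∂Δ[n])) := by
    infer_instance
  exact h _ hm

theorem Holim_trivFib {G G' : SPU.{u} J} (q : G ⟶ G') (hq : ∀ j, TrivFib (q.app j)) :
    TrivFib (Mp.post (WU J) q) := by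
  intro m
  have hP := IsPullback.of_hasPullback (pwMap q (∂Δ[m] : SSet.{u}))
    (pwPre G' (∂Δ[m].ι : (∂Δ[m] : SSet.{u}) ⟶ Δ[m]))
  have hw := pw_comm q (∂Δ[m].ι : (∂Δ[m] : SSet.{u}) ⟶ Δ[m])
  refine post_lift q _ _ _ hP (hP.lift _ _ hw) (hP.lift_fst _ _ hw) (hP.lift_snd _ _ hw) ?_
  intro j
  have hj := hP.map ((evaluation Jᵒᵖ SSet.{u}).obj j)
  exact pullbackHom_trivFib (hq j) m
    { pt := _
      fst := _
      snd := _
      isPullback := hj
      π := (hP.lift _ _ hw).app j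
      π_fst := NatTrans.congr_app (hP.lift_fst _ _ hw) j
      π_snd := NatTrans.congr_app (hP.lift_snd _ _ hw) j }

open SSet.modelCategoryQuillen in
/-- the restriction of a power of a Kan complex along an anodyne extension -/
theorem pre_trivFib {K L X : SSet.{u}} (i : K ⟶ L) (hi : SSet.anodyneExtensions i)
    (hX : SSet.KanComplex X) : TrivFib ((MonoidalClosed.pre i).app X) := by
  intro n
  rw [← MonoidalCategory.Arrow.PushoutProduct.hasLiftingProperty_mk_isTerminal_iff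
    terminalIsTerminal]
  have h := SSet.anodyneExtensions_pushoutObjObjι'
    (Functor.PushoutObjObj.ofHasPushout (curriedTensor SSet.{u}) i
      (∂Δ[n].ι : (∂Δ[n] : SSet.{u}) ⟶ Δ[n])) hi
  have h2 : Fibration (terminal.from X) := (isFibrant_iff X).1 hX
  exact h _ ((fibration_iff _).1 h2)

theorem Holim_kan {G : SPU.{u} J} (hG : ObjKan G) : SSet.KanComplex (Mp (WU J) G) := by
  refine kan_of_fill fun n i t => ?_
  obtain ⟨g, hg⟩ := W_lift (pwPre G (Λ[n + 1, i].ι : (Λ[n + 1, i] : SSet.{u}) ⟶ _))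
    (fun j => pre_trivFib _ (SSet.anodyneExtensions.horn_ι i) (hG j))
    (cur (Mp.adj (t : (Λ[n + 1, i] : SSet.{u}) ⟶ Mp (WU J) G)))
  refine ⟨Mp.adj.symm (unc g), ?_⟩
  apply Mp.adj.injective
  rw [Mp.adj_comp, Equiv.apply_symm_apply, ← unc_pre, hg, unc_cur]

/-- evaluation at the vertex `0` -/
noncomputable def pev0 (G : SPU.{u} J) : pw G Δ[1] ⟶ G where
  app j := ev0 (G.obj j)
  naturality _ _ g := ev0_nat (G.map g)

/-- evaluation at the vertex `1` -/
noncomputable def pev1 (G : SPU.{u} J) : pw G Δ[1] ⟶ G where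
  app j := ev1 (G.obj j)
  naturality _ _ g := ev1_nat (G.map g)

/-- the constant path -/
noncomputable def pcst {G G' : SPU.{u} J} (q : G ⟶ G') : G ⟶ pw G' Δ[1] :=
  cur (G := G') { app := fun j => CartesianMonoidalCategory.fst (G.obj j) Δ[1] ≫ q.app j
                  naturality := fun j j' g => by
                    have h1 : G.map g ≫ q.app j' = q.app j ≫ G'.map g := q.naturality g
                    change G.map g ▷ Δ[1] ≫ CartesianMonoidalCategory.fst _ _ ≫ q.app j' =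
                      (CartesianMonoidalCategory.fst _ _ ≫ q.app j) ≫ G'.map g
                    rw [CartesianMonoidalCategory.whiskerRight_fst_assoc, h1, Category.assoc] }

lemma pcst_ev0 {G G' : SPU.{u} J} (q : G ⟶ G') : pcst q ≫ pev0 G' = q := by
  ext1
  ext1 j
  change curS (CartesianMonoidalCategory.fst (G.obj j) Δ[1] ≫ q.app j) ≫ ev0 _ = _
  rw [comp_ev0, uncS_curS, SSet.ι₀_fst_assoc]

lemma pcst_ev1 {G G' : SPU.{u} J} (q : G ⟶ G') : pcst q ≫ pev1 G' = q := by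
  ext1
  ext1 j
  change curS (CartesianMonoidalCategory.fst (G.obj j) Δ[1] ≫ q.app j) ≫ ev1 _ = _
  rw [comp_ev1, uncS_curS, SSet.ι₁_fst_assoc]

theorem post_comp (X : SPU.{u} J) {G G' G'' : SPU.{u} J} (p : G ⟶ G') (q : G' ⟶ G'') :
    Mp.post X (p ≫ q) = Mp.post X p ≫ Mp.post X q := rfl

theorem post_id (X : SPU.{u} J) (G : SPU.{u} J) : Mp.post X (𝟙 G) = 𝟙 _ := rfl

theorem Holim_hoEq {G G' : SPU.{u} J} (hG : ObjKan G) (hG' : ObjKan G') (q : G ⟶ G')
    (hq : ObjHoEq q) : HoEq (Mp.post (WU J) q) := by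
  obtain ⟨P, p, s, hP⟩ : ∃ (P : SPU.{u} J) (p : P ⟶ G) (s : P ⟶ pw G' Δ[1]),
      IsPullback p s q (pev0 G') := ⟨_, _, _, IsPullback.of_hasPullback q (pev0 G')⟩
  have hPj : ∀ j, IsPullback (p.app j) (s.app j) (q.app j) (ev0 (G'.obj j)) :=
    fun j => hP.map ((evaluation Jᵒᵖ SSet.{u}).obj j)
  have hw : 𝟙 G ≫ q = pcst q ≫ pev0 G' := by rw [Category.id_comp, pcst_ev0]
  have hKP : ObjKan P := fun j => path_kan (hPj j) (hG j) (hG' j)
  have hp : ∀ j, TrivFib (p.app j) := fun j => fst_trivFib (hPj j) (hG' j)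
  obtain ⟨σ, h1, h2⟩ : ∃ σ : G ⟶ P, σ ≫ p = 𝟙 G ∧ σ ≫ s = pcst q :=
    ⟨hP.lift _ _ hw, hP.lift_fst _ _ hw, hP.lift_snd _ _ hw⟩
  have h3 : σ ≫ s ≫ pev1 G' = q := by rw [← Category.assoc, h2, pcst_ev1]
  have he : ∀ j, TrivFib ((s ≫ pev1 G').app j) := by
    intro j
    have hσ : HoEq (σ.app j) := by
      refine hoEq_of_comp_right (hG j) (hKP j) (hG j) (TrivFib.hoEq (hp j)) ?_
      have h4 : σ.app j ≫ p.app j = 𝟙 _ := NatTrans.congr_app h1 j
      rw [h4]
      exact hoEq_of_isIso _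
    have h5 : σ.app j ≫ (s ≫ pev1 G').app j = q.app j := NatTrans.congr_app h3 j
    refine trivFib_of_hoEq (hKP j) (hG' j) (snd_kanFib (hPj j) (hG j) (hG' j)) ?_
    refine hoEq_of_comp_left (hG j) (hKP j) (hG' j) hσ ?_
    rw [h5]
    exact hq j
  have h6 : HoEq (Mp.post (WU J) σ) := by
    refine hoEq_of_comp_right (Holim_kan hG) (Holim_kan hKP) (Holim_kan hG) (TrivFib.hoEq (Holim_trivFib p hp)) ?_
    rw [← post_comp, h1, post_id]
    exact hoEq_of_isIso _
  rw [← h3, post_comp]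
  exact hoEq_comp (Holim_kan hG) (Holim_kan hKP) (Holim_kan hG') h6 (TrivFib.hoEq (Holim_trivFib _ he))

end Pool.Agent.Helper43.FLU
end
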