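import Pool.Agent.Helper16.FDG.G01

/- Helper30.FL.Level -/
section
/-! FL-16: the level lemma. -/

open CategoryTheory MonoidalCategory Opposite HomotopicalAlgebra

set_option autoImplicit false

namespace Pool.Agent.Helper30.FL16

open FL

/-- The statements of FL-1 … FL-5 used in this file. -/
structure Tool : Prop where
  hoEq_of_isIso : ∀ {X Y : SSet.{0}} (f : X ⟶ Y) [IsIso f], HoEq f
  hoEq_comp : ∀ {X Y Z : SSet.{0}}, SSet.KanComplex X → SSet.KanComplex Y → SSet.KanComplex Z →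
    ∀ {f : X ⟶ Y} {g : Y ⟶ Z}, HoEq f → HoEq g → HoEq (f ≫ g)
  hoEq_of_comp_left : ∀ {X Y Z : SSet.{0}}, SSet.KanComplex X → SSet.KanComplex Y →
    SSet.KanComplex Z → ∀ {f : X ⟶ Y} {g : Y ⟶ Z}, HoEq f → HoEq (f ≫ g) → HoEq g
  trivFib_lift : ∀ {E B : SSet.{0}} {p : E ⟶ B}, TrivFib p → ∀ {K L : SSet.{0}} (i : K ⟶ L)
    [Mono i], HasLiftingProperty i p
  trivFib_hoEq : ∀ {E B : SSet.{0}} {p : E ⟶ B}, TrivFib p → HoEq p
  trivFib_of_hoEq : ∀ {E B : SSet.{0}} {p : E ⟶ B}, SSet.KanComplex E → SSet.KanComplex B →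
    KanFib p → HoEq p → TrivFib p
  we_of_hoEq : ∀ {X Y : SSet.{0}} {f : X ⟶ Y}, HoEq f → WE f
  we_comp : ∀ {X Y Z : SSet.{0}} {f : X ⟶ Y} {g : Y ⟶ Z}, WE f → WE g → WE (f ≫ g)
  we_of_comp_left : ∀ {X Y Z : SSet.{0}} {f : X ⟶ Y} {g : Y ⟶ Z}, WE f → WE (f ≫ g) → WE g
  we_of_comp_right : ∀ {X Y Z : SSet.{0}} {f : X ⟶ Y} {g : Y ⟶ Z}, WE g → WE (f ≫ g) → WE f
  Mp_kan : ∀ {A : Type} [SmallCategory A] (X : SP A) {Z : SP A}, InjFib Z →
    SSet.KanComplex (Mp X Z)
  Mp_pre_kanFib : ∀ {A : Type} [SmallCategory A] {X Y Z : SP A} (i : X ⟶ Y),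
    (∀ a, Mono (i.app a)) → InjFib Z → KanFib (Mp.pre i Z)
  rel_lift : ∀ {A : Type} [SmallCategory A] {X Y Z Z' : SP A} (i : X ⟶ Y),
    (∀ a, Mono (i.app a)) → ∀ (q : Z ⟶ Z'), InjFibration q → InjFib Z → InjFib Z' →
    HoEq (Mp.pre i Z) → HoEq (Mp.pre i Z') → ∀ {K L : SSet.{0}} (j : K ⟶ L) [Mono j]
    (u : tn X L ⟶ Z) (v : tn Y K ⟶ Z) (w : tn Y L ⟶ Z'),
    tnMap (𝟙 X) j ≫ u = tnMap i (𝟙 K) ≫ v → u ≫ q = tnMap i (𝟙 L) ≫ w →
    v ≫ q = tnMap (𝟙 Y) j ≫ w →
    ∃ l : tn Y L ⟶ Z, tnMap i (𝟙 L) ≫ l = u ∧ tnMap (𝟙 Y) j ≫ l = v ∧ l ≫ q = w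
  exists_cyl : ∀ {A : Type} [SmallCategory A] {X Y : SP A} (f : X ⟶ Y),
    ∃ (C : SP A) (i : X ⟶ C) (r : C ⟶ Y), i ≫ r = f ∧ (∀ a, Mono (i.app a)) ∧ SDR r
  sdr_pre_hoEq : ∀ {A : Type} [SmallCategory A] {X Y : SP A} {r : X ⟶ Y}, SDR r →
    ∀ Z : SP A, HoEq (Mp.pre r Z)
  sdr_whisker : ∀ {A B : Type} [SmallCategory A] [SmallCategory B] {X Y : SP A} {r : X ⟶ Y},
    SDR r → ∀ F : B ⥤ A, SDR (Functor.whiskerLeft F.op r)

section Level

variable {n : ℕ}

/-- the morphisms of `Θ_n × [n]^op` used below. -/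
noncomputable def gm {θ θ' : Th n} {i k : Fin (n + 1)} (f : θ' ⟶ θ) (h : i ≤ k) :
    (op (θ, op i) : (Gn n)ᵒᵖ) ⟶ op (θ', op k) :=
  Quiver.Hom.op ((f, (homOfLE h).op) : (θ', op k) ⟶ (θ, op i))

lemma gm_eq {a b : (Gn n)ᵒᵖ} (f g : a ⟶ b) (h : f.unop.1 = g.unop.1) : f = g :=
  Quiver.Hom.unop_inj (Prod.ext h (Subsingleton.elim _ _))

/-- A simplex of `up i Q`. -/
structure US (i : Fin (n + 1)) (Q : SP (Th n)) (a : (Gn n)ᵒᵖ) (m : SimplexCategoryᵒᵖ) : Type where
  h : i ≤ a.unop.2.unop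
  x : (Q.obj (op a.unop.1)).obj m

/-- The presheaf equal to `Q` at the levels `≥ i` and empty below. -/
noncomputable def up (i : Fin (n + 1)) (Q : SP (Th n)) : SP (Gn n) where
  obj a :=
    { obj := fun m => US i Q a m
      map := fun α => ↾ fun w => ⟨w.h, (Q.obj (op a.unop.1)).map α w.x⟩
      map_id := fun m => by
        ext (w : US i Q a m)
        exact congrArg (US.mk w.h) (sset_id _ _)
      map_comp := fun α β => by
        ext (w : US i Q a _)
        exact congrArg (US.mk w.h) (sset_comp _ α β _) }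
  map {a b} f :=
    { app := fun m => ↾ fun w => ⟨w.h.trans (leOfHom f.unop.2.unop),
        (Q.map (Quiver.Hom.op f.unop.1)).app m w.x⟩
      naturality := fun m m' α => by
        ext (w : US i Q a _)
        exact congrArg (US.mk _) (sp_nat Q _ α _) }
  map_id a := by
    ext m (w : US i Q a _)
    exact congrArg (US.mk w.h) (sp_id Q _)
  map_comp {a b c} f g := by
    ext m (w : US i Q a _)
    exact congrArg (US.mk _) (sp_comp Q (Quiver.Hom.op f.unop.1) (Quiver.Hom.op g.unop.1) _)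

/-- Functoriality of `up`. -/
noncomputable def upMap (i : Fin (n + 1)) {Q Q' : SP (Th n)} (g : Q ⟶ Q') : up i Q ⟶ up i Q' where
  app a :=
    { app := fun m => ↾ fun (w : US i Q a m) => (⟨w.h, (g.app (op a.unop.1)).app m w.x⟩ : US i Q' a m)
      naturality := fun m m' α => by
        ext (w : US i Q a _)
        exact congrArg (US.mk w.h) (hom_natk g α _) }
  naturality a b f := by
    ext m (w : US i Q a _)
    exact congrArg (US.mk _) (hom_nat g (Quiver.Hom.op f.unop.1) _)

/-- maps out of `up i Q`. -/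
noncomputable def upDesc (i : Fin (n + 1)) {Q : SP (Th n)} {D : SP (Gn n)} (φ : Q ⟶ level D i) :
    up i Q ⟶ D where
  app a :=
    { app := fun m => ↾ fun (w : US i Q a m) =>
        (D.map (gm (𝟙 a.unop.1) w.h)).app m ((φ.app (op a.unop.1)).app m w.x)
      naturality := fun m m' α => by
        ext (w : US i Q a _)
        refine (congrArg _ (hom_natk φ α _)).trans ?_
        exact sp_nat D (gm (𝟙 a.unop.1) w.h) α _ }
  naturality a b f := by
    ext m (w : US i Q a _)
    refine (congrArg _ (hom_nat φ (Quiver.Hom.op f.unop.1) w.x)).trans ?_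
    refine (sp_comp D _ _ _).symm.trans (Eq.trans ?_ (sp_comp D _ _ _))
    refine congrArg (fun t => (D.map t).app m _) (gm_eq _ _ ?_)
    exact (Category.id_comp _).trans (Category.comp_id _).symm

/-- bijective maps are weak equivalences. -/
theorem we_of_bij (H : Tool) {X Y : SSet.{0}} (f : X ⟶ Y) (h : ∀ m, Function.Bijective (f.app m)) : WE f := by
  have : IsIso f := by
    rw [NatTrans.isIso_iff_isIso_app]
    intro m
    rw [isIso_iff_bijective]
    exact h m
  exact H.we_of_hoEq (H.hoEq_of_isIso f)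

/-- maps isomorphic to weak equivalences. -/
theorem we_of_bij_arrow (H : Tool) {X Y X' Y' : SSet.{0}} (f : X ⟶ Y) (f' : X' ⟶ Y') (e : X' ⟶ X)
    (e' : Y' ⟶ Y) (he : ∀ m, Function.Bijective (e.app m)) (he' : ∀ m, Function.Bijective (e'.app m))
    (h : f' ≫ e' = e ≫ f) (hf : WE f) : WE f' := by
  refine H.we_of_comp_right (we_of_bij H e' he') ?_
  rw [h]
  exact H.we_comp (we_of_bij H e he) hf

theorem mono_of_inj {X Y : SSet.{0}} (f : X ⟶ Y) (h : ∀ m, Function.Injective (f.app m)) :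
    Mono f := by
  rw [NatTrans.mono_iff_mono_app]
  intro m
  rw [mono_iff_injective]
  exact h m

theorem inj_of_mono {X Y : SSet.{0}} (f : X ⟶ Y) [Mono f] (m : SimplexCategoryᵒᵖ) :
    Function.Injective (f.app m) := by
  have h : Mono f := inferInstance
  rw [NatTrans.mono_iff_mono_app] at h
  exact (mono_iff_injective _).mp (h m)

/-- the projection of a level of `up i Q`. -/
noncomputable def upProj (i : Fin (n + 1)) (Q : SP (Th n)) (a : (Gn n)ᵒᵖ) :
    (up i Q).obj a ⟶ Q.obj (op a.unop.1) where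
  app m := ↾ fun (w : US i Q a m) => w.x
  naturality _ _ _ := rfl

theorem upProj_bij (i : Fin (n + 1)) (Q : SP (Th n)) (a : (Gn n)ᵒᵖ) (h : i ≤ a.unop.2.unop)
    (m : SimplexCategoryᵒᵖ) : Function.Bijective ((upProj i Q a).app m) := by
  constructor
  · rintro (w : US i Q a m) (w' : US i Q a m) (hw : w.x = w'.x)
    obtain ⟨h1, x⟩ := w
    obtain ⟨h2, x'⟩ := w'
    exact congrArg (US.mk h1) hw
  · intro x
    exact ⟨(⟨h, x⟩ : US i Q a m), rfl⟩

theorem up_trivCof (H : Tool) (i : Fin (n + 1)) {Q Q' : SP (Th n)} (g : Q ⟶ Q') (hg : TrivCof g) :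
    TrivCof (upMap i g) := by
  constructor
  · intro a
    apply mono_of_inj
    rintro m (w : US i Q a m) (w' : US i Q a m) hw
    obtain ⟨h1, x⟩ := w
    obtain ⟨h2, x'⟩ := w'
    have := hg.1 (op a.unop.1)
    exact congrArg (US.mk h1) (inj_of_mono (g.app (op a.unop.1)) m (congrArg US.x hw))
  · intro a
    by_cases h : i ≤ a.unop.2.unop
    · exact we_of_bij_arrow H _ _ (upProj i Q a) (upProj i Q' a) (upProj_bij i Q a h)
        (upProj_bij i Q' a h) rfl (hg.2 (op a.unop.1))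
    · apply we_of_bij H
      intro m
      exact ⟨fun w => (h (US.h w)).elim, fun w => (h (US.h w)).elim⟩

theorem level_injFib_of (H : Tool) {D : SP (Gn n)} (hD : InjFib D) (i : Fin (n + 1)) : InjFib (level D i) := by
  intro Q Q' g hg φ
  obtain ⟨Φ, hΦ⟩ := hD (upMap i g) (up_trivCof H i g hg) (upDesc i φ)
  refine ⟨
    { app := fun θ =>
        { app := fun m => ↾ fun x => (Φ.app (op (θ.unop, op i))).app m
            (⟨le_refl i, x⟩ : US i Q' (op (θ.unop, op i)) m)
          naturality := fun m m' α => by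
            ext x
            exact hom_natk Φ α (⟨le_refl i, x⟩ : US i Q' (op (θ.unop, op i)) m) }
      naturality := fun θ θ' f => by
        ext m x
        exact hom_nat Φ (gm f.unop (le_refl i)) (⟨le_refl i, x⟩ : US i Q' (op (θ.unop, op i)) m) },
    ?_⟩
  ext θ m x
  have h1 := congrArg (fun t => (t.app (op (θ.unop, op i))).app m
    (⟨le_refl i, x⟩ : US i Q (op (θ.unop, op i)) m)) hΦ
  refine h1.trans ?_
  exact sp_id D _

section Two

variable {i j : Fin (n + 1)} {Q Q' : SP (Th n)}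

/-- the simplices of the presheaf equal to `Q` at the levels in `[i, j)` and to `Q'` at the
levels `≥ j`. -/
inductive ES (i j : Fin (n + 1)) (Q Q' : SP (Th n)) (a : (Gn n)ᵒᵖ) (m : SimplexCategoryᵒᵖ) : Type
  | lo (h : i ≤ a.unop.2.unop) (h' : a.unop.2.unop < j) (x : (Q.obj (op a.unop.1)).obj m)
  | hi (h : j ≤ a.unop.2.unop) (x : (Q'.obj (op a.unop.1)).obj m)

/-- simplicial structure. -/
noncomputable def ES.mapk {a : (Gn n)ᵒᵖ} {m m' : SimplexCategoryᵒᵖ} (α : m ⟶ m') :
    ES i j Q Q' a m → ES i j Q Q' a m'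
  | .lo h h' x => .lo h h' ((Q.obj (op a.unop.1)).map α x)
  | .hi h x => .hi h ((Q'.obj (op a.unop.1)).map α x)

open Classical in
/-- presheaf structure. -/
noncomputable def ES.mapa (g : Q ⟶ Q') {a b : (Gn n)ᵒᵖ} (f : a ⟶ b) {m : SimplexCategoryᵒᵖ} :
    ES i j Q Q' a m → ES i j Q Q' b m
  | .lo h _ x => if hb : b.unop.2.unop < j then
      .lo (h.trans (leOfHom f.unop.2.unop)) hb ((Q.map (Quiver.Hom.op f.unop.1)).app m x)
      else .hi (not_lt.mp hb) ((Q'.map (Quiver.Hom.op f.unop.1)).app m ((g.app _).app m x))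
  | .hi h x => .hi (h.trans (leOfHom f.unop.2.unop)) ((Q'.map (Quiver.Hom.op f.unop.1)).app m x)

/-- The presheaf equal to `Q` at the levels in `[i, j)` and to `Q'` at the levels `≥ j`. -/
noncomputable def two (i j : Fin (n + 1)) (g : Q ⟶ Q') : SP (Gn n) where
  obj a :=
    { obj := fun m => ES i j Q Q' a m
      map := fun α => ↾ fun w => ES.mapk α w
      map_id := fun m => by
        ext (w : ES i j Q Q' a m)
        cases w with
        | lo h h' x => exact congrArg (ES.lo h h') (sset_id _ _)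
        | hi h x => exact congrArg (ES.hi h) (sset_id _ _)
      map_comp := fun α β => by
        ext (w : ES i j Q Q' a _)
        cases w with
        | lo h h' x => exact congrArg (ES.lo h h') (sset_comp _ α β _)
        | hi h x => exact congrArg (ES.hi h) (sset_comp _ α β _) }
  map {a b} f :=
    { app := fun m => ↾ fun w => ES.mapa g f w
      naturality := fun m m' α => by
        ext (w : ES i j Q Q' a m)
        show ES.mapa g f (ES.mapk α w) = ES.mapk α (ES.mapa g f w)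
        cases w with
        | lo h h' x =>
          simp only [ES.mapk, ES.mapa]
          split_ifs with hb
          · exact congrArg (ES.lo _ hb) (sp_nat Q _ α _)
          · exact congrArg (ES.hi _) ((congrArg _ (hom_natk g α _)).trans (sp_nat Q' _ α _))
        | hi h x => exact congrArg (ES.hi _) (sp_nat Q' _ α _) }
  map_id a := by
    ext m (w : ES i j Q Q' a m)
    show ES.mapa g (𝟙 a) w = w
    cases w with
    | lo h h' x =>
      simp only [ES.mapa, dif_pos h']
      exact congrArg (ES.lo _ h') (sp_id Q _)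
    | hi h x => exact congrArg (ES.hi _) (sp_id Q' _)
  map_comp {a b c} f f' := by
    ext m (w : ES i j Q Q' a m)
    show ES.mapa g (f ≫ f') w = ES.mapa g f' (ES.mapa g f w)
    cases w with
    | lo h h' x =>
      by_cases hb : b.unop.2.unop < j
      · by_cases hc : c.unop.2.unop < j
        · simp only [ES.mapa, dif_pos hb, dif_pos hc]
          exact congrArg (ES.lo _ hc)
            (sp_comp Q (Quiver.Hom.op f.unop.1) (Quiver.Hom.op f'.unop.1) _)
        · simp only [ES.mapa, dif_pos hb, dif_neg hc]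
          refine congrArg (ES.hi _) ?_
          refine (sp_comp Q' (Quiver.Hom.op f.unop.1) (Quiver.Hom.op f'.unop.1) _).trans ?_
          exact congrArg _ (hom_nat g (Quiver.Hom.op f.unop.1) _).symm
      · have hc : ¬ c.unop.2.unop < j := fun hc => hb (lt_of_le_of_lt (leOfHom f'.unop.2.unop) hc)
        simp only [ES.mapa, dif_neg hb, dif_neg hc]
        exact congrArg (ES.hi _)
          (sp_comp Q' (Quiver.Hom.op f.unop.1) (Quiver.Hom.op f'.unop.1) _)
    | hi h x =>
      exact congrArg (ES.hi _)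
        (sp_comp Q' (Quiver.Hom.op f.unop.1) (Quiver.Hom.op f'.unop.1) _)

/-- the inclusion in `up i Q'`, on simplices. -/
noncomputable def ES.inc (hij : i ≤ j) (g : Q ⟶ Q') {a : (Gn n)ᵒᵖ} {m : SimplexCategoryᵒᵖ} :
    ES i j Q Q' a m → US i Q' a m
  | .lo h _ x => ⟨h, (g.app _).app m x⟩
  | .hi h x => ⟨hij.trans h, x⟩

/-- the inclusion in `up i Q'`. -/
noncomputable def twoInc (hij : i ≤ j) (g : Q ⟶ Q') : two i j g ⟶ up i Q' where
  app a :=
    { app := fun m => ↾ fun (w : ES i j Q Q' a m) => (ES.inc hij g w : US i Q' a m)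
      naturality := fun m m' α => by
        ext (w : ES i j Q Q' a m)
        cases w with
        | lo h h' x => exact congrArg (US.mk h) (hom_natk g α _)
        | hi h x => rfl }
  naturality a b f := by
    ext m (w : ES i j Q Q' a m)
    show ES.inc hij g (ES.mapa g f w) = _
    cases w with
    | lo h h' x =>
      simp only [ES.mapa]
      split_ifs with hb
      · exact congrArg (US.mk _) (hom_nat g (Quiver.Hom.op f.unop.1) _)
      · rfl
    | hi h x => rfl

theorem ES.inc_injective (hij : i ≤ j) (g : Q ⟶ Q') (hg : ∀ a, Mono (g.app a)) {a : (Gn n)ᵒᵖ}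
    {m : SimplexCategoryᵒᵖ} :
    Function.Injective (ES.inc hij g : ES i j Q Q' a m → US i Q' a m) := by
  intro w w' hw
  have := hg (op a.unop.1)
  cases w with
  | lo h h' x =>
    cases w' with
    | lo k k' x' =>
      exact congrArg (ES.lo h h') (inj_of_mono (g.app (op a.unop.1)) m (congrArg US.x hw))
    | hi k x' => exact absurd h' (not_lt.mpr k)
  | hi h x =>
    cases w' with
    | lo k k' x' => exact absurd k' (not_lt.mpr h)
    | hi k x' => exact congrArg (ES.hi h) (congrArg US.x hw)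

theorem two_trivCof (H : Tool) (hij : i ≤ j) (g : Q ⟶ Q') (hg : TrivCof g) : TrivCof (twoInc hij g) := by
  constructor
  · intro a
    apply mono_of_inj
    intro m
    exact ES.inc_injective hij g hg.1
  · intro a
    by_cases h : i ≤ a.unop.2.unop
    · by_cases h' : a.unop.2.unop < j
      · -- the level is `Q`
        let e : Q.obj (op a.unop.1) ⟶ (two i j g).obj a :=
          { app := fun m => ↾ fun x => (ES.lo h h' x : ES i j Q Q' a m)
            naturality := fun _ _ _ => rfl }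
        have he : ∀ m, Function.Bijective (e.app m) := by
          intro m
          constructor
          · intro x x' hx
            exact (ES.lo.inj hx)
          · rintro (w : ES i j Q Q' a m)
            cases w with
            | lo k k' x => exact ⟨x, rfl⟩
            | hi k x => exact absurd h' (not_lt.mpr k)
        have h1 : WE (e ≫ (twoInc hij g).app a ≫ upProj i Q' a) := by
          have : e ≫ (twoInc hij g).app a ≫ upProj i Q' a = g.app (op a.unop.1) := rfl
          rw [this]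
          exact hg.2 _
        have h2 : WE ((twoInc hij g).app a ≫ upProj i Q' a) := H.we_of_comp_left (we_of_bij H e he) h1
        exact H.we_of_comp_right (we_of_bij H _ (upProj_bij i Q' a h)) h2
      · apply we_of_bij H
        intro m
        refine ⟨ES.inc_injective hij g hg.1, ?_⟩
        rintro (w : US i Q' a m)
        exact ⟨(ES.hi (not_lt.mp h') w.x : ES i j Q Q' a m), rfl⟩
    · apply we_of_bij H
      intro m
      refine ⟨?_, fun w => (h (US.h w)).elim⟩
      rintro (w : ES i j Q Q' a m)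
      cases w with
      | lo k k' x => exact (h k).elim
      | hi k x => exact (h (hij.trans k)).elim

/-- maps out of `two i j g`, on simplices. -/
noncomputable def ES.desc {D : SP (Gn n)} (φ : Q ⟶ level D i) (φ' : Q' ⟶ level D j)
    {a : (Gn n)ᵒᵖ} {m : SimplexCategoryᵒᵖ} : ES i j Q Q' a m → (D.obj a).obj m
  | .lo h _ x => (D.map (gm (𝟙 a.unop.1) h)).app m ((φ.app (op a.unop.1)).app m x)
  | .hi h x => (D.map (gm (𝟙 a.unop.1) h)).app m ((φ'.app (op a.unop.1)).app m x)

/-- maps out of `two i j g`. -/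
noncomputable def twoDesc {D : SP (Gn n)} (hij : i ≤ j) (g : Q ⟶ Q') (φ : Q ⟶ level D i)
    (φ' : Q' ⟶ level D j) (h : φ ≫ levelMap D hij = g ≫ φ') : two i j g ⟶ D where
  app a :=
    { app := fun m => ↾ fun (w : ES i j Q Q' a m) => ES.desc φ φ' w
      naturality := fun m m' α => by
        ext (w : ES i j Q Q' a m)
        cases w with
        | lo h h' x =>
          refine (congrArg _ (hom_natk φ α _)).trans ?_
          exact sp_nat D (gm (𝟙 a.unop.1) h) α _
        | hi h x =>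
          refine (congrArg _ (hom_natk φ' α _)).trans ?_
          exact sp_nat D (gm (𝟙 a.unop.1) h) α _ }
  naturality a b f := by
    ext m (w : ES i j Q Q' a m)
    show ES.desc φ φ' (ES.mapa g f w) = (D.map f).app m (ES.desc φ φ' w)
    cases w with
    | lo h1 h2 x =>
      simp only [ES.mapa]
      split_ifs with hb
      · refine (congrArg _ (hom_nat φ (Quiver.Hom.op f.unop.1) x)).trans ?_
        refine (sp_comp D _ _ _).symm.trans (Eq.trans ?_ (sp_comp D _ _ _))
        refine congrArg (fun t => (D.map t).app m _) (gm_eq _ _ ?_)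
        exact (Category.id_comp _).trans (Category.comp_id _).symm
      · have h3 : ∀ (θ : (Th n)ᵒᵖ) (y : (Q.obj θ).obj m),
            (φ'.app θ).app m ((g.app θ).app m y) =
              (D.map (gm (𝟙 θ.unop) hij)).app m ((φ.app θ).app m y) := fun θ y =>
          congrArg (fun t => (t.app θ).app m y) h.symm
        refine (congrArg _ (hom_nat φ' (Quiver.Hom.op f.unop.1) _)).trans ?_
        refine (congrArg _ (congrArg _ (h3 _ x))).trans ?_
        refine (sp_comp D _ _ _).symm.trans ?_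
        refine (sp_comp D _ _ _).symm.trans (Eq.trans ?_ (sp_comp D _ _ _))
        refine congrArg (fun t => (D.map t).app m _) (gm_eq _ _ ?_)
        refine ((congrArg (· ≫ _) (Category.id_comp _)).trans ?_).trans (Category.comp_id _).symm
        exact Category.comp_id _
    | hi h1 x =>
      refine (congrArg _ (hom_nat φ' (Quiver.Hom.op f.unop.1) x)).trans ?_
      refine (sp_comp D _ _ _).symm.trans (Eq.trans ?_ (sp_comp D _ _ _))
      refine congrArg (fun t => (D.map t).app m _) (gm_eq _ _ ?_)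
      exact (Category.id_comp _).trans (Category.comp_id _).symm

end Two

/-- maps `up i Q' ⟶ D` restrict to maps `Q' ⟶ level D i`. -/
noncomputable def upRestr (i : Fin (n + 1)) {Q : SP (Th n)} {D : SP (Gn n)} (Φ : up i Q ⟶ D) :
    Q ⟶ level D i where
  app θ :=
    { app := fun m => ↾ fun x => (Φ.app (op (θ.unop, op i))).app m
        (⟨le_refl i, x⟩ : US i Q (op (θ.unop, op i)) m)
      naturality := fun m m' α => by
        ext x
        exact hom_natk Φ α (⟨le_refl i, x⟩ : US i Q (op (θ.unop, op i)) m) }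
  naturality θ θ' f := by
    ext m x
    exact hom_nat Φ (gm f.unop (le_refl i)) (⟨le_refl i, x⟩ : US i Q (op (θ.unop, op i)) m)

theorem levelMap_injFibration_of (H : Tool) {D : SP (Gn n)} (hD : InjFib D) {i j : Fin (n + 1)} (h : i ≤ j) :
    InjFibration (levelMap D h) := by
  intro Q Q' g hg
  refine ⟨fun {φ φ'} sq => ?_⟩
  obtain ⟨Φ, hΦ⟩ := hD (twoInc h g) (two_trivCof H h g hg) (twoDesc h g φ φ' sq.w)
  refine ⟨⟨{ l := upRestr i Φ, fac_left := ?_, fac_right := ?_ }⟩⟩
  · ext θ m x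
    by_cases hij : i < j
    · have h1 := congrArg (fun t => (t.app (op (θ.unop, op i))).app m
        (ES.lo (le_refl i) hij x : ES i j Q Q' (op (θ.unop, op i)) m)) hΦ
      refine h1.trans ?_
      exact sp_id D _
    · have h2 : j ≤ i := not_lt.mp hij
      have h1 := congrArg (fun t => (t.app (op (θ.unop, op i))).app m
        (ES.hi h2 ((g.app θ).app m x) : ES i j Q Q' (op (θ.unop, op i)) m)) hΦ
      refine h1.trans ?_
      have h3 : (φ'.app θ).app m ((g.app θ).app m x) =
          (D.map (gm (𝟙 θ.unop) h)).app m ((φ.app θ).app m x) :=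
        congrArg (fun t => (t.app θ).app m x) sq.w.symm
      refine (congrArg ((D.map (gm (𝟙 θ.unop) h2)).app m) h3).trans ?_
      refine (sp_comp D _ _ _).symm.trans (Eq.trans ?_ (sp_id D _))
      refine congrArg (fun t => (D.map t).app m _) (gm_eq _ _ ?_)
      exact Category.comp_id _
  · ext θ m x
    refine (hom_nat Φ (gm (𝟙 θ.unop) h) (⟨le_refl i, x⟩ : US i Q' (op (θ.unop, op i)) m)).symm.trans
      ?_
    have h1 := congrArg (fun t => (t.app (op (θ.unop, op j))).app m
      (ES.hi (le_refl j) x : ES i j Q Q' (op (θ.unop, op j)) m)) hΦ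
    refine Eq.trans ?_ (h1.trans (sp_id D _))
    refine congrArg ((Φ.app (op (θ.unop, op j))).app m) ?_
    exact congrArg (US.mk _) (sp_id Q' _)

section Extend

variable {A : Type} [SmallCategory A]

theorem ext_of_trivFib (H : Tool) {X Y Z : SP A} (i : X ⟶ Y) (hp : TrivFib (Mp.pre i Z)) {K L : SSet.{0}}
    (j : K ⟶ L) [Mono j] (u : tn X L ⟶ Z) (v : tn Y K ⟶ Z)
    (huv : tnMap (𝟙 X) j ≫ u = tnMap i (𝟙 K) ≫ v) :
    ∃ l : tn Y L ⟶ Z, tnMap i (𝟙 L) ≫ l = u ∧ tnMap (𝟙 Y) j ≫ l = v := by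
  have := H.trivFib_lift hp j
  have sq : CommSq (Mp.adj.symm v) j (Mp.pre i Z) (Mp.adj.symm u) := ⟨by
    apply Mp.adj.injective
    rw [Mp.adj_pre, Mp.adj_comp, Equiv.apply_symm_apply, Equiv.apply_symm_apply, huv]⟩
  refine ⟨Mp.adj sq.lift, ?_, ?_⟩
  · rw [← Mp.adj_pre, sq.fac_right, Equiv.apply_symm_apply]
  · rw [← Mp.adj_comp, sq.fac_left, Equiv.apply_symm_apply]

theorem trivFib_of_ext {X Y Z : SP A} (i : X ⟶ Y)
    (h : ∀ {K L : SSet.{0}} (j : K ⟶ L) [Mono j] (u : tn X L ⟶ Z) (v : tn Y K ⟶ Z),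
      tnMap (𝟙 X) j ≫ u = tnMap i (𝟙 K) ≫ v →
      ∃ l : tn Y L ⟶ Z, tnMap i (𝟙 L) ≫ l = u ∧ tnMap (𝟙 Y) j ≫ l = v) :
    TrivFib (Mp.pre i Z) := by
  intro n
  refine ⟨fun {v u} sq => ?_⟩
  obtain ⟨l, hl1, hl2⟩ := h (SSet.boundary n).ι (Mp.adj u) (Mp.adj v) (by
    rw [← Mp.adj_comp, ← Mp.adj_pre, sq.w])
  refine ⟨⟨{ l := Mp.adj.symm l, fac_left := ?_, fac_right := ?_ }⟩⟩
  · apply Mp.adj.injective
    rw [Mp.adj_comp, Equiv.apply_symm_apply, hl2]
  · apply Mp.adj.injective
    rw [Mp.adj_pre, Equiv.apply_symm_apply, hl1]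

end Extend

section Assemble

variable {X X' D : SP (Gn n)} {K L : SSet.{0}}

/-- the level of a map out of a tensor. -/
noncomputable def lev (u : tn X L ⟶ D) (k : Fin (n + 1)) : tn (level X k) L ⟶ level D k :=
  levelHom u k

/-- a partial extension at the level `k`. -/
structure St (f : X ⟶ X') (j : K ⟶ L) (u : tn X L ⟶ D) (v : tn X' K ⟶ D) (k : Fin (n + 1)) :
    Type where
  l : tn (level X' k) L ⟶ level D k
  hl1 : tnMap (levelHom f k) (𝟙 L) ≫ l = lev u k
  hl2 : tnMap (𝟙 (level X' k)) j ≫ l = lev v k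

theorem lev_nat (u : tn X L ⟶ D) {i k : Fin (n + 1)} (h : i ≤ k) :
    lev u i ≫ levelMap D h = tnMap (levelMap X h) (𝟙 L) ≫ lev u k := by
  ext θ m x
  exact (hom_nat u (gm (𝟙 θ.unop) h) x).symm

theorem levelHom_nat (f : X ⟶ X') {i k : Fin (n + 1)} (h : i ≤ k) :
    levelHom f i ≫ levelMap X' h = levelMap X h ≫ levelHom f k := by
  ext θ m x
  exact (hom_nat f (gm (𝟙 θ.unop) h) x).symm

theorem exists_last (H : Tool) (hD : InjFib D) (f : X ⟶ X') (hf : ∀ a, Mono (f.app a))
    (h : ∀ i k : Fin (n + 1), i ≤ k → HoEq (Mp.pre (levelHom f i) (level D k)))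
    (j : K ⟶ L) [Mono j] (u : tn X L ⟶ D) (v : tn X' K ⟶ D)
    (huv : tnMap (𝟙 X) j ≫ u = tnMap f (𝟙 K) ≫ v) (k : Fin (n + 1)) :
    Nonempty (St f j u v k) := by
  have hZ := level_injFib_of H hD k
  have htf : TrivFib (Mp.pre (levelHom f k) (level D k)) :=
    H.trivFib_of_hoEq (H.Mp_kan _ hZ) (H.Mp_kan _ hZ) (H.Mp_pre_kanFib _ (fun a => hf _) hZ) (h k k le_rfl)
  obtain ⟨l, hl1, hl2⟩ := ext_of_trivFib H (levelHom f k) htf j (lev u k) (lev v k)
    (congrArg (fun t => lev t k) huv)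
  exact ⟨⟨l, hl1, hl2⟩⟩

theorem exists_step (H : Tool) (hD : InjFib D) (f : X ⟶ X') (hf : ∀ a, Mono (f.app a))
    (h : ∀ i k : Fin (n + 1), i ≤ k → HoEq (Mp.pre (levelHom f i) (level D k)))
    (j : K ⟶ L) [Mono j] (u : tn X L ⟶ D) (v : tn X' K ⟶ D)
    (huv : tnMap (𝟙 X) j ≫ u = tnMap f (𝟙 K) ≫ v) {i k : Fin (n + 1)} (hik : i ≤ k)
    (s : St f j u v k) :
    ∃ t : St f j u v i, t.l ≫ levelMap D hik = tnMap (levelMap X' hik) (𝟙 L) ≫ s.l := by
  obtain ⟨l, hl1, hl2, hl3⟩ := H.rel_lift (levelHom f i) (fun a => hf _) (levelMap D hik)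
    (levelMap_injFibration_of H hD hik) (level_injFib_of H hD i) (level_injFib_of H hD k)
    (h i i le_rfl) (h i k hik) j (lev u i) (lev v i) (tnMap (levelMap X' hik) (𝟙 L) ≫ s.l)
    (congrArg (fun t => lev t i) huv) (by
      rw [lev_nat, ← s.hl1, ← Category.assoc, ← Category.assoc, tnMap_comp, tnMap_comp,
        levelHom_nat]) (by
      rw [lev_nat, ← s.hl2, ← Category.assoc, ← Category.assoc, tnMap_comp, tnMap_comp]
      rfl)
  exact ⟨⟨l, hl1, hl2⟩, hl3⟩

theorem levelMap_comp {i k l : Fin (n + 1)} (h : i ≤ k) (h' : k ≤ l) :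
    levelMap D h ≫ levelMap D h' = levelMap D (h.trans h') := by
  ext θ m x
  refine (sp_comp D (gm (𝟙 θ.unop) h) (gm (𝟙 θ.unop) h') x).symm.trans ?_
  refine congrArg (fun t => (D.map t).app m x) (gm_eq _ _ ?_)
  exact Category.comp_id _

theorem levelMap_id (i : Fin (n + 1)) (h : i ≤ i) : levelMap D h = 𝟙 _ := by
  ext θ m x
  exact sp_id D x

theorem compat_all {ℓ : ∀ k : Fin (n + 1), tn (level X' k) L ⟶ level D k}
    (hℓ : ∀ i : Fin n, ℓ i.castSucc ≫ levelMap D (Fin.castSucc_le_succ i) =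
      tnMap (levelMap X' (Fin.castSucc_le_succ i)) (𝟙 L) ≫ ℓ i.succ)
    (i k : Fin (n + 1)) (h : i ≤ k) :
    ℓ i ≫ levelMap D h = tnMap (levelMap X' h) (𝟙 L) ≫ ℓ k := by
  induction k using Fin.induction with
  | zero =>
    obtain rfl : i = 0 := Fin.le_zero_iff.mp h
    rw [levelMap_id, levelMap_id, Category.comp_id]
    exact (Category.id_comp _).symm
  | succ k ih =>
    rcases eq_or_lt_of_le h with h1 | h1
    · subst h1
      rw [levelMap_id, levelMap_id, Category.comp_id]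
      exact (Category.id_comp _).symm
    · have h2 : i ≤ k.castSucc := Fin.le_castSucc_iff.mpr h1
      have h3 := ih h2
      have h4 := hℓ k
      calc ℓ i ≫ levelMap D h = (ℓ i ≫ levelMap D h2) ≫ levelMap D (Fin.castSucc_le_succ k) := by
            rw [Category.assoc, levelMap_comp]
        _ = tnMap (levelMap X' h2) (𝟙 L) ≫ tnMap (levelMap X' (Fin.castSucc_le_succ k)) (𝟙 L) ≫
              ℓ k.succ := by
            rw [h3, Category.assoc, h4]
        _ = tnMap (levelMap X' h) (𝟙 L) ≫ ℓ k.succ := by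
            rw [← Category.assoc, tnMap_comp, levelMap_comp, Category.comp_id]

/-- a compatible family of maps on the levels is a map. -/
theorem exists_assemble (ℓ : ∀ k : Fin (n + 1), tn (level X' k) L ⟶ level D k)
    (hℓ : ∀ (i k : Fin (n + 1)) (h : i ≤ k),
      ℓ i ≫ levelMap D h = tnMap (levelMap X' h) (𝟙 L) ≫ ℓ k) :
    ∃ Φ : tn X' L ⟶ D, ∀ k, lev Φ k = ℓ k := by
  refine ⟨
    { app := fun a => (ℓ a.unop.2.unop).app (op a.unop.1)
      naturality := fun a b f => ?_ }, fun k => rfl⟩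
  ext m ⟨x, y⟩
  have hab : a.unop.2.unop ≤ b.unop.2.unop := leOfHom f.unop.2.unop
  have h1 : f = gm (𝟙 a.unop.1) hab ≫ gm f.unop.1 (le_refl b.unop.2.unop) :=
    gm_eq _ _ (Category.comp_id _).symm
  have h2 : ((ℓ b.unop.2.unop).app (op a.unop.1)).app m
      ((X'.map (gm (𝟙 a.unop.1) hab)).app m x, y) =
      (D.map (gm (𝟙 a.unop.1) hab)).app m
        (((ℓ a.unop.2.unop).app (op a.unop.1)).app m (x, y)) :=
    (congrArg (fun t => (t.app (op a.unop.1)).app m (x, y)) (hℓ _ _ hab)).symm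
  show ((ℓ b.unop.2.unop).app (op b.unop.1)).app m ((X'.map f).app m x, y) =
    (D.map f).app m (((ℓ a.unop.2.unop).app (op a.unop.1)).app m (x, y))
  have h3 : (X'.map f).app m x = (X'.map (gm f.unop.1 (le_refl b.unop.2.unop))).app m
      ((X'.map (gm (𝟙 a.unop.1) hab)).app m x) :=
    (congrArg (fun t => (X'.map t).app m x) h1).trans (sp_comp X' _ _ _)
  have h4 : ∀ z : (D.obj a).obj m, (D.map f).app m z =
      (D.map (gm f.unop.1 (le_refl b.unop.2.unop))).app m
      ((D.map (gm (𝟙 a.unop.1) hab)).app m z) := fun z =>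
    (congrArg (fun t => (D.map t).app m z) h1).trans (sp_comp D _ _ _)
  refine (congrArg (fun t => ((ℓ b.unop.2.unop).app (op b.unop.1)).app m (t, y)) h3).trans ?_
  refine Eq.trans ?_ (h4 _).symm
  refine Eq.trans ?_ (congrArg _ h2)
  exact hom_nat (ℓ b.unop.2.unop) (Quiver.Hom.op f.unop.1) (_, y)

theorem lev_injective {u u' : tn X L ⟶ D} (h : ∀ k, lev u k = lev u' k) : u = u' := by
  ext a m x
  exact congrArg (fun t => (t.app (op a.unop.1)).app m x) (h a.unop.2.unop)

theorem exists_ext (H : Tool) (hD : InjFib D) (f : X ⟶ X') (hf : ∀ a, Mono (f.app a))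
    (h : ∀ i k : Fin (n + 1), i ≤ k → HoEq (Mp.pre (levelHom f i) (level D k)))
    (j : K ⟶ L) [Mono j] (u : tn X L ⟶ D) (v : tn X' K ⟶ D)
    (huv : tnMap (𝟙 X) j ≫ u = tnMap f (𝟙 K) ≫ v) :
    ∃ l : tn X' L ⟶ D, tnMap f (𝟙 L) ≫ l = u ∧ tnMap (𝟙 X') j ≫ l = v := by
  obtain ⟨s0⟩ := exists_last H hD f hf h j u v huv (Fin.last n)
  let S : ∀ k : Fin (n + 1), St f j u v k := fun k =>
    Fin.reverseInduction (motive := fun k => St f j u v k) s0
      (fun i s => (exists_step H hD f hf h j u v huv (Fin.castSucc_le_succ i) s).choose) k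
  have hS : ∀ i : Fin n, (S i.castSucc).l ≫ levelMap D (Fin.castSucc_le_succ i) =
      tnMap (levelMap X' (Fin.castSucc_le_succ i)) (𝟙 L) ≫ (S i.succ).l := by
    intro i
    have h1 : S i.castSucc = (exists_step H hD f hf h j u v huv (Fin.castSucc_le_succ i)
        (S i.succ)).choose := Fin.reverseInduction_castSucc _
    rw [h1]
    exact (exists_step H hD f hf h j u v huv (Fin.castSucc_le_succ i) (S i.succ)).choose_spec
  obtain ⟨Φ, hΦ⟩ := exists_assemble (fun k => (S k).l)
    (fun i k hik => compat_all (ℓ := fun k => (S k).l) hS i k hik)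
  refine ⟨Φ, lev_injective fun k => ?_, lev_injective fun k => ?_⟩
  · have h1 : lev (tnMap f (𝟙 L) ≫ Φ) k = tnMap (levelHom f k) (𝟙 L) ≫ lev Φ k := rfl
    rw [h1, hΦ k, (S k).hl1]
  · have h1 : lev (tnMap (𝟙 X') j ≫ Φ) k = tnMap (𝟙 (level X' k)) j ≫ lev Φ k := rfl
    rw [h1, hΦ k, (S k).hl2]

theorem level_lemma_mono (H : Tool) (hD : InjFib D) (f : X ⟶ X') (hf : ∀ a, Mono (f.app a))
    (h : ∀ i k : Fin (n + 1), i ≤ k → HoEq (Mp.pre (levelHom f i) (level D k))) :
    HoEq (Mp.pre f D) :=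
  H.trivFib_hoEq (trivFib_of_ext f fun j _ u v huv => exists_ext H hD f hf h j u v huv)

end Assemble

theorem level_lemma_of (H : Tool) {D : SP (Gn n)} (hD : InjFib D) {X X' : SP (Gn n)} (f : X ⟶ X')
    (h : ∀ i k : Fin (n + 1), i ≤ k → HoEq (Mp.pre (levelHom f i) (level D k))) :
    HoEq (Mp.pre f D) := by
  obtain ⟨C, c, r, hcr, hc, hr⟩ := H.exists_cyl f
  have h1 : HoEq (Mp.pre r D) := H.sdr_pre_hoEq hr D
  have h2 : HoEq (Mp.pre c D) := by
    refine level_lemma_mono H hD c hc fun i k hik => ?_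
    have hk := level_injFib_of H hD k
    have h3 : HoEq (Mp.pre (levelHom r i) (level D k)) :=
      H.sdr_pre_hoEq (H.sdr_whisker hr (Prod.sectL (Th n) (op i))) (level D k)
    refine H.hoEq_of_comp_left (H.Mp_kan _ hk) (H.Mp_kan _ hk) (H.Mp_kan _ hk) h3 ?_
    have h4 : Mp.pre (levelHom r i) (level D k) ≫ Mp.pre (levelHom c i) (level D k) =
        Mp.pre (levelHom f i) (level D k) := by
      rw [← hcr]; rfl
    rw [h4]
    exact h i k hik
  have h5 : Mp.pre f D = Mp.pre r D ≫ Mp.pre c D := by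
    rw [← hcr]; rfl
  rw [h5]
  exact H.hoEq_comp (H.Mp_kan _ hD) (H.Mp_kan _ hD) (H.Mp_kan _ hD) h1 h2

end Level

end Pool.Agent.Helper30.FL16
end
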