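import Mathlib.AlgebraicTopology.SimplicialSet.AnodyneExtensions.Inner.Basic
import Mathlib.AlgebraicTopology.SimplicialSet.AnodyneExtensions.RankNat
import Pool.Agent.Helper16.FDG.G01

/- Helper58.FL2.Cos -/
section
/-!
# Cosimplicial simplicial presheaves, frames, simplicial endofunctors
-/

open CategoryTheory MonoidalCategory Simplicial Opposite

set_option autoImplicit false

namespace FL

section

variable {A : Type} [SmallCategory A]

/-- Elementwise functoriality of a cosimplicial object. -/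
lemma cos_comp (F : SimplexCategory ⥤ SP A) {l m n : SimplexCategory} (α : l ⟶ m) (β : m ⟶ n)
    {a : Aᵒᵖ} {k : SimplexCategoryᵒᵖ} (x : ((F.obj l).obj a).obj k) :
    ((F.map (α ≫ β)).app a).app k x = ((F.map β).app a).app k (((F.map α).app a).app k x) := by
  rw [F.map_comp]; rfl

lemma cos_id (F : SimplexCategory ⥤ SP A) {l : SimplexCategory}
    {a : Aᵒᵖ} {k : SimplexCategoryᵒᵖ} (x : ((F.obj l).obj a).obj k) :
    ((F.map (𝟙 l)).app a).app k x = x := by
  rw [F.map_id]; rfl

/-- The simplicial set `m ↦ Hom(F(m) × Δ[m], X)` attached to a cosimplicial object `F`. -/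
def Yc (F : SimplexCategory ⥤ SP A) (X : SP A) : SSet.{0} where
  obj m := MpS (F.obj m.unop) X m.unop
  map {m n} α := ↾ fun φ => (MpS.ofHom n.unop (F.map α.unop)).comp (MpS.res α.unop φ)
  map_id m := by
    ext φ a k s x
    exact (congrArg (MpS.app φ a k (s ≫ 𝟙 _)) (cos_id F x)).trans
      (congrArg (fun t => MpS.app φ a k t x) (Category.comp_id s))
  map_comp {m n r} α β := by
    ext φ a k s x
    exact (congrArg (MpS.app φ a k (s ≫ (β.unop ≫ α.unop))) (cos_comp F β.unop α.unop x)).trans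
      (congrArg (fun t => MpS.app φ a k t _) (Category.assoc s β.unop α.unop).symm)

/-- The map `Yc G X ⟶ Yc F X` induced by `u : F ⟶ G`. -/
def Yc.pre {F G : SimplexCategory ⥤ SP A} (u : F ⟶ G) (X : SP A) : Yc G X ⟶ Yc F X where
  app m := ↾ fun φ => (MpS.ofHom m.unop (u.app m.unop)).comp φ
  naturality m n α := by
    ext φ
    refine MpS.ext ?_
    funext a k s x
    refine congrArg (MpS.app φ a k (s ≫ α.unop)) ?_
    exact (ConcreteCategory.congr_hom (NatTrans.congr_app (NatTrans.congr_app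
      (u.naturality α.unop) a) k) x).symm

/-- The map `Yc F X ⟶ Yc F Y` induced by `f : X ⟶ Y`. -/
def Yc.post (F : SimplexCategory ⥤ SP A) {X Y : SP A} (f : X ⟶ Y) : Yc F X ⟶ Yc F Y where
  app m := ↾ fun φ => MpS.comp φ (MpS.ofHom m.unop f)
  naturality m n α := by
    ext φ
    rfl

/-- The constant cosimplicial object. -/
abbrev cc (P : SP A) : SimplexCategory ⥤ SP A := (Functor.const SimplexCategory).obj P

/-- The element `x` of the cosimplicial object `F` is supported on the set of vertices `U`. -/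
def Supp (F : SimplexCategory ⥤ SP A) {N : SimplexCategory} (U : Finset (Fin (N.len + 1)))
    {a : Aᵒᵖ} {k : SimplexCategoryᵒᵖ} (x : ((F.obj N).obj a).obj k) : Prop :=
  ∃ (m : SimplexCategory) (α : m ⟶ N) (y : ((F.obj m).obj a).obj k),
    (∀ i, α.toOrderHom i ∈ U) ∧ ((F.map α).app a).app k y = x

/-- The face `F_U ⊆ F_N` of a cosimplicial object. -/
def fface (F : SimplexCategory ⥤ SP A) {N : SimplexCategory} (U : Finset (Fin (N.len + 1))) :
    Sb (F.obj N) where
  mem a k := { x | Supp F U x }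
  mapA := by
    rintro a b f k _ ⟨m, α, y, h, rfl⟩
    exact ⟨m, α, ((F.obj m).map f).app k y, h, hom_nat (F.map α) f y⟩
  mapk := by
    rintro a k l g _ ⟨m, α, y, h, rfl⟩
    exact ⟨m, α, ((F.obj m).obj a).map g y, h, hom_natk (F.map α) g y⟩

/-- The face `F_U ⊗ Δ^U ⊆ F_N ⊗ Δ[N]`. -/
def cface (F : SimplexCategory ⥤ SP A) {N : SimplexCategory} (U : Finset (Fin (N.len + 1))) :
    Sb (tn (F.obj N) (SSet.stdSimplex.obj N)) where
  mem a k := { z | Supp F U z.1 ∧ ∀ i, (SSet.stdSimplex.objEquiv z.2).toOrderHom i ∈ U }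
  mapA := by
    rintro a b f k ⟨x, s⟩ ⟨hx, hs⟩
    exact ⟨(fface F U).mapA f k x hx, hs⟩
  mapk := by
    rintro a k l g ⟨x, s⟩ ⟨hx, hs⟩
    exact ⟨(fface F U).mapk a g x hx, fun i => hs _⟩

/-- The gluing condition for the cosimplicial object `F`, relative to `X`: the maps
`F_S ∪ F_{S'} ⟶ F_{S ∪ S'}` are local for all `S`, `S'` with exactly one common element. -/
def Ext (X : SP A) (F : SimplexCategory ⥤ SP A) : Prop :=
  ∀ (N : SimplexCategory) (S S' : Finset (Fin (N.len + 1))) (v : Fin (N.len + 1)),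
    S ∩ S' = {v} → LocT X (fface F S ⊔ fface F S') (fface F (S ∪ S'))

/-- A frame on `A`: a functor which attaches to every object of `A` a cosimplicial object. -/
abbrev Fr (A : Type) [SmallCategory A] : Type 1 := A ⥤ (SimplexCategory ⥤ SP A)

/-- The constant frame `a ↦ h_a`. -/
abbrev yoFr (A : Type) [SmallCategory A] : Fr A := yo A ⋙ Functor.const SimplexCategory

/-- The simplicial presheaf `a ↦ (m ↦ Hom(T(a)(m) × Δ[m], X))` attached to a frame. -/
def Kf (T : Fr A) (X : SP A) : SP A where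
  obj a := Yc (T.obj a.unop) X
  map f := Yc.pre (T.map f.unop) X
  map_id a := by
    ext m φ
    refine MpS.ext ?_
    funext b k s x
    refine congrArg (MpS.app φ b k s) ?_
    show (((T.map (𝟙 a.unop)).app m.unop).app b).app k x = x
    rw [T.map_id]
    rfl
  map_comp f g := by
    ext m φ
    refine MpS.ext ?_
    funext b k s x
    refine congrArg (MpS.app φ b k s) ?_
    show (((T.map (g.unop ≫ f.unop)).app m.unop).app b).app k x = _
    rw [T.map_comp]
    rfl

end

/-- A simplicial endofunctor `K` of the category of simplicial presheaves on `A`, with a natural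
transformation `X ⟶ K X`. -/
structure SFun (A : Type) [SmallCategory A] : Type 1 where
  obj : SP A → SP A
  mapS : ∀ {X Y : SP A} {m : SimplexCategory}, MpS X Y m → MpS (obj X) (obj Y) m
  mapS_res : ∀ {X Y : SP A} {m n : SimplexCategory} (α : n ⟶ m) (φ : MpS X Y m),
    mapS (φ.res α) = (mapS φ).res α
  mapS_id : ∀ (X : SP A) (m : SimplexCategory),
    mapS (MpS.ofHom m (𝟙 X)) = MpS.ofHom m (𝟙 (obj X))
  mapS_comp : ∀ {X Y Z : SP A} {m : SimplexCategory} (φ : MpS X Y m) (ψ : MpS Y Z m),
    mapS (φ.comp ψ) = (mapS φ).comp (mapS ψ)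
  map : ∀ {X Y : SP A}, (X ⟶ Y) → (obj X ⟶ obj Y)
  mapS_ofHom : ∀ {X Y : SP A} (m : SimplexCategory) (f : X ⟶ Y),
    mapS (MpS.ofHom m f) = MpS.ofHom m (map f)
  η : ∀ X : SP A, X ⟶ obj X
  η_nat : ∀ {X Y : SP A} {m : SimplexCategory} (φ : MpS X Y m),
    φ.comp (MpS.ofHom m (η Y)) = (MpS.ofHom m (η X)).comp (mapS φ)

namespace SFun

variable {A : Type} [SmallCategory A]

/-- A simplicial presheaf map is determined by its constant simplices. -/
lemma ofHom_injective {X Y : SP A} {f g : X ⟶ Y}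
    (h : ∀ m, MpS.ofHom m f = MpS.ofHom m g) : f = g := by
  ext a k x
  exact congrFun (congrFun (congrFun (congrFun (congrArg MpS.app (h k.unop)) a) k) (𝟙 _)) x

lemma map_id (K : SFun A) (X : SP A) : K.map (𝟙 X) = 𝟙 (K.obj X) :=
  ofHom_injective fun m => by rw [← K.mapS_ofHom, K.mapS_id]

lemma map_comp (K : SFun A) {X Y Z : SP A} (f : X ⟶ Y) (g : Y ⟶ Z) :
    K.map (f ≫ g) = K.map f ≫ K.map g :=
  ofHom_injective fun m => by
    rw [← K.mapS_ofHom]
    show K.mapS ((MpS.ofHom m f).comp (MpS.ofHom m g)) = _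
    rw [K.mapS_comp, K.mapS_ofHom, K.mapS_ofHom]
    rfl

lemma η_naturality (K : SFun A) {X Y : SP A} (f : X ⟶ Y) : f ≫ K.η Y = K.η X ≫ K.map f :=
  ofHom_injective fun m => by
    have := K.η_nat (MpS.ofHom m f)
    rw [K.mapS_ofHom] at this
    exact this

/-- The identity. -/
def one (A : Type) [SmallCategory A] : SFun A where
  obj X := X
  mapS φ := φ
  mapS_res _ _ := rfl
  mapS_id _ _ := rfl
  mapS_comp _ _ := rfl
  map f := f
  mapS_ofHom _ _ := rfl
  η X := 𝟙 X
  η_nat _ := rfl

/-- The composite `X ↦ L (K X)`. -/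
def comp (K L : SFun A) : SFun A where
  obj X := L.obj (K.obj X)
  mapS φ := L.mapS (K.mapS φ)
  mapS_res α φ := by rw [K.mapS_res, L.mapS_res]
  mapS_id X m := by rw [K.mapS_id, L.mapS_id]
  mapS_comp φ ψ := by rw [K.mapS_comp, L.mapS_comp]
  map f := L.map (K.map f)
  mapS_ofHom m f := by rw [K.mapS_ofHom, L.mapS_ofHom]
  η X := K.η X ≫ L.η (K.obj X)
  η_nat {X Y m} φ := by
    have h1 := K.η_nat φ
    have h2 := L.η_nat (K.mapS φ)
    show (φ.comp (MpS.ofHom m (K.η Y))).comp (MpS.ofHom m (L.η (K.obj Y))) =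
      (MpS.ofHom m (K.η X)).comp ((MpS.ofHom m (L.η (K.obj X))).comp (L.mapS (K.mapS φ)))
    rw [h1, ← h2]
    rfl

/-- The functor underlying a simplicial endofunctor. -/
@[simps]
def toFunctor (K : SFun A) : SP A ⥤ SP A where
  obj := K.obj
  map := K.map
  map_id := K.map_id
  map_comp := K.map_comp

/-- The simplicial endofunctor `Kf T` attached to a frame `T` with an augmentation
`T ⟶ (a ↦ h_a)`. -/
def ofFrame (T : Fr A) (τ : T ⟶ yoFr A) : SFun A where
  obj X := Kf T X
  mapS {X Y m} φ :=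
    { app := fun a k s ψ => MpS.comp ψ (MpS.res s φ)
      nat_left := fun _ _ _ _ => rfl
      nat_right := fun a k l g s x => rfl }
  mapS_res α φ := rfl
  mapS_id X m := rfl
  mapS_comp φ ψ := rfl
  map f :=
    { app := fun a => Yc.post (T.obj a.unop) f
      naturality := fun _ _ _ => rfl }
  mapS_ofHom m f := rfl
  η X :=
    { app := fun a =>
        { app := fun k => ↾ fun (x : (X.obj a).obj k) =>
            (MpS.ofHom k.unop ((τ.app a.unop).app k.unop)).comp (yoS (a := a.unop) x)
          naturality := fun k l α => by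
            ext x
            refine MpS.ext ?_
            funext b m s u
            have e := ConcreteCategory.congr_hom (NatTrans.congr_app (NatTrans.congr_app
              ((τ.app a.unop).naturality α.unop) b) m) u
            show (X.map (Quiver.Hom.op ((((τ.app a.unop).app l.unop).app b).app m u))).app m
                ((X.obj a).map s.op ((X.obj a).map α x)) =
              (X.map (Quiver.Hom.op ((((τ.app a.unop).app k.unop).app b).app m
                ((((T.obj a.unop).map α.unop).app b).app m u)))).app m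
                ((X.obj a).map (s ≫ α.unop).op x)
            rw [← sset_comp]
            refine congrArg (fun t => (X.map (Quiver.Hom.op t)).app m _) ?_
            exact e.symm }
      naturality := fun a b f => by
        ext k x
        refine MpS.ext ?_
        funext c m s u
        have e := ConcreteCategory.congr_hom (NatTrans.congr_app (NatTrans.congr_app
          (NatTrans.congr_app (τ.naturality f.unop) k.unop) c) m) u
        show (X.map (Quiver.Hom.op ((((τ.app b.unop).app k.unop).app c).app m u))).app m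
            ((X.obj b).map s.op ((X.map f).app k x)) =
          (X.map (Quiver.Hom.op ((((τ.app a.unop).app k.unop).app c).app m
            ((((T.map f.unop).app k.unop).app c).app m u)))).app m
            ((X.obj a).map s.op x)
        rw [← sp_nat, ← sp_comp]
        refine congrArg (fun t => (X.map t).app m _) ?_
        exact congrArg Quiver.Hom.op e.symm }
  η_nat {X Y m} φ := by
    refine MpS.ext ?_
    funext a k s x
    refine MpS.ext ?_
    funext b l t u
    show (Y.map _).app l ((Y.obj a).map t.op (φ.app a k s x)) = φ.app b l (t ≫ s) ((X.map _).app l _)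
    refine Eq.trans ?_ (φ.nat_left _ l (t ≫ s) _).symm
    refine congrArg ((Y.map _).app l) ?_
    exact (φ.nat_right a t.op s x).symm

end SFun

end FL
end

/- Helper58.FL2.Hm -/
section
/-!
# Mapping presheaves, vertices, Segal conditions on wreath products
-/

open CategoryTheory MonoidalCategory Simplicial Opposite

set_option autoImplicit false

namespace FL

noncomputable section

variable {C : Type} [SmallCategory C]

/-- The object `[1](c)`. -/
abbrev seg (c : C) : Wr C := ⟨1, fun _ => c⟩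

/-- The functoriality of `c ↦ [1](c)`. -/
abbrev segMap {c c' : C} (f : c ⟶ c') : seg c ⟶ seg c' := Wr.ofComp fun _ => f

/-- The vertex `i` of `[m](c)`, as a map `[0] ⟶ [m](c)`. -/
def vtx (θ : Wr C) (i : Fin (θ.len + 1)) : (Wr.pt : Wr C) ⟶ θ :=
  ({ f := ⟨fun _ => i, fun _ _ _ => le_refl _⟩, g := fun (j : Fin 0) _ _ => j.elim0 } :
    Wr.Hom (⟨0, Fin.elim0⟩ : Wr C) θ)

lemma vtx_comp {θ θ' : Wr C} (i : Fin (θ.len + 1)) (φ : θ ⟶ θ') :
    vtx θ i ≫ φ = vtx θ' (Wr.Hom.f φ i) :=
  Wr.hom_ext' rfl fun (j : Fin 0) _ _ _ => j.elim0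

/-- The map `X([1](c)) ⟶ X([0]) × X([0])` given by the two vertices of `[1](c)`. -/
def ends (X : SP (Wr C)) (c : C) :
    X.obj (op (seg c)) ⟶ X.obj (op Wr.pt) ⊗ X.obj (op Wr.pt) :=
  CartesianMonoidalCategory.lift (X.map (vtx (seg c) 0).op) (X.map (vtx (seg c) 1).op)

lemma ends_app (X : SP (Wr C)) (c : C) (k : SimplexCategoryᵒᵖ)
    (z : (X.obj (op (seg c))).obj k) :
    (ends X c).app k z = ((X.map (vtx (seg c) 0).op).app k z, (X.map (vtx (seg c) 1).op).app k z) :=
  rfl

lemma ends_nat (X : SP (Wr C)) {c c' : C} (f : c ⟶ c') :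
    X.map (segMap f).op ≫ ends X c = ends X c' := by
  ext k z
  · show (X.map (vtx (seg c) 0).op).app k ((X.map (segMap f).op).app k z) = _
    rw [← sp_comp, ← op_comp, vtx_comp]
    rfl
  · show (X.map (vtx (seg c) 1).op).app k ((X.map (segMap f).op).app k z) = _
    rw [← sp_comp, ← op_comp, vtx_comp]
    rfl

/-- The vertices of `X`. -/
abbrev Vt (X : SP (Wr C)) : Type := (X.obj (op Wr.pt)).obj (op ⦋0⦌)

/-- The mapping presheaf `X(x, y)`, the fibre of `X([1](c)) ⟶ X([0]) × X([0])` over `(x, y)`. -/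
def Hm (X : SP (Wr C)) (x y : Vt X) : SP C where
  obj c := Fb (ends X c.unop) (x, y)
  map {c c'} f :=
    { app := fun k => ↾ fun z => ⟨(X.map (segMap f.unop).op).app k z.1, by
        have e := ConcreteCategory.congr_hom (NatTrans.congr_app (ends_nat X f.unop) k) z.1
        exact e.trans z.2⟩
      naturality := fun k l α => by
        refine ConcreteCategory.hom_ext _ _ fun z => ?_
        exact Subtype.ext (sp_nat X (segMap f.unop).op α z.1) }
  map_id c := by
    refine NatTrans.ext (funext fun k => ?_)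
    refine ConcreteCategory.hom_ext _ _ fun z => ?_
    refine Subtype.ext ?_
    refine Eq.trans ?_ (sp_id X z.1)
    refine congrArg (fun t => (X.map (Quiver.Hom.op t)).app k z.1) ?_
    refine Wr.hom_ext' rfl fun i j h h' => ?_
    obtain rfl : i = j := jump_id.mp h
    exact Wr.ofComp_g (X := fun _ => c.unop) (Y := fun _ => c.unop) _ i h
  map_comp {c c' c''} f g := by
    refine NatTrans.ext (funext fun k => ?_)
    refine ConcreteCategory.hom_ext _ _ fun z => ?_
    refine Subtype.ext ?_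
    refine Eq.trans ?_ (sp_comp X (segMap f.unop).op (segMap g.unop).op z.1)
    refine congrArg (fun t => (X.map (Quiver.Hom.op t)).app k z.1) ?_
    refine Wr.hom_ext' rfl fun i j h h' => ?_
    obtain rfl : i = j := jump_id.mp h
    have e := Wr.comp_g (X := seg c''.unop) (Y := seg c'.unop) (Z := seg c.unop)
      (segMap g.unop) (segMap f.unop) (i := i) (j := i) (k := i) (jump_id.mpr rfl)
      (jump_id.mpr rfl)
    refine (Wr.ofComp_g (X := fun _ => c''.unop) (Y := fun _ => c.unop) _ i h).trans ?_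
    refine Eq.trans ?_ e.symm
    exact (congrArg₂ (· ≫ ·)
      (Wr.ofComp_g (X := fun _ => c''.unop) (Y := fun _ => c'.unop) (fun _ => g.unop) i
        (jump_id.mpr rfl))
      (Wr.ofComp_g (X := fun _ => c'.unop) (Y := fun _ => c.unop) (fun _ => f.unop) i
        (jump_id.mpr rfl))).symm

/-- The image of a vertex. -/
abbrev vtMap {X Y : SP (Wr C)} (f : X ⟶ Y) (x : Vt X) : Vt Y := (f.app (op Wr.pt)).app (op ⦋0⦌) x

/-- The functoriality of `X(x, y)`. -/
def HmMap {X Y : SP (Wr C)} (f : X ⟶ Y) (x y : Vt X) :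
    Hm X x y ⟶ Hm Y (vtMap f x) (vtMap f y) where
  app c := Fb.map (f.app (op (seg c.unop))) (f.app (op Wr.pt) ⊗ₘ f.app (op Wr.pt))
    (by
      ext k z
      · exact (hom_nat f (vtx (seg c.unop) 0).op z).symm
      · exact (hom_nat f (vtx (seg c.unop) 1).op z).symm) (x, y)
  naturality c c' g := by
    refine NatTrans.ext (funext fun k => ?_)
    refine ConcreteCategory.hom_ext _ _ fun z => ?_
    exact Subtype.ext (hom_nat f (segMap g.unop).op z.1)

/-- The vertex `0` or `1` of `V[1](B)`, on `k`-simplices: the constant maps to `0` or `1`. -/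
def vend (B : SP C) (i : Fin 2) : disc ((Functor.const (Wr C)ᵒᵖ).obj PUnit.{1}) ⟶ V1 B where
  app θ :=
    { app := fun k => ↾ fun _ =>
        { f := ⟨fun _ => i, fun _ _ _ => le_refl _⟩
          g := fun p j h => by
            exfalso
            have := h.1.trans_lt ((Fin.castSucc_lt_succ).trans_le h.2)
            exact lt_irrefl _ this }
      naturality := fun k l α => by
        ext x
        exact VS.ext' rfl fun p j h h' => by
          exfalso
          have := h.1.trans_lt ((Fin.castSucc_lt_succ).trans_le h.2)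
          exact lt_irrefl _ this }
  naturality θ θ' φ := by
    ext k x
    exact VS.ext' rfl fun p j h h' => by
      exfalso
      have := h.1.trans_lt ((Fin.castSucc_lt_succ).trans_le h.2)
      exact lt_irrefl _ this

/-- Vertex-fibrant presheaves: objectwise Kan, and `X([1](c)) ⟶ X([0]) × X([0])` is a Kan
fibration. -/
def VFib (X : SP (Wr C)) : Prop := ObjKan X ∧ ∀ c : C, KanFib (ends X c)

/-- The object `[r](c_1, …, c_r)` attached to `[r+1](c_1, …, c_{r+1})`. -/
abbrev init {r : ℕ} (c : Fin (r + 1) → C) : Wr C := ⟨r, fun i => c i.castSucc⟩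

/-- The inclusion `[r](c_1, …, c_r) ⟶ [r+1](c_1, …, c_{r+1})`. -/
def initMap {r : ℕ} (c : Fin (r + 1) → C) : init c ⟶ (⟨r + 1, c⟩ : Wr C) :=
  ({ f := ⟨fun i => i.castSucc, fun _ _ h => h⟩
     g := fun (i : Fin r) (j : Fin (r + 1)) h => eqToHom (by
      have h1 : i.1 ≤ j.1 := h.1
      have h2 : j.1 + 1 ≤ i.1 + 1 := h.2
      refine congrArg c (Fin.ext ?_)
      show i.1 = j.1
      omega) } : Wr.Hom (init c) (⟨r + 1, c⟩ : Wr C))

/-- The inclusion `[1](c_{r+1}) ⟶ [r+1](c_1, …, c_{r+1})` of the last segment. -/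
def lastMap' {r : ℕ} (c : Fin (r + 1) → C) : seg (c (Fin.last r)) ⟶ (⟨r + 1, c⟩ : Wr C) :=
  ({ f := ⟨fun i => ⟨r + i.1, by have h : i.1 < 2 := i.2; show r + i.1 < r + 1 + 1; omega⟩,
       fun i j h => by
        rw [Fin.le_def] at h ⊢
        show r + i.1 ≤ r + j.1
        omega⟩
     g := fun (i : Fin 1) (j : Fin (r + 1)) h => eqToHom (by
      have h1 : r + i.1 ≤ j.1 := h.1
      refine congrArg c (Fin.ext ?_)
      have h2 : j.1 < r + 1 := j.2
      show r = j.1
      omega) } : Wr.Hom (seg (c (Fin.last r))) (⟨r + 1, c⟩ : Wr C))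

lemma init_last {r : ℕ} (c : Fin (r + 1) → C) :
    vtx (init c) (Fin.last r) ≫ initMap c = vtx (seg (c (Fin.last r))) 0 ≫ lastMap' c := by
  rw [vtx_comp, vtx_comp]
  rfl

/-- The map `X([r+1](c)) ⟶ X([r](c_1, …, c_r)) ×_{X([0])} X([1](c_{r+1}))`. -/
def binMap (X : SP (Wr C)) {r : ℕ} (c : Fin (r + 1) → C) :
    X.obj (op ⟨r + 1, c⟩) ⟶ Fp (X.map (vtx (init c) (Fin.last r)).op)
      (X.map (vtx (seg (c (Fin.last r))) 0).op) :=
  Fp.lift (X.map (initMap c).op) (X.map (lastMap' c).op) (by
    rw [← X.map_comp, ← X.map_comp, ← op_comp, ← op_comp, init_last])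

/-- The Segal condition. -/
def BSeg (X : SP (Wr C)) : Prop := ∀ (r : ℕ) (c : Fin (r + 1) → C), HoEq (binMap X c)

/-- The Segal condition, for injectively fibrant presheaves: locality with respect to the
spines. -/
def SpLoc (X : SP (Wr C)) : Prop := ∀ θ : Wr C, Loc X (sieveIncl (spine θ))

/-- The coskeleton: `θ ↦ S ^ (vertices of θ)`. -/
@[simps obj_obj]
def Cosk (C : Type) [SmallCategory C] (S : SSet.{0}) : SP (Wr C) where
  obj θ :=
    { obj := fun k => Fin (θ.unop.len + 1) → S.obj k
      map := fun α => ↾ fun u i => S.map α (u i)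
      map_id := fun k => by
        ext u i
        exact sset_id S _
      map_comp := fun α β => by
        ext u i
        exact sset_comp S α β _ }
  map φ :=
    { app := fun k => ↾ fun u i => u (Wr.Hom.f φ.unop i)
      naturality := fun _ _ _ => rfl }
  map_id _ := rfl
  map_comp _ _ := rfl

/-- The map from `Y` to the coskeleton of `Y([0])`. -/
def toCosk (Y : SP (Wr C)) : Y ⟶ Cosk C (Y.obj (op Wr.pt)) where
  app θ :=
    { app := fun k => ↾ fun y i => (Y.map (vtx θ.unop i).op).app k y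
      naturality := fun k l α => by
        refine ConcreteCategory.hom_ext _ _ fun y => ?_
        funext i
        exact sp_nat Y (vtx θ.unop i).op α y }
  naturality θ θ' φ := by
    refine NatTrans.ext (funext fun k => ?_)
    refine ConcreteCategory.hom_ext _ _ fun y => ?_
    funext i
    show (Y.map (vtx θ'.unop i).op).app k ((Y.map φ).app k y) =
      (Y.map (vtx θ.unop (Wr.Hom.f φ.unop i)).op).app k y
    rw [← sp_comp, ← vtx_comp]
    rfl

/-- The restriction `Y|_S` of `Y` along a map `g : S ⟶ Y([0])`. -/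
@[simps obj]
def Rs (Y : SP (Wr C)) {S : SSet.{0}} (g : S ⟶ Y.obj (op Wr.pt)) : SP (Wr C) where
  obj θ :=
    { obj := fun k => { z : (Y.obj θ).obj k × (Fin (θ.unop.len + 1) → S.obj k) //
        ∀ i, (Y.map (vtx θ.unop i).op).app k z.1 = g.app k (z.2 i) }
      map := fun {k l} α => ↾ fun z => ⟨((Y.obj θ).map α z.1.1, fun i => S.map α (z.1.2 i)),
        fun i => by
          show (Y.map (vtx θ.unop i).op).app l ((Y.obj θ).map α z.1.1) = g.app l (S.map α (z.1.2 i))
          rw [sp_nat, sset_nat, z.2 i]⟩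
      map_id := fun k => by
        refine ConcreteCategory.hom_ext _ _ fun z => ?_
        exact Subtype.ext (Prod.ext (sset_id _ _) (funext fun i => sset_id S _))
      map_comp := fun α β => by
        refine ConcreteCategory.hom_ext _ _ fun z => ?_
        exact Subtype.ext (Prod.ext (sset_comp _ α β _) (funext fun i => sset_comp S α β _)) }
  map {θ θ'} φ :=
    { app := fun k => ↾ fun z => ⟨((Y.map φ).app k z.1.1, fun i => z.1.2 (Wr.Hom.f φ.unop i)),
        fun i => by
          refine Eq.trans ?_ (z.2 (Wr.Hom.f φ.unop i))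
          show (Y.map (vtx θ'.unop i).op).app k ((Y.map φ).app k z.1.1) = _
          rw [← sp_comp, ← vtx_comp]
          rfl⟩
      naturality := fun k l α => by
        refine ConcreteCategory.hom_ext _ _ fun z => ?_
        exact Subtype.ext (Prod.ext (sp_nat Y φ α _) rfl) }
  map_id θ := by
    refine NatTrans.ext (funext fun k => ?_)
    refine ConcreteCategory.hom_ext _ _ fun z => ?_
    exact Subtype.ext (Prod.ext (sp_id Y _) rfl)
  map_comp φ ψ := by
    refine NatTrans.ext (funext fun k => ?_)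
    refine ConcreteCategory.hom_ext _ _ fun z => ?_
    exact Subtype.ext (Prod.ext (sp_comp Y φ ψ _) rfl)

/-- The projection `Y|_S ⟶ Y`. -/
def Rs.fst (Y : SP (Wr C)) {S : SSet.{0}} (g : S ⟶ Y.obj (op Wr.pt)) : Rs Y g ⟶ Y where
  app _ := { app := fun _ => ↾ fun z => z.1.1, naturality := fun _ _ _ => rfl }
  naturality _ _ _ := rfl

/-- The projection `Y|_S ⟶ Cosk S`. -/
def Rs.snd (Y : SP (Wr C)) {S : SSet.{0}} (g : S ⟶ Y.obj (op Wr.pt)) : Rs Y g ⟶ Cosk C S where
  app _ := { app := fun _ => ↾ fun z => z.1.2, naturality := fun _ _ _ => rfl }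
  naturality _ _ _ := rfl

end

end FL
end

/- Helper58.FL2.Frames -/
section
/-!
# The frames of the completion functors, the bar frame
-/

open CategoryTheory MonoidalCategory Opposite

set_option autoImplicit false

namespace FL

noncomputable section

section E

variable {C : Type} [SmallCategory C]

/-- The product of `P` with the presheaf `[r](c) ↦ {0, …, m}^{r+1}` (the nerve of the chaotic
category with objects `0, …, m`). -/
@[simps obj_obj]
def E0o (P : SP (Wr C)) (m : SimplexCategory) : SP (Wr C) where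
  obj θ :=
    { obj := fun k => (P.obj θ).obj k × (Fin (θ.unop.len + 1) → Fin (m.len + 1))
      map := fun α => ↾ fun z => ((P.obj θ).map α z.1, z.2)
      map_id := fun k => by
        refine ConcreteCategory.hom_ext _ _ fun z => ?_
        exact Prod.ext (sset_id _ _) rfl
      map_comp := fun α β => by
        refine ConcreteCategory.hom_ext _ _ fun z => ?_
        exact Prod.ext (sset_comp _ α β _) rfl }
  map φ :=
    { app := fun k => ↾ fun z => ((P.map φ).app k z.1, fun i => z.2 (Wr.Hom.f φ.unop i))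
      naturality := fun k l α => by
        refine ConcreteCategory.hom_ext _ _ fun z => ?_
        exact Prod.ext (sp_nat P φ α _) rfl }
  map_id θ := by
    refine NatTrans.ext (funext fun k => ?_)
    refine ConcreteCategory.hom_ext _ _ fun z => ?_
    exact Prod.ext (sp_id P _) rfl
  map_comp φ ψ := by
    refine NatTrans.ext (funext fun k => ?_)
    refine ConcreteCategory.hom_ext _ _ fun z => ?_
    exact Prod.ext (sp_comp P φ ψ _) rfl

/-- Functoriality of `E0o`. -/
def E0m {P Q : SP (Wr C)} (f : P ⟶ Q) {m n : SimplexCategory} (α : m ⟶ n) :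
    E0o P m ⟶ E0o Q n where
  app θ :=
    { app := fun k => ↾ fun z => ((f.app θ).app k z.1, fun i => α.toOrderHom (z.2 i))
      naturality := fun k l β => by
        refine ConcreteCategory.hom_ext _ _ fun z => ?_
        exact Prod.ext (hom_natk f β _) rfl }
  naturality θ θ' φ := by
    refine NatTrans.ext (funext fun k => ?_)
    refine ConcreteCategory.hom_ext _ _ fun z => ?_
    exact Prod.ext (hom_nat f φ _) rfl

/-- The cosimplicial object `m ↦ P × E[m]`, functorially in `P`. -/
@[simps obj_obj obj_map]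
def E0 (C : Type) [SmallCategory C] : SP (Wr C) ⥤ (SimplexCategory ⥤ SP (Wr C)) where
  obj P :=
    { obj := fun m => E0o P m
      map := fun α => E0m (𝟙 P) α
      map_id := fun _ => rfl
      map_comp := fun _ _ => rfl }
  map f :=
    { app := fun m => E0m f (𝟙 m)
      naturality := fun _ _ _ => rfl }
  map_id _ := rfl
  map_comp _ _ := rfl

/-- The projection `P × E[m] ⟶ P`. -/
def E0aug (P : SP (Wr C)) : (E0 C).obj P ⟶ cc P where
  app m :=
    { app := fun θ =>
        { app := fun k => ↾ fun z => z.1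
          naturality := fun _ _ _ => rfl }
      naturality := fun _ _ _ => rfl }
  naturality _ _ _ := rfl

/-- The sub-presheaf of `P × E[m]` of all pairs `(x, w)` such that `x ∈ S` or `w` is constant
with value `v`. -/
def E0rel {P : SP (Wr C)} (S : Sb P) (m : SimplexCategory) (v : Fin (m.len + 1)) :
    Sb (E0o P m) where
  mem θ k := { z | z.1 ∈ S.mem θ k ∨ ∀ i, z.2 i = v }
  mapA := by
    rintro θ θ' φ k ⟨x, w⟩ (h | h)
    · exact Or.inl (S.mapA φ k x h)
    · exact Or.inr fun i => h _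
  mapk := by
    rintro θ k l α ⟨x, w⟩ (h | h)
    · exact Or.inl (S.mapk θ α x h)
    · exact Or.inr fun i => h _

/-- The sub-presheaf of vertices of `[m](c)`: all morphisms which factor through `[0]`. -/
def vert (θ : Wr C) : Sb (rep θ) where
  mem η _ := { (φ : η.unop ⟶ θ) | ∃ v, ∀ t, Wr.Hom.f φ t = v }
  mapA := by
    rintro η η' f k φ ⟨v, hv⟩
    exact ⟨v, fun t => hv _⟩
  mapk := by
    rintro η k l α φ h
    exact h

/-- The sub-presheaf `{0, 1}` of the nerve of the free-standing isomorphism. -/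
def vertE (C : Type) [SmallCategory C] : Sb (disc (isoPsh C)) where
  mem η _ := { w | ∃ v : Bool, ∀ t, w t = v }
  mapA := by
    rintro η η' f k w ⟨v, hv⟩
    exact ⟨v, fun t => hv _⟩
  mapk := by
    rintro η k l α w h
    exact h

/-- The frame `θ ↦ (m ↦ h_θ × E[m])`. -/
abbrev T0 (C : Type) [SmallCategory C] : Fr (Wr C) := yo (Wr C) ⋙ E0 C

/-- The augmentation of the frame `T0`. -/
def T0aug (C : Type) [SmallCategory C] : T0 C ⟶ yoFr (Wr C) where
  app θ := E0aug (rep θ)
  naturality _ _ _ := rfl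

end E

section Wreath

variable {C : Type} [SmallCategory C]

/-- The image of a simplex of `V[m](X)` under a morphism `φ : θ ⟶ θ'` of the wreath product and
maps `X_j ⟶ Y_k` for `φ(j-1) < k ≤ φ(j)`. -/
@[simps f]
def VS.pushW {m m' : ℕ} {X : Fin m → SP C} {Y : Fin m' → SP C}
    (p : Fin (m + 1) →o Fin (m' + 1)) (q : ∀ (j : Fin m) (k : Fin m'), Jump p j k → (X j ⟶ Y k))
    {θ : Wr C} {k : SimplexCategoryᵒᵖ} (u : VS X θ k) : VS Y θ k where
  f := p.comp u.f
  g i l h := ((q h.split.choose l h.split.choose_spec.2).app (op (θ.obj i))).app k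
    (u.g i h.split.choose h.split.choose_spec.1)

lemma VS.pushW_g {m m' : ℕ} {X : Fin m → SP C} {Y : Fin m' → SP C}
    (p : Fin (m + 1) →o Fin (m' + 1)) (q : ∀ (j : Fin m) (k : Fin m'), Jump p j k → (X j ⟶ Y k))
    {θ : Wr C} {k : SimplexCategoryᵒᵖ} (u : VS X θ k) {i : Fin θ.len} {j : Fin m} {l : Fin m'}
    (h : Jump u.f i j) (h' : Jump p j l) :
    (VS.pushW p q u).g i l (h.comp h') =
      ((q j l h').app (op (θ.obj i))).app k (u.g i j h) := by
  have hj := (h.comp h').split.choose_spec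
  have e : (h.comp h').split.choose = j := hj.2.unique h'
  show ((q _ l hj.2).app (op (θ.obj i))).app k (u.g i _ hj.1) = _
  have aux : ∀ j' (e : j' = j) (h1 : Jump u.f i j') (h2 : Jump p j' l),
      ((q j' l h2).app (op (θ.obj i))).app k (u.g i j' h1) =
        ((q j l h').app (op (θ.obj i))).app k (u.g i j h) := by
    rintro j' rfl h1 h2; rfl
  exact aux _ e _ _

/-- The map `V[m](X) ⟶ V[m'](Y)` induced by `p : [m] → [m']` and maps `X_j ⟶ Y_k` for
`p(j-1) < k ≤ p(j)`. -/
def V.mapW {m m' : ℕ} {X : Fin m → SP C} {Y : Fin m' → SP C}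
    (p : Fin (m + 1) →o Fin (m' + 1)) (q : ∀ (j : Fin m) (k : Fin m'), Jump p j k → (X j ⟶ Y k)) :
    V X ⟶ V Y where
  app θ :=
    { app := fun k => ↾ fun (u : VS X θ.unop k) => u.pushW p q
      naturality := fun k l α => by
        refine ConcreteCategory.hom_ext _ _ fun (u : VS X θ.unop k) => ?_
        refine VS.ext' rfl fun i r h h' => ?_
        obtain ⟨j, hj, hj'⟩ := Jump.split (f := u.f) (g := p) h
        refine (VS.pushW_g p q (u.mapk α) hj hj').trans ?_
        show _ = ((Y r).obj _).map α ((u.pushW p q).g i r _)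
        rw [VS.pushW_g p q u hj hj']
        exact hom_natk (q j r hj') α _ }
  naturality θ θ' φ := by
    refine NatTrans.ext (funext fun k => ?_)
    refine ConcreteCategory.hom_ext _ _ fun (u : VS X θ.unop k) => ?_
    refine VS.ext' rfl fun i r h h' => ?_
    obtain ⟨j, hj, hj'⟩ := Jump.split (f := u.f.comp (Wr.Hom.f φ.unop)) (g := p) h
    obtain ⟨s, hs, hs'⟩ := Jump.split (f := Wr.Hom.f φ.unop) (g := u.f) hj
    refine (VS.pushW_g p q (u.mapθ φ.unop) hj hj').trans ?_
    refine Eq.trans ?_ (VS.mapθ_g φ.unop (u.pushW p q) hs (hs'.comp hj')).symm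
    have e1 := VS.mapθ_g φ.unop u hs hs'
    have e2 := VS.pushW_g p q u hs' hj'
    have e1' : (u.mapθ φ.unop).g i j hj = (u.mapθ φ.unop).g i j (hs.comp hs') := rfl
    rw [e1', e1, e2]
    exact hom_nat (q j r hj') _ _

lemma V.mapW_app {m m' : ℕ} {X : Fin m → SP C} {Y : Fin m' → SP C}
    (p : Fin (m + 1) →o Fin (m' + 1)) (q : ∀ (j : Fin m) (k : Fin m'), Jump p j k → (X j ⟶ Y k))
    (θ : (Wr C)ᵒᵖ) (k : SimplexCategoryᵒᵖ) (u : VS X θ.unop k) :
    ((V.mapW p q).app θ).app k u = u.pushW p q := rfl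

/-- The functor `θ ↦ V[m](G(θ_1), …, G(θ_m))` attached to a functor `G`. -/
def VG (G : C ⥤ SP C) : Wr C ⥤ SP (Wr C) where
  obj θ := V fun i => G.obj (θ.obj i)
  map {θ θ'} φ := V.mapW (X := fun i => G.obj (θ.obj i)) (Y := fun i => G.obj (θ'.obj i))
    (Wr.Hom.f φ) fun j k h => G.map (Wr.Hom.g φ j k h)
  map_id θ := by
    refine NatTrans.ext (funext fun η => NatTrans.ext (funext fun k => ?_))
    refine ConcreteCategory.hom_ext _ _ fun (u : VS (fun i => G.obj (θ.obj i)) η.unop k) => ?_
    refine VS.ext' rfl fun i j h h' => ?_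
    refine (VS.pushW_g (Y := fun i => G.obj (θ.obj i)) (Wr.Hom.f (𝟙 θ))
      (fun j k h => G.map (Wr.Hom.g (𝟙 θ) j k h)) u h' (jump_id.mpr rfl)).trans ?_
    show (((G.map (𝟙 (θ.obj j))).app _).app k _) = _
    rw [G.map_id]
    rfl
  map_comp {θ θ' θ''} φ ψ := by
    refine NatTrans.ext (funext fun η => NatTrans.ext (funext fun k => ?_))
    refine ConcreteCategory.hom_ext _ _ fun (u : VS (fun i => G.obj (θ.obj i)) η.unop k) => ?_
    refine VS.ext' rfl fun i l h h' => ?_
    obtain ⟨j, hj, hj'⟩ := Jump.split (f := u.f) (g := Wr.Hom.f (φ ≫ ψ)) h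
    obtain ⟨s, hs, hs'⟩ := Jump.split (f := Wr.Hom.f φ) (g := Wr.Hom.f ψ) hj'
    refine (VS.pushW_g (Y := fun i => G.obj (θ''.obj i)) (Wr.Hom.f (φ ≫ ψ))
      (fun j k h => G.map (Wr.Hom.g (φ ≫ ψ) j k h)) u hj hj').trans ?_
    refine Eq.trans ?_ (VS.pushW_g (X := fun i => G.obj (θ'.obj i))
      (Y := fun i => G.obj (θ''.obj i)) (Wr.Hom.f ψ) (fun j k h => G.map (Wr.Hom.g ψ j k h))
      (VS.pushW (Y := fun i => G.obj (θ'.obj i)) (Wr.Hom.f φ)
        (fun j k h => G.map (Wr.Hom.g φ j k h)) u) (hj.comp hs) hs').symm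
    rw [VS.pushW_g (Y := fun i => G.obj (θ'.obj i)) (Wr.Hom.f φ)
      (fun j k h => G.map (Wr.Hom.g φ j k h)) u hj hs]
    have e := Wr.comp_g φ ψ hs hs'
    have e' : Wr.Hom.g (φ ≫ ψ) j l hj' = Wr.Hom.g (φ ≫ ψ) j l (hs.comp hs') := rfl
    rw [e', e, G.map_comp]
    rfl

/-- The functoriality of `VG`. -/
def VGmap {G G' : C ⥤ SP C} (τ : G ⟶ G') : VG G ⟶ VG G' where
  app θ := V.map fun i => τ.app (θ.obj i)
  naturality θ θ' φ := by
    refine NatTrans.ext (funext fun η => NatTrans.ext (funext fun k => ?_))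
    refine ConcreteCategory.hom_ext _ _ fun (u : VS (fun i => G.obj (θ.obj i)) η.unop k) => ?_
    refine VS.ext' rfl fun i l h h' => ?_
    obtain ⟨j, hj, hj'⟩ := Jump.split (f := u.f) (g := Wr.Hom.f φ) h
    refine (congrArg (((τ.app (θ'.obj l)).app (op (η.unop.obj i))).app k)
      (VS.pushW_g (Y := fun i => G.obj (θ'.obj i)) (Wr.Hom.f φ)
        (fun j k h => G.map (Wr.Hom.g φ j k h)) u hj hj')).trans ?_
    refine Eq.trans ?_ (VS.pushW_g (Y := fun i => G'.obj (θ'.obj i)) (Wr.Hom.f φ)
      (fun j k h => G'.map (Wr.Hom.g φ j k h)) (u.push fun i => τ.app (θ.obj i)) hj hj').symm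
    exact ConcreteCategory.congr_hom (NatTrans.congr_app (NatTrans.congr_app
      (τ.naturality (Wr.Hom.g φ j l hj')) (op (η.unop.obj i))) k) _

/-- The isomorphism `V[m](h_{θ_1}, …, h_{θ_m}) ⟶ h_θ`. -/
def VGyo (C : Type) [SmallCategory C] : VG (yo C) ⟶ yo (Wr C) where
  app θ :=
    { app := fun η =>
        { app := fun k => ↾ fun (u : VS (fun i => rep (θ.obj i)) η.unop k) =>
            (({ f := u.f, g := fun i j h => u.g i j h } : Wr.Hom η.unop θ) : η.unop ⟶ θ)
          naturality := fun k l α => rfl }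
      naturality := fun η η' f => by
        refine NatTrans.ext (funext fun k => ?_)
        refine ConcreteCategory.hom_ext _ _ fun (u : VS (fun i => rep (θ.obj i)) η.unop k) => ?_
        refine Wr.hom_ext' rfl fun i l h h' => ?_
        obtain ⟨j, hj, hj'⟩ := Jump.split (f := Wr.Hom.f f.unop) (g := u.f) h
        refine (VS.mapθ_g f.unop u hj hj').trans ?_
        exact (Wr.comp_g (X := η'.unop) (Y := η.unop) (Z := θ) f.unop
          ({ f := u.f, g := fun i j h => u.g i j h } : Wr.Hom η.unop θ) hj hj').symm }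
  naturality θ θ' φ := by
    refine NatTrans.ext (funext fun η => NatTrans.ext (funext fun k => ?_))
    refine ConcreteCategory.hom_ext _ _ fun (u : VS (fun i => rep (θ.obj i)) η.unop k) => ?_
    refine Wr.hom_ext' rfl fun i l h h' => ?_
    obtain ⟨j, hj, hj'⟩ := Jump.split (f := u.f) (g := Wr.Hom.f φ) h
    refine (VS.pushW_g (Y := fun i => rep (θ'.obj i)) (Wr.Hom.f φ)
      (fun j k h => repMap (Wr.Hom.g φ j k h)) u hj hj').trans ?_
    exact (Wr.comp_g (X := η.unop) (Y := θ) (Z := θ')
      ({ f := u.f, g := fun i j h => u.g i j h } : Wr.Hom η.unop θ) φ hj hj').symm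

/-- The frame `θ ↦ (m ↦ V[r](T(θ_1)_m, …, T(θ_r)_m))`. -/
def VFr (T : Fr C) : Fr (Wr C) where
  obj θ :=
    { obj := fun m => V fun i => (T.obj (θ.obj i)).obj m
      map := fun α => V.map fun i => (T.obj (θ.obj i)).map α
      map_id := fun m => by
        refine NatTrans.ext (funext fun η => NatTrans.ext (funext fun k => ?_))
        refine ConcreteCategory.hom_ext _ _ fun u => ?_
        exact VS.ext' rfl fun i j h h' => cos_id (T.obj (θ.obj j)) _
      map_comp := fun α β => by
        refine NatTrans.ext (funext fun η => NatTrans.ext (funext fun k => ?_))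
        refine ConcreteCategory.hom_ext _ _ fun u => ?_
        exact VS.ext' rfl fun i j h h' => cos_comp (T.obj (θ.obj j)) α β _ }
  map {θ θ'} φ :=
    { app := fun m => (VG (T ⋙ (evaluation _ _).obj m)).map φ
      naturality := fun m n α => ((VGmap (Functor.whiskerLeft T
        ((evaluation SimplexCategory (SP C)).map α))).naturality φ).symm }
  map_id θ := by
    refine NatTrans.ext (funext fun m => ?_)
    exact (VG (T ⋙ (evaluation _ _).obj m)).map_id θ
  map_comp φ ψ := by
    refine NatTrans.ext (funext fun m => ?_)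
    exact (VG (T ⋙ (evaluation _ _).obj m)).map_comp φ ψ

/-- The augmentation of `VFr T`. -/
def VFrAug {T : Fr C} (τ : T ⟶ yoFr C) : VFr T ⟶ yoFr (Wr C) where
  app θ :=
    { app := fun m => (V.map fun i => (τ.app (θ.obj i)).app m) ≫ (VGyo C).app θ
      naturality := fun m n α => by
        refine NatTrans.ext (funext fun η => NatTrans.ext (funext fun k => ?_))
        refine ConcreteCategory.hom_ext _ _ fun u => ?_
        refine Wr.hom_ext' rfl fun i j h h' => ?_
        exact ConcreteCategory.congr_hom (NatTrans.congr_app (NatTrans.congr_app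
          ((τ.app (θ.obj j)).naturality α) (op (η.unop.obj i))) k) _ }
  naturality θ θ' φ := by
    refine NatTrans.ext (funext fun m => ?_)
    have e1 := (VGmap (G := T ⋙ (evaluation _ _).obj m) (G' := yo C)
      { app := fun c => (τ.app c).app m
        naturality := fun c c' f => congrArg (fun t => NatTrans.app t m) (τ.naturality f) }).naturality φ
    have e2 := (VGyo C).naturality φ
    refine (Category.assoc _ _ _).symm.trans ?_
    refine (congrArg (· ≫ (VGyo C).app θ') e1).trans ?_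
    refine (Category.assoc _ _ _).trans ?_
    refine (congrArg (_ ≫ ·) e2).trans ?_
    exact (Category.assoc _ _ _).symm

end Wreath

/-- The frame of the completion at level `j`. -/
def Tfr : (n _j : ℕ) → Fr (Th n)
  | 0, _ => yoFr (Th 0)
  | (n + 1), 0 => T0 (Th n)
  | (n + 1), (j + 1) => VFr (Tfr n j)

/-- The augmentation of the frame `Tfr n j`. -/
def TfrAug : (n j : ℕ) → (Tfr n j ⟶ yoFr (Th n))
  | 0, _ => 𝟙 (yoFr (Th 0))
  | (n + 1), 0 => T0aug (Th n)
  | (n + 1), (j + 1) => VFrAug (TfrAug n j)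

section Bar

variable {A : Type} [SmallCategory A]

/-- A `k`-simplex of the bar construction at `b`: `b ⟶ b_0 ⟶ … ⟶ b_k ⟶ a`. -/
structure BrS (a b : A) (k : SimplexCategory) : Type where
  σ : Chain A k
  u : b ⟶ σ.obj 0
  v : σ.obj (Fin.last _) ⟶ a

/-- The bar construction `B_a`, a resolution of `h_a`. -/
def Bro (a : A) : SP A where
  obj b :=
    { obj := fun k => BrS a b.unop k.unop
      map := fun {k l} α => ↾ fun w => ⟨w.σ.res α.unop, w.u ≫ w.σ.zeroTo α.unop,
        w.σ.map _ _ (Fin.le_last _) ≫ w.v⟩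
      map_id := fun k => by
        ext w
        obtain ⟨σ, u, v⟩ := w
        exact congrArg₂ (BrS.mk σ) ((congrArg (u ≫ ·) (σ.map_id 0)).trans (Category.comp_id u))
          ((congrArg (· ≫ v) (σ.map_id _)).trans (Category.id_comp v))
      map_comp := fun {k l m} α β => by
        ext w
        obtain ⟨σ, u, v⟩ := w
        refine congrArg₂ (BrS.mk (σ.res (β.unop ≫ α.unop))) ?_ ?_
        · exact ((congrArg (u ≫ ·) (σ.map_comp _ _ _ _ _).symm).trans
            (Category.assoc _ _ _).symm)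
        · refine (congrArg (· ≫ v) (σ.map_comp _ (α.unop.toOrderHom (Fin.last _)) (Fin.last _)
            (α.unop.toOrderHom.monotone (Fin.le_last _)) (Fin.le_last _)).symm).trans ?_
          exact Category.assoc _ _ _ }
  map f :=
    { app := fun k => ↾ fun w => ⟨w.σ, f.unop ≫ w.u, w.v⟩
      naturality := fun k l α => by
        ext w
        exact congrArg (fun t => BrS.mk (w.σ.res α.unop) t _)
          (Category.assoc f.unop w.u (w.σ.zeroTo α.unop)).symm }
  map_id b := by
    ext k w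
    exact congrArg (fun t => BrS.mk w.σ t w.v) (Category.id_comp _)
  map_comp f g := by
    ext k w
    exact congrArg (fun t => BrS.mk w.σ t w.v) (Category.assoc _ _ _)

/-- The bar frame. -/
def Br (A : Type) [SmallCategory A] : Fr A where
  obj a := cc (Bro a)
  map f := (Functor.const SimplexCategory).map
    { app := fun b =>
        { app := fun k => ↾ fun w => ⟨w.σ, w.u, w.v ≫ f⟩
          naturality := fun k l α => by
            refine ConcreteCategory.hom_ext _ _ fun w => ?_
            exact congrArg (BrS.mk (Chain.res (BrS.σ w) α.unop) _)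
              (Category.assoc (Chain.map (BrS.σ w) _ _ (Fin.le_last _)) (BrS.v w) f) }
      naturality := fun _ _ _ => rfl }
  map_id a := by
    refine NatTrans.ext (funext fun m => NatTrans.ext (funext fun b =>
      NatTrans.ext (funext fun k => ?_)))
    refine ConcreteCategory.hom_ext _ _ fun w => ?_
    exact congrArg (BrS.mk (BrS.σ w) (BrS.u w)) (Category.comp_id _)
  map_comp f g := by
    refine NatTrans.ext (funext fun m => NatTrans.ext (funext fun b =>
      NatTrans.ext (funext fun k => ?_)))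
    refine ConcreteCategory.hom_ext _ _ fun w => ?_
    exact congrArg (BrS.mk (BrS.σ w) (BrS.u w)) (Category.assoc _ _ _).symm

/-- The augmentation `B_a ⟶ h_a`. -/
def BrAug (A : Type) [SmallCategory A] : Br A ⟶ yoFr A where
  app a := (Functor.const SimplexCategory).map
    { app := fun b =>
        { app := fun k => ↾ fun (w : BrS a b.unop k.unop) =>
            ((w.u ≫ w.σ.map 0 (Fin.last _) (Fin.zero_le _)) ≫ w.v : b.unop ⟶ a)
          naturality := fun k l α => by
            refine ConcreteCategory.hom_ext _ _ fun (w : BrS a b.unop k.unop) => ?_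
            obtain ⟨σ, u, v⟩ := w
            show ((u ≫ σ.map 0 (α.unop.toOrderHom 0) (Fin.zero_le _)) ≫
                σ.map (α.unop.toOrderHom 0) (α.unop.toOrderHom (Fin.last _))
                  (α.unop.toOrderHom.monotone (Fin.zero_le _))) ≫
                σ.map (α.unop.toOrderHom (Fin.last _)) (Fin.last _) (Fin.le_last _) ≫ v =
              (u ≫ σ.map 0 (Fin.last _) (Fin.zero_le _)) ≫ v
            rw [← σ.map_comp 0 (α.unop.toOrderHom 0) (Fin.last _) (Fin.zero_le _) (Fin.le_last _),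
              ← σ.map_comp (α.unop.toOrderHom 0) (α.unop.toOrderHom (Fin.last _)) (Fin.last _)
                (α.unop.toOrderHom.monotone (Fin.zero_le _)) (Fin.le_last _)]
            simp only [Category.assoc] }
      naturality := fun b b' f => by
        refine NatTrans.ext (funext fun k => ?_)
        refine ConcreteCategory.hom_ext _ _ fun (w : BrS a b.unop k.unop) => ?_
        obtain ⟨σ, u, v⟩ := w
        show ((f.unop ≫ u) ≫ σ.map 0 (Fin.last _) (Fin.zero_le _)) ≫ v =
          f.unop ≫ ((u ≫ σ.map 0 (Fin.last _) (Fin.zero_le _)) ≫ v)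
        simp only [Category.assoc] }
  naturality a a' f := by
    refine NatTrans.ext (funext fun m => NatTrans.ext (funext fun b =>
      NatTrans.ext (funext fun k => ?_)))
    refine ConcreteCategory.hom_ext _ _ fun w => ?_
    exact (Category.assoc _ _ _).symm

/-- The injectively fibrant replacement functor. -/
def RR (A : Type) [SmallCategory A] : SFun A := SFun.ofFrame (Br A) (BrAug A)

end Bar

/-- The completion at level `j`. -/
def KJ (n j : ℕ) : SFun (Th n) := SFun.ofFrame (Tfr n j) (TfrAug n j)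

/-- The completion functor: `RR`, followed by `RR ∘ KJ n j` for `j = n-1, …, n-d`. -/
def Cp (n : ℕ) : ℕ → SFun (Th n)
  | 0 => RR (Th n)
  | (d + 1) => ((Cp n d).comp (KJ n (n - 1 - d))).comp (RR (Th n))

end

end FL
end

/- Helper58.FL2.Pred -/
section
/-!
# Predicates and constructions for the proof of the theorem of Ayala and Francis
-/

open CategoryTheory MonoidalCategory Opposite

set_option autoImplicit false

namespace FL

noncomputable section

section Phi

variable {C : Type} [SmallCategory C]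

/-- The projection `[m](c) ↦ [m]`. -/
@[simps]
def kap (C : Type) [SmallCategory C] : Wr C ⥤ SimplexCategory where
  obj θ := SimplexCategory.mk θ.len
  map φ := SimplexCategory.Hom.mk (Wr.Hom.f φ)

/-- The monotone map underlying the image of an `m`-simplex of `N` under `s : N ⟶ Δ[r]`. -/
def sh {r : ℕ} {N : SSet.{0}} (s : N ⟶ SSet.stdSimplex.obj (SimplexCategory.mk r)) {m : ℕ}
    (x : N.obj (op (SimplexCategory.mk m))) : Fin (m + 1) →o Fin (r + 1) :=
  (SSet.stdSimplex.objEquiv (s.app _ x)).toOrderHom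

lemma sh_map {r : ℕ} {N : SSet.{0}} (s : N ⟶ SSet.stdSimplex.obj (SimplexCategory.mk r))
    {m m' : ℕ} (f : Fin (m' + 1) →o Fin (m + 1)) (x : N.obj (op (SimplexCategory.mk m))) :
    sh s (N.map (Quiver.Hom.op (SimplexCategory.Hom.mk f :
      SimplexCategory.mk m' ⟶ SimplexCategory.mk m)) x) = (sh s x).comp f := by
  show (SSet.stdSimplex.objEquiv (s.app _ (N.map _ x))).toOrderHom = _
  rw [sset_nat s]
  rfl

/-- A `k`-simplex at `θ` of the pullback of `V[r](B)` along `s : N ⟶ Δ[r]`. -/
structure PhS {r : ℕ} (B : Fin r → SP C) {N : SSet.{0}}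
    (s : N ⟶ SSet.stdSimplex.obj (SimplexCategory.mk r)) (θ : Wr C) (k : SimplexCategoryᵒᵖ) :
    Type where
  x : N.obj (op (SimplexCategory.mk θ.len))
  g : ∀ (i : Fin θ.len) (j : Fin r), Jump (sh s x) i j → ((B j).obj (op (θ.obj i))).obj k

namespace PhS

variable {r : ℕ} {B : Fin r → SP C} {N : SSet.{0}}
  {s : N ⟶ SSet.stdSimplex.obj (SimplexCategory.mk r)}

lemma ext' {θ : Wr C} {k : SimplexCategoryᵒᵖ} {u v : PhS B s θ k} (hx : u.x = v.x)
    (hg : ∀ i j (h : Jump (sh s u.x) i j) (h' : Jump (sh s v.x) i j),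
      u.g i j h = v.g i j h') : u = v := by
  obtain ⟨x, g⟩ := u
  obtain ⟨x', g'⟩ := v
  simp only at hx
  subst hx
  congr 1
  funext i j h
  exact hg i j h h

/-- The simplicial structure. -/
@[simps x g]
def mapk {θ : Wr C} {k l : SimplexCategoryᵒᵖ} (α : k ⟶ l) (u : PhS B s θ k) : PhS B s θ l where
  x := u.x
  g i j h := ((B j).obj (op (θ.obj i))).map α (u.g i j h)

lemma jump_aux {θ θ' : Wr C} (φ : θ' ⟶ θ) (x : N.obj (op (SimplexCategory.mk θ.len)))
    {i : Fin θ'.len} {j : Fin r}
    (h : Jump (sh s (N.map ((kap C).map φ).op x)) i j) :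
    Jump ((sh s x).comp (Wr.Hom.f φ)) i j := by
  have e := sh_map s (Wr.Hom.f φ) x
  exact (congrArg (fun t => Jump t i j) e).mp h

/-- The presheaf structure. -/
@[simps x]
def mapθ {θ θ' : Wr C} (φ : θ' ⟶ θ) {k : SimplexCategoryᵒᵖ} (u : PhS B s θ k) :
    PhS B s θ' k where
  x := N.map ((kap C).map φ).op u.x
  g i j h := ((B j).map (Wr.Hom.g φ i (jump_aux φ u.x h).split.choose
    (jump_aux φ u.x h).split.choose_spec.1).op).app k
    (u.g (jump_aux φ u.x h).split.choose j (jump_aux φ u.x h).split.choose_spec.2)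

lemma mapθ_g {θ θ' : Wr C} (φ : θ' ⟶ θ) {k : SimplexCategoryᵒᵖ} (u : PhS B s θ k)
    {i : Fin θ'.len} {j : Fin θ.len} {l : Fin r} (h : Jump (Wr.Hom.f φ) i j)
    (h' : Jump (sh s u.x) j l) (h'' : Jump (sh s (mapθ φ u).x) i l) :
    (mapθ φ u).g i l h'' = ((B l).map (Wr.Hom.g φ i j h).op).app k (u.g j l h') := by
  have hj := (jump_aux φ u.x h'').split.choose_spec
  have e : (jump_aux φ u.x h'').split.choose = j := hj.2.unique h'
  show ((B l).map (Wr.Hom.g φ i _ hj.1).op).app k (u.g _ l hj.2) = _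
  have aux : ∀ j' (e : j' = j) (h1 : Jump (Wr.Hom.f φ) i j') (h2 : Jump (sh s u.x) j' l),
      ((B l).map (Wr.Hom.g φ i j' h1).op).app k (u.g j' l h2) =
        ((B l).map (Wr.Hom.g φ i j h).op).app k (u.g j l h') := by
    rintro j' rfl h1 h2; rfl
  exact aux _ e _ _

end PhS

/-- The pullback of `V[r](B_1, …, B_r)` along `s : N ⟶ Δ[r]`. -/
def Ph {r : ℕ} (B : Fin r → SP C) {N : SSet.{0}}
    (s : N ⟶ SSet.stdSimplex.obj (SimplexCategory.mk r)) : SP (Wr C) where
  obj θ :=
    { obj := fun k => PhS B s θ.unop k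
      map := fun α => ↾ fun u => u.mapk α
      map_id := fun k => by
        refine ConcreteCategory.hom_ext _ _ fun (u : PhS B s θ.unop k) => ?_
        refine PhS.ext' rfl fun i j h h' => ?_
        exact sset_id _ _
      map_comp := fun {k l m} α β => by
        refine ConcreteCategory.hom_ext _ _ fun (u : PhS B s θ.unop k) => ?_
        refine PhS.ext' rfl fun i j h h' => ?_
        exact sset_comp _ α β _ }
  map {θ θ'} φ :=
    { app := fun k => ↾ fun (u : PhS B s θ.unop k) => u.mapθ φ.unop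
      naturality := fun k l α => by
        refine ConcreteCategory.hom_ext _ _ fun (u : PhS B s θ.unop k) => ?_
        refine PhS.ext' rfl fun i j h h' => ?_
        obtain ⟨r, hr, hr'⟩ := Jump.split (f := Wr.Hom.f φ.unop) (g := sh s u.x)
          (PhS.jump_aux φ.unop u.x h)
        refine (PhS.mapθ_g φ.unop (u.mapk α) hr hr' h).trans ?_
        refine Eq.trans ?_ (congrArg (((B j).obj (op (θ'.unop.obj i))).map α)
          (PhS.mapθ_g φ.unop u hr hr' h')).symm
        exact sp_nat (B j) _ α _ }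
  map_id θ := by
    refine NatTrans.ext (funext fun k => ?_)
    refine ConcreteCategory.hom_ext _ _ fun (u : PhS B s θ.unop k) => ?_
    refine PhS.ext' ?_ fun i j h h' => ?_
    · show N.map _ u.x = u.x
      exact sset_id N u.x
    · refine (PhS.mapθ_g (𝟙 θ.unop) u (jump_id.mpr rfl) h' h).trans ?_
      exact sp_id (B j) _
  map_comp {θ θ' θ''} φ ψ := by
    refine NatTrans.ext (funext fun k => ?_)
    refine ConcreteCategory.hom_ext _ _ fun (u : PhS B s θ.unop k) => ?_
    refine PhS.ext' ?_ fun i l h h' => ?_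
    · exact sset_comp N ((kap C).map φ.unop).op ((kap C).map ψ.unop).op u.x
    · obtain ⟨r, hr, hr'⟩ := Jump.split (f := Wr.Hom.f (ψ.unop ≫ φ.unop)) (g := sh s u.x)
        (PhS.jump_aux (ψ.unop ≫ φ.unop) u.x h)
      obtain ⟨t, ht, ht'⟩ := Jump.split (f := Wr.Hom.f ψ.unop) (g := Wr.Hom.f φ.unop) hr
      refine (PhS.mapθ_g (ψ.unop ≫ φ.unop) u hr hr' h).trans ?_
      have h2 : Jump (sh s (u.mapθ φ.unop).x) t l := by
        have e := sh_map s (Wr.Hom.f φ.unop) u.x
        exact (congrArg (fun q => Jump q t l) e).mpr (ht'.comp hr')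
      refine Eq.trans ?_ (PhS.mapθ_g ψ.unop (u.mapθ φ.unop) ht h2 h').symm
      refine Eq.trans ?_ (congrArg (((B l).map (Wr.Hom.g ψ.unop i t ht).op).app k)
        (PhS.mapθ_g φ.unop u ht' hr' h2)).symm
      have e := Wr.comp_g ψ.unop φ.unop ht ht'
      have e' : Wr.Hom.g (ψ.unop ≫ φ.unop) i r hr =
        Wr.Hom.g (ψ.unop ≫ φ.unop) i r (ht.comp ht') := rfl
      rw [e', e, op_comp]
      exact sp_comp (B l) _ _ _

/-- The functoriality of `Ph` in the simplicial set over `Δ[r]`. -/
def Ph.map {r : ℕ} (B : Fin r → SP C) {N N' : SSet.{0}} (i : N ⟶ N')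
    (s : N' ⟶ SSet.stdSimplex.obj (SimplexCategory.mk r)) : Ph B (i ≫ s) ⟶ Ph B s where
  app θ :=
    { app := fun k => ↾ fun (u : PhS B (i ≫ s) θ.unop k) =>
        ({ x := i.app _ u.x, g := fun p j h => u.g p j h } : PhS B s θ.unop k)
      naturality := fun _ _ _ => rfl }
  naturality θ θ' φ := by
    refine NatTrans.ext (funext fun k => ?_)
    refine ConcreteCategory.hom_ext _ _ fun (u : PhS B (i ≫ s) θ.unop k) => ?_
    refine PhS.ext' ?_ fun p j h h' => rfl
    exact sset_nat i _ u.x

/-- The face of `V[m](B)` spanned by the set of vertices `U`. -/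
def vface {m : ℕ} (B : Fin m → SP C) (U : Finset (Fin (m + 1))) : Sb (V B) where
  mem θ k := { (u : VS B θ.unop k) | ∀ i, u.f i ∈ U }
  mapA := by
    rintro θ θ' φ k u h
    exact fun i => h _
  mapk := by
    rintro θ k l α u h
    exact h

/-- The sub-presheaf of `h_{[r+1](c)}` generated by `[r](c_1, …, c_r)` and `[1](c_{r+1})`. -/
def binSb {r : ℕ} (c : Fin (r + 1) → C) : Sb (rep (⟨r + 1, c⟩ : Wr C)) where
  mem η _ := fun (φ : η.unop ⟶ (⟨r + 1, c⟩ : Wr C)) =>
    (∀ t, (Wr.Hom.f φ t).1 ≤ r) ∨ ∀ t, r ≤ (Wr.Hom.f φ t).1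
  mapA := by
    rintro η η' f k φ (h | h)
    · exact Or.inl fun t => h _
    · exact Or.inr fun t => h _
  mapk := by
    rintro η k l α φ h
    exact h

/-- The sub-presheaf of `h_{[r+1](c)} × E[m]` of all pairs with first component in `binSb c`. -/
def E0bin {r : ℕ} (c : Fin (r + 1) → C) (m : SimplexCategory) :
    Sb (E0o (rep (⟨r + 1, c⟩ : Wr C)) m) where
  mem η k := { z | z.1 ∈ (binSb c).mem η k }
  mapA := by
    rintro η η' f k z h
    exact (binSb c).mapA f k z.1 h
  mapk := by
    rintro η k l α z h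
    exact (binSb c).mapk η α z.1 h

/-- The sub-presheaf of `T([r+1](c))_m` generated by `T([r](c_1, …, c_r))_m` and
`T([1](c_{r+1}))_m`. -/
def binT (T : Fr (Wr C)) {r : ℕ} (c : Fin (r + 1) → C) (m : SimplexCategory) :
    Sb ((T.obj ⟨r + 1, c⟩).obj m) :=
  Sb.range ((T.map (initMap c)).app m) ⊔ Sb.range ((T.map (lastMap' c)).app m)

/-- Frames for which `Kf T X` is a Segal object. -/
structure GoodFr (X : SP (Wr C)) (T : Fr (Wr C)) : Prop where
  ext : ∀ θ, Ext X (T.obj θ)
  mono_init : ∀ {r : ℕ} (c : Fin (r + 1) → C) (m : SimplexCategory) (a : (Wr C)ᵒᵖ),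
    Mono (((T.map (initMap c)).app m).app a)
  mono_last : ∀ {r : ℕ} (c : Fin (r + 1) → C) (m : SimplexCategory) (a : (Wr C)ᵒᵖ),
    Mono (((T.map (lastMap' c)).app m).app a)
  inter : ∀ {r : ℕ} (c : Fin (r + 1) → C) (m : SimplexCategory),
    Sb.range ((T.map (initMap c)).app m) ⊓ Sb.range ((T.map (lastMap' c)).app m) ≤
      Sb.range ((T.map (vtx ⟨r + 1, c⟩ (Fin.last r).castSucc)).app m)
  mono_vtx : ∀ (θ : Wr C) (i : Fin (θ.len + 1)) (m : SimplexCategory) (a : (Wr C)ᵒᵖ),
    Mono (((T.map (vtx θ i)).app m).app a)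
  disj : ∀ (c : C) (m : SimplexCategory),
    Sb.range ((T.map (vtx (seg c) 0)).app m) ⊓ Sb.range ((T.map (vtx (seg c) 1)).app m) = ⊥
  bin : ∀ {r : ℕ} (c : Fin (r + 1) → C) (m : SimplexCategory), LocT X (binT T c m) ⊤
  edge : ∀ (c : C) (i : Fin 2), HasLiftingProperty
    (SSet.horn 1 i).ι (ends (Kf T X) c)

/-- The map `Map(P, X) ⟶ (m ↦ Hom(P × E[m] × Δ[m], X))`. -/
def augY (P X : SP (Wr C)) : Mp P X ⟶ Yc ((E0 C).obj P) X where
  app m := ↾ fun φ => (MpS.ofHom m.unop ((E0aug P).app m.unop)).comp φ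
  naturality _ _ _ := rfl

/-- The comparison map
`Map(P, X) ⟶ Hom(P × E[•] × Δ[•], X) ×_{Hom(S × E[•] × Δ[•], X)} Map(S, X)`. -/
def relMap {P : SP (Wr C)} (S : Sb P) (X : SP (Wr C)) :
    Mp P X ⟶ Fp (Yc.pre ((E0 C).map S.ι) X) (augY S.toSP X) :=
  Fp.lift (augY P X) (Mp.pre S.ι X) rfl

end Phi

/-- The terminal object of `Θ_n`. -/
def ptT : (n : ℕ) → Th n
  | 0 => (⟨PUnit.unit⟩ : Discrete PUnit.{1})
  | (_ + 1) => Wr.pt

/-- Segal presheaves, for injectively fibrant presheaves. -/
def Sg (n : ℕ) (X : SP (Th n)) : Prop :=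
  InjFib X ∧ ∀ (θ : Th n) (S : Sieve θ), SegCov n θ S → Loc X (sieveIncl S)

/-- The completeness map of level `j`. -/
inductive IsComplJ : (n j : ℕ) → {X Y : SP (Th n)} → (X ⟶ Y) → Prop
  | base (n : ℕ) : IsComplJ (n + 1) 0 (X := disc (isoPsh (Th n))) (Y := one (Wr (Th n)))
      (isoMap (Th n))
  | susp {n j : ℕ} {X Y : SP (Th n)} (f : X ⟶ Y) (h : IsComplJ n j f) :
      IsComplJ (n + 1) (j + 1) (X := V1 X) (Y := V1 Y) (V1map f)

/-- Completeness at level `j`. -/
def Cj (n j : ℕ) (X : SP (Th n)) : Prop :=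
  ∀ (P Q : SP (Th n)) (f : P ⟶ Q), IsComplJ n j f → Loc X f

/-- Maps which are surjective on `k`-morphisms for `k < i`, and equivalences on spaces of
`i`-morphisms. -/
def ES : (n i : ℕ) → {X Y : SP (Th n)} → (X ⟶ Y) → Prop
  | 0, _, _, _, f => HoEq (f.app (op (ptT 0)))
  | (n + 1), 0, _, _, f => HoEq (f.app (op (ptT (n + 1))))
  | (n + 1), (i + 1), X, Y, f =>
      (∀ y : Vt (C := Th n) Y, ∃ x : Vt (C := Th n) X,
        Cn (Y.obj (op (ptT (n + 1)))) (vtMap (C := Th n) f x) y) ∧
      ∀ x y : Vt (C := Th n) X, ES n i (HmMap (C := Th n) f x y)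

section Flagged

variable {n : ℕ}

/-- The counit `filt (ND D) ⟶ D`. -/
def eps (D : SP (Gn n)) : filt (ND D) ⟶ D where
  app g :=
    { app := fun k => ↾ fun (φ : MpS (filt (rep ((tower n).obj g.unop))) D k.unop) =>
        φ.app g k (𝟙 _) (𝟙 ((tower n).obj g.unop))
      naturality := fun k l α => by
        ext (φ : MpS (filt (rep ((tower n).obj g.unop))) D k.unop)
        have := φ.nat_right g α (𝟙 _) (𝟙 ((tower n).obj g.unop))
        refine Eq.trans ?_ this
        show φ.app g l (𝟙 _ ≫ α.unop) _ = φ.app g l (α.unop ≫ 𝟙 _) _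
        rw [Category.comp_id, Category.id_comp]
        rfl }
  naturality g g' f := by
    ext k (φ : MpS (filt (rep ((tower n).obj g.unop))) D k.unop)
    have := φ.nat_left f k (𝟙 _) (𝟙 ((tower n).obj g.unop))
    refine Eq.trans ?_ this
    show φ.app g' k (𝟙 _) _ = φ.app g' k (𝟙 _) _
    refine congrArg (φ.app g' k (𝟙 _)) ?_
    show 𝟙 _ ≫ (tower n).map f.unop = (tower n).map f.unop ≫ 𝟙 _
    exact (Category.id_comp _).trans (Category.comp_id _).symm

/-- The map `X ⟶ ND D` adjoint to `f : filt X ⟶ D`. -/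
def flat {X : SP (Th n)} {D : SP (Gn n)} (f : filt X ⟶ D) : X ⟶ ND D where
  app a :=
    { app := fun k => ↾ fun (x : (X.obj a).obj k) =>
        ({ app := fun g m t (u : (tower n).obj g.unop ⟶ a.unop) =>
            (f.app g).app m ((X.map (Quiver.Hom.op u)).app m ((X.obj a).map t.op x))
           nat_left := fun {g g'} h m t u => by
            refine (congrArg ((f.app g').app m) (sp_comp X (Quiver.Hom.op u)
              ((tower n).map h.unop).op _)).trans ?_
            exact hom_nat f h _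
           nat_right := fun g {m m'} β t u => by
            refine (congrArg (fun z => (f.app g).app m' ((X.map (Quiver.Hom.op u)).app m' z))
              (sset_comp _ t.op β x)).trans ?_
            refine (congrArg ((f.app g).app m') (sp_nat X (Quiver.Hom.op u) β _)).trans ?_
            exact hom_natk f β _ } : MpS (filt (rep a.unop)) D k.unop)
      naturality := fun k l α => by
        ext (x : (X.obj a).obj k)
        refine MpS.ext ?_
        funext g m t u
        exact congrArg (fun z => (f.app g).app m ((X.map (Quiver.Hom.op u)).app m z))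
          (sset_comp _ α t.op x).symm }
  naturality a b h := by
    ext k (x : (X.obj a).obj k)
    refine MpS.ext ?_
    funext g m t (u : (tower n).obj g.unop ⟶ b.unop)
    refine congrArg ((f.app g).app m) ?_
    show (X.map (Quiver.Hom.op u)).app m ((X.obj b).map t.op ((X.map h).app k x)) =
      (X.map (Quiver.Hom.op (u ≫ h.unop))).app m ((X.obj a).map t.op x)
    rw [← sp_nat, ← sp_comp]
    rfl

/-- The vertex `x_i` of `D_i([0])` attached to a vertex `x` of `D_0([0])`. -/
abbrev vlev (D : SP (Gn (n + 1))) (x : Vt (C := Th n) (level D 0)) (i : Fin (n + 2)) :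
    Vt (C := Th n) (level D i) :=
  vtMap (C := Th n) (levelMap D (Fin.zero_le i)) x

/-- The functor `(c, i) ↦ ([1](c), i + 1)`. -/
def segG (n : ℕ) : Gn n ⥤ Gn (n + 1) where
  obj g := (seg g.1, op g.2.unop.succ)
  map {g g'} u := (segMap u.1, (homOfLE (Fin.succ_le_succ_iff.mpr (leOfHom u.2.unop))).op)
  map_id g := by
    refine Prod.ext ?_ (Subsingleton.elim _ _)
    refine Wr.hom_ext' rfl fun i j h h' => ?_
    obtain rfl : i = j := jump_id.mp h
    exact Wr.ofComp_g (X := fun _ => g.1) (Y := fun _ => g.1) _ i h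
  map_comp {g g' g''} u v := by
    refine Prod.ext ?_ (Subsingleton.elim _ _)
    refine Wr.hom_ext' rfl fun i j h h' => ?_
    obtain rfl : i = j := jump_id.mp h
    have e := Wr.comp_g (X := seg g.1) (Y := seg g'.1) (Z := seg g''.1)
      (segMap u.1) (segMap v.1) (i := i) (j := i) (k := i) (jump_id.mpr rfl)
      (jump_id.mpr rfl)
    refine (Wr.ofComp_g (X := fun _ => g.1) (Y := fun _ => g''.1) _ i h).trans ?_
    refine Eq.trans ?_ e.symm
    exact (congrArg₂ (· ≫ ·)
      (Wr.ofComp_g (X := fun _ => g.1) (Y := fun _ => g'.1) (fun _ => u.1) i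
        (jump_id.mpr rfl))
      (Wr.ofComp_g (X := fun _ => g'.1) (Y := fun _ => g''.1) (fun _ => v.1) i
        (jump_id.mpr rfl))).symm

end Flagged

end

end FL
end

/- Helper58.FL2.Comb -/
section
/-!
# The nerve of the chaotic category on a set
-/

open CategoryTheory MonoidalCategory Opposite

set_option autoImplicit false

namespace FL

/-- The nerve of the chaotic category on `S`: its `m`-simplices are the words `(s_0, …, s_m)`. -/
@[simps]
def EN (S : Type) : SSet.{0} where
  obj m := Fin (m.unop.len + 1) → S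
  map α := ↾ fun w i => w (α.unop.toOrderHom i)
  map_id _ := rfl
  map_comp _ _ := rfl

/-- The subcomplex of words in the letters of `U`. -/
@[simps]
def ENsub {S : Type} (U : Set S) : (EN S).Subcomplex where
  obj m := { w | ∀ i, w i ∈ U }
  map := by
    intro m n α w h i
    exact h _

end FL
end

/- Helper58.FL2.Flag2 -/
section
/-!
# Further constructions: spines and horns in a lattice, ends, mapping objects of flagged categories
-/

open CategoryTheory MonoidalCategory Opposite

set_option autoImplicit false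

namespace FL

noncomputable section

section Lat

variable {L : Type} [DistribLattice L] [OrderBot L] {N : ℕ} (face : Finset (Fin (N + 1)) → L)

/-- The spine of the set of vertices `U`: the union of the faces `{a, b}` for `a < b` consecutive
elements of `U`, and of all vertices of `U`. -/
def spineL (U : Finset (Fin (N + 1))) : L :=
  U.sup (fun a => face {a}) ⊔
    ((U ×ˢ U).filter fun p => p.1 < p.2 ∧ ∀ c ∈ U, ¬ (p.1 < c ∧ c < p.2)).sup
      fun p => face {p.1, p.2}

/-- The union of the faces of `U` opposite to the elements of `T`. -/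
def hornL (U T : Finset (Fin (N + 1))) : L := T.sup fun i => face (U.erase i)

end Lat

section

variable {C : Type} [SmallCategory C]

/-- The sub-presheaf of `V[m](B)` attached to a family of vertex sets. -/
def vK {m : ℕ} (B : Fin m → SP C) (K : LowerSet (Finset (Fin (m + 1)))) : Sb (V B) where
  mem θ k := fun (u : VS B θ.unop k) => Finset.univ.image u.f ∈ K
  mapA := by
    rintro θ θ' φ k u h
    refine K.lower ?_ h
    intro a ha
    obtain ⟨i, _, rfl⟩ := Finset.mem_image.mp ha
    exact Finset.mem_image.mpr ⟨_, Finset.mem_univ _, rfl⟩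
  mapk := by
    rintro θ k l α u h
    exact h

/-- The vertex sets which do not cross the gap `i`. -/
def NC {m : ℕ} (i : Fin m) : LowerSet (Finset (Fin (m + 1))) where
  carrier := fun U => (∀ a ∈ U, a ≤ i.castSucc) ∨ ∀ a ∈ U, i.succ ≤ a
  lower' := by
    intro U U' h hU
    exact hU.elim (fun hU => Or.inl fun a ha => hU a (h ha)) fun hU => Or.inr fun a ha => hU a (h ha)

/-- The simplex `(id, b)` of `V[1](B)` at `[1](c)`. -/
abbrev vsOf (B : SP C) {c : C} {k : SimplexCategoryᵒᵖ} (b : (B.obj (op c)).obj k) :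
    VS (fun _ : Fin 1 => B) (seg c) k :=
  { f := OrderHom.id, g := fun _ _ _ => b }

/-- The constant simplices of `V[1](B)`. -/
abbrev vsEnd (B : SP C) (i : Fin 2) (θ : Wr C) (k : SimplexCategoryᵒᵖ) :
    VS (fun _ : Fin 1 => B) θ k :=
  { f := ⟨fun _ => i, fun _ _ _ => le_refl _⟩
    g := fun p j h => by
      exfalso
      have := h.1.trans_lt ((Fin.castSucc_lt_succ).trans_le h.2)
      exact lt_irrefl _ this }

/-- The map `Map(V[1](B), X) ⟶ X([0]) × X([0])` given by the two ends of `V[1](B)`. -/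
def endsV (B : SP C) (X : SP (Wr C)) :
    Mp (V1 B) X ⟶ X.obj (op Wr.pt) ⊗ X.obj (op Wr.pt) where
  app m := ↾ fun (φ : MpS (V1 B) X m.unop) =>
    (φ.app (op Wr.pt) m (𝟙 _) (vsEnd B 0 Wr.pt m), φ.app (op Wr.pt) m (𝟙 _) (vsEnd B 1 Wr.pt m))
  naturality m m' α := by
    refine ConcreteCategory.hom_ext _ _ fun (φ : MpS (V1 B) X m.unop) => ?_
    have key : ∀ i : Fin 2, φ.app (op Wr.pt) m' (𝟙 _ ≫ α.unop) (vsEnd B i Wr.pt m') =
        (X.obj (op Wr.pt)).map α (φ.app (op Wr.pt) m (𝟙 _) (vsEnd B i Wr.pt m)) := by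
      intro i
      refine Eq.trans ?_ (φ.nat_right (op Wr.pt) α (𝟙 _) (vsEnd B i Wr.pt m))
      rw [Category.comp_id, Category.id_comp]
      refine congrArg (φ.app (op Wr.pt) m' α.unop) ?_
      exact VS.ext' rfl fun p => p.elim0
    exact Prod.ext (key 0) (key 1)

/-- The underlying simplex of a simplex of a mapping presheaf. -/
def Hm.val {X : SP (Wr C)} {x y : Vt X} {c : Cᵒᵖ} {k : SimplexCategoryᵒᵖ}
    (z : ((Hm X x y).obj c).obj k) : (X.obj (op (seg c.unop))).obj k := z.1

/-- The map `Map(E, X) ⟶ X([0]) × X([0])` given by the two vertices of the nerve `E` of the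
free-standing isomorphism. -/
def evE (X : SP (Wr C)) :
    Mp (disc (isoPsh C)) X ⟶ X.obj (op Wr.pt) ⊗ X.obj (op Wr.pt) where
  app m := ↾ fun (φ : MpS (disc (isoPsh C)) X m.unop) =>
    (φ.app (op Wr.pt) m (𝟙 _) (fun _ => false), φ.app (op Wr.pt) m (𝟙 _) (fun _ => true))
  naturality m m' α := by
    refine ConcreteCategory.hom_ext _ _ fun (φ : MpS (disc (isoPsh C)) X m.unop) => ?_
    have key : ∀ b : Bool, φ.app (op Wr.pt) m' (𝟙 _ ≫ α.unop) (fun _ => b) =
        (X.obj (op Wr.pt)).map α (φ.app (op Wr.pt) m (𝟙 _) (fun _ => b)) := by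
      intro b
      refine Eq.trans ?_ (φ.nat_right (op Wr.pt) α (𝟙 _) (fun _ => b))
      rw [Category.comp_id, Category.id_comp]
      rfl
    exact Prod.ext (key false) (key true)

lemma evE_post {X Y : SP (Wr C)} (f : X ⟶ Y) :
    Mp.post (disc (isoPsh C)) f ≫ evE Y = evE X ≫ (f.app (op Wr.pt) ⊗ₘ f.app (op Wr.pt)) := by
  refine NatTrans.ext (funext fun m => ?_)
  refine ConcreteCategory.hom_ext _ _ fun φ => ?_
  rfl

/-- The map from `X` to the restriction of `Y` along `X([0]) ⟶ Y([0])`. -/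
def toRs {X Y : SP (Wr C)} (f : X ⟶ Y) : X ⟶ Rs Y (f.app (op Wr.pt)) where
  app θ :=
    { app := fun k => ↾ fun x => ⟨((f.app θ).app k x, fun i => (X.map (vtx θ.unop i).op).app k x),
        fun i => (hom_nat f (vtx θ.unop i).op x).symm⟩
      naturality := fun k l α => by
        refine ConcreteCategory.hom_ext _ _ fun x => ?_
        exact Subtype.ext (Prod.ext (hom_natk f α x) (funext fun i => sp_nat X _ α x)) }
  naturality θ θ' φ := by
    refine NatTrans.ext (funext fun k => ?_)
    refine ConcreteCategory.hom_ext _ _ fun x => ?_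
    refine Subtype.ext (Prod.ext (hom_nat f φ x) (funext fun i => ?_))
    show (X.map (vtx θ'.unop i).op).app k ((X.map φ).app k x) =
      (X.map (vtx θ.unop (Wr.Hom.f φ.unop i)).op).app k x
    rw [← sp_comp, ← vtx_comp]
    rfl

end

section Flagged

variable {n : ℕ}

lemma levelMap_cst (D : SP (Gn (n + 1))) {i j : Fin (n + 2)} (h : i ≤ j)
    (x : Vt (C := Th n) (level D 0)) :
    vtMap (C := Th n) (levelMap D h) (vlev D x i) = vlev D x j := by
  refine (sp_comp D ((NatTrans.op (secMap (n := n + 1) (Fin.zero_le i))).app (op (ptT (n + 1))))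
    ((NatTrans.op (secMap h)).app (op (ptT (n + 1)))) x).symm.trans ?_
  refine congrArg (fun t => (D.map t).app _ x) ?_
  refine Quiver.Hom.unop_inj ?_
  exact Prod.ext (Category.comp_id _) (Subsingleton.elim _ _)

/-- The presheaf of mapping spaces of `D : D_0 ⟶ … ⟶ D_{n+1}`: at level `i` it is the mapping
presheaf of `D_{i+1}` between the images of the vertices `x`, `y` of `D_0`. -/
def FHm (D : SP (Gn (n + 1))) (x y : Vt (C := Th n) (level D 0)) : SP (Gn n) where
  obj g := Fb (ends (level D g.unop.2.unop.succ) g.unop.1)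
    (vlev D x g.unop.2.unop.succ, vlev D y g.unop.2.unop.succ)
  map {g g'} u :=
    { app := fun k => ↾ fun z => ⟨(D.map ((segG n).map u.unop).op).app k z.1, by
        have hle : g.unop.2.unop.succ ≤ g'.unop.2.unop.succ :=
          Fin.succ_le_succ_iff.mpr (leOfHom u.unop.2.unop)
        have key : ∀ (i : Fin 2) (w : Vt (C := Th n) (level D 0))
            (hz : ((level D g.unop.2.unop.succ).map (vtx (seg g.unop.1) i).op).app k z.1 =
              cst _ (vlev D w g.unop.2.unop.succ) k),
            ((level D g'.unop.2.unop.succ).map (vtx (seg g'.unop.1) i).op).app k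
              ((D.map ((segG n).map u.unop).op).app k z.1) =
            cst _ (vlev D w g'.unop.2.unop.succ) k := by
          intro i w hz
          have h1 := (congrArg (((levelMap D hle).app (op Wr.pt)).app k) hz).trans
            (app_cst ((levelMap D hle).app (op Wr.pt)) (vlev D w g.unop.2.unop.succ) k)
          have h2 := congrArg (fun t => cst ((level D g'.unop.2.unop.succ).obj (op Wr.pt)) t k)
            (levelMap_cst D hle w)
          refine Eq.trans ?_ (h1.trans h2)
          refine (sp_comp D ((segG n).map u.unop).op ((Prod.sectL (Th (n + 1))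
            (op (g'.unop.2.unop.succ))).op.map (Quiver.Hom.op
              (vtx (seg g'.unop.1) i : (ptT (n + 1)) ⟶ (seg g'.unop.1 : Wr (Th n))))) z.1).symm.trans ?_
          refine Eq.trans ?_ (sp_comp D ((Prod.sectL (Th (n + 1))
            (op (g.unop.2.unop.succ))).op.map (Quiver.Hom.op
              (vtx (seg g.unop.1) i : (ptT (n + 1)) ⟶ (seg g.unop.1 : Wr (Th n)))))
            ((NatTrans.op (secMap hle)).app (op (ptT (n + 1)))) z.1)
          refine congrArg (fun t => (D.map t).app k z.1) ?_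
          refine Quiver.Hom.unop_inj ?_
          refine Prod.ext ?_ (Subsingleton.elim _ _)
          refine Wr.hom_ext' ?_ fun (j : Fin 0) _ _ _ => j.elim0
          ext t
          rfl
        have hz := z.2
        exact Prod.ext (key 0 x (congrArg Prod.fst hz)) (key 1 y (congrArg Prod.snd hz))⟩
      naturality := fun k l α => by
        refine ConcreteCategory.hom_ext _ _ fun z => ?_
        exact Subtype.ext (sp_nat D ((segG n).map u.unop).op α z.1) }
  map_id g := by
    refine NatTrans.ext (funext fun k => ?_)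
    refine ConcreteCategory.hom_ext _ _ fun z => ?_
    refine Subtype.ext ?_
    refine Eq.trans ?_ (sp_id D z.1)
    refine congrArg (fun t => (D.map (Quiver.Hom.op t)).app k z.1) ?_
    exact (segG n).map_id g.unop
  map_comp {g g' g''} u v := by
    refine NatTrans.ext (funext fun k => ?_)
    refine ConcreteCategory.hom_ext _ _ fun z => ?_
    refine Subtype.ext ?_
    refine Eq.trans ?_ (sp_comp D ((segG n).map u.unop).op ((segG n).map v.unop).op z.1)
    refine congrArg (fun t => (D.map (Quiver.Hom.op t)).app k z.1) ?_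
    exact (segG n).map_comp v.unop u.unop

/-- The vertex of `D_0` given by a vertex of `X` and a map `filt X ⟶ D`. -/
abbrev vf {X : SP (Th (n + 1))} {D : SP (Gn (n + 1))} (f : filt X ⟶ D) (x : Vt (C := Th n) X) :
    Vt (C := Th n) (level D 0) :=
  (f.app (op (ptT (n + 1), op 0))).app (op (SimplexCategory.mk 0)) x

/-- The sequence `K(X ∘ t_0) ⟶ K(X ∘ t_1) ⟶ … ⟶ K(X ∘ t_n)`, for a simplicial endofunctor
`K`. -/
def seqK (K : SFun (Th n)) (X : SP (Th n)) : SP (Gn n) where
  obj g := (K.obj ((tr n g.unop.2.unop).op ⋙ X)).obj (op g.unop.1)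
  map {g g'} u := (K.map (Functor.whiskerRight
      (NatTrans.op (trMap n g.unop.2.unop g'.unop.2.unop (leOfHom u.unop.2.unop))) X)).app _ ≫
    (K.obj ((tr n g'.unop.2.unop).op ⋙ X)).map u.unop.1.op
  map_id g := by
    have e : Functor.whiskerRight
      (NatTrans.op (trMap n g.unop.2.unop g.unop.2.unop (le_refl _))) X = 𝟙 _ := by
      rw [trMap_refl]
      ext a
      simp
    show (K.map (Functor.whiskerRight
      (NatTrans.op (trMap n g.unop.2.unop g.unop.2.unop (le_refl _))) X)).app _ ≫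
      (K.obj ((tr n g.unop.2.unop).op ⋙ X)).map (𝟙 _) = _
    rw [e, K.map_id, CategoryTheory.Functor.map_id]
    simp
  map_comp {g g' g''} u v := by
    have e : Functor.whiskerRight
        (NatTrans.op (trMap n g.unop.2.unop g''.unop.2.unop (leOfHom (u ≫ v).unop.2.unop))) X =
        Functor.whiskerRight
          (NatTrans.op (trMap n g.unop.2.unop g'.unop.2.unop (leOfHom u.unop.2.unop))) X ≫
        Functor.whiskerRight
          (NatTrans.op (trMap n g'.unop.2.unop g''.unop.2.unop (leOfHom v.unop.2.unop))) X := by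
      rw [← trMap_trans n g.unop.2.unop g'.unop.2.unop g''.unop.2.unop (leOfHom u.unop.2.unop)
        (leOfHom v.unop.2.unop)]
      refine NatTrans.ext (funext fun a => ?_)
      exact X.map_comp _ _
    show (K.map (Functor.whiskerRight
        (NatTrans.op (trMap n g.unop.2.unop g''.unop.2.unop (leOfHom (u ≫ v).unop.2.unop)))
          X)).app _ ≫
      (K.obj ((tr n g''.unop.2.unop).op ⋙ X)).map (u.unop.1.op ≫ v.unop.1.op) = _
    rw [e, K.map_comp, CategoryTheory.Functor.map_comp, NatTrans.comp_app]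
    simp only [Category.assoc]
    rw [NatTrans.naturality_assoc]

end Flagged

end

end FL
end

/- Helper36.FL.Cyl -/
section
/-! FL-5a: mapping cylinders and deformation retractions of simplicial presheaves. -/

open CategoryTheory MonoidalCategory Opposite

set_option autoImplicit false

namespace Pool.Agent.Helper36.FL

open _root_.FL

universe u

/-- The vertices of `[1]` as constant maps. -/
abbrev cst (k : SimplexCategory) (i : Fin 2) : k ⟶ SimplexCategory.mk 1 :=
  SimplexCategory.const k (SimplexCategory.mk 1) i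

section

variable {A : Type} [SmallCategory A]

/-- Simplices of the mapping cylinder. -/
inductive CylS {X Y : SP A} (f : X ⟶ Y) (a : Aᵒᵖ) (k : SimplexCategoryᵒᵖ) : Type
  | mk (t : k.unop ⟶ SimplexCategory.mk 1) (ht : t ≠ cst k.unop 0) (x : (X.obj a).obj k)
  | base (y : (Y.obj a).obj k)

namespace CylS

variable {X Y : SP A} {f : X ⟶ Y} {a : Aᵒᵖ} {k : SimplexCategoryᵒᵖ}

open Classical in
/-- The simplex of the mapping cylinder given by a simplex of `X × Δ[1]`. -/
noncomputable def cy (f : X ⟶ Y) {a : Aᵒᵖ} {k : SimplexCategoryᵒᵖ}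
    (t : k.unop ⟶ SimplexCategory.mk 1) (x : (X.obj a).obj k) : CylS f a k :=
  if h : t = cst k.unop 0 then base ((f.app a).app k x) else mk t h x

theorem cy_zero (x : (X.obj a).obj k) : cy f (cst k.unop 0) x = base ((f.app a).app k x) :=
  dif_pos rfl

theorem cy_of_ne {t : k.unop ⟶ SimplexCategory.mk 1} (h : t ≠ cst k.unop 0)
    (x : (X.obj a).obj k) : cy f t x = mk t h x :=
  dif_neg h

theorem eqv (c : CylS f a k) : (∃ t x, c = cy f t x) ∨ ∃ y, c = base y := by
  cases c with
  | mk t ht x => exact Or.inl ⟨t, x, (cy_of_ne ht x).symm⟩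
  | base y => exact Or.inr ⟨y, rfl⟩

/-- Descent of functions. -/
def desc {T : Type*} (F : (k.unop ⟶ SimplexCategory.mk 1) → (X.obj a).obj k → T)
    (G : (Y.obj a).obj k → T) : CylS f a k → T
  | mk t _ x => F t x
  | base y => G y

end CylS

end

open Simplicial

/-- Homotopies written elementwise. -/
theorem htpy_mk {X Y : SSet.{u}} {f g : X ⟶ Y}
    (H : ∀ k : SimplexCategoryᵒᵖ, X.obj k → (k.unop ⟶ ⦋1⦌) → Y.obj k)
    (nat : ∀ {k l : SimplexCategoryᵒᵖ} (α : k ⟶ l) (x : X.obj k) (s : k.unop ⟶ ⦋1⦌),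
      H l (X.map α x) (α.unop ≫ s) = Y.map α (H k x s))
    (h0 : ∀ (k : SimplexCategoryᵒᵖ) (x : X.obj k), H k x (cst k.unop 0) = f.app k x)
    (h1 : ∀ (k : SimplexCategoryᵒᵖ) (x : X.obj k), H k x (cst k.unop 1) = g.app k x) :
    Nonempty (SSet.Homotopy f g) :=
  ⟨{ h :=
      { app := fun k => ↾ fun (z : X.obj k × (Δ[1] : SSet.{u}).obj k) =>
          H k z.1 (SSet.stdSimplex.objEquiv z.2)
        naturality := fun k l α => by
          ext ⟨x, s⟩
          exact nat α x (SSet.stdSimplex.objEquiv s) }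
     h₀ := by
        ext k x
        exact h0 k x
     h₁ := by
        ext k x
        exact h1 k x
     rel := by
        ext k ⟨x, s⟩
        exact x.2.elim }⟩

theorem htpy_of_eq {X Y : SSet.{u}} {f g : X ⟶ Y} (h : f = g) :
    Nonempty (SSet.Homotopy f g) := by
  subst h
  exact htpy_mk (fun k x _ => f.app k x) (fun α x _ => sset_nat f α x) (fun _ _ => rfl)
    fun _ _ => rfl

section

variable {A : Type} [SmallCategory A]

/-- The equation of a homotopy at the vertex `0`. -/
theorem sdr_zero {X Y : SP A} {h : MpS X Y ⦋1⦌} {p : X ⟶ Y}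
    (h0 : h.res (SimplexCategory.δ 1) = MpS.ofHom ⦋0⦌ p) (a : Aᵒᵖ) (k : SimplexCategoryᵒᵖ)
    (x : (X.obj a).obj k) : h.app a k (cst k.unop 0) x = (p.app a).app k x := by
  refine Eq.trans ?_ (congrArg (fun z : MpS X Y ⦋0⦌ => z.app a k
    (SimplexCategory.const k.unop ⦋0⦌ 0) x) h0)
  refine congrArg (fun z => h.app a k z x) ?_
  ext i : 3
  rfl

/-- The equation of a homotopy at the vertex `1`. -/
theorem sdr_one {X Y : SP A} {h : MpS X Y ⦋1⦌} {p : X ⟶ Y}
    (h1 : h.res (SimplexCategory.δ 0) = MpS.ofHom ⦋0⦌ p) (a : Aᵒᵖ) (k : SimplexCategoryᵒᵖ)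
    (x : (X.obj a).obj k) : h.app a k (cst k.unop 1) x = (p.app a).app k x := by
  refine Eq.trans ?_ (congrArg (fun z : MpS X Y ⦋0⦌ => z.app a k
    (SimplexCategory.const k.unop ⦋0⦌ 0) x) h1)
  refine congrArg (fun z => h.app a k z x) ?_
  ext i : 3
  rfl

theorem SDR.pre_hoEq {X Y : SP A} {r : X ⟶ Y} (hr : SDR r) (Z : SP A) :
    HoEq (Mp.pre r Z) := by
  obtain ⟨s, hs, h, h0, h1⟩ := hr
  refine ⟨Mp.pre s Z, htpy_of_eq ?_, htpy_mk
    (fun k (φ : MpS X Z k.unop) s' => (h.res s').comp φ) ?_ ?_ ?_⟩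
  · ext k (φ : MpS Y Z k.unop)
    refine MpS.ext ?_
    funext a l t y
    refine congrArg (φ.app a l t) ?_
    exact congrArg (fun z : Y ⟶ Y => (z.app a).app l y) hs
  · intro k l α φ s'
    refine MpS.ext ?_
    funext a m t y
    exact congrArg (fun z => MpS.app φ a m (t ≫ α.unop) (h.app a m z y))
      (Category.assoc t α.unop s').symm
  · intro k φ
    refine MpS.ext ?_
    funext a l t y
    exact congrArg (MpS.app φ a l t) (sdr_zero h0 a l y)
  · intro k φ
    refine MpS.ext ?_
    funext a l t y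
    exact congrArg (MpS.app φ a l t) (sdr_one h1 a l y)

theorem SDR.post_hoEq {X Y : SP A} {r : X ⟶ Y} (hr : SDR r) (Z : SP A) :
    HoEq (Mp.post Z r) := by
  obtain ⟨s, hs, h, h0, h1⟩ := hr
  refine ⟨Mp.post Z s, htpy_mk
    (fun k (φ : MpS Z X k.unop) s' => φ.comp (h.res s')) ?_ ?_ ?_, htpy_of_eq ?_⟩
  · intro k l α φ s'
    refine MpS.ext ?_
    funext a m t y
    exact congrArg (fun z => h.app a m z (MpS.app φ a m (t ≫ α.unop) y))
      (Category.assoc t α.unop s').symm
  · intro k φ
    refine MpS.ext ?_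
    funext a l t y
    exact sdr_zero h0 a l _
  · intro k φ
    refine MpS.ext ?_
    funext a l t y
    exact sdr_one h1 a l _
  · ext k (φ : MpS Z Y k.unop)
    refine MpS.ext ?_
    funext a l t y
    exact congrArg (fun z : Y ⟶ Y => (z.app a).app l (φ.app a l t y)) hs

theorem SDR.app_hoEq {X Y : SP A} {r : X ⟶ Y} (hr : SDR r) (a : Aᵒᵖ) :
    HoEq (r.app a) := by
  obtain ⟨s, hs, h, h0, h1⟩ := hr
  refine ⟨s.app a, htpy_mk (fun k x s' => h.app a k s' x) ?_ ?_ ?_, htpy_of_eq ?_⟩
  · intro k l α x s'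
    exact h.nat_right a α s' x
  · intro k x
    exact sdr_zero h0 a k x
  · intro k x
    exact sdr_one h1 a k x
  · exact congrArg (fun z : Y ⟶ Y => z.app a) hs

theorem SDR.whisker {B : Type} [SmallCategory B] {X Y : SP A} {r : X ⟶ Y} (hr : SDR r)
    (F : B ⥤ A) : SDR (Functor.whiskerLeft F.op r) := by
  obtain ⟨s, hs, h, h0, h1⟩ := hr
  refine ⟨Functor.whiskerLeft F.op s, ?_,
    { app := fun b k t x => h.app (F.op.obj b) k t x
      nat_left := fun f k t x => h.nat_left (F.op.map f) k t x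
      nat_right := fun b {k l} g t x => h.nat_right (F.op.obj b) g t x }, ?_, ?_⟩
  · exact congrArg (fun z : Y ⟶ Y => Functor.whiskerLeft F.op z) hs
  · refine MpS.ext ?_
    funext b k t x
    exact congrArg (fun z : MpS X X ⦋0⦌ => z.app (F.op.obj b) k t x) h0
  · refine MpS.ext ?_
    funext b k t x
    exact congrArg (fun z : MpS X X ⦋0⦌ => z.app (F.op.obj b) k t x) h1

/-! ### Mapping cylinders -/

namespace CylS

variable {X Y : SP A} {f : X ⟶ Y} {a : Aᵒᵖ} {k : SimplexCategoryᵒᵖ}

theorem desc_cy {T : Type*} (F : (k.unop ⟶ ⦋1⦌) → (X.obj a).obj k → T)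
    (G : (Y.obj a).obj k → T) (hFG : ∀ x, F (cst k.unop 0) x = G ((f.app a).app k x))
    (t : k.unop ⟶ ⦋1⦌) (x : (X.obj a).obj k) : desc F G (cy f t x) = F t x := by
  by_cases h : t = cst k.unop 0
  · subst h
    rw [cy_zero]
    exact (hFG x).symm
  · rw [cy_of_ne h]
    rfl

theorem desc_base {T : Type*} (F : (k.unop ⟶ ⦋1⦌) → (X.obj a).obj k → T)
    (G : (Y.obj a).obj k → T) (y : (Y.obj a).obj k) :
    desc F G (base y : CylS f a k) = G y := rfl

/-- The simplicial structure. -/
noncomputable def mapk {l : SimplexCategoryᵒᵖ} (α : k ⟶ l) : CylS f a k → CylS f a l :=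
  desc (fun t x => cy f (α.unop ≫ t) ((X.obj a).map α x)) fun y => base ((Y.obj a).map α y)

theorem comp_cst {k l : SimplexCategory} (g : l ⟶ k) (i : Fin 2) : g ≫ cst k i = cst l i := rfl

theorem mapk_cy {l : SimplexCategoryᵒᵖ} (α : k ⟶ l) (t : k.unop ⟶ ⦋1⦌) (x : (X.obj a).obj k) :
    mapk α (cy f t x) = cy f (α.unop ≫ t) ((X.obj a).map α x) := by
  refine desc_cy _ _ (fun x => ?_) t x
  refine (congrArg (fun z => cy f z ((X.obj a).map α x)) (comp_cst α.unop 0)).trans ?_
  rw [cy_zero]
  exact congrArg base (hom_natk f α x)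

theorem mapk_base {l : SimplexCategoryᵒᵖ} (α : k ⟶ l) (y : (Y.obj a).obj k) :
    mapk α (base y : CylS f a k) = base ((Y.obj a).map α y) := rfl

/-- The presheaf structure. -/
noncomputable def mapa {b : Aᵒᵖ} (g : a ⟶ b) : CylS f a k → CylS f b k :=
  desc (fun t x => cy f t ((X.map g).app k x)) fun y => base ((Y.map g).app k y)

theorem mapa_cy {b : Aᵒᵖ} (g : a ⟶ b) (t : k.unop ⟶ ⦋1⦌) (x : (X.obj a).obj k) :
    mapa g (cy f t x) = cy f t ((X.map g).app k x) := by
  refine desc_cy _ _ (fun x => ?_) t x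
  rw [cy_zero]
  exact congrArg base (hom_nat f g x)

theorem mapa_base {b : Aᵒᵖ} (g : a ⟶ b) (y : (Y.obj a).obj k) :
    mapa g (base y : CylS f a k) = base ((Y.map g).app k y) := rfl

/-- Pointwise minimum. -/
def minT {k : SimplexCategory} (t s : k ⟶ ⦋1⦌) : k ⟶ ⦋1⦌ :=
  SimplexCategory.Hom.mk ⟨fun i => min (t.toOrderHom i) (s.toOrderHom i), fun _ _ h =>
    min_le_min (t.toOrderHom.monotone h) (s.toOrderHom.monotone h)⟩

theorem minT_apply {k : SimplexCategory} (t s : k ⟶ ⦋1⦌) (i : Fin (k.len + 1)) :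
    (minT t s).toOrderHom i = min (t.toOrderHom i) (s.toOrderHom i) := rfl

theorem comp_minT {k l : SimplexCategory} (g : l ⟶ k) (t s : k ⟶ ⦋1⦌) :
    minT (g ≫ t) (g ≫ s) = g ≫ minT t s := rfl

theorem minT_zero_left {k : SimplexCategory} (s : k ⟶ ⦋1⦌) : minT (cst k 0) s = cst k 0 := by
  ext i : 3
  exact min_eq_left (Fin.zero_le _)

theorem minT_zero_right {k : SimplexCategory} (s : k ⟶ ⦋1⦌) : minT s (cst k 0) = cst k 0 := by
  ext i : 3
  exact min_eq_right (Fin.zero_le _)

theorem minT_one_right {k : SimplexCategory} (s : k ⟶ ⦋1⦌) : minT s (cst k 1) = s := by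
  ext i : 3
  exact min_eq_left (Fin.le_last _)

end CylS

open CylS

/-- The mapping cylinder. -/
noncomputable def Cyl {X Y : SP A} (f : X ⟶ Y) : SP A where
  obj a :=
    { obj := fun k => CylS f a k
      map := fun α => ↾ fun c => mapk α c
      map_id := fun k => by
        ext (c : CylS f a k)
        change mapk (𝟙 k) c = c
        rcases CylS.eqv c with ⟨t, x, rfl⟩ | ⟨y, rfl⟩
        · rw [mapk_cy]
          exact congrArg₂ (cy f) (Category.id_comp t) (sset_id _ x)
        · rw [mapk_base]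
          exact congrArg base (sset_id _ y)
      map_comp := fun {k l m} α β => by
        ext (c : CylS f a k)
        change mapk (α ≫ β) c = mapk β (mapk α c)
        rcases CylS.eqv c with ⟨t, x, rfl⟩ | ⟨y, rfl⟩
        · rw [mapk_cy, mapk_cy, mapk_cy]
          exact congrArg₂ (cy f) (Category.assoc _ _ _) (sset_comp _ α β x)
        · rw [mapk_base, mapk_base, mapk_base]
          exact congrArg base (sset_comp _ α β y) }
  map {a b} g :=
    { app := fun k => ↾ fun c => mapa g c
      naturality := fun k l α => by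
        ext (c : CylS f a k)
        change mapa g (mapk α c) = mapk α (mapa g c)
        rcases CylS.eqv c with ⟨t, x, rfl⟩ | ⟨y, rfl⟩
        · rw [mapk_cy, mapa_cy, mapa_cy, mapk_cy]
          exact congrArg (cy f _) (sp_nat X g α x)
        · rw [mapk_base, mapa_base, mapa_base, mapk_base]
          exact congrArg base (sp_nat Y g α y) }
  map_id a := by
    ext k (c : CylS f a k)
    change mapa (𝟙 a) c = c
    rcases CylS.eqv c with ⟨t, x, rfl⟩ | ⟨y, rfl⟩
    · rw [mapa_cy]
      exact congrArg (cy f t) (sp_id X x)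
    · rw [mapa_base]
      exact congrArg base (sp_id Y y)
  map_comp {a b b'} g h := by
    ext k (c : CylS f a k)
    change mapa (g ≫ h) c = mapa h (mapa g c)
    rcases CylS.eqv c with ⟨t, x, rfl⟩ | ⟨y, rfl⟩
    · rw [mapa_cy, mapa_cy, mapa_cy]
      exact congrArg (cy f t) (sp_comp X g h x)
    · rw [mapa_base, mapa_base, mapa_base]
      exact congrArg base (sp_comp Y g h y)

/-- The retraction of the mapping cylinder. -/
noncomputable def Cyl.ret {X Y : SP A} (f : X ⟶ Y) : Cyl f ⟶ Y where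
  app a :=
    { app := fun k => ↾ fun (c : CylS f a k) =>
        c.desc (fun _ x => (f.app a).app k x) fun y => y
      naturality := fun k l α => by
        ext (c : CylS f a k)
        change (mapk α c).desc (fun _ x => (f.app a).app l x) (fun y => y) =
          (Y.obj a).map α (c.desc (fun _ x => (f.app a).app k x) fun y => y)
        rcases CylS.eqv c with ⟨t, x, rfl⟩ | ⟨y, rfl⟩
        · rw [mapk_cy, desc_cy _ _ (fun _ => rfl), desc_cy _ _ (fun _ => rfl)]
          exact hom_natk f α x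
        · rfl }
  naturality a b g := by
    ext k (c : CylS f a k)
    change (mapa g c).desc (fun _ x => (f.app b).app k x) (fun y => y) =
      (Y.map g).app k (c.desc (fun _ x => (f.app a).app k x) fun y => y)
    rcases CylS.eqv c with ⟨t, x, rfl⟩ | ⟨y, rfl⟩
    · rw [mapa_cy, desc_cy _ _ (fun _ => rfl), desc_cy _ _ (fun _ => rfl)]
      exact hom_nat f g x
    · rfl

theorem Cyl.ret_cy {X Y : SP A} (f : X ⟶ Y) {a : Aᵒᵖ} {k : SimplexCategoryᵒᵖ}
    (t : k.unop ⟶ ⦋1⦌) (x : (X.obj a).obj k) :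
    ((Cyl.ret f).app a).app k (cy f t x) = (f.app a).app k x :=
  desc_cy _ _ (fun _ => rfl) t x

/-- The inclusion of `X` in the mapping cylinder. -/
noncomputable def Cyl.inX {X Y : SP A} (f : X ⟶ Y) : X ⟶ Cyl f where
  app a :=
    { app := fun k => ↾ fun x => cy f (cst k.unop 1) x
      naturality := fun k l α => by
        ext x
        exact (mapk_cy (f := f) α (cst k.unop 1) x).symm }
  naturality a b g := by
    ext k x
    exact (mapa_cy (f := f) g (cst k.unop 1) x).symm

/-- The inclusion of `Y` in the mapping cylinder. -/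
noncomputable def Cyl.inY {X Y : SP A} (f : X ⟶ Y) : Y ⟶ Cyl f where
  app a :=
    { app := fun k => ↾ fun y => (base y : CylS f a k)
      naturality := fun _ _ _ => rfl }
  naturality _ _ _ := rfl

/-- The deformation of the mapping cylinder. -/
noncomputable def Cyl.defo {X Y : SP A} (f : X ⟶ Y) : MpS (Cyl f) (Cyl f) ⦋1⦌ where
  app a k s (c : CylS f a k) := c.desc (fun t x => cy f (minT t s) x) fun y => base y
  nat_left {a b} g k s (c : CylS f a k) := by
    change (mapa g c).desc (fun t x => cy f (minT t s) x) (fun y => base y) =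
      mapa g (c.desc (fun t x => cy f (minT t s) x) fun y => base y)
    rcases CylS.eqv c with ⟨t, x, rfl⟩ | ⟨y, rfl⟩
    · rw [mapa_cy, desc_cy _ _ (fun _ => by rw [minT_zero_left, cy_zero]),
        desc_cy _ _ (fun _ => by rw [minT_zero_left, cy_zero]), mapa_cy]
    · rfl
  nat_right a {k l} α s (c : CylS f a k) := by
    change (mapk α c).desc (fun t x => cy f (minT t (α.unop ≫ s)) x) (fun y => base y) =
      mapk α (c.desc (fun t x => cy f (minT t s) x) fun y => base y)
    rcases CylS.eqv c with ⟨t, x, rfl⟩ | ⟨y, rfl⟩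
    · rw [mapk_cy, desc_cy _ _ (fun _ => by rw [minT_zero_left, cy_zero]),
        desc_cy _ _ (fun _ => by rw [minT_zero_left, cy_zero]), mapk_cy, comp_minT]
    · rfl

theorem Cyl.defo_cy {X Y : SP A} (f : X ⟶ Y) {a : Aᵒᵖ} {k : SimplexCategoryᵒᵖ}
    (s t : k.unop ⟶ ⦋1⦌) (x : (X.obj a).obj k) :
    (Cyl.defo f).app a k s (cy f t x) = cy f (minT t s) x :=
  desc_cy _ _ (fun _ => by rw [minT_zero_left, cy_zero]) t x

theorem cst_ne (k : SimplexCategory) : cst k 1 ≠ cst k 0 := by
  intro h
  have h1 := congrArg (fun z : k ⟶ ⦋1⦌ => z.toOrderHom 0) h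
  exact absurd h1 (by decide : ¬ (1 : Fin 2) = 0)

theorem exists_cyl {X Y : SP A} (f : X ⟶ Y) :
    ∃ (C : SP A) (i : X ⟶ C) (r : C ⟶ Y), i ≫ r = f ∧ (∀ a, Mono (i.app a)) ∧ SDR r := by
  refine ⟨Cyl f, Cyl.inX f, Cyl.ret f, ?_, ?_, Cyl.inY f, ?_, Cyl.defo f, ?_, ?_⟩
  · ext a k x
    exact Cyl.ret_cy f _ x
  · intro a
    have : ∀ k, Mono (((Cyl.inX f).app a).app k) := by
      intro k
      rw [mono_iff_injective]
      intro x y hxy
      have h1 : cy f (cst k.unop 1) x = cy f (cst k.unop 1) y := hxy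
      rw [cy_of_ne (cst_ne _), cy_of_ne (cst_ne _)] at h1
      injection h1
    exact NatTrans.mono_of_mono_app _
  · ext a k y
    rfl
  · refine MpS.ext ?_
    funext a k s (c : CylS f a k)
    have e : s ≫ (SimplexCategory.δ 1 : ⦋0⦌ ⟶ ⦋1⦌) = cst k.unop 0 := by
      ext i : 3
      change (SimplexCategory.δ 1 : ⦋0⦌ ⟶ ⦋1⦌).toOrderHom (s.toOrderHom i) = 0
      rw [show s.toOrderHom i = 0 from Subsingleton.elim (α := Fin 1) _ _]
      rfl
    change (Cyl.defo f).app a k (s ≫ (SimplexCategory.δ 1 : ⦋0⦌ ⟶ ⦋1⦌)) c =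
      base (((Cyl.ret f).app a).app k c)
    rw [e]
    rcases CylS.eqv c with ⟨t, x, rfl⟩ | ⟨y, rfl⟩
    · rw [Cyl.defo_cy, minT_zero_right, cy_zero, Cyl.ret_cy]
    · rfl
  · refine MpS.ext ?_
    funext a k s (c : CylS f a k)
    have e : s ≫ (SimplexCategory.δ 0 : ⦋0⦌ ⟶ ⦋1⦌) = cst k.unop 1 := by
      ext i : 3
      change (SimplexCategory.δ 0 : ⦋0⦌ ⟶ ⦋1⦌).toOrderHom (s.toOrderHom i) = 1
      rw [show s.toOrderHom i = 0 from Subsingleton.elim (α := Fin 1) _ _]
      rfl
    change (Cyl.defo f).app a k (s ≫ (SimplexCategory.δ 0 : ⦋0⦌ ⟶ ⦋1⦌)) c = c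
    rw [e]
    rcases CylS.eqv c with ⟨t, x, rfl⟩ | ⟨y, rfl⟩
    · rw [Cyl.defo_cy, minT_one_right]
    · rfl

end

end Pool.Agent.Helper36.FL
end

/- Helper7.FL2.Vface -/
section
/-!
# Faces of `V[m](B)`
-/

open CategoryTheory MonoidalCategory Opposite

set_option autoImplicit false

namespace Pool.Agent.Helper7.FL2

open FL

noncomputable section

variable {C : Type} [SmallCategory C]

/-- The product of the labels `B j` of the gaps `j` inside the image of the gap `t`. -/
def Prd {k m : ℕ} (p : Fin (k + 1) →o Fin (m + 1)) (B : Fin m → SP C) (t : Fin k) : SP C where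
  obj c :=
    { obj := fun l => ∀ j, Jump p t j → ((B j).obj c).obj l
      map := fun α => ↾ fun x j h => ((B j).obj c).map α (x j h)
      map_id := fun l => by
        refine ConcreteCategory.hom_ext _ _ fun x => ?_
        funext j h
        exact sset_id _ _
      map_comp := fun α β => by
        refine ConcreteCategory.hom_ext _ _ fun x => ?_
        funext j h
        exact sset_comp _ α β _ }
  map f :=
    { app := fun l => ↾ fun x j h => ((B j).map f).app l (x j h)
      naturality := fun l l' α => by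
        refine ConcreteCategory.hom_ext _ _ fun x => ?_
        funext j h
        exact sp_nat (B j) f α _ }
  map_id c := by
    refine NatTrans.ext (funext fun l => ?_)
    refine ConcreteCategory.hom_ext _ _ fun x => ?_
    funext j h
    exact sp_id (B j) _
  map_comp f g := by
    refine NatTrans.ext (funext fun l => ?_)
    refine ConcreteCategory.hom_ext _ _ fun x => ?_
    funext j h
    exact sp_comp (B j) f g _

/-- The projections of `Prd`. -/
def prj {k m : ℕ} (p : Fin (k + 1) →o Fin (m + 1)) (B : Fin m → SP C) (t : Fin k) (j : Fin m)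
    (h : Jump p t j) : Prd p B t ⟶ B j where
  app _ :=
    { app := fun _ => ↾ fun x => x j h
      naturality := fun _ _ _ => rfl }
  naturality _ _ _ := rfl

theorem prd_ext {k m : ℕ} {p : Fin (k + 1) →o Fin (m + 1)} {B : Fin m → SP C} {t : Fin k}
    {c : Cᵒᵖ} {l : SimplexCategoryᵒᵖ} {x y : ((Prd p B t).obj c).obj l}
    (h : ∀ j (hj : Jump p t j), ((prj p B t j hj).app c).app l x =
      ((prj p B t j hj).app c).app l y) : x = y := by
  funext j hj
  exact h j hj

/-- The canonical map. -/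
def fmap {k m : ℕ} (p : Fin (k + 1) →o Fin (m + 1)) (B : Fin m → SP C) :
    V (Prd p B) ⟶ V B :=
  V.mapW p (prj p B)

theorem fmap_inj {k m : ℕ} (p : Fin (k + 1) →o Fin (m + 1)) (hp : Function.Injective p)
    (B : Fin m → SP C) (θ : Wr C) (l : SimplexCategoryᵒᵖ) (u v : VS (Prd p B) θ l)
    (h : u.pushW p (prj p B) = v.pushW p (prj p B)) : u = v := by
  have hf : p.comp u.f = p.comp v.f := congrArg VS.f h
  have hf' : u.f = v.f := by
    refine OrderHom.ext _ _ (funext fun i => ?_)
    exact hp (DFunLike.congr_fun hf i)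
  refine VS.ext' hf' fun i t hi hi' => ?_
  refine prd_ext fun j hj => ?_
  have e1 := VS.pushW_g p (prj p B) u hi hj
  have e2 := VS.pushW_g p (prj p B) v hi' hj
  refine e1.symm.trans (Eq.trans ?_ e2)
  have key : ∀ (a b : VS B θ l) (_ : a = b) (h1 : Jump a.f i j) (h2 : Jump b.f i j),
      a.g i j h1 = b.g i j h2 := by
    rintro a b rfl h1 h2
    rfl
  exact key _ _ h _ _

/-- The simplex of `V (Prd p B)` attached to a simplex of `V B` whose map factors through `p`. -/
def lft {k m : ℕ} (p : Fin (k + 1) →o Fin (m + 1)) (B : Fin m → SP C) {θ : Wr C}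
    {l : SimplexCategoryᵒᵖ} (f : Fin (θ.len + 1) →o Fin (k + 1))
    (g : ∀ (i : Fin θ.len) (j : Fin m), Jump (p.comp f) i j →
      ((B j).obj (op (θ.obj i))).obj l) : VS (Prd p B) θ l where
  f := f
  g i _ h := fun j h' => g i j (h.comp h')

theorem lft_push {k m : ℕ} (p : Fin (k + 1) →o Fin (m + 1)) (B : Fin m → SP C) {θ : Wr C}
    {l : SimplexCategoryᵒᵖ} (f : Fin (θ.len + 1) →o Fin (k + 1))
    (g : ∀ (i : Fin θ.len) (j : Fin m), Jump (p.comp f) i j →
      ((B j).obj (op (θ.obj i))).obj l) :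
    (lft p B f g).pushW p (prj p B) = ⟨p.comp f, g⟩ := by
  refine VS.ext' rfl fun i j h h' => ?_
  obtain ⟨t, ht, ht'⟩ := Jump.split (f := f) (g := p) h
  exact VS.pushW_g p (prj p B) (lft p B f g) (i := i) ht ht'

theorem vface_iso {m : ℕ} (B : Fin m → SP C) {k : ℕ} (p : Fin (k + 1) ↪o Fin (m + 1)) :
    ∃ (B' : Fin k → SP C) (f : V B' ⟶ V B), (∀ a, Mono (f.app a)) ∧
      Sb.range f = vface B (Finset.univ.map p.toEmbedding) ∧
      ∀ (θ : (Wr C)ᵒᵖ) (l : SimplexCategoryᵒᵖ) (u : VS B' θ.unop l),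
        ((f.app θ).app l u : VS B θ.unop l).f = p.toOrderHom.comp u.f := by
  refine ⟨Prd p.toOrderHom B, fmap p.toOrderHom B, ?_, ?_, ?_⟩
  · intro a
    have : ∀ l, Mono (((fmap p.toOrderHom B).app a).app l) := by
      intro l
      rw [mono_iff_injective]
      intro u v h
      exact fmap_inj p.toOrderHom p.injective B a.unop l u v h
    exact NatTrans.mono_of_mono_app _
  · refine Sb.ext ?_
    funext θ l
    ext v
    constructor
    · rintro ⟨u, rfl⟩
      intro i
      rw [Finset.mem_map]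
      exact ⟨(u : VS (Prd p.toOrderHom B) θ.unop l).f i, Finset.mem_univ _, rfl⟩
    · intro hv
      obtain ⟨f, g⟩ := (v : VS B θ.unop l)
      have hv' : ∀ i, ∃ t, p t = f i := by
        intro i
        have := hv i
        rw [Finset.mem_map] at this
        obtain ⟨t, _, ht⟩ := this
        exact ⟨t, ht⟩
      choose f' hf' using hv'
      have hmono : Monotone f' := by
        intro i j hij
        rw [← p.le_iff_le, hf', hf']
        exact f.monotone hij
      have hfe : f = p.toOrderHom.comp ⟨f', hmono⟩ := by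
        refine OrderHom.ext _ _ (funext fun i => ?_)
        exact (hf' i).symm
      subst hfe
      exact ⟨lft p.toOrderHom B ⟨f', hmono⟩ g, lft_push p.toOrderHom B ⟨f', hmono⟩ g⟩
  · intro θ l u
    rfl

/-! ### The pullback of `V[r](B)` along a map from a simplex -/

section Simplex

variable {r N : ℕ} (B : Fin r → SP C)
  (s : (SSet.stdSimplex.obj (SimplexCategory.mk N) : SSet.{0}) ⟶
    SSet.stdSimplex.obj (SimplexCategory.mk r))

/-- The fundamental simplex. -/
def fund (N : ℕ) : (SSet.stdSimplex.obj (SimplexCategory.mk N) : SSet.{0}).obj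
    (op (SimplexCategory.mk N)) :=
  SSet.stdSimplex.objEquiv.symm (𝟙 _)

/-- The map of simplices as a monotone map. -/
def pp : Fin (N + 1) →o Fin (r + 1) := sh s (fund N)

/-- The monotone map of a simplex of the standard simplex. -/
abbrev shI {n : ℕ} (x : (SSet.stdSimplex.obj (SimplexCategory.mk N) : SSet.{0}).obj
    (op (SimplexCategory.mk n))) : Fin (n + 1) →o Fin (N + 1) :=
  sh (𝟙 (SSet.stdSimplex.obj (SimplexCategory.mk N) : SSet.{0})) x

theorem sh_eq {n : ℕ} (x : (SSet.stdSimplex.obj (SimplexCategory.mk N) : SSet.{0}).obj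
    (op (SimplexCategory.mk n))) : sh s x = (pp s).comp (shI x) := by
  have e : x = (SSet.stdSimplex.obj (SimplexCategory.mk N) : SSet.{0}).map
      (Quiver.Hom.op (SimplexCategory.Hom.mk (shI x) :
        SimplexCategory.mk n ⟶ SimplexCategory.mk N)) (fund N) := by
    unfold fund
    rw [SSet.stdSimplex.map_objEquiv_symm]
    apply SSet.stdSimplex.objEquiv.injective
    rw [Equiv.apply_symm_apply, Category.comp_id]
    rfl
  conv_lhs => rw [e]
  exact sh_map s (shI x) (fund N)

/-- The simplex with a given monotone map. -/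
def ofI {n : ℕ} (f : Fin (n + 1) →o Fin (N + 1)) :
    (SSet.stdSimplex.obj (SimplexCategory.mk N) : SSet.{0}).obj (op (SimplexCategory.mk n)) :=
  SSet.stdSimplex.objEquiv.symm (SimplexCategory.Hom.mk f)

theorem shI_ofI {n : ℕ} (f : Fin (n + 1) →o Fin (N + 1)) : shI (ofI f) = f := rfl

theorem shI_inj {n : ℕ} {x y : (SSet.stdSimplex.obj (SimplexCategory.mk N) : SSet.{0}).obj
    (op (SimplexCategory.mk n))} (h : shI x = shI y) : x = y := by
  apply SSet.stdSimplex.objEquiv.injective
  exact SimplexCategory.Hom.ext _ _ h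

theorem jmp {n : ℕ} {x : (SSet.stdSimplex.obj (SimplexCategory.mk N) : SSet.{0}).obj
    (op (SimplexCategory.mk n))} {i : Fin n} {j : Fin r} :
    Jump (sh s x) i j ↔ Jump ((pp s).comp (shI x)) i j := by
  rw [sh_eq]

/-- The comparison map on simplices. -/
def cmpS {θ : Wr C} {k : SimplexCategoryᵒᵖ} (u : PhS B s θ k) : VS (Prd (pp s) B) θ k where
  f := shI u.x
  g i _ h := fun j h' => u.g i j ((jmp s).mpr (h.comp h'))

theorem cmpS_bij (θ : Wr C) (k : SimplexCategoryᵒᵖ) :
    Function.Bijective (cmpS B s : PhS B s θ k → VS (Prd (pp s) B) θ k) := by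
  constructor
  · intro u v h
    have hx : u.x = v.x := shI_inj (congrArg VS.f h)
    refine PhS.ext' hx fun i j hi hi' => ?_
    obtain ⟨t, ht, ht'⟩ := Jump.split (f := shI u.x) (g := pp s) ((jmp s).mp hi)
    have key : ∀ (a b : VS (Prd (pp s) B) θ k) (_ : a = b) (h1 : Jump a.f i t)
        (h2 : Jump b.f i t), a.g i t h1 j ht' = b.g i t h2 j ht' := by
      rintro a b rfl h1 h2
      rfl
    have ht2 : Jump (shI v.x) i t := by
      rw [← hx]
      exact ht
    exact key _ _ h ht ht2
  · intro v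
    refine ⟨{ x := ofI v.f
              g := fun i j h => v.g i (Jump.split (f := v.f) (g := pp s)
                ((jmp s).mp h)).choose (Jump.split (f := v.f) (g := pp s)
                ((jmp s).mp h)).choose_spec.1 j (Jump.split (f := v.f) (g := pp s)
                ((jmp s).mp h)).choose_spec.2 }, ?_⟩
    refine VS.ext' rfl fun i t h h' => ?_
    funext j hj
    have h2 := (Jump.split (f := v.f) (g := pp s) (h'.comp hj)).choose_spec
    have e : (Jump.split (f := v.f) (g := pp s) (h'.comp hj)).choose = t := h2.2.unique hj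
    have aux : ∀ t' (e : t' = t) (h1 : Jump v.f i t') (h2 : Jump (pp s) t' j),
        v.g i t' h1 j h2 = v.g i t h' j hj := by
      rintro t' rfl h1 h2
      rfl
    exact aux _ e _ _

/-- The comparison map. -/
def cmp : Ph B s ⟶ V (Prd (pp s) B) where
  app θ :=
    { app := fun k => ↾ fun (u : PhS B s θ.unop k) => cmpS B s u
      naturality := fun _ _ _ => rfl }
  naturality θ θ' φ := by
    refine NatTrans.ext (funext fun k => ?_)
    refine ConcreteCategory.hom_ext _ _ fun (u : PhS B s θ.unop k) => ?_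
    refine VS.ext' rfl fun i t h h' => ?_
    funext j hj
    obtain ⟨v, hv, hv'⟩ := Jump.split (f := Wr.Hom.f φ.unop) (g := shI u.x) h'
    have h3 : Jump (sh s (u.mapθ φ.unop).x) i j := (jmp s).mpr (h.comp hj)
    refine (PhS.mapθ_g φ.unop u hv ((jmp s).mpr (hv'.comp hj)) h3).trans ?_
    exact (congrFun (congrFun (VS.mapθ_g φ.unop (cmpS B s u) hv hv') j) hj).symm

theorem cmp_isIso : IsIso (cmp B s) := by
  rw [NatTrans.isIso_iff_isIso_app]
  intro θ
  rw [NatTrans.isIso_iff_isIso_app]
  intro k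
  rw [isIso_iff_bijective]
  exact cmpS_bij B s θ.unop k

theorem Ph_simplex {r N : ℕ} (B : Fin r → SP C)
    (s : (SSet.stdSimplex.obj (SimplexCategory.mk N) : SSet.{0}) ⟶
      SSet.stdSimplex.obj (SimplexCategory.mk r)) :
    ∃ (B' : Fin N → SP C) (e : Ph B s ≅ V B'), ∀ (θ : (Wr C)ᵒᵖ) (k : SimplexCategoryᵒᵖ)
      (u : PhS B s θ.unop k), ((e.hom.app θ).app k u : VS B' θ.unop k).f = sh (𝟙 _) u.x := by
  have := cmp_isIso B s
  exact ⟨Prd (pp s) B, asIso (cmp B s), fun _ _ _ => rfl⟩

end Simplex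

end

end Pool.Agent.Helper7.FL2
end

/- Helper43.FL2.Inert -/
section
/-!
# Interval inclusions in wreath products (for FL2-C1a)
-/

open CategoryTheory MonoidalCategory Opposite

set_option autoImplicit false

namespace Pool.Agent.Helper43.FL2

open FL

variable {C : Type} [SmallCategory C]

/-- Inclusions of intervals. -/
structure Inert {X Y : Wr C} (ι : X ⟶ Y) (a : ℕ) : Prop where
  f : ∀ t, (Wr.Hom.f ι t).val = a + t.val
  g : ∀ i j h, IsIso (Wr.Hom.g ι i j h)

namespace Inert

variable {X Y : Wr C} {ι : X ⟶ Y} {a : ℕ}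

theorem jump (h : Inert ι a) {i : Fin X.len} {j : Fin Y.len} :
    Jump (Wr.Hom.f ι) i j ↔ j.val = a + i.val := by
  unfold Jump
  rw [Fin.le_def, Fin.le_def, h.f, h.f]
  simp only [Fin.val_castSucc, Fin.val_succ]
  omega

theorem lt (h : Inert ι a) (i : Fin X.len) : a + i.val < Y.len := by
  have h1 := h.f i.succ
  have h2 := (Wr.Hom.f ι i.succ).isLt
  rw [h1, Fin.val_succ] at h2
  omega

theorem len_le (h : Inert ι a) : a + X.len ≤ Y.len := by
  have h1 := h.f (Fin.last _)
  have h2 := (Wr.Hom.f ι (Fin.last _)).isLt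
  rw [h1, Fin.val_last] at h2
  omega

/-- The shifted index. -/
def sft (h : Inert ι a) (i : Fin X.len) : Fin Y.len := ⟨a + i.val, h.lt i⟩

theorem jump_sft (h : Inert ι a) (i : Fin X.len) : Jump (Wr.Hom.f ι) i (h.sft i) :=
  h.jump.2 rfl

/-- Postcomposition is injective. -/
theorem comp_injective (h : Inert ι a) {Z : Wr C} {φ ψ : Z ⟶ X} (e : φ ≫ ι = ψ ≫ ι) :
    φ = ψ := by
  have hf : Wr.Hom.f φ = Wr.Hom.f ψ := by
    ext t
    have h1 := congrArg (fun w : Z ⟶ Y => (Wr.Hom.f w t).val) e
    simp only [Wr.comp_f, OrderHom.comp_coe, Function.comp_apply, h.f] at h1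
    omega
  refine Wr.hom_ext' hf fun i j h1 h2 => ?_
  have e1 := Wr.comp_g φ ι h1 (h.jump_sft j)
  have e2 := Wr.comp_g ψ ι h2 (h.jump_sft j)
  have e3 : Wr.Hom.g (φ ≫ ι) i (h.sft j) (h1.comp (h.jump_sft j)) =
      Wr.Hom.g (ψ ≫ ι) i (h.sft j) (h2.comp (h.jump_sft j)) := by
    congr 1
  have := h.g j (h.sft j) (h.jump_sft j)
  rw [← cancel_mono (Wr.Hom.g ι j (h.sft j) (h.jump_sft j)), ← e1, ← e2, e3]

/-- Morphisms with values in the interval factor. -/
theorem factor (h : Inert ι a) {Z : Wr C} (ψ : Z ⟶ Y)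
    (hψ : ∀ t, a ≤ (Wr.Hom.f ψ t).val ∧ (Wr.Hom.f ψ t).val ≤ a + X.len) :
    ∃ φ : Z ⟶ X, φ ≫ ι = ψ := by
  let f : Fin (Z.len + 1) →o Fin (X.len + 1) :=
    ⟨fun t => ⟨(Wr.Hom.f ψ t).val - a, by have := hψ t; omega⟩, fun s t hst => by
      have := (Wr.Hom.f ψ).monotone hst
      rw [Fin.le_def] at this ⊢
      simp only
      omega⟩
  have hfv : ∀ t, (f t).val = (Wr.Hom.f ψ t).val - a := fun t => rfl
  have hj : ∀ i j, Jump f i j → Jump (Wr.Hom.f ψ) i (h.sft j) := by
    rintro i j ⟨h1, h2⟩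
    rw [Fin.le_def, hfv, Fin.val_castSucc] at h1
    rw [Fin.le_def, hfv, Fin.val_succ] at h2
    have h3 := hψ i.castSucc
    have h4 := hψ i.succ
    refine ⟨?_, ?_⟩
    · rw [Fin.le_def, Fin.val_castSucc]
      simp only [sft]
      omega
    · rw [Fin.le_def, Fin.val_succ]
      simp only [sft]
      omega
  have hiso := h.g
  let φ : Z ⟶ X := ({ f := f
                      g := fun i j hij => Wr.Hom.g ψ i (h.sft j) (hj i j hij) ≫
                        (haveI := hiso j (h.sft j) (h.jump_sft j)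
                         inv (Wr.Hom.g ι j (h.sft j) (h.jump_sft j))) } : Wr.Hom Z X)
  refine ⟨φ, Wr.hom_ext' ?_ ?_⟩
  · ext t
    rw [Wr.comp_f]
    change (Wr.Hom.f ι (f t)).val = _
    rw [h.f, hfv]
    have := hψ t
    omega
  · intro i k h1 h2
    obtain ⟨j, hj1, hj2⟩ := Jump.split (f := Wr.Hom.f φ) (g := Wr.Hom.f ι) h1
    have e1 := Wr.comp_g φ ι hj1 hj2
    refine e1.trans ?_
    obtain rfl : k = h.sft j := Fin.ext (h.jump.1 hj2)
    have := hiso j (h.sft j) (h.jump_sft j)
    change (Wr.Hom.g ψ i (h.sft j) _ ≫ inv (Wr.Hom.g ι j (h.sft j) _)) ≫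
      Wr.Hom.g ι j (h.sft j) _ = _
    rw [Category.assoc, IsIso.inv_hom_id, Category.comp_id]

theorem factor_iff (h : Inert ι a) {Z : Wr C} (ψ : Z ⟶ Y) :
    (∃ φ : Z ⟶ X, φ ≫ ι = ψ) ↔
      ∀ t, a ≤ (Wr.Hom.f ψ t).val ∧ (Wr.Hom.f ψ t).val ≤ a + X.len := by
  refine ⟨?_, h.factor ψ⟩
  rintro ⟨φ, rfl⟩ t
  rw [Wr.comp_f, OrderHom.comp_coe, Function.comp_apply, h.f]
  have := (Wr.Hom.f φ t).isLt
  omega

end Inert

theorem inert_init {r : ℕ} (c : Fin (r + 1) → C) : Inert (initMap c) 0 where
  f t := by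
    change (Fin.castSucc t).val = _
    simp
  g i j h := by
    have e : (init c).obj i = (⟨r + 1, c⟩ : Wr C).obj j := by
      have h1 : i.1 ≤ j.1 := h.1
      have h2 : j.1 + 1 ≤ i.1 + 1 := h.2
      refine congrArg c (Fin.ext ?_)
      change i.1 = j.1
      omega
    change IsIso (eqToHom e)
    infer_instance

theorem inert_last {r : ℕ} (c : Fin (r + 1) → C) : Inert (lastMap' c) r where
  f t := rfl
  g i j h := by
    have e : (seg (c (Fin.last r))).obj i = (⟨r + 1, c⟩ : Wr C).obj j := by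
      have h1 : r + i.1 ≤ j.1 := h.1
      refine congrArg c (Fin.ext ?_)
      have h2 : j.1 < r + 1 := j.2
      change r = j.1
      omega
    change IsIso (eqToHom e)
    infer_instance

theorem inert_vtx (θ : Wr C) (i : Fin (θ.len + 1)) : Inert (vtx θ i) i.val where
  f t := by
    change i.val = _
    have := t.isLt
    change t.val < 0 + 1 at this
    omega
  g i j h := i.elim0

end Pool.Agent.Helper43.FL2
end

/- Helper37.FL2.MapW -/
section
/-!
# FL2-C1b: the maps `V.mapW` over inclusions of intervals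
-/

open CategoryTheory MonoidalCategory Opposite

set_option autoImplicit false

namespace Pool.Agent.Helper37.FL2

open FL

noncomputable section

variable {C : Type} [SmallCategory C]

/-- Maps `V.mapW` over inclusions of intervals, with bijective components. -/
structure InV {r m : ℕ} {X : Fin r → SP C} {Y : Fin m → SP C}
    (p : Fin (r + 1) →o Fin (m + 1))
    (q : ∀ (j : Fin r) (k : Fin m), Jump p j k → (X j ⟶ Y k)) (a : ℕ) : Prop where
  f : ∀ t, (p t).val = a + t.val
  g : ∀ (j : Fin r) (k : Fin m) (h : Jump p j k) (c : Cᵒᵖ) (l : SimplexCategoryᵒᵖ),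
    Function.Bijective (((q j k h).app c).app l)

namespace InV

variable {r m : ℕ} {X : Fin r → SP C} {Y : Fin m → SP C} {p : Fin (r + 1) →o Fin (m + 1)}
  {q : ∀ (j : Fin r) (k : Fin m), Jump p j k → (X j ⟶ Y k)} {a : ℕ}

theorem jump (h : InV p q a) {i : Fin r} {j : Fin m} : Jump p i j ↔ j.val = a + i.val := by
  unfold Jump
  rw [Fin.le_def, Fin.le_def, h.f, h.f]
  simp only [Fin.val_castSucc, Fin.val_succ]
  omega

theorem lt (h : InV p q a) (i : Fin r) : a + i.val < m := by
  have h1 := h.f i.succ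
  have h2 := (p i.succ).isLt
  rw [h1, Fin.val_succ] at h2
  omega

/-- The shifted index. -/
def sft (h : InV p q a) (i : Fin r) : Fin m := ⟨a + i.val, h.lt i⟩

theorem jump_sft (h : InV p q a) (i : Fin r) : Jump p i (h.sft i) := h.jump.2 rfl

theorem vs_g_congr {m : ℕ} {X : Fin m → SP C} {θ : Wr C} {k : SimplexCategoryᵒᵖ} {u v : VS X θ k}
    (e : u = v) (i : Fin θ.len) (j : Fin m) (h : Jump u.f i j) (h' : Jump v.f i j) :
    u.g i j h = v.g i j h' := by
  subst e
  rfl

theorem injective (h : InV p q a) {θ : Wr C} {k : SimplexCategoryᵒᵖ} {u v : VS X θ k}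
    (e : u.pushW p q = v.pushW p q) : u = v := by
  have hf : u.f = v.f := by
    ext t
    have h1 := congrArg (fun w : VS Y θ k => (w.f t).val) e
    simp only [VS.pushW_f, OrderHom.comp_coe, Function.comp_apply, h.f] at h1
    omega
  refine VS.ext' hf fun i j h1 h2 => ?_
  have e1 := VS.pushW_g p q u h1 (h.jump_sft j)
  have e2 := VS.pushW_g p q v h2 (h.jump_sft j)
  have e3 := vs_g_congr e i (h.sft j) (h1.comp (h.jump_sft j)) (h2.comp (h.jump_sft j))
  refine (h.g j (h.sft j) (h.jump_sft j) (op (θ.obj i)) k).1 ?_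
  rw [← e1, ← e2]
  exact e3

/-- Simplices with values in the interval factor. -/
theorem factor (h : InV p q a) {θ : Wr C} {k : SimplexCategoryᵒᵖ} (u : VS Y θ k)
    (hu : ∀ t, a ≤ (u.f t).val ∧ (u.f t).val ≤ a + r) :
    ∃ w : VS X θ k, w.pushW p q = u := by
  let f : Fin (θ.len + 1) →o Fin (r + 1) :=
    ⟨fun t => ⟨(u.f t).val - a, by have := hu t; omega⟩, fun s t hst => by
      have := u.f.monotone hst
      rw [Fin.le_def] at this ⊢
      simp only
      omega⟩
  have hfv : ∀ t, (f t).val = (u.f t).val - a := fun t => rfl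
  have hj : ∀ i j, Jump f i j → Jump u.f i (h.sft j) := by
    rintro i j ⟨h1, h2⟩
    rw [Fin.le_def, hfv, Fin.val_castSucc] at h1
    rw [Fin.le_def, hfv, Fin.val_succ] at h2
    have h3 := hu i.castSucc
    have h4 := hu i.succ
    refine ⟨?_, ?_⟩
    · rw [Fin.le_def, Fin.val_castSucc]
      simp only [sft]
      omega
    · rw [Fin.le_def, Fin.val_succ]
      simp only [sft]
      omega
  let w : VS X θ k :=
    { f := f
      g := fun i j hij => Function.surjInv
        (h.g j (h.sft j) (h.jump_sft j) (op (θ.obj i)) k).2 (u.g i (h.sft j) (hj i j hij)) }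
  refine ⟨w, VS.ext' ?_ ?_⟩
  · ext t
    change (p (f t)).val = _
    rw [h.f, hfv]
    have := hu t
    omega
  · intro i l h1 h2
    obtain ⟨j, hj1, hj2⟩ := Jump.split (f := w.f) (g := p) h1
    refine (VS.pushW_g p q w hj1 hj2).trans ?_
    obtain rfl : l = h.sft j := Fin.ext (h.jump.1 hj2)
    exact Function.surjInv_eq (h.g j (h.sft j) (h.jump_sft j) (op (θ.obj i)) k).2 _

theorem mem_range (h : InV p q a) (θ : (Wr C)ᵒᵖ) (k : SimplexCategoryᵒᵖ)
    (u : VS Y θ.unop k) : (show ((V Y).obj θ).obj k from u) ∈ (Sb.range (V.mapW p q)).mem θ k ↔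
      ∀ t, a ≤ (u.f t).val ∧ (u.f t).val ≤ a + r := by
  constructor
  · rintro ⟨w, hw⟩ t
    have hw' : (VS.pushW p q (show VS X θ.unop k from w)) = u := hw
    rw [← hw']
    change a ≤ (p _).val ∧ (p _).val ≤ a + r
    rw [h.f]
    have := ((show VS X θ.unop k from w).f t).isLt
    omega
  · intro hu
    obtain ⟨w, hw⟩ := h.factor u hu
    exact ⟨w, hw⟩

theorem mono (h : InV p q a) (θ : (Wr C)ᵒᵖ) : Mono ((V.mapW p q).app θ) := by
  rw [NatTrans.mono_iff_mono_app]
  intro k
  rw [mono_iff_injective]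
  intro u v e
  exact h.injective (u := (show VS X θ.unop k from u)) (v := (show VS X θ.unop k from v)) e

end InV

open Pool.Agent.Helper43.FL2

/-- The maps of the frame `VFr T` over inclusions of intervals. -/
theorem inV_of_inert (T : Fr C) {θ θ' : Wr C} {φ : θ ⟶ θ'} {a : ℕ} (h : Inert φ a)
    (m : SimplexCategory) :
    InV (X := fun i => (T.obj (θ.obj i)).obj m) (Y := fun i => (T.obj (θ'.obj i)).obj m)
      (Wr.Hom.f φ) (fun j k hjk => (T.map (Wr.Hom.g φ j k hjk)).app m) a where
  f := h.f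
  g j k hjk c l := by
    haveI := h.g j k hjk
    have : IsIso ((((T.map (Wr.Hom.g φ j k hjk)).app m).app c).app l) := inferInstance
    exact (isIso_iff_bijective _).mp this

variable (T : Fr C)

theorem mem_range_inertV {θ θ' : Wr C} {φ : θ ⟶ θ'} {a : ℕ} (h : Inert φ a)
    (m : SimplexCategory) (η : (Wr C)ᵒᵖ) (k : SimplexCategoryᵒᵖ)
    (u : VS (fun i => (T.obj (θ'.obj i)).obj m) η.unop k) :
    (show (((((VFr T).obj θ').obj m)).obj η).obj k from u) ∈
      (Sb.range (((VFr T).map φ).app m)).mem η k ↔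
      ∀ t, a ≤ (u.f t).val ∧ (u.f t).val ≤ a + θ.len :=
  (inV_of_inert T h m).mem_range η k u

theorem mono_inertV {θ θ' : Wr C} {φ : θ ⟶ θ'} {a : ℕ} (h : Inert φ a)
    (m : SimplexCategory) (η : (Wr C)ᵒᵖ) : Mono ((((VFr T).map φ).app m).app η) :=
  (inV_of_inert T h m).mono η

theorem inter_VFr {r : ℕ} (c : Fin (r + 1) → C) (m : SimplexCategory) :
    Sb.range (((VFr T).map (initMap c)).app m) ⊓ Sb.range (((VFr T).map (lastMap' c)).app m) ≤
      Sb.range (((VFr T).map (vtx ⟨r + 1, c⟩ (Fin.last r).castSucc)).app m) := by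
  rintro η k (z : VS (fun i : Fin (r + 1) => (T.obj (c i)).obj m) η.unop k) ⟨h1, h2⟩
  have h1' := (mem_range_inertV T (inert_init c) m η k z).1 h1
  have h2' := (mem_range_inertV T (inert_last c) m η k z).1 h2
  refine (mem_range_inertV T (inert_vtx (⟨r + 1, c⟩ : Wr C) (Fin.last r).castSucc) m η k z).2
    fun t => ?_
  have e1 := h1' t
  have e2 := h2' t
  change 0 ≤ _ ∧ _ ≤ 0 + r at e1
  change r ≤ _ ∧ _ ≤ r + 1 at e2
  change r ≤ _ ∧ _ ≤ r + 0
  omega

theorem disj_VFr (c : C) (m : SimplexCategory) :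
    Sb.range (((VFr T).map (vtx (seg c) 0)).app m) ⊓
      Sb.range (((VFr T).map (vtx (seg c) 1)).app m) = ⊥ := by
  refine le_antisymm ?_ bot_le
  rintro η k (z : VS (fun i : Fin 1 => (T.obj c).obj m) η.unop k) ⟨h1, h2⟩
  have h1' := (mem_range_inertV T (inert_vtx (seg c) 0) m η k z).1 h1 0
  have h2' := (mem_range_inertV T (inert_vtx (seg c) 1) m η k z).1 h2 0
  change 0 ≤ _ ∧ _ ≤ 0 + 0 at h1'
  change 1 ≤ _ ∧ _ ≤ 1 + 0 at h2'
  omega

theorem binT_VFr {r : ℕ} (c : Fin (r + 1) → C) (m : SimplexCategory) :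
    binT (VFr T) c m =
      vface (fun i : Fin (r + 1) => (T.obj (c i)).obj m)
          (Finset.univ.filter (· ≤ (Fin.last r).castSucc)) ⊔
        vface (fun i : Fin (r + 1) => (T.obj (c i)).obj m)
          (Finset.univ.filter ((Fin.last r).castSucc ≤ ·)) := by
  refine Sb.ext (funext fun η => funext fun k => Set.ext
    fun (z : VS (fun i : Fin (r + 1) => (T.obj (c i)).obj m) η.unop k) => ?_)
  refine (or_congr (mem_range_inertV T (inert_init c) m η k z)
    (mem_range_inertV T (inert_last c) m η k z)).trans ?_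
  refine or_congr (forall_congr' fun t => ?_) (forall_congr' fun t => ?_)
  · rw [Finset.mem_filter]
    change 0 ≤ _ ∧ _ ≤ 0 + r ↔ _
    rw [Fin.le_def, Fin.val_castSucc, Fin.val_last]
    simp
  · have := (z.f t).isLt
    rw [Finset.mem_filter]
    change r ≤ _ ∧ _ ≤ r + 1 ↔ _
    rw [Fin.le_def, Fin.val_castSucc, Fin.val_last]
    simp
    omega

end

end Pool.Agent.Helper37.FL2
end

/- Helper43.FL2.Tube -/
section
/-!
# Tools for edge lifting: gluing, projections from `P ⊗ Δ[1]`, lifting against `Λ[1, i]`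
-/

open CategoryTheory MonoidalCategory Opposite Simplicial

set_option autoImplicit false

namespace Pool.Agent.Helper43.FL2

open FL

noncomputable section

section Glue

variable {A : Type} [SmallCategory A] {P X : SP A}

open Classical in
/-- Gluing maps defined on two sub-presheaves. -/
theorem glue (S T : Sb P) (f : S.toSP ⟶ X) (g : T.toSP ⟶ X)
    (h : ∀ (a : Aᵒᵖ) (k : SimplexCategoryᵒᵖ) (x : (P.obj a).obj k) (hx : x ∈ S.mem a k)
      (hx' : x ∈ T.mem a k), (f.app a).app k ⟨x, hx⟩ = (g.app a).app k ⟨x, hx'⟩) :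
    ∃ F : (S ⊔ T).toSP ⟶ X,
      (∀ (a : Aᵒᵖ) (k : SimplexCategoryᵒᵖ) (x : (P.obj a).obj k) (hx : x ∈ S.mem a k),
        (F.app a).app k ⟨x, Or.inl hx⟩ = (f.app a).app k ⟨x, hx⟩) ∧
      ∀ (a : Aᵒᵖ) (k : SimplexCategoryᵒᵖ) (x : (P.obj a).obj k) (hx : x ∈ T.mem a k),
        (F.app a).app k ⟨x, Or.inr hx⟩ = (g.app a).app k ⟨x, hx⟩ := by
  let val : ∀ (a : Aᵒᵖ) (k : SimplexCategoryᵒᵖ),
      { x : (P.obj a).obj k // x ∈ (S ⊔ T).mem a k } → (X.obj a).obj k := fun a k z =>
    if hz : z.1 ∈ S.mem a k then (f.app a).app k ⟨z.1, hz⟩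
    else (g.app a).app k ⟨z.1, z.2.resolve_left hz⟩
  have v1 : ∀ a k z (hz : z.1 ∈ S.mem a k), val a k z = (f.app a).app k ⟨z.1, hz⟩ :=
    fun a k z hz => dif_pos hz
  have v2 : ∀ a k z (hz : z.1 ∈ T.mem a k), val a k z = (g.app a).app k ⟨z.1, hz⟩ := by
    intro a k z hz
    by_cases hz' : z.1 ∈ S.mem a k
    · rw [v1 a k z hz', h a k z.1 hz' hz]
    · exact dif_neg hz'
  let F : (S ⊔ T).toSP ⟶ X :=
    { app := fun a =>
        { app := fun k => ↾ fun z => val a k z
          naturality := fun k l α => by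
            refine ConcreteCategory.hom_ext _ _ fun z => ?_
            obtain ⟨x, hx | hx⟩ := z
            · refine (v1 a l ⟨(P.obj a).map α x, _⟩ (S.mapk a α x hx)).trans ?_
              refine Eq.trans ?_ (congrArg ((X.obj a).map α) (v1 a k ⟨x, Or.inl hx⟩ hx)).symm
              exact hom_natk f α (⟨x, hx⟩ : { x // x ∈ S.mem a k })
            · refine (v2 a l ⟨(P.obj a).map α x, _⟩ (T.mapk a α x hx)).trans ?_
              refine Eq.trans ?_ (congrArg ((X.obj a).map α) (v2 a k ⟨x, Or.inr hx⟩ hx)).symm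
              exact hom_natk g α (⟨x, hx⟩ : { x // x ∈ T.mem a k }) }
      naturality := fun a b u => by
        refine NatTrans.ext (funext fun k => ?_)
        refine ConcreteCategory.hom_ext _ _ fun z => ?_
        obtain ⟨x, hx | hx⟩ := z
        · refine (v1 b k ⟨(P.map u).app k x, _⟩ (S.mapA u k x hx)).trans ?_
          refine Eq.trans ?_ (congrArg ((X.map u).app k) (v1 a k ⟨x, Or.inl hx⟩ hx)).symm
          exact hom_nat f u (⟨x, hx⟩ : { x // x ∈ S.mem a k })
        · refine (v2 b k ⟨(P.map u).app k x, _⟩ (T.mapA u k x hx)).trans ?_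
          refine Eq.trans ?_ (congrArg ((X.map u).app k) (v2 a k ⟨x, Or.inr hx⟩ hx)).symm
          exact hom_nat g u (⟨x, hx⟩ : { x // x ∈ T.mem a k }) }
  exact ⟨F, fun a k x hx => v1 a k ⟨x, _⟩ hx, fun a k x hx => v2 a k ⟨x, _⟩ hx⟩

end Glue

section Proj

variable {A : Type} [SmallCategory A] {P X : SP A}

/-- The projection `P ⊗ K ⟶ P`. -/
def prj (P : SP A) (K : SSet.{0}) : tn P K ⟶ P where
  app _ := { app := fun _ => ↾ fun z => z.1, naturality := fun _ _ _ => rfl }
  naturality _ _ _ := rfl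

/-- The minimum of two simplices of `Δ[1]`. -/
def mn {k : SimplexCategoryᵒᵖ} (t : (Δ[1] : SSet.{0}).obj k) (τ : k.unop ⟶ ⦋1⦌) :
    (Δ[1] : SSet.{0}).obj k :=
  SSet.stdSimplex.objEquiv.symm (SimplexCategory.Hom.mk
    ((SSet.stdSimplex.objEquiv t).toOrderHom ⊓ τ.toOrderHom))

/-- The constant simplex. -/
def cv (v : Fin 2) (k : SimplexCategoryᵒᵖ) : (Δ[1] : SSet.{0}).obj k :=
  SSet.stdSimplex.objEquiv.symm (SimplexCategory.const k.unop ⦋1⦌ v)

theorem prj_sdr (T : Sb (tn P Δ[1])) (S : Sb P)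
    (h : ∀ (a : Aᵒᵖ) (k : SimplexCategoryᵒᵖ) (x : (P.obj a).obj k) (t : (Δ[1] : SSet.{0}).obj k),
      (x, t) ∈ T.mem a k ↔ x ∈ S.mem a k)
    (hr : ∀ (a : Aᵒᵖ) (k : SimplexCategoryᵒᵖ) (z : ((tn P Δ[1]).obj a).obj k),
      z ∈ T.mem a k → ((prj P Δ[1]).app a).app k z ∈ S.mem a k) :
    SDR (Sb.restr (prj P Δ[1]) T S hr) := by
  refine ⟨{ app := fun a =>
              { app := fun k => ↾ fun x => ⟨(x.1, cv 0 k), (h a k x.1 _).2 x.2⟩
                naturality := fun _ _ _ => rfl }
            naturality := fun _ _ _ => rfl }, rfl,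
    { app := fun a k τ z => ⟨(z.1.1, mn z.1.2 τ), (h a k z.1.1 _).2 ((h a k z.1.1 z.1.2).1 z.2)⟩
      nat_left := fun _ _ _ _ => rfl
      nat_right := fun _ _ _ _ _ _ => rfl }, ?_, ?_⟩
  · refine MpS.ext (funext fun a => funext fun k => funext fun τ => funext fun z => ?_)
    refine Subtype.ext (Prod.ext rfl ?_)
    refine SSet.stdSimplex.objEquiv.injective ?_
    ext i : 3
    change (SSet.stdSimplex.objEquiv z.1.2).toOrderHom i ⊓
      (τ ≫ SimplexCategory.δ 1).toOrderHom i = 0
    have : (τ ≫ SimplexCategory.δ (1 : Fin 2)).toOrderHom i = 0 := by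
      change (SimplexCategory.δ (1 : Fin 2)).toOrderHom (τ.toOrderHom i) = 0
      have h0 : τ.toOrderHom i = 0 := Subsingleton.elim (α := Fin 1) _ _
      rw [h0]
      rfl
    rw [this]
    exact inf_bot_eq _
  · refine MpS.ext (funext fun a => funext fun k => funext fun τ => funext fun z => ?_)
    refine Subtype.ext (Prod.ext rfl ?_)
    refine SSet.stdSimplex.objEquiv.injective ?_
    ext i : 3
    change (SSet.stdSimplex.objEquiv z.1.2).toOrderHom i ⊓
      (τ ≫ SimplexCategory.δ 0).toOrderHom i = (SSet.stdSimplex.objEquiv z.1.2).toOrderHom i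
    have : (τ ≫ SimplexCategory.δ (0 : Fin 2)).toOrderHom i = 1 := by
      change (SimplexCategory.δ (0 : Fin 2)).toOrderHom (τ.toOrderHom i) = 1
      have h0 : τ.toOrderHom i = 0 := Subsingleton.elim (α := Fin 1) _ _
      rw [h0]
      rfl
    rw [this]
    exact inf_top_eq _

theorem prj_iso (T : Sb (tn P Δ[1])) (S : Sb P) (v : Fin 2)
    (h : ∀ (a : Aᵒᵖ) (k : SimplexCategoryᵒᵖ) (x : (P.obj a).obj k), x ∈ S.mem a k →
      (x, cv v k) ∈ T.mem a k)
    (hc : ∀ (a : Aᵒᵖ) (k : SimplexCategoryᵒᵖ) (z : ((tn P Δ[1]).obj a).obj k),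
      z ∈ T.mem a k → z.2 = cv v k)
    (hr : ∀ (a : Aᵒᵖ) (k : SimplexCategoryᵒᵖ) (z : ((tn P Δ[1]).obj a).obj k),
      z ∈ T.mem a k → ((prj P Δ[1]).app a).app k z ∈ S.mem a k) :
    IsIso (Sb.restr (prj P Δ[1]) T S hr) := by
  refine ⟨{ app := fun a =>
              { app := fun k => ↾ fun x => ⟨(x.1, cv v k), h a k x.1 x.2⟩
                naturality := fun _ _ _ => rfl }
            naturality := fun _ _ _ => rfl }, ?_, rfl⟩
  refine NatTrans.ext (funext fun a => NatTrans.ext (funext fun k => ?_))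
  refine ConcreteCategory.hom_ext _ _ fun z => ?_
  exact Subtype.ext (Prod.ext rfl (hc a k z.1 z.2).symm)

end Proj

section LiftOne

/-- The vertex of the horn `Λ[1, i]`. -/
def hv (i : Fin 2) : (Λ[1, i] : SSet.{0}).obj (op ⦋0⦌) :=
  ⟨cv i (op ⦋0⦌), by
    rw [SSet.mem_horn_iff_notMem_range]
    refine ⟨1 - i, ?_, ?_⟩
    · fin_cases i <;> simp
    · rintro ⟨t, ht⟩
      have : i = 1 - i := ht
      revert this
      fin_cases i <;> simp⟩

theorem horn_cv {i : Fin 2} {k : SimplexCategoryᵒᵖ} (x : (Λ[1, i] : SSet.{0}).obj k) :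
    x.1 = cv i k := by
  have hx : x.1 ∈ (Λ[1, i] : (Δ[1] : SSet.{0}).Subcomplex).obj (op ⦋k.unop.len⦌) := x.2
  rw [SSet.mem_horn_iff_notMem_range] at hx
  obtain ⟨j, hj, hj'⟩ := hx
  refine SSet.stdSimplex.objEquiv.injective ?_
  ext t : 3
  by_contra hne
  have h1 : (SSet.stdSimplex.objEquiv x.1).toOrderHom t ≠ j := fun h => hj' ⟨t, h⟩
  have h2 : (SSet.stdSimplex.objEquiv x.1).toOrderHom t ≠ i := hne
  have h3 : ∀ a b c : Fin 2, a ≠ b → c ≠ a → c ≠ b → False := by decide
  exact h3 j i _ hj h1 h2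

theorem hlp_one {E D : SSet.{0}} (p : E ⟶ D) (i : Fin 2)
    (h : ∀ (g : E.obj (op ⦋0⦌)) (e : D.obj (op ⦋1⦌)),
      p.app _ g = D.map (SimplexCategory.const ⦋0⦌ ⦋1⦌ i).op e →
      ∃ e' : E.obj (op ⦋1⦌), p.app _ e' = e ∧
        E.map (SimplexCategory.const ⦋0⦌ ⦋1⦌ i).op e' = g) :
    HasLiftingProperty (SSet.horn.{0} 1 i).ι p := by
  refine ⟨fun {f b} sq => ?_⟩
  have hb : ∀ {k : SimplexCategoryᵒᵖ} (x : (Δ[1] : SSet.{0}).obj k),
      b.app k x = D.map (SSet.stdSimplex.objEquiv x).op (SSet.yonedaEquiv b) := by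
    intro k x
    have := sset_nat b (SSet.stdSimplex.objEquiv x).op
      (SSet.stdSimplex.objEquiv.symm (𝟙 ⦋1⦌) : (Δ[1] : SSet.{0}).obj (op ⦋1⦌))
    refine Eq.trans ?_ this
    refine congrArg (b.app k) ?_
    refine SSet.stdSimplex.objEquiv.injective ?_
    change _ = (SSet.stdSimplex.objEquiv x) ≫ 𝟙 ⦋1⦌
    rw [Category.comp_id]
  obtain ⟨e', h1, h2⟩ := h (f.app _ (hv i)) (SSet.yonedaEquiv b) (by
    have := ConcreteCategory.congr_hom (NatTrans.congr_app sq.w (op ⦋0⦌)) (hv i)
    refine this.trans (hb _))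
  refine ⟨⟨{ l := SSet.yonedaEquiv.symm e', fac_left := ?_, fac_right := ?_ }⟩⟩
  · refine NatTrans.ext (funext fun k => ?_)
    refine ConcreteCategory.hom_ext _ _ fun x => ?_
    change E.map (SSet.stdSimplex.objEquiv x.1).op e' = f.app k x
    have e1 : x = (Λ[1, i] : SSet.{0}).map (SimplexCategory.const k.unop ⦋0⦌ 0).op (hv i) :=
      Subtype.ext (horn_cv x)
    have e2 : f.app k x = E.map (SimplexCategory.const k.unop ⦋0⦌ 0).op (f.app _ (hv i)) := by
      rw [← sset_nat f, ← e1]
    rw [e2, ← h2, ← sset_comp, horn_cv x]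
    rfl
  · refine SSet.yonedaEquiv.injective ?_
    refine Eq.trans ?_ h1
    change p.app _ (E.map (𝟙 ⦋1⦌).op e') = _
    rw [op_id, sset_id]

end LiftOne

end

end Pool.Agent.Helper43.FL2
end

/- Helper64.FL2.Words -/
section
/-!
# Words: simplices of the nerve of a chaotic category
-/

open CategoryTheory Opposite FL

set_option autoImplicit false

namespace Pool.Agent.Helper64.FL2

variable {S : Type}

lemma en_δ {n : ℕ} (i : Fin (n + 2)) (w : Fin (n + 2) → S) (k : Fin (n + 1)) :
    (show Fin (n + 1) → S from (EN S).δ i w) k = w (i.succAbove k) := rfl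

lemma en_σ {n : ℕ} (i : Fin (n + 1)) (w : Fin (n + 1) → S) (k : Fin (n + 2)) :
    (show Fin (n + 2) → S from (EN S).σ i w) k = w (i.predAbove k) := rfl

lemma en_nondeg {n : ℕ} (w : Fin (n + 1) → S) :
    (show (EN S).obj (op (SimplexCategory.mk n)) from w) ∈ (EN S).nonDegenerate n ↔
      ∀ i : Fin n, w i.castSucc ≠ w i.succ := by
  rcases n with _ | n
  · exact ⟨fun _ i => i.elim0, fun _ => by rw [SSet.nondegenerate_zero]; trivial⟩
  rw [SSet.mem_nonDegenerate_iff_notMem_degenerate, SSet.degenerate_eq_iUnion_range_σ]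
  constructor
  · intro h i hi
    refine h (Set.mem_iUnion.2 ⟨i, ⟨fun k => w (i.castSucc.succAbove k), ?_⟩⟩)
    funext k
    change w (i.castSucc.succAbove (i.predAbove k)) = w k
    by_cases hk : k = i.castSucc
    · subst hk
      simp [hi]
    · rw [Fin.succAbove_predAbove hk]
  · intro h h'
    obtain ⟨i, y, hy⟩ := Set.mem_iUnion.1 h'
    apply h i
    have h1 := congrFun hy i.castSucc
    have h2 := congrFun hy i.succ
    change y (i.predAbove i.castSucc) = w i.castSucc at h1
    change y (i.predAbove i.succ) = w i.succ at h2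
    rw [← h1, ← h2]
    simp

/-- Two faces of a word with different adjacent letters are different. -/
lemma face_inj {n : ℕ} {w : Fin (n + 2) → S} (hw : ∀ i : Fin (n + 1), w i.castSucc ≠ w i.succ)
    {i j : Fin (n + 2)} (h : ∀ k, w (i.succAbove k) = w (j.succAbove k)) : i = j := by
  by_contra hij
  wlog hlt : i < j generalizing i j
  · exact this (fun k => (h k).symm) (Ne.symm hij) (lt_of_le_of_ne (not_lt.1 hlt) (Ne.symm hij))
  obtain ⟨k, rfl⟩ : ∃ k : Fin (n + 1), i = k.castSucc :=
    ⟨i.castLT (by have := j.2; have : i.val < j.val := hlt; omega), rfl⟩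
  have h1 := h k
  rw [Fin.succAbove_castSucc_self, Fin.succAbove_of_castSucc_lt _ _ hlt] at h1
  exact hw k h1.symm

end Pool.Agent.Helper64.FL2
end
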