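import Pool.Agent.Helper16.FDG.G01
import Pool.Agent.Helper16.FDG.G02
import Pool.Agent.Helper16.FDG.G03
import Pool.Agent.Helper16.FDG.G05

/- Helper58.FLP.B1 -/
section
/-!
# Bridge, part 1: the two forms of mapping spaces
-/

open CategoryTheory MonoidalCategory CartesianMonoidalCategory Opposite

set_option autoImplicit false

namespace FLP

open FL (SP MpS HoEq)

noncomputable section

variable {A B : Type} [SmallCategory A] [SmallCategory B]

/-- From families of functions to maps `X × Δ[m] ⟶ Y`. -/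
def toMx {X Y : SP A} {m : SimplexCategory} (φ : MpS X Y m) : Mx X Y m where
  app a :=
    { app := fun k => ↾ fun (z : (X.obj a).obj k × (SSet.stdSimplex.obj m : SSet.{0}).obj k) =>
        φ.app a k (SSet.stdSimplex.objEquiv z.2) z.1
      naturality := fun k l α => by
        refine ConcreteCategory.hom_ext _ _ fun z => ?_
        exact φ.nat_right a α (SSet.stdSimplex.objEquiv z.2) z.1 }
  naturality a b f := by
    refine NatTrans.ext (funext fun k => ConcreteCategory.hom_ext _ _ fun z => ?_)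
    exact φ.nat_left f k (SSet.stdSimplex.objEquiv z.2) z.1

/-- From maps `X × Δ[m] ⟶ Y` to families of functions. -/
def ofMx {X Y : SP A} {m : SimplexCategory} (φ : Mx X Y m) : MpS X Y m where
  app a k s x := (φ.app a).app k (x, SSet.stdSimplex.objEquiv.symm s)
  nat_left {a b} f k s x := by
    exact FL.hom_nat φ f (k := k) (x, SSet.stdSimplex.objEquiv.symm s)
  nat_right a k l g s x := by
    refine Eq.trans ?_ (FL.hom_natk φ g (a := a) (x, SSet.stdSimplex.objEquiv.symm s))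
    rfl

lemma toMx_ofMx {X Y : SP A} {m : SimplexCategory} (φ : Mx X Y m) : toMx (ofMx φ) = φ := by
  refine NatTrans.ext (funext fun a => NatTrans.ext (funext fun k =>
    ConcreteCategory.hom_ext _ _ fun z => ?_))
  show (φ.app a).app k (z.1, SSet.stdSimplex.objEquiv.symm (SSet.stdSimplex.objEquiv z.2)) = _
  rw [Equiv.symm_apply_apply]
  rfl

lemma ofMx_toMx {X Y : SP A} {m : SimplexCategory} (φ : MpS X Y m) : ofMx (toMx φ) = φ := by
  refine MpS.ext ?_
  funext a k s x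
  show φ.app a k (SSet.stdSimplex.objEquiv.{0} (SSet.stdSimplex.objEquiv.{0}.symm s)) x = _
  rw [Equiv.apply_symm_apply]

/-- The equivalence between the two forms of simplices of mapping spaces. -/
def mxEquiv (X Y : SP A) (m : SimplexCategory) : MpS X Y m ≃ Mx X Y m :=
  ⟨toMx, ofMx, ofMx_toMx, toMx_ofMx⟩

lemma toMx_res {X Y : SP A} {m l : SimplexCategory} (α : l ⟶ m) (φ : MpS X Y m) :
    toMx (φ.res α) = (toMx φ).res α := rfl

lemma toMx_comp {X Y Z : SP A} {m : SimplexCategory} (φ : MpS X Y m) (ψ : MpS Y Z m) :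
    toMx (φ.comp ψ) = (toMx φ).comp (toMx ψ) := rfl

lemma toMx_of {X Y : SP A} (f : X ⟶ Y) (m : SimplexCategory) :
    toMx (MpS.ofHom m f) = Mx.of f m := rfl

lemma ofMx_res {X Y : SP A} {m l : SimplexCategory} (α : l ⟶ m) (φ : Mx X Y m) :
    ofMx (φ.res α) = (ofMx φ).res α := by
  apply (mxEquiv X Y l).injective
  show toMx (ofMx (φ.res α)) = toMx ((ofMx φ).res α)
  rw [toMx_res, toMx_ofMx, toMx_ofMx]

lemma ofMx_comp {X Y Z : SP A} {m : SimplexCategory} (φ : Mx X Y m) (ψ : Mx Y Z m) :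
    ofMx (φ.comp ψ) = (ofMx φ).comp (ofMx ψ) := by
  apply (mxEquiv X Z m).injective
  show toMx (ofMx (φ.comp ψ)) = toMx ((ofMx φ).comp (ofMx ψ))
  rw [toMx_comp, toMx_ofMx, toMx_ofMx, toMx_ofMx]

lemma ofMx_of {X Y : SP A} (f : X ⟶ Y) (m : SimplexCategory) :
    ofMx (Mx.of f m) = MpS.ofHom m f := rfl

/-- The isomorphism between the two forms of mapping spaces. -/
def mpIso (X Y : SP A) : FL.Mp X Y ≅ Mp X Y where
  hom := { app := fun m => ↾ fun (φ : MpS X Y m.unop) => toMx φ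
           naturality := fun _ _ _ => rfl }
  inv := { app := fun m => ↾ fun (φ : Mx X Y m.unop) => ofMx φ
           naturality := fun m l α => ConcreteCategory.hom_ext _ _ fun (φ : Mx X Y m.unop) =>
             ofMx_res α.unop φ }
  hom_inv_id := NatTrans.ext (funext fun m => ConcreteCategory.hom_ext _ _
    fun (φ : MpS X Y m.unop) => ofMx_toMx φ)
  inv_hom_id := NatTrans.ext (funext fun m => ConcreteCategory.hom_ext _ _
    fun (φ : Mx X Y m.unop) => toMx_ofMx φ)

lemma mpIso_pre {X X' : SP A} (f : X ⟶ X') (Y : SP A) :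
    FL.Mp.pre f Y ≫ (mpIso X Y).hom = (mpIso X' Y).hom ≫ Mp.pre f Y := rfl

lemma hoEq_pre_iff {X X' : SP A} (f : X ⟶ X') (Y : SP A) :
    HoEq (Mp.pre f Y) ↔ HoEq (FL.Mp.pre f Y) := by
  constructor
  · intro h
    refine Pool.Agent.Helper88.FL.hoEq_of_arrow_iso (mpIso X' Y).symm (mpIso X Y).symm ?_ h
    show Mp.pre f Y ≫ (mpIso X Y).inv = (mpIso X' Y).inv ≫ FL.Mp.pre f Y
    rw [Iso.comp_inv_eq, Category.assoc, mpIso_pre, Iso.inv_hom_id_assoc]
  · intro h
    exact Pool.Agent.Helper88.FL.hoEq_of_arrow_iso (mpIso X' Y) (mpIso X Y) (mpIso_pre f Y) h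

end

end FLP
end

/- Helper58.FLP.BDef -/
section
/-!
# Bridge: definitions
-/

open CategoryTheory MonoidalCategory CartesianMonoidalCategory Opposite

set_option autoImplicit false

namespace FLP

open FL (SP MpS HoEq Th Wr)

noncomputable section

variable {n : ℕ}

/-- The hypothesis that the two notions of `(∞,n)`-category agree. -/
abbrev CatIff (n : ℕ) : Prop := ∀ X : SP (Th n), IsCat n X ↔ FL.IsCat n X

/-- From `FL.CatN` to `CatN`. -/
def ofC (H : CatIff n) (C : FL.CatN n) : CatN n := ⟨C.1, (H C.1).2 C.2⟩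

/-- From `CatN` to `FL.CatN`. -/
def toC (H : CatIff n) (C : CatN n) : FL.CatN n := ⟨C.X, (H C.X).1 C.cat⟩

/-- From `PSh` to `FL.PSh`. -/
def toPSh (H : CatIff n) (F : PSh n) : FL.PSh n where
  obj C := F.obj (ofC H C)
  act {C C' k} φ x := F.act (ofC H C) (ofC H C') (m := k.unop) (toMx φ) x
  act_nat {C C' k l} α φ x := F.act_res (ofC H C) (ofC H C') α.unop (toMx φ) x
  act_id {C k} x := F.act_id (ofC H C) (m := k.unop) x
  act_comp {C C' C'' k} φ ψ x := F.act_comp (ofC H C) (ofC H C') (ofC H C'') (m := k.unop)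
    (toMx φ) (toMx ψ) x

/-- From `FL.PSh` to `PSh`. -/
def ofPSh (H : CatIff n) (G : FL.PSh n) : PSh n where
  obj C := G.obj (toC H C)
  act C C' {m} φ x := G.act (C := toC H C) (C' := toC H C') (k := op m) (ofMx φ) x
  act_res C C' {m l} α φ x := (congrArg (fun t => G.act (C := toC H C) (C' := toC H C')
    (k := op l) t ((G.obj (toC H C')).map α.op x)) (ofMx_res α φ)).trans
      (G.act_nat (C := toC H C) (C' := toC H C') α.op (ofMx φ) x)
  act_id C {m} x := G.act_id (C := toC H C) (k := op m) x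
  act_comp C C' C'' {m} φ ψ x := (congrArg (fun t => G.act (C := toC H C) (C' := toC H C'')
    (k := op m) t x) (ofMx_comp φ ψ)).trans
      (G.act_comp (C := toC H C) (C' := toC H C') (C'' := toC H C'') (k := op m)
        (ofMx φ) (ofMx ψ) x)

variable {J : Type} [SmallCategory J]

/-- The cocones `Λ` (in the sense of `PSh.Cocone`) and `Λ'` (a map `hocolim p ⟶ C`)
correspond. -/
def Corr (e : PSh.Wt J ≅ FL.W J) {p : PSh.Diag n J} {C : CatN n} (Λ : PSh.Cocone p C)
    (Λ' : FL.Hoco p.p ⟶ C.X) : Prop :=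
  ∀ (j : J) (k : SimplexCategory) (w : FL.WS j k),
    FL.coneS Λ' w = ofMx (X := p.p.obj j) (Y := C.X)
      ((Λ.app (op j)).app (op k) ((e.inv.app (op j)).app (op k) w))

end

end FLP
end

/- Helper64.FL.Nerve -/
section
/-!
# FL-9, part 1: nerves of categories and homotopies

An elementwise construction of simplicial homotopies, and the homotopy of nerves attached to a
natural transformation.
-/

open CategoryTheory MonoidalCategory Opposite

set_option autoImplicit false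

namespace Pool.Agent.Helper64.FLCan

open FL

/-- The constant map `[k] ⟶ [1]`. -/
def cst (k : SimplexCategory) (e : Fin 2) : k ⟶ SimplexCategory.mk 1 :=
  SimplexCategory.Hom.mk ⟨fun _ => e, fun _ _ _ => le_refl _⟩

/-- Elementwise construction of homotopies. -/
theorem htpy_of_elem {X Y : SSet.{0}} (f g : X ⟶ Y)
    (H : ∀ (k : SimplexCategoryᵒᵖ) (_ : k.unop ⟶ SimplexCategory.mk 1) (_ : X.obj k), Y.obj k)
    (nat : ∀ {k l : SimplexCategoryᵒᵖ} (α : k ⟶ l) (t : k.unop ⟶ SimplexCategory.mk 1) (x : X.obj k),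
      H l (α.unop ≫ t) (X.map α x) = Y.map α (H k t x))
    (h0 : ∀ (k : SimplexCategoryᵒᵖ) (x : X.obj k), H k (cst _ 0) x = f.app k x)
    (h1 : ∀ (k : SimplexCategoryᵒᵖ) (x : X.obj k), H k (cst _ 1) x = g.app k x) :
    Htpy f g := by
  let h : X ⊗ SSet.stdSimplex.obj (SimplexCategory.mk 1) ⟶ Y :=
    { app := fun k => ↾ fun (z : X.obj k × (SSet.stdSimplex.obj (SimplexCategory.mk 1) : SSet.{0}).obj k) =>
        H k (SSet.stdSimplex.objEquiv z.2) z.1
      naturality := fun k l α => by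
        ext ⟨x, y⟩
        exact nat α _ x }
  refine ⟨SSet.RelativeMorphism.Homotopy.mk h ?_ ?_ ?_⟩
  · ext k x
    refine Eq.trans ?_ (h0 k x)
    show H k _ x = _
    congr 1
  · ext k x
    refine Eq.trans ?_ (h1 k x)
    show H k _ x = _
    congr 1
  · ext k ⟨⟨x, hx⟩, y⟩
    exact hx.elim

section Nerve

variable {I J : Type} [SmallCategory I] [SmallCategory J]

/-- The map of nerves induced by a functor. -/
def nvMap (F : I ⥤ J) : Nv I ⟶ Nv J where
  app k := ↾ fun (σ : Chain I k.unop) => (σ.push F : Chain J k.unop)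
  naturality _ _ _ := rfl

/-- `F₀` on `0`, `F₁` on `1`. -/
def pick (F₀ F₁ : I ⥤ J) : Fin 2 → I → J
  | 0, x => F₀.obj x
  | 1, x => F₁.obj x

/-- Morphisms between the values of `pick`. -/
def pickMap {F₀ F₁ : I ⥤ J} (η : F₀ ⟶ F₁) :
    (a b : Fin 2) → a ≤ b → {x y : I} → (x ⟶ y) → (pick F₀ F₁ a x ⟶ pick F₀ F₁ b y)
  | 0, 0, _, _, _, f => F₀.map f
  | 0, 1, _, _, y, f => F₀.map f ≫ η.app y
  | 1, 1, _, _, _, f => F₁.map f
  | 1, 0, h, _, _, _ => absurd h (by decide)

lemma pickMap_id {F₀ F₁ : I ⥤ J} (η : F₀ ⟶ F₁) : (a : Fin 2) → (h : a ≤ a) → (x : I) →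
    pickMap η a a h (𝟙 x) = 𝟙 _
  | 0, _, x => F₀.map_id x
  | 1, _, x => F₁.map_id x

lemma pickMap_comp {F₀ F₁ : I ⥤ J} (η : F₀ ⟶ F₁) :
    (a b c : Fin 2) → (h : a ≤ b) → (h' : b ≤ c) → {x y z : I} → (f : x ⟶ y) → (g : y ⟶ z) →
    pickMap η a b h f ≫ pickMap η b c h' g = pickMap η a c (h.trans h') (f ≫ g)
  | 0, 0, 0, _, _, _, _, _, f, g => (F₀.map_comp f g).symm
  | 0, 0, 1, _, _, _, _, _, f, g => by
      show F₀.map f ≫ F₀.map g ≫ η.app _ = F₀.map (f ≫ g) ≫ η.app _
      rw [F₀.map_comp, Category.assoc]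
  | 0, 1, 1, _, _, _, _, _, f, g => by
      show (F₀.map f ≫ η.app _) ≫ F₁.map g = F₀.map (f ≫ g) ≫ η.app _
      rw [F₀.map_comp, Category.assoc, Category.assoc, η.naturality]
  | 1, 1, 1, _, _, _, _, _, f, g => (F₁.map_comp f g).symm
  | 1, 0, 0, h, _, _, _, _, _, _ => absurd h (by decide)
  | 1, 0, 1, h, _, _, _, _, _, _ => absurd h (by decide)
  | 0, 1, 0, _, h, _, _, _, _, _ => absurd h (by decide)
  | 1, 1, 0, _, h, _, _, _, _, _ => absurd h (by decide)

/-- The chain `F₀ x_0 ⟶ … ⟶ F₀ x_r ⟶ F₁ x_{r+1} ⟶ … ⟶ F₁ x_k`. -/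
def mixChain {F₀ F₁ : I ⥤ J} (η : F₀ ⟶ F₁) {k : SimplexCategory} (t : k ⟶ SimplexCategory.mk 1)
    (σ : Chain I k) : Chain J k where
  obj i := pick F₀ F₁ (t.toOrderHom i) (σ.obj i)
  map i j h := pickMap η _ _ (t.toOrderHom.monotone h) (σ.map i j h)
  map_id i := by
    rw [σ.map_id]
    exact pickMap_id η _ _ _
  map_comp i j l h h' := by
    refine (pickMap_comp η _ _ _ _ _ _ _).trans ?_
    rw [σ.map_comp]

theorem htpy_nv {F₀ F₁ : I ⥤ J} (η : F₀ ⟶ F₁) : Htpy (nvMap F₀) (nvMap F₁) :=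
  htpy_of_elem _ _ (fun _ t (σ : Chain I _) => mixChain η t σ) (fun _ _ _ => rfl)
    (fun _ _ => rfl) (fun _ _ => rfl)

theorem nv_hoEq {F : I ⥤ J} {G : J ⥤ I} (η : F ⋙ G ⟶ 𝟭 I) (ε : G ⋙ F ⟶ 𝟭 J) :
    HoEq (nvMap F) :=
  ⟨nvMap G, htpy_nv η, htpy_nv ε⟩

/-- Chains in a thin category are determined by their objects. -/
lemma chain_ext_thin [Quiver.IsThin J] {k : SimplexCategory} {σ τ : Chain J k}
    (h : ∀ i, σ.obj i = τ.obj i) : σ = τ := by
  obtain ⟨o, m, h1, h2⟩ := σ
  obtain ⟨o', m', h1', h2'⟩ := τ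
  obtain rfl : o = o' := funext h
  have : m = m' := by
    funext i j hij
    exact Subsingleton.elim _ _
  subst this
  rfl

end Nerve

section Under

variable {A E : Type} [SmallCategory A] [SmallCategory E]

/-- The comma category of pairs `(e, u : b ⟶ P e)`. -/
structure Un (P : E ⥤ A) (b : A) : Type where
  e : E
  u : b ⟶ P.obj e

instance (P : E ⥤ A) (b : A) : SmallCategory (Un P b) where
  Hom x y := { g : x.e ⟶ y.e // x.u ≫ P.map g = y.u }
  id x := ⟨𝟙 _, by rw [P.map_id, Category.comp_id]⟩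
  comp {x y z} g h := ⟨g.1 ≫ h.1, by rw [P.map_comp, ← Category.assoc, g.2, h.2]⟩
  id_comp g := Subtype.ext (Category.id_comp _)
  comp_id g := Subtype.ext (Category.comp_id _)
  assoc g h k := Subtype.ext (Category.assoc _ _ _)

/-- The projection to `E`. -/
@[simps]
def Un.toE (P : E ⥤ A) (b : A) : Un P b ⥤ E where
  obj x := x.e
  map g := g.1

/-- The chain in `Un P b` given by a chain in `E` and a compatible family of maps. -/
def unChain {P : E ⥤ A} {b : A} {k : SimplexCategory} (σ : Chain E k)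
    (u : ∀ i, b ⟶ P.obj (σ.obj i)) (hu : ∀ i j h, u i ≫ P.map (σ.map i j h) = u j) :
    Chain (Un P b) k where
  obj i := ⟨σ.obj i, u i⟩
  map i j h := ⟨σ.map i j h, hu i j h⟩
  map_id i := Subtype.ext (σ.map_id i)
  map_comp i j l h h' := Subtype.ext (σ.map_comp i j l h h')

lemma unChain_congr {P : E ⥤ A} {b : A} {k : SimplexCategory} (σ : Chain E k)
    (u u' : ∀ i, b ⟶ P.obj (σ.obj i)) (hu : ∀ i j h, u i ≫ P.map (σ.map i j h) = u j)
    (hu' : ∀ i j h, u' i ≫ P.map (σ.map i j h) = u' j) (h : ∀ i, u i = u' i) :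
    unChain σ u hu = unChain σ u' hu' := by
  obtain rfl : u = u' := funext h
  rfl

lemma comp_map_zero {P : E ⥤ A} {b : A} {k : SimplexCategory} (σ : Chain E k)
    (u : b ⟶ P.obj (σ.obj 0)) (i j : Fin (k.len + 1)) (h : i ≤ j) :
    (u ≫ P.map (σ.map 0 i (Fin.zero_le _))) ≫ P.map (σ.map i j h) =
      u ≫ P.map (σ.map 0 j (Fin.zero_le _)) := by
  rw [Category.assoc, ← P.map_comp, σ.map_comp]

/-- The homotopy colimit of representables at `b` is the nerve of the comma category. -/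
def toUn (P : E ⥤ A) (b : A) : (Hoco (P ⋙ yo A)).obj (op b) ≅ Nv (Un P b) where
  hom :=
    { app := fun k => ↾ fun (w : HS (P ⋙ yo A) (op b) k) =>
        unChain w.σ (fun i => (w.x : b ⟶ P.obj (w.σ.obj 0)) ≫ P.map (w.σ.map 0 i (Fin.zero_le _)))
          (fun i j h => comp_map_zero w.σ _ i j h)
      naturality := fun k l α => by
        ext (w : HS (P ⋙ yo A) (op b) k)
        refine unChain_congr _ _ _ _ _ fun i => ?_
        exact comp_map_zero (P := P) w.σ (w.x : b ⟶ P.obj (w.σ.obj 0)) _ _ _ }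
  inv :=
    { app := fun k => ↾ fun (τ : Chain (Un P b) k.unop) =>
        (⟨τ.push (Un.toE P b), (τ.obj 0).u⟩ : HS (P ⋙ yo A) (op b) k)
      naturality := fun k l α => by
        ext (τ : Chain (Un P b) k.unop)
        refine congrArg (HS.mk _) ?_
        exact ((τ.map 0 _ (Fin.zero_le _)).2).symm }
  hom_inv_id := by
    ext k (w : HS (P ⋙ yo A) (op b) k)
    refine congrArg (HS.mk w.σ) ?_
    show (w.x : b ⟶ P.obj (w.σ.obj 0)) ≫ P.map (w.σ.map 0 0 _) = w.x
    rw [w.σ.map_id, P.map_id]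
    exact Category.comp_id (obj := A) _
  inv_hom_id := by
    ext k (τ : Chain (Un P b) k.unop)
    refine (unChain_congr (τ.push (Un.toE P b)) _ (fun i => (τ.obj i).u) _
      (fun i j h => (τ.map i j h).2) fun i => ?_).trans ?_
    · exact (τ.map 0 i (Fin.zero_le _)).2
    · rfl

end Under

end Pool.Agent.Helper64.FLCan
end

/- Helper64.FL.Can -/
section
/-!
# FL-9, part 2: the canonical cocone of a simplicial presheaf
-/

open CategoryTheory MonoidalCategory Opposite

set_option autoImplicit false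

namespace Pool.Agent.Helper64.FLCan

open FL

section

variable {A : Type} [SmallCategory A]

lemma can_aux' (C : SP A) {a a' b : A} {m m' : SimplexCategory}
    (x : (C.obj (op a)).obj (op m)) (x' : (C.obj (op a')).obj (op m')) (f : a ⟶ a') (g : m ⟶ m')
    (h : (C.map f.op).app _ ((C.obj (op a')).map g.op x') = x) (u : b ⟶ a) (u' : b ⟶ a')
    (hu : u ≫ f = u') :
    (C.obj (op b)).map g.op ((C.map u'.op).app _ x') = (C.map u.op).app _ x := by
  subst h hu
  rw [op_comp, sp_comp, ← sp_nat, ← sp_nat]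

/-- `(e, u) ↦ (m, u^* x)`. -/
def canF (C : SP A) (b : A) : Un (El.toA C) b ⥤ Simp (C.obj (op b)) where
  obj z := ⟨z.e.m, (C.map (Quiver.Hom.op (z.u : b ⟶ z.e.a))).app _ z.e.x⟩
  map g := ⟨g.1.g, can_aux' C _ _ _ _ g.1.h _ _ g.2⟩
  map_id _ := rfl
  map_comp _ _ := rfl

/-- `(m, y) ↦ ((b, m, y), 𝟙)`. -/
def canG (C : SP A) (b : A) : Simp (C.obj (op b)) ⥤ Un (El.toA C) b where
  obj z := ⟨⟨b, z.m, z.x⟩, 𝟙 b⟩
  map g := ⟨⟨𝟙 b, g.1, (sp_id C _).trans g.2⟩, Category.comp_id (𝟙 b)⟩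
  map_id _ := rfl
  map_comp _ _ := Subtype.ext (El.Hom.ext (Category.comp_id (𝟙 b)).symm rfl)

def canη (C : SP A) (b : A) : canF C b ⋙ canG C b ⟶ 𝟭 _ where
  app z := ⟨⟨z.u, 𝟙 _, congrArg _ (sset_id _ _)⟩, Category.id_comp (z.u : b ⟶ z.e.a)⟩
  naturality _ z' g := Subtype.ext (El.Hom.ext
    ((Category.id_comp (z'.u : b ⟶ z'.e.a)).trans g.2.symm)
    ((Category.comp_id _).trans (Category.id_comp _).symm))

def canε (C : SP A) (b : A) : canG C b ⋙ canF C b ⟶ 𝟭 _ where
  app _ := ⟨𝟙 _, (sset_id _ _).trans (sp_id C _).symm⟩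
  naturality _ _ _ := Subtype.ext ((Category.comp_id _).trans (Category.id_comp _).symm)

lemma canCone_fac (C : SP A) (b : A) : (canCone C).app (op b) =
    (toUn (El.toA C) b).hom ≫ nvMap (canF C b) ≫ lastMap (C.obj (op b)) := by
  ext k (w : HS (canDiag C) (op b) k)
  exact sp_nat C _ _ _

end

end Pool.Agent.Helper64.FLCan
end

/- Helper64.FL.Sv -/
section
/-!
# FL-9, part 3: the canonical cocone of a sieve
-/

open CategoryTheory MonoidalCategory Opposite

set_option autoImplicit false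

namespace Pool.Agent.Helper64.FLCan

open FL

section

/-- The nerve of a discrete category. -/
def nvDisc (T : Type) : Nv (Discrete T) ≅ (Functor.const SimplexCategoryᵒᵖ).obj T where
  hom :=
    { app := fun k => ↾ fun (τ : Chain (Discrete T) k.unop) => (τ.obj 0).as
      naturality := fun k l α => by
        ext (τ : Chain (Discrete T) k.unop)
        exact (Discrete.eq_of_hom (τ.map 0 (α.unop.toOrderHom 0) (Fin.zero_le _))).symm }
  inv :=
    { app := fun k => ↾ fun (v : T) =>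
        (⟨fun _ => ⟨v⟩, fun _ _ _ => 𝟙 _, fun _ => rfl, fun _ _ _ _ _ => Category.comp_id _⟩ :
          Chain (Discrete T) k.unop)
      naturality := fun _ _ _ => rfl }
  hom_inv_id := by
    ext k (τ : Chain (Discrete T) k.unop)
    refine chain_ext_thin (J := Discrete T) fun i => ?_
    exact Discrete.ext (Discrete.eq_of_hom (τ.map 0 i (Fin.zero_le _)))
  inv_hom_id := rfl

variable {A : Type} [SmallCategory A] {a : A}

lemma sv_aux {b x x' : A} (u : b ⟶ x) (u' : b ⟶ x') (g : x ⟶ x') (f : x ⟶ a) (f' : x' ⟶ a)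
    (h : u ≫ g = u') (h' : g ≫ f' = f) : u ≫ f = u' ≫ f' := by
  rw [← h, ← h', Category.assoc]

/-- `(x, u) ↦ u ≫ x.f`. -/
def svF (S : Sieve a) (b : A) : Un (svProj S) b ⥤ Discrete (S.functor.obj (op b)) where
  obj z := ⟨⟨(z.u : b ⟶ z.e.b) ≫ z.e.f, S.downward_closed z.e.mem z.u⟩⟩
  map g := Discrete.eqToHom (Subtype.ext (sv_aux _ _ _ _ _ g.2 g.1.2))
  map_id _ := Subsingleton.elim _ _
  map_comp _ _ := Subsingleton.elim _ _

/-- `v ↦ ((b, v), 𝟙)`. -/
def svG (S : Sieve a) (b : A) : Discrete (S.functor.obj (op b)) ⥤ Un (svProj S) b where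
  obj v := ⟨⟨b, v.as.1, v.as.2⟩, 𝟙 b⟩
  map g := ⟨⟨𝟙 b, (Category.id_comp _).trans
    (congrArg Subtype.val (Discrete.eq_of_hom g)).symm⟩, Category.comp_id (𝟙 b)⟩
  map_id _ := rfl
  map_comp _ _ := Subtype.ext (Subtype.ext (Category.comp_id (𝟙 b)).symm)

def svη (S : Sieve a) (b : A) : svF S b ⋙ svG S b ⟶ 𝟭 _ where
  app z := ⟨⟨z.u, rfl⟩, Category.id_comp (z.u : b ⟶ z.e.b)⟩
  naturality _ z' g := Subtype.ext (Subtype.ext
    ((Category.id_comp (z'.u : b ⟶ z'.e.b)).trans g.2.symm))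

def svε (S : Sieve a) (b : A) : svG S b ⋙ svF S b ⟶ 𝟭 _ where
  app v := Discrete.eqToHom (Subtype.ext (Category.id_comp v.as.1))
  naturality _ _ _ := Subsingleton.elim _ _

/-- The factorisation of the cocone of a sieve through the sieve. -/
def svPi (S : Sieve a) : Hoco (svDiag S) ⟶ disc S.functor where
  app b :=
    { app := fun k => ↾ fun (w : HS (svDiag S) b k) =>
        (⟨(w.x : b.unop ⟶ (w.σ.obj 0).b) ≫ (w.σ.obj 0).f,
          S.downward_closed (w.σ.obj 0).mem _⟩ : S.functor.obj b)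
      naturality := fun k l α => by
        ext (w : HS (svDiag S) b k)
        refine Subtype.ext ?_
        refine (Category.assoc (obj := A) (HS.x w) ((HS.σ w).zeroTo α.unop).1 _).trans ?_
        exact congrArg (fun t => CategoryStruct.comp (obj := A) (HS.x w) t)
          ((HS.σ w).zeroTo α.unop).2 }
  naturality b b' f := by
    ext k w
    exact Subtype.ext (Category.assoc (obj := A) _ _ _)

lemma svPi_incl (S : Sieve a) : svPi S ≫ sieveIncl S = svCone S := rfl

lemma svPi_fac (S : Sieve a) (b : A) : (svPi S).app (op b) =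
    (toUn (svProj S) b).hom ≫ nvMap (svF S b) ≫ (nvDisc _).hom := by
  ext k (w : HS (svDiag S) (op b) k)
  refine Subtype.ext ?_
  show (w.x : b ⟶ (w.σ.obj 0).b) ≫ (w.σ.obj 0).f =
    ((w.x : b ⟶ (w.σ.obj 0).b) ≫ (w.σ.map 0 0 (Fin.zero_le _)).1) ≫ (w.σ.obj 0).f
  refine (congrArg (· ≫ (w.σ.obj 0).f) (Category.comp_id (w.x : b ⟶ (w.σ.obj 0).b))).symm.trans ?_
  refine congrArg (fun v : (w.σ.obj 0).b ⟶ (w.σ.obj 0).b =>
    ((w.x : b ⟶ (w.σ.obj 0).b) ≫ v) ≫ (w.σ.obj 0).f) ?_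
  exact (congrArg Subtype.val (w.σ.map_id 0)).symm

end

end Pool.Agent.Helper64.FLCan
end

/- Helper83.FL.MpFibFinal -/
section
/-!
# FL-4: the exact statements
-/

open CategoryTheory MonoidalCategory Simplicial Opposite HomotopicalAlgebra

set_option autoImplicit false

namespace Pool.Agent.Helper83.FL4

open FL

theorem deps : Deps where
  comp_right := fun {_ _ _} hX hY hZ {_ _} hg hfg => Pool.Agent.Helper88.FL.hoEq_of_comp_right hX hY hZ hg hfg
  we_iff_lift := fun {_ _} i _ => Helper85FL.we_iff_lift i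
  we_of_lift := fun {_ _} i _ h => Helper85FL.we_of_lift i h

variable {A : Type} [SmallCategory A]

theorem Mp_kan (X : SP A) {Z : SP A} (hZ : InjFib Z) : SSet.KanComplex (Mp X Z) :=
  Mp_kan_of deps X hZ

theorem Mp_pre_kanFib {X Y Z : SP A} (i : X ⟶ Y) (hi : ∀ a, Mono (i.app a)) (hZ : InjFib Z) :
    KanFib (Mp.pre i Z) :=
  Mp_pre_kanFib_of deps i hi hZ

theorem Mp_pre_trivFib {X Y Z : SP A} (i : X ⟶ Y) (hi : TrivCof i) (hZ : InjFib Z) :
    TrivFib (Mp.pre i Z) :=
  Mp_pre_trivFib_of deps i hi hZ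

theorem Mp_post_kanFib (X : SP A) {Z Z' : SP A} (q : Z ⟶ Z') (hq : InjFibration q) :
    KanFib (Mp.post X q) :=
  Mp_post_kanFib_of deps X q hq

/-- The relative lifting property. -/
theorem rel_lift {X Y Z Z' : SP A} (i : X ⟶ Y) (hi : ∀ a, Mono (i.app a)) (q : Z ⟶ Z')
    (hq : InjFibration q) (hZ : InjFib Z) (hZ' : InjFib Z') (h : HoEq (Mp.pre i Z))
    (h' : HoEq (Mp.pre i Z')) {K L : SSet.{0}} (j : K ⟶ L) [Mono j] (u : tn X L ⟶ Z)
    (v : tn Y K ⟶ Z) (w : tn Y L ⟶ Z') (huv : tnMap (𝟙 X) j ≫ u = tnMap i (𝟙 K) ≫ v)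
    (huw : u ≫ q = tnMap i (𝟙 L) ≫ w) (hvw : v ≫ q = tnMap (𝟙 Y) j ≫ w) :
    ∃ l : tn Y L ⟶ Z, tnMap i (𝟙 L) ≫ l = u ∧ tnMap (𝟙 Y) j ≫ l = v ∧ l ≫ q = w :=
  rel_lift_of deps i hi q hq hZ hZ' h h' j u v w huv huw hvw

end Pool.Agent.Helper83.FL4
end

/- Helper91.FL2.WH -/
section
/-!
# FL2, module G6 WH: the Whitehead theorem and path objects for injectively fibrant presheaves
-/

open CategoryTheory MonoidalCategory Simplicial Opposite

set_option autoImplicit false

namespace Pool.Agent.Helper91.FL2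

open _root_.FL

/-! ### Connected vertices -/

section

variable {K L : SSet.{0}}

/-- The map given by a vertex. -/
def pt (K : SSet.{0}) (x : K.obj (op ⦋0⦌)) : Δ[0] ⟶ K := SSet.yonedaEquiv.symm x

theorem pt_app (x : K.obj (op ⦋0⦌)) (y : (Δ[0] : SSet.{0}).obj (op ⦋0⦌)) :
    (pt K x).app (op ⦋0⦌) y = x := by
  have h : y = SSet.stdSimplex.objEquiv.symm (𝟙 _) := by
    apply SSet.stdSimplex.objEquiv.injective
    ext i : 3
    exact Subsingleton.elim (α := Fin 1) _ _
  subst h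
  exact SSet.yonedaEquiv.apply_symm_apply x

theorem pt_comp (f : K ⟶ L) (x : K.obj (op ⦋0⦌)) : pt K x ≫ f = pt L (f.app _ x) := by
  apply SSet.yonedaEquiv.injective
  exact (congrArg (f.app (op ⦋0⦌)) (pt_app x _)).trans (pt_app _ _).symm

theorem cn_of_htpy {F G : K ⟶ L} (h : Htpy F G) (x : K.obj (op ⦋0⦌)) :
    Cn L (F.app _ x) (G.app _ x) := by
  obtain ⟨H, h0, h1⟩ := (Pool.Agent.Helper88.FL.htpy_iff F G).1 h
  refine ⟨H.app (op ⦋1⦌) (FL.cst K x (op ⦋1⦌), SSet.stdSimplex.objEquiv.symm (𝟙 _)), ?_, ?_⟩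
  · refine (sset_nat H _ _).symm.trans ?_
    refine Eq.trans ?_ (ConcreteCategory.congr_hom (NatTrans.congr_app h0 (op ⦋0⦌)) x)
    refine congrArg (H.app (op ⦋0⦌)) (Prod.ext ?_ ?_)
    · exact (cst_map K x _).trans (cst_zero K x)
    · apply SSet.stdSimplex.objEquiv.injective
      ext i : 3
      obtain rfl : i = 0 := Subsingleton.elim (α := Fin 1) _ _
      rfl
  · refine (sset_nat H _ _).symm.trans ?_
    refine Eq.trans ?_ (ConcreteCategory.congr_hom (NatTrans.congr_app h1 (op ⦋0⦌)) x)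
    refine congrArg (H.app (op ⦋0⦌)) (Prod.ext ?_ ?_)
    · exact (cst_map K x _).trans (cst_zero K x)
    · apply SSet.stdSimplex.objEquiv.injective
      ext i : 3
      obtain rfl : i = 0 := Subsingleton.elim (α := Fin 1) _ _
      rfl

theorem htpy_of_cn {x y : K.obj (op ⦋0⦌)} (h : Cn K x y) : Htpy (pt K x) (pt K y) := by
  obtain ⟨e, h0, h1⟩ := h
  refine (Pool.Agent.Helper88.FL.htpy_iff _ _).2
    ⟨CartesianMonoidalCategory.snd _ _ ≫ SSet.yonedaEquiv.symm e, ?_, ?_⟩
  · apply SSet.yonedaEquiv.injective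
    refine Eq.trans ?_ (pt_app x _).symm
    refine Eq.trans ?_ h0
    refine congrArg (fun t => K.map t e) ?_
    refine Quiver.Hom.unop_inj ?_
    ext i : 3
    obtain rfl : i = 0 := Subsingleton.elim (α := Fin 1) _ _
    rfl
  · apply SSet.yonedaEquiv.injective
    refine Eq.trans ?_ (pt_app y _).symm
    refine Eq.trans ?_ h1
    refine congrArg (fun t => K.map t e) ?_
    refine Quiver.Hom.unop_inj ?_
    ext i : 3
    obtain rfl : i = 0 := Subsingleton.elim (α := Fin 1) _ _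
    rfl

theorem cn_of_htpy_pt {x y : K.obj (op ⦋0⦌)} (h : Htpy (pt K x) (pt K y)) : Cn K x y := by
  have := cn_of_htpy h (SSet.stdSimplex.objEquiv.symm (𝟙 _))
  rwa [pt_app, pt_app] at this

theorem cn_refl (x : K.obj (op ⦋0⦌)) : Cn K x x :=
  ⟨FL.cst K x (op ⦋1⦌), (cst_map K x _).trans (cst_zero K x), (cst_map K x _).trans (cst_zero K x)⟩

theorem cn_symm (hK : SSet.KanComplex K) {x y : K.obj (op ⦋0⦌)} (h : Cn K x y) : Cn K y x :=
  cn_of_htpy_pt (Pool.Agent.Helper88.FL.htpy_symm hK (htpy_of_cn h))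

theorem cn_trans (hK : SSet.KanComplex K) {x y z : K.obj (op ⦋0⦌)} (h : Cn K x y)
    (h' : Cn K y z) : Cn K x z :=
  cn_of_htpy_pt (Pool.Agent.Helper88.FL.htpy_trans hK (htpy_of_cn h) (htpy_of_cn h'))

theorem cn_map (f : K ⟶ L) {x y : K.obj (op ⦋0⦌)} (h : Cn K x y) :
    Cn L (f.app _ x) (f.app _ y) := by
  obtain ⟨e, rfl, rfl⟩ := h
  exact ⟨f.app _ e, (sset_nat f _ e).symm, (sset_nat f _ e).symm⟩

/-- Homotopy equivalences are injective on components. -/
theorem cn_of_hoEq (hK : SSet.KanComplex K) {f : K ⟶ L} (hf : HoEq f) {x y : K.obj (op ⦋0⦌)}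
    (h : Cn L (f.app _ x) (f.app _ y)) : Cn K x y := by
  obtain ⟨g, h1, -⟩ := hf
  have a := cn_of_htpy h1 x
  have b := cn_of_htpy h1 y
  exact cn_trans hK (cn_symm hK a) (cn_trans hK (cn_map g h) b)

end

/-! ### The Whitehead theorem -/

section

variable {A : Type} [SmallCategory A]

/-- Objectwise weak equivalences induce equivalences on mapping spaces into injectively fibrant
objects. -/
theorem preHoEq {X Y Z : SP A} (f : X ⟶ Y) (hf : ∀ a, WE (f.app a)) (hZ : InjFib Z) :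
    HoEq (Mp.pre f Z) :=
  Pool.Agent.Helper46.FLb.Mp_pre_hoEq
    (by
      intro X Y Z hX hY hZ f g h1 h2
      exact Pool.Agent.Helper88.FL.hoEq_comp hX hY hZ h1 h2)
    (fun h => Pool.Agent.Helper45.FL2.TrivFib.hoEq h)
    (fun h => Helper85FL.we_of_hoEq h)
    (fun h1 h2 => Helper85FL.we_of_comp_right h1 h2)
    (fun X _ hZ => Pool.Agent.Helper83.FL4.Mp_kan X hZ)
    (fun i hi hZ => Pool.Agent.Helper83.FL4.Mp_pre_trivFib i hi hZ)
    (fun f => Pool.Agent.Helper36.FL.exists_cyl f)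
    (fun hr Z => Pool.Agent.Helper36.FL.SDR.pre_hoEq hr Z)
    (fun hr a => Pool.Agent.Helper36.FL.SDR.app_hoEq hr a) f hf hZ

theorem objKan_of_injFib {Z : SP A} (hZ : InjFib Z) : ObjKan Z :=
  Pool.Agent.Helper46.FLb.InjFib.objKan (fun X _ hZ => Pool.Agent.Helper83.FL4.Mp_kan X hZ) hZ

open Pool.Agent.Helper36.FL (sdr_zero sdr_one)

theorem SHE.post_hoEq {X Y : SP A} {f : X ⟶ Y} (hf : SHE f) (_ : InjFib X) (_ : InjFib Y)
    (P : SP A) : HoEq (Mp.post P f) := by
  obtain ⟨g, ⟨h, h0, h1⟩, ⟨h', h0', h1'⟩⟩ := hf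
  refine ⟨Mp.post P g, Pool.Agent.Helper36.FL.htpy_mk
    (fun k (φ : MpS P X k.unop) s' => φ.comp (h.res s')) ?_ ?_ ?_,
    Pool.Agent.Helper36.FL.htpy_mk
    (fun k (φ : MpS P Y k.unop) s' => φ.comp (h'.res s')) ?_ ?_ ?_⟩
  · intro k l α φ s'
    refine MpS.ext ?_
    funext a m t y
    exact congrArg (fun z => h.app a m z (MpS.app φ a m (t ≫ α.unop) y))
      (Category.assoc t α.unop s').symm
  · intro k φ
    refine MpS.ext ?_
    funext a l t y
    exact sdr_zero h0 a l _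
  · intro k φ
    refine MpS.ext ?_
    funext a l t y
    exact sdr_one h1 a l _
  · intro k l α φ s'
    refine MpS.ext ?_
    funext a m t y
    exact congrArg (fun z => h'.app a m z (MpS.app φ a m (t ≫ α.unop) y))
      (Category.assoc t α.unop s').symm
  · intro k φ
    refine MpS.ext ?_
    funext a l t y
    exact sdr_zero h0' a l _
  · intro k φ
    refine MpS.ext ?_
    funext a l t y
    exact sdr_one h1' a l _

theorem she_of_objHoEq {X Y : SP A} (hX : InjFib X) (hY : InjFib Y) {f : X ⟶ Y}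
    (hf : ObjHoEq f) : SHE f := by
  obtain ⟨C, i, r, hir, hi, hr⟩ := Pool.Agent.Helper36.FL.exists_cyl f
  have hwi : ∀ a, WE (i.app a) := by
    intro a
    refine Helper85FL.we_of_comp_right (g := r.app a)
      (Helper85FL.we_of_hoEq (Pool.Agent.Helper36.FL.SDR.app_hoEq hr a)) ?_
    have h1 : i.app a ≫ r.app a = f.app a := by rw [← hir]; rfl
    rw [h1]
    exact Helper85FL.we_of_hoEq (hf a)
  obtain ⟨s, hs, h, h0, h1⟩ := hr
  obtain ⟨ρ, hρ⟩ := hX i ⟨hi, hwi⟩ (𝟙 X)
  have hpre : HoEq (Mp.pre i Y) :=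
    Pool.Agent.Helper45.FL2.TrivFib.hoEq (Pool.Agent.Helper83.FL4.Mp_pre_trivFib i ⟨hi, hwi⟩ hY)
  have c1 : Cn (Mp C Y) (MpS.ofHom ⦋0⦌ (ρ ≫ f) : MpS C Y ⦋0⦌) (MpS.ofHom ⦋0⦌ r : MpS C Y ⦋0⦌) := by
    refine cn_of_hoEq (Pool.Agent.Helper83.FL4.Mp_kan C hY) hpre ?_
    have e : i ≫ ρ ≫ f = i ≫ r := by rw [← Category.assoc, hρ, Category.id_comp, hir]
    have e' : (Mp.pre i Y).app (op ⦋0⦌) (MpS.ofHom ⦋0⦌ (ρ ≫ f) : MpS C Y ⦋0⦌) =
        (Mp.pre i Y).app (op ⦋0⦌) (MpS.ofHom ⦋0⦌ r : MpS C Y ⦋0⦌) :=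
      congrArg (MpS.ofHom ⦋0⦌) e
    rw [e']
    exact cn_refl _
  have c2 := cn_map (Mp.pre s Y) c1
  obtain ⟨h', h0', h1'⟩ := c2
  refine ⟨s ≫ ρ, ⟨(MpS.ofHom ⦋1⦌ i).comp (h.comp (MpS.ofHom ⦋1⦌ ρ)), ?_, ?_⟩, h', ?_, ?_⟩
  · refine (congrArg (fun z : MpS C C ⦋0⦌ => (MpS.ofHom ⦋0⦌ i).comp (z.comp (MpS.ofHom ⦋0⦌ ρ)))
      h0).trans ?_
    rw [← hir]
    rfl
  · refine (congrArg (fun z : MpS C C ⦋0⦌ => (MpS.ofHom ⦋0⦌ i).comp (z.comp (MpS.ofHom ⦋0⦌ ρ)))
      h1).trans ?_
    exact congrArg (MpS.ofHom ⦋0⦌) hρ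
  · refine h0'.trans ?_
    exact congrArg (MpS.ofHom ⦋0⦌) (Category.assoc s ρ f).symm
  · refine h1'.trans ?_
    exact congrArg (MpS.ofHom ⦋0⦌) hs

theorem post_hoEq {X Y : SP A} (hX : InjFib X) (hY : InjFib Y) {f : X ⟶ Y}
    (hf : ObjHoEq f) (P : SP A) : HoEq (Mp.post P f) :=
  SHE.post_hoEq (she_of_objHoEq hX hY hf) hX hY P

theorem loc_iff_of_objHoEq {X Y : SP A} (hX : InjFib X) (hY : InjFib Y) {f : X ⟶ Y}
    (hf : ObjHoEq f) {P Q : SP A} (g : P ⟶ Q) : Loc X g ↔ Loc Y g := by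
  have kQX := Pool.Agent.Helper83.FL4.Mp_kan Q hX
  have kPX := Pool.Agent.Helper83.FL4.Mp_kan P hX
  have kQY := Pool.Agent.Helper83.FL4.Mp_kan Q hY
  have kPY := Pool.Agent.Helper83.FL4.Mp_kan P hY
  have hP := post_hoEq hX hY hf P
  have hQ := post_hoEq hX hY hf Q
  have e : Mp.pre g X ≫ Mp.post P f = Mp.post Q f ≫ Mp.pre g Y := rfl
  constructor
  · intro h
    refine Pool.Agent.Helper88.FL.hoEq_of_comp_left kQX kQY kPY hQ ?_
    rw [← e]
    exact Pool.Agent.Helper88.FL.hoEq_comp kQX kPX kPY h hP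
  · intro h
    refine Pool.Agent.Helper88.FL.hoEq_of_comp_right kQX kPX kPY hP ?_
    rw [e]
    exact Pool.Agent.Helper88.FL.hoEq_comp kQX kQY kPY hQ h

end

end Pool.Agent.Helper91.FL2
end

/- Helper36.FLP.Hm -/
section
/-!
# Bridge: the two forms of the mapping presheaves
-/

open CategoryTheory MonoidalCategory CartesianMonoidalCategory Opposite

set_option autoImplicit false

namespace Pool.Agent.Helper36.FLPHm

open _root_.FL (SP Wr)
open FLP

noncomputable section

variable {C : Type} [SmallCategory C]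

/-- The inclusion of the explicit mapping presheaf. -/
def incl (X : SP (Wr C)) (x y : _root_.FL.Vt X) : _root_.FL.Hm X x y ⟶ mor X where
  app _ :=
    { app := fun _ => ↾ fun z => z.1
      naturality := fun _ _ _ => rfl }
  naturality _ _ _ := rfl

/-- The map to the point. -/
def trm (X : SP (Wr C)) (x y : _root_.FL.Vt X) : _root_.FL.Hm X x y ⟶ FLP.cst C (𝟙_ SSet.{0}) where
  app _ := toUnit _
  naturality _ _ _ := toUnit_unique _ _

lemma pt_ext {X : SP C} (f g : X ⟶ FLP.cst C (𝟙_ SSet.{0})) : f = g :=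
  NatTrans.ext (funext fun _ => toUnit_unique _ _)

lemma vtx_eq (c : C) (i : Fin 2) : FLP.vtx c i = _root_.FL.vtx (_root_.FL.seg c) i :=
  _root_.FL.Wr.hom_ext' rfl fun (j : Fin 0) _ _ _ => j.elim0

lemma ends_eq (X : SP (Wr C)) (c : Cᵒᵖ) : (FLP.ends X).app c = _root_.FL.ends X c.unop := by
  show lift (X.map (FLP.vtx c.unop 0).op) (X.map (FLP.vtx c.unop 1).op) =
    lift (X.map (_root_.FL.vtx (_root_.FL.seg c.unop) 0).op) (X.map (_root_.FL.vtx (_root_.FL.seg c.unop) 1).op)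
  rw [vtx_eq, vtx_eq]

lemma pair_elt (X : SP (Wr C)) (x y : _root_.FL.Vt X) (c : Cᵒᵖ) (k : SimplexCategoryᵒᵖ)
    (z : (𝟙_ SSet.{0}).obj k) :
    ((FLP.pair X x y).app c).app k z =
      _root_.FL.cst (X.obj (op Wr.pt) ⊗ X.obj (op Wr.pt)) (x, y) k := rfl

lemma sq (X : SP (Wr C)) (x y : _root_.FL.Vt X) :
    incl X x y ≫ FLP.ends X = trm X x y ≫ FLP.pair X x y := by
  refine NatTrans.ext (funext fun c => ?_)
  show (incl X x y).app c ≫ (FLP.ends X).app c = _
  rw [ends_eq]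
  refine NatTrans.ext (funext fun k => ConcreteCategory.hom_ext _ _ fun z => ?_)
  exact z.2

lemma sq_elt {X : SP (Wr C)} {x y : _root_.FL.Vt X} {T : SP C} (f : T ⟶ mor X)
    (g : T ⟶ FLP.cst C (𝟙_ SSet.{0})) (h : f ≫ FLP.ends X = g ≫ FLP.pair X x y) (c : Cᵒᵖ)
    (k : SimplexCategoryᵒᵖ) (t : (T.obj c).obj k) :
    (_root_.FL.ends X c.unop).app k ((f.app c).app k t) =
      _root_.FL.cst (X.obj (op Wr.pt) ⊗ X.obj (op Wr.pt)) (x, y) k := by
  have h1 := NatTrans.congr_app h c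
  have h2 : f.app c ≫ _root_.FL.ends X c.unop = g.app c ≫ (FLP.pair X x y).app c := by
    rw [← ends_eq]; exact h1
  exact ConcreteCategory.congr_hom (NatTrans.congr_app h2 k) t

/-- The lift of a cone. -/
def lft {X : SP (Wr C)} {x y : _root_.FL.Vt X} {T : SP C} (f : T ⟶ mor X)
    (g : T ⟶ FLP.cst C (𝟙_ SSet.{0})) (h : f ≫ FLP.ends X = g ≫ FLP.pair X x y) :
    T ⟶ _root_.FL.Hm X x y where
  app c :=
    { app := fun k => ↾ fun t => ⟨(f.app c).app k t, sq_elt f g h c k t⟩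
      naturality := fun k l α => by
        refine ConcreteCategory.hom_ext _ _ fun t => ?_
        exact Subtype.ext (_root_.FL.hom_natk f α t) }
  naturality c c' u := by
    refine NatTrans.ext (funext fun k => ConcreteCategory.hom_ext _ _ fun t => ?_)
    exact Subtype.ext (_root_.FL.hom_nat f u t)

lemma incl_mono {X : SP (Wr C)} {x y : _root_.FL.Vt X} {T : SP C} {f g : T ⟶ _root_.FL.Hm X x y}
    (h : f ≫ incl X x y = g ≫ incl X x y) : f = g := by
  refine NatTrans.ext (funext fun c => NatTrans.ext (funext fun k =>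
    ConcreteCategory.hom_ext _ _ fun t => Subtype.ext ?_))
  exact ConcreteCategory.congr_hom (NatTrans.congr_app (NatTrans.congr_app h c) k) t

lemma isPb (X : SP (Wr C)) (x y : _root_.FL.Vt X) :
    IsPullback (incl X x y) (trm X x y) (FLP.ends X) (FLP.pair X x y) :=
  IsPullback.of_isLimit' ⟨sq X x y⟩ (Limits.PullbackCone.IsLimit.mk _
    (fun s => lft s.fst s.snd s.condition)
    (fun _ => rfl) (fun _ => pt_ext _ _)
    (fun _ _ h _ => incl_mono h))

/-- The isomorphism. -/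
def hmIso (X : SP (Wr C)) (x y : _root_.FL.Vt X) : _root_.FL.Hm X x y ≅ FLP.Hm X x y :=
  (isPb X x y).isoPullback

theorem exists_hmIso : ∃ e : ∀ (X : SP (Wr C)) (x y : _root_.FL.Vt X), _root_.FL.Hm X x y ≅ FLP.Hm X x y,
    ∀ {X Y : SP (Wr C)} (f : X ⟶ Y) (x y : _root_.FL.Vt X),
      _root_.FL.HmMap f x y ≫ (e Y (_root_.FL.vtMap f x) (_root_.FL.vtMap f y)).hom =
        (e X x y).hom ≫ FLP.HmMap f x y := by
  refine ⟨hmIso, ?_⟩
  intro X Y f x y
  refine Limits.pullback.hom_ext ?_ (pt_ext _ _)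
  have h1 : (hmIso Y (_root_.FL.vtMap f x) (_root_.FL.vtMap f y)).hom ≫
      Limits.pullback.fst (FLP.ends Y) (FLP.pair Y (_root_.FL.vtMap f x) (_root_.FL.vtMap f y)) =
      incl Y (_root_.FL.vtMap f x) (_root_.FL.vtMap f y) := IsPullback.isoPullback_hom_fst _
  have h2 : (hmIso X x y).hom ≫ Limits.pullback.fst (FLP.ends X) (FLP.pair X x y) =
      incl X x y := IsPullback.isoPullback_hom_fst _
  have h3 : FLP.HmMap f x y ≫
      Limits.pullback.fst (FLP.ends Y) (FLP.pair Y (_root_.FL.vtMap f x) (_root_.FL.vtMap f y)) =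
      Limits.pullback.fst (FLP.ends X) (FLP.pair X x y) ≫ morm f :=
    Limits.pullback.lift_fst _ _ _
  have e1 := (Category.assoc (_root_.FL.HmMap f x y) _ _).trans
    (congrArg (fun t => _root_.FL.HmMap f x y ≫ t) h1)
  have e2 := (Category.assoc (hmIso X x y).hom _ _).trans
    ((congrArg (fun t => (hmIso X x y).hom ≫ t) h3).trans
      ((Category.assoc _ _ _).symm.trans (congrArg (fun t => t ≫ morm f) h2)))
  have e3 : _root_.FL.HmMap f x y ≫ incl Y (_root_.FL.vtMap f x) (_root_.FL.vtMap f y) = incl X x y ≫ morm f := rfl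
  exact e1.trans (e3.trans e2.symm)

end

end Pool.Agent.Helper36.FLPHm
end

/- Helper82.FL.Yinj -/
section
/-!
# Project FL, module FL-15c: morphisms `F ⟶ Y D`, injective fibrancy of `Y D`
-/

open CategoryTheory MonoidalCategory Opposite

set_option autoImplicit false

namespace Pool.Agent.Helper82.FL15

open FL

variable {n : ℕ}

/-! ### The Yoneda simplices -/

section

variable {A : Type} [SmallCategory A]

theorem yoS_res {C : SP A} {a : A} {k l : SimplexCategoryᵒᵖ} (α : k ⟶ l)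
    (x : (C.obj (op a)).obj k) :
    yoS (C := C) (a := a) (k := l.unop) ((C.obj (op a)).map α x) =
      (yoS (C := C) (a := a) (k := k.unop) x).res α.unop := by
  refine MpS.ext ?_
  funext b m s u
  refine congrArg ((C.map (Quiver.Hom.op (u : b.unop ⟶ a))).app m) ?_
  exact (sset_comp _ α s.op x).symm

theorem yoS_map {C : SP A} {a b : A} {k : SimplexCategoryᵒᵖ} (f : b ⟶ a)
    (x : (C.obj (op a)).obj k) :
    yoS (C := C) (a := b) (k := k.unop) ((C.map f.op).app k x) =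
      (MpS.ofHom k.unop (repMap f)).comp (yoS (C := C) (a := a) (k := k.unop) x) := by
  refine MpS.ext ?_
  funext c m s u
  refine (congrArg ((C.map (Quiver.Hom.op (u : c.unop ⟶ b))).app m)
    (sp_nat C f.op s.op x).symm).trans ?_
  exact (sp_comp C f.op (Quiver.Hom.op (u : c.unop ⟶ b)) _).symm

theorem yoS_comp {C C' : SP A} {a : A} {k m : SimplexCategoryᵒᵖ} (φ : MpS C C' k.unop)
    (t : m.unop ⟶ k.unop) (x : (C.obj (op a)).obj m) :
    (yoS (C := C) (a := a) (k := m.unop) x).comp (φ.res t) =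
      yoS (C := C') (a := a) (k := m.unop) (φ.app (op a) m t x) := by
  refine MpS.ext ?_
  funext b l s u
  refine (φ.nat_left (Quiver.Hom.op (u : b.unop ⟶ a)) l (s ≫ t) _).trans ?_
  refine congrArg ((C'.map (Quiver.Hom.op (u : b.unop ⟶ a))).app l) ?_
  exact φ.nat_right (op a) s.op t x

theorem yoS_rep {a b : A} {k : SimplexCategoryᵒᵖ} (f : b ⟶ a) :
    yoS (C := rep a) (a := b) (k := k.unop) (f : ((rep a).obj (op b)).obj k) =
      MpS.ofHom k.unop (repMap f) := rfl

theorem yoS_one {C : SP A} {a : A} {k : SimplexCategoryᵒᵖ} (x : (C.obj (op a)).obj k) :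
    (yoS (C := C) (a := a) (k := k.unop) x).app (op a) k (𝟙 _) (𝟙 a : a ⟶ a) = x :=
  (sp_id C _).trans (sset_id _ _)

end

/-! ### Restriction to `Θ_n` -/

/-- The restriction of a morphism `F ⟶ Y D` to `Θ_n`. -/
noncomputable def toRestr (hrep : ∀ θ : Th n, IsCat n (rep θ)) {F : PSh n} {D : SP (Gn n)}
    (φ : PSh.Hom F (YD D)) : F.restr hrep ⟶ ND D where
  app a := φ.app ⟨rep a.unop, hrep _⟩
  naturality a b f := by
    ext k x
    exact φ.act (C := ⟨rep b.unop, hrep _⟩) (C' := ⟨rep a.unop, hrep _⟩)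
      (MpS.ofHom k.unop (repMap f.unop)) x

/-- The restriction of a morphism of presheaves to `Θ_n`. -/
noncomputable def restrHom (hrep : ∀ θ : Th n, IsCat n (rep θ)) {F G : PSh n}
    (φ : PSh.Hom F G) : F.restr hrep ⟶ G.restr hrep where
  app a := φ.app ⟨rep a.unop, hrep _⟩
  naturality a b f := by
    ext k x
    exact φ.act (C := ⟨rep b.unop, hrep _⟩) (C' := ⟨rep a.unop, hrep _⟩)
      (MpS.ofHom k.unop (repMap f.unop)) x

/-- Composition of morphisms of presheaves. -/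
def homComp {F G H : PSh n} (φ : PSh.Hom F G) (ψ : PSh.Hom G H) : PSh.Hom F H where
  app C := φ.app C ≫ ψ.app C
  act {C _} k χ x := (congrArg ((ψ.app C).app k) (φ.act χ x)).trans (ψ.act χ _)

/-- The formula for a morphism in terms of its restriction. -/
theorem formula (hrep : ∀ θ : Th n, IsCat n (rep θ)) {F : PSh n} {D : SP (Gn n)}
    (φ : PSh.Hom F (YD D)) (C : CatN n) (k : SimplexCategoryᵒᵖ) (x : (F.obj C).obj k)
    (g : (Gn n)ᵒᵖ) (m : SimplexCategoryᵒᵖ) (t : m.unop ⟶ k.unop)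
    (c : (C.1.obj (op ((tower n).obj g.unop))).obj m) :
    ((φ.app C).app k x : MpS (filt C.1) D k.unop).app g m t c =
      (((toRestr hrep φ).app (op ((tower n).obj g.unop))).app m
        (F.act (C := ⟨rep _, hrep _⟩) (C' := C) (yoS c) ((F.obj C).map t.op x)) :
          MpS (filt (rep _)) D m.unop).app g m (𝟙 _) (𝟙 ((tower n).obj g.unop)) := by
  have h1 := φ.act (C := ⟨rep _, hrep _⟩) (C' := C)
    (yoS (C := C.1) (a := (tower n).obj g.unop) (k := m.unop) c) ((F.obj C).map t.op x)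
  have h2 : (φ.app C).app m ((F.obj C).map t.op x) =
      MpS.res t ((φ.app C).app k x : MpS (filt C.1) D k.unop) := sset_nat (φ.app C) t.op x
  refine Eq.trans ?_ (congrArg (fun w : MpS (filt (rep ((tower n).obj g.unop))) D m.unop =>
    w.app g m (𝟙 _) (𝟙 ((tower n).obj g.unop))) h1.symm)
  refine Eq.trans ?_ (congrArg (fun w : MpS (filt C.1) D m.unop =>
    ((YD D).act (C := ⟨rep _, hrep _⟩) (C' := C)
      (yoS (C := C.1) (a := (tower n).obj g.unop) (k := m.unop) c) w :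
        MpS (filt (rep ((tower n).obj g.unop))) D m.unop).app g m (𝟙 _)
          (𝟙 ((tower n).obj g.unop))) h2.symm)
  show _ = ((φ.app C).app k x : MpS (filt C.1) D k.unop).app g m (𝟙 _ ≫ t)
    ((yoS (C := C.1) (a := (tower n).obj g.unop) (k := m.unop) c).app
      (op ((tower n).obj g.unop)) m (𝟙 _) (𝟙 ((tower n).obj g.unop)))
  rw [yoS_one, Category.id_comp]

/-- The simplex given by the formula. -/
noncomputable def extS (hrep : ∀ θ : Th n, IsCat n (rep θ)) {F : PSh n} {D : SP (Gn n)}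
    (χ : F.restr hrep ⟶ ND D) (C : CatN n) (k : SimplexCategoryᵒᵖ) (x : (F.obj C).obj k) :
    MpS (filt C.1) D k.unop where
  app g m t c := ((χ.app (op ((tower n).obj g.unop))).app m
        (F.act (C := ⟨rep _, hrep _⟩) (C' := C)
          (yoS (C := C.1) (a := (tower n).obj g.unop) (k := m.unop) c) ((F.obj C).map t.op x)) :
          MpS (filt (rep _)) D m.unop).app g m (𝟙 _) (𝟙 ((tower n).obj g.unop))
  nat_left {g g'} f m t c := by
    have h1 := yoS_map (C := C.1) (k := m) ((tower n).map f.unop) c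
    have h2 := F.act_comp (C := ⟨rep _, hrep _⟩) (C' := ⟨rep _, hrep _⟩) (C'' := C)
      (MpS.ofHom m.unop (repMap ((tower n).map f.unop)))
      (yoS (C := C.1) (a := (tower n).obj g.unop) (k := m.unop) c) ((F.obj C).map t.op x)
    have h3 : F.act (C := ⟨rep _, hrep _⟩) (C' := C) (yoS (C := C.1) (a := (tower n).obj g'.unop)
        (k := m.unop) ((C.1.map ((tower n).map f.unop).op).app m c)) ((F.obj C).map t.op x) =
        ((F.restr hrep).map ((tower n).map f.unop).op).app m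
          (F.act (C := ⟨rep _, hrep _⟩) (C' := C)
            (yoS (C := C.1) (a := (tower n).obj g.unop) (k := m.unop) c)
            ((F.obj C).map t.op x)) :=
      (congrArg (fun w => F.act (C := ⟨rep _, hrep _⟩) (C' := C) w ((F.obj C).map t.op x)) h1).trans
        h2
    have h4 := hom_nat χ ((tower n).map f.unop).op (k := m)
      (F.act (C := ⟨rep _, hrep _⟩) (C' := C)
            (yoS (C := C.1) (a := (tower n).obj g.unop) (k := m.unop) c)
            ((F.obj C).map t.op x))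
    refine (congrArg (fun w => (((χ.app (op ((tower n).obj g'.unop))).app m w :
      MpS (filt (rep _)) D m.unop)).app g' m (𝟙 _) (𝟙 ((tower n).obj g'.unop))) h3).trans ?_
    refine (congrArg (fun w : MpS (filt (rep ((tower n).obj g'.unop))) D m.unop =>
      w.app g' m (𝟙 _) (𝟙 ((tower n).obj g'.unop))) h4).trans ?_
    refine Eq.trans ?_ (MpS.nat_left ((χ.app (op ((tower n).obj g.unop))).app m
        (F.act (C := ⟨rep _, hrep _⟩) (C' := C)
          (yoS (C := C.1) (a := (tower n).obj g.unop) (k := m.unop) c) ((F.obj C).map t.op x)) :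
          MpS (filt (rep _)) D m.unop) f m (𝟙 _) (𝟙 ((tower n).obj g.unop)))
    refine congrArg (MpS.app ((χ.app (op ((tower n).obj g.unop))).app m
        (F.act (C := ⟨rep _, hrep _⟩) (C' := C)
          (yoS (C := C.1) (a := (tower n).obj g.unop) (k := m.unop) c) ((F.obj C).map t.op x)) :
          MpS (filt (rep _)) D m.unop) g' m (𝟙 _)) ?_
    exact (Category.id_comp ((tower n).map f.unop)).trans
      (Category.comp_id ((tower n).map f.unop)).symm
  nat_right g {m l} α s c := by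
    have h1 := yoS_res (C := C.1) α c
    have h2 := F.act_nat (C := ⟨rep _, hrep _⟩) (C' := C) α
      (yoS (C := C.1) (a := (tower n).obj g.unop) (k := m.unop) c) ((F.obj C).map s.op x)
    have h3 : F.act (C := ⟨rep _, hrep _⟩) (C' := C) (yoS (C := C.1) (a := (tower n).obj g.unop)
        (k := l.unop) ((C.1.obj _).map α c)) ((F.obj C).map (α.unop ≫ s).op x) =
        (F.obj ⟨rep _, hrep _⟩).map α (F.act (C := ⟨rep _, hrep _⟩) (C' := C)
            (yoS (C := C.1) (a := (tower n).obj g.unop) (k := m.unop) c)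
            ((F.obj C).map s.op x)) :=
      (congrArg₂ (F.act (C := ⟨rep _, hrep _⟩) (C' := C)) h1
        (sset_comp (F.obj C) s.op α x)).trans h2
    have h4 := hom_natk χ α (F.act (C := ⟨rep _, hrep _⟩) (C' := C)
            (yoS (C := C.1) (a := (tower n).obj g.unop) (k := m.unop) c)
            ((F.obj C).map s.op x))
    refine (congrArg (fun w => (((χ.app (op ((tower n).obj g.unop))).app l w :
      MpS (filt (rep _)) D l.unop)).app g l (𝟙 _) (𝟙 ((tower n).obj g.unop))) h3).trans ?_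
    refine (congrArg (fun w : MpS (filt (rep ((tower n).obj g.unop))) D l.unop =>
      w.app g l (𝟙 _) (𝟙 ((tower n).obj g.unop))) h4).trans ?_
    refine Eq.trans ?_ (MpS.nat_right ((χ.app (op ((tower n).obj g.unop))).app m
        (F.act (C := ⟨rep _, hrep _⟩) (C' := C)
          (yoS (C := C.1) (a := (tower n).obj g.unop) (k := m.unop) c) ((F.obj C).map s.op x)) :
          MpS (filt (rep _)) D m.unop) g α (𝟙 _) (𝟙 ((tower n).obj g.unop)))
    refine congrArg (fun w => MpS.app ((χ.app (op ((tower n).obj g.unop))).app m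
        (F.act (C := ⟨rep _, hrep _⟩) (C' := C)
          (yoS (C := C.1) (a := (tower n).obj g.unop) (k := m.unop) c) ((F.obj C).map s.op x)) :
          MpS (filt (rep _)) D m.unop) g l w (𝟙 ((tower n).obj g.unop))) ?_
    exact (Category.id_comp _).trans (Category.comp_id _).symm

/-- The extension of a morphism defined on `Θ_n`. -/
noncomputable def ofRestr (hrep : ∀ θ : Th n, IsCat n (rep θ)) {F : PSh n} {D : SP (Gn n)}
    (χ : F.restr hrep ⟶ ND D) : PSh.Hom F (YD D) where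
  app C :=
    { app := fun k => ↾ fun x => extS hrep χ C k x
      naturality := fun k l α => by
        ext x
        refine MpS.ext ?_
        funext g m t c
        refine congrArg (fun w => (((χ.app (op ((tower n).obj g.unop))).app m
          (F.act (C := ⟨rep _, hrep _⟩) (C' := C)
            (yoS (C := C.1) (a := (tower n).obj g.unop) (k := m.unop) c) w) :
          MpS (filt (rep _)) D m.unop)).app g m (𝟙 _) (𝟙 ((tower n).obj g.unop))) ?_
        exact (sset_comp (F.obj C) α t.op x).symm }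
  act {C C'} k φ x := by
    refine MpS.ext ?_
    funext g m t c
    have h1 := F.act_nat (C := C) (C' := C') t.op φ x
    have h2 := F.act_comp (C := ⟨rep _, hrep _⟩) (C' := C) (C'' := C')
      (yoS (C := C.1) (a := (tower n).obj g.unop) (k := m.unop) c) (φ.res t)
      ((F.obj C').map t.op x)
    have h3 := yoS_comp (C := C.1) (C' := C'.1) φ t (a := (tower n).obj g.unop) c
    refine congrArg (fun w => (((χ.app (op ((tower n).obj g.unop))).app m w :
      MpS (filt (rep _)) D m.unop)).app g m (𝟙 _) (𝟙 ((tower n).obj g.unop))) ?_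
    refine (congrArg (F.act (C := ⟨rep _, hrep _⟩) (C' := C)
      (yoS (C := C.1) (a := (tower n).obj g.unop) (k := m.unop) c)) h1.symm).trans ?_
    refine h2.symm.trans ?_
    exact congrArg (fun w => F.act (C := ⟨rep _, hrep _⟩) (C' := C') w
      ((F.obj C').map t.op x)) h3

theorem toRestr_ofRestr (hrep : ∀ θ : Th n, IsCat n (rep θ)) {F : PSh n} {D : SP (Gn n)}
    (χ : F.restr hrep ⟶ ND D) : toRestr hrep (ofRestr hrep χ) = χ := by
  ext a k x
  refine MpS.ext ?_
  funext g m t c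
  have h2 := hom_nat χ (Quiver.Hom.op (c : (tower n).obj g.unop ⟶ a.unop)) (k := m)
    (((F.restr hrep).obj a).map t.op x)
  have h3 := hom_natk χ t.op x
  refine (congrArg (fun w : MpS (filt (rep ((tower n).obj g.unop))) D m.unop =>
      w.app g m (𝟙 _) (𝟙 ((tower n).obj g.unop))) h2).trans ?_
  refine (congrArg (fun w : MpS (filt (rep a.unop)) D m.unop =>
      (((ND D).map (Quiver.Hom.op (c : (tower n).obj g.unop ⟶ a.unop))).app m w :
        MpS (filt (rep ((tower n).obj g.unop))) D m.unop).app g m (𝟙 _)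
          (𝟙 ((tower n).obj g.unop))) h3).trans ?_
  have e1 : 𝟙 m.unop ≫ t = t := Category.id_comp t
  have e2 : 𝟙 ((tower n).obj g.unop) ≫ (c : (tower n).obj g.unop ⟶ a.unop) = c :=
    Category.id_comp _
  exact congrArg₂ (fun (t : m.unop ⟶ k.unop) (c : (tower n).obj g.unop ⟶ a.unop) =>
    ((χ.app a).app k x : MpS (filt (rep a.unop)) D k.unop).app g m t c) e1 e2

theorem hom_ext {F G : PSh n} {φ ψ : PSh.Hom F G} (h : ∀ C, φ.app C = ψ.app C) : φ = ψ := by
  obtain ⟨a, _⟩ := φ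
  obtain ⟨b, _⟩ := ψ
  have : a = b := funext h
  subst this
  rfl

theorem toRestr_injective (hrep : ∀ θ : Th n, IsCat n (rep θ)) {F : PSh n} {D : SP (Gn n)}
    {φ ψ : PSh.Hom F (YD D)} (h : toRestr hrep φ = toRestr hrep ψ) : φ = ψ := by
  refine hom_ext fun C => ?_
  ext k x
  refine MpS.ext ?_
  funext g m t c
  refine (formula hrep φ C k x g m t c).trans (Eq.trans ?_ (formula hrep ψ C k x g m t c).symm)
  rw [h]

/-- Morphisms `F ⟶ Y D` are morphisms `F|Θ_n ⟶ N D`. -/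
theorem exists_YDequiv (hrep : ∀ θ : Th n, IsCat n (rep θ)) (F : PSh n) (D : SP (Gn n)) :
    ∃ e : PSh.Hom F (YD D) ≃ (F.restr hrep ⟶ ND D),
      (∀ (φ : PSh.Hom F (YD D)) (a : (Th n)ᵒᵖ), (e φ).app a = φ.app ⟨rep a.unop, hrep _⟩) ∧
      (∀ (φ : PSh.Hom F (YD D)) (C : CatN n) (k : SimplexCategoryᵒᵖ) (x : (F.obj C).obj k)
        (g : (Gn n)ᵒᵖ) (m : SimplexCategoryᵒᵖ) (t : m.unop ⟶ k.unop)
        (c : (C.1.obj (op ((tower n).obj g.unop))).obj m),
        ((φ.app C).app k x : MpS (filt C.1) D k.unop).app g m t c =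
          (((e φ).app (op ((tower n).obj g.unop))).app m
            (F.act (C := ⟨rep _, hrep _⟩) (C' := C) (yoS c) ((F.obj C).map t.op x)) :
              MpS (filt (rep _)) D m.unop).app g m (𝟙 _) (𝟙 ((tower n).obj g.unop))) := by
  refine ⟨⟨toRestr hrep, ofRestr hrep, fun φ => toRestr_injective hrep ?_,
    toRestr_ofRestr hrep⟩, fun φ a => rfl, fun φ C k x g m t c => formula hrep φ C k x g m t c⟩
  exact toRestr_ofRestr hrep _

theorem YD_injFib (hrep : ∀ θ : Th n, IsCat n (rep θ)) (D : SP (Gn n)) (hD : InjFib D) :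
    (YD D).InjFib := by
  intro F F' i hm hw f
  obtain ⟨g, hg⟩ := Pool.Agent.Helper36.FL.ND_injFib hD (restrHom hrep i) ⟨fun a => hm _, fun a => hw _⟩
    (toRestr hrep f)
  refine ⟨ofRestr hrep g, fun C => ?_⟩
  have h1 : homComp i (ofRestr hrep g) = f := by
    apply toRestr_injective hrep
    rw [← hg]
    have h2 : toRestr hrep (homComp i (ofRestr hrep g)) =
        restrHom hrep i ≫ toRestr hrep (ofRestr hrep g) := rfl
    rw [h2, toRestr_ofRestr]
  rw [← h1]
  rfl

end Pool.Agent.Helper82.FL15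
end

/- Helper45.FL2.Loc1 -/
section
/-!
# FL2-G1 LOC, part 1: calculus of local maps
-/

open CategoryTheory MonoidalCategory Opposite HomotopicalAlgebra

set_option autoImplicit false

namespace Pool.Agent.Helper45.LOC

open FL

section

variable {A : Type} [SmallCategory A] {X : SP A}

theorem pre_comp {P Q R : SP A} (f : P ⟶ Q) (g : Q ⟶ R) :
    Mp.pre (f ≫ g) X = Mp.pre g X ≫ Mp.pre f X := rfl

theorem pre_id (P : SP A) : Mp.pre (𝟙 P) X = 𝟙 _ := rfl

/-- An isomorphism of mapping spaces. -/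
def preIso {P Q : SP A} (e : P ≅ Q) (X : SP A) : Mp Q X ≅ Mp P X where
  hom := Mp.pre e.hom X
  inv := Mp.pre e.inv X
  hom_inv_id := by rw [← pre_comp, e.inv_hom_id, pre_id]
  inv_hom_id := by rw [← pre_comp, e.hom_inv_id, pre_id]

theorem loc_of_isIso {P Q : SP A} (f : P ⟶ Q) [IsIso f] : Loc X f := by
  have : IsIso (Mp.pre f X) := inferInstanceAs (IsIso (preIso (asIso f) X).hom)
  exact Pool.Agent.Helper88.FL.hoEq_of_isIso _

theorem loc_of_arrow_iso {P Q P' Q' : SP A} {f : P ⟶ Q} {f' : P' ⟶ Q'} (e : P ≅ P')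
    (e' : Q ≅ Q') (h : f ≫ e'.hom = e.hom ≫ f') (hf : Loc X f) : Loc X f' := by
  refine Pool.Agent.Helper88.FL.hoEq_of_arrow_iso (preIso e'.symm X) (preIso e.symm X) ?_ hf
  change Mp.pre f X ≫ Mp.pre e.inv X = Mp.pre e'.inv X ≫ Mp.pre f' X
  rw [← pre_comp, ← pre_comp]
  congr 1
  rw [Iso.inv_comp_eq, ← Category.assoc, ← h, Category.assoc, e'.hom_inv_id, Category.comp_id]

theorem loc_comp (hX : InjFib X) {P Q R : SP A} {f : P ⟶ Q} {g : Q ⟶ R} (hf : Loc X f)
    (hg : Loc X g) : Loc X (f ≫ g) :=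
  Pool.Agent.Helper88.FL.hoEq_comp (Pool.Agent.Helper83.FL4.Mp_kan R hX) (Pool.Agent.Helper83.FL4.Mp_kan Q hX)
    (Pool.Agent.Helper83.FL4.Mp_kan P hX) hg hf

theorem loc_of_comp_left (hX : InjFib X) {P Q R : SP A} {f : P ⟶ Q} {g : Q ⟶ R}
    (hf : Loc X f) (hfg : Loc X (f ≫ g)) : Loc X g :=
  Pool.Agent.Helper88.FL.hoEq_of_comp_right (Pool.Agent.Helper83.FL4.Mp_kan R hX)
    (Pool.Agent.Helper83.FL4.Mp_kan Q hX) (Pool.Agent.Helper83.FL4.Mp_kan P hX) hf hfg

theorem loc_of_comp_right (hX : InjFib X) {P Q R : SP A} {f : P ⟶ Q} {g : Q ⟶ R}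
    (hg : Loc X g) (hfg : Loc X (f ≫ g)) : Loc X f :=
  Pool.Agent.Helper88.FL.hoEq_of_comp_left (Pool.Agent.Helper83.FL4.Mp_kan R hX)
    (Pool.Agent.Helper83.FL4.Mp_kan Q hX) (Pool.Agent.Helper83.FL4.Mp_kan P hX) hg hfg

theorem loc_of_we (hX : InjFib X) {P Q : SP A} (f : P ⟶ Q) (hf : ∀ a, WE (f.app a)) :
    Loc X f :=
  Pool.Agent.Helper46.FLb.Mp_pre_hoEq
    (fun {_ _ _} hX hY hZ {_ _} hf hg => Pool.Agent.Helper88.FL.hoEq_comp hX hY hZ hf hg)
    (fun {_ _ _} h => Pool.Agent.Helper45.FL2.TrivFib.hoEq h)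
    (fun {_ _ _} h => Helper85FL.we_of_hoEq h)
    (fun {_ _ _ _ _} h h' => Helper85FL.we_of_comp_right h h')
    (fun P {_} hZ => Pool.Agent.Helper83.FL4.Mp_kan P hZ)
    (fun {_ _ _} i hi hZ => Pool.Agent.Helper83.FL4.Mp_pre_trivFib i hi hZ)
    (fun {_ _} f => Pool.Agent.Helper36.FL.exists_cyl f)
    (fun {_ _ _} h Z => Pool.Agent.Helper36.FL.SDR.pre_hoEq h Z)
    (fun {_ _ _} h a => Pool.Agent.Helper36.FL.SDR.app_hoEq h a) f hf hX

theorem loc_of_sdr {P Q : SP A} {f : P ⟶ Q} (hf : SDR f) : Loc X f :=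
  Pool.Agent.Helper36.FL.SDR.pre_hoEq hf X

theorem loc_iff_trivFib (hX : InjFib X) {P Q : SP A} (i : P ⟶ Q) (hi : ∀ a, Mono (i.app a)) :
    Loc X i ↔ TrivFib (Mp.pre i X) :=
  ⟨fun h => Pool.Agent.Helper45.FL2.trivFib_of_hoEq (Pool.Agent.Helper83.FL4.Mp_kan Q hX)
    (Pool.Agent.Helper83.FL4.Mp_kan P hX) (Pool.Agent.Helper83.FL4.Mp_pre_kanFib i hi hX) h,
    fun h => Pool.Agent.Helper45.FL2.TrivFib.hoEq h⟩

/-- The strict map given by a vertex of the mapping space. -/
def toHom {P Q : SP A} (φ : MpS P Q (SimplexCategory.mk 0)) : P ⟶ Q where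
  app a :=
    { app := fun k => ↾ fun x => φ.app a k (SimplexCategory.const k.unop (SimplexCategory.mk 0) 0) x
      naturality := fun k l α => by
        refine ConcreteCategory.hom_ext _ _ fun x => ?_
        exact φ.nat_right a α (SimplexCategory.const k.unop (SimplexCategory.mk 0) 0) x }
  naturality a b g := by
    refine NatTrans.ext (funext fun k => ?_)
    refine ConcreteCategory.hom_ext _ _ fun x => ?_
    exact φ.nat_left g k (SimplexCategory.const k.unop (SimplexCategory.mk 0) 0) x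

theorem toHom_ofHom {P Q : SP A} (f : P ⟶ Q) : toHom (MpS.ofHom (SimplexCategory.mk 0) f) = f := rfl

/-- A trivial fibration has a section. -/
theorem exists_section {E B : SSet.{0}} {p : E ⟶ B} (hp : TrivFib p) : ∃ s : B ⟶ E, s ≫ p = 𝟙 B := by
  have h1 := Pool.Agent.Helper45.FL2.TrivFib.lift hp (⊥ : B.Subcomplex).ι
  have sq : CommSq (SSet.Subcomplex.isInitialBot.to E) (⊥ : B.Subcomplex).ι p (𝟙 B) :=
    ⟨SSet.Subcomplex.isInitialBot.hom_ext _ _⟩
  exact ⟨sq.lift, sq.fac_right⟩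

theorem loc_extend (hX : InjFib X) {P Q : SP A} (i : P ⟶ Q) (hi : ∀ a, Mono (i.app a))
    (h : Loc X i) (g : P ⟶ X) : ∃ g' : Q ⟶ X, i ≫ g' = g := by
  obtain ⟨s, hs⟩ := exists_section ((loc_iff_trivFib hX i hi).1 h)
  have h1 : (MpS.ofHom (SimplexCategory.mk 0) i).comp
      (s.app (op (SimplexCategory.mk 0)) (MpS.ofHom (SimplexCategory.mk 0) g) :
        MpS Q X (SimplexCategory.mk 0)) = MpS.ofHom (SimplexCategory.mk 0) g :=
    ConcreteCategory.congr_hom (NatTrans.congr_app hs (op (SimplexCategory.mk 0)))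
      (MpS.ofHom (SimplexCategory.mk 0) g)
  exact ⟨toHom (s.app (op (SimplexCategory.mk 0)) (MpS.ofHom (SimplexCategory.mk 0) g) :
        MpS Q X (SimplexCategory.mk 0)), congrArg toHom h1⟩

end

end Pool.Agent.Helper45.LOC
end

/- Helper45.FL2.Loc3 -/
section
/-!
# FL2-G1 LOC, part 3: pushouts of local maps, the gluing lemma
-/

open CategoryTheory MonoidalCategory Opposite HomotopicalAlgebra Limits

set_option autoImplicit false

namespace Pool.Agent.Helper45.LOC

open FL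

section

variable {A : Type} [SmallCategory A] {X : SP A}

theorem isPushout_tn {P Q P' Q' : SP A} {i : P ⟶ Q} {u : P ⟶ P'} {v : Q ⟶ Q'} {i' : P' ⟶ Q'}
    (sq : IsPushout i u v i') (K : SSet.{0}) :
    IsPushout (tnMap i (𝟙 K)) (tnMap u (𝟙 K)) (tnMap v (𝟙 K)) (tnMap i' (𝟙 K)) := by
  have e : ∀ {R S : SP A} (f : R ⟶ S),
      ((Functor.whiskeringRight Aᵒᵖ SSet.{0} SSet.{0}).obj (tensorRight K)).map f = tnMap f (𝟙 K) := by
    intro R S f
    refine NatTrans.ext (funext fun a => ?_)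
    exact (tensorHom_id (f.app a) K).symm
  have h := sq.map ((Functor.whiskeringRight Aᵒᵖ SSet.{0} SSet.{0}).obj (tensorRight K))
  rw [e i, e u, e v, e i'] at h
  exact h

/-- Mapping spaces turn pushouts into pullbacks. -/
theorem isPullback_pre {P Q P' Q' : SP A} {i : P ⟶ Q} {u : P ⟶ P'} {v : Q ⟶ Q'} {i' : P' ⟶ Q'}
    (sq : IsPushout i u v i') (X : SP A) :
    IsPullback (Mp.pre v X) (Mp.pre i' X) (Mp.pre i X) (Mp.pre u X) := by
  have w : Mp.pre v X ≫ Mp.pre i X = Mp.pre i' X ≫ Mp.pre u X := by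
    rw [← pre_comp, ← pre_comp, sq.w]
  refine ⟨⟨w⟩, ⟨PullbackCone.IsLimit.mk w
    (fun s => Mp.adj.symm ((isPushout_tn sq s.pt).desc (Mp.adj s.fst) (Mp.adj s.snd) ?_)) ?_ ?_ ?_⟩⟩
  · exact congrArg Mp.adj s.condition
  · intro s
    refine Mp.adj.injective ?_
    refine (Mp.adj_pre v _).trans ?_
    rw [Equiv.apply_symm_apply]
    exact (isPushout_tn sq s.pt).inl_desc _ _ _
  · intro s
    refine Mp.adj.injective ?_
    refine (Mp.adj_pre i' _).trans ?_
    rw [Equiv.apply_symm_apply]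
    exact (isPushout_tn sq s.pt).inr_desc _ _ _
  · intro s m h1 h2
    refine Mp.adj.injective ?_
    rw [Equiv.apply_symm_apply]
    refine (isPushout_tn sq s.pt).hom_ext ?_ ?_
    · refine Eq.trans ?_ ((isPushout_tn sq s.pt).inl_desc _ _ _).symm
      exact (Mp.adj_pre v m).symm.trans (congrArg Mp.adj h1)
    · refine Eq.trans ?_ ((isPushout_tn sq s.pt).inr_desc _ _ _).symm
      exact (Mp.adj_pre i' m).symm.trans (congrArg Mp.adj h2)

/-- Base change of trivial fibrations. -/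
theorem trivFib_of_isPullback {E B E' B' : SSet.{0}} {f : E' ⟶ E} {p' : E' ⟶ B'} {p : E ⟶ B}
    {g : B' ⟶ B} (sq : IsPullback f p' p g) (hp : TrivFib p) : TrivFib p' := by
  intro n
  have := hp n
  constructor
  intro t b h
  have h2 : CommSq (t ≫ f) ((SSet.boundary n).ι) p (b ≫ g) :=
    ⟨by rw [Category.assoc, sq.w, ← Category.assoc, h.w, Category.assoc]⟩
  refine ⟨⟨⟨sq.lift h2.lift b h2.fac_right, ?_, sq.lift_snd _ _ _⟩⟩⟩
  refine sq.hom_ext ?_ ?_
  · rw [Category.assoc, sq.lift_fst, h2.fac_left]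
  · rw [Category.assoc, sq.lift_snd, h.w]

theorem loc_pushout (hX : InjFib X) {P Q P' Q' : SP A} {i : P ⟶ Q} {u : P ⟶ P'} {v : Q ⟶ Q'}
    {i' : P' ⟶ Q'} (sq : IsPushout i u v i') (hi : ∀ a, Mono (i.app a)) (h : Loc X i) :
    Loc X i' :=
  Pool.Agent.Helper45.FL2.TrivFib.hoEq
    (trivFib_of_isPullback (isPullback_pre sq X) ((loc_iff_trivFib hX i hi).1 h))

theorem isPullback_Fp {E E' B : SSet.{0}} (p : E ⟶ B) (q : E' ⟶ B) :
    IsPullback (Fp.fst p q) (Fp.snd p q) p q :=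
  ⟨⟨Pool.Agent.Helper54.FL2.Fp_w p q⟩, ⟨PullbackCone.IsLimit.mk _
    (fun s => Fp.lift s.fst s.snd s.condition)
    (fun s => Pool.Agent.Helper54.FL2.Fp_lift_fst s.fst s.snd s.condition)
    (fun s => Pool.Agent.Helper54.FL2.Fp_lift_snd s.fst s.snd s.condition)
    (fun s _ h1 h2 => Pool.Agent.Helper54.FL2.Fp_ext
      (h1.trans (Pool.Agent.Helper54.FL2.Fp_lift_fst s.fst s.snd s.condition).symm)
      (h2.trans (Pool.Agent.Helper54.FL2.Fp_lift_snd s.fst s.snd s.condition).symm))⟩⟩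

/-- The gluing lemma. -/
theorem loc_glue (hX : InjFib X) {P Q P' Q' P₁ Q₁ P₁' Q₁' : SP A}
    {i : P ⟶ Q} {u : P ⟶ P'} {v : Q ⟶ Q'} {i' : P' ⟶ Q'} (sq : IsPushout i u v i')
    {i₁ : P₁ ⟶ Q₁} {u₁ : P₁ ⟶ P₁'} {v₁ : Q₁ ⟶ Q₁'} {i₁' : P₁' ⟶ Q₁'}
    (sq₁ : IsPushout i₁ u₁ v₁ i₁') (hi : ∀ a, Mono (i.app a)) (hi₁ : ∀ a, Mono (i₁.app a))
    (p : P ⟶ P₁) (q : Q ⟶ Q₁) (p' : P' ⟶ P₁') (q' : Q' ⟶ Q₁')
    (h1 : i ≫ q = p ≫ i₁) (h2 : u ≫ p' = p ≫ u₁) (h3 : v ≫ q' = q ≫ v₁)
    (h4 : i' ≫ q' = p' ≫ i₁')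
    (hp : Loc X p) (hq : Loc X q) (hp' : Loc X p') : Loc X q' := by
  have w1 : Mp.pre p' X ≫ Mp.pre u X = Mp.pre u₁ X ≫ Mp.pre p X := by
    rw [← pre_comp, ← pre_comp, h2]
  have w2 : Mp.pre q X ≫ Mp.pre i X = Mp.pre i₁ X ≫ Mp.pre p X := by
    rw [← pre_comp, ← pre_comp, h1]
  have key := Pool.Agent.Helper54.FL2.Fp_map_hoEq (Pool.Agent.Helper83.FL4.Mp_kan P₁ hX)
    (Pool.Agent.Helper83.FL4.Mp_kan P hX) (Pool.Agent.Helper83.FL4.Mp_kan P₁' hX)
    (Pool.Agent.Helper83.FL4.Mp_kan P' hX) (Pool.Agent.Helper83.FL4.Mp_kan Q₁ hX)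
    (Pool.Agent.Helper83.FL4.Mp_kan Q hX) (Pool.Agent.Helper83.FL4.Mp_pre_kanFib i₁ hi₁ hX)
    (Pool.Agent.Helper83.FL4.Mp_pre_kanFib i hi hX) (Mp.pre p' X) (Mp.pre q X) (Mp.pre p X)
    w1 w2 hp' hq hp
  have pb := isPullback_pre sq X
  have pb₁ := isPullback_pre sq₁ X
  have pf := (isPullback_Fp (Mp.pre u X) (Mp.pre i X)).flip
  have pf₁ := (isPullback_Fp (Mp.pre u₁ X) (Mp.pre i₁ X)).flip
  refine Pool.Agent.Helper88.FL.hoEq_of_arrow_iso (pf₁.isoIsPullback _ _ pb₁)
    (pf.isoIsPullback _ _ pb) ?_ key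
  refine pb.hom_ext ?_ ?_
  · rw [Category.assoc, IsPullback.isoIsPullback_hom_fst, Category.assoc, ← pre_comp, h3, pre_comp,
      ← Category.assoc, IsPullback.isoIsPullback_hom_fst]
    rfl
  · rw [Category.assoc, IsPullback.isoIsPullback_hom_snd, Category.assoc, ← pre_comp, h4, pre_comp,
      ← Category.assoc, IsPullback.isoIsPullback_hom_snd]
    rfl

theorem loc_pushout' (hX : InjFib X) {P Q P' Q' : SP A} {i : P ⟶ Q} {u : P ⟶ P'} {v : Q ⟶ Q'}
    {i' : P' ⟶ Q'} (sq : IsPushout i u v i') (hi : ∀ a, Mono (i.app a)) (h : Loc X u) :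
    Loc X v := by
  have h0 : IsPushout i (𝟙 P) (𝟙 Q) i :=
    IsPushout.of_vert_isIso ⟨by rw [Category.comp_id, Category.id_comp]⟩
  exact loc_glue hX h0 sq hi hi (𝟙 P) (𝟙 Q) u v (by rw [Category.comp_id, Category.id_comp]) rfl rfl
    sq.w (loc_of_isIso _) (loc_of_isIso _) h

end

end Pool.Agent.Helper45.LOC
end

/- Helper82.FL2.VWEa -/
section
/-!
# FL2-H1 (first part): `V[m]` preserves objectwise weak equivalences
-/

open CategoryTheory MonoidalCategory Opposite HomotopicalAlgebra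

set_option autoImplicit false

namespace Pool.Agent.Helper82.FL2

open _root_.FL

section Basic

theorem isIso_of_bij {X Y : SSet.{0}} (f : X ⟶ Y) (h : ∀ k, Function.Bijective (f.app k)) :
    IsIso f := by
  have : ∀ k, IsIso (f.app k) := fun k => (isIso_iff_bijective _).mpr (h k)
  exact NatIso.isIso_of_isIso_app f

theorem mono_of_inj {X Y : SSet.{0}} (f : X ⟶ Y) (h : ∀ k, Function.Injective (f.app k)) :
    Mono f := by
  have : ∀ k, Mono (f.app k) := fun k => (mono_iff_injective _).mpr (h k)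
  exact NatTrans.mono_of_mono_app _

theorem inj_of_mono {X Y : SSet.{0}} (f : X ⟶ Y) [Mono f] (k : SimplexCategoryᵒᵖ) :
    Function.Injective (f.app k) := by
  rw [← mono_iff_injective]
  infer_instance

theorem we_of_isIso {X Y : SSet.{0}} (f : X ⟶ Y) [IsIso f] : WE f :=
  Helper85FL.we_of_hoEq ⟨inv f, Pool.Agent.Helper36.FL.htpy_of_eq (IsIso.hom_inv_id f),
    Pool.Agent.Helper36.FL.htpy_of_eq (IsIso.inv_hom_id f)⟩

theorem we_of_square {X Y X' Y' : SSet.{0}} {f : X ⟶ Y} {f' : X' ⟶ Y'} (a : X ⟶ X')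
    (b : Y ⟶ Y') [IsIso a] [IsIso b] (h : f ≫ b = a ≫ f') (hf : WE f) : WE f' := by
  have e : f' = inv a ≫ f ≫ b := by rw [h, IsIso.inv_hom_id_assoc]
  rw [e]
  exact Helper85FL.we_comp (we_of_isIso _) (Helper85FL.we_comp hf (we_of_isIso _))

theorem we_whiskerLeft (Z : SSet.{0}) {X Y : SSet.{0}} (i : X ⟶ Y) [Mono i] (h : WE i) :
    WE (Z ◁ i) := by
  have hm : Mono (Z ◁ i) := Pool.Agent.Helper45.FL2.mono_whiskerLeft Z i
  refine Helper85FL.we_of_lift_kan _ fun {E B} p hE hB hp => ?_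
  have h1 : HasLiftingProperty i ((ihom Z).map p) := by
    refine Helper85FL.lift_of_we i h _ (Helper85FL.kan_ihom Z hE) (Helper85FL.kan_ihom Z hB) ?_
    have := (Pool.Agent.Helper83.FL4.kanFib_iff p).1 hp
    rw [Pool.Agent.Helper83.FL4.kanFib_iff]
    infer_instance
  exact ((ihom.adjunction Z).hasLiftingProperty_iff i p).mpr h1

theorem we_whiskerRight {X Y : SSet.{0}} (i : X ⟶ Y) [Mono i] (h : WE i) (Z : SSet.{0}) :
    WE (i ▷ Z) := by
  refine we_of_square (β_ Z X).hom (β_ Z Y).hom ?_ (we_whiskerLeft Z i h)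
  exact BraidedCategory.braiding_naturality_right Z i

end Basic

section Prod

/-- The product of a family of simplicial sets. -/
def PiS {ι : Type} (X : ι → SSet.{0}) : SSet.{0} where
  obj k := ∀ i, (X i).obj k
  map α := ↾ fun x i => (X i).map α (x i)
  map_id k := by
    refine ConcreteCategory.hom_ext _ _ fun x => ?_
    exact funext fun i => sset_id _ (x i)
  map_comp α β := by
    refine ConcreteCategory.hom_ext _ _ fun x => ?_
    exact funext fun i => sset_comp _ α β (x i)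

/-- Functoriality of the product. -/
def PiS.map {ι : Type} {X Y : ι → SSet.{0}} (p : ∀ i, X i ⟶ Y i) : PiS X ⟶ PiS Y where
  app k := ↾ fun x i => (p i).app k (x i)
  naturality k l α := by
    refine ConcreteCategory.hom_ext _ _ fun x => ?_
    exact funext fun i => sset_nat (p i) α (x i)

theorem PiS.map_inj {ι : Type} {X Y : ι → SSet.{0}} (p : ∀ i, X i ⟶ Y i)
    (hp : ∀ i, Mono (p i)) (k : SimplexCategoryᵒᵖ) : Function.Injective ((PiS.map p).app k) := by
  intro x y h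
  funext i
  have := hp i
  exact inj_of_mono (p i) k (congrFun h i)

/-- Reindexing. -/
def PiS.re {ι κ : Type} (e : ι → κ) (X : κ → SSet.{0}) : PiS X ⟶ PiS (fun i => X (e i)) where
  app k := ↾ fun x i => x (e i)
  naturality _ _ _ := rfl

theorem PiS.re_isIso {ι κ : Type} (e : ι ≃ κ) (X : κ → SSet.{0}) : IsIso (PiS.re e X) := by
  refine isIso_of_bij _ fun k => ⟨?_, ?_⟩
  · intro x y h
    funext i
    obtain ⟨j, rfl⟩ := e.surjective i
    exact congrFun h j
  · intro y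
    refine ⟨(Equiv.piCongrLeft (fun i => (X i).obj k) e) y, ?_⟩
    funext i
    exact Equiv.piCongrLeft_apply_apply (fun i => (X i).obj k) e y i

/-- The product indexed by `Option ι`. -/
def PiS.opt {ι : Type} (X : Option ι → SSet.{0}) :
    PiS X ⟶ X none ⊗ PiS (fun i => X (some i)) where
  app k := ↾ fun x => (x none, fun i => x (some i))
  naturality _ _ _ := rfl

theorem PiS.opt_isIso {ι : Type} (X : Option ι → SSet.{0}) : IsIso (PiS.opt X) := by
  refine isIso_of_bij _ fun _ => ⟨?_, ?_⟩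
  · intro x y h
    funext i
    cases i with
    | none => exact congrArg Prod.fst h
    | some i => exact congrFun (congrArg Prod.snd h) i
  · rintro ⟨a, b⟩
    exact ⟨fun i => match i with
      | none => a
      | some i => b i, rfl⟩

theorem PiS.map_we {ι : Type} [Finite ι] : ∀ {X Y : ι → SSet.{0}} (p : ∀ i, X i ⟶ Y i),
    (∀ i, Mono (p i)) → (∀ i, WE (p i)) → WE (PiS.map p) := by
  induction ι using Finite.induction_empty_option with
  | of_equiv e h =>
    intro X Y p hm hp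
    have h1 := PiS.re_isIso e X
    have h2 := PiS.re_isIso e Y
    have h3 := h (fun i => p (e i)) (fun i => hm _) fun i => hp _
    refine we_of_square (inv (PiS.re e X)) (inv (PiS.re e Y)) ?_ h3
    rw [IsIso.eq_inv_comp, ← Category.assoc, IsIso.comp_inv_eq]
    rfl
  | h_empty =>
    intro X Y p hm hp
    have : IsIso (PiS.map p) := by
      refine isIso_of_bij _ fun _ => ⟨?_, ?_⟩
      · intro x y _
        funext i
        exact i.elim
      · intro y
        refine ⟨fun i => i.elim, ?_⟩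
        funext i
        exact i.elim
    exact we_of_isIso _
  | h_option h =>
    intro X Y p hm hp
    have h1 := PiS.opt_isIso X
    have h2 := PiS.opt_isIso Y
    have h3 := h (fun i => p (some i)) (fun i => hm _) fun i => hp _
    have h4 : WE (p none ⊗ₘ PiS.map fun i => p (some i)) := by
      have := hm none
      have : Mono (PiS.map fun i => p (some i)) :=
        mono_of_inj _ (PiS.map_inj _ fun i => hm _)
      rw [MonoidalCategory.tensorHom_def]
      exact Helper85FL.we_comp (we_whiskerRight _ (hp none) _) (we_whiskerLeft _ _ h3)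
    refine we_of_square (inv (PiS.opt X)) (inv (PiS.opt Y)) ?_ h4
    rw [IsIso.eq_inv_comp, ← Category.assoc, IsIso.comp_inv_eq]
    rfl

end Prod

section VWE

variable {C : Type} [SmallCategory C] {m : ℕ}

/-- The restriction of `V[m](p)` to the sub-presheaves attached to `K`. -/
noncomputable def vM {B B' : Fin m → SP C} (p : ∀ j, B j ⟶ B' j)
    (K : LowerSet (Finset (Fin (m + 1)))) : (vK B K).toSP ⟶ (vK B' K).toSP :=
  Sb.restr (V.map p) (vK B K) (vK B' K) fun _ _ _ h => h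

theorem vM_comp {B B' B'' : Fin m → SP C} (p : ∀ j, B j ⟶ B' j) (q : ∀ j, B' j ⟶ B'' j)
    (K : LowerSet (Finset (Fin (m + 1)))) :
    vM (fun j => p j ≫ q j) K = vM p K ≫ vM q K := rfl

theorem vM_sdr {B B' : Fin m → SP C} (p : ∀ j, B j ⟶ B' j) (hp : ∀ j, SDR (p j))
    (K : LowerSet (Finset (Fin (m + 1)))) : SDR (vM p K) := by
  choose s hs h h0 h1 using hp
  refine ⟨vM s K, ?_,
    { app := fun θ k t u => ⟨{ f := (u.1 : VS B θ.unop k).f
                               g := fun i j hh => (h j).app (op (θ.unop.obj i)) k t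
                                 ((u.1 : VS B θ.unop k).g i j hh) }, u.2⟩
      nat_left := fun {θ θ'} φ k t u => by
        refine Subtype.ext (VS.ext' rfl fun i j hh hh' => ?_)
        obtain ⟨r, hr, hr'⟩ := Jump.split (f := Wr.Hom.f φ.unop)
          (g := (u.1 : VS B θ.unop k).f) hh
        refine Eq.trans ?_ (VS.mapθ_g φ.unop ({ f := (u.1 : VS B θ.unop k).f
                                                g := fun i j hh =>
                                                  (h j).app (op (θ.unop.obj i)) k t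
                                                    ((u.1 : VS B θ.unop k).g i j hh) } :
          VS B θ.unop k) hr hr').symm
        refine Eq.trans ?_ ((h j).nat_left (Wr.Hom.g φ.unop i r hr).op k t _)
        exact congrArg ((h j).app (op (θ'.unop.obj i)) k t)
          (VS.mapθ_g φ.unop (u.1 : VS B θ.unop k) hr hr')
      nat_right := fun θ {k l} g t u => by
        refine Subtype.ext (VS.ext' rfl fun i j hh hh' => ?_)
        exact (h j).nat_right (op (θ.unop.obj i)) g t _ }, ?_, ?_⟩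
  · refine NatTrans.ext (funext fun θ => NatTrans.ext (funext fun k => ?_))
    refine ConcreteCategory.hom_ext _ _ fun u => ?_
    refine Subtype.ext (VS.ext' rfl fun i j hh hh' => ?_)
    exact ConcreteCategory.congr_hom (NatTrans.congr_app (NatTrans.congr_app (hs j)
      (op (θ.unop.obj i))) k) ((u.1 : VS B' θ.unop k).g i j hh)
  · refine MpS.ext ?_
    funext θ k t u
    refine Subtype.ext (VS.ext' rfl fun i j hh hh' => ?_)
    exact congrArg (fun z : MpS (B j) (B j) _ => z.app (op (θ.unop.obj i)) k t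
      ((u.1 : VS B θ.unop k).g i j hh)) (h0 j)
  · refine MpS.ext ?_
    funext θ k t u
    refine Subtype.ext (VS.ext' rfl fun i j hh hh' => ?_)
    exact congrArg (fun z : MpS (B j) (B j) _ => z.app (op (θ.unop.obj i)) k t
      ((u.1 : VS B θ.unop k).g i j hh)) (h1 j)

/-- The summands of `V[m](B)(θ)`. -/
def sm (B : Fin m → SP C) {θ : Wr C} (f : Fin (θ.len + 1) →o Fin (m + 1))
    (x : { x : Fin θ.len × Fin m // Jump f x.1 x.2 }) : SSet.{0} :=
  (B x.1.2).obj (op (θ.obj x.1.1))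

/-- The inclusion of a summand. -/
noncomputable def smIn (B : Fin m → SP C) (K : LowerSet (Finset (Fin (m + 1))))
    (θ : (Wr C)ᵒᵖ) (f : Fin (θ.unop.len + 1) →o Fin (m + 1)) (hf : Finset.univ.image f ∈ K) :
    PiS (sm B f) ⟶ (vK B K).toSP.obj θ where
  app k := ↾ fun x => ⟨{ f := f, g := fun i j h => x ⟨(i, j), h⟩ }, hf⟩
  naturality _ _ _ := rfl

/-- The maps of the factors of the summands. -/
def smP {B B' : Fin m → SP C} (p : ∀ j, B j ⟶ B' j) {θ : Wr C}
    (f : Fin (θ.len + 1) →o Fin (m + 1)) (x : { x : Fin θ.len × Fin m // Jump f x.1 x.2 }) :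
    sm B f x ⟶ sm B' f x :=
  (p x.1.2).app (op (θ.obj x.1.1))

theorem vM_we_mono {B B' : Fin m → SP C} (p : ∀ j, B j ⟶ B' j)
    (hm : ∀ j a, Mono ((p j).app a)) (hp : ∀ j a, WE ((p j).app a))
    (K : LowerSet (Finset (Fin (m + 1)))) (θ : (Wr C)ᵒᵖ) : WE ((vM p K).app θ) := by
  have hmono : Mono ((vM p K).app θ) := by
    refine mono_of_inj _ fun k => ?_
    rintro ⟨u, hu⟩ ⟨v, hv⟩ h
    have h1 : (u : VS B θ.unop k).push p = (v : VS B θ.unop k).push p := congrArg Subtype.val h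
    refine Subtype.ext ?_
    obtain ⟨f, g⟩ := u
    obtain ⟨f', g'⟩ := v
    have h2 : f = f' := congrArg VS.f h1
    subst h2
    refine VS.ext' rfl fun i j hh hh' => ?_
    injection h1 with _ h3
    have h4 := congrFun (congrFun (congrFun h3 i) j) hh
    have := hm j (op (θ.unop.obj i))
    exact inj_of_mono ((p j).app (op (θ.unop.obj i))) k h4
  refine Helper85FL.we_of_lift_kan _ fun {E D} q hE hD hq => ⟨fun {t b} sq => ?_⟩
  have key : ∀ (f : Fin (θ.unop.len + 1) →o Fin (m + 1)) (hf : Finset.univ.image f ∈ K),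
      ∃ l : PiS (sm B' f) ⟶ E,
        PiS.map (smP p f) ≫ l = smIn B K θ f hf ≫ t ∧ l ≫ q = smIn B' K θ f hf ≫ b := by
    intro f hf
    have h1 : WE (PiS.map (smP p f)) := PiS.map_we _ (fun x => hm _ _) fun x => hp _ _
    have h2 : Mono (PiS.map (smP p f)) := mono_of_inj _ (PiS.map_inj _ fun x => hm _ _)
    have h3 : HasLiftingProperty (PiS.map (smP p f)) q := Helper85FL.lift_of_we _ h1 q hE hD hq
    have sq' : CommSq (smIn B K θ f hf ≫ t) (PiS.map (smP p f)) q (smIn B' K θ f hf ≫ b) := by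
      refine ⟨?_⟩
      rw [Category.assoc, sq.w]
      rfl
    exact ⟨sq'.lift, sq'.fac_left, sq'.fac_right⟩
  choose l hl hl' using key
  refine ⟨⟨{ l := { app := fun k => ↾ fun u => (l (u.1 : VS B' θ.unop k).f u.2).app k
                      (fun x : { x : Fin θ.unop.len × Fin m //
                          Jump (u.1 : VS B' θ.unop k).f x.1 x.2 } =>
                        (u.1 : VS B' θ.unop k).g x.1.1 x.1.2 x.2)
                    naturality := fun k k' α => by
                      refine ConcreteCategory.hom_ext _ _ fun u => ?_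
                      exact sset_nat (l (u.1 : VS B' θ.unop k).f u.2) α
                        (fun x : { x : Fin θ.unop.len × Fin m //
                          Jump (u.1 : VS B' θ.unop k).f x.1 x.2 } =>
                        (u.1 : VS B' θ.unop k).g x.1.1 x.1.2 x.2) }
             fac_left := ?_
             fac_right := ?_ }⟩⟩
  · refine NatTrans.ext (funext fun k => ?_)
    refine ConcreteCategory.hom_ext _ _ fun u => ?_
    exact ConcreteCategory.congr_hom (NatTrans.congr_app (hl (u.1 : VS B θ.unop k).f u.2) k)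
      (fun x : { x : Fin θ.unop.len × Fin m // Jump (u.1 : VS B θ.unop k).f x.1 x.2 } =>
        (u.1 : VS B θ.unop k).g x.1.1 x.1.2 x.2)
  · refine NatTrans.ext (funext fun k => ?_)
    refine ConcreteCategory.hom_ext _ _ fun u => ?_
    exact ConcreteCategory.congr_hom (NatTrans.congr_app (hl' (u.1 : VS B' θ.unop k).f u.2) k)
      (fun x : { x : Fin θ.unop.len × Fin m // Jump (u.1 : VS B' θ.unop k).f x.1 x.2 } =>
        (u.1 : VS B' θ.unop k).g x.1.1 x.1.2 x.2)

theorem V_we {m : ℕ} {B B' : Fin m → SP C} (p : ∀ j, B j ⟶ B' j)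
    (hp : ∀ j a, WE ((p j).app a)) (K : LowerSet (Finset (Fin (m + 1)))) (a : (Wr C)ᵒᵖ) :
    WE ((Sb.restr (V.map p) (vK B K) (vK B' K) fun _ _ _ h => h).app a) := by
  have h0 := fun j => Pool.Agent.Helper36.FL.exists_cyl (p j)
  choose Y i r hir hi hr using h0
  have hwi : ∀ j b, WE ((i j).app b) := by
    intro j b
    refine Helper85FL.we_of_comp_right (g := (r j).app b)
      (Helper85FL.we_of_hoEq (Pool.Agent.Helper36.FL.SDR.app_hoEq (hr j) b)) ?_
    have h1 : (i j).app b ≫ (r j).app b = (p j).app b := by rw [← hir j]; rfl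
    rw [h1]
    exact hp j b
  have e : (Sb.restr (V.map p) (vK B K) (vK B' K) fun _ _ _ h => h) = vM i K ≫ vM r K := by
    rw [← vM_comp]
    have : p = fun j => i j ≫ r j := funext fun j => (hir j).symm
    subst this
    rfl
  rw [e]
  exact Helper85FL.we_comp (vM_we_mono i hi hwi K a)
    (Helper85FL.we_of_hoEq (Pool.Agent.Helper36.FL.SDR.app_hoEq (vM_sdr r hr K) a))

end VWE

end Pool.Agent.Helper82.FL2
end

/- Helper71.FL2.ConsA -/
section
/-!
# Project FL2, module D2 (CONS), part A: a criterion for equivalences in terms of path objects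
-/

open CategoryTheory MonoidalCategory CartesianMonoidalCategory Simplicial Opposite
  HomotopicalAlgebra Limits

set_option autoImplicit false

namespace Pool.Agent.Helper71.FL2

open _root_.FL SSet SSet.modelCategoryQuillen Pool.Agent.Helper45.FL2 Pool.Agent.Helper54.FL2

theorem kanFib_snd {X Y : SSet.{0}} (hX : SSet.KanComplex X) : KanFib (snd X Y) := by
  intro n i
  constructor
  intro u v sq
  obtain ⟨a, ha⟩ := KanComplex.hornFilling (u ≫ fst X Y)
  refine ⟨⟨{ l := lift a v, fac_left := ?_, fac_right := lift_snd _ _ }⟩⟩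
  refine CartesianMonoidalCategory.hom_ext _ _ ?_ ?_
  · rw [Category.assoc, lift_fst, ← ha]
  · rw [Category.assoc, lift_snd, sq.w]

theorem kanFib_fst {X Y : SSet.{0}} (hY : SSet.KanComplex Y) : KanFib (fst X Y) := by
  intro n i
  constructor
  intro u v sq
  obtain ⟨a, ha⟩ := KanComplex.hornFilling (u ≫ snd X Y)
  refine ⟨⟨{ l := lift v a, fac_left := ?_, fac_right := lift_fst _ _ }⟩⟩
  refine CartesianMonoidalCategory.hom_ext _ _ ?_ ?_
  · rw [Category.assoc, lift_fst, sq.w]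
  · rw [Category.assoc, lift_snd, ← ha]

theorem kan_prod {X Y : SSet.{0}} (hX : SSet.KanComplex X) (hY : SSet.KanComplex Y) :
    SSet.KanComplex (X ⊗ Y) := kan_total (kanFib_fst hY) hX

section

variable {X₀ Y₀ PX PY : SSet.{0}} (g : X₀ ⟶ Y₀) (eX : PX ⟶ X₀ ⊗ X₀) (eY : PY ⟶ Y₀ ⊗ Y₀)

/-- The end point map of the space of pairs `(x, path from g x)`. -/
def qq : Fp (eY ≫ fst Y₀ Y₀) g ⟶ Y₀ := Fp.fst (eY ≫ fst Y₀ Y₀) g ≫ eY ≫ snd Y₀ Y₀

theorem qq_kanFib (hX : SSet.KanComplex X₀) (heY : KanFib eY) : KanFib (qq g eY) := by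
  intro n i
  constructor
  intro u v sq
  obtain ⟨a, ha⟩ := KanComplex.hornFilling (u ≫ Fp.snd (eY ≫ fst Y₀ Y₀) g)
  have hw := Fp_w (eY ≫ fst Y₀ Y₀) g
  have sq' : CommSq (u ≫ Fp.fst (eY ≫ fst Y₀ Y₀) g) Λ[n + 1, i].ι eY (lift (a ≫ g) v) := ⟨by
    refine CartesianMonoidalCategory.hom_ext _ _ ?_ ?_
    · have h1 : (u ≫ Fp.fst (eY ≫ fst Y₀ Y₀) g) ≫ eY ≫ fst Y₀ Y₀ =
          (u ≫ Fp.snd (eY ≫ fst Y₀ Y₀) g) ≫ g := by
        rw [Category.assoc, hw, Category.assoc]
      simp only [Category.assoc] at h1 ⊢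
      rw [h1, lift_fst, ← Category.assoc u, ha, Category.assoc]
    · have h2 := sq.w
      rw [qq] at h2
      simp only [Category.assoc] at h2 ⊢
      rw [h2, lift_snd]⟩
  have := heY n i
  refine ⟨⟨{ l := Fp.lift sq'.lift a ?_, fac_left := ?_, fac_right := ?_ }⟩⟩
  · rw [← Category.assoc, sq'.fac_right, lift_fst]
  · refine Fp_ext ?_ ?_
    · rw [Category.assoc, Fp_lift_fst, sq'.fac_left]
    · rw [Category.assoc, Fp_lift_snd, ← ha]
  · rw [qq, ← Category.assoc, Fp_lift_fst, ← Category.assoc, sq'.fac_right, lift_snd]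

variable {g eX eY}

/-- A map `g : X₀ ⟶ Y₀` of Kan complexes is an equivalence if it is surjective on components and
cartesian over path objects. -/
theorem hoEq_of_paths (hX : SSet.KanComplex X₀) (hY : SSet.KanComplex Y₀) (t : PX ⟶ PY)
    (w : t ≫ eY = eX ≫ (g ⊗ₘ g)) (heX : KanFib eX) (heY : KanFib eY)
    (hX1 : HoEq (eX ≫ snd X₀ X₀)) (hY0 : HoEq (eY ≫ fst Y₀ Y₀))
    (hff : HoEq (Fp.lift t eX w : PX ⟶ Fp eY (g ⊗ₘ g)))
    (s : X₀ ⟶ PY) (hs : s ≫ eY = lift g g)
    (hsurj : ∀ y, ∃ x, Cn Y₀ (g.app _ x) y) : HoEq g := by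
  have hXX := kan_prod hX hX
  have hYY := kan_prod hY hY
  have hPX := kan_total heX hXX
  have hPY := kan_total heY hYY
  -- the fibration `(x, x', path from g x to g x') ↦ x'` is trivial
  have hQ : KanFib (Fp.snd eY (g ⊗ₘ g)) := Fp_snd_kanFib _ _ heY
  have hQk : SSet.KanComplex (Fp eY (g ⊗ₘ g)) := kan_total hQ hXX
  have hq' : TrivFib (Fp.snd eY (g ⊗ₘ g) ≫ snd X₀ X₀) := by
    refine trivFib_of_hoEq hQk hX (kanFib_comp hQ (kanFib_snd hX)) ?_
    refine Pool.Agent.Helper88.FL.hoEq_of_comp_left hPX hQk hX hff ?_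
    rw [← Category.assoc, Fp_lift_snd]
    exact hX1
  -- `q` is a trivial fibration
  have hq : TrivFib (qq g eY) := by
    refine trivFib_of_ctr' (qq_kanFib g eY hX heY) (Set.range (g.app _)) ?_ ?_
    · intro y
      obtain ⟨x, hx⟩ := hsurj y
      exact ⟨_, ⟨x, rfl⟩, hx⟩
    · rintro _ ⟨x, rfl⟩ n u hu
      have h0 : ((u ≫ Fp.fst (eY ≫ fst Y₀ Y₀) g)) ≫ eY =
          lift (u ≫ Fp.snd (eY ≫ fst Y₀ Y₀) g) (SSet.const x) ≫ (g ⊗ₘ g) := by
        refine CartesianMonoidalCategory.hom_ext _ _ ?_ ?_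
        · have hw := Fp_w (eY ≫ fst Y₀ Y₀) g
          simp only [Category.assoc]
          rw [hw, tensorHom_fst, ← Category.assoc (lift _ _), lift_fst, Category.assoc]
        · simp only [Category.assoc]
          rw [tensorHom_snd, ← Category.assoc (lift _ _), lift_snd, const_comp]
          rw [qq, comp_const] at hu
          exact hu
      have sq : CommSq (Fp.lift _ _ h0) ∂Δ[n].ι (Fp.snd eY (g ⊗ₘ g) ≫ snd X₀ X₀)
          (SSet.const x) := ⟨by
        rw [← Category.assoc, Fp_lift_snd, lift_snd, comp_const]⟩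
      have := hq' n
      have h1 := sq.fac_left
      have h2 := sq.fac_right
      generalize hl : sq.lift = l at h1 h2
      have h3 := Fp_w eY (g ⊗ₘ g)
      refine ⟨Fp.lift (l ≫ Fp.fst eY (g ⊗ₘ g)) (l ≫ Fp.snd eY (g ⊗ₘ g) ≫ fst X₀ X₀) ?_, ?_, ?_⟩
      · simp only [Category.assoc]
        rw [← tensorHom_fst, ← Category.assoc _ eY, h3, Category.assoc]
      · refine Fp_ext ?_ ?_
        · rw [Category.assoc, Fp_lift_fst, ← Category.assoc, h1, Fp_lift_fst]
        · rw [Category.assoc, Fp_lift_snd, ← Category.assoc, h1, ← Category.assoc, Fp_lift_snd,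
            lift_fst]
      · rw [qq, ← Category.assoc, Fp_lift_fst, Category.assoc, ← Category.assoc _ eY, h3,
          Category.assoc, tensorHom_snd, ← Category.assoc (Fp.snd _ _), ← Category.assoc l, h2,
          const_comp]
  -- the projection to `X₀`
  have hr : TrivFib (Fp.snd (eY ≫ fst Y₀ Y₀) g) :=
    Fp_snd_trivFib _ _ (trivFib_of_hoEq hPY hY (kanFib_comp heY (kanFib_fst hY)) hY0)
  have hM : SSet.KanComplex (Fp (eY ≫ fst Y₀ Y₀) g) := kan_total (TrivFib.kanFib hr) hX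
  have hs' : s ≫ eY ≫ fst Y₀ Y₀ = 𝟙 X₀ ≫ g := by
    rw [← Category.assoc, hs, lift_fst, Category.id_comp]
  have hσ : HoEq (Fp.lift s (𝟙 X₀) hs') := by
    refine Pool.Agent.Helper88.FL.hoEq_of_comp_right hX hM hX (TrivFib.hoEq hr) ?_
    rw [Fp_lift_snd]
    exact Pool.Agent.Helper88.FL.hoEq_of_isIso _
  have hg : Fp.lift s (𝟙 X₀) hs' ≫ qq g eY = g := by
    rw [qq, ← Category.assoc, Fp_lift_fst, ← Category.assoc, hs, lift_snd]
  rw [← hg]
  exact Pool.Agent.Helper88.FL.hoEq_comp hX hM hY hσ (TrivFib.hoEq hq)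

end

end Pool.Agent.Helper71.FL2
end

/- Helper71.FL2.ConsB -/
section
/-!
# Project FL2, module D2 (CONS), part B: the space of equivalences of a complete presheaf
-/

open CategoryTheory MonoidalCategory CartesianMonoidalCategory Simplicial Opposite

set_option autoImplicit false

namespace Pool.Agent.Helper71.FL2

open _root_.FL

variable {C : Type} [SmallCategory C]

/-- The constant maps. -/
noncomputable def cO (X : SP (Wr C)) : X.obj (op Wr.pt) ⟶ Mp (one (Wr C)) X where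
  app m := ↾ fun x =>
    ({ app := fun a k s _ => (X.map (Quiver.Hom.op (Wr.toPt a.unop))).app k
          ((X.obj (op Wr.pt)).map s.op x)
       nat_left := fun {a b} f k s _ => by
        refine Eq.trans ?_ (sp_comp X _ f _)
        exact congrArg (fun t => (X.map (Quiver.Hom.op t)).app k ((X.obj (op Wr.pt)).map s.op x))
          (Wr.toPt_unique _ _)
       nat_right := fun a {k l} g s _ => by
        refine Eq.trans ?_ (sp_nat X _ g _)
        exact congrArg _ (sset_comp _ s.op g x) } : MpS (one (Wr C)) X m.unop)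
  naturality m m' α := by
    refine ConcreteCategory.hom_ext _ _ fun x => ?_
    refine MpS.ext ?_
    funext a k s _
    exact congrArg _ (sset_comp _ α s.op x).symm

/-- Evaluation at the point. -/
noncomputable def eO (X : SP (Wr C)) : Mp (one (Wr C)) X ⟶ X.obj (op Wr.pt) where
  app m := ↾ fun (φ : MpS (one (Wr C)) X m.unop) => φ.app (op Wr.pt) m (𝟙 _) PUnit.unit
  naturality m m' α := by
    refine ConcreteCategory.hom_ext _ _ fun (φ : MpS (one (Wr C)) X m.unop) => ?_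
    refine Eq.trans ?_ (φ.nat_right (op Wr.pt) α (𝟙 _) PUnit.unit)
    show φ.app (op Wr.pt) m' (𝟙 _ ≫ α.unop) _ = φ.app (op Wr.pt) m' (α.unop ≫ 𝟙 _) _
    rw [Category.comp_id, Category.id_comp]
    rfl

theorem cO_eO (X : SP (Wr C)) : cO X ≫ eO X = 𝟙 _ := by
  refine NatTrans.ext (funext fun m => ?_)
  refine ConcreteCategory.hom_ext _ _ fun x => ?_
  show (X.map (Quiver.Hom.op (Wr.toPt Wr.pt))).app m ((X.obj (op Wr.pt)).map (𝟙 m) x) = x
  rw [sset_id, Wr.toPt_unique (Wr.toPt (Wr.pt : Wr C)) (𝟙 _)]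
  exact sp_id X x

theorem eO_cO (X : SP (Wr C)) : eO X ≫ cO X = 𝟙 _ := by
  refine NatTrans.ext (funext fun m => ?_)
  refine ConcreteCategory.hom_ext _ _ fun (φ : MpS (one (Wr C)) X m.unop) => ?_
  refine MpS.ext ?_
  funext a k s u
  show (X.map (Quiver.Hom.op (Wr.toPt a.unop))).app k
    ((X.obj (op Wr.pt)).map s.op (φ.app (op Wr.pt) m (𝟙 _) PUnit.unit)) = φ.app a k s u
  rw [← φ.nat_right (op Wr.pt) s.op (𝟙 _) PUnit.unit, ← φ.nat_left]
  show φ.app a k (s ≫ 𝟙 _) PUnit.unit = φ.app a k s u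
  rw [Category.comp_id]
  rfl

theorem cO_hoEq (X : SP (Wr C)) : HoEq (cO X) := by
  have : IsIso (cO X) := ⟨eO X, cO_eO X, eO_cO X⟩
  exact Pool.Agent.Helper88.FL.hoEq_of_isIso _

/-- The constant equivalences. -/
noncomputable def cE (X : SP (Wr C)) : X.obj (op Wr.pt) ⟶ Mp (disc (isoPsh C)) X :=
  cO X ≫ Mp.pre (isoMap C) X

theorem cE_evE (X : SP (Wr C)) : cE X ≫ evE X = lift (𝟙 _) (𝟙 _) := by
  refine NatTrans.ext (funext fun m => ?_)
  refine ConcreteCategory.hom_ext _ _ fun x => ?_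
  have key : (X.map (Quiver.Hom.op (Wr.toPt Wr.pt))).app m ((X.obj (op Wr.pt)).map (𝟙 m) x) = x := by
    rw [sset_id, Wr.toPt_unique (Wr.toPt (Wr.pt : Wr C)) (𝟙 _)]
    exact sp_id X x
  exact Prod.ext key key

theorem cE_hoEq {X : SP (Wr C)} (hX : InjFib X) (h : Loc X (isoMap C)) : HoEq (cE X) :=
  Pool.Agent.Helper88.FL.hoEq_comp
    (Pool.Agent.Helper46.FLb.InjFib.objKan (fun P _ => Pool.Agent.Helper83.FL4.Mp_kan P) hX _)
    (Pool.Agent.Helper83.FL4.Mp_kan _ hX) (Pool.Agent.Helper83.FL4.Mp_kan _ hX) (cO_hoEq X) h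

theorem ev_hoEq {X : SP (Wr C)} (hX : InjFib X) (h : Loc X (isoMap C)) :
    HoEq (evE X ≫ fst _ _) ∧ HoEq (evE X ≫ snd _ _) := by
  have hK := Pool.Agent.Helper46.FLb.InjFib.objKan (fun P _ => Pool.Agent.Helper83.FL4.Mp_kan P) hX
    (op Wr.pt)
  have hM := Pool.Agent.Helper83.FL4.Mp_kan (disc (isoPsh C)) hX
  constructor
  · refine Pool.Agent.Helper88.FL.hoEq_of_comp_left hK hM hK (cE_hoEq hX h) ?_
    rw [← Category.assoc, cE_evE, lift_fst]
    exact Pool.Agent.Helper88.FL.hoEq_of_isIso _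
  · refine Pool.Agent.Helper88.FL.hoEq_of_comp_left hK hM hK (cE_hoEq hX h) ?_
    rw [← Category.assoc, cE_evE, lift_snd]
    exact Pool.Agent.Helper88.FL.hoEq_of_isIso _

/-- A fully faithful map of complete presheaves which is surjective on components of the spaces of
objects is an equivalence on the spaces of objects. -/
theorem hoEq_pt {X Y : SP (Wr C)} (hX : InjFib X) (hY : InjFib Y) (hX' : Loc X (isoMap C))
    (hY' : Loc Y (isoMap C)) (f : X ⟶ Y) (heX : KanFib (evE X)) (heY : KanFib (evE Y))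
    (hff : HoEq (Fp.lift (Mp.post (disc (isoPsh C)) f) (evE X) (evE_post f) :
      Mp (disc (isoPsh C)) X ⟶ Fp (evE Y) (f.app (op Wr.pt) ⊗ₘ f.app (op Wr.pt))))
    (hsurj : ∀ y : Vt Y, ∃ x : Vt X, Cn (Y.obj (op Wr.pt)) (vtMap f x) y) :
    HoEq (f.app (op Wr.pt)) := by
  have hKX := Pool.Agent.Helper46.FLb.InjFib.objKan (fun P _ => Pool.Agent.Helper83.FL4.Mp_kan P)
    hX (op Wr.pt)
  have hKY := Pool.Agent.Helper46.FLb.InjFib.objKan (fun P _ => Pool.Agent.Helper83.FL4.Mp_kan P)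
    hY (op Wr.pt)
  refine hoEq_of_paths hKX hKY _ (evE_post f) heX heY (ev_hoEq hX hX').2 (ev_hoEq hY hY').1 hff
    (f.app (op Wr.pt) ≫ cE Y) ?_ hsurj
  rw [Category.assoc, cE_evE]
  refine CartesianMonoidalCategory.hom_ext _ _ ?_ ?_
  · rw [Category.assoc, lift_fst, lift_fst, Category.comp_id]
  · rw [Category.assoc, lift_snd, lift_snd, Category.comp_id]

end Pool.Agent.Helper71.FL2
end
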