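import Mathlib
import Pool.Agent.Helper16.FDG.G01
import Pool.Agent.Helper16.FDG.G03
import Pool.Agent.Helper16.FDG.G05
import Pool.Agent.Helper16.FDG.G06

/- Helper61.FL14 -/
section
/-! FL-14: mapping spaces and homotopy colimits. -/

open CategoryTheory MonoidalCategory Opposite

set_option autoImplicit false

namespace Helper61FL

open FL

variable {A J : Type} [SmallCategory A] [SmallCategory J]

section

variable {p : J ⥤ SP A} {Z : SP A}

/-- The simplex of `Map(p(j), Z)` attached by a simplex of `Map(hocolim p, Z)` to a simplex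
of `N(j/J)`. -/
def coneM {k : SimplexCategory} (ψ : MpS (Hoco p) Z k) {j : J} {l : SimplexCategory}
    (s : l ⟶ k) (w : WS j l) : MpS (p.obj j) Z l where
  app a m t y := ψ.app a m (t ≫ s)
    ⟨w.σ.res t, ((p.map (w.u ≫ w.σ.zeroTo t)).app a).app m y⟩
  nat_left f m t y := by
    refine (congrArg _ (congrArg (HS.mk (w.σ.res t)) (hom_nat _ f y))).trans ?_
    exact ψ.nat_left f m (t ≫ s) ⟨w.σ.res t, _⟩
  nat_right a m m' g t y := by
    refine Eq.trans ?_ (ψ.nat_right a g (t ≫ s)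
      ⟨w.σ.res t, ((p.map (w.u ≫ w.σ.zeroTo t)).app a).app m y⟩)
    refine (congrArg (fun r => ψ.app a m' r _) (Category.assoc g.unop t s)).trans ?_
    refine congrArg (ψ.app a m' (g.unop ≫ t ≫ s)) ?_
    refine congrArg (HS.mk (w.σ.res (g.unop ≫ t))) ?_
    refine Eq.trans ?_ (congrArg (((p.map ((w.σ.res t).zeroTo g.unop)).app a).app m')
      (hom_natk (p.map (w.u ≫ w.σ.zeroTo t)) g y))
    refine Eq.trans ?_ (diag_comp p (w.u ≫ w.σ.zeroTo t) ((w.σ.res t).zeroTo g.unop) _)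
    refine congrArg (fun f => ((p.map f).app a).app m' _) ?_
    refine Eq.trans ?_ (Category.assoc _ _ _).symm
    exact congrArg (w.u ≫ ·) (w.σ.map_comp _ _ _ _ _).symm

/-- The forward map on simplices. -/
def fwd {k : SimplexCategory} (ψ : MpS (Hoco p) Z k) : MpS (W J) (mpDiag p Z) k where
  app j l s w := coneM ψ s (w : WS j.unop l.unop)
  nat_left {j j'} f l s w := by
    refine MpS.ext ?_
    funext a m t y
    refine congrArg (ψ.app a m (t ≫ s)) (congrArg (HS.mk (Chain.res (WS.σ w) t)) ?_)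
    refine Eq.trans ?_ (diag_comp p f.unop (WS.u w ≫ Chain.zeroTo (WS.σ w) t) y)
    exact congrArg (fun f => ((p.map f).app a).app m y)
      (Category.assoc f.unop (WS.u w) (Chain.zeroTo (WS.σ w) t))
  nat_right j l l' g s w := by
    refine MpS.ext ?_
    funext a m t y
    refine (congrArg (fun r => ψ.app a m r _) (Category.assoc t g.unop s).symm).trans ?_
    refine congrArg (ψ.app a m ((t ≫ g.unop) ≫ s))
      (congrArg (HS.mk (Chain.res (WS.σ w) (t ≫ g.unop))) ?_)
    refine congrArg (fun f => ((p.map f).app a).app m y) ?_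
    refine (Category.assoc (WS.u w) (Chain.zeroTo (WS.σ w) g.unop) _).trans ?_
    exact congrArg (WS.u w ≫ ·) ((WS.σ w).map_comp _ _ _ _ _)

theorem Phi_left {k : SimplexCategory} (Φ : MpS (W J) (mpDiag p Z) k) {j j' : J} (u : j ⟶ j')
    (l : SimplexCategoryᵒᵖ) (s : l.unop ⟶ k) (w : WS j' l.unop) :
    (Φ.app (op j) l s (⟨w.σ, u ≫ w.u⟩ : WS j l.unop) : MpS (p.obj j) Z l.unop) =
      (MpS.ofHom l.unop (p.map u)).comp (Φ.app (op j') l s w) :=
  Φ.nat_left u.op l s w

theorem Phi_right {k : SimplexCategory} (Φ : MpS (W J) (mpDiag p Z) k) {j : J}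
    {l l' : SimplexCategoryᵒᵖ} (g : l ⟶ l') (s : l.unop ⟶ k) (w : WS j l.unop) :
    (Φ.app (op j) l' (g.unop ≫ s) (w.res g.unop) : MpS (p.obj j) Z l'.unop) =
      MpS.res g.unop (Φ.app (op j) l s w) :=
  Φ.nat_right (op j) g s w

/-- The backward map on simplices. -/
def bwd {k : SimplexCategory} (Φ : MpS (W J) (mpDiag p Z) k) : MpS (Hoco p) Z k where
  app a m s w := (Φ.app (op (HS.σ w |>.obj 0)) m s (⟨HS.σ w, 𝟙 _⟩ : WS _ m.unop) :
    MpS (p.obj ((HS.σ w).obj 0)) Z m.unop).app a m (𝟙 _) (HS.x w)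
  nat_left f m s w := MpS.nat_left (Φ.app (op (HS.σ w |>.obj 0)) m s
    (⟨HS.σ w, 𝟙 _⟩ : WS _ m.unop) : MpS (p.obj ((HS.σ w).obj 0)) Z m.unop) f m (𝟙 _) (HS.x w)
  nat_right a m l g s w := by
    obtain ⟨σ, y⟩ := w
    have h1 := MpS.nat_right (Φ.app (op (σ.obj 0)) m s (⟨σ, 𝟙 _⟩ : WS _ m.unop) :
      MpS (p.obj (σ.obj 0)) Z m.unop) a g (𝟙 _) y
    refine Eq.trans ?_ h1
    have h2 := Phi_right Φ g s (⟨σ, 𝟙 _⟩ : WS (σ.obj 0) m.unop)
    have h3 := Phi_left Φ (σ.zeroTo g.unop) l (g.unop ≫ s)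
      (⟨σ.res g.unop, 𝟙 _⟩ : WS ((σ.res g.unop).obj 0) l.unop)
    have h4 : (WS.res (⟨σ, 𝟙 _⟩ : WS (σ.obj 0) m.unop) g.unop) =
        ⟨σ.res g.unop, σ.zeroTo g.unop ≫ 𝟙 _⟩ :=
      congrArg (WS.mk (σ.res g.unop)) ((Category.id_comp _).trans (Category.comp_id _).symm)
    have h5 : (MpS.res g.unop (Φ.app (op (σ.obj 0)) m s (⟨σ, 𝟙 _⟩ : WS _ m.unop) :
        MpS (p.obj (σ.obj 0)) Z m.unop)) = (MpS.ofHom l.unop (p.map (σ.zeroTo g.unop))).comp
          (Φ.app (op ((σ.res g.unop).obj 0)) l (g.unop ≫ s)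
            (⟨σ.res g.unop, 𝟙 _⟩ : WS ((σ.res g.unop).obj 0) l.unop)) :=
      h2.symm.trans ((congrArg (Φ.app (op (σ.obj 0)) l (g.unop ≫ s)) h4).trans h3)
    have h6 := congrArg (fun χ : MpS (p.obj (σ.obj 0)) Z l.unop =>
      χ.app a l (𝟙 _) (((p.obj (σ.obj 0)).obj a).map g y)) h5
    refine Eq.trans h6.symm ?_
    refine congrArg (fun r => (Φ.app (op (σ.obj 0)) m s (⟨σ, 𝟙 _⟩ : WS _ m.unop) :
        MpS (p.obj (σ.obj 0)) Z m.unop).app a l r (((p.obj (σ.obj 0)).obj a).map g y)) ?_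
    exact (Category.id_comp _).trans (Category.comp_id _).symm

theorem bwd_fwd {k : SimplexCategory} (ψ : MpS (Hoco p) Z k) : bwd (fwd ψ) = ψ := by
  refine MpS.ext ?_
  funext a m s w
  obtain ⟨σ, y⟩ := w
  refine (congrArg (fun r => ψ.app a m r _) (Category.id_comp s)).trans ?_
  refine congrArg (ψ.app a m s) (congrArg (HS.mk σ) ?_)
  refine Eq.trans ?_ (diag_id p y)
  refine congrArg (fun f => ((p.map f).app a).app m y) ?_
  exact (Category.id_comp _).trans (σ.map_id 0)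

theorem fwd_bwd {k : SimplexCategory} (Φ : MpS (W J) (mpDiag p Z) k) : fwd (bwd Φ) = Φ := by
  refine MpS.ext ?_
  funext j l s w
  refine MpS.ext ?_
  funext a m t y
  obtain ⟨j⟩ := j
  obtain ⟨σ, u⟩ := w
  have h3 := Phi_left Φ (u ≫ σ.zeroTo t) m (t ≫ s)
    (⟨σ.res t, 𝟙 _⟩ : WS ((σ.res t).obj 0) m.unop)
  have h2 := Phi_right Φ t.op s (⟨σ, u⟩ : WS j l.unop)
  have h4 : (WS.res (⟨σ, u⟩ : WS j l.unop) t) =
      ⟨σ.res t, (u ≫ σ.zeroTo t) ≫ 𝟙 _⟩ :=
    congrArg (WS.mk (σ.res t)) (Category.comp_id _).symm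
  have h5 := h2.symm.trans ((congrArg (Φ.app (op j) m (t ≫ s)) h4).trans h3)
  have h6 := congrArg (fun χ : MpS (p.obj j) Z m.unop => χ.app a m (𝟙 _) y) h5
  refine Eq.trans h6.symm ?_
  exact congrArg (fun r => (Φ.app (op j) l s (⟨σ, u⟩ : WS j l.unop) :
      MpS (p.obj j) Z l.unop).app a m r y) (Category.id_comp _)

end

/-- `Map(hocolim p, Z) = holim Map(p(j), Z)`; the isomorphism sends `ψ` to the family
`(w, s, y) ↦ ψ(w_0|s, y transported to p(j_0))`. -/
theorem exists_holimIso (p : J ⥤ SP A) (Z : SP A) :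
    ∃ e : Mp (Hoco p) Z ≅ Holim (mpDiag p Z),
      ∀ (k : SimplexCategoryᵒᵖ) (ψ : MpS (Hoco p) Z k.unop) (j : Jᵒᵖ) (l : SimplexCategoryᵒᵖ)
        (s : l.unop ⟶ k.unop) (w : WS j.unop l.unop) (a : Aᵒᵖ) (m : SimplexCategoryᵒᵖ)
        (t : m.unop ⟶ l.unop) (y : ((p.obj j.unop).obj a).obj m),
        ((e.hom.app k ψ : MpS (W J) (mpDiag p Z) k.unop).app j l s w :
          MpS (p.obj j.unop) Z l.unop).app a m t y =
        ψ.app a m (t ≫ s) ⟨w.σ.res t, ((p.map (w.u ≫ w.σ.zeroTo t)).app a).app m y⟩ := by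
  let f : Mp (Hoco p) Z ⟶ Holim (mpDiag p Z) :=
    { app := fun k => ↾ fun (ψ : MpS (Hoco p) Z k.unop) => fwd ψ
      naturality := fun k k' α => by
        ext ψ
        refine MpS.ext ?_
        funext j l s w
        refine MpS.ext ?_
        funext a m t y
        exact congrArg (fun r => MpS.app ψ a m r _) (Category.assoc t s α.unop) }
  let g : Holim (mpDiag p Z) ⟶ Mp (Hoco p) Z :=
    { app := fun k => ↾ fun (Φ : MpS (W J) (mpDiag p Z) k.unop) => bwd Φ
      naturality := fun k k' α => by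
        ext Φ
        refine MpS.ext ?_
        funext a m s w
        rfl }
  refine ⟨⟨f, g, ?_, ?_⟩, ?_⟩
  · ext k ψ
    exact bwd_fwd ψ
  · ext k Φ
    exact fwd_bwd Φ
  · intro k ψ j l s w a m t y
    rfl

end Helper61FL
end

/- Helper91.FL2.Path -/
section
/-!
# FL2, module G6 WH, second part: injective fibrations and path objects
-/

open CategoryTheory MonoidalCategory Simplicial Opposite

set_option autoImplicit false

namespace Pool.Agent.Helper91.FL2

open _root_.FL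
open Pool.Agent.Helper83.FL4 (deps exists_ext exists_rel_ext PPι_trivCof PPι_trivCof_of_anodyne
  horn_anodyne Mp_kan kan_of_kanFib)
open Pool.Agent.Helper36.FL (sdr_zero sdr_one)

variable {A : Type} [SmallCategory A]

/-! ### Injective trivial fibrations -/

theorem InjTrivFibration.injFibration {X Y : SP A} {f : X ⟶ Y} (hf : InjTrivFibration f) :
    InjFibration f := fun _ _ i hi => hf i hi.1

theorem tnMap_mono (X : SP A) {K L : SSet.{0}} (j : K ⟶ L) [Mono j] (a : Aᵒᵖ) :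
    Mono ((tnMap (𝟙 X) j).app a) := by
  have h : ∀ k, Mono (((tnMap (𝟙 X) j).app a).app k) := fun k => by
    refine (mono_iff_injective _).2 ?_
    rintro ⟨x, y⟩ ⟨x', y'⟩ h
    have h1 : x = x' := congrArg Prod.fst h
    have h2 : j.app k y = j.app k y' := congrArg Prod.snd h
    rw [h1, Pool.Agent.Helper83.FL4.j_inj j h2]
  exact NatTrans.mono_of_mono_app _

open Pool.Agent.Helper46.FLb (yoIn yoOut yoIn_yoOut) in
theorem InjTrivFibration.app_trivFib {X Y : SP A} {f : X ⟶ Y} (hf : InjTrivFibration f)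
    (a : Aᵒᵖ) : TrivFib (f.app a) := by
  intro n
  refine ⟨fun {t b} sq => ?_⟩
  have h := hf (tnMap (𝟙 (rep a.unop)) (∂Δ[n].ι : (∂Δ[n] : SSet.{0}) ⟶ Δ[n]))
    (fun a => tnMap_mono _ _ a)
  have sq' : CommSq (Mp.adj (t ≫ yoIn X a)) (tnMap (𝟙 (rep a.unop))
      (∂Δ[n].ι : (∂Δ[n] : SSet.{0}) ⟶ Δ[n])) f (Mp.adj (b ≫ yoIn Y a)) := ⟨by
    have e : yoIn X a ≫ Mp.post (rep a.unop) f = f.app a ≫ yoIn Y a := by
      ext k x
      refine MpS.ext ?_
      funext c l s u
      show (f.app c).app l ((X.map _).app l ((X.obj a).map s.op x)) =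
        (Y.map _).app l ((Y.obj a).map s.op ((f.app a).app k x))
      refine (hom_nat f _ _).trans ?_
      exact congrArg ((Y.map _).app l) (hom_natk f s.op x)
    have e2 : (t ≫ yoIn X a) ≫ Mp.post (rep a.unop) f = ∂Δ[n].ι ≫ b ≫ yoIn Y a := by
      rw [Category.assoc, e, ← Category.assoc, sq.w, Category.assoc]
    exact congrArg Mp.adj e2⟩
  refine ⟨⟨{ l := Mp.adj.symm sq'.lift ≫ yoOut X a, fac_left := ?_, fac_right := ?_ }⟩⟩
  · have h1 : ∂Δ[n].ι ≫ Mp.adj.symm sq'.lift = t ≫ yoIn X a := by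
      apply Mp.adj.injective
      exact (Mp.adj_comp _ (Mp.adj.symm sq'.lift)).trans
        ((congrArg (tnMap (𝟙 _) ∂Δ[n].ι ≫ ·) (Mp.adj.apply_symm_apply sq'.lift)).trans
          sq'.fac_left)
    rw [← Category.assoc, h1, Category.assoc, yoIn_yoOut, Category.comp_id]
  · have h1 : Mp.adj.symm sq'.lift ≫ Mp.post (rep a.unop) f = b ≫ yoIn Y a := by
      apply Mp.adj.injective
      exact (Mp.adj_post f (Mp.adj.symm sq'.lift)).trans
        ((congrArg (· ≫ f) (Mp.adj.apply_symm_apply sq'.lift)).trans sq'.fac_right)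
    have h2 : yoOut X a ≫ f.app a = Mp.post (rep a.unop) f ≫ yoOut Y a := rfl
    rw [Category.assoc, h2, ← Category.assoc, h1, Category.assoc, yoIn_yoOut, Category.comp_id]

theorem InjTrivFibration.objHoEq {X Y : SP A} {f : X ⟶ Y} (hf : InjTrivFibration f) :
    ObjHoEq f := fun a =>
  Pool.Agent.Helper45.FL2.TrivFib.hoEq (InjTrivFibration.app_trivFib hf a)

/-- The strict map given by a vertex of the mapping space. -/
def toHom {X Y : SP A} (φ : MpS X Y ⦋0⦌) : X ⟶ Y where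
  app a :=
    { app := fun k => ↾ fun x => φ.app a k (SimplexCategory.const k.unop ⦋0⦌ 0) x
      naturality := fun k l α => by
        ext x
        exact φ.nat_right a α (SimplexCategory.const k.unop ⦋0⦌ 0) x }
  naturality a b g := by
    ext k x
    exact φ.nat_left g k _ x

theorem toHom_ofHom {X Y : SP A} (f : X ⟶ Y) : toHom (MpS.ofHom ⦋0⦌ f) = f := rfl

/-- An injective fibration between injectively fibrant objects which is an objectwise
equivalence is a trivial injective fibration. -/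
theorem injTrivFibration_of {X Y : SP A} {f : X ⟶ Y} (hX : InjFib X) (hY : InjFib Y)
    (hf : InjFibration f) (h : ObjHoEq f) : InjTrivFibration f := by
  intro K L i hi
  let φ : Mp L X ⟶ Limits.pullback (Mp.post K f) (Mp.pre i Y) :=
    Limits.pullback.lift (Mp.pre i X) (Mp.post L f) rfl
  have hφ1 : φ ≫ Limits.pullback.fst _ _ = Mp.pre i X := Limits.pullback.lift_fst _ _ _
  have hφ2 : φ ≫ Limits.pullback.snd _ _ = Mp.post L f := Limits.pullback.lift_snd _ _ _
  have kKX : SSet.KanComplex (Mp K X) := Mp_kan K hX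
  have kKY : SSet.KanComplex (Mp K Y) := Mp_kan K hY
  have kLX : SSet.KanComplex (Mp L X) := Mp_kan L hX
  have kLY : SSet.KanComplex (Mp L Y) := Mp_kan L hY
  have h1 : TrivFib (Mp.post K f) := Pool.Agent.Helper45.FL2.trivFib_of_hoEq kKX kKY
    (Pool.Agent.Helper83.FL4.Mp_post_kanFib K f hf) (post_hoEq hX hY h K)
  have h2 : TrivFib (Limits.pullback.snd (Mp.post K f) (Mp.pre i Y)) := fun n => by
    have := h1 n
    infer_instance
  have kP : SSet.KanComplex (Limits.pullback (Mp.post K f) (Mp.pre i Y)) :=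
    kan_of_kanFib (Pool.Agent.Helper45.FL2.TrivFib.kanFib h2) kLY
  have h3 : HoEq φ := by
    refine Pool.Agent.Helper88.FL.hoEq_of_comp_right kLX kP kLY
      (Pool.Agent.Helper45.FL2.TrivFib.hoEq h2) ?_
    rw [hφ2]
    exact post_hoEq hX hY h L
  have key : ∀ {S T : SSet.{0}} (j : S ⟶ T) [Mono j] (u : S ⟶ Mp L X)
      (g : T ⟶ Limits.pullback (Mp.post K f) (Mp.pre i Y)),
      u ≫ φ = j ≫ g → (tnMap (𝟙 K) j ≫ Mp.adj (g ≫ Limits.pullback.fst _ _) =
        tnMap i (𝟙 S) ≫ Mp.adj u ∧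
        Mp.adj (g ≫ Limits.pullback.fst _ _) ≫ f =
          tnMap i (𝟙 T) ≫ Mp.adj (g ≫ Limits.pullback.snd _ _) ∧
        Mp.adj u ≫ f = tnMap (𝟙 L) j ≫ Mp.adj (g ≫ Limits.pullback.snd _ _)) := by
    intro S T j _ u g hfg
    refine ⟨?_, ?_, ?_⟩
    · have := congrArg (fun t => Mp.adj (t ≫ Limits.pullback.fst _ _)) hfg
      simp only [Category.assoc, hφ1] at this
      exact this.symm
    · have := congrArg (fun t => Mp.adj (g ≫ t))
        (Limits.pullback.condition (f := Mp.post K f) (g := Mp.pre i Y))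
      simp only [← Category.assoc] at this
      exact this
    · have := congrArg (fun t => Mp.adj (t ≫ Limits.pullback.snd _ _)) hfg
      simp only [Category.assoc, hφ2] at this
      exact this
  have h4 : KanFib φ := by
    intro n k
    refine ⟨fun {u g} sq => ?_⟩
    obtain ⟨k1, k2, k3⟩ := key _ u g sq.w
    obtain ⟨l, hl1, hl2, hl3⟩ := exists_rel_ext i hi _
      (PPι_trivCof_of_anodyne deps i _ (horn_anodyne n k)) f hf _ _ _ k1 k2 k3
    refine ⟨⟨{ l := Mp.adj.symm l, fac_left := ?_, fac_right := ?_ }⟩⟩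
    · apply Mp.adj.injective
      exact (Mp.adj_comp _ (Mp.adj.symm l)).trans
        ((congrArg (tnMap (𝟙 L) Λ[n + 1, k].ι ≫ ·) (Mp.adj.apply_symm_apply l)).trans hl2)
    · apply Limits.pullback.hom_ext
      · rw [Category.assoc, hφ1]
        apply Mp.adj.injective
        exact (Mp.adj_pre i (Mp.adj.symm l)).trans
          ((congrArg (tnMap i (𝟙 _) ≫ ·) (Mp.adj.apply_symm_apply l)).trans hl1)
      · rw [Category.assoc, hφ2]
        apply Mp.adj.injective
        exact (Mp.adj_post f (Mp.adj.symm l)).trans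
          ((congrArg (· ≫ f) (Mp.adj.apply_symm_apply l)).trans hl3)
  have h5 : TrivFib φ := Pool.Agent.Helper45.FL2.trivFib_of_hoEq kLX kP h4 h3
  refine ⟨fun {u v} sq => ?_⟩
  have h6 := Pool.Agent.Helper45.FL2.TrivFib.lift h5 (⊥ : (Δ[0] : SSet.{0}).Subcomplex).ι
  let u' : Δ[0] ⟶ Mp K X := pt (Mp K X) (MpS.ofHom ⦋0⦌ u : MpS K X ⦋0⦌)
  let v' : Δ[0] ⟶ Mp L Y := pt (Mp L Y) (MpS.ofHom ⦋0⦌ v : MpS L Y ⦋0⦌)
  have hc : u' ≫ Mp.post K f = v' ≫ Mp.pre i Y := by
    refine (pt_comp _ _).trans (Eq.trans ?_ (pt_comp _ _).symm)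
    refine congrArg (pt (Mp K Y)) ?_
    exact congrArg (MpS.ofHom ⦋0⦌) sq.w
  have sq' : CommSq (SSet.Subcomplex.isInitialBot.to (Mp L X))
      (⊥ : (Δ[0] : SSet.{0}).Subcomplex).ι φ (Limits.pullback.lift u' v' hc) :=
    ⟨SSet.Subcomplex.isInitialBot.hom_ext _ _⟩
  have e1 : sq'.lift ≫ Mp.pre i X = u' := by
    rw [← hφ1, ← Category.assoc, sq'.fac_right, Limits.pullback.lift_fst]
  have e2 : sq'.lift ≫ Mp.post L f = v' := by
    rw [← hφ2, ← Category.assoc, sq'.fac_right, Limits.pullback.lift_snd]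
  obtain ⟨w, hw⟩ : ∃ w : MpS L X ⦋0⦌, w = sq'.lift.app (op ⦋0⦌)
    (SSet.stdSimplex.objEquiv.symm (𝟙 _)) := ⟨_, rfl⟩
  have e3 : (MpS.ofHom ⦋0⦌ i).comp w = MpS.ofHom ⦋0⦌ u := by
    have := ConcreteCategory.congr_hom (NatTrans.congr_app e1 (op ⦋0⦌))
      (SSet.stdSimplex.objEquiv.symm (𝟙 _))
    rw [hw]
    exact this.trans (pt_app _ _)
  have e4 : w.comp (MpS.ofHom ⦋0⦌ f) = MpS.ofHom ⦋0⦌ v := by
    have := ConcreteCategory.congr_hom (NatTrans.congr_app e2 (op ⦋0⦌))
      (SSet.stdSimplex.objEquiv.symm (𝟙 _))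
    rw [hw]
    exact this.trans (pt_app _ _)
  refine ⟨⟨{ l := toHom w, fac_left := ?_, fac_right := ?_ }⟩⟩
  · exact congrArg toHom e3
  · exact congrArg toHom e4

/-! ### The path object -/

/-- The vertices of `[1]` as constant maps. -/
abbrev ct (k : SimplexCategory) (i : Fin 2) : k ⟶ ⦋1⦌ := SimplexCategory.const k ⦋1⦌ i

theorem horn_elem {ε : Fin 2} {k : SimplexCategoryᵒᵖ} (t : (Λ[0 + 1, ε] : SSet.{0}).obj k) :
    SSet.stdSimplex.objEquiv t.1 = ct k.unop ε := by
  obtain ⟨t, ht⟩ := t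
  induction k using Opposite.rec with | _ k =>
  induction k using SimplexCategory.rec with | _ m =>
  ext i : 3
  rw [SSet.mem_horn_iff_notMem_range] at ht
  obtain ⟨j, hj, hj'⟩ := ht
  have h : (SSet.stdSimplex.objEquiv t).toOrderHom i ≠ j := fun hi => hj' ⟨i, hi⟩
  show (SSet.stdSimplex.objEquiv t).toOrderHom i = ε
  have h2 : ∀ a b c : Fin 2, b ≠ c → a ≠ b → a = c := by decide
  exact h2 _ _ _ hj h

theorem ct_mem_horn (ε : Fin 2) (k : SimplexCategoryᵒᵖ) :
    SSet.stdSimplex.objEquiv.symm (ct k.unop ε) ∈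
      (Λ[0 + 1, ε] : (Δ[0 + 1] : SSet.{0}).Subcomplex).obj k := by
  induction k using Opposite.rec with | _ k =>
  induction k using SimplexCategory.rec with | _ m =>
  rw [SSet.mem_horn_iff_notMem_range]
  have h2 : ∀ c : Fin (0 + 1 + 1), ∃ (b : Fin (0 + 1 + 1)) (_ : b ≠ c), c ≠ b := by decide
  obtain ⟨b, hb, hb'⟩ := h2 ε
  refine ⟨b, hb, ?_⟩
  rintro ⟨i, hi⟩
  exact hb' hi

theorem bdry_elem {k : SimplexCategoryᵒᵖ} (t : (∂Δ[1] : SSet.{0}).obj k) :
    SSet.stdSimplex.objEquiv t.1 = ct k.unop 0 ∨ SSet.stdSimplex.objEquiv t.1 = ct k.unop 1 := by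
  obtain ⟨t, ht⟩ := t
  induction k using Opposite.rec with | _ k =>
  induction k using SimplexCategory.rec with | _ m =>
  rw [SSet.mem_boundary_iff_notMem_range] at ht
  obtain ⟨j, hj'⟩ := ht
  have h : ∀ i, (SSet.stdSimplex.objEquiv t).toOrderHom i ≠ j := fun i hi => hj' ⟨i, hi⟩
  have h2 : ∀ b : Fin 2, b = 0 ∨ b = 1 := by decide
  have h3 : ∀ a b c : Fin 2, b ≠ c → a ≠ b → a = c := by decide
  rcases h2 j with h4 | h4
  · refine Or.inr ?_
    ext i : 3
    exact h3 _ j (1 : Fin 2) (by rw [h4]; decide) (h i)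
  · refine Or.inl ?_
    ext i : 3
    exact h3 _ j (0 : Fin 2) (by rw [h4]; decide) (h i)

theorem ct_mem_bdry (ε : Fin 2) (k : SimplexCategoryᵒᵖ) :
    SSet.stdSimplex.objEquiv.symm (ct k.unop ε) ∈
      (∂Δ[1] : (Δ[1] : SSet.{0}).Subcomplex).obj k := by
  induction k using Opposite.rec with | _ k =>
  induction k using SimplexCategory.rec with | _ m =>
  rw [SSet.mem_boundary_iff_notMem_range]
  have h2 : ∀ c : Fin (0 + 1 + 1), ∃ (b : Fin (0 + 1 + 1)), c ≠ b := by decide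
  obtain ⟨b, hb'⟩ := h2 ε
  refine ⟨b, ?_⟩
  rintro ⟨i, hi⟩
  exact hb' hi

/-- The vertex of the horn. -/
def hornPt (ε : Fin 2) (k : SimplexCategoryᵒᵖ) : (Λ[0 + 1, ε] : SSet.{0}).obj k :=
  ⟨SSet.stdSimplex.objEquiv.symm (ct k.unop ε), ct_mem_horn ε k⟩

/-- The vertices of the boundary. -/
def bdryPt (ε : Fin 2) (k : SimplexCategoryᵒᵖ) : (∂Δ[1] : SSet.{0}).obj k :=
  ⟨SSet.stdSimplex.objEquiv.symm (ct k.unop ε), ct_mem_bdry ε k⟩

/-- Simplices of the path object. -/
@[ext]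
structure PS (Y : SP A) (a : Aᵒᵖ) (k : SimplexCategoryᵒᵖ) : Type where
  app (l : SimplexCategoryᵒᵖ) (s : l.unop ⟶ k.unop) (t : l.unop ⟶ ⦋1⦌) : (Y.obj a).obj l
  nat : ∀ {l m : SimplexCategoryᵒᵖ} (g : l ⟶ m) (s : l.unop ⟶ k.unop) (t : l.unop ⟶ ⦋1⦌),
    app m (g.unop ≫ s) (g.unop ≫ t) = (Y.obj a).map g (app l s t)

/-- Restriction. -/
@[simps]
def PS.res {Y : SP A} {a : Aᵒᵖ} {k l : SimplexCategoryᵒᵖ} (α : k ⟶ l) (γ : PS Y a k) :
    PS Y a l where
  app m s t := γ.app m (s ≫ α.unop) t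
  nat g s t := by
    rw [Category.assoc]
    exact γ.nat g (s ≫ α.unop) t

/-- The presheaf structure. -/
@[simps]
def PS.mp {Y : SP A} {a b : Aᵒᵖ} (f : a ⟶ b) {k : SimplexCategoryᵒᵖ} (γ : PS Y a k) :
    PS Y b k where
  app m s t := (Y.map f).app m (γ.app m s t)
  nat {l m} g s t := by
    rw [γ.nat]
    exact sp_nat Y f g (γ.app l s t)

/-- The path object. -/
def Pth (Y : SP A) : SP A where
  obj a :=
    { obj := fun k => PS Y a k
      map := fun α => ↾ fun γ => PS.res α γ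
      map_id := fun k => by
        ext (γ : PS Y a k) l s t
        exact congrArg (fun z => γ.app l z t) (Category.comp_id s)
      map_comp := fun α β => by
        ext (γ : PS Y a _) l s t
        exact congrArg (fun z => γ.app l z t) (Category.assoc s β.unop α.unop).symm }
  map f :=
    { app := fun k => ↾ fun γ => PS.mp f γ
      naturality := fun _ _ _ => rfl }
  map_id a := by
    ext k (γ : PS Y a k) l s t
    exact sp_id Y _
  map_comp f g := by
    ext k (γ : PS Y _ k) l s t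
    exact sp_comp Y f g _

/-- Evaluation at an end. -/
def ev (Y : SP A) (ε : Fin 2) : Pth Y ⟶ Y where
  app a :=
    { app := fun k => ↾ fun (γ : PS Y a k) => γ.app k (𝟙 _) (ct k.unop ε)
      naturality := fun k l α => by
        ext (γ : PS Y a k)
        show γ.app l (𝟙 _ ≫ α.unop) (ct l.unop ε) = (Y.obj a).map α (γ.app k (𝟙 _) (ct k.unop ε))
        refine Eq.trans ?_ (γ.nat α (𝟙 _) (ct k.unop ε))
        rw [Category.id_comp, Category.comp_id]
        rfl }
  naturality _ _ _ := rfl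

/-- Constant paths. -/
def ko (Y : SP A) : Y ⟶ Pth Y where
  app a :=
    { app := fun k => ↾ fun y => (
        { app := fun l s _ => (Y.obj a).map s.op y
          nat := fun {l m} g s t => sset_comp (Y.obj a) s.op g y } : PS Y a k)
      naturality := fun k l α => by
        ext y
        refine PS.ext ?_
        funext m s t
        exact (sset_comp (Y.obj a) α s.op y).symm }
  naturality a b f := by
    ext k y
    refine PS.ext ?_
    funext m s t
    exact (sp_nat Y f s.op y).symm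

theorem ko_ev (Y : SP A) (ε : Fin 2) : ko Y ≫ ev Y ε = 𝟙 Y := by
  ext a k y
  exact sset_id (Y.obj a) y

/-- Maps into the path object. -/
def toPth {X Y : SP A} (f : tn X Δ[1] ⟶ Y) : X ⟶ Pth Y where
  app a :=
    { app := fun k => ↾ fun x => (
        { app := fun l s t => (f.app a).app l ((X.obj a).map s.op x, SSet.stdSimplex.objEquiv.symm t)
          nat := fun {l m} g s t => by
            refine Eq.trans ?_ (hom_natk f g ((X.obj a).map s.op x, SSet.stdSimplex.objEquiv.symm t))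
            refine congrArg ((f.app a).app m) (Prod.ext ?_ rfl)
            exact sset_comp (X.obj a) s.op g x } : PS Y a k)
      naturality := fun k l α => by
        ext x
        refine PS.ext ?_
        funext m s t
        refine congrArg ((f.app a).app m) (Prod.ext ?_ rfl)
        exact (sset_comp (X.obj a) α s.op x).symm }
  naturality a b g := by
    ext k x
    refine PS.ext ?_
    funext m s t
    refine Eq.trans ?_ (hom_nat f g ((X.obj a).map s.op x, SSet.stdSimplex.objEquiv.symm t))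
    refine congrArg ((f.app b).app m) (Prod.ext ?_ rfl)
    exact (sp_nat X g s.op x).symm

/-- Maps into the path object. -/
def ofPth {X Y : SP A} (f : X ⟶ Pth Y) : tn X Δ[1] ⟶ Y where
  app a :=
    { app := fun k => ↾ fun (z : (X.obj a).obj k × (Δ[1] : SSet.{0}).obj k) =>
        ((f.app a).app k z.1 : PS Y a k).app k (𝟙 _) (SSet.stdSimplex.objEquiv z.2)
      naturality := fun k l α => by
        ext ⟨x, t⟩
        show ((f.app a).app l ((X.obj a).map α x) : PS Y a l).app l (𝟙 _)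
          (α.unop ≫ SSet.stdSimplex.objEquiv t) = _
        rw [hom_natk f α x]
        show ((f.app a).app k x : PS Y a k).app l (𝟙 _ ≫ α.unop)
          (α.unop ≫ SSet.stdSimplex.objEquiv t) = _
        refine Eq.trans ?_ (((f.app a).app k x : PS Y a k).nat α (𝟙 _)
          (SSet.stdSimplex.objEquiv t))
        rw [Category.id_comp, Category.comp_id] }
  naturality a b g := by
    ext k ⟨x, t⟩
    exact congrArg (fun z : PS Y b k => z.app k (𝟙 _) (SSet.stdSimplex.objEquiv t))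
      (hom_nat f g x)

theorem toPth_ofPth {X Y : SP A} (f : X ⟶ Pth Y) : toPth (ofPth f) = f := by
  ext a k x
  refine PS.ext ?_
  funext l s t
  show ((f.app a).app l ((X.obj a).map s.op x) : PS Y a l).app l (𝟙 _) t = _
  rw [hom_natk f s.op x]
  show ((f.app a).app k x : PS Y a k).app l (𝟙 _ ≫ s) t = _
  rw [Category.id_comp]
  rfl

theorem toPth_nat {X X' Y : SP A} (i : X ⟶ X') (f : tn X' Δ[1] ⟶ Y) :
    i ≫ toPth f = toPth (tnMap i (𝟙 _) ≫ f) := by
  ext a k x
  refine PS.ext ?_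
  funext l s t
  refine congrArg ((f.app a).app l) (Prod.ext ?_ rfl)
  exact (hom_natk i s.op x).symm

theorem toPth_ev {X Y : SP A} (f : tn X Δ[1] ⟶ Y) (ε : Fin 2) (a : Aᵒᵖ) (k : SimplexCategoryᵒᵖ)
    (x : (X.obj a).obj k) : ((toPth f ≫ ev Y ε).app a).app k x =
      (f.app a).app k (x, SSet.stdSimplex.objEquiv.symm (ct k.unop ε)) := by
  refine congrArg ((f.app a).app k) (Prod.ext ?_ rfl)
  exact sset_id (X.obj a) x

/-- The projection of the tensor. -/
def tnFst (X : SP A) (K : SSet.{0}) : tn X K ⟶ X where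
  app a := CartesianMonoidalCategory.fst (X.obj a) K
  naturality _ _ _ := rfl

theorem ev_injTriv {Y : SP A} (hY : InjFib Y) (ε : Fin 2) : InjTrivFibration (ev Y ε) := by
  intro K L i hi
  refine ⟨fun {u v} sq => ?_⟩
  obtain ⟨l, hl1, hl2⟩ := exists_ext i hi (Λ[0 + 1, ε].ι : (Λ[0 + 1, ε] : SSet.{0}) ⟶ Δ[0 + 1])
    (PPι_trivCof_of_anodyne deps i _ (horn_anodyne 0 ε)) hY (ofPth u) (tnFst L _ ≫ v) (by
      ext a k ⟨x, t⟩
      show ((u.app a).app k x : PS Y a k).app k (𝟙 _) (SSet.stdSimplex.objEquiv t.1) =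
        (v.app a).app k ((i.app a).app k x)
      rw [horn_elem t]
      exact ConcreteCategory.congr_hom (NatTrans.congr_app (NatTrans.congr_app sq.w a) k) x)
  refine ⟨⟨{ l := toPth l, fac_left := ?_, fac_right := ?_ }⟩⟩
  · rw [toPth_nat]
    refine (congrArg toPth hl1).trans (toPth_ofPth u)
  · ext a k x
    refine (toPth_ev l ε a k x).trans ?_
    exact congrArg (fun g : tn L (Λ[0 + 1, ε] : SSet.{0}) ⟶ Y =>
      (g.app a).app k (x, hornPt ε k)) hl2

/-- The source of an injective trivial fibration with injectively fibrant target is injectively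
fibrant. -/
theorem injFib_of_injTriv {P Y : SP A} {e : P ⟶ Y} (he : InjTrivFibration e) (hY : InjFib Y) :
    InjFib P := by
  intro K L i hi f
  obtain ⟨w, hw⟩ := hY i hi (f ≫ e)
  have := he i hi.1
  have sq : CommSq f i e w := ⟨hw.symm⟩
  exact ⟨sq.lift, sq.fac_left⟩

/-- Sections of injective trivial fibrations between injectively fibrant objects are
equivalences. -/
theorem objHoEq_of_section {P Y : SP A} {e : P ⟶ Y} (he : InjTrivFibration e) (hY : InjFib Y)
    {s : Y ⟶ P} (hs : s ≫ e = 𝟙 Y) : ObjHoEq s := by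
  intro a
  have hP := injFib_of_injTriv he hY
  have e1 : s.app a ≫ e.app a = 𝟙 _ := NatTrans.congr_app hs a
  refine Pool.Agent.Helper88.FL.hoEq_of_comp_right (objKan_of_injFib hY a)
    (objKan_of_injFib hP a) (objKan_of_injFib hY a) (InjTrivFibration.objHoEq he a) ?_
  rw [e1]
  exact Pool.Agent.Helper88.FL.hoEq_of_isIso _

/-- The map into the path object given by a homotopy. -/
def hPth {X Y : SP A} (h : MpS X Y ⦋1⦌) : X ⟶ Pth Y where
  app a :=
    { app := fun k => ↾ fun x => (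
        { app := fun l s t => h.app a l t ((X.obj a).map s.op x)
          nat := fun {l m} g s t => by
            refine Eq.trans ?_ (h.nat_right a g t ((X.obj a).map s.op x))
            exact congrArg (h.app a m _) (sset_comp (X.obj a) s.op g x) } : PS Y a k)
      naturality := fun k l α => by
        ext x
        refine PS.ext ?_
        funext m s t
        exact congrArg (h.app a m t) (sset_comp (X.obj a) α s.op x).symm }
  naturality a b g := by
    ext k x
    refine PS.ext ?_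
    funext m s t
    refine Eq.trans ?_ (h.nat_left g m t ((X.obj a).map s.op x))
    exact congrArg (h.app b m t) (sp_nat X g s.op x).symm

theorem hPth_ev {X Y : SP A} (h : MpS X Y ⦋1⦌) (ε : Fin 2) (a : Aᵒᵖ) (k : SimplexCategoryᵒᵖ)
    (x : (X.obj a).obj k) : ((hPth h ≫ ev Y ε).app a).app k x = h.app a k (ct k.unop ε) x :=
  congrArg (h.app a k (ct k.unop ε)) (sset_id (X.obj a) x)

/-- Path objects. -/
theorem exists_path (Y : SP A) (hY : InjFib Y) :
    ∃ (P : SP A) (s : Y ⟶ P) (e₀ e₁ : P ⟶ Y), s ≫ e₀ = 𝟙 Y ∧ s ≫ e₁ = 𝟙 Y ∧ InjFib P ∧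
      ObjHoEq s ∧ InjTrivFibration e₀ ∧ InjTrivFibration e₁ ∧
      (∀ {X : SP A} (f g : X ⟶ Y), (∃ h : MpS X Y (SimplexCategory.mk 1),
        h.res (SimplexCategory.δ 1) = MpS.ofHom _ f ∧
        h.res (SimplexCategory.δ 0) = MpS.ofHom _ g) →
        ∃ H : X ⟶ P, H ≫ e₀ = f ∧ H ≫ e₁ = g) := by
  refine ⟨Pth Y, ko Y, ev Y 0, ev Y 1, ko_ev Y 0, ko_ev Y 1,
    injFib_of_injTriv (ev_injTriv hY 0) hY, objHoEq_of_section (ev_injTriv hY 0) hY (ko_ev Y 0),
    ev_injTriv hY 0, ev_injTriv hY 1, ?_⟩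
  rintro X f g ⟨h, h0, h1⟩
  refine ⟨hPth h, ?_, ?_⟩
  · ext a k x
    exact (hPth_ev h 0 a k x).trans (sdr_zero h0 a k x)
  · ext a k x
    exact (hPth_ev h 1 a k x).trans (sdr_one h1 a k x)

/-! ### Fibre products of simplicial presheaves -/

/-- The fibre product. -/
def FpP {X Z Y : SP A} (p : X ⟶ Y) (q : Z ⟶ Y) : SP A where
  obj a := Fp (p.app a) (q.app a)
  map f := Fp.map (X.map f) (Z.map f) (Y.map f) (p.naturality f) (q.naturality f)
  map_id a := by
    ext k z
    exact Subtype.ext (Prod.ext (sp_id X z.1.1) (sp_id Z z.1.2))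
  map_comp f g := by
    ext k z
    exact Subtype.ext (Prod.ext (sp_comp X f g z.1.1) (sp_comp Z f g z.1.2))

/-- The first projection. -/
def FpP.fst {X Z Y : SP A} (p : X ⟶ Y) (q : Z ⟶ Y) : FpP p q ⟶ X where
  app a := Fp.fst (p.app a) (q.app a)
  naturality _ _ _ := rfl

/-- The second projection. -/
def FpP.snd {X Z Y : SP A} (p : X ⟶ Y) (q : Z ⟶ Y) : FpP p q ⟶ Z where
  app a := Fp.snd (p.app a) (q.app a)
  naturality _ _ _ := rfl

/-- The universal property. -/
def FpP.lift {X Z Y K : SP A} {p : X ⟶ Y} {q : Z ⟶ Y} (f : K ⟶ X) (g : K ⟶ Z)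
    (h : f ≫ p = g ≫ q) : K ⟶ FpP p q where
  app a := Fp.lift (f.app a) (g.app a) (NatTrans.congr_app h a)
  naturality a b u := by
    ext k x
    exact Subtype.ext (Prod.ext (hom_nat f u x) (hom_nat g u x))

theorem FpP.lift_fst {X Z Y K : SP A} {p : X ⟶ Y} {q : Z ⟶ Y} (f : K ⟶ X) (g : K ⟶ Z)
    (h : f ≫ p = g ≫ q) : FpP.lift f g h ≫ FpP.fst p q = f := rfl

theorem FpP.lift_snd {X Z Y K : SP A} {p : X ⟶ Y} {q : Z ⟶ Y} (f : K ⟶ X) (g : K ⟶ Z)
    (h : f ≫ p = g ≫ q) : FpP.lift f g h ≫ FpP.snd p q = g := rfl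

theorem FpP.cond {X Z Y : SP A} (p : X ⟶ Y) (q : Z ⟶ Y) :
    FpP.fst p q ≫ p = FpP.snd p q ≫ q := by
  ext a k z
  exact z.2

theorem FpP.hom_ext {X Z Y K : SP A} {p : X ⟶ Y} {q : Z ⟶ Y} {f g : K ⟶ FpP p q}
    (h : f ≫ FpP.fst p q = g ≫ FpP.fst p q) (h' : f ≫ FpP.snd p q = g ≫ FpP.snd p q) :
    f = g := by
  ext a k x
  refine Subtype.ext (Prod.ext ?_ ?_)
  · exact ConcreteCategory.congr_hom (NatTrans.congr_app (NatTrans.congr_app h a) k) x
  · exact ConcreteCategory.congr_hom (NatTrans.congr_app (NatTrans.congr_app h' a) k) x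

theorem FpP.fst_injTriv {X Z Y : SP A} (p : X ⟶ Y) {q : Z ⟶ Y} (hq : InjTrivFibration q) :
    InjTrivFibration (FpP.fst p q) := by
  intro K L i hi
  refine ⟨fun {u v} sq => ?_⟩
  have := hq i hi
  have sq' : CommSq (u ≫ FpP.snd p q) i q (v ≫ p) := ⟨by
    rw [Category.assoc, ← FpP.cond, ← Category.assoc, sq.w, Category.assoc]⟩
  refine ⟨⟨{ l := FpP.lift v sq'.lift sq'.fac_right.symm, fac_left := ?_, fac_right := ?_ }⟩⟩
  · refine FpP.hom_ext ?_ ?_
    · rw [Category.assoc, FpP.lift_fst, sq.w]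
    · rw [Category.assoc, FpP.lift_snd, sq'.fac_left]
  · rw [FpP.lift_fst]

/-! ### Mapping path objects -/

open Classical in
/-- The map given by two maps on the ends. -/
noncomputable def twoP {X Y : SP A} (f g : X ⟶ Y) : tn X (∂Δ[1] : SSet.{0}) ⟶ Y where
  app a := Pool.Agent.Helper45.FL2.two (f.app a) (g.app a)
  naturality a b u := by
    ext k ⟨x, s⟩
    change (if SSet.stdSimplex.asOrderHom s.1 0 = 0 then (f.app b).app k ((X.map u).app k x) else
      (g.app b).app k ((X.map u).app k x)) = (Y.map u).app k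
        (if SSet.stdSimplex.asOrderHom s.1 0 = 0 then (f.app a).app k x else (g.app a).app k x)
    split_ifs
    · exact hom_nat f u x
    · exact hom_nat g u x

theorem twoP_zero {X Y : SP A} (f g : X ⟶ Y) {a : Aᵒᵖ} {k : SimplexCategoryᵒᵖ}
    (x : (X.obj a).obj k) (t : (∂Δ[1] : SSet.{0}).obj k)
    (ht : SSet.stdSimplex.objEquiv t.1 = ct k.unop 0) :
    ((twoP f g).app a).app k (x, t) = (f.app a).app k x := by
  refine if_pos ?_
  show (SSet.stdSimplex.objEquiv t.1).toOrderHom 0 = 0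
  rw [ht]
  rfl

theorem twoP_one {X Y : SP A} (f g : X ⟶ Y) {a : Aᵒᵖ} {k : SimplexCategoryᵒᵖ}
    (x : (X.obj a).obj k) (t : (∂Δ[1] : SSet.{0}).obj k)
    (ht : SSet.stdSimplex.objEquiv t.1 = ct k.unop 1) :
    ((twoP f g).app a).app k (x, t) = (g.app a).app k x := by
  refine if_neg ?_
  show ¬ (SSet.stdSimplex.objEquiv t.1).toOrderHom 0 = 0
  rw [ht]
  exact (by decide : ¬ (1 : Fin 2) = 0)

/-- Mapping path objects: every map of injectively fibrant objects is an equivalence followed by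
an injective fibration which is surjective, on vertices, onto everything in the components of the
image. -/
theorem exists_mapping_path {X Y : SP A} (hX : InjFib X) (hY : InjFib Y) (f : X ⟶ Y) :
    ∃ (P : SP A) (s : X ⟶ P) (r : P ⟶ X) (q : P ⟶ Y), InjFib P ∧ s ≫ q = f ∧ s ≫ r = 𝟙 X ∧
      ObjHoEq s ∧ InjTrivFibration r ∧ InjFibration q ∧
      (∃ h : MpS P Y (SimplexCategory.mk 1),
        h.res (SimplexCategory.δ 1) = MpS.ofHom _ (r ≫ f) ∧
        h.res (SimplexCategory.δ 0) = MpS.ofHom _ q) ∧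
      (∀ (a : Aᵒᵖ) (x : (X.obj a).obj (op (SimplexCategory.mk 0)))
        (y : (Y.obj a).obj (op (SimplexCategory.mk 0))),
        Cn (Y.obj a) ((f.app a).app _ x) y →
        ∃ z : (P.obj a).obj (op (SimplexCategory.mk 0)), (q.app a).app _ z = y) := by
  have hr : InjTrivFibration (FpP.fst f (ev Y 0)) := FpP.fst_injTriv f (ev_injTriv hY 0)
  have hs : 𝟙 X ≫ f = (f ≫ ko Y) ≫ ev Y 0 := by
    rw [Category.id_comp, Category.assoc, ko_ev, Category.comp_id]
  refine ⟨FpP f (ev Y 0), FpP.lift (𝟙 X) (f ≫ ko Y) hs, FpP.fst _ _, FpP.snd _ _ ≫ ev Y 1,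
    injFib_of_injTriv hr hX, ?_, FpP.lift_fst _ _ _, objHoEq_of_section hr hX (FpP.lift_fst _ _ hs),
    hr, ?_, ?_, ?_⟩
  · rw [← Category.assoc, FpP.lift_snd, Category.assoc, ko_ev, Category.comp_id]
  · intro K L i hi
    refine ⟨fun {u v} sq => ?_⟩
    obtain ⟨w, hw⟩ := hX i hi (u ≫ FpP.fst _ _)
    obtain ⟨l, hl1, hl2⟩ := exists_ext i hi.1 (∂Δ[1].ι : (∂Δ[1] : SSet.{0}) ⟶ Δ[1])
      (PPι_trivCof deps i hi _) hY (ofPth (u ≫ FpP.snd _ _)) (twoP (w ≫ f) v) (by
        ext a k ⟨x, t⟩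
        show (((u ≫ FpP.snd _ _).app a).app k x : PS Y a k).app k (𝟙 _)
            (SSet.stdSimplex.objEquiv t.1) =
          ((twoP (w ≫ f) v).app a).app k ((i.app a).app k x, t)
        rcases bdry_elem t with ht | ht
        · rw [twoP_zero _ _ _ _ ht, ht]
          have e1 : (u ≫ FpP.snd _ _) ≫ ev Y 0 = i ≫ w ≫ f := by
            rw [Category.assoc, ← FpP.cond, ← Category.assoc, ← hw, Category.assoc]
          exact ConcreteCategory.congr_hom (NatTrans.congr_app (NatTrans.congr_app e1 a) k) x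
        · rw [twoP_one _ _ _ _ ht, ht]
          exact ConcreteCategory.congr_hom (NatTrans.congr_app (NatTrans.congr_app sq.w a) k) x)
    have e0 : w ≫ f = toPth l ≫ ev Y 0 := by
      ext a k x
      refine Eq.symm ((toPth_ev l 0 a k x).trans ?_)
      refine (congrArg (fun g : tn L (∂Δ[1] : SSet.{0}) ⟶ Y =>
        (g.app a).app k (x, bdryPt 0 k)) hl2).trans ?_
      exact twoP_zero _ _ _ _ (SSet.stdSimplex.objEquiv.apply_symm_apply _)
    have e1 : toPth l ≫ ev Y 1 = v := by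
      ext a k x
      refine (toPth_ev l 1 a k x).trans ?_
      refine (congrArg (fun g : tn L (∂Δ[1] : SSet.{0}) ⟶ Y =>
        (g.app a).app k (x, bdryPt 1 k)) hl2).trans ?_
      exact twoP_one _ _ _ _ (SSet.stdSimplex.objEquiv.apply_symm_apply _)
    refine ⟨⟨{ l := FpP.lift w (toPth l) e0, fac_left := ?_, fac_right := ?_ }⟩⟩
    · refine FpP.hom_ext ?_ ?_
      · rw [Category.assoc, FpP.lift_fst, hw]
      · rw [Category.assoc, FpP.lift_snd, toPth_nat]
        exact (congrArg toPth hl1).trans (toPth_ofPth _)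
    · rw [← Category.assoc, FpP.lift_snd, e1]
  · refine ⟨{ app := fun a k t z => (z.1.2 : PS Y a k).app k (𝟙 _) t
              nat_left := fun g k s x => rfl
              nat_right := fun a {k l} g s x => ?_ }, ?_, ?_⟩
    · show (x.1.2 : PS Y a k).app l (𝟙 _ ≫ g.unop) (g.unop ≫ s) = _
      refine Eq.trans ?_ ((x.1.2 : PS Y a k).nat g (𝟙 _) s)
      rw [Category.id_comp, Category.comp_id]
    · refine MpS.ext ?_
      funext a k t z
      refine Eq.trans ?_ z.2.symm
      refine congrArg ((z.1.2 : PS Y a k).app k (𝟙 _)) ?_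
      ext i : 3
      obtain h : t.toOrderHom i = 0 := Subsingleton.elim (α := Fin 1) _ _
      show (SimplexCategory.δ 1 : ⦋0⦌ ⟶ ⦋1⦌).toOrderHom (t.toOrderHom i) = 0
      rw [h]
      rfl
    · refine MpS.ext ?_
      funext a k t z
      refine congrArg ((z.1.2 : PS Y a k).app k (𝟙 _)) ?_
      ext i : 3
      obtain h : t.toOrderHom i = 0 := Subsingleton.elim (α := Fin 1) _ _
      show (SimplexCategory.δ 0 : ⦋0⦌ ⟶ ⦋1⦌).toOrderHom (t.toOrderHom i) = 1
      rw [h]
      rfl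
  · rintro a x y ⟨e, he0, he1⟩
    refine ⟨⟨(x, ({ app := fun l _ t => (Y.obj a).map t.op e
                    nat := fun {l m} g _ t => sset_comp (Y.obj a) t.op g e } : PS Y a _)), ?_⟩, ?_⟩
    · refine Eq.trans he0.symm ?_
      refine congrArg (fun t => (Y.obj a).map t e) ?_
      refine Quiver.Hom.unop_inj ?_
      ext i : 3
      obtain rfl : i = 0 := Subsingleton.elim (α := Fin 1) _ _
      rfl
    · refine Eq.trans ?_ he1
      refine congrArg (fun t => (Y.obj a).map t e) ?_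
      refine Quiver.Hom.unop_inj ?_
      ext i : 3
      obtain rfl : i = 0 := Subsingleton.elim (α := Fin 1) _ _
      rfl

end Pool.Agent.Helper91.FL2
end

/- Helper53.FL2.Adj -/
section
/-!
# FL2, module V1 HMADJ, first part: mapping presheaves and suspensions
-/

open CategoryTheory MonoidalCategory Opposite

set_option autoImplicit false

namespace Helper53FL2

open FL

variable {C : Type} [SmallCategory C]

/-! ### Jumps of maps to `[1]` -/

/-- The morphism `θ ⟶ [1](θ_t)` with underlying map `f`, where `f` jumps at `t`. -/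
def jm {θ : Wr C} (f : Fin (θ.len + 1) →o Fin (1 + 1)) (t : Fin θ.len) (h : Jump f t 0) :
    θ ⟶ seg (θ.obj t) :=
  ({ f := f
     g := fun i (j : Fin 1) h' => eqToHom (congrArg θ.obj (h'.unique
      (by rw [Subsingleton.elim j 0]; exact h))) } : Wr.Hom θ (seg (θ.obj t)))

lemma jm_f {θ : Wr C} (f : Fin (θ.len + 1) →o Fin (1 + 1)) (t : Fin θ.len) (h : Jump f t 0) :
    Wr.Hom.f (jm f t h) = f := rfl

lemma jm_g {θ : Wr C} (f : Fin (θ.len + 1) →o Fin (1 + 1)) (t : Fin θ.len) (h : Jump f t 0)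
    (h' : Jump (Wr.Hom.f (jm f t h)) t 0) : Wr.Hom.g (jm f t h) t 0 h' = 𝟙 _ := rfl

lemma const_of_no_jump {n : ℕ} (f : Fin (n + 1) →o Fin (1 + 1))
    (h : ¬ ∃ t, Jump f t 0) (i : Fin (n + 1)) : f i = f 0 := by
  by_contra hc
  apply h
  have h0 : f 0 ≤ f i := f.monotone (Fin.zero_le i)
  have h1 : f 0 < f i := lt_of_le_of_ne h0 fun e => hc e.symm
  obtain ⟨t, _, _, ht⟩ := exists_jump f (0 : Fin 1) (p := 0) (q := i)
    (by rw [Fin.le_def]; have := (f i).2; rw [Fin.lt_def] at h1; simp; omega)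
    (by rw [Fin.le_def]; rw [Fin.lt_def] at h1; simp; omega)
  exact ⟨t, ht⟩

lemma not_jump_const {n : ℕ} {f : Fin (n + 1) →o Fin (1 + 1)} {i : Fin (1 + 1)}
    (h : ∀ p, f p = i) (t : Fin n) : ¬ Jump f t 0 := by
  intro hj
  have h1 := hj.1
  have h2 := hj.2
  rw [h] at h1 h2
  exact absurd (h2.trans h1) (by decide)

/-- A simplex of the suspension with constant underlying map. -/
lemma eq_vsEnd {B : SP C} {θ : Wr C} {k : SimplexCategoryᵒᵖ} (u : VS (fun _ : Fin 1 => B) θ k)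
    (i : Fin 2) (h : ∀ p, u.f p = i) : u = vsEnd B i θ k := by
  refine VS.ext' ?_ fun p (j : Fin 1) hj _ => ?_
  · ext p
    exact congrArg Fin.val (h p)
  · exfalso
    obtain rfl : j = 0 := Subsingleton.elim _ _
    exact not_jump_const h p hj

/-- A simplex of the suspension with a jump. -/
lemma eq_map_jm {B : SP C} {θ : Wr C} {k : SimplexCategoryᵒᵖ} (u : VS (fun _ : Fin 1 => B) θ k)
    (t : Fin θ.len) (h : Jump u.f t 0) : VS.mapθ (jm u.f t h) (vsOf B (u.g t 0 h)) = u := by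
  refine VS.ext' rfl fun p (j : Fin 1) hj hj' => ?_
  obtain rfl : j = 0 := Subsingleton.elim _ _
  obtain rfl : p = t := hj'.unique h
  refine (VS.mapθ_g (jm u.f p h) (vsOf B (u.g p 0 h)) h (jump_id.mpr rfl)).trans ?_
  exact sp_id B (u.g p 0 h)

lemma mapθ_vsOf_vtx {B : SP C} {c : C} {k : SimplexCategoryᵒᵖ} (b : (B.obj (op c)).obj k)
    (i : Fin 2) : VS.mapθ (vtx (seg c) i) (vsOf B b) = vsEnd B i Wr.pt k :=
  VS.ext' rfl fun (p : Fin 0) => p.elim0

lemma mapθ_vsEnd {B : SP C} {θ θ' : Wr C} (φ : θ' ⟶ θ) (i : Fin 2) (k : SimplexCategoryᵒᵖ) :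
    VS.mapθ φ (vsEnd B i θ k) = vsEnd B i θ' k :=
  eq_vsEnd _ i fun _ => rfl

section

variable {X : SP (Wr C)} {x y : Vt X}

/-- The `i`-th of the two vertices. -/
def pk (x y : Vt X) (i : Fin 2) : Vt X := if i = 0 then x else y

lemma Hm_ends {c : Cᵒᵖ} {k : SimplexCategoryᵒᵖ} (z : ((Hm X x y).obj c).obj k) (i : Fin 2) :
    (X.map (vtx (seg c.unop) i).op).app k (Hm.val z) = cst (X.obj (op Wr.pt)) (pk x y i) k := by
  have h := z.2
  have h1 : (X.map (vtx (seg c.unop) 0).op).app k (Hm.val z) = cst (X.obj (op Wr.pt)) x k :=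
    congrArg Prod.fst h
  have h2 : (X.map (vtx (seg c.unop) 1).op).app k (Hm.val z) = cst (X.obj (op Wr.pt)) y k :=
    congrArg Prod.snd h
  fin_cases i
  · exact h1
  · exact h2

/-- Naturality of `Hm.val` in the simplex. -/
lemma Hm_val_map {c c' : Cᵒᵖ} (f : c ⟶ c') {k : SimplexCategoryᵒᵖ}
    (z : ((Hm X x y).obj c).obj k) :
    Hm.val (((Hm X x y).map f).app k z) = (X.map (segMap f.unop).op).app k (Hm.val z) := rfl

lemma Hm_val_mapk {c : Cᵒᵖ} {k l : SimplexCategoryᵒᵖ} (α : k ⟶ l)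
    (z : ((Hm X x y).obj c).obj k) :
    Hm.val (((Hm X x y).obj c).map α z) = (X.obj (op (seg c.unop))).map α (Hm.val z) := rfl

open Classical in
/-- The value of the map `V[1](B) × Δ[m] ⟶ X` attached to a map `B × Δ[m] ⟶ X(x, y)`. -/
noncomputable def susApp {B : SP C} {m : SimplexCategory} (ψ : MpS B (Hm X x y) m)
    (θ : (Wr C)ᵒᵖ) (l : SimplexCategoryᵒᵖ) (s : l.unop ⟶ m)
    (u : VS (fun _ : Fin 1 => B) θ.unop l) : (X.obj θ).obj l :=
  if h : ∃ t, Jump u.f t 0 then
    (X.map (jm u.f h.choose h.choose_spec).op).app l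
      (Hm.val (ψ.app (op (θ.unop.obj h.choose)) l s (u.g h.choose 0 h.choose_spec)))
  else (X.map (Wr.toPt θ.unop).op).app l (cst (X.obj (op Wr.pt)) (pk x y (u.f 0)) l)

lemma susApp_jump {B : SP C} {m : SimplexCategory} (ψ : MpS B (Hm X x y) m)
    (θ : (Wr C)ᵒᵖ) (l : SimplexCategoryᵒᵖ) (s : l.unop ⟶ m)
    (u : VS (fun _ : Fin 1 => B) θ.unop l) (t : Fin θ.unop.len) (h : Jump u.f t 0) :
    susApp ψ θ l s u = (X.map (jm u.f t h).op).app l
      (Hm.val (ψ.app (op (θ.unop.obj t)) l s (u.g t 0 h))) := by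
  have hex : ∃ t, Jump u.f t 0 := ⟨t, h⟩
  rw [susApp, dif_pos hex]
  have e : hex.choose = t := hex.choose_spec.unique h
  have aux : ∀ (t' : Fin θ.unop.len) (_ : t' = t) (h' : Jump u.f t' 0),
      (X.map (jm u.f t' h').op).app l
        (Hm.val (ψ.app (op (θ.unop.obj t')) l s (u.g t' 0 h'))) =
      (X.map (jm u.f t h).op).app l
        (Hm.val (ψ.app (op (θ.unop.obj t)) l s (u.g t 0 h))) := by
    rintro t' rfl h'
    rfl
  exact aux _ e _

lemma susApp_const {B : SP C} {m : SimplexCategory} (ψ : MpS B (Hm X x y) m)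
    (θ : (Wr C)ᵒᵖ) (l : SimplexCategoryᵒᵖ) (s : l.unop ⟶ m)
    (u : VS (fun _ : Fin 1 => B) θ.unop l) (i : Fin 2) (h : ∀ p, u.f p = i) :
    susApp ψ θ l s u =
      (X.map (Wr.toPt θ.unop).op).app l (cst (X.obj (op Wr.pt)) (pk x y i) l) := by
  have hex : ¬ ∃ t, Jump u.f t 0 := fun ⟨t, ht⟩ => not_jump_const h t ht
  rw [susApp, dif_neg hex, h 0]

/-- The two cases. -/
lemma cases_VS {B : SP C} {θ : Wr C} {l : SimplexCategoryᵒᵖ}
    (u : VS (fun _ : Fin 1 => B) θ l) : (∃ t, Jump u.f t 0) ∨ ∃ i : Fin 2, ∀ p, u.f p = i := by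
  by_cases h : ∃ t, Jump u.f t 0
  · exact Or.inl h
  · exact Or.inr ⟨u.f 0, fun p => const_of_no_jump u.f h p⟩

/-- The map `V[1](B) × Δ[m] ⟶ X` attached to a map `B × Δ[m] ⟶ X(x, y)`. -/
noncomputable def sus {B : SP C} {m : SimplexCategory} (ψ : MpS B (Hm X x y) m) :
    MpS (V1 B) X m where
  app θ l s u := susApp ψ θ l s u
  nat_left {θ θ'} φ l s u := by
    show susApp ψ θ' l s (VS.mapθ φ.unop u) = (X.map φ).app l (susApp ψ θ l s u)
    rcases cases_VS (VS.mapθ φ.unop u) with ⟨t', ht'⟩ | ⟨i, hi⟩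
    · obtain ⟨t, h1, h2⟩ := Jump.split (f := Wr.Hom.f φ.unop) (g := u.f) ht'
      rw [susApp_jump ψ θ' l s _ t' ht', susApp_jump ψ θ l s u t h2]
      have e1 : (VS.mapθ φ.unop u).g t' 0 ht' =
          (B.map (Wr.Hom.g φ.unop t' t h1).op).app l (u.g t 0 h2) := VS.mapθ_g φ.unop u h1 h2
      rw [e1]
      have e2 := ψ.nat_left (Wr.Hom.g φ.unop t' t h1).op l s (u.g t 0 h2)
      refine (congrArg (fun z => (X.map (jm (VS.mapθ φ.unop u).f t' ht').op).app l
        (Hm.val z)) e2).trans ?_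
      refine (congrArg ((X.map (jm (VS.mapθ φ.unop u).f t' ht').op).app l)
        (Hm_val_map (Wr.Hom.g φ.unop t' t h1).op _)).trans ?_
      refine (sp_comp X _ _ _).symm.trans ?_
      refine Eq.trans ?_ (sp_comp X _ _ _)
      refine congrArg (fun r => (X.map (Quiver.Hom.op r)).app l _) ?_
      show jm (VS.mapθ φ.unop u).f t' ht' ≫ segMap (Wr.Hom.g φ.unop t' t h1) =
        φ.unop ≫ jm u.f t h2
      refine Wr.hom_ext' rfl fun i (j : Fin 1) hj hj' => ?_
      obtain rfl : j = 0 := Subsingleton.elim _ _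
      obtain rfl : i = t' := hj'.unique ht'
      have e3 := Wr.comp_g (jm (VS.mapθ φ.unop u).f i ht') (segMap (Wr.Hom.g φ.unop i t h1))
        (i := i) (j := (0 : Fin 1)) (k := (0 : Fin 1)) ht' (jump_id.mpr rfl)
      have e4 := Wr.comp_g φ.unop (jm u.f t h2) (i := i) (j := t) (k := (0 : Fin 1)) h1 h2
      refine e3.trans (Eq.trans ?_ e4.symm)
      refine (congrArg₂ (· ≫ ·) (jm_g (VS.mapθ φ.unop u).f i ht' ht')
        (Wr.ofComp_g (X := fun _ : Fin 1 => θ'.unop.obj i) (Y := fun _ : Fin 1 => θ.unop.obj t)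
          (fun _ => Wr.Hom.g φ.unop i t h1) 0 (jump_id.mpr rfl))).trans ?_
      refine Eq.trans ?_ (congrArg (Wr.Hom.g φ.unop i t h1 ≫ ·) (jm_g u.f t h2 h2)).symm
      exact (Category.id_comp _).trans (Category.comp_id _).symm
    · rw [susApp_const ψ θ' l s _ i hi]
      rcases cases_VS u with ⟨t, ht⟩ | ⟨j, hj⟩
      · rw [susApp_jump ψ θ l s u t ht]
        refine Eq.trans ?_ (sp_comp X _ _ _)
        refine (congrArg ((X.map (Wr.toPt θ'.unop).op).app l) (Hm_ends
          (ψ.app (op (θ.unop.obj t)) l s (u.g t 0 ht)) i).symm).trans ?_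
        refine (sp_comp X _ _ _).symm.trans ?_
        refine congrArg (fun r => (X.map (Quiver.Hom.op r)).app l _) ?_
        show Wr.toPt θ'.unop ≫ vtx (seg (θ.unop.obj t)) i = φ.unop ≫ jm u.f t ht
        refine Wr.hom_ext' ?_ fun p (q : Fin 1) hq hq' => ?_
        · ext p
          exact congrArg Fin.val (hi p).symm
        · exfalso
          obtain rfl : q = 0 := Subsingleton.elim _ _
          exact not_jump_const hi p hq'
      · rw [susApp_const ψ θ l s u j hj]
        refine Eq.trans ?_ (sp_comp X _ _ _)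
        have e : j = i := (hj _).symm.trans (hi 0)
        rw [e]
        exact congrArg (fun r => (X.map (Quiver.Hom.op r)).app l _) (Wr.toPt_unique _ _)
  nat_right θ {k l} α s u := by
    show susApp ψ θ l (α.unop ≫ s) (VS.mapk α u) = (X.obj θ).map α (susApp ψ θ k s u)
    rcases cases_VS u with ⟨t, ht⟩ | ⟨j, hj⟩
    · rw [susApp_jump ψ θ k s u t ht]
      refine (susApp_jump ψ θ l (α.unop ≫ s) (VS.mapk α u) t ht).trans ?_
      refine Eq.trans ?_ (sp_nat X _ α _)
      refine congrArg ((X.map (jm u.f t ht).op).app l) ?_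
      exact congrArg Hm.val (ψ.nat_right (op (θ.unop.obj t)) α s (u.g t 0 ht))
    · rw [susApp_const ψ θ k s u j hj]
      refine (susApp_const ψ θ l (α.unop ≫ s) (VS.mapk α u) j hj).trans ?_
      refine Eq.trans ?_ (sp_nat X _ α _)
      rw [cst_map]

lemma sus_vsOf {B : SP C} {m : SimplexCategory} (ψ : MpS B (Hm X x y) m) (c : Cᵒᵖ)
    (l : SimplexCategoryᵒᵖ) (s : l.unop ⟶ m) (b : (B.obj c).obj l) :
    (sus ψ).app (op (seg c.unop)) l s (vsOf B b) = Hm.val (ψ.app c l s b) := by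
  have h : Jump (OrderHom.id : Fin (1 + 1) →o Fin (1 + 1)) 0 0 := jump_id.mpr rfl
  refine (susApp_jump ψ (op (seg c.unop)) l s (vsOf B b) (0 : Fin 1) h).trans ?_
  refine Eq.trans ?_ (sp_id X _)
  refine congrArg (fun r => (X.map (Quiver.Hom.op r)).app l _) ?_
  refine Wr.hom_ext' rfl fun i (j : Fin 1) hj hj' => ?_
  obtain rfl : i = j := Subsingleton.elim (α := Fin 1) _ _
  obtain rfl : i = 0 := Subsingleton.elim (α := Fin 1) _ _
  rfl

lemma sus_vsEnd {B : SP C} {m : SimplexCategory} (ψ : MpS B (Hm X x y) m)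
    (θ : (Wr C)ᵒᵖ) (l : SimplexCategoryᵒᵖ) (s : l.unop ⟶ m) (i : Fin 2) :
    (sus ψ).app θ l s (vsEnd B i θ.unop l) =
      (X.map (Wr.toPt θ.unop).op).app l (cst (X.obj (op Wr.pt)) (pk x y i) l) :=
  susApp_const ψ θ l s _ i fun _ => rfl

lemma sus_vsEnd_pt {B : SP C} {m : SimplexCategory} (ψ : MpS B (Hm X x y) m)
    (l : SimplexCategoryᵒᵖ) (s : l.unop ⟶ m) (i : Fin 2) :
    (sus ψ).app (op Wr.pt) l s (vsEnd B i Wr.pt l) =
      cst (X.obj (op Wr.pt)) (pk x y i) l := by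
  refine (sus_vsEnd ψ (op Wr.pt) l s i).trans ?_
  refine Eq.trans ?_ (sp_id X _)
  exact congrArg (fun r => (X.map (Quiver.Hom.op r)).app l _) (Wr.toPt_unique _ _)

/-- Two maps out of `V[1](B) × Δ[m]` which agree on the simplices `(id, b)` and on the two ends
are equal. -/
lemma V1_ext {B : SP C} {m : SimplexCategory} {φ φ' : MpS (V1 B) X m}
    (h : ∀ (c : Cᵒᵖ) (l : SimplexCategoryᵒᵖ) (s : l.unop ⟶ m) (b : (B.obj c).obj l),
      φ.app (op (seg c.unop)) l s (vsOf B b) = φ'.app (op (seg c.unop)) l s (vsOf B b))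
    (h' : ∀ (i : Fin 2) (l : SimplexCategoryᵒᵖ) (s : l.unop ⟶ m),
      φ.app (op Wr.pt) l s (vsEnd B i Wr.pt l) = φ'.app (op Wr.pt) l s (vsEnd B i Wr.pt l)) :
    φ = φ' := by
  refine MpS.ext ?_
  funext θ l s (u : VS (fun _ : Fin 1 => B) θ.unop l)
  rcases cases_VS u with ⟨t, ht⟩ | ⟨j, hj⟩
  · have e := eq_map_jm u t ht
    have e1 := φ.nat_left (jm u.f t ht).op l s (vsOf B (u.g t 0 ht))
    have e2 := φ'.nat_left (jm u.f t ht).op l s (vsOf B (u.g t 0 ht))
    have e3 := h (op (θ.unop.obj t)) l s (u.g t 0 ht)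
    refine (congrArg (φ.app θ l s) e).symm.trans (Eq.trans ?_ (congrArg (φ'.app θ l s) e))
    refine e1.trans (Eq.trans ?_ e2.symm)
    exact congrArg ((X.map (jm u.f t ht).op).app l) e3
  · have e := (mapθ_vsEnd (B := B) (Wr.toPt θ.unop) j l).trans (eq_vsEnd u j hj).symm
    have e1 := φ.nat_left (Wr.toPt θ.unop).op l s (vsEnd B j Wr.pt l)
    have e2 := φ'.nat_left (Wr.toPt θ.unop).op l s (vsEnd B j Wr.pt l)
    have e3 := h' j l s
    refine (congrArg (φ.app θ l s) e).symm.trans (Eq.trans ?_ (congrArg (φ'.app θ l s) e))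
    refine e1.trans (Eq.trans ?_ e2.symm)
    exact congrArg ((X.map (Wr.toPt θ.unop).op).app l) e3

/-- The map `B × Δ[m] ⟶ X(x, y)` attached to a map `V[1](B) × Δ[m] ⟶ X` with ends `x`, `y`. -/
def desus {B : SP C} {m : SimplexCategory} (φ : MpS (V1 B) X m)
    (h : ∀ (i : Fin 2) (l : SimplexCategoryᵒᵖ) (s : l.unop ⟶ m),
      φ.app (op Wr.pt) l s (vsEnd B i Wr.pt l) = cst (X.obj (op Wr.pt)) (pk x y i) l) :
    MpS B (Hm X x y) m where
  app c l s b := ⟨φ.app (op (seg c.unop)) l s (vsOf B b), by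
    have key : ∀ i : Fin 2, (X.map (vtx (seg c.unop) i).op).app l
        (φ.app (op (seg c.unop)) l s (vsOf B b)) = cst (X.obj (op Wr.pt)) (pk x y i) l := by
      intro i
      refine (φ.nat_left (vtx (seg c.unop) i).op l s (vsOf B b)).symm.trans ?_
      refine Eq.trans ?_ (h i l s)
      exact congrArg (φ.app (op Wr.pt) l s) (mapθ_vsOf_vtx b i)
    exact Prod.ext (key 0) (key 1)⟩
  nat_left {c c'} f l s b := by
    refine Subtype.ext ?_
    refine Eq.trans ?_ (φ.nat_left (segMap f.unop).op l s (vsOf B b))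
    refine congrArg (φ.app (op (seg c'.unop)) l s) ?_
    refine VS.ext' rfl fun (i : Fin 1) (j : Fin 1) hj hj' => ?_
    obtain rfl : i = j := Subsingleton.elim (α := Fin 1) _ _
    refine Eq.trans ?_ (VS.mapθ_g (segMap f.unop) (vsOf B b) (i := i) (j := i) (l := i)
      (jump_id.mpr rfl) (jump_id.mpr rfl)).symm
    refine congrArg (fun r => (B.map (Quiver.Hom.op r)).app l b) ?_
    exact (Wr.ofComp_g (X := fun _ : Fin 1 => c'.unop) (Y := fun _ : Fin 1 => c.unop)
      (fun _ => f.unop) i (jump_id.mpr rfl)).symm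
  nat_right c {k l} α s b := by
    refine Subtype.ext ?_
    exact φ.nat_right (op (seg c.unop)) α s (vsOf B b)

lemma desus_sus {B : SP C} {m : SimplexCategory} (ψ : MpS B (Hm X x y) m)
    (h : ∀ (i : Fin 2) (l : SimplexCategoryᵒᵖ) (s : l.unop ⟶ m),
      (sus ψ).app (op Wr.pt) l s (vsEnd B i Wr.pt l) = cst (X.obj (op Wr.pt)) (pk x y i) l) :
    desus (sus ψ) h = ψ := by
  refine MpS.ext ?_
  funext c l s b
  exact Subtype.ext (sus_vsOf ψ c l s b)

lemma sus_desus {B : SP C} {m : SimplexCategory} (φ : MpS (V1 B) X m)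
    (h : ∀ (i : Fin 2) (l : SimplexCategoryᵒᵖ) (s : l.unop ⟶ m),
      φ.app (op Wr.pt) l s (vsEnd B i Wr.pt l) = cst (X.obj (op Wr.pt)) (pk x y i) l) :
    sus (desus φ h) = φ :=
  V1_ext (fun c l s b => sus_vsOf (desus φ h) c l s b)
    fun i l s => (sus_vsEnd_pt (desus φ h) l s i).trans (h i l s).symm

lemma fb_ends {B : SP C} {k : SimplexCategoryᵒᵖ} (φ : (Fb (endsV B X) (x, y)).obj k) (i : Fin 2)
    (l : SimplexCategoryᵒᵖ) (s : l.unop ⟶ k.unop) :
    (φ.1 : MpS (V1 B) X k.unop).app (op Wr.pt) l s (vsEnd B i Wr.pt l) =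
      cst (X.obj (op Wr.pt)) (pk x y i) l := by
  have h := φ.2
  have h0 : (φ.1 : MpS (V1 B) X k.unop).app (op Wr.pt) k (𝟙 _) (vsEnd B 0 Wr.pt k) =
      cst (X.obj (op Wr.pt)) x k := congrArg Prod.fst h
  have h1 : (φ.1 : MpS (V1 B) X k.unop).app (op Wr.pt) k (𝟙 _) (vsEnd B 1 Wr.pt k) =
      cst (X.obj (op Wr.pt)) y k := congrArg Prod.snd h
  have hi : (φ.1 : MpS (V1 B) X k.unop).app (op Wr.pt) k (𝟙 _) (vsEnd B i Wr.pt k) =
      cst (X.obj (op Wr.pt)) (pk x y i) k := by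
    fin_cases i
    · exact h0
    · exact h1
  have e := (φ.1 : MpS (V1 B) X k.unop).nat_right (op Wr.pt) s.op (𝟙 _) (vsEnd B i Wr.pt k)
  rw [hi, cst_map] at e
  refine Eq.trans ?_ e
  have e1 : s.op.unop ≫ 𝟙 k.unop = s := Category.comp_id s
  rw [e1]
  refine congrArg ((φ.1 : MpS (V1 B) X k.unop).app (op Wr.pt) l s) ?_
  exact VS.ext' rfl fun (p : Fin 0) => p.elim0

lemma ends_sus {B : SP C} {k : SimplexCategoryᵒᵖ} (ψ : MpS B (Hm X x y) k.unop) :
    (endsV B X).app k (sus ψ) = cst (X.obj (op Wr.pt) ⊗ X.obj (op Wr.pt)) (x, y) k :=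
  Prod.ext (sus_vsEnd_pt ψ k (𝟙 _) 0) (sus_vsEnd_pt ψ k (𝟙 _) 1)

lemma sus_res {B : SP C} {m n : SimplexCategory} (α : n ⟶ m) (ψ : MpS B (Hm X x y) m) :
    sus (ψ.res α) = (sus ψ).res α :=
  V1_ext (fun c l s b => (sus_vsOf (ψ.res α) c l s b).trans (sus_vsOf ψ c l (s ≫ α) b).symm)
    fun i l s => (sus_vsEnd_pt (ψ.res α) l s i).trans (sus_vsEnd_pt ψ l (s ≫ α) i).symm

/-- The adjunction isomorphism. -/
noncomputable def hmAdj (B : SP C) (X : SP (Wr C)) (x y : Vt X) :
    Mp B (Hm X x y) ≅ Fb (endsV B X) (x, y) where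
  hom :=
    { app := fun k => ↾ fun (ψ : MpS B (Hm X x y) k.unop) => ⟨sus ψ, ends_sus ψ⟩
      naturality := fun k l α => by
        refine ConcreteCategory.hom_ext _ _ fun (ψ : MpS B (Hm X x y) k.unop) => ?_
        exact Subtype.ext (sus_res α.unop ψ) }
  inv :=
    { app := fun k => ↾ fun φ => desus φ.1 (fb_ends φ)
      naturality := fun k l α => by
        refine ConcreteCategory.hom_ext _ _ fun φ => ?_
        rfl }
  hom_inv_id := by
    refine NatTrans.ext (funext fun k => ?_)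
    refine ConcreteCategory.hom_ext _ _ fun (ψ : MpS B (Hm X x y) k.unop) => ?_
    exact desus_sus ψ fun i l s => sus_vsEnd_pt ψ l s i
  inv_hom_id := by
    refine NatTrans.ext (funext fun k => ?_)
    refine ConcreteCategory.hom_ext _ _ fun φ => ?_
    exact Subtype.ext (sus_desus φ.1 (fb_ends φ))

end

theorem exists_HmAdj (B : SP C) (X : SP (Wr C)) (x y : Vt X) :
    ∃ e : Mp B (Hm X x y) ≅ Fb (endsV B X) (x, y),
      ∀ (k : SimplexCategoryᵒᵖ) (φ : (Fb (endsV B X) (x, y)).obj k) (c : Cᵒᵖ)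
        (l : SimplexCategoryᵒᵖ) (s : l.unop ⟶ k.unop) (b : (B.obj c).obj l),
        Hm.val ((e.inv.app k φ : MpS B (Hm X x y) k.unop).app c l s b) =
          (φ.1 : MpS (V1 B) X k.unop).app (op (seg c.unop)) l s (vsOf B b) :=
  ⟨hmAdj B X x y, fun _ _ _ _ _ _ => rfl⟩

/-! ### Strict maps -/

section

open Pool.Agent.Helper91.FL2 (toHom toHom_ofHom)

variable {X : SP (Wr C)} {x y : Vt X}

/-- The map `V[1](P) ⟶ X` attached to `P ⟶ X(x, y)`. -/
noncomputable def susH {P : SP C} (f : P ⟶ Hm X x y) : V1 P ⟶ X :=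
  toHom (sus (MpS.ofHom (SimplexCategory.mk 0) f))

lemma susH_vsOf {P : SP C} (f : P ⟶ Hm X x y) (c : Cᵒᵖ) (l : SimplexCategoryᵒᵖ)
    (b : (P.obj c).obj l) :
    ((susH f).app (op (seg c.unop))).app l (vsOf P b) = Hm.val ((f.app c).app l b) :=
  sus_vsOf (MpS.ofHom (SimplexCategory.mk 0) f) c l
    (SimplexCategory.const l.unop (SimplexCategory.mk 0) 0) b

lemma susH_vsEnd {P : SP C} (f : P ⟶ Hm X x y) (i : Fin 2) (l : SimplexCategoryᵒᵖ) :
    ((susH f).app (op Wr.pt)).app l (vsEnd P i Wr.pt l) = cst (X.obj (op Wr.pt)) (pk x y i) l :=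
  sus_vsEnd_pt (MpS.ofHom (SimplexCategory.mk 0) f) l
    (SimplexCategory.const l.unop (SimplexCategory.mk 0) 0) i

lemma V1_extH {B : SP C} {f f' : V1 B ⟶ X}
    (h : ∀ (c : Cᵒᵖ) (l : SimplexCategoryᵒᵖ) (b : (B.obj c).obj l),
      (f.app (op (seg c.unop))).app l (vsOf B b) = (f'.app (op (seg c.unop))).app l (vsOf B b))
    (h' : ∀ (i : Fin 2) (l : SimplexCategoryᵒᵖ),
      (f.app (op Wr.pt)).app l (vsEnd B i Wr.pt l) =
        (f'.app (op Wr.pt)).app l (vsEnd B i Wr.pt l)) :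
    f = f' := by
  have e : MpS.ofHom (SimplexCategory.mk 0) f = MpS.ofHom (SimplexCategory.mk 0) f' :=
    V1_ext (fun c l s b => h c l b) fun i l s => h' i l
  have e2 := congrArg toHom e
  rwa [toHom_ofHom, toHom_ofHom] at e2

/-- The map `P ⟶ X(x, y)` attached to a map `V[1](P) ⟶ X` with ends `x`, `y`. -/
noncomputable def desusH {P : SP C} (g : V1 P ⟶ X)
    (h : ∀ (i : Fin 2) (l : SimplexCategoryᵒᵖ), (g.app (op Wr.pt)).app l (vsEnd P i Wr.pt l) =
      cst (X.obj (op Wr.pt)) (pk x y i) l) : P ⟶ Hm X x y :=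
  toHom (desus (MpS.ofHom (SimplexCategory.mk 0) g) fun i l _ => h i l)

lemma desusH_val {P : SP C} (g : V1 P ⟶ X)
    (h : ∀ (i : Fin 2) (l : SimplexCategoryᵒᵖ), (g.app (op Wr.pt)).app l (vsEnd P i Wr.pt l) =
      cst (X.obj (op Wr.pt)) (pk x y i) l) (c : Cᵒᵖ) (l : SimplexCategoryᵒᵖ)
    (b : (P.obj c).obj l) :
    Hm.val (((desusH g h).app c).app l b) = (g.app (op (seg c.unop))).app l (vsOf P b) := rfl

lemma V1map_vsOf {P Q : SP C} (i : P ⟶ Q) {c : Cᵒᵖ} {l : SimplexCategoryᵒᵖ}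
    (b : (P.obj c).obj l) :
    ((V1map i).app (op (seg c.unop))).app l (vsOf P b) = vsOf Q ((i.app c).app l b) := rfl

lemma V1map_vsEnd {P Q : SP C} (i : P ⟶ Q) (θ : (Wr C)ᵒᵖ) (l : SimplexCategoryᵒᵖ) (j : Fin 2) :
    ((V1map i).app θ).app l (vsEnd P j θ.unop l) = vsEnd Q j θ.unop l :=
  eq_vsEnd _ j fun _ => rfl

end

end Helper53FL2
end

/- Helper53.FL2.Inj -/
section
/-!
# FL2, module V1 HMADJ, second part: mapping presheaves and injective fibrations
-/

open CategoryTheory MonoidalCategory Opposite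

set_option autoImplicit false

namespace Helper53FL2

open FL

variable {C : Type} [SmallCategory C]

lemma mono_inj {K L : SSet.{0}} (i : K ⟶ L) [Mono i] (k : SimplexCategoryᵒᵖ) :
    Function.Injective (i.app k) := fun _ _ h => Pool.Agent.Helper83.FL4.j_inj i h

lemma mono_of_inj {K L : SSet.{0}} (i : K ⟶ L) (h : ∀ k, Function.Injective (i.app k)) :
    Mono i := by
  have h : ∀ k, Mono (i.app k) := fun k => (mono_iff_injective _).2 (h k)
  exact NatTrans.mono_of_mono_app _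

theorem V1map_mono {P Q : SP C} (i : P ⟶ Q) (hi : ∀ a, Mono (i.app a)) (θ : (Wr C)ᵒᵖ) :
    Mono ((V1map i).app θ) := by
  refine mono_of_inj _ fun k => ?_
  intro (u : VS (fun _ : Fin 1 => P) θ.unop k) (v : VS (fun _ : Fin 1 => P) θ.unop k) h
  have hh : u.push (fun _ => i) = v.push (fun _ => i) := h
  have hf : (u.push fun _ => i).f = (v.push fun _ => i).f := congrArg VS.f hh
  refine VS.ext' hf fun p j hj hj' => ?_
  apply mono_inj (i.app (op (θ.unop.obj p))) k
  have aux : ∀ (a b : VS (fun _ : Fin 1 => Q) θ.unop k) (_ : a = b) (h1 : Jump a.f p j)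
      (h2 : Jump b.f p j), a.g p j h1 = b.g p j h2 := by
    rintro a _ rfl h1 h2
    rfl
  exact aux _ _ hh hj hj'

section WE

variable {P Q : SP C} (i : P ⟶ Q) (θ : (Wr C)ᵒᵖ)

/-- The inclusion of a component of `V[1](P)(θ)`. -/
noncomputable def comp1 (P : SP C) (θ : (Wr C)ᵒᵖ) (f : Fin (θ.unop.len + 1) →o Fin (1 + 1))
    (t : Fin θ.unop.len) (h : Jump f t 0) : P.obj (op (θ.unop.obj t)) ⟶ (V1 P).obj θ where
  app k := ↾ fun p => (VS.mapθ (jm f t h) (vsOf P p) : VS (fun _ : Fin 1 => P) θ.unop k)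
  naturality k l α := by
    refine ConcreteCategory.hom_ext _ _ fun p => ?_
    exact sp_nat (V1 P) (jm f t h).op α (vsOf P p)

lemma comp1_nat (f : Fin (θ.unop.len + 1) →o Fin (1 + 1))
    (t : Fin θ.unop.len) (h : Jump f t 0) :
    i.app (op (θ.unop.obj t)) ≫ comp1 Q θ f t h = comp1 P θ f t h ≫ (V1map i).app θ := by
  refine NatTrans.ext (funext fun k => ?_)
  refine ConcreteCategory.hom_ext _ _ fun p => ?_
  exact (hom_nat (V1map i) (jm f t h).op (vsOf P p)).symm

theorem V1map_we (hi : TrivCof i) : WE ((V1map i).app θ) := by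
  classical
  have := V1map_mono i hi.1 θ
  rw [Helper85FL.we_iff_lift]
  intro E B p hE hB hp
  refine ⟨fun {u v} sq => ?_⟩
  -- the lifts on the components
  have hl : ∀ (f : Fin (θ.unop.len + 1) →o Fin (1 + 1)) (t : Fin θ.unop.len) (h : Jump f t 0),
      ∃ l : Q.obj (op (θ.unop.obj t)) ⟶ E, i.app (op (θ.unop.obj t)) ≫ l = comp1 P θ f t h ≫ u ∧
        l ≫ p = comp1 Q θ f t h ≫ v := by
    intro f t h
    have := hi.1 (op (θ.unop.obj t))
    have hlift : HasLiftingProperty (i.app (op (θ.unop.obj t))) p :=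
      (Helper85FL.we_iff_lift _).mp (hi.2 _) p hE hB hp
    have sq' : CommSq (comp1 P θ f t h ≫ u) (i.app (op (θ.unop.obj t))) p
        (comp1 Q θ f t h ≫ v) := ⟨by
      rw [Category.assoc, sq.w, ← Category.assoc, ← comp1_nat, Category.assoc]⟩
    exact ⟨sq'.lift, sq'.fac_left, sq'.fac_right⟩
  choose l hl1 hl2 using hl
  let L : ∀ (k : SimplexCategoryᵒᵖ), VS (fun _ : Fin 1 => Q) θ.unop k → E.obj k := fun k w =>
    if h : ∃ t, Jump w.f t 0 then
      (l w.f h.choose h.choose_spec).app k (w.g h.choose 0 h.choose_spec)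
    else u.app k (vsEnd P (w.f 0) θ.unop k)
  have Lj : ∀ (k : SimplexCategoryᵒᵖ) (w : VS (fun _ : Fin 1 => Q) θ.unop k)
      (t : Fin θ.unop.len) (h : Jump w.f t 0), L k w = (l w.f t h).app k (w.g t 0 h) := by
    intro k w t h
    have hex : ∃ t, Jump w.f t 0 := ⟨t, h⟩
    show (if h : ∃ t, Jump w.f t 0 then
      (l w.f h.choose h.choose_spec).app k (w.g h.choose 0 h.choose_spec)
      else u.app k (vsEnd P (w.f 0) θ.unop k)) = _
    rw [dif_pos hex]
    have e : hex.choose = t := hex.choose_spec.unique h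
    have aux : ∀ (t' : Fin θ.unop.len) (_ : t' = t) (h' : Jump w.f t' 0),
        (l w.f t' h').app k (w.g t' 0 h') = (l w.f t h).app k (w.g t 0 h) := by
      rintro t' rfl h'
      rfl
    exact aux _ e _
  have Lc : ∀ (k : SimplexCategoryᵒᵖ) (w : VS (fun _ : Fin 1 => Q) θ.unop k)
      (j : Fin 2) (h : ∀ q, w.f q = j), L k w = u.app k (vsEnd P j θ.unop k) := by
    intro k w j h
    have hex : ¬ ∃ t, Jump w.f t 0 := fun ⟨t, ht⟩ => not_jump_const h t ht
    show (if h : ∃ t, Jump w.f t 0 then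
      (l w.f h.choose h.choose_spec).app k (w.g h.choose 0 h.choose_spec)
      else u.app k (vsEnd P (w.f 0) θ.unop k)) = _
    rw [dif_neg hex, h 0]
  have Ln : ∀ {k k' : SimplexCategoryᵒᵖ} (α : k ⟶ k'),
      ((V1 Q).obj θ).map α ≫ (↾ (L k')) = (↾ (L k)) ≫ E.map α := by
    intro k k' α
    refine ConcreteCategory.hom_ext _ _ fun (w : VS (fun _ : Fin 1 => Q) θ.unop k) => ?_
    show L k' (VS.mapk α w) = E.map α (L k w)
    rcases cases_VS w with ⟨t, ht⟩ | ⟨j, hj⟩
    · rw [Lj k w t ht]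
      refine (Lj k' (VS.mapk α w) t ht).trans ?_
      exact sset_nat (l w.f t ht) α (w.g t 0 ht)
    · rw [Lc k w j hj]
      refine (Lc k' (VS.mapk α w) j hj).trans ?_
      refine Eq.trans ?_ (sset_nat u α (vsEnd P j θ.unop k))
      refine congrArg (u.app k') ?_
      exact (eq_vsEnd (VS.mapk α (vsEnd P j θ.unop k)) j fun _ => rfl).symm
  let L' : (V1 Q).obj θ ⟶ E := { app := fun k => ↾ (L k), naturality := fun _ _ α => Ln α }
  refine ⟨⟨{ l := L', fac_left := ?_, fac_right := ?_ }⟩⟩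
  · refine NatTrans.ext (funext fun k => ?_)
    refine ConcreteCategory.hom_ext _ _ fun (w : VS (fun _ : Fin 1 => P) θ.unop k) => ?_
    show L k (w.push fun _ => i) = u.app k w
    rcases cases_VS w with ⟨t, ht⟩ | ⟨j, hj⟩
    · refine (Lj k (w.push fun _ => i) t ht).trans ?_
      have e := ConcreteCategory.congr_hom (NatTrans.congr_app (hl1 w.f t ht) k) (w.g t 0 ht)
      refine Eq.trans e ?_
      exact congrArg (u.app k) (eq_map_jm w t ht)
    · refine (Lc k (w.push fun _ => i) j hj).trans ?_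
      exact congrArg (u.app k) (eq_vsEnd w j hj).symm
  · refine NatTrans.ext (funext fun k => ?_)
    refine ConcreteCategory.hom_ext _ _ fun (w : VS (fun _ : Fin 1 => Q) θ.unop k) => ?_
    show p.app k (L k w) = v.app k w
    rcases cases_VS w with ⟨t, ht⟩ | ⟨j, hj⟩
    · refine (congrArg (p.app k) (Lj k w t ht)).trans ?_
      have e := ConcreteCategory.congr_hom (NatTrans.congr_app (hl2 w.f t ht) k) (w.g t 0 ht)
      refine Eq.trans e ?_
      exact congrArg (v.app k) (eq_map_jm w t ht)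
    · refine (congrArg (p.app k) (Lc k w j hj)).trans ?_
      have e := ConcreteCategory.congr_hom (NatTrans.congr_app sq.w k) (vsEnd P j θ.unop k)
      refine Eq.trans e ?_
      refine congrArg (v.app k) ?_
      exact (V1map_vsEnd i θ k j).trans (eq_vsEnd w j hj).symm

end WE

theorem V1map_trivCof {P Q : SP C} (i : P ⟶ Q) (hi : TrivCof i) : TrivCof (V1map i) :=
  ⟨V1map_mono i hi.1, fun θ => V1map_we i θ hi⟩

theorem Hm_injFib {X : SP (Wr C)} (hX : InjFib X) (x y : Vt X) : InjFib (Hm X x y) := by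
  intro P Q i hi f
  obtain ⟨g, hg⟩ := hX (V1map i) (V1map_trivCof i hi) (susH f)
  have h1 : ∀ (j : Fin 2) (l : SimplexCategoryᵒᵖ), (g.app (op Wr.pt)).app l (vsEnd Q j Wr.pt l) =
      cst (X.obj (op Wr.pt)) (pk x y j) l := by
    intro j l
    refine Eq.trans ?_ (susH_vsEnd f j l)
    rw [← hg]
    exact congrArg ((g.app (op Wr.pt)).app l) (V1map_vsEnd i (op Wr.pt) l j).symm
  refine ⟨desusH g h1, ?_⟩
  refine NatTrans.ext (funext fun c => NatTrans.ext (funext fun l => ?_))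
  refine ConcreteCategory.hom_ext _ _ fun b => ?_
  refine Subtype.ext ?_
  refine Eq.trans ?_ (susH_vsOf f c l b)
  rw [← hg]
  rfl

/-- The lifting property for mapping presheaves. -/
theorem HmMap_lift {X Y : SP (Wr C)} {f : X ⟶ Y} {x y : Vt X} {P Q : SP C} (i : P ⟶ Q)
    (h : HasLiftingProperty (V1map i) f) : HasLiftingProperty i (HmMap f x y) := by
  refine ⟨fun {u v} sq => ?_⟩
  have hpk : ∀ j : Fin 2, pk (vtMap f x) (vtMap f y) j = vtMap f (pk x y j) := by
    intro j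
    fin_cases j
    · rfl
    · rfl
  have sq' : CommSq (susH u) (V1map i) f (susH v) := ⟨by
    refine V1_extH (fun c l b => ?_) fun j l => ?_
    · show (f.app _).app l (((susH u).app _).app l (vsOf P b)) =
        ((susH v).app _).app l (vsOf Q ((i.app c).app l b))
      rw [susH_vsOf, susH_vsOf]
      exact congrArg Hm.val (ConcreteCategory.congr_hom (NatTrans.congr_app
        (NatTrans.congr_app sq.w c) l) b)
    · show (f.app _).app l (((susH u).app _).app l (vsEnd P j Wr.pt l)) =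
        ((susH v).app (op Wr.pt)).app l (((V1map i).app (op Wr.pt)).app l (vsEnd P j Wr.pt l))
      refine (congrArg ((f.app (op Wr.pt)).app l) (susH_vsEnd u j l)).trans ?_
      refine Eq.trans ?_ (congrArg (((susH v).app (op Wr.pt)).app l)
        (V1map_vsEnd i (op Wr.pt) l j)).symm
      refine Eq.trans ?_ (susH_vsEnd v j l).symm
      rw [hpk]
      exact app_cst (f.app (op Wr.pt)) (pk x y j) l⟩
  have h1 : ∀ (j : Fin 2) (l : SimplexCategoryᵒᵖ),
      (sq'.lift.app (op Wr.pt)).app l (vsEnd Q j Wr.pt l) =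
      cst (X.obj (op Wr.pt)) (pk x y j) l := by
    intro j l
    refine Eq.trans ?_ (susH_vsEnd u j l)
    have e := ConcreteCategory.congr_hom (NatTrans.congr_app
      (NatTrans.congr_app sq'.fac_left (op Wr.pt)) l) (vsEnd P j Wr.pt l)
    refine Eq.trans ?_ e
    exact congrArg ((sq'.lift.app (op Wr.pt)).app l) (V1map_vsEnd i (op Wr.pt) l j).symm
  refine ⟨⟨{ l := desusH sq'.lift h1, fac_left := ?_, fac_right := ?_ }⟩⟩
  · refine NatTrans.ext (funext fun c => NatTrans.ext (funext fun l => ?_))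
    refine ConcreteCategory.hom_ext _ _ fun b => ?_
    refine Subtype.ext ?_
    refine Eq.trans ?_ (susH_vsOf u c l b)
    exact ConcreteCategory.congr_hom (NatTrans.congr_app
      (NatTrans.congr_app sq'.fac_left (op (seg c.unop))) l) (vsOf P b)
  · refine NatTrans.ext (funext fun c => NatTrans.ext (funext fun l => ?_))
    refine ConcreteCategory.hom_ext _ _ fun b => ?_
    refine Subtype.ext ?_
    refine Eq.trans ?_ (susH_vsOf v c l b)
    exact ConcreteCategory.congr_hom (NatTrans.congr_app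
      (NatTrans.congr_app sq'.fac_right (op (seg c.unop))) l) (vsOf Q b)

theorem HmMap_injFibration {X Y : SP (Wr C)} {f : X ⟶ Y} (hf : InjFibration f) (x y : Vt X) :
    InjFibration (HmMap f x y) := fun _ _ i hi => HmMap_lift i (hf _ (V1map_trivCof i hi))

theorem HmMap_injTrivFibration {X Y : SP (Wr C)} {f : X ⟶ Y} (hf : InjTrivFibration f)
    (x y : Vt X) : InjTrivFibration (HmMap f x y) :=
  fun _ _ i hi => HmMap_lift i (hf _ (V1map_mono i hi))

end Helper53FL2
end

/- Helper53.FL2.HmAdj -/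
section
/-!
# FL2, module V1 HMADJ, third part: vertices, locality of suspensions
-/

open CategoryTheory MonoidalCategory Opposite

set_option autoImplicit false

namespace Helper53FL2

open FL

variable {C : Type} [SmallCategory C]

/-! ### The presheaf with two points -/

/-- The presheaf `{0, 1}`. -/
noncomputable abbrev TP (C : Type) [SmallCategory C] : SP (Wr C) :=
  disc ((Functor.const (Wr C)ᵒᵖ).obj (Fin 2))

/-- One of the two components of a pair. -/
def sel {S : SSet.{0}} {k : SimplexCategoryᵒᵖ} (z : (S ⊗ S).obj k) (i : Fin 2) : S.obj k :=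
  if i = 0 then z.1 else z.2

lemma sel_map {S : SSet.{0}} {k l : SimplexCategoryᵒᵖ} (α : k ⟶ l) (z : (S ⊗ S).obj k)
    (i : Fin 2) : sel ((S ⊗ S).map α z) i = S.map α (sel z i) := by
  fin_cases i
  · rfl
  · rfl

/-- Maps out of the two points. -/
noncomputable def tpIso (X : SP (Wr C)) : Mp (TP C) X ≅ X.obj (op Wr.pt) ⊗ X.obj (op Wr.pt) where
  hom :=
    { app := fun k => ↾ fun (φ : MpS (TP C) X k.unop) =>
        (φ.app (op Wr.pt) k (𝟙 _) (0 : Fin 2), φ.app (op Wr.pt) k (𝟙 _) (1 : Fin 2))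
      naturality := fun k l α => by
        refine ConcreteCategory.hom_ext _ _ fun (φ : MpS (TP C) X k.unop) => ?_
        have key : ∀ i : Fin 2, φ.app (op Wr.pt) l (𝟙 _ ≫ α.unop) i =
            (X.obj (op Wr.pt)).map α (φ.app (op Wr.pt) k (𝟙 _) i) := by
          intro i
          refine Eq.trans ?_ (φ.nat_right (op Wr.pt) α (𝟙 _) i)
          rw [Category.comp_id, Category.id_comp]
          rfl
        exact Prod.ext (key 0) (key 1) }
  inv :=
    { app := fun k => ↾ fun (z : (X.obj (op Wr.pt) ⊗ X.obj (op Wr.pt)).obj k) =>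
        ({ app := fun θ l s (i : Fin 2) => (X.map (Wr.toPt θ.unop).op).app l
            ((X.obj (op Wr.pt)).map s.op (sel z i))
           nat_left := fun {θ θ'} φ l s (i : Fin 2) => by
            refine Eq.trans ?_ (sp_comp X _ _ _)
            exact congrArg (fun r => (X.map (Quiver.Hom.op r)).app l
              ((X.obj (op Wr.pt)).map s.op (sel z i))) (Wr.toPt_unique _ _)
           nat_right := fun θ {l l'} g s (i : Fin 2) => by
            refine Eq.trans ?_ (sp_nat X _ g _)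
            exact congrArg ((X.map (Wr.toPt θ.unop).op).app l') (sset_comp _ s.op g _) } :
          MpS (TP C) X k.unop)
      naturality := fun k l α => by
        refine ConcreteCategory.hom_ext _ _ fun z => ?_
        refine MpS.ext ?_
        funext θ m s (i : Fin 2)
        refine congrArg ((X.map (Wr.toPt θ.unop).op).app m) ?_
        refine (congrArg ((X.obj (op Wr.pt)).map s.op) (sel_map α z i)).trans ?_
        exact (sset_comp _ α s.op _).symm }
  hom_inv_id := by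
    refine NatTrans.ext (funext fun k => ?_)
    refine ConcreteCategory.hom_ext _ _ fun (φ : MpS (TP C) X k.unop) => ?_
    refine MpS.ext ?_
    funext θ m s (i : Fin 2)
    show (X.map (Wr.toPt θ.unop).op).app m ((X.obj (op Wr.pt)).map s.op
      (sel (S := X.obj (op Wr.pt)) (φ.app (op Wr.pt) k (𝟙 _) (0 : Fin 2),
        φ.app (op Wr.pt) k (𝟙 _) (1 : Fin 2)) i)) = φ.app θ m s i
    have e : sel (S := X.obj (op Wr.pt)) (k := k) (φ.app (op Wr.pt) k (𝟙 _) (0 : Fin 2),
        φ.app (op Wr.pt) k (𝟙 _) (1 : Fin 2)) i = φ.app (op Wr.pt) k (𝟙 _) i := by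
      fin_cases i
      · rfl
      · rfl
    rw [e]
    refine (congrArg ((X.map (Wr.toPt θ.unop).op).app m)
      (φ.nat_right (op Wr.pt) s.op (𝟙 _) i).symm).trans ?_
    refine (φ.nat_left (Wr.toPt θ.unop).op m (s.op.unop ≫ 𝟙 _) i).symm.trans ?_
    exact congrArg (fun r => φ.app θ m r i) (Category.comp_id s)
  inv_hom_id := by
    refine NatTrans.ext (funext fun k => ?_)
    refine ConcreteCategory.hom_ext _ _ fun z => ?_
    have key : ∀ i : Fin 2, (X.map (Wr.toPt Wr.pt).op).app k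
        ((X.obj (op Wr.pt)).map (𝟙 k.unop).op (sel z i)) = sel z i := by
      intro i
      refine (congrArg ((X.map (Wr.toPt Wr.pt).op).app k) (sset_id _ _)).trans ?_
      refine Eq.trans ?_ (sp_id X _)
      exact congrArg (fun r => (X.map (Quiver.Hom.op r)).app k _) (Wr.toPt_unique _ _)
    exact Prod.ext (key 0) (key 1)

lemma kanFib_of_isIso {E B : SSet.{0}} (p : E ⟶ B) [IsIso p] : KanFib p :=
  fun _ _ => inferInstance

lemma kan_pt2 {X : SP (Wr C)} (hX : InjFib X) :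
    SSet.KanComplex (X.obj (op Wr.pt) ⊗ X.obj (op Wr.pt)) :=
  Pool.Agent.Helper83.FL4.kan_of_kanFib (kanFib_of_isIso (tpIso X).inv)
    (Pool.Agent.Helper83.FL4.Mp_kan (TP C) hX)

/-! ### The ends of representables and suspensions -/

/-- The two vertices of `[1](c)`. -/
noncomputable def tpSeg (c : C) : TP C ⟶ rep (seg c) where
  app θ :=
    { app := fun k => ↾ fun (i : Fin 2) => (Wr.toPt θ.unop ≫ vtx (seg c) i : θ.unop ⟶ seg c)
      naturality := fun _ _ _ => rfl }
  naturality θ θ' φ := by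
    refine NatTrans.ext (funext fun k => ?_)
    refine ConcreteCategory.hom_ext _ _ fun (i : Fin 2) => ?_
    show Wr.toPt θ'.unop ≫ vtx (seg c) i = φ.unop ≫ Wr.toPt θ.unop ≫ vtx (seg c) i
    rw [← Category.assoc]
    exact congrArg (· ≫ vtx (seg c) i) (Wr.toPt_unique _ _)

lemma tpSeg_mono (c : C) (a : (Wr C)ᵒᵖ) : Mono ((tpSeg c).app a) := by
  refine mono_of_inj _ fun k => ?_
  intro (i : Fin 2) (j : Fin 2) h
  have h1 : Wr.toPt a.unop ≫ vtx (seg c) i = Wr.toPt a.unop ≫ vtx (seg c) j := h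
  have h2 := congrArg (fun r => Wr.Hom.f r 0) h1
  exact h2

/-- The two ends of `V[1](B)`. -/
noncomputable def tpV (B : SP C) : TP C ⟶ V1 B where
  app θ :=
    { app := fun k => ↾ fun (i : Fin 2) => vsEnd B i θ.unop k
      naturality := fun k l α => by
        refine ConcreteCategory.hom_ext _ _ fun (i : Fin 2) => ?_
        exact (eq_vsEnd (VS.mapk α (vsEnd B i θ.unop k)) i fun _ => rfl).symm }
  naturality θ θ' φ := by
    refine NatTrans.ext (funext fun k => ?_)
    refine ConcreteCategory.hom_ext _ _ fun (i : Fin 2) => ?_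
    exact (mapθ_vsEnd φ.unop i k).symm

lemma tpV_mono (B : SP C) (a : (Wr C)ᵒᵖ) : Mono ((tpV B).app a) := by
  refine mono_of_inj _ fun k => ?_
  intro (i : Fin 2) (j : Fin 2) h
  have h1 : vsEnd B i a.unop k = vsEnd B j a.unop k := h
  exact congrArg (fun r : VS (fun _ : Fin 1 => B) a.unop k => r.f 0) h1

lemma tpV_ends (B : SP C) (X : SP (Wr C)) : Mp.pre (tpV B) X ≫ (tpIso X).hom = endsV B X := rfl

theorem endsV_kanFib (B : SP C) {X : SP (Wr C)} (hX : InjFib X) : KanFib (endsV B X) := by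
  rw [← tpV_ends]
  exact Pool.Agent.Helper54.FL2.kanFib_comp
    (Pool.Agent.Helper83.FL4.Mp_pre_kanFib (tpV B) (tpV_mono B) hX)
    (kanFib_of_isIso (tpIso X).hom)

open Pool.Agent.Helper46.FLb (yoIn yoOut yoIn_yoOut)

lemma tpSeg_ends (c : C) (X : SP (Wr C)) :
    Mp.pre (tpSeg c) X ≫ (tpIso X).hom = yoOut X (op (seg c)) ≫ ends X c := by
  refine NatTrans.ext (funext fun k => ?_)
  refine ConcreteCategory.hom_ext _ _ fun (φ : MpS (rep (seg c)) X k.unop) => ?_
  have key : ∀ i : Fin 2, φ.app (op Wr.pt) k (𝟙 _) (Wr.toPt Wr.pt ≫ vtx (seg c) i) =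
      (X.map (vtx (seg c) i).op).app k (φ.app (op (seg c)) k (𝟙 _) (𝟙 (seg c))) := by
    intro i
    refine Eq.trans ?_ (φ.nat_left (vtx (seg c) i).op k (𝟙 _) (𝟙 (seg c)))
    refine congrArg (φ.app (op Wr.pt) k (𝟙 _)) ?_
    show Wr.toPt Wr.pt ≫ vtx (seg c) i = vtx (seg c) i ≫ 𝟙 (seg c)
    rw [Category.comp_id, Wr.toPt_unique (Wr.toPt Wr.pt) (𝟙 _), Category.id_comp]
  exact Prod.ext (key 0) (key 1)

theorem ends_kanFib {X : SP (Wr C)} (hX : InjFib X) (c : C) : KanFib (ends X c) := by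
  intro n i
  have h : KanFib (Mp.pre (tpSeg c) X ≫ (tpIso X).hom) :=
    Pool.Agent.Helper54.FL2.kanFib_comp
      (Pool.Agent.Helper83.FL4.Mp_pre_kanFib (tpSeg c) (tpSeg_mono c) hX)
      (kanFib_of_isIso (tpIso X).hom)
  rw [tpSeg_ends] at h
  have := h n i
  refine ⟨fun {u v} sq => ?_⟩
  have sq' : CommSq (u ≫ yoIn X (op (seg c))) (SSet.horn.{0} (n + 1) i).ι
      (yoOut X (op (seg c)) ≫ ends X c) v := ⟨by
    rw [Category.assoc, ← Category.assoc (yoIn X _), yoIn_yoOut, Category.id_comp, sq.w]⟩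
  refine ⟨⟨{ l := sq'.lift ≫ yoOut X (op (seg c)), fac_left := ?_, fac_right := ?_ }⟩⟩
  · rw [← Category.assoc, sq'.fac_left, Category.assoc, yoIn_yoOut, Category.comp_id]
  · rw [Category.assoc, sq'.fac_right]

theorem InjFib.vfib {X : SP (Wr C)} (hX : InjFib X) : VFib X :=
  ⟨Pool.Agent.Helper46.FLb.InjFib.objKan (fun X _ hZ => Pool.Agent.Helper83.FL4.Mp_kan X hZ) hX,
    fun c => ends_kanFib hX c⟩

/-! ### Locality of suspensions -/

lemma pre_endsV {X : SP (Wr C)} {B B' : SP C} (f : B ⟶ B') :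
    Mp.pre (V1map f) X ≫ endsV B X = endsV B' X ≫ 𝟙 _ := by
  refine NatTrans.ext (funext fun k => ?_)
  refine ConcreteCategory.hom_ext _ _ fun (φ : MpS (V1 B') X k.unop) => ?_
  have key : ∀ i : Fin 2, φ.app (op Wr.pt) k (𝟙 _)
      (((V1map f).app (op Wr.pt)).app k (vsEnd B i Wr.pt k)) =
      φ.app (op Wr.pt) k (𝟙 _) (vsEnd B' i Wr.pt k) := fun i =>
    congrArg (φ.app (op Wr.pt) k (𝟙 _)) (V1map_vsEnd f (op Wr.pt) k i)
  exact Prod.ext (key 0) (key 1)

/-- The map of fibres. -/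
noncomputable def fbm {X : SP (Wr C)} {B B' : SP C} (f : B ⟶ B') (x y : Vt X) :
    Fb (endsV B' X) (x, y) ⟶ Fb (endsV B X) (x, y) :=
  Fb.map (Mp.pre (V1map f) X) (𝟙 _) (pre_endsV f) (x, y)

lemma hmAdj_nat {X : SP (Wr C)} {B B' : SP C} (f : B ⟶ B') (x y : Vt X) :
    (hmAdj B' X x y).hom ≫ fbm f x y =
      Mp.pre f (Hm X x y) ≫ (hmAdj B X x y).hom := by
  refine NatTrans.ext (funext fun k => ?_)
  refine ConcreteCategory.hom_ext _ _ fun (ψ : MpS B' (Hm X x y) k.unop) => ?_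
  refine Subtype.ext ?_
  show (MpS.ofHom k.unop (V1map f)).comp (sus ψ) = sus ((MpS.ofHom k.unop f).comp ψ)
  refine V1_ext (fun c l s b => ?_) fun i l s => ?_
  · exact (sus_vsOf ψ c l s ((f.app c).app l b)).trans
      (sus_vsOf ((MpS.ofHom k.unop f).comp ψ) c l s b).symm
  · refine Eq.trans ?_ (sus_vsEnd_pt ((MpS.ofHom k.unop f).comp ψ) l s i).symm
    refine Eq.trans ?_ (sus_vsEnd_pt ψ l s i)
    exact congrArg ((sus ψ).app (op Wr.pt) l s) (V1map_vsEnd f (op Wr.pt) l i)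

lemma fb_hoEq_iff {X : SP (Wr C)} {B B' : SP C} (f : B ⟶ B') (x y : Vt X) :
    HoEq (Fb.map (Mp.pre (V1map f) X) (𝟙 _) (pre_endsV f) (x, y)) ↔ Loc (Hm X x y) f := by
  constructor
  · intro h
    refine Pool.Agent.Helper88.FL.hoEq_of_arrow_iso (hmAdj B' X x y).symm (hmAdj B X x y).symm
      ?_ h
    have e := hmAdj_nat (X := X) f x y
    have e2 := congrArg (fun r => (hmAdj B' X x y).inv ≫ r ≫ (hmAdj B X x y).inv) e
    simp only [Category.assoc, Iso.hom_inv_id, Iso.inv_hom_id_assoc, Category.comp_id] at e2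
    show fbm f x y ≫ (hmAdj B X x y).inv = (hmAdj B' X x y).inv ≫ Mp.pre f (Hm X x y)
    exact e2
  · intro h
    exact Pool.Agent.Helper88.FL.hoEq_of_arrow_iso (hmAdj B' X x y) (hmAdj B X x y)
      (hmAdj_nat f x y).symm h

theorem loc_V1map_iff {X : SP (Wr C)} (hX : InjFib X) {B B' : SP C} (f : B ⟶ B')
    (O : Set (Vt X)) (hO : ∀ z : Vt X, ∃ x ∈ O, Cn (X.obj (op Wr.pt)) x z) :
    Loc X (V1map f) ↔ ∀ x ∈ O, ∀ y ∈ O, Loc (Hm X x y) f := by
  have hK := kan_pt2 hX
  constructor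
  · intro h x _ y _
    rw [← fb_hoEq_iff]
    exact Pool.Agent.Helper54.FL2.Fb_map_hoEq (endsV_kanFib B' hX) (endsV_kanFib B hX) hK hK
      (Mp.pre (V1map f) X) (𝟙 _) (pre_endsV f) h
      (Pool.Agent.Helper88.FL.hoEq_of_isIso _) (x, y)
  · intro h
    refine Pool.Agent.Helper54.FL2.hoEq_of_fibres (endsV_kanFib B' hX) (endsV_kanFib B hX) hK hK
      (Mp.pre (V1map f) X) (𝟙 _) (pre_endsV f)
      (Pool.Agent.Helper88.FL.hoEq_of_isIso _) { z | z.1 ∈ O ∧ z.2 ∈ O } ?_ ?_
    · rintro ⟨a, b⟩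
      obtain ⟨x, hx, e, he0, he1⟩ := hO a
      obtain ⟨y, hy, e', he0', he1'⟩ := hO b
      exact ⟨(x, y), ⟨hx, hy⟩, (e, e'), Prod.ext he0 he0', Prod.ext he1 he1'⟩
    · rintro ⟨x, y⟩ ⟨hx, hy⟩
      exact (fb_hoEq_iff f x y).mpr (h x hx y hy)

end Helper53FL2
end

/- Helper41.FL2.V4 -/
section
/-!
# FL2-V4: recursive description of the Segal and completeness conditions
-/

open CategoryTheory MonoidalCategory Opposite HomotopicalAlgebra

set_option autoImplicit false

namespace Helper41FL2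

open FL Helper53FL2

section

variable {A : Type} [SmallCategory A]

/-- Locality only depends on the isomorphism class of an arrow. -/
theorem loc_of_arrow_iso' {X P Q P' Q' : SP A} {f : P ⟶ Q} {f' : P' ⟶ Q'} (e : P ≅ P')
    (e' : Q ≅ Q') (h : f ≫ e'.hom = e.hom ≫ f') (hf : Loc X f) : Loc X f' := by
  have h1 : e.inv ≫ f ≫ e'.hom = f' := by rw [h, ← Category.assoc, e.inv_hom_id, Category.id_comp]
  let i : Mp P' X ≅ Mp P X :=
    { hom := Mp.pre e.hom X
      inv := Mp.pre e.inv X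
      hom_inv_id := by
        show Mp.pre (e.inv ≫ e.hom) X = 𝟙 _
        rw [e.inv_hom_id]
        rfl
      inv_hom_id := by
        show Mp.pre (e.hom ≫ e.inv) X = 𝟙 _
        rw [e.hom_inv_id]
        rfl }
  let i' : Mp Q' X ≅ Mp Q X :=
    { hom := Mp.pre e'.hom X
      inv := Mp.pre e'.inv X
      hom_inv_id := by
        show Mp.pre (e'.inv ≫ e'.hom) X = 𝟙 _
        rw [e'.inv_hom_id]
        rfl
      inv_hom_id := by
        show Mp.pre (e'.hom ≫ e'.inv) X = 𝟙 _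
        rw [e'.hom_inv_id]
        rfl }
  refine Pool.Agent.Helper88.FL.hoEq_of_arrow_iso i'.symm i.symm ?_ hf
  show Mp.pre f X ≫ Mp.pre e.inv X = Mp.pre e'.inv X ≫ Mp.pre f' X
  show Mp.pre (e.inv ≫ f) X = Mp.pre (f' ≫ e'.inv) X
  rw [← h1, Category.assoc, Category.assoc, e'.hom_inv_id, Category.comp_id]

end

section

variable {C : Type} [SmallCategory C]

/-- `V[1](h_c) ≅ h_{[1](c)}`. -/
def V1rep (c : C) : V1 (rep c) ≅ rep (seg c) where
  hom := (VGyo C).app (seg c)
  inv :=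
    { app := fun η =>
        { app := fun k => ↾ fun (φ : η.unop ⟶ seg c) =>
            ({ f := Wr.Hom.f φ, g := fun i j h => Wr.Hom.g φ i j h } :
              VS (fun _ : Fin 1 => rep c) η.unop k)
          naturality := fun _ _ _ => rfl }
      naturality := fun η η' f => by
        refine NatTrans.ext (funext fun k => ?_)
        refine ConcreteCategory.hom_ext _ _ fun (φ : η.unop ⟶ seg c) => ?_
        refine VS.ext' rfl fun i l h h' => ?_
        obtain ⟨j, hj, hj'⟩ := Jump.split (f := Wr.Hom.f f.unop) (g := Wr.Hom.f φ) h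
        refine (Wr.comp_g f.unop φ hj hj').trans ?_
        exact (VS.mapθ_g f.unop ({ f := Wr.Hom.f φ, g := fun i j h => Wr.Hom.g φ i j h } :
              VS (fun _ : Fin 1 => rep c) η.unop k) hj hj').symm }
  hom_inv_id := rfl
  inv_hom_id := rfl

/-- `V[1](S) ≅` the suspension of `S`. -/
def V1sieve {c : C} (S : Sieve c) : V1 (disc S.functor) ≅ disc (suspSieve S).functor where
  hom :=
    { app := fun η =>
        { app := fun k => ↾ fun (u : VS (fun _ : Fin 1 => disc S.functor) η.unop k) =>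
            (⟨({ f := u.f, g := fun i j h => (u.g i j h).1 } : Wr.Hom η.unop (seg c)),
              fun i j h => (u.g i j h).2⟩ : (suspSieve S).functor.obj η)
          naturality := fun _ _ _ => rfl }
      naturality := fun η η' f => by
        refine NatTrans.ext (funext fun k => ?_)
        refine ConcreteCategory.hom_ext _ _ fun
          (u : VS (fun _ : Fin 1 => disc S.functor) η.unop k) => ?_
        refine Subtype.ext ?_
        refine Wr.hom_ext' rfl fun i l h h' => ?_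
        obtain ⟨j, hj, hj'⟩ := Jump.split (f := Wr.Hom.f f.unop) (g := u.f) h
        refine (congrArg Subtype.val (VS.mapθ_g f.unop u hj hj')).trans ?_
        exact (Wr.comp_g (X := η'.unop) (Y := η.unop) (Z := seg c) f.unop
          ({ f := u.f, g := fun i j h => (u.g i j h).1 } : Wr.Hom η.unop (seg c)) hj hj').symm }
  inv :=
    { app := fun η =>
        { app := fun k => ↾ fun (φ : (suspSieve S).functor.obj η) =>
            ({ f := Wr.Hom.f φ.1, g := fun i j h => ⟨Wr.Hom.g φ.1 i j h, φ.2 i j h⟩ } :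
              VS (fun _ : Fin 1 => disc S.functor) η.unop k)
          naturality := fun _ _ _ => rfl }
      naturality := fun η η' f => by
        refine NatTrans.ext (funext fun k => ?_)
        refine ConcreteCategory.hom_ext _ _ fun (φ : (suspSieve S).functor.obj η) => ?_
        refine VS.ext' rfl fun i l h h' => ?_
        obtain ⟨j, hj, hj'⟩ := Jump.split (f := Wr.Hom.f f.unop) (g := Wr.Hom.f φ.1) h
        refine Eq.trans ?_ (VS.mapθ_g f.unop
          ({ f := Wr.Hom.f φ.1, g := fun i j h => ⟨Wr.Hom.g φ.1 i j h, φ.2 i j h⟩ } :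
              VS (fun _ : Fin 1 => disc S.functor) η.unop k) hj hj').symm
        refine Subtype.ext ?_
        exact Wr.comp_g f.unop φ.1 hj hj' }
  hom_inv_id := rfl
  inv_hom_id := rfl

theorem V1sieve_incl {c : C} (S : Sieve c) :
    V1map (sieveIncl S) ≫ (V1rep c).hom = (V1sieve S).hom ≫ sieveIncl (suspSieve S) := rfl

theorem loc_susp_iff {X : SP (Wr C)} {c : C} (S : Sieve c) :
    Loc X (sieveIncl (suspSieve S)) ↔ Loc X (V1map (sieveIncl S)) := by
  constructor
  · intro h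
    refine loc_of_arrow_iso' (V1sieve S).symm (V1rep c).symm ?_ h
    rw [Iso.symm_hom, Iso.symm_hom, Iso.comp_inv_eq, Category.assoc, V1sieve_incl,
      ← Category.assoc, Iso.inv_hom_id, Category.id_comp]
  · intro h
    exact loc_of_arrow_iso' (V1sieve S) (V1rep c) (V1sieve_incl S) h

end

section

variable {n : ℕ}

theorem sg_succ_iff {X : SP (Th (n + 1))} (hX : InjFib X) (O : Set (Vt (C := Th n) X))
    (hO : ∀ z : Vt (C := Th n) X, ∃ x ∈ O, Cn (X.obj (op (ptT (n + 1)))) x z) :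
    Sg (n + 1) X ↔ SpLoc (C := Th n) X ∧ ∀ x ∈ O, ∀ y ∈ O, Sg n (Hm (C := Th n) X x y) := by
  constructor
  · rintro ⟨-, h⟩
    refine ⟨fun θ => h θ _ (SegCov.spine n θ), fun x hx y hy => ⟨Hm_injFib (C := Th n) hX x y, ?_⟩⟩
    intro θ S hS
    have h1 := h _ _ (SegCov.susp hS)
    have h2 := (loc_susp_iff (C := Th n) S).1 h1
    exact (loc_V1map_iff (C := Th n) hX (sieveIncl S) O hO).1 h2 x hx y hy
  · rintro ⟨h1, h2⟩
    refine ⟨hX, fun θ S hS => ?_⟩
    cases hS with
    | spine _ θ => exact h1 θ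
    | susp h =>
      refine (loc_susp_iff (C := Th n) _).2 ?_
      exact (loc_V1map_iff (C := Th n) hX (sieveIncl _) O hO).2 fun x hx y hy =>
        (h2 x hx y hy).2 _ _ h

theorem cj_succ_iff {j : ℕ} {X : SP (Th (n + 1))} (hX : InjFib X) (O : Set (Vt (C := Th n) X))
    (hO : ∀ z : Vt (C := Th n) X, ∃ x ∈ O, Cn (X.obj (op (ptT (n + 1)))) x z) :
    Cj (n + 1) (j + 1) X ↔ ∀ x ∈ O, ∀ y ∈ O, Cj n j (Hm (C := Th n) X x y) := by
  constructor
  · intro h x hx y hy P Q f hf
    exact (loc_V1map_iff (C := Th n) hX f O hO).1 (h _ _ _ (IsComplJ.susp f hf)) x hx y hy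
  · intro h P Q f hf
    cases hf with
    | susp f hf =>
      exact (loc_V1map_iff (C := Th n) hX f O hO).2 fun x hx y hy => h x hx y hy _ _ f hf

theorem cj_zero_iff {X : SP (Th (n + 1))} : Cj (n + 1) 0 X ↔ Loc X (isoMap (Th n)) := by
  constructor
  · intro h
    exact h _ _ _ (IsComplJ.base n)
  · intro h P Q f hf
    cases hf with
    | base _ => exact h

theorem isCompl_iff {P Q : SP (Th n)} (f : P ⟶ Q) : IsCompl n f ↔ ∃ j, IsComplJ n j f := by
  constructor
  · intro h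
    induction h with
    | base n => exact ⟨0, IsComplJ.base n⟩
    | susp f h ih =>
      obtain ⟨j, hj⟩ := ih
      exact ⟨j + 1, IsComplJ.susp f hj⟩
  · rintro ⟨j, hj⟩
    induction hj with
    | base n => exact IsCompl.base n
    | susp f h ih => exact IsCompl.susp f ih

theorem isCat_iff {X : SP (Th n)} : IsCat n X ↔ Sg n X ∧ ∀ j, Cj n j X := by
  constructor
  · rintro ⟨h1, h2, h3⟩
    exact ⟨⟨h1, h2⟩, fun j P Q f hf => h3 P Q f ((isCompl_iff f).2 ⟨j, hf⟩)⟩
  · rintro ⟨⟨h1, h2⟩, h3⟩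
    refine ⟨h1, h2, fun P Q f hf => ?_⟩
    obtain ⟨j, hj⟩ := (isCompl_iff f).1 hf
    exact h3 j P Q f hj

theorem sg_of_objHoEq {X Y : SP (Th n)} (hX : InjFib X) (hY : InjFib Y) {f : X ⟶ Y}
    (hf : ObjHoEq f) : Sg n X ↔ Sg n Y :=
  ⟨fun h => ⟨hY, fun θ S hS =>
      (Pool.Agent.Helper91.FL2.loc_iff_of_objHoEq hX hY hf (sieveIncl S)).1 (h.2 θ S hS)⟩,
    fun h => ⟨hX, fun θ S hS =>
      (Pool.Agent.Helper91.FL2.loc_iff_of_objHoEq hX hY hf (sieveIncl S)).2 (h.2 θ S hS)⟩⟩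

theorem cj_of_objHoEq {j : ℕ} {X Y : SP (Th n)} (hX : InjFib X) (hY : InjFib Y) {f : X ⟶ Y}
    (hf : ObjHoEq f) : Cj n j X ↔ Cj n j Y :=
  ⟨fun h P Q g hg =>
      (Pool.Agent.Helper91.FL2.loc_iff_of_objHoEq hX hY hf g).1 (h P Q g hg),
    fun h P Q g hg =>
      (Pool.Agent.Helper91.FL2.loc_iff_of_objHoEq hX hY hf g).2 (h P Q g hg)⟩

theorem isCat_of_objHoEq {X Y : SP (Th n)} (hX : InjFib X) (hY : InjFib Y) {f : X ⟶ Y}
    (hf : ObjHoEq f) : IsCat n X ↔ IsCat n Y := by
  rw [isCat_iff, isCat_iff]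
  exact and_congr (sg_of_objHoEq hX hY hf) (forall_congr' fun j => cj_of_objHoEq hX hY hf)

end

end Helper41FL2
end

/- Helper84.FLP.B3a -/
section
/-!
# FLP-B3: the Segal and the completeness conditions in the two forms
-/

open CategoryTheory MonoidalCategory CartesianMonoidalCategory Opposite

set_option autoImplicit false

namespace Helper84FLP

open FL (SP MpS HoEq InjFib InjFibration Th Wr)
open FLP

noncomputable section

variable {C : Type} [SmallCategory C]

/-- The two forms of the spine. -/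
def spineIso (θ : Wr C) :
    FLP.disc (FLP.spine θ).toFunctor ≅ FL.disc (FL.spine θ).functor where
  hom :=
    { app := fun η =>
        { app := fun k => ↾ fun (φ : (FLP.spine θ).toFunctor.obj η) =>
            (⟨φ.1, φ.2⟩ : (FL.spine θ).functor.obj η)
          naturality := fun _ _ _ => rfl }
      naturality := fun _ _ _ => rfl }
  inv :=
    { app := fun η =>
        { app := fun k => ↾ fun (φ : (FL.spine θ).functor.obj η) =>
            (⟨φ.1, φ.2⟩ : (FLP.spine θ).toFunctor.obj η)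
          naturality := fun _ _ _ => rfl }
      naturality := fun _ _ _ => rfl }
  hom_inv_id := rfl
  inv_hom_id := rfl

lemma spineIso_comm (θ : Wr C) :
    spineι θ ≫ (Iso.refl (FL.rep θ)).hom = (spineIso θ).hom ≫ FL.sieveIncl (FL.spine θ) := rfl

lemma spineIso_comm' (θ : Wr C) :
    FL.sieveIncl (FL.spine θ) ≫ (Iso.refl (FL.rep θ)).hom = (spineIso θ).symm.hom ≫ spineι θ :=
  rfl

theorem segal_iff {X : SP (Wr C)} : FLP.Segal X ↔ FL.SpLoc X := by
  constructor
  · intro h θ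
    exact Helper41FL2.loc_of_arrow_iso' (f := spineι θ) (f' := FL.sieveIncl (FL.spine θ))
      (spineIso θ) (Iso.refl _) (spineIso_comm θ) ((hoEq_pre_iff (spineι θ) X).1 (h θ))
  · intro h θ
    refine (hoEq_pre_iff (spineι θ) X).2 ?_
    exact Helper41FL2.loc_of_arrow_iso' (f := FL.sieveIncl (FL.spine θ)) (f' := spineι θ)
      (spineIso θ).symm (Iso.refl _) (spineIso_comm' θ) (h θ)

/-- The two forms of the nerve of the free-standing isomorphism. -/
def isoIso (C : Type) [SmallCategory C] : FLP.iso C ≅ FL.disc (FL.isoPsh C) where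
  hom :=
    { app := fun θ =>
        { app := fun k => ↾ fun (F : (nerve WalkingIso.{0}).obj (op (SimplexCategory.mk θ.unop.len))) =>
            (fun t => (F.obj t).as.down : Fin (θ.unop.len + 1) → Bool)
          naturality := fun _ _ _ => rfl }
      naturality := fun _ _ _ => rfl }
  inv :=
    { app := fun θ =>
        { app := fun k => ↾ fun (u : Fin (θ.unop.len + 1) → Bool) =>
            (Codiscrete.equivFun.symm (fun t => ULift.up (u t)) :
              (nerve WalkingIso.{0}).obj (op (SimplexCategory.mk θ.unop.len)))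
          naturality := fun _ _ _ => rfl }
      naturality := fun _ _ _ => rfl }
  hom_inv_id := by
    refine NatTrans.ext (funext fun θ => NatTrans.ext (funext fun k =>
      ConcreteCategory.hom_ext _ _ fun
        (F : (nerve WalkingIso.{0}).obj (op (SimplexCategory.mk θ.unop.len))) => ?_))
    exact Codiscrete.equivFun.symm_apply_apply F
  inv_hom_id := rfl

/-- The two forms of the terminal presheaf. -/
def unitIso (C : Type) [SmallCategory C] : 𝟙_ (SP (Wr C)) ≅ FL.one (Wr C) where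
  hom :=
    { app := fun θ =>
        { app := fun k => ↾ fun _ => PUnit.unit
          naturality := fun _ _ _ => rfl }
      naturality := fun _ _ _ => rfl }
  inv := toUnit _
  hom_inv_id := toUnit_unique _ _
  inv_hom_id := by
    refine NatTrans.ext (funext fun θ => NatTrans.ext (funext fun k =>
      ConcreteCategory.hom_ext _ _ fun (x : PUnit) => ?_))
    rfl

lemma isoIso_comm (C : Type) [SmallCategory C] :
    toUnit (FLP.iso C) ≫ (unitIso C).hom = (isoIso C).hom ≫ FL.isoMap C := by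
  refine NatTrans.ext (funext fun θ => NatTrans.ext (funext fun k =>
    ConcreteCategory.hom_ext _ _ fun x => ?_))
  rfl

lemma isoIso_comm' (C : Type) [SmallCategory C] :
    FL.isoMap C ≫ (unitIso C).symm.hom = (isoIso C).symm.hom ≫ toUnit (FLP.iso C) :=
  toUnit_unique _ _

theorem complete_iff {X : SP (Wr C)} : FLP.Complete X ↔ FL.Loc X (FL.isoMap C) := by
  constructor
  · intro h
    exact Helper41FL2.loc_of_arrow_iso' (isoIso C) (unitIso C) (isoIso_comm C)
      ((hoEq_pre_iff (toUnit (FLP.iso C)) X).1 h)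
  · intro h
    refine (hoEq_pre_iff (toUnit (FLP.iso C)) X).2 ?_
    exact Helper41FL2.loc_of_arrow_iso' (isoIso C).symm (unitIso C).symm (isoIso_comm' C) h

end

end Helper84FLP
end

/- Helper84.FLP.B3b -/
section
/-!
# FLP-B3: `(∞,n)`-categories in the two forms, modulo the comparison of mapping presheaves
-/

open CategoryTheory MonoidalCategory CartesianMonoidalCategory Opposite

set_option autoImplicit false

namespace Helper84FLP

open FL (SP MpS HoEq InjFib InjFibration Th Wr)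
open FLP

noncomputable section

/-- Injectively fibrant presheaves are invariant under isomorphism. -/
theorem injFib_of_iso {A : Type} [SmallCategory A] {X Y : SP A} (e : X ≅ Y) (h : InjFib X) :
    InjFib Y := by
  intro P Q i hi f
  obtain ⟨g, hg⟩ := h i hi (f ≫ e.inv)
  refine ⟨g ≫ e.hom, ?_⟩
  rw [← Category.assoc, hg, Category.assoc, e.inv_hom_id, Category.comp_id]

/-- Isomorphisms are objectwise homotopy equivalences. -/
theorem objHoEq_of_iso {A : Type} [SmallCategory A] {X Y : SP A} (e : X ≅ Y) :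
    FL.ObjHoEq e.hom := fun _ => Pool.Agent.Helper88.FL.hoEq_of_isIso _

/-- `(∞,n)`-categories are invariant under isomorphism. -/
theorem isCat_of_iso {n : ℕ} {X Y : SP (Th n)} (e : X ≅ Y) (h : FL.IsCat n X) : FL.IsCat n Y :=
  (Helper41FL2.isCat_of_objHoEq h.inj (injFib_of_iso e h.inj) (objHoEq_of_iso e)).1 h

/-- Vertices are connected to themselves. -/
theorem cn_refl (B : SSet.{0}) (b : B.obj (op (SimplexCategory.mk 0))) : FL.Cn B b b := by
  have e1 : SimplexCategory.δ (1 : Fin 2) ≫ SimplexCategory.σ (0 : Fin 1) = 𝟙 _ :=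
    SimplexCategory.δ_comp_σ_succ (i := (0 : Fin 1))
  have e0 : SimplexCategory.δ (0 : Fin 2) ≫ SimplexCategory.σ (0 : Fin 1) = 𝟙 _ :=
    SimplexCategory.δ_comp_σ_self (i := (0 : Fin 1))
  refine ⟨B.map (SimplexCategory.σ 0).op b, ?_, ?_⟩
  · rw [← FL.sset_comp, ← op_comp, e1]
    exact FL.sset_id B b
  · rw [← FL.sset_comp, ← op_comp, e0]
    exact FL.sset_id B b

theorem isCat_zero_iff {X : SP (Th 0)} : FL.IsCat 0 X ↔ InjFib X := by
  constructor
  · exact fun h => h.inj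
  · exact fun h => ⟨h, (fun θ S hS => nomatch hS), (fun P Q f hf => nomatch hf)⟩

/-- Recursive description of `(∞,n+1)`-categories. -/
theorem isCat_succ_iff {n : ℕ} {X : SP (Th (n + 1))} :
    FL.IsCat (n + 1) X ↔ InjFib X ∧ FL.SpLoc (C := Th n) X ∧ FL.Loc X (FL.isoMap (Th n)) ∧
      ∀ x y : FL.Vt (C := Th n) X, FL.IsCat n (FL.Hm (C := Th n) X x y) := by
  have hO : ∀ z : FL.Vt (C := Th n) X, ∃ x ∈ (Set.univ : Set (FL.Vt (C := Th n) X)),
      FL.Cn (X.obj (op (FL.ptT (n + 1)))) x z := fun z => ⟨z, Set.mem_univ z, cn_refl _ z⟩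
  constructor
  · intro h
    have h0 := h.inj
    obtain ⟨h1, h2⟩ := Helper41FL2.isCat_iff.1 h
    obtain ⟨h3, h4⟩ := (Helper41FL2.sg_succ_iff h0 _ hO).1 h1
    refine ⟨h0, h3, Helper41FL2.cj_zero_iff.1 (h2 0), fun x y => Helper41FL2.isCat_iff.2
      ⟨h4 x trivial y trivial, fun j => ?_⟩⟩
    exact (Helper41FL2.cj_succ_iff h0 _ hO).1 (h2 (j + 1)) x trivial y trivial
  · rintro ⟨h0, h1, h2, h3⟩
    refine Helper41FL2.isCat_iff.2 ⟨(Helper41FL2.sg_succ_iff h0 _ hO).2
      ⟨h1, fun x _ y _ => (Helper41FL2.isCat_iff.1 (h3 x y)).1⟩, fun j => ?_⟩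
    cases j with
    | zero => exact Helper41FL2.cj_zero_iff.2 h2
    | succ j =>
      exact (Helper41FL2.cj_succ_iff h0 _ hO).2 fun x _ y _ =>
        (Helper41FL2.isCat_iff.1 (h3 x y)).2 j

/-- The two notions of `(∞,n)`-category agree if the two forms of the mapping presheaves are
isomorphic. -/
theorem isCat_iff_of
    (H : ∀ (n : ℕ) (X : SP (Wr (Th n))) (x y : FL.Vt X), Nonempty (FL.Hm X x y ≅ FLP.Hm X x y)) :
    ∀ n : ℕ, FLP.CatIff n
  | 0 => fun X => by
    rw [isCat_zero_iff]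
    constructor
    · intro h
      cases h with
      | zero _ inj => exact inj
    · exact fun h => FLP.IsCat.zero X h
  | n + 1 => fun X => by
    rw [isCat_succ_iff]
    constructor
    · intro h
      cases h with
      | succ _ _ inj segal complete hom =>
        refine ⟨inj, segal_iff.1 segal, complete_iff.1 complete, fun x y => ?_⟩
        obtain ⟨e⟩ := H n X x y
        exact isCat_of_iso e.symm ((isCat_iff_of H n _).1 (hom x y))
    · rintro ⟨h0, h1, h2, h3⟩
      refine FLP.IsCat.succ n X h0 (segal_iff.2 h1) (complete_iff.2 h2) fun x y => ?_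
      obtain ⟨e⟩ := H n X x y
      exact (isCat_iff_of H n _).2 (isCat_of_iso e (h3 x y))

end

end Helper84FLP
end

/- Helper84.FLP.B3 -/
section
/-!
# FLP-B3: `(∞,n)`-categories in the two forms
-/

open CategoryTheory MonoidalCategory CartesianMonoidalCategory Opposite

set_option autoImplicit false

namespace Helper84FLP

/-- The two notions of `(∞,n)`-category agree. -/
theorem isCat_iff (n : ℕ) : FLP.CatIff n :=
  isCat_iff_of (fun _ X x y => ⟨Pool.Agent.Helper36.FLPHm.exists_hmIso.choose X x y⟩) n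

end Helper84FLP
end

/- Helper41.FL2.HomD -/
section
/-!
# The diagrams `(b, c) ↦ X(b) ^ P(c)`
-/

open CategoryTheory MonoidalCategory Simplicial Opposite HomotopicalAlgebra

set_option autoImplicit false

namespace Helper41FL2

open FL

/-- The category with one object and one morphism. -/
abbrev Pt : Type := Discrete PUnit.{1}

/-- The object of the one point category. -/
abbrev pt : Ptᵒᵖ := op ⟨PUnit.unit⟩

/-- Simplicial sets as simplicial presheaves on the point. -/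
def k1 (K : SSet.{0}) : SP Pt := (Functor.const _).obj K

/-- Functoriality. -/
def k1m {K L : SSet.{0}} (f : K ⟶ L) : k1 K ⟶ k1 L := (Functor.const _).map f

lemma ptMor (f : pt ⟶ pt) (X : SP Pt) {k : SimplexCategoryᵒᵖ}
    (x : (X.obj pt).obj k) : (X.map f).app k x = x := by
  have hf : f = 𝟙 _ := Subsingleton.elim _ _
  rw [hf]
  exact sp_id X x

open SSet.modelCategoryQuillen in
theorem k1_injFib {K : SSet.{0}} (hK : SSet.KanComplex K) : InjFib (k1 K) := by
  intro X Y i hi f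
  have h0 : Mono (i.app pt) := hi.1 pt
  have h1 : SSet.KanComplex (⊤_ SSet.{0}) := by
    refine (isFibrant_iff _).2 ?_
    rw [show Limits.terminal.from (⊤_ SSet.{0}) = 𝟙 _ from Limits.terminal.hom_ext _ _]
    infer_instance
  have hl := (Helper85FL.we_iff_lift (i.app pt)).1 (hi.2 pt) (Limits.terminal.from K) hK h1
    ((Helper85FL.kanFib_iff_fibration _).2 ((isFibrant_iff _).1 hK))
  have sq : CommSq (f.app pt : X.obj pt ⟶ K) (i.app pt) (Limits.terminal.from K)
    (Limits.terminal.from _) := ⟨Limits.terminal.hom_ext _ _⟩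
  have hl2 : sq.HasLift := hl.sq_hasLift sq
  refine ⟨{ app := fun a => sq.lift, naturality := ?_ }, ?_⟩
  · rintro ⟨⟨⟨⟩⟩⟩ ⟨⟨⟨⟩⟩⟩ g
    refine NatTrans.ext (funext fun k => ?_)
    refine ConcreteCategory.hom_ext _ _ fun y => ?_
    exact congrArg (sq.lift.app k) (ptMor g Y y)
  · refine NatTrans.ext (funext fun a => ?_)
    exact sq.fac_left

section

variable {K L K' L' : SSet.{0}} {m : SimplexCategory}

/-- Maps `K × Δ[m] ⟶ L`. -/
abbrev HS1 (K L : SSet.{0}) (m : SimplexCategory) : Type := MpS (k1 K) (k1 L) m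

/-- The value of a map `K × Δ[m] ⟶ L`. -/
def HS1.ev (φ : HS1 K L m) (k : SimplexCategoryᵒᵖ) (s : k.unop ⟶ m) (x : K.obj k) : L.obj k :=
  φ.app pt k s x

/-- Constructor. -/
def HS1.mk' (v : ∀ (k : SimplexCategoryᵒᵖ) (_ : k.unop ⟶ m) (_ : K.obj k), L.obj k)
    (h : ∀ {k l : SimplexCategoryᵒᵖ} (g : k ⟶ l) (s : k.unop ⟶ m) (x : K.obj k),
      v l (g.unop ≫ s) (K.map g x) = L.map g (v k s x)) : HS1 K L m where
  app _ k s x := v k s x
  nat_left _ _ _ _ := rfl
  nat_right _ _ _ g s x := h g s x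

lemma HS1.nat (φ : HS1 K L m) {k l : SimplexCategoryᵒᵖ} (g : k ⟶ l) (s : k.unop ⟶ m)
    (x : K.obj k) : φ.ev l (g.unop ≫ s) (K.map g x) = L.map g (φ.ev k s x) :=
  φ.nat_right pt g s x

lemma HS1.ext {φ ψ : HS1 K L m} (h : ∀ (k : SimplexCategoryᵒᵖ) (s : k.unop ⟶ m) (x : K.obj k),
    φ.ev k s x = ψ.ev k s x) : φ = ψ := by
  refine MpS.ext ?_
  funext a k s x
  exact h k s x

end

variable {A : Type} [SmallCategory A]

/-- The diagram `(b, c) ↦ X(b) ^ P(c)`. -/
def HD (P X : SP A) : SP (A × Aᵒᵖ) where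
  obj z := Mp (k1 (P.obj z.unop.2)) (k1 (X.obj (op z.unop.1)))
  map f := Mp.pre (k1m (P.map f.unop.2)) _ ≫ Mp.post _ (k1m (X.map f.unop.1.op))
  map_id z := by
    refine NatTrans.ext (funext fun m => ?_)
    refine ConcreteCategory.hom_ext _ _ fun φ => ?_
    refine HS1.ext fun k s x => ?_
    refine (sp_id X _).trans ?_
    exact congrArg (HS1.ev φ k s) (sp_id P x)
  map_comp f g := by
    refine NatTrans.ext (funext fun m => ?_)
    refine ConcreteCategory.hom_ext _ _ fun φ => ?_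
    refine HS1.ext fun k s x => ?_
    refine (sp_comp X f.unop.1.op g.unop.1.op _).trans ?_
    exact congrArg (fun t => (X.map g.unop.1.op).app k ((X.map f.unop.1.op).app k
      (HS1.ev φ k s t))) (sp_comp P g.unop.2 f.unop.2 x)

lemma HD_map_ev (P X : SP A) {z z' : (A × Aᵒᵖ)ᵒᵖ} (f : z ⟶ z') {m : SimplexCategoryᵒᵖ}
    (φ : HS1 (P.obj z.unop.2) (X.obj (op z.unop.1)) m.unop) (k : SimplexCategoryᵒᵖ)
    (s : k.unop ⟶ m.unop) (x : (P.obj z'.unop.2).obj k) :
    HS1.ev (((HD P X).map f).app m φ) k s x =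
      (X.map f.unop.1.op).app k (HS1.ev φ k s ((P.map f.unop.2).app k x)) := rfl

/-- Restriction along `i : P ⟶ Q`. -/
def HDpre {P Q : SP A} (i : P ⟶ Q) (X : SP A) : HD Q X ⟶ HD P X where
  app z := Mp.pre (k1m (i.app z.unop.2)) _
  naturality z z' f := by
    refine NatTrans.ext (funext fun m => ?_)
    refine ConcreteCategory.hom_ext _ _ fun φ => ?_
    refine HS1.ext fun k s x => ?_
    show (X.map f.unop.1.op).app k (HS1.ev φ k s
        ((Q.map f.unop.2).app k ((i.app z'.unop.2).app k x))) =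
      (X.map f.unop.1.op).app k (HS1.ev φ k s
        ((i.app z.unop.2).app k ((P.map f.unop.2).app k x)))
    exact congrArg (fun t => (X.map f.unop.1.op).app k (HS1.ev φ k s t))
      (hom_nat i f.unop.2 x).symm

lemma HDpre_ev {P Q : SP A} (i : P ⟶ Q) (X : SP A) (z : (A × Aᵒᵖ)ᵒᵖ) (m : SimplexCategoryᵒᵖ)
    (φ : HS1 (Q.obj z.unop.2) (X.obj (op z.unop.1)) m.unop) (k : SimplexCategoryᵒᵖ)
    (s : k.unop ⟶ m.unop) (x : (P.obj z.unop.2).obj k) :
    HS1.ev (((HDpre i X).app z).app m φ) k s x = HS1.ev φ k s ((i.app z.unop.2).app k x) := rfl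

theorem HDpre_trivFib {P Q : SP A} (i : P ⟶ Q) (hi : TrivCof i) {X : SP A} (hX : ObjKan X)
    (z : (A × Aᵒᵖ)ᵒᵖ) : TrivFib ((HDpre i X).app z) :=
  Pool.Agent.Helper83.FL4.Mp_pre_trivFib (k1m (i.app z.unop.2))
    ⟨fun _ => hi.1 z.unop.2, fun _ => hi.2 z.unop.2⟩ (k1_injFib (hX _))

section Convert

variable {P X : SP A}

lemma BrS.mk_congr {a b : A} {k : SimplexCategory} (σ : Chain A k) {u u' : b ⟶ σ.obj 0}
    {v v' : σ.obj (Fin.last _) ⟶ a} (hu : u = u') (hv : v = v') :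
    BrS.mk σ u v = BrS.mk σ u' v' := by
  subst hu
  subst hv
  rfl

/-- The value of a simplex of `(RR A).obj X`. -/
def rv {a : Aᵒᵖ} {k : SimplexCategoryᵒᵖ} (y : (((RR A).obj X).obj a).obj k) (b : Aᵒᵖ)
    (l : SimplexCategoryᵒᵖ) (s : l.unop ⟶ k.unop) (w : BrS a.unop b.unop l.unop) :
    (X.obj b).obj l := MpS.app y b l s w

lemma rv_ext {a : Aᵒᵖ} {k : SimplexCategoryᵒᵖ} {y y' : (((RR A).obj X).obj a).obj k}
    (h : ∀ (b : Aᵒᵖ) (l : SimplexCategoryᵒᵖ) (s : l.unop ⟶ k.unop)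
      (w : BrS a.unop b.unop l.unop), rv y b l s w = rv y' b l s w) : y = y' := by
  refine MpS.ext ?_
  funext b l s w
  exact h b l s w

lemma rv_mapk {a : Aᵒᵖ} {k k' : SimplexCategoryᵒᵖ} (y : (((RR A).obj X).obj a).obj k)
    (α : k ⟶ k') (b : Aᵒᵖ) (l : SimplexCategoryᵒᵖ) (s : l.unop ⟶ k'.unop)
    (w : BrS a.unop b.unop l.unop) :
    rv ((((RR A).obj X).obj a).map α y) b l s w = rv y b l (s ≫ α.unop) w := rfl

lemma rv_map {a a' : Aᵒᵖ} {k : SimplexCategoryᵒᵖ} (y : (((RR A).obj X).obj a).obj k)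
    (g : a ⟶ a') (b : Aᵒᵖ) (l : SimplexCategoryᵒᵖ) (s : l.unop ⟶ k.unop)
    (w : BrS a'.unop b.unop l.unop) :
    rv ((((RR A).obj X).map g).app k y) b l s w = rv y b l s ⟨w.σ, w.u, w.v ≫ g.unop⟩ := rfl

lemma rv_left {a : Aᵒᵖ} {k : SimplexCategoryᵒᵖ} (y : (((RR A).obj X).obj a).obj k)
    {b b' : Aᵒᵖ} (g : b ⟶ b') (l : SimplexCategoryᵒᵖ) (s : l.unop ⟶ k.unop)
    (w : BrS a.unop b.unop l.unop) :
    rv y b' l s ⟨w.σ, g.unop ≫ w.u, w.v⟩ = (X.map g).app l (rv y b l s w) :=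
  MpS.nat_left y g l s w

lemma rv_right {a : Aᵒᵖ} {k : SimplexCategoryᵒᵖ} (y : (((RR A).obj X).obj a).obj k)
    (b : Aᵒᵖ) {l l' : SimplexCategoryᵒᵖ} (α : l ⟶ l') (s : l.unop ⟶ k.unop)
    (w : BrS a.unop b.unop l.unop) :
    rv y b l' (α.unop ≫ s) ⟨w.σ.res α.unop, w.u ≫ w.σ.zeroTo α.unop,
        w.σ.map _ _ (Fin.le_last _) ≫ w.v⟩ = (X.obj b).map α (rv y b l s w) :=
  MpS.nat_right y b α s w

/-- The family attached to a map into the cobar construction. -/
def famOf (f : P ⟶ (RR A).obj X) : Fam (HD P X) where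
  v {k} σ := HS1.mk' (fun l s x => rv ((f.app (op (σ.obj (Fin.last _)))).app l x) (op (σ.obj 0)) l
      (𝟙 _) ⟨σ.res s, σ.zeroTo s, σ.map _ _ (Fin.le_last _)⟩) (by
    intro l l' g s x
    rw [hom_natk, rv_mapk]
    refine Eq.trans ?_ (rv_right ((f.app (op (σ.obj (Fin.last _)))).app l x) (op (σ.obj 0)) g
      (𝟙 _) ⟨σ.res s, σ.zeroTo s, σ.map _ _ (Fin.le_last _)⟩)
    have e : 𝟙 l'.unop ≫ g.unop = g.unop ≫ 𝟙 _ := by simp
    rw [e]
    refine congrArg (rv _ _ _ _) ?_
    refine BrS.mk_congr (σ.res (g.unop ≫ s)) ?_ ?_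
    · exact (σ.map_comp _ _ _ _ _).symm
    · exact (σ.map_comp _ _ _ _ _).symm)
  nat {k l} σ α := by
    refine HS1.ext fun m s x => ?_
    show (X.map (Quiver.Hom.op (σ.map 0 (α.toOrderHom 0) (Fin.zero_le _)))).app m
        (rv ((f.app (op (σ.obj (α.toOrderHom (Fin.last _))))).app m
          ((P.map (Quiver.Hom.op (σ.map (α.toOrderHom (Fin.last _)) (Fin.last _)
            (Fin.le_last _)))).app m x)) (op (σ.obj (α.toOrderHom 0))) m (𝟙 _)
          ⟨σ.res (s ≫ α), (σ.res α).zeroTo s, (σ.res α).map _ _ (Fin.le_last _)⟩) =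
      rv ((f.app (op (σ.obj (Fin.last _)))).app m x) (op (σ.obj 0)) m
      (𝟙 _) ⟨σ.res (s ≫ α), σ.zeroTo (s ≫ α), σ.map _ _ (Fin.le_last _)⟩
    rw [hom_nat, rv_map, ← rv_left]
    refine congrArg (rv _ _ _ _) ?_
    refine BrS.mk_congr (σ.res (s ≫ α)) ?_ ?_
    · exact σ.map_comp _ _ _ _ _
    · exact σ.map_comp _ _ _ _ _

lemma famOf_ev (f : P ⟶ (RR A).obj X) {k : SimplexCategory} (σ : Chain A k)
    (l : SimplexCategoryᵒᵖ) (s : l.unop ⟶ k)
    (x : (P.obj (op (σ.obj (Fin.last _)))).obj l) :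
    HS1.ev ((famOf f).v σ) l s x =
      rv ((f.app (op (σ.obj (Fin.last _)))).app l x) (op (σ.obj 0)) l
      (𝟙 _) ⟨σ.res s, σ.zeroTo s, σ.map _ _ (Fin.le_last _)⟩ := rfl

/-- The value of a family. -/
def fv (g : Fam (HD P X)) {k : SimplexCategory} (σ : Chain A k)
    (l : SimplexCategoryᵒᵖ) (s : l.unop ⟶ k)
    (x : (P.obj (op (σ.obj (Fin.last _)))).obj l) : (X.obj (op (σ.obj 0))).obj l :=
  HS1.ev (g.v σ) l s x

lemma fv_nat (g : Fam (HD P X)) {k : SimplexCategory} (σ : Chain A k)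
    {l l' : SimplexCategoryᵒᵖ} (α : l ⟶ l') (s : l.unop ⟶ k)
    (x : (P.obj (op (σ.obj (Fin.last _)))).obj l) :
    fv g σ l' (α.unop ≫ s) ((P.obj _).map α x) = (X.obj _).map α (fv g σ l s x) :=
  HS1.nat (g.v σ) α s x

lemma fv_res (g : Fam (HD P X)) {k k' : SimplexCategory} (σ : Chain A k) (α : k' ⟶ k)
    (l : SimplexCategoryᵒᵖ) (s : l.unop ⟶ k')
    (x : (P.obj (op (σ.obj (Fin.last _)))).obj l) :
    (X.map (σ.zeroTo α).op).app l (fv g (σ.res α) l s
      ((P.map (Quiver.Hom.op (σ.map (α.toOrderHom (Fin.last _)) (Fin.last _)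
            (Fin.le_last _)))).app l x)) = fv g σ l (s ≫ α) x :=
  congrArg (fun t => HS1.ev (K := P.obj (op (σ.obj (Fin.last _))))
    (L := X.obj (op (σ.obj 0))) t l s x) (g.nat σ α)

/-- The map into the cobar construction attached to a family. -/
def ofFam (g : Fam (HD P X)) : P ⟶ (RR A).obj X where
  app a :=
    { app := fun k => ↾ fun y =>
        ({ app := fun b l s w => (X.map (Quiver.Hom.op (BrS.u w))).app l (fv g (BrS.σ w) l (𝟙 _)
            ((P.map (Quiver.Hom.op (BrS.v w))).app l ((P.obj a).map s.op y)))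
           nat_left := fun {b b'} h l s w => by
            exact sp_comp X (Quiver.Hom.op (BrS.u w)) h _
           nat_right := fun b {l l'} α s w => by
            obtain ⟨σ, u, v⟩ := w
            show (X.map (Quiver.Hom.op (u ≫ σ.zeroTo α.unop))).app l'
                (fv g (σ.res α.unop) l' (𝟙 _)
                  ((P.map (Quiver.Hom.op (σ.map (α.unop.toOrderHom (Fin.last _)) (Fin.last _)
                    (Fin.le_last _) ≫ v))).app l'
                    ((P.obj a).map (s.op ≫ α) y))) =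
              (X.obj b).map α ((X.map (Quiver.Hom.op u)).app l (fv g σ l (𝟙 _)
                ((P.map (Quiver.Hom.op v)).app l ((P.obj a).map s.op y))))
            refine (congrArg _ (congrArg (fv g (σ.res α.unop) l' (𝟙 _))
              (sp_comp P v.op (σ.map (α.unop.toOrderHom (Fin.last _)) (Fin.last _)
                    (Fin.le_last _)).op _))).trans ?_
            refine (sp_comp X (σ.zeroTo α.unop).op u.op _).trans ?_
            refine Eq.trans ?_ (sp_nat X u.op α _)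
            refine congrArg ((X.map u.op).app l') ?_
            refine (fv_res g σ α.unop l' (𝟙 _) _).trans ?_
            refine Eq.trans ?_ (fv_nat g σ α (𝟙 _) _)
            refine congrArg₂ (fv g σ l') ?_ ?_
            · simp
            · rw [sset_comp]
              exact sp_nat P v.op α _ } : MpS (Bro a.unop) X k.unop)
      naturality := fun k k' α => by
        refine ConcreteCategory.hom_ext _ _ fun y => ?_
        refine rv_ext fun b l s w => ?_
        exact congrArg (fun t => (X.map (Quiver.Hom.op (BrS.u w))).app l (fv g (BrS.σ w) l (𝟙 _)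
            ((P.map (Quiver.Hom.op (BrS.v w))).app l t))) (sset_comp (P.obj a) α s.op y).symm }
  naturality a a' h := by
    refine NatTrans.ext (funext fun k => ?_)
    refine ConcreteCategory.hom_ext _ _ fun y => ?_
    refine rv_ext fun b l s w => ?_
    show (X.map (Quiver.Hom.op (BrS.u w))).app l (fv g (BrS.σ w) l (𝟙 _)
            ((P.map (Quiver.Hom.op (BrS.v w))).app l
              ((P.obj a').map s.op ((P.map h).app k y)))) =
      (X.map (Quiver.Hom.op (BrS.u w))).app l (fv g (BrS.σ w) l (𝟙 _)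
            ((P.map (Quiver.Hom.op (BrS.v w ≫ h.unop))).app l
              ((P.obj a).map s.op y)))
    refine congrArg (fun t => (X.map (Quiver.Hom.op (BrS.u w))).app l
      (fv g (BrS.σ w) l (𝟙 _) t)) ?_
    rw [← sp_nat]
    exact (sp_comp P h (BrS.v w).op _).symm

lemma ofFam_rv (g : Fam (HD P X)) {a : Aᵒᵖ} {k : SimplexCategoryᵒᵖ} (y : (P.obj a).obj k)
    (b : Aᵒᵖ) (l : SimplexCategoryᵒᵖ) (s : l.unop ⟶ k.unop) (w : BrS a.unop b.unop l.unop) :
    rv (((ofFam g).app a).app k y) b l s w = (X.map (Quiver.Hom.op w.u)).app l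
      (fv g w.σ l (𝟙 _) ((P.map (Quiver.Hom.op w.v)).app l ((P.obj a).map s.op y))) := rfl

end Convert

theorem RR_ext {P Q X : SP A} (hX : ObjKan X) (i : P ⟶ Q) (hi : TrivCof i)
    (f : P ⟶ (RR A).obj X) : ∃ g : Q ⟶ (RR A).obj X, i ≫ g = f := by
  obtain ⟨g, hg⟩ := Fam.lift (HDpre i X) (HDpre_trivFib i hi hX) (famOf f)
  refine ⟨ofFam g, ?_⟩
  refine NatTrans.ext (funext fun a => NatTrans.ext (funext fun k => ?_))
  refine ConcreteCategory.hom_ext _ _ fun y => ?_
  refine rv_ext fun b l s w => ?_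
  obtain ⟨σ, u, v⟩ := w
  show rv (((ofFam g).app a).app k ((i.app a).app k y)) b l s ⟨σ, u, v⟩ =
    rv ((f.app a).app k y) b l s ⟨σ, u, v⟩
  rw [ofFam_rv]
  show (X.map (Quiver.Hom.op u)).app l (fv g σ l (𝟙 _) ((Q.map (Quiver.Hom.op v)).app l
    ((Q.obj a).map s.op ((i.app a).app k y)))) = _
  rw [← hom_natk, ← hom_nat]
  have h1 := congrArg (fun t => HS1.ev (K := P.obj (op (σ.obj (Fin.last _))))
    (L := X.obj (op (σ.obj 0))) t l (𝟙 _) ((P.map (Quiver.Hom.op v)).app l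
      ((P.obj a).map s.op y))) (hg σ)
  have h2 : fv g σ l (𝟙 _) ((i.app (op (σ.obj (Fin.last _)))).app l
      ((P.map (Quiver.Hom.op v)).app l ((P.obj a).map s.op y))) =
      rv ((f.app (op (σ.obj (Fin.last _)))).app l ((P.map (Quiver.Hom.op v)).app l
      ((P.obj a).map s.op y))) (op (σ.obj 0)) l
      (𝟙 _) ⟨σ.res (𝟙 _), σ.zeroTo (𝟙 _), σ.map _ _ (Fin.le_last _)⟩ := h1
  rw [h2, hom_nat, rv_map, ← rv_left, hom_natk, rv_mapk]
  have e : 𝟙 l.unop ≫ s.op.unop = s := Category.id_comp s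
  rw [e]
  refine congrArg (rv _ _ _ _) ?_
  refine BrS.mk_congr σ ?_ ?_
  · exact (congrArg (u ≫ ·) (σ.map_id 0)).trans (Category.comp_id u)
  · exact (congrArg (· ≫ v) (σ.map_id _)).trans (Category.id_comp v)

theorem RR_injFib {X : SP A} (hX : ObjKan X) : InjFib ((RR A).obj X) :=
  fun _ _ i hi f => RR_ext hX i hi f

end Helper41FL2
end

/- Helper41.FL2.Sel -/
section
/-!
# Choosing between an object over `a` and `a`
-/

open CategoryTheory

set_option autoImplicit false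

namespace Helper41FL2

variable {A : Type} [SmallCategory A]

section Sel

/-- `x` or `a`. -/
def selObj (s : Fin 2) (x a : A) : A := match s with
  | 0 => x
  | 1 => a

/-- The induced map. -/
def selMap : ∀ (s s' : Fin 2) (_ : s ≤ s') {x y a : A} (_ : x ⟶ y) (_ : y ⟶ a),
    (selObj s x a ⟶ selObj s' y a)
  | 0, 0, _, _, _, _, f, _ => f
  | 0, 1, _, _, _, _, f, v => f ≫ v
  | 1, 1, _, _, _, a, _, _ => 𝟙 a
  | 1, 0, h, _, _, _, _, _ => absurd h (by decide)

/-- The induced map. -/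
def selTo (s : Fin 2) {x a : A} (v : x ⟶ a) : selObj s x a ⟶ a := match s with
  | 0 => v
  | 1 => 𝟙 a

lemma selMap_id (s : Fin 2) {x a : A} (v : x ⟶ a) :
    selMap s s (le_refl _) (𝟙 x) v = 𝟙 _ := by
  fin_cases s <;> rfl

lemma selMap_comp {s s' s'' : Fin 2} (h : s ≤ s') (h' : s' ≤ s'') {x y z a : A} (f : x ⟶ y)
    (g : y ⟶ z) (v : y ⟶ a) (w : z ⟶ a) (hv : v = g ≫ w) :
    selMap s s' h f v ≫ selMap s' s'' h' g w = selMap s s'' (h.trans h') (f ≫ g) w := by
  subst hv
  fin_cases s <;> fin_cases s' <;> fin_cases s''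
  · rfl
  · exact (Category.assoc _ _ _).symm
  · exact absurd h' (by decide)
  · exact (Category.comp_id _).trans (Category.assoc _ _ _).symm
  · exact absurd h (by decide)
  · exact absurd h (by decide)
  · exact absurd h' (by decide)
  · exact Category.comp_id _

lemma selMap_selTo {s s' : Fin 2} (h : s ≤ s') {x y a : A} (f : x ⟶ y) (v : y ⟶ a) :
    selMap s s' h f v ≫ selTo s' v = selTo s (f ≫ v) := by
  fin_cases s <;> fin_cases s'
  · rfl
  · exact Category.comp_id _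
  · exact absurd h (by decide)
  · exact Category.comp_id _

lemma selMap_pre {s : Fin 2} {z x y a : A} (g : z ⟶ x) (f : x ⟶ y) (v : y ⟶ a) :
    selMap 0 s (Fin.zero_le _) (g ≫ f) v = (g ≫ selMap 0 s (Fin.zero_le _) f v : z ⟶ _) := by
  fin_cases s
  · rfl
  · exact Category.assoc _ _ _

end Sel

end Helper41FL2
end

/- Helper41.FL2.RR -/
section
/-!
# FL2-G7: the injectively fibrant replacement
-/

open CategoryTheory MonoidalCategory Simplicial Opposite HomotopicalAlgebra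

set_option autoImplicit false

namespace Helper41FL2

open FL

variable {A : Type} [SmallCategory A]

lemma Chain.ext_map {k : SimplexCategory} {o : Fin (k.len + 1) → A}
    {m m' : ∀ i j : Fin (k.len + 1), i ≤ j → (o i ⟶ o j)} {h1 h2 h1' h2'} (h : m = m') :
    (Chain.mk o m h1 h2 : Chain A k) = Chain.mk o m' h1' h2' := by
  subst h
  rfl

lemma BrS.ext_map {k : SimplexCategory} {a b : A} {o : Fin (k.len + 1) → A}
    {m m' : ∀ i j : Fin (k.len + 1), i ≤ j → (o i ⟶ o j)} {h1 h2 h1' h2'} (h : m = m')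
    {u u' : b ⟶ o 0} (hu : u = u') {v v' : o (Fin.last _) ⟶ a} (hv : v = v') :
    (BrS.mk (Chain.mk o m h1 h2 : Chain A k) u v : BrS a b k) =
      BrS.mk (Chain.mk o m' h1' h2') u' v' := by
  subst h
  subst hu
  subst hv
  rfl

/-- The contraction of a chain over `a` to `a`. -/
def selChain {k : SimplexCategory} (t : k ⟶ ⦋1⦌) {a : A} (σ : Chain A k)
    (v : σ.obj (Fin.last _) ⟶ a) : Chain A k where
  obj i := selObj (t.toOrderHom i) (σ.obj i) a
  map i j h := selMap _ _ (t.toOrderHom.monotone h) (σ.map i j h)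
    (σ.map j (Fin.last _) (Fin.le_last _) ≫ v)
  map_id i := by
    rw [σ.map_id]
    exact selMap_id _ _
  map_comp i j l h h' := by
    rw [selMap_comp, σ.map_comp]
    rw [← Category.assoc, σ.map_comp]

/-- The contraction of the bar construction. -/
def selBr {k : SimplexCategory} (t : k ⟶ ⦋1⦌) {a b : A} (w : BrS a b k) : BrS a b k where
  σ := selChain t w.σ w.v
  u := selMap 0 (t.toOrderHom 0) (Fin.zero_le _) w.u
    (w.σ.map 0 (Fin.last _) (Fin.le_last _) ≫ w.v)
  v := selTo _ w.v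

/-- The constant chain. -/
def cstChain (a : A) (k : SimplexCategory) : Chain A k where
  obj _ := a
  map _ _ _ := 𝟙 a
  map_id _ := rfl
  map_comp _ _ _ _ _ := Category.comp_id _

/-- The constant map `[k] ⟶ [1]`. -/
def cst1 (k : SimplexCategory) (i : Fin 2) : k ⟶ ⦋1⦌ := SimplexCategory.Hom.mk
  ⟨fun _ => i, fun _ _ _ => le_refl _⟩

lemma selBr_zero {k : SimplexCategory} {a b : A} (w : BrS a b k) :
    selBr (cst1 k 0) w = w := rfl

lemma selBr_one {k : SimplexCategory} {a b : A} (w : BrS a b k) :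
    selBr (cst1 k 1) w = ⟨cstChain a k, w.u ≫ w.σ.map 0 (Fin.last _) (Fin.le_last _) ≫ w.v,
      𝟙 a⟩ := rfl

lemma selBr_res {k l : SimplexCategory} (α : l ⟶ k) (t : k ⟶ ⦋1⦌) {a b : A} (w : BrS a b k) :
    selBr (α ≫ t) ⟨w.σ.res α, w.u ≫ w.σ.zeroTo α, w.σ.map _ _ (Fin.le_last _) ≫ w.v⟩ =
      ⟨(selBr t w).σ.res α, (selBr t w).u ≫ (selBr t w).σ.zeroTo α,
        (selBr t w).σ.map _ _ (Fin.le_last _) ≫ (selBr t w).v⟩ := by
  obtain ⟨σ, u, v⟩ := w
  refine BrS.ext_map ?_ ?_ ?_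
  · funext i j h
    refine congrArg (selMap _ _ _ _) ?_
    show σ.map _ _ _ ≫ σ.map _ _ _ ≫ v = σ.map _ _ _ ≫ v
    rw [← Category.assoc, σ.map_comp]
  · refine Eq.trans ?_ (selMap_comp (Fin.zero_le _) (t.toOrderHom.monotone (Fin.zero_le _)) u
      (σ.map 0 (α.toOrderHom 0) (Fin.zero_le _))
      (σ.map 0 (Fin.last _) (Fin.le_last _) ≫ v)
      (σ.map (α.toOrderHom 0) (Fin.last _) (Fin.le_last _) ≫ v) ?_).symm
    · refine congrArg (selMap _ _ _ _) ?_
      show σ.map _ _ _ ≫ σ.map _ _ _ ≫ v = σ.map _ _ _ ≫ v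
      rw [← Category.assoc, σ.map_comp]
    · rw [← Category.assoc, σ.map_comp]
  · have e := selMap_selTo (t.toOrderHom.monotone (Fin.le_last (α.toOrderHom (Fin.last _))))
      (σ.map (α.toOrderHom (Fin.last _)) (Fin.last _) (Fin.le_last _)) v
    refine e.symm.trans ?_
    refine congrArg (· ≫ selTo (t.toOrderHom (Fin.last _)) v) ?_
    refine congrArg (selMap _ _ _ _) ?_
    show v = σ.map (Fin.last _) (Fin.last _) _ ≫ v
    rw [σ.map_id, Category.id_comp]

lemma selBr_left {k : SimplexCategory} (t : k ⟶ ⦋1⦌) {a b b' : A} (f : b' ⟶ b)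
    (w : BrS a b k) : selBr t ⟨w.σ, f ≫ w.u, w.v⟩ =
      ⟨(selBr t w).σ, f ≫ (selBr t w).u, (selBr t w).v⟩ := by
  obtain ⟨σ, u, v⟩ := w
  exact congrArg (fun u => BrS.mk (selChain t σ v) u (selTo _ v)) (selMap_pre f u _)

section

variable (X : SP A) (a : Aᵒᵖ)

/-- Evaluation at the constant chains. -/
def rEv : ((RR A).obj X).obj a ⟶ X.obj a where
  app k := ↾ fun y => rv (a := a) (k := k) y a k (𝟙 _) ⟨cstChain a.unop k.unop, 𝟙 _, 𝟙 _⟩
  naturality k l α := by
    refine ConcreteCategory.hom_ext _ _ fun y => ?_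
    show rv ((((RR A).obj X).obj a).map α y) a l (𝟙 _) ⟨cstChain a.unop l.unop, 𝟙 _, 𝟙 _⟩ =
      (X.obj a).map α (rv y a k (𝟙 _) ⟨cstChain a.unop k.unop, 𝟙 _, 𝟙 _⟩)
    rw [rv_mapk]
    refine Eq.trans ?_ (rv_right y a α (𝟙 _) ⟨cstChain a.unop k.unop, 𝟙 _, 𝟙 _⟩)
    have e : 𝟙 l.unop ≫ α.unop = α.unop ≫ 𝟙 _ := by simp
    rw [e]
    refine congrArg (rv _ _ _ _) ?_
    exact BrS.mk_congr (cstChain a.unop l.unop) (Category.comp_id _).symm
      (Category.comp_id _).symm

lemma η_rv (k : SimplexCategoryᵒᵖ) (x : (X.obj a).obj k) (b : Aᵒᵖ) (l : SimplexCategoryᵒᵖ)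
    (s : l.unop ⟶ k.unop) (w : BrS a.unop b.unop l.unop) :
    rv ((((RR A).η X).app a).app k x) b l s w =
      (X.map (Quiver.Hom.op ((w.u ≫ w.σ.map 0 (Fin.last _) (Fin.zero_le _)) ≫ w.v))).app l
        ((X.obj a).map s.op x) := rfl

theorem η_rEv : ((RR A).η X).app a ≫ rEv X a = 𝟙 _ := by
  refine NatTrans.ext (funext fun k => ?_)
  refine ConcreteCategory.hom_ext _ _ fun x => ?_
  show (X.map (Quiver.Hom.op ((𝟙 a.unop ≫ 𝟙 a.unop) ≫ 𝟙 a.unop))).app k
    ((X.obj a).map (𝟙 k.unop).op x) = x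
  rw [Category.comp_id, Category.comp_id]
  exact (congrArg _ (sset_id _ x)).trans (sp_id X x)

/-- The homotopy. -/
noncomputable def rHtpy : ((RR A).obj X).obj a ⊗ Δ[1] ⟶ ((RR A).obj X).obj a where
  app k := ↾ fun z =>
    ({ app := fun b l s w => rv (a := a) (k := k) z.1 b l s
          (selBr (s ≫ SSet.stdSimplex.objEquiv z.2) w)
       nat_left := fun {b b'} f l s w => by
        refine Eq.trans ?_ (rv_left z.1 f l s _)
        exact congrArg (rv z.1 b' l s) (selBr_left _ f.unop w)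
       nat_right := fun b {l l'} α s w => by
        refine Eq.trans ?_ (rv_right z.1 b α s _)
        refine congrArg (rv z.1 b l' (α.unop ≫ s)) ?_
        rw [Category.assoc]
        exact selBr_res α.unop _ w } : MpS (Bro a.unop) X k.unop)
  naturality k l α := by
    refine ConcreteCategory.hom_ext _ _ fun z => ?_
    refine rv_ext fun b m s w => ?_
    show rv ((((RR A).obj X).obj a).map α z.1) b m s (selBr (s ≫ α.unop ≫
      SSet.stdSimplex.objEquiv z.2) w) = rv z.1 b m (s ≫ α.unop)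
        (selBr ((s ≫ α.unop) ≫ SSet.stdSimplex.objEquiv z.2) w)
    rw [rv_mapk, Category.assoc]

lemma rHtpy_rv (k : SimplexCategoryᵒᵖ) (y : (((RR A).obj X).obj a).obj k)
    (t : (Δ[1] : SSet.{0}).obj k) (b : Aᵒᵖ) (l : SimplexCategoryᵒᵖ)
    (s : l.unop ⟶ k.unop) (w : BrS a.unop b.unop l.unop) :
    rv ((rHtpy X a).app k (y, t)) b l s w =
      rv y b l s (selBr (s ≫ SSet.stdSimplex.objEquiv t) w) := rfl

theorem rHtpy_zero : SSet.ι₀ ≫ rHtpy X a = 𝟙 _ := by
  refine NatTrans.ext (funext fun k => ?_)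
  refine ConcreteCategory.hom_ext _ _ fun y => ?_
  refine rv_ext fun b l s w => ?_
  exact congrArg (rv y b l s) (selBr_zero w)

theorem rHtpy_one : SSet.ι₁ ≫ rHtpy X a = rEv X a ≫ ((RR A).η X).app a := by
  refine NatTrans.ext (funext fun k => ?_)
  refine ConcreteCategory.hom_ext _ _ fun y => ?_
  refine rv_ext fun b l s w => ?_
  refine (congrArg (rv y b l s) (selBr_one w)).trans ?_
  show _ = (X.map (Quiver.Hom.op ((w.u ≫ w.σ.map 0 (Fin.last _) (Fin.zero_le _)) ≫ w.v))).app l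
        ((X.obj a).map s.op (rv (a := a) (k := k) y a k (𝟙 _)
          ⟨cstChain a.unop k.unop, 𝟙 _, 𝟙 _⟩))
  rw [← rv_right y a s.op (𝟙 _) ⟨cstChain a.unop k.unop, 𝟙 _, 𝟙 _⟩, ← rv_left]
  have e : s.op.unop ≫ 𝟙 k.unop = s := Category.comp_id s
  rw [e]
  refine congrArg (rv y b l s) ?_
  refine BrS.mk_congr (cstChain a.unop l.unop) ?_ ?_
  · show _ = ((w.u ≫ w.σ.map 0 (Fin.last _) (Fin.zero_le _)) ≫ w.v) ≫ 𝟙 _ ≫ 𝟙 _
    simp only [Category.comp_id, Category.assoc]
    rfl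
  · exact (Category.comp_id _).symm

end

theorem RR_objKan {X : SP A} (hX : ObjKan X) : ObjKan ((RR A).obj X) :=
  Pool.Agent.Helper46.FLb.InjFib.objKan (fun X {_} hZ => Pool.Agent.Helper83.FL4.Mp_kan X hZ)
    (RR_injFib hX)

theorem RR_objHoEq {X : SP A} (hX : ObjKan X) : ObjHoEq ((RR A).η X) := by
  intro a
  refine ⟨rEv X a, ?_, ?_⟩
  · rw [η_rEv]
    exact Pool.Agent.Helper45.FL2.htpy_refl _
  · refine Pool.Agent.Helper88.FL.htpy_symm (RR_objKan hX a) ?_
    exact Pool.Agent.Helper45.FL2.htpy_mk (rHtpy X a) (rHtpy_zero X a) (rHtpy_one X a)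

theorem RR_trivCof {X : SP A} (hX : ObjKan X) : TrivCof ((RR A).η X) := by
  refine ⟨fun a => ?_, fun a => Helper85FL.we_of_hoEq (RR_objHoEq hX a)⟩
  have h : Mono (((RR A).η X).app a ≫ rEv X a) := by
    rw [η_rEv]
    infer_instance
  exact mono_of_mono _ (rEv X a)

theorem RR_map_objHoEq {X Y : SP A} (hX : ObjKan X) (hY : ObjKan Y) {f : X ⟶ Y}
    (hf : ObjHoEq f) : ObjHoEq ((RR A).map f) := by
  intro a
  have e : f.app a ≫ ((RR A).η Y).app a = ((RR A).η X).app a ≫ ((RR A).map f).app a :=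
    NatTrans.congr_app ((RR A).η_naturality f) a
  refine Pool.Agent.Helper88.FL.hoEq_of_comp_left (hX a) (RR_objKan hX a) (RR_objKan hY a)
    (RR_objHoEq hX a) ?_
  rw [← e]
  exact Pool.Agent.Helper88.FL.hoEq_comp (hX a) (hY a) (RR_objKan hY a) (hf a) (RR_objHoEq hY a)

end Helper41FL2
end

/- Helper72.FL.RKE -/
section
/-! FL-17b, FL-18: invariance of gaunt descent, the comparison with `Y D`, Segal descent. -/

open CategoryTheory MonoidalCategory Simplicial Opposite HomotopicalAlgebra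

set_option autoImplicit false

namespace Pool.Agent.Helper72.RKE

open FL

section

variable {n : ℕ}

/-- The map of diagrams induced by a morphism of presheaves on `Cat_n`. -/
noncomputable def alongMap {F G : PSh n} (φ : PSh.Hom F G) {J : Type} [SmallCategory J]
    (p : J ⥤ SP (Th n)) (hp : ∀ j, IsCat n (p.obj j)) : F.along p hp ⟶ G.along p hp where
  app j := φ.app ⟨p.obj j.unop, hp _⟩
  naturality {j j'} f := by
    ext k x
    exact φ.act (C := ⟨_, hp j'.unop⟩) (C' := ⟨_, hp j.unop⟩)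
      (MpS.ofHom k.unop (p.map f.unop)) x

theorem compare_square {F G : PSh n} (φ : PSh.Hom F G) {J : Type} [SmallCategory J]
    (p : J ⥤ SP (Th n)) (hp : ∀ j, IsCat n (p.obj j)) {C : SP (Th n)} (hC : IsCat n C)
    (Λ : Hoco p ⟶ C) :
    F.compare p hp hC Λ ≫ Mp.post (W J) (alongMap φ p hp) =
      φ.app ⟨C, hC⟩ ≫ G.compare p hp hC Λ := by
  ext k x
  refine MpS.ext ?_
  funext j l s w
  refine (φ.act (C := ⟨_, hp j.unop⟩) (C' := ⟨_, hC⟩) (coneS Λ w) _).trans ?_
  exact congrArg (G.act (C := ⟨_, hp j.unop⟩) (C' := ⟨_, hC⟩) (coneS Λ w))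
    (sset_nat (φ.app ⟨C, hC⟩) s.op x)

theorem gauntDescent_of_equiv_of
    (hcomp : ∀ {X Y Z : SSet.{0}}, SSet.KanComplex X → SSet.KanComplex Y → SSet.KanComplex Z →
      ∀ {f : X ⟶ Y} {g : Y ⟶ Z}, HoEq f → HoEq g → HoEq (f ≫ g))
    (hright : ∀ {X Y Z : SSet.{0}}, SSet.KanComplex X → SSet.KanComplex Y → SSet.KanComplex Z →
      ∀ {f : X ⟶ Y} {g : Y ⟶ Z}, HoEq g → HoEq (f ≫ g) → HoEq f)
    (hHK : ∀ {J : Type} [SmallCategory J] {G : SP J}, ObjKan G → SSet.KanComplex (Holim G))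
    (hHH : ∀ {J : Type} [SmallCategory J] {G G' : SP J}, ObjKan G → ObjKan G' →
      ∀ (q : G ⟶ G'), ObjHoEq q → HoEq (Mp.post (W J) q))
    {F G : PSh n} (hF : F.Kan) (hG : G.Kan) (h : PSh.Equiv F G)
    (hG' : G.GauntDescent) : F.GauntDescent := by
  obtain ⟨φ, hφ⟩ := h
  intro J _ p C Λ hΛ
  have hK1 : ObjKan (F.along p hΛ.cat_obj) := fun j => hF _
  have hK2 : ObjKan (G.along p hΛ.cat_obj) := fun j => hG _
  have h1 : HoEq (φ.app ⟨C, hΛ.cat_pt⟩ ≫ G.compare p hΛ.cat_obj hΛ.cat_pt Λ) :=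
    hcomp (hF _) (hG _) (hHK hK2) (hφ _) (hG' J p C Λ hΛ)
  rw [← compare_square] at h1
  refine hright (hF _) (hHK hK1) (hHK hK2) ?_ h1
  exact hHH hK1 hK2 (alongMap φ p hΛ.cat_obj) (fun j => hφ _)

theorem equiv_YD_iff_of (hrep : ∀ θ : Th n, IsCat n (rep θ))
    (hcomp : ∀ {X Y Z : SSet.{0}}, SSet.KanComplex X → SSet.KanComplex Y → SSet.KanComplex Z →
      ∀ {f : X ⟶ Y} {g : Y ⟶ Z}, HoEq f → HoEq g → HoEq (f ≫ g))
    (hright : ∀ {X Y Z : SSet.{0}}, SSet.KanComplex X → SSet.KanComplex Y → SSet.KanComplex Z →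
      ∀ {f : X ⟶ Y} {g : Y ⟶ Z}, HoEq g → HoEq (f ≫ g) → HoEq f)
    (hHK : ∀ {J : Type} [SmallCategory J] {G : SP J}, ObjKan G → SSet.KanComplex (Holim G))
    (hHH : ∀ {J : Type} [SmallCategory J] {G G' : SP J}, ObjKan G → ObjKan G' →
      ∀ (q : G ⟶ G'), ObjHoEq q → HoEq (Mp.post (W J) q))
    (hYD : ∀ (F : PSh n) (D : SP (Gn n)), ∃ e : PSh.Hom F (YD D) ≃ (F.restr hrep ⟶ ND D),
      ∀ (φ : PSh.Hom F (YD D)) (a : (Th n)ᵒᵖ), (e φ).app a = φ.app ⟨rep a.unop, hrep _⟩)
    (hcan : ∀ C : SP (Th n), IsCat n C → IsGaunt (canDiag C) (canCone C))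
    (hYK : ∀ {D : SP (Gn n)}, InjFib D → (YD D).Kan)
    (hYG : ∀ {D : SP (Gn n)}, InjFib D → (∀ i, IsCat n (level D i)) → (YD D).GauntDescent)
    {F : PSh n} (hF : F.Kan)
    (hF' : F.GauntDescent) {D : SP (Gn n)} (hD : InjFib D) (hc : ∀ i, IsCat n (level D i)) :
    PSh.Equiv F (YD D) ↔ ∃ f : F.restr hrep ⟶ ND D, ObjHoEq f := by
  obtain ⟨e, he⟩ := hYD F D
  constructor
  · rintro ⟨φ, hφ⟩
    refine ⟨e φ, fun a => ?_⟩
    rw [he φ a]
    exact hφ _
  · rintro ⟨f, hf⟩
    refine ⟨e.symm f, fun C => ?_⟩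
    set φ : PSh.Hom F (YD D) := e.symm f with hφdef
    have hφ : ∀ a : (Th n)ᵒᵖ, HoEq (φ.app ⟨rep a.unop, hrep _⟩) := by
      intro a
      rw [← he φ a, hφdef, Equiv.apply_symm_apply]
      exact hf a
    have hg := hcan C.1 C.2
    have hK1 : ObjKan (F.along (canDiag C.1) hg.cat_obj) := fun j => hF _
    have hK2 : ObjKan ((YD D).along (canDiag C.1) hg.cat_obj) := fun j => hYK hD _
    have h1 : HoEq (F.compare (canDiag C.1) hg.cat_obj hg.cat_pt (canCone C.1) ≫
        Mp.post (W _) (alongMap φ (canDiag C.1) hg.cat_obj)) := by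
      refine hcomp (hF _) (hHK hK1) (hHK hK2) (hF' _ _ _ _ hg) ?_
      exact hHH hK1 hK2 _ (fun j => hφ (op j.unop.a))
    rw [compare_square] at h1
    exact hright (hF _) (hYK hD _) (hHK hK2)
      (hYG hD hc _ _ _ _ hg) h1

/-- The cocone of a sieve at an object of the sieve is a strict map. -/
theorem coneS_svCone {θ : Th n} (S : Sieve θ) {j : SvObj S} {k : SimplexCategory}
    (w : WS j k) : coneS (svCone S) w = MpS.ofHom k (repMap j.f) := by
  refine MpS.ext ?_
  funext a l s x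
  refine (Category.assoc (obj := Th n) x (w.u ≫ w.σ.zeroTo s).1 _).trans ?_
  exact congrArg (fun t => CategoryStruct.comp (obj := Th n) x t) (w.u ≫ w.σ.zeroTo s).2

theorem segalDescent_restr (hrep : ∀ θ : Th n, IsCat n (rep θ)) {F : PSh n}
    (hF : F.GauntDescent) (hG : KnownGaunt n) : SegalDescent (F.restr hrep) := by
  intro θ S hS
  have h := hG θ S hS
  have h1 := hF _ _ _ _ h
  have h2 : F.compare (svDiag S) h.cat_obj h.cat_pt (svCone S) =
      sieveCompare (F.restr hrep) S := by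
    ext k x
    refine MpS.ext ?_
    funext j l s w
    exact congrArg (fun t => F.act (C := ⟨_, h.cat_obj j.unop⟩) (C' := ⟨_, h.cat_pt⟩) t _)
      (coneS_svCone S w)
  rw [← h2]
  exact h1

end

end Pool.Agent.Helper72.RKE
end

/- Helper54.FL2.Const -/
section
/-!
# FL2, module H4b CONST: completeness of homotopically constant presheaves

The proof does not use the horns: with `T [m](c) = [m+1](*, …, *)` there are natural maps
`θ ⟶ T θ ⟵ [0]`, and words in two letters can be extended by the letter `false`.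
-/

open CategoryTheory MonoidalCategory Opposite

set_option autoImplicit false

namespace Pool.Agent.Helper54.FL2

open _root_.FL

noncomputable section

section Functors

variable {C : Type} [SmallCategory C]

/-- Extension of a monotone map by the top element. -/
def up {a b : ℕ} (f : Fin (a + 1) →o Fin (b + 1)) : Fin (a + 1 + 1) →o Fin (b + 1 + 1) where
  toFun := Fin.lastCases (Fin.last _) fun i => (f i).castSucc
  monotone' := by
    intro i j h
    induction j using Fin.lastCases with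
    | last => simpa using Fin.le_last _
    | cast j =>
      induction i using Fin.lastCases with
      | last =>
        exfalso
        rw [Fin.le_def] at h
        have := j.2
        simp at h
        omega
      | cast i =>
        simp only [Fin.lastCases_castSucc]
        rw [Fin.castSucc_le_castSucc_iff] at h ⊢
        exact f.monotone h

@[simp] lemma up_last {a b : ℕ} (f : Fin (a + 1) →o Fin (b + 1)) :
    up f (Fin.last _) = Fin.last _ := by
  show Fin.lastCases (motive := fun _ => Fin (b + 1 + 1)) (Fin.last _)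
    (fun i => (f i).castSucc) (Fin.last _) = _
  simp

@[simp] lemma up_castSucc {a b : ℕ} (f : Fin (a + 1) →o Fin (b + 1)) (i : Fin (a + 1)) :
    up f i.castSucc = (f i).castSucc := by
  show Fin.lastCases (motive := fun _ => Fin (b + 1 + 1)) (Fin.last _)
    (fun i => (f i).castSucc) i.castSucc = _
  simp

/-- The functor `[m](c) ↦ [m+1](p, …, p)`. -/
def TT (p : C) (hp : ∀ (c : C) (f g : c ⟶ p), f = g) : Wr C ⥤ Wr C where
  obj θ := ⟨θ.len + 1, fun _ => p⟩
  map {θ θ'} φ := ({ f := up (Wr.Hom.f φ), g := fun _ _ _ => 𝟙 p } :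
    Wr.Hom (⟨θ.len + 1, fun _ => p⟩ : Wr C) ⟨θ'.len + 1, fun _ => p⟩)
  map_id θ := by
    refine Wr.hom_ext' ?_ fun i j h h' => hp _ _ _
    show up (Wr.Hom.f (𝟙 θ)) = OrderHom.id
    ext i
    induction i using Fin.lastCases with
    | last => simp
    | cast i => simp
  map_comp {θ θ' θ''} φ ψ := by
    refine Wr.hom_ext' ?_ fun i j h h' => hp _ _ _
    show up (Wr.Hom.f (φ ≫ ψ)) = (up (Wr.Hom.f ψ)).comp (up (Wr.Hom.f φ))
    ext i
    induction i using Fin.lastCases with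
    | last => simp
    | cast i => simp

/-- The natural map `[m](c) ⟶ [m+1](p, …, p)`. -/
def al (p : C) (hp : ∀ (c : C) (f g : c ⟶ p), f = g) (t : ∀ c : C, c ⟶ p) :
    𝟭 (Wr C) ⟶ TT p hp where
  app θ := ({ f := Fin.castSuccOrderEmb.toOrderHom, g := fun i _ _ => t (θ.obj i) } :
    Wr.Hom θ ⟨θ.len + 1, fun _ => p⟩)
  naturality {θ θ'} φ := by
    refine Wr.hom_ext' ?_ fun i j h h' => hp _ _ _
    show Fin.castSuccOrderEmb.toOrderHom.comp (Wr.Hom.f φ) =
      (up (Wr.Hom.f φ)).comp Fin.castSuccOrderEmb.toOrderHom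
    ext i
    simp

/-- The last vertex of `[m+1](p, …, p)`. -/
def be (p : C) (hp : ∀ (c : C) (f g : c ⟶ p), f = g) (θ : Wr C) : (Wr.pt : Wr C) ⟶ (TT p hp).obj θ :=
  ({ f := ⟨fun _ => Fin.last _, fun _ _ _ => le_refl _⟩, g := fun (i : Fin 0) _ _ => i.elim0 } :
    Wr.Hom ⟨0, Fin.elim0⟩ ⟨θ.len + 1, fun _ => p⟩)

lemma be_nat (p : C) (hp : ∀ (c : C) (f g : c ⟶ p), f = g) {θ θ' : Wr C} (φ : θ ⟶ θ') :
    be p hp θ ≫ (TT p hp).map φ = be p hp θ' := by
  refine Wr.hom_ext' ?_ fun (i : Fin 0) j h h' => i.elim0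
  show (up (Wr.Hom.f φ)).comp ⟨fun _ => Fin.last _, fun _ _ _ => le_refl _⟩ =
    ⟨fun _ => Fin.last _, fun _ _ _ => le_refl _⟩
  ext i
  exact congrArg Fin.val (up_last _)

/-- Extension of a word by the letter `false`. -/
def snc {a : ℕ} (x : Fin (a + 1) → Bool) : Fin (a + 1 + 1) → Bool := Fin.lastCases false x

lemma snc_up {a b : ℕ} (f : Fin (a + 1) →o Fin (b + 1)) (x : Fin (b + 1) → Bool) :
    (fun i => snc x (up f i)) = snc (fun i => x (f i)) := by
  funext i
  induction i using Fin.lastCases with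
  | last => simp [snc]
  | cast i => simp [snc]

end Functors

section Main

variable {C : Type} [SmallCategory C] (Z : SP (Wr C)) (p : C)
  (hp : ∀ (c : C) (f g : c ⟶ p), f = g) (t : ∀ c : C, c ⟶ p)

/-- The presheaf `θ ↦ Z(T θ)`. -/
abbrev ZT : SP (Wr C) := (TT p hp).op ⋙ Z

/-- The constant presheaf `Z([0])`. -/
abbrev Zc : SP (Wr C) := (Functor.const _).obj (Z.obj (op Wr.pt))

/-- Restriction along `θ ⟶ T θ`. -/
def rs : ZT Z p hp ⟶ Z where
  app a := Z.map ((al p hp t).app a.unop).op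
  naturality a b f := by
    show Z.map _ ≫ Z.map _ = Z.map _ ≫ Z.map _
    rw [← Z.map_comp, ← Z.map_comp]
    refine congrArg Z.map ?_
    exact Quiver.Hom.unop_inj ((al p hp t).naturality f.unop).symm

/-- Restriction along the last vertex `[0] ⟶ T θ`. -/
def ls : ZT Z p hp ⟶ Zc Z where
  app a := Z.map (be p hp a.unop).op
  naturality a b f := by
    show Z.map _ ≫ Z.map _ = Z.map _ ≫ 𝟙 _
    rw [← Z.map_comp, Category.comp_id]
    refine congrArg Z.map ?_
    exact Quiver.Hom.unop_inj (be_nat p hp f.unop)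

/-- The map `φ ↦ φ(T θ)(x ⋆ false)`. -/
def GG : Mp (disc (isoPsh C)) Z ⟶ Mp (disc (isoPsh C)) (ZT Z p hp) where
  app m := ↾ fun (φ : MpS (disc (isoPsh C)) Z m.unop) =>
    ({ app := fun a k s (x : Fin (a.unop.len + 1) → Bool) =>
        φ.app (op ((TT p hp).obj a.unop)) k s (snc x)
       nat_left := fun {a b} f k s (x : Fin (a.unop.len + 1) → Bool) => by
        have := φ.nat_left ((TT p hp).map f.unop).op k s (snc x)
        refine Eq.trans ?_ this
        refine congrArg (φ.app (op ((TT p hp).obj b.unop)) k s) ?_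
        exact (snc_up (Wr.Hom.f f.unop) x).symm
       nat_right := fun a {k l} g s (x : Fin (a.unop.len + 1) → Bool) =>
        φ.nat_right (op ((TT p hp).obj a.unop)) g s (snc x) } :
      MpS (disc (isoPsh C)) (ZT Z p hp) m.unop)
  naturality m n α := by
    ext φ
    rfl

/-- Evaluation at `[0]` and the word `false`. -/
def ev : Mp (disc (isoPsh C)) Z ⟶ Z.obj (op Wr.pt) where
  app m := ↾ fun (φ : MpS (disc (isoPsh C)) Z m.unop) => φ.app (op Wr.pt) m (𝟙 _) (fun _ => false)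
  naturality m n α := by
    refine ConcreteCategory.hom_ext _ _ fun (φ : MpS (disc (isoPsh C)) Z m.unop) => ?_
    have := φ.nat_right (op Wr.pt) α (𝟙 _) (fun _ => false)
    refine Eq.trans ?_ this
    show φ.app (op Wr.pt) n (𝟙 _ ≫ α.unop) (fun _ => false) =
      φ.app (op Wr.pt) n (α.unop ≫ 𝟙 _) (fun _ => false)
    rw [Category.comp_id, Category.id_comp]

/-- Constant maps. -/
def cs : Z.obj (op Wr.pt) ⟶ Mp (disc (isoPsh C)) (Zc Z) where
  app m := ↾ fun z =>
    ({ app := fun a k s _ => (Z.obj (op Wr.pt)).map s.op z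
       nat_left := fun f k s x => rfl
       nat_right := fun a {k l} g s x => sset_comp (Z.obj (op Wr.pt)) s.op g z } :
      MpS (disc (isoPsh C)) (Zc Z) m.unop)
  naturality m n α := by
    refine ConcreteCategory.hom_ext _ _ fun z => ?_
    refine MpS.ext ?_
    funext a k s x
    exact (sset_comp (Z.obj (op Wr.pt)) α s.op z).symm

lemma GG_rs : GG Z p hp ≫ Mp.post _ (rs Z p hp t) = 𝟙 _ := by
  refine NatTrans.ext (funext fun m => ?_)
  refine ConcreteCategory.hom_ext _ _ fun (φ : MpS (disc (isoPsh C)) Z m.unop) => ?_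
  refine MpS.ext ?_
  funext a k s (x : Fin (a.unop.len + 1) → Bool)
  have := φ.nat_left ((al p hp t).app a.unop).op k s (snc x)
  refine Eq.trans this.symm ?_
  refine congrArg (φ.app a k s) ?_
  funext i
  show snc x i.castSucc = x i
  simp [snc]

lemma GG_ls : GG Z p hp ≫ Mp.post _ (ls Z p hp) = ev Z ≫ cs Z := by
  refine NatTrans.ext (funext fun m => ?_)
  refine ConcreteCategory.hom_ext _ _ fun (φ : MpS (disc (isoPsh C)) Z m.unop) => ?_
  refine MpS.ext ?_
  funext a k s (x : Fin (a.unop.len + 1) → Bool)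
  have := φ.nat_left (be p hp a.unop).op k s (snc x)
  refine Eq.trans this.symm ?_
  have h2 := φ.nat_right (op Wr.pt) s.op (𝟙 _) (fun _ => false)
  refine Eq.trans ?_ h2
  show φ.app (op Wr.pt) k s _ = φ.app (op Wr.pt) k (s ≫ 𝟙 _) _
  rw [Category.comp_id]
  refine congrArg (φ.app (op Wr.pt) k s) ?_
  funext i
  show snc x (Fin.last _) = false
  simp [snc]

/-- `Map(1, Z) ⟶ Z([0])`. -/
def ev1 : Mp (one (Wr C)) Z ⟶ Z.obj (op Wr.pt) := Mp.pre (isoMap C) Z ≫ ev Z

/-- `Z([0]) ⟶ Map(1, Z)`. -/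
def ev1i : Z.obj (op Wr.pt) ⟶ Mp (one (Wr C)) Z where
  app m := ↾ fun z =>
    ({ app := fun a k s _ => (Z.map (Wr.toPt a.unop).op).app k ((Z.obj (op Wr.pt)).map s.op z)
       nat_left := fun {a b} f k s x => by
        refine Eq.trans ?_ (sp_comp Z (Wr.toPt a.unop).op f _)
        refine congrArg (fun q => (Z.map q).app k ((Z.obj (op Wr.pt)).map s.op z)) ?_
        exact Quiver.Hom.unop_inj (Wr.toPt_unique _ _)
       nat_right := fun a {k l} g s x => by
        refine Eq.trans ?_ (sp_nat Z (Wr.toPt a.unop).op g _)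
        exact congrArg ((Z.map (Wr.toPt a.unop).op).app l)
          (sset_comp (Z.obj (op Wr.pt)) s.op g z) } : MpS (one (Wr C)) Z m.unop)
  naturality m n α := by
    refine ConcreteCategory.hom_ext _ _ fun z => ?_
    refine MpS.ext ?_
    funext a k s x
    exact congrArg ((Z.map (Wr.toPt a.unop).op).app k)
      (sset_comp (Z.obj (op Wr.pt)) α s.op z).symm

lemma ev1_isIso : IsIso (ev1 Z) := by
  refine ⟨ev1i Z, ?_, ?_⟩
  · refine NatTrans.ext (funext fun m => ?_)
    refine ConcreteCategory.hom_ext _ _ fun (φ : MpS (one (Wr C)) Z m.unop) => ?_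
    refine MpS.ext ?_
    funext a k s x
    show (Z.map (Wr.toPt a.unop).op).app k ((Z.obj (op Wr.pt)).map s.op
      (φ.app (op Wr.pt) m (𝟙 _) PUnit.unit)) = φ.app a k s x
    have h1 := φ.nat_right (op Wr.pt) s.op (𝟙 _) PUnit.unit
    have h2 := φ.nat_left (Wr.toPt a.unop).op k s PUnit.unit
    refine (congrArg ((Z.map (Wr.toPt a.unop).op).app k) h1.symm).trans ?_
    show (Z.map (Wr.toPt a.unop).op).app k (φ.app (op Wr.pt) k (s ≫ 𝟙 _) PUnit.unit) = _
    rw [Category.comp_id]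
    exact h2.symm
  · refine NatTrans.ext (funext fun m => ?_)
    refine ConcreteCategory.hom_ext _ _ fun z => ?_
    show (Z.map (Wr.toPt Wr.pt).op).app m ((Z.obj (op Wr.pt)).map (𝟙 _) z) = z
    rw [sset_id, Wr.toPt_unique (Wr.toPt Wr.pt) (𝟙 _)]
    exact sp_id Z z

open Pool.Agent.Helper88.FL Pool.Agent.Helper91.FL2 Helper41FL2

/-- Two out of six. -/
lemma two_six {A B C D : SSet.{0}} (hB : SSet.KanComplex B)
    {p : A ⟶ B} {e : B ⟶ C} {c : C ⟶ D} (h1 : HoEq (p ≫ e)) (h2 : HoEq (e ≫ c)) : HoEq e := by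
  obtain ⟨q', a1, a2⟩ := h1
  obtain ⟨q, b1, b2⟩ := h2
  have hx : Htpy (c ≫ q) (q' ≫ p) := by
    have x1 : Htpy (c ≫ q) (q' ≫ p ≫ e ≫ c ≫ q) := by
      have := htpy_symm hB (htpy_post a2 (c ≫ q))
      rw [Category.id_comp] at this
      simpa only [Category.assoc] using this
    have x2 : Htpy (q' ≫ p ≫ e ≫ c ≫ q) (q' ≫ p) := by
      have := htpy_pre (q' ≫ p) b1
      rw [Category.comp_id] at this
      simpa only [Category.assoc] using this
    exact htpy_trans hB x1 x2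
  refine ⟨q' ≫ p, ?_, ?_⟩
  · have := htpy_pre e (htpy_symm hB hx)
    have h3 : Htpy (e ≫ c ≫ q) (𝟙 _) := by
      rw [Category.assoc] at b1
      exact b1
    exact htpy_trans hB this h3
  · rw [Category.assoc]
    exact a2

theorem loc_isoMap (hZ : InjFib Z) (h : ∀ θ : Wr C, HoEq (Z.map (Wr.toPt θ).op)) (p : C)
    (hp : ∀ (c : C) (f g : c ⟶ p), f = g) (t : ∀ c : C, c ⟶ p) : Loc Z (isoMap C) := by
  have hK : ObjKan Z := objKan_of_injFib hZ
  have hK1 : ObjKan (ZT Z p hp) := fun a => hK _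
  have hK2 : ObjKan (Zc Z) := fun a => hK _
  have hT : ∀ θ : Wr C, HoEq (Z.map (Wr.toPt ((TT p hp).obj θ)).op) := fun θ => h _
  have hrs : ObjHoEq (rs Z p hp t) := by
    intro a
    refine hoEq_of_comp_left (hK (op Wr.pt)) (hK _) (hK _)
      (f := Z.map (Wr.toPt ((TT p hp).obj a.unop)).op) (hT a.unop) ?_
    have e : Z.map (Wr.toPt ((TT p hp).obj a.unop)).op ≫ (rs Z p hp t).app a =
        Z.map (Wr.toPt a.unop).op := by
      show Z.map _ ≫ Z.map _ = _
      rw [← Z.map_comp]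
      refine congrArg Z.map ?_
      exact Quiver.Hom.unop_inj (Wr.toPt_unique _ _)
    rw [e]
    exact h a.unop
  have hls : ObjHoEq (ls Z p hp) := by
    intro a
    refine hoEq_of_comp_left (hK (op Wr.pt)) (hK _) (hK _)
      (f := Z.map (Wr.toPt ((TT p hp).obj a.unop)).op) (hT a.unop) ?_
    have e : Z.map (Wr.toPt ((TT p hp).obj a.unop)).op ≫ (ls Z p hp).app a = 𝟙 _ := by
      show Z.map _ ≫ Z.map _ = _
      rw [← Z.map_comp, ← Z.map_id]
      refine congrArg Z.map ?_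
      exact Quiver.Hom.unop_inj (Wr.toPt_unique _ _)
    rw [e]
    exact hoEq_of_isIso _
  have hM : ∀ (P : SP (Wr C)) {Y : SP (Wr C)}, InjFib Y → SSet.KanComplex (Mp P Y) :=
    fun P Y hY => Pool.Agent.Helper83.FL4.Mp_kan P hY
  have hR : InjFib ((RR (Wr C)).obj Z) := RR_injFib hK
  have hR1 : InjFib ((RR (Wr C)).obj (ZT Z p hp)) := RR_injFib hK1
  have hR2 : InjFib ((RR (Wr C)).obj (Zc Z)) := RR_injFib hK2
  have pc : ∀ {X Y W : SP (Wr C)} (f : X ⟶ Y) (g : Y ⟶ W),
      Mp.post (disc (isoPsh C)) f ≫ Mp.post _ g = Mp.post _ (f ≫ g) := fun f g => rfl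
  have ha : HoEq (GG Z p hp ≫ Mp.post _ ((RR (Wr C)).η (ZT Z p hp))) := by
    refine hoEq_of_comp_right (hM _ hZ) (hM _ hR1) (hM _ hR)
      (g := Mp.post _ ((RR (Wr C)).map (rs Z p hp t)))
      (post_hoEq hR1 hR (RR_map_objHoEq hK1 hK hrs) _) ?_
    rw [Category.assoc, pc, ← (RR (Wr C)).η_naturality, ← pc, ← Category.assoc, GG_rs,
      Category.id_comp]
    exact post_hoEq hZ hR (RR_objHoEq hK) _
  have hb : HoEq (ev Z ≫ cs Z ≫ Mp.post _ ((RR (Wr C)).η (Zc Z))) := by
    rw [← Category.assoc, ← GG_ls Z p hp, Category.assoc, pc, (RR (Wr C)).η_naturality, ← pc,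
      ← Category.assoc]
    exact hoEq_comp (hM _ hZ) (hM _ hR1) (hM _ hR2) ha
      (post_hoEq hR1 hR2 (RR_map_objHoEq hK1 hK2 hls) _)
  have h1 : HoEq (Mp.pre (isoMap C) Z ≫ ev Z) := by
    have := ev1_isIso Z
    exact hoEq_of_isIso (ev1 Z)
  have he := two_six (hM _ hZ) h1 hb
  exact hoEq_of_comp_right (hM _ hZ) (hM _ hZ) (hK _) he h1

end Main

/-- `ptT n` is a terminal object. -/
def toPtT : (n : ℕ) → (θ : _root_.FL.Th n) → (θ ⟶ ptT n)
  | 0, θ => (Discrete.eqToHom (Subsingleton.elim _ _) : (θ : Discrete PUnit.{1}) ⟶ ⟨PUnit.unit⟩)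
  | (_ + 1), θ => Wr.toPt θ

lemma toPtT_unique : ∀ (n : ℕ) (θ : _root_.FL.Th n) (f g : θ ⟶ ptT n), f = g
  | 0, _, f, g => by
    obtain ⟨⟨f⟩⟩ := f
    obtain ⟨⟨g⟩⟩ := g
    rfl
  | (_ + 1), _, f, g => Wr.toPt_unique f g

/-- For `0`-truncated presheaves. -/
theorem iso_local_const {n : ℕ} {Z : SP (_root_.FL.Th (n + 1))} (hZ : InjFib Z)
    (h : ∀ θ : Wr (_root_.FL.Th n), HoEq (Z.map (Wr.toPt θ).op)) : Loc Z (isoMap (_root_.FL.Th n)) :=
  loc_isoMap (C := _root_.FL.Th n) Z hZ h (ptT n) (toPtT_unique n) (toPtT n)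

end

end Pool.Agent.Helper54.FL2
end
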