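import Pool.Agent.Helper16.FDG.G01
import Pool.Agent.Helper16.FDG.G05
import Pool.Agent.Helper16.FDG.G06

/- Helper53.FL.Lift -/
section
/-!
# Lifting properties of maps between polynomial functors
-/

open CategoryTheory MonoidalCategory Simplicial Opposite HomotopicalAlgebra Limits

set_option autoImplicit false
set_option linter.unusedVariables false

namespace Helper53FL

open FL

variable {F : PF} (P : F.Sub)

lemma le_top : ∀ {k : SimplexCategory} (c : F.C k), P.mem c → F.top.mem c :=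
  fun _ _ => trivial

/-- The inclusion `G_P(K) ⟶ G(K)`. -/
def inc (K : SSet.{0}) : G P K ⟶ G F.top K := G.map (le_top P) (𝟙 K)

/-- The map `R_⊤(E) ⟶ R_P(E)`. -/
def RR (E : SSet.{0}) : R F.top E ⟶ R P E := R.res (le_top P) E

lemma adj_RR {K E : SSet.{0}} (a : K ⟶ R F.top E) :
    adj (a ≫ RR P E) = inc P K ≫ adj a := rfl

/-- The target of `rho`. -/
noncomputable abbrev TT {E B : SSet.{0}} (p : E ⟶ B) : SSet.{0} :=
  pullback (R.map P p) (RR P B)

/-- The map `R_⊤(E) ⟶ R_P(E) ×_{R_P(B)} R_⊤(B)`. -/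
noncomputable def rho {E B : SSet.{0}} (p : E ⟶ B) : R F.top E ⟶ TT P p :=
  pullback.lift (RR P E) (R.map F.top p) rfl

lemma rho_fst {E B : SSet.{0}} (p : E ⟶ B) :
    rho P p ≫ pullback.fst (R.map P p) (RR P B) = RR P E :=
  pullback.lift_fst _ _ _

lemma rho_snd {E B : SSet.{0}} (p : E ⟶ B) :
    rho P p ≫ pullback.snd (R.map P p) (RR P B) = R.map F.top p :=
  pullback.lift_snd _ _ _

/-- If `∅ ⟶ K` has the left lifting property w.r.t. `rho p`, then `G_P(K) ⟶ G(K)` has the left
lifting property w.r.t. `p`. -/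
lemma lift_of_rho {E B : SSet.{0}} (p : E ⟶ B) (K : SSet.{0})
    (h : HasLiftingProperty ((⊥ : K.Subcomplex).ι) (rho P p)) :
    HasLiftingProperty (inc P K) p := by
  refine ⟨fun {f g} sq => ?_⟩
  obtain ⟨w⟩ := sq
  have hw : adj.symm f ≫ R.map P p = adj.symm g ≫ RR P B := by
    apply adj.injective
    refine (adj_right _ _).trans (Eq.trans ?_ (adj_RR _ _).symm)
    refine (congrArg (· ≫ p) (Equiv.apply_symm_apply adj f)).trans (w.trans ?_)
    exact congrArg (inc P K ≫ ·) (Equiv.apply_symm_apply adj g).symm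
  let t : K ⟶ TT P p := pullback.lift (adj.symm f) (adj.symm g) hw
  have sq' : CommSq (SSet.Subcomplex.isInitialBot.to _) ((⊥ : K.Subcomplex).ι) (rho P p) t :=
    ⟨SSet.Subcomplex.isInitialBot.hom_ext _ _⟩
  have := h.sq_hasLift sq'
  have e : sq'.lift ≫ rho P p = t := sq'.fac_right
  refine ⟨⟨⟨adj sq'.lift, ?_, ?_⟩⟩⟩
  · have e1 : sq'.lift ≫ RR P E = adj.symm f := by
      rw [← rho_fst, ← Category.assoc, e]
      exact pullback.lift_fst _ _ _
    exact (adj_RR _ _).symm.trans ((congrArg adj e1).trans (Equiv.apply_symm_apply adj f))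
  · have e1 : sq'.lift ≫ R.map F.top p = adj.symm g := by
      rw [← rho_snd P p, ← Category.assoc, e]
      exact pullback.lift_snd _ _ _
    exact (adj_right _ _).symm.trans ((congrArg adj e1).trans (Equiv.apply_symm_apply adj g))

/-- The subcomplex `G_P(K) ∪ G(A)` of `G(K)`. -/
def Q {K : SSet.{0}} (A : K.Subcomplex) : (G F.top K).Subcomplex where
  obj k := Set.ofPred fun (y : GS F.top K k.unop) => P.mem y.c ∨ y.x ∈ A.obj (op (F.m y.c))
  map {k l} α := by
    rintro (y : GS F.top K k.unop) (h | h)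
    · exact Or.inl (P.act _ _ h)
    · exact Or.inr (A.map (F.act α.unop y.c).2.op h)

open Classical in
/-- Glueing. -/
noncomputable def glue {K E : SSet.{0}} (A : K.Subcomplex) (a : G F.top (A : SSet.{0}) ⟶ E)
    (b : G P K ⟶ E) (h : inc P (A : SSet.{0}) ≫ a = G.map (fun _ h => h) A.ι ≫ b) :
    (Q P A : SSet.{0}) ⟶ E where
  app k := ↾ fun (y : { y : GS F.top K k.unop // P.mem y.c ∨ y.x ∈ A.obj (op (F.m y.c)) }) =>
    if hP : P.mem y.1.c then b.app k (show GS P K k.unop from ⟨y.1.c, hP, y.1.x⟩) else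
      a.app k (show GS F.top (A : SSet.{0}) k.unop from ⟨y.1.c, trivial, ⟨y.1.x,
        y.2.resolve_left hP⟩⟩)
  naturality k l α := by
    refine ty_ext fun (y : { y : GS F.top K k.unop // P.mem y.c ∨ y.x ∈ A.obj (op (F.m y.c)) }) => ?_
    obtain ⟨⟨c, -, x⟩, hy⟩ := y
    by_cases hP : P.mem c
    · refine (dif_pos (P.act α.unop c hP)).trans (Eq.trans ?_ (congrArg (E.map α) (dif_pos hP).symm))
      exact sset_nat b α (show GS P K k.unop from ⟨c, hP, x⟩)
    · refine Eq.trans ?_ (congrArg (E.map α) (dif_neg hP).symm)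
      refine Eq.trans ?_ (sset_nat a α (show GS F.top (A : SSet.{0}) k.unop from ⟨c, trivial, ⟨x,
        hy.resolve_left hP⟩⟩))
      by_cases hP' : P.mem (F.act α.unop c).1
      · refine (dif_pos hP').trans ?_
        exact (ConcreteCategory.congr_hom (NatTrans.congr_app h l)
          (show GS P (A : SSet.{0}) l.unop from ⟨(F.act α.unop c).1, hP', ⟨_,
            A.map (F.act α.unop c).2.op (hy.resolve_left hP)⟩⟩)).symm
      · exact dif_neg hP'

/-- The inclusion `G(A) ⟶ Q(A)`. -/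
def inA {K : SSet.{0}} (A : K.Subcomplex) : G F.top (A : SSet.{0}) ⟶ (Q P A : SSet.{0}) where
  app k := ↾ fun (y : GS F.top (A : SSet.{0}) k.unop) =>
    (show { y : GS F.top K k.unop // P.mem y.c ∨ y.x ∈ A.obj (op (F.m y.c)) } from
      ⟨⟨y.c, trivial, (show A.obj _ from y.x).1⟩, Or.inr (show A.obj _ from y.x).2⟩)
  naturality k l α := rfl

/-- The inclusion `G_P(K) ⟶ Q(A)`. -/
def inP {K : SSet.{0}} (A : K.Subcomplex) : G P K ⟶ (Q P A : SSet.{0}) where
  app k := ↾ fun (y : GS P K k.unop) =>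
    (show { y : GS F.top K k.unop // P.mem y.c ∨ y.x ∈ A.obj (op (F.m y.c)) } from
      ⟨⟨y.c, trivial, y.x⟩, Or.inl y.h⟩)
  naturality k l α := rfl

lemma inA_ι {K : SSet.{0}} (A : K.Subcomplex) :
    inA P A ≫ (Q P A).ι = G.map (fun _ h => h) A.ι := rfl

lemma inP_ι {K : SSet.{0}} (A : K.Subcomplex) : inP P A ≫ (Q P A).ι = inc P K := rfl

lemma inA_inP {K : SSet.{0}} (A : K.Subcomplex) :
    inc P (A : SSet.{0}) ≫ inA P A = G.map (fun _ h => h) A.ι ≫ inP P A := rfl

section

variable {P}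
variable {K E : SSet.{0}} {A : K.Subcomplex} {a : G F.top (A : SSet.{0}) ⟶ E}
    {b : G P K ⟶ E} (h : inc P (A : SSet.{0}) ≫ a = G.map (fun _ h => h) A.ι ≫ b)

lemma inP_glue : inP P A ≫ glue P A a b h = b :=
  ss_ext fun k (y : GS P K k.unop) => dif_pos y.h

lemma inA_glue : inA P A ≫ glue P A a b h = a := by
  refine ss_ext fun k (y : GS F.top (A : SSet.{0}) k.unop) => ?_
  by_cases hP : P.mem y.c
  · refine (dif_pos hP).trans ?_
    exact (ConcreteCategory.congr_hom (NatTrans.congr_app h k)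
      (show GS P (A : SSet.{0}) k.unop from ⟨y.c, hP, y.x⟩)).symm
  · exact dif_neg hP

lemma Q_ext {f g : (Q P A : SSet.{0}) ⟶ E} (hA : inA P A ≫ f = inA P A ≫ g)
    (hP : inP P A ≫ f = inP P A ≫ g) : f = g := by
  refine ss_ext fun k (y : { y : GS F.top K k.unop // P.mem y.c ∨
    y.x ∈ A.obj (op (F.m y.c)) }) => ?_
  obtain ⟨⟨c, -, x⟩, hy | hy⟩ := y
  · exact ConcreteCategory.congr_hom (NatTrans.congr_app hP k) (show GS P K k.unop from ⟨c, hy, x⟩)
  · exact ConcreteCategory.congr_hom (NatTrans.congr_app hA k)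
      (show GS F.top (A : SSet.{0}) k.unop from ⟨c, trivial, ⟨x, hy⟩⟩)

end

/-- If `Q(A) ⟶ G(K)` has the left lifting property w.r.t. `p`, then `A ⟶ K` has the left
lifting property w.r.t. `rho p`. -/
lemma rho_of_lift {E B : SSet.{0}} (p : E ⟶ B) {K : SSet.{0}} (A : K.Subcomplex)
    (h : HasLiftingProperty (Q P A).ι p) : HasLiftingProperty A.ι (rho P p) := by
  refine ⟨fun {f g} sq => ?_⟩
  obtain ⟨w⟩ := sq
  have w1 : f ≫ RR P E = A.ι ≫ (g ≫ pullback.fst (R.map P p) (RR P B)) := by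
    rw [← rho_fst P p, ← Category.assoc, w, Category.assoc]
  have w2 : f ≫ R.map F.top p = A.ι ≫ (g ≫ pullback.snd (R.map P p) (RR P B)) := by
    rw [← rho_snd P p, ← Category.assoc, w, Category.assoc]
  have w3 : (g ≫ pullback.fst (R.map P p) (RR P B)) ≫ R.map P p =
      (g ≫ pullback.snd (R.map P p) (RR P B)) ≫ RR P B := by
    rw [Category.assoc, Category.assoc, pullback.condition]
  generalize hu : g ≫ pullback.fst (R.map P p) (RR P B) = u at w1 w3
  generalize hv : g ≫ pullback.snd (R.map P p) (RR P B) = v at w2 w3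
  have v1 : inc P (A : SSet.{0}) ≫ adj f = G.map (fun _ h => h) A.ι ≫ adj u := congrArg adj w1
  have v2 : adj f ≫ p = G.map (fun _ h => h) A.ι ≫ adj v := congrArg adj w2
  have v3 : adj u ≫ p = inc P K ≫ adj v := congrArg adj w3
  have sq' : CommSq (glue P A (adj f) (adj u) v1) (Q P A).ι p (adj v) := by
    refine ⟨Q_ext ?_ ?_⟩
    · rw [← Category.assoc, inA_glue, ← Category.assoc, inA_ι]; exact v2
    · rw [← Category.assoc, inP_glue, ← Category.assoc, inP_ι]; exact v3
  have := h.sq_hasLift sq'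
  refine ⟨⟨⟨adj.symm sq'.lift, ?_, ?_⟩⟩⟩
  · apply adj.injective
    refine (adj_left _ _).trans ?_
    rw [Equiv.apply_symm_apply, ← inA_ι, Category.assoc, sq'.fac_left, inA_glue]
  · apply pullback.hom_ext
    · rw [Category.assoc, rho_fst, hu]
      apply adj.injective
      refine (adj_RR _ _).trans ?_
      rw [Equiv.apply_symm_apply, ← inP_ι P A, Category.assoc, sq'.fac_left, inP_glue]
    · rw [Category.assoc, rho_snd, hv]
      apply adj.injective
      refine (adj_right _ _).trans ?_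
      rw [Equiv.apply_symm_apply]
      exact sq'.fac_right

/-- If `G_P(A) ⟶ G(A)` has the left lifting property w.r.t. `p`, so has `G_P(K) ⟶ Q(A)`. -/
lemma inP_lift {E B : SSet.{0}} (p : E ⟶ B) {K : SSet.{0}} (A : K.Subcomplex)
    (h : HasLiftingProperty (inc P (A : SSet.{0})) p) : HasLiftingProperty (inP P A) p := by
  refine ⟨fun {f g} sq => ?_⟩
  obtain ⟨w⟩ := sq
  have sq' : CommSq (G.map (fun _ h => h) A.ι ≫ f) (inc P (A : SSet.{0})) p (inA P A ≫ g) := by
    refine ⟨?_⟩
    rw [Category.assoc, w, ← Category.assoc, ← inA_inP, Category.assoc]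
  have := h.sq_hasLift sq'
  refine ⟨⟨⟨glue P A sq'.lift f sq'.fac_left, inP_glue _, Q_ext ?_ ?_⟩⟩⟩
  · rw [← Category.assoc, inA_glue]; exact sq'.fac_right
  · rw [← Category.assoc, inP_glue]; exact w

instance {K : SSet.{0}} (A : K.Subcomplex) : Mono (inP P A) := by
  have : ∀ k, Mono ((inP P A).app k) := fun k => by
    rw [mono_iff_injective]
    rintro (y : GS P K k.unop) (y' : GS P K k.unop) h
    have h1 : (⟨y.c, trivial, y.x⟩ : GS F.top K k.unop) = ⟨y'.c, trivial, y'.x⟩ :=
      congrArg Subtype.val (show (_ : { y : GS F.top K k.unop // P.mem y.c ∨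
        y.x ∈ A.obj (op (F.m y.c)) }) = _ from h)
    obtain ⟨c, h, x⟩ := y
    obtain ⟨c', h', x'⟩ := y'
    injection h1 with h1 h2
    subst h1
    cases h2
    rfl
  exact NatTrans.mono_of_mono_app _

instance (K : SSet.{0}) : Mono (inc P K) := by
  have : ∀ k, Mono ((inc P K).app k) := fun k => by
    rw [mono_iff_injective]
    rintro (y : GS P K k.unop) (y' : GS P K k.unop) h
    have h1 : (⟨y.c, trivial, y.x⟩ : GS F.top K k.unop) = ⟨y'.c, trivial, y'.x⟩ := h
    obtain ⟨c, h, x⟩ := y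
    obtain ⟨c', h', x'⟩ := y'
    injection h1 with h1 h2
    subst h1
    cases h2
    rfl
  exact NatTrans.mono_of_mono_app _

end Helper53FL
end

/- Helper53.FL.Ind -/
section
/-!
# The induction over the skeleta
-/

open CategoryTheory MonoidalCategory Simplicial Opposite HomotopicalAlgebra Limits

set_option autoImplicit false
set_option linter.unusedVariables false

namespace Helper53FL

open FL

lemma lift_of_dim {X Y : SSet.{0}} (ρ : X ⟶ Y) (m : ℕ)
    (hρ : ∀ l < m, HasLiftingProperty (∂Δ[l].ι : (∂Δ[l] : SSet.{0}) ⟶ Δ[l]) ρ)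
    {A K : SSet.{0}} [K.HasDimensionLT m] (i : A ⟶ K) [Mono i] : HasLiftingProperty i ρ := by
  let W : MorphismProperty SSet.{0} := fun _ _ f => HasLiftingProperty f ρ
  have hW : W.rlp ρ := fun _ _ f hf => hf
  refine MorphismProperty.transfiniteCompositionsOfShape_pushouts_coproducts_le_llp_rlp.{0} W ℕ i
    ⟨(SSet.relativeCellComplexOfMono i).transfiniteCompositionOfShape' (fun s => ?_)⟩ ρ hW
  refine hρ _ ?_
  obtain ⟨d, hd, (c : SSet.relativeCellComplexOfMono.Cell i d)⟩ := s
  exact SSet.dim_lt_of_nonDegenerate K ⟨c.simplex, c.nonDegenerate⟩ m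

lemma lift_of_all {X Y : SSet.{0}} (ρ : X ⟶ Y)
    (hρ : ∀ l, HasLiftingProperty (∂Δ[l].ι : (∂Δ[l] : SSet.{0}) ⟶ Δ[l]) ρ)
    {A K : SSet.{0}} (i : A ⟶ K) [Mono i] : HasLiftingProperty i ρ := by
  let W : MorphismProperty SSet.{0} := fun _ _ f => HasLiftingProperty f ρ
  have hW : W.rlp ρ := fun _ _ f hf => hf
  refine MorphismProperty.transfiniteCompositionsOfShape_pushouts_coproducts_le_llp_rlp.{0} W ℕ i
    ⟨(SSet.relativeCellComplexOfMono i).transfiniteCompositionOfShape' (fun s => ?_)⟩ ρ hW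
  exact hρ _

/-- The facts about weak equivalences used. -/
structure WEFacts : Prop where
  iff_lift : ∀ {X Y : SSet.{0}} (i : X ⟶ Y) [Mono i],
    WE i ↔ ∀ {E B : SSet.{0}} (p : E ⟶ B), SSet.KanComplex E → SSet.KanComplex B → KanFib p →
      HasLiftingProperty i p
  of_hoEq : ∀ {X Y : SSet.{0}} {f : X ⟶ Y}, HoEq f → WE f
  comp : ∀ {X Y Z : SSet.{0}} {f : X ⟶ Y} {g : Y ⟶ Z}, WE f → WE g → WE (f ≫ g)
  comp_left : ∀ {X Y Z : SSet.{0}} {f : X ⟶ Y} {g : Y ⟶ Z}, WE f → WE (f ≫ g) → WE g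
  comp_right : ∀ {X Y Z : SSet.{0}} {f : X ⟶ Y} {g : Y ⟶ Z}, WE g → WE (f ≫ g) → WE f

/-- The key induction: if `G_P(Δ[m]) ⟶ G(Δ[m])` is a weak equivalence for all `m`, then
`G_P(K) ⟶ G(K)` is a weak equivalence for all `K`. -/
theorem we_inc (W : WEFacts) {F : PF} (P : F.Sub)
    (h : ∀ m : ℕ, WE (inc P (Δ[m] : SSet.{0}))) (K : SSet.{0}) : WE (inc P K) := by
  have key : ∀ m : ℕ, ∀ {E B : SSet.{0}} (p : E ⟶ B), SSet.KanComplex E → SSet.KanComplex B →
      KanFib p → HasLiftingProperty (∂Δ[m].ι : (∂Δ[m] : SSet.{0}) ⟶ Δ[m]) (rho P p) := by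
    intro m
    induction m using Nat.strong_induction_on with
    | _ m ih =>
      have h1 : ∀ {E B : SSet.{0}} (p : E ⟶ B), SSet.KanComplex E → SSet.KanComplex B →
          KanFib p → HasLiftingProperty (inc P (∂Δ[m] : SSet.{0})) p := fun p hE hB hp =>
        lift_of_rho P p _ (lift_of_dim _ m (fun l hl => ih l hl p hE hB hp) _)
      have h2 : WE (inP P (∂Δ[m] : (Δ[m] : SSet.{0}).Subcomplex)) :=
        (W.iff_lift _).2 fun p hE hB hp => inP_lift P p _ (h1 p hE hB hp)
      have h3 : WE (Q P (∂Δ[m] : (Δ[m] : SSet.{0}).Subcomplex)).ι :=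
        W.comp_left h2 (by rw [inP_ι]; exact h m)
      intro E B p hE hB hp
      exact rho_of_lift P p _ ((W.iff_lift _).1 h3 p hE hB hp)
  exact (W.iff_lift _).2 fun p hE hB hp =>
    lift_of_rho P p K (lift_of_all _ (fun l => key l p hE hB hp) _)

end Helper53FL
end

/- Helper53.FL.Cyl -/
section
/-!
# The cylinder of the last vertex map
-/

open CategoryTheory MonoidalCategory Opposite HomotopicalAlgebra Limits

set_option autoImplicit false
set_option linter.unusedVariables false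

namespace Helper53FL

open FL

/-- Cells. -/
inductive CC (k : SimplexCategory) : Type
  | base : CC k
  | cell (σ : Chain SimplexCategory k) (s : Fin (k.len + 1) →o Fin 2)
      (h : s (Fin.last _) = 1) : CC k

/-- The dimension of a cell. -/
def CC.m {k : SimplexCategory} : CC k → SimplexCategory
  | .base => k
  | .cell σ _ _ => σ.obj (Fin.last _)

/-- Composition. -/
def sc {k a b : SimplexCategory} (d : (c : CC k) × (c.m ⟶ a)) (g : a ⟶ b) :
    (c : CC k) × (c.m ⟶ b) := ⟨d.1, d.2 ≫ g⟩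

lemma sc_id {k a : SimplexCategory} (d : (c : CC k) × (c.m ⟶ a)) : sc d (𝟙 a) = d := by
  obtain ⟨c, g⟩ := d
  exact congrArg (Sigma.mk c) (Category.comp_id g)

lemma sc_sc {k a b c : SimplexCategory} (d : (c : CC k) × (c.m ⟶ a)) (g : a ⟶ b) (h : b ⟶ c) :
    sc (sc d g) h = sc d (g ≫ h) := by
  obtain ⟨c, g⟩ := d
  exact congrArg (Sigma.mk c) (Category.assoc _ _ _)

/-- The cell attached to a chain and a cut. -/
def cut {k : SimplexCategory} (σ : Chain SimplexCategory k) (s : Fin (k.len + 1) →o Fin 2) :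
    (c : CC k) × (c.m ⟶ σ.obj (Fin.last _)) :=
  if h : s (Fin.last _) = 1 then ⟨.cell σ s h, 𝟙 _⟩ else ⟨.base, lastV σ⟩

lemma cut_pos {k : SimplexCategory} (σ : Chain SimplexCategory k) (s : Fin (k.len + 1) →o Fin 2)
    (h : s (Fin.last _) = 1) : cut σ s = ⟨.cell σ s h, 𝟙 _⟩ := dif_pos h

lemma cut_neg {k : SimplexCategory} (σ : Chain SimplexCategory k) (s : Fin (k.len + 1) →o Fin 2)
    (h : ¬ s (Fin.last _) = 1) : cut σ s = ⟨.base, lastV σ⟩ := dif_neg h

/-- The action. -/
def CC.act {l k : SimplexCategory} (α : l ⟶ k) : (c : CC k) → (c' : CC l) × (c'.m ⟶ c.m)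
  | .base => ⟨.base, α⟩
  | .cell σ s _ => sc (cut (σ.res α) (s.comp α.toOrderHom))
      (σ.map (α.toOrderHom (Fin.last _)) (Fin.last _) (Fin.le_last _))

lemma act_cut {l k : SimplexCategory} (α : l ⟶ k) (σ : Chain SimplexCategory k)
    (s : Fin (k.len + 1) →o Fin 2) :
    sc (CC.act α (cut σ s).1) (cut σ s).2 = sc (cut (σ.res α) (s.comp α.toOrderHom))
      (σ.map (α.toOrderHom (Fin.last _)) (Fin.last _) (Fin.le_last _)) := by
  by_cases h : s (Fin.last _) = 1
  · rw [cut_pos σ s h]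
    exact sc_id _
  · have h' : ¬ (s.comp α.toOrderHom) (Fin.last _) = 1 := fun h' => by
      have h1 : s (α.toOrderHom (Fin.last _)) ≤ s (Fin.last _) := s.monotone (Fin.le_last _)
      have h2 : s (α.toOrderHom (Fin.last _)) = 1 := h'
      rw [h2] at h1
      exact h (le_antisymm (Fin.le_last _) h1)
    rw [cut_neg σ s h, cut_neg _ _ h']
    exact congrArg (Sigma.mk CC.base) (lastV_res σ α)

/-- The polynomial functor of the cylinder. -/
def CylF : PF where
  C := CC
  m := CC.m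
  act := CC.act
  act_id {k} c := by
    cases c with
    | base => rfl
    | cell σ s h =>
      refine (congrArg (fun d => sc d _) (cut_pos σ s h)).trans ?_
      refine congrArg (Sigma.mk (CC.cell σ s h)) ?_
      exact (Category.id_comp _).trans (σ.map_id _)
  act_comp {j l k} β α c := by
    cases c with
    | base => rfl
    | cell σ s h =>
      have h1 := act_cut β (σ.res α) (s.comp α.toOrderHom)
      have h2 := congrArg (fun d => sc d
        (σ.map (α.toOrderHom (Fin.last _)) (Fin.last _) (Fin.le_last _))) h1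
      have h3 := ((sc_sc _ _ _).symm.trans h2).trans (sc_sc _ _ _)
      refine Eq.trans ?_ h3.symm
      exact congrArg (sc _) (σ.map_comp _ _ _ _ _).symm

/-- The cells at the end of the cylinder. -/
def CC.IsB {k : SimplexCategory} : CC k → Prop
  | .base => False
  | .cell _ s _ => s 0 = 1

lemma cut_isB {k : SimplexCategory} (σ : Chain SimplexCategory k)
    (s : Fin (k.len + 1) →o Fin 2) (h : s 0 = 1) : (cut σ s).1.IsB := by
  have h' : s (Fin.last _) = 1 := by
    have := s.monotone (Fin.zero_le (Fin.last _))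
    rw [h] at this
    exact le_antisymm (Fin.le_last _) this
  rw [cut_pos σ s h']
  exact h

/-- The sub-polynomial functor of the end of the cylinder. -/
def PB : CylF.Sub where
  mem := CC.IsB
  act {l k} α c h := by
    cases c with
    | base => exact h.elim
    | cell σ s h' =>
      refine cut_isB (σ.res α) (s.comp α.toOrderHom) ?_
      have h1 : s 0 = 1 := h
      have := s.monotone (Fin.zero_le (α.toOrderHom 0))
      rw [h1] at this
      exact le_antisymm (Fin.le_last _) this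

/-- The retraction. -/
def CC.r {k : SimplexCategory} : (c : CC k) → (k ⟶ c.m)
  | .base => 𝟙 k
  | .cell σ _ _ => lastV σ

lemma r_cut {k : SimplexCategory} (σ : Chain SimplexCategory k) (s : Fin (k.len + 1) →o Fin 2) :
    (cut σ s).1.r ≫ (cut σ s).2 = lastV σ := by
  by_cases h : s (Fin.last _) = 1
  · rw [cut_pos σ s h]; exact Category.comp_id _
  · rw [cut_neg σ s h]; exact Category.id_comp _

lemma r_act {l k : SimplexCategory} (α : l ⟶ k) (c : CC k) :
    (CC.act α c).1.r ≫ (CC.act α c).2 = α ≫ c.r := by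
  cases c with
  | base => exact (Category.id_comp α).trans (Category.comp_id α).symm
  | cell σ s h =>
    refine (Category.assoc _ _ _).symm.trans ?_
    refine (congrArg (· ≫ _) (r_cut (σ.res α) (s.comp α.toOrderHom))).trans ?_
    exact (lastV_res σ α).symm

/-- The cylinder. -/
abbrev Cyl (K : SSet.{0}) : SSet.{0} := G CylF.top K

/-- The retraction of the cylinder. -/
def ret (K : SSet.{0}) : Cyl K ⟶ K where
  app k := ↾ fun (y : GS CylF.top K k.unop) => K.map (CC.r y.c).op y.x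
  naturality k l α := by
    refine ty_ext fun (y : GS CylF.top K k.unop) => ?_
    refine (sset_comp K (CC.act α.unop y.c).2.op (CC.r (CC.act α.unop y.c).1).op y.x).symm.trans
      (Eq.trans ?_ (sset_comp K (CC.r y.c).op α y.x))
    exact congrArg (fun g : _ ⟶ _ => K.map (Quiver.Hom.op g) y.x) (r_act α.unop y.c)

/-- The section. -/
def sec (K : SSet.{0}) : K ⟶ Cyl K where
  app k := ↾ fun x => (show GS CylF.top K k.unop from ⟨.base, trivial, x⟩)
  naturality k l α := rfl

lemma sec_ret (K : SSet.{0}) : sec K ≫ ret K = 𝟙 K :=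
  ss_ext fun k x => sset_id K x

/-- The homotopy on cells. -/
def CC.mn {k : SimplexCategory} (t : Fin (k.len + 1) →o Fin 2) :
    (c : CC k) → (c' : CC k) × (c'.m ⟶ c.m)
  | .base => ⟨.base, 𝟙 k⟩
  | .cell σ s _ => cut σ (s ⊓ t)

lemma mn_cut {k : SimplexCategory} (t : Fin (k.len + 1) →o Fin 2) (σ : Chain SimplexCategory k)
    (s : Fin (k.len + 1) →o Fin 2) :
    sc (CC.mn t (cut σ s).1) (cut σ s).2 = cut σ (s ⊓ t) := by
  by_cases h : s (Fin.last _) = 1
  · rw [cut_pos σ s h]; exact sc_id _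
  · have h' : ¬ (s ⊓ t) (Fin.last _) = 1 := fun h' => by
      have h1 : (s ⊓ t) (Fin.last _) ≤ s (Fin.last _) := inf_le_left
      rw [h'] at h1
      exact h (le_antisymm (Fin.le_last _) h1)
    rw [cut_neg σ s h, cut_neg _ _ h']
    exact congrArg (Sigma.mk CC.base) (Category.id_comp _)

lemma mn_act {l k : SimplexCategory} (α : l ⟶ k) (t : Fin (k.len + 1) →o Fin 2) (c : CC k) :
    sc (CC.act α (CC.mn t c).1) (CC.mn t c).2 =
      sc (CC.mn (t.comp α.toOrderHom) (CC.act α c).1) (CC.act α c).2 := by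
  cases c with
  | base => exact congrArg (Sigma.mk CC.base) ((Category.comp_id α).trans (Category.id_comp α).symm)
  | cell σ s h =>
    refine (act_cut α σ (s ⊓ t)).trans (Eq.trans ?_ (sc_sc _ _ _))
    exact congrArg (fun d => sc d _) (mn_cut (t.comp α.toOrderHom) (σ.res α)
      (s.comp α.toOrderHom)).symm

/-- The monotone map underlying a simplex of `Δ[1]`. -/
def oh {k : SimplexCategoryᵒᵖ} (t : (SSet.stdSimplex.{0}.obj (SimplexCategory.mk 1)).obj k) :
    Fin (k.unop.len + 1) →o Fin 2 :=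
  (SSet.stdSimplex.objEquiv t).toOrderHom

lemma oh_map {k l : SimplexCategoryᵒᵖ} (α : k ⟶ l)
    (t : (SSet.stdSimplex.{0}.obj (SimplexCategory.mk 1)).obj k) :
    oh ((SSet.stdSimplex.{0}.obj (SimplexCategory.mk 1)).map α t) =
      (oh t).comp α.unop.toOrderHom := rfl

lemma GS.congrT {P : CylF.Sub} {K : SSet.{0}} {k n : SimplexCategory} (x : K.obj (op n))
    {d d' : (c : CC k) × (c.m ⟶ n)} (hd : d = d') (h : P.mem d.1) (h' : P.mem d'.1) :
    (GS.mk d.1 h (K.map d.2.op x) : GS P K k) = GS.mk d'.1 h' (K.map d'.2.op x) := by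
  subst hd; rfl

/-- The homotopy. -/
def homot (K : SSet.{0}) : Cyl K ⊗ (SSet.stdSimplex.{0}.obj (SimplexCategory.mk 1)) ⟶ Cyl K where
  app k := ↾ fun (y : GS CylF.top K k.unop ×
      (SSet.stdSimplex.{0}.obj (SimplexCategory.mk 1)).obj k) =>
    (show GS CylF.top K k.unop from
      ⟨(CC.mn (oh y.2) y.1.c).1, trivial, K.map (CC.mn (oh y.2) y.1.c).2.op y.1.x⟩)
  naturality k l α := by
    refine ty_ext fun (y : GS CylF.top K k.unop ×
      (SSet.stdSimplex.{0}.obj (SimplexCategory.mk 1)).obj k) => ?_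
    obtain ⟨⟨c, -, x⟩, t⟩ := y
    have h := GS.congrT (P := CylF.top) (K := K) x (mn_act α.unop (oh t) c) trivial trivial
    refine Eq.trans ?_ (h.symm.trans ?_)
    · exact GS.congr' (F := CylF) _ (sset_comp K (CC.act α.unop c).2.op _ x).symm
    · exact GS.congr' (F := CylF) _ (sset_comp K (CC.mn (oh t) c).2.op
        (CC.act α.unop (CC.mn (oh t) c).1).2.op x)

lemma mn_zero {k : SimplexCategory} (c : CC k) :
    CC.mn (⟨fun _ => 0, fun _ _ _ => le_refl _⟩ : Fin (k.len + 1) →o Fin 2) c =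
      ⟨.base, c.r⟩ := by
  cases c with
  | base => rfl
  | cell σ s h => exact cut_neg σ _ (fun h' => (by decide : ¬ (1 : Fin 2) = 0)
      (h'.symm.trans (inf_eq_right.2 (Fin.zero_le (s (Fin.last _))))))

lemma mn_one {k : SimplexCategory} (c : CC k) :
    CC.mn (⟨fun _ => 1, fun _ _ _ => le_refl _⟩ : Fin (k.len + 1) →o Fin 2) c = ⟨c, 𝟙 _⟩ := by
  cases c with
  | base => rfl
  | cell σ s h =>
    have e : s ⊓ (⟨fun _ => 1, fun _ _ _ => le_refl _⟩ : Fin (k.len + 1) →o Fin 2) = s := by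
      ext i
      exact congrArg Fin.val (inf_eq_left.2 (Fin.le_last (s i)))
    show cut σ (s ⊓ _) = _
    rw [e]
    exact cut_pos σ s h

lemma homot_zero (K : SSet.{0}) : SSet.ι₀ ≫ homot K = ret K ≫ sec K := by
  refine ss_ext fun k (y : GS CylF.top K k.unop) => ?_
  obtain ⟨c, -, x⟩ := y
  exact GS.congrT (P := CylF.top) (K := K) x (mn_zero c) trivial trivial

lemma homot_one (K : SSet.{0}) : SSet.ι₁ ≫ homot K = 𝟙 (Cyl K) := by
  refine ss_ext fun k (y : GS CylF.top K k.unop) => ?_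
  obtain ⟨c, -, x⟩ := y
  refine (GS.congrT (P := CylF.top) (K := K) x (mn_one c) trivial trivial).trans ?_
  exact GS.congr' (F := CylF) _ (sset_id K x)

/-- Building homotopies. -/
noncomputable def mkHtpy {X Y : SSet.{0}} {f g : X ⟶ Y}
    (h : X ⊗ (SSet.stdSimplex.{0}.obj (SimplexCategory.mk 1)) ⟶ Y)
    (h₀ : SSet.ι₀ ≫ h = f) (h₁ : SSet.ι₁ ≫ h = g) : SSet.Homotopy f g :=
  { h := h
    h₀ := h₀
    h₁ := h₁
    rel := by
      refine ss_ext fun k (y : (⊥ : X.Subcomplex).obj k × _) => ?_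
      exact absurd y.1.2 (Set.notMem_empty _) }

lemma htpy_rfl {X Y : SSet.{0}} (f : X ⟶ Y) : Htpy f f :=
  ⟨mkHtpy (CartesianMonoidalCategory.fst _ _ ≫ f) rfl rfl⟩

lemma ret_hoEq (K : SSet.{0}) : HoEq (ret K) :=
  ⟨sec K, ⟨mkHtpy (homot K) (homot_zero K) (homot_one K)⟩, by rw [sec_ret]; exact htpy_rfl _⟩

end Helper53FL
end

/- Helper53.FL.NvIso -/
section
/-!
# The nerve of the category of simplices as a polynomial functor
-/

open CategoryTheory MonoidalCategory Opposite HomotopicalAlgebra Limits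

set_option autoImplicit false
set_option linter.unusedVariables false

namespace Helper53FL

open FL

/-- The constant cut. -/
def one (k : SimplexCategory) : Fin (k.len + 1) →o Fin 2 := ⟨fun _ => 1, fun _ _ _ => le_refl _⟩

/-- The comparison. -/
def toG (K : SSet.{0}) : Nv (Simp K) ⟶ G PB K where
  app k := ↾ fun (σ : Chain (Simp K) k.unop) =>
    (show GS PB K k.unop from ⟨CC.cell (σ.push (Simp.toΔ K)) (one k.unop) rfl, rfl,
      (σ.obj (Fin.last _)).x⟩)
  naturality k l α := by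
    refine ty_ext fun (σ : Chain (Simp K) k.unop) => ?_
    have h := GS.congrT (P := PB) (K := K) (σ.obj (Fin.last _)).x
      (congrArg (fun d => sc d ((σ.push (Simp.toΔ K)).map (α.unop.toOrderHom (Fin.last _))
        (Fin.last _) (Fin.le_last _))) (cut_pos ((σ.push (Simp.toΔ K)).res α.unop)
          ((one k.unop).comp α.unop.toOrderHom) rfl))
    refine Eq.trans ?_ (h ?_ rfl).symm
    · refine GS.congr' (F := CylF) _ ?_
      refine (σ.map (α.unop.toOrderHom (Fin.last _)) (Fin.last _) (Fin.le_last _)).2.symm.trans ?_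
      exact congrArg (fun g : _ ⟶ _ => K.map (Quiver.Hom.op g) (σ.obj (Fin.last _)).x)
        (Category.id_comp _).symm
    · exact cut_isB ((σ.push (Simp.toΔ K)).res α.unop) ((one k.unop).comp α.unop.toOrderHom) rfl

/-- Chains of simplices. -/
def mkC {K : SSet.{0}} {k : SimplexCategory} (τ : Chain SimplexCategory k)
    (x : ∀ i, K.obj (op (τ.obj i))) (hx : ∀ i j h, K.map (τ.map i j h).op (x j) = x i) :
    Chain (Simp K) k where
  obj i := ⟨τ.obj i, x i⟩
  map i j h := ⟨τ.map i j h, hx i j h⟩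
  map_id i := Subtype.ext (τ.map_id i)
  map_comp i j l h h' := Subtype.ext (τ.map_comp i j l h h')

lemma mkC_congr {K : SSet.{0}} {k : SimplexCategory} (τ : Chain SimplexCategory k)
    {x x' : ∀ i, K.obj (op (τ.obj i))} (h : x = x')
    (hx : ∀ i j h, K.map (τ.map i j h).op (x j) = x i)
    (hx' : ∀ i j h, K.map (τ.map i j h).op (x' j) = x' i) : mkC τ x hx = mkC τ x' hx' := by
  subst h; rfl

/-- The chain attached to a chain and a simplex. -/
def chn {K : SSet.{0}} {k : SimplexCategory} (τ : Chain SimplexCategory k)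
    (x : K.obj (op (τ.obj (Fin.last _)))) : Chain (Simp K) k :=
  mkC τ (fun i => K.map (τ.map i (Fin.last _) (Fin.le_last _)).op x) fun i j h => by
    refine (sset_comp K _ _ x).symm.trans ?_
    exact congrArg (fun g : _ ⟶ _ => K.map (Quiver.Hom.op g) x) (τ.map_comp i j _ h _)

lemma chn_push {K : SSet.{0}} {k : SimplexCategory} (σ : Chain (Simp K) k) :
    chn (σ.push (Simp.toΔ K)) (σ.obj (Fin.last _)).x = σ := by
  have h : σ = mkC (σ.push (Simp.toΔ K)) (fun i => (σ.obj i).x) (fun i j h => (σ.map i j h).2) :=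
    rfl
  conv_rhs => rw [h]
  refine mkC_congr _ ?_ _ _
  funext i
  exact (σ.map i (Fin.last _) (Fin.le_last _)).2

lemma one_unique {k : SimplexCategory} (s : Fin (k.len + 1) →o Fin 2) (h : s 0 = 1) :
    s = one k := by
  ext i
  have h1 := s.monotone (Fin.zero_le i)
  rw [h] at h1
  exact congrArg Fin.val (le_antisymm (Fin.le_last _) h1)

lemma toG_bij (K : SSet.{0}) (k : SimplexCategoryᵒᵖ) :
    Function.Bijective ((toG K).app k) := by
  refine Function.bijective_iff_has_inverse.2 ⟨fun (y : GS PB K k.unop) => ?_, ?_, ?_⟩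
  · exact match y with
      | ⟨.base, h, _⟩ => h.elim
      | ⟨.cell τ _ _, _, x⟩ => (chn τ x : Chain (Simp K) k.unop)
  · intro (σ : Chain (Simp K) k.unop)
    exact chn_push σ
  · intro (y : GS PB K k.unop)
    obtain ⟨c, h, x⟩ := y
    cases c with
    | base => exact h.elim
    | cell τ s hs =>
      obtain rfl := one_unique s h
      refine GS.congr' (F := CylF) _ ?_
      refine Eq.trans ?_ (sset_id K x)
      exact congrArg (fun g : _ ⟶ _ => K.map (Quiver.Hom.op g) x) (τ.map_id _)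

instance (K : SSet.{0}) : IsIso (toG K) := by
  have : ∀ k, IsIso ((toG K).app k) := fun k => (isIso_iff_bijective _).2 (toG_bij K k)
  exact NatIso.isIso_of_isIso_app _

lemma toG_inc_ret (K : SSet.{0}) : toG K ≫ inc PB K ≫ ret K = lastMap K := rfl

end Helper53FL
end

/- Helper53.FL.Contr -/
section
/-!
# Contractibility of simplices and of nerves of categories with terminal objects
-/

open CategoryTheory MonoidalCategory Opposite HomotopicalAlgebra Limits

set_option autoImplicit false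
set_option linter.unusedVariables false

namespace Helper53FL

open FL

/-- The interval. -/
abbrev I1 : SSet.{0} := SSet.stdSimplex.{0}.obj (SimplexCategory.mk 1)

lemma htpy_whisker {X Y Z T : SSet.{0}} {f g : X ⟶ Y} (h : Htpy f g) (a : Z ⟶ X) (b : Y ⟶ T) :
    Htpy (a ≫ f ≫ b) (a ≫ g ≫ b) := by
  obtain ⟨H⟩ := h
  refine ⟨mkHtpy (a ▷ I1 ≫ H.h ≫ b) ?_ ?_⟩
  · have h0 : SSet.ι₀ ≫ H.h = f := H.h₀
    calc SSet.ι₀ ≫ a ▷ I1 ≫ H.h ≫ b = a ≫ (SSet.ι₀ ≫ H.h) ≫ b := rfl
      _ = _ := by rw [h0]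
  · have h1 : SSet.ι₁ ≫ H.h = g := H.h₁
    calc SSet.ι₁ ≫ a ▷ I1 ≫ H.h ≫ b = a ≫ (SSet.ι₁ ≫ H.h) ≫ b := rfl
      _ = _ := by rw [h1]

lemma hoEq_of_retract {X Y : SSet.{0}} {u : X ⟶ Y} {v : Y ⟶ X} (h : v ≫ u = 𝟙 Y)
    (huv : HoEq (u ≫ v)) : HoEq v := by
  obtain ⟨w, h1, h2⟩ := huv
  refine ⟨w ≫ u, ?_, ?_⟩
  · have h3 := htpy_whisker h1 v u
    have e1 : v ≫ ((u ≫ v) ≫ w) ≫ u = v ≫ w ≫ u := by
      simp only [← Category.assoc]
      rw [h, Category.id_comp]
    rw [e1, Category.id_comp, h] at h3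
    exact h3
  · have e : (w ≫ u) ≫ v = w ≫ u ≫ v := Category.assoc _ _ _
    rw [e]
    exact h2

/-- The minimum `Δ[1] × Δ[1] ⟶ Δ[1]`. -/
def minS {k : SimplexCategoryᵒᵖ} (s t : I1.obj k) : I1.obj k :=
  SSet.stdSimplex.objEquiv.symm (SimplexCategory.Hom.mk (oh s ⊓ oh t))

lemma fst_hoEq (X : SSet.{0}) : HoEq (CartesianMonoidalCategory.fst X I1) := by
  refine ⟨SSet.ι₀, ⟨mkHtpy (X := X ⊗ I1) (Y := X ⊗ I1)
    { app := fun k => ↾ fun (y : (X.obj k × I1.obj k) × I1.obj k) =>
        (show X.obj k × I1.obj k from (y.1.1, minS y.1.2 y.2))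
      naturality := fun k l α => rfl } ?_ ?_⟩, htpy_rfl _⟩
  · refine ss_ext fun k (y : X.obj k × I1.obj k) => ?_
    refine Prod.ext rfl ?_
    apply SSet.stdSimplex.objEquiv.injective
    refine (Equiv.apply_symm_apply _ _).trans ?_
    ext i
    exact congrArg Fin.val (inf_eq_right.2 (Fin.zero_le (oh y.2 i)))
  · refine ss_ext fun k (y : X.obj k × I1.obj k) => ?_
    refine Prod.ext rfl ?_
    apply SSet.stdSimplex.objEquiv.injective
    refine (Equiv.apply_symm_apply _ _).trans ?_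
    ext i
    exact congrArg Fin.val (inf_eq_left.2 (Fin.le_last (oh y.2 i)))

lemma we_of_contr (W : WEFacts) {X Y : SSet.{0}} (c : X ⟶ Y) (x : Y ⟶ X) (h : x ≫ c = 𝟙 Y)
    (H : Htpy (𝟙 X) (c ≫ x)) : WE c := by
  have hid : WE (𝟙 X) := W.of_hoEq ⟨𝟙 X, by rw [Category.comp_id]; exact htpy_rfl _,
    by rw [Category.comp_id]; exact htpy_rfl _⟩
  have h0 : WE (SSet.ι₀ (X := X)) :=
    W.comp_right (g := CartesianMonoidalCategory.fst X I1) (W.of_hoEq (fst_hoEq X)) hid
  have h1 : WE (SSet.ι₁ (X := X)) :=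
    W.comp_right (g := CartesianMonoidalCategory.fst X I1) (W.of_hoEq (fst_hoEq X)) hid
  obtain ⟨H⟩ := H
  have hH : WE H.h := W.comp_left h0 (by rw [show SSet.ι₀ ≫ H.h = 𝟙 X from H.h₀]; exact hid)
  have he : WE (c ≫ x) := by
    have := W.comp h1 hH
    rwa [show SSet.ι₁ ≫ H.h = c ≫ x from H.h₁] at this
  intro K hK
  refine hoEq_of_retract (u := (MonoidalClosed.pre x).app K) ?_ ?_
  · rw [← NatTrans.comp_app, ← MonoidalClosed.pre_map, h, MonoidalClosed.pre_id]; rfl
  · rw [← NatTrans.comp_app, ← MonoidalClosed.pre_map]; exact he K hK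

/-- The point. -/
def pt : SSet.{0} where
  obj _ := PUnit
  map _ := 𝟙 _

/-- The map to the point. -/
def toPt (X : SSet.{0}) : X ⟶ pt where
  app k := ↾ fun _ => PUnit.unit
  naturality k l α := rfl

lemma pt_ext {X : SSet.{0}} (f g : X ⟶ pt) : f = g := ss_ext fun _ _ => rfl

/-- The contraction of a simplex. -/
def ctr {m k : SimplexCategory} (g : Fin (k.len + 1) →o Fin (m.len + 1))
    (t : Fin (k.len + 1) →o Fin 2) : Fin (k.len + 1) →o Fin (m.len + 1) where
  toFun i := if t i = 0 then 0 else g i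
  monotone' i j h := by
    by_cases hi : t i = 0
    · simp [hi]
    · have hj : ¬ t j = 0 := fun hj => by
        have := t.monotone h
        rw [hj] at this
        exact hi (le_antisymm this (Fin.zero_le _))
      simp only [hi, hj, if_false]
      exact g.monotone h

lemma ctr_zero {m k : SimplexCategory} (g : Fin (k.len + 1) →o Fin (m.len + 1))
    (t : Fin (k.len + 1) →o Fin 2) (i : Fin (k.len + 1)) (h : t i = 0) : ctr g t i = 0 := if_pos h

lemma ctr_one {m k : SimplexCategory} (g : Fin (k.len + 1) →o Fin (m.len + 1))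
    (t : Fin (k.len + 1) →o Fin 2) (i : Fin (k.len + 1)) (h : t i = 1) : ctr g t i = g i :=
  if_neg (by rw [h]; decide)

/-- The initial vertex. -/
def vert0 (m : SimplexCategory) : pt ⟶ SSet.stdSimplex.{0}.obj m where
  app k := ↾ fun _ =>
    SSet.stdSimplex.objEquiv.symm (SimplexCategory.Hom.mk ⟨fun _ => 0, fun _ _ _ => le_refl _⟩)
  naturality k l α := rfl

lemma stdSimplex_hoEq (m : SimplexCategory) : HoEq (toPt (SSet.stdSimplex.{0}.obj m)) := by
  refine ⟨vert0 m, ⟨mkHtpy
    { app := fun k => ↾ fun (y : (SSet.stdSimplex.{0}.obj m).obj k × I1.obj k) =>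
        SSet.stdSimplex.objEquiv.symm (SimplexCategory.Hom.mk
          (ctr (SSet.stdSimplex.objEquiv y.1).toOrderHom (oh y.2)))
      naturality := fun k l α => rfl } ?_ ?_⟩, ?_⟩
  · refine ss_ext fun k (y : (SSet.stdSimplex.{0}.obj m).obj k) => ?_
    apply SSet.stdSimplex.objEquiv.injective
    refine (Equiv.apply_symm_apply _ _).trans ?_
    ext i
    exact congrArg Fin.val (ctr_zero _ _ i rfl)
  · refine ss_ext fun k (y : (SSet.stdSimplex.{0}.obj m).obj k) => ?_
    apply SSet.stdSimplex.objEquiv.injective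
    refine (Equiv.apply_symm_apply _ _).trans ?_
    ext i
    exact congrArg Fin.val (ctr_one _ _ i rfl)
  · rw [pt_ext (_ ≫ _) (𝟙 pt)]
    exact htpy_rfl _

section Nerve

variable {J : Type} [SmallCategory J] {T : J} (hT : IsTerminal T)

/-- Objects. -/
def ob (T j : J) : Fin 2 → J
  | 0 => j
  | 1 => T

/-- Morphisms. -/
def mp {j j' : J} (f : j ⟶ j') : ∀ (a b : Fin 2), a ≤ b → (ob T j a ⟶ ob T j' b)
  | 0, 0, _ => f
  | 0, 1, _ => hT.from j
  | 1, 1, _ => 𝟙 T
  | 1, 0, h => absurd h (by decide)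

lemma mp_id (j : J) (a : Fin 2) : mp hT (𝟙 j) a a (le_refl _) = 𝟙 _ := by
  match a with
  | 0 => rfl
  | 1 => rfl

lemma mp_comp {j j' j'' : J} (f : j ⟶ j') (g : j' ⟶ j'') (a b c : Fin 2) (h : a ≤ b)
    (h' : b ≤ c) : mp hT f a b h ≫ mp hT g b c h' = mp hT (f ≫ g) a c (h.trans h') := by
  match a, b, c with
  | 0, 0, 0 => rfl
  | 0, 0, 1 => exact hT.hom_ext _ _
  | 0, 1, 1 => exact hT.hom_ext _ _
  | 1, 1, 1 => exact hT.hom_ext _ _
  | 1, 0, _ => exact absurd h (by decide)
  | 0, 1, 0 => exact absurd h' (by decide)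
  | 1, 1, 0 => exact absurd h' (by decide)

/-- The homotopy on chains. -/
def chH {k : SimplexCategory} (σ : Chain J k) (t : Fin (k.len + 1) →o Fin 2) : Chain J k where
  obj i := ob T (σ.obj i) (t i)
  map i j h := mp hT (σ.map i j h) (t i) (t j) (t.monotone h)
  map_id i := by rw [σ.map_id]; exact mp_id hT _ _
  map_comp i j l h h' := by rw [mp_comp, σ.map_comp]

/-- The constant chain. -/
def chT (T : J) (k : SimplexCategory) : Chain J k where
  obj i := T
  map i j h := 𝟙 T
  map_id i := rfl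
  map_comp i j l h h' := Category.id_comp _

theorem nv_we (W : WEFacts) (hT : IsTerminal T) : WE (toPt (Nv J)) := by
  refine we_of_contr W (toPt (Nv J))
    { app := fun k => ↾ fun _ => (chT T k.unop : Chain J k.unop)
      naturality := fun k l α => rfl } (pt_ext _ _) ⟨mkHtpy
    { app := fun k => ↾ fun (y : Chain J k.unop × I1.obj k) => (chH hT y.1 (oh y.2) : Chain J _)
      naturality := fun k l α => rfl } ?_ ?_⟩
  · exact ss_ext fun k (y : Chain J k.unop) => rfl
  · exact ss_ext fun k (y : Chain J k.unop) => rfl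

end Nerve

/-- The terminal simplex of a standard simplex. -/
def termS (m : SimplexCategory) : Simp (SSet.stdSimplex.{0}.obj m) :=
  ⟨m, SSet.stdSimplex.objEquiv.symm (𝟙 m)⟩

/-- It is terminal. -/
noncomputable def termS_isTerminal (m : SimplexCategory) : IsTerminal (termS m) := by
  refine IsTerminal.ofUniqueHom (fun e => ⟨SSet.stdSimplex.objEquiv e.x, ?_⟩) fun e f => ?_
  · apply SSet.stdSimplex.objEquiv.injective
    exact Category.comp_id (SSet.stdSimplex.objEquiv e.x)
  · refine Subtype.ext ?_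
    have h := congrArg SSet.stdSimplex.objEquiv f.2
    refine Eq.trans ?_ h
    exact (Category.comp_id _).symm

theorem lastMap_simplex (W : WEFacts) (m : SimplexCategory) :
    WE (lastMap (SSet.stdSimplex.{0}.obj m)) := by
  refine W.comp_right (g := toPt _) (W.of_hoEq (stdSimplex_hoEq m)) ?_
  rw [pt_ext (_ ≫ _) (toPt _)]
  exact nv_we W (termS_isTerminal m)

theorem we_iso (W : WEFacts) {X Y : SSet.{0}} (f : X ⟶ Y) [IsIso f] : WE f :=
  W.of_hoEq ⟨inv f, by rw [IsIso.hom_inv_id]; exact htpy_rfl _,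
    by rw [IsIso.inv_hom_id]; exact htpy_rfl _⟩

/-- The last vertex map is a weak equivalence. -/
theorem lastMap_we_of (W : WEFacts) (K : SSet.{0}) : WE (lastMap K) := by
  have h : ∀ m : ℕ, WE (inc PB (SSet.stdSimplex.{0}.obj (SimplexCategory.mk m))) := fun m => by
    have h1 := lastMap_simplex W (SimplexCategory.mk m)
    rw [← toG_inc_ret] at h1
    exact W.comp_right (W.of_hoEq (ret_hoEq _)) (W.comp_left (we_iso W _) h1)
  rw [← toG_inc_ret]
  exact W.comp (we_iso W _) (W.comp (we_inc W PB h K) (W.of_hoEq (ret_hoEq K)))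

end Helper53FL
end

/- Helper55.FL2.LocTensor -/
section
/-! FL2-G1: tensors with simplicial sets preserve local maps; the elementwise criterion for
pushouts. -/

open CategoryTheory MonoidalCategory Opposite Simplicial Limits

set_option autoImplicit false

namespace Pool.Agent.Helper55.FL2

open FL

section Tensor

variable {A : Type} [SmallCategory A] {X : SP A}

/-- Partial evaluation of a map out of `P × K`. -/
def cur {P : SP A} {K : SSet.{0}} {m k : SimplexCategory} (φ : MpS (tn P K) X m) (s : k ⟶ m)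
    (κ : K.obj (op k)) : MpS P X k where
  app a l t p := φ.app a l (t ≫ s) (p, K.map t.op κ)
  nat_left {a b} f l t p := φ.nat_left f l (t ≫ s) (p, K.map t.op κ)
  nat_right a {l l'} g t p := by
    refine Eq.trans ?_ (φ.nat_right a g (t ≫ s) (p, K.map t.op κ))
    rw [Category.assoc]
    exact congrArg (fun z => φ.app a l' (g.unop ≫ t ≫ s) ((P.obj a).map g p, z))
      (sset_comp K t.op g κ)

theorem cur_res {P : SP A} {K : SSet.{0}} {m k l : SimplexCategory} (φ : MpS (tn P K) X m)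
    (s : k ⟶ m) (t : l ⟶ k) (κ : K.obj (op k)) :
    cur φ (t ≫ s) (K.map t.op κ) = (cur φ s κ).res t := by
  refine MpS.ext ?_
  funext a r q p
  show φ.app a r (q ≫ t ≫ s) (p, K.map q.op (K.map t.op κ)) =
    φ.app a r ((q ≫ t) ≫ s) (p, K.map (q ≫ t).op κ)
  rw [Category.assoc]
  exact congrArg (fun z => φ.app a r (q ≫ t ≫ s) (p, z)) (sset_comp K t.op q.op κ).symm

theorem cur_res' {P : SP A} {K : SSet.{0}} {m n k : SimplexCategory} (φ : MpS (tn P K) X m)
    (α : n ⟶ m) (s : k ⟶ n) (κ : K.obj (op k)) : cur (φ.res α) s κ = cur φ (s ≫ α) κ := by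
  refine MpS.ext ?_
  funext a r q p
  show φ.app a r ((q ≫ s) ≫ α) (p, K.map q.op κ) = φ.app a r (q ≫ s ≫ α) (p, K.map q.op κ)
  rw [Category.assoc]

theorem cur_app {P : SP A} {K : SSet.{0}} {m : SimplexCategory} (φ : MpS (tn P K) X m)
    (a : Aᵒᵖ) (k : SimplexCategoryᵒᵖ) (s : k.unop ⟶ m) (κ : K.obj k) (p : (P.obj a).obj k) :
    (cur φ s κ).app a k (𝟙 _) p = φ.app a k s (p, κ) := by
  show φ.app a k (𝟙 _ ≫ s) (p, K.map (𝟙 k) κ) = _
  rw [Category.id_comp]
  exact congrArg (fun z => φ.app a k s (p, z)) (sset_id K κ)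

variable {P Q R : SP A}

/-- The extension of a map of mapping spaces to tensors, on simplices. -/
def exS (K : SSet.{0}) (g : Mp P X ⟶ Mp Q X) {m : SimplexCategory} (φ : MpS (tn P K) X m) :
    MpS (tn Q K) X m where
  app a k s z := (g.app k (cur φ s z.2) : MpS Q X k.unop).app a k (𝟙 _) z.1
  nat_left {a b} f k s z := (g.app k (cur φ s z.2) : MpS Q X k.unop).nat_left f k (𝟙 _) z.1
  nat_right a {k l} α s z := by
    show (g.app l (cur φ (α.unop ≫ s) (K.map α z.2)) : MpS Q X l.unop).app a l (𝟙 _)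
      ((Q.obj a).map α z.1) = _
    have h1 : cur φ (α.unop ≫ s) (K.map α z.2) = (cur φ s z.2).res α.unop :=
      cur_res φ s α.unop z.2
    have h2 : (g.app l ((cur φ s z.2).res α.unop) : MpS Q X l.unop) =
        (g.app k (cur φ s z.2) : MpS Q X k.unop).res α.unop :=
      sset_nat g α (cur φ s z.2)
    rw [h1]
    refine (congrArg (fun t : MpS Q X l.unop => t.app a l (𝟙 _) ((Q.obj a).map α z.1)) h2).trans ?_
    refine Eq.trans ?_ ((g.app k (cur φ s z.2) : MpS Q X k.unop).nat_right a α (𝟙 _) z.1)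
    show (g.app k (cur φ s z.2) : MpS Q X k.unop).app a l (𝟙 _ ≫ α.unop) _ =
      (g.app k (cur φ s z.2) : MpS Q X k.unop).app a l (α.unop ≫ 𝟙 _) _
    rw [Category.id_comp, Category.comp_id]

/-- The extension of a map of mapping spaces to tensors. -/
def ex0 (K : SSet.{0}) (g : Mp P X ⟶ Mp Q X) : Mp (tn P K) X ⟶ Mp (tn Q K) X where
  app m := ↾ fun φ => exS K g φ
  naturality m n α := by
    refine ConcreteCategory.hom_ext _ _ fun φ => ?_
    refine MpS.ext ?_
    funext a k s z
    exact congrArg (fun t : MpS P X k.unop =>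
      (g.app k t : MpS Q X k.unop).app a k (𝟙 _) z.1) (cur_res' φ α.unop s z.2)

theorem cur_exS (K : SSet.{0}) (g : Mp P X ⟶ Mp Q X) {m k : SimplexCategory}
    (φ : MpS (tn P K) X m) (s : k ⟶ m) (κ : K.obj (op k)) :
    cur (exS K g φ) s κ = g.app (op k) (cur φ s κ) := by
  refine MpS.ext ?_
  funext a l t q
  have h1 : cur φ (t ≫ s) (K.map t.op κ) = (cur φ s κ).res t := cur_res φ s t κ
  have h2 : (g.app l ((cur φ s κ).res t) : MpS Q X l.unop) =
      (g.app (op k) (cur φ s κ) : MpS Q X k).res t := sset_nat g t.op (cur φ s κ)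
  show (g.app l (cur φ (t ≫ s) (K.map t.op κ)) : MpS Q X l.unop).app a l (𝟙 _) q =
    (g.app (op k) (cur φ s κ) : MpS Q X k).app a l t q
  rw [h1]
  refine (congrArg (fun t : MpS Q X l.unop => t.app a l (𝟙 _) q) h2).trans ?_
  show (g.app (op k) (cur φ s κ) : MpS Q X k).app a l (𝟙 _ ≫ t) q = _
  rw [Category.id_comp]

theorem ex0_comp (K : SSet.{0}) (g : Mp P X ⟶ Mp Q X) (h : Mp Q X ⟶ Mp R X) :
    ex0 K g ≫ ex0 K h = ex0 K (g ≫ h) := by
  refine NatTrans.ext (funext fun m => ?_)
  refine ConcreteCategory.hom_ext _ _ fun φ => ?_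
  refine MpS.ext ?_
  funext a k s z
  exact congrArg (fun t : MpS Q X k.unop => (h.app k t : MpS R X k.unop).app a k (𝟙 _) z.1)
    (cur_exS K g φ s z.2)

theorem ex0_pre (K : SSet.{0}) (f : P ⟶ Q) : ex0 K (Mp.pre f X) = Mp.pre (tnMap f (𝟙 K)) X := by
  refine NatTrans.ext (funext fun m => ?_)
  refine ConcreteCategory.hom_ext _ _ fun φ => ?_
  refine MpS.ext ?_
  funext a k s z
  exact cur_app φ a k s z.2 _

theorem ex0_id (K : SSet.{0}) : ex0 K (𝟙 (Mp P X)) = 𝟙 _ := ex0_pre K (𝟙 P)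

/-- The extension of a homotopy. -/
def exH (K L : SSet.{0}) (H : Mp P X ⊗ L ⟶ Mp Q X) :
    Mp (tn P K) X ⊗ L ⟶ Mp (tn Q K) X where
  app m := ↾ fun z =>
    ({ app := fun a k s w =>
        (H.app k (cur (z.1 : MpS (tn P K) X m.unop) s w.2, L.map s.op z.2) :
          MpS Q X k.unop).app a k (𝟙 _) w.1
       nat_left := fun {a b} f k s w =>
        (H.app k (cur (z.1 : MpS (tn P K) X m.unop) s w.2, L.map s.op z.2) :
          MpS Q X k.unop).nat_left f k (𝟙 _) w.1
       nat_right := fun a {k l} α s w => by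
        obtain ⟨φ, u⟩ := z
        have h1 : cur (φ : MpS (tn P K) X m.unop) (α.unop ≫ s) (K.map α w.2) =
            (cur (φ : MpS (tn P K) X m.unop) s w.2).res α.unop :=
          cur_res (φ : MpS (tn P K) X m.unop) s α.unop w.2
        have h1' : L.map (α.unop ≫ s).op u = L.map α (L.map s.op u) := sset_comp L s.op α u
        have h2 : (H.app l ((cur (φ : MpS (tn P K) X m.unop) s w.2).res α.unop,
            L.map α (L.map s.op u)) : MpS Q X l.unop) =
            (H.app k (cur (φ : MpS (tn P K) X m.unop) s w.2, L.map s.op u) :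
              MpS Q X k.unop).res α.unop :=
          sset_nat H α (cur (φ : MpS (tn P K) X m.unop) s w.2, L.map s.op u)
        have h3 : (H.app l (cur (φ : MpS (tn P K) X m.unop) (α.unop ≫ s) (K.map α w.2),
            L.map (α.unop ≫ s).op u) : MpS Q X l.unop) =
            (H.app k (cur (φ : MpS (tn P K) X m.unop) s w.2, L.map s.op u) :
              MpS Q X k.unop).res α.unop := by
          rw [← h2, h1, h1']
        refine (congrArg (fun t : MpS Q X l.unop =>
          t.app a l (𝟙 _) ((Q.obj a).map α w.1)) h3).trans ?_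
        refine Eq.trans ?_ ((H.app k (cur (φ : MpS (tn P K) X m.unop) s w.2, L.map s.op u) :
          MpS Q X k.unop).nat_right a α (𝟙 _) w.1)
        show (H.app k (cur (φ : MpS (tn P K) X m.unop) s w.2, L.map s.op u) :
            MpS Q X k.unop).app a l (𝟙 _ ≫ α.unop) _ =
          (H.app k (cur (φ : MpS (tn P K) X m.unop) s w.2, L.map s.op u) :
            MpS Q X k.unop).app a l (α.unop ≫ 𝟙 _) _
        rw [Category.id_comp, Category.comp_id] } : MpS (tn Q K) X m.unop)
  naturality m n α := by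
    refine ConcreteCategory.hom_ext _ _ fun z => ?_
    obtain ⟨φ, u⟩ := z
    refine MpS.ext ?_
    funext a k s w
    have h1 : cur ((φ : MpS (tn P K) X m.unop).res α.unop) s w.2 =
        cur (φ : MpS (tn P K) X m.unop) (s ≫ α.unop) w.2 :=
      cur_res' (φ : MpS (tn P K) X m.unop) α.unop s w.2
    have h2 : L.map s.op (L.map α u) = L.map (s ≫ α.unop).op u :=
      (sset_comp L α s.op u).symm
    show (H.app k (cur ((φ : MpS (tn P K) X m.unop).res α.unop) s w.2,
      L.map s.op (L.map α u)) : MpS Q X k.unop).app a k (𝟙 _) w.1 =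
      (H.app k (cur (φ : MpS (tn P K) X m.unop) (s ≫ α.unop) w.2,
        L.map (s ≫ α.unop).op u) : MpS Q X k.unop).app a k (𝟙 _) w.1
    rw [h1, h2]

theorem exH_htpy (K : SSet.{0}) {g g' : Mp P X ⟶ Mp Q X} (h : Htpy g g') :
    Htpy (ex0 K g) (ex0 K g') := by
  obtain ⟨H⟩ := h
  refine Pool.Agent.Helper45.FL2.htpy_mk (exH K Δ[1] H.h) ?_ ?_
  · refine NatTrans.ext (funext fun m => ?_)
    refine ConcreteCategory.hom_ext _ _ fun φ => ?_
    refine MpS.ext ?_
    funext a k s w
    have h0 := H.h₀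
    exact congrArg (fun t : MpS Q X k.unop => t.app a k (𝟙 _) w.1)
      (ConcreteCategory.congr_hom (NatTrans.congr_app h0 k) (cur φ s w.2))
  · refine NatTrans.ext (funext fun m => ?_)
    refine ConcreteCategory.hom_ext _ _ fun φ => ?_
    refine MpS.ext ?_
    funext a k s w
    have h1 := H.h₁
    exact congrArg (fun t : MpS Q X k.unop => t.app a k (𝟙 _) w.1)
      (ConcreteCategory.congr_hom (NatTrans.congr_app h1 k) (cur φ s w.2))

theorem loc_tensor' {P Q : SP A} (f : P ⟶ Q) (h : Loc X f) (K : SSet.{0}) :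
    Loc X (tnMap f (𝟙 K)) := by
  obtain ⟨g, h1, h2⟩ := h
  have h1' := exH_htpy K h1
  have h2' := exH_htpy K h2
  rw [← ex0_comp, ex0_id, ex0_pre] at h1' h2'
  exact ⟨ex0 K g, h1', h2'⟩

theorem loc_tensor (_hX : InjFib X) {P Q : SP A} (f : P ⟶ Q) (h : Loc X f) (K : SSet.{0}) :
    Loc X (tnMap f (𝟙 K)) := loc_tensor' f h K

end Tensor

section Pushout

variable {A : Type} [SmallCategory A]

/-- A functional natural relation gives a map. -/
theorem glueT {P T : SP A}
    (Rel : ∀ (a : Aᵒᵖ) (k : SimplexCategoryᵒᵖ), (P.obj a).obj k → (T.obj a).obj k → Prop)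
    (ex : ∀ a k z, ∃ v, Rel a k z v)
    (uniq : ∀ a k z v v', Rel a k z v → Rel a k z v' → v = v')
    (natA : ∀ {a b : Aᵒᵖ} (f : a ⟶ b) (k : SimplexCategoryᵒᵖ) (z : (P.obj a).obj k)
      (v : (T.obj a).obj k), Rel a k z v → Rel b k ((P.map f).app k z) ((T.map f).app k v))
    (natk : ∀ (a : Aᵒᵖ) {k l : SimplexCategoryᵒᵖ} (α : k ⟶ l) (z : (P.obj a).obj k)
      (v : (T.obj a).obj k), Rel a k z v → Rel a l ((P.obj a).map α z) ((T.obj a).map α v)) :
    ∃ g : P ⟶ T, ∀ a k z, Rel a k z ((g.app a).app k z) := by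
  classical
  choose c hc using ex
  refine ⟨
    { app := fun a =>
        { app := fun k => ↾ fun z => c a k z
          naturality := fun k l α => ?_ }
      naturality := fun a b f => ?_ }, fun a k z => hc a k z⟩
  · refine ConcreteCategory.hom_ext _ _ fun z => ?_
    exact uniq a l _ _ _ (hc a l _) (natk a α z _ (hc a k z))
  · refine NatTrans.ext (funext fun k => ?_)
    refine ConcreteCategory.hom_ext _ _ fun z => ?_
    exact uniq b k _ _ _ (hc b k _) (natA f k z _ (hc a k z))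

/-- Elementwise criterion for pushout squares. -/
theorem isPushout_of_elem {P Q P' Q' : SP A} (i : P ⟶ Q) (u : P ⟶ P') (v : Q ⟶ Q')
    (i' : P' ⟶ Q') (w : i ≫ v = u ≫ i')
    (hi : ∀ a k, Function.Injective ((i.app a).app k))
    (hi' : ∀ a k, Function.Injective ((i'.app a).app k))
    (hinj : ∀ a k (x y : (Q.obj a).obj k), x ∉ Set.range ((i.app a).app k) →
      y ∉ Set.range ((i.app a).app k) → (v.app a).app k x = (v.app a).app k y → x = y)
    (hdis : ∀ a k (x : (Q.obj a).obj k), x ∉ Set.range ((i.app a).app k) →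
      (v.app a).app k x ∉ Set.range ((i'.app a).app k))
    (hsurj : ∀ a k (z : (Q'.obj a).obj k), z ∈ Set.range ((v.app a).app k) ∨
      z ∈ Set.range ((i'.app a).app k)) : IsPushout i u v i' := by
  have hw : ∀ a k p, (v.app a).app k ((i.app a).app k p) =
      (i'.app a).app k ((u.app a).app k p) := fun a k p =>
    ConcreteCategory.congr_hom (NatTrans.congr_app (NatTrans.congr_app w a) k) p
  have key : ∀ s : PushoutCocone i u, ∃ g : Q' ⟶ s.pt, v ≫ g = s.inl ∧ i' ≫ g = s.inr := by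
    intro s
    have hs : ∀ a k p, (s.inl.app a).app k ((i.app a).app k p) =
        (s.inr.app a).app k ((u.app a).app k p) := fun a k p =>
      ConcreteCategory.congr_hom (NatTrans.congr_app (NatTrans.congr_app s.condition a) k) p
    have hg : ∃ g : Q' ⟶ s.pt, ∀ (a : Aᵒᵖ) (k : SimplexCategoryᵒᵖ) (z : (Q'.obj a).obj k),
        (∃ x, (v.app a).app k x = z ∧ (s.inl.app a).app k x = (g.app a).app k z) ∨
        (∃ y, (i'.app a).app k y = z ∧ (s.inr.app a).app k y = (g.app a).app k z) := by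
      refine glueT (fun a k z t => (∃ x, (v.app a).app k x = z ∧ (s.inl.app a).app k x = t) ∨
        (∃ y, (i'.app a).app k y = z ∧ (s.inr.app a).app k y = t)) ?_ ?_ ?_ ?_
      · intro a k z
        rcases hsurj a k z with ⟨x, hx⟩ | ⟨y, hy⟩
        · exact ⟨_, Or.inl ⟨x, hx, rfl⟩⟩
        · exact ⟨_, Or.inr ⟨y, hy, rfl⟩⟩
      · have aux : ∀ a k x y, (v.app a).app k x = (i'.app a).app k y →
            (s.inl.app a).app k x = (s.inr.app a).app k y := by
          intro a k x y h
          by_cases hx : x ∈ Set.range ((i.app a).app k)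
          · obtain ⟨p, rfl⟩ := hx
            rw [hw] at h
            rw [hs, hi' a k h]
          · exact absurd ⟨y, h.symm⟩ (hdis a k x hx)
        rintro a k z _ _ (⟨x, hx, rfl⟩ | ⟨y, hy, rfl⟩) (⟨x', hx', rfl⟩ | ⟨y', hy', rfl⟩)
        · by_cases h1 : x ∈ Set.range ((i.app a).app k)
          · obtain ⟨p, rfl⟩ := h1
            have h2 : (v.app a).app k x' = (i'.app a).app k ((u.app a).app k p) := by
              rw [hx', ← hx, hw]
            rw [hs]
            exact (aux a k _ _ h2).symm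
          · by_cases h2 : x' ∈ Set.range ((i.app a).app k)
            · obtain ⟨p, rfl⟩ := h2
              have h2 : (v.app a).app k x = (i'.app a).app k ((u.app a).app k p) := by
                rw [hx, ← hx', hw]
              rw [hs]
              exact aux a k _ _ h2
            · rw [hinj a k x x' h1 h2 (hx.trans hx'.symm)]
        · exact aux a k _ _ (hx.trans hy'.symm)
        · exact (aux a k _ _ (hx'.trans hy.symm)).symm
        · rw [hi' a k (hy.trans hy'.symm)]
      · rintro a b f k z _ (⟨x, rfl, rfl⟩ | ⟨y, rfl, rfl⟩)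
        · exact Or.inl ⟨(Q.map f).app k x, hom_nat v f x, hom_nat s.inl f x⟩
        · exact Or.inr ⟨(P'.map f).app k y, hom_nat i' f y, hom_nat s.inr f y⟩
      · rintro a k l α z _ (⟨x, rfl, rfl⟩ | ⟨y, rfl, rfl⟩)
        · exact Or.inl ⟨(Q.obj a).map α x, hom_natk v α x, hom_natk s.inl α x⟩
        · exact Or.inr ⟨(P'.obj a).map α y, hom_natk i' α y, hom_natk s.inr α y⟩
    obtain ⟨g, hg⟩ := hg
    refine ⟨g, ?_, ?_⟩
    · refine NatTrans.ext (funext fun a => NatTrans.ext (funext fun k => ?_))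
      refine ConcreteCategory.hom_ext _ _ fun x => ?_
      show (g.app a).app k ((v.app a).app k x) = (s.inl.app a).app k x
      rcases hg a k ((v.app a).app k x) with ⟨x', hx', h'⟩ | ⟨y, hy, h'⟩
      · rw [← h']
        by_cases h1 : x ∈ Set.range ((i.app a).app k)
        · obtain ⟨p, rfl⟩ := h1
          by_cases h2 : x' ∈ Set.range ((i.app a).app k)
          · obtain ⟨p', rfl⟩ := h2
            rw [hw, hw] at hx'
            rw [hs, hs, hi' a k hx']
          · refine absurd ⟨(u.app a).app k p, ?_⟩ (hdis a k x' h2)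
            rw [← hw, ← hx']
        · by_cases h2 : x' ∈ Set.range ((i.app a).app k)
          · obtain ⟨p, rfl⟩ := h2
            refine absurd ⟨(u.app a).app k p, ?_⟩ (hdis a k x h1)
            rw [← hw, hx']
          · rw [hinj a k x' x h2 h1 hx']
      · rw [← h']
        by_cases h1 : x ∈ Set.range ((i.app a).app k)
        · obtain ⟨p, rfl⟩ := h1
          rw [hw] at hy
          rw [hs, hi' a k hy]
        · exact absurd ⟨y, hy⟩ (hdis a k x h1)
    · refine NatTrans.ext (funext fun a => NatTrans.ext (funext fun k => ?_))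
      refine ConcreteCategory.hom_ext _ _ fun y => ?_
      show (g.app a).app k ((i'.app a).app k y) = (s.inr.app a).app k y
      rcases hg a k ((i'.app a).app k y) with ⟨x, hx, h'⟩ | ⟨y', hy', h'⟩
      · rw [← h']
        by_cases h1 : x ∈ Set.range ((i.app a).app k)
        · obtain ⟨p, rfl⟩ := h1
          rw [hw] at hx
          rw [hs, hi' a k hx]
        · exact absurd ⟨y, hx.symm⟩ (hdis a k x h1)
      · rw [← h', hi' a k hy']
  choose d hd1 hd2 using key
  refine ⟨⟨w⟩, ⟨PushoutCocone.IsColimit.mk _ d hd1 hd2 ?_⟩⟩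
  intro s m h1 h2
  refine NatTrans.ext (funext fun a => NatTrans.ext (funext fun k => ?_))
  refine ConcreteCategory.hom_ext _ _ fun z => ?_
  rcases hsurj a k z with ⟨x, rfl⟩ | ⟨y, rfl⟩
  · have e1 := ConcreteCategory.congr_hom (NatTrans.congr_app (NatTrans.congr_app h1 a) k) x
    have e2 := ConcreteCategory.congr_hom
      (NatTrans.congr_app (NatTrans.congr_app (hd1 s) a) k) x
    exact e1.trans e2.symm
  · have e1 := ConcreteCategory.congr_hom (NatTrans.congr_app (NatTrans.congr_app h2 a) k) y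
    have e2 := ConcreteCategory.congr_hom
      (NatTrans.congr_app (NatTrans.congr_app (hd2 s) a) k) y
    exact e1.trans e2.symm

end Pushout

end Pool.Agent.Helper55.FL2
end

/- Helper45.FL2.Loc4 -/
section
/-!
# FL2-G1 LOC, part 4: local inclusions of sub-presheaves
-/

open CategoryTheory MonoidalCategory Opposite HomotopicalAlgebra Limits

set_option autoImplicit false

namespace Pool.Agent.Helper45.LOC

open FL

section

variable {A : Type} [SmallCategory A] {X : SP A}

theorem inj_ofLE {P : SP A} {S T : Sb P} (h : S ≤ T) (a : Aᵒᵖ) (k : SimplexCategoryᵒᵖ) :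
    Function.Injective (((Sb.ofLE h).app a).app k) := by
  intro x y hxy
  have h2 := congrArg (fun z : { x : (P.obj a).obj k // x ∈ T.mem a k } => z.1) hxy
  exact Subtype.ext h2

theorem mono_ofLE {P : SP A} {S T : Sb P} (h : S ≤ T) (a : Aᵒᵖ) : Mono ((Sb.ofLE h).app a) := by
  have : ∀ k, Mono (((Sb.ofLE h).app a).app k) := fun k => (mono_iff_injective _).2 (inj_ofLE h a k)
  exact NatTrans.mono_of_mono_app _

theorem locT_refl {P : SP A} (S : Sb P) : LocT X S S := by
  refine ⟨le_refl S, ?_⟩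
  have h : Sb.ofLE (le_refl S) = 𝟙 S.toSP := rfl
  rw [h]
  exact loc_of_isIso _

theorem locT_trans (hX : InjFib X) {P : SP A} {S T U : Sb P} (h : LocT X S T)
    (h' : LocT X T U) : LocT X S U := by
  obtain ⟨a, ha⟩ := h
  obtain ⟨b, hb⟩ := h'
  exact ⟨a.trans b, loc_comp hX ha hb⟩

theorem locT_cancel (hX : InjFib X) {P : SP A} {S T U : Sb P} (h : LocT X S T)
    (h' : LocT X S U) (hTU : T ≤ U) : LocT X T U := by
  obtain ⟨a, ha⟩ := h
  obtain ⟨b, hb⟩ := h'
  exact ⟨hTU, loc_of_comp_left hX (g := Sb.ofLE hTU) ha hb⟩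

theorem locT_cancel' (hX : InjFib X) {P : SP A} {S T U : Sb P} (h : LocT X T U)
    (h' : LocT X S U) (hST : S ≤ T) : LocT X S T := by
  obtain ⟨a, ha⟩ := h
  obtain ⟨b, hb⟩ := h'
  exact ⟨hST, loc_of_comp_right hX (f := Sb.ofLE hST) ha hb⟩

/-- Unions of sub-presheaves are pushouts. -/
theorem isPushout_sup {P : SP A} (S T : Sb P) :
    IsPushout (Sb.ofLE (inf_le_right : S ⊓ T ≤ T)) (Sb.ofLE (inf_le_left : S ⊓ T ≤ S))
      (Sb.ofLE (le_sup_right : T ≤ S ⊔ T)) (Sb.ofLE (le_sup_left : S ≤ S ⊔ T)) := by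
  refine Pool.Agent.Helper55.FL2.isPushout_of_elem _ _ _ _ rfl (inj_ofLE _) (inj_ofLE _) ?_ ?_ ?_
  · intro a k x y _ _ h
    exact inj_ofLE _ a k h
  · rintro a k x hx ⟨y, hy⟩
    refine hx ⟨⟨x.1, ?_, x.2⟩, rfl⟩
    have h : y.1 = x.1 :=
      congrArg (fun z : { x : (P.obj a).obj k // x ∈ (S ⊔ T).mem a k } => z.1) hy
    rw [← h]
    exact y.2
  · rintro a k ⟨z, hz⟩
    rcases hz with hz | hz
    · exact Or.inr ⟨⟨z, hz⟩, rfl⟩
    · exact Or.inl ⟨⟨z, hz⟩, rfl⟩

theorem locT_push (hX : InjFib X) {P : SP A} {S T : Sb P} (h : LocT X (S ⊓ T) T) :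
    LocT X S (S ⊔ T) := by
  obtain ⟨_, ha⟩ := h
  exact ⟨le_sup_left, loc_pushout hX (isPushout_sup S T) (mono_ofLE _) ha⟩

/-- The gluing lemma for unions of sub-presheaves. -/
theorem loc_restr_sup (hX : InjFib X) {P Q : SP A} (f : P ⟶ Q) (S T : Sb P) (S' T' : Sb Q)
    (hS : ∀ (a : Aᵒᵖ) (k : SimplexCategoryᵒᵖ) (x : (P.obj a).obj k),
      x ∈ S.mem a k → (f.app a).app k x ∈ S'.mem a k)
    (hT : ∀ (a : Aᵒᵖ) (k : SimplexCategoryᵒᵖ) (x : (P.obj a).obj k),
      x ∈ T.mem a k → (f.app a).app k x ∈ T'.mem a k)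
    (h1 : Loc X (Sb.restr f S S' hS)) (h2 : Loc X (Sb.restr f T T' hT))
    (h12 : Loc X (Sb.restr f (S ⊓ T) (S' ⊓ T') fun a k x hx => ⟨hS a k x hx.1, hT a k x hx.2⟩)) :
    Loc X (Sb.restr f (S ⊔ T) (S' ⊔ T') fun a k x hx =>
      hx.elim (fun h => Or.inl (hS a k x h)) fun h => Or.inr (hT a k x h)) :=
  loc_glue hX (isPushout_sup S T) (isPushout_sup S' T') (mono_ofLE _) (mono_ofLE _) _ _ _ _
    rfl rfl rfl rfl h12 h2 h1

end

end Pool.Agent.Helper45.LOC
end

/- Helper81.FL2.LocC -/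
section
/-!
# G1: locality of inclusions of sub-presheaves and monomorphisms
-/

open CategoryTheory MonoidalCategory Opposite HomotopicalAlgebra

set_option autoImplicit false

namespace Pool.Agent.Helper81.FL2

open FL

section

variable {A : Type} [SmallCategory A] {X : SP A}

theorem isIso_of_bij {P Q : SP A} (f : P ⟶ Q)
    (h : ∀ a k, Function.Bijective ((f.app a).app k)) : IsIso f := by
  have h1 : ∀ a, IsIso (f.app a) := by
    intro a
    have h2 : ∀ k, IsIso ((f.app a).app k) := fun k => (isIso_iff_bijective _).mpr (h a k)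
    exact NatIso.isIso_of_isIso_app _
  exact NatIso.isIso_of_isIso_app _

theorem inj_of_mono_app {P Q : SP A} (f : P ⟶ Q) (hf : ∀ a, Mono (f.app a)) (a : Aᵒᵖ)
    (k : SimplexCategoryᵒᵖ) : Function.Injective ((f.app a).app k) := by
  have := hf a
  exact (mono_iff_injective _).mp inferInstance

/-- The restriction of a monomorphism to the preimage of a sub-presheaf contained in the image. -/
theorem isIso_restr_comap {P Q : SP A} (f : P ⟶ Q) (hf : ∀ a, Mono (f.app a)) (S : Sb Q)
    (hS : S ≤ Sb.range f) : IsIso (Sb.restr f (S.comap f) S fun _ _ _ h => h) := by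
  refine isIso_of_bij _ fun a k => ⟨?_, ?_⟩
  · intro x y h
    exact Subtype.ext (inj_of_mono_app f hf a k (congrArg Subtype.val h))
  · rintro ⟨y, hy⟩
    obtain ⟨x, rfl⟩ := hS a k hy
    exact ⟨⟨x, hy⟩, rfl⟩

/-- Locality can be checked after restriction along a monomorphism. -/
theorem locT_comap {P Q : SP A} (f : P ⟶ Q) (hf : ∀ a, Mono (f.app a)) (S T : Sb Q)
    (hST : S ≤ T) (hT : T ≤ Sb.range f) : LocT X (S.comap f) (T.comap f) ↔ LocT X S T := by
  have h1 := isIso_restr_comap f hf S (hST.trans hT)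
  have h2 := isIso_restr_comap f hf T hT
  have hle : S.comap f ≤ T.comap f := fun a k x hx => hST a k hx
  have e : Sb.ofLE hle ≫ Sb.restr f (T.comap f) T (fun _ _ _ h => h) =
      Sb.restr f (S.comap f) S (fun _ _ _ h => h) ≫ Sb.ofLE hST := rfl
  constructor
  · rintro ⟨_, h⟩
    exact ⟨hST, Pool.Agent.Helper45.LOC.loc_of_arrow_iso
      (asIso (Sb.restr f (S.comap f) S fun _ _ _ h => h))
      (asIso (Sb.restr f (T.comap f) T fun _ _ _ h => h)) e h⟩
  · rintro ⟨_, h⟩
    refine ⟨hle, Pool.Agent.Helper45.LOC.loc_of_arrow_iso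
      (asIso (Sb.restr f (S.comap f) S fun _ _ _ h => h)).symm
      (asIso (Sb.restr f (T.comap f) T fun _ _ _ h => h)).symm ?_ h⟩
    show Sb.ofLE hST ≫ inv _ = inv _ ≫ Sb.ofLE hle
    rw [IsIso.eq_inv_comp, ← Category.assoc, IsIso.comp_inv_eq]
    exact e.symm

/-- A monomorphism is local if and only if its image is. -/
theorem loc_iff_range {P Q : SP A} (f : P ⟶ Q) (hf : ∀ a, Mono (f.app a)) :
    Loc X f ↔ LocT X (Sb.range f) ⊤ := by
  let u : P ⟶ (Sb.range f).toSP :=
    { app := fun a =>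
        { app := fun k => ↾ fun x => ⟨(f.app a).app k x, ⟨x, rfl⟩⟩
          naturality := fun k l α => by
            refine ConcreteCategory.hom_ext _ _ fun x => ?_
            exact Subtype.ext (hom_natk f α x) }
      naturality := fun a b g => by
        refine NatTrans.ext (funext fun k => ?_)
        refine ConcreteCategory.hom_ext _ _ fun x => ?_
        exact Subtype.ext (hom_nat f g x) }
  let v : Q ⟶ (⊤ : Sb Q).toSP :=
    { app := fun a =>
        { app := fun k => ↾ fun x => ⟨x, trivial⟩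
          naturality := fun _ _ _ => rfl }
      naturality := fun _ _ _ => rfl }
  have hu : IsIso u := isIso_of_bij _ fun a k => ⟨fun x y h =>
    inj_of_mono_app f hf a k (congrArg Subtype.val h), by
      rintro ⟨_, x, rfl⟩
      exact ⟨x, rfl⟩⟩
  have hv : IsIso v := isIso_of_bij _ fun a k => ⟨fun x y h => congrArg Subtype.val h,
    fun x => ⟨x.1, rfl⟩⟩
  have hle : Sb.range f ≤ ⊤ := le_top
  have e : f ≫ v = u ≫ Sb.ofLE hle := rfl
  constructor
  · intro h
    exact ⟨hle, Pool.Agent.Helper45.LOC.loc_of_arrow_iso (asIso u) (asIso v) e h⟩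
  · rintro ⟨_, h⟩
    refine Pool.Agent.Helper45.LOC.loc_of_arrow_iso (asIso u).symm (asIso v).symm ?_ h
    show Sb.ofLE hle ≫ inv v = inv u ≫ f
    rw [IsIso.eq_inv_comp, ← Category.assoc, IsIso.comp_inv_eq]
    exact e.symm

end

end Pool.Agent.Helper81.FL2
end

/- Helper45.FL2.LocAll -/
section
/-!
# FL2-G1 LOC: all statements of section G1 in one namespace
-/

open CategoryTheory MonoidalCategory Opposite HomotopicalAlgebra Limits

set_option autoImplicit false

namespace Pool.Agent.Helper45.LOC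

open FL

section

variable {A : Type} [SmallCategory A] {X : SP A}

theorem loc_tensor (hX : InjFib X) {P Q : SP A} (f : P ⟶ Q) (h : Loc X f) (K : SSet.{0}) :
    Loc X (tnMap f (𝟙 K)) := Pool.Agent.Helper55.FL2.loc_tensor hX f h K

/-- Elementwise criterion for pushout squares. -/
theorem isPushout_of_elem {P Q P' Q' : SP A} (i : P ⟶ Q) (u : P ⟶ P') (v : Q ⟶ Q')
    (i' : P' ⟶ Q') (w : i ≫ v = u ≫ i')
    (hi : ∀ a k, Function.Injective ((i.app a).app k))
    (hi' : ∀ a k, Function.Injective ((i'.app a).app k))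
    (hinj : ∀ a k (x y : (Q.obj a).obj k), x ∉ Set.range ((i.app a).app k) →
      y ∉ Set.range ((i.app a).app k) → (v.app a).app k x = (v.app a).app k y → x = y)
    (hdis : ∀ a k (x : (Q.obj a).obj k), x ∉ Set.range ((i.app a).app k) →
      (v.app a).app k x ∉ Set.range ((i'.app a).app k))
    (hsurj : ∀ a k (z : (Q'.obj a).obj k), z ∈ Set.range ((v.app a).app k) ∨
      z ∈ Set.range ((i'.app a).app k)) : IsPushout i u v i' :=
  Pool.Agent.Helper55.FL2.isPushout_of_elem i u v i' w hi hi' hinj hdis hsurj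

/-- Locality can be checked after restriction along a monomorphism. -/
theorem locT_comap {P Q : SP A} (f : P ⟶ Q) (hf : ∀ a, Mono (f.app a)) (S T : Sb Q)
    (hST : S ≤ T) (hT : T ≤ Sb.range f) : LocT X (S.comap f) (T.comap f) ↔ LocT X S T :=
  Pool.Agent.Helper81.FL2.locT_comap f hf S T hST hT

/-- A monomorphism is local if and only if its image is. -/
theorem loc_iff_range {P Q : SP A} (f : P ⟶ Q) (hf : ∀ a, Mono (f.app a)) :
    Loc X f ↔ LocT X (Sb.range f) ⊤ := Pool.Agent.Helper81.FL2.loc_iff_range f hf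

end

end Pool.Agent.Helper45.LOC
end

/- Helper81.FL2.Face -/
section
/-!
# Faces of cosimplicial simplicial presheaves
-/

open CategoryTheory MonoidalCategory Opposite

set_option autoImplicit false

namespace Pool.Agent.Helper81.FL2

open FL

section Retraction

variable {N : ℕ} (U : Finset (Fin (N + 1))) (p : Fin (N + 1)) (hp : p ∈ U)

/-- the retraction onto `U`, rounding towards `p` -/
def rhoFun (i : Fin (N + 1)) : Fin (N + 1) :=
  if h : p ≤ i then (U.filter (· ≤ i)).max' ⟨p, Finset.mem_filter.2 ⟨hp, h⟩⟩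
  else (U.filter (i ≤ ·)).min' ⟨p, Finset.mem_filter.2 ⟨hp, (not_le.1 h).le⟩⟩

theorem rhoFun_ge {i : Fin (N + 1)} (h : p ≤ i) :
    rhoFun U p hp i ∈ U ∧ p ≤ rhoFun U p hp i ∧ rhoFun U p hp i ≤ i := by
  have h1 := Finset.max'_mem (U.filter (· ≤ i)) ⟨p, Finset.mem_filter.2 ⟨hp, h⟩⟩
  have e : rhoFun U p hp i = (U.filter (· ≤ i)).max' ⟨p, Finset.mem_filter.2 ⟨hp, h⟩⟩ := by
    unfold rhoFun
    rw [dif_pos h]
  rw [← e] at h1
  have h2 := Finset.mem_filter.1 h1
  refine ⟨h2.1, ?_, h2.2⟩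
  rw [e]
  exact Finset.le_max' _ _ (Finset.mem_filter.2 ⟨hp, h⟩)

theorem rhoFun_le {i : Fin (N + 1)} (h : i ≤ p) :
    rhoFun U p hp i ∈ U ∧ i ≤ rhoFun U p hp i ∧ rhoFun U p hp i ≤ p := by
  by_cases h' : p ≤ i
  · have hi : i = p := le_antisymm h h'
    obtain ⟨h1, h2, h3⟩ := rhoFun_ge U p hp h'
    exact ⟨h1, by rw [hi] at h2 ⊢; exact h2, by rw [hi] at h3 ⊢; exact h3⟩
  · have h1 := Finset.min'_mem (U.filter (i ≤ ·)) ⟨p, Finset.mem_filter.2 ⟨hp, h⟩⟩
    have e : rhoFun U p hp i = (U.filter (i ≤ ·)).min' ⟨p, Finset.mem_filter.2 ⟨hp, h⟩⟩ := by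
      unfold rhoFun
      rw [dif_neg h']
    rw [← e] at h1
    have h2 := Finset.mem_filter.1 h1
    refine ⟨h2.1, h2.2, ?_⟩
    rw [e]
    exact Finset.min'_le _ _ (Finset.mem_filter.2 ⟨hp, h⟩)

theorem rhoFun_mem (i : Fin (N + 1)) : rhoFun U p hp i ∈ U := by
  rcases le_total p i with h | h
  · exact (rhoFun_ge U p hp h).1
  · exact (rhoFun_le U p hp h).1

theorem rhoFun_fix {i : Fin (N + 1)} (hi : i ∈ U) : rhoFun U p hp i = i := by
  by_cases h : p ≤ i
  · refine le_antisymm (rhoFun_ge U p hp h).2.2 ?_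
    unfold rhoFun
    rw [dif_pos h]
    exact Finset.le_max' (U.filter (· ≤ i)) i (Finset.mem_filter.2 ⟨hi, le_rfl⟩)
  · refine le_antisymm ?_ (rhoFun_le U p hp (not_le.1 h).le).2.1
    unfold rhoFun
    rw [dif_neg h]
    exact Finset.min'_le (U.filter (i ≤ ·)) i (Finset.mem_filter.2 ⟨hi, le_rfl⟩)

theorem rhoFun_mono : Monotone (rhoFun U p hp) := by
  intro i j hij
  by_cases hi : p ≤ i
  · have hj := hi.trans hij
    unfold rhoFun
    rw [dif_pos hi, dif_pos hj]
    refine Finset.max'_le _ _ _ fun u hu => ?_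
    have := Finset.mem_filter.1 hu
    exact Finset.le_max' (U.filter (· ≤ j)) u (Finset.mem_filter.2 ⟨this.1, this.2.trans hij⟩)
  · by_cases hj : p ≤ j
    · exact ((rhoFun_le U p hp (not_le.1 hi).le).2.2).trans (rhoFun_ge U p hp hj).2.1
    · unfold rhoFun
      rw [dif_neg hi, dif_neg hj]
      refine Finset.le_min' _ _ _ fun u hu => ?_
      have := Finset.mem_filter.1 hu
      exact Finset.min'_le (U.filter (i ≤ ·)) u (Finset.mem_filter.2 ⟨this.1, hij.trans this.2⟩)

end Retraction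

/-- the retraction as a morphism of the simplex category -/
def rho {N : SimplexCategory} (U : Finset (Fin (N.len + 1))) (p : Fin (N.len + 1)) (hp : p ∈ U) :
    N ⟶ N :=
  SimplexCategory.Hom.mk ⟨rhoFun U p hp, rhoFun_mono U p hp⟩

theorem rho_apply {N : SimplexCategory} (U : Finset (Fin (N.len + 1))) (p : Fin (N.len + 1))
    (hp : p ∈ U) (i : Fin (N.len + 1)) : (rho U p hp).toOrderHom i = rhoFun U p hp i := rfl

theorem comp_rho {m N : SimplexCategory} (U : Finset (Fin (N.len + 1))) (p : Fin (N.len + 1))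
    (hp : p ∈ U) (α : m ⟶ N) (h : ∀ i, α.toOrderHom i ∈ U) : α ≫ rho U p hp = α := by
  apply SimplexCategory.Hom.ext
  ext i : 2
  exact rhoFun_fix U p hp (h i)

section

variable {A : Type} [SmallCategory A]

/-- an element supported on `U` is fixed by the retraction onto `U` -/
theorem supp_fix {F : SimplexCategory ⥤ SP A} {N : SimplexCategory}
    {U : Finset (Fin (N.len + 1))} {a : Aᵒᵖ} {k : SimplexCategoryᵒᵖ}
    {x : ((F.obj N).obj a).obj k} (h : Supp F U x) (p : Fin (N.len + 1)) (hp : p ∈ U) :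
    ((F.map (rho U p hp)).app a).app k x = x := by
  obtain ⟨m, α, y, hα, rfl⟩ := h
  rw [← cos_comp, comp_rho U p hp α hα]

theorem supp_mono {F : SimplexCategory ⥤ SP A} {N : SimplexCategory}
    {U V : Finset (Fin (N.len + 1))} (hUV : U ⊆ V) {a : Aᵒᵖ} {k : SimplexCategoryᵒᵖ}
    {x : ((F.obj N).obj a).obj k} (h : Supp F U x) : Supp F V x := by
  obtain ⟨m, α, y, hα, rfl⟩ := h
  exact ⟨m, α, y, fun i => hUV (hα i), rfl⟩

/-- maps which move towards `p` -/
def Twd {N : SimplexCategory} (p : Fin (N.len + 1)) (e : N ⟶ N) : Prop :=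
  ∀ i, (p ≤ i → p ≤ e.toOrderHom i ∧ e.toOrderHom i ≤ i) ∧
    (i ≤ p → i ≤ e.toOrderHom i ∧ e.toOrderHom i ≤ p)

/-- the total distance to `p` -/
def mu {N : SimplexCategory} (p : Fin (N.len + 1)) (e : N ⟶ N) : ℕ :=
  ∑ i, (((e.toOrderHom i : ℕ) - (p : ℕ)) + ((p : ℕ) - (e.toOrderHom i : ℕ)))

theorem supp_inter {F : SimplexCategory ⥤ SP A} {N : SimplexCategory}
    {U V : Finset (Fin (N.len + 1))} {p : Fin (N.len + 1)} (hpU : p ∈ U) (hpV : p ∈ V)
    {a : Aᵒᵖ} {k : SimplexCategoryᵒᵖ} {x : ((F.obj N).obj a).obj k} (hU : Supp F U x)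
    (hV : Supp F V x) : Supp F (U ∩ V) x := by
  classical
  have fU := supp_fix hU p hpU
  have fV := supp_fix hV p hpV
  -- a minimal map fixing x
  have hex : ∃ n, ∃ e : N ⟶ N, Twd p e ∧ ((F.map e).app a).app k x = x ∧ mu p e = n :=
    ⟨_, 𝟙 N, fun i => ⟨fun h => ⟨h, le_rfl⟩, fun h => ⟨le_rfl, h⟩⟩, cos_id F x, rfl⟩
  obtain ⟨e, he1, he2, he3⟩ := Nat.find_spec hex
  have hmin : ∀ (W : Finset (Fin (N.len + 1))) (hW : p ∈ W),
      ((F.map (rho W p hW)).app a).app k x = x → ∀ i, e.toOrderHom i ∈ W := by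
    intro W hW fW i
    by_contra hi
    have hT : Twd p (e ≫ rho W p hW) := by
      intro j
      constructor
      · intro hj
        obtain ⟨h1, h2⟩ := (he1 j).1 hj
        obtain ⟨_, h3, h4⟩ := rhoFun_ge W p hW h1
        exact ⟨h3, h4.trans h2⟩
      · intro hj
        obtain ⟨h1, h2⟩ := (he1 j).2 hj
        obtain ⟨_, h3, h4⟩ := rhoFun_le W p hW h2
        exact ⟨h1.trans h3, h4⟩
    have hF : ((F.map (e ≫ rho W p hW)).app a).app k x = x := by
      rw [cos_comp, he2, fW]
    have hlt : mu p (e ≫ rho W p hW) < mu p e := by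
      unfold mu
      have hval : ∀ j, (e ≫ rho W p hW).toOrderHom j = rhoFun W p hW (e.toOrderHom j) :=
        fun _ => rfl
      refine Finset.sum_lt_sum (fun j _ => ?_) ⟨i, Finset.mem_univ i, ?_⟩
      · rw [hval]
        rcases le_total p (e.toOrderHom j) with h | h
        · obtain ⟨_, h3, h4⟩ := rhoFun_ge W p hW h
          rw [Fin.le_def] at h h3 h4
          omega
        · obtain ⟨_, h3, h4⟩ := rhoFun_le W p hW h
          rw [Fin.le_def] at h h3 h4
          omega
      · rw [hval]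
        have hne : rhoFun W p hW (e.toOrderHom i) ≠ e.toOrderHom i := by
          intro h
          exact hi (h ▸ rhoFun_mem W p hW _)
        have hne' : (rhoFun W p hW (e.toOrderHom i) : ℕ) ≠ (e.toOrderHom i : ℕ) :=
          fun h => hne (Fin.ext h)
        rcases le_total p (e.toOrderHom i) with h | h
        · obtain ⟨_, h3, h4⟩ := rhoFun_ge W p hW h
          rw [Fin.le_def] at h h3 h4
          omega
        · obtain ⟨_, h3, h4⟩ := rhoFun_le W p hW h
          rw [Fin.le_def] at h h3 h4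
          omega
    rw [he3] at hlt
    exact Nat.find_min hex hlt ⟨_, hT, hF, rfl⟩
  refine ⟨N, e, x, fun i => Finset.mem_inter.2 ⟨hmin U hpU fU i, hmin V hpV fV i⟩, he2⟩

theorem fface_inf (F : SimplexCategory ⥤ SP A) {N : SimplexCategory}
    (U V : Finset (Fin (N.len + 1))) (h : (U ∩ V).Nonempty) :
    fface F (U ∩ V) = fface F U ⊓ fface F V := by
  obtain ⟨p, hp⟩ := h
  obtain ⟨hpU, hpV⟩ := Finset.mem_inter.1 hp
  refine Sb.ext ?_
  funext a k
  ext x
  constructor
  · intro hx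
    exact ⟨supp_mono Finset.inter_subset_left hx, supp_mono Finset.inter_subset_right hx⟩
  · rintro ⟨h1, h2⟩
    exact supp_inter hpU hpV h1 h2

theorem cface_inf (F : SimplexCategory ⥤ SP A) {N : SimplexCategory}
    (U V : Finset (Fin (N.len + 1))) : cface F (U ∩ V) = cface F U ⊓ cface F V := by
  refine Sb.ext ?_
  funext a k
  ext z
  constructor
  · rintro ⟨hx, hs⟩
    exact ⟨⟨supp_mono Finset.inter_subset_left hx, fun i => (Finset.mem_inter.1 (hs i)).1⟩,
      ⟨supp_mono Finset.inter_subset_right hx, fun i => (Finset.mem_inter.1 (hs i)).2⟩⟩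
  · rintro ⟨⟨hx, hs⟩, ⟨hx', hs'⟩⟩
    exact ⟨supp_inter (hs 0) (hs' 0) hx hx', fun i => Finset.mem_inter.2 ⟨hs i, hs' i⟩⟩

end

end Pool.Agent.Helper81.FL2
end
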