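import Pool.Agent.Helper16.FDG.G03
import Pool.Agent.Helper16.FDG.G05
import Pool.Agent.Helper16.FDG.G07

/- Helper25.FL2.TrHm -/
section
/-!
# FL2-F0: truncations and mapping presheaves
-/

open CategoryTheory MonoidalCategory Opposite

set_option autoImplicit false

namespace Pool.Agent.Helper25.FL2

open FL

section Gen

variable {C : Type} [SmallCategory C]

/-- Two morphisms out of an object of length `0` with the same underlying map agree. -/
lemma hom_ext_zero {c : Fin 0 → C} {Y : Wr C} {φ ψ : (⟨0, c⟩ : Wr C) ⟶ Y}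
    (h : Wr.Hom.f φ = Wr.Hom.f ψ) : φ = ψ :=
  Wr.hom_ext' h fun (i : Fin 0) _ _ _ => i.elim0

lemma map_segMap (F : C ⥤ C) {c c' : C} (f : c ⟶ c') :
    (Wr.map F).map (segMap f) = segMap (F.map f) := by
  refine Wr.hom_ext' rfl fun i j h h' => ?_
  obtain rfl : i = j := jump_id.mp h
  have e1 : Wr.Hom.g (segMap f) i i (jump_id.mpr rfl) = f :=
    Wr.ofComp_g (X := fun _ => c) (Y := fun _ => c') (fun _ => f) i (jump_id.mpr rfl)
  have e2 : Wr.Hom.g (segMap (F.map f)) i i (jump_id.mpr rfl) = F.map f :=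
    Wr.ofComp_g (X := fun _ => F.obj c) (Y := fun _ => F.obj c') (fun _ => F.map f) i
      (jump_id.mpr rfl)
  exact (congrArg F.map e1).trans e2.symm

/-- The unit of `Δ ≀ F` at `[0]` has an inverse. -/
lemma unit_toPt (F : C ⥤ C) (τ : 𝟭 C ⟶ F) :
    (Wr.mapIdNat τ).app Wr.pt ≫ Wr.toPt ((Wr.map F).obj Wr.pt) = 𝟙 _ := Wr.toPt_unique _ _

lemma toPt_unit (F : C ⥤ C) (τ : 𝟭 C ⟶ F) :
    Wr.toPt ((Wr.map F).obj Wr.pt) ≫ (Wr.mapIdNat τ).app Wr.pt = 𝟙 _ := by
  refine hom_ext_zero (c := fun i => F.obj ((Wr.pt : Wr C).obj i)) ?_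
  ext x
  exact congrArg Fin.val (Subsingleton.elim (α := Fin 1) _ _)

lemma unit_vtx (F : C ⥤ C) (τ : 𝟭 C ⟶ F) (c : C) (v : Fin 2) :
    (Wr.mapIdNat τ).app Wr.pt ≫ (Wr.map F).map (vtx (seg c) v) = vtx (seg (F.obj c)) v :=
  hom_ext_zero (c := Fin.elim0) rfl

end Gen

section

variable {C : Type} [SmallCategory C] (F : C ⥤ C) (τ : 𝟭 C ⟶ F) (X : SP (Wr C))

lemma unit_inj (k : SimplexCategoryᵒᵖ) :
    Function.Injective fun a : (((Wr.map F).op ⋙ X).obj (op Wr.pt)).obj k =>
      ((X.map ((Wr.mapIdNat τ).app Wr.pt).op).app k a : (X.obj (op Wr.pt)).obj k) := by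
  intro a b h
  have key : ∀ z : (X.obj (op ((Wr.map F).obj Wr.pt))).obj k,
      (X.map (Wr.toPt ((Wr.map F).obj Wr.pt)).op).app k
        ((X.map ((Wr.mapIdNat τ).app Wr.pt).op).app k z) = z := by
    intro z
    rw [← sp_comp, ← op_comp, toPt_unit]
    exact sp_id X z
  exact (key a).symm.trans ((congrArg _ h).trans (key b))

lemma unit_surj (k : SimplexCategoryᵒᵖ) :
    Function.Surjective fun a : (((Wr.map F).op ⋙ X).obj (op Wr.pt)).obj k =>
      ((X.map ((Wr.mapIdNat τ).app Wr.pt).op).app k a : (X.obj (op Wr.pt)).obj k) := by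
  intro z
  refine ⟨(X.map (Wr.toPt ((Wr.map F).obj Wr.pt)).op).app k z, ?_⟩
  show (X.map ((Wr.mapIdNat τ).app Wr.pt).op).app k
    ((X.map (Wr.toPt ((Wr.map F).obj Wr.pt)).op).app k z) = z
  rw [← sp_comp, ← op_comp, unit_toPt]
  exact sp_id X z

/-- The image of a vertex under the unit. -/
noncomputable abbrev vu (a : Vt ((Wr.map F).op ⋙ X)) : Vt X :=
  (X.map ((Wr.mapIdNat τ).app Wr.pt).op).app _ a

lemma cond_iff (a : Vt ((Wr.map F).op ⋙ X)) (c : C) (k : SimplexCategoryᵒᵖ)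
    (z : (X.obj (op (seg (F.obj c)))).obj k) (v : Fin 2) :
    (X.map ((Wr.map F).map (vtx (seg c) v)).op).app k z =
        cst (((Wr.map F).op ⋙ X).obj (op Wr.pt)) a k ↔
      (X.map (vtx (seg (F.obj c)) v).op).app k z = cst (X.obj (op Wr.pt)) (vu F τ X a) k := by
  have e1 : (X.map (vtx (seg (F.obj c)) v).op).app k z =
      (X.map ((Wr.mapIdNat τ).app Wr.pt).op).app k
        ((X.map ((Wr.map F).map (vtx (seg c) v)).op).app k z) := by
    refine Eq.trans ?_ (sp_comp X ((Wr.map F).map (vtx (seg c) v)).op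
      ((Wr.mapIdNat τ).app Wr.pt).op z)
    exact congrArg (fun t => (X.map (Quiver.Hom.op t)).app k z) (unit_vtx F τ c v).symm
  have e2 : cst (X.obj (op Wr.pt)) (vu F τ X a) k =
      (X.map ((Wr.mapIdNat τ).app Wr.pt).op).app k
        (cst (((Wr.map F).op ⋙ X).obj (op Wr.pt)) a k) :=
    (app_cst (X.map ((Wr.mapIdNat τ).app Wr.pt).op) a k).symm
  rw [e1, e2]
  exact (unit_inj F τ X k).eq_iff.symm

lemma cond_iff' (a b : Vt ((Wr.map F).op ⋙ X)) (c : C) (k : SimplexCategoryᵒᵖ)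
    (z : (X.obj (op (seg (F.obj c)))).obj k) :
    (ends ((Wr.map F).op ⋙ X) c).app k z = cst _ (a, b) k ↔
      (ends X (F.obj c)).app k z = cst _ (vu F τ X a, vu F τ X b) k := by
  constructor
  · intro h
    refine Prod.ext ?_ ?_
    · exact (cond_iff F τ X a c k z 0).1 (congrArg Prod.fst h)
    · exact (cond_iff F τ X b c k z 1).1 (congrArg Prod.snd h)
  · intro h
    refine Prod.ext ?_ ?_
    · exact (cond_iff F τ X a c k z 0).2 (congrArg Prod.fst h)
    · exact (cond_iff F τ X b c k z 1).2 (congrArg Prod.snd h)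

/-- The comparison isomorphism of the mapping presheaves. -/
noncomputable def hmIso (a b : Vt ((Wr.map F).op ⋙ X)) :
    Hm ((Wr.map F).op ⋙ X) a b ≅ F.op ⋙ Hm X (vu F τ X a) (vu F τ X b) where
  hom :=
    { app := fun c =>
        { app := fun k => ↾ fun z => ⟨z.1, (cond_iff' F τ X a b c.unop k z.1).1 z.2⟩
          naturality := fun _ _ _ => rfl }
      naturality := fun c c' f => by
        refine NatTrans.ext (funext fun k => ?_)
        refine ConcreteCategory.hom_ext _ _ fun z => ?_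
        refine Subtype.ext ?_
        exact congrArg (fun t => (X.map (Quiver.Hom.op t)).app k z.1) (map_segMap F f.unop) }
  inv :=
    { app := fun c =>
        { app := fun k => ↾ fun z => ⟨z.1, (cond_iff' F τ X a b c.unop k z.1).2 z.2⟩
          naturality := fun _ _ _ => rfl }
      naturality := fun c c' f => by
        refine NatTrans.ext (funext fun k => ?_)
        refine ConcreteCategory.hom_ext _ _ fun z => ?_
        refine Subtype.ext ?_
        exact congrArg (fun t => (X.map (Quiver.Hom.op t)).app k z.1) (map_segMap F f.unop).symm }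
  hom_inv_id := rfl
  inv_hom_id := rfl

end

variable {n : ℕ}

theorem tr_vt_bij (X : SP (Th (n + 1))) (i : ℕ) :
    Function.Bijective fun a : Vt (C := Th n) ((tr (n + 1) (i + 1)).op ⋙ X) =>
      ((X.map ((trUnit (n + 1) (i + 1)).app (ptT (n + 1))).op).app _ a : Vt (C := Th n) X) :=
  ⟨unit_inj (C := Th n) (tr n i) (trUnit n i) X _, unit_surj (C := Th n) (tr n i) (trUnit n i) X _⟩

theorem tr_Hm (X : SP (Th (n + 1))) (i : ℕ) (a b : Vt (C := Th n) ((tr (n + 1) (i + 1)).op ⋙ X)) :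
    ∃ e : Hm (C := Th n) ((tr (n + 1) (i + 1)).op ⋙ X) a b ≅
        (tr n i).op ⋙ Hm (C := Th n) X
          ((X.map ((trUnit (n + 1) (i + 1)).app (ptT (n + 1))).op).app _ a)
          ((X.map ((trUnit (n + 1) (i + 1)).app (ptT (n + 1))).op).app _ b),
      ∀ (c : (Th n)ᵒᵖ) (k : SimplexCategoryᵒᵖ)
        (z : ((Hm (C := Th n) ((tr (n + 1) (i + 1)).op ⋙ X) a b).obj c).obj k),
        Hm.val (C := Th n) (X := X) (c := op ((tr n i).obj c.unop)) ((e.hom.app c).app k z) =
          Hm.val (C := Th n) z :=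
  ⟨hmIso (C := Th n) (tr n i) (trUnit n i) X a b, fun _ _ _ => rfl⟩

/-- The levels of `filt X`. -/
theorem level_filt (X : SP (Th n)) (i : Fin (n + 1)) :
    ∃ e : level (filt X) i ≅ (tr n i).op ⋙ X, ∀ (θ : (Th n)ᵒᵖ) (k : SimplexCategoryᵒᵖ)
      (x : (X.obj (op ((tr n i).obj θ.unop))).obj k), (e.hom.app θ).app k x = x := by
  refine ⟨NatIso.ofComponents (fun θ => Iso.refl _) ?_, fun _ _ _ => rfl⟩
  intro θ θ' f
  refine (Category.comp_id _).trans (Eq.trans ?_ (Category.id_comp _).symm)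
  refine congrArg X.map ?_
  refine Quiver.Hom.unop_inj ?_
  exact (congrArg (fun t : tr n i.1 ⟶ tr n i.1 => (tr n i).map f.unop ≫ t.app θ.unop)
    (trMap_refl n i.1 (le_refl _))).trans (Category.comp_id _)

end Pool.Agent.Helper25.FL2
end

/- Helper43.FL2.Good0 -/
section
/-!
# FL2-C1a: the frame `T0` is good
-/

open CategoryTheory MonoidalCategory Opposite

set_option autoImplicit false

namespace Pool.Agent.Helper43.FL2

open FL

noncomputable section

variable {C : Type} [SmallCategory C]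

theorem T0_map_app {X Y : Wr C} (ι : X ⟶ Y) (m : SimplexCategory) (η : (Wr C)ᵒᵖ)
    (k : SimplexCategoryᵒᵖ) (φ : η.unop ⟶ X) (w : Fin (η.unop.len + 1) → Fin (m.len + 1)) :
    ((((T0 C).map ι).app m).app η).app k
      ((φ, w) : (((T0 C).obj X).obj m).obj η |>.obj k) = ((φ ≫ ι, w) :
        (((T0 C).obj Y).obj m).obj η |>.obj k) := rfl

theorem mem_range_T0 {X Y : Wr C} (ι : X ⟶ Y) (m : SimplexCategory) (η : (Wr C)ᵒᵖ)
    (k : SimplexCategoryᵒᵖ) (z : ((((T0 C).obj Y).obj m).obj η).obj k) :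
    z ∈ (Sb.range (((T0 C).map ι).app m)).mem η k ↔ ∃ φ : η.unop ⟶ X, φ ≫ ι = z.1 := by
  obtain ⟨ψ, w⟩ := z
  constructor
  · rintro ⟨⟨φ, w'⟩, h⟩
    exact ⟨φ, congrArg Prod.fst h⟩
  · rintro ⟨φ, h⟩
    exact ⟨(φ, w), Prod.ext h rfl⟩

theorem mono_T0 {X Y : Wr C} {ι : X ⟶ Y} {a : ℕ} (h : Inert ι a) (m : SimplexCategory)
    (η : (Wr C)ᵒᵖ) : Mono ((((T0 C).map ι).app m).app η) := by
  rw [NatTrans.mono_iff_mono_app]
  intro k
  rw [mono_iff_injective]
  rintro ⟨φ, w⟩ ⟨ψ, w'⟩ e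
  have e2 : ((φ ≫ ι, w) : (η.unop ⟶ Y) × (Fin (η.unop.len + 1) → Fin (m.len + 1))) =
    (ψ ≫ ι, w') := e
  exact Prod.ext (h.comp_injective (congrArg Prod.fst e2)) (Prod.ext_iff.1 e2).2

theorem mem_range_inert {X Y : Wr C} {ι : X ⟶ Y} {a : ℕ} (h : Inert ι a) (m : SimplexCategory)
    (η : (Wr C)ᵒᵖ) (k : SimplexCategoryᵒᵖ) (z : ((((T0 C).obj Y).obj m).obj η).obj k) :
    z ∈ (Sb.range (((T0 C).map ι).app m)).mem η k ↔
      ∀ t, a ≤ (Wr.Hom.f (z.1 : η.unop ⟶ Y) t).val ∧
        (Wr.Hom.f (z.1 : η.unop ⟶ Y) t).val ≤ a + X.len := by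
  exact (mem_range_T0 ι m η k z).trans (h.factor_iff z.1)

theorem inter_T0 {r : ℕ} (c : Fin (r + 1) → C) (m : SimplexCategory) :
    Sb.range (((T0 C).map (initMap c)).app m) ⊓ Sb.range (((T0 C).map (lastMap' c)).app m) ≤
      Sb.range (((T0 C).map (vtx ⟨r + 1, c⟩ (Fin.last r).castSucc)).app m) := by
  rintro η k z ⟨h1, h2⟩
  have h1' := (mem_range_inert (inert_init c) m η k z).1 h1
  have h2' := (mem_range_inert (inert_last c) m η k z).1 h2
  refine (mem_range_inert (inert_vtx (⟨r + 1, c⟩ : Wr C) (Fin.last r).castSucc) m η k z).2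
    fun t => ?_
  have e1 := h1' t
  have e2 := h2' t
  change 0 ≤ _ ∧ _ ≤ 0 + r at e1
  change r ≤ _ ∧ _ ≤ r + 1 at e2
  change r ≤ _ ∧ _ ≤ r + 0
  omega

theorem disj_T0 (c : C) (m : SimplexCategory) :
    Sb.range (((T0 C).map (vtx (seg c) 0)).app m) ⊓
      Sb.range (((T0 C).map (vtx (seg c) 1)).app m) = ⊥ := by
  refine le_antisymm ?_ bot_le
  rintro η k z ⟨h1, h2⟩
  have h1' := (mem_range_inert (inert_vtx (seg c) 0) m η k z).1 h1 0
  have h2' := (mem_range_inert (inert_vtx (seg c) 1) m η k z).1 h2 0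
  change 0 ≤ _ ∧ _ ≤ 0 + 0 at h1'
  change 1 ≤ _ ∧ _ ≤ 1 + 0 at h2'
  omega

theorem binT_T0 {r : ℕ} (c : Fin (r + 1) → C) (m : SimplexCategory) :
    binT (T0 C) c m = E0bin c m := by
  refine Sb.ext (funext fun η => funext fun k => Set.ext fun z => ?_)
  change z ∈ (Sb.range _).mem η k ∨ z ∈ (Sb.range _).mem η k ↔ _
  rw [mem_range_inert (inert_init c), mem_range_inert (inert_last c)]
  change _ ↔ (∀ t, (Wr.Hom.f (z.1 : η.unop ⟶ (⟨r + 1, c⟩ : Wr C)) t).1 ≤ r) ∨
    ∀ t, r ≤ (Wr.Hom.f (z.1 : η.unop ⟶ (⟨r + 1, c⟩ : Wr C)) t).1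
  refine or_congr (forall_congr' fun t => ?_) (forall_congr' fun t => ?_)
  · change 0 ≤ _ ∧ _ ≤ 0 + r ↔ _
    omega
  · have := (Wr.Hom.f (z.1 : η.unop ⟶ (⟨r + 1, c⟩ : Wr C)) t).isLt
    change _ < r + 1 + 1 at this
    change r ≤ _ ∧ _ ≤ r + 1 ↔ _
    omega

end

end Pool.Agent.Helper43.FL2
end

/- Helper43.FL2.Edge -/
section
/-!
# FL2-C1a: lifting edges
-/

open CategoryTheory MonoidalCategory Opposite Simplicial

set_option autoImplicit false

namespace Pool.Agent.Helper43.FL2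

open FL

noncomputable section

/-- The facts of section G1 which are used here. -/
structure G1F {A : Type} [SmallCategory A] (X : SP A) : Prop where
  isIso : ∀ {P Q : SP A} (f : P ⟶ Q) [IsIso f], Loc X f
  comp : ∀ {P Q R : SP A} {f : P ⟶ Q} {g : Q ⟶ R}, Loc X f → Loc X g → Loc X (f ≫ g)
  comp_right : ∀ {P Q R : SP A} {f : P ⟶ Q} {g : Q ⟶ R}, Loc X g → Loc X (f ≫ g) → Loc X f
  sdr : ∀ {P Q : SP A} {f : P ⟶ Q}, SDR f → Loc X f
  extend : ∀ {P Q : SP A} (i : P ⟶ Q), (∀ a, Mono (i.app a)) → Loc X i → ∀ g : P ⟶ X,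
    ∃ g' : Q ⟶ X, i ≫ g' = g
  restr_sup : ∀ {P Q : SP A} (f : P ⟶ Q) (S T : Sb P) (S' T' : Sb Q)
    (hS : ∀ (a : Aᵒᵖ) (k : SimplexCategoryᵒᵖ) (x : (P.obj a).obj k),
      x ∈ S.mem a k → (f.app a).app k x ∈ S'.mem a k)
    (hT : ∀ (a : Aᵒᵖ) (k : SimplexCategoryᵒᵖ) (x : (P.obj a).obj k),
      x ∈ T.mem a k → (f.app a).app k x ∈ T'.mem a k),
    Loc X (Sb.restr f S S' hS) → Loc X (Sb.restr f T T' hT) →
    Loc X (Sb.restr f (S ⊓ T) (S' ⊓ T') fun a k x hx => ⟨hS a k x hx.1, hT a k x hx.2⟩) →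
    Loc X (Sb.restr f (S ⊔ T) (S' ⊔ T') fun a k x hx =>
      hx.elim (fun h => Or.inl (hS a k x h)) fun h => Or.inr (hT a k x h))

section Tube

variable {A : Type} [SmallCategory A] {P X : SP A}

/-- `S ⊗ Δ[1]`. -/
def tube (S : Sb P) : Sb (tn P Δ[1]) where
  mem a k := { z | z.1 ∈ S.mem a k }
  mapA f k z h := S.mapA f k z.1 h
  mapk a _ _ α z h := S.mapk a α z.1 h

/-- `S ⊗ {v}`. -/
def capS (S : Sb P) (v : Fin 2) : Sb (tn P Δ[1]) where
  mem a k := { z | z.1 ∈ S.mem a k ∧ z.2 = cv v k }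
  mapA f k z h := ⟨S.mapA f k z.1 h.1, h.2⟩
  mapk a k l α z h := ⟨S.mapk a α z.1 h.1, by
    change (Δ[1] : SSet.{0}).map α z.2 = _
    rw [h.2]
    rfl⟩

theorem loc_tube (G : G1F X) (S T : Sb P) (v : Fin 2) (h : LocT X (S ⊔ T) ⊤) :
    LocT X (tube S ⊔ capS T v) ⊤ := by
  obtain ⟨h0, h1⟩ := h
  refine ⟨le_top, ?_⟩
  have hr1 : ∀ (a : Aᵒᵖ) (k : SimplexCategoryᵒᵖ) (z : ((tn P Δ[1]).obj a).obj k),
      z ∈ (tube S).mem a k → ((prj P Δ[1]).app a).app k z ∈ S.mem a k := fun a k z hz => hz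
  have hr2 : ∀ (a : Aᵒᵖ) (k : SimplexCategoryᵒᵖ) (z : ((tn P Δ[1]).obj a).obj k),
      z ∈ (capS T v).mem a k → ((prj P Δ[1]).app a).app k z ∈ T.mem a k := fun a k z hz => hz.1
  have hr3 : ∀ (a : Aᵒᵖ) (k : SimplexCategoryᵒᵖ) (z : ((tn P Δ[1]).obj a).obj k),
      z ∈ (⊤ : Sb (tn P Δ[1])).mem a k → ((prj P Δ[1]).app a).app k z ∈ (⊤ : Sb P).mem a k :=
    fun a k z hz => trivial
  have l1 : Loc X (Sb.restr (prj P Δ[1]) (tube S) S hr1) :=
    G.sdr (prj_sdr _ _ (fun _ _ _ _ => Iff.rfl) _)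
  have l3 : Loc X (Sb.restr (prj P Δ[1]) ⊤ ⊤ hr3) :=
    G.sdr (prj_sdr _ _ (fun _ _ _ _ => Iff.rfl) _)
  have l2 : Loc X (Sb.restr (prj P Δ[1]) (capS T v) T hr2) := by
    have := prj_iso (capS T v) T v (fun a k x hx => ⟨hx, rfl⟩) (fun a k z hz => hz.2) hr2
    exact G.isIso _
  have l12 : Loc X (Sb.restr (prj P Δ[1]) (tube S ⊓ capS T v) (S ⊓ T)
      fun a k x hx => ⟨hr1 a k x hx.1, hr2 a k x hx.2⟩) := by
    have := prj_iso (tube S ⊓ capS T v) (S ⊓ T) v (fun a k x hx => ⟨hx.1, hx.2, rfl⟩)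
      (fun a k z hz => hz.2.2) (fun a k x hx => ⟨hr1 a k x hx.1, hr2 a k x hx.2⟩)
    exact G.isIso _
  have l4 := G.restr_sup (prj P Δ[1]) (tube S) (capS T v) S T
    hr1 hr2 l1 l2 l12
  have e : Sb.ofLE (le_top (a := tube S ⊔ capS T v)) ≫ Sb.restr (prj P Δ[1]) ⊤ ⊤ hr3 =
    Sb.restr (prj P Δ[1]) (tube S ⊔ capS T v) (S ⊔ T) (fun a k x hx =>
      hx.elim (fun h => Or.inl (hr1 a k x h)) fun h => Or.inr (hr2 a k x h)) ≫
      Sb.ofLE h0 := rfl
  refine G.comp_right l3 ?_
  rw [e]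
  exact G.comp l4 h1

/-- The extension property. -/
theorem extend_tube (G : G1F X) (S T : Sb P) (v : Fin 2) (h : LocT X (S ⊔ T) ⊤)
    (f : (tube S).toSP ⟶ X) (g : (capS T v).toSP ⟶ X)
    (hfg : ∀ (a : Aᵒᵖ) (k : SimplexCategoryᵒᵖ) (x : ((tn P Δ[1]).obj a).obj k)
      (hx : x ∈ (tube S).mem a k) (hx' : x ∈ (capS T v).mem a k),
      (f.app a).app k ⟨x, hx⟩ = (g.app a).app k ⟨x, hx'⟩) :
    ∃ F : tn P Δ[1] ⟶ X,
      (∀ (a : Aᵒᵖ) (k : SimplexCategoryᵒᵖ) (x : ((tn P Δ[1]).obj a).obj k)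
        (hx : x ∈ (tube S).mem a k), (F.app a).app k x = (f.app a).app k ⟨x, hx⟩) ∧
      ∀ (a : Aᵒᵖ) (k : SimplexCategoryᵒᵖ) (x : ((tn P Δ[1]).obj a).obj k)
        (hx : x ∈ (capS T v).mem a k), (F.app a).app k x = (g.app a).app k ⟨x, hx⟩ := by
  obtain ⟨G0, hG1, hG2⟩ := glue (tube S) (capS T v) f g hfg
  obtain ⟨h0, h1⟩ := loc_tube G S T v h
  obtain ⟨G', hG'⟩ := G.extend (Sb.ofLE h0) (fun a => by
    rw [NatTrans.mono_iff_mono_app]
    intro k
    rw [mono_iff_injective]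
    intro x y hxy
    exact Subtype.ext (congrArg (fun z : { x : ((tn P Δ[1]).obj a).obj k //
      x ∈ (⊤ : Sb (tn P Δ[1])).mem a k } => z.1) hxy)) h1 G0
  refine ⟨{ app := fun a =>
              { app := fun k => ↾ fun x => (G'.app a).app k ⟨x, trivial⟩
                naturality := fun k _ α => by
                  refine ConcreteCategory.hom_ext _ _ fun x => ?_
                  exact hom_natk G' α (⟨x, trivial⟩ : { x : ((tn P Δ[1]).obj a).obj k //
                    x ∈ (⊤ : Sb (tn P Δ[1])).mem a k }) }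
            naturality := fun a _ u => by
              refine NatTrans.ext (funext fun k => ?_)
              refine ConcreteCategory.hom_ext _ _ fun x => ?_
              exact hom_nat G' u (⟨x, trivial⟩ : { x : ((tn P Δ[1]).obj a).obj k //
                x ∈ (⊤ : Sb (tn P Δ[1])).mem a k }) }, ?_, ?_⟩
  · intro a k x hx
    refine Eq.trans ?_ (hG1 a k x hx)
    exact ConcreteCategory.congr_hom (NatTrans.congr_app (NatTrans.congr_app hG' a) k)
      (⟨x, Or.inl hx⟩ : { x // x ∈ (tube S ⊔ capS T v).mem a k })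
  · intro a k x hx
    refine Eq.trans ?_ (hG2 a k x hx)
    exact ConcreteCategory.congr_hom (NatTrans.congr_app (NatTrans.congr_app hG' a) k)
      (⟨x, Or.inr hx⟩ : { x // x ∈ (tube S ⊔ capS T v).mem a k })

/-- The simplex of the mapping space given by a map from the tensor. -/
@[simps]
def ofTn {Y : SP A} {m : SimplexCategory} (F : tn Y (SSet.stdSimplex.obj m) ⟶ X) :
    MpS Y X m where
  app a k s x := (F.app a).app k (x, SSet.stdSimplex.objEquiv.symm s)
  nat_left f _ s x := hom_nat F f (x, SSet.stdSimplex.objEquiv.symm s)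
  nat_right _ _ _ g s x := hom_natk F g (x, SSet.stdSimplex.objEquiv.symm s)

end Tube

section Main

variable {C : Type} [SmallCategory C] {X : SP (Wr C)}

/-- The words which are constant. -/
def cwS (P : SP (Wr C)) (v : Fin 2) : Sb (E0o P ⦋1⦌) where
  mem _ _ := { z | ∀ i, z.2 i = v }
  mapA _ _ _ h _ := h _
  mapk _ _ _ _ _ h := h

/-- The simplices with first component in `S`. -/
def fstS {P : SP (Wr C)} (S : Sb P) (m : SimplexCategory) : Sb (E0o P m) where
  mem θ k := { z | z.1 ∈ S.mem θ k }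
  mapA φ k z h := S.mapA φ k z.1 h
  mapk θ _ _ α z h := S.mapk θ α z.1 h

theorem E0rel_eq {P : SP (Wr C)} (S : Sb P) (v : Fin 2) :
    E0rel S ⦋1⦌ v = fstS S ⦋1⦌ ⊔ cwS P v := rfl

theorem vertex_eq {c : C} {η : Wr C} (φ : η ⟶ seg c) (j : Fin 2)
    (h : ∀ t, Wr.Hom.f φ t = j) : Wr.toPt η ≫ vtx (seg c) j = φ := by
  obtain ⟨ψ, hψ⟩ := (inert_vtx (seg c) j).factor φ (fun t => by
    rw [h t]
    change j.val ≤ j.val ∧ j.val ≤ j.val + 0
    omega)
  rw [← hψ, Wr.toPt_unique ψ (Wr.toPt η)]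

/-- The map on the part lying over the vertices. -/
def fV (c : C) (ee : Fin 2 → MpS (E0o (rep (Wr.pt : Wr C)) ⦋1⦌) X ⦋1⦌) :
    (tube (fstS (vert (seg c)) ⦋1⦌)).toSP ⟶ X where
  app η :=
    { app := fun k => ↾ fun z =>
        (ee (Wr.Hom.f (z.1.1.1 : η.unop ⟶ seg c) 0)).app η k
          (SSet.stdSimplex.objEquiv z.1.2) (Wr.toPt η.unop, z.1.1.2)
      naturality := fun k l α => by
        refine ConcreteCategory.hom_ext _ _ fun z => ?_
        exact (ee (Wr.Hom.f (z.1.1.1 : η.unop ⟶ seg c) 0)).nat_right η α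
          (SSet.stdSimplex.objEquiv z.1.2) (Wr.toPt η.unop, z.1.1.2) }
  naturality η η' u := by
    refine NatTrans.ext (funext fun k => ?_)
    refine ConcreteCategory.hom_ext _ _ fun z => ?_
    obtain ⟨j, hj⟩ := z.2
    have e1 : Wr.Hom.f (z.1.1.1 : η.unop ⟶ seg c) 0 = j := hj 0
    have e2 : Wr.Hom.f (u.unop ≫ (z.1.1.1 : η.unop ⟶ seg c)) 0 = j := hj _
    refine Eq.trans ?_ ((ee (Wr.Hom.f (z.1.1.1 : η.unop ⟶ seg c) 0)).nat_left u k
      (SSet.stdSimplex.objEquiv z.1.2) (Wr.toPt η.unop, z.1.1.2))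
    change (ee (Wr.Hom.f (u.unop ≫ (z.1.1.1 : η.unop ⟶ seg c)) 0)).app η' k
      (SSet.stdSimplex.objEquiv z.1.2) (Wr.toPt η'.unop,
        fun i => z.1.1.2 (Wr.Hom.f u.unop i)) =
      (ee (Wr.Hom.f (z.1.1.1 : η.unop ⟶ seg c) 0)).app η' k
      (SSet.stdSimplex.objEquiv z.1.2) ((u.unop ≫ Wr.toPt η.unop :
        η'.unop ⟶ (Wr.pt : Wr C)), fun i => z.1.1.2 (Wr.Hom.f u.unop i))
    rw [e1, e2, Wr.toPt_unique (u.unop ≫ Wr.toPt η.unop) (Wr.toPt η'.unop)]

/-- The map on the part lying over the vertex `v`. -/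
def gV (c : C) (v : Fin 2) (g : MpS (E0o (rep (seg c)) ⦋0⦌) X ⦋0⦌) :
    (capS (cwS (rep (seg c)) v) v).toSP ⟶ X where
  app η :=
    { app := fun k => ↾ fun z =>
        g.app η k (SimplexCategory.const k.unop ⦋0⦌ 0)
          ((z.1.1.1 : η.unop ⟶ seg c), fun _ => (0 : Fin 1))
      naturality := fun k l α => by
        refine ConcreteCategory.hom_ext _ _ fun z => ?_
        exact g.nat_right η α (SimplexCategory.const k.unop ⦋0⦌ 0)
          ((z.1.1.1 : η.unop ⟶ seg c), fun _ => (0 : Fin 1)) }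
  naturality η η' u := by
    refine NatTrans.ext (funext fun k => ?_)
    refine ConcreteCategory.hom_ext _ _ fun z => ?_
    exact g.nat_left u k (SimplexCategory.const k.unop ⦋0⦌ 0)
      ((z.1.1.1 : η.unop ⟶ seg c), fun _ => (0 : Fin 1))

/-- Edges lift along `ends (Kf (T0 C) X) c`. -/
theorem edge_T0 (G : G1F X) (c : C) (v : Fin 2)
    (hloc : LocT X (E0rel (vert (seg c)) ⦋1⦌ v) ⊤) :
    HasLiftingProperty (SSet.horn.{0} 1 v).ι (ends (Kf (T0 C) X) c) := by
  refine hlp_one _ v fun (g : MpS (E0o (rep (seg c)) ⦋0⦌) X ⦋0⦌)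
    (e : MpS (E0o (rep (Wr.pt : Wr C)) ⦋1⦌) X ⦋1⦌ × MpS (E0o (rep (Wr.pt : Wr C)) ⦋1⦌) X ⦋1⦌)
    hge => ?_
  let ee : Fin 2 → MpS (E0o (rep (Wr.pt : Wr C)) ⦋1⦌) X ⦋1⦌ := fun j =>
    if j = 0 then e.1 else e.2
  have hee0 : ee 0 = e.1 := rfl
  have hee1 : ee 1 = e.2 := rfl
  have H : ∀ (j : Fin 2) (η : (Wr C)ᵒᵖ) (k : SimplexCategoryᵒᵖ) (s : k.unop ⟶ ⦋0⦌)
      (φ : η.unop ⟶ (Wr.pt : Wr C)) (w : Fin (η.unop.len + 1) → Fin 1),
      g.app η k s ((φ ≫ vtx (seg c) j : η.unop ⟶ seg c), w) =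
        (ee j).app η k (s ≫ SimplexCategory.const ⦋0⦌ ⦋1⦌ v) (φ, fun _ => v) := by
    intro j η k s φ w
    fin_cases j
    · exact congrArg (fun z : MpS (E0o (rep (Wr.pt : Wr C)) ⦋0⦌) X ⦋0⦌ =>
        z.app η k s (φ, w)) (congrArg Prod.fst hge)
    · exact congrArg (fun z : MpS (E0o (rep (Wr.pt : Wr C)) ⦋0⦌) X ⦋0⦌ =>
        z.app η k s (φ, w)) (congrArg Prod.snd hge)
  obtain ⟨F, hF1, hF2⟩ := extend_tube G (fstS (vert (seg c)) ⦋1⦌) (cwS (rep (seg c)) v) v
    hloc (fV c ee) (gV c v g) (by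
      intro η k x hx hx'
      obtain ⟨j, hj⟩ := hx
      have hj0 : Wr.Hom.f (x.1.1 : η.unop ⟶ seg c) 0 = j := hj 0
      have h1 := H j η k (SimplexCategory.const k.unop ⦋0⦌ 0) (Wr.toPt η.unop)
        (fun _ => (0 : Fin 1))
      have h2 : (Wr.toPt η.unop ≫ vtx (seg c) j : η.unop ⟶ seg c) = x.1.1 :=
        vertex_eq _ j hj
      rw [h2] at h1
      refine Eq.trans ?_ h1.symm
      change (ee (Wr.Hom.f (x.1.1 : η.unop ⟶ seg c) 0)).app η k
          (SSet.stdSimplex.objEquiv x.2) (Wr.toPt η.unop, x.1.2) = _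
      have h3 : x.1.2 = fun _ => v := funext hx'.1
      have h4 : x.2 = cv v k := hx'.2
      rw [hj0, h3, h4]
      rfl)
  refine ⟨(ofTn F : MpS (E0o (rep (seg c)) ⦋1⦌) X ⦋1⦌), ?_, ?_⟩
  · have key : ∀ j : Fin 2, (MpS.ofHom ⦋1⦌ (((T0 C).map (vtx (seg c) j)).app ⦋1⦌)).comp
        (ofTn F : MpS (E0o (rep (seg c)) ⦋1⦌) X ⦋1⦌) = ee j := by
      intro j
      refine MpS.ext (funext fun η => funext fun k => funext fun s => funext fun x => ?_)
      obtain ⟨φ, w⟩ := x
      refine (hF1 η k (((φ ≫ vtx (seg c) j : η.unop ⟶ seg c), w),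
        SSet.stdSimplex.objEquiv.symm s) ⟨j, fun t => rfl⟩).trans ?_
      change (ee j).app η k s (Wr.toPt η.unop, w) = (ee j).app η k s (φ, w)
      rw [Wr.toPt_unique φ (Wr.toPt η.unop)]
    exact Prod.ext (key 0) (key 1)
  · refine MpS.ext (funext fun η => funext fun k => funext fun s => funext fun x => ?_)
    obtain ⟨φ, w⟩ := x
    have hs : s ≫ SimplexCategory.const ⦋0⦌ ⦋1⦌ v = SimplexCategory.const k.unop ⦋1⦌ v := rfl
    refine (hF2 η k (((φ : η.unop ⟶ seg c), fun _ => v),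
        SSet.stdSimplex.objEquiv.symm (s ≫ SimplexCategory.const ⦋0⦌ ⦋1⦌ v))
        ⟨fun _ => rfl, rfl⟩).trans ?_
    change g.app η k (SimplexCategory.const k.unop ⦋0⦌ 0) (φ, fun _ => (0 : Fin 1)) =
      g.app η k s (φ, w)
    have h1 : s = SimplexCategory.const k.unop ⦋0⦌ 0 := by
      ext i : 3
      exact Subsingleton.elim (α := Fin 1) _ _
    have h2 : w = fun _ => (0 : Fin 1) := funext fun i => Subsingleton.elim (α := Fin 1) _ _
    rw [h1, h2]

/-- The frame `T0` is good, with the locality statements of H5 as hypotheses. -/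
theorem goodFr_T0_of (G : G1F X)
    (ext_T0 : ∀ θ : Wr C, Ext X ((T0 C).obj θ))
    (E0rel_seg : ∀ (c : C) (m : SimplexCategory) (v : Fin (m.len + 1)),
      LocT X (E0rel (vert (seg c)) m v) ⊤)
    (E0bin_loc : ∀ {r : ℕ} (c : Fin (r + 1) → C) (m : SimplexCategory),
      LocT X (E0bin c m) ⊤) : GoodFr X (T0 C) where
  ext := ext_T0
  mono_init c m a := mono_T0 (inert_init c) m a
  mono_last c m a := mono_T0 (inert_last c) m a
  inter c m := inter_T0 c m
  mono_vtx θ i m a := mono_T0 (inert_vtx θ i) m a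
  disj c m := disj_T0 c m
  bin c m := by
    rw [binT_T0]
    exact E0bin_loc c m
  edge c i := edge_T0 G c i (E0rel_seg c ⦋1⦌ i)

end Main

/-- Constant cosimplicial objects satisfy the gluing condition. -/
theorem ext_cc_of {A : Type} [SmallCategory A] (X P : SP A)
    (locT_refl : ∀ {Q : SP A} (S : Sb Q), LocT X S S) : Ext X (cc P) := by
  intro N S S' v hv
  have key : ∀ U : Finset (Fin (N.len + 1)), U.Nonempty → fface (cc P) U = ⊤ := by
    rintro U ⟨u, hu⟩
    refine le_antisymm le_top ?_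
    intro a k x _
    exact ⟨⦋0⦌, SimplexCategory.const ⦋0⦌ N u, x, fun _ => hu, rfl⟩
  have hvS : v ∈ S ∧ v ∈ S' := Finset.mem_inter.1 (hv ▸ Finset.mem_singleton_self v)
  rw [key S ⟨v, hvS.1⟩, key S' ⟨v, hvS.2⟩,
    key (S ∪ S') ⟨v, Finset.mem_union_left _ hvS.1⟩, sup_idem]
  exact locT_refl _

end

end Pool.Agent.Helper43.FL2
end

/- Helper37.FL2.EdgeV -/
section
/-!
# FL2-C1b: edge lifting for the frames `VFr T`
-/

open CategoryTheory MonoidalCategory Opposite Simplicial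

set_option autoImplicit false

namespace Pool.Agent.Helper37.FL2

open FL Pool.Agent.Helper43.FL2

noncomputable section

variable {C : Type} [SmallCategory C] {X : SP (Wr C)}

/-- The presheaf attached to `[0]` by the frame `VFr T`. -/
abbrev P0 (T : Fr C) (m : SimplexCategory) : SP (Wr C) := ((VFr T).obj (Wr.pt : Wr C)).obj m

/-- Its unique simplex. -/
def star (T : Fr C) (m : SimplexCategory) (η : (Wr C)ᵒᵖ) (k : SimplexCategoryᵒᵖ) :
    ((P0 T m).obj η).obj k :=
  ({ f := ⟨fun _ => (0 : Fin 1), fun _ _ _ => le_refl _⟩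
     g := fun _ (j : Fin 0) _ => j.elim0 } :
      VS (fun i : Fin 0 => (T.obj ((Wr.pt : Wr C).obj i)).obj m) η.unop k)

theorem star_unique (T : Fr C) (m : SimplexCategory) (η : (Wr C)ᵒᵖ) (k : SimplexCategoryᵒᵖ)
    (x : ((P0 T m).obj η).obj k) : x = star T m η k := by
  refine VS.ext' (u := (show VS (fun i : Fin 0 => (T.obj ((Wr.pt : Wr C).obj i)).obj m) η.unop k
    from x)) ?_ fun i (j : Fin 0) _ _ => j.elim0
  ext t
  exact congrArg Fin.val (Subsingleton.elim (α := Fin 1) _ _)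

/-- The simplices with constant first component. -/
def cS (B : SP C) : Sb (V1 B) where
  mem θ k := fun (u : VS (fun _ : Fin 1 => B) θ.unop k) => ∃ j : Fin 2, ∀ t, u.f t = j
  mapA := by
    rintro θ θ' φ k u ⟨j, h⟩
    exact ⟨j, fun t => h _⟩
  mapk := by
    rintro θ k l α u h
    exact h

/-- The simplices of `V[1](B)` with constant first component `j`. -/
theorem const_eq (T : Fr C) (c : C) (m : SimplexCategory) {η : (Wr C)ᵒᵖ}
    {k : SimplexCategoryᵒᵖ} (j : Fin 2) (x : ((P0 T m).obj η).obj k)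
    (u : VS (fun _ : Fin 1 => (T.obj c).obj m) η.unop k) (h : ∀ t, u.f t = j) :
    ((((VFr T).map (vtx (seg c) j)).app m).app η).app k x =
      (show ((V1 ((T.obj c).obj m)).obj η).obj k from u) := by
  refine VS.ext' (v := u) ?_ fun i l h1 h2 => ?_
  · ext t
    rw [h t]
    rfl
  · exfalso
    have h3 : l.succ ≤ u.f i.succ := h2.2
    have h4 : u.f i.castSucc ≤ l.castSucc := h2.1
    rw [h] at h3 h4
    exact lt_irrefl _ ((h4.trans_lt Fin.castSucc_lt_succ).trans_le h3)

/-- The map on the part lying over the vertices. -/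
def fW (T : Fr C) (B : SP C) (ee : Fin 2 → MpS (P0 T ⦋1⦌) X ⦋1⦌) :
    (tube (cS B)).toSP ⟶ X where
  app η :=
    { app := fun k => ↾ fun z =>
        (ee ((show VS (fun _ : Fin 1 => B) η.unop k from z.1.1).f 0)).app η k
          (SSet.stdSimplex.objEquiv z.1.2) (star T ⦋1⦌ η k)
      naturality := fun k l α => by
        refine ConcreteCategory.hom_ext _ _ fun z => ?_
        refine Eq.trans ?_ ((ee ((show VS (fun _ : Fin 1 => B) η.unop k from z.1.1).f 0)).nat_right
          η α (SSet.stdSimplex.objEquiv z.1.2) (star T ⦋1⦌ η k))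
        rw [star_unique T ⦋1⦌ η l (((P0 T ⦋1⦌).obj η).map α (star T ⦋1⦌ η k))]
        rfl }
  naturality η η' u := by
    refine NatTrans.ext (funext fun k => ?_)
    refine ConcreteCategory.hom_ext _ _ fun z => ?_
    obtain ⟨j, hj⟩ := z.2
    have e1 : (show VS (fun _ : Fin 1 => B) η.unop k from z.1.1).f 0 = j := hj 0
    have e2 : ((show VS (fun _ : Fin 1 => B) η.unop k from z.1.1).mapθ u.unop).f 0 = j := hj _
    refine Eq.trans ?_ ((ee ((show VS (fun _ : Fin 1 => B) η.unop k from z.1.1).f 0)).nat_left u k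
      (SSet.stdSimplex.objEquiv z.1.2) (star T ⦋1⦌ η k))
    change (ee (((show VS (fun _ : Fin 1 => B) η.unop k from z.1.1).mapθ u.unop).f 0)).app η' k
      (SSet.stdSimplex.objEquiv z.1.2) (star T ⦋1⦌ η' k) =
      (ee ((show VS (fun _ : Fin 1 => B) η.unop k from z.1.1).f 0)).app η' k
      (SSet.stdSimplex.objEquiv z.1.2) (((P0 T ⦋1⦌).map u).app k (star T ⦋1⦌ η k))
    rw [e1, e2, star_unique T ⦋1⦌ η' k (((P0 T ⦋1⦌).map u).app k (star T ⦋1⦌ η k))]

/-- The map on the part lying over the vertex `v`. -/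
def gW (B : SP C) (v : Fin 2) (g : MpS (V1 B) X ⦋0⦌) : (capS (⊤ : Sb (V1 B)) v).toSP ⟶ X where
  app η :=
    { app := fun k => ↾ fun z => g.app η k (SimplexCategory.const k.unop ⦋0⦌ 0) z.1.1
      naturality := fun k l α => by
        refine ConcreteCategory.hom_ext _ _ fun z => ?_
        exact g.nat_right η α (SimplexCategory.const k.unop ⦋0⦌ 0) z.1.1 }
  naturality η η' u := by
    refine NatTrans.ext (funext fun k => ?_)
    refine ConcreteCategory.hom_ext _ _ fun z => ?_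
    exact g.nat_left u k (SimplexCategory.const k.unop ⦋0⦌ 0) z.1.1

/-- Edges lift along `ends (Kf (VFr T) X) c`. -/
theorem edge_VFr (G : G1F X) (hrefl : ∀ {Q : SP (Wr C)} (S : Sb Q), LocT X S S) (T : Fr C)
    (c : C) (v : Fin 2) :
    HasLiftingProperty (SSet.horn.{0} 1 v).ι (ends (Kf (VFr T) X) c) := by
  refine hlp_one _ v fun (g : MpS (V1 ((T.obj c).obj ⦋0⦌)) X ⦋0⦌)
    (e : MpS (P0 T ⦋1⦌) X ⦋1⦌ × MpS (P0 T ⦋1⦌) X ⦋1⦌) hge => ?_
  let ee : Fin 2 → MpS (P0 T ⦋1⦌) X ⦋1⦌ := fun j => if j = 0 then e.1 else e.2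
  have hee0 : ee 0 = e.1 := rfl
  have hee1 : ee 1 = e.2 := rfl
  have H : ∀ (j : Fin 2) (η : (Wr C)ᵒᵖ) (k : SimplexCategoryᵒᵖ) (s : k.unop ⟶ ⦋0⦌)
      (x : ((P0 T ⦋0⦌).obj η).obj k),
      g.app η k s (((((VFr T).map (vtx (seg c) j)).app ⦋0⦌).app η).app k x) =
        (ee j).app η k (s ≫ SimplexCategory.const ⦋0⦌ ⦋1⦌ v) (star T ⦋1⦌ η k) := by
    intro j η k s x
    have key : ∀ z : MpS (P0 T ⦋1⦌) X ⦋1⦌,
        (((Kf (VFr T) X).obj (op Wr.pt)).map (SimplexCategory.const ⦋0⦌ ⦋1⦌ v).op z :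
          MpS (P0 T ⦋0⦌) X ⦋0⦌).app η k s x =
        z.app η k (s ≫ SimplexCategory.const ⦋0⦌ ⦋1⦌ v) (star T ⦋1⦌ η k) := by
      intro z
      change z.app η k (s ≫ SimplexCategory.const ⦋0⦌ ⦋1⦌ v) _ = _
      congr 1
      exact star_unique T ⦋1⦌ η k _
    fin_cases j
    · exact (congrArg (fun z : MpS (P0 T ⦋0⦌) X ⦋0⦌ => z.app η k s x)
        (congrArg Prod.fst hge)).trans (key e.1)
    · exact (congrArg (fun z : MpS (P0 T ⦋0⦌) X ⦋0⦌ => z.app η k s x)
        (congrArg Prod.snd hge)).trans (key e.2)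
  obtain ⟨F, hF1, hF2⟩ := extend_tube G (cS ((T.obj c).obj ⦋0⦌)) ⊤ v
    (by rw [sup_top_eq]; exact hrefl _) (fW T _ ee) (gW _ v g) (by
      intro η k x hx hx'
      obtain ⟨j, hj⟩ := hx
      have hj0 : (show VS (fun _ : Fin 1 => (T.obj c).obj ⦋0⦌) η.unop k from x.1).f 0 = j := hj 0
      have h1 := H j η k (SimplexCategory.const k.unop ⦋0⦌ 0) (star T ⦋0⦌ η k)
      have h2 := const_eq T c ⦋0⦌ j (star T ⦋0⦌ η k)
        (show VS (fun _ : Fin 1 => (T.obj c).obj ⦋0⦌) η.unop k from x.1) hj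
      rw [h2] at h1
      refine Eq.trans ?_ h1.symm
      change (ee ((show VS (fun _ : Fin 1 => (T.obj c).obj ⦋0⦌) η.unop k from x.1).f 0)).app η k
          (SSet.stdSimplex.objEquiv x.2) (star T ⦋1⦌ η k) = _
      have h4 : x.2 = cv v k := hx'.2
      rw [hj0, h4]
      rfl)
  let σ : V1 ((T.obj c).obj ⦋1⦌) ⟶ V1 ((T.obj c).obj ⦋0⦌) :=
    ((VFr T).obj (seg c)).map (SimplexCategory.const ⦋1⦌ ⦋0⦌ 0)
  refine ⟨((MpS.ofHom ⦋1⦌ σ).comp (ofTn F : MpS (V1 ((T.obj c).obj ⦋0⦌)) X ⦋1⦌) :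
    MpS (V1 ((T.obj c).obj ⦋1⦌)) X ⦋1⦌), ?_, ?_⟩
  · have key : ∀ j : Fin 2, (MpS.ofHom ⦋1⦌ (((VFr T).map (vtx (seg c) j)).app ⦋1⦌)).comp
        ((MpS.ofHom ⦋1⦌ σ).comp (ofTn F : MpS (V1 ((T.obj c).obj ⦋0⦌)) X ⦋1⦌)) = ee j := by
      intro j
      refine MpS.ext (funext fun η => funext fun k => funext fun s => funext fun x => ?_)
      refine (hF1 η k ((σ.app η).app k (((((VFr T).map (vtx (seg c) j)).app ⦋1⦌).app η).app k x),
        SSet.stdSimplex.objEquiv.symm s) ⟨j, fun t => rfl⟩).trans ?_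
      change (ee j).app η k s (star T ⦋1⦌ η k) = (ee j).app η k s x
      rw [star_unique T ⦋1⦌ η k x]
    exact Prod.ext (key 0) (key 1)
  · refine MpS.ext (funext fun η => funext fun k => funext fun s => funext fun x => ?_)
    have hx : (σ.app η).app k (((((VFr T).obj (seg c)).map
        (SimplexCategory.const ⦋0⦌ ⦋1⦌ v)).app η).app k x) = x := by
      refine (cos_comp ((VFr T).obj (seg c)) (SimplexCategory.const ⦋0⦌ ⦋1⦌ v)
        (SimplexCategory.const ⦋1⦌ ⦋0⦌ 0) x).symm.trans ?_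
      have : SimplexCategory.const ⦋0⦌ ⦋1⦌ v ≫ SimplexCategory.const ⦋1⦌ ⦋0⦌ 0 = 𝟙 ⦋0⦌ := by
        ext i : 3
        exact Subsingleton.elim (α := Fin 1) _ _
      rw [this]
      exact cos_id ((VFr T).obj (seg c)) x
    have h1 : s = SimplexCategory.const k.unop ⦋0⦌ 0 := by
      ext i : 3
      exact Subsingleton.elim (α := Fin 1) _ _
    change (F.app η).app k ((σ.app η).app k (((((VFr T).obj (seg c)).map
        (SimplexCategory.const ⦋0⦌ ⦋1⦌ v)).app η).app k x),
        SSet.stdSimplex.objEquiv.symm (s ≫ SimplexCategory.const ⦋0⦌ ⦋1⦌ v)) = g.app η k s x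
    rw [hx, h1]
    exact hF2 η k (x, SSet.stdSimplex.objEquiv.symm
      (SimplexCategory.const k.unop ⦋0⦌ 0 ≫ SimplexCategory.const ⦋0⦌ ⦋1⦌ v)) ⟨trivial, rfl⟩

end

end Pool.Agent.Helper37.FL2
end

/- Helper91.FL2.RS -/
section
/-!
# FL2, module V3 RS: restriction along a map of spaces of objects
-/

open CategoryTheory MonoidalCategory Opposite

set_option autoImplicit false

namespace Pool.Agent.Helper91.FL2

open _root_.FL
open Pool.Agent.Helper83.FL4 (deps exists_ext PPι_trivCof_of_anodyne horn_anodyne)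

/-! ### Gluing -/

/-- Gluing of maps of simplicial sets. -/
theorem sglue {P Q R Y : SSet.{0}} (a : P ⟶ R) (b : Q ⟶ R)
    (hs : ∀ k (z : R.obj k), (∃ p, a.app k p = z) ∨ ∃ q, b.app k q = z) (u : P ⟶ Y) (v : Q ⟶ Y)
    (haa : ∀ k p p', a.app k p = a.app k p' → u.app k p = u.app k p')
    (hbb : ∀ k q q', b.app k q = b.app k q' → v.app k q = v.app k q')
    (hab : ∀ k p q, a.app k p = b.app k q → u.app k p = v.app k q) :
    ∃ w : R ⟶ Y, a ≫ w = u ∧ b ≫ w = v := by
  classical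
  have key : ∀ (k : SimplexCategoryᵒᵖ) (z : R.obj k), ∃ w : Y.obj k,
      (∀ p, a.app k p = z → u.app k p = w) ∧ (∀ q, b.app k q = z → v.app k q = w) := by
    intro k z
    rcases hs k z with ⟨p, rfl⟩ | ⟨q, rfl⟩
    · exact ⟨u.app k p, fun p' h => haa k p' p h, fun q h => (hab k p q h.symm).symm⟩
    · exact ⟨v.app k q, fun p h => hab k p q h, fun q' h => hbb k q' q h⟩
  choose F hF1 hF2 using key
  refine ⟨{ app := fun k => ↾ (F k), naturality := ?_ }, ?_, ?_⟩
  · intro k l α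
    refine ConcreteCategory.hom_ext _ _ fun z => ?_
    show F l (R.map α z) = Y.map α (F k z)
    rcases hs k z with ⟨p, h⟩ | ⟨q, h⟩
    · refine Eq.trans ?_ (congrArg (Y.map α) (hF1 k _ p h))
      refine Eq.trans ?_ (sset_nat u α p)
      exact (hF1 l _ (P.map α p) ((sset_nat a α p).trans (congrArg _ h))).symm
    · refine Eq.trans ?_ (congrArg (Y.map α) (hF2 k _ q h))
      refine Eq.trans ?_ (sset_nat v α q)
      exact (hF2 l _ (Q.map α q) ((sset_nat b α q).trans (congrArg _ h))).symm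
  · ext k p
    exact (hF1 k _ p rfl).symm
  · ext k q
    exact (hF2 k _ q rfl).symm

/-- Gluing of maps of simplicial presheaves. -/
theorem pglue {A : Type} [SmallCategory A] {P Q R Y : SP A} (a : P ⟶ R) (b : Q ⟶ R)
    (hs : ∀ c k (z : (R.obj c).obj k), (∃ p, (a.app c).app k p = z) ∨ ∃ q, (b.app c).app k q = z)
    (u : P ⟶ Y) (v : Q ⟶ Y)
    (haa : ∀ c k p p', (a.app c).app k p = (a.app c).app k p' →
      (u.app c).app k p = (u.app c).app k p')
    (hbb : ∀ c k q q', (b.app c).app k q = (b.app c).app k q' →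
      (v.app c).app k q = (v.app c).app k q')
    (hab : ∀ c k p q, (a.app c).app k p = (b.app c).app k q →
      (u.app c).app k p = (v.app c).app k q) :
    ∃ w : R ⟶ Y, a ≫ w = u ∧ b ≫ w = v := by
  have key : ∀ c, ∃ w : R.obj c ⟶ Y.obj c, a.app c ≫ w = u.app c ∧ b.app c ≫ w = v.app c :=
    fun c => sglue (a.app c) (b.app c) (hs c) (u.app c) (v.app c) (haa c) (hbb c) (hab c)
  choose F hF1 hF2 using key
  have e1 : ∀ c k p, (F c).app k ((a.app c).app k p) = (u.app c).app k p := fun c k p =>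
    ConcreteCategory.congr_hom (NatTrans.congr_app (hF1 c) k) p
  have e2 : ∀ c k q, (F c).app k ((b.app c).app k q) = (v.app c).app k q := fun c k q =>
    ConcreteCategory.congr_hom (NatTrans.congr_app (hF2 c) k) q
  refine ⟨{ app := F, naturality := ?_ }, ?_, ?_⟩
  · intro c d g
    refine NatTrans.ext (funext fun k => ?_)
    refine ConcreteCategory.hom_ext _ _ fun z => ?_
    show (F d).app k ((R.map g).app k z) = (Y.map g).app k ((F c).app k z)
    rcases hs c k z with ⟨p, h⟩ | ⟨q, h⟩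
    · rw [← h, ← hom_nat a g p, e1, e1]
      exact hom_nat u g p
    · rw [← h, ← hom_nat b g q, e2, e2]
      exact hom_nat v g q
  · exact NatTrans.ext (funext fun c => hF1 c)
  · exact NatTrans.ext (funext fun c => hF2 c)

open SSet.modelCategoryQuillen in
/-- Extension of maps to Kan complexes. -/
theorem exists_extend {K L S : SSet.{0}} (i : K ⟶ L) [Mono i] (hi : WE i)
    (hS : SSet.KanComplex S) (f : K ⟶ S) : ∃ g : L ⟶ S, i ≫ g = f := by
  have hp : KanFib (Limits.terminal.from S) :=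
    (Pool.Agent.Helper83.FL4.kanFib_iff _).2 ((HomotopicalAlgebra.isFibrant_iff S).1 hS)
  have hT : SSet.KanComplex (⊤_ SSet.{0}) := Pool.Agent.Helper83.FL4.kan_of_lift fun n k f =>
    ⟨Limits.terminal.from _, Limits.terminal.hom_ext _ _⟩
  have := (Helper85FL.we_iff_lift i).1 hi (Limits.terminal.from S) hS hT hp
  have sq : CommSq f i (Limits.terminal.from S) (Limits.terminal.from L) :=
    ⟨Limits.terminal.hom_ext _ _⟩
  exact ⟨sq.lift, sq.fac_left⟩

variable {C : Type} [SmallCategory C]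

/-! ### Coskeleta -/

theorem vtx_pt (i : Fin (0 + 1)) : vtx (Wr.pt : Wr C) i = 𝟙 _ := Wr.toPt_unique _ _

theorem vtx_toPt (θ : Wr C) (i : Fin (θ.len + 1)) : vtx θ i ≫ Wr.toPt θ = 𝟙 _ :=
  Wr.toPt_unique _ _

/-- Maps into the coskeleton. -/
noncomputable def toCoskOf {P : SP (Wr C)} {S : SSet.{0}} (f : P.obj (op Wr.pt) ⟶ S) : P ⟶ Cosk C S where
  app θ :=
    { app := fun k => ↾ fun p i => f.app k ((P.map (vtx θ.unop i).op).app k p)
      naturality := fun k l α => by
        refine ConcreteCategory.hom_ext _ _ fun p => ?_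
        funext i
        refine (congrArg (f.app l) (sp_nat P (vtx θ.unop i).op α p)).trans ?_
        exact sset_nat f α _ }
  naturality θ θ' φ := by
    refine NatTrans.ext (funext fun k => ?_)
    refine ConcreteCategory.hom_ext _ _ fun p => ?_
    funext i
    refine congrArg (f.app k) ?_
    show (P.map (vtx θ'.unop i).op).app k ((P.map φ).app k p) =
      (P.map (vtx θ.unop (Wr.Hom.f φ.unop i)).op).app k p
    rw [← sp_comp, ← vtx_comp]
    rfl

/-- The underlying map of a map into the coskeleton. -/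
noncomputable def ofCosk {P : SP (Wr C)} {S : SSet.{0}} (f : P ⟶ Cosk C S) : P.obj (op Wr.pt) ⟶ S where
  app k := ↾ fun p => ((f.app (op Wr.pt)).app k p : Fin (0 + 1) → S.obj k) 0
  naturality k l α := by
    refine ConcreteCategory.hom_ext _ _ fun p => ?_
    exact congrFun (hom_natk f α p) 0

theorem ofCosk_app {P : SP (Wr C)} {S : SSet.{0}} (f : P ⟶ Cosk C S) (θ : Wr C)
    (k : SimplexCategoryᵒᵖ) (p : (P.obj (op θ)).obj k) (i : Fin (θ.len + 1)) :
    (ofCosk f).app k ((P.map (vtx θ i).op).app k p) =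
      ((f.app (op θ)).app k p : Fin (θ.len + 1) → S.obj k) i :=
  congrFun (hom_nat f (vtx θ i).op p) 0

theorem Cosk_injFib {S : SSet.{0}} (hS : SSet.KanComplex S) : InjFib (Cosk C S) := by
  intro P Q i hi f
  have := hi.1 (op Wr.pt)
  obtain ⟨g, hg⟩ := exists_extend (i.app (op Wr.pt)) (hi.2 _) hS (ofCosk f)
  refine ⟨toCoskOf g, ?_⟩
  refine NatTrans.ext (funext fun θ => NatTrans.ext (funext fun k => ?_))
  refine ConcreteCategory.hom_ext _ _ fun p => ?_
  funext j
  show g.app k ((Q.map (vtx θ.unop j).op).app k ((i.app θ).app k p)) = _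
  refine (congrArg (g.app k) (hom_nat i (vtx θ.unop j).op p).symm).trans ?_
  refine (ConcreteCategory.congr_hom (NatTrans.congr_app hg k) _).trans ?_
  exact ofCosk_app f θ.unop k p j

/-- Sub-presheaf generated by the simplices over `[0]`. -/
def skSb (Q : SP (Wr C)) : Sb Q where
  mem θ k := Set.range ((Q.map (Wr.toPt θ.unop).op).app k)
  mapA := by
    rintro θ θ' φ k _ ⟨q, rfl⟩
    refine ⟨q, ?_⟩
    rw [← sp_comp]
    refine congrArg (fun t => (Q.map t).app k q) ?_
    exact Quiver.Hom.unop_inj (Wr.toPt_unique _ _)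
  mapk := by
    rintro θ k l α _ ⟨q, rfl⟩
    exact ⟨(Q.obj (op Wr.pt)).map α q, sp_nat Q _ α q⟩

theorem toCosk_injFibration {Y : SP (Wr C)} (hY : InjFib Y) : InjFibration (toCosk Y) := by
  intro P Q i hi
  refine ⟨fun {u v} sq => ?_⟩
  have hinj : ∀ θ k, Function.Injective ((i.app θ).app k) := fun θ k =>
    Pool.Agent.Helper83.FL4.app_inj hi.1
  -- elements over a point
  have key : ∀ (θ : (Wr C)ᵒᵖ) (k : SimplexCategoryᵒᵖ) (p : (P.obj θ).obj k)
      (q : (Q.obj (op Wr.pt)).obj k), (i.app θ).app k p = (Q.map (Wr.toPt θ.unop).op).app k q →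
      ∃ p0 : (P.obj (op Wr.pt)).obj k, (i.app _).app k p0 = q ∧
        (P.map (Wr.toPt θ.unop).op).app k p0 = p := by
    intro θ k p q h
    have e0 : (Q.map (vtx θ.unop 0).op).app k ((Q.map (Wr.toPt θ.unop).op).app k q) = q := by
      rw [← sp_comp]
      refine Eq.trans ?_ (sp_id Q q)
      refine congrArg (fun t => (Q.map t).app k q) ?_
      exact Quiver.Hom.unop_inj (Wr.toPt_unique _ _)
    have e1 : (i.app _).app k ((P.map (vtx θ.unop 0).op).app k p) = q := by
      rw [hom_nat i, h, e0]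
    refine ⟨(P.map (vtx θ.unop 0).op).app k p, e1, ?_⟩
    apply hinj
    rw [hom_nat i, e1, h]
  let R : Sb Q := Sb.range i ⊔ skSb Q
  -- the map `P ⟶ R`
  let a : P ⟶ R.toSP :=
    { app := fun θ =>
        { app := fun k => ↾ fun p => ⟨(i.app θ).app k p, Or.inl ⟨p, rfl⟩⟩
          naturality := fun k l α => by
            refine ConcreteCategory.hom_ext _ _ fun p => ?_
            exact Subtype.ext (hom_natk i α p) }
      naturality := fun θ θ' φ => by
        refine NatTrans.ext (funext fun k => ?_)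
        refine ConcreteCategory.hom_ext _ _ fun p => ?_
        exact Subtype.ext (hom_nat i φ p) }
  let b : (Functor.const (Wr C)ᵒᵖ).obj (Q.obj (op Wr.pt)) ⟶ R.toSP :=
    { app := fun θ =>
        { app := fun k => ↾ fun q => ⟨(Q.map (Wr.toPt θ.unop).op).app k q, Or.inr ⟨q, rfl⟩⟩
          naturality := fun k l α => by
            refine ConcreteCategory.hom_ext _ _ fun q => ?_
            exact Subtype.ext (sp_nat Q _ α q) }
      naturality := fun θ θ' φ => by
        refine NatTrans.ext (funext fun k => ?_)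
        refine ConcreteCategory.hom_ext _ _ fun q => ?_
        refine Subtype.ext ?_
        show (Q.map (Wr.toPt θ'.unop).op).app k q = (Q.map φ).app k _
        refine Eq.trans ?_ (sp_comp Q _ _ q)
        refine congrArg (fun t => (Q.map t).app k q) ?_
        exact Quiver.Hom.unop_inj (Wr.toPt_unique _ _) }
  have hsurj : ∀ θ k (z : (R.toSP.obj θ).obj k), (∃ p, (a.app θ).app k p = z) ∨
      ∃ q, (b.app θ).app k q = z := by
    rintro θ k ⟨z, ⟨p, h⟩ | ⟨q, h⟩⟩
    · exact Or.inl ⟨p, Subtype.ext h⟩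
    · exact Or.inr ⟨q, Subtype.ext h⟩
  have haι : a ≫ R.ι = i := rfl
  -- `P ⟶ R` is an equivalence
  have hmono : ∀ θ, Mono (a.app θ) := by
    intro θ
    have h : ∀ k, Mono ((a.app θ).app k) := fun k => by
      refine (mono_iff_injective _).2 fun p p' h => ?_
      exact hinj θ k (congrArg Subtype.val h)
    exact NatTrans.mono_of_mono_app _
  have hwe : ∀ θ, WE (a.app θ) := by
    intro θ
    have := hmono θ
    rw [Helper85FL.we_iff_lift]
    intro E B p hE hB hp
    refine ⟨fun {f g} sq' => ?_⟩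
    have h1 := hi.1 (op Wr.pt)
    have h2 := (Helper85FL.we_iff_lift (i.app (op Wr.pt))).1 (hi.2 _) p hE hB hp
    have sq2 : CommSq (P.map (Wr.toPt θ.unop).op ≫ f) (i.app (op Wr.pt)) p
        ((b.app θ) ≫ g) := ⟨by
      rw [Category.assoc, sq'.w, ← Category.assoc, ← Category.assoc]
      refine congrArg (· ≫ g) ?_
      refine NatTrans.ext (funext fun k => ?_)
      refine ConcreteCategory.hom_ext _ _ fun q => ?_
      exact Subtype.ext (hom_nat i _ q)⟩
    obtain ⟨w, hw1, hw2⟩ := sglue (a.app θ) (b.app θ) (hsurj θ) f sq2.lift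
      (fun k p p' h => congrArg _ (hinj θ k (congrArg Subtype.val h)))
      (fun k q q' h => by
        have h' : (Q.map (Wr.toPt θ.unop).op).app k q = (Q.map (Wr.toPt θ.unop).op).app k q' :=
          congrArg Subtype.val h
        have e0 : ∀ q, (Q.map (vtx θ.unop 0).op).app k
            ((Q.map (Wr.toPt θ.unop).op).app k q) = q := by
          intro q
          rw [← sp_comp]
          refine Eq.trans ?_ (sp_id Q q)
          refine congrArg (fun t => (Q.map t).app k q) ?_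
          exact Quiver.Hom.unop_inj (Wr.toPt_unique _ _)
        have h3 : q = q' := by rw [← e0 q, h', e0 q']
        rw [h3])
      (fun k p q h => by
        obtain ⟨p0, h3, h4⟩ := key θ k p q (congrArg Subtype.val h)
        have := ConcreteCategory.congr_hom (NatTrans.congr_app sq2.fac_left k) p0
        rw [← h3, ← h4]
        exact this.symm)
    refine ⟨⟨{ l := w, fac_left := hw1, fac_right := ?_ }⟩⟩
    refine NatTrans.ext (funext fun k => ?_)
    refine ConcreteCategory.hom_ext _ _ fun z => ?_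
    show p.app k (w.app k z) = g.app k z
    rcases hsurj θ k z with ⟨x, h⟩ | ⟨q, h⟩
    · rw [← h]
      refine (congrArg (p.app k) (ConcreteCategory.congr_hom (NatTrans.congr_app hw1 k) x)).trans ?_
      exact ConcreteCategory.congr_hom (NatTrans.congr_app sq'.w k) x
    · rw [← h]
      refine (congrArg (p.app k) (ConcreteCategory.congr_hom (NatTrans.congr_app hw2 k) q)).trans ?_
      exact ConcreteCategory.congr_hom (NatTrans.congr_app sq2.fac_right k) q
  have hR : TrivCof R.ι := by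
    refine ⟨fun θ => ?_, fun θ => ?_⟩
    · have h : ∀ k, Mono ((R.ι.app θ).app k) := fun k => by
        refine (mono_iff_injective _).2 fun p p' h => ?_
        exact Subtype.ext h
      exact NatTrans.mono_of_mono_app _
    · refine Helper85FL.we_of_comp_left (f := a.app θ) (hwe θ) ?_
      exact hi.2 θ
  -- the map `R ⟶ Y`
  let v0 := ofCosk v
  have hv0 : ∀ k (p : (P.obj (op Wr.pt)).obj k),
      v0.app k ((i.app _).app k p) = (u.app (op Wr.pt)).app k p := by
    intro k p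
    have := congrFun (ConcreteCategory.congr_hom (NatTrans.congr_app
      (NatTrans.congr_app sq.w (op Wr.pt)) k) p) 0
    refine Eq.symm (Eq.trans ?_ this)
    show (u.app (op Wr.pt)).app k p = (Y.map (vtx Wr.pt 0).op).app k ((u.app (op Wr.pt)).app k p)
    refine (sp_id Y _).symm.trans ?_
    refine congrArg (fun t => (Y.map t).app k _) ?_
    exact Quiver.Hom.unop_inj (Wr.toPt_unique _ _)
  let c : (Functor.const (Wr C)ᵒᵖ).obj (Q.obj (op Wr.pt)) ⟶ Y :=
    { app := fun θ => v0 ≫ Y.map (Wr.toPt θ.unop).op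
      naturality := fun θ θ' φ => by
        refine NatTrans.ext (funext fun k => ?_)
        refine ConcreteCategory.hom_ext _ _ fun q => ?_
        show (Y.map (Wr.toPt θ'.unop).op).app k (v0.app k q) =
          (Y.map φ).app k ((Y.map (Wr.toPt θ.unop).op).app k (v0.app k q))
        refine Eq.trans ?_ (sp_comp Y _ _ _)
        refine congrArg (fun t => (Y.map t).app k _) ?_
        exact Quiver.Hom.unop_inj (Wr.toPt_unique _ _) }
  obtain ⟨w, hw1, hw2⟩ := pglue a b hsurj u c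
    (fun θ k p p' h => congrArg _ (hinj θ k (congrArg Subtype.val h)))
    (fun θ k q q' h => by
      have h' : (Q.map (Wr.toPt θ.unop).op).app k q = (Q.map (Wr.toPt θ.unop).op).app k q' :=
        congrArg Subtype.val h
      have e0 : ∀ q, (Q.map (vtx θ.unop 0).op).app k
          ((Q.map (Wr.toPt θ.unop).op).app k q) = q := by
        intro q
        rw [← sp_comp]
        refine Eq.trans ?_ (sp_id Q q)
        refine congrArg (fun t => (Q.map t).app k q) ?_
        exact Quiver.Hom.unop_inj (Wr.toPt_unique _ _)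
      have h3 : q = q' := by rw [← e0 q, h', e0 q']
      rw [h3])
    (fun θ k p q h => by
      obtain ⟨p0, h3, h4⟩ := key θ k p q (congrArg Subtype.val h)
      rw [← h4, ← h3]
      refine (hom_nat u _ p0).trans ?_
      exact congrArg ((Y.map (Wr.toPt θ.unop).op).app k) (hv0 k p0).symm)
  obtain ⟨l, hl⟩ := hY R.ι hR w
  refine ⟨⟨{ l := l, fac_left := ?_, fac_right := ?_ }⟩⟩
  · rw [← haι, Category.assoc, hl, hw1]
  · refine NatTrans.ext (funext fun θ => NatTrans.ext (funext fun k => ?_))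
    refine ConcreteCategory.hom_ext _ _ fun q => ?_
    funext j
    have hpt : ∀ q : (Q.obj (op Wr.pt)).obj k, (l.app (op Wr.pt)).app k q = v0.app k q := by
      intro q
      have e1 := ConcreteCategory.congr_hom (NatTrans.congr_app
        (NatTrans.congr_app hl (op Wr.pt)) k) ((b.app (op Wr.pt)).app k q)
      have e2 := ConcreteCategory.congr_hom (NatTrans.congr_app
        (NatTrans.congr_app hw2 (op Wr.pt)) k) q
      have e3 : (Q.map (Wr.toPt Wr.pt).op).app k q = q := by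
        refine Eq.trans ?_ (sp_id Q q)
        refine congrArg (fun t => (Q.map t).app k q) ?_
        exact Quiver.Hom.unop_inj (Wr.toPt_unique _ _)
      have e4 : (Y.map (Wr.toPt Wr.pt).op).app k (v0.app k q) = v0.app k q := by
        refine Eq.trans ?_ (sp_id Y _)
        refine congrArg (fun t => (Y.map t).app k _) ?_
        exact Quiver.Hom.unop_inj (Wr.toPt_unique _ _)
      refine Eq.trans (congrArg ((l.app (op Wr.pt)).app k) e3.symm) ?_
      exact e1.trans (e2.trans e4)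
    show (Y.map (vtx θ.unop j).op).app k ((l.app θ).app k q) = _
    rw [← hom_nat l, hpt]
    exact ofCosk_app v θ.unop k q j

/-! ### The restriction -/

/-- Functoriality of the coskeleton. -/
def CoskMap {S T : SSet.{0}} (g : S ⟶ T) : Cosk C S ⟶ Cosk C T where
  app θ :=
    { app := fun k => ↾ fun u i => g.app k (u i)
      naturality := fun k l α => by
        refine ConcreteCategory.hom_ext _ _ fun u => ?_
        funext i
        exact sset_nat g α (u i) }
  naturality _ _ _ := rfl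

/-- Maps into the restriction. -/
noncomputable def Rs.lift {P Y : SP (Wr C)} {S : SSet.{0}} {g : S ⟶ Y.obj (op Wr.pt)} (f : P ⟶ Y)
    (s : P ⟶ Cosk C S) (h : f ≫ toCosk Y = s ≫ CoskMap g) : P ⟶ Rs Y g where
  app θ :=
    { app := fun k => ↾ fun p => ⟨((f.app θ).app k p, (s.app θ).app k p), fun i =>
        congrFun (ConcreteCategory.congr_hom (NatTrans.congr_app (NatTrans.congr_app h θ) k) p) i⟩
      naturality := fun k l α => by
        refine ConcreteCategory.hom_ext _ _ fun p => ?_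
        exact Subtype.ext (Prod.ext (hom_natk f α p) (hom_natk s α p)) }
  naturality θ θ' φ := by
    refine NatTrans.ext (funext fun k => ?_)
    refine ConcreteCategory.hom_ext _ _ fun p => ?_
    exact Subtype.ext (Prod.ext (hom_nat f φ p) (hom_nat s φ p))

theorem Rs.cond (Y : SP (Wr C)) {S : SSet.{0}} (g : S ⟶ Y.obj (op Wr.pt)) :
    Rs.fst Y g ≫ toCosk Y = Rs.snd Y g ≫ CoskMap g := by
  refine NatTrans.ext (funext fun θ => NatTrans.ext (funext fun k => ?_))
  refine ConcreteCategory.hom_ext _ _ fun z => ?_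
  funext i
  exact z.2 i

theorem Rs.hom_ext {P Y : SP (Wr C)} {S : SSet.{0}} {g : S ⟶ Y.obj (op Wr.pt)}
    {f f' : P ⟶ Rs Y g} (h : f ≫ Rs.fst Y g = f' ≫ Rs.fst Y g)
    (h' : f ≫ Rs.snd Y g = f' ≫ Rs.snd Y g) : f = f' := by
  refine NatTrans.ext (funext fun θ => NatTrans.ext (funext fun k => ?_))
  refine ConcreteCategory.hom_ext _ _ fun p => ?_
  refine Subtype.ext (Prod.ext ?_ ?_)
  · exact ConcreteCategory.congr_hom (NatTrans.congr_app (NatTrans.congr_app h θ) k) p
  · exact ConcreteCategory.congr_hom (NatTrans.congr_app (NatTrans.congr_app h' θ) k) p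

theorem Rs_injFib {Y : SP (Wr C)} (hY : InjFib Y) {S : SSet.{0}} (hS : SSet.KanComplex S)
    (g : S ⟶ Y.obj (op Wr.pt)) : InjFib (Rs Y g) := by
  intro P Q i hi f
  obtain ⟨s, hs⟩ := Cosk_injFib (C := C) hS i hi (f ≫ Rs.snd Y g)
  have := toCosk_injFibration hY i hi
  have sq : CommSq (f ≫ Rs.fst Y g) i (toCosk Y) (s ≫ CoskMap g) := ⟨by
    rw [Category.assoc, Rs.cond, ← Category.assoc, ← hs, Category.assoc]⟩
  refine ⟨Rs.lift sq.lift s sq.fac_right, Rs.hom_ext ?_ ?_⟩
  · exact sq.fac_left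
  · exact hs

/-- `(Y|_S)([0]) = S`. -/
theorem Rs_pt {Y : SP (Wr C)} {S : SSet.{0}} (g : S ⟶ Y.obj (op Wr.pt)) :
    ∃ e : S ≅ (Rs Y g).obj (op Wr.pt),
      (∀ (k : SimplexCategoryᵒᵖ) (s : S.obj k),
        (e.hom.app k s : ((Rs Y g).obj (op Wr.pt)).obj k).1 = (g.app k s, fun _ => s)) := by
  have hv : ∀ (k : SimplexCategoryᵒᵖ) (y : (Y.obj (op Wr.pt)).obj k)
      (i : Fin ((Wr.pt : Wr C).len + 1)),
      (Y.map (vtx Wr.pt i).op).app k y = y := by
    intro k y i
    refine Eq.trans ?_ (sp_id Y y)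
    refine congrArg (fun t => (Y.map t).app k y) ?_
    exact Quiver.Hom.unop_inj (Wr.toPt_unique _ _)
  refine ⟨{ hom :=
      { app := fun k => ↾ fun s => ⟨(g.app k s, fun _ => s), fun i => hv k _ i⟩
        naturality := fun k l α => by
          refine ConcreteCategory.hom_ext _ _ fun s => ?_
          exact Subtype.ext (Prod.ext (sset_nat g α s) rfl) }
            inv :=
      { app := fun k => ↾ fun z => (z.1.2 : Fin (0 + 1) → S.obj k) 0
        naturality := fun _ _ _ => rfl }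
            hom_inv_id := rfl
            inv_hom_id := ?_ }, fun k s => rfl⟩
  refine NatTrans.ext (funext fun k => ?_)
  refine ConcreteCategory.hom_ext _ _ fun z => ?_
  refine Subtype.ext (Prod.ext ?_ ?_)
  · exact (z.2 (0 : Fin (0 + 1))).symm.trans (hv k _ _)
  · funext i
    obtain rfl : i = (0 : Fin 1) := Subsingleton.elim (α := Fin 1) _ _
    rfl

/-- The mapping presheaves of `Y|_S` are those of `Y`. -/
theorem Rs_Hm_isIso {Y : SP (Wr C)} {S : SSet.{0}} (g : S ⟶ Y.obj (op Wr.pt))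
    (x y : Vt (Rs Y g)) : IsIso (HmMap (Rs.fst Y g) x y) := by
  have : ∀ c k, IsIso (((HmMap (Rs.fst Y g) x y).app c).app k) := by
    intro c k
    rw [isIso_iff_bijective]
    constructor
    · rintro z z' h
      have h1 : z.1.1.1 = z'.1.1.1 := congrArg Subtype.val h
      have h2 : ∀ z : ((Hm (Rs Y g) x y).obj c).obj k, z.1.1.2 =
          fun i : Fin 2 => if i = 0 then cst S ((x.1.2 : Fin (0 + 1) → _) 0) k else
            cst S ((y.1.2 : Fin (0 + 1) → _) 0) k := by
        intro z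
        funext (i : Fin 2)
        have e := z.2
        have e0 := congrArg (fun t : ((Rs Y g).obj (op Wr.pt)).obj k =>
          (t.1.2 : Fin (0 + 1) → S.obj k) 0) (congrArg Prod.fst e)
        have e1 := congrArg (fun t : ((Rs Y g).obj (op Wr.pt)).obj k =>
          (t.1.2 : Fin (0 + 1) → S.obj k) 0) (congrArg Prod.snd e)
        rcases (by decide : ∀ i : Fin 2, i = 0 ∨ i = 1) i with rfl | rfl
        · rw [if_pos rfl]
          exact e0
        · rw [if_neg (by decide)]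
          exact e1
      exact Subtype.ext (Subtype.ext (Prod.ext h1 ((h2 z).trans (h2 z').symm)))
    · rintro ⟨z, hz⟩
      have hz0 := congrArg Prod.fst hz
      have hz1 := congrArg Prod.snd hz
      have hv : ∀ (w : Vt (Rs Y g)), w.1.1 = g.app _ ((w.1.2 : Fin (0 + 1) → _) 0) := by
        intro w
        refine Eq.trans ?_ (w.2 (0 : Fin (0 + 1)))
        refine (sp_id Y _).symm.trans ?_
        refine congrArg (fun t => (Y.map t).app _ w.1.1) ?_
        exact Quiver.Hom.unop_inj (Wr.toPt_unique _ _)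
      have hc : ∀ (w : Vt (Rs Y g)), cst (Y.obj (op Wr.pt)) w.1.1 k =
          g.app k (cst S ((w.1.2 : Fin (0 + 1) → _) 0) k) := by
        intro w
        rw [app_cst, ← hv w]
      refine ⟨⟨⟨(z, fun i : Fin 2 => if i = 0 then cst S ((x.1.2 : Fin (0 + 1) → _) 0) k else
            cst S ((y.1.2 : Fin (0 + 1) → _) 0) k), ?_⟩, ?_⟩, ?_⟩
      · intro (i : Fin 2)
        rcases (by decide : ∀ i : Fin 2, i = 0 ∨ i = 1) i with rfl | rfl
        · exact hz0.trans (hc x)
        · exact hz1.trans (hc y)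
      · refine Prod.ext ?_ ?_
        · refine Subtype.ext (Prod.ext hz0 ?_)
          funext i
          obtain rfl : i = (0 : Fin 1) := Subsingleton.elim (α := Fin 1) _ _
          rfl
        · refine Subtype.ext (Prod.ext hz1 ?_)
          funext i
          obtain rfl : i = (0 : Fin 1) := Subsingleton.elim (α := Fin 1) _ _
          rfl
      · rfl
  have : ∀ c, IsIso ((HmMap (Rs.fst Y g) x y).app c) := fun c =>
    NatIso.isIso_of_isIso_app _
  exact NatIso.isIso_of_isIso_app _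

/-! ### Yoneda with parameters -/

section Yoneda

variable {A : Type} [SmallCategory A]

/-- The map `h_a ⊗ K ⟶ Y` attached to `K ⟶ Y(a)`. -/
def yA {Y : SP A} {a : A} {K : SSet.{0}} (f : K ⟶ Y.obj (op a)) : tn (rep a) K ⟶ Y where
  app b :=
    { app := fun k => ↾ fun (z : (b.unop ⟶ a) × K.obj k) => (Y.map z.1.op).app k (f.app k z.2)
      naturality := fun k l α => by
        refine ConcreteCategory.hom_ext _ _ fun (z : (b.unop ⟶ a) × K.obj k) => ?_
        refine (congrArg ((Y.map z.1.op).app l) (sset_nat f α z.2)).trans ?_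
        exact sp_nat Y z.1.op α _ }
  naturality b b' g := by
    refine NatTrans.ext (funext fun k => ?_)
    refine ConcreteCategory.hom_ext _ _ fun (z : (b.unop ⟶ a) × K.obj k) => ?_
    exact sp_comp Y z.1.op g _

/-- The map `K ⟶ Y(a)` attached to `h_a ⊗ K ⟶ Y`. -/
def yB {Y : SP A} {a : A} {K : SSet.{0}} (l : tn (rep a) K ⟶ Y) : K ⟶ Y.obj (op a) where
  app k := ↾ fun t => (l.app (op a)).app k ((𝟙 a : a ⟶ a), t)
  naturality k k' α := by
    refine ConcreteCategory.hom_ext _ _ fun t => ?_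
    exact hom_natk l α ((𝟙 a : a ⟶ a), t)

theorem yB_map {Y : SP A} {a : A} {K : SSet.{0}} (l : tn (rep a) K ⟶ Y) {b : A} (φ : b ⟶ a)
    (k : SimplexCategoryᵒᵖ) (t : K.obj k) :
    (Y.map φ.op).app k ((yB l).app k t) = (l.app (op b)).app k (φ, t) := by
  refine (hom_nat l φ.op ((𝟙 a : a ⟶ a), t)).symm.trans ?_
  refine congrArg ((l.app (op b)).app k) (Prod.ext ?_ rfl)
  exact Category.comp_id φ

end Yoneda

/-! ### Faces of `[r+1](c)` -/

theorem initMap_f {r : ℕ} (c : Fin (r + 1) → C) (i : Fin (r + 1)) :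
    (Wr.Hom.f (initMap c) i : Fin (r + 1 + 1)) = i.castSucc := rfl

theorem lastMap'_f {r : ℕ} (c : Fin (r + 1) → C) (i : Fin 2) :
    (Wr.Hom.f (lastMap' c) i : Fin (r + 1 + 1)).1 = r + i.1 := rfl

theorem g_congr {X Y : Wr C} {φ ψ : X ⟶ Y} (e : φ = ψ) (i : Fin X.len) (j : Fin Y.len)
    (h : Jump (Wr.Hom.f φ) i j) (h' : Jump (Wr.Hom.f ψ) i j) :
    Wr.Hom.g φ i j h = Wr.Hom.g ψ i j h' := by
  subst e
  rfl

theorem initMap_jump {r : ℕ} (c : Fin (r + 1) → C) (j : Fin r) :
    Jump (Wr.Hom.f (initMap c)) j j.castSucc := by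
  constructor
  · exact le_refl _
  · exact le_refl _

theorem lastMap'_jump {r : ℕ} (c : Fin (r + 1) → C) (j : Fin 1) :
    Jump (Wr.Hom.f (lastMap' c)) j (Fin.last r) := by
  obtain rfl : j = 0 := Subsingleton.elim _ _
  constructor
  · exact le_refl _
  · exact le_refl _

theorem fac_init {r : ℕ} (c : Fin (r + 1) → C) {η : Wr C} (φ : η ⟶ (⟨r + 1, c⟩ : Wr C))
    (h : ∀ t, (Wr.Hom.f φ t).1 ≤ r) : ∃ ψ : η ⟶ init c, ψ ≫ initMap c = φ := by
  let ψ : η ⟶ init c := ({
    f := ⟨fun t => ⟨(Wr.Hom.f φ t).1, Nat.lt_succ_of_le (h t)⟩, fun t t' h' =>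
      (Wr.Hom.f φ).monotone h'⟩
    g := fun i (j : Fin r) hij => Wr.Hom.g φ i j.castSucc ⟨hij.1, hij.2⟩ } : Wr.Hom η (init c))
  refine ⟨ψ, ?_⟩
  refine Wr.hom_ext' rfl fun i (l : Fin (r + 1)) h1 h2 => ?_
  have hl : l.1 < r := by
    have e := h2.2
    have e' := h i.succ
    have e'' : l.1 + 1 ≤ (Wr.Hom.f φ i.succ).1 := e
    omega
  obtain ⟨j, rfl⟩ : ∃ j : Fin r, l = j.castSucc := ⟨⟨l.1, hl⟩, rfl⟩
  have hj : Jump (Wr.Hom.f ψ) i j := ⟨h2.1, h2.2⟩
  refine (Wr.comp_g ψ (initMap c) hj (initMap_jump c j)).trans ?_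
  exact Category.comp_id (Wr.Hom.g φ i j.castSucc _)

theorem fac_last {r : ℕ} (c : Fin (r + 1) → C) {η : Wr C} (φ : η ⟶ (⟨r + 1, c⟩ : Wr C))
    (h : ∀ t, r ≤ (Wr.Hom.f φ t).1) : ∃ ψ : η ⟶ seg (c (Fin.last r)), ψ ≫ lastMap' c = φ := by
  let ψ : η ⟶ seg (c (Fin.last r)) := ({
    f := ⟨fun t => ⟨(Wr.Hom.f φ t).1 - r, by
        have e : (Wr.Hom.f φ t).1 < r + 1 + 1 := (Wr.Hom.f φ t).2
        show (Wr.Hom.f φ t).1 - r < 1 + 1
        omega⟩, fun t t' h' => by
        have e : (Wr.Hom.f φ t).1 ≤ (Wr.Hom.f φ t').1 := (Wr.Hom.f φ).monotone h'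
        show (Wr.Hom.f φ t).1 - r ≤ (Wr.Hom.f φ t').1 - r
        omega⟩
    g := fun i (j : Fin 1) hij => Wr.Hom.g φ i (Fin.last r) (by
      have e1 : (Wr.Hom.f φ i.castSucc).1 - r ≤ j.1 := hij.1
      have e2 : j.1 + 1 ≤ (Wr.Hom.f φ i.succ).1 - r := hij.2
      have e3 := j.2
      constructor
      · show (Wr.Hom.f φ i.castSucc).1 ≤ r
        omega
      · show r + 1 ≤ (Wr.Hom.f φ i.succ).1
        omega) } : Wr.Hom η (seg (c (Fin.last r))))
  have hf : Wr.Hom.f (ψ ≫ lastMap' c) = Wr.Hom.f φ := by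
    ext t
    show r + ((Wr.Hom.f φ t).1 - r) = (Wr.Hom.f φ t).1
    have := h t
    omega
  refine ⟨ψ, ?_⟩
  refine Wr.hom_ext' hf fun i (l : Fin (r + 1)) h1 h2 => ?_
  have hl : l.1 = r := by
    have e : (Wr.Hom.f φ i.castSucc).1 ≤ l.1 := h2.1
    have e' := h i.castSucc
    have e'' := l.2
    omega
  obtain rfl : l = Fin.last r := Fin.ext hl
  have e1 : (Wr.Hom.f φ i.castSucc).1 ≤ r := h2.1
  have e2 : r + 1 ≤ (Wr.Hom.f φ i.succ).1 := h2.2
  have hj : Jump (Wr.Hom.f ψ) i (0 : Fin 1) := by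
    constructor
    · show (Wr.Hom.f φ i.castSucc).1 - r ≤ 0
      omega
    · show 0 + 1 ≤ (Wr.Hom.f φ i.succ).1 - r
      omega
  refine (Wr.comp_g ψ (lastMap' c) hj (lastMap'_jump c 0)).trans ?_
  exact Category.comp_id (Wr.Hom.g φ i (Fin.last r) _)

theorem initMap_mono {r : ℕ} (c : Fin (r + 1) → C) {η : Wr C} (ψ ψ' : η ⟶ init c)
    (h : ψ ≫ initMap c = ψ' ≫ initMap c) : ψ = ψ' := by
  refine Wr.hom_ext' ?_ fun i j h1 h2 => ?_
  · ext t
    exact congrArg (fun z : η ⟶ (⟨r + 1, c⟩ : Wr C) => (Wr.Hom.f z t).1) h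
  · have e := g_congr h i j.castSucc (h1.comp (initMap_jump c j)) (h2.comp (initMap_jump c j))
    rw [Wr.comp_g ψ (initMap c) h1 (initMap_jump c j),
      Wr.comp_g ψ' (initMap c) h2 (initMap_jump c j)] at e
    exact ((Category.comp_id (Wr.Hom.g ψ i j h1)).symm.trans e).trans
      (Category.comp_id (Wr.Hom.g ψ' i j h2))

theorem lastMap'_mono {r : ℕ} (c : Fin (r + 1) → C) {η : Wr C} (ψ ψ' : η ⟶ seg (c (Fin.last r)))
    (h : ψ ≫ lastMap' c = ψ' ≫ lastMap' c) : ψ = ψ' := by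
  refine Wr.hom_ext' ?_ fun i j h1 h2 => ?_
  · ext t
    have e : r + (Wr.Hom.f ψ t).1 = r + (Wr.Hom.f ψ' t).1 :=
      congrArg (fun z : η ⟶ (⟨r + 1, c⟩ : Wr C) => (Wr.Hom.f z t).1) h
    omega
  · have e := g_congr h i (Fin.last r) (h1.comp (lastMap'_jump c j))
      (h2.comp (lastMap'_jump c j))
    rw [Wr.comp_g ψ (lastMap' c) h1 (lastMap'_jump c j),
      Wr.comp_g ψ' (lastMap' c) h2 (lastMap'_jump c j)] at e
    exact ((Category.comp_id (Wr.Hom.g ψ i j h1)).symm.trans e).trans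
      (Category.comp_id (Wr.Hom.g ψ' i j h2))

/-- A morphism with constant underlying map factors through `[0]`. -/
theorem eq_toPt_vtx {η θ : Wr C} (φ : η ⟶ θ) (v : Fin (θ.len + 1)) (h : ∀ t, Wr.Hom.f φ t = v) :
    φ = Wr.toPt η ≫ vtx θ v := by
  refine Wr.hom_ext' ?_ fun i j h1 h2 => ?_
  · ext t
    exact congrArg Fin.val (h t)
  · exfalso
    have e1 := h1.1
    have e2 := h1.2
    rw [h] at e1 e2
    exact absurd (e2.trans e1) (not_le.mpr (Fin.castSucc_lt_succ))

/-! ### The Segal maps of injectively fibrant presheaves are Kan fibrations -/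

/-- The inclusion of a sub-presheaf is an objectwise monomorphism. -/
theorem sb_mono {A : Type} [SmallCategory A] {P : SP A} (S : Sb P) (a : Aᵒᵖ) :
    Mono (S.ι.app a) := by
  have h : ∀ k, Mono ((S.ι.app a).app k) := fun k => by
    refine (mono_iff_injective _).2 fun p p' h => ?_
    exact Subtype.ext h
  exact NatTrans.mono_of_mono_app _

/-- The map `h_{[r](c)} ⊗ L ⟶ binSb ⊗ L`. -/
noncomputable def binA {r : ℕ} (c : Fin (r + 1) → C) (L : SSet.{0}) :
    tn (rep (init c)) L ⟶ tn (binSb c).toSP L where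
  app η :=
    { app := fun k => ↾ fun (z : (η.unop ⟶ init c) × L.obj k) => (⟨(z.1 ≫ initMap c :
        η.unop ⟶ (⟨r + 1, c⟩ : Wr C)), Or.inl fun t => Nat.le_of_lt_succ (Wr.Hom.f z.1 t).2⟩, z.2)
      naturality := fun _ _ _ => rfl }
  naturality η η' g := by
    refine NatTrans.ext (funext fun k => ?_)
    refine ConcreteCategory.hom_ext _ _ fun (z : (η.unop ⟶ init c) × L.obj k) => ?_
    refine Prod.ext (Subtype.ext ?_) rfl
    exact Category.assoc g.unop z.1 (initMap c)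

/-- The map `h_{[1](c_{r+1})} ⊗ L ⟶ binSb ⊗ L`. -/
noncomputable def binB {r : ℕ} (c : Fin (r + 1) → C) (L : SSet.{0}) :
    tn (rep (seg (c (Fin.last r)))) L ⟶ tn (binSb c).toSP L where
  app η :=
    { app := fun k => ↾ fun (z : (η.unop ⟶ seg (c (Fin.last r))) × L.obj k) =>
        (⟨(z.1 ≫ lastMap' c : η.unop ⟶ (⟨r + 1, c⟩ : Wr C)), Or.inr fun t =>
          Nat.le_add_right _ _⟩, z.2)
      naturality := fun _ _ _ => rfl }
  naturality η η' g := by
    refine NatTrans.ext (funext fun k => ?_)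
    refine ConcreteCategory.hom_ext _ _ fun (z : (η.unop ⟶ seg (c (Fin.last r))) × L.obj k) => ?_
    refine Prod.ext (Subtype.ext ?_) rfl
    exact Category.assoc g.unop z.1 (lastMap' c)

theorem binAB {r : ℕ} (c : Fin (r + 1) → C) {η : Wr C} (ψ : η ⟶ init c)
    (ψ' : η ⟶ seg (c (Fin.last r))) (h : ψ ≫ initMap c = ψ' ≫ lastMap' c) :
    ψ = Wr.toPt η ≫ vtx (init c) (Fin.last r) ∧
      ψ' = Wr.toPt η ≫ vtx (seg (c (Fin.last r))) 0 := by
  have e : ∀ t, (Wr.Hom.f ψ t).1 = r + (Wr.Hom.f ψ' t).1 := fun t =>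
    congrArg (fun z : η ⟶ (⟨r + 1, c⟩ : Wr C) => (Wr.Hom.f z t).1) h
  have e1 : ∀ t, (Wr.Hom.f ψ t).1 < r + 1 := fun t => (Wr.Hom.f ψ t).2
  constructor
  · refine eq_toPt_vtx ψ _ fun t => Fin.ext ?_
    have := e t
    have := e1 t
    show (Wr.Hom.f ψ t).1 = r
    omega
  · refine eq_toPt_vtx ψ' _ fun t => Fin.ext ?_
    have := e t
    have := e1 t
    show (Wr.Hom.f ψ' t).1 = 0
    omega

theorem binMap_lift {Y : SP (Wr C)} (hY : InjFib Y) {r : ℕ} (c : Fin (r + 1) → C)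
    {K L : SSet.{0}} (j : K ⟶ L) [Mono j] (hj : SSet.anodyneExtensions j) :
    HasLiftingProperty j (binMap Y c) := by
  refine ⟨fun {f g} sq => ?_⟩
  have hs : ∀ (η : (Wr C)ᵒᵖ) k (z : ((tn (binSb c).toSP L).obj η).obj k),
      (∃ p, ((binA c L).app η).app k p = z) ∨ ∃ q, ((binB c L).app η).app k q = z := by
    rintro η k ⟨⟨φ, h | h⟩, t⟩
    · obtain ⟨ψ, hψ⟩ := fac_init c (η := η.unop) φ h
      exact Or.inl ⟨(ψ, t), Prod.ext (Subtype.ext hψ) rfl⟩
    · obtain ⟨ψ, hψ⟩ := fac_last c (η := η.unop) φ h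
      exact Or.inr ⟨(ψ, t), Prod.ext (Subtype.ext hψ) rfl⟩
  obtain ⟨w, hw1, hw2⟩ := pglue (binA c L) (binB c L) hs
    (yA (g ≫ Fp.fst _ _)) (yA (g ≫ Fp.snd _ _))
    (by
      rintro η k ⟨ψ, t⟩ ⟨ψ', t'⟩ h
      have h1 := congrArg (fun z : ((tn (binSb c).toSP L).obj η).obj k => z.1.1) h
      have h2 : t = t' := congrArg (fun z : ((tn (binSb c).toSP L).obj η).obj k => z.2) h
      have h3 : ψ = ψ' := initMap_mono c (η := η.unop) ψ ψ' h1
      rw [h2, h3])
    (by
      rintro η k ⟨ψ, t⟩ ⟨ψ', t'⟩ h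
      have h1 := congrArg (fun z : ((tn (binSb c).toSP L).obj η).obj k => z.1.1) h
      have h2 : t = t' := congrArg (fun z : ((tn (binSb c).toSP L).obj η).obj k => z.2) h
      have h3 : ψ = ψ' := lastMap'_mono c (η := η.unop) ψ ψ' h1
      rw [h2, h3])
    (by
      rintro η k ⟨ψ, t⟩ ⟨ψ', t'⟩ h
      have h1 := congrArg (fun z : ((tn (binSb c).toSP L).obj η).obj k => z.1.1) h
      have h2 : t = t' := congrArg (fun z : ((tn (binSb c).toSP L).obj η).obj k => z.2) h
      obtain ⟨e1, e2⟩ := binAB c (η := η.unop) ψ ψ' h1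
      show (Y.map (Quiver.Hom.op (ψ : η.unop ⟶ init c))).app k _ =
        (Y.map (Quiver.Hom.op (ψ' : η.unop ⟶ seg (c (Fin.last r))))).app k _
      rw [h2, e1, e2, op_comp, op_comp, sp_comp, sp_comp]
      exact congrArg ((Y.map (Wr.toPt η.unop).op).app k) ((g.app k t').2))
  obtain ⟨l, hl1, hl2⟩ := exists_ext (binSb c).ι (fun a => sb_mono _ a) j
    (PPι_trivCof_of_anodyne deps _ j hj) hY w (yA f) (by
      refine NatTrans.ext (funext fun η => NatTrans.ext (funext fun k => ?_))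
      refine ConcreteCategory.hom_ext _ _ fun z => ?_
      obtain ⟨⟨φ, hφ⟩, t⟩ := z
      show (w.app η).app k (⟨φ, hφ⟩, j.app k t) =
        (Y.map (Quiver.Hom.op (φ : η.unop ⟶ (⟨r + 1, c⟩ : Wr C)))).app k (f.app k t)
      have e := ConcreteCategory.congr_hom (NatTrans.congr_app sq.w k) t
      rcases hs η k (⟨φ, hφ⟩, j.app k t) with ⟨⟨ψ, t'⟩, h⟩ | ⟨⟨ψ, t'⟩, h⟩
      · have h1 : ψ ≫ initMap c = φ :=
          congrArg (fun z : ((tn (binSb c).toSP L).obj η).obj k => z.1.1) h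
        have h2 : t' = j.app k t :=
          congrArg (fun z : ((tn (binSb c).toSP L).obj η).obj k => z.2) h
        rw [← h]
        refine (congrArg (fun q : tn (rep (init c)) L ⟶ Y => (q.app η).app k (ψ, t')) hw1).trans ?_
        show (Y.map (Quiver.Hom.op (ψ : η.unop ⟶ init c))).app k (g.app k t').1.1 = _
        rw [h2, ← h1, op_comp, sp_comp]
        refine congrArg ((Y.map (Quiver.Hom.op (ψ : η.unop ⟶ init c))).app k) ?_
        exact (congrArg (fun z => z.1.1) e).symm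
      · have h1 : ψ ≫ lastMap' c = φ :=
          congrArg (fun z : ((tn (binSb c).toSP L).obj η).obj k => z.1.1) h
        have h2 : t' = j.app k t :=
          congrArg (fun z : ((tn (binSb c).toSP L).obj η).obj k => z.2) h
        rw [← h]
        refine (congrArg (fun q : tn (rep (seg (c (Fin.last r)))) L ⟶ Y =>
          (q.app η).app k (ψ, t')) hw2).trans ?_
        show (Y.map (Quiver.Hom.op (ψ : η.unop ⟶ seg (c (Fin.last r))))).app k
          (g.app k t').1.2 = _
        rw [h2, ← h1, op_comp, sp_comp]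
        refine congrArg ((Y.map (Quiver.Hom.op
          (ψ : η.unop ⟶ seg (c (Fin.last r))))).app k) ?_
        exact (congrArg (fun z => z.1.2) e).symm)
  refine ⟨⟨{ l := yB l, fac_left := ?_, fac_right := ?_ }⟩⟩
  · refine NatTrans.ext (funext fun k => ?_)
    refine ConcreteCategory.hom_ext _ _ fun t => ?_
    refine (congrArg (fun q : tn (rep (⟨r + 1, c⟩ : Wr C)) K ⟶ Y =>
      (q.app (op (⟨r + 1, c⟩ : Wr C))).app k ((𝟙 (⟨r + 1, c⟩ : Wr C) :
        (⟨r + 1, c⟩ : Wr C) ⟶ ⟨r + 1, c⟩), t)) hl2).trans ?_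
    exact sp_id Y _
  · refine NatTrans.ext (funext fun k => ?_)
    refine ConcreteCategory.hom_ext _ _ fun t => ?_
    refine Subtype.ext (Prod.ext ?_ ?_)
    · refine (yB_map l (initMap c) k t).trans ?_
      have e1 := congrArg (fun q : tn (binSb c).toSP L ⟶ Y =>
        (q.app (op (init c))).app k (((binA c L).app (op (init c))).app k
          ((𝟙 (init c) : init c ⟶ init c), t))) hl1
      have e2 := congrArg (fun q : tn (rep (init c)) L ⟶ Y =>
        (q.app (op (init c))).app k ((𝟙 (init c) : init c ⟶ init c), t)) hw1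
      refine Eq.trans ?_ (e1.trans (e2.trans (sp_id Y _)))
      refine congrArg ((l.app (op (init c))).app k) (Prod.ext ?_ rfl)
      exact (Category.id_comp (initMap c)).symm
    · refine (yB_map l (lastMap' c) k t).trans ?_
      have e1 := congrArg (fun q : tn (binSb c).toSP L ⟶ Y =>
        (q.app (op (seg (c (Fin.last r))))).app k (((binB c L).app (op (seg (c (Fin.last r))))).app k
          ((𝟙 (seg (c (Fin.last r))) : seg (c (Fin.last r)) ⟶ seg (c (Fin.last r))), t))) hl1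
      have e2 := congrArg (fun q : tn (rep (seg (c (Fin.last r)))) L ⟶ Y =>
        (q.app (op (seg (c (Fin.last r))))).app k
          ((𝟙 (seg (c (Fin.last r))) : seg (c (Fin.last r)) ⟶ seg (c (Fin.last r))), t)) hw2
      refine Eq.trans ?_ (e1.trans (e2.trans (sp_id Y _)))
      refine congrArg ((l.app (op (seg (c (Fin.last r))))).app k) (Prod.ext ?_ rfl)
      exact (Category.id_comp (lastMap' c)).symm

theorem binMap_kanFib {Y : SP (Wr C)} (hY : InjFib Y) {r : ℕ} (c : Fin (r + 1) → C) :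
    KanFib (binMap Y c) := fun n i => binMap_lift hY c _ (horn_anodyne n i)

/-- A Kan fibration which is a homotopy equivalence with fibrant source is a trivial
fibration. -/
theorem trivFib_of_hoEq' {E B : SSet.{0}} {p : E ⟶ B} (hE : SSet.KanComplex E) (hp : KanFib p)
    (h : HoEq p) : TrivFib p := by
  have := Pool.Agent.Helper45.FL2.fibration_of_kanFib hp
  obtain ⟨s, H, hs, H0, H1, Hp⟩ := Pool.Agent.Helper45.FL2.exists_fibrewise h
  exact fun n => Pool.Agent.Helper45.FL2.lift_of_fibrewise hs H0 H1 Hp _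

theorem binMap_trivFib {Y : SP (Wr C)} (hY : InjFib Y) (hB : BSeg Y) {r : ℕ}
    (c : Fin (r + 1) → C) : TrivFib (binMap Y c) :=
  trivFib_of_hoEq' (objKan_of_injFib hY _) (binMap_kanFib hY c) (hB r c)

theorem Rs_binMap_trivFib {Y : SP (Wr C)} {S : SSet.{0}} (g : S ⟶ Y.obj (op Wr.pt)) {r : ℕ}
    (c : Fin (r + 1) → C) (h : TrivFib (binMap Y c)) : TrivFib (binMap (Rs Y g) c) := by
  intro n
  refine ⟨fun {f u} sq => ?_⟩
  have hn := h n
  let F : Fp ((Rs Y g).map (vtx (init c) (Fin.last r)).op)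
      ((Rs Y g).map (vtx (seg (c (Fin.last r))) 0).op) ⟶
      Fp (Y.map (vtx (init c) (Fin.last r)).op) (Y.map (vtx (seg (c (Fin.last r))) 0).op) :=
    Fp.map ((Rs.fst Y g).app _) ((Rs.fst Y g).app _) ((Rs.fst Y g).app _)
      ((Rs.fst Y g).naturality _).symm ((Rs.fst Y g).naturality _).symm
  have sq' : CommSq (f ≫ (Rs.fst Y g).app _) (SSet.boundary.{0} n).ι (binMap Y c) (u ≫ F) := ⟨by
    rw [← Category.assoc, ← sq.w]
    rfl⟩
  have e1 : ∀ k t, (sq'.lift.app k ((SSet.boundary.{0} n).ι.app k t)) = (f.app k t).1.1 :=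
    fun k t => ConcreteCategory.congr_hom (NatTrans.congr_app sq'.fac_left k) t
  have e2 : ∀ k t, (Y.map (initMap c).op).app k (sq'.lift.app k t) = (u.app k t).1.1.1.1 :=
    fun k t => congrArg (fun z => z.1.1)
      (ConcreteCategory.congr_hom (NatTrans.congr_app sq'.fac_right k) t)
  have e3 : ∀ k t, (Y.map (lastMap' c).op).app k (sq'.lift.app k t) = (u.app k t).1.2.1.1 :=
    fun k t => congrArg (fun z => z.1.2)
      (ConcreteCategory.congr_hom (NatTrans.congr_app sq'.fac_right k) t)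
  -- the values on the vertices
  let σ : ∀ (k : SimplexCategoryᵒᵖ) (t : (SSet.stdSimplex.obj (SimplexCategory.mk n)).obj k),
      Fin (r + 1 + 1) → S.obj k := fun k t => Fin.snoc (α := fun _ => S.obj k)
        ((u.app k t).1.1.1.2 : Fin (r + 1) → S.obj k) (((u.app k t).1.2.1.2 : Fin 2 → S.obj k) 1)
  have hσ1 : ∀ k t (i : Fin (r + 1)), σ k t i.castSucc =
      ((u.app k t).1.1.1.2 : Fin (r + 1) → S.obj k) i := fun k t i => Fin.snoc_castSucc _ _ _
  have hσ2 : ∀ k t, σ k t (Fin.last (r + 1)) = ((u.app k t).1.2.1.2 : Fin 2 → S.obj k) 1 :=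
    fun k t => Fin.snoc_last _ _
  have v1 : ∀ i : Fin (r + 1), vtx (⟨r + 1, c⟩ : Wr C) i.castSucc = vtx (init c) i ≫ initMap c :=
    fun i => (vtx_comp i (initMap c)).symm
  have v2 : vtx (⟨r + 1, c⟩ : Wr C) (Fin.last (r + 1)) =
      vtx (seg (c (Fin.last r))) 1 ≫ lastMap' c :=
    (vtx_comp 1 (lastMap' c)).symm
  have cond : ∀ k t (i : Fin (r + 1 + 1)), (Y.map (vtx (⟨r + 1, c⟩ : Wr C) i).op).app k
      (sq'.lift.app k t) = g.app k (σ k t i) := by
    intro k t i
    refine Fin.lastCases ?_ (fun i => ?_) i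
    · rw [v2, op_comp, sp_comp, e3, hσ2]
      exact (u.app k t).1.2.2 1
    · rw [v1, op_comp, sp_comp, e2, hσ1]
      exact (u.app k t).1.1.2 i
  let l : SSet.stdSimplex.obj (SimplexCategory.mk n) ⟶ (Rs Y g).obj (op ⟨r + 1, c⟩) :=
    { app := fun k => ↾ fun t => ⟨(sq'.lift.app k t, σ k t), cond k t⟩
      naturality := fun k k' α => by
        refine ConcreteCategory.hom_ext _ _ fun t => ?_
        refine Subtype.ext (Prod.ext (sset_nat sq'.lift α t) ?_)
        funext (i : Fin (r + 1 + 1))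
        have en := sset_nat u α t
        refine Fin.lastCases ?_ (fun i => ?_) i
        · refine (hσ2 _ _).trans (Eq.trans ?_ (congrArg (S.map α) (hσ2 _ _)).symm)
          exact congrArg (fun z : (Fp ((Rs Y g).map (vtx (init c) (Fin.last r)).op)
            ((Rs Y g).map (vtx (seg (c (Fin.last r))) 0).op)).obj k' =>
            (z.1.2.1.2 : Fin 2 → S.obj k') 1) en
        · refine (hσ1 _ _ i).trans (Eq.trans ?_ (congrArg (S.map α) (hσ1 _ _ i)).symm)
          exact congrArg (fun z : (Fp ((Rs Y g).map (vtx (init c) (Fin.last r)).op)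
            ((Rs Y g).map (vtx (seg (c (Fin.last r))) 0).op)).obj k' =>
            (z.1.1.1.2 : Fin (r + 1) → S.obj k') i) en }
  refine ⟨⟨{ l := l, fac_left := ?_, fac_right := ?_ }⟩⟩
  · refine NatTrans.ext (funext fun k => ?_)
    refine ConcreteCategory.hom_ext _ _ fun t => ?_
    refine Subtype.ext (Prod.ext (e1 k t) ?_)
    funext (i : Fin (r + 1 + 1))
    have e := ConcreteCategory.congr_hom (NatTrans.congr_app sq.w k) t
    refine Fin.lastCases ?_ (fun i => ?_) i
    · refine (hσ2 _ _).trans ?_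
      exact (congrArg (fun z : (Fp ((Rs Y g).map (vtx (init c) (Fin.last r)).op)
            ((Rs Y g).map (vtx (seg (c (Fin.last r))) 0).op)).obj k =>
            (z.1.2.1.2 : Fin 2 → S.obj k) 1) e).symm
    · refine (hσ1 _ _ i).trans ?_
      exact (congrArg (fun z : (Fp ((Rs Y g).map (vtx (init c) (Fin.last r)).op)
            ((Rs Y g).map (vtx (seg (c (Fin.last r))) 0).op)).obj k =>
            (z.1.1.1.2 : Fin (r + 1) → S.obj k) i) e).symm
  · refine NatTrans.ext (funext fun k => ?_)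
    refine ConcreteCategory.hom_ext _ _ fun t => ?_
    refine Subtype.ext (Prod.ext (Subtype.ext (Prod.ext (e2 k t) ?_))
      (Subtype.ext (Prod.ext (e3 k t) ?_)))
    · funext i
      exact hσ1 k t i
    · funext (i : Fin 2)
      rcases (by decide : ∀ i : Fin 2, i = 0 ∨ i = 1) i with rfl | rfl
      · refine (hσ1 k t (Fin.last r)).trans ?_
        exact congrArg (fun z : ((Rs Y g).obj (op Wr.pt)).obj k =>
          (z.1.2 : Fin 1 → S.obj k) 0) (u.app k t).2
      · exact hσ2 k t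

theorem Rs_bSeg {Y : SP (Wr C)} (hY : BSeg Y) (hY' : InjFib Y) {S : SSet.{0}}
    (_ : SSet.KanComplex S) (g : S ⟶ Y.obj (op Wr.pt)) : BSeg (Rs Y g) := fun _ c =>
  Pool.Agent.Helper45.FL2.TrivFib.hoEq (Rs_binMap_trivFib g c (binMap_trivFib hY' hY c))

/-! ### The free-standing isomorphism -/

theorem evE_kanFib {X : SP (Wr C)} (hX : InjFib X) : KanFib (evE X) := by
  intro n i
  refine ⟨fun {f g} sq => ?_⟩
  have := horn_anodyne n i
  -- the map on the vertices
  let u : tn (vertE C).toSP (SSet.stdSimplex.obj (SimplexCategory.mk (n + 1))) ⟶ X :=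
    { app := fun η =>
        { app := fun k => ↾ fun z => (X.map (Wr.toPt η.unop).op).app k
            (bif (z.1.1 : Fin (η.unop.len + 1) → Bool) 0 then (g.app k z.2).2 else (g.app k z.2).1)
          naturality := fun k l α => by
            refine ConcreteCategory.hom_ext _ _ fun z => ?_
            show (X.map (Wr.toPt η.unop).op).app l
              (bif (z.1.1 : Fin (η.unop.len + 1) → Bool) 0 then
                (g.app l ((SSet.stdSimplex.obj (SimplexCategory.mk (n + 1))).map α z.2)).2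
                else (g.app l ((SSet.stdSimplex.obj (SimplexCategory.mk (n + 1))).map α z.2)).1) =
              (X.obj η).map α ((X.map (Wr.toPt η.unop).op).app k
                (bif (z.1.1 : Fin (η.unop.len + 1) → Bool) 0 then (g.app k z.2).2
                  else (g.app k z.2).1))
            refine Eq.trans ?_ (sp_nat X (Wr.toPt η.unop).op α _)
            have e := sset_nat g α z.2
            cases (z.1.1 : Fin (η.unop.len + 1) → Bool) 0
            · exact congrArg ((X.map (Wr.toPt η.unop).op).app l) (congrArg Prod.fst e)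
            · exact congrArg ((X.map (Wr.toPt η.unop).op).app l) (congrArg Prod.snd e) }
      naturality := fun η η' φ => by
        refine NatTrans.ext (funext fun k => ?_)
        refine ConcreteCategory.hom_ext _ _ fun z => ?_
        obtain ⟨⟨w, v, hv⟩, t⟩ := z
        obtain rfl : w = fun _ => v := funext hv
        show (X.map (Wr.toPt η'.unop).op).app k
            (bif v then (g.app k t).2 else (g.app k t).1) =
          (X.map φ).app k ((X.map (Wr.toPt η.unop).op).app k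
            (bif v then (g.app k t).2 else (g.app k t).1))
        refine Eq.trans ?_ (sp_comp X _ _ _)
        refine congrArg (fun t => (X.map t).app k _) ?_
        exact Quiver.Hom.unop_inj (Wr.toPt_unique _ _) }
  obtain ⟨l, hl1, hl2⟩ := exists_ext (vertE C).ι (fun a => sb_mono _ a) (SSet.horn.{0} (n + 1) i).ι
    (PPι_trivCof_of_anodyne deps _ _ (horn_anodyne n i)) hX u (Mp.adj f) (by
      refine NatTrans.ext (funext fun η => NatTrans.ext (funext fun k => ?_))
      refine ConcreteCategory.hom_ext _ _ fun z => ?_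
      obtain ⟨⟨w, v, hv⟩, t⟩ := z
      obtain rfl : w = fun _ => v := funext hv
      have e := ConcreteCategory.congr_hom (NatTrans.congr_app sq.w k) t
      have e2 := (f.app k t : MpS (disc (isoPsh C)) X k.unop).nat_left (Wr.toPt η.unop).op k (𝟙 _)
        (fun _ => v)
      show (X.map (Wr.toPt η.unop).op).app k
            (bif v then (g.app k ((SSet.horn.{0} (n + 1) i).ι.app k t)).2
              else (g.app k ((SSet.horn.{0} (n + 1) i).ι.app k t)).1) =
        (f.app k t : MpS (disc (isoPsh C)) X k.unop).app η k (𝟙 _) (fun _ => v)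
      refine Eq.trans (congrArg ((X.map (Wr.toPt η.unop).op).app k) ?_) e2.symm
      cases v
      · exact (congrArg Prod.fst e).symm
      · exact (congrArg Prod.snd e).symm)
  refine ⟨⟨{ l := Mp.adj.symm l, fac_left := ?_, fac_right := ?_ }⟩⟩
  · apply Mp.adj.injective
    exact (Mp.adj_comp _ (Mp.adj.symm l)).trans
      ((congrArg (tnMap (𝟙 _) (SSet.horn.{0} (n + 1) i).ι ≫ ·)
        (Mp.adj.apply_symm_apply l)).trans hl2)
  · refine NatTrans.ext (funext fun k => ?_)
    refine ConcreteCategory.hom_ext _ _ fun t => ?_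
    have key : ∀ v : Bool, (l.app (op Wr.pt)).app k ((fun _ => v),
        (SSet.stdSimplex.obj (SimplexCategory.mk (n + 1))).map (𝟙 k.unop).op t) =
        bif v then (g.app k t).2 else (g.app k t).1 := by
      intro v
      have e := congrArg (fun q : tn (vertE C).toSP
        (SSet.stdSimplex.obj (SimplexCategory.mk (n + 1))) ⟶ X => (q.app (op Wr.pt)).app k
          (⟨fun _ => v, v, fun _ => rfl⟩, t)) hl1
      have e0 : (SSet.stdSimplex.obj (SimplexCategory.mk (n + 1)) : SSet.{0}).map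
        (𝟙 k.unop).op t = t := sset_id _ t
      rw [e0]
      refine e.trans ?_
      refine Eq.trans ?_ (sp_id X _)
      refine congrArg (fun t => (X.map t).app k _) ?_
      exact Quiver.Hom.unop_inj (Wr.toPt_unique _ _)
    exact Prod.ext (key false) (key true)

theorem hoEq_of_comp_isIso {K L M : SSet.{0}} {u : K ⟶ L} {v : L ⟶ M} [IsIso v]
    (h : HoEq (u ≫ v)) : HoEq u := by
  refine Pool.Agent.Helper88.FL.hoEq_of_arrow_iso (Iso.refl _) (asIso v).symm ?_ h
  rw [Iso.symm_hom, asIso_inv, Category.assoc, IsIso.hom_inv_id, Category.comp_id, Iso.refl_hom,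
    Category.id_comp]

/-- The comparison `Map(E, Y|_S) ⟶ Map(E, Y) ×_{Y([0])²} S²`. -/
noncomputable def evCmp (Y : SP (Wr C)) {S : SSet.{0}} (g : S ⟶ Y.obj (op Wr.pt)) :
    Mp (disc (isoPsh C)) (Rs Y g) ⟶ Fp (evE Y) (g ⊗ₘ g) where
  app k := ↾ fun (φ : MpS (disc (isoPsh C)) (Rs Y g) k.unop) =>
    ⟨((φ.comp (MpS.ofHom k.unop (Rs.fst Y g)) : MpS (disc (isoPsh C)) Y k.unop),
      (((φ.app (op Wr.pt) k (𝟙 _) fun _ => false).1.2 : Fin (0 + 1) → S.obj k) 0,
       ((φ.app (op Wr.pt) k (𝟙 _) fun _ => true).1.2 : Fin (0 + 1) → S.obj k) 0)), by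
      have key : ∀ v : Bool, (φ.app (op Wr.pt) k (𝟙 _) fun _ => v).1.1 =
          g.app k (((φ.app (op Wr.pt) k (𝟙 _) fun _ => v).1.2 : Fin (0 + 1) → S.obj k) 0) := by
        intro v
        refine Eq.trans ?_ ((φ.app (op Wr.pt) k (𝟙 _) fun _ => v).2 (0 : Fin (0 + 1)))
        refine (sp_id Y _).symm.trans ?_
        refine congrArg (fun t => (Y.map t).app k _) ?_
        exact Quiver.Hom.unop_inj (Wr.toPt_unique _ _)
      exact Prod.ext (key false) (key true)⟩
  naturality k l α := by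
    refine ConcreteCategory.hom_ext _ _ fun (φ : MpS (disc (isoPsh C)) (Rs Y g) k.unop) => ?_
    have key : ∀ v : Bool, φ.app (op Wr.pt) l (𝟙 _ ≫ α.unop) (fun _ => v) =
        ((Rs Y g).obj (op Wr.pt)).map α (φ.app (op Wr.pt) k (𝟙 _) fun _ => v) := by
      intro v
      refine Eq.trans ?_ (φ.nat_right (op Wr.pt) α (𝟙 _) fun _ => v)
      rw [Category.comp_id, Category.id_comp]
      rfl
    refine Subtype.ext (Prod.ext rfl (Prod.ext ?_ ?_))
    · exact congrArg (fun z : ((Rs Y g).obj (op Wr.pt)).obj l =>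
        (z.1.2 : Fin (0 + 1) → S.obj l) 0) (key false)
    · exact congrArg (fun z : ((Rs Y g).obj (op Wr.pt)).obj l =>
        (z.1.2 : Fin (0 + 1) → S.obj l) 0) (key true)

theorem evCmp_isIso (Y : SP (Wr C)) {S : SSet.{0}} (g : S ⟶ Y.obj (op Wr.pt)) :
    IsIso (evCmp Y g) := by
  have : ∀ k, IsIso ((evCmp Y g).app k) := by
    intro k
    rw [isIso_iff_bijective]
    constructor
    · intro (φ : MpS (disc (isoPsh C)) (Rs Y g) k.unop)
        (φ' : MpS (disc (isoPsh C)) (Rs Y g) k.unop) h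
      have h1 := congrArg (fun z => z.1.1) h
      have h2 := congrArg (fun z => z.1.2) h
      refine MpS.ext ?_
      funext η l s (w : Fin (η.unop.len + 1) → Bool)
      have hs : ∀ (φ : MpS (disc (isoPsh C)) (Rs Y g) k.unop) (i : Fin (η.unop.len + 1)),
          ((φ.app η l s w).1.2 : Fin (η.unop.len + 1) → S.obj l) i =
          S.map s.op (((φ.app (op Wr.pt) k (𝟙 _) fun _ => w i).1.2 : Fin (0 + 1) → S.obj k) 0) := by
        intro φ i
        have e1 := φ.nat_left (vtx η.unop i).op l s w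
        have e2 := φ.nat_right (op Wr.pt) s.op (𝟙 _) fun _ => w i
        have e3 : s.op.unop ≫ 𝟙 k.unop = s := Category.comp_id s
        rw [e3] at e2
        have e1' := congrArg (fun z : ((Rs Y g).obj (op Wr.pt)).obj l =>
          (z.1.2 : Fin (0 + 1) → S.obj l) 0) e1
        have e2' := congrArg (fun z : ((Rs Y g).obj (op Wr.pt)).obj l =>
          (z.1.2 : Fin (0 + 1) → S.obj l) 0) e2
        exact e1'.symm.trans e2'
      refine Subtype.ext (Prod.ext ?_ ?_)
      · exact congrFun (congrFun (congrFun (congrFun (congrArg MpS.app h1) η) l) s) w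
      · funext i
        refine (hs φ i).trans (Eq.trans ?_ (hs φ' i).symm)
        refine congrArg (S.map s.op) ?_
        cases w i
        · exact congrArg Prod.fst h2
        · exact congrArg Prod.snd h2
    · rintro ⟨⟨(ψ : MpS (disc (isoPsh C)) Y k.unop), ⟨(s0 : S.obj k), (s1 : S.obj k)⟩⟩, hψ⟩
      have hψ0 := congrArg Prod.fst hψ
      have hψ1 := congrArg Prod.snd hψ
      have cond : ∀ (η : (Wr C)ᵒᵖ) (l : SimplexCategoryᵒᵖ) (s : l.unop ⟶ k.unop)
          (w : Fin (η.unop.len + 1) → Bool) (i : Fin (η.unop.len + 1)),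
          (Y.map (vtx η.unop i).op).app l (ψ.app η l s w) =
            g.app l (S.map s.op (bif w i then s1 else s0)) := by
        intro η l s w i
        have e1 := ψ.nat_left (vtx η.unop i).op l s w
        have e2 := ψ.nat_right (op Wr.pt) s.op (𝟙 _) fun _ => w i
        have e3 : s.op.unop ≫ 𝟙 k.unop = s := Category.comp_id s
        rw [e3] at e2
        refine e1.symm.trans (e2.trans ?_)
        refine Eq.trans ?_ (sset_nat g s.op _).symm
        refine congrArg ((Y.obj (op Wr.pt)).map s.op) ?_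
        cases w i
        · exact hψ0
        · exact hψ1
      refine ⟨(⟨fun η l s w => ⟨(ψ.app η l s w, fun i =>
        S.map s.op (bif (w : Fin (η.unop.len + 1) → Bool) i then s1 else s0)),
          fun i => cond η l s w i⟩, ?_, ?_⟩ : MpS (disc (isoPsh C)) (Rs Y g) k.unop), ?_⟩
      · intro η η' f l s w
        exact Subtype.ext (Prod.ext (ψ.nat_left f l s w) rfl)
      · intro η l m u s w
        refine Subtype.ext (Prod.ext (ψ.nat_right η u s w) ?_)
        funext i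
        exact sset_comp S s.op u _
      · refine Subtype.ext (Prod.ext rfl (Prod.ext ?_ ?_))
        · exact sset_id S s0
        · exact sset_id S s1
  exact NatIso.isIso_of_isIso_app _

/-- Fully faithful maps of Segal presheaves are cartesian over the space of equivalences, with
the statements of modules V1 and V2 used as hypotheses. -/
theorem ff_evE_of
    (hvf : ∀ {X : SP (Wr C)}, InjFib X → VFib X)
    (hob : ∀ {X Y : SP (Wr C)}, VFib X → VFib Y → BSeg X → BSeg Y → ∀ {f : X ⟶ Y},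
      HoEq (f.app (op Wr.pt)) → ∀ (O : Set (Vt X)),
      (∀ z : Vt X, ∃ x ∈ O, Cn (X.obj (op Wr.pt)) x z) →
      (∀ x ∈ O, ∀ y ∈ O, ObjHoEq (HmMap f x y)) → ObjHoEq f)
    {X Y : SP (Wr C)} (hX : InjFib X) (hY : InjFib Y) (hX' : BSeg X) (hY' : BSeg Y)
    (f : X ⟶ Y) (h : ∀ x y : Vt X, ObjHoEq (HmMap f x y)) :
    HoEq (Fp.lift (Mp.post (disc (isoPsh C)) f) (evE X) (evE_post f) :
      Mp (disc (isoPsh C)) X ⟶ Fp (evE Y) (f.app (op Wr.pt) ⊗ₘ f.app (op Wr.pt))) := by
  have kS : SSet.KanComplex (X.obj (op Wr.pt)) := objKan_of_injFib hX _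
  have hR : InjFib (Rs Y (f.app (op Wr.pt))) := Rs_injFib hY kS _
  have hO : ObjHoEq (toRs f) := by
    refine hob (hvf hX) (hvf hR) hX' (Rs_bSeg hY' hY kS _) ?_ Set.univ
      (fun z => ⟨z, trivial, cn_refl z⟩) fun x _ y _ c => ?_
    · have : IsIso ((toRs f).app (op Wr.pt)) := by
        obtain ⟨e, he⟩ := Rs_pt (C := C) (Y := Y) (f.app (op Wr.pt))
        have e1 : (toRs f).app (op Wr.pt) = e.hom := by
          refine NatTrans.ext (funext fun k => ?_)
          refine ConcreteCategory.hom_ext _ _ fun x => ?_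
          refine Subtype.ext (Eq.trans ?_ (he k x).symm)
          refine Prod.ext rfl ?_
          funext i
          refine Eq.trans ?_ (sp_id X x)
          refine congrArg (fun t => (X.map t).app k x) ?_
          exact Quiver.Hom.unop_inj (Wr.toPt_unique _ _)
        rw [e1]
        infer_instance
      exact Pool.Agent.Helper88.FL.hoEq_of_isIso _
    · have h1 := Rs_Hm_isIso (f.app (op Wr.pt)) (vtMap (toRs f) x) (vtMap (toRs f) y)
      have h2 : IsIso ((HmMap (Rs.fst Y (f.app (op Wr.pt))) (vtMap (toRs f) x)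
        (vtMap (toRs f) y)).app c) := inferInstance
      have h3 : HoEq ((HmMap (toRs f) x y).app c ≫ (HmMap (Rs.fst Y (f.app (op Wr.pt)))
        (vtMap (toRs f) x) (vtMap (toRs f) y)).app c) := h x y c
      exact hoEq_of_comp_isIso h3
  have hP : HoEq (Mp.post (disc (isoPsh C)) (toRs f)) := post_hoEq hX hR hO _
  have := evCmp_isIso Y (f.app (op Wr.pt))
  refine Pool.Agent.Helper88.FL.hoEq_of_arrow_iso (Iso.refl _)
    (asIso (evCmp Y (f.app (op Wr.pt)))) ?_ hP
  rw [Iso.refl_hom, Category.id_comp, asIso_hom]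
  refine NatTrans.ext (funext fun k => ?_)
  refine ConcreteCategory.hom_ext _ _ fun (φ : MpS (disc (isoPsh C)) X k.unop) => ?_
  refine Subtype.ext (Prod.ext rfl (Prod.ext ?_ ?_))
  · refine Eq.trans ?_ (sp_id X _)
    refine congrArg (fun t => (X.map t).app k _) ?_
    exact Quiver.Hom.unop_inj (Wr.toPt_unique _ _)
  · refine Eq.trans ?_ (sp_id X _)
    refine congrArg (fun t => (X.map t).app k _) ?_
    exact Quiver.Hom.unop_inj (Wr.toPt_unique _ _)

end Pool.Agent.Helper91.FL2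
end

/- Helper91.FL2.Comp0A -/
section
/-!
# FL2, module C5 COMP0, first part: fibres of maps of Kan fibrations
-/

open CategoryTheory MonoidalCategory Opposite

set_option autoImplicit false

namespace Pool.Agent.Helper91.FL2

open _root_.FL
open Pool.Agent.Helper54.FL2 (Fb_map_hoEq hoEq_of_fibres Fp_snd_kanFib)

/-- Fibres described by the same condition. -/
def fbIso {E B B' : SSet.{0}} (p : E ⟶ B) (p' : E ⟶ B') (b : B.obj (op (SimplexCategory.mk 0)))
    (b' : B'.obj (op (SimplexCategory.mk 0)))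
    (h : ∀ (k : SimplexCategoryᵒᵖ) (z : E.obj k), p.app k z = cst B b k ↔ p'.app k z = cst B' b' k) :
    Fb p b ≅ Fb p' b' where
  hom := { app := fun k => ↾ fun z => ⟨z.1, (h k z.1).1 z.2⟩, naturality := fun _ _ _ => rfl }
  inv := { app := fun k => ↾ fun z => ⟨z.1, (h k z.1).2 z.2⟩, naturality := fun _ _ _ => rfl }
  hom_inv_id := rfl
  inv_hom_id := rfl

/-- The fibres of the second projection of a fibre product. -/
def fbSnd {E B B' : SSet.{0}} (p : E ⟶ B) (q : B' ⟶ B) (b : B'.obj (op (SimplexCategory.mk 0))) :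
    Fb (Fp.snd p q) b ≅ Fb p (q.app _ b) where
  hom :=
    { app := fun k => ↾ fun z => ⟨z.1.1.1, by
        have h1 : p.app k z.1.1.1 = q.app k z.1.1.2 := z.1.2
        have h2 : z.1.1.2 = cst B' b k := z.2
        rw [h1, h2, app_cst]⟩
      naturality := fun _ _ _ => rfl }
  inv :=
    { app := fun k => ↾ fun z => ⟨⟨(z.1, cst B' b k), by rw [app_cst]; exact z.2⟩, rfl⟩
      naturality := fun k l α => by
        refine ConcreteCategory.hom_ext _ _ fun z => ?_
        refine Subtype.ext (Subtype.ext (Prod.ext rfl ?_))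
        exact (cst_map B' b α).symm }
  hom_inv_id := by
    refine NatTrans.ext (funext fun k => ?_)
    refine ConcreteCategory.hom_ext _ _ fun z => ?_
    refine Subtype.ext (Subtype.ext (Prod.ext rfl ?_))
    exact z.2.symm
  inv_hom_id := rfl

/-- If `E₁ ⟶ E₂ ×_{B₂} B₁` is an equivalence, so are the maps of fibres. -/
theorem fb_of_fp {E₁ E₂ B₁ B₂ : SSet.{0}} {p₁ : E₁ ⟶ B₁} {p₂ : E₂ ⟶ B₂} (h₁ : KanFib p₁)
    (h₂ : KanFib p₂) (hB : SSet.KanComplex B₁) (F : E₁ ⟶ E₂) (G : B₁ ⟶ B₂)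
    (w : F ≫ p₂ = p₁ ≫ G) (h : HoEq (Fp.lift F p₁ w : E₁ ⟶ Fp p₂ G))
    (b : B₁.obj (op (SimplexCategory.mk 0))) : HoEq (Fb.map F G w b) := by
  have e := Fb_map_hoEq h₁ (Fp_snd_kanFib p₂ G h₂) hB hB (Fp.lift F p₁ w) (𝟙 B₁) rfl h
    (Pool.Agent.Helper88.FL.hoEq_of_isIso _) b
  exact Pool.Agent.Helper88.FL.hoEq_of_arrow_iso (Iso.refl _) (fbSnd p₂ G b) rfl e

/-- Change of the bases. -/
theorem fb_change {E₁ E₂ B₁ B₂ B₁' B₂' : SSet.{0}} {p₁ : E₁ ⟶ B₁} {p₂ : E₂ ⟶ B₂}
    (F : E₁ ⟶ E₂) (G : B₁ ⟶ B₂) (w : F ≫ p₂ = p₁ ≫ G) {p₁' : E₁ ⟶ B₁'} {p₂' : E₂ ⟶ B₂'}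
    (G' : B₁' ⟶ B₂') (w' : F ≫ p₂' = p₁' ≫ G') (e₁ : B₁ ⟶ B₁') (e₂ : B₂ ⟶ B₂')
    (h₁ : p₁ ≫ e₁ = p₁') (h₂ : p₂ ≫ e₂ = p₂') (hG : G ≫ e₂ = e₁ ≫ G')
    (i₁ : ∀ k, Function.Injective (e₁.app k)) (i₂ : ∀ k, Function.Injective (e₂.app k))
    (b : B₁.obj (op (SimplexCategory.mk 0))) (h : HoEq (Fb.map F G w b)) :
    HoEq (Fb.map F G' w' (e₁.app _ b)) := by
  subst h₁ h₂
  refine Pool.Agent.Helper88.FL.hoEq_of_arrow_iso
    (fbIso p₁ (p₁ ≫ e₁) b (e₁.app _ b) fun k z => ?_)
    (fbIso p₂ (p₂ ≫ e₂) (G.app _ b) (G'.app _ (e₁.app _ b)) fun k z => ?_) rfl h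
  · constructor
    · intro hz
      refine Eq.trans ?_ (app_cst e₁ b k)
      exact congrArg (e₁.app k) hz
    · intro hz
      refine i₁ k ?_
      exact hz.trans (app_cst e₁ b k).symm
  · have hb : e₂.app _ (G.app _ b) = G'.app _ (e₁.app _ b) :=
      ConcreteCategory.congr_hom (NatTrans.congr_app hG _) b
    rw [← hb]
    constructor
    · intro hz
      refine Eq.trans ?_ (app_cst e₂ _ k)
      exact congrArg (e₂.app k) hz
    · intro hz
      refine i₂ k ?_
      exact hz.trans (app_cst e₂ _ k).symm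

/-- Maps of simplicial sets which are bijective on simplices are isomorphisms. -/
theorem isIso_of_bij {K L : SSet.{0}} (f : K ⟶ L) (h : ∀ k, Function.Bijective (f.app k)) :
    IsIso f := by
  have : ∀ k, IsIso (f.app k) := fun k => (isIso_iff_bijective _).2 (h k)
  exact NatIso.isIso_of_isIso_app _

end Pool.Agent.Helper91.FL2
end

/- Helper91.FL2.Comp0B -/
section
/-!
# FL2, module C5 COMP0, second part: the space `Yc ((E0 C).obj E) X`
-/

open CategoryTheory MonoidalCategory Opposite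

set_option autoImplicit false

namespace Pool.Agent.Helper91.FL2

open _root_.FL

noncomputable section

variable {C : Type} [SmallCategory C]

/-- The vertex `b` of `E`. -/
def aE (C : Type) [SmallCategory C] (b : Bool) : rep (Wr.pt : Wr C) ⟶ disc (isoPsh C) where
  app θ :=
    { app := fun _ => ↾ fun _ => (fun _ => b : Fin (θ.unop.len + 1) → Bool)
      naturality := fun _ _ _ => rfl }
  naturality _ _ _ := rfl

/-- The vertex `b` of `{0, 1} ⊆ E`. -/
def aD (C : Type) [SmallCategory C] (b : Bool) : rep (Wr.pt : Wr C) ⟶ (vertE C).toSP where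
  app θ :=
    { app := fun _ => ↾ fun _ => ⟨(fun _ => b : Fin (θ.unop.len + 1) → Bool), b, fun _ => rfl⟩
      naturality := fun _ _ _ => rfl }
  naturality _ _ _ := rfl

/-- The map to the point. -/
def toPtP (Q : SP (Wr C)) : Q ⟶ rep (Wr.pt : Wr C) where
  app θ :=
    { app := fun _ => ↾ fun _ => (Wr.toPt θ.unop : θ.unop ⟶ Wr.pt)
      naturality := fun _ _ _ => rfl }
  naturality θ θ' φ := by
    refine NatTrans.ext (funext fun k => ?_)
    refine ConcreteCategory.hom_ext _ _ fun z => ?_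
    exact (Wr.toPt_unique _ _ : (Wr.toPt θ'.unop : θ'.unop ⟶ Wr.pt) = φ.unop ≫ Wr.toPt θ.unop)

/-- The space of objects of `Kf (T0 C) X`. -/
abbrev K0 (X : SP (Wr C)) : SSet.{0} := Yc ((E0 C).obj (rep (Wr.pt : Wr C))) X

/-- The two vertices. -/
def evP (X : SP (Wr C)) : Yc ((E0 C).obj (disc (isoPsh C))) X ⟶ K0 X ⊗ K0 X :=
  CartesianMonoidalCategory.lift (Yc.pre ((E0 C).map (aE C false)) X)
    (Yc.pre ((E0 C).map (aE C true)) X)

/-- The two vertices, for `{0, 1}`. -/
def evPD (X : SP (Wr C)) : Yc ((E0 C).obj (vertE C).toSP) X ⟶ K0 X ⊗ K0 X :=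
  CartesianMonoidalCategory.lift (Yc.pre ((E0 C).map (aD C false)) X)
    (Yc.pre ((E0 C).map (aD C true)) X)

theorem pre_evPD (X : SP (Wr C)) :
    Yc.pre ((E0 C).map (vertE C).ι) X ≫ evPD X = evP X := rfl

/-- The inverse of `evPD`. -/
def invPD {X : SP (Wr C)} {m : SimplexCategory} (φ : Bool → MpS (E0o (rep (Wr.pt : Wr C)) m) X m) :
    MpS (E0o (vertE C).toSP m) X m where
  app θ k s z := (φ ((z.1.1 : Fin (θ.unop.len + 1) → Bool) 0)).app θ k s
    ((Wr.toPt θ.unop : θ.unop ⟶ Wr.pt), z.2)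
  nat_left {θ θ'} f k s z := by
    obtain ⟨⟨w, v, hw⟩, u⟩ := z
    have hv : (w : Fin (θ.unop.len + 1) → Bool) 0 = v := hw 0
    have hv' : ((((vertE C).toSP.map f).app k ⟨w, v, hw⟩ :
      ((vertE C).toSP.obj θ').obj k).1 : Fin (θ'.unop.len + 1) → Bool) 0 = v := hw _
    show (φ (((((vertE C).toSP.map f).app k ⟨w, v, hw⟩ :
      ((vertE C).toSP.obj θ').obj k).1 : Fin (θ'.unop.len + 1) → Bool) 0)).app θ' k s
        ((Wr.toPt θ'.unop : θ'.unop ⟶ Wr.pt), fun i => u (Wr.Hom.f f.unop i)) =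
      (X.map f).app k ((φ ((w : Fin (θ.unop.len + 1) → Bool) 0)).app θ k s
        ((Wr.toPt θ.unop : θ.unop ⟶ Wr.pt), u))
    rw [hv, hv']
    refine Eq.trans ?_ ((φ v).nat_left f k s ((Wr.toPt θ.unop : θ.unop ⟶ Wr.pt), u))
    refine congrArg ((φ v).app θ' k s) ?_
    exact Prod.ext (Wr.toPt_unique _ _) rfl
  nat_right θ k l g s z := by
    exact (φ ((z.1.1 : Fin (θ.unop.len + 1) → Bool) 0)).nat_right θ g s
      ((Wr.toPt θ.unop : θ.unop ⟶ Wr.pt), z.2)

theorem evPD_bij (X : SP (Wr C)) (k : SimplexCategoryᵒᵖ) :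
    Function.Bijective ((evPD X).app k) := by
  constructor
  · intro (φ : MpS (E0o (vertE C).toSP k.unop) X k.unop)
      (φ' : MpS (E0o (vertE C).toSP k.unop) X k.unop) h
    refine MpS.ext ?_
    funext η l s z
    obtain ⟨⟨w, v, hw⟩, u⟩ := z
    have h' : ∀ b : Bool, φ.app η l s (⟨(fun _ => b : Fin (η.unop.len + 1) → Bool), b,
        fun _ => rfl⟩, u) = φ'.app η l s (⟨(fun _ => b : Fin (η.unop.len + 1) → Bool), b,
        fun _ => rfl⟩, u) := by
      intro b
      have h1 : (Yc.pre ((E0 C).map (aD C b)) X).app k φ =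
          (Yc.pre ((E0 C).map (aD C b)) X).app k φ' := by
        cases b
        · exact congrArg Prod.fst h
        · exact congrArg Prod.snd h
      exact congrFun (congrFun (congrFun (congrFun (congrArg MpS.app h1) η) l) s)
        ((Wr.toPt η.unop : η.unop ⟶ Wr.pt), u)
    obtain rfl : w = (fun _ => v : Fin (η.unop.len + 1) → Bool) := funext hw
    exact h' v
  · rintro ⟨(φ0 : MpS (E0o (rep (Wr.pt : Wr C)) k.unop) X k.unop),
      (φ1 : MpS (E0o (rep (Wr.pt : Wr C)) k.unop) X k.unop)⟩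
    refine ⟨invPD fun b => bif b then φ1 else φ0, ?_⟩
    refine Prod.ext ?_ ?_
    · refine MpS.ext ?_
      funext η l s z
      refine congrArg (φ0.app η l s) ?_
      exact Prod.ext (Wr.toPt_unique _ _) rfl
    · refine MpS.ext ?_
      funext η l s z
      refine congrArg (φ1.app η l s) ?_
      exact Prod.ext (Wr.toPt_unique _ _) rfl

/-- The two vertices, for maps `{0, 1} ⟶ X`. -/
def evD (X : SP (Wr C)) :
    Mp (vertE C).toSP X ⟶ X.obj (op Wr.pt) ⊗ X.obj (op Wr.pt) where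
  app m := ↾ fun (φ : MpS (vertE C).toSP X m.unop) =>
    (φ.app (op Wr.pt) m (𝟙 _) ⟨fun _ => false, false, fun _ => rfl⟩,
      φ.app (op Wr.pt) m (𝟙 _) ⟨fun _ => true, true, fun _ => rfl⟩)
  naturality m m' α := by
    refine ConcreteCategory.hom_ext _ _ fun (φ : MpS (vertE C).toSP X m.unop) => ?_
    have key : ∀ b : Bool, φ.app (op Wr.pt) m' (𝟙 _ ≫ α.unop)
        ⟨fun _ => b, b, fun _ => rfl⟩ =
        (X.obj (op Wr.pt)).map α (φ.app (op Wr.pt) m (𝟙 _) ⟨fun _ => b, b, fun _ => rfl⟩) := by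
      intro b
      refine Eq.trans ?_ (φ.nat_right (op Wr.pt) α (𝟙 _) ⟨fun _ => b, b, fun _ => rfl⟩)
      rw [Category.comp_id, Category.id_comp]
      rfl
    exact Prod.ext (key false) (key true)

theorem pre_evD (X : SP (Wr C)) : Mp.pre (vertE C).ι X ≫ evD X = evE X := rfl

theorem evD_inj (X : SP (Wr C)) (k : SimplexCategoryᵒᵖ) :
    Function.Injective ((evD X).app k) := by
  intro (φ : MpS (vertE C).toSP X k.unop) (φ' : MpS (vertE C).toSP X k.unop) h
  refine MpS.ext ?_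
  funext η l s z
  obtain ⟨w, v, hw⟩ := z
  obtain rfl : w = (fun _ => v : Fin (η.unop.len + 1) → Bool) := funext hw
  have h1 : φ.app (op Wr.pt) k (𝟙 _) ⟨fun _ => v, v, fun _ => rfl⟩ =
      φ'.app (op Wr.pt) k (𝟙 _) ⟨fun _ => v, v, fun _ => rfl⟩ := by
    cases v
    · exact congrArg Prod.fst h
    · exact congrArg Prod.snd h
  have key : ∀ ψ : MpS (vertE C).toSP X k.unop,
      ψ.app η l s ⟨fun _ => v, v, hw⟩ = (X.map (Wr.toPt η.unop).op).app l
        ((X.obj (op Wr.pt)).map s.op (ψ.app (op Wr.pt) k (𝟙 _) ⟨fun _ => v, v, fun _ => rfl⟩)) := by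
    intro ψ
    have e1 := ψ.nat_left (Wr.toPt η.unop).op l s ⟨fun _ => v, v, fun _ => rfl⟩
    have e2 := ψ.nat_right (op Wr.pt) s.op (𝟙 _) ⟨fun _ => v, v, fun _ => rfl⟩
    have e3 : s.op.unop ≫ 𝟙 k.unop = s := Category.comp_id s
    rw [e3] at e2
    exact e1.trans (congrArg ((X.map (Wr.toPt η.unop).op).app l) e2)
  rw [key φ, key φ', h1]

theorem evD_surj (X : SP (Wr C)) (k : SimplexCategoryᵒᵖ) :
    Function.Surjective ((evD X).app k) := by
  rintro ⟨(x0 : (X.obj (op Wr.pt)).obj k), (x1 : (X.obj (op Wr.pt)).obj k)⟩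
  refine ⟨(⟨fun η l s z => (X.map (Wr.toPt η.unop).op).app l
      ((X.obj (op Wr.pt)).map s.op (bif (z.1 : Fin (η.unop.len + 1) → Bool) 0 then x1 else x0)),
      ?_, ?_⟩ : MpS (vertE C).toSP X k.unop), ?_⟩
  · rintro η η' f l s ⟨w, v, hw⟩
    have hv : (w : Fin (η.unop.len + 1) → Bool) 0 = v := hw 0
    have hv' : ((((vertE C).toSP.map f).app l ⟨w, v, hw⟩ :
      ((vertE C).toSP.obj η').obj l).1 : Fin (η'.unop.len + 1) → Bool) 0 = v := hw _
    refine Eq.trans (congrArg (fun b : Bool => (X.map (Wr.toPt η'.unop).op).app l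
      ((X.obj (op Wr.pt)).map s.op (bif b then x1 else x0))) hv') ?_
    refine Eq.trans ?_ (congrArg (fun b : Bool => (X.map f).app l
      ((X.map (Wr.toPt η.unop).op).app l ((X.obj (op Wr.pt)).map s.op (bif b then x1 else x0))))
        hv.symm)
    refine Eq.trans ?_ (sp_comp X (Wr.toPt η.unop).op f _)
    refine congrArg (fun q => (X.map q).app l _) ?_
    exact Quiver.Hom.unop_inj (Wr.toPt_unique _ _)
  · rintro η l m g s ⟨w, v, hw⟩
    refine Eq.trans ?_ (sp_nat X (Wr.toPt η.unop).op g _)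
    refine congrArg ((X.map (Wr.toPt η.unop).op).app m) ?_
    exact sset_comp (X.obj (op Wr.pt)) s.op g _
  · refine Prod.ext ?_ ?_
    · show (X.map (Wr.toPt Wr.pt).op).app k ((X.obj (op Wr.pt)).map (𝟙 _) x0) = x0
      rw [sset_id, Wr.toPt_unique (Wr.toPt Wr.pt) (𝟙 _)]
      exact sp_id X x0
    · show (X.map (Wr.toPt Wr.pt).op).app k ((X.obj (op Wr.pt)).map (𝟙 _) x1) = x1
      rw [sset_id, Wr.toPt_unique (Wr.toPt Wr.pt) (𝟙 _)]
      exact sp_id X x1

/-- The map `Map(P × E[•], X) ⟶ Map(Q, Kf (T0 C) X)`, on simplices. -/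
def LamS (Q : SP (Wr C)) {X : SP (Wr C)} {m : SimplexCategory} (ψ : MpS (E0o Q m) X m) :
    MpS Q (Kf (T0 C) X) m where
  app θ k s e :=
    ({ app := fun η l t (z : (η.unop ⟶ θ.unop) × (Fin (η.unop.len + 1) → Fin (k.unop.len + 1))) =>
        ψ.app η l (t ≫ s) ((Q.map (Quiver.Hom.op z.1)).app l ((Q.obj θ).map t.op e),
          fun i => s.toOrderHom (z.2 i))
       nat_left := fun {η η'} f l t z => by
        refine Eq.trans ?_ (ψ.nat_left f l (t ≫ s) _)
        refine congrArg (ψ.app η' l (t ≫ s)) ?_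
        exact Prod.ext (sp_comp Q (Quiver.Hom.op z.1) f _) rfl
       nat_right := fun η {l l'} g t z => by
        refine Eq.trans ?_ (ψ.nat_right η g (t ≫ s) _)
        refine congrArg (ψ.app η l' (g.unop ≫ t ≫ s)) ?_
        refine Prod.ext ?_ rfl
        refine Eq.trans ?_ (sp_nat Q (Quiver.Hom.op z.1) g _)
        exact congrArg ((Q.map (Quiver.Hom.op z.1)).app l') (sset_comp (Q.obj θ) t.op g e) } :
      MpS (E0o (rep θ.unop) k.unop) X k.unop)
  nat_left {θ θ'} f k s e := by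
    refine MpS.ext ?_
    funext η l t (z : (η.unop ⟶ θ'.unop) × (Fin (η.unop.len + 1) → Fin (k.unop.len + 1)))
    refine congrArg (ψ.app η l (t ≫ s)) ?_
    refine Prod.ext ?_ rfl
    show (Q.map (Quiver.Hom.op z.1)).app l ((Q.obj θ').map t.op ((Q.map f).app k e)) =
      (Q.map (Quiver.Hom.op (z.1 ≫ f.unop))).app l ((Q.obj θ).map t.op e)
    rw [← sp_nat, ← sp_comp]
    rfl
  nat_right θ k l g s e := by
    refine MpS.ext ?_
    funext η l' t (z : (η.unop ⟶ θ.unop) × (Fin (η.unop.len + 1) → Fin (l.unop.len + 1)))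
    refine Eq.trans ?_ (congrArg (fun r => ψ.app η l' r
      ((Q.map (Quiver.Hom.op z.1)).app l' ((Q.obj θ).map (g ≫ t.op) e),
        fun i => s.toOrderHom (g.unop.toOrderHom (z.2 i)))) (Category.assoc t g.unop s).symm)
    refine congrArg (ψ.app η l' (t ≫ g.unop ≫ s)) ?_
    refine Prod.ext ?_ rfl
    exact congrArg ((Q.map (Quiver.Hom.op z.1)).app l') (sset_comp (Q.obj θ) g t.op e).symm

/-- The map `Map(P × E[•], X) ⟶ Map(Q, Kf (T0 C) X)`. -/
def Lam (Q X : SP (Wr C)) : Yc ((E0 C).obj Q) X ⟶ Mp Q (Kf (T0 C) X) where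
  app m := ↾ fun (ψ : MpS (E0o Q m.unop) X m.unop) => LamS Q ψ
  naturality _ _ _ := rfl

theorem augY_Lam (Q X : SP (Wr C)) :
    augY Q X ≫ Lam Q X = Mp.post Q ((SFun.ofFrame (T0 C) (T0aug C)).η X) := by
  refine NatTrans.ext (funext fun m => ?_)
  refine ConcreteCategory.hom_ext _ _ fun (φ : MpS Q X m.unop) => ?_
  refine MpS.ext ?_
  funext θ k s e
  refine MpS.ext ?_
  funext η l t (z : (η.unop ⟶ θ.unop) × (Fin (η.unop.len + 1) → Fin (k.unop.len + 1)))
  show φ.app η l (t ≫ s) ((Q.map (Quiver.Hom.op z.1)).app l ((Q.obj θ).map t.op e)) =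
    (X.map (Quiver.Hom.op z.1)).app l ((X.obj θ).map t.op (φ.app θ k s e))
  rw [φ.nat_left]
  refine congrArg ((X.map (Quiver.Hom.op z.1)).app l) ?_
  exact φ.nat_right θ t.op s e

theorem Lam_evE (X : SP (Wr C)) :
    Lam (disc (isoPsh C)) X ≫ evE (Kf (T0 C) X) = evP X := by
  refine NatTrans.ext (funext fun m => ?_)
  refine ConcreteCategory.hom_ext _ _ fun
    (ψ : MpS (E0o (disc (isoPsh C)) m.unop) X m.unop) => ?_
  refine Prod.ext (MpS.ext ?_) (MpS.ext ?_)
  · funext η l t z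
    exact congrArg (fun r => ψ.app η l r ((fun _ => false : Fin (η.unop.len + 1) → Bool), z.2))
      (Category.comp_id t)
  · funext η l t z
    exact congrArg (fun r => ψ.app η l r ((fun _ => true : Fin (η.unop.len + 1) → Bool), z.2))
      (Category.comp_id t)

end

end Pool.Agent.Helper91.FL2
end

/- Helper91.FL2.Edge -/
section
/-!
# FL2: the edge lemma for `Yc ((E0 C).obj P) X`
-/

open CategoryTheory MonoidalCategory Opposite

set_option autoImplicit false

namespace Pool.Agent.Helper91.FL2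

open _root_.FL
open Pool.Agent.Helper83.FL4 (deps exists_ext PPι_trivCof_of_anodyne horn_anodyne)

section

variable {A : Type} [SmallCategory A]

/-- The map `Q ⊗ Δ[m] ⟶ X` attached to a simplex of the mapping space. -/
def toTn {Q X : SP A} {m : SimplexCategory} (ψ : MpS Q X m) :
    tn Q (SSet.stdSimplex.obj m) ⟶ X where
  app a :=
    { app := fun k => ↾ fun (z : (Q.obj a).obj k × (SSet.stdSimplex.obj m : SSet.{0}).obj k) =>
        ψ.app a k (SSet.stdSimplex.objEquiv z.2) z.1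
      naturality := fun _ _ α => by
        refine ConcreteCategory.hom_ext _ _ fun z => ?_
        exact ψ.nat_right a α (SSet.stdSimplex.objEquiv z.2) z.1 }
  naturality a b f := by
    refine NatTrans.ext (funext fun k => ?_)
    refine ConcreteCategory.hom_ext _ _ fun z => ?_
    exact ψ.nat_left f k (SSet.stdSimplex.objEquiv z.2) z.1

/-- The simplex of the mapping space attached to a map `Q ⊗ Δ[m] ⟶ X`. -/
def ofTn {Q X : SP A} {m : SimplexCategory} (l : tn Q (SSet.stdSimplex.obj m) ⟶ X) :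
    MpS Q X m where
  app a _ s x := (l.app a).app _ (x, SSet.stdSimplex.objEquiv.symm s)
  nat_left f k s x := hom_nat l f (x, SSet.stdSimplex.objEquiv.symm s)
  nat_right _ _ _ g s x := hom_natk l g (x, SSet.stdSimplex.objEquiv.symm s)

theorem ofTn_toTn {Q X : SP A} {m : SimplexCategory} (ψ : MpS Q X m) : ofTn (toTn ψ) = ψ := rfl

/-- The tautological map to the full sub-presheaf. -/
def topIn (Q : SP A) : Q ⟶ (⊤ : Sb Q).toSP where
  app _ := { app := fun _ => ↾ fun x => ⟨x, trivial⟩, naturality := fun _ _ _ => rfl }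
  naturality _ _ _ := rfl

theorem ofLE_mono {P : SP A} {S T : Sb P} (h : S ≤ T) (a : Aᵒᵖ) :
    Mono ((Sb.ofLE h).app a) := by
  have h' : ∀ k, Mono (((Sb.ofLE h).app a).app k) := fun k => by
    refine (mono_iff_injective _).2 fun (p p' : (S.toSP.obj a).obj k) e => ?_
    have e' : p.1 = p'.1 := congrArg (fun q : (T.toSP.obj a).obj k => q.1) e
    exact Subtype.ext e'
  exact NatTrans.mono_of_mono_app _

/-- Extension of maps along local inclusions of sub-presheaves, with a simplicial parameter. -/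
theorem locT_extend {X P : SP A} (hX : InjFib X) {R : Sb P} (h : LocT X R ⊤) {L : SSet.{0}}
    (l : tn R.toSP L ⟶ X) : ∃ l' : tn P L ⟶ X, tnMap R.ι (𝟙 L) ≫ l' = l := by
  obtain ⟨hle, hloc⟩ := h
  have hT : TrivFib (Mp.pre (Sb.ofLE hle) X) :=
    trivFib_of_hoEq' (Pool.Agent.Helper83.FL4.Mp_kan _ hX)
      (Pool.Agent.Helper83.FL4.Mp_pre_kanFib _ (fun a => ofLE_mono hle a) hX) hloc
  have := Pool.Agent.Helper45.FL2.TrivFib.lift hT (⊥ : (L : SSet.{0}).Subcomplex).ι
  have sq : CommSq (SSet.Subcomplex.isInitialBot.to (Mp (⊤ : Sb P).toSP X))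
      (⊥ : (L : SSet.{0}).Subcomplex).ι (Mp.pre (Sb.ofLE hle) X) (Mp.adj.symm l) :=
    ⟨SSet.Subcomplex.isInitialBot.hom_ext _ _⟩
  refine ⟨tnMap (topIn P) (𝟙 L) ≫ Mp.adj sq.lift, ?_⟩
  have e := congrArg Mp.adj sq.fac_right
  rw [Mp.adj.apply_symm_apply] at e
  exact e

end

variable {C : Type} [SmallCategory C]

/-- The map `S × E[1] ⟶ E0rel S 1 v`. -/
def relA {P : SP (Wr C)} (S : Sb P) (m : SimplexCategory) (v : Fin (m.len + 1)) :
    E0o S.toSP m ⟶ (E0rel S m v).toSP where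
  app _ :=
    { app := fun _ => ↾ fun z => ⟨(z.1.1, z.2), Or.inl z.1.2⟩
      naturality := fun _ _ _ => rfl }
  naturality _ _ _ := rfl

/-- The map `P ⟶ E0rel S 1 v`, `x ↦ (x, v)`. -/
def relB {P : SP (Wr C)} (S : Sb P) (m : SimplexCategory) (v : Fin (m.len + 1)) :
    P ⟶ (E0rel S m v).toSP where
  app _ :=
    { app := fun _ => ↾ fun x => ⟨(x, fun _ => v), Or.inr fun _ => rfl⟩
      naturality := fun _ _ _ => rfl }
  naturality _ _ _ := rfl

theorem relA_mono {P : SP (Wr C)} (S : Sb P) (m : SimplexCategory) (v : Fin (m.len + 1))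
    (θ : (Wr C)ᵒᵖ) : Mono ((relA S m v).app θ) := by
  have h' : ∀ k, Mono (((relA S m v).app θ).app k) := fun k => by
    refine (mono_iff_injective _).2 ?_
    rintro ⟨⟨x, hx⟩, w⟩ ⟨⟨x', hx'⟩, w'⟩ e
    have e1 : (x, w) = (x', w') := congrArg Subtype.val e
    have e2 : x = x' := congrArg Prod.fst e1
    have e3 : w = w' := congrArg Prod.snd e1
    exact Prod.ext (Subtype.ext e2) e3
  exact NatTrans.mono_of_mono_app _

theorem horn_gen {ε : Fin 2} {k : SimplexCategoryᵒᵖ} (t : (SSet.horn.{0} (0 + 1) ε : SSet.{0}).obj k) :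
    t = cst (SSet.horn.{0} (0 + 1) ε : SSet.{0}) (hornPt ε (op (SimplexCategory.mk 0))) k := by
  refine Subtype.ext ?_
  apply SSet.stdSimplex.objEquiv.injective
  refine (horn_elem t).trans ?_
  exact (horn_elem (cst (SSet.horn.{0} (0 + 1) ε : SSet.{0})
    (hornPt ε (op (SimplexCategory.mk 0))) k)).symm

/-- The edge lemma. -/
theorem edge_lift {P : SP (Wr C)} (S : Sb P) {X : SP (Wr C)} (hX : InjFib X) (i : Fin 2)
    (h : LocT X (E0rel S (SimplexCategory.mk 1) i) ⊤) :
    HasLiftingProperty (SSet.horn.{0} 1 i).ι (Yc.pre ((E0 C).map S.ι) X) := by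
  refine ⟨fun {f g} sq => ?_⟩
  obtain ⟨ψ0, hψ0⟩ : ∃ ψ0 : MpS (E0o P (SimplexCategory.mk 0)) X (SimplexCategory.mk 0),
    ψ0 = f.app (op (SimplexCategory.mk 0)) (hornPt i (op (SimplexCategory.mk 0))) := ⟨_, rfl⟩
  obtain ⟨ψ1, hψ1⟩ : ∃ ψ1 : MpS (E0o S.toSP (SimplexCategory.mk 1)) X (SimplexCategory.mk 1),
    ψ1 = g.app (op (SimplexCategory.mk 1)) (SSet.stdSimplex.objEquiv.symm (𝟙 _)) := ⟨_, rfl⟩
  have hg : g = SSet.yonedaEquiv.symm (show (Yc ((E0 C).obj S.toSP) X).obj
      (op (SimplexCategory.mk 1)) from ψ1) := by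
    apply SSet.yonedaEquiv.injective
    rw [Equiv.apply_symm_apply, hψ1]
    rfl
  -- compatibility
  have hcomp : ∀ (θ : (Wr C)ᵒᵖ) (k : SimplexCategoryᵒᵖ) (s : k.unop ⟶ SimplexCategory.mk 0)
      (x : (S.toSP.obj θ).obj k) (w : Fin (θ.unop.len + 1) → Fin (0 + 1)),
      ψ0.app θ k s (x.1, w) = ψ1.app θ k (ct k.unop i) (x, fun _ => i) := by
    intro θ k s x w
    have e1 := ConcreteCategory.congr_hom (NatTrans.congr_app sq.w (op (SimplexCategory.mk 0)))
      (hornPt i (op (SimplexCategory.mk 0)))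
    have e2 : (MpS.ofHom _ (E0m S.ι (𝟙 (SimplexCategory.mk 0)))).comp ψ0 =
        (Yc ((E0 C).obj S.toSP) X).map (ct (SimplexCategory.mk 0) i).op ψ1 := by
      rw [hψ0]
      refine e1.trans ?_
      show g.app (op (SimplexCategory.mk 0)) (SSet.stdSimplex.objEquiv.symm
        (ct (SimplexCategory.mk 0) i)) = _
      rw [hψ1]
      refine Eq.trans ?_ (sset_nat g (ct (SimplexCategory.mk 0) i).op _)
      refine congrArg (g.app (op (SimplexCategory.mk 0))) ?_
      apply SSet.stdSimplex.objEquiv.injective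
      exact (Category.comp_id (ct (SimplexCategory.mk 0) i)).symm
    have e3 := congrFun (congrFun (congrFun (congrFun (congrArg MpS.app e2) θ) k) s) (x, w)
    exact e3
  -- the maps on the pieces
  let a1 : tn (E0o S.toSP (SimplexCategory.mk 1)) (SSet.horn.{0} 1 i : SSet.{0}) ⟶
      tn (E0rel S (SimplexCategory.mk 1) i).toSP (SSet.horn.{0} 1 i : SSet.{0}) :=
    tnMap (relA S _ i) (𝟙 _)
  let b1 : tn P (SSet.horn.{0} 1 i : SSet.{0}) ⟶
      tn (E0rel S (SimplexCategory.mk 1) i).toSP (SSet.horn.{0} 1 i : SSet.{0}) :=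
    tnMap (relB S _ i) (𝟙 _)
  let u1 : tn (E0o S.toSP (SimplexCategory.mk 1)) (SSet.horn.{0} 1 i : SSet.{0}) ⟶ X :=
    tnMap (𝟙 _) (SSet.horn.{0} 1 i).ι ≫ toTn ψ1
  let v1 : tn P (SSet.horn.{0} 1 i : SSet.{0}) ⟶ X :=
    { app := fun θ =>
        { app := fun k => ↾ fun z => ψ0.app θ k
            (SimplexCategory.const k.unop (SimplexCategory.mk 0) 0) (z.1, fun _ => 0)
          naturality := fun k l α => by
            refine ConcreteCategory.hom_ext _ _ fun z => ?_
            exact ψ0.nat_right θ α (SimplexCategory.const k.unop (SimplexCategory.mk 0) 0)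
              (z.1, fun _ => 0) }
      naturality := fun θ θ' φ => by
        refine NatTrans.ext (funext fun k => ?_)
        refine ConcreteCategory.hom_ext _ _ fun z => ?_
        exact ψ0.nat_left φ k _ (z.1, fun _ => 0) }
  obtain ⟨v', hv1, hv2⟩ := pglue a1 b1
    (by
      rintro θ k ⟨⟨⟨x, w⟩, hz | hz⟩, t⟩
      · exact Or.inl ⟨((⟨x, hz⟩, w), t), rfl⟩
      · refine Or.inr ⟨(x, t), ?_⟩
        obtain rfl : w = fun _ => i := funext hz
        rfl)
    u1 v1
    (by
      rintro θ k ⟨⟨⟨x, hx⟩, w⟩, t⟩ ⟨⟨⟨x', hx'⟩, w'⟩, t'⟩ e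
      have e1 : ((⟨(x, w), Or.inl hx⟩ : ((E0rel S (SimplexCategory.mk 1) i).toSP.obj θ).obj k), t) =
        (⟨(x', w'), Or.inl hx'⟩, t') := e
      have e2 : (x, w) = (x', w') := congrArg Subtype.val (congrArg Prod.fst e1)
      have e3 : x = x' := congrArg Prod.fst e2
      have e4 : w = w' := congrArg Prod.snd e2
      have e5 : t = t' := congrArg Prod.snd e1
      subst e3 e4 e5
      rfl)
    (by
      rintro θ k ⟨x, t⟩ ⟨x', t'⟩ e
      have e1 : ((⟨(x, fun _ => i), Or.inr fun _ => rfl⟩ :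
        ((E0rel S (SimplexCategory.mk 1) i).toSP.obj θ).obj k), t) =
        (⟨(x', fun _ => i), Or.inr fun _ => rfl⟩, t') := e
      have e3 : x = x' := congrArg Prod.fst (congrArg Subtype.val (congrArg Prod.fst e1))
      have e5 : t = t' := congrArg Prod.snd e1
      rw [e3, e5])
    (by
      rintro θ k ⟨⟨⟨x, hx⟩, w⟩, t⟩ ⟨x', t'⟩ e
      have e1 : ((⟨(x, w), Or.inl hx⟩ : ((E0rel S (SimplexCategory.mk 1) i).toSP.obj θ).obj k), t) =
        (⟨(x', fun _ => i), Or.inr fun _ => rfl⟩, t') := e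
      have e2 : (x, w) = (x', fun _ => i) := congrArg Subtype.val (congrArg Prod.fst e1)
      have e3 : x = x' := congrArg Prod.fst e2
      have e4 : w = fun _ => i := congrArg Prod.snd e2
      subst e3 e4
      refine Eq.trans ?_ (hcomp θ k (SimplexCategory.const k.unop (SimplexCategory.mk 0) 0)
        ⟨x, hx⟩ fun _ => 0).symm
      exact congrArg (fun s => ψ1.app θ k s (⟨x, hx⟩, fun _ => i)) (horn_elem t))
  obtain ⟨l1, hl1, hl2⟩ := exists_ext (relA S (SimplexCategory.mk 1) i)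
    (fun θ => relA_mono S _ i θ) (SSet.horn.{0} 1 i).ι
    (PPι_trivCof_of_anodyne deps _ _ (horn_anodyne 0 i)) hX (toTn ψ1) v' hv1.symm
  obtain ⟨l2, hl3⟩ := locT_extend hX h l1
  have k1 : (MpS.ofHom _ (E0m S.ι (𝟙 (SimplexCategory.mk 1)))).comp (ofTn l2) = ψ1 := by
    refine MpS.ext ?_
    funext θ k s (x : ((E0o S.toSP (SimplexCategory.mk 1)).obj θ).obj k)
    have e1 := congrArg (fun q : tn (E0rel S (SimplexCategory.mk 1) i).toSP
      (SSet.stdSimplex.obj (SimplexCategory.mk 1)) ⟶ X => (q.app θ).app k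
        (((relA S _ i).app θ).app k x, SSet.stdSimplex.objEquiv.symm s)) hl3
    have e2 := congrArg (fun q : tn (E0o S.toSP (SimplexCategory.mk 1))
      (SSet.stdSimplex.obj (SimplexCategory.mk 1)) ⟶ X => (q.app θ).app k
        (x, SSet.stdSimplex.objEquiv.symm s)) hl1
    exact e1.trans e2
  have k2 : (Yc ((E0 C).obj P) X).map (ct (SimplexCategory.mk 0) i).op (ofTn l2) = ψ0 := by
    refine MpS.ext ?_
    funext θ k s x
    have hs : s ≫ ct (SimplexCategory.mk 0) i = ct k.unop i := rfl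
    have e0 : (x.2 : Fin (θ.unop.len + 1) → Fin (0 + 1)) = fun _ => 0 :=
      funext fun _ => Subsingleton.elim (α := Fin 1) _ _
    have e0' : x = (x.1, fun _ => 0) := Prod.ext rfl e0
    have e00 : s = SimplexCategory.const k.unop (SimplexCategory.mk 0) 0 := by
      ext t : 3
      exact Subsingleton.elim (α := Fin 1) _ _
    have e1 := congrArg (fun q : tn (E0rel S (SimplexCategory.mk 1) i).toSP
      (SSet.stdSimplex.obj (SimplexCategory.mk 1)) ⟶ X => (q.app θ).app k
        (((relB S _ i).app θ).app k x.1, SSet.stdSimplex.objEquiv.symm (ct k.unop i))) hl3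
    have e2 := congrArg (fun q : tn (E0rel S (SimplexCategory.mk 1) i).toSP
      (SSet.horn.{0} 1 i : SSet.{0}) ⟶ X => (q.app θ).app k
        (((relB S _ i).app θ).app k x.1, hornPt i k)) hl2
    have e3 := congrArg (fun q : tn P (SSet.horn.{0} 1 i : SSet.{0}) ⟶ X => (q.app θ).app k
        (x.1, hornPt i k)) hv2
    rw [e0', e00]
    exact e1.trans (e2.trans e3)
  refine ⟨⟨{ l := SSet.yonedaEquiv.symm (show (Yc ((E0 C).obj P) X).obj
      (op (SimplexCategory.mk 1)) from ofTn l2), fac_left := ?_, fac_right := ?_ }⟩⟩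
  · refine NatTrans.ext (funext fun k => ?_)
    refine ConcreteCategory.hom_ext _ _ fun t => ?_
    have e1 : f.app k t = cst (Yc ((E0 C).obj P) X) ψ0 k := by
      rw [hψ0]
      refine (congrArg (f.app k) (horn_gen t)).trans ?_
      exact app_cst f _ k
    rw [e1, ← k2]
    show (Yc ((E0 C).obj P) X).map (SSet.stdSimplex.objEquiv t.1).op (ofTn l2) = _
    have e2 : SSet.stdSimplex.objEquiv t.1 = ct k.unop i := horn_elem t
    rw [e2]
    exact sset_comp (Yc ((E0 C).obj P) X) (ct (SimplexCategory.mk 0) i).op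
      (SimplexCategory.const k.unop (SimplexCategory.mk 0) 0).op (ofTn l2)
  · rw [hg]
    apply SSet.yonedaEquiv.injective
    rw [Equiv.apply_symm_apply]
    refine Eq.trans ?_ k1
    show (Yc.pre ((E0 C).map S.ι) X).app (op (SimplexCategory.mk 1))
      (SSet.yonedaEquiv (SSet.yonedaEquiv.symm (show (Yc ((E0 C).obj P) X).obj
        (op (SimplexCategory.mk 1)) from ofTn l2))) = _
    rw [Equiv.apply_symm_apply]
    rfl

end Pool.Agent.Helper91.FL2
end
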