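import Pool.Agent.Helper16.FDG.G01
import Pool.Agent.Helper16.FDG.G03
import Pool.Agent.Helper16.FDG.G04
import Pool.Agent.Helper16.FDG.G05
import Pool.Agent.Helper16.FDG.G06
import Pool.Agent.Helper16.FDG.G07
import Pool.Agent.Helper16.FDG.G08

/- Helper91.FL.Gaunt -/
section
/-!
# Project FL, section FL-17a: canonical diagrams are gaunt, `Y(D)` satisfies gaunt descent
-/

open CategoryTheory MonoidalCategory Simplicial Opposite

set_option autoImplicit false

namespace Pool.Agent.Helper91.FL17a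

open FL

/-- statement of `hoEq_of_arrow_iso` -/
def ArrowIso : Prop := ∀ {X Y X' Y' : SSet.{0}} {f : X ⟶ Y} {f' : X' ⟶ Y'} (e : X ≅ X')
    (e' : Y ≅ Y') (_ : f ≫ e'.hom = e.hom ≫ f') (_ : HoEq f), HoEq f'

/-- statement of `Mp_kan` -/
def MpKan : Prop := ∀ {A : Type} [SmallCategory A] (X : SP A) {Z : SP A} (_ : InjFib Z),
  SSet.KanComplex (Mp X Z)

/-- statement of `Mp_pre_hoEq` -/
def PreHoEq : Prop := ∀ {A : Type} [SmallCategory A] {X Y Z : SP A} (f : X ⟶ Y)
  (_ : ∀ a, WE (f.app a)) (_ : InjFib Z), HoEq (Mp.pre f Z)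

/-- statement of `canCone_we` -/
def CanWe : Prop := ∀ {A : Type} [SmallCategory A] (C : SP A) (a : Aᵒᵖ), WE ((canCone C).app a)

/-- statement of `exists_holimIso` -/
def HolimIso : Prop := ∀ {A J : Type} [SmallCategory A] [SmallCategory J] (p : J ⥤ SP A) (Z : SP A),
    ∃ e : Mp (Hoco p) Z ≅ Holim (mpDiag p Z),
      ∀ (k : SimplexCategoryᵒᵖ) (ψ : MpS (Hoco p) Z k.unop) (j : Jᵒᵖ) (l : SimplexCategoryᵒᵖ)
        (s : l.unop ⟶ k.unop) (w : WS j.unop l.unop) (a : Aᵒᵖ) (m : SimplexCategoryᵒᵖ)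
        (t : m.unop ⟶ l.unop) (y : ((p.obj j.unop).obj a).obj m),
        ((e.hom.app k ψ : MpS (W J) (mpDiag p Z) k.unop).app j l s w :
          MpS (p.obj j.unop) Z l.unop).app a m t y =
        ψ.app a m (t ≫ s) ⟨w.σ.res t, ((p.map (w.u ≫ w.σ.zeroTo t)).app a).app m y⟩

/-- statement of `level_lemma` -/
def LevelLemma : Prop := ∀ {n : ℕ} {D : SP (Gn n)} (_ : InjFib D) {X X' : SP (Gn n)} (f : X ⟶ X')
    (_ : ∀ i k : Fin (n + 1), i ≤ k → HoEq (Mp.pre (levelHom f i) (level D k))),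
    HoEq (Mp.pre f D)

variable {n : ℕ}

theorem canCone_isGaunt' (h1 : PreHoEq) (h2 : CanWe) (hrep : ∀ θ : Th n, IsCat n (rep θ))
    (C : SP (Th n)) (hC : IsCat n C) : IsGaunt (canDiag C) (canCone C) where
  cat_obj _ := hrep _
  cat_pt := hC
  colim i _ _ hZ := h1 (Functor.whiskerLeft (tr n i).op (canCone C)) (fun _ => h2 C _) hZ.inj

theorem YD_kan' (h : MpKan) {D : SP (Gn n)} (hD : InjFib D) : (YD D).Kan := fun _ => h _ hD

/-- isomorphisms of mapping spaces induced by isomorphisms of the source -/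
def preIso {A : Type} [SmallCategory A] {X X' : SP A} (e : X ≅ X') (Z : SP A) :
    Mp X' Z ≅ Mp X Z where
  hom := Mp.pre e.hom Z
  inv := Mp.pre e.inv Z
  hom_inv_id := by
    ext k φ
    refine MpS.ext ?_
    funext a l s x
    show φ.app a l s ((e.hom.app a).app l ((e.inv.app a).app l x)) = φ.app a l s x
    have h1 : e.inv.app a ≫ e.hom.app a = 𝟙 _ := by rw [← NatTrans.comp_app, e.inv_hom_id]; rfl
    have h2 := ConcreteCategory.congr_hom (NatTrans.congr_app h1 l) x
    exact congrArg (φ.app a l s) h2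
  inv_hom_id := by
    ext k φ
    refine MpS.ext ?_
    funext a l s x
    show φ.app a l s ((e.inv.app a).app l ((e.hom.app a).app l x)) = φ.app a l s x
    have h1 : e.hom.app a ≫ e.inv.app a = 𝟙 _ := by rw [← NatTrans.comp_app, e.hom_inv_id]; rfl
    have h2 := ConcreteCategory.congr_hom (NatTrans.congr_app h1 l) x
    exact congrArg (φ.app a l s) h2

/-- the levels of `filt X` -/
noncomputable def levelFilt (X : SP (Th n)) (i : Fin (n + 1)) :
    level (filt X) i ≅ (tr n i).op ⋙ X :=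
  NatIso.ofComponents (fun _ => Iso.refl _) (by
    intro a b f
    have e : (tower n).map ((Prod.sectL (Th n) (op i)).map f.unop) = (tr n i).map f.unop :=
      (congrArg (fun t => (tr n i).map f.unop ≫ NatTrans.app t (unop a))
        (trMap_refl n i (le_refl _))).trans (Category.comp_id _)
    refine (Category.comp_id _).trans (Eq.trans ?_ (Category.id_comp _).symm)
    exact congrArg (fun t => X.map (Quiver.Hom.op t)) e)

/-- the whiskered diagram -/
noncomputable abbrev filtD {J : Type} [SmallCategory J] (p : J ⥤ SP (Th n)) : J ⥤ SP (Gn n) :=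
  p ⋙ (Functor.whiskeringLeft _ _ _).obj (tower n).op

/-- `filt (hocolim p) = hocolim (filt p)` -/
noncomputable def filtHoco {J : Type} [SmallCategory J] (p : J ⥤ SP (Th n)) :
    Hoco (filtD p) ≅ filt (Hoco p) where
  hom :=
    { app := fun a =>
        { app := fun k => ↾ fun (w : HS (filtD p) a k) =>
            (⟨w.σ, w.x⟩ : HS p (op ((tower n).obj a.unop)) k)
          naturality := fun _ _ _ => rfl }
      naturality := fun _ _ _ => rfl }
  inv :=
    { app := fun a =>
        { app := fun k => ↾ fun (w : HS p (op ((tower n).obj a.unop)) k) =>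
            (⟨w.σ, w.x⟩ : HS (filtD p) a k)
          naturality := fun _ _ _ => rfl }
      naturality := fun _ _ _ => rfl }
  hom_inv_id := rfl
  inv_hom_id := rfl

theorem along_eq {J : Type} [SmallCategory J] (p : J ⥤ SP (Th n))
    (hp : ∀ j, IsCat n (p.obj j)) (D : SP (Gn n)) :
    (YD D).along p hp = mpDiag (filtD p) D := rfl

theorem YD_gauntDescent' (h1 : ArrowIso) (h2 : HolimIso) (h3 : LevelLemma) {D : SP (Gn n)}
    (hD : InjFib D) (hc : ∀ i, IsCat n (level D i)) : (YD D).GauntDescent := by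
  intro J _ p C Λ h
  have e1 : HoEq (Mp.pre (Functor.whiskerLeft (tower n).op Λ : filt (Hoco p) ⟶ filt C) D) := by
    refine h3 hD _ fun i k _ => ?_
    have e2 := h.colim i.1 (Nat.lt_succ_iff.1 i.2) _ (hc k)
    refine h1 (preIso (levelFilt C i) (level D k)) (preIso (levelFilt (Hoco p) i) (level D k)) ?_ e2
    rfl
  obtain ⟨e, he⟩ := h2 (filtD p) D
  refine h1 (Iso.refl _) (preIso (filtHoco p) D ≪≫ e) ?_ e1
  ext k ψ
  refine MpS.ext ?_
  funext j l s w
  refine MpS.ext ?_
  funext a m t y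
  exact he k _ j l s w a m t y

end Pool.Agent.Helper91.FL17a
end

/- Helper64.FL.CanHyp -/
section
/-!
# FL-9: the canonical cocone, the cocone of a sieve (facts on weak equivalences as hypotheses)
-/

open CategoryTheory MonoidalCategory Opposite

set_option autoImplicit false

namespace Pool.Agent.Helper64.FLCan

open FL

theorem hoEq_iso {X Y : SSet.{0}} (e : X ≅ Y) : HoEq e.hom :=
  ⟨e.inv, ⟨SSet.RelativeMorphism.Homotopy.ofEq (by rw [e.hom_inv_id])⟩,
    ⟨SSet.RelativeMorphism.Homotopy.ofEq (by rw [e.inv_hom_id])⟩⟩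

section

variable {A : Type} [SmallCategory A]
  (hc : ∀ {X Y Z : SSet.{0}} {f : X ⟶ Y} {g : Y ⟶ Z}, WE f → WE g → WE (f ≫ g))
  (hh : ∀ {X Y : SSet.{0}} {f : X ⟶ Y}, HoEq f → WE f)

include hc hh

theorem canCone_we_of (hl : ∀ K : SSet.{0}, WE (lastMap K)) (C : SP A) (a : Aᵒᵖ) :
    WE ((canCone C).app a) := by
  obtain ⟨b⟩ := a
  refine (canCone_fac C b).symm ▸ hc (hh (hoEq_iso _)) (hc (hh ?_) (hl _))
  exact nv_hoEq (canη C b) (canε C b)

theorem svCone_factor_of {a : A} (S : Sieve a) : ∃ π : Hoco (svDiag S) ⟶ disc S.functor,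
    π ≫ sieveIncl S = svCone S ∧ ∀ b, WE (π.app b) := by
  refine ⟨svPi S, svPi_incl S, fun b => ?_⟩
  obtain ⟨b⟩ := b
  refine (svPi_fac S b).symm ▸ hc (hh (hoEq_iso _)) (hc (hh ?_) (hh (hoEq_iso _)))
  exact nv_hoEq (svη S b) (svε S b)

end

end Pool.Agent.Helper64.FLCan
end

/- Helper53.FL.LastV -/
section
/-!
# FL-8: the last vertex map is a weak equivalence
-/

open CategoryTheory MonoidalCategory Opposite HomotopicalAlgebra Limits

set_option autoImplicit false

namespace Helper53FL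

open FL

theorem weFacts : WEFacts where
  iff_lift := fun i _ => Helper85FL.we_iff_lift i
  of_hoEq := Helper85FL.we_of_hoEq
  comp := Helper85FL.we_comp
  comp_left := Helper85FL.we_of_comp_left
  comp_right := Helper85FL.we_of_comp_right

/-- The last vertex map `N(Δ/K) ⟶ K` is a weak homotopy equivalence. -/
theorem lastMap_we (K : SSet.{0}) : WE (lastMap K) := lastMap_we_of weFacts K

end Helper53FL
end

/- Helper64.FL.FL9 -/
section
/-!
# FL-9: the canonical cocone, the cocone of a sieve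
-/

open CategoryTheory MonoidalCategory Opposite

set_option autoImplicit false

namespace Pool.Agent.Helper64.FLCan

open FL

section

variable {A : Type} [SmallCategory A]

theorem canCone_we (C : SP A) (a : Aᵒᵖ) : WE ((canCone C).app a) :=
  canCone_we_of (fun hf hg => Helper85FL.we_comp hf hg) (fun h => Helper85FL.we_of_hoEq h)
    Helper53FL.lastMap_we C a

/-- The factorisation of the cocone of a sieve through the sieve. -/
theorem svCone_factor {a : A} (S : Sieve a) : ∃ π : Hoco (svDiag S) ⟶ disc S.functor,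
    π ≫ sieveIncl S = svCone S ∧ ∀ b, WE (π.app b) :=
  svCone_factor_of (fun hf hg => Helper85FL.we_comp hf hg) (fun h => Helper85FL.we_of_hoEq h) S

end

end Pool.Agent.Helper64.FLCan
end

/- Helper91.FL.GauntFinal -/
section
/-!
# Project FL, section FL-17a, unconditional form

Also the two hypothesis packages `Deps` (FL-4) and `Tool` (FL-16).
-/

open CategoryTheory MonoidalCategory Simplicial Opposite

set_option autoImplicit false

namespace Pool.Agent.Helper91.FL17a

open FL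

theorem deps : Pool.Agent.Helper83.FL4.Deps where
  comp_right := by
    intro X Y Z hX hY hZ f g h1 h2
    exact Pool.Agent.Helper88.FL.hoEq_of_comp_right hX hY hZ h1 h2
  we_iff_lift := by
    intro X Y i _
    exact Helper85FL.we_iff_lift i
  we_of_lift := by
    intro X Y i _ h
    exact Helper85FL.we_of_lift i h

theorem mpKan : MpKan := fun X _ hZ => Pool.Agent.Helper83.FL4.Mp_kan_of deps X hZ

theorem preHoEq : PreHoEq := fun f hf hZ =>
  Pool.Agent.Helper46.FLb.Mp_pre_hoEq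
    (by
      intro X Y Z hX hY hZ f g h1 h2
      exact Pool.Agent.Helper88.FL.hoEq_comp hX hY hZ h1 h2)
    (fun h => Pool.Agent.Helper45.FL2.TrivFib.hoEq h)
    (fun h => Helper85FL.we_of_hoEq h)
    (fun h1 h2 => Helper85FL.we_of_comp_right h1 h2)
    (fun X _ hZ => mpKan X hZ)
    (fun i hi hZ => Pool.Agent.Helper83.FL4.Mp_pre_trivFib_of deps i hi hZ)
    (fun f => Pool.Agent.Helper36.FL.exists_cyl f)
    (fun hr Z => Pool.Agent.Helper36.FL.SDR.pre_hoEq hr Z)
    (fun hr a => Pool.Agent.Helper36.FL.SDR.app_hoEq hr a) f hf hZ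

theorem tool : Pool.Agent.Helper30.FL16.Tool where
  hoEq_of_isIso := by
    intro X Y f _
    exact Pool.Agent.Helper88.FL.hoEq_of_isIso f
  hoEq_comp := by
    intro X Y Z hX hY hZ f g h1 h2
    exact Pool.Agent.Helper88.FL.hoEq_comp hX hY hZ h1 h2
  hoEq_of_comp_left := by
    intro X Y Z hX hY hZ f g h1 h2
    exact Pool.Agent.Helper88.FL.hoEq_of_comp_left hX hY hZ h1 h2
  trivFib_lift := by
    intro E B p h K L i _
    exact Pool.Agent.Helper45.FL2.TrivFib.lift h i
  trivFib_hoEq := by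
    intro E B p h
    exact Pool.Agent.Helper45.FL2.TrivFib.hoEq h
  trivFib_of_hoEq := by
    intro E B p hE hB hp h
    exact Pool.Agent.Helper45.FL2.trivFib_of_hoEq hE hB hp h
  we_of_hoEq := by
    intro X Y f h
    exact Helper85FL.we_of_hoEq h
  we_comp := by
    intro X Y Z f g h1 h2
    exact Helper85FL.we_comp h1 h2
  we_of_comp_left := by
    intro X Y Z f g h1 h2
    exact Helper85FL.we_of_comp_left h1 h2
  we_of_comp_right := by
    intro X Y Z f g h1 h2
    exact Helper85FL.we_of_comp_right h1 h2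
  Mp_kan := by
    intro A _ X Z hZ
    exact mpKan X hZ
  Mp_pre_kanFib := by
    intro A _ X Y Z i hi hZ
    exact Pool.Agent.Helper83.FL4.Mp_pre_kanFib_of deps i hi hZ
  rel_lift := by
    intro A _ X Y Z Z' i hi q hq hZ hZ' h h' K L j _ u v w h1 h2 h3
    exact Pool.Agent.Helper83.FL4.rel_lift_of deps i hi q hq hZ hZ' h h' j u v w h1 h2 h3
  exists_cyl := by
    intro A _ X Y f
    exact Pool.Agent.Helper36.FL.exists_cyl f
  sdr_pre_hoEq := by
    intro A _ X Y r hr Z
    exact Pool.Agent.Helper36.FL.SDR.pre_hoEq hr Z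
  sdr_whisker := by
    intro A B _ _ X Y r hr F
    exact Pool.Agent.Helper36.FL.SDR.whisker hr F

theorem levelLemma : LevelLemma := fun hD _ _ f h =>
  Pool.Agent.Helper30.FL16.level_lemma_of tool hD f h

variable {n : ℕ}

theorem canCone_isGaunt (hrep : ∀ θ : Th n, IsCat n (rep θ)) (C : SP (Th n)) (hC : IsCat n C) :
    IsGaunt (canDiag C) (canCone C) :=
  canCone_isGaunt' preHoEq (fun C a => Pool.Agent.Helper64.FLCan.canCone_we C a) hrep C hC

theorem YD_kan {D : SP (Gn n)} (hD : InjFib D) : (YD D).Kan := YD_kan' mpKan hD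

theorem YD_gauntDescent {D : SP (Gn n)} (hD : InjFib D) (hc : ∀ i, IsCat n (level D i)) :
    (YD D).GauntDescent :=
  YD_gauntDescent' (fun e e' h1 h2 => Pool.Agent.Helper88.FL.hoEq_of_arrow_iso e e' h1 h2)
    (fun p Z => Helper61FL.exists_holimIso p Z) levelLemma hD hc

end Pool.Agent.Helper91.FL17a
end

/- Helper58.FLP.B8Of -/
section
/-!
# Bridge, parts 5 and 8: flagged categories, gaunt descent and the conjecture
-/

open CategoryTheory MonoidalCategory CartesianMonoidalCategory Opposite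

set_option autoImplicit false

namespace FLP

open FL (SP MpS HoEq InjFib InjFibration Th Wr)

noncomputable section

variable {n : ℕ}

/-- The statement of part 4 of the bridge. -/
abbrev SurjIff (n : ℕ) : Prop := ∀ {k : ℕ} (_ : k ≤ n) {X Y : SP (Th n)} (_ : InjFib X)
    (_ : InjFib Y) {q : X ⟶ Y} (_ : InjFibration q),
    FLP.Surj n k q ↔ ∀ (P Q : SP (Th n)) (b : P ⟶ Q), FL.IsBd n k b →
      ∀ (x : P ⟶ X) (y : Q ⟶ Y), x ≫ q = b ≫ y → ∃ z : Q ⟶ X, b ≫ z = x ∧ z ≫ q = y

theorem flagged_iff_of (H : CatIff n) (S : SurjIff n) (D : SP (Gn n)) :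
    Flagged D ↔ FL.Flagged D := by
  have aux : InjFib D → ((∀ (i j : Fin (n + 1)) (h : i ≤ j) (k : ℕ), k ≤ i.1 →
      Surj n k (levelMap D h)) ↔ (∀ (i j : Fin (n + 1)) (h : i ≤ j) (k : ℕ), k ≤ i.1 →
    ∀ (X Y : SP (Th n)) (b : X ⟶ Y), FL.IsBd n k b → ∀ (x : X ⟶ FL.level D i)
      (y : Y ⟶ FL.level D j),
      x ≫ FL.levelMap D h = b ≫ y →
        ∃ z : Y ⟶ FL.level D i, b ≫ z = x ∧ z ≫ FL.levelMap D h = y)) := by
    intro hD
    have hl : ∀ i, InjFib (FL.level D i) := fun i =>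
      Pool.Agent.Helper30.FL16.level_injFib_of Pool.Agent.Helper91.FL17a.tool hD i
    refine forall_congr' fun i => forall_congr' fun j => forall_congr' fun h =>
      forall_congr' fun k => forall_congr' fun hk => ?_
    exact S (hk.trans (Nat.lt_succ_iff.1 i.2)) (hl i) (hl j)
      (Pool.Agent.Helper30.FL16.levelMap_injFibration_of Pool.Agent.Helper91.FL17a.tool hD h)
  constructor
  · intro h
    exact ⟨h.inj, fun i => (H _).1 (h.cat i), h.trunc, (aux h.inj).1 h.surj⟩
  · intro h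
    exact ⟨h.inj, fun i => (H _).2 (h.cat i), h.trunc, (aux h.inj).2 h.surj⟩

/-- The statements of parts 6 and 7 of the bridge. -/
structure Hyp (n : ℕ) (H : CatIff n) : Prop where
  kan_iff : ∀ F : FLP.PSh n, F.Kan ↔ (toPSh H F).Kan
  equiv_iff : ∀ (F G : FLP.PSh n) (G' : FL.PSh n)
    (e : ∀ K : FL.CatN n, (toPSh H G).obj K ≅ G'.obj K)
    (_ : ∀ {K K' : FL.CatN n} {k : SimplexCategoryᵒᵖ} (φ : MpS K.1 K'.1 k.unop)
      (x : ((toPSh H G).obj K').obj k), (e K).hom.app k ((toPSh H G).act φ x) =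
        G'.act φ ((e K').hom.app k x)),
    PSh.Equiv F G ↔ FL.PSh.Equiv (toPSh H F) G'
  exists_wtIso : ∀ (J : Type) [SmallCategory J], Nonempty (PSh.Wt J ≅ FL.W J)
  exists_corr : ∀ {J : Type} [SmallCategory J] (e : PSh.Wt J ≅ FL.W J) (p : PSh.Diag n J)
    (K : FLP.CatN n),
    (∀ Λ : PSh.Cocone p K, ∃ Λ' : FL.Hoco p.p ⟶ K.X, Corr e Λ Λ') ∧
    ∀ Λ' : FL.Hoco p.p ⟶ K.X, ∃ Λ : PSh.Cocone p K, Corr e Λ Λ'
  compare_iff : ∀ {J : Type} [SmallCategory J] (e : PSh.Wt J ≅ FL.W J) (F : FLP.PSh n)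
    {p : PSh.Diag n J} {K : FLP.CatN n}
    {Λ : PSh.Cocone p K} {Λ' : FL.Hoco p.p ⟶ K.X} (_ : Corr e Λ Λ'),
    HoEq (F.compare Λ) ↔ HoEq ((toPSh H F).compare p.p (fun j => (H _).1 (p.cat j))
      ((H _).1 K.cat) Λ')
  rp_compare_iff : ∀ {J : Type} [SmallCategory J] (e : PSh.Wt J ≅ FL.W J) {p : PSh.Diag n J}
    {K : FLP.CatN n}
    {Λ : PSh.Cocone p K} {Λ' : FL.Hoco p.p ⟶ K.X} (_ : Corr e Λ Λ') (i : ℕ) (Z : FLP.CatN n),
    HoEq ((PSh.rp (FL.tr n i) Z.X).compare Λ) ↔
      HoEq (FL.Mp.pre (Functor.whiskerLeft (FL.tr n i).op Λ') Z.X)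
  exists_ydIso : ∀ D : SP (FLP.Gn n),
    ∃ e : ∀ K : FL.CatN n, (toPSh H (FLP.YD D)).obj K ≅ (FL.YD D).obj K,
      ∀ {K K' : FL.CatN n} {k : SimplexCategoryᵒᵖ} (φ : MpS K.1 K'.1 k.unop)
        (x : ((toPSh H (FLP.YD D)).obj K').obj k),
        (e K).hom.app k ((toPSh H (FLP.YD D)).act φ x) =
          (FL.YD D).act φ ((e K').hom.app k x)
  yDmap_iff : ∀ D D' : SP (FLP.Gn n), HoEq (FLP.YDmap D D') ↔ HoEq (FL.YDmap D D')

theorem gauntDescent_iff_of {H : CatIff n} (T : Hyp n H) (F : FLP.PSh n) :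
    F.GauntDescent ↔ (toPSh H F).GauntDescent := by
  constructor
  · intro h J _ p C Λ' hΛ
    obtain ⟨e⟩ := T.exists_wtIso J
    let P : PSh.Diag n J := ⟨p, fun j => (H _).2 (hΛ.cat_obj j)⟩
    let K : CatN n := ⟨C, (H _).2 hΛ.cat_pt⟩
    obtain ⟨Λ, hc⟩ := (T.exists_corr e P K).2 Λ'
    have hg : PSh.IsGaunt Λ := fun i hi Z =>
      (T.rp_compare_iff e hc i Z).2 (hΛ.colim i hi Z.X ((H _).1 Z.cat))
    exact (T.compare_iff e F hc).1 (h J P K Λ hg)
  · intro h J _ P K Λ hΛ
    obtain ⟨e⟩ := T.exists_wtIso J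
    obtain ⟨Λ', hc⟩ := (T.exists_corr e P K).1 Λ
    have hg : FL.IsGaunt P.p Λ' := ⟨fun j => (H _).1 (P.cat j), (H _).1 K.cat, fun i hi Z hZ =>
      (T.rp_compare_iff e hc i ⟨Z, (H _).2 hZ⟩).1 (hΛ i hi ⟨Z, (H _).2 hZ⟩)⟩
    exact (T.compare_iff e F hc).2 (h J P.p K.X Λ' hg)

theorem conjecture_of' (H : CatIff n) (S : SurjIff n) (T : Hyp n H) (h : FL.Conjecture n) :
    FLP.Conjecture n := by
  refine ⟨fun D D' hD hD' => (T.yDmap_iff D D').2 (h.1 D D' ((flagged_iff_of H S D).1 hD)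
    ((flagged_iff_of H S D').1 hD')), fun F hF => ?_⟩
  rw [gauntDescent_iff_of T F, h.2 (toPSh H F) ((T.kan_iff F).1 hF)]
  refine exists_congr fun D => and_congr (flagged_iff_of H S D).symm ?_
  obtain ⟨e, he⟩ := T.exists_ydIso D
  exact (T.equiv_iff F (YD D) (FL.YD D) e he).symm

end

end FLP
end

/- Helper43.FLU.HomD -/
section
/-!
# Project FLQ: the cobar construction is injectively fibrant (any universe)
-/

open CategoryTheory MonoidalCategory Simplicial Opposite HomotopicalAlgebra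

set_option autoImplicit false

namespace Pool.Agent.Helper43.FLU

open FL (HoEq Htpy sset_id sset_comp sset_nat Chain WS W BrS)
open FLQ (SPU)
open Helper41FL2 (E2 endTo endTo_comp BrS.mk_congr)
open Bi (Fam)

universe u

section Hom

variable {K L K' L' : SSet.{u}} {m : SimplexCategory}

/-- Maps `K × Δ[m] ⟶ L`. -/
structure HS1 (K L : SSet.{u}) (m : SimplexCategory) : Type u where
  ev : ∀ (k : SimplexCategoryᵒᵖ) (_ : k.unop ⟶ m) (_ : K.obj k), L.obj k
  nat' : ∀ {k l : SimplexCategoryᵒᵖ} (g : k ⟶ l) (s : k.unop ⟶ m) (x : K.obj k),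
      ev l (g.unop ≫ s) (K.map g x) = L.map g (ev k s x)

/-- Constructor. -/
def HS1.mk' (v : ∀ (k : SimplexCategoryᵒᵖ) (_ : k.unop ⟶ m) (_ : K.obj k), L.obj k)
    (h : ∀ {k l : SimplexCategoryᵒᵖ} (g : k ⟶ l) (s : k.unop ⟶ m) (x : K.obj k),
      v l (g.unop ≫ s) (K.map g x) = L.map g (v k s x)) : HS1 K L m := ⟨v, h⟩

lemma HS1.nat (φ : HS1 K L m) {k l : SimplexCategoryᵒᵖ} (g : k ⟶ l) (s : k.unop ⟶ m)
    (x : K.obj k) : φ.ev l (g.unop ≫ s) (K.map g x) = L.map g (φ.ev k s x) :=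
  φ.nat' g s x

lemma HS1.ext {φ ψ : HS1 K L m} (h : ∀ (k : SimplexCategoryᵒᵖ) (s : k.unop ⟶ m) (x : K.obj k),
    φ.ev k s x = ψ.ev k s x) : φ = ψ := by
  obtain ⟨φ, h1⟩ := φ
  obtain ⟨ψ, h2⟩ := ψ
  obtain rfl : φ = ψ := by
    funext k s x
    exact h k s x
  rfl

/-- The mapping space. -/
def HS (K L : SSet.{u}) : SSet.{u} where
  obj m := HS1 K L m.unop
  map α := ↾ fun φ => ⟨fun k s x => φ.ev k (s ≫ α.unop) x, fun {k l} g s x => by
    refine Eq.trans ?_ (φ.nat g (s ≫ α.unop) x)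
    rw [Category.assoc]⟩
  map_id m := by
    refine ConcreteCategory.hom_ext _ _ fun φ => ?_
    refine HS1.ext fun k s x => ?_
    exact congrArg (fun t => HS1.ev φ k t x) (Category.comp_id s)
  map_comp α β := by
    refine ConcreteCategory.hom_ext _ _ fun φ => ?_
    refine HS1.ext fun k s x => ?_
    exact congrArg (fun t => HS1.ev φ k t x) (Category.assoc s β.unop α.unop).symm

/-- Precomposition. -/
def HSpre (f : K' ⟶ K) (L : SSet.{u}) : HS K L ⟶ HS K' L where
  app m := ↾ fun φ => (⟨fun k s x => HS1.ev φ k s (f.app k x), fun {k l} g s x =>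
    (congrArg (HS1.ev φ l (g.unop ≫ s)) (sset_nat f g x)).trans (HS1.nat φ g s _)⟩ :
      HS1 K' L m.unop)
  naturality _ _ _ := rfl

/-- Postcomposition. -/
def HSpost (K : SSet.{u}) (f : L ⟶ L') : HS K L ⟶ HS K L' where
  app m := ↾ fun φ => (⟨fun k s x => f.app k (HS1.ev φ k s x), fun {k l} g s x =>
    (congrArg (f.app l) (HS1.nat φ g s x)).trans (sset_nat f g _)⟩ : HS1 K L' m.unop)
  naturality _ _ _ := rfl

/-- The universal property of the mapping space. -/
def adjHS {T : SSet.{u}} : (T ⟶ HS K L) ≃ (T ⊗ K ⟶ L) where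
  toFun f :=
    { app := fun k => ↾ fun (z : T.obj k × K.obj k) =>
        (f.app k z.1 : HS1 K L k.unop).ev k (𝟙 _) z.2
      naturality := fun k l α => by
        refine ConcreteCategory.hom_ext _ _ fun (z : T.obj k × K.obj k) => ?_
        show (f.app l (T.map α z.1) : HS1 K L l.unop).ev l (𝟙 _) (K.map α z.2) =
          L.map α ((f.app k z.1 : HS1 K L k.unop).ev k (𝟙 _) z.2)
        rw [sset_nat f α z.1]
        refine Eq.trans ?_ ((f.app k z.1 : HS1 K L k.unop).nat α (𝟙 _) z.2)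
        show (f.app k z.1 : HS1 K L k.unop).ev l (𝟙 _ ≫ α.unop) (K.map α z.2) = _
        rw [Category.comp_id, Category.id_comp] }
  invFun g :=
    { app := fun k => ↾ fun t => (⟨fun l s x => g.app l ((T.map s.op t, x) : T.obj l × K.obj l),
        fun {l l'} α s x => by
          refine Eq.trans ?_ (sset_nat g α ((T.map s.op t, x) : T.obj l × K.obj l))
          refine congrArg (g.app l') (Prod.ext ?_ rfl)
          exact sset_comp T s.op α t⟩ : HS1 K L k.unop)
      naturality := fun k l α => by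
        refine ConcreteCategory.hom_ext _ _ fun t => ?_
        refine HS1.ext fun l' s x => ?_
        refine congrArg (g.app l') (Prod.ext ?_ rfl)
        exact (sset_comp T α s.op t).symm }
  left_inv f := by
    refine NatTrans.ext (funext fun k => ConcreteCategory.hom_ext _ _ fun t => ?_)
    refine HS1.ext fun l s x => ?_
    show (f.app l (T.map s.op t) : HS1 K L l.unop).ev l (𝟙 _) x = _
    rw [sset_nat f s.op t]
    show (f.app k t : HS1 K L k.unop).ev l (𝟙 _ ≫ s) x = _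
    rw [Category.id_comp]
  right_inv g := by
    refine NatTrans.ext (funext fun k => ConcreteCategory.hom_ext _ _ fun
      (z : T.obj k × K.obj k) => ?_)
    refine congrArg (g.app k) (Prod.ext ?_ rfl)
    exact sset_id T z.1

lemma adjHS_comp {T T' : SSet.{u}} (a : T' ⟶ T) (f : T ⟶ HS K L) :
    adjHS (a ≫ f) = a ▷ K ≫ adjHS f := rfl

lemma adjHS_symm_comp {T T' : SSet.{u}} (a : T' ⟶ T) (g : T ⊗ K ⟶ L) :
    adjHS.symm (a ▷ K ≫ g) = a ≫ adjHS.symm g := by
  apply adjHS.injective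
  rw [Equiv.apply_symm_apply, adjHS_comp, Equiv.apply_symm_apply]

/-- The comparison with the internal hom. -/
noncomputable def hsIso (K L : SSet.{u}) : HS K L ≅ (ihom K).obj L where
  hom := curS (adjHS (𝟙 _))
  inv := adjHS.symm (uncS (𝟙 _))
  hom_inv_id := by
    rw [← adjHS_symm_comp, ← uncS_left, Category.comp_id, uncS_curS, Equiv.symm_apply_apply]
  inv_hom_id := by
    rw [← curS_left, ← adjHS_comp, Category.comp_id, Equiv.apply_symm_apply, curS_uncS]

lemma hsIso_pre (i : K ⟶ K') (L : SSet.{u}) :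
    HSpre i L ≫ (hsIso K L).hom = (hsIso K' L).hom ≫ (MonoidalClosed.pre i).app L := by
  show HSpre i L ≫ curS (adjHS (𝟙 _)) = curS (adjHS (𝟙 _)) ≫ _
  rw [← curS_left, ← adjHS_comp, Category.comp_id, ← curS_pre]
  rfl

open SSet.modelCategoryQuillen in
theorem kanFib_of_fibration {E B : SSet.{u}} {p : E ⟶ B} (hp : Fibration p) : KanFib p :=
  fun _ i => SSet.anodyneExtensions.horn_ι i _ ((fibration_iff _).1 hp)

open SSet.modelCategoryQuillen in
/-- Restriction along a monomorphism which is a weak equivalence. -/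
theorem HSpre_trivFib (i : K ⟶ K') [Mono i] (hi : ∀ K : SSet.{u}, SSet.KanComplex K →
    HoEq ((MonoidalClosed.pre i).app K)) {L : SSet.{u}}
    (hL : SSet.KanComplex L) : TrivFib (HSpre i L) := by
  have h0 : TrivFib ((MonoidalClosed.pre i).app L) := by
    have h1 : SSet.KanComplex ((ihom K).obj L) := inferInstance
    have h2 : SSet.KanComplex ((ihom K').obj L) := inferInstance
    have h3 : Fibration ((MonoidalClosed.pre i).app L) := inferInstance
    exact trivFib_of_hoEq h2 h1 (kanFib_of_fibration h3) (hi L hL)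
  intro n
  refine (HasLiftingProperty.iff_of_arrow_iso_right _ (Arrow.isoMk (f := Arrow.mk (HSpre i L))
    (g := Arrow.mk ((MonoidalClosed.pre i).app L)) (hsIso K' L) (hsIso K L) ?_)).2 (h0 n)
  exact (hsIso_pre i L).symm

end Hom

variable {A : Type} [SmallCategory A]

/-- The diagram `(b, c) ↦ X(b) ^ P(c)`. -/
def HD (P X : SPU.{u} A) : SPU.{u} (A × Aᵒᵖ) where
  obj z := HS (P.obj z.unop.2) (X.obj (op z.unop.1))
  map f := HSpre (P.map f.unop.2) _ ≫ HSpost _ (X.map f.unop.1.op)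
  map_id z := by
    refine NatTrans.ext (funext fun m => ?_)
    refine ConcreteCategory.hom_ext _ _ fun φ => ?_
    refine HS1.ext fun k s x => ?_
    refine (sp_id X _).trans ?_
    exact congrArg (HS1.ev φ k s) (sp_id P x)
  map_comp f g := by
    refine NatTrans.ext (funext fun m => ?_)
    refine ConcreteCategory.hom_ext _ _ fun φ => ?_
    refine HS1.ext fun k s x => ?_
    refine (sp_comp X f.unop.1.op g.unop.1.op _).trans ?_
    exact congrArg (fun t => (X.map g.unop.1.op).app k ((X.map f.unop.1.op).app k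
      (HS1.ev φ k s t))) (sp_comp P g.unop.2 f.unop.2 x)

lemma HD_map_ev (P X : SPU.{u} A) {z z' : (A × Aᵒᵖ)ᵒᵖ} (f : z ⟶ z') {m : SimplexCategoryᵒᵖ}
    (φ : HS1 (P.obj z.unop.2) (X.obj (op z.unop.1)) m.unop) (k : SimplexCategoryᵒᵖ)
    (s : k.unop ⟶ m.unop) (x : (P.obj z'.unop.2).obj k) :
    HS1.ev (((HD P X).map f).app m φ) k s x =
      (X.map f.unop.1.op).app k (HS1.ev φ k s ((P.map f.unop.2).app k x)) := rfl

/-- Restriction along `i : P ⟶ Q`. -/
def HDpre {P Q : SPU.{u} A} (i : P ⟶ Q) (X : SPU.{u} A) : HD Q X ⟶ HD P X where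
  app z := HSpre (i.app z.unop.2) _
  naturality z z' f := by
    refine NatTrans.ext (funext fun m => ?_)
    refine ConcreteCategory.hom_ext _ _ fun φ => ?_
    refine HS1.ext fun k s x => ?_
    show (X.map f.unop.1.op).app k (HS1.ev φ k s
        ((Q.map f.unop.2).app k ((i.app z'.unop.2).app k x))) =
      (X.map f.unop.1.op).app k (HS1.ev φ k s
        ((i.app z.unop.2).app k ((P.map f.unop.2).app k x)))
    exact congrArg (fun t => (X.map f.unop.1.op).app k (HS1.ev φ k s t))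
      (hom_nat i f.unop.2 x).symm

lemma HDpre_ev {P Q : SPU.{u} A} (i : P ⟶ Q) (X : SPU.{u} A) (z : (A × Aᵒᵖ)ᵒᵖ) (m : SimplexCategoryᵒᵖ)
    (φ : HS1 (Q.obj z.unop.2) (X.obj (op z.unop.1)) m.unop) (k : SimplexCategoryᵒᵖ)
    (s : k.unop ⟶ m.unop) (x : (P.obj z.unop.2).obj k) :
    HS1.ev (((HDpre i X).app z).app m φ) k s x = HS1.ev φ k s ((i.app z.unop.2).app k x) := rfl

/-- Trivial cofibrations. -/
def TrivCof {P Q : SPU.{u} A} (i : P ⟶ Q) : Prop :=
  (∀ a, Mono (i.app a)) ∧ ∀ (a : Aᵒᵖ) (K : SSet.{u}), SSet.KanComplex K →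
    HoEq ((MonoidalClosed.pre (i.app a)).app K)

/-- Injectively fibrant presheaves. -/
def InjFib (Z : SPU.{u} A) : Prop :=
  ∀ ⦃P Q : SPU.{u} A⦄ (i : P ⟶ Q), TrivCof i → ∀ f : P ⟶ Z, ∃ g : Q ⟶ Z, i ≫ g = f

theorem HDpre_trivFib {P Q : SPU.{u} A} (i : P ⟶ Q) (hi : TrivCof i) {X : SPU.{u} A}
    (hX : ObjKan X) (z : (A × Aᵒᵖ)ᵒᵖ) : TrivFib ((HDpre i X).app z) := by
  have := hi.1 z.unop.2
  exact HSpre_trivFib (i.app z.unop.2) (hi.2 z.unop.2) (hX _)

/-- A simplex of the cobar construction. -/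
structure RS (X : SPU.{u} A) (a : A) (m : SimplexCategory) : Type u where
  app : ∀ (b : Aᵒᵖ) (l : SimplexCategoryᵒᵖ) (_ : l.unop ⟶ m) (_ : BrS a b.unop l.unop),
    (X.obj b).obj l
  left : ∀ {b b' : Aᵒᵖ} (g : b ⟶ b') (l : SimplexCategoryᵒᵖ) (s : l.unop ⟶ m)
    (w : BrS a b.unop l.unop), app b' l s ⟨w.σ, g.unop ≫ w.u, w.v⟩ = (X.map g).app l (app b l s w)
  right : ∀ (b : Aᵒᵖ) {l l' : SimplexCategoryᵒᵖ} (α : l ⟶ l') (s : l.unop ⟶ m)
    (w : BrS a b.unop l.unop), app b l' (α.unop ≫ s) ⟨w.σ.res α.unop, w.u ≫ w.σ.zeroTo α.unop,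
        w.σ.map _ _ (Fin.le_last _) ≫ w.v⟩ = (X.obj b).map α (app b l s w)

lemma RS.ext' {X : SPU.{u} A} {a : A} {m : SimplexCategory} {y y' : RS X a m}
    (h : ∀ (b : Aᵒᵖ) (l : SimplexCategoryᵒᵖ) (s : l.unop ⟶ m) (w : BrS a b.unop l.unop),
      y.app b l s w = y'.app b l s w) : y = y' := by
  obtain ⟨y, h1, h2⟩ := y
  obtain ⟨y', h1', h2'⟩ := y'
  obtain rfl : y = y' := by
    funext b l s w
    exact h b l s w
  rfl

/-- The cobar construction. -/
def RR (X : SPU.{u} A) : SPU.{u} A where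
  obj a :=
    { obj := fun m => RS X a.unop m.unop
      map := fun α => ↾ fun y => ⟨fun b l s w => y.app b l (s ≫ α.unop) w,
        fun g l s w => y.left g l (s ≫ α.unop) w, fun b {l l'} β s w => by
          refine Eq.trans ?_ (y.right b β (s ≫ α.unop) w)
          rw [Category.assoc]⟩
      map_id := fun m => by
        refine ConcreteCategory.hom_ext _ _ fun y => ?_
        refine RS.ext' fun b l s w => ?_
        exact congrArg (fun t => RS.app y b l t w) (Category.comp_id s)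
      map_comp := fun α β => by
        refine ConcreteCategory.hom_ext _ _ fun y => ?_
        refine RS.ext' fun b l s w => ?_
        exact congrArg (fun t => RS.app y b l t w) (Category.assoc s β.unop α.unop).symm }
  map {a a'} g :=
    { app := fun m => ↾ fun (y : RS X a.unop m.unop) =>
        (⟨fun b l s w => y.app b l s ⟨w.σ, w.u, w.v ≫ g.unop⟩,
        fun h l s w => y.left h l s ⟨w.σ, w.u, w.v ≫ g.unop⟩, fun b {l l'} β s w => by
          refine Eq.trans ?_ (y.right b β s ⟨w.σ, w.u, w.v ≫ g.unop⟩)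
          refine congrArg (y.app b l' (β.unop ≫ s)) ?_
          exact congrArg (BrS.mk (w.σ.res β.unop) (w.u ≫ w.σ.zeroTo β.unop))
            (Category.assoc _ _ _)⟩ : RS X a'.unop m.unop)
      naturality := fun _ _ _ => rfl }
  map_id a := by
    refine NatTrans.ext (funext fun m => ConcreteCategory.hom_ext _ _ fun
      (y : RS X a.unop m.unop) => ?_)
    refine RS.ext' fun b l s w => ?_
    exact congrArg (fun t => RS.app y b l s (BrS.mk w.σ w.u t)) (Category.comp_id w.v)
  map_comp {a a' a''} g h := by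
    refine NatTrans.ext (funext fun m => ConcreteCategory.hom_ext _ _ fun
      (y : RS X a.unop m.unop) => ?_)
    refine RS.ext' fun b l s w => ?_
    exact congrArg (fun t => RS.app y b l s (BrS.mk w.σ w.u t))
      (Category.assoc w.v h.unop g.unop).symm

section Convert

variable {P X : SPU.{u} A}

/-- The value of a simplex of `RR X`. -/
def rv {a : Aᵒᵖ} {k : SimplexCategoryᵒᵖ} (y : ((RR X).obj a).obj k) (b : Aᵒᵖ)
    (l : SimplexCategoryᵒᵖ) (s : l.unop ⟶ k.unop) (w : BrS a.unop b.unop l.unop) :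
    (X.obj b).obj l := RS.app y b l s w

lemma rv_ext {a : Aᵒᵖ} {k : SimplexCategoryᵒᵖ} {y y' : ((RR X).obj a).obj k}
    (h : ∀ (b : Aᵒᵖ) (l : SimplexCategoryᵒᵖ) (s : l.unop ⟶ k.unop)
      (w : BrS a.unop b.unop l.unop), rv y b l s w = rv y' b l s w) : y = y' := by
  exact RS.ext' h

lemma rv_mapk {a : Aᵒᵖ} {k k' : SimplexCategoryᵒᵖ} (y : ((RR X).obj a).obj k)
    (α : k ⟶ k') (b : Aᵒᵖ) (l : SimplexCategoryᵒᵖ) (s : l.unop ⟶ k'.unop)
    (w : BrS a.unop b.unop l.unop) :
    rv (((RR X).obj a).map α y) b l s w = rv y b l (s ≫ α.unop) w := rfl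

lemma rv_map {a a' : Aᵒᵖ} {k : SimplexCategoryᵒᵖ} (y : ((RR X).obj a).obj k)
    (g : a ⟶ a') (b : Aᵒᵖ) (l : SimplexCategoryᵒᵖ) (s : l.unop ⟶ k.unop)
    (w : BrS a'.unop b.unop l.unop) :
    rv (((RR X).map g).app k y) b l s w = rv y b l s ⟨w.σ, w.u, w.v ≫ g.unop⟩ := rfl

lemma rv_left {a : Aᵒᵖ} {k : SimplexCategoryᵒᵖ} (y : ((RR X).obj a).obj k)
    {b b' : Aᵒᵖ} (g : b ⟶ b') (l : SimplexCategoryᵒᵖ) (s : l.unop ⟶ k.unop)
    (w : BrS a.unop b.unop l.unop) :
    rv y b' l s ⟨w.σ, g.unop ≫ w.u, w.v⟩ = (X.map g).app l (rv y b l s w) :=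
  RS.left y g l s w

lemma rv_right {a : Aᵒᵖ} {k : SimplexCategoryᵒᵖ} (y : ((RR X).obj a).obj k)
    (b : Aᵒᵖ) {l l' : SimplexCategoryᵒᵖ} (α : l ⟶ l') (s : l.unop ⟶ k.unop)
    (w : BrS a.unop b.unop l.unop) :
    rv y b l' (α.unop ≫ s) ⟨w.σ.res α.unop, w.u ≫ w.σ.zeroTo α.unop,
        w.σ.map _ _ (Fin.le_last _) ≫ w.v⟩ = (X.obj b).map α (rv y b l s w) :=
  RS.right y b α s w

/-- The family attached to a map into the cobar construction. -/
def famOf (f : P ⟶ RR X) : Fam (HD P X) where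
  v {k} σ := HS1.mk' (fun l s x => rv ((f.app (op (σ.obj (Fin.last _)))).app l x) (op (σ.obj 0)) l
      (𝟙 _) ⟨σ.res s, σ.zeroTo s, σ.map _ _ (Fin.le_last _)⟩) (by
    intro l l' g s x
    rw [hom_natk, rv_mapk]
    refine Eq.trans ?_ (rv_right ((f.app (op (σ.obj (Fin.last _)))).app l x) (op (σ.obj 0)) g
      (𝟙 _) ⟨σ.res s, σ.zeroTo s, σ.map _ _ (Fin.le_last _)⟩)
    have e : 𝟙 l'.unop ≫ g.unop = g.unop ≫ 𝟙 _ := by simp
    rw [e]
    refine congrArg (rv _ _ _ _) ?_
    refine BrS.mk_congr (σ.res (g.unop ≫ s)) ?_ ?_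
    · exact (σ.map_comp _ _ _ _ _).symm
    · exact (σ.map_comp _ _ _ _ _).symm)
  nat {k l} σ α := by
    refine HS1.ext fun m s x => ?_
    show (X.map (Quiver.Hom.op (σ.map 0 (α.toOrderHom 0) (Fin.zero_le _)))).app m
        (rv ((f.app (op (σ.obj (α.toOrderHom (Fin.last _))))).app m
          ((P.map (Quiver.Hom.op (σ.map (α.toOrderHom (Fin.last _)) (Fin.last _)
            (Fin.le_last _)))).app m x)) (op (σ.obj (α.toOrderHom 0))) m (𝟙 _)
          ⟨σ.res (s ≫ α), (σ.res α).zeroTo s, (σ.res α).map _ _ (Fin.le_last _)⟩) =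
      rv ((f.app (op (σ.obj (Fin.last _)))).app m x) (op (σ.obj 0)) m
      (𝟙 _) ⟨σ.res (s ≫ α), σ.zeroTo (s ≫ α), σ.map _ _ (Fin.le_last _)⟩
    rw [hom_nat, rv_map, ← rv_left]
    refine congrArg (rv _ _ _ _) ?_
    refine BrS.mk_congr (σ.res (s ≫ α)) ?_ ?_
    · exact σ.map_comp _ _ _ _ _
    · exact σ.map_comp _ _ _ _ _

lemma famOf_ev (f : P ⟶ RR X) {k : SimplexCategory} (σ : Chain A k)
    (l : SimplexCategoryᵒᵖ) (s : l.unop ⟶ k)
    (x : (P.obj (op (σ.obj (Fin.last _)))).obj l) :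
    HS1.ev ((famOf f).v σ) l s x =
      rv ((f.app (op (σ.obj (Fin.last _)))).app l x) (op (σ.obj 0)) l
      (𝟙 _) ⟨σ.res s, σ.zeroTo s, σ.map _ _ (Fin.le_last _)⟩ := rfl

/-- The value of a family. -/
def fv (g : Fam (HD P X)) {k : SimplexCategory} (σ : Chain A k)
    (l : SimplexCategoryᵒᵖ) (s : l.unop ⟶ k)
    (x : (P.obj (op (σ.obj (Fin.last _)))).obj l) : (X.obj (op (σ.obj 0))).obj l :=
  HS1.ev (g.v σ) l s x

lemma fv_nat (g : Fam (HD P X)) {k : SimplexCategory} (σ : Chain A k)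
    {l l' : SimplexCategoryᵒᵖ} (α : l ⟶ l') (s : l.unop ⟶ k)
    (x : (P.obj (op (σ.obj (Fin.last _)))).obj l) :
    fv g σ l' (α.unop ≫ s) ((P.obj _).map α x) = (X.obj _).map α (fv g σ l s x) :=
  HS1.nat (g.v σ) α s x

lemma fv_res (g : Fam (HD P X)) {k k' : SimplexCategory} (σ : Chain A k) (α : k' ⟶ k)
    (l : SimplexCategoryᵒᵖ) (s : l.unop ⟶ k')
    (x : (P.obj (op (σ.obj (Fin.last _)))).obj l) :
    (X.map (σ.zeroTo α).op).app l (fv g (σ.res α) l s
      ((P.map (Quiver.Hom.op (σ.map (α.toOrderHom (Fin.last _)) (Fin.last _)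
            (Fin.le_last _)))).app l x)) = fv g σ l (s ≫ α) x :=
  congrArg (fun t => HS1.ev (K := P.obj (op (σ.obj (Fin.last _))))
    (L := X.obj (op (σ.obj 0))) t l s x) (g.nat σ α)

/-- The map into the cobar construction attached to a family. -/
def ofFam (g : Fam (HD P X)) : P ⟶ RR X where
  app a :=
    { app := fun k => ↾ fun y =>
        ({ app := fun b l s w => (X.map (Quiver.Hom.op (BrS.u w))).app l (fv g (BrS.σ w) l (𝟙 _)
            ((P.map (Quiver.Hom.op (BrS.v w))).app l ((P.obj a).map s.op y)))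
           left := fun {b b'} h l s w => by
            exact sp_comp X (Quiver.Hom.op (BrS.u w)) h _
           right := fun b {l l'} α s w => by
            obtain ⟨σ, u, v⟩ := w
            show (X.map (Quiver.Hom.op (u ≫ σ.zeroTo α.unop))).app l'
                (fv g (σ.res α.unop) l' (𝟙 _)
                  ((P.map (Quiver.Hom.op (σ.map (α.unop.toOrderHom (Fin.last _)) (Fin.last _)
                    (Fin.le_last _) ≫ v))).app l'
                    ((P.obj a).map (s.op ≫ α) y))) =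
              (X.obj b).map α ((X.map (Quiver.Hom.op u)).app l (fv g σ l (𝟙 _)
                ((P.map (Quiver.Hom.op v)).app l ((P.obj a).map s.op y))))
            refine (congrArg _ (congrArg (fv g (σ.res α.unop) l' (𝟙 _))
              (sp_comp P v.op (σ.map (α.unop.toOrderHom (Fin.last _)) (Fin.last _)
                    (Fin.le_last _)).op _))).trans ?_
            refine (sp_comp X (σ.zeroTo α.unop).op u.op _).trans ?_
            refine Eq.trans ?_ (sp_nat X u.op α _)
            refine congrArg ((X.map u.op).app l') ?_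
            refine (fv_res g σ α.unop l' (𝟙 _) _).trans ?_
            refine Eq.trans ?_ (fv_nat g σ α (𝟙 _) _)
            refine congrArg₂ (fv g σ l') ?_ ?_
            · simp
            · rw [sset_comp]
              exact sp_nat P v.op α _ } : RS X a.unop k.unop)
      naturality := fun k k' α => by
        refine ConcreteCategory.hom_ext _ _ fun y => ?_
        refine rv_ext fun b l s w => ?_
        exact congrArg (fun t => (X.map (Quiver.Hom.op (BrS.u w))).app l (fv g (BrS.σ w) l (𝟙 _)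
            ((P.map (Quiver.Hom.op (BrS.v w))).app l t))) (sset_comp (P.obj a) α s.op y).symm }
  naturality a a' h := by
    refine NatTrans.ext (funext fun k => ?_)
    refine ConcreteCategory.hom_ext _ _ fun y => ?_
    refine rv_ext fun b l s w => ?_
    show (X.map (Quiver.Hom.op (BrS.u w))).app l (fv g (BrS.σ w) l (𝟙 _)
            ((P.map (Quiver.Hom.op (BrS.v w))).app l
              ((P.obj a').map s.op ((P.map h).app k y)))) =
      (X.map (Quiver.Hom.op (BrS.u w))).app l (fv g (BrS.σ w) l (𝟙 _)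
            ((P.map (Quiver.Hom.op (BrS.v w ≫ h.unop))).app l
              ((P.obj a).map s.op y)))
    refine congrArg (fun t => (X.map (Quiver.Hom.op (BrS.u w))).app l
      (fv g (BrS.σ w) l (𝟙 _) t)) ?_
    rw [← sp_nat]
    exact (sp_comp P h (BrS.v w).op _).symm

lemma ofFam_rv (g : Fam (HD P X)) {a : Aᵒᵖ} {k : SimplexCategoryᵒᵖ} (y : (P.obj a).obj k)
    (b : Aᵒᵖ) (l : SimplexCategoryᵒᵖ) (s : l.unop ⟶ k.unop) (w : BrS a.unop b.unop l.unop) :
    rv (((ofFam g).app a).app k y) b l s w = (X.map (Quiver.Hom.op w.u)).app l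
      (fv g w.σ l (𝟙 _) ((P.map (Quiver.Hom.op w.v)).app l ((P.obj a).map s.op y))) := rfl

end Convert

theorem RR_ext {P Q X : SPU.{u} A} (hX : ObjKan X) (i : P ⟶ Q) (hi : TrivCof i)
    (f : P ⟶ RR X) : ∃ g : Q ⟶ RR X, i ≫ g = f := by
  obtain ⟨g, hg⟩ := Fam.lift (HDpre i X) (HDpre_trivFib i hi hX) (famOf f)
  refine ⟨ofFam g, ?_⟩
  refine NatTrans.ext (funext fun a => NatTrans.ext (funext fun k => ?_))
  refine ConcreteCategory.hom_ext _ _ fun y => ?_
  refine rv_ext fun b l s w => ?_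
  obtain ⟨σ, u, v⟩ := w
  show rv (((ofFam g).app a).app k ((i.app a).app k y)) b l s ⟨σ, u, v⟩ =
    rv ((f.app a).app k y) b l s ⟨σ, u, v⟩
  rw [ofFam_rv]
  show (X.map (Quiver.Hom.op u)).app l (fv g σ l (𝟙 _) ((Q.map (Quiver.Hom.op v)).app l
    ((Q.obj a).map s.op ((i.app a).app k y)))) = _
  rw [← hom_natk, ← hom_nat]
  have h1 := congrArg (fun t => HS1.ev (K := P.obj (op (σ.obj (Fin.last _))))
    (L := X.obj (op (σ.obj 0))) t l (𝟙 _) ((P.map (Quiver.Hom.op v)).app l
      ((P.obj a).map s.op y))) (hg σ)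
  have h2 : fv g σ l (𝟙 _) ((i.app (op (σ.obj (Fin.last _)))).app l
      ((P.map (Quiver.Hom.op v)).app l ((P.obj a).map s.op y))) =
      rv ((f.app (op (σ.obj (Fin.last _)))).app l ((P.map (Quiver.Hom.op v)).app l
      ((P.obj a).map s.op y))) (op (σ.obj 0)) l
      (𝟙 _) ⟨σ.res (𝟙 _), σ.zeroTo (𝟙 _), σ.map _ _ (Fin.le_last _)⟩ := h1
  rw [h2, hom_nat, rv_map, ← rv_left, hom_natk, rv_mapk]
  have e : 𝟙 l.unop ≫ s.op.unop = s := Category.id_comp s
  rw [e]
  refine congrArg (rv _ _ _ _) ?_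
  refine BrS.mk_congr σ ?_ ?_
  · exact (congrArg (u ≫ ·) (σ.map_id 0)).trans (Category.comp_id u)
  · exact (congrArg (· ≫ v) (σ.map_id _)).trans (Category.id_comp v)

theorem RR_injFib {X : SPU.{u} A} (hX : ObjKan X) : InjFib (RR X) :=
  fun _ _ i hi f => RR_ext hX i hi f


end Pool.Agent.Helper43.FLU
end

/- Helper43.FLU.Up -/
section
/-!
# Project FLQ: small presheaves as presheaves of large simplicial sets
-/

open CategoryTheory MonoidalCategory Opposite

set_option autoImplicit false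

namespace Pool.Agent.Helper43.FLU

open FL (HoEq Htpy sset_id sset_comp sset_nat Chain WS W BrS)
open FLQ (SPU)

universe u

section Kan

/-- The compatibility condition for horns, elementwise. -/
def Compat {X : SSet.{u}} : {n : ℕ} → {i : Fin (n + 2)} →
    (∀ j : Fin (n + 2), j ≠ i → X.obj (op (SimplexCategory.mk n))) → Prop
  | 0, _, _ => True
  | n + 1, i, x => ∀ (j k : Fin (n + 3)) (hj : j ≠ i) (hk : k ≠ i) (hjk : j < k),
      X.map (SimplexCategory.δ (k.pred (Fin.ne_zero_of_lt hjk))).op (x j hj) =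
        X.map (SimplexCategory.δ (j.castPred (Fin.ne_last_of_lt hjk))).op (x k hk)

lemma compat_iff {X : SSet.{u}} {n : ℕ} {i : Fin (n + 2)}
    (x : ∀ j : Fin (n + 2), j ≠ i → X.obj (op (SimplexCategory.mk n))) :
    Compat x ↔ SSet.horn.IsCompatible (X := X) (i := i)
      (fun j hj => SSet.yonedaEquiv.symm (x j hj)) := by
  obtain _ | n := n
  · exact Iff.rfl
  · rw [SSet.horn.isCompatible_iff]
    refine forall_congr' fun j => forall_congr' fun k => forall_congr' fun hj =>
      forall_congr' fun hk => forall_congr' fun hjk => ?_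
    have e : ∀ (a : Fin (n + 2)) (y : X.obj (op (SimplexCategory.mk (n + 1)))),
        SSet.stdSimplex.δ a ≫ (SSet.yonedaEquiv.symm y : _ ⟶ X) =
          SSet.yonedaEquiv.symm (X.map (SimplexCategory.δ a).op y) := fun a y =>
      SSet.yonedaEquiv_symm_naturality_left (SimplexCategory.δ a) y
    rw [e, e]
    exact (SSet.yonedaEquiv.symm.injective.eq_iff).symm

/-- The Kan condition, elementwise. -/
theorem kan_iff_elt {X : SSet.{u}} : SSet.KanComplex X ↔
    ∀ (n : ℕ) (i : Fin (n + 2)) (x : ∀ j : Fin (n + 2), j ≠ i → X.obj (op (SimplexCategory.mk n))), Compat x →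
      ∃ y : X.obj (op (SimplexCategory.mk (n + 1))), ∀ (j : Fin (n + 2)) (hj : j ≠ i),
        X.map (SimplexCategory.δ j).op y = x j hj := by
  rw [SSet.KanComplex.iff]
  have e : ∀ (n : ℕ) (a : Fin (n + 2)) (y : X.obj (op (SimplexCategory.mk (n + 1)))),
      SSet.stdSimplex.δ a ≫ (SSet.yonedaEquiv.symm y : _ ⟶ X) =
        SSet.yonedaEquiv.symm (X.map (SimplexCategory.δ a).op y) := fun n a y =>
    SSet.yonedaEquiv_symm_naturality_left (SimplexCategory.δ a) y
  constructor
  · intro h n i x hx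
    obtain ⟨φ, hφ⟩ := h _ ((compat_iff x).1 hx)
    obtain ⟨y, rfl⟩ := SSet.yonedaEquiv.symm.surjective φ
    refine ⟨y, fun j hj => ?_⟩
    have h1 := hφ j hj
    rw [e] at h1
    exact SSet.yonedaEquiv.symm.injective h1
  · intro h n i f hf
    have h0 : (fun (j : Fin (n + 2)) (hj : j ≠ i) =>
        SSet.yonedaEquiv.symm (SSet.yonedaEquiv (f j hj))) = f := by
      funext j hj
      exact Equiv.symm_apply_apply _ _
    obtain ⟨y, hy⟩ := h n i (fun j hj => SSet.yonedaEquiv (f j hj))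
      ((compat_iff _).2 (by rw [h0]; exact hf))
    refine ⟨SSet.yonedaEquiv.symm y, fun j hj => ?_⟩
    rw [e, hy, Equiv.symm_apply_apply]

/-- The lift of a Kan complex. -/
theorem kan_up {K : SSet.{0}} (hK : SSet.KanComplex K) :
    SSet.KanComplex (SSet.uliftFunctor.{1, 0}.obj K) := by
  rw [kan_iff_elt]
  intro n i x hx
  obtain ⟨y, hy⟩ := kan_iff_elt.1 hK n i (fun j hj => (x j hj : ULift.{1} _).down) (by
    obtain _ | n := n
    · trivial
    · intro j k hj hk hjk
      exact congrArg ULift.down (hx j k hj hk hjk))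
  refine ⟨ULift.up y, fun j hj => ?_⟩
  exact congrArg ULift.up (hy j hj)

end Kan

section Inj

variable {A : Type} [SmallCategory A]

/-- A small presheaf as a presheaf of large simplicial sets. -/
abbrev upP (Z : FL.SP A) : SPU.{1} A := Z ⋙ SSet.uliftFunctor.{1, 0}

/-- Functoriality. -/
abbrev upPm {Z Z' : FL.SP A} (f : Z ⟶ Z') : upP Z ⟶ upP Z' :=
  Functor.whiskerRight f SSet.uliftFunctor.{1, 0}

theorem objKan_up {Z : FL.SP A} (hZ : FL.ObjKan Z) : ObjKan (upP Z) := fun a => kan_up (hZ a)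

/-- From the small to the large cobar construction. -/
def toRR (Z : FL.SP A) : upP ((FL.RR A).obj Z) ⟶ RR (upP Z) where
  app a :=
    { app := fun m => ↾ fun (y : ULift.{1} ((((FL.RR A).obj Z).obj a).obj m)) =>
        (⟨fun b l s w => ULift.up (Helper41FL2.rv (a := a) (k := m) y.down b l s w),
          fun g l s w => congrArg ULift.up (Helper41FL2.rv_left (a := a) (k := m) y.down g l s w),
          fun b {l l'} α s w => congrArg ULift.up
            (Helper41FL2.rv_right (a := a) (k := m) y.down b α s w)⟩ :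
          RS (upP Z) a.unop m.unop)
      naturality := fun _ _ _ => rfl }
  naturality _ _ _ := rfl

/-- From the large to the small cobar construction. -/
def ofRR (Z : FL.SP A) : RR (upP Z) ⟶ upP ((FL.RR A).obj Z) where
  app a :=
    { app := fun m => ↾ fun (y : RS (upP Z) a.unop m.unop) =>
        ULift.up ({ app := fun b l s w => (y.app b l s w : ULift.{1} _).down
                    nat_left := fun g l s w => congrArg ULift.down (y.left g l s w)
                    nat_right := fun b {l l'} α s w => congrArg ULift.down (y.right b α s w) } :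
          FL.MpS (FL.Bro a.unop) Z m.unop)
      naturality := fun _ _ _ => rfl }
  naturality _ _ _ := rfl

theorem toRR_ofRR (Z : FL.SP A) : toRR Z ≫ ofRR Z = 𝟙 _ := rfl

/-- Injectively fibrant small presheaves are injectively fibrant as presheaves of large
simplicial sets. -/
theorem injFib_up {Z : FL.SP A} (hZ : FL.InjFib Z) : InjFib (upP Z) := by
  have hK : FL.ObjKan Z :=
    Pool.Agent.Helper46.FLb.InjFib.objKan (fun X {_} hZ => Pool.Agent.Helper83.FL4.Mp_kan X hZ) hZ
  obtain ⟨r, hr⟩ := hZ _ (Helper41FL2.RR_trivCof hK) (𝟙 Z)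
  intro P Q i hi f
  obtain ⟨g, hg⟩ := RR_ext (objKan_up hK) i hi (f ≫ upPm ((FL.RR A).η Z) ≫ toRR Z)
  refine ⟨g ≫ ofRR Z ≫ upPm r, ?_⟩
  have h1 : upPm ((FL.RR A).η Z) ≫ upPm r = 𝟙 (upP Z) := by
    refine (Functor.whiskerRight_comp ((FL.RR A).η Z) r SSet.uliftFunctor.{1, 0}).symm.trans ?_
    rw [hr]
    rfl
  calc i ≫ g ≫ ofRR Z ≫ upPm r = (i ≫ g) ≫ ofRR Z ≫ upPm r := (Category.assoc _ _ _).symm
    _ = (f ≫ upPm ((FL.RR A).η Z) ≫ toRR Z) ≫ ofRR Z ≫ upPm r := by rw [hg]
    _ = f ≫ upPm ((FL.RR A).η Z) ≫ (toRR Z ≫ ofRR Z) ≫ upPm r := by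
        simp only [Category.assoc]
    _ = f ≫ upPm ((FL.RR A).η Z) ≫ upPm r := by rw [toRR_ofRR, Category.id_comp]
    _ = f := by rw [h1, Category.comp_id]

end Inj

end Pool.Agent.Helper43.FLU
end

/- Helper43.FLU.Pre -/
section
/-!
# Project FLQ: presheaves of large simplicial sets on `Cat_n` (internal form)
-/

open CategoryTheory MonoidalCategory Opposite

set_option autoImplicit false

namespace Pool.Agent.Helper43.FLU

open FL (SP HoEq Htpy sset_id sset_comp sset_nat Chain WS W BrS Th CatN IsCat Hoco HS coneS diag_comp Gn)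
open FLQ (SPU)

universe u

section Presheaves

/-- A presheaf on the `∞`-category `Cat_n`: a simplicial functor from the opposite of the
simplicial category `CatN n` to simplicial sets. -/
structure PSh (n : ℕ) : Type 2 where
  obj : CatN n → SSet.{1}
  act : ∀ {C C' : CatN n} {k : SimplexCategoryᵒᵖ}, FL.MpS C.1 C'.1 k.unop → (obj C').obj k →
    (obj C).obj k
  act_nat : ∀ {C C' : CatN n} {k l : SimplexCategoryᵒᵖ} (α : k ⟶ l) (φ : FL.MpS C.1 C'.1 k.unop)
    (x : (obj C').obj k), act (φ.res α.unop) ((obj C').map α x) = (obj C).map α (act φ x)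
  act_id : ∀ {C : CatN n} {k : SimplexCategoryᵒᵖ} (x : (obj C).obj k),
    act (FL.MpS.ofHom k.unop (𝟙 C.1)) x = x
  act_comp : ∀ {C C' C'' : CatN n} {k : SimplexCategoryᵒᵖ} (φ : FL.MpS C.1 C'.1 k.unop)
    (ψ : FL.MpS C'.1 C''.1 k.unop) (x : (obj C'').obj k), act (φ.comp ψ) x = act φ (act ψ x)

variable {n : ℕ}

/-- Objectwise Kan presheaves. -/
def PSh.Kan (F : PSh n) : Prop := ∀ C, SSet.KanComplex (F.obj C)

/-- Morphisms of presheaves on `Cat_n`. -/
structure PSh.Hom (F G : PSh n) : Type 1 where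
  app (C : CatN n) : F.obj C ⟶ G.obj C
  act : ∀ {C C' : CatN n} {k : SimplexCategoryᵒᵖ} (φ : FL.MpS C.1 C'.1 k.unop)
    (x : (F.obj C').obj k), (app C).app k (F.act φ x) = G.act φ ((app C').app k x)

/-- `F ≃ G`, for presheaves on `Cat_n` such that `G` is injectively fibrant: there is an
objectwise equivalence `F ⟶ G`. -/
def PSh.Equiv (F G : PSh n) : Prop := ∃ φ : PSh.Hom F G, ∀ C, HoEq (φ.app C)

/-- The restriction of a presheaf on `Cat_n` along a diagram in `Cat_n`. -/
noncomputable def PSh.along (F : PSh n) {J : Type} [SmallCategory J] (p : J ⥤ SP (Th n))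
    (hp : ∀ j, IsCat n (p.obj j)) : SPU.{1} J where
  obj j := F.obj ⟨p.obj j.unop, hp _⟩
  map {j j'} f :=
    { app := fun k => ↾ fun x =>
        F.act (C := ⟨_, hp j'.unop⟩) (C' := ⟨_, hp j.unop⟩) (FL.MpS.ofHom k.unop (p.map f.unop)) x
      naturality := fun k l α => by
        ext x
        exact F.act_nat (C := ⟨_, hp j'.unop⟩) (C' := ⟨_, hp j.unop⟩) α
          (FL.MpS.ofHom k.unop (p.map f.unop)) x }
  map_id j := by
    ext k x
    refine Eq.trans ?_ (F.act_id (C := ⟨_, hp j.unop⟩) x)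
    show F.act (C := ⟨_, hp j.unop⟩) (C' := ⟨_, hp j.unop⟩)
      (FL.MpS.ofHom k.unop (p.map (𝟙 j.unop))) x = _
    rw [p.map_id]
  map_comp {j j' j''} f g := by
    ext k x
    refine Eq.trans ?_ (F.act_comp (C := ⟨_, hp j''.unop⟩) (C' := ⟨_, hp j'.unop⟩)
      (C'' := ⟨_, hp j.unop⟩) (FL.MpS.ofHom k.unop (p.map g.unop))
      (FL.MpS.ofHom k.unop (p.map f.unop)) x)
    refine congrArg (fun t => F.act (C := ⟨_, hp j''.unop⟩) (C' := ⟨_, hp j.unop⟩) t x) ?_
    show FL.MpS.ofHom k.unop (p.map (g.unop ≫ f.unop)) = _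
    rw [p.map_comp]
    rfl

/-- The comparison map `F(C) ⟶ holim_j F(p(j))` of a coherent cocone `hocolim p ⟶ C` in
`Cat_n`. -/
noncomputable def PSh.compare (F : PSh n) {J : Type} [SmallCategory J] (p : J ⥤ SP (Th n))
    (hp : ∀ j, IsCat n (p.obj j)) {C : SP (Th n)} (hC : IsCat n C) (Λ : Hoco p ⟶ C) :
    F.obj ⟨C, hC⟩ ⟶ Mp (WU J) (F.along p hp) where
  app k := ↾ fun x =>
    { app := fun j l s w => F.act (C := ⟨_, hp j.unop⟩) (C' := ⟨_, hC⟩) (coneS Λ (ULift.down w))
        ((F.obj ⟨C, hC⟩).map s.op x)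
      nat_left := fun {j j'} f l s w => by
        refine Eq.trans ?_ (F.act_comp (C := ⟨_, hp j'.unop⟩) (C' := ⟨_, hp j.unop⟩)
          (C'' := ⟨_, hC⟩) (FL.MpS.ofHom l.unop (p.map f.unop)) (coneS Λ (ULift.down w)) _)
        refine congrArg (fun t => F.act (C := ⟨_, hp j'.unop⟩) (C' := ⟨_, hC⟩) t _) ?_
        refine FL.MpS.ext ?_
        funext a m s' y
        refine congrArg ((Λ.app a).app m) (congrArg (HS.mk (Chain.res (WS.σ w.down) s')) ?_)
        refine Eq.trans ?_ (diag_comp p f.unop (WS.u w.down ≫ Chain.zeroTo (WS.σ w.down) s') y)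
        exact congrArg (fun f => ((p.map f).app a).app m y)
          (Category.assoc f.unop (WS.u w.down) (Chain.zeroTo (WS.σ w.down) s'))
      nat_right := fun j l m g s w => by
        refine Eq.trans ?_ (F.act_nat (C := ⟨_, hp j.unop⟩) (C' := ⟨_, hC⟩) g (coneS Λ (ULift.down w)) _)
        refine congrArg₂ (F.act (C := ⟨_, hp j.unop⟩) (C' := ⟨_, hC⟩)) ?_ ?_
        · refine FL.MpS.ext ?_
          funext a r s' y
          refine congrArg ((Λ.app a).app r)
            (congrArg (HS.mk (Chain.res (WS.σ w.down) (s' ≫ g.unop))) ?_)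
          refine congrArg (fun f => ((p.map f).app a).app r y) ?_
          refine (Category.assoc (WS.u w.down) (Chain.zeroTo (WS.σ w.down) g.unop) _).trans ?_
          exact congrArg (WS.u w.down ≫ ·) ((WS.σ w.down).map_comp _ _ _ _ _)
        · exact sset_comp _ _ _ _ }
  naturality k k' α := by
    ext x
    refine MpS.ext ?_
    funext j l s w
    exact congrArg _ (sset_comp _ α s.op x).symm

/-- A presheaf on `Cat_n` satisfies gaunt descent if it sends (the opposites of) gaunt colimit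
diagrams to limit diagrams. -/
def PSh.GauntDescent (F : PSh n) : Prop :=
  ∀ (J : Type) [SmallCategory J] (p : J ⥤ SP (Th n)) (C : SP (Th n)) (Λ : Hoco p ⟶ C)
    (h : FL.IsGaunt p Λ), HoEq (F.compare p h.cat_obj h.cat_pt Λ)

/-- A presheaf of small simplicial sets as a presheaf of large simplicial sets. -/
def upPSh (G : FL.PSh n) : PSh n where
  obj C := SSet.uliftFunctor.{1, 0}.obj (G.obj C)
  act φ x := ULift.up (G.act φ (ULift.down x))
  act_nat α φ x := congrArg ULift.up (G.act_nat α φ (ULift.down x))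
  act_id x := congrArg ULift.up (G.act_id (ULift.down x))
  act_comp φ ψ x := congrArg ULift.up (G.act_comp φ ψ (ULift.down x))

end Presheaves

end Pool.Agent.Helper43.FLU
end

/- Helper43.FLU.RKE -/
section
/-!
# Project FLQ: invariance of gaunt descent, comparison with small presheaves
-/

open CategoryTheory MonoidalCategory Opposite

set_option autoImplicit false

namespace Pool.Agent.Helper43.FLU

open FL (SP HoEq Htpy sset_id sset_comp sset_nat Chain WS W BrS Th CatN IsCat Hoco HS coneS diag_comp Gn)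
open FLQ (SPU)
open Pool.Agent.Helper88.FL (hoEq_comp hoEq_of_comp_left hoEq_of_comp_right hoEq_of_isIso
  hoEq_of_arrow_iso hoEq_ulift_iff)

universe u

variable {n : ℕ}

/-- The map of diagrams induced by a morphism of presheaves on `Cat_n`. -/
noncomputable def alongMap {F G : PSh n} (φ : PSh.Hom F G) {J : Type} [SmallCategory J]
    (p : J ⥤ SP (Th n)) (hp : ∀ j, IsCat n (p.obj j)) : F.along p hp ⟶ G.along p hp where
  app j := φ.app ⟨p.obj j.unop, hp _⟩
  naturality {j j'} f := by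
    ext k x
    exact φ.act (C := ⟨_, hp j'.unop⟩) (C' := ⟨_, hp j.unop⟩)
      (FL.MpS.ofHom k.unop (p.map f.unop)) x

theorem compare_square {F G : PSh n} (φ : PSh.Hom F G) {J : Type} [SmallCategory J]
    (p : J ⥤ SP (Th n)) (hp : ∀ j, IsCat n (p.obj j)) {C : SP (Th n)} (hC : IsCat n C)
    (Λ : Hoco p ⟶ C) :
    F.compare p hp hC Λ ≫ Mp.post (WU J) (alongMap φ p hp) =
      φ.app ⟨C, hC⟩ ≫ G.compare p hp hC Λ := by
  ext k x
  refine MpS.ext ?_
  funext j l s w
  refine (φ.act (C := ⟨_, hp j.unop⟩) (C' := ⟨_, hC⟩) (coneS Λ w.down) _).trans ?_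
  exact congrArg (G.act (C := ⟨_, hp j.unop⟩) (C' := ⟨_, hC⟩) (coneS Λ w.down))
    (sset_nat (φ.app ⟨C, hC⟩) s.op x)

theorem compare_hoEq_of_equiv {F G : PSh n} (hF : F.Kan) (hG : G.Kan) (φ : PSh.Hom F G)
    (hφ : ∀ C, HoEq (φ.app C)) {J : Type} [SmallCategory J]
    (p : J ⥤ SP (Th n)) (hp : ∀ j, IsCat n (p.obj j)) {C : SP (Th n)} (hC : IsCat n C)
    (Λ : Hoco p ⟶ C) (h : HoEq (G.compare p hp hC Λ)) : HoEq (F.compare p hp hC Λ) := by
  have hK1 : ObjKan (F.along p hp) := fun j => hF _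
  have hK2 : ObjKan (G.along p hp) := fun j => hG _
  have h1 : HoEq (φ.app ⟨C, hC⟩ ≫ G.compare p hp hC Λ) :=
    hoEq_comp (hF _) (hG _) (Holim_kan hK2) (hφ _) h
  rw [← compare_square] at h1
  refine hoEq_of_comp_right (hF _) (Holim_kan hK1) (Holim_kan hK2) ?_ h1
  exact Holim_hoEq hK1 hK2 (alongMap φ p hp) (fun j => hφ _)

section Up

variable {J : Type} [SmallCategory J]

/-- Homotopy limits of small diagrams. -/
def mpUp (G : SP J) : Mp (WU J) (upP G) ≅ SSet.uliftFunctor.{1, 0}.obj (FL.Mp (W J) G) where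
  hom :=
    { app := fun m => ↾ fun (φ : MpS (WU J) (upP G) m.unop) => ULift.up
        ({ app := fun j k s w => (φ.app j k s (ULift.up w) : ULift.{1} _).down
           nat_left := fun f k s w => congrArg ULift.down (φ.nat_left f k s (ULift.up w))
           nat_right := fun a {_ _} g s w =>
            congrArg ULift.down (φ.nat_right a g s (ULift.up w)) } : FL.MpS (W J) G m.unop)
      naturality := fun _ _ _ => rfl }
  inv :=
    { app := fun m => ↾ fun (φ : ULift.{1} (FL.MpS (W J) G m.unop)) =>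
        ({ app := fun j k s w => ULift.up (φ.down.app j k s (ULift.down w))
           nat_left := fun f k s w =>
            congrArg ULift.up (φ.down.nat_left f k s (ULift.down w))
           nat_right := fun a {_ _} g s w =>
            congrArg ULift.up (φ.down.nat_right a g s (ULift.down w)) } :
          MpS (WU J) (upP G) m.unop)
      naturality := fun _ _ _ => rfl }
  hom_inv_id := rfl
  inv_hom_id := rfl

theorem compare_up_iff (G : FL.PSh n) (p : J ⥤ SP (Th n)) (hp : ∀ j, IsCat n (p.obj j))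
    {C : SP (Th n)} (hC : IsCat n C) (Λ : Hoco p ⟶ C) :
    HoEq ((upPSh G).compare p hp hC Λ) ↔ HoEq (G.compare p hp hC Λ) := by
  rw [← hoEq_ulift_iff]
  constructor
  · intro h
    exact hoEq_of_arrow_iso (Iso.refl _) (mpUp (G.along p hp)) rfl h
  · intro h
    exact hoEq_of_arrow_iso (Iso.refl _) (mpUp (G.along p hp)).symm rfl h

end Up

end Pool.Agent.Helper43.FLU
end

/- Helper43.FLU.Yinj -/
section
/-!
# Project FLQ: morphisms `F ⟶ Y D`, injective fibrancy of `Y D` in large presheaves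
-/

open CategoryTheory MonoidalCategory Opposite

set_option autoImplicit false

namespace Pool.Agent.Helper43.FLU

open FL (SP HoEq Htpy sset_id sset_comp sset_nat Chain WS W BrS Th CatN IsCat Hoco HS coneS diag_comp
  Gn YD ND rep repMap filt yoS tower yo)
open FLQ (SPU)
open Pool.Agent.Helper82.FL15 (yoS_res yoS_map yoS_comp yoS_one)

variable {n : ℕ}

/-- The restriction to `Θ_n`. -/
noncomputable abbrev PSh.restr (F : PSh n) (hrep : ∀ θ : Th n, IsCat n (rep θ)) :
    SPU.{1} (Th n) := F.along (yo (Th n)) hrep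

/-- The restriction of a morphism `F ⟶ Y D` to `Θ_n`. -/
noncomputable def toRestr (hrep : ∀ θ : Th n, IsCat n (rep θ)) {F : PSh n} {D : SP (Gn n)}
    (φ : PSh.Hom F (upPSh (YD D))) : F.restr hrep ⟶ upP (ND D) where
  app a := φ.app ⟨rep a.unop, hrep _⟩
  naturality a b f := by
    ext k x
    exact φ.act (C := ⟨rep b.unop, hrep _⟩) (C' := ⟨rep a.unop, hrep _⟩)
      (FL.MpS.ofHom k.unop (repMap f.unop)) x

/-- The restriction of a morphism of presheaves to `Θ_n`. -/
noncomputable def restrHom (hrep : ∀ θ : Th n, IsCat n (rep θ)) {F G : PSh n}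
    (φ : PSh.Hom F G) : F.restr hrep ⟶ G.restr hrep where
  app a := φ.app ⟨rep a.unop, hrep _⟩
  naturality a b f := by
    ext k x
    exact φ.act (C := ⟨rep b.unop, hrep _⟩) (C' := ⟨rep a.unop, hrep _⟩)
      (FL.MpS.ofHom k.unop (repMap f.unop)) x

/-- Composition of morphisms of presheaves. -/
def homComp {F G H : PSh n} (φ : PSh.Hom F G) (ψ : PSh.Hom G H) : PSh.Hom F H where
  app C := φ.app C ≫ ψ.app C
  act {C _} k χ x := (congrArg ((ψ.app C).app k) (φ.act χ x)).trans (ψ.act χ _)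

/-- The values of `φ`. -/
def vl (D : SP (Gn n)) {C : SP (Th n)} {k : SimplexCategoryᵒᵖ}
    (y : (SSet.uliftFunctor.{1, 0}.obj (FL.Mp (filt C) D)).obj k) :
    FL.MpS (filt C) D k.unop := ULift.down y

/-- The formula for a morphism in terms of its restriction. -/
theorem formula (hrep : ∀ θ : Th n, IsCat n (rep θ)) {F : PSh n} {D : SP (Gn n)}
    (φ : PSh.Hom F (upPSh (YD D))) (C : CatN n) (k : SimplexCategoryᵒᵖ) (x : (F.obj C).obj k)
    (g : (Gn n)ᵒᵖ) (m : SimplexCategoryᵒᵖ) (t : m.unop ⟶ k.unop)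
    (c : (C.1.obj (op ((tower n).obj g.unop))).obj m) :
    (vl D (C := C.1) ((φ.app C).app k x)).app g m t c =
      (vl D (C := rep ((tower n).obj g.unop))
        (((toRestr hrep φ).app (op ((tower n).obj g.unop))).app m
        (F.act (C := ⟨rep _, hrep _⟩) (C' := C) (yoS c) ((F.obj C).map t.op x)))).app g m (𝟙 _)
          (𝟙 ((tower n).obj g.unop)) := by
  have h1 := φ.act (C := ⟨rep _, hrep _⟩) (C' := C)
    (yoS (C := C.1) (a := (tower n).obj g.unop) (k := m.unop) c) ((F.obj C).map t.op x)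
  have h2 : vl D (C := C.1) ((φ.app C).app m ((F.obj C).map t.op x)) =
      FL.MpS.res t (vl D (C := C.1) ((φ.app C).app k x)) :=
    congrArg (vl D (C := C.1)) (sset_nat (φ.app C) t.op x)
  refine Eq.trans ?_ (congrArg (fun w => (vl D (C := rep ((tower n).obj g.unop)) w).app g m (𝟙 _)
    (𝟙 ((tower n).obj g.unop))) h1.symm)
  refine Eq.trans ?_ (congrArg (fun w : FL.MpS (filt C.1) D m.unop =>
    ((YD D).act (C := ⟨rep _, hrep _⟩) (C' := C)
      (yoS (C := C.1) (a := (tower n).obj g.unop) (k := m.unop) c) w :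
        FL.MpS (filt (rep ((tower n).obj g.unop))) D m.unop).app g m (𝟙 _)
          (𝟙 ((tower n).obj g.unop))) h2.symm)
  show _ = (vl D (C := C.1) ((φ.app C).app k x)).app g m (𝟙 _ ≫ t)
    ((yoS (C := C.1) (a := (tower n).obj g.unop) (k := m.unop) c).app
      (op ((tower n).obj g.unop)) m (𝟙 _) (𝟙 ((tower n).obj g.unop)))
  rw [yoS_one, Category.id_comp]

/-- The simplex given by the formula. -/
noncomputable def extS (hrep : ∀ θ : Th n, IsCat n (rep θ)) {F : PSh n} {D : SP (Gn n)}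
    (χ : F.restr hrep ⟶ upP (ND D)) (C : CatN n) (k : SimplexCategoryᵒᵖ) (x : (F.obj C).obj k) :
    FL.MpS (filt C.1) D k.unop where
  app g m t c := (vl D (C := rep ((tower n).obj g.unop))
      ((χ.app (op ((tower n).obj g.unop))).app m
        (F.act (C := ⟨rep _, hrep _⟩) (C' := C)
          (yoS (C := C.1) (a := (tower n).obj g.unop) (k := m.unop) c)
            ((F.obj C).map t.op x)))).app g m (𝟙 _) (𝟙 ((tower n).obj g.unop))
  nat_left {g g'} f m t c := by
    have h1 := yoS_map (C := C.1) (k := m) ((tower n).map f.unop) c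
    have h2 := F.act_comp (C := ⟨rep _, hrep _⟩) (C' := ⟨rep _, hrep _⟩) (C'' := C)
      (FL.MpS.ofHom m.unop (repMap ((tower n).map f.unop)))
      (yoS (C := C.1) (a := (tower n).obj g.unop) (k := m.unop) c) ((F.obj C).map t.op x)
    have h3 : F.act (C := ⟨rep _, hrep _⟩) (C' := C) (yoS (C := C.1) (a := (tower n).obj g'.unop)
        (k := m.unop) ((C.1.map ((tower n).map f.unop).op).app m c)) ((F.obj C).map t.op x) =
        ((F.restr hrep).map ((tower n).map f.unop).op).app m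
          (F.act (C := ⟨rep _, hrep _⟩) (C' := C)
            (yoS (C := C.1) (a := (tower n).obj g.unop) (k := m.unop) c)
            ((F.obj C).map t.op x)) :=
      (congrArg (fun w => F.act (C := ⟨rep _, hrep _⟩) (C' := C) w ((F.obj C).map t.op x)) h1).trans
        h2
    have h4 := hom_nat χ ((tower n).map f.unop).op (k := m)
      (F.act (C := ⟨rep _, hrep _⟩) (C' := C)
            (yoS (C := C.1) (a := (tower n).obj g.unop) (k := m.unop) c)
            ((F.obj C).map t.op x))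
    refine (congrArg (fun w => (vl D (C := rep ((tower n).obj g'.unop))
      ((χ.app (op ((tower n).obj g'.unop))).app m w)).app g' m (𝟙 _)
        (𝟙 ((tower n).obj g'.unop))) h3).trans ?_
    refine (congrArg (fun w => (vl D (C := rep ((tower n).obj g'.unop)) w).app g' m (𝟙 _)
      (𝟙 ((tower n).obj g'.unop))) h4).trans ?_
    refine Eq.trans ?_ (FL.MpS.nat_left (vl D (C := rep ((tower n).obj g.unop))
      ((χ.app (op ((tower n).obj g.unop))).app m
        (F.act (C := ⟨rep _, hrep _⟩) (C' := C)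
          (yoS (C := C.1) (a := (tower n).obj g.unop) (k := m.unop) c)
            ((F.obj C).map t.op x)))) f m (𝟙 _) (𝟙 ((tower n).obj g.unop)))
    refine congrArg (FL.MpS.app (vl D (C := rep ((tower n).obj g.unop))
      ((χ.app (op ((tower n).obj g.unop))).app m
        (F.act (C := ⟨rep _, hrep _⟩) (C' := C)
          (yoS (C := C.1) (a := (tower n).obj g.unop) (k := m.unop) c)
            ((F.obj C).map t.op x)))) g' m (𝟙 _)) ?_
    exact (Category.id_comp ((tower n).map f.unop)).trans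
      (Category.comp_id ((tower n).map f.unop)).symm
  nat_right g {m l} α s c := by
    have h1 := yoS_res (C := C.1) α c
    have h2 := F.act_nat (C := ⟨rep _, hrep _⟩) (C' := C) α
      (yoS (C := C.1) (a := (tower n).obj g.unop) (k := m.unop) c) ((F.obj C).map s.op x)
    have h3 : F.act (C := ⟨rep _, hrep _⟩) (C' := C) (yoS (C := C.1) (a := (tower n).obj g.unop)
        (k := l.unop) ((C.1.obj _).map α c)) ((F.obj C).map (α.unop ≫ s).op x) =
        (F.obj ⟨rep _, hrep _⟩).map α (F.act (C := ⟨rep _, hrep _⟩) (C' := C)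
            (yoS (C := C.1) (a := (tower n).obj g.unop) (k := m.unop) c)
            ((F.obj C).map s.op x)) :=
      (congrArg₂ (F.act (C := ⟨rep _, hrep _⟩) (C' := C)) h1
        (sset_comp (F.obj C) s.op α x)).trans h2
    have h4 := hom_natk χ α (F.act (C := ⟨rep _, hrep _⟩) (C' := C)
            (yoS (C := C.1) (a := (tower n).obj g.unop) (k := m.unop) c)
            ((F.obj C).map s.op x))
    refine (congrArg (fun w => (vl D (C := rep ((tower n).obj g.unop))
      ((χ.app (op ((tower n).obj g.unop))).app l w)).app g l (𝟙 _)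
        (𝟙 ((tower n).obj g.unop))) h3).trans ?_
    refine (congrArg (fun w => (vl D (C := rep ((tower n).obj g.unop)) w).app g l (𝟙 _)
      (𝟙 ((tower n).obj g.unop))) h4).trans ?_
    refine Eq.trans ?_ (FL.MpS.nat_right (vl D (C := rep ((tower n).obj g.unop))
      ((χ.app (op ((tower n).obj g.unop))).app m
        (F.act (C := ⟨rep _, hrep _⟩) (C' := C)
          (yoS (C := C.1) (a := (tower n).obj g.unop) (k := m.unop) c)
            ((F.obj C).map s.op x)))) g α (𝟙 _) (𝟙 ((tower n).obj g.unop)))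
    refine congrArg (fun w => FL.MpS.app (vl D (C := rep ((tower n).obj g.unop))
      ((χ.app (op ((tower n).obj g.unop))).app m
        (F.act (C := ⟨rep _, hrep _⟩) (C' := C)
          (yoS (C := C.1) (a := (tower n).obj g.unop) (k := m.unop) c)
            ((F.obj C).map s.op x)))) g l w (𝟙 ((tower n).obj g.unop))) ?_
    exact (Category.id_comp _).trans (Category.comp_id _).symm

/-- The extension of a morphism defined on `Θ_n`. -/
noncomputable def ofRestr (hrep : ∀ θ : Th n, IsCat n (rep θ)) {F : PSh n} {D : SP (Gn n)}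
    (χ : F.restr hrep ⟶ upP (ND D)) : PSh.Hom F (upPSh (YD D)) where
  app C :=
    { app := fun k => ↾ fun x => ULift.up (extS hrep χ C k x)
      naturality := fun k l α => by
        refine ConcreteCategory.hom_ext _ _ fun x => ?_
        refine congrArg ULift.up ?_
        refine FL.MpS.ext ?_
        funext g m t c
        refine congrArg (fun w => (vl D (C := rep ((tower n).obj g.unop))
          ((χ.app (op ((tower n).obj g.unop))).app m
          (F.act (C := ⟨rep _, hrep _⟩) (C' := C)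
            (yoS (C := C.1) (a := (tower n).obj g.unop) (k := m.unop) c) w))).app g m (𝟙 _)
              (𝟙 ((tower n).obj g.unop))) ?_
        exact (sset_comp (F.obj C) α t.op x).symm }
  act {C C'} k φ x := by
    refine congrArg ULift.up ?_
    refine FL.MpS.ext ?_
    funext g m t c
    have h1 := F.act_nat (C := C) (C' := C') t.op φ x
    have h2 := F.act_comp (C := ⟨rep _, hrep _⟩) (C' := C) (C'' := C')
      (yoS (C := C.1) (a := (tower n).obj g.unop) (k := m.unop) c) (φ.res t)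
      ((F.obj C').map t.op x)
    have h3 := yoS_comp (C := C.1) (C' := C'.1) φ t (a := (tower n).obj g.unop) c
    refine congrArg (fun w => (vl D (C := rep ((tower n).obj g.unop))
      ((χ.app (op ((tower n).obj g.unop))).app m w)).app g m (𝟙 _)
        (𝟙 ((tower n).obj g.unop))) ?_
    refine (congrArg (F.act (C := ⟨rep _, hrep _⟩) (C' := C)
      (yoS (C := C.1) (a := (tower n).obj g.unop) (k := m.unop) c)) h1.symm).trans ?_
    refine h2.symm.trans ?_
    exact congrArg (fun w => F.act (C := ⟨rep _, hrep _⟩) (C' := C') w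
      ((F.obj C').map t.op x)) h3

theorem toRestr_ofRestr (hrep : ∀ θ : Th n, IsCat n (rep θ)) {F : PSh n} {D : SP (Gn n)}
    (χ : F.restr hrep ⟶ upP (ND D)) : toRestr hrep (ofRestr hrep χ) = χ := by
  refine NatTrans.ext (funext fun a => NatTrans.ext (funext fun k =>
    ConcreteCategory.hom_ext _ _ fun x => ?_))
  refine congrArg ULift.up (FL.MpS.ext (x := extS hrep χ ⟨rep a.unop, hrep _⟩ k x)
    (y := vl D (C := rep a.unop) ((χ.app a).app k x)) ?_)
  funext g m t c
  have h2 := hom_nat χ (Quiver.Hom.op (c : (tower n).obj g.unop ⟶ a.unop)) (k := m)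
    (((F.restr hrep).obj a).map t.op x)
  have h3 := hom_natk χ t.op x
  refine (congrArg (fun w => (vl D (C := rep ((tower n).obj g.unop)) w).app g m (𝟙 _)
    (𝟙 ((tower n).obj g.unop))) h2).trans ?_
  refine (congrArg (fun w => (vl D (C := rep ((tower n).obj g.unop))
    (((upP (ND D)).map (Quiver.Hom.op (c : (tower n).obj g.unop ⟶ a.unop))).app m w)).app g m
      (𝟙 _) (𝟙 ((tower n).obj g.unop))) h3).trans ?_
  have e1 : 𝟙 m.unop ≫ t = t := Category.id_comp t
  have e2 : 𝟙 ((tower n).obj g.unop) ≫ (c : (tower n).obj g.unop ⟶ a.unop) = c :=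
    Category.id_comp _
  exact congrArg₂ (fun (t : m.unop ⟶ k.unop) (c : (tower n).obj g.unop ⟶ a.unop) =>
    (vl D (C := rep a.unop) ((χ.app a).app k x)).app g m t c) e1 e2

theorem hom_ext {F G : PSh n} {φ ψ : PSh.Hom F G} (h : ∀ C, φ.app C = ψ.app C) : φ = ψ := by
  obtain ⟨a, _⟩ := φ
  obtain ⟨b, _⟩ := ψ
  have : a = b := funext h
  subst this
  rfl

theorem toRestr_injective (hrep : ∀ θ : Th n, IsCat n (rep θ)) {F : PSh n} {D : SP (Gn n)}
    {φ ψ : PSh.Hom F (upPSh (YD D))} (h : toRestr hrep φ = toRestr hrep ψ) : φ = ψ := by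
  refine hom_ext fun C => ?_
  refine NatTrans.ext (funext fun k => ConcreteCategory.hom_ext _ _ fun x => ?_)
  refine congrArg ULift.up (FL.MpS.ext (x := vl D (C := C.1) ((φ.app C).app k x))
    (y := vl D (C := C.1) ((ψ.app C).app k x)) ?_)
  funext g m t c
  refine (formula hrep φ C k x g m t c).trans (Eq.trans ?_ (formula hrep ψ C k x g m t c).symm)
  rw [h]

/-- Injectively fibrant presheaves on `Cat_n`. -/
def PSh.InjFib (G : PSh n) : Prop :=
  ∀ (F F' : PSh n) (i : PSh.Hom F F'), (∀ C, Mono (i.app C)) →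
    (∀ C, ∀ K : SSet.{1}, SSet.KanComplex K → HoEq ((MonoidalClosed.pre (i.app C)).app K)) →
    ∀ f : PSh.Hom F G, ∃ g : PSh.Hom F' G, ∀ C, i.app C ≫ g.app C = f.app C

theorem YD_injFib (hrep : ∀ θ : Th n, IsCat n (rep θ)) (D : SP (Gn n)) (hD : FL.InjFib D) :
    (upPSh (YD D)).InjFib := by
  intro F F' i hm hw f
  obtain ⟨g, hg⟩ := injFib_up (Pool.Agent.Helper36.FL.ND_injFib hD) (restrHom hrep i)
    ⟨fun a => hm _, fun a => hw _⟩ (toRestr hrep f)
  refine ⟨ofRestr hrep g, fun C => ?_⟩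
  have h1 : homComp i (ofRestr hrep g) = f := by
    apply toRestr_injective hrep
    rw [← hg]
    have h2 : toRestr hrep (homComp i (ofRestr hrep g)) =
        restrHom hrep i ≫ toRestr hrep (ofRestr hrep g) := rfl
    rw [h2, toRestr_ofRestr]
  rw [← h1]
  rfl

end Pool.Agent.Helper43.FLU
end

/- Helper94.FL.Power -/
section
/-!
Project FL, module FL-7: powers of simplicial presheaves.
-/

open CategoryTheory MonoidalCategory Opposite Limits HomotopicalAlgebra

set_option autoImplicit false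

namespace Pool.Agent.Helper94.FL

open _root_.FL

section SSetLevel

variable {X X' G G' K L : SSet.{0}}

/-- currying of maps of simplicial sets -/
noncomputable def curS (f : X ⊗ K ⟶ G) : X ⟶ (ihom K).obj G :=
  MonoidalClosed.curry ((β_ K X).hom ≫ f)

/-- uncurrying of maps of simplicial sets -/
noncomputable def uncS (g : X ⟶ (ihom K).obj G) : X ⊗ K ⟶ G :=
  (β_ K X).inv ≫ MonoidalClosed.uncurry g

lemma uncS_curS (f : X ⊗ K ⟶ G) : uncS (curS f) = f := by
  simp [uncS, curS]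

lemma curS_uncS (g : X ⟶ (ihom K).obj G) : curS (uncS g) = g := by
  simp [uncS, curS]

lemma curS_left (a : X' ⟶ X) (f : X ⊗ K ⟶ G) : curS (a ▷ K ≫ f) = a ≫ curS f := by
  rw [curS, curS, ← MonoidalClosed.curry_natural_left]
  congr 1

lemma curS_right (f : X ⊗ K ⟶ G) (b : G ⟶ G') : curS (f ≫ b) = curS f ≫ (ihom K).map b := by
  rw [curS, curS, ← MonoidalClosed.curry_natural_right, Category.assoc]

lemma curS_pre (i : K ⟶ L) (f : X ⊗ L ⟶ G) :
    curS (X ◁ i ≫ f) = curS f ≫ (MonoidalClosed.pre i).app G := by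
  rw [curS, curS, MonoidalClosed.curry_pre_app]
  congr 1

lemma uncS_left (a : X' ⟶ X) (g : X ⟶ (ihom K).obj G) : uncS (a ≫ g) = a ▷ K ≫ uncS g := by
  conv_lhs => rw [← curS_uncS g, ← curS_left, uncS_curS]

lemma uncS_right (g : X ⟶ (ihom K).obj G) (b : G ⟶ G') :
    uncS (g ≫ (ihom K).map b) = uncS g ≫ b := by
  conv_lhs => rw [← curS_uncS g, ← curS_right, uncS_curS]

lemma uncS_pre (i : K ⟶ L) (g : X ⟶ (ihom L).obj G) :
    uncS (g ≫ (MonoidalClosed.pre i).app G) = X ◁ i ≫ uncS g := by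
  conv_lhs => rw [← curS_uncS g, ← curS_pre, uncS_curS]

end SSetLevel

variable {J : Type} [SmallCategory J]

/-- the power `G^K` -/
noncomputable def pw (G : SP J) (K : SSet.{0}) : SP J := G ⋙ ihom K

/-- restriction of powers -/
noncomputable def pwPre (G : SP J) {K L : SSet.{0}} (i : K ⟶ L) : pw G L ⟶ pw G K :=
  Functor.whiskerLeft G (MonoidalClosed.pre i)

/-- functoriality of powers -/
noncomputable def pwMap {G G' : SP J} (q : G ⟶ G') (K : SSet.{0}) : pw G K ⟶ pw G' K :=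
  Functor.whiskerRight q (ihom K)

lemma pwPre_app (G : SP J) {K L : SSet.{0}} (i : K ⟶ L) (j : Jᵒᵖ) :
    (pwPre G i).app j = (MonoidalClosed.pre i).app (G.obj j) := rfl

lemma pwMap_app {G G' : SP J} (q : G ⟶ G') (K : SSet.{0}) (j : Jᵒᵖ) :
    (pwMap q K).app j = (ihom K).map (q.app j) := rfl

lemma pw_comm {G G' : SP J} (q : G ⟶ G') {K L : SSet.{0}} (i : K ⟶ L) :
    pwPre G i ≫ pwMap q K = pwMap q L ≫ pwPre G' i := by
  ext1
  ext1 j
  exact ((MonoidalClosed.pre i).naturality (q.app j)).symm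

/-- currying -/
noncomputable def cur {X G : SP J} {K : SSet.{0}} (f : tn X K ⟶ G) : X ⟶ pw G K where
  app j := curS (f.app j : X.obj j ⊗ K ⟶ G.obj j)
  naturality j j' g := by
    have h : X.map g ▷ K ≫ f.app j' = f.app j ≫ G.map g := f.naturality g
    exact (curS_left (X.map g) _).symm.trans ((congrArg curS h).trans (curS_right _ _))

/-- uncurrying -/
noncomputable def unc {X G : SP J} {K : SSet.{0}} (f : X ⟶ pw G K) : tn X K ⟶ G where
  app j := uncS (f.app j : X.obj j ⟶ (ihom K).obj (G.obj j))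
  naturality j j' g := by
    have h : X.map g ≫ f.app j' = f.app j ≫ (ihom K).map (G.map g) := f.naturality g
    exact (uncS_left (X.map g) _).symm.trans ((congrArg uncS h).trans (uncS_right _ _))

lemma unc_cur {X G : SP J} {K : SSet.{0}} (f : tn X K ⟶ G) : unc (cur f) = f := by
  ext1
  ext1 j
  exact uncS_curS _

lemma cur_unc {X G : SP J} {K : SSet.{0}} (f : X ⟶ pw G K) : cur (unc f) = f := by
  ext1
  ext1 j
  exact curS_uncS _

lemma cur_pre {X G : SP J} {K L : SSet.{0}} (i : K ⟶ L) (f : tn X L ⟶ G) :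
    cur (tnMap (𝟙 X) i ≫ f) = cur f ≫ pwPre G i := by
  ext1
  ext1 j
  exact curS_pre i _

lemma cur_map {X G G' : SP J} {K : SSet.{0}} (f : tn X K ⟶ G) (q : G ⟶ G') :
    cur (f ≫ q) = cur f ≫ pwMap q K := by
  ext1
  ext1 j
  exact curS_right _ _

lemma unc_pre {X G : SP J} {K L : SSet.{0}} (i : K ⟶ L) (f : X ⟶ pw G L) :
    unc (f ≫ pwPre G i) = tnMap (𝟙 X) i ≫ unc f := by
  conv_lhs => rw [← cur_unc f, ← cur_pre, unc_cur]

lemma unc_map {X G G' : SP J} {K : SSet.{0}} (f : X ⟶ pw G K) (q : G ⟶ G') :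
    unc (f ≫ pwMap q K) = unc f ≫ q := by
  conv_lhs => rw [← cur_unc f, ← cur_map, unc_cur]

end Pool.Agent.Helper94.FL
end

/- Helper94.FL.Htpy -/
section
/-!
Project FL, module FL-7: the part of the homotopy calculus used for homotopy limits.
-/

open CategoryTheory MonoidalCategory CartesianMonoidalCategory Simplicial Opposite Limits
  HomotopicalAlgebra

set_option autoImplicit false

namespace Pool.Agent.Helper94.FL

open _root_.FL Pool.Agent.Helper45.FL2 SSet SSet.modelCategoryQuillen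

theorem symm_of {X Y : SSet.{0}} (hY : SSet.KanComplex Y) {f g : X ⟶ Y} (h : Htpy f g) :
    Htpy g f := by
  obtain ⟨h, h0, h1⟩ := htpy_elim h
  obtain ⟨H, H0, H1, -⟩ := horn_edge (terminal.from Y) h (fst _ _ ≫ f) (terminal.from _)
    (by rw [h0, ι₀_fst_assoc]) (Subsingleton.elim _ _) (Subsingleton.elim _ _)
  exact htpy_mk H (H0.trans h1) (by rw [H1, ι₁_fst_assoc])

theorem trans_of {X Y : SSet.{0}} (hY : SSet.KanComplex Y) {f g k : X ⟶ Y} (h : Htpy f g)
    (h' : Htpy g k) : Htpy f k := by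
  obtain ⟨a, a0, a1⟩ := htpy_elim (symm_of hY h)
  obtain ⟨b, b0, b1⟩ := htpy_elim h'
  obtain ⟨H, H0, H1, -⟩ := horn_edge (terminal.from Y) a b (terminal.from _)
    (by rw [a0, b0]) (Subsingleton.elim _ _) (Subsingleton.elim _ _)
  exact htpy_mk H (H0.trans a1) (H1.trans b1)

theorem whisk_of {X' X Y Y' : SSet.{0}} (u : X' ⟶ X) {f g : X ⟶ Y} (h : Htpy f g) (v : Y ⟶ Y') :
    Htpy (u ≫ f ≫ v) (u ≫ g ≫ v) := by
  obtain ⟨h, h0, h1⟩ := htpy_elim h
  refine htpy_mk (u ▷ Δ[1] ≫ h ≫ v) ?_ ?_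
  · rw [← Category.assoc, ι₀_nat, Category.assoc, ← Category.assoc SSet.ι₀ h, h0]
  · rw [← Category.assoc, ι₁_nat, Category.assoc, ← Category.assoc SSet.ι₁ h, h1]

theorem comp_of {X Y Z : SSet.{0}} (hX : SSet.KanComplex X) (hZ : SSet.KanComplex Z)
    {f : X ⟶ Y} {g : Y ⟶ Z} (hf : HoEq f) (hg : HoEq g) : HoEq (f ≫ g) := by
  obtain ⟨f', a, b⟩ := hf
  obtain ⟨g', c, d⟩ := hg
  refine ⟨g' ≫ f', ?_, ?_⟩
  · refine trans_of hX ?_ a
    have := whisk_of f c f'
    simpa only [Category.assoc, Category.id_comp] using this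
  · refine trans_of hZ ?_ d
    have := whisk_of g' b g
    simpa only [Category.assoc, Category.id_comp] using this

theorem left_of {X Y Z : SSet.{0}} (hY : SSet.KanComplex Y)
    {f : X ⟶ Y} {g : Y ⟶ Z} (hf : HoEq f) (hfg : HoEq (f ≫ g)) : HoEq g := by
  obtain ⟨f', a, b⟩ := hf
  obtain ⟨k, c, d⟩ := hfg
  refine ⟨k ≫ f, ?_, ?_⟩
  · have h1 : Htpy (g ≫ k ≫ f) (f' ≫ (f ≫ g) ≫ k ≫ f) := by
      refine symm_of hY ?_
      have := whisk_of (𝟙 _) b (g ≫ k ≫ f)
      simpa only [Category.assoc, Category.id_comp] using this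
    have h2 : Htpy (f' ≫ (f ≫ g) ≫ k ≫ f) (f' ≫ f) := by
      have := whisk_of f' c f
      simpa only [Category.assoc, Category.id_comp] using this
    exact trans_of hY h1 (trans_of hY h2 b)
  · rw [Category.assoc]
    exact d

theorem right_of {X Y Z : SSet.{0}} (hY : SSet.KanComplex Y)
    {f : X ⟶ Y} {g : Y ⟶ Z} (hg : HoEq g) (hfg : HoEq (f ≫ g)) : HoEq f := by
  obtain ⟨g', a, b⟩ := hg
  obtain ⟨k, c, d⟩ := hfg
  refine ⟨g ≫ k, ?_, ?_⟩
  · rw [← Category.assoc]
    exact c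
  · have h1 : Htpy ((g ≫ k) ≫ f) ((g ≫ k ≫ f) ≫ g ≫ g') := by
      refine symm_of hY ?_
      have := whisk_of (g ≫ k ≫ f) a (𝟙 _)
      simpa only [Category.assoc, Category.id_comp, Category.comp_id] using this
    have h2 : Htpy ((g ≫ k ≫ f) ≫ g ≫ g') (g ≫ g') := by
      have := whisk_of g d g'
      simpa only [Category.assoc, Category.id_comp] using this
    exact trans_of hY h1 (trans_of hY h2 a)

theorem id_of (X : SSet.{0}) : HoEq (𝟙 X) :=
  ⟨𝟙 X, by rw [Category.comp_id]; exact htpy_refl _, by rw [Category.comp_id]; exact htpy_refl _⟩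

end Pool.Agent.Helper94.FL
end

/- Helper68.FL.WLift -/
section
/-!
# FL-6: the Bousfield-Kan weight has the left lifting property with respect to objectwise
trivial fibrations (by the relative nerve)
-/

open CategoryTheory MonoidalCategory Simplicial Opposite

set_option autoImplicit false

namespace FL68

open FL

variable {J : Type} [SmallCategory J]

/-- Functoriality of a diagram along the first-vertex maps of a chain. -/
lemma chain_zeroTo_comp {k l m : SimplexCategory} (σ : Chain J k) (α : l ⟶ k) (β : m ⟶ l) :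
    σ.zeroTo α ≫ (σ.res α).zeroTo β = σ.zeroTo (β ≫ α) :=
  σ.map_comp _ _ _ _ _

lemma chain_zeroTo_id {k : SimplexCategory} (σ : Chain J k) :
    σ.zeroTo (𝟙 k) = 𝟙 _ := σ.map_id _

/-- A `k`-simplex of the relative nerve of `G`. -/
structure RN (G : SP J) (k : SimplexCategory) : Type where
  σ : Chain J k
  g : ∀ (l : SimplexCategory) (α : l ⟶ k), (G.obj (op ((σ.res α).obj 0))).obj (op l)
  nat : ∀ {l l' : SimplexCategory} (α : l ⟶ k) (β : l' ⟶ l),
    (G.map ((σ.res α).zeroTo β).op).app (op l') (g l' (β ≫ α)) =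
      (G.obj (op ((σ.res α).obj 0))).map β.op (g l α)

lemma RN.ext_of {G : SP J} {k : SimplexCategory} {z z' : RN G k} (h : z.σ = z'.σ)
    (h' : HEq z.g z'.g) : z = z' := by
  cases z
  cases z'
  cases h
  cases h'
  rfl

/-- Restriction. -/
def RN.res {G : SP J} {k k' : SimplexCategory} (z : RN G k) (γ : k' ⟶ k) : RN G k' where
  σ := z.σ.res γ
  g l α := z.g l (α ≫ γ)
  nat α β := z.nat (α ≫ γ) β

lemma RN.g_id_comp {G : SP J} {k l : SimplexCategory} (z : RN G k) (α : l ⟶ k) :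
    z.g l (𝟙 l ≫ α) = z.g l α := eq_of_heq (congr_arg_heq (z.g l) (Category.id_comp α))

lemma RN.g_comp_id {G : SP J} {k l : SimplexCategory} (z : RN G k) (α : l ⟶ k) :
    z.g l (α ≫ 𝟙 k) = z.g l α := eq_of_heq (congr_arg_heq (z.g l) (Category.comp_id α))

lemma RN.res_id {G : SP J} {k : SimplexCategory} (z : RN G k) : z.res (𝟙 k) = z := by
  refine RN.ext_of rfl (heq_of_eq ?_)
  funext l α
  exact z.g_comp_id α

/-- The relative nerve. -/
def RNv (G : SP J) : SSet.{0} where
  obj k := RN G k.unop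
  map α := ↾ fun z => z.res α.unop
  map_id _ := by
    ext z
    exact z.res_id
  map_comp _ _ := rfl

/-- Functoriality. -/
def RN.mapq {G G' : SP J} (q : G ⟶ G') {k : SimplexCategory} (z : RN G k) : RN G' k where
  σ := z.σ
  g l α := (q.app _).app _ (z.g l α)
  nat {l l'} α β := by
    refine (hom_nat q _ _).symm.trans ?_
    refine (congrArg ((q.app _).app (op l')) (z.nat α β)).trans ?_
    exact hom_natk q β.op _

/-- Functoriality. -/
def RNv.mapq {G G' : SP J} (q : G ⟶ G') : RNv G ⟶ RNv G' where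
  app k := ↾ fun (z : RN G k.unop) => RN.mapq q z
  naturality _ _ _ := rfl

/-- The value at the identity. -/
def val {G : SP J} {k : SimplexCategory} (z : RN G k) (τ : Chain J k) (h : z.σ = τ) :
    (G.obj (op (τ.obj 0))).obj (op k) := by
  subst h
  exact z.g k (𝟙 k)

lemma val_res_self {G : SP J} {k l : SimplexCategory} (z : RN G k) (α : l ⟶ k)
    (h : (z.res α).σ = z.σ.res α) : val (z.res α) (z.σ.res α) h = z.g l α :=
  z.g_id_comp α

lemma val_res {G : SP J} {k l : SimplexCategory} (z : RN G k) (τ : Chain J k) (h : z.σ = τ)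
    (β : l ⟶ k) (h' : (z.res β).σ = τ.res β) :
    (G.map (τ.zeroTo β).op).app (op l) (val (z.res β) (τ.res β) h') =
      (G.obj (op (τ.obj 0))).map β.op (val z τ h) := by
  subst h
  refine Eq.trans ?_ (z.nat (𝟙 k) β)
  refine congrArg ((G.map (z.σ.zeroTo β).op).app (op l)) ?_
  refine (val_res_self z β h').trans ?_
  exact (z.g_comp_id β).symm

lemma val_mapq {G G' : SP J} (q : G ⟶ G') {k : SimplexCategory} (z : RN G k) (τ : Chain J k)
    (h : z.σ = τ) (h' : (z.mapq q).σ = τ) :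
    val (z.mapq q) τ h' = (q.app (op (τ.obj 0))).app (op k) (val z τ h) := by
  subst h
  rfl

lemma RN.ext' {G : SP J} {k : SimplexCategory} {z z' : RN G k} (h : z.σ = z'.σ)
    (h' : ∀ (l : SimplexCategory) (α : l ⟶ k) (h1 : (z.res α).σ = z'.σ.res α),
      val (z.res α) (z'.σ.res α) h1 = z'.g l α) : z = z' := by
  obtain ⟨σ, g, n⟩ := z
  obtain ⟨σ', g', n'⟩ := z'
  obtain rfl : σ = σ' := h
  refine RN.ext_of rfl (heq_of_eq ?_)
  funext l α
  exact (RN.g_id_comp (RN.mk σ g n) α).symm.trans (h' l α rfl)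

lemma val_congr {G : SP J} {k : SimplexCategory} {z z' : RN G k} (hz : z = z') (τ : Chain J k)
    (h : z.σ = τ) (h' : z'.σ = τ) : val z τ h = val z' τ h' := by
  subst hz
  rfl

lemma RN.ext'' {G : SP J} {k : SimplexCategory} {z z' : RN G k} (τ : Chain J k)
    (h : z.σ = τ) (h' : z'.σ = τ)
    (H : ∀ (l : SimplexCategory) (α : l ⟶ k) (h1 : (z.res α).σ = τ.res α)
      (h2 : (z'.res α).σ = τ.res α),
      val (z.res α) (τ.res α) h1 = val (z'.res α) (τ.res α) h2) : z = z' := by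
  subst h'
  exact RN.ext' h fun l α h1 => (H l α h1 rfl).trans (val_res_self z' α rfl)

lemma map_zeroTo_comp (G : SP J) {k l m : SimplexCategory} (σ : Chain J k) (α : l ⟶ k)
    (β : m ⟶ l) (o : SimplexCategoryᵒᵖ)
    (x : (G.obj (op ((σ.res (β ≫ α)).obj 0))).obj o) :
    (G.map (σ.zeroTo α).op).app o ((G.map ((σ.res α).zeroTo β).op).app o x) =
      (G.map (σ.zeroTo (β ≫ α)).op).app o x := by
  refine (sp_comp G _ _ x).symm.trans ?_
  exact congrArg (fun f => (G.map (Quiver.Hom.op f)).app o x) (chain_zeroTo_comp σ α β)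

lemma map_back (G : SP J) {k : SimplexCategory} (σ : Chain J k) (i j : Fin (k.len + 1))
    (hij : i ≤ j) (hji : j ≤ i) (o : SimplexCategoryᵒᵖ) (x : (G.obj (op (σ.obj j))).obj o) :
    (G.map (σ.map j i hji).op).app o ((G.map (σ.map i j hij).op).app o x) = x := by
  refine (sp_comp G _ _ x).symm.trans ?_
  refine (congrArg (fun f => (G.map (Quiver.Hom.op f)).app o x)
    ((σ.map_comp j i j hji hij).trans (σ.map_id j))).trans ?_
  exact sp_id G x

lemma surj_zero {l k : SimplexCategory} (α : l ⟶ k) (h : Function.Surjective α.toOrderHom) :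
    α.toOrderHom 0 ≤ 0 := by
  obtain ⟨i, hi⟩ := h 0
  rw [← hi]
  exact α.toOrderHom.monotone (Fin.zero_le _)

theorem rn_bdFill {G G' : SP J} (q : G ⟶ G') (hq : ∀ j, TrivFib (q.app j)) (n : ℕ) :
    BdFill (RNv.mapq q) n := by
  classical
  intro (e : ∀ (l : SimplexCategory) (α : l ⟶ ⦋n⦌), ¬ Function.Surjective α.toOrderHom → RN G l)
    (he : ∀ (l l' : SimplexCategory) (α : l ⟶ ⦋n⦌) (β : l' ⟶ l)
      (h : ¬ Function.Surjective α.toOrderHom)
      (h' : ¬ Function.Surjective (β ≫ α).toOrderHom), (e l α h).res β = e l' (β ≫ α) h')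
    (z' : RN G' ⦋n⦌)
    (hz' : ∀ (l : SimplexCategory) (α : l ⟶ ⦋n⦌) (h : ¬ Function.Surjective α.toOrderHom),
      (e l α h).mapq q = z'.res α)
  have hσ : ∀ (l : SimplexCategory) (α : l ⟶ ⦋n⦌) (h : ¬ Function.Surjective α.toOrderHom),
      (e l α h).σ = z'.σ.res α := fun l α h => congrArg RN.σ (hz' l α h)
  let v : ∀ (l : SimplexCategory) (α : l ⟶ ⦋n⦌), ¬ Function.Surjective α.toOrderHom →
      (G.obj (op ((z'.σ.res α).obj 0))).obj (op l) :=
    fun l α h => val (e l α h) (z'.σ.res α) (hσ l α h)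
  have hcomp : ∀ {l l' : SimplexCategory} (α : l ⟶ ⦋n⦌) (β : l' ⟶ l),
      ¬ Function.Surjective α.toOrderHom → ¬ Function.Surjective (β ≫ α).toOrderHom := by
    intro l l' α β h h'
    exact h (Function.Surjective.of_comp (g := β.toOrderHom) h')
  have hv_nat : ∀ {l l' : SimplexCategory} (α : l ⟶ ⦋n⦌) (β : l' ⟶ l)
      (h : ¬ Function.Surjective α.toOrderHom) (h' : ¬ Function.Surjective (β ≫ α).toOrderHom),
      (G.map ((z'.σ.res α).zeroTo β).op).app (op l') (v l' (β ≫ α) h') =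
        (G.obj (op ((z'.σ.res α).obj 0))).map β.op (v l α h) := by
    intro l l' α β h h'
    have h1 : ((e l α h).res β).σ = (z'.σ.res α).res β := congrArg (Chain.res · β) (hσ l α h)
    refine Eq.trans ?_ (val_res (e l α h) (z'.σ.res α) (hσ l α h) β h1)
    exact congrArg ((G.map ((z'.σ.res α).zeroTo β).op).app (op l'))
      (val_congr (he l l' α β h h').symm _ _ _)
  have hv_q : ∀ {l : SimplexCategory} (α : l ⟶ ⦋n⦌) (h : ¬ Function.Surjective α.toOrderHom),
      (q.app _).app (op l) (v l α h) = z'.g l α := by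
    intro l α h
    refine (val_mapq q (e l α h) (z'.σ.res α) (hσ l α h) (hσ l α h)).symm.trans ?_
    refine (val_congr (hz' l α h) (z'.σ.res α) _ rfl).trans ?_
    exact val_res_self z' α rfl
  obtain ⟨x, hx1, hx2⟩ := bdFill_of_lift (hq (op (z'.σ.obj 0)) n)
    (fun l α h => (G.map (z'.σ.zeroTo α).op).app (op l) (v l α h))
    (by
      intro l l' α β h h'
      refine (sp_nat G (z'.σ.zeroTo α).op β.op (v l α h)).symm.trans ?_
      refine (congrArg ((G.map (z'.σ.zeroTo α).op).app (op l')) (hv_nat α β h h').symm).trans ?_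
      exact map_zeroTo_comp G z'.σ α β _ _)
    (z'.g ⦋n⦌ (𝟙 _))
    (by
      intro l α h
      refine (hom_nat q (z'.σ.zeroTo α).op (v l α h)).trans ?_
      refine (congrArg ((G'.map (z'.σ.zeroTo α).op).app (op l))
        ((hv_q α h).trans (z'.g_comp_id α).symm)).trans ?_
      exact z'.nat (𝟙 _) α)
  let g : ∀ (l : SimplexCategory) (α : l ⟶ ⦋n⦌), (G.obj (op ((z'.σ.res α).obj 0))).obj (op l) :=
    fun l α => if h : Function.Surjective α.toOrderHom then
      (G.map (z'.σ.map (α.toOrderHom 0) 0 (surj_zero α h)).op).app (op l)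
        ((G.obj (op (z'.σ.obj 0))).map α.op x)
    else v l α h
  have hg1 : ∀ {l : SimplexCategory} (α : l ⟶ ⦋n⦌) (h : ¬ Function.Surjective α.toOrderHom),
      g l α = v l α h := fun α h => dif_neg h
  have hg2 : ∀ {l : SimplexCategory} (α : l ⟶ ⦋n⦌) (h : Function.Surjective α.toOrderHom),
      g l α = (G.map (z'.σ.map (α.toOrderHom 0) 0 (surj_zero α h)).op).app (op l)
        ((G.obj (op (z'.σ.obj 0))).map α.op x) := fun α h => dif_pos h
  have key : ∀ {l : SimplexCategory} (α : l ⟶ ⦋n⦌),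
      (G.map (z'.σ.zeroTo α).op).app (op l) (g l α) = (G.obj (op (z'.σ.obj 0))).map α.op x := by
    intro l α
    by_cases h : Function.Surjective α.toOrderHom
    · rw [hg2 α h]
      exact map_back G z'.σ (α.toOrderHom 0) 0 (surj_zero α h) (Fin.zero_le _) (op l) _
    · rw [hg1 α h]
      exact (hx2 l α h).symm
  have inj : ∀ {l : SimplexCategory} (α : l ⟶ ⦋n⦌) (_ : Function.Surjective α.toOrderHom)
      (G₀ : SP J) (o : SimplexCategoryᵒᵖ) (y y' : (G₀.obj (op ((z'.σ.res α).obj 0))).obj o),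
      (G₀.map (z'.σ.zeroTo α).op).app o y = (G₀.map (z'.σ.zeroTo α).op).app o y' → y = y' := by
    intro l α h G₀ o y y' hyy
    have h1 := congrArg
      ((G₀.map (z'.σ.map (α.toOrderHom 0) 0 (surj_zero α h)).op).app o) hyy
    have h2 := map_back G₀ z'.σ 0 (α.toOrderHom 0) (Fin.zero_le _) (surj_zero α h) o y
    have h3 := map_back G₀ z'.σ 0 (α.toOrderHom 0) (Fin.zero_le _) (surj_zero α h) o y'
    exact h2.symm.trans (h1.trans h3)
  have hnat : ∀ {l l' : SimplexCategory} (α : l ⟶ ⦋n⦌) (β : l' ⟶ l),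
      (G.map ((z'.σ.res α).zeroTo β).op).app (op l') (g l' (β ≫ α)) =
        (G.obj (op ((z'.σ.res α).obj 0))).map β.op (g l α) := by
    intro l l' α β
    by_cases h : Function.Surjective α.toOrderHom
    · apply inj α h
      refine (map_zeroTo_comp G z'.σ α β _ _).trans ?_
      refine (key (β ≫ α)).trans ?_
      refine (sset_comp _ α.op β.op x).trans ?_
      refine (congrArg ((G.obj (op (z'.σ.obj 0))).map β.op) (key α).symm).trans ?_
      exact (sp_nat G (z'.σ.zeroTo α).op β.op (g l α)).symm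
    · rw [hg1 α h, hg1 (β ≫ α) (hcomp α β h)]
      exact hv_nat α β h _
  refine ⟨(⟨z'.σ, g, hnat⟩ : RN G ⦋n⦌), ?_, ?_⟩
  · refine RN.ext_of rfl (heq_of_eq ?_)
    funext l α
    change (q.app _).app (op l) (g l α) = z'.g l α
    by_cases h : Function.Surjective α.toOrderHom
    · apply inj α h
      refine (hom_nat q (z'.σ.zeroTo α).op (g l α)).symm.trans ?_
      refine (congrArg ((q.app _).app (op l)) (key α)).trans ?_
      refine (hom_natk q α.op x).trans ?_
      refine (congrArg ((G'.obj (op (z'.σ.obj 0))).map α.op) hx1).trans ?_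
      refine (z'.nat (𝟙 _) α).symm.trans ?_
      exact congrArg ((G'.map (z'.σ.zeroTo α).op).app (op l)) (z'.g_comp_id α)
    · rw [hg1 α h]
      exact hv_q α h
  · intro l α h
    refine RN.ext'' (z'.σ.res α) rfl (hσ l α h) fun l' β h1 h2 => ?_
    refine (val_res_self (RN.res (⟨z'.σ, g, hnat⟩ : RN G ⦋n⦌) α) β rfl).trans ?_
    change g l' (β ≫ α) = _
    rw [hg1 (β ≫ α) (hcomp α β h)]
    exact val_congr (he l l' α β h _).symm _ _ _

theorem rnv_trivFib {G G' : SP J} (q : G ⟶ G') (hq : ∀ j, TrivFib (q.app j)) :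
    TrivFib (RNv.mapq q) := fun n => lift_of_bdFill (rn_bdFill q hq n)

/-- The projection of the relative nerve. -/
def RNv.proj (G : SP J) : RNv G ⟶ Nv J where
  app k := ↾ fun (z : RN G k.unop) => z.σ
  naturality _ _ _ := rfl

/-- The section of the relative nerve attached to a map from the weight. -/
def secOf {G : SP J} (f : W J ⟶ G) : Nv J ⟶ RNv G where
  app k := ↾ fun (σ : Chain J k.unop) =>
    (⟨σ, fun l α => (f.app (op ((σ.res α).obj 0))).app (op l) (⟨σ.res α, 𝟙 _⟩ : WS _ l), by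
      intro l l' α β
      refine (hom_nat f ((σ.res α).zeroTo β).op
        (a := op (((σ.res α).res β).obj 0)) (⟨(σ.res α).res β, 𝟙 _⟩ : WS _ l')).symm.trans ?_
      refine Eq.trans ?_ (hom_natk f β.op (a := op ((σ.res α).obj 0))
        (⟨σ.res α, 𝟙 _⟩ : WS _ l))
      refine congrArg ((f.app (op ((σ.res α).obj 0))).app (op l')) ?_
      exact congrArg (WS.mk ((σ.res α).res β))
        ((Category.comp_id _).trans (Category.id_comp _).symm)⟩ : RN G k.unop)
  naturality k l α := by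
    ext σ
    rfl

/-- The map from the weight attached to a section of the relative nerve. -/
def ofSec {G : SP J} (s : Nv J ⟶ RNv G) (hs : s ≫ RNv.proj G = 𝟙 _) : W J ⟶ G where
  app j :=
    { app := fun k => ↾ fun (w : WS j.unop k.unop) =>
        (G.map w.u.op).app k (val (s.app k w.σ : RN G k.unop) w.σ
          (congrArg (fun (f : Nv J ⟶ Nv J) => f.app k w.σ) hs))
      naturality := fun k l α => by
        ext (w : WS j.unop k.unop)
        have h := congrArg (fun (f : Nv J ⟶ Nv J) => f.app k w.σ) hs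
        have h' := congrArg (fun (f : Nv J ⟶ Nv J) => f.app l (w.σ.res α.unop)) hs
        have h1 : (s.app l (w.σ.res α.unop) : RN G l.unop) =
          (s.app k w.σ : RN G k.unop).res α.unop := sset_nat s α w.σ
        show (G.map (w.u ≫ w.σ.zeroTo α.unop).op).app l
          (val (s.app l (w.σ.res α.unop) : RN G l.unop) (w.σ.res α.unop) h') =
          (G.obj j).map α ((G.map w.u.op).app k (val (s.app k w.σ : RN G k.unop) w.σ h))
        refine (sp_comp G (w.σ.zeroTo α.unop).op w.u.op _).trans ?_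
        refine Eq.trans ?_ (sp_nat G w.u.op α _)
        refine congrArg ((G.map w.u.op).app l) ?_
        refine (congrArg ((G.map (w.σ.zeroTo α.unop).op).app l)
          (val_congr h1 (w.σ.res α.unop) h' (congrArg (Chain.res · α.unop) h))).trans ?_
        exact val_res (s.app k w.σ : RN G k.unop) w.σ h α.unop _ }
  naturality j j' f := by
    ext k (w : WS j.unop k.unop)
    exact sp_comp G w.u.op f _

theorem ofSec_app {G : SP J} (s : Nv J ⟶ RNv G) (hs : s ≫ RNv.proj G = 𝟙 _) (j : Jᵒᵖ)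
    (k : SimplexCategoryᵒᵖ) (w : WS j.unop k.unop) (h : (s.app k w.σ : RN G k.unop).σ = w.σ) :
    ((ofSec s hs).app j).app k w =
      (G.map w.u.op).app k (val (s.app k w.σ : RN G k.unop) w.σ h) := rfl

/-- FL-6, with FL-2 `TrivFib.lift` as an explicit hypothesis. -/
theorem W_lift_of {G G' : SP J} (q : G ⟶ G') (hq : ∀ j, TrivFib (q.app j)) (f : W J ⟶ G')
    (TrivFib_lift : ∀ {E B : SSet.{0}} {p : E ⟶ B} (_ : TrivFib p) {K L : SSet.{0}} (i : K ⟶ L)
      [Mono i], HasLiftingProperty i p) :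
    ∃ g : W J ⟶ G, g ≫ q = f := by
  have hl := TrivFib_lift (rnv_trivFib q hq) ((⊥ : (Nv J).Subcomplex).ι)
  let t : ((⊥ : (Nv J).Subcomplex) : SSet.{0}) ⟶ RNv G :=
    { app := fun k => ↾ fun x => (x.2 : False).elim
      naturality := fun k l α => by
        ext x
        exact (x.2 : False).elim }
  have sq : CommSq t ((⊥ : (Nv J).Subcomplex).ι) (RNv.mapq q) (secOf f) := ⟨by
    ext k x
    exact (x.2 : False).elim⟩
  have h2 : sq.lift ≫ RNv.mapq q = secOf f := sq.fac_right
  have hs : sq.lift ≫ RNv.proj G = 𝟙 _ := by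
    have h3 : sq.lift ≫ RNv.mapq q ≫ RNv.proj G' = secOf f ≫ RNv.proj G' :=
      (Category.assoc _ _ _).symm.trans (congrArg (· ≫ RNv.proj G') h2)
    exact h3
  refine ⟨ofSec sq.lift hs, ?_⟩
  ext j k (w : WS j.unop k.unop)
  have h := congrArg (fun (f : Nv J ⟶ Nv J) => f.app k w.σ) hs
  change (q.app j).app k ((G.map w.u.op).app k
    (val (sq.lift.app k w.σ : RN G k.unop) w.σ h)) = (f.app j).app k w
  refine (hom_nat q w.u.op _).trans ?_
  have h4 : (sq.lift.app k w.σ : RN G k.unop).mapq q = (secOf f).app k w.σ :=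
    congrArg (fun (f : Nv J ⟶ RNv G') => f.app k w.σ) h2
  refine (congrArg ((G'.map w.u.op).app k)
    ((val_mapq q (sq.lift.app k w.σ : RN G k.unop) w.σ h h).symm.trans
      (val_congr h4 w.σ h rfl))).trans ?_
  refine (hom_nat f w.u.op (a := op (w.σ.obj 0)) (⟨w.σ, 𝟙 _⟩ : WS _ k.unop)).symm.trans ?_
  refine congrArg ((f.app j).app k) ?_
  obtain ⟨σ, u⟩ := w
  exact congrArg (WS.mk σ) (Category.comp_id u)

end FL68
end

/- Helper94.FL.Path -/
section
/-!
Project FL, module FL-7: path objects.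
-/

open CategoryTheory MonoidalCategory CartesianMonoidalCategory Simplicial Opposite Limits
  HomotopicalAlgebra

set_option autoImplicit false

namespace Pool.Agent.Helper94.FL

open _root_.FL Pool.Agent.Helper45.FL2

section SSetLevel

variable {X Y G G' : SSet.{0}}

theorem two_ext (f g : X ⊗ (∂Δ[1] : SSet.{0}) ⟶ Y) (h0 : en X 0 ≫ f = en X 0 ≫ g)
    (h1 : en X 1 ≫ f = en X 1 ≫ g) : f = g := by
  ext m ⟨x, s⟩
  have key : ∀ i : Fin (1 + 1), SSet.stdSimplex.asOrderHom s.1 0 = i →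
      ((x, s) : (X ⊗ (∂Δ[1] : SSet.{0})).obj m) = (en X i).app m x := by
    intro i hi
    refine Prod.ext rfl (Subtype.ext ?_)
    refine SSet.stdSimplex.ext _ _ fun j => ?_
    exact (boundary_const s j 0).trans hi
  rcases fin2 (SSet.stdSimplex.asOrderHom s.1 0) with h | h
  · have h2 := key _ h
    have h3 := ConcreteCategory.congr_hom (NatTrans.congr_app h0 m) x
    rw [h2]
    exact h3
  · have h2 := key _ h
    have h3 := ConcreteCategory.congr_hom (NatTrans.congr_app h1 m) x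
    rw [h2]
    exact h3

lemma en_nat (f : X ⟶ Y) (i : Fin (1 + 1)) :
    en X i ≫ f ▷ (∂Δ[1] : SSet.{0}) = f ≫ en Y i := by
  refine CartesianMonoidalCategory.hom_ext _ _ ?_ ?_
  · rw [Category.assoc, Category.assoc, whiskerRight_fst, en, en, lift_fst_assoc, lift_fst,
      Category.id_comp, Category.comp_id]
  · rw [Category.assoc, Category.assoc, whiskerRight_snd, en, en, lift_snd, lift_snd,
      SSet.comp_const]

/-- evaluation at the vertex `0` -/
noncomputable def ev0 (X : SSet.{0}) : (ihom Δ[1]).obj X ⟶ X := SSet.ι₀ ≫ uncS (𝟙 _)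

/-- evaluation at the vertex `1` -/
noncomputable def ev1 (X : SSet.{0}) : (ihom Δ[1]).obj X ⟶ X := SSet.ι₁ ≫ uncS (𝟙 _)

lemma comp_ev0 (g : Y ⟶ (ihom Δ[1]).obj X) : g ≫ ev0 X = SSet.ι₀ ≫ uncS g := by
  rw [ev0, ← Category.assoc, ← ι₀_nat, Category.assoc, ← uncS_left, Category.comp_id]

lemma comp_ev1 (g : Y ⟶ (ihom Δ[1]).obj X) : g ≫ ev1 X = SSet.ι₁ ≫ uncS g := by
  rw [ev1, ← Category.assoc, ← ι₁_nat, Category.assoc, ← uncS_left, Category.comp_id]

lemma ev0_nat (b : G ⟶ G') : (ihom Δ[1]).map b ≫ ev0 G' = ev0 G ≫ b := by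
  rw [comp_ev0, ev0, ← Category.id_comp ((ihom Δ[1]).map b), uncS_right, Category.assoc]

lemma ev1_nat (b : G ⟶ G') : (ihom Δ[1]).map b ≫ ev1 G' = ev1 G ≫ b := by
  rw [comp_ev1, ev1, ← Category.id_comp ((ihom Δ[1]).map b), uncS_right, Category.assoc]

open SSet.modelCategoryQuillen in
/-- a simplicial set with fillers of horns is a Kan complex -/
theorem kan_of_fill {X : SSet.{0}} (h : ∀ (n : ℕ) (i : Fin (n + 2))
    (t : (Λ[n + 1, i] : SSet.{0}) ⟶ X), ∃ l : Δ[n + 1] ⟶ X, Λ[n + 1, i].ι ≫ l = t) :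
    SSet.KanComplex X := by
  refine (isFibrant_iff X).2 ⟨?_⟩
  rw [SSet.modelCategoryQuillen.fibrations_eq]
  intro _ _ _ hf
  simp only [SSet.modelCategoryQuillen.J, MorphismProperty.iSup_iff] at hf
  obtain ⟨n, ⟨i⟩⟩ := hf
  refine ⟨fun {t _} _ => ?_⟩
  obtain ⟨l, hl⟩ := h n i t
  exact ⟨⟨{ l := l, fac_left := hl, fac_right := by subsingleton }⟩⟩

open SSet.modelCategoryQuillen in
/-- fillers of horns in a Kan complex -/
theorem fill_of_kan {X : SSet.{0}} (hX : SSet.KanComplex X) (n : ℕ) (i : Fin (n + 2))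
    (t : (Λ[n + 1, i] : SSet.{0}) ⟶ X) : ∃ l : Δ[n + 1] ⟶ X, Λ[n + 1, i].ι ≫ l = t := by
  have hf : Fibration (terminal.from X) := (isFibrant_iff X).1 hX
  have hl : HasLiftingProperty (Λ[n + 1, i].ι : (Λ[n + 1, i] : SSet.{0}) ⟶ _)
    (terminal.from X) := SSet.anodyneExtensions.horn_ι i _ ((fibration_iff _).1 hf)
  have sq : CommSq t (Λ[n + 1, i].ι : (Λ[n + 1, i] : SSet.{0}) ⟶ _)
    (terminal.from X) (terminal.from _) := ⟨Subsingleton.elim _ _⟩
  exact ⟨sq.lift, sq.fac_left⟩

variable {P : SSet.{0}}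

/-- the first projection of the mapping path space is a trivial fibration -/
theorem fst_trivFib {q : G ⟶ G'} {fst' : P ⟶ G} {snd' : P ⟶ (ihom Δ[1]).obj G'}
    (hP : IsPullback fst' snd' q (ev0 G')) (hG' : SSet.KanComplex G') : TrivFib fst' := by
  intro n
  constructor
  intro t b sq
  obtain ⟨h, -, h0, h1⟩ := rel_path (terminal.from G') (∂Δ[n] : (Δ[n] : SSet.{0}).Subcomplex)
    (terminal.from _) (b ≫ q) (uncS (t ≫ snd')) (Subsingleton.elim _ _) (Subsingleton.elim _ _)
    (by rw [← comp_ev0, Category.assoc, ← hP.w, ← Category.assoc, sq.w, Category.assoc])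
  have hw : b ≫ q = curS h ≫ ev0 G' := by rw [comp_ev0, uncS_curS, h0]
  refine ⟨⟨{ l := hP.lift _ _ hw, fac_left := ?_, fac_right := hP.lift_fst _ _ hw }⟩⟩
  apply hP.hom_ext
  · rw [Category.assoc, hP.lift_fst, sq.w]
  · rw [Category.assoc, hP.lift_snd, ← curS_left, h1, curS_uncS]

open SSet.modelCategoryQuillen in
/-- the second projection of the mapping path space is a Kan fibration -/
theorem snd_kanFib {q : G ⟶ G'} {fst' : P ⟶ G} {snd' : P ⟶ (ihom Δ[1]).obj G'}
    (hP : IsPullback fst' snd' q (ev0 G')) (hG : SSet.KanComplex G) (hG' : SSet.KanComplex G') :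
    KanFib (snd' ≫ ev1 G') := by
  intro n i
  constructor
  intro t b sq
  obtain ⟨a, ha⟩ := fill_of_kan hG n i (t ≫ fst')
  have hl : HasLiftingProperty (Λ[n + 1, i].ι : (Λ[n + 1, i] : SSet.{0}) ⟶ _)
    ((MonoidalClosed.pre (∂Δ[1].ι : (∂Δ[1] : SSet.{0}) ⟶ Δ[1])).app G') :=
    SSet.anodyneExtensions.horn_ι i _ ((fibration_iff _).1 inferInstance)
  have sq2 : CommSq (t ≫ snd') (Λ[n + 1, i].ι : (Λ[n + 1, i] : SSet.{0}) ⟶ _)
      ((MonoidalClosed.pre (∂Δ[1].ι : (∂Δ[1] : SSet.{0}) ⟶ Δ[1])).app G')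
      (curS (two (a ≫ q) b)) := ⟨by
    rw [← curS_left, ← curS_uncS ((t ≫ snd') ≫ _), uncS_pre]
    congr 1
    symm
    apply two_ext
    · rw [← Category.assoc, en_nat, Category.assoc, en_zero_two, ← Category.assoc (en _ 0),
        en_zero, ← comp_ev0, ← Category.assoc, ha, Category.assoc, Category.assoc, hP.w]
    · rw [← Category.assoc, en_nat, Category.assoc, en_one_two, ← Category.assoc (en _ 1),
        en_one, ← comp_ev1, Category.assoc, sq.w]⟩
  have key : uncS (sq2.lift ≫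
      (MonoidalClosed.pre (∂Δ[1].ι : (∂Δ[1] : SSet.{0}) ⟶ Δ[1])).app G') =
      two (a ≫ q) b := by
    rw [sq2.fac_right, uncS_curS]
  rw [uncS_pre] at key
  have hw : a ≫ q = sq2.lift ≫ ev0 G' := by
    rw [comp_ev0, ← en_zero, Category.assoc, key, en_zero_two]
  refine ⟨⟨{ l := hP.lift _ _ hw, fac_left := ?_, fac_right := ?_ }⟩⟩
  · apply hP.hom_ext
    · rw [Category.assoc, hP.lift_fst, ha]
    · rw [Category.assoc, hP.lift_snd, sq2.fac_left]
  · rw [← Category.assoc, hP.lift_snd, comp_ev1, ← en_one, Category.assoc, key, en_one_two]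

/-- the mapping path space is a Kan complex -/
theorem path_kan {q : G ⟶ G'} {fst' : P ⟶ G} {snd' : P ⟶ (ihom Δ[1]).obj G'}
    (hP : IsPullback fst' snd' q (ev0 G')) (hG : SSet.KanComplex G) (hG' : SSet.KanComplex G') :
    SSet.KanComplex P := by
  refine kan_of_fill fun n i t => ?_
  obtain ⟨b, hb⟩ := fill_of_kan hG n i (t ≫ fst')
  have hl := TrivFib.kanFib (fst_trivFib hP hG') n i
  have sq : CommSq t (Λ[n + 1, i].ι : (Λ[n + 1, i] : SSet.{0}) ⟶ _) fst' b := ⟨hb.symm⟩
  exact ⟨sq.lift, sq.fac_left⟩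

end SSetLevel

end Pool.Agent.Helper94.FL
end

/- Helper64.FL2.GauntA -/
section
/-!
# FL2-F8: Segal covers are gaunt colimit diagrams
-/

open CategoryTheory MonoidalCategory Opposite FL

set_option autoImplicit false

namespace Pool.Agent.Helper64.FL2

open Pool.Agent.Helper88.FL

section

variable {A : Type} [SmallCategory A] {X : SP A}

theorem lc_isIso {P Q : SP A} (f : P ⟶ Q) (hf : IsIso f) : Loc X f := by
  have : IsIso (Mp.pre f X) := ⟨Mp.pre (inv f) X, by
    have : Mp.pre f X ≫ Mp.pre (inv f) X = Mp.pre (inv f ≫ f) X := rfl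
    rw [this, IsIso.inv_hom_id]; rfl, by
    have : Mp.pre (inv f) X ≫ Mp.pre f X = Mp.pre (f ≫ inv f) X := rfl
    rw [this, IsIso.hom_inv_id]; rfl⟩
  exact hoEq_of_isIso _

theorem lc_comp (hX : InjFib X) {P Q R : SP A} {f : P ⟶ Q} {g : Q ⟶ R} (hf : Loc X f)
    (hg : Loc X g) : Loc X (f ≫ g) :=
  hoEq_comp (Pool.Agent.Helper83.FL4.Mp_kan _ hX) (Pool.Agent.Helper83.FL4.Mp_kan _ hX)
    (Pool.Agent.Helper83.FL4.Mp_kan _ hX) hg hf

theorem lc_arrow_iso {P Q P' Q' : SP A} {f : P ⟶ Q} {f' : P' ⟶ Q'} (e : P ≅ P')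
    (e' : Q ≅ Q') (h : f ≫ e'.hom = e.hom ≫ f') (hf : Loc X f) : Loc X f' := by
  refine hoEq_of_arrow_iso (X := Mp Q X) (Y := Mp P X) (f := Mp.pre f X)
    ⟨Mp.pre e'.inv X, Mp.pre e'.hom X, ?_, ?_⟩ ⟨Mp.pre e.inv X, Mp.pre e.hom X, ?_, ?_⟩ ?_ hf
  · show Mp.pre (e'.hom ≫ e'.inv) X = _
    rw [Iso.hom_inv_id]; rfl
  · show Mp.pre (e'.inv ≫ e'.hom) X = _
    rw [Iso.inv_hom_id]; rfl
  · show Mp.pre (e.hom ≫ e.inv) X = _
    rw [Iso.hom_inv_id]; rfl
  · show Mp.pre (e.inv ≫ e.hom) X = _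
    rw [Iso.inv_hom_id]; rfl
  · show Mp.pre (e.inv ≫ f) X = Mp.pre (f' ≫ e'.inv) X
    congr 1
    rw [Iso.inv_comp_eq, ← Category.assoc, ← h, Category.assoc, Iso.hom_inv_id, Category.comp_id]

end

section

variable {A B : Type} [SmallCategory A] [SmallCategory B]

/-- If all arrows from the image of `F` belong to the sieve, the restricted inclusion is an
isomorphism. -/
theorem isIso_whisker_sieve (F : B ⥤ A) {a : A} (S : Sieve a)
    (h : ∀ b (f : F.obj b ⟶ a), S.arrows f) :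
    IsIso (Functor.whiskerLeft F.op (sieveIncl S)) := by
  let g : F.op ⋙ rep a ⟶ F.op ⋙ disc S.functor :=
    { app := fun b =>
        { app := fun k => ↾ fun (u : F.obj b.unop ⟶ a) =>
            (⟨u, h _ u⟩ : S.functor.obj (op (F.obj b.unop)))
          naturality := fun k l α => rfl }
      naturality := fun b b' g => rfl }
  exact ⟨g, rfl, rfl⟩

end

section

variable {C D : Type} [SmallCategory C] [SmallCategory D] (F : D ⥤ C)

/-- The labels of the restriction of a representable. -/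
abbrev lb (θ : Wr C) : Fin θ.len → SP D := fun k => F.op ⋙ rep (θ.obj k)

/-- `(Wr F)^* h_θ = V(F^* h_{θ_1}, …)`. -/
def repV (θ : Wr C) : V (lb F θ) ≅ (Wr.map F).op ⋙ rep θ where
  hom :=
    { app := fun η =>
        { app := fun k => ↾ fun (u : VS (lb F θ) η.unop k) =>
            (({ f := u.f, g := fun i j h => u.g i j h } :
              Wr.Hom ((Wr.map F).obj η.unop) θ) : (Wr.map F).obj η.unop ⟶ θ)
          naturality := fun k l α => rfl }
      naturality := fun η η' φ => by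
        refine NatTrans.ext (funext fun k => ?_)
        refine ConcreteCategory.hom_ext _ _ fun (u : VS (lb F θ) η.unop k) => ?_
        refine Wr.hom_ext' rfl fun i l h h' => ?_
        obtain ⟨r, hr, hr'⟩ := Jump.split (f := Wr.Hom.f φ.unop) (g := u.f) h
        refine (VS.mapθ_g φ.unop u hr hr').trans ?_
        exact (Wr.comp_g (X := (Wr.map F).obj η'.unop) (Y := (Wr.map F).obj η.unop) (Z := θ)
          ((Wr.map F).map φ.unop) (({ f := u.f, g := fun i j h => u.g i j h } :
              Wr.Hom ((Wr.map F).obj η.unop) θ) : (Wr.map F).obj η.unop ⟶ θ) hr hr').symm }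
  inv :=
    { app := fun η =>
        { app := fun k => ↾ fun (u : (Wr.map F).obj η.unop ⟶ θ) =>
            ({ f := Wr.Hom.f (X := (Wr.map F).obj η.unop) (Y := θ) u
               g := fun i j h => Wr.Hom.g (X := (Wr.map F).obj η.unop) (Y := θ) u i j h } :
              VS (lb F θ) η.unop k)
          naturality := fun k l α => rfl }
      naturality := fun η η' φ => by
        refine NatTrans.ext (funext fun k => ?_)
        refine ConcreteCategory.hom_ext _ _ fun (u : (Wr.map F).obj η.unop ⟶ θ) => ?_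
        refine VS.ext' rfl fun i l h h' => ?_
        obtain ⟨r, hr, hr'⟩ := Jump.split (f := Wr.Hom.f φ.unop)
          (g := Wr.Hom.f (X := (Wr.map F).obj η.unop) (Y := θ) u) h
        refine (Wr.comp_g (X := (Wr.map F).obj η'.unop) (Y := (Wr.map F).obj η.unop) (Z := θ)
          ((Wr.map F).map φ.unop) u hr hr').trans ?_
        exact (VS.mapθ_g φ.unop ({ f := Wr.Hom.f (X := (Wr.map F).obj η.unop) (Y := θ) u
                                   g := fun i j h =>
                                    Wr.Hom.g (X := (Wr.map F).obj η.unop) (Y := θ) u i j h } :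
          VS (lb F θ) η.unop k) hr hr').symm }
  hom_inv_id := rfl
  inv_hom_id := rfl

end

end Pool.Agent.Helper64.FL2
end

/- Helper61.FL2.Prod -/
section
/-!
Project FL2, auxiliary facts on products of simplicial sets.
-/

open CategoryTheory MonoidalCategory CartesianMonoidalCategory Simplicial Opposite
  HomotopicalAlgebra SSet.modelCategoryQuillen

set_option autoImplicit false

namespace Pool.Agent.Helper61.FL2

open _root_.FL

section

variable {X Y X' Y' Z : SSet.{0}}

theorem kan_tensor (hX : SSet.KanComplex X) (hY : SSet.KanComplex Y) :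
    SSet.KanComplex (X ⊗ Y) := by
  refine Pool.Agent.Helper94.FL.kan_of_fill fun n i t => ?_
  obtain ⟨a, ha⟩ := Pool.Agent.Helper94.FL.fill_of_kan hX n i (t ≫ fst _ _)
  obtain ⟨b, hb⟩ := Pool.Agent.Helper94.FL.fill_of_kan hY n i (t ≫ snd _ _)
  refine ⟨lift a b, ?_⟩
  refine CartesianMonoidalCategory.hom_ext _ _ ?_ ?_
  · rw [Category.assoc, lift_fst, ha]
  · rw [Category.assoc, lift_snd, hb]

theorem fst_kanFib (hY : SSet.KanComplex Y) : KanFib (fst X Y) := by
  intro n i
  refine ⟨fun {t b} sq => ?_⟩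
  obtain ⟨c, hc⟩ := Pool.Agent.Helper94.FL.fill_of_kan hY n i (t ≫ snd _ _)
  refine ⟨⟨{ l := lift b c, fac_left := ?_, fac_right := lift_fst _ _ }⟩⟩
  refine CartesianMonoidalCategory.hom_ext _ _ ?_ ?_
  · rw [Category.assoc, lift_fst, sq.w]
  · rw [Category.assoc, lift_snd, hc]

theorem snd_kanFib (hX : SSet.KanComplex X) : KanFib (snd X Y) := by
  intro n i
  refine ⟨fun {t b} sq => ?_⟩
  obtain ⟨c, hc⟩ := Pool.Agent.Helper94.FL.fill_of_kan hX n i (t ≫ fst _ _)
  refine ⟨⟨{ l := lift c b, fac_left := ?_, fac_right := lift_snd _ _ }⟩⟩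
  refine CartesianMonoidalCategory.hom_ext _ _ ?_ ?_
  · rw [Category.assoc, lift_fst, hc]
  · rw [Category.assoc, lift_snd, sq.w]

theorem kanFib_comp {p : X ⟶ Y} {q : Y ⟶ Z} (hp : KanFib p) (hq : KanFib q) :
    KanFib (p ≫ q) := by
  rw [Pool.Agent.Helper83.FL4.kanFib_iff] at hp hq ⊢
  infer_instance

theorem kanFib_of_isIso (p : X ⟶ Y) [IsIso p] : KanFib p := by
  intro n i
  refine ⟨fun {t b} sq => ?_⟩
  exact ⟨⟨{ l := b ≫ inv p, fac_left := by rw [← Category.assoc, ← sq.w, Category.assoc,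
              IsIso.hom_inv_id, Category.comp_id],
            fac_right := by rw [Category.assoc, IsIso.inv_hom_id, Category.comp_id] }⟩⟩

theorem htpy_tensor {f f' : X ⟶ X'} {g g' : Y ⟶ Y'} (h : Htpy f f') (h' : Htpy g g') :
    Htpy (f ⊗ₘ g) (f' ⊗ₘ g') := by
  obtain ⟨H, a, b⟩ := Pool.Agent.Helper45.FL2.htpy_elim h
  obtain ⟨H', a', b'⟩ := Pool.Agent.Helper45.FL2.htpy_elim h'
  refine Pool.Agent.Helper45.FL2.htpy_mk
    (lift ((fst X Y) ▷ Δ[1] ≫ H) ((snd X Y) ▷ Δ[1] ≫ H')) ?_ ?_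
  · refine CartesianMonoidalCategory.hom_ext _ _ ?_ ?_
    · rw [Category.assoc, lift_fst, ← Category.assoc, Pool.Agent.Helper45.FL2.ι₀_nat,
        Category.assoc, a, tensorHom_fst]
    · rw [Category.assoc, lift_snd, ← Category.assoc, Pool.Agent.Helper45.FL2.ι₀_nat,
        Category.assoc, a', tensorHom_snd]
  · refine CartesianMonoidalCategory.hom_ext _ _ ?_ ?_
    · rw [Category.assoc, lift_fst, ← Category.assoc, Pool.Agent.Helper45.FL2.ι₁_nat,
        Category.assoc, b, tensorHom_fst]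
    · rw [Category.assoc, lift_snd, ← Category.assoc, Pool.Agent.Helper45.FL2.ι₁_nat,
        Category.assoc, b', tensorHom_snd]

theorem hoEq_tensor {f : X ⟶ X'} {g : Y ⟶ Y'} (hf : HoEq f) (hg : HoEq g) :
    HoEq (f ⊗ₘ g) := by
  obtain ⟨f', h1, h2⟩ := hf
  obtain ⟨g', h3, h4⟩ := hg
  refine ⟨f' ⊗ₘ g', ?_, ?_⟩
  · have := htpy_tensor (f := f ≫ f') (f' := 𝟙 X) (g := g ≫ g') (g' := 𝟙 Y) h1 h3
    rwa [← tensorHom_comp_tensorHom, id_tensorHom_id] at this
  · have := htpy_tensor (f := f' ≫ f) (f' := 𝟙 X') (g := g' ≫ g) (g' := 𝟙 Y') h2 h4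
    rwa [← tensorHom_comp_tensorHom, id_tensorHom_id] at this

end

end Pool.Agent.Helper61.FL2
end

/- Helper61.FL2.BSegA -/
section
/-!
Project FL2, module V2 (first part): invariance of the Segal condition, criteria for objectwise
equivalences.
-/

open CategoryTheory MonoidalCategory CartesianMonoidalCategory Opposite HomotopicalAlgebra

set_option autoImplicit false

namespace Pool.Agent.Helper61.FL2

open _root_.FL Pool.Agent.Helper54.FL2 Pool.Agent.Helper88.FL

variable {C : Type} [SmallCategory C]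

theorem VFib.kanFib_zero {X : SP (Wr C)} (hX : VFib X) (c : C) :
    KanFib (X.map (vtx (seg c) 0).op) := by
  have h := kanFib_comp (hX.2 c) (fst_kanFib (X := X.obj (op Wr.pt)) (hX.1 (op Wr.pt)))
  have e : ends X c ≫ fst _ _ = X.map (vtx (seg c) 0).op := lift_fst _ _
  rwa [e] at h

theorem VFib.kanFib_one {X : SP (Wr C)} (hX : VFib X) (c : C) :
    KanFib (X.map (vtx (seg c) 1).op) := by
  have h := kanFib_comp (hX.2 c) (snd_kanFib (Y := X.obj (op Wr.pt)) (hX.1 (op Wr.pt)))
  have e : ends X c ≫ snd _ _ = X.map (vtx (seg c) 1).op := lift_snd _ _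
  rwa [e] at h

/-- The target of `binMap` is a Kan complex. -/
theorem VFib.bin_kan {X : SP (Wr C)} (hX : VFib X) {r : ℕ} (c : Fin (r + 1) → C) :
    SSet.KanComplex (Fp (X.map (vtx (init c) (Fin.last r)).op)
      (X.map (vtx (seg (c (Fin.last r))) 0).op)) :=
  Pool.Agent.Helper83.FL4.kan_of_kanFib
    (Fp_fst_kanFib _ _ (VFib.kanFib_zero hX (c (Fin.last r)))) (hX.1 _)

/-- The map between the targets of `binMap`. -/
noncomputable def binFp {X Y : SP (Wr C)} (f : X ⟶ Y) {r : ℕ} (c : Fin (r + 1) → C) :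
    Fp (X.map (vtx (init c) (Fin.last r)).op) (X.map (vtx (seg (c (Fin.last r))) 0).op) ⟶
      Fp (Y.map (vtx (init c) (Fin.last r)).op) (Y.map (vtx (seg (c (Fin.last r))) 0).op) :=
  Fp.map (f.app _) (f.app _) (f.app _) (f.naturality _).symm (f.naturality _).symm

theorem binMap_nat {X Y : SP (Wr C)} (f : X ⟶ Y) {r : ℕ} (c : Fin (r + 1) → C) :
    f.app (op ⟨r + 1, c⟩) ≫ binMap Y c = binMap X c ≫ binFp f c := by
  refine NatTrans.ext (funext fun k => ?_)
  refine ConcreteCategory.hom_ext _ _ fun z => ?_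
  exact Subtype.ext (Prod.ext (hom_nat f (initMap c).op z).symm (hom_nat f (lastMap' c).op z).symm)

theorem binFp_hoEq {X Y : SP (Wr C)} (hX : VFib X) (hY : VFib Y) (f : X ⟶ Y) {r : ℕ}
    (c : Fin (r + 1) → C) (h1 : HoEq (f.app (op (init c))))
    (h2 : HoEq (f.app (op (seg (c (Fin.last r)))))) (h3 : HoEq (f.app (op Wr.pt))) :
    HoEq (binFp f c) :=
  Fp_map_hoEq (hX.1 _) (hY.1 _) (hX.1 _) (hY.1 _) (hX.1 _) (hY.1 _)
    (VFib.kanFib_zero hX _) (VFib.kanFib_zero hY _) _ _ _ _ _ h1 h2 h3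

theorem bSeg_of_objHoEq {X Y : SP (Wr C)} (hX : VFib X) (hY : VFib Y) {f : X ⟶ Y}
    (hf : ObjHoEq f) (h : BSeg X) : BSeg Y := by
  intro r c
  have h1 : HoEq (f.app (op ⟨r + 1, c⟩) ≫ binMap Y c) := by
    rw [binMap_nat]
    exact hoEq_comp (hX.1 _) (VFib.bin_kan hX c) (VFib.bin_kan hY c) (h r c)
      (binFp_hoEq hX hY f c (hf _) (hf _) (hf _))
  exact hoEq_of_comp_left (hX.1 _) (hY.1 _) (VFib.bin_kan hY c) (hf _) h1

theorem ends_hom {X Y : SP (Wr C)} (f : X ⟶ Y) (c : C) :
    f.app (op (seg c)) ≫ ends Y c = ends X c ≫ (f.app (op Wr.pt) ⊗ₘ f.app (op Wr.pt)) := by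
  ext k z
  · exact (hom_nat f (vtx (seg c) 0).op z).symm
  · exact (hom_nat f (vtx (seg c) 1).op z).symm

theorem HmMap_objHoEq {X Y : SP (Wr C)} (hX : VFib X) (hY : VFib Y) {f : X ⟶ Y}
    (hf : ObjHoEq f) (x y : Vt X) : ObjHoEq (HmMap f x y) := by
  intro c
  exact Fb_map_hoEq (hX.2 _) (hY.2 _) (kan_tensor (hX.1 _) (hX.1 _))
    (kan_tensor (hY.1 _) (hY.1 _)) _ _ (ends_hom f c.unop) (hf _) (hoEq_tensor (hf _) (hf _)) (x, y)

/-- Vertices of a product are connected if their components are. -/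
theorem cn_prod {K L : SSet.{0}} {x x' : K.obj (op (SimplexCategory.mk 0))}
    {y y' : L.obj (op (SimplexCategory.mk 0))} (h : Cn K x x') (h' : Cn L y y') :
    Cn (K ⊗ L) ((x, y) : K.obj _ × L.obj _) ((x', y') : K.obj _ × L.obj _) := by
  obtain ⟨e, h1, h2⟩ := h
  obtain ⟨e', h3, h4⟩ := h'
  exact ⟨((e, e') : K.obj _ × L.obj _), Prod.ext h1 h3, Prod.ext h2 h4⟩

theorem objHoEq_of_Hm {X Y : SP (Wr C)} (hX : VFib X) (hY : VFib Y) (hX' : BSeg X)
    (hY' : BSeg Y) {f : X ⟶ Y} (h0 : HoEq (f.app (op Wr.pt)))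
    (O : Set (Vt X)) (hO : ∀ z : Vt X, ∃ x ∈ O, Cn (X.obj (op Wr.pt)) x z)
    (h : ∀ x ∈ O, ∀ y ∈ O, ObjHoEq (HmMap f x y)) : ObjHoEq f := by
  have hseg : ∀ c : C, HoEq (f.app (op (seg c))) := by
    intro c
    refine hoEq_of_fibres (hX.2 c) (hY.2 c) (kan_tensor (hX.1 _) (hX.1 _))
      (kan_tensor (hY.1 _) (hY.1 _)) (f.app (op (seg c))) (f.app (op Wr.pt) ⊗ₘ f.app (op Wr.pt))
      (ends_hom f c) (hoEq_tensor h0 h0)
      { z : Vt X × Vt X | z.1 ∈ O ∧ z.2 ∈ O } ?_ ?_
    · rintro ⟨x, y⟩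
      obtain ⟨x', hx, hx'⟩ := hO x
      obtain ⟨y', hy, hy'⟩ := hO y
      exact ⟨(x', y'), ⟨hx, hy⟩, cn_prod hx' hy'⟩
    · rintro ⟨x, y⟩ ⟨hx, hy⟩
      exact h x hx y hy (op c)
  have key : ∀ (r : ℕ) (c : Fin r → C), HoEq (f.app (op (⟨r, c⟩ : Wr C))) := by
    intro r
    induction r with
    | zero =>
      intro c
      have e : (⟨0, c⟩ : Wr C) = Wr.pt := congrArg (Wr.mk 0) (Subsingleton.elim _ _)
      rw [e]
      exact h0
    | succ r ih =>
      intro c
      have h1 : HoEq (f.app (op ⟨r + 1, c⟩) ≫ binMap Y c) := by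
        rw [binMap_nat]
        exact hoEq_comp (hX.1 _) (VFib.bin_kan hX c) (VFib.bin_kan hY c) (hX' r c)
          (binFp_hoEq hX hY f c (ih _) (hseg _) h0)
      exact hoEq_of_comp_right (hX.1 _) (hY.1 _) (VFib.bin_kan hY c) (hY' r c) h1
  intro θ
  exact key θ.unop.len θ.unop.obj

end Pool.Agent.Helper61.FL2
end

/- Helper61.FL2.ES -/
section
/-!
Project FL2, module D1: calculus of essentially surjective, fully faithful maps.
-/

open CategoryTheory MonoidalCategory CartesianMonoidalCategory Opposite HomotopicalAlgebra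

set_option autoImplicit false

namespace Pool.Agent.Helper61.FL2

open _root_.FL

/-! ### Isomorphisms and mapping presheaves -/

section

variable {C : Type} [SmallCategory C]

theorem fb_map_bij {E B E' B' : SSet.{0}} {p : E ⟶ B} {p' : E' ⟶ B'} (f : E ⟶ E') (g : B ⟶ B')
    (w : f ≫ p' = p ≫ g) (b : B.obj (op (SimplexCategory.mk 0)))
    (hf : ∀ k, Function.Bijective (f.app k)) (hg : ∀ k, Function.Injective (g.app k))
    (k : SimplexCategoryᵒᵖ) : Function.Bijective ((Fb.map f g w b).app k) := by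
  constructor
  · intro z z' h
    exact Subtype.ext ((hf k).1 (congrArg Subtype.val h))
  · intro z'
    obtain ⟨z, hz⟩ := (hf k).2 z'.1
    refine ⟨⟨z, (hg k) ?_⟩, Subtype.ext hz⟩
    have e := ConcreteCategory.congr_hom (NatTrans.congr_app w k) z
    refine Eq.trans e.symm ?_
    rw [app_cst]
    refine Eq.trans ?_ z'.2
    exact congrArg (p'.app k) hz

theorem isIso_of_bij {A : Type} [SmallCategory A] {X Y : SP A} (f : X ⟶ Y)
    (h : ∀ a k, Function.Bijective ((f.app a).app k)) : IsIso f := by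
  rw [NatTrans.isIso_iff_isIso_app]
  intro a
  rw [NatTrans.isIso_iff_isIso_app]
  intro k
  rw [isIso_iff_bijective]
  exact h a k

theorem bij_of_isIso {A : Type} [SmallCategory A] {X Y : SP A} (f : X ⟶ Y) [IsIso f]
    (a : Aᵒᵖ) (k : SimplexCategoryᵒᵖ) : Function.Bijective ((f.app a).app k) := by
  rw [← isIso_iff_bijective]
  infer_instance

theorem HmMap_isIso {X Y : SP (Wr C)} (f : X ⟶ Y) (hf : IsIso f) (x y : Vt X) :
    IsIso (HmMap f x y) := by
  refine isIso_of_bij _ fun c k => ?_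
  refine fb_map_bij _ _ (ends_hom f c.unop) _ (fun l => bij_of_isIso f _ l) (fun l => ?_) k
  rintro ⟨a, b⟩ ⟨a', b'⟩ h
  exact Prod.ext ((bij_of_isIso f _ l).1 (congrArg Prod.fst h))
    ((bij_of_isIso f _ l).1 (congrArg Prod.snd h))

end

section

variable {n : ℕ}

theorem ES_iso_comp : ∀ (n i : ℕ) {X Y Z : SP (Th n)} (e : X ⟶ Y) (_ : IsIso e) (f : Y ⟶ Z),
    ES n i f → ES n i (e ≫ f) := by
  intro n
  induction n with
  | zero =>
    intro i X Y Z e he f hf
    refine Pool.Agent.Helper88.FL.hoEq_of_arrow_iso (f := f.app (op (ptT 0)))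
      (f' := (e ≫ f).app (op (ptT 0))) (asIso (e.app (op (ptT 0)))).symm (Iso.refl _) ?_ hf
    simp
  | succ n ih =>
    intro i X Y Z e he f hf
    cases i with
    | zero =>
      refine Pool.Agent.Helper88.FL.hoEq_of_arrow_iso (f := f.app (op (ptT (n + 1))))
        (f' := (e ≫ f).app (op (ptT (n + 1)))) (asIso (e.app (op (ptT (n + 1))))).symm
          (Iso.refl _) ?_ hf
      simp
    | succ i =>
      obtain ⟨h1, h2⟩ := hf
      refine ⟨fun z => ?_, fun x y => ?_⟩
      · obtain ⟨y, hy⟩ := h1 z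
        obtain ⟨x, rfl⟩ := (bij_of_isIso e (op (ptT (n + 1))) (op (SimplexCategory.mk 0))).2 y
        exact ⟨x, hy⟩
      · exact ih i (HmMap (C := Th n) e x y) (HmMap_isIso (C := Th n) e he x y) _ (h2 _ _)

theorem ES_of_comp_iso : ∀ (n i : ℕ) {X Y Z : SP (Th n)} (f : X ⟶ Y) (e : Y ⟶ Z) (_ : IsIso e),
    ES n i (f ≫ e) → ES n i f := by
  intro n
  induction n with
  | zero =>
    intro i X Y Z f e he hf
    refine Pool.Agent.Helper88.FL.hoEq_of_arrow_iso (f := (f ≫ e).app (op (ptT 0)))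
      (f' := f.app (op (ptT 0))) (Iso.refl _) (asIso (e.app (op (ptT 0)))).symm ?_ hf
    simp
  | succ n ih =>
    intro i X Y Z f e he hf
    cases i with
    | zero =>
      refine Pool.Agent.Helper88.FL.hoEq_of_arrow_iso (f := (f ≫ e).app (op (ptT (n + 1))))
        (f' := f.app (op (ptT (n + 1)))) (Iso.refl _)
          (asIso (e.app (op (ptT (n + 1))))).symm ?_ hf
      simp
    | succ i =>
      obtain ⟨h1, h2⟩ := hf
      refine ⟨fun y => ?_, fun x y => ?_⟩
      · obtain ⟨x, hx⟩ := h1 (vtMap (C := Th n) e y)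
        refine ⟨x, ?_⟩
        have h3 := Pool.Agent.Helper91.FL2.cn_map ((inv e).app (op (ptT (n + 1)))) hx
        have h4 : ∀ w : Vt (C := Th n) Y, ((inv e).app (op (ptT (n + 1)))).app
            (op (SimplexCategory.mk 0)) (vtMap (C := Th n) e w) = w := by
          intro w
          have h5 : (e ≫ inv e) = 𝟙 Y := IsIso.hom_inv_id e
          exact ConcreteCategory.congr_hom (NatTrans.congr_app (NatTrans.congr_app h5
            (op (ptT (n + 1)))) (op (SimplexCategory.mk 0))) w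
        have h6 := h4 (vtMap (C := Th n) f x)
        have h7 := h4 y
        exact (congrArg₂ (Cn (Y.obj (op (ptT (n + 1))))) h6 h7).mp h3
      · exact ih i (HmMap (C := Th n) f x y) (HmMap (C := Th n) e _ _)
          (HmMap_isIso (C := Th n) e he _ _) (h2 x y)

theorem ES_of_arrow_iso {i : ℕ} {X Y X' Y' : SP (Th n)} {f : X ⟶ Y} {f' : X' ⟶ Y'}
    (e : X ≅ X') (e' : Y ≅ Y') (h : f ≫ e'.hom = e.hom ≫ f') (hf : ES n i f) : ES n i f' := by
  have h1 : ES n i (e.inv ≫ f) := ES_iso_comp n i e.inv inferInstance f hf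
  have h2 : e.inv ≫ f = f' ≫ e'.inv := by
    rw [Iso.inv_comp_eq, ← Category.assoc, ← h, Category.assoc, Iso.hom_inv_id, Category.comp_id]
  rw [h2] at h1
  exact ES_of_comp_iso n i f' e'.inv inferInstance h1

/-! ### Composition -/

theorem kanPt {X : SP (Th n)} (hX : InjFib X) (a : (Th n)ᵒᵖ) : SSet.KanComplex (X.obj a) :=
  Pool.Agent.Helper91.FL2.objKan_of_injFib hX a

theorem ES_comp' : ∀ (n i : ℕ) {X Y Z : SP (Th n)} (_ : InjFib X) (_ : InjFib Y) (_ : InjFib Z)
    (f : X ⟶ Y) (g : Y ⟶ Z), ES n i f → ES n i g → ES n i (f ≫ g) := by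
  intro n
  induction n with
  | zero =>
    intro i X Y Z hX hY hZ f g hf hg
    exact Pool.Agent.Helper88.FL.hoEq_comp (kanPt hX _) (kanPt hY _) (kanPt hZ _) hf hg
  | succ n ih =>
    intro i X Y Z hX hY hZ f g hf hg
    cases i with
    | zero => exact Pool.Agent.Helper88.FL.hoEq_comp (kanPt hX _) (kanPt hY _) (kanPt hZ _) hf hg
    | succ i =>
      obtain ⟨h1, h2⟩ := hf
      obtain ⟨h3, h4⟩ := hg
      refine ⟨fun z => ?_, fun x y => ?_⟩
      · obtain ⟨y, hy⟩ := h3 z
        obtain ⟨x, hx⟩ := h1 y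
        exact ⟨x, Pool.Agent.Helper91.FL2.cn_trans (kanPt hZ _)
          (Pool.Agent.Helper91.FL2.cn_map (g.app (op (ptT (n + 1)))) hx) hy⟩
      · exact ih i (Helper53FL2.Hm_injFib hX x y) (Helper53FL2.Hm_injFib hY _ _)
          (Helper53FL2.Hm_injFib hZ _ _) (HmMap (C := Th n) f x y) (HmMap (C := Th n) g _ _)
          (h2 x y) (h4 _ _)

theorem ES_comp {X Y Z : SP (Th n)} (hY : InjFib Y) (hZ : InjFib Z) {f : X ⟶ Y} {g : Y ⟶ Z}
    (hX : InjFib X) (hf : ES n n f) (hg : ES n n g) : ES n n (f ≫ g) :=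
  ES_comp' n n hX hY hZ f g hf hg

theorem cn_of_hoEq_surj {K L : SSet.{0}} {f : K ⟶ L} (hf : HoEq f)
    (y : L.obj (op (SimplexCategory.mk 0))) :
    ∃ x, Cn L (f.app _ x) y := by
  obtain ⟨g, -, h2⟩ := hf
  exact ⟨g.app _ y, Pool.Agent.Helper91.FL2.cn_of_htpy h2 y⟩

theorem ES_of_objHoEq' : ∀ (n i : ℕ) {X Y : SP (Th n)} (_ : InjFib X) (_ : InjFib Y)
    (f : X ⟶ Y), ObjHoEq f → ES n i f := by
  intro n
  induction n with
  | zero => intro i X Y hX hY f hf; exact hf _
  | succ n ih =>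
    intro i X Y hX hY f hf
    cases i with
    | zero => exact hf _
    | succ i =>
      refine ⟨fun y => cn_of_hoEq_surj (hf (op (ptT (n + 1)))) y, fun x y => ?_⟩
      exact ih i (Helper53FL2.Hm_injFib hX x y) (Helper53FL2.Hm_injFib hY _ _) _
        (HmMap_objHoEq (Helper53FL2.InjFib.vfib hX) (Helper53FL2.InjFib.vfib hY) hf x y)

theorem ES_of_objHoEq {X Y : SP (Th n)} (hX : InjFib X) (hY : InjFib Y) {f : X ⟶ Y}
    (hf : ObjHoEq f) : ES n n f := ES_of_objHoEq' n n hX hY f hf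

theorem ES_of_comp_right' : ∀ (n i : ℕ) {X Y Z : SP (Th n)} (_ : InjFib X) (_ : InjFib Y)
    (_ : InjFib Z) (f : X ⟶ Y) (g : Y ⟶ Z), ObjHoEq g → ES n i (f ≫ g) → ES n i f := by
  intro n
  induction n with
  | zero =>
    intro i X Y Z hX hY hZ f g hg hfg
    exact Pool.Agent.Helper88.FL.hoEq_of_comp_right (kanPt hX _) (kanPt hY _) (kanPt hZ _)
      (hg _) hfg
  | succ n ih =>
    intro i X Y Z hX hY hZ f g hg hfg
    cases i with
    | zero =>
      exact Pool.Agent.Helper88.FL.hoEq_of_comp_right (kanPt hX _) (kanPt hY _) (kanPt hZ _)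
        (hg _) hfg
    | succ i =>
      obtain ⟨h1, h2⟩ := hfg
      refine ⟨fun y => ?_, fun x y => ?_⟩
      · obtain ⟨x, hx⟩ := h1 (vtMap (C := Th n) g y)
        exact ⟨x, Pool.Agent.Helper91.FL2.cn_of_hoEq (kanPt hY _) (hg (op (ptT (n + 1)))) hx⟩
      · exact ih i (Helper53FL2.Hm_injFib hX x y) (Helper53FL2.Hm_injFib hY _ _)
          (Helper53FL2.Hm_injFib hZ _ _) (HmMap (C := Th n) f x y) (HmMap (C := Th n) g _ _)
          (HmMap_objHoEq (Helper53FL2.InjFib.vfib hY) (Helper53FL2.InjFib.vfib hZ) hg _ _)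
          (h2 x y)

theorem ES_of_comp_right {X Y Z : SP (Th n)} (hX : InjFib X) (hY : InjFib Y) (hZ : InjFib Z)
    {f : X ⟶ Y} {g : Y ⟶ Z} (hg : ObjHoEq g) (hfg : ES n n (f ≫ g)) : ES n n f :=
  ES_of_comp_right' n n hX hY hZ f g hg hfg

/-! ### Homotopy invariance -/

/-- The property `ES` is invariant under homotopies. -/
theorem ES_of_homotopy (i : ℕ) {X Y : SP (Th n)} (hX : InjFib X) (hY : InjFib Y)
    {f g : X ⟶ Y} (h : ∃ h : MpS X Y (SimplexCategory.mk 1),
      h.res (SimplexCategory.δ 1) = MpS.ofHom _ f ∧ h.res (SimplexCategory.δ 0) = MpS.ofHom _ g)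
    (hf : ES n i f) : ES n i g := by
  obtain ⟨P, s, e₀, e₁, -, -, hP, -, h₀, h₁, hH⟩ := Pool.Agent.Helper91.FL2.exists_path Y hY
  obtain ⟨H, rfl, rfl⟩ := hH f g h
  have h3 : ES n i H := ES_of_comp_right' n i hX hP hY H e₀
    (Pool.Agent.Helper91.FL2.InjTrivFibration.objHoEq h₀) hf
  exact ES_comp' n i hX hP hY H e₁ h3 (ES_of_objHoEq' n i hP hY e₁
    (Pool.Agent.Helper91.FL2.InjTrivFibration.objHoEq h₁))

theorem surj_of_injTriv {A : Type} [SmallCategory A] {X Y : SP A} {p : X ⟶ Y}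
    (hp : InjTrivFibration p) (a : Aᵒᵖ) (k : SimplexCategoryᵒᵖ) :
    Function.Surjective ((p.app a).app k) := by
  have h0 := Pool.Agent.Helper91.FL2.InjTrivFibration.app_trivFib hp a
  have h1 := Pool.Agent.Helper45.FL2.TrivFib.lift h0 (⊥ : (Y.obj a).Subcomplex).ι
  have sq : CommSq (SSet.Subcomplex.isInitialBot.to (X.obj a)) (⊥ : (Y.obj a).Subcomplex).ι
      (p.app a) (𝟙 (Y.obj a)) := ⟨SSet.Subcomplex.isInitialBot.hom_ext _ _⟩
  intro y
  exact ⟨sq.lift.app k y, ConcreteCategory.congr_hom (NatTrans.congr_app sq.fac_right k) y⟩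

/-- Cancellation of trivial injective fibrations. -/
theorem ES_of_injTriv_comp : ∀ (n i : ℕ) {P X Y : SP (Th n)} (_ : InjFib P) (_ : InjFib X)
    (_ : InjFib Y) (p : P ⟶ X) (f : X ⟶ Y), InjTrivFibration p → ES n i (p ≫ f) →
    ES n i f := by
  intro n
  induction n with
  | zero =>
    intro i P X Y hP hX hY p f hp hf
    exact Pool.Agent.Helper88.FL.hoEq_of_comp_left (kanPt hP _) (kanPt hX _) (kanPt hY _)
      (Pool.Agent.Helper91.FL2.InjTrivFibration.objHoEq hp _) hf
  | succ n ih =>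
    intro i P X Y hP hX hY p f hp hf
    cases i with
    | zero =>
      exact Pool.Agent.Helper88.FL.hoEq_of_comp_left (kanPt hP _) (kanPt hX _) (kanPt hY _)
        (Pool.Agent.Helper91.FL2.InjTrivFibration.objHoEq hp _) hf
    | succ i =>
      obtain ⟨h1, h2⟩ := hf
      refine ⟨fun y => ?_, fun x y => ?_⟩
      · obtain ⟨z, hz⟩ := h1 y
        exact ⟨vtMap (C := Th n) p z, hz⟩
      · obtain ⟨z, rfl⟩ := surj_of_injTriv hp (op (ptT (n + 1))) (op (SimplexCategory.mk 0)) x
        obtain ⟨w, rfl⟩ := surj_of_injTriv hp (op (ptT (n + 1))) (op (SimplexCategory.mk 0)) y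
        exact ih i (Helper53FL2.Hm_injFib hP z w) (Helper53FL2.Hm_injFib hX _ _)
          (Helper53FL2.Hm_injFib hY _ _) (HmMap (C := Th n) p z w) (HmMap (C := Th n) f _ _)
          (Helper53FL2.HmMap_injTrivFibration hp z w) (h2 z w)

theorem homotopy_post {A : Type} [SmallCategory A] {X Y Z : SP A} {f g : X ⟶ Y}
    (h : ∃ h : MpS X Y (SimplexCategory.mk 1),
      h.res (SimplexCategory.δ 1) = MpS.ofHom _ f ∧ h.res (SimplexCategory.δ 0) = MpS.ofHom _ g)
    (k : Y ⟶ Z) : ∃ h : MpS X Z (SimplexCategory.mk 1),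
      h.res (SimplexCategory.δ 1) = MpS.ofHom _ (f ≫ k) ∧
      h.res (SimplexCategory.δ 0) = MpS.ofHom _ (g ≫ k) := by
  obtain ⟨h, h0, h1⟩ := h
  refine ⟨h.comp (MpS.ofHom _ k), ?_, ?_⟩
  · exact congrArg (fun t => MpS.comp t (MpS.ofHom _ k)) h0
  · exact congrArg (fun t => MpS.comp t (MpS.ofHom _ k)) h1

/-- Cancellation of objectwise equivalences on the left. -/
theorem ES_of_objHoEq_comp (i : ℕ) {X X' Y : SP (Th n)} (hX : InjFib X) (hX' : InjFib X')
    (hY : InjFib Y) {e : X' ⟶ X} {f : X ⟶ Y} (he : ObjHoEq e) (hf : ES n i (e ≫ f)) :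
    ES n i f := by
  obtain ⟨P, s, r, q, hP, hsq, -, hs, hr, hq, hh, -⟩ :=
    Pool.Agent.Helper91.FL2.exists_mapping_path hX' hX e
  have hqe : ObjHoEq q := fun a => by
    have h1 : HoEq (s.app a ≫ q.app a) := by
      have h2 : s.app a ≫ q.app a = e.app a := by rw [← hsq]; rfl
      rw [h2]; exact he a
    exact Pool.Agent.Helper88.FL.hoEq_of_comp_left (kanPt hX' a) (kanPt hP a) (kanPt hX a)
      (hs a) h1
  have hqt := Pool.Agent.Helper91.FL2.injTrivFibration_of hP hX hq hqe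
  have h3 : ES n i (r ≫ e ≫ f) := ES_comp' n i hP hX' hY r (e ≫ f)
    (ES_of_objHoEq' n i hP hX' r (Pool.Agent.Helper91.FL2.InjTrivFibration.objHoEq hr)) hf
  rw [← Category.assoc] at h3
  exact ES_of_injTriv_comp n i hP hX hY q f hqt (ES_of_homotopy i hP hY (homotopy_post hh f) h3)

/-! ### Cancellation on the left -/

theorem ES_of_comp_left' : ∀ (n i : ℕ) {X Y Z : SP (Th n)} (_ : InjFib X) (_ : InjFib Y)
    (_ : InjFib Z) (f : X ⟶ Y) (g : Y ⟶ Z), ES n i f → ES n i (f ≫ g) → ES n i g := by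
  intro n
  induction n with
  | zero =>
    intro i X Y Z hX hY hZ f g hf hfg
    exact Pool.Agent.Helper88.FL.hoEq_of_comp_left (kanPt hX _) (kanPt hY _) (kanPt hZ _) hf hfg
  | succ n ih =>
    intro i X Y Z hX hY hZ f g hf hfg
    cases i with
    | zero =>
      exact Pool.Agent.Helper88.FL.hoEq_of_comp_left (kanPt hX _) (kanPt hY _) (kanPt hZ _)
        hf hfg
    | succ i =>
      obtain ⟨P, s, r, q, hP, -, -, -, hr, -, hh, hq⟩ :=
        Pool.Agent.Helper91.FL2.exists_mapping_path hX hY f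
      have hrE : ES (n + 1) (i + 1) r := ES_of_objHoEq' (n + 1) (i + 1) hP hX r
        (Pool.Agent.Helper91.FL2.InjTrivFibration.objHoEq hr)
      have h1 : ES (n + 1) (i + 1) q := ES_of_homotopy (i + 1) hP hY hh
        (ES_comp' (n + 1) (i + 1) hP hX hY r f hrE hf)
      have h2 : ES (n + 1) (i + 1) (q ≫ g) :=
        ES_of_homotopy (i + 1) hP hZ (homotopy_post hh g) (by
          rw [Category.assoc]
          exact ES_comp' (n + 1) (i + 1) hP hX hZ r (f ≫ g) hrE hfg)
      refine ⟨fun z => ?_, fun y y' => ?_⟩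
      · obtain ⟨x, hx⟩ := hfg.1 z
        exact ⟨vtMap (C := Th n) f x, hx⟩
      · obtain ⟨x, hx⟩ := hf.1 y
        obtain ⟨x', hx'⟩ := hf.1 y'
        obtain ⟨z, rfl⟩ := hq (op (ptT (n + 1))) x y hx
        obtain ⟨z', rfl⟩ := hq (op (ptT (n + 1))) x' y' hx'
        exact ih i (Helper53FL2.Hm_injFib hP z z') (Helper53FL2.Hm_injFib hY _ _)
          (Helper53FL2.Hm_injFib hZ _ _) (HmMap (C := Th n) q z z') (HmMap (C := Th n) g _ _)
          (h1.2 z z') (h2.2 z z')

theorem ES_of_comp_left {X Y Z : SP (Th n)} (hX : InjFib X) (hY : InjFib Y) (hZ : InjFib Z)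
    {f : X ⟶ Y} {g : Y ⟶ Z} (hf : ES n n f) (hfg : ES n n (f ≫ g)) : ES n n g :=
  ES_of_comp_left' n n hX hY hZ f g hf hfg

end

end Pool.Agent.Helper61.FL2
end

/- Helper41.FL2.F2a -/
section
/-!
# FL2-F2: injective fibrancy by levels, maps into mapping presheaves
-/

open CategoryTheory MonoidalCategory Opposite HomotopicalAlgebra

set_option autoImplicit false

namespace Helper41FL2

open FL Helper53FL2 Pool.Agent.Helper30.FL16

section Levels

variable {n : ℕ} {P Q D : SP (Gn n)}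

/-- An extension at the level `k`. -/
structure LSt (g : P ⟶ Q) (f : P ⟶ D) (k : Fin (n + 1)) : Type where
  l : level Q k ⟶ level D k
  hl : levelHom g k ≫ l = levelHom f k

theorem lev_compat {ℓ : ∀ k : Fin (n + 1), level Q k ⟶ level D k}
    (hℓ : ∀ i : Fin n, ℓ i.castSucc ≫ levelMap D (Fin.castSucc_le_succ i) =
      levelMap Q (Fin.castSucc_le_succ i) ≫ ℓ i.succ)
    (i k : Fin (n + 1)) (h : i ≤ k) : ℓ i ≫ levelMap D h = levelMap Q h ≫ ℓ k := by
  induction k using Fin.induction with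
  | zero =>
    obtain rfl : i = 0 := Fin.le_zero_iff.mp h
    rw [levelMap_id, levelMap_id, Category.comp_id, Category.id_comp]
  | succ k ih =>
    rcases eq_or_lt_of_le h with h1 | h1
    · subst h1
      rw [levelMap_id, levelMap_id, Category.comp_id, Category.id_comp]
    · have h2 : i ≤ k.castSucc := Fin.le_castSucc_iff.mpr h1
      have h3 := ih h2
      have h4 := hℓ k
      calc ℓ i ≫ levelMap D h = (ℓ i ≫ levelMap D h2) ≫ levelMap D (Fin.castSucc_le_succ k) := by
            rw [Category.assoc, levelMap_comp]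
        _ = levelMap Q h2 ≫ levelMap Q (Fin.castSucc_le_succ k) ≫ ℓ k.succ := by
            rw [h3, Category.assoc, h4]
        _ = levelMap Q h ≫ ℓ k.succ := by
            rw [← Category.assoc, levelMap_comp]

/-- A compatible family of maps on the levels is a map. -/
theorem lev_assemble (ℓ : ∀ k : Fin (n + 1), level Q k ⟶ level D k)
    (hℓ : ∀ (i k : Fin (n + 1)) (h : i ≤ k), ℓ i ≫ levelMap D h = levelMap Q h ≫ ℓ k) :
    ∃ Φ : Q ⟶ D, ∀ k, levelHom Φ k = ℓ k := by
  refine ⟨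
    { app := fun a => (ℓ a.unop.2.unop).app (op a.unop.1)
      naturality := fun a b f => ?_ }, fun k => rfl⟩
  refine NatTrans.ext (funext fun m => ?_)
  refine ConcreteCategory.hom_ext _ _ fun x => ?_
  have hab : a.unop.2.unop ≤ b.unop.2.unop := leOfHom f.unop.2.unop
  have h1 : f = gm (𝟙 a.unop.1) hab ≫ gm f.unop.1 (le_refl b.unop.2.unop) :=
    gm_eq _ _ (Category.comp_id _).symm
  have h2 : ((ℓ b.unop.2.unop).app (op a.unop.1)).app m
      ((Q.map (gm (𝟙 a.unop.1) hab)).app m x) =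
      (D.map (gm (𝟙 a.unop.1) hab)).app m
        (((ℓ a.unop.2.unop).app (op a.unop.1)).app m x) :=
    (congrArg (fun t => (t.app (op a.unop.1)).app m x) (hℓ _ _ hab)).symm
  show ((ℓ b.unop.2.unop).app (op b.unop.1)).app m ((Q.map f).app m x) =
    (D.map f).app m (((ℓ a.unop.2.unop).app (op a.unop.1)).app m x)
  have h3 : (Q.map f).app m x = (Q.map (gm f.unop.1 (le_refl b.unop.2.unop))).app m
      ((Q.map (gm (𝟙 a.unop.1) hab)).app m x) :=
    (congrArg (fun t => (Q.map t).app m x) h1).trans (sp_comp Q _ _ _)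
  have h4 : ∀ z : (D.obj a).obj m, (D.map f).app m z =
      (D.map (gm f.unop.1 (le_refl b.unop.2.unop))).app m
      ((D.map (gm (𝟙 a.unop.1) hab)).app m z) := fun z =>
    (congrArg (fun t => (D.map t).app m z) h1).trans (sp_comp D _ _ _)
  refine (congrArg (((ℓ b.unop.2.unop).app (op b.unop.1)).app m) h3).trans ?_
  refine Eq.trans ?_ (h4 _).symm
  refine Eq.trans ?_ (congrArg _ h2)
  exact hom_nat (ℓ b.unop.2.unop) (Quiver.Hom.op f.unop.1) _

/-- A sequence of injective fibrations between injectively fibrant objects is injectively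
fibrant. -/
theorem injFib_of_levels (h1 : ∀ i, InjFib (level D i))
    (h2 : ∀ (i j : Fin (n + 1)) (h : i ≤ j), InjFibration (levelMap D h)) : InjFib D := by
  intro P Q g hg f
  have hgk : ∀ k, TrivCof (levelHom g k) := fun k =>
    ⟨fun a => hg.1 (op (a.unop, op k)), fun a => hg.2 (op (a.unop, op k))⟩
  have hstep : ∀ {i k : Fin (n + 1)} (hik : i ≤ k) (s : LSt g f k),
      ∃ t : LSt g f i, t.l ≫ levelMap D hik = levelMap Q hik ≫ s.l := by
    intro i k hik s
    have := h2 i k hik (levelHom g i) (hgk i)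
    have sq : CommSq (levelHom f i) (levelHom g i) (levelMap D hik) (levelMap Q hik ≫ s.l) := ⟨by
      rw [levelHom_nat, ← s.hl, ← Category.assoc, ← Category.assoc, levelHom_nat]⟩
    exact ⟨⟨sq.lift, sq.fac_left⟩, sq.fac_right⟩
  obtain ⟨l0, hl0⟩ := h1 (Fin.last n) (levelHom g _) (hgk _) (levelHom f (Fin.last n))
  let S : ∀ k : Fin (n + 1), LSt g f k := fun k =>
    Fin.reverseInduction (motive := fun k => LSt g f k) ⟨l0, hl0⟩
      (fun i s => (hstep (Fin.castSucc_le_succ i) s).choose) k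
  have hS : ∀ i : Fin n, (S i.castSucc).l ≫ levelMap D (Fin.castSucc_le_succ i) =
      levelMap Q (Fin.castSucc_le_succ i) ≫ (S i.succ).l := by
    intro i
    have e1 : S i.castSucc = (hstep (Fin.castSucc_le_succ i) (S i.succ)).choose :=
      Fin.reverseInduction_castSucc _
    rw [e1]
    exact (hstep (Fin.castSucc_le_succ i) (S i.succ)).choose_spec
  obtain ⟨Φ, hΦ⟩ := lev_assemble (fun k => (S k).l)
    (fun i k hik => lev_compat (ℓ := fun k => (S k).l) hS i k hik)
  refine ⟨Φ, ?_⟩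
  refine NatTrans.ext (funext fun a => ?_)
  have e2 : levelHom (g ≫ Φ) a.unop.2.unop = levelHom f a.unop.2.unop := by
    show levelHom g _ ≫ levelHom Φ _ = _
    rw [hΦ]
    exact (S _).hl
  exact NatTrans.congr_app e2 (op a.unop.1)

end Levels

section Adj

variable {A : Type} [SmallCategory A]

/-- The map given by a vertex of a mapping space. -/
def homOf {X Y : SP A} (φ : MpS X Y (SimplexCategory.mk 0)) : X ⟶ Y where
  app a :=
    { app := fun k => ↾ fun x => φ.app a k (SimplexCategory.const k.unop _ 0) x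
      naturality := fun k l α => by
        refine ConcreteCategory.hom_ext _ _ fun x => ?_
        refine Eq.trans ?_ (φ.nat_right a α (SimplexCategory.const k.unop _ 0) x)
        refine congrArg (fun t => φ.app a l t ((X.obj a).map α x)) ?_
        ext i : 3
        exact Subsingleton.elim (α := Fin 1) _ _ }
  naturality a b f := by
    refine NatTrans.ext (funext fun k => ?_)
    refine ConcreteCategory.hom_ext _ _ fun x => ?_
    exact φ.nat_left f k _ x

lemma homOf_app {X Y : SP A} (φ : MpS X Y (SimplexCategory.mk 0)) (a : Aᵒᵖ)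
    (k : SimplexCategoryᵒᵖ) (s : k.unop ⟶ SimplexCategory.mk 0) (x : (X.obj a).obj k) :
    ((homOf φ).app a).app k x = φ.app a k s x := by
  refine congrArg (fun t => φ.app a k t x) ?_
  ext i : 3
  exact Subsingleton.elim (α := Fin 1) _ _

lemma ofHom_homOf {X Y : SP A} (φ : MpS X Y (SimplexCategory.mk 0)) :
    MpS.ofHom _ (homOf φ) = φ := by
  refine MpS.ext ?_
  funext a k s x
  exact homOf_app φ a k s x

variable {C : Type} [SmallCategory C]

/-- The ends of a map out of a suspension. -/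
def EndsEq {B : SP C} {X : SP (Wr C)} (G : V1 B ⟶ X) (x y : Vt X) : Prop :=
  (G.app (op Wr.pt)).app (op (SimplexCategory.mk 0)) (vsEnd B 0 Wr.pt _) = x ∧
  (G.app (op Wr.pt)).app (op (SimplexCategory.mk 0)) (vsEnd B 1 Wr.pt _) = y

lemma endsV_ofHom {B : SP C} {X : SP (Wr C)} (G : V1 B ⟶ X) {x y : Vt X} (h : EndsEq G x y) :
    (endsV B X).app (op (SimplexCategory.mk 0)) (MpS.ofHom (SimplexCategory.mk 0) G) =
      FL.cst (X.obj (op Wr.pt) ⊗ X.obj (op Wr.pt)) (x, y) (op (SimplexCategory.mk 0)) := by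
  rw [FL.cst_zero]
  exact Prod.ext h.1 h.2

/-- Maps into mapping presheaves and maps out of suspensions. -/
theorem exists_hom_of_V1 {B : SP C} {X : SP (Wr C)} (G : V1 B ⟶ X) {x y : Vt X}
    (h : EndsEq G x y) : ∃ g : B ⟶ Hm X x y, ∀ (c : Cᵒᵖ) (l : SimplexCategoryᵒᵖ)
      (b : (B.obj c).obj l), Hm.val ((g.app c).app l b) =
        (G.app (op (seg c.unop))).app l (vsOf B b) := by
  obtain ⟨e, he⟩ := exists_HmAdj B X x y
  let φ : (Fb (endsV B X) (x, y)).obj (op (SimplexCategory.mk 0)) :=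
    ⟨MpS.ofHom (SimplexCategory.mk 0) G, endsV_ofHom G h⟩
  refine ⟨homOf (e.inv.app _ φ : MpS B (Hm X x y) (SimplexCategory.mk 0)), fun c l b => ?_⟩
  exact he (op (SimplexCategory.mk 0)) φ c l (SimplexCategory.const l.unop _ 0) b

theorem exists_V1_of_hom {B : SP C} {X : SP (Wr C)} {x y : Vt X} (g : B ⟶ Hm X x y) :
    ∃ G : V1 B ⟶ X, EndsEq G x y ∧ ∀ (c : Cᵒᵖ) (l : SimplexCategoryᵒᵖ)
      (b : (B.obj c).obj l), Hm.val ((g.app c).app l b) =
        (G.app (op (seg c.unop))).app l (vsOf B b) := by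
  obtain ⟨e, he⟩ := exists_HmAdj B X x y
  let φ : (Fb (endsV B X) (x, y)).obj (op (SimplexCategory.mk 0)) :=
    e.hom.app _ (MpS.ofHom (SimplexCategory.mk 0) g : MpS B (Hm X x y) (SimplexCategory.mk 0))
  have hφ : e.inv.app _ φ = (MpS.ofHom (SimplexCategory.mk 0) g :
      MpS B (Hm X x y) (SimplexCategory.mk 0)) :=
    ConcreteCategory.congr_hom (NatTrans.congr_app e.hom_inv_id _) _
  have h2 := φ.2.trans (FL.cst_zero _ _)
  refine ⟨homOf (φ.1 : MpS (V1 B) X (SimplexCategory.mk 0)), ⟨?_, ?_⟩, fun c l b => ?_⟩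
  · refine (homOf_app _ _ _ (𝟙 _) _).trans ?_
    exact congrArg Prod.fst h2
  · refine (homOf_app _ _ _ (𝟙 _) _).trans ?_
    exact congrArg Prod.snd h2
  · refine Eq.trans ?_ (he (op (SimplexCategory.mk 0)) φ c l (SimplexCategory.const l.unop _ 0) b)
    rw [hφ]
    rfl

theorem V1_hom_ext {B : SP C} {X : SP (Wr C)} {x y : Vt X} {G G' : V1 B ⟶ X}
    (h : EndsEq G x y) (h' : EndsEq G' x y)
    (hG : ∀ (c : Cᵒᵖ) (l : SimplexCategoryᵒᵖ) (b : (B.obj c).obj l),
      (G.app (op (seg c.unop))).app l (vsOf B b) = (G'.app (op (seg c.unop))).app l (vsOf B b)) :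
    G = G' := by
  obtain ⟨e, he⟩ := exists_HmAdj B X x y
  let φ : (Fb (endsV B X) (x, y)).obj (op (SimplexCategory.mk 0)) :=
    ⟨MpS.ofHom (SimplexCategory.mk 0) G, endsV_ofHom G h⟩
  let φ' : (Fb (endsV B X) (x, y)).obj (op (SimplexCategory.mk 0)) :=
    ⟨MpS.ofHom (SimplexCategory.mk 0) G', endsV_ofHom G' h'⟩
  have h1 : e.inv.app _ φ = e.inv.app _ φ' := by
    refine MpS.ext ?_
    funext c l s b
    refine Subtype.ext ?_
    refine (he _ φ c l s b).trans ((hG c l b).trans ?_)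
    exact (he _ φ' c l s b).symm
  have h2 : φ = φ' := by
    have h3 := congrArg (e.hom.app (op (SimplexCategory.mk 0))) h1
    have h4 := ConcreteCategory.congr_hom (NatTrans.congr_app e.inv_hom_id
      (op (SimplexCategory.mk 0))) φ
    have h5 := ConcreteCategory.congr_hom (NatTrans.congr_app e.inv_hom_id
      (op (SimplexCategory.mk 0))) φ'
    exact h4.symm.trans (h3.trans h5)
  have h5 : MpS.ofHom (SimplexCategory.mk 0) G = MpS.ofHom (SimplexCategory.mk 0) G' :=
    congrArg Subtype.val h2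
  refine NatTrans.ext (funext fun a => NatTrans.ext (funext fun k => ?_))
  refine ConcreteCategory.hom_ext _ _ fun x => ?_
  exact congrFun (congrFun (congrFun (congrFun (congrArg MpS.app h5) a) k)
    (SimplexCategory.const k.unop _ 0)) x

end Adj

end Helper41FL2
end
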