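import Pool.Agent.Helper16.FDG.G01
import Pool.Agent.Helper16.FDG.G05
import Pool.Agent.Helper16.FDG.G08

/- Helper43.FL.YFF -/
section
/-!
# Project FL (MP_e8a4f2_al), module FL-15b: full faithfulness of `Y` is equivalent to that of `N`
-/

open CategoryTheory MonoidalCategory Opposite

set_option autoImplicit false

namespace Helper43.FL

open _root_.FL

universe u

section

variable {n : ℕ}

/-- Restriction of a map `Y D ⟶ Y D'` to the objects of `Θ_n`. -/
noncomputable def toN (hrep : ∀ θ : Th n, IsCat n (rep θ)) {D D' : SP (Gn n)}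
    {m : SimplexCategory} (Φ : PSh.MapS (YD D) (YD D') m) : MpS (ND D) (ND D') m where
  app a k s ψ := Φ.app ⟨rep a.unop, hrep _⟩ k s ψ
  nat_left {a b} f k s ψ :=
    Φ.act (C := ⟨rep b.unop, hrep _⟩) (C' := ⟨rep a.unop, hrep _⟩) s
      (MpS.ofHom k.unop (repMap f.unop)) ψ
  nat_right a _ _ g s ψ := Φ.nat ⟨rep a.unop, hrep _⟩ g s ψ

/-- The argument at which a map `N D ⟶ N D'` is evaluated. -/
noncomputable abbrev arg {C : SP (Th n)} {D : SP (Gn n)} {k l : SimplexCategoryᵒᵖ} {x : Th n}
    (ψ : MpS (filt C) D k.unop) (t : l.unop ⟶ k.unop) (c : (C.obj (op x)).obj l) :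
    MpS (filt (rep x)) D l.unop :=
  MpS.comp (filtS (yoS c)) (ψ.res t)

lemma yoS_map {C : SP (Th n)} {x x' : Th n} {k : SimplexCategory} (v : x' ⟶ x)
    (c : (C.obj (op x)).obj (op k)) :
    yoS ((C.map v.op).app (op k) c) = MpS.comp (MpS.ofHom k (repMap v)) (yoS c) := by
  refine MpS.ext ?_
  funext b l s w
  show (C.map (Quiver.Hom.op w)).app l ((C.obj (op x')).map s.op ((C.map v.op).app (op k) c)) =
    (C.map (Quiver.Hom.op (w ≫ v))).app l ((C.obj (op x)).map s.op c)
  rw [← sp_nat, ← sp_comp]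
  rfl

lemma yoS_res {C : SP (Th n)} {x : Th n} {k l : SimplexCategory} (α : l ⟶ k)
    (c : (C.obj (op x)).obj (op k)) :
    yoS ((C.obj (op x)).map α.op c) = (yoS c).res α := by
  refine MpS.ext ?_
  funext b m s w
  show (C.map (Quiver.Hom.op w)).app m ((C.obj (op x)).map s.op ((C.obj (op x)).map α.op c)) =
    (C.map (Quiver.Hom.op w)).app m ((C.obj (op x)).map (s ≫ α).op c)
  rw [← sset_comp]
  rfl

lemma yoS_comp {C C' : SP (Th n)} {x : Th n} {k : SimplexCategory} 
    (φ : MpS C C' k) (c : (C.obj (op x)).obj (op k)) :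
    MpS.comp (yoS c) φ = yoS (φ.app (op x) (op k) (𝟙 _) c) := by
  refine MpS.ext ?_
  funext b m s w
  show φ.app b m s ((C.map (Quiver.Hom.op w)).app m ((C.obj (op x)).map s.op c)) =
    (C'.map (Quiver.Hom.op w)).app m ((C'.obj (op x)).map s.op (φ.app (op x) (op k) (𝟙 _) c))
  rw [φ.nat_left, ← φ.nat_right]
  simp

lemma yoS_rep {a x : Th n} {k : SimplexCategory} (w : x ⟶ a) :
    yoS (C := rep a) (a := x) (k := k) w = MpS.ofHom k (repMap w) := by
  refine MpS.ext ?_
  funext b m s u
  rfl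

/-- Extension of a map `N D ⟶ N D'` to `Y D ⟶ Y D'`. -/
noncomputable def ofNapp {D D' : SP (Gn n)} {m : SimplexCategory} (Ψ : MpS (ND D) (ND D') m)
    {C : SP (Th n)} (k : SimplexCategoryᵒᵖ) (s : k.unop ⟶ m) (ψ : MpS (filt C) D k.unop) :
    MpS (filt C) D' k.unop where
  app g l t c := (Ψ.app (op ((tower n).obj g.unop)) l (t ≫ s)
    (arg ψ t (x := (tower n).obj g.unop) c) :
      MpS (filt (rep ((tower n).obj g.unop))) D' l.unop).app g l (𝟙 _) (𝟙 ((tower n).obj g.unop))
  nat_left {g g'} f l t c := by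
    set x := (tower n).obj g.unop with hx
    set x' := (tower n).obj g'.unop with hx'
    set v : x' ⟶ x := (tower n).map f.unop with hv
    have e1 : arg ψ t (x := x') ((C.map v.op).app l c) =
        MpS.comp (MpS.ofHom l.unop (Functor.whiskerLeft (tower n).op (repMap v)))
          (arg ψ t (x := x) c) := by
      exact congrArg (fun z : MpS (rep x') C l.unop => MpS.comp (filtS z) (ψ.res t))
        (yoS_map (k := l.unop) v c)
    have e2 := Ψ.nat_left (a := op x) (b := op x') v.op l (t ≫ s) (arg ψ t (x := x) c)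
    have e3 := (Ψ.app (op x) l (t ≫ s) (arg ψ t (x := x) c) :
      MpS (filt (rep x)) D' l.unop).nat_left f l (𝟙 _) (𝟙 x)
    refine Eq.trans ?_ e3
    refine (congrArg (fun z => (Ψ.app (op x') l (t ≫ s) z :
      MpS (filt (rep x')) D' l.unop).app g' l (𝟙 _) (𝟙 x')) e1).trans ?_
    refine (congrArg (fun z : MpS (filt (rep x')) D' l.unop => z.app g' l (𝟙 _) (𝟙 x')) e2).trans ?_
    exact congrArg (fun z => (Ψ.app (op x) l (t ≫ s) (arg ψ t (x := x) c) :
      MpS (filt (rep x)) D' l.unop).app g' l (𝟙 _) z)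
      ((Category.id_comp v).trans (Category.comp_id v).symm)
  nat_right g {l l'} α t c := by
    set x := (tower n).obj g.unop with hx
    have e1 : arg ψ (l := l') (α.unop ≫ t) (x := x) ((C.obj (op x)).map α c) =
        (arg ψ t (x := x) c).res α.unop := by
      unfold arg
      refine MpS.ext ?_
      funext b r u w
      show ψ.app b r (u ≫ α.unop ≫ t) _ = ψ.app b r ((u ≫ α.unop) ≫ t) _
      rw [Category.assoc]
      exact congrArg (fun z : MpS (rep x) C l'.unop => ψ.app b r (u ≫ α.unop ≫ t) (z.app _ r u w))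
        (yoS_res α.unop c)
    have e2 := Ψ.nat_right (op x) α (t ≫ s) (arg ψ t (x := x) c)
    have e3 := (Ψ.app (op x) l (t ≫ s) (arg ψ t (x := x) c) :
      MpS (filt (rep x)) D' l.unop).nat_right g α (𝟙 _) (𝟙 x)
    refine Eq.trans ?_ e3
    refine (congrArg (fun z => (Ψ.app (op x) l' ((α.unop ≫ t) ≫ s) z :
      MpS (filt (rep x)) D' l'.unop).app g l' (𝟙 _) (𝟙 x)) e1).trans ?_
    have e4 : (α.unop ≫ t) ≫ s = α.unop ≫ t ≫ s := Category.assoc _ _ _
    rw [e4]
    refine (congrArg (fun z : MpS (filt (rep x)) D' l'.unop => z.app g l' (𝟙 _) (𝟙 x)) e2).trans ?_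
    exact congrArg (fun z => (Ψ.app (op x) l (t ≫ s) (arg ψ t (x := x) c) :
      MpS (filt (rep x)) D' l.unop).app g l' z (𝟙 x))
      ((Category.id_comp α.unop).trans (Category.comp_id α.unop).symm)

/-- Extension of a map `N D ⟶ N D'` to a map `Y D ⟶ Y D'`. -/
noncomputable def ofN {D D' : SP (Gn n)} {m : SimplexCategory} (Ψ : MpS (ND D) (ND D') m) :
    PSh.MapS (YD D) (YD D') m where
  app C k s ψ := ofNapp Ψ (C := C.1) k s ψ
  nat C {k l} g s ψ := by
    refine MpS.ext ?_
    funext b r t c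
    set x := (tower n).obj b.unop with hx
    have e1 : arg (k := l) (MpS.res g.unop (ψ : MpS (filt C.1) D k.unop)) t (x := x) c =
        arg (k := k) ψ (t ≫ g.unop) (x := x) c := by
      refine MpS.ext ?_
      funext b' r' u w
      exact congrArg (fun z => MpS.app (ψ : MpS (filt C.1) D k.unop) b' r' z _)
        (Category.assoc u t g.unop)
    show (Ψ.app (op x) r (t ≫ g.unop ≫ s) (arg (k := l)
      (MpS.res g.unop (ψ : MpS (filt C.1) D k.unop)) t (x := x) c) :
        MpS (filt (rep x)) D' r.unop).app b r (𝟙 _) (𝟙 x) =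
      (Ψ.app (op x) r ((t ≫ g.unop) ≫ s) (arg (k := k) ψ (t ≫ g.unop) (x := x) c) :
        MpS (filt (rep x)) D' r.unop).app b r (𝟙 _) (𝟙 x)
    rw [e1, Category.assoc]
  act {C C' k} s φ ψ := by
    refine MpS.ext ?_
    funext b r t c
    set x := (tower n).obj b.unop with hx
    have e1 : arg (k := k) (MpS.comp (filtS φ) (ψ : MpS (filt C'.1) D k.unop)) t (x := x) c =
        arg (k := k) (C := C'.1) ψ t (x := x) (φ.app (op x) r t c) := by
      refine MpS.ext ?_
      funext b' r' u w
      have e2 := yoS_comp (C := C.1) (C' := C'.1) (x := x) (MpS.res t φ) c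
      have e3 := congrArg (fun z : MpS (rep x) C'.1 r.unop => z.app _ r' u w) e2
      refine (congrArg (fun z => MpS.app (ψ : MpS (filt C'.1) D k.unop) b' r' (u ≫ t) z) e3).trans ?_
      refine congrArg (fun z => MpS.app (ψ : MpS (filt C'.1) D k.unop) b' r' (u ≫ t)
        ((yoS (C := C'.1) (a := x) (k := r.unop) (φ.app (op x) r z c)).app _ r' u w)) ?_
      exact Category.id_comp t
    show (Ψ.app (op x) r (t ≫ s) (arg (k := k)
      (MpS.comp (filtS φ) (ψ : MpS (filt C'.1) D k.unop)) t (x := x) c) :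
        MpS (filt (rep x)) D' r.unop).app b r (𝟙 _) (𝟙 x) =
      (Ψ.app (op x) r (t ≫ s) (arg (k := k) (C := C'.1) ψ t (x := x) (φ.app (op x) r t c)) :
        MpS (filt (rep x)) D' r.unop).app b r (𝟙 _) (𝟙 x)
    rw [e1]

lemma toN_ofN (hrep : ∀ θ : Th n, IsCat n (rep θ)) {D D' : SP (Gn n)} {m : SimplexCategory}
    (Ψ : MpS (ND D) (ND D') m) : toN hrep (ofN Ψ) = Ψ := by
  refine MpS.ext ?_
  funext a k s ψ
  refine MpS.ext ?_
  funext g l t u
  set x := (tower n).obj g.unop with hx
  have e2 := Ψ.nat_left (a := a) (b := op x) (Quiver.Hom.op (u : x ⟶ a.unop)) l (t ≫ s)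
    (MpS.res t (ψ : MpS (filt (rep a.unop)) D k.unop))
  have e3 := Ψ.nat_right a t.op s ψ
  refine (congrArg (fun z : MpS (filt (rep x)) D' l.unop => z.app g l (𝟙 _) (𝟙 x)) e2).trans ?_
  refine (congrArg (fun z : MpS (filt (rep a.unop)) D' l.unop =>
    z.app g l (𝟙 _) (𝟙 x ≫ (u : x ⟶ a.unop))) e3).trans ?_
  show (Ψ.app a k s ψ : MpS (filt (rep a.unop)) D' k.unop).app g l (𝟙 _ ≫ t)
    (𝟙 x ≫ (u : x ⟶ a.unop)) = _
  rw [Category.id_comp]
  exact congrArg ((Ψ.app a k s ψ : MpS (filt (rep a.unop)) D' k.unop).app g l t)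
    (Category.id_comp (u : x ⟶ a.unop))

lemma ofN_toN (hrep : ∀ θ : Th n, IsCat n (rep θ)) {D D' : SP (Gn n)} {m : SimplexCategory}
    (Φ : PSh.MapS (YD D) (YD D') m) : ofN (toN hrep Φ) = Φ := by
  refine PSh.MapS.ext ?_
  funext C k s ψ
  refine MpS.ext ?_
  funext g l t c
  set x := (tower n).obj g.unop with hx
  have e1 := Φ.act (C := ⟨rep x, hrep x⟩) (C' := C) (k := l) (t ≫ s)
    (yoS (C := C.1) (a := x) (k := l.unop) c) (MpS.res t (ψ : MpS (filt C.1) D k.unop))
  have e2 := Φ.nat C t.op s ψ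
  refine (congrArg (fun z : MpS (filt (rep x)) D' l.unop => z.app g l (𝟙 _) (𝟙 x)) e1).trans ?_
  refine (congrArg (fun z : MpS (filt C.1) D' l.unop =>
    z.app g l (𝟙 _) ((C.1.map (𝟙 x).op).app l ((C.1.obj (op x)).map (𝟙 l.unop).op c))) e2).trans ?_
  show (Φ.app C k s ψ : MpS (filt C.1) D' k.unop).app g l (𝟙 _ ≫ t) _ = _
  rw [Category.id_comp]
  refine congrArg ((Φ.app C k s ψ : MpS (filt C.1) D' k.unop).app g l t) ?_
  refine (sp_id C.1 _).trans ?_
  exact sset_id _ _

/-- The comparison isomorphism. -/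
noncomputable def mapIso (hrep : ∀ θ : Th n, IsCat n (rep θ)) (D D' : SP (Gn n)) :
    PSh.Map (YD D) (YD D') ≅ SSet.uliftFunctor.{1, 0}.obj (Mp (ND D) (ND D')) where
  hom :=
    { app := fun m => ↾ fun Φ => ULift.up (toN hrep Φ)
      naturality := fun m m' α => by
        ext Φ
        rfl }
  inv :=
    { app := fun m => ↾ fun Ψ => ofN Ψ.down
      naturality := fun m m' α => by
        ext Ψ
        refine PSh.MapS.ext ?_
        funext C k s ψ
        rfl }
  hom_inv_id := by
    ext m Φ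
    exact ofN_toN hrep Φ
  inv_hom_id := by
    ext m Ψ
    exact congrArg ULift.up (toN_ofN hrep Ψ.down)

lemma mapIso_comp (hrep : ∀ θ : Th n, IsCat n (rep θ)) (D D' : SP (Gn n)) :
    YDmap D D' ≫ (mapIso hrep D D').hom = SSet.uliftFunctor.{1, 0}.map (NDmap D D') := by
  ext m φ
  rfl

/-- Full faithfulness of `Y` is equivalent to full faithfulness of `N` (the two hypotheses are
lemmas of module FL-1). -/
theorem YDmap_iff_of
    (h₁ : ∀ {X Y X' Y' : SSet.{1}} {f : X ⟶ Y} {f' : X' ⟶ Y'} (e : X ≅ X') (e' : Y ≅ Y'),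
      f ≫ e'.hom = e.hom ≫ f' → HoEq f → HoEq f')
    (h₂ : ∀ {X Y : SSet.{0}} (f : X ⟶ Y), HoEq (SSet.uliftFunctor.{1, 0}.map f) ↔ HoEq f)
    (hrep : ∀ θ : Th n, IsCat n (rep θ)) (D D' : SP (Gn n)) :
    HoEq (YDmap D D') ↔ HoEq (NDmap D D') := by
  rw [← h₂ (NDmap D D')]
  constructor
  · intro h
    refine h₁ (Iso.refl _) (mapIso hrep D D') ?_ h
    rw [mapIso_comp, Iso.refl_hom, Category.id_comp]
  · intro h
    refine h₁ (Iso.refl _) (mapIso hrep D D').symm ?_ h
    rw [← mapIso_comp hrep, Iso.symm_hom, Category.assoc, Iso.hom_inv_id, Category.comp_id,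
      Iso.refl_hom, Category.id_comp]

end

end Helper43.FL
end

/- Helper43.FL.YFFmain -/
section
/-!
# FL-15b: `YDmap_iff` without hypotheses on `HoEq`
-/

open CategoryTheory

set_option autoImplicit false

namespace Helper43.FL

open _root_.FL

/-- Full faithfulness of `Y` is equivalent to full faithfulness of `N`. -/
theorem YDmap_iff {n : ℕ} (hrep : ∀ θ : Th n, IsCat n (rep θ)) (D D' : SP (Gn n)) :
    HoEq (YDmap D D') ↔ HoEq (NDmap D D') :=
  YDmap_iff_of (fun e e' h hf => Pool.Agent.Helper88.FL.hoEq_of_arrow_iso e e' h hf)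
    (fun f => Pool.Agent.Helper88.FL.hoEq_ulift_iff f) hrep D D'

end Helper43.FL
end

/- Helper7.FL2.Lat -/
section
/-! Project FL2 (MP_e8a4f2_al), section G2: combinatorial lemmas about horns and spines. -/

set_option autoImplicit false

namespace Pool.Agent.Helper7.FL2

open FL

section

variable {L : Type} [DistribLattice L] [OrderBot L] {N : ℕ} (face : Finset (Fin (N + 1)) → L)

/-- The spine of the set of vertices `U`: the union of the faces `{a, b}` for `a < b` consecutive
elements of `U`, and of all vertices of `U`. -/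
def spineL (U : Finset (Fin (N + 1))) : L :=
  U.sup (fun a => face {a}) ⊔
    ((U ×ˢ U).filter fun p => p.1 < p.2 ∧ ∀ c ∈ U, ¬ (p.1 < c ∧ c < p.2)).sup
      fun p => face {p.1, p.2}

/-- The union of the faces of `U` opposite to the elements of `T`. -/
def hornL (U T : Finset (Fin (N + 1))) : L := T.sup fun i => face (U.erase i)

end

namespace LatAux

variable {L : Type} [DistribLattice L] [OrderBot L] {N : ℕ} {face : Finset (Fin (N + 1)) → L}

theorem face_mono (hinf : ∀ U V, face (U ∩ V) = face U ⊓ face V) {U V : Finset (Fin (N + 1))}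
    (h : U ⊆ V) : face U ≤ face V := by
  have h1 := hinf U V
  rw [Finset.inter_eq_left.2 h] at h1
  exact inf_eq_left.1 h1.symm

/-- down-closed families -/
def Dn (D : Finset (Fin (N + 1)) → Prop) : Prop := ∀ X Y, X ⊆ Y → D Y → D X

open Classical in
/-- union of a family of faces -/
noncomputable def Fa (face : Finset (Fin (N + 1)) → L) (D : Finset (Fin (N + 1)) → Prop) : L :=
  (Finset.univ.filter D).sup face

open Classical in
theorem le_Fa {D : Finset (Fin (N + 1)) → Prop} {X : Finset (Fin (N + 1))} (h : D X) :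
    face X ≤ Fa face D :=
  Finset.le_sup (f := face) (Finset.mem_filter.2 ⟨Finset.mem_univ _, h⟩)

open Classical in
theorem Fa_le {D : Finset (Fin (N + 1)) → Prop} {K : L} (h : ∀ X, D X → face X ≤ K) :
    Fa face D ≤ K :=
  Finset.sup_le fun X hX => h X (Finset.mem_filter.1 hX).2

theorem Fa_congr (hbot : face ∅ = ⊥) {D D' : Finset (Fin (N + 1)) → Prop}
    (h : ∀ X, X.Nonempty → (D X ↔ D' X)) : Fa face D = Fa face D' := by
  apply le_antisymm
  · apply Fa_le
    intro X hX
    rcases X.eq_empty_or_nonempty with rfl | hne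
    · rw [hbot]; exact bot_le
    · exact le_Fa ((h X hne).1 hX)
  · apply Fa_le
    intro X hX
    rcases X.eq_empty_or_nonempty with rfl | hne
    · rw [hbot]; exact bot_le
    · exact le_Fa ((h X hne).2 hX)

theorem Fa_sup (D D' : Finset (Fin (N + 1)) → Prop) :
    Fa face D ⊔ Fa face D' = Fa face (fun X => D X ∨ D' X) := by
  apply le_antisymm
  · exact sup_le (Fa_le fun X hX => le_Fa (Or.inl hX)) (Fa_le fun X hX => le_Fa (Or.inr hX))
  · apply Fa_le
    rintro X (hX | hX)
    · exact (le_Fa hX).trans le_sup_left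
    · exact (le_Fa hX).trans le_sup_right

open Classical in
theorem Fa_inf (hinf : ∀ U V, face (U ∩ V) = face U ⊓ face V)
    {D D' : Finset (Fin (N + 1)) → Prop} (hD : Dn D) (hD' : Dn D') :
    Fa face D ⊓ Fa face D' = Fa face (fun X => D X ∧ D' X) := by
  apply le_antisymm
  · unfold Fa
    rw [Finset.sup_inf_distrib_right]
    apply Finset.sup_le
    intro X hX
    rw [Finset.sup_inf_distrib_left]
    apply Finset.sup_le
    intro Y hY
    rw [← hinf]
    exact le_Fa ⟨hD _ _ Finset.inter_subset_left (Finset.mem_filter.1 hX).2,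
      hD' _ _ Finset.inter_subset_right (Finset.mem_filter.1 hY).2⟩
  · exact Fa_le fun X hX => le_inf (le_Fa hX.1) (le_Fa hX.2)

theorem Fa_face (hinf : ∀ U V, face (U ∩ V) = face U ⊓ face V) (U : Finset (Fin (N + 1))) :
    face U = Fa face (fun X => X ⊆ U) :=
  le_antisymm (le_Fa (D := fun X => X ⊆ U) (Finset.Subset.refl _)) (Fa_le fun _ hX => face_mono hinf hX)

theorem dn_face (U : Finset (Fin (N + 1))) : Dn (fun X => X ⊆ U) :=
  fun _ _ h hY => h.trans hY

theorem dn_or {D D' : Finset (Fin (N + 1)) → Prop} (h : Dn D) (h' : Dn D') :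
    Dn (fun X => D X ∨ D' X) := by
  rintro X Y hXY (hY | hY)
  · exact Or.inl (h _ _ hXY hY)
  · exact Or.inr (h' _ _ hXY hY)

/-- the faces of the spine -/
def Sp (U X : Finset (Fin (N + 1))) : Prop :=
  X ⊆ U ∧ ∀ a ∈ X, ∀ b ∈ X, ∀ c ∈ U, a < c → c < b → False

theorem dn_Sp (U : Finset (Fin (N + 1))) : Dn (Sp U) := fun X Y h hY =>
  ⟨h.trans hY.1, fun a ha b hb c hc h1 h2 => hY.2 a (h ha) b (h hb) c hc h1 h2⟩

theorem spine_eq (hbot : face ∅ = ⊥) (hinf : ∀ U V, face (U ∩ V) = face U ⊓ face V)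
    (U : Finset (Fin (N + 1))) : spineL face U = Fa face (Sp U) := by
  apply le_antisymm
  · unfold spineL
    apply sup_le
    · apply Finset.sup_le
      intro a ha
      apply le_Fa
      refine ⟨Finset.singleton_subset_iff.2 ha, ?_⟩
      intro x hx y hy c _ h1 h2
      rw [Finset.mem_singleton] at hx hy
      subst hx; subst hy
      exact absurd (h1.trans h2) (lt_irrefl _)
    · apply Finset.sup_le
      rintro ⟨a, b⟩ hab
      rw [Finset.mem_filter, Finset.mem_product] at hab
      obtain ⟨⟨ha, hb⟩, hlt, hno⟩ := hab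
      simp only at ha hb hlt hno ⊢
      apply le_Fa
      refine ⟨?_, ?_⟩
      · intro x hx
        rw [Finset.mem_insert, Finset.mem_singleton] at hx
        rcases hx with rfl | rfl
        · exact ha
        · exact hb
      · intro x hx y hy c hc h1 h2
        rw [Finset.mem_insert, Finset.mem_singleton] at hx hy
        rcases hx with rfl | rfl
        · rcases hy with rfl | rfl
          · exact absurd (h1.trans h2) (lt_irrefl _)
          · exact hno c hc ⟨h1, h2⟩
        · rcases hy with rfl | rfl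
          · exact absurd ((hlt.trans h1).trans h2) (lt_irrefl _)
          · exact absurd (h1.trans h2) (lt_irrefl _)
  · apply Fa_le
    rintro X ⟨hXU, hX⟩
    rcases X.eq_empty_or_nonempty with rfl | hne
    · rw [hbot]; exact bot_le
    · have h1 := X.min'_mem hne
      have h2 := X.max'_mem hne
      set a := X.min' hne with ha
      set b := X.max' hne with hb
      have hsub : X ⊆ {a, b} := by
        intro x hx
        rw [Finset.mem_insert, Finset.mem_singleton]
        have h3 : a ≤ x := X.min'_le x hx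
        have h4 : x ≤ b := X.le_max' x hx
        rcases h3.eq_or_lt with h5 | h5
        · exact Or.inl h5.symm
        · rcases h4.eq_or_lt with h6 | h6
          · exact Or.inr h6
          · exact absurd (hX a h1 b h2 x (hXU hx) h5 h6) id
      refine (face_mono hinf hsub).trans ?_
      have hab : a ≤ b := X.min'_le _ h2
      rcases hab.eq_or_lt with h3 | h3
      · rw [← h3, Finset.pair_eq_singleton]
        exact (Finset.le_sup (f := fun a => face {a}) (hXU h1)).trans le_sup_left
      · refine (Finset.le_sup (f := fun p : Fin (N + 1) × Fin (N + 1) => face {p.1, p.2})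
          (b := (a, b)) ?_).trans le_sup_right
        rw [Finset.mem_filter, Finset.mem_product]
        exact ⟨⟨hXU h1, hXU h2⟩, h3, fun c hc h => hX a h1 b h2 c hc h.1 h.2⟩

/-- the faces of the horn -/
def Hn (U T X : Finset (Fin (N + 1))) : Prop := X ⊆ U ∧ ∃ i ∈ T, i ∉ X

theorem dn_Hn (U T : Finset (Fin (N + 1))) : Dn (Hn U T) := fun X Y h hY =>
  ⟨h.trans hY.1, by
    obtain ⟨i, hi, hiY⟩ := hY.2
    exact ⟨i, hi, fun hX => hiY (h hX)⟩⟩

theorem horn_eq (hinf : ∀ U V, face (U ∩ V) = face U ⊓ face V)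
    (U T : Finset (Fin (N + 1))) : hornL face U T = Fa face (Hn U T) := by
  apply le_antisymm
  · unfold hornL
    apply Finset.sup_le
    intro i hi
    exact le_Fa ⟨Finset.erase_subset _ _, i, hi, Finset.notMem_erase i U⟩
  · apply Fa_le
    rintro X ⟨hXU, i, hi, hiX⟩
    refine (face_mono hinf ?_).trans (Finset.le_sup (f := fun i => face (U.erase i)) hi)
    intro x hx
    rw [Finset.mem_erase]
    exact ⟨fun h => hiX (h ▸ hx), hXU hx⟩

section Rel

variable (R : L → L → Prop)

theorem push (hinf : ∀ U V, face (U ∩ V) = face U ⊓ face V)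
    (hpush : ∀ K₁ K₂, R (K₁ ⊓ K₂) K₂ → R K₁ (K₁ ⊔ K₂)) {D D' : Finset (Fin (N + 1)) → Prop}
    (hD : Dn D) (hD' : Dn D') (h : R (Fa face (fun X => D X ∧ D' X)) (Fa face D')) :
    R (Fa face D) (Fa face (fun X => D X ∨ D' X)) := by
  rw [← Fa_sup]
  apply hpush
  rw [Fa_inf hinf hD hD']
  exact h

theorem Fa_le_face (hinf : ∀ U V, face (U ∩ V) = face U ⊓ face V)
    {D : Finset (Fin (N + 1)) → Prop} {U : Finset (Fin (N + 1))} (h : ∀ X, D X → X ⊆ U) :
    Fa face D ≤ face U := Fa_le fun X hX => face_mono hinf (h X hX)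

/-- step (a): from the spine to the spine and the face opposite to the least vertex -/
theorem stepA (hbot : face ∅ = ⊥) (hinf : ∀ U V, face (U ∩ V) = face U ⊓ face V)
    (hpush : ∀ K₁ K₂, R (K₁ ⊓ K₂) K₂ → R K₁ (K₁ ⊔ K₂))
    (hspine : ∀ U : Finset (Fin (N + 1)), U.Nonempty → R (spineL face U) (face U))
    (U : Finset (Fin (N + 1))) (u : Fin (N + 1)) (hu : ∀ x ∈ U, u ≤ x)
    (hne : (U.erase u).Nonempty) :
    R (spineL face U) (Fa face (fun X => Sp U X ∨ X ⊆ U.erase u)) := by
  rw [spine_eq hbot hinf]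
  apply push R hinf hpush (dn_Sp U) (dn_face _)
  have h1 := hspine (U.erase u) hne
  rw [spine_eq hbot hinf, Fa_face hinf (U.erase u)] at h1
  have h2 : Fa face (fun X => Sp U X ∧ X ⊆ U.erase u) = Fa face (Sp (U.erase u)) := by
    apply Fa_congr hbot
    intro X _
    constructor
    · rintro ⟨⟨_, h3⟩, h4⟩
      exact ⟨h4, fun a ha b hb c hc => h3 a ha b hb c (Finset.mem_of_mem_erase hc)⟩
    · rintro ⟨h3, h4⟩
      refine ⟨⟨h3.trans (Finset.erase_subset _ _), ?_⟩, h3⟩
      intro a ha b hb c hc h5 h6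
      by_cases hcu : c = u
      · subst hcu
        have h7 := hu a (Finset.mem_of_mem_erase (h3 ha))
        exact absurd (lt_of_le_of_lt h7 h5) (lt_irrefl _)
      · exact h4 a ha b hb c (Finset.mem_erase.2 ⟨hcu, hc⟩) h5 h6
  rw [h2]
  exact h1

/-- step (b): both outer faces -/
theorem stepB (hbot : face ∅ = ⊥) (hinf : ∀ U V, face (U ∩ V) = face U ⊓ face V)
    (htrans : ∀ K₁ K₂ K₃, R K₁ K₂ → R K₂ K₃ → R K₁ K₃)
    (hcancel : ∀ K₁ K₂ K₃, R K₁ K₂ → R K₁ K₃ → K₂ ≤ K₃ → R K₂ K₃)
    (hpush : ∀ K₁ K₂, R (K₁ ⊓ K₂) K₂ → R K₁ (K₁ ⊔ K₂))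
    (hspine : ∀ U : Finset (Fin (N + 1)), U.Nonempty → R (spineL face U) (face U))
    (U : Finset (Fin (N + 1))) (u v w : Fin (N + 1)) (huU : u ∈ U) (hvU : v ∈ U) (hwU : w ∈ U)
    (hu : ∀ x ∈ U, u ≤ x) (hv : ∀ x ∈ U, x ≤ v) (huw : u < w) (hwv : w < v) :
    R (Fa face (Hn U {u, v})) (face U) := by
  have huv : u < v := huw.trans hwv
  have hA := stepA R hbot hinf hpush hspine U u hu ⟨w, Finset.mem_erase.2 ⟨huw.ne', hwU⟩⟩
  have huE : ∀ x ∈ U.erase v, u ≤ x := fun x hx => hu x (Finset.mem_of_mem_erase hx)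
  have hA' := stepA R hbot hinf hpush hspine (U.erase v) u huE
    ⟨w, Finset.mem_erase.2 ⟨huw.ne', Finset.mem_erase.2 ⟨hwv.ne, hwU⟩⟩⟩
  have hS := hspine U ⟨u, huU⟩
  have hS' := hspine (U.erase v) ⟨u, Finset.mem_erase.2 ⟨huv.ne, huU⟩⟩
  have h1 : R (Fa face (fun X => Sp (U.erase v) X ∨ X ⊆ (U.erase v).erase u))
      (face (U.erase v)) := by
    apply hcancel _ _ _ hA' hS'
    apply Fa_le_face hinf
    rintro X (hX | hX)
    · exact hX.1
    · exact hX.trans (Finset.erase_subset _ _)
  have h2 : Fa face (fun X => (Sp U X ∨ X ⊆ U.erase u) ∧ X ⊆ U.erase v) =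
      Fa face (fun X => Sp (U.erase v) X ∨ X ⊆ (U.erase v).erase u) := by
    apply Fa_congr hbot
    intro X _
    constructor
    · rintro ⟨h3 | h3, h4⟩
      · left
        exact ⟨h4, fun a ha b hb c hc => h3.2 a ha b hb c (Finset.mem_of_mem_erase hc)⟩
      · right
        intro x hx
        exact Finset.mem_erase.2 ⟨(Finset.mem_erase.1 (h3 hx)).1, h4 hx⟩
    · rintro (h3 | h3)
      · refine ⟨Or.inl ⟨h3.1.trans (Finset.erase_subset _ _), ?_⟩, h3.1⟩
        intro a ha b hb c hc h5 h6
        by_cases hcv : c = v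
        · subst hcv
          have h7 := hv b (Finset.mem_of_mem_erase (h3.1 hb))
          exact absurd (lt_of_lt_of_le h6 h7) (lt_irrefl _)
        · exact h3.2 a ha b hb c (Finset.mem_erase.2 ⟨hcv, hc⟩) h5 h6
      · refine ⟨Or.inr ?_, h3.trans (Finset.erase_subset _ _)⟩
        intro x hx
        have h4 := Finset.mem_erase.1 (h3 hx)
        exact Finset.mem_erase.2 ⟨h4.1, Finset.mem_of_mem_erase h4.2⟩
  have h3 := push R hinf hpush (dn_or (dn_Sp U) (dn_face (U.erase u))) (dn_face (U.erase v))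
    (by rw [h2, ← Fa_face hinf]; exact h1)
  have h4 : Fa face (fun X => (Sp U X ∨ X ⊆ U.erase u) ∨ X ⊆ U.erase v) =
      Fa face (Hn U {u, v}) := by
    apply Fa_congr hbot
    intro X _
    constructor
    · rintro ((h5 | h5) | h5)
      · refine ⟨h5.1, ?_⟩
        by_contra hno
        push Not at hno
        have e1 := hno u (by simp)
        have e2 := hno v (by simp)
        exact h5.2 u e1 v e2 w hwU huw hwv
      · exact ⟨h5.trans (Finset.erase_subset _ _), u, by simp,
          fun h => absurd (h5 h) (Finset.notMem_erase u U)⟩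
      · exact ⟨h5.trans (Finset.erase_subset _ _), v, by simp,
          fun h => absurd (h5 h) (Finset.notMem_erase v U)⟩
    · rintro ⟨h5, i, hi, hiX⟩
      rw [Finset.mem_insert, Finset.mem_singleton] at hi
      rcases hi with rfl | rfl
      · left; right
        intro x hx
        exact Finset.mem_erase.2 ⟨fun h => hiX (h ▸ hx), h5 hx⟩
      · right
        intro x hx
        exact Finset.mem_erase.2 ⟨fun h => hiX (h ▸ hx), h5 hx⟩
  rw [h4] at h3
  exact hcancel _ _ _ (htrans _ _ _ hA h3) hS (Fa_le_face hinf fun X hX => hX.1)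

/-- adding one face to a horn -/
theorem horn_step (hbot : face ∅ = ⊥) (hinf : ∀ U V, face (U ∩ V) = face U ⊓ face V)
    (hpush : ∀ K₁ K₂, R (K₁ ⊓ K₂) K₂ → R K₁ (K₁ ⊔ K₂))
    (U T : Finset (Fin (N + 1))) (i : Fin (N + 1)) (hi : i ∉ T)
    (h : R (Fa face (Hn (U.erase i) T)) (face (U.erase i))) :
    R (Fa face (Hn U T)) (Fa face (Hn U (insert i T))) := by
  have h1 : Fa face (fun X => Hn U T X ∧ X ⊆ U.erase i) = Fa face (Hn (U.erase i) T) := by
    apply Fa_congr hbot
    intro X _
    constructor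
    · rintro ⟨h2, h3⟩
      exact ⟨h3, h2.2⟩
    · rintro ⟨h2, h3⟩
      exact ⟨⟨h2.trans (Finset.erase_subset _ _), h3⟩, h2⟩
  have h2 := push R hinf hpush (dn_Hn U T) (dn_face (U.erase i))
    (by rw [h1, ← Fa_face hinf]; exact h)
  have h3 : Fa face (fun X => Hn U T X ∨ X ⊆ U.erase i) = Fa face (Hn U (insert i T)) := by
    apply Fa_congr hbot
    intro X _
    constructor
    · rintro (⟨h4, j, hj, hjX⟩ | h4)
      · exact ⟨h4, j, Finset.mem_insert_of_mem hj, hjX⟩
      · exact ⟨h4.trans (Finset.erase_subset _ _), i, Finset.mem_insert_self _ _,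
          fun h => absurd (h4 h) (Finset.notMem_erase i U)⟩
    · rintro ⟨h4, j, hj, hjX⟩
      rw [Finset.mem_insert] at hj
      rcases hj with rfl | hj
      · right
        intro x hx
        exact Finset.mem_erase.2 ⟨fun h => hjX (h ▸ hx), h4 hx⟩
      · exact Or.inl ⟨h4, j, hj, hjX⟩
  rw [h3] at h2
  exact h2

end Rel

end LatAux

open LatAux

section

variable {L : Type} [DistribLattice L] [OrderBot L] {N : ℕ} (face : Finset (Fin (N + 1)) → L)

theorem lat_JT (hbot : face ∅ = ⊥) (hinf : ∀ U V, face (U ∩ V) = face U ⊓ face V)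
    (R : L → L → Prop) (hrefl : ∀ K, R K K)
    (htrans : ∀ K₁ K₂ K₃, R K₁ K₂ → R K₂ K₃ → R K₁ K₃)
    (hcancel : ∀ K₁ K₂ K₃, R K₁ K₂ → R K₁ K₃ → K₂ ≤ K₃ → R K₂ K₃)
    (hpush : ∀ K₁ K₂, R (K₁ ⊓ K₂) K₂ → R K₁ (K₁ ⊔ K₂))
    (hspine : ∀ U : Finset (Fin (N + 1)), U.Nonempty → R (spineL face U) (face U))
    (U S : Finset (Fin (N + 1))) (hS : S.Nonempty) (hSU : S ⊆ U)
    (hint : ∀ i ∈ S, (∃ a ∈ U, a < i) ∧ ∃ b ∈ U, i < b) :
    R (hornL face U (U \ S)) (face U) := by
  rw [horn_eq hinf]
  induction hn : U.card using Nat.strong_induction_on generalizing U S with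
  | _ n ih =>
    obtain ⟨w, hw⟩ := hS
    have hwU := hSU hw
    have hUne : U.Nonempty := ⟨w, hwU⟩
    set u := U.min' hUne with hu
    set v := U.max' hUne with hv
    have huU : u ∈ U := U.min'_mem hUne
    have hvU : v ∈ U := U.max'_mem hUne
    have hule : ∀ x ∈ U, u ≤ x := fun x hx => U.min'_le x hx
    have hlev : ∀ x ∈ U, x ≤ v := fun x hx => U.le_max' x hx
    have huS : ∀ i ∈ S, u < i ∧ i < v := by
      intro i hi
      obtain ⟨⟨a, ha, hai⟩, b, hb, hib⟩ := hint i hi
      exact ⟨lt_of_le_of_lt (hule a ha) hai, lt_of_lt_of_le hib (hlev b hb)⟩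
    have hB := stepB R hbot hinf htrans hcancel hpush hspine U u v w huU hvU hwU hule hlev
      (huS w hw).1 (huS w hw).2
    have huv : u < v := (huS w hw).1.trans (huS w hw).2
    -- all horns between
    have key : ∀ T : Finset (Fin (N + 1)), T ⊆ U \ S → R (Fa face (Hn U {u, v}))
        (Fa face (Hn U ({u, v} ∪ T))) := by
      intro T
      induction T using Finset.induction_on with
      | empty =>
        intro _
        rw [Finset.union_empty]
        exact hrefl _
      | insert i T hiT ihT =>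
        intro hT
        have h1 := ihT (fun x hx => hT (Finset.mem_insert_of_mem hx))
        rw [Finset.union_insert]
        by_cases hi : i ∈ ({u, v} ∪ T : Finset (Fin (N + 1)))
        · rw [Finset.insert_eq_of_mem hi]
          exact h1
        · refine htrans _ _ _ h1 (horn_step R hbot hinf hpush U _ i hi ?_)
          have hiU : i ∈ U := (Finset.mem_sdiff.1 (hT (Finset.mem_insert_self _ _))).1
          have hiS : i ∉ S := (Finset.mem_sdiff.1 (hT (Finset.mem_insert_self _ _))).2
          have hiuv : i ≠ u ∧ i ≠ v := by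
            rw [Finset.mem_union, Finset.mem_insert, Finset.mem_singleton] at hi
            push Not at hi
            exact hi.1
          set T' := ({u, v} ∪ T : Finset (Fin (N + 1))) with hT'
          have hT'U : T' ⊆ U.erase i := by
            intro x hx
            rw [Finset.mem_erase]
            refine ⟨fun h => hi (h ▸ hx), ?_⟩
            rw [hT', Finset.mem_union, Finset.mem_insert, Finset.mem_singleton] at hx
            rcases hx with (rfl | rfl) | hx
            · exact huU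
            · exact hvU
            · exact (Finset.mem_sdiff.1 (hT (Finset.mem_insert_of_mem hx))).1
          have hT'S : ∀ x ∈ T', x ∉ S := by
            intro x hx hxS
            rw [hT', Finset.mem_union, Finset.mem_insert, Finset.mem_singleton] at hx
            rcases hx with (rfl | rfl) | hx
            · exact absurd (huS _ hxS).1 (lt_irrefl _)
            · exact absurd (huS _ hxS).2 (lt_irrefl _)
            · exact (Finset.mem_sdiff.1 (hT (Finset.mem_insert_of_mem hx))).2 hxS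
          have hcard : (U.erase i).card < n := by
            rw [← hn]
            exact Finset.card_erase_lt_of_mem hiU
          have h2 := ih (U.erase i).card hcard (U.erase i) (U.erase i \ T')
            ⟨w, Finset.mem_sdiff.2 ⟨Finset.mem_erase.2 ⟨fun h => hiS (h ▸ hw), hwU⟩,
              fun h => hT'S w h hw⟩⟩ Finset.sdiff_subset
            (by
              intro j hj
              rw [Finset.mem_sdiff] at hj
              have hjU := Finset.mem_of_mem_erase hj.1
              have hju : j ≠ u := fun h => hj.2 (by rw [h, hT']; simp)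
              have hjv : j ≠ v := fun h => hj.2 (by rw [h, hT']; simp)
              refine ⟨⟨u, Finset.mem_erase.2 ⟨hiuv.1.symm, huU⟩,
                lt_of_le_of_ne (hule j hjU) hju.symm⟩, v,
                Finset.mem_erase.2 ⟨hiuv.2.symm, hvU⟩, lt_of_le_of_ne (hlev j hjU) hjv⟩) rfl
          rw [Finset.sdiff_sdiff_eq_self hT'U] at h2
          exact h2
    have h1 := key (U \ S) (Finset.Subset.refl _)
    have h2 : ({u, v} ∪ U \ S : Finset (Fin (N + 1))) = U \ S := by
      rw [Finset.union_eq_right]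
      intro x hx
      rw [Finset.mem_insert, Finset.mem_singleton] at hx
      rw [Finset.mem_sdiff]
      rcases hx with rfl | rfl
      · exact ⟨huU, fun h => absurd (huS _ h).1 (lt_irrefl _)⟩
      · exact ⟨hvU, fun h => absurd (huS _ h).2 (lt_irrefl _)⟩
    rw [h2] at h1
    exact hcancel _ _ _ h1 hB (Fa_le_face hinf fun X hX => hX.1)

/-- Binary Segal decompositions from spines. -/
theorem lat_bin (hbot : face ∅ = ⊥) (hinf : ∀ U V, face (U ∩ V) = face U ⊓ face V)
    (R : L → L → Prop) (hrefl : ∀ K, R K K)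
    (htrans : ∀ K₁ K₂ K₃, R K₁ K₂ → R K₂ K₃ → R K₁ K₃)
    (hcancel : ∀ K₁ K₂ K₃, R K₁ K₂ → R K₁ K₃ → K₂ ≤ K₃ → R K₂ K₃)
    (hpush : ∀ K₁ K₂, R (K₁ ⊓ K₂) K₂ → R K₁ (K₁ ⊔ K₂))
    (hspine : ∀ U : Finset (Fin (N + 1)), U.Nonempty → R (spineL face U) (face U))
    (U : Finset (Fin (N + 1))) (a : Fin (N + 1)) (ha : a ∈ U) :
    R (face (U.filter (· ≤ a)) ⊔ face (U.filter (a ≤ ·))) (face U) := by
  set A := U.filter (· ≤ a) with hA
  set B := U.filter (a ≤ ·) with hB
  have haA : a ∈ A := Finset.mem_filter.2 ⟨ha, le_refl _⟩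
  have haB : a ∈ B := Finset.mem_filter.2 ⟨ha, le_refl _⟩
  have hAU : A ⊆ U := Finset.filter_subset _ _
  have hBU : B ⊆ U := Finset.filter_subset _ _
  have hsA := hspine A ⟨a, haA⟩
  have hsB := hspine B ⟨a, haB⟩
  have hsU := hspine U ⟨a, ha⟩
  rw [spine_eq hbot hinf] at hsA hsB hsU
  have h1 : Fa face (fun X => Sp U X ∧ X ⊆ A) = Fa face (Sp A) := by
    apply Fa_congr hbot
    intro X _
    constructor
    · rintro ⟨h3, h4⟩
      exact ⟨h4, fun x hx y hy c hc => h3.2 x hx y hy c (hAU hc)⟩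
    · rintro ⟨h3, h4⟩
      refine ⟨⟨h3.trans hAU, ?_⟩, h3⟩
      intro x hx y hy c hc h5 h6
      have h7 := (Finset.mem_filter.1 (h3 hy)).2
      exact h4 x hx y hy c (Finset.mem_filter.2 ⟨hc, h6.le.trans h7⟩) h5 h6
  have h2 := push R hinf hpush (dn_Sp U) (dn_face A) (by rw [h1, ← Fa_face hinf]; exact hsA)
  have h3 : Fa face (fun X => (Sp U X ∨ X ⊆ A) ∧ X ⊆ B) = Fa face (Sp B) := by
    apply Fa_congr hbot
    intro X _
    constructor
    · rintro ⟨h3 | h3, h4⟩
      · exact ⟨h4, fun x hx y hy c hc => h3.2 x hx y hy c (hBU hc)⟩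
      · refine ⟨h4, ?_⟩
        intro x hx y hy c hc h5 h6
        have e1 := (Finset.mem_filter.1 (h4 hx)).2
        have e2 := (Finset.mem_filter.1 (h3 hy)).2
        exact absurd (lt_of_le_of_lt e1 (lt_of_lt_of_le (h5.trans h6) e2)) (lt_irrefl _)
    · rintro ⟨h3, h4⟩
      refine ⟨Or.inl ⟨h3.trans hBU, ?_⟩, h3⟩
      intro x hx y hy c hc h5 h6
      have h7 := (Finset.mem_filter.1 (h3 hx)).2
      exact h4 x hx y hy c (Finset.mem_filter.2 ⟨hc, h7.trans h5.le⟩) h5 h6
  have h4 := push R hinf hpush (dn_or (dn_Sp U) (dn_face A)) (dn_face B)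
    (by rw [h3, ← Fa_face hinf]; exact hsB)
  have h5 : Fa face (fun X => (Sp U X ∨ X ⊆ A) ∨ X ⊆ B) = face A ⊔ face B := by
    rw [Fa_face hinf A, Fa_face hinf B, Fa_sup]
    apply Fa_congr hbot
    intro X _
    constructor
    · rintro ((h5 | h5) | h5)
      · by_contra hno
        push Not at hno
        obtain ⟨hn1, hn2⟩ := hno
        rw [Finset.not_subset] at hn1 hn2
        obtain ⟨x, hx, hxA⟩ := hn1
        obtain ⟨y, hy, hyB⟩ := hn2
        have e1 : a < x := by
          by_contra h6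
          exact hxA (Finset.mem_filter.2 ⟨h5.1 hx, not_lt.1 h6⟩)
        have e2 : y < a := by
          by_contra h6
          exact hyB (Finset.mem_filter.2 ⟨h5.1 hy, not_lt.1 h6⟩)
        exact h5.2 y hy x hx a ha e2 e1
      · exact Or.inl h5
      · exact Or.inr h5
    · rintro (h5 | h5)
      · exact Or.inl (Or.inr h5)
      · exact Or.inr h5
  rw [h5] at h4
  exact hcancel _ _ _ (htrans _ _ _ h2 h4) hsU
    (sup_le (face_mono hinf hAU) (face_mono hinf hBU))

/-- Spines from binary Segal decompositions. -/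
theorem lat_spine (hbot : face ∅ = ⊥) (hinf : ∀ U V, face (U ∩ V) = face U ⊓ face V)
    (R : L → L → Prop) (hrefl : ∀ K, R K K)
    (htrans : ∀ K₁ K₂ K₃, R K₁ K₂ → R K₂ K₃ → R K₁ K₃)
    (hcancel : ∀ K₁ K₂ K₃, R K₁ K₂ → R K₁ K₃ → K₂ ≤ K₃ → R K₂ K₃)
    (hpush : ∀ K₁ K₂, R (K₁ ⊓ K₂) K₂ → R K₁ (K₁ ⊔ K₂))
    (hb : ∀ (U : Finset (Fin (N + 1))) (a b : Fin (N + 1)), a ∈ U → b ∈ U → a < b →
      (∀ c ∈ U, c ≤ a ∨ c = b) → R (face (U.erase b) ⊔ face {a, b}) (face U))
    (U : Finset (Fin (N + 1))) (hU : U.Nonempty) : R (spineL face U) (face U) := by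
  rw [spine_eq hbot hinf]
  induction hn : U.card using Nat.strong_induction_on generalizing U with
  | _ n ih =>
    set b := U.max' hU with hbdef
    have hbU : b ∈ U := U.max'_mem hU
    have hle : ∀ x ∈ U, x ≤ b := fun x hx => U.le_max' x hx
    rcases (U.erase b).eq_empty_or_nonempty with hE | hE
    · have h1 : ∀ x ∈ U, x = b := by
        intro x hx
        by_contra hne
        have : x ∈ U.erase b := Finset.mem_erase.2 ⟨hne, hx⟩
        rw [hE] at this
        exact absurd this (Finset.notMem_empty _)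
      have h2 : Fa face (Sp U) = face U := by
        rw [Fa_face hinf U]
        apply Fa_congr hbot
        intro X _
        refine ⟨fun h => h.1, fun h => ⟨h, ?_⟩⟩
        intro x hx y hy c hc h5 h6
        rw [h1 x (h hx), h1 c hc] at h5
        exact absurd h5 (lt_irrefl _)
      rw [h2]
      exact hrefl _
    · set a := (U.erase b).max' hE with hadef
      have haE : a ∈ U.erase b := (U.erase b).max'_mem hE
      have haU : a ∈ U := Finset.mem_of_mem_erase haE
      have hab : a < b := lt_of_le_of_ne (hle a haU) (Finset.mem_erase.1 haE).1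
      have hcons : ∀ c ∈ U, c ≤ a ∨ c = b := by
        intro c hc
        by_cases h : c = b
        · exact Or.inr h
        · exact Or.inl ((U.erase b).le_max' c (Finset.mem_erase.2 ⟨h, hc⟩))
      have hcard : (U.erase b).card < n := by
        rw [← hn]
        exact Finset.card_erase_lt_of_mem hbU
      have h1 := ih _ hcard (U.erase b) hE rfl
      have h2 : Fa face (fun X => Sp U X ∧ X ⊆ U.erase b) = Fa face (Sp (U.erase b)) := by
        apply Fa_congr hbot
        intro X _
        constructor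
        · rintro ⟨h3, h4⟩
          exact ⟨h4, fun x hx y hy c hc => h3.2 x hx y hy c (Finset.mem_of_mem_erase hc)⟩
        · rintro ⟨h3, h4⟩
          refine ⟨⟨h3.trans (Finset.erase_subset _ _), ?_⟩, h3⟩
          intro x hx y hy c hc h5 h6
          by_cases hcb : c = b
          · have h7 := hle y (Finset.mem_of_mem_erase (h3 hy))
            rw [hcb] at h6
            exact absurd (lt_of_lt_of_le h6 h7) (lt_irrefl _)
          · exact h4 x hx y hy c (Finset.mem_erase.2 ⟨hcb, hc⟩) h5 h6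
      have h3 := push R hinf hpush (dn_Sp U) (dn_face (U.erase b))
        (by rw [h2, ← Fa_face hinf]; exact h1)
      have h4 : Fa face (fun X => Sp U X ∨ X ⊆ U.erase b) = face (U.erase b) ⊔ face {a, b} := by
        rw [Fa_face hinf (U.erase b), Fa_face hinf {a, b}, Fa_sup]
        apply Fa_congr hbot
        intro X _
        constructor
        · rintro (h5 | h5)
          · by_cases hbX : b ∈ X
            · right
              intro x hx
              rw [Finset.mem_insert, Finset.mem_singleton]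
              rcases hcons x (h5.1 hx) with h6 | h6
              · rcases h6.eq_or_lt with h7 | h7
                · exact Or.inl h7
                · exact absurd (h5.2 x hx b hbX a haU h7 hab) id
              · exact Or.inr h6
            · left
              intro x hx
              exact Finset.mem_erase.2 ⟨fun h => hbX (h ▸ hx), h5.1 hx⟩
          · exact Or.inl h5
        · rintro (h5 | h5)
          · exact Or.inr h5
          · left
            have h6 : ∀ x ∈ X, x = a ∨ x = b := by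
              intro x hx
              have := h5 hx
              rwa [Finset.mem_insert, Finset.mem_singleton] at this
            refine ⟨?_, ?_⟩
            · intro x hx
              rcases h6 x hx with rfl | rfl
              · exact haU
              · exact hbU
            · intro x hx y hy c hc h7 h8
              have hax : a ≤ x := by
                rcases h6 x hx with h | h
                · exact h.ge
                · rw [h]; exact hab.le
              have hyb : y ≤ b := by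
                rcases h6 y hy with h | h
                · rw [h]; exact hab.le
                · exact h.le
              rcases hcons c hc with h9 | h9
              · exact absurd (lt_of_le_of_lt hax (lt_of_lt_of_le h7 h9)) (lt_irrefl _)
              · rw [h9] at h8
                exact absurd (lt_of_lt_of_le h8 hyb) (lt_irrefl _)
      rw [h4] at h3
      exact htrans _ _ _ h3 (hb U a b haU hbU hab hcons)

theorem lat_HORN (hbot : face ∅ = ⊥) (hinf : ∀ U V, face (U ∩ V) = face U ⊓ face V)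
    (R : L → L → Prop)
    (htrans : ∀ K₁ K₂ K₃, R K₁ K₂ → R K₂ K₃ → R K₁ K₃)
    (hcancel : ∀ K₁ K₂ K₃, R K₁ K₂ → R K₁ K₃ → K₂ ≤ K₃ → R K₂ K₃)
    (hpush : ∀ K₁ K₂, R (K₁ ⊓ K₂) K₂ → R K₁ (K₁ ⊔ K₂))
    (hglue : ∀ (S S' : Finset (Fin (N + 1))) (v : Fin (N + 1)), S ∩ S' = {v} →
      R (face S ⊔ face S') (face (S ∪ S')))
    (U T : Finset (Fin (N + 1))) (hTU : T ⊂ U) (hT : 2 ≤ T.card) :
    R (hornL face U T) (face U) := by
  rw [horn_eq hinf]
  induction hn : T.card using Nat.strong_induction_on generalizing U T with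
  | _ n ih =>
    obtain ⟨v, hvU, hvT⟩ := Finset.exists_of_ssubset hTU
    rcases hT.eq_or_lt with h2 | h2
    · obtain ⟨i, j, hij, rfl⟩ := Finset.card_eq_two.1 h2.symm
      have hiU : i ∈ U := hTU.1 (by simp)
      have hjU : j ∈ U := hTU.1 (by simp)
      have hvi : v ≠ i := fun h => hvT (by rw [h]; simp)
      have hvj : v ≠ j := fun h => hvT (by rw [h]; simp)
      have g1 := hglue (U.erase i) {v, i} v (by
        ext x
        simp only [Finset.mem_inter, Finset.mem_erase, Finset.mem_insert, Finset.mem_singleton]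
        constructor
        · rintro ⟨⟨h1, _⟩, h3 | h3⟩
          · exact h3
          · exact absurd h3 h1
        · rintro rfl
          exact ⟨⟨hvi, hvU⟩, Or.inl rfl⟩)
      have e1 : U.erase i ∪ {v, i} = U := by
        ext x
        simp only [Finset.mem_union, Finset.mem_erase, Finset.mem_insert, Finset.mem_singleton]
        constructor
        · rintro (⟨_, h⟩ | rfl | rfl)
          · exact h
          · exact hvU
          · exact hiU
        · intro h
          by_cases hxi : x = i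
          · exact Or.inr (Or.inr hxi)
          · exact Or.inl ⟨hxi, h⟩
      rw [e1] at g1
      have g2 := hglue ((U.erase i).erase j) {v, i} v (by
        ext x
        simp only [Finset.mem_inter, Finset.mem_erase, Finset.mem_insert, Finset.mem_singleton]
        constructor
        · rintro ⟨⟨_, h1, _⟩, h3 | h3⟩
          · exact h3
          · exact absurd h3 h1
        · rintro rfl
          exact ⟨⟨hvj, hvi, hvU⟩, Or.inl rfl⟩)
      have e2 : (U.erase i).erase j ∪ {v, i} = U.erase j := by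
        ext x
        simp only [Finset.mem_union, Finset.mem_erase, Finset.mem_insert, Finset.mem_singleton]
        constructor
        · rintro (⟨h, _, h'⟩ | rfl | rfl)
          · exact ⟨h, h'⟩
          · exact ⟨hvj, hvU⟩
          · exact ⟨hij, hiU⟩
        · rintro ⟨h, h'⟩
          by_cases hxi : x = i
          · exact Or.inr (Or.inr hxi)
          · exact Or.inl ⟨h, hxi, h'⟩
      rw [e2] at g2
      have e3 : (face (U.erase i) ⊔ face {v, i}) ⊓ face (U.erase j) =
          face ((U.erase i).erase j) ⊔ face {v, i} := by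
        rw [inf_sup_right, ← hinf, ← hinf]
        congr 2
        · ext x
          simp only [Finset.mem_inter, Finset.mem_erase]
          tauto
        · ext x
          simp only [Finset.mem_inter, Finset.mem_erase, Finset.mem_insert, Finset.mem_singleton]
          constructor
          · rintro ⟨h, _⟩; exact h
          · intro h
            refine ⟨h, ?_⟩
            rcases h with rfl | rfl
            · exact ⟨hvj, hvU⟩
            · exact ⟨hij, hiU⟩
      have g3 := hpush (face (U.erase i) ⊔ face {v, i}) (face (U.erase j)) (by rw [e3]; exact g2)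
      have e4 : face (U.erase i) ⊔ face {v, i} ⊔ face (U.erase j) = Fa face (Hn U {i, j}) := by
        rw [← horn_eq hinf]
        unfold hornL
        rw [Finset.sup_insert, Finset.sup_singleton, sup_assoc]
        congr 1
        rw [sup_eq_right]
        apply face_mono hinf
        intro x hx
        rw [Finset.mem_insert, Finset.mem_singleton] at hx
        rw [Finset.mem_erase]
        rcases hx with rfl | rfl
        · exact ⟨hvj, hvU⟩
        · exact ⟨hij, hiU⟩
      rw [e4] at g3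
      exact hcancel _ _ _ g3 g1 (Fa_le_face hinf fun X hX => hX.1)
    · obtain ⟨t, ht⟩ : T.Nonempty := Finset.card_pos.1 (by omega)
      have htU := hTU.1 ht
      have hc : (T.erase t).card = T.card - 1 := Finset.card_erase_of_mem ht
      have hlt : (T.erase t).card < n := by omega
      have h3 := ih _ hlt (U.erase t) (T.erase t)
        (by
          refine ⟨Finset.erase_subset_erase t hTU.1, ?_⟩
          intro hsub
          have : v ∈ T.erase t := hsub (Finset.mem_erase.2 ⟨fun h => hvT (h ▸ ht), hvU⟩)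
          exact hvT (Finset.mem_of_mem_erase this)) (by omega) rfl
      have h4 := horn_step R hbot hinf hpush U (T.erase t) t (Finset.notMem_erase t T) h3
      rw [Finset.insert_erase ht] at h4
      have h5 := ih _ hlt U (T.erase t)
        (Finset.ssubset_of_subset_of_ssubset (Finset.erase_subset _ _) hTU) (by omega) rfl
      exact hcancel _ _ _ h4 h5 (Fa_le_face hinf fun X hX => hX.1)

theorem lat_HORN' (hbot : face ∅ = ⊥) (hinf : ∀ U V, face (U ∩ V) = face U ⊓ face V)
    (R : L → L → Prop)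
    (htrans : ∀ K₁ K₂ K₃, R K₁ K₂ → R K₂ K₃ → R K₁ K₃)
    (hcancel : ∀ K₁ K₂ K₃, R K₁ K₂ → R K₁ K₃ → K₂ ≤ K₃ → R K₂ K₃)
    (hpush : ∀ K₁ K₂, R (K₁ ⊓ K₂) K₂ → R K₁ (K₁ ⊔ K₂))
    (hpt : ∀ (U : Finset (Fin (N + 1))) (v : Fin (N + 1)), v ∈ U → R (face {v}) (face U))
    (U T : Finset (Fin (N + 1))) (hTU : T ⊂ U) (hT : T.Nonempty) :
    R (hornL face U T) (face U) := by
  rw [horn_eq hinf]
  induction hn : T.card using Nat.strong_induction_on generalizing U T with
  | _ n ih =>
    obtain ⟨v, hvU, hvT⟩ := Finset.exists_of_ssubset hTU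
    obtain ⟨t, ht⟩ := hT
    have htU := hTU.1 ht
    rcases (T.erase t).eq_empty_or_nonempty with hE | hE
    · have hTt : T = {t} := by
        rw [← Finset.insert_erase ht, hE]
        rfl
      have e1 : Fa face (Hn U T) = face (U.erase t) := by
        rw [← horn_eq hinf, hTt]
        unfold hornL
        rw [Finset.sup_singleton]
      rw [e1]
      exact hcancel _ _ _ (hpt (U.erase t) v (Finset.mem_erase.2 ⟨fun h => hvT (h ▸ ht), hvU⟩))
        (hpt U v hvU) (face_mono hinf (Finset.erase_subset _ _))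
    · have hlt : (T.erase t).card < n := by
        rw [← hn]
        exact Finset.card_erase_lt_of_mem ht
      have h3 := ih _ hlt (U.erase t) (T.erase t)
        (by
          refine ⟨Finset.erase_subset_erase t hTU.1, ?_⟩
          intro hsub
          have : v ∈ T.erase t := hsub (Finset.mem_erase.2 ⟨fun h => hvT (h ▸ ht), hvU⟩)
          exact hvT (Finset.mem_of_mem_erase this)) hE rfl
      have h4 := horn_step R hbot hinf hpush U (T.erase t) t (Finset.notMem_erase t T) h3
      rw [Finset.insert_erase ht] at h4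
      have h5 := ih _ hlt U (T.erase t)
        (Finset.ssubset_of_subset_of_ssubset (Finset.erase_subset _ _) hTU) hE rfl
      exact hcancel _ _ _ h4 h5 (Fa_le_face hinf fun X hX => hX.1)

end

end Pool.Agent.Helper7.FL2
end

/- Helper64.FL2.PairE -/
section
/-!
# The pairing for `E[U] ∪_v E[U'] ⟶ E[U ∪ U']`
-/

open CategoryTheory Opposite FL

set_option autoImplicit false

namespace Pool.Agent.Helper64.FL2

variable {S : Type}

/-- `q` is the first crossing of the word `w`. -/
def Cr (U : Bool → Set S) {n : ℕ} (w : Fin (n + 1) → S) (q : Fin (n + 1)) : Prop :=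
  ∃ b : Bool, (∀ i < q, w i ∈ U b) ∧ (∃ i < q, w i ∉ U (!b)) ∧ w q ∉ U b

lemma Cr.unique {U : Bool → Set S} {n : ℕ} {w : Fin (n + 1) → S} {q q' : Fin (n + 1)}
    (h : Cr U w q) (h' : Cr U w q') : q = q' := by
  by_contra hne
  wlog hlt : q < q' generalizing q q'
  · exact this h' h (Ne.symm hne) (lt_of_le_of_ne (not_lt.1 hlt) (Ne.symm hne))
  obtain ⟨b, h1, ⟨i, hi, h2⟩, h3⟩ := h
  obtain ⟨b', h1', h2', h3'⟩ := h'
  by_cases hb : b' = b
  · subst hb
    exact h3 (h1' q hlt)
  · have : b' = !b := by cases b <;> cases b' <;> simp_all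
    subst this
    exact h2 (h1' i (hi.trans hlt))

lemma Cr.exists {U : Bool → Set S} (hU : U true ∪ U false = Set.univ)
    {n : ℕ} {w : Fin (n + 1) → S} (h : ∀ b, ∃ i, w i ∉ U b) : ∃ q, Cr U w q := by
  classical
  have key : ∀ b : Bool, ∃ a, w a ∉ U b ∧ ∀ i < a, w i ∈ U b := by
    intro b
    obtain ⟨a, ha, hmin⟩ := WellFounded.has_min (wellFounded_lt (α := Fin (n + 1)))
      {i | w i ∉ U b} (h b)
    exact ⟨a, ha, fun i hi => by_contra fun hi' => hmin i hi' hi⟩
  obtain ⟨a, ha, ha'⟩ := key true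
  obtain ⟨c, hc, hc'⟩ := key false
  have hne : a ≠ c := by
    rintro rfl
    have : w a ∈ U true ∪ U false := by rw [hU]; trivial
    rcases this with h | h
    · exact ha h
    · exact hc h
  rcases lt_or_gt_of_ne hne with hlt | hlt
  · exact ⟨c, false, hc', ⟨a, hlt, ha⟩, hc⟩
  · exact ⟨a, true, ha', ⟨c, hlt, hc⟩, ha⟩

/-- The letter before the first crossing is `v`. -/
def TI (U : Bool → Set S) (v : S) {n : ℕ} (w : Fin (n + 1) → S) : Prop :=
  ∃ q, Cr U w q ∧ ∃ j : Fin (n + 1), j.val + 1 = q.val ∧ w j = v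

/-- The letter before the first crossing is not `v`. -/
def TII (U : Bool → Set S) (v : S) {n : ℕ} (w : Fin (n + 1) → S) : Prop :=
  ∃ q, Cr U w q ∧ ∀ j : Fin (n + 1), j.val + 1 = q.val → w j ≠ v

lemma not_TI_TII {U : Bool → Set S} {v : S} {n : ℕ} {w : Fin (n + 1) → S}
    (h : TI U v w) (h' : TII U v w) : False := by
  obtain ⟨q, hq, j, hj, hj'⟩ := h
  obtain ⟨q', hq', hh⟩ := h'
  obtain rfl := hq.unique hq'
  exact hh j hj hj'

/-- The index type: type (I) words. -/
structure Ix (U : Bool → Set S) (v : S) where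
  /-- the dimension of the type (II) simplex -/
  d : ℕ
  /-- the type (I) word -/
  w : Fin (d + 2) → S
  nd : ∀ i : Fin (d + 1), w i.castSucc ≠ w i.succ
  /-- the position of the letter to be deleted -/
  p : Fin (d + 1)
  hp : w p.castSucc = v
  cr : Cr U w p.succ

section

variable {U : Bool → Set S} {v : S} (hv : ∀ b, v ∈ U b)

include hv in
/-- There is a letter before `p` of the side `b` different from `v`. -/
lemma Ix.exists_lt (s : Ix U v) : ∃ b, (∀ i ≤ s.p.castSucc, s.w i ∈ U b) ∧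
    (∃ i < s.p.castSucc, s.w i ∉ U (!b)) ∧ s.w s.p.succ ∉ U b := by
  obtain ⟨b, h1, ⟨i, hi, h2⟩, h3⟩ := s.cr
  refine ⟨b, fun i hi => h1 i (lt_of_le_of_lt hi (Fin.castSucc_lt_succ)), ⟨i, ?_, h2⟩, h3⟩
  rcases lt_or_eq_of_le (show i ≤ s.p.castSucc from by
    rw [Fin.le_def]; rw [Fin.lt_def] at hi; simp at hi ⊢; omega) with h | h
  · exact h
  · exact absurd (by rw [h, s.hp]; exact hv _) h2

/-- the type (II) word -/
def Ix.u (s : Ix U v) : Fin (s.d + 1) → S := fun k => s.w (s.p.castSucc.succAbove k)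

lemma Ix.u_lt (s : Ix U v) {k : Fin (s.d + 1)} (hk : k < s.p) : s.u k = s.w k.castSucc := by
  unfold Ix.u
  rw [Fin.succAbove_of_castSucc_lt _ _ (by simpa using hk)]

lemma Ix.u_ge (s : Ix U v) {k : Fin (s.d + 1)} (hk : s.p ≤ k) : s.u k = s.w k.succ := by
  unfold Ix.u
  rw [Fin.succAbove_of_le_castSucc _ _ (by simpa using hk)]

include hv in
lemma Ix.cr_u (s : Ix U v) : Cr U s.u s.p := by
  obtain ⟨b, h1, ⟨i, hi, h2⟩, h3⟩ := s.exists_lt hv
  refine ⟨b, fun k hk => ?_, ⟨i.castLT (by have := i.2; rw [Fin.lt_def] at hi; simp at hi; omega),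
    by rw [Fin.lt_def] at hi ⊢; simpa using hi, ?_⟩, ?_⟩
  · rw [s.u_lt hk]
    exact h1 _ (le_of_lt (by simpa using hk))
  · rw [s.u_lt (by rw [Fin.lt_def] at hi ⊢; simpa using hi)]
    simpa using h2
  · rw [s.u_ge le_rfl]
    exact h3

include hv in
lemma Ix.tII (s : Ix U v) : TII U v s.u := by
  refine ⟨s.p, s.cr_u hv, fun j hj => ?_⟩
  have hlt : j < s.p := by rw [Fin.lt_def]; omega
  rw [s.u_lt hlt]
  have := s.nd j
  intro h
  apply this
  refine h.trans (s.hp.symm.trans (congrArg s.w ?_))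
  ext
  simp [← hj]

lemma Ix.tI (s : Ix U v) : TI U v s.w :=
  ⟨s.p.succ, s.cr, s.p.castSucc, by simp, s.hp⟩

include hv in
lemma Ix.nd_u (s : Ix U v) (i : ℕ) (hi : i + 1 < s.d + 1) :
    s.u ⟨i, by omega⟩ ≠ s.u ⟨i + 1, hi⟩ := by
  rcases lt_trichotomy (i + 1) s.p.val with h | h | h
  · rw [s.u_lt (by rw [Fin.lt_def]; simp; omega),
      s.u_lt (by rw [Fin.lt_def]; simpa using h)]
    exact s.nd ⟨i, by omega⟩
  · rw [s.u_lt (by rw [Fin.lt_def]; simp; omega),
      s.u_ge (by rw [Fin.le_def]; simp; omega)]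
    obtain ⟨b, h1, h2, h3⟩ := s.exists_lt hv
    intro h'
    apply h3
    have e : s.p.succ = (⟨i + 1, hi⟩ : Fin (s.d + 1)).succ := by ext; simp; omega
    rw [e, ← h']
    exact h1 _ (by rw [Fin.le_def]; simp; omega)
  · rw [s.u_ge (by rw [Fin.le_def]; simp; omega),
      s.u_ge (by rw [Fin.le_def]; simp; omega)]
    exact s.nd ⟨i + 1, by omega⟩

include hv in
/-- Deleting another letter `v` gives a word of type (I). -/
lemma Ix.tI_face (s : Ix U v) (j : Fin (s.d + 2)) (hj : s.w j = v) (hjp : j ≠ s.p.castSucc) :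
    TI U v (fun k => s.w (j.succAbove k)) := by
  obtain ⟨b, h1, ⟨i, hi, h2⟩, h3⟩ := s.exists_lt hv
  have hij : i ≠ j := by rintro rfl; exact h2 (by rw [hj]; exact hv _)
  rw [Fin.lt_def, Fin.val_castSucc] at hi
  have hjp' : j.val ≠ s.p.val := fun h => hjp (Fin.ext (by simpa using h))
  have hjs : j.val ≠ s.p.val + 1 := by
    intro h
    apply s.nd s.p
    refine s.hp.trans (hj.symm.trans (congrArg s.w ?_))
    ext
    simpa using h
  have h1' : ∀ k : Fin (s.d + 2), k.val ≤ s.p.val → s.w k ∈ U b := fun k hk =>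
    h1 k (by rw [Fin.le_def]; simpa using hk)
  rcases lt_or_gt_of_ne hjp' with hlt | hgt
  · -- j < p
    have hval : ∀ k : Fin (s.d + 1), (j.succAbove k).val = if k.val < j.val then k.val else k.val + 1 := by
      intro k
      by_cases hk : k.val < j.val
      · rw [Fin.succAbove_of_castSucc_lt _ _ (by rw [Fin.lt_def]; simpa using hk), if_pos hk]; rfl
      · rw [Fin.succAbove_of_le_castSucc _ _ (by rw [Fin.le_def]; simpa using hk), if_neg hk]; rfl
    have hpp := s.p.2
    refine ⟨s.p, ⟨b, fun k hk => ?_, ?_, ?_⟩, ⟨⟨s.p.val - 1, by omega⟩, by simp; omega, ?_⟩⟩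
    · apply h1'
      rw [hval]
      rw [Fin.lt_def] at hk
      split_ifs <;> omega
    · obtain ⟨k, rfl⟩ := Fin.exists_succAbove_eq hij
      refine ⟨k, ?_, h2⟩
      rw [hval] at hi
      rw [Fin.lt_def]
      split_ifs at hi <;> omega
    · have e : j.succAbove s.p = s.p.succ := by
        ext
        rw [hval, if_neg (by omega)]
        rfl
      change s.w (j.succAbove s.p) ∉ U b
      rw [e]
      exact h3
    · have e : j.succAbove ⟨s.p.val - 1, by omega⟩ = s.p.castSucc := by
        ext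
        rw [hval, if_neg (by simp; omega)]
        simp
        omega
      change s.w (j.succAbove _) = v
      rw [e]
      exact s.hp
  · -- p + 1 < j
    have hval : ∀ k : Fin (s.d + 1), (j.succAbove k).val = if k.val < j.val then k.val else k.val + 1 := by
      intro k
      by_cases hk : k.val < j.val
      · rw [Fin.succAbove_of_castSucc_lt _ _ (by rw [Fin.lt_def]; simpa using hk), if_pos hk]; rfl
      · rw [Fin.succAbove_of_le_castSucc _ _ (by rw [Fin.le_def]; simpa using hk), if_neg hk]; rfl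
    have hj2 := j.2
    refine ⟨⟨s.p.val + 1, by omega⟩, ⟨b, fun k hk => ?_, ?_, ?_⟩, ⟨s.p, by simp, ?_⟩⟩
    · apply h1'
      rw [hval]
      rw [Fin.lt_def] at hk
      simp at hk
      split_ifs <;> omega
    · obtain ⟨k, rfl⟩ := Fin.exists_succAbove_eq hij
      refine ⟨k, ?_, h2⟩
      rw [hval] at hi
      rw [Fin.lt_def]
      simp
      split_ifs at hi <;> omega
    · have e : j.succAbove ⟨s.p.val + 1, by omega⟩ = s.p.succ := by
        ext
        rw [hval, if_pos (by simp; omega)]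
        rfl
      change s.w (j.succAbove _) ∉ U b
      rw [e]
      exact h3
    · have e : j.succAbove s.p = s.p.castSucc := by
        ext
        rw [hval, if_pos (by omega)]
        rfl
      change s.w (j.succAbove _) = v
      rw [e]
      exact s.hp

/-- Insert `v` at position `p`. -/
def ins {n : ℕ} (v : S) (w : Fin (n + 1) → S) (p : Fin (n + 1)) : Fin (n + 2) → S := fun i =>
  if h : i.val < p.val then w ⟨i.val, by omega⟩
  else if h' : i.val = p.val then v else w ⟨i.val - 1, by omega⟩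

lemma ins_lt {n : ℕ} (v : S) (w : Fin (n + 1) → S) (p : Fin (n + 1)) (i : Fin (n + 2))
    (h : i.val < p.val) : ins v w p i = w ⟨i.val, by omega⟩ := by
  unfold ins
  rw [dif_pos h]

lemma ins_eq {n : ℕ} (v : S) (w : Fin (n + 1) → S) (p : Fin (n + 1)) (i : Fin (n + 2))
    (h : i.val = p.val) : ins v w p i = v := by
  unfold ins
  rw [dif_neg (by omega), dif_pos h]

lemma ins_gt {n : ℕ} (v : S) (w : Fin (n + 1) → S) (p : Fin (n + 1)) (i : Fin (n + 2))
    (h : p.val < i.val) : ins v w p i = w ⟨i.val - 1, by omega⟩ := by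
  unfold ins
  rw [dif_neg (by omega), dif_neg (by omega)]

lemma ins_face {n : ℕ} (v : S) (w : Fin (n + 1) → S) (p : Fin (n + 1)) (k : Fin (n + 1)) :
    ins v w p (p.castSucc.succAbove k) = w k := by
  by_cases hk : k.val < p.val
  · rw [Fin.succAbove_of_castSucc_lt _ _ (by rw [Fin.lt_def]; simpa using hk),
      ins_lt _ _ _ _ (by simpa using hk)]
    rfl
  · rw [Fin.succAbove_of_le_castSucc _ _ (by rw [Fin.le_def]; simpa using hk),
      ins_gt _ _ _ _ (by simp; omega)]
    rfl

lemma Ix.ins_u (s : Ix U v) : ins v s.u s.p = s.w := by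
  funext i
  rcases lt_trichotomy i.val s.p.val with h | h | h
  · rw [ins_lt _ _ _ _ h, s.u_lt (by rw [Fin.lt_def]; exact h)]
    rfl
  · refine (ins_eq _ _ _ _ h).trans (s.hp.symm.trans (congrArg s.w ?_))
    ext
    simpa using h.symm
  · rw [ins_gt _ _ _ _ h, s.u_ge (by rw [Fin.le_def]; simp; omega)]
    congr 1
    ext
    simp
    omega

/-- The subcomplex. -/
abbrev AA (U : Bool → Set S) : (EN S).Subcomplex := ENsub (U true) ⊔ ENsub (U false)

lemma mem_AA {n : ℕ} (w : Fin (n + 1) → S) :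
    (show (EN S).obj (op (SimplexCategory.mk n)) from w) ∈ (AA U).obj _ ↔ ∃ b, ∀ i, w i ∈ U b := by
  constructor
  · rintro (h | h)
    · exact ⟨true, h⟩
    · exact ⟨false, h⟩
  · rintro ⟨b, h⟩
    cases b
    · exact Or.inr h
    · exact Or.inl h

omit hv in
lemma Cr.notMem {n : ℕ} {w : Fin (n + 1) → S} {q : Fin (n + 1)} (h : Cr U w q) :
    ¬ ∃ b, ∀ i, w i ∈ U b := by
  rintro ⟨b', hb'⟩
  obtain ⟨b, h1, ⟨i, hi, h2⟩, h3⟩ := h
  by_cases hb : b' = b
  · subst hb
    exact h3 (hb' q)
  · have : b' = !b := by cases b <;> cases b' <;> simp_all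
    subst this
    exact h2 (hb' i)

include hv in
lemma nd_u' (s : Ix U v) (i : Fin s.d) : s.u i.castSucc ≠ s.u i.succ :=
  s.nd_u hv i.val (by omega)

lemma Ix.ext' {s t : Ix U v} (hd : s.d = t.d) (hw : ∀ (i : ℕ) (hi : i < s.d + 2),
    s.w ⟨i, hi⟩ = t.w ⟨i, by omega⟩) : s = t := by
  obtain ⟨d, w, nd, p, hp, cr⟩ := s
  obtain ⟨d', w', nd', p', hp', cr'⟩ := t
  obtain rfl : d = d' := hd
  obtain rfl : w = w' := funext fun i => hw i.val i.2
  obtain rfl : p = p' := Fin.succ_injective _ (cr.unique cr')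
  rfl

include hv in
lemma surj_word (hU : U true ∪ U false = Set.univ) {n : ℕ} (w : Fin (n + 1) → S)
    (hnd' : ∀ i : Fin n, w i.castSucc ≠ w i.succ) (hm' : ∀ b, ∃ i, w i ∉ U b) :
    ∃ s : Ix U v, (∃ h : n = s.d + 1, w = fun i => s.w (Fin.cast (by rw [h]) i)) ∨
      (∃ h : n = s.d, w = fun i => s.u (Fin.cast (by rw [h]) i)) := by
  obtain ⟨q, hq⟩ := Cr.exists hU hm'
  have hq' := hq
  obtain ⟨b, h1, ⟨i, hi, h2⟩, h3⟩ := hq
  rw [Fin.lt_def] at hi
  have hq2 := q.2
  by_cases hv' : w ⟨q.val - 1, by omega⟩ = v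
  · obtain ⟨d, rfl⟩ : ∃ d, n = d + 1 := ⟨n - 1, by omega⟩
    refine ⟨⟨d, w, hnd', ⟨q.val - 1, by omega⟩, hv', ?_⟩, Or.inl ⟨rfl, rfl⟩⟩
    have e : (⟨q.val - 1, by omega⟩ : Fin (d + 1)).succ = q := by ext; simp; omega
    rw [e]
    exact hq'
  · have hvb : ∀ i : Fin (n + 1), i.val = q.val → w i ≠ v := by
      intro i hi h
      obtain rfl : i = q := Fin.ext hi
      exact h3 (h ▸ hv b)
    refine ⟨⟨n, ins v w q, ?_, q, ins_eq _ _ _ _ (by simp), ?_⟩, Or.inr ⟨rfl, ?_⟩⟩
    · intro i
      rcases lt_trichotomy i.val q.val with h | h | h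
      · rw [ins_lt _ _ _ i.castSucc (by simpa using h)]
        rcases lt_or_eq_of_le (Nat.succ_le_of_lt h) with h' | h'
        · rw [ins_lt _ _ _ _ (by simpa using h')]
          exact hnd' ⟨i.val, by omega⟩
        · rw [ins_eq _ _ _ _ (by simpa using h')]
          intro hw
          apply hv'
          rw [← hw]
          congr 1
          ext
          simp
          omega
      · rw [ins_eq _ _ _ i.castSucc (by simpa using h), ins_gt _ _ _ _ (by simp; omega)]
        exact (hvb _ (by simpa using h)).symm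
      · rw [ins_gt _ _ _ i.castSucc (by simpa using h), ins_gt _ _ _ _ (by simp; omega)]
        have := hnd' ⟨i.val - 1, by omega⟩
        intro hw
        apply this
        refine Eq.trans ?_ (hw.trans ?_)
        · rfl
        · congr 1
          ext
          simp
          omega
    · refine ⟨b, ?_, ⟨⟨i.val, by omega⟩, ?_, ?_⟩, ?_⟩
      · intro k hk
        rw [Fin.lt_def, Fin.val_succ] at hk
        rcases lt_or_eq_of_le (Nat.le_of_lt_succ hk) with h | h
        · rw [ins_lt _ _ _ _ h]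
          exact h1 _ (by rw [Fin.lt_def]; exact h)
        · rw [ins_eq _ _ _ _ h]
          exact hv b
      · rw [Fin.lt_def]
        simp
        omega
      · rw [ins_lt _ _ _ _ hi]
        exact h2
      · rw [ins_gt _ _ _ _ (by simp)]
        simpa using h3
    · exact (funext fun k => ins_face v w q k).symm

/-- The pairing core. -/
noncomputable def core (hU : U true ∪ U false = Set.univ) : (AA U).PairingCore where
  ι := Ix U v
  dim s := s.d
  simplex s := s.w
  index s := s.p.castSucc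
  nonDegenerate₁ s := (en_nondeg s.w).2 s.nd
  nonDegenerate₂ s := (en_nondeg s.u).2 (nd_u' hv s)
  notMem₁ s := fun h => s.cr.notMem ((mem_AA s.w).1 h)
  notMem₂ s := fun h => (s.cr_u hv).notMem ((mem_AA s.u).1 h)
  injective_type₁' := by
    intro s t h
    obtain ⟨hd, hw⟩ := (SSet.S.ext_iff' _ _).1 h
    have hd' : s.d = t.d := by simpa using hd
    refine Ix.ext' hd' ?_
    obtain ⟨d, w, nd, p, hp, cr⟩ := s
    obtain ⟨d', w', nd', p', hp', cr'⟩ := t
    obtain rfl : d = d' := hd'
    intro i hi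
    exact congrFun hw ⟨i, hi⟩
  injective_type₂' := by
    intro s t h
    obtain ⟨hd, hw⟩ := (SSet.S.ext_iff' _ _).1 h
    have hd' : s.d = t.d := hd
    have hs := s.cr_u hv
    have ht := t.cr_u hv
    have hs' := s.ins_u
    have ht' := t.ins_u
    refine Ix.ext' hd' ?_
    obtain ⟨d, w, nd, p, hp, cr⟩ := s
    obtain ⟨d', w', nd', p', hp', cr'⟩ := t
    obtain rfl : d = d' := hd'
    have hu : Ix.u ⟨d, w, nd, p, hp, cr⟩ = Ix.u ⟨d, w', nd', p', hp', cr'⟩ := hw
    rw [hu] at hs hs'
    obtain rfl : p = p' := hs.unique ht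
    intro i hi
    change w ⟨i, hi⟩ = w' ⟨i, hi⟩
    have : w = w' := hs'.symm.trans ht'
    rw [this]
  type₁_ne_type₂' := by
    intro s t h
    obtain ⟨hd, hw⟩ := (SSet.S.ext_iff' _ _).1 h
    have hd' : s.d + 1 = t.d := hd
    have h1 := s.tI
    have h2 := t.tII hv
    obtain ⟨d, w, nd, p, hp, cr⟩ := s
    obtain ⟨d', w', nd', p', hp', cr'⟩ := t
    obtain rfl : d + 1 = d' := hd'
    have hu : w = Ix.u ⟨d + 1, w', nd', p', hp', cr'⟩ := hw
    change TI U v w at h1
    rw [hu] at h1
    exact not_TI_TII h1 h2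
  surjective' := by
    intro x
    obtain ⟨n, w, hnd, hm, rfl⟩ := x.mk_surjective
    obtain ⟨s, hs⟩ := surj_word hv hU (n := n) w ((en_nondeg w).1 hnd) (by
      intro b
      by_contra hcon
      push Not at hcon
      exact hm ((mem_AA w).2 ⟨b, hcon⟩))
    refine ⟨s, ?_⟩
    rcases hs with ⟨h, hw⟩ | ⟨h, hw⟩
    · left
      subst h
      exact (SSet.S.ext_iff _ _).2 hw
    · right
      subst h
      exact (SSet.S.ext_iff _ _).2 hw

instance (hU : U true ∪ U false = Set.univ) : (core hv hU).IsProper where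
  isUniquelyCodimOneFace s := by
    change SSet.S.IsUniquelyCodimOneFace (SSet.S.mk _) (SSet.S.mk _)
    rw [SSet.S.IsUniquelyCodimOneFace.iff]
    refine ⟨s.p.castSucc, rfl, fun j hj => ?_⟩
    exact face_inj s.nd (fun k => congrFun hj k)

instance (hU : U true ∪ U false = Set.univ) : (core hv hU).IsInner where
  ne_zero s := by
    obtain ⟨b, h1, ⟨i, hi, h2⟩, h3⟩ := s.exists_lt hv
    intro h
    have : s.p.castSucc = 0 := h
    rw [this] at hi
    exact absurd hi (Fin.not_lt_zero i)
  ne_last s := Fin.castSucc_ne_last _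

/-- The number of letters `v`. -/
noncomputable def cnt (v : S) {n : ℕ} (w : Fin (n + 1) → S) : ℕ := by
  classical exact ∑ i, if w i = v then 1 else 0

lemma cnt_le (v : S) {n : ℕ} (w : Fin (n + 1) → S) : cnt v w ≤ n + 1 := by
  classical
  unfold cnt
  calc _ ≤ ∑ i : Fin (n + 1), 1 := Finset.sum_le_sum fun i _ => by split_ifs <;> simp
    _ = n + 1 := by simp

lemma cnt_face_eq (v : S) {n : ℕ} (w : Fin (n + 2) → S) (j : Fin (n + 2)) (hj : w j = v) :
    cnt v w = 1 + cnt v (fun k => w (j.succAbove k)) := by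
  classical
  unfold cnt
  rw [Fin.sum_univ_succAbove _ j, if_pos hj]

lemma cnt_face_ne (v : S) {n : ℕ} (w : Fin (n + 2) → S) (j : Fin (n + 2)) (hj : w j ≠ v) :
    cnt v w = cnt v (fun k => w (j.succAbove k)) := by
  classical
  unfold cnt
  rw [Fin.sum_univ_succAbove _ j, if_neg hj, zero_add]

/-- The weak rank function. -/
noncomputable def rk (hU : U true ∪ U false = Set.univ) : (core hv hU).WeakRankFunction ℕ where
  rank s := s.d + 1 - cnt v (Ix.u s)
  lt := by
    intro s t hst hd
    obtain ⟨hne, hlt⟩ := hst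
    have h1 := s.tII hv
    have h2 := t.tI_face hv
    have h3 := t.hp
    have h4 := cnt_face_eq v t.w t.p.castSucc t.hp
    have hle := cnt_le v s.u
    have hle' := cnt_le v t.u
    obtain ⟨f, hf, hfe⟩ := SSet.N.le_iff_exists_mono.1 (le_of_lt hlt)
    have hd' : s.d = t.d := hd
    have hne' : ¬ ∀ i (hi : i < s.d + 1), s.u ⟨i, hi⟩ = t.u ⟨i, by omega⟩ := by
      intro hcon
      apply hne
      apply (core hv hU).injective_type₂'
      obtain ⟨d, w, nd, p, hp, cr⟩ := s
      obtain ⟨d', w', nd', p', hp', cr'⟩ := t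
      obtain rfl : d = d' := hd'
      exact (SSet.S.ext_iff _ _).2 (funext fun i => hcon i.val i.2)
    obtain ⟨d, w, nd, p, hp, cr⟩ := s
    obtain ⟨d', w', nd', p', hp', cr'⟩ := t
    obtain rfl : d = d' := hd'
    change (SimplexCategory.mk d ⟶ SimplexCategory.mk (d + 1)) at f
    have hf' : Mono f := hf
    obtain ⟨j, rfl⟩ := SimplexCategory.eq_δ_of_mono f
    have hj : ∀ k, w' (j.succAbove k) = Ix.u ⟨d, w, nd, p, hp, cr⟩ k := fun k => congrFun hfe k
    have hjp : j ≠ p'.castSucc := by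
      rintro rfl
      exact hne' fun i hi => (hj ⟨i, hi⟩).symm
    have hjv : w' j ≠ v := by
      intro hjv
      have := h2 j hjv hjp
      rw [show (fun k => w' (j.succAbove k)) = Ix.u ⟨d, w, nd, p, hp, cr⟩ from funext hj] at this
      exact not_TI_TII this h1
    have h5 := cnt_face_ne v w' j hjv
    rw [show (fun k => w' (j.succAbove k)) = Ix.u ⟨d, w, nd, p, hp, cr⟩ from funext hj] at h5
    have h6 : cnt v w' = 1 + cnt v (Ix.u ⟨d, w', nd', p', hp', cr'⟩) := h4
    change d + 1 - cnt v (Ix.u ⟨d, w, nd, p, hp, cr⟩) <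
      d + 1 - cnt v (Ix.u ⟨d, w', nd', p', hp', cr'⟩)
    change cnt v (Ix.u ⟨d, w, nd, p, hp, cr⟩) ≤ d + 1 at hle
    omega

end

theorem EN_inner {S : Type} (U U' : Set S) (v : S) (h : U ∩ U' = {v}) (h' : U ∪ U' = Set.univ) :
    SSet.innerAnodyneExtensions (ENsub U ⊔ ENsub U').ι := by
  let V : Bool → Set S := fun b => cond b U U'
  have hvU : v ∈ U ∩ U' := by rw [h]; rfl
  have hv : ∀ b, v ∈ V b := by
    intro b
    cases b
    · exact hvU.2
    · exact hvU.1
  have : (core (U := V) hv h').IsRegular := (rk (U := V) hv h').isRegular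
  exact (core (U := V) hv h').pairing.innerAnodyneExtensions

end Pool.Agent.Helper64.FL2
end

/- Helper81.FL2.ExtC -/
section
/-!
# The gluing condition for the faces `F_U ⊗ Δ^U`
-/

open CategoryTheory MonoidalCategory Opposite

set_option autoImplicit false

namespace Pool.Agent.Helper81.FL2

open FL Pool.Agent.Helper45.LOC

variable {A : Type} [SmallCategory A]

/-- the projection -/
def tnFst (P : SP A) (K : SSet.{0}) : tn P K ⟶ P where
  app a :=
    { app := fun k => ↾ fun (z : (P.obj a).obj k × K.obj k) => z.1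
      naturality := fun _ _ _ => rfl }
  naturality _ _ _ := rfl

/-- the map `t, s ↦ (u0` where `t = 0`, `s` where `t = 1)` -/
def mix {k N : SimplexCategory} (u0 : Fin (N.len + 1)) (t : k ⟶ SimplexCategory.mk 1) (s : k ⟶ N)
    (h : ∀ i, u0 ≤ s.toOrderHom i) : k ⟶ N :=
  SimplexCategory.Hom.mk ⟨fun i => if t.toOrderHom i = 0 then u0 else s.toOrderHom i, by
    intro i j hij
    dsimp only
    have ht := t.toOrderHom.monotone hij
    have hs := s.toOrderHom.monotone hij
    by_cases hi : t.toOrderHom i = 0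
    · rw [if_pos hi]
      split_ifs
      · exact le_rfl
      · exact h j
    · have hj : t.toOrderHom j ≠ 0 := fun hj => hi (le_antisymm (hj ▸ ht) (Fin.zero_le _))
      rw [if_neg hi, if_neg hj]
      exact hs⟩

theorem mix_apply {k N : SimplexCategory} (u0 : Fin (N.len + 1)) (t : k ⟶ SimplexCategory.mk 1)
    (s : k ⟶ N) (h : ∀ i, u0 ≤ s.toOrderHom i) (i : Fin (k.len + 1)) :
    (mix u0 t s h).toOrderHom i = if t.toOrderHom i = 0 then u0 else s.toOrderHom i := rfl

theorem sc_ext {k N : SimplexCategory} {f g : k ⟶ N} (h : ∀ i, f.toOrderHom i = g.toOrderHom i) :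
    f = g := by
  apply SimplexCategory.Hom.ext
  ext i : 2
  exact h i

section

variable (F : SimplexCategory ⥤ SP A) {N : SimplexCategory} (U : Finset (Fin (N.len + 1)))
  (hU : U.Nonempty)

/-- the section of the projection given by the first vertex of `U` -/
def secU : (fface F U).toSP ⟶ (cface F U).toSP where
  app a :=
    { app := fun k => ↾ fun (x : (fface F U).toSP.obj a |>.obj k) =>
        ⟨(x.1, SSet.stdSimplex.objEquiv.symm (SimplexCategory.const k.unop N (U.min' hU))),
          x.2, fun _ => Finset.min'_mem U hU⟩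
      naturality := fun k l α => by
        refine ConcreteCategory.hom_ext _ _ fun x => ?_
        rfl }
  naturality a b f := by
    refine NatTrans.ext (funext fun k => ?_)
    refine ConcreteCategory.hom_ext _ _ fun x => ?_
    rfl

/-- the contraction -/
def conU : MpS (cface F U).toSP (cface F U).toSP (SimplexCategory.mk 1) where
  app a k t z :=
    ⟨(z.1.1, SSet.stdSimplex.objEquiv.symm (mix (U.min' hU) t (SSet.stdSimplex.objEquiv z.1.2)
      (fun i => Finset.min'_le U _ (z.2.2 i)))), z.2.1, fun i => by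
        change (mix (U.min' hU) t (SSet.stdSimplex.objEquiv z.1.2)
          (fun i => Finset.min'_le U _ (z.2.2 i))).toOrderHom i ∈ U
        rw [mix_apply]
        split_ifs
        · exact Finset.min'_mem U hU
        · exact z.2.2 i⟩
  nat_left f k t z := rfl
  nat_right a k l g t z := by
    refine Subtype.ext (Prod.ext rfl ?_)
    apply SSet.stdSimplex.objEquiv.injective
    apply sc_ext
    intro i
    rfl

include hU in
theorem loc_face {X : SP A} : Loc X (Sb.restr (tnFst (F.obj N) (SSet.stdSimplex.obj N))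
    (cface F U) (fface F U) (fun _ _ _ hx => hx.1)) := by
  refine loc_of_sdr ⟨secU F U hU, rfl, conU F U hU, ?_, ?_⟩
  · refine MpS.ext ?_
    funext a k t z
    refine Subtype.ext (Prod.ext rfl ?_)
    apply SSet.stdSimplex.objEquiv.injective
    apply sc_ext
    intro i
    change (if (t ≫ SimplexCategory.δ 1).toOrderHom i = 0 then U.min' hU else _) = U.min' hU
    rw [if_pos]
    change (SimplexCategory.δ (1 : Fin 2)).toOrderHom (t.toOrderHom i) = 0
    have e : t.toOrderHom i = 0 := Subsingleton.elim (α := Fin 1) _ _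
    rw [e]
    rfl
  · refine MpS.ext ?_
    funext a k t z
    refine Subtype.ext (Prod.ext rfl ?_)
    apply SSet.stdSimplex.objEquiv.injective
    apply sc_ext
    intro i
    change (if (t ≫ SimplexCategory.δ 0).toOrderHom i = 0 then U.min' hU else _) = _
    rw [if_neg]
    · rfl
    · change (SimplexCategory.δ (0 : Fin 2)).toOrderHom (t.toOrderHom i) ≠ 0
      have e : t.toOrderHom i = 0 := Subsingleton.elim (α := Fin 1) _ _
      rw [e]
      change (1 : Fin 2) ≠ 0
      decide

end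

theorem loc_restr_congr {X P Q : SP A} (f : P ⟶ Q) {S S' : Sb P} {T T' : Sb Q} (hS : S = S')
    (hT : T = T') (h : ∀ (a : Aᵒᵖ) (k : SimplexCategoryᵒᵖ) (x : (P.obj a).obj k),
      x ∈ S.mem a k → (f.app a).app k x ∈ T.mem a k)
    (h' : ∀ (a : Aᵒᵖ) (k : SimplexCategoryᵒᵖ) (x : (P.obj a).obj k),
      x ∈ S'.mem a k → (f.app a).app k x ∈ T'.mem a k) (hl : Loc X (Sb.restr f S T h)) :
    Loc X (Sb.restr f S' T' h') := by
  subst hS hT
  exact hl

theorem ext_cface {X : SP A} (hX : InjFib X) {F : SimplexCategory ⥤ SP A} (h : Ext X F)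
    {N : SimplexCategory} (S S' : Finset (Fin (N.len + 1))) (v : Fin (N.len + 1))
    (hv : S ∩ S' = {v}) : LocT X (cface F S ⊔ cface F S') (cface F (S ∪ S')) := by
  have hvS : v ∈ S ∩ S' := by rw [hv]; exact Finset.mem_singleton_self v
  obtain ⟨hv1, hv2⟩ := Finset.mem_inter.1 hvS
  have hle : cface F S ⊔ cface F S' ≤ cface F (S ∪ S') := by
    intro a k z hz
    rcases hz with hz | hz
    · exact ⟨supp_mono Finset.subset_union_left hz.1, fun i => Finset.mem_union_left _ (hz.2 i)⟩
    · exact ⟨supp_mono Finset.subset_union_right hz.1, fun i => Finset.mem_union_right _ (hz.2 i)⟩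
  refine ⟨hle, ?_⟩
  obtain ⟨hle', hloc⟩ := h N S S' v hv
  have h1 := loc_face F S ⟨v, hv1⟩ (X := X)
  have h2 := loc_face F S' ⟨v, hv2⟩ (X := X)
  have h12 : Loc X (Sb.restr (tnFst (F.obj N) (SSet.stdSimplex.obj N))
      (cface F S ⊓ cface F S') (fface F S ⊓ fface F S') fun a k x hx => ⟨hx.1.1, hx.2.1⟩) := by
    exact loc_restr_congr (tnFst (F.obj N) (SSet.stdSimplex.obj N)) (cface_inf F S S')
      (fface_inf F S S' ⟨v, hvS⟩) _ _ (loc_face F (S ∩ S') ⟨v, hvS⟩)
  have h3 := loc_restr_sup hX (tnFst (F.obj N) (SSet.stdSimplex.obj N)) (cface F S) (cface F S')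
    (fface F S) (fface F S') (fun _ _ _ hx => hx.1) (fun _ _ _ hx => hx.1) h1 h2 h12
  have h4 := loc_face F (S ∪ S') ⟨v, Finset.mem_union_left _ hv1⟩ (X := X)
  have h5 : Loc X (Sb.ofLE hle ≫ Sb.restr (tnFst (F.obj N) (SSet.stdSimplex.obj N))
      (cface F (S ∪ S')) (fface F (S ∪ S')) (fun _ _ _ hx => hx.1)) := by
    have e : Sb.ofLE hle ≫ Sb.restr (tnFst (F.obj N) (SSet.stdSimplex.obj N))
        (cface F (S ∪ S')) (fface F (S ∪ S')) (fun _ _ _ hx => hx.1) =
        Sb.restr (tnFst (F.obj N) (SSet.stdSimplex.obj N)) (cface F S ⊔ cface F S')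
          (fface F S ⊔ fface F S') (fun a k x hx => hx.elim (fun h => Or.inl h.1)
            fun h => Or.inr h.1) ≫ Sb.ofLE hle' := rfl
    rw [e]
    exact loc_comp hX h3 hloc
  exact loc_of_comp_right hX h4 h5

end Pool.Agent.Helper81.FL2
end

/- Helper81.FL2.Kan -/
section
/-!
# Horns in `Yc F X`
-/

open CategoryTheory MonoidalCategory Opposite

set_option autoImplicit false

namespace Pool.Agent.Helper81.FL2

open FL Pool.Agent.Helper45.LOC

variable {A : Type} [SmallCategory A]

/-- a map from a sub-presheaf given by its graph -/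
theorem exists_map_of_rel {P X : SP A} (W : Sb P)
    (R : ∀ (a : Aᵒᵖ) (k : SimplexCategoryᵒᵖ), (P.obj a).obj k → (X.obj a).obj k → Prop)
    (ex : ∀ a k z, z ∈ W.mem a k → ∃ v, R a k z v)
    (un : ∀ a k z v v', R a k z v → R a k z v' → v = v')
    (natA : ∀ {a b : Aᵒᵖ} (f : a ⟶ b) (k : SimplexCategoryᵒᵖ) z v, R a k z v →
      R b k ((P.map f).app k z) ((X.map f).app k v))
    (natk : ∀ (a : Aᵒᵖ) {k l : SimplexCategoryᵒᵖ} (g : k ⟶ l) z v, R a k z v →
      R a l ((P.obj a).map g z) ((X.obj a).map g v)) :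
    ∃ f : W.toSP ⟶ X, ∀ (a : Aᵒᵖ) (k : SimplexCategoryᵒᵖ) (z : (W.toSP.obj a).obj k),
      R a k z.1 ((f.app a).app k z) := by
  choose φ hφ using ex
  refine ⟨{ app := fun a => { app := fun k => ↾ fun z => φ a k z.1 z.2, naturality := ?_ },
            naturality := ?_ }, ?_⟩
  · intro k l g
    refine ConcreteCategory.hom_ext _ _ fun z => ?_
    exact un a l _ _ _ (hφ a l _ (W.mapk a g z.1 z.2)) (natk a g _ _ (hφ a k z.1 z.2))
  · intro a b f
    refine NatTrans.ext (funext fun k => ?_)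
    refine ConcreteCategory.hom_ext _ _ fun z => ?_
    exact un b k _ _ _ (hφ b k _ (W.mapA f k z.1 z.2)) (natA f k _ _ (hφ a k z.1 z.2))
  · intro a k z
    exact hφ a k z.1 z.2

theorem mem_finsetSup {P : SP A} {ι : Type} (T : Finset ι) (f : ι → Sb P) (a : Aᵒᵖ)
    (k : SimplexCategoryᵒᵖ) (x : (P.obj a).obj k) :
    x ∈ (T.sup f).mem a k ↔ ∃ j ∈ T, x ∈ (f j).mem a k := by
  classical
  induction T using Finset.induction_on with
  | empty => simp
  | insert j T _ ih =>
    rw [Finset.sup_insert, Sb.mem_sup, ih]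
    simp

/-- the retraction of `δ j` -/
def rj {n : ℕ} (j : Fin (n + 2)) : SimplexCategory.mk (n + 1) ⟶ SimplexCategory.mk n :=
  SimplexCategory.σ (Fin.predAbove 0 j)

theorem comp_rj_δ {m : SimplexCategory} {n : ℕ} (j : Fin (n + 2))
    (θ : m ⟶ SimplexCategory.mk (n + 1)) (h : ∀ i, θ.toOrderHom i ≠ j) :
    θ ≫ rj j ≫ SimplexCategory.δ j = θ := by
  have := SimplexCategory.factor_δ_spec (m := m.len) θ j h
  exact (Category.assoc _ _ _).symm.trans this

theorem δ_apply_ne {n : ℕ} (j : Fin (n + 2)) (i : Fin (n + 1)) :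
    (SimplexCategory.δ j).toOrderHom i ≠ j := Fin.succAbove_ne j i

theorem δ_rj {n : ℕ} (j : Fin (n + 2)) : SimplexCategory.δ j ≫ rj j = 𝟙 _ := by
  have h := comp_rj_δ j (SimplexCategory.δ j) (δ_apply_ne j)
  rw [← Category.assoc] at h
  exact (cancel_mono (SimplexCategory.δ j)).1 (h.trans (Category.id_comp _).symm)

/-- a map which avoids `j < j'` factors -/
theorem factor_two {m : SimplexCategory} {n : ℕ} (j : Fin (n + 2)) (j' : Fin (n + 3))
    (hlt : j.castSucc < j') (θ : m ⟶ SimplexCategory.mk (n + 2))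
    (h : ∀ i, θ.toOrderHom i ≠ j.castSucc) (h' : ∀ i, θ.toOrderHom i ≠ j') :
    (θ ≫ rj j' ≫ rj j) ≫ SimplexCategory.δ j ≫ SimplexCategory.δ j' = θ := by
  have h1 : ∀ i, (θ ≫ rj j').toOrderHom i ≠ j := by
    intro i hi
    apply h i
    have h2 := congrArg (fun φ => φ.toOrderHom i) (comp_rj_δ j' θ h')
    refine (Eq.trans ?_ h2).symm
    change _ = (SimplexCategory.δ j').toOrderHom ((θ ≫ rj j').toOrderHom i)
    rw [hi]
    exact (Fin.succAbove_of_castSucc_lt j' j hlt).symm
  have h2 := comp_rj_δ j (θ ≫ rj j') h1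
  calc (θ ≫ rj j' ≫ rj j) ≫ SimplexCategory.δ j ≫ SimplexCategory.δ j'
      = ((θ ≫ rj j') ≫ rj j ≫ SimplexCategory.δ j) ≫ SimplexCategory.δ j' := by
        simp only [Category.assoc]
    _ = (θ ≫ rj j') ≫ SimplexCategory.δ j' := by rw [h2]
    _ = θ := by rw [Category.assoc]; exact comp_rj_δ j' θ h'

section

variable {G : SimplexCategory ⥤ SP A} {X : SP A} {n : ℕ} {i : Fin (n + 2)}

/-- the value of a horn on the face `j` -/
def gval (σ : (SSet.horn.{0} (n + 1) i : SSet.{0}) ⟶ Yc G X) (j : Fin (n + 2)) (hj : j ≠ i)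
    (a : Aᵒᵖ) (k : SimplexCategoryᵒᵖ) (s : k.unop ⟶ SimplexCategory.mk (n + 1))
    (x : ((G.obj (SimplexCategory.mk (n + 1))).obj a).obj k) : (X.obj a).obj k :=
  MpS.app (σ.app (op (SimplexCategory.mk n)) (SSet.horn.face i j hj) : MpS (G.obj _) X _) a k
    (s ≫ rj j) (((G.map (rj j)).app a).app k x)

theorem gval_comp (σ : (SSet.horn.{0} (n + 1) i : SSet.{0}) ⟶ Yc G X) (j : Fin (n + 2))
    (hj : j ≠ i) (a : Aᵒᵖ) (k : SimplexCategoryᵒᵖ) {M : SimplexCategory}
    (κ : M ⟶ SimplexCategory.mk n) (s : k.unop ⟶ M) (x : ((G.obj M).obj a).obj k) :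
    gval σ j hj a k (s ≫ κ ≫ SimplexCategory.δ j)
      (((G.map (κ ≫ SimplexCategory.δ j)).app a).app k x) =
    MpS.app (σ.app (op M) ((SSet.horn.{0} (n + 1) i : SSet.{0}).map κ.op
      (SSet.horn.face i j hj)) : MpS (G.obj _) X _) a k s x := by
  have h1 : σ.app (op M) ((SSet.horn.{0} (n + 1) i : SSet.{0}).map κ.op
      (SSet.horn.face i j hj)) = (Yc G X).map κ.op
        (σ.app (op (SimplexCategory.mk n)) (SSet.horn.face i j hj)) := sset_nat σ κ.op _
  rw [h1]
  change MpS.app _ a k _ _ = MpS.app _ a k (s ≫ κ) (((G.map κ).app a).app k x)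
  congr 1
  · rw [Category.assoc, Category.assoc, δ_rj, Category.comp_id]
  · rw [← cos_comp, Category.assoc, δ_rj, Category.comp_id]

theorem face_map_eq {n : ℕ} {i : Fin (n + 2)} {M : SimplexCategory} (j j' : Fin (n + 2))
    (hj : j ≠ i) (hj' : j' ≠ i) (κ κ' : M ⟶ SimplexCategory.mk n)
    (h : κ ≫ SimplexCategory.δ j = κ' ≫ SimplexCategory.δ j') :
    (SSet.horn.{0} (n + 1) i : SSet.{0}).map κ.op (SSet.horn.face i j hj) =
      (SSet.horn.{0} (n + 1) i : SSet.{0}).map κ'.op (SSet.horn.face i j' hj') := by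
  apply Subtype.ext
  apply SSet.stdSimplex.objEquiv.injective
  exact h

end

theorem gval_indep {G : SimplexCategory ⥤ SP A} {X : SP A} {n : ℕ} {i : Fin (n + 3)}
    (σ : (SSet.horn.{0} (n + 2) i : SSet.{0}) ⟶ Yc G X) (j j' : Fin (n + 3)) (hj : j ≠ i)
    (hj' : j' ≠ i) (hlt : j < j') (a : Aᵒᵖ) (k : SimplexCategoryᵒᵖ)
    (s : k.unop ⟶ SimplexCategory.mk (n + 2))
    (x : ((G.obj (SimplexCategory.mk (n + 2))).obj a).obj k)
    (hx : Supp G (Finset.univ.erase j ∩ Finset.univ.erase j') x)
    (hs : ∀ l, s.toOrderHom l ≠ j) (hs' : ∀ l, s.toOrderHom l ≠ j') :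
    gval σ j hj a k s x = gval σ j' hj' a k s x := by
  obtain ⟨m, γ, w, hγ, rfl⟩ := hx
  have hγ1 : ∀ l, γ.toOrderHom l ≠ j := fun l =>
    (Finset.mem_erase.1 (Finset.mem_inter.1 (hγ l)).1).1
  have hγ2 : ∀ l, γ.toOrderHom l ≠ j' := fun l =>
    (Finset.mem_erase.1 (Finset.mem_inter.1 (hγ l)).2).1
  have hj0 : j ≠ Fin.last _ := fun h => by
    rw [h] at hlt
    exact absurd (Fin.le_last j') (not_le.2 hlt)
  obtain ⟨j0, rfl⟩ : ∃ j0 : Fin (n + 2), j0.castSucc = j := ⟨j.castPred hj0, Fin.castSucc_castPred j hj0⟩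
  have e1 := factor_two j0 j' hlt s hs hs'
  have e2 := factor_two j0 j' hlt γ hγ1 hγ2
  have hne : j' ≠ 0 := fun h => by
    rw [h] at hlt
    exact absurd (Fin.zero_le _) (not_le.2 hlt)
  have hδ : SimplexCategory.δ j0 ≫ SimplexCategory.δ j' =
      SimplexCategory.δ (j'.pred hne) ≫ SimplexCategory.δ j0.castSucc :=
    SimplexCategory.δ_comp_δ' hlt
  have hx1 : ((G.map γ).app a).app k w =
      ((G.map (SimplexCategory.δ j0 ≫ SimplexCategory.δ j')).app a).app k
        (((G.map (γ ≫ rj j' ≫ rj j0)).app a).app k w) := by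
    rw [← cos_comp, e2]
  generalize s ≫ rj j' ≫ rj j0 = s0 at e1
  generalize ((G.map (γ ≫ rj j' ≫ rj j0)).app a).app k w = w0 at hx1
  rw [hx1, ← e1]
  rw [gval_comp σ j' hj' a k (SimplexCategory.δ j0) s0 w0]
  rw [hδ]
  rw [gval_comp σ j0.castSucc hj a k (SimplexCategory.δ (j'.pred hne)) s0 w0]
  rw [face_map_eq j0.castSucc j' hj hj' (SimplexCategory.δ (j'.pred hne)) (SimplexCategory.δ j0)
    hδ.symm]

end Pool.Agent.Helper81.FL2
end

/- Helper81.FL2.Fib -/
section
/-!
# `Yc G X ⟶ Yc F X` is a Kan fibration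
-/

open CategoryTheory MonoidalCategory Opposite

set_option autoImplicit false

namespace Pool.Agent.Helper81.FL2

open FL Pool.Agent.Helper45.LOC

variable {A : Type} [SmallCategory A]

theorem supp_univ (F : SimplexCategory ⥤ SP A) {N : SimplexCategory} {a : Aᵒᵖ}
    {k : SimplexCategoryᵒᵖ} (x : ((F.obj N).obj a).obj k) : Supp F Finset.univ x :=
  ⟨N, 𝟙 N, x, fun _ => Finset.mem_univ _, cos_id F x⟩

theorem cface_univ (F : SimplexCategory ⥤ SP A) (N : SimplexCategory) :
    cface F (N := N) Finset.univ = ⊤ := by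
  refine Sb.ext ?_
  funext a k
  ext z
  exact ⟨fun _ => trivial, fun _ => ⟨supp_univ F z.1, fun _ => Finset.mem_univ _⟩⟩

theorem cface_empty (F : SimplexCategory ⥤ SP A) (N : SimplexCategory) :
    cface F (N := N) ∅ = ⊥ := by
  refine Sb.ext ?_
  funext a k
  ext z
  exact ⟨fun h => absurd (h.2 0) (Finset.notMem_empty _), fun h => h.elim⟩

/-- the horn -/
def hornS (F : SimplexCategory ⥤ SP A) {n : ℕ} (i : Fin (n + 2)) :
    Sb (tn (F.obj (SimplexCategory.mk (n + 1))) (SSet.stdSimplex.obj (SimplexCategory.mk (n + 1)))) :=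
  (Finset.univ.erase i).sup fun j => cface F (N := SimplexCategory.mk (n + 1)) (Finset.univ.erase j)

theorem mem_hornS (F : SimplexCategory ⥤ SP A) {n : ℕ} (i : Fin (n + 2)) (a : Aᵒᵖ)
    (k : SimplexCategoryᵒᵖ)
    (z : ((tn (F.obj (SimplexCategory.mk (n + 1)))
      (SSet.stdSimplex.obj (SimplexCategory.mk (n + 1)))).obj a).obj k) :
    z ∈ (hornS F i).mem a k ↔ ∃ j, j ≠ i ∧
      z ∈ (cface F (N := SimplexCategory.mk (n + 1)) (Finset.univ.erase j)).mem a k := by
  unfold hornS
  rw [mem_finsetSup]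
  simp

theorem locT_horn {X : SP A} (hX : InjFib X) {F : SimplexCategory ⥤ SP A} (h : Ext X F) {n : ℕ}
    (i : Fin (n + 3)) : LocT X (hornS F i) ⊤ := by
  have h1 := Pool.Agent.Helper7.FL2.lat_HORN (N := n + 2)
    (cface F (N := SimplexCategory.mk (n + 2))) (cface_empty F _) (fun U V => cface_inf F U V)
    (LocT X) (fun _ _ _ h1 h2 => locT_trans hX h1 h2) (fun _ _ _ h1 h2 h3 => locT_cancel hX h1 h2 h3)
    (fun _ _ h1 => locT_push hX h1) (fun S S' v hv => ext_cface hX h S S' v hv)
    Finset.univ (Finset.univ.erase i) (Finset.erase_ssubset (Finset.mem_univ i)) (by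
      rw [Finset.card_erase_of_mem (Finset.mem_univ i), Finset.card_univ, Fintype.card_fin]
      omega)
  have h2 : cface F (N := SimplexCategory.mk (n + 2)) Finset.univ = ⊤ := cface_univ F _
  rw [h2] at h1
  exact h1

section

variable {F G : SimplexCategory ⥤ SP A} (u : F ⟶ G) (hu : ∀ m a, Mono ((u.app m).app a))

include hu in
theorem u_inj (m : SimplexCategory) (a : Aᵒᵖ) (k : SimplexCategoryᵒᵖ) :
    Function.Injective (((u.app m).app a).app k) := by
  have := hu m a
  exact (mono_iff_injective _).1 (inferInstance : Mono (((u.app m).app a).app k))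

theorem u_nat {m n : SimplexCategory} (α : m ⟶ n) (a : Aᵒᵖ) (k : SimplexCategoryᵒᵖ)
    (x : ((F.obj m).obj a).obj k) :
    ((u.app n).app a).app k (((F.map α).app a).app k x) =
      ((G.map α).app a).app k (((u.app m).app a).app k x) :=
  ConcreteCategory.congr_hom (NatTrans.congr_app (NatTrans.congr_app (u.naturality α) a) k) x

include hu in
theorem supp_u {N : SimplexCategory} (U : Finset (Fin (N.len + 1))) (hU : U.Nonempty) {a : Aᵒᵖ}
    {k : SimplexCategoryᵒᵖ} (x : ((F.obj N).obj a).obj k) :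
    Supp G U (((u.app N).app a).app k x) ↔ Supp F U x := by
  constructor
  · intro h
    obtain ⟨p, hp⟩ := hU
    have h1 := supp_fix h p hp
    rw [← u_nat] at h1
    exact ⟨N, rho U p hp, x, fun i => rhoFun_mem U p hp i, u_inj u hu _ _ _ h1⟩
  · rintro ⟨m, α, y, hα, rfl⟩
    exact ⟨m, α, ((u.app m).app a).app k y, hα, (u_nat u α a k y).symm⟩

/-- the inclusion of `F_N ⊗ Δ[N]` into `G_N ⊗ Δ[N]` -/
abbrev fN (N : SimplexCategory) : tn (F.obj N) (SSet.stdSimplex.obj N) ⟶
    tn (G.obj N) (SSet.stdSimplex.obj N) := tnMap (u.app N) (𝟙 _)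

include hu in
theorem fN_mono (N : SimplexCategory) (a : Aᵒᵖ) : Mono ((fN u N).app a) := by
  rw [NatTrans.mono_iff_mono_app]
  intro k
  rw [mono_iff_injective]
  rintro ⟨x, s⟩ ⟨x', s'⟩ h
  have h1 := congrArg Prod.fst h
  have h2 := congrArg Prod.snd h
  exact Prod.ext (u_inj u hu _ _ _ h1) h2

include hu in
theorem comap_horn {n : ℕ} (i : Fin (n + 2)) :
    (hornS G i).comap (fN u (SimplexCategory.mk (n + 1))) = hornS F i := by
  refine Sb.ext ?_
  funext a k
  ext z
  change (((fN u (SimplexCategory.mk (n + 1))).app a).app k z ∈ (hornS G i).mem a k) ↔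
    z ∈ (hornS F i).mem a k
  rw [mem_hornS, mem_hornS]
  refine exists_congr fun j => and_congr_right fun _ => ?_
  constructor
  · rintro ⟨h1, h2⟩
    exact ⟨(supp_u u hu _ ⟨_, h2 0⟩ z.1).1 h1, h2⟩
  · rintro ⟨h1, h2⟩
    exact ⟨(supp_u u hu _ ⟨_, h2 0⟩ z.1).2 h1, h2⟩

include hu in
theorem locT_union {X : SP A} (hX : InjFib X) (hF : Ext X F) (hG : Ext X G) {n : ℕ}
    (i : Fin (n + 3)) :
    LocT X (hornS G i ⊔ Sb.range (fN u (SimplexCategory.mk (n + 2)))) ⊤ := by
  have h1 : LocT X (hornS G i ⊓ Sb.range (fN u (SimplexCategory.mk (n + 2))))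
      (Sb.range (fN u (SimplexCategory.mk (n + 2)))) := by
    rw [← locT_comap (fN u (SimplexCategory.mk (n + 2))) (fN_mono u hu _) _ _ inf_le_right le_rfl]
    have e1 : (hornS G i ⊓ Sb.range (fN u (SimplexCategory.mk (n + 2)))).comap
        (fN u (SimplexCategory.mk (n + 2))) = hornS F i := by
      rw [← comap_horn u hu i]
      refine Sb.ext ?_
      funext a k
      ext z
      exact ⟨fun h => h.1, fun h => ⟨h, ⟨z, rfl⟩⟩⟩
    have e2 : (Sb.range (fN u (SimplexCategory.mk (n + 2)))).comap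
        (fN u (SimplexCategory.mk (n + 2))) = ⊤ := by
      refine Sb.ext ?_
      funext a k
      ext z
      exact ⟨fun _ => trivial, fun _ => ⟨z, rfl⟩⟩
    rw [e1, e2]
    exact locT_horn hX hF i
  exact locT_cancel hX (locT_push hX h1) (locT_horn hX hG i) le_top

end

theorem mono_ofLE {P : SP A} {S T : Sb P} (h : S ≤ T) (a : Aᵒᵖ) : Mono ((Sb.ofLE h).app a) := by
  rw [NatTrans.mono_iff_mono_app]
  intro k
  rw [mono_iff_injective]
  intro x y hxy
  have h1 := congrArg Subtype.val hxy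
  exact Subtype.ext h1

/-- horns of dimension at least 2 -/
theorem lift_horn {X : SP A} (hX : InjFib X) {F G : SimplexCategory ⥤ SP A} (u : F ⟶ G)
    (hu : ∀ m a, Mono ((u.app m).app a)) (hF : Ext X F) (hG : Ext X G) {n : ℕ} (i : Fin (n + 3))
    (σ : (SSet.horn.{0} (n + 2) i : SSet.{0}) ⟶ Yc G X)
    (τ : SSet.stdSimplex.obj (SimplexCategory.mk (n + 2)) ⟶ Yc F X)
    (w : σ ≫ Yc.pre u X = (SSet.horn.{0} (n + 2) i).ι ≫ τ) :
    ∃ l : SSet.stdSimplex.obj (SimplexCategory.mk (n + 2)) ⟶ Yc G X,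
      (SSet.horn.{0} (n + 2) i).ι ≫ l = σ ∧ l ≫ Yc.pre u X = τ := by
  classical
  let N := SimplexCategory.mk (n + 2)
  let τ0 : MpS (F.obj N) X N := SSet.yonedaEquiv τ
  -- the compatibility of σ and τ on the faces
  have hA : ∀ (j : Fin (n + 3)) (hj : j ≠ i),
      (Yc.pre u X).app _ (σ.app (op (SimplexCategory.mk (n + 1))) (SSet.horn.face i j hj)) =
        (Yc F X).map (SimplexCategory.δ j).op τ0 := by
    intro j hj
    have h1 := ConcreteCategory.congr_hom (NatTrans.congr_app w (op (SimplexCategory.mk (n + 1))))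
      (SSet.horn.face i j hj)
    refine h1.trans ?_
    exact sset_nat τ (SimplexCategory.δ j).op (SSet.stdSimplex.objEquiv.symm (𝟙 N))
  have hB : ∀ (j : Fin (n + 3)) (hj : j ≠ i) (a : Aᵒᵖ) (k : SimplexCategoryᵒᵖ) (s : k.unop ⟶ N)
      (x : ((F.obj N).obj a).obj k), Supp G (Finset.univ.erase j) (((u.app N).app a).app k x) →
      (∀ l, s.toOrderHom l ≠ j) →
      gval σ j hj a k s (((u.app N).app a).app k x) = τ0.app a k s x := by
    intro j hj a k s x hx hs
    have hne : (Finset.univ.erase j : Finset (Fin (n + 3))).Nonempty :=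
      ⟨s.toOrderHom 0, Finset.mem_erase.2 ⟨hs 0, Finset.mem_univ _⟩⟩
    have hx' : Supp F (N := N) (Finset.univ.erase j) x := (supp_u u hu _ hne x).1 hx
    obtain ⟨m, α, y, hα, rfl⟩ := hx'
    have hα' : ∀ l, α.toOrderHom l ≠ j := fun l => (Finset.mem_erase.1 (hα l)).1
    have e1 := comp_rj_δ j α hα'
    have e2 := comp_rj_δ j s hs
    have h2 : gval σ j hj a k s (((u.app N).app a).app k (((F.map α).app a).app k y)) =
        MpS.app ((Yc.pre u X).app _ (σ.app (op (SimplexCategory.mk (n + 1)))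
          (SSet.horn.face i j hj)) : MpS (F.obj _) X _) a k (s ≫ rj j)
          (((F.map (rj j)).app a).app k (((F.map α).app a).app k y)) := by
      change MpS.app _ a k _ _ = MpS.app _ a k _ _
      congr 1
      exact (u_nat u (rj j) a k _).symm
    rw [h2, hA]
    change τ0.app a k ((s ≫ rj j) ≫ SimplexCategory.δ j)
      (((F.map (SimplexCategory.δ j)).app a).app k _) = _
    rw [← cos_comp, ← cos_comp, Category.assoc, e2, e1]
  -- the graph of the map on the union
  obtain ⟨R, hR⟩ : ∃ R : ∀ (a : Aᵒᵖ) (k : SimplexCategoryᵒᵖ),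
      ((tn (G.obj N) (SSet.stdSimplex.obj N)).obj a).obj k → (X.obj a).obj k → Prop,
      ∀ a k z v, R a k z v ↔ ((∃ (j : Fin (n + 3)) (hj : j ≠ i),
        z ∈ (cface G (N := SimplexCategory.mk (n + 2)) (Finset.univ.erase j)).mem a k ∧
        v = gval σ j hj a k (SSet.stdSimplex.objEquiv z.2) z.1) ∨
      (∃ x, ((u.app N).app a).app k x = z.1 ∧
        v = τ0.app a k (SSet.stdSimplex.objEquiv z.2) x)) := ⟨_, fun _ _ _ _ => Iff.rfl⟩
  have hun1 : ∀ a k (z : ((tn (G.obj N) (SSet.stdSimplex.obj N)).obj a).obj k)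
      (j j' : Fin (n + 3)) (hj : j ≠ i) (hj' : j' ≠ i), j ≤ j' →
      z ∈ (cface G (N := N) (Finset.univ.erase j)).mem a k →
      z ∈ (cface G (N := N) (Finset.univ.erase j')).mem a k →
      gval σ j hj a k (SSet.stdSimplex.objEquiv z.2) z.1 =
        gval σ j' hj' a k (SSet.stdSimplex.objEquiv z.2) z.1 := by
    intro a k z j j' hj hj' hle h1 h2
    rcases hle.lt_or_eq with hlt | heq
    · exact gval_indep σ j j' hj hj' hlt a k _ _ (supp_inter (h1.2 0) (h2.2 0) h1.1 h2.1)
        (fun l => (Finset.mem_erase.1 (h1.2 l)).1) (fun l => (Finset.mem_erase.1 (h2.2 l)).1)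
    · subst heq
      rfl
  have hun2 : ∀ a k (z : ((tn (G.obj N) (SSet.stdSimplex.obj N)).obj a).obj k)
      (j : Fin (n + 3)) (hj : j ≠ i) (x : ((F.obj N).obj a).obj k),
      z ∈ (cface G (N := N) (Finset.univ.erase j)).mem a k →
      ((u.app N).app a).app k x = z.1 →
      gval σ j hj a k (SSet.stdSimplex.objEquiv z.2) z.1 =
        τ0.app a k (SSet.stdSimplex.objEquiv z.2) x := by
    rintro a k ⟨z1, z2⟩ j hj x h1 h2
    dsimp only at h2
    subst h2
    exact hB j hj a k _ x h1.1 (fun l => (Finset.mem_erase.1 (h1.2 l)).1)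
  have hun : ∀ a k z v v', R a k z v → R a k z v' → v = v' := by
    intro a k z v v' hv hv'
    rw [hR] at hv hv'
    rcases hv with ⟨j, hj, h1, rfl⟩ | ⟨x, h1, rfl⟩ <;>
      rcases hv' with ⟨j', hj', h2, rfl⟩ | ⟨x', h2, rfl⟩
    · rcases le_total j j' with h | h
      · exact hun1 a k z j j' hj hj' h h1 h2
      · exact (hun1 a k z j' j hj' hj h h2 h1).symm
    · exact hun2 a k z j hj x' h1 h2
    · exact (hun2 a k z j' hj' x h2 h1).symm
    · rw [u_inj u hu _ _ _ (h1.trans h2.symm)]
  -- the map on the union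
  obtain ⟨f, hf⟩ := exists_map_of_rel (X := X)
    (hornS G i ⊔ Sb.range (fN u (SimplexCategory.mk (n + 2)))) R
    (by
      intro a k z hz
      rcases hz with hz | hz
      · obtain ⟨j, hj, h⟩ := (mem_hornS G i a k z).1 hz
        exact ⟨_, (hR _ _ _ _).2 (Or.inl ⟨j, hj, h, rfl⟩)⟩
      · obtain ⟨y, rfl⟩ := hz
        exact ⟨_, (hR _ _ _ _).2 (Or.inr ⟨y.1, rfl, rfl⟩)⟩)
    hun
    (by
      intro a b g k z v hv
      rw [hR] at hv ⊢
      obtain ⟨z1, z2⟩ := z
      rcases hv with ⟨j, hj, h1, rfl⟩ | ⟨x, h1, rfl⟩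
      · refine Or.inl ⟨j, hj, Sb.mapA _ g k _ h1, ?_⟩
        change _ = gval σ j hj b k (SSet.stdSimplex.objEquiv z2) (((G.obj N).map g).app k z1)
        unfold gval
        rw [← MpS.nat_left]
        congr 1
        exact (hom_nat (G.map (rj j)) g z1).symm
      · dsimp only at h1
        subst h1
        refine Or.inr ⟨((F.obj N).map g).app k x, hom_nat (u.app N) g x, ?_⟩
        exact (τ0.nat_left g k _ x).symm)
    (by
      intro a k l g z v hv
      rw [hR] at hv ⊢
      obtain ⟨z1, z2⟩ := z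
      rcases hv with ⟨j, hj, h1, rfl⟩ | ⟨x, h1, rfl⟩
      · refine Or.inl ⟨j, hj, Sb.mapk _ a g _ h1, ?_⟩
        change _ = gval σ j hj a l (g.unop ≫ SSet.stdSimplex.objEquiv z2)
          (((G.obj N).obj a).map g z1)
        unfold gval
        rw [← MpS.nat_right]
        congr 1
        exact (hom_natk (G.map (rj j)) g z1).symm
      · dsimp only at h1
        subst h1
        refine Or.inr ⟨((F.obj N).obj a).map g x, hom_natk (u.app N) g x, ?_⟩
        exact (τ0.nat_right a g _ x).symm)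
  obtain ⟨hle, hloc⟩ := locT_union u hu hX hF hG i
  obtain ⟨g', hg'⟩ := loc_extend hX (Sb.ofLE hle) (mono_ofLE hle) hloc f
  have hfg : ∀ (a : Aᵒᵖ) (k : SimplexCategoryᵒᵖ)
      (z : ((tn (G.obj N) (SSet.stdSimplex.obj N)).obj a).obj k)
      (hz : z ∈ (hornS G i ⊔ Sb.range (fN u N)).mem a k),
      (g'.app a).app k ⟨z, trivial⟩ = (f.app a).app k ⟨z, hz⟩ := by
    intro a k z hz
    exact ConcreteCategory.congr_hom (NatTrans.congr_app (NatTrans.congr_app hg' a) k) ⟨z, hz⟩
  let φ : MpS (G.obj N) X N :=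
    { app := fun a k s x => (g'.app a).app k ⟨(x, SSet.stdSimplex.objEquiv.symm s), trivial⟩
      nat_left := fun f k s x => hom_nat g' f ⟨(x, SSet.stdSimplex.objEquiv.symm s), trivial⟩
      nat_right := fun a k l g s x => hom_natk g' g
        ⟨(x, SSet.stdSimplex.objEquiv.symm s), trivial⟩ }
  refine ⟨SSet.yonedaEquiv.symm φ, ?_, ?_⟩
  · refine SSet.horn.hom_ext _ _ fun j hj => ?_
    refine MpS.ext ?_
    funext a k s x
    change (g'.app a).app k ⟨(((G.map (SimplexCategory.δ j)).app a).app k x,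
      SSet.stdSimplex.objEquiv.symm (s ≫ SimplexCategory.δ j)), trivial⟩ = _
    have hz : ((((G.map (SimplexCategory.δ j)).app a).app k x,
        SSet.stdSimplex.objEquiv.symm (s ≫ SimplexCategory.δ j)) :
        ((tn (G.obj N) (SSet.stdSimplex.obj N)).obj a).obj k) ∈
        (cface G (N := N) (Finset.univ.erase j)).mem a k :=
      ⟨⟨_, SimplexCategory.δ j, x, fun l => Finset.mem_erase.2 ⟨δ_apply_ne j l, Finset.mem_univ _⟩,
        rfl⟩, fun l => Finset.mem_erase.2 ⟨δ_apply_ne j _, Finset.mem_univ _⟩⟩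
    have hz' := (mem_hornS G i a k _).2 ⟨j, hj, hz⟩
    rw [hfg a k _ (Or.inl hz')]
    refine (hun a k _ _ _ (hf a k ⟨_, Or.inl hz'⟩) ((hR _ _ _ _).2 (Or.inl ⟨j, hj, hz, rfl⟩))).trans ?_
    have h3 := gval_comp σ j hj a k (𝟙 _) s x
    rw [Category.id_comp] at h3
    refine h3.trans ?_
    have h4 : (SSet.horn.{0} (n + 2) i : SSet.{0}).map (𝟙 (SimplexCategory.mk (n + 1))).op
      (SSet.horn.face i j hj) = SSet.horn.face i j hj := sset_id _ _
    rw [h4]
  · rw [SSet.yonedaEquiv_symm_comp, Equiv.symm_apply_eq]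
    refine MpS.ext ?_
    funext a k s x
    have hz : ((((u.app N).app a).app k x, SSet.stdSimplex.objEquiv.symm s) :
        ((tn (G.obj N) (SSet.stdSimplex.obj N)).obj a).obj k) ∈
        (Sb.range (fN u N)).mem a k := ⟨(x, SSet.stdSimplex.objEquiv.symm s), rfl⟩
    change (g'.app a).app k ⟨(((u.app N).app a).app k x, SSet.stdSimplex.objEquiv.symm s),
      trivial⟩ = τ0.app a k s x
    rw [hfg a k _ (Or.inr hz)]
    exact hun a k _ _ _ (hf a k ⟨_, Or.inr hz⟩) ((hR _ _ _ _).2 (Or.inr ⟨x, rfl, rfl⟩))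

theorem Yc_pre_kanFib {X : SP A} (hX : InjFib X) {F G : SimplexCategory ⥤ SP A} (u : F ⟶ G)
    (hu : ∀ m a, Mono ((u.app m).app a)) (hF : Ext X F) (hG : Ext X G)
    (edge : ∀ i : Fin 2, HasLiftingProperty (SSet.horn.{0} 1 i).ι (Yc.pre u X)) :
    KanFib (Yc.pre u X) := by
  intro n i
  rcases n with _ | n
  · exact edge i
  · refine ⟨fun {σ τ} sq => ?_⟩
    obtain ⟨l, h1, h2⟩ := lift_horn hX u hu hF hG i σ τ sq.w
    exact ⟨⟨⟨l, h1, h2⟩⟩⟩

section Kan

theorem kan_of_fill (Z : SSet.{0}) (h : ∀ (n : ℕ) (i : Fin (n + 2))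
    (σ : (SSet.horn.{0} (n + 1) i : SSet.{0}) ⟶ Z),
    ∃ l : SSet.stdSimplex.obj (SimplexCategory.mk (n + 1)) ⟶ Z,
      (SSet.horn.{0} (n + 1) i).ι ≫ l = σ) : SSet.KanComplex Z := by
  rw [SSet.KanComplex.iff]
  intro n i f hf
  obtain ⟨σ, hσ⟩ : ∃ σ : (SSet.horn.{0} (n + 1) i : SSet.{0}) ⟶ Z,
      ∀ (j : Fin (n + 2)) (hj : j ≠ i), SSet.horn.ι i j hj ≫ σ = f j hj :=
    ⟨hf.desc, fun j hj => by simp⟩
  obtain ⟨l, hl⟩ := h n i σ
  refine ⟨l, fun j hj => ?_⟩
  rw [← hσ j hj, ← hl, ← Category.assoc, SSet.horn.ι_ι]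

/-- the empty simplicial presheaf -/
def emp (A : Type) [SmallCategory A] : SP A := (⊥ : Sb (P := (Functor.const _).obj (SSet.stdSimplex.{0}.obj
  (SimplexCategory.mk 0))) ).toSP

theorem emp_elim {A : Type} [SmallCategory A] {a : Aᵒᵖ} {k : SimplexCategoryᵒᵖ}
    (x : ((emp A).obj a).obj k) : False := x.2

/-- the map from the empty presheaf -/
def empTo {A : Type} [SmallCategory A] (P : SP A) : emp A ⟶ P where
  app a :=
    { app := fun k => ↾ fun x => (emp_elim x).elim
      naturality := fun k l α => by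
        refine ConcreteCategory.hom_ext _ _ fun x => ?_
        exact (emp_elim x).elim }
  naturality a b f := by
    refine NatTrans.ext (funext fun k => ?_)
    refine ConcreteCategory.hom_ext _ _ fun x => ?_
    exact (emp_elim x).elim

theorem emp_hom_ext {A : Type} [SmallCategory A] {P : SP A} (f g : emp A ⟶ P) : f = g := by
  refine NatTrans.ext (funext fun a => NatTrans.ext (funext fun k => ?_))
  refine ConcreteCategory.hom_ext _ _ fun x => ?_
  exact (emp_elim x).elim

/-- the empty cosimplicial object -/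
def empCos (F : SimplexCategory ⥤ SP A) : (Functor.const SimplexCategory).obj (emp A) ⟶ F where
  app m := empTo (F.obj m)
  naturality _ _ _ := emp_hom_ext _ _

theorem Yc_kan {X : SP A} (hX : InjFib X) {F : SimplexCategory ⥤ SP A} (h : Ext X F) :
    SSet.KanComplex (Yc F X) := by
  apply kan_of_fill
  intro n i σ
  rcases n with _ | n
  · obtain ⟨j0, hj0⟩ : ∃ j : Fin 2, j ≠ i := exists_ne i
    let v := σ.app (op (SimplexCategory.mk 0)) (SSet.horn.face i j0 hj0)
    refine ⟨SSet.yonedaEquiv.symm ((Yc F X).map (SimplexCategory.const (SimplexCategory.mk 1)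
      (SimplexCategory.mk 0) 0).op v), ?_⟩
    refine SSet.horn.hom_ext _ _ fun j hj => ?_
    have hjj : j = j0 := by
      have h1 := i.isLt
      have h2 := j.isLt
      have h3 := j0.isLt
      have h4 : (j : ℕ) ≠ i := fun e => hj (Fin.ext e)
      have h5 : (j0 : ℕ) ≠ i := fun e => hj0 (Fin.ext e)
      apply Fin.ext
      omega
    subst hjj
    change (Yc F X).map (SimplexCategory.δ j).op ((Yc F X).map (SimplexCategory.const
      (SimplexCategory.mk 1) (SimplexCategory.mk 0) 0).op v) = v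
    rw [← sset_comp]
    refine Eq.trans ?_ (sset_id _ v)
    refine congrArg (fun t => (Yc F X).map t v) ?_
    refine Quiver.Hom.unop_inj ?_
    apply sc_ext
    intro l
    exact Subsingleton.elim (α := Fin 1) _ _
  · have hE : Ext X ((Functor.const SimplexCategory).obj (emp A)) := by
      intro N S S' v _
      have e : fface ((Functor.const SimplexCategory).obj (emp A)) S ⊔
          fface ((Functor.const SimplexCategory).obj (emp A)) S' =
          fface ((Functor.const SimplexCategory).obj (emp A)) (S ∪ S') := by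
        refine Sb.ext ?_
        funext a k
        ext x
        exact (emp_elim x).elim
      rw [e]
      exact locT_refl _
    have hsub : ∀ (m : SimplexCategory) (φ ψ : MpS (emp A) X m), φ = ψ := by
      intro m φ ψ
      refine MpS.ext ?_
      funext a k s x
      exact (emp_elim x).elim
    let τ : SSet.stdSimplex.obj (SimplexCategory.mk (n + 2)) ⟶
        Yc ((Functor.const SimplexCategory).obj (emp A)) X :=
      SSet.yonedaEquiv.symm (MpS.ofHom _ (empTo X))
    obtain ⟨l, h1, _⟩ := lift_horn hX (empCos F) (fun m a => by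
      rw [NatTrans.mono_iff_mono_app]
      intro k
      rw [mono_iff_injective]
      intro x y _
      exact (emp_elim x).elim) hE h i σ τ (by
        refine NatTrans.ext (funext fun m => ?_)
        refine ConcreteCategory.hom_ext _ _ fun x => ?_
        exact hsub _ _ _)
    exact ⟨l, h1⟩

end Kan

end Pool.Agent.Helper81.FL2
end
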