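import Pool.Agent.Helper16.FDG.G01
import Pool.Agent.Helper16.FDG.G05
import Pool.Agent.Helper16.FDG.G06
import Pool.Agent.Helper16.FDG.G07
import Pool.Agent.Helper16.FDG.G08

/- Helper55.FLP.Coc -/
section
/-!
# FLP-B6a: weights and cocones
-/

open CategoryTheory MonoidalCategory CartesianMonoidalCategory Opposite

set_option autoImplicit false

namespace Pool.Agent.Helper55.FLP

open FL (SP MpS HoEq Th Wr)
open _root_.FLP

noncomputable section

variable {J : Type} [SmallCategory J]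

/-! ### The weights -/

lemma under_heq {j : J} {X X' Y Y' : Under j} (hX : X = X') (hY : Y = Y') (f : X ⟶ Y)
    (g : X' ⟶ Y') (h : HEq f.right g.right) : HEq f g := by
  subst hX hY
  exact heq_of_eq (Under.UnderMorphism.ext (eq_of_heq h))

/-- From chains in the under category to the simplices of `FL.W J`. -/
def toWS {j : J} {k : SimplexCategory} (F : Fin (k.len + 1) ⥤ Under j) : FL.WS j k where
  σ :=
    { obj := fun i => (F.obj i).right
      map := fun i i' h => (F.map (homOfLE h)).right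
      map_id := fun i => by
        exact congrArg Under.Hom.right (F.map_id i)
      map_comp := fun i i' i'' h h' => by
        exact congrArg Under.Hom.right (F.map_comp (homOfLE h) (homOfLE h')).symm }
  u := (F.obj 0).hom

/-- From the simplices of `FL.W J` to chains in the under category. -/
def ofWS {j : J} {k : SimplexCategory} (w : FL.WS j k) : Fin (k.len + 1) ⥤ Under j where
  obj i := Under.mk (w.u ≫ w.σ.map 0 i (Fin.zero_le _))
  map {i i'} f := Under.homMk (w.σ.map i i' (leOfHom f)) (by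
    show (w.u ≫ w.σ.map 0 i (Fin.zero_le _)) ≫ w.σ.map i i' (leOfHom f) =
      w.u ≫ w.σ.map 0 i' (Fin.zero_le _)
    rw [Category.assoc, w.σ.map_comp])
  map_id i := Under.UnderMorphism.ext (w.σ.map_id i)
  map_comp f g := Under.UnderMorphism.ext (w.σ.map_comp _ _ _ _ _).symm

lemma toWS_ofWS {j : J} {k : SimplexCategory} (w : FL.WS j k) : toWS (ofWS w) = w := by
  obtain ⟨σ, u⟩ := w
  refine congrArg (FL.WS.mk σ) ?_
  show u ≫ σ.map 0 0 _ = u
  rw [σ.map_id, Category.comp_id]

lemma ofWS_toWS {j : J} {k : SimplexCategory} (F : Fin (k.len + 1) ⥤ Under j) :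
    ofWS (toWS F) = F := by
  have hobj : ∀ i, (ofWS (toWS F)).obj i = F.obj i := by
    intro i
    show Under.mk ((F.obj 0).hom ≫ (F.map (homOfLE (Fin.zero_le i))).right) = F.obj i
    rw [Under.w]
    rfl
  refine Functor.hext hobj fun i i' f => ?_
  exact under_heq (hobj i) (hobj i') _ _ (heq_of_eq rfl)

lemma toWS_res {j : J} {k l : SimplexCategory} (α : l ⟶ k) (F : Fin (k.len + 1) ⥤ Under j) :
    toWS (k := l) ((SimplexCategory.toCat.map α).toFunctor ⋙ F) = (toWS F).res α := by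
  refine congrArg (FL.WS.mk _) ?_
  show (F.obj (α.toOrderHom 0)).hom = (F.obj 0).hom ≫ (F.map (homOfLE (Fin.zero_le _))).right
  rw [Under.w]

theorem exists_wtIso : Nonempty (PSh.Wt J ≅ FL.W J) := by
  refine ⟨NatIso.ofComponents (fun j => NatIso.ofComponents (fun k =>
    { hom := ↾ fun (F : Fin (k.unop.len + 1) ⥤ Under j.unop) => (toWS F : FL.WS j.unop k.unop)
      inv := ↾ fun (w : FL.WS j.unop k.unop) =>
        (ofWS w : Fin (k.unop.len + 1) ⥤ Under j.unop)
      hom_inv_id := ConcreteCategory.hom_ext _ _ fun F => ofWS_toWS F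
      inv_hom_id := ConcreteCategory.hom_ext _ _ fun w => toWS_ofWS w }) ?_) ?_⟩
  · intro k l α
    exact ConcreteCategory.hom_ext _ _ fun F => toWS_res α.unop F
  · intro j j' f
    exact NatTrans.ext (funext fun k => ConcreteCategory.hom_ext _ _ fun F => rfl)

/-! ### Cocones -/

variable {n : ℕ} {p : PSh.Diag n J} {K : FLP.CatN n}

section Bwd

variable (e : PSh.Wt J ≅ FL.W J) (Λ : PSh.Cocone p K)

/-- The simplex of the mapping space attached by `Λ` to a simplex of `FL.W J`. -/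
def lw {j : J} {k : SimplexCategory} (w : FL.WS j k) : MpS (p.p.obj j) K.X k :=
  ofMx (X := p.p.obj j) (Y := K.X)
    ((Λ.app (op j)).app (op k) ((e.inv.app (op j)).app (op k) w))

lemma lw_left {j j' : J} (u : j ⟶ j') {k : SimplexCategory} (w : FL.WS j' k) :
    lw e Λ (⟨w.σ, u ≫ w.u⟩ : FL.WS j k) = (MpS.ofHom k (p.p.map u)).comp (lw e Λ w) := by
  have h1 : (e.inv.app (op j)).app (op k) (⟨w.σ, u ≫ w.u⟩ : FL.WS j k) =
      ((PSh.Wt J).map u.op).app (op k) ((e.inv.app (op j')).app (op k) w) :=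
    ConcreteCategory.congr_hom (NatTrans.congr_app (e.inv.naturality u.op) (op k)) w
  have h2 : (Λ.app (op j)).app (op k)
      (((PSh.Wt J).map u.op).app (op k) ((e.inv.app (op j')).app (op k) w)) =
      (Mx.of (p.p.map u) k).comp ((Λ.app (op j')).app (op k)
        ((e.inv.app (op j')).app (op k) w) : (p.at j').Mx K k) :=
    ConcreteCategory.congr_hom (NatTrans.congr_app (Λ.naturality u.op) (op k))
      ((e.inv.app (op j')).app (op k) w)
  have h3 := ofMx_comp (X := p.p.obj j) (Y := p.p.obj j') (Z := K.X) (Mx.of (p.p.map u) k)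
    ((Λ.app (op j')).app (op k) ((e.inv.app (op j')).app (op k) w) : (p.at j').Mx K k)
  refine Eq.trans ?_ h3
  exact congrArg (ofMx (X := p.p.obj j) (Y := K.X)) ((congrArg _ h1).trans h2)

lemma lw_right {j : J} {k l : SimplexCategory} (α : l ⟶ k) (w : FL.WS j k) :
    lw e Λ (w.res α) = (lw e Λ w).res α := by
  have h1 : (e.inv.app (op j)).app (op l) (w.res α) =
      ((PSh.Wt J).obj (op j)).map α.op ((e.inv.app (op j)).app (op k) w) :=
    ConcreteCategory.congr_hom ((e.inv.app (op j)).naturality α.op) w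
  have h2 : (Λ.app (op j)).app (op l)
      (((PSh.Wt J).obj (op j)).map α.op ((e.inv.app (op j)).app (op k) w)) =
      Mx.res α ((Λ.app (op j)).app (op k)
        ((e.inv.app (op j)).app (op k) w) : (p.at j).Mx K k) :=
    ConcreteCategory.congr_hom ((Λ.app (op j)).naturality α.op)
      ((e.inv.app (op j)).app (op k) w)
  have h3 := ofMx_res (X := p.p.obj j) (Y := K.X) α
    ((Λ.app (op j)).app (op k) ((e.inv.app (op j)).app (op k) w) : (p.at j).Mx K k)
  refine Eq.trans ?_ h3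
  exact congrArg (ofMx (X := p.p.obj j) (Y := K.X)) ((congrArg _ h1).trans h2)

lemma lw_nat {a : (Th n)ᵒᵖ} {m l : SimplexCategoryᵒᵖ} (g : m ⟶ l) (σ : FL.Chain J m.unop)
    (y : ((p.p.obj (σ.obj 0)).obj a).obj m) :
    (lw e Λ (⟨σ.res g.unop, 𝟙 _⟩ : FL.WS ((σ.res g.unop).obj 0) l.unop)).app a l (𝟙 _)
      (((p.p.map (σ.zeroTo g.unop)).app a).app l (((p.p.obj (σ.obj 0)).obj a).map g y)) =
    (K.X.obj a).map g ((lw e Λ (⟨σ, 𝟙 _⟩ : FL.WS (σ.obj 0) m.unop)).app a m (𝟙 _) y) := by
  have h1 := MpS.nat_right (lw e Λ (⟨σ, 𝟙 _⟩ : FL.WS (σ.obj 0) m.unop)) a g (𝟙 _) y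
  refine Eq.trans ?_ h1
  have h2 := lw_right e Λ g.unop (⟨σ, 𝟙 _⟩ : FL.WS (σ.obj 0) m.unop)
  have h3 := lw_left e Λ (σ.zeroTo g.unop)
    (⟨σ.res g.unop, 𝟙 _⟩ : FL.WS ((σ.res g.unop).obj 0) l.unop)
  have h4 : (FL.WS.res (⟨σ, 𝟙 _⟩ : FL.WS (σ.obj 0) m.unop) g.unop) =
      ⟨σ.res g.unop, σ.zeroTo g.unop ≫ 𝟙 _⟩ :=
    congrArg (FL.WS.mk (σ.res g.unop)) ((Category.id_comp _).trans (Category.comp_id _).symm)
  have h5 : MpS.res g.unop (lw e Λ (⟨σ, 𝟙 _⟩ : FL.WS (σ.obj 0) m.unop)) =
      (MpS.ofHom l.unop (p.p.map (σ.zeroTo g.unop))).comp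
        (lw e Λ (⟨σ.res g.unop, 𝟙 _⟩ : FL.WS ((σ.res g.unop).obj 0) l.unop)) :=
    h2.symm.trans ((congrArg (lw e Λ) h4).trans h3)
  have h6 := congrArg (fun χ : MpS (p.p.obj (σ.obj 0)) K.X l.unop =>
    χ.app a l (𝟙 _) (((p.p.obj (σ.obj 0)).obj a).map g y)) h5
  refine Eq.trans h6.symm ?_
  refine congrArg (fun r => (lw e Λ (⟨σ, 𝟙 _⟩ : FL.WS (σ.obj 0) m.unop)).app a l r
    (((p.p.obj (σ.obj 0)).obj a).map g y)) ?_
  exact (Category.id_comp _).trans (Category.comp_id _).symm

/-- The map `hocolim p ⟶ K` of a coherent cocone. -/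
def bwd : FL.Hoco p.p ⟶ K.X where
  app a :=
    { app := fun k => ↾ fun (w : FL.HS p.p a k) =>
        (lw e Λ (⟨w.σ, 𝟙 _⟩ : FL.WS (w.σ.obj 0) k.unop)).app a k (𝟙 _) w.x
      naturality := fun m l g => ConcreteCategory.hom_ext _ _ fun (w : FL.HS p.p a m) =>
        lw_nat e Λ g w.σ w.x }
  naturality a b f := by
    refine NatTrans.ext (funext fun k => ConcreteCategory.hom_ext _ _
      fun (w : FL.HS p.p a k) => ?_)
    exact MpS.nat_left (lw e Λ (⟨w.σ, 𝟙 _⟩ : FL.WS (w.σ.obj 0) k.unop)) f k (𝟙 _) w.x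

lemma coneS_bwd {j : J} {k : SimplexCategory} (w : FL.WS j k) :
    FL.coneS (bwd e Λ) w = lw e Λ w := by
  refine MpS.ext ?_
  funext a m t y
  obtain ⟨σ, u⟩ := w
  have h3 := lw_left e Λ (u ≫ σ.zeroTo t)
    (⟨σ.res t, 𝟙 _⟩ : FL.WS ((σ.res t).obj 0) m.unop)
  have h2 := lw_right e Λ t (⟨σ, u⟩ : FL.WS j k)
  have h4 : (FL.WS.res (⟨σ, u⟩ : FL.WS j k) t) =
      ⟨σ.res t, (u ≫ σ.zeroTo t) ≫ 𝟙 _⟩ :=
    congrArg (FL.WS.mk (σ.res t)) (Category.comp_id _).symm
  have h5 := h2.symm.trans ((congrArg (lw e Λ) h4).trans h3)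
  have h6 := congrArg (fun χ : MpS (p.p.obj j) K.X m.unop => χ.app a m (𝟙 _) y) h5
  refine Eq.trans h6.symm ?_
  exact congrArg (fun r => (lw e Λ (⟨σ, u⟩ : FL.WS j k)).app a m r y) (Category.id_comp _)

end Bwd

section Fwd

variable (Λ' : FL.Hoco p.p ⟶ K.X)

lemma coneS_left {j j' : J} (u : j ⟶ j') {k : SimplexCategory} (w : FL.WS j' k) :
    FL.coneS Λ' (⟨w.σ, u ≫ w.u⟩ : FL.WS j k) =
      (MpS.ofHom k (p.p.map u)).comp (FL.coneS Λ' w) := by
  refine MpS.ext ?_
  funext a m t y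
  refine congrArg ((Λ'.app a).app m) (congrArg (FL.HS.mk (FL.Chain.res w.σ t)) ?_)
  refine Eq.trans ?_ (FL.diag_comp p.p u (w.u ≫ FL.Chain.zeroTo w.σ t) y)
  exact congrArg (fun f => ((p.p.map f).app a).app m y)
    (Category.assoc u w.u (FL.Chain.zeroTo w.σ t))

lemma coneS_right {j : J} {k l : SimplexCategory} (α : l ⟶ k) (w : FL.WS j k) :
    FL.coneS Λ' (w.res α) = (FL.coneS Λ' w).res α := by
  refine MpS.ext ?_
  funext a m t y
  refine congrArg ((Λ'.app a).app m) (congrArg (FL.HS.mk (FL.Chain.res w.σ (t ≫ α))) ?_)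
  refine congrArg (fun f => ((p.p.map f).app a).app m y) ?_
  refine (Category.assoc w.u (FL.Chain.zeroTo w.σ α) _).trans ?_
  exact congrArg (w.u ≫ ·) (w.σ.map_comp _ _ _ _ _)

/-- The coherent cocone of a map `hocolim p ⟶ K`. -/
def fwd (e : PSh.Wt J ≅ FL.W J) : PSh.Cocone p K where
  app j :=
    { app := fun k => ↾ fun w =>
        (toMx (X := p.p.obj j.unop) (Y := K.X)
          (FL.coneS Λ' ((e.hom.app j).app k w : FL.WS j.unop k.unop)) :
          (p.at j.unop).Mx K k.unop)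
      naturality := fun k l g => ConcreteCategory.hom_ext _ _ fun w => by
        have h1 : (e.hom.app j).app l (((PSh.Wt J).obj j).map g w) =
            FL.WS.res ((e.hom.app j).app k w : FL.WS j.unop k.unop) g.unop :=
          ConcreteCategory.congr_hom ((e.hom.app j).naturality g) w
        exact congrArg (toMx (X := p.p.obj j.unop) (Y := K.X))
          ((congrArg (FL.coneS Λ') h1).trans
            (coneS_right Λ' g.unop ((e.hom.app j).app k w : FL.WS j.unop k.unop))) }
  naturality j j' f := by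
    refine NatTrans.ext (funext fun k => ConcreteCategory.hom_ext _ _ fun w => ?_)
    have h1 : (e.hom.app j').app k (((PSh.Wt J).map f).app k w) =
        (⟨((e.hom.app j).app k w : FL.WS j.unop k.unop).σ,
          f.unop ≫ ((e.hom.app j).app k w : FL.WS j.unop k.unop).u⟩ :
            FL.WS j'.unop k.unop) :=
      ConcreteCategory.congr_hom (NatTrans.congr_app (e.hom.naturality f) k) w
    exact congrArg (toMx (X := p.p.obj j'.unop) (Y := K.X))
      ((congrArg (FL.coneS Λ') h1).trans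
        (coneS_left Λ' f.unop ((e.hom.app j).app k w : FL.WS j.unop k.unop)))

end Fwd

theorem exists_corr (e : PSh.Wt J ≅ FL.W J) (p : PSh.Diag n J) (K : FLP.CatN n) :
    (∀ Λ : PSh.Cocone p K, ∃ Λ' : FL.Hoco p.p ⟶ K.X, Corr e Λ Λ') ∧
    ∀ Λ' : FL.Hoco p.p ⟶ K.X, ∃ Λ : PSh.Cocone p K, Corr e Λ Λ' := by
  refine ⟨fun Λ => ⟨bwd e Λ, fun j k w => coneS_bwd e Λ w⟩, fun Λ' => ⟨fwd Λ' e, ?_⟩⟩
  intro j k w
  have h1 : (e.hom.app (op j)).app (op k) ((e.inv.app (op j)).app (op k) w) = w :=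
    ConcreteCategory.congr_hom (NatTrans.congr_app (NatTrans.congr_app e.inv_hom_id (op j))
      (op k)) w
  have h2 := ofMx_toMx (X := p.p.obj j) (Y := K.X) (m := k)
    (FL.coneS Λ' ((e.hom.app (op j)).app (op k) ((e.inv.app (op j)).app (op k) w) :
      FL.WS j k))
  exact (congrArg (FL.coneS Λ') h1).symm.trans h2.symm

end

end Pool.Agent.Helper55.FLP
end

/- Helper37.FL2.ExtV -/
section
/-!
# FL2-C1b: the gluing condition for the frames `VFr T`
-/

open CategoryTheory MonoidalCategory Opposite Simplicial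

set_option autoImplicit false

namespace Pool.Agent.Helper37.FL2

open FL Pool.Agent.Helper45.LOC

noncomputable section

section Gen

variable {A : Type} [SmallCategory A] {X : SP A}

theorem locT_sup (hX : InjFib X) {P : SP A} {S T S' T' : Sb P} (hS : LocT X S S')
    (hT : LocT X T T') (hI : LocT X (S ⊓ T) (S' ⊓ T')) : LocT X (S ⊔ T) (S' ⊔ T') := by
  obtain ⟨h1, h1'⟩ := hS
  obtain ⟨h2, h2'⟩ := hT
  obtain ⟨h3, h3'⟩ := hI
  refine ⟨sup_le_sup h1 h2, ?_⟩
  exact loc_restr_sup hX (𝟙 P) S T S' T' (fun a k x hx => h1 a k hx)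
    (fun a k x hx => h2 a k hx) h1' h2' h3'

theorem comap_finset_sup {P Q : SP A} (f : P ⟶ Q) {ι : Type} (s : Finset ι) (g : ι → Sb Q) :
    (s.sup g).comap f = s.sup (fun x => (g x).comap f) :=
  Finset.comp_sup_eq_sup_comp (Sb.comap f) (fun _ _ => rfl) rfl

theorem range_ι {P : SP A} (S : Sb P) : Sb.range S.ι = S := by
  refine Sb.ext (funext fun a => funext fun k => Set.ext fun x => ?_)
  constructor
  · rintro ⟨y, rfl⟩
    exact y.2
  · intro hx
    exact ⟨⟨x, hx⟩, rfl⟩

theorem mono_ι {P : SP A} (S : Sb P) (a : Aᵒᵖ) : Mono (S.ι.app a) := by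
  rw [NatTrans.mono_iff_mono_app]
  intro k
  rw [mono_iff_injective]
  intro x y h
  exact Subtype.ext h

theorem comap_ι_self {P : SP A} (S : Sb P) : S.comap S.ι = ⊤ := by
  refine Sb.ext (funext fun a => funext fun k => Set.ext fun x => ?_)
  exact ⟨fun _ => trivial, fun _ => x.2⟩

theorem range_ofLE {P : SP A} {S T : Sb P} (h : S ≤ T) : Sb.range (Sb.ofLE h) = S.comap T.ι := by
  refine Sb.ext (funext fun a => funext fun k => Set.ext fun x => ?_)
  constructor
  · rintro ⟨y, rfl⟩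
    exact y.2
  · intro hx
    exact ⟨⟨x.1, hx⟩, rfl⟩

end Gen

section VV

variable {C : Type} [SmallCategory C]

/-- The sub-presheaf of `V[m](B)` of all simplices with labels in `L`. -/
def VV {m : ℕ} {B : Fin m → SP C} (L : ∀ j, Sb (B j)) : Sb (V B) where
  mem θ k := fun (u : VS B θ.unop k) =>
    ∀ i j (h : Jump u.f i j), u.g i j h ∈ (L j).mem (op (θ.unop.obj i)) k
  mapA := by
    intro θ θ' φ k u hu i l h
    obtain ⟨j, hj, hj'⟩ := Jump.split (f := Wr.Hom.f φ.unop)
      (g := (show VS B θ.unop k from u).f) h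
    have e := VS.mapθ_g φ.unop (show VS B θ.unop k from u) hj hj'
    have e2 : ((show VS B θ.unop k from u).mapθ φ.unop).g i l h =
      ((B l).map (Wr.Hom.g φ.unop i j hj).op).app k ((show VS B θ.unop k from u).g j l hj') := e
    have e3 := (L l).mapA (Wr.Hom.g φ.unop i j hj).op k _ (hu j l hj')
    rw [← e2] at e3
    exact e3
  mapk := by
    intro θ k l α u hu i j h
    exact (L j).mapk _ α _ (hu i j h)

variable {m : ℕ} {B B' : Fin m → SP C}

theorem VV_inf (L L' : ∀ j, Sb (B j)) : VV (fun j => L j ⊓ L' j) = VV L ⊓ VV L' := by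
  refine Sb.ext (funext fun a => funext fun k => Set.ext fun u => ?_)
  constructor
  · intro h
    exact ⟨fun i j hj => (h i j hj).1, fun i j hj => (h i j hj).2⟩
  · rintro ⟨h1, h2⟩ i j hj
    exact ⟨h1 i j hj, h2 i j hj⟩

theorem VV_mono {L L' : ∀ j, Sb (B j)} (h : ∀ j, L j ≤ L' j) : VV L ≤ VV L' := by
  intro a k u hu i j hj
  exact h j _ _ (hu i j hj)

theorem VV_top : VV (fun j => (⊤ : Sb (B j))) = ⊤ := by
  refine Sb.ext (funext fun a => funext fun k => Set.ext fun u => ?_)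
  exact ⟨fun _ => trivial, fun _ _ _ _ => trivial⟩

theorem comap_VV (p : ∀ j, B' j ⟶ B j) (L : ∀ j, Sb (B j)) :
    (VV L).comap (V.map p) = VV (fun j => (L j).comap (p j)) := rfl

theorem comap_vface (p : ∀ j, B' j ⟶ B j) (U : Finset (Fin (m + 1))) :
    (vface B U).comap (V.map p) = vface B' U := rfl

theorem range_Vmap (p : ∀ j, B' j ⟶ B j) :
    Sb.range (V.map p) = VV (fun j => Sb.range (p j)) := by
  refine Sb.ext (funext fun a => funext fun k => Set.ext fun u => ?_)
  constructor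
  · rintro ⟨y, rfl⟩ i j h
    exact ⟨(show VS B' a.unop k from y).g i j h, rfl⟩
  · intro hu
    refine ⟨(show ((V B').obj a).obj k from
      ({ f := (show VS B a.unop k from u).f, g := fun i j h => (hu i j h).choose } :
        VS B' a.unop k)), ?_⟩
    exact VS.ext' (v := (show VS B a.unop k from u)) rfl fun i j h h' => (hu i j h).choose_spec

theorem mono_Vmap (p : ∀ j, B' j ⟶ B j) (hp : ∀ j a, Mono ((p j).app a)) (a : (Wr C)ᵒᵖ) :
    Mono ((V.map p).app a) := by
  rw [NatTrans.mono_iff_mono_app]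
  intro k
  rw [mono_iff_injective]
  intro (u : VS B' a.unop k) (v : VS B' a.unop k) e
  have hf : u.f = v.f := congrArg (fun w : VS B a.unop k => w.f) e
  refine VS.ext' hf fun i j h h' => ?_
  have h1 := InV.vs_g_congr (u := u.push p) (v := v.push p) e i j h h'
  have h2 : Mono (((p j).app (op (a.unop.obj i))).app k) :=
    (NatTrans.mono_iff_mono_app _).1 (hp j (op (a.unop.obj i))) k
  exact (mono_iff_injective _).1 h2 h1

theorem comap_spineL (p : ∀ j, B' j ⟶ B j) :
    (spineL (vface B) Finset.univ).comap (V.map p) = spineL (vface B') Finset.univ := by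
  unfold spineL
  have h : ∀ S T : Sb (V B), (S ⊔ T).comap (V.map p) = S.comap (V.map p) ⊔ T.comap (V.map p) :=
    fun _ _ => rfl
  rw [h, comap_finset_sup, comap_finset_sup]
  rfl

variable {X : SP (Wr C)}

/-- The statement of H3. -/
def SpHyp (X : SP (Wr C)) : Prop := ∀ {m : ℕ} (B : Fin m → SP C),
  LocT X (spineL (vface B) Finset.univ) ⊤

theorem spine_VV (hsp : SpHyp X) (L : ∀ j, Sb (B j)) :
    LocT X (VV L ⊓ spineL (vface B) Finset.univ) (VV L) := by
  have hr : Sb.range (V.map fun j => (L j).ι) = VV L := by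
    rw [range_Vmap]
    congr 1
    funext j
    exact range_ι (L j)
  refine (locT_comap (V.map fun j => (L j).ι) (mono_Vmap _ fun j => mono_ι (L j)) _ _ inf_le_left
    (le_of_eq hr.symm)).1 ?_
  have h1 : (VV L).comap (V.map fun j => (L j).ι) = ⊤ := by
    rw [comap_VV]
    refine Eq.trans ?_ VV_top
    congr 1
    funext j
    exact comap_ι_self (L j)
  have h2 : (VV L ⊓ spineL (vface B) Finset.univ).comap (V.map fun j => (L j).ι) =
      (VV L).comap (V.map fun j => (L j).ι) ⊓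
        (spineL (vface B) Finset.univ).comap (V.map fun j => (L j).ι) := rfl
  rw [h2, h1, comap_spineL, top_inf_eq]
  exact hsp _

end VV

section Edge

variable {C : Type} [SmallCategory C] {X : SP (Wr C)}

theorem cn_refl (K : SSet.{0}) (x : K.obj (op ⦋0⦌)) : Cn K x x :=
  ⟨cst K x (op ⦋1⦌), (cst_map K x _).trans (cst_zero K x), (cst_map K x _).trans (cst_zero K x)⟩

/-- Suspensions of local inclusions. -/
theorem locT_V1 (hX : InjFib X) {B : SP C} {S T : Sb B} (h : S ≤ T)
    (hl : ∀ x y : Vt X, LocT (Hm X x y) S T) :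
    LocT X (VV (B := fun _ : Fin 1 => B) fun _ => S) (VV (B := fun _ : Fin 1 => B) fun _ => T) := by
  have hr : Sb.range (V1map T.ι) = VV (B := fun _ : Fin 1 => B) fun _ => T := by
    rw [range_Vmap]
    congr 1
    funext j
    exact range_ι T
  refine (locT_comap (V1map T.ι) (mono_Vmap _ fun j => mono_ι T) _ _ (VV_mono fun _ => h)
    (le_of_eq hr.symm)).1 ?_
  have h1 : (VV (B := fun _ : Fin 1 => B) fun _ => T).comap (V1map T.ι) = ⊤ := by
    rw [comap_VV]
    refine Eq.trans ?_ VV_top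
    congr 1
    funext j
    exact comap_ι_self T
  have h2 : (VV (B := fun _ : Fin 1 => B) fun _ => S).comap (V1map T.ι) =
      Sb.range (V1map (Sb.ofLE h)) := by
    rw [comap_VV, range_Vmap]
    congr 1
    funext j
    exact (range_ofLE h).symm
  rw [h1, h2]
  refine (loc_iff_range (V1map (Sb.ofLE h)) (mono_Vmap _ fun j => mono_ofLE h)).1 ?_
  refine (Helper53FL2.loc_V1map_iff hX (Sb.ofLE h) Set.univ
    fun z => ⟨z, trivial, cn_refl _ z⟩).2 ?_
  intro x _ y _
  exact (hl x y).2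

theorem VV_sup_one {B : SP C} (S S' : Sb B) :
    (VV (B := fun _ : Fin 1 => B) fun _ => S ⊔ S') =
      (VV (B := fun _ : Fin 1 => B) fun _ => S) ⊔ (VV (B := fun _ : Fin 1 => B) fun _ => S') := by
  refine le_antisymm ?_ (sup_le (VV_mono fun _ => le_sup_left) (VV_mono fun _ => le_sup_right))
  intro θ k (u : VS (fun _ : Fin 1 => B) θ.unop k) hu
  by_cases hc : ∃ i, Jump u.f i 0
  · obtain ⟨i, hi⟩ := hc
    have key : ∀ i' (j : Fin 1) (h : Jump u.f i' j), i' = i ∧ j = 0 := by
      intro i' j h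
      obtain rfl : j = 0 := Subsingleton.elim _ _
      exact ⟨h.unique hi, rfl⟩
    rcases hu i 0 hi with h | h
    · refine Or.inl fun i' j h' => ?_
      obtain ⟨rfl, rfl⟩ := key i' j h'
      exact h
    · refine Or.inr fun i' j h' => ?_
      obtain ⟨rfl, rfl⟩ := key i' j h'
      exact h
  · refine Or.inl fun i' j h' => ?_
    obtain rfl : j = 0 := Subsingleton.elim _ _
    exact (hc ⟨i', h'⟩).elim

variable {m : ℕ} (B : Fin m → SP C) (i : Fin m)

/-- The inclusion of the edge `i`. -/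
def pE : Fin (1 + 1) →o Fin (m + 1) :=
  ⟨fun t => ⟨i.val + t.val, by have := i.isLt; have := t.isLt; omega⟩, fun s t h => by
    rw [Fin.le_def] at h ⊢
    simp only
    omega⟩

theorem pE_jump {j : Fin 1} {k : Fin m} (h : Jump (pE i) j k) : i = k := by
  obtain rfl : j = 0 := Subsingleton.elim _ _
  have h1 : i.val + 0 ≤ k.val := h.1
  have h2 : k.val + 1 ≤ i.val + 1 := h.2
  exact Fin.ext (by omega)

theorem pE_jump' : Jump (pE i) 0 i := by
  constructor
  · exact le_of_eq (Fin.ext (by simp [pE]))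
  · exact le_of_eq (Fin.ext (by simp [pE]))

/-- The components of the inclusion of the edge `i`. -/
def qE : ∀ (j : Fin 1) (k : Fin m), Jump (pE i) j k → (B i ⟶ B k) :=
  fun _ _ h => eqToHom (congrArg B (pE_jump i h))

theorem inV_edge : InV (X := fun _ : Fin 1 => B i) (Y := B) (pE i) (qE B i) i.val where
  f t := rfl
  g j k h c l := by
    have : IsIso ((((qE B i j k h)).app c).app l) := by
      unfold qE
      infer_instance
    exact (isIso_iff_bijective _).mp this

theorem comap_edge (L : ∀ j, Sb (B j)) :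
    (VV L).comap (V.mapW (X := fun _ : Fin 1 => B i) (Y := B) (pE i) (qE B i)) =
      VV (B := fun _ : Fin 1 => B i) fun _ => L i := by
  refine Sb.ext (funext fun θ => funext fun k => Set.ext fun u => ?_)
  constructor
  · intro hu i' j h
    obtain rfl : j = 0 := Subsingleton.elim _ _
    have h1 := hu i' i (h.comp (pE_jump' i))
    have e := VS.pushW_g (pE i) (qE B i) (show VS (fun _ : Fin 1 => B i) θ.unop k from u) h
      (pE_jump' i)
    have h2 : ((show VS (fun _ : Fin 1 => B i) θ.unop k from u).pushW (pE i) (qE B i)).g i' i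
      (h.comp (pE_jump' i)) ∈ (L i).mem (op (θ.unop.obj i')) k := h1
    rw [e] at h2
    exact h2
  · intro hu i' l h
    obtain ⟨j, hj, hj'⟩ := Jump.split
      (f := (show VS (fun _ : Fin 1 => B i) θ.unop k from u).f) (g := pE i) h
    obtain rfl : i = l := pE_jump i hj'
    have e := VS.pushW_g (pE i) (qE B i) (show VS (fun _ : Fin 1 => B i) θ.unop k from u) hj hj'
    have h2 := hu i' j hj
    change ((show VS (fun _ : Fin 1 => B i) θ.unop k from u).pushW (pE i) (qE B i)).g i' i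
      (hj.comp hj') ∈ (L i).mem (op (θ.unop.obj i')) k
    rw [e]
    exact h2

theorem range_edge :
    Sb.range (V.mapW (X := fun _ : Fin 1 => B i) (Y := B) (pE i) (qE B i)) =
      vface B {i.castSucc, i.succ} := by
  refine Sb.ext (funext fun θ => funext fun k => Set.ext fun u => ?_)
  refine ((inV_edge B i).mem_range θ k u).trans ?_
  refine forall_congr' fun t => ?_
  rw [Finset.mem_insert, Finset.mem_singleton, Fin.ext_iff, Fin.ext_iff, Fin.val_castSucc,
    Fin.val_succ]
  omega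

variable {B}

/-- The gluing condition on one edge. -/
theorem D_edge (hX : InjFib X) (L L' L'' : ∀ j, Sb (B j)) (h : ∀ j, L j ⊔ L' j ≤ L'' j)
    (hl : ∀ j (x y : Vt X), LocT (Hm X x y) (L j ⊔ L' j) (L'' j)) :
    LocT X ((VV L ⊔ VV L') ⊓ vface B {i.castSucc, i.succ})
      (VV L'' ⊓ vface B {i.castSucc, i.succ}) := by
  have hle : VV L ⊔ VV L' ≤ VV L'' :=
    sup_le (VV_mono fun j => le_sup_left.trans (h j)) (VV_mono fun j => le_sup_right.trans (h j))
  rw [← range_edge B i]
  refine (locT_comap (V.mapW (X := fun _ : Fin 1 => B i) (Y := B) (pE i) (qE B i))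
    (inV_edge B i).mono _ _ (inf_le_inf_right _ hle) inf_le_right).1 ?_
  have hr : (Sb.range (V.mapW (X := fun _ : Fin 1 => B i) (Y := B) (pE i) (qE B i))).comap
      (V.mapW (X := fun _ : Fin 1 => B i) (Y := B) (pE i) (qE B i)) = ⊤ := by
    refine Sb.ext (funext fun a => funext fun k => Set.ext fun x => ?_)
    exact ⟨fun _ => trivial, fun _ => ⟨x, rfl⟩⟩
  have h1 : ∀ S : Sb (V B), (S ⊓ Sb.range (V.mapW (X := fun _ : Fin 1 => B i) (Y := B) (pE i)
      (qE B i))).comap (V.mapW (X := fun _ : Fin 1 => B i) (Y := B) (pE i) (qE B i)) =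
      S.comap (V.mapW (X := fun _ : Fin 1 => B i) (Y := B) (pE i) (qE B i)) := by
    intro S
    refine Eq.trans ?_ (inf_top_eq _)
    rw [← hr]
    rfl
  have h2 : (VV L ⊔ VV L').comap (V.mapW (X := fun _ : Fin 1 => B i) (Y := B) (pE i) (qE B i)) =
      (VV L).comap (V.mapW (X := fun _ : Fin 1 => B i) (Y := B) (pE i) (qE B i)) ⊔
      (VV L').comap (V.mapW (X := fun _ : Fin 1 => B i) (Y := B) (pE i) (qE B i)) := rfl
  rw [h1, h1, h2, comap_edge, comap_edge, comap_edge, ← VV_sup_one]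
  exact locT_V1 hX (h i) (hl i)

end Edge

section Main

variable {C : Type} [SmallCategory C] {X : SP (Wr C)} {m : ℕ} {B : Fin m → SP C}

theorem vface_vertex_le (L : ∀ j, Sb (B j)) :
    (Finset.univ.sup fun a : Fin (m + 1) => vface B {a}) ≤ VV L := by
  refine Finset.sup_le fun a _ => ?_
  intro θ k (u : VS B θ.unop k) hu i l h
  exfalso
  have h3 : l.succ ≤ u.f i.succ := h.2
  have h4 : u.f i.castSucc ≤ l.castSucc := h.1
  have h5 : u.f i.succ = a := Finset.mem_singleton.1 (hu i.succ)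
  have h6 : u.f i.castSucc = a := Finset.mem_singleton.1 (hu i.castSucc)
  rw [h5] at h3
  rw [h6] at h4
  exact lt_irrefl _ ((h4.trans_lt Fin.castSucc_lt_succ).trans_le h3)

/-- The gluing condition on the spine. -/
theorem D_spine (hX : InjFib X) (L L' L'' : ∀ j, Sb (B j)) (h : ∀ j, L j ⊔ L' j ≤ L'' j)
    (hl : ∀ j (x y : Vt X), LocT (Hm X x y) (L j ⊔ L' j) (L'' j)) :
    LocT X ((VV L ⊔ VV L') ⊓ spineL (vface B) Finset.univ)
      (VV L'' ⊓ spineL (vface B) Finset.univ) := by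
  classical
  set W : Sb (V B) := Finset.univ.sup fun a : Fin (m + 1) => vface B {a} with hW
  have hsmall : ∀ K : Sb (V B), K ≤ W → LocT X ((VV L ⊔ VV L') ⊓ K) (VV L'' ⊓ K) := by
    intro K hK
    have e1 : (VV L ⊔ VV L') ⊓ K = K :=
      inf_eq_right.2 ((hK.trans (vface_vertex_le L)).trans le_sup_left)
    have e2 : VV L'' ⊓ K = K := inf_eq_right.2 (hK.trans (vface_vertex_le L''))
    rw [e1, e2]
    exact locT_refl K
  have hglue : ∀ K K' : Sb (V B), LocT X ((VV L ⊔ VV L') ⊓ K) (VV L'' ⊓ K) →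
      LocT X ((VV L ⊔ VV L') ⊓ K') (VV L'' ⊓ K') →
      LocT X ((VV L ⊔ VV L') ⊓ (K ⊓ K')) (VV L'' ⊓ (K ⊓ K')) →
      LocT X ((VV L ⊔ VV L') ⊓ (K ⊔ K')) (VV L'' ⊓ (K ⊔ K')) := by
    intro K K' h1 h2 h3
    rw [inf_sup_left, inf_sup_left (VV L'')]
    refine locT_sup hX h1 h2 ?_
    rw [← inf_inf_distrib_left, ← inf_inf_distrib_left]
    exact h3
  have main : ∀ Q : Finset (Fin (m + 1) × Fin (m + 1)),
      (∀ p ∈ Q, p.1 < p.2 ∧ ∀ c ∈ (Finset.univ : Finset (Fin (m + 1))), ¬ (p.1 < c ∧ c < p.2)) →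
      LocT X ((VV L ⊔ VV L') ⊓ (W ⊔ Q.sup fun p => vface B {p.1, p.2}))
        (VV L'' ⊓ (W ⊔ Q.sup fun p => vface B {p.1, p.2})) := by
    have cons : ∀ p : Fin (m + 1) × Fin (m + 1), (p.1 < p.2 ∧
        ∀ c ∈ (Finset.univ : Finset (Fin (m + 1))), ¬ (p.1 < c ∧ c < p.2)) →
        p.2.val = p.1.val + 1 := by
      rintro ⟨a, b⟩ ⟨h1, h2⟩
      have h1' : a.val < b.val := h1
      have h3 := h2 ⟨a.val + 1, by
        have := b.isLt
        omega⟩ (Finset.mem_univ _)
      have h3' : ¬ (a.val < a.val + 1 ∧ a.val + 1 < b.val) := h3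
      show b.val = a.val + 1
      omega
    intro Q
    induction Q using Finset.induction_on with
    | empty =>
      intro _
      rw [Finset.sup_empty, sup_bot_eq]
      exact hsmall W le_rfl
    | insert p Q hp ih =>
      intro hQ
      have ihQ := ih fun q hq => hQ q (Finset.mem_insert_of_mem hq)
      have hpc := cons p (hQ p (Finset.mem_insert_self _ _))
      rw [Finset.sup_insert, sup_comm (vface B {p.1, p.2}), ← sup_assoc]
      refine hglue _ _ ihQ ?_ ?_
      · have hlt : p.1.val < m := by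
          have := p.2.isLt
          omega
        have e1 : p.1 = (⟨p.1.val, hlt⟩ : Fin m).castSucc := rfl
        have e2 : p.2 = (⟨p.1.val, hlt⟩ : Fin m).succ := Fin.ext hpc
        have e3 : vface B {p.1, p.2} = vface B {(⟨p.1.val, hlt⟩ : Fin m).castSucc,
            (⟨p.1.val, hlt⟩ : Fin m).succ} := by
          rw [e2]
          rfl
        rw [e3]
        exact D_edge ⟨p.1.val, hlt⟩ hX L L' L'' h hl
      · refine hsmall _ ?_
        rw [inf_sup_right]
        refine sup_le inf_le_left ?_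
        rw [Finset.sup_inf_distrib_right]
        refine Finset.sup_le fun q hq => ?_
        have hqc := cons q (hQ q (Finset.mem_insert_of_mem hq))
        have hne : q.1.val ≠ p.1.val := by
          intro e
          refine hp ?_
          have : q = p := Prod.ext (Fin.ext e) (Fin.ext (by omega))
          rw [← this]
          exact hq
        intro θ k (u : VS B θ.unop k) hu
        have hu1 : ∀ t, u.f t ∈ ({q.1, q.2} : Finset _) := hu.1
        have hu2 : ∀ t, u.f t ∈ ({p.1, p.2} : Finset _) := hu.2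
        have key : ∀ t, u.f t = u.f 0 := by
          intro t
          have a1 := hu1 t
          have a2 := hu2 t
          have a3 := hu1 0
          have a4 := hu2 0
          rw [Finset.mem_insert, Finset.mem_singleton, Fin.ext_iff, Fin.ext_iff] at a1 a2 a3 a4
          refine Fin.ext ?_
          omega
        have h1 : vface B {u.f 0} ≤ W :=
          Finset.le_sup (f := fun a : Fin (m + 1) => vface B {a}) (Finset.mem_univ (u.f 0))
        exact h1 θ k (show u ∈ (vface B {u.f 0}).mem θ k from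
          fun t => Finset.mem_singleton.2 (key t))
  exact main _ fun p hp => (Finset.mem_filter.1 hp).2

/-- The gluing lemma for sub-presheaves of labels. -/
theorem locT_VV (hX : InjFib X) (hsp : SpHyp X) (L L' L'' : ∀ j, Sb (B j))
    (h : ∀ j, L j ⊔ L' j ≤ L'' j)
    (hl : ∀ j (x y : Vt X), LocT (Hm X x y) (L j ⊔ L' j) (L'' j)) :
    LocT X (VV L ⊔ VV L') (VV L'') := by
  have hle : VV L ⊔ VV L' ≤ VV L'' :=
    sup_le (VV_mono fun j => le_sup_left.trans (h j)) (VV_mono fun j => le_sup_right.trans (h j))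
  have h1 := D_spine hX L L' L'' h hl
  have h2 := spine_VV hsp L''
  have h3 := locT_trans hX h1 h2
  have h4 : LocT X ((VV L ⊔ VV L') ⊓ spineL (vface B) Finset.univ) (VV L ⊔ VV L') := by
    rw [inf_sup_right]
    refine locT_sup hX (spine_VV hsp L) (spine_VV hsp L') ?_
    rw [← inf_inf_distrib_right, ← VV_inf]
    exact spine_VV hsp _
  exact locT_cancel hX h4 h3 hle

end Main

section Ext

variable {C : Type} [SmallCategory C] {X : SP (Wr C)}

theorem fface_mono {A : Type} [SmallCategory A] (F : SimplexCategory ⥤ SP A) {N : SimplexCategory}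
    {U U' : Finset (Fin (N.len + 1))} (h : U ⊆ U') : fface F U ≤ fface F U' := by
  rintro a k x ⟨m, α, y, hα, rfl⟩
  exact ⟨m, α, y, fun i => h (hα i), rfl⟩

/-- Simplices supported on `U` come from the inclusion of `U`. -/
theorem supp_emb {A : Type} [SmallCategory A] (F : SimplexCategory ⥤ SP A) {N : SimplexCategory}
    {U : Finset (Fin (N.len + 1))} {n : ℕ} (hn : U.card = n + 1) {a : Aᵒᵖ}
    {k : SimplexCategoryᵒᵖ} {x : ((F.obj N).obj a).obj k} (h : Supp F U x) :
    ∃ y : ((F.obj ⦋n⦌).obj a).obj k,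
      ((F.map (SimplexCategory.Hom.mk (U.orderEmbOfFin hn).toOrderHom : ⦋n⦌ ⟶ N)).app a).app k y =
        x := by
  obtain ⟨m, α, y, hα, rfl⟩ := h
  let β : m ⟶ ⦋n⦌ := SimplexCategory.Hom.mk
    ⟨fun t => (U.orderIsoOfFin hn).symm ⟨α.toOrderHom t, hα t⟩, fun s t hst => by
      rw [OrderIso.le_iff_le]
      exact α.toOrderHom.monotone hst⟩
  refine ⟨((F.map β).app a).app k y, ?_⟩
  refine (cos_comp F β _ y).symm.trans ?_
  have e : β ≫ (SimplexCategory.Hom.mk (U.orderEmbOfFin hn).toOrderHom : ⦋n⦌ ⟶ N) = α := by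
    ext t : 3
    change (U.orderEmbOfFin hn) ((U.orderIsoOfFin hn).symm ⟨α.toOrderHom t, hα t⟩) =
      α.toOrderHom t
    rw [← Finset.coe_orderIsoOfFin_apply, OrderIso.apply_symm_apply]
  rw [e]

theorem fface_VFr (T : Fr C) (θ : Wr C) {N : SimplexCategory} {U : Finset (Fin (N.len + 1))}
    (hU : U.Nonempty) :
    fface ((VFr T).obj θ) U =
      VV (B := fun j => (T.obj (θ.obj j)).obj N) fun j => fface (T.obj (θ.obj j)) U := by
  obtain ⟨n, hn⟩ : ∃ n, U.card = n + 1 :=
    ⟨U.card - 1, by have := Finset.card_pos.2 hU; omega⟩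
  refine Sb.ext (funext fun η => funext fun k => Set.ext fun u => ?_)
  constructor
  · rintro ⟨m, α, y, hα, rfl⟩ i j h
    exact ⟨m, α, (show VS (fun j => (T.obj (θ.obj j)).obj m) η.unop k from y).g i j h, hα, rfl⟩
  · intro hu
    refine ⟨⦋n⦌, SimplexCategory.Hom.mk (U.orderEmbOfFin hn).toOrderHom,
      (show (((((VFr T).obj θ).obj ⦋n⦌)).obj η).obj k from
        ({ f := (show VS (fun j => (T.obj (θ.obj j)).obj N) η.unop k from u).f
           g := fun i j h => (supp_emb (T.obj (θ.obj j)) hn (hu i j h)).choose } :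
          VS (fun j => (T.obj (θ.obj j)).obj ⦋n⦌) η.unop k)), ?_, ?_⟩
    · intro i
      exact Finset.orderEmbOfFin_mem U hn i
    · exact VS.ext' (v := (show VS (fun j => (T.obj (θ.obj j)).obj N) η.unop k from u)) rfl
        fun i j h h' => (supp_emb (T.obj (θ.obj j)) hn (hu i j h)).choose_spec

/-- The gluing condition for `VFr T`. -/
theorem ext_VFr (hX : InjFib X) (hsp : SpHyp X) (T : Fr C)
    (hT : ∀ (x y : Vt X) (c : C), Ext (Hm X x y) (T.obj c)) (θ : Wr C) :
    Ext X ((VFr T).obj θ) := by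
  intro N S S' v hv
  have hvS : v ∈ S ∧ v ∈ S' := Finset.mem_inter.1 (hv ▸ Finset.mem_singleton_self v)
  rw [fface_VFr T θ ⟨v, hvS.1⟩, fface_VFr T θ ⟨v, hvS.2⟩,
    fface_VFr T θ ⟨v, Finset.mem_union_left _ hvS.1⟩]
  exact locT_VV hX hsp _ _ _
    (fun j => sup_le (fface_mono _ Finset.subset_union_left)
      (fface_mono _ Finset.subset_union_right))
    (fun j x y => hT x y (θ.obj j) N S S' v hv)

end Ext

end

end Pool.Agent.Helper37.FL2
end

/- Helper43.FL2.Transfer -/
section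
/-!
# Module FL2-H4: inner anodyne extensions induce local maps
-/

open CategoryTheory MonoidalCategory Opposite

set_option autoImplicit false

namespace Pool.Agent.Helper43.FL2

open FL

noncomputable section

variable {C : Type} [SmallCategory C]

/-- The element of `V[r](B)` attached to an element of its pullback. -/
@[simps]
def toVS {r : ℕ} {B : Fin r → SP C} {N : SSet.{0}}
    {s : N ⟶ SSet.stdSimplex.obj (SimplexCategory.mk r)} {θ : Wr C} {k : SimplexCategoryᵒᵖ}
    (u : PhS B s θ k) : VS B θ k where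
  f := sh s u.x
  g := u.g

/-- Elements of the pullback. -/
@[simps]
def mkPh {r : ℕ} {B : Fin r → SP C} {N : SSet.{0}}
    {s : N ⟶ SSet.stdSimplex.obj (SimplexCategory.mk r)} {θ : Wr C} {k : SimplexCategoryᵒᵖ}
    (x : N.obj (op (SimplexCategory.mk θ.len))) (v : VS B θ k) (h : v.f = sh s x) :
    PhS B s θ k where
  x := x
  g i j hij := v.g i j (h ▸ hij)

lemma toVS_mapk {r : ℕ} {B : Fin r → SP C} {N : SSet.{0}}
    {s : N ⟶ SSet.stdSimplex.obj (SimplexCategory.mk r)} {θ : Wr C} {k l : SimplexCategoryᵒᵖ}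
    (α : k ⟶ l) (u : PhS B s θ k) : toVS (u.mapk α) = (toVS u).mapk α := rfl

lemma toVS_mapθ {r : ℕ} {B : Fin r → SP C} {N : SSet.{0}}
    {s : N ⟶ SSet.stdSimplex.obj (SimplexCategory.mk r)} {θ θ' : Wr C}
    {k : SimplexCategoryᵒᵖ} (φ : θ' ⟶ θ) (u : PhS B s θ k) :
    toVS (u.mapθ φ) = (toVS u).mapθ φ := by
  refine VS.ext' (sh_map s (Wr.Hom.f φ) u.x) fun i l h h' => ?_
  obtain ⟨j, hj, hj'⟩ := Jump.split (f := Wr.Hom.f φ) (g := sh s u.x) h'
  refine (PhS.mapθ_g φ u hj hj' h).trans ?_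
  exact (VS.mapθ_g φ (toVS u) hj hj').symm

lemma mkPh_mapk {r : ℕ} {B : Fin r → SP C} {N : SSet.{0}}
    {s : N ⟶ SSet.stdSimplex.obj (SimplexCategory.mk r)} {θ : Wr C} {k l : SimplexCategoryᵒᵖ}
    (α : k ⟶ l) (x : N.obj (op (SimplexCategory.mk θ.len))) (v : VS B θ k) (h : v.f = sh s x) :
    (mkPh x v h).mapk α = mkPh x (v.mapk α) h := rfl

lemma mkPh_mapθ {r : ℕ} {B : Fin r → SP C} {N : SSet.{0}}
    {s : N ⟶ SSet.stdSimplex.obj (SimplexCategory.mk r)} {θ θ' : Wr C}
    {k : SimplexCategoryᵒᵖ} (φ : θ' ⟶ θ) (x : N.obj (op (SimplexCategory.mk θ.len)))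
    (v : VS B θ k) (h : v.f = sh s x)
    (h' : (v.mapθ φ).f = sh s (N.map ((kap C).map φ).op x)) :
    (mkPh x v h).mapθ φ = mkPh (N.map ((kap C).map φ).op x) (v.mapθ φ) h' := by
  refine PhS.ext' rfl fun i l h1 h2 => ?_
  obtain ⟨f, g⟩ := v
  obtain rfl : f = sh s x := h
  obtain ⟨j, hj, hj'⟩ := Jump.split (f := Wr.Hom.f φ) (g := sh s x)
    (PhS.jump_aux φ x h1)
  refine (PhS.mapθ_g φ _ hj hj' h1).trans ?_
  exact (VS.mapθ_g φ (⟨sh s x, g⟩ : VS B θ k) hj hj').symm

lemma mkPh_congr {r : ℕ} {B : Fin r → SP C} {N : SSet.{0}}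
    {s : N ⟶ SSet.stdSimplex.obj (SimplexCategory.mk r)} {θ : Wr C} {k : SimplexCategoryᵒᵖ}
    {x x' : N.obj (op (SimplexCategory.mk θ.len))} (hx : x = x') (v : VS B θ k)
    (h : v.f = sh s x) (h' : v.f = sh s x') : mkPh x v h = mkPh x' v h' := by
  subst hx
  rfl

/-- Restriction of simplices along an order preserving map. -/
abbrev rs (N : SSet.{0}) {m m' : ℕ} (α : Fin (m' + 1) →o Fin (m + 1))
    (x : N.obj (op (SimplexCategory.mk m))) : N.obj (op (SimplexCategory.mk m')) :=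
  N.map (Quiver.Hom.op (SimplexCategory.Hom.mk α :
    SimplexCategory.mk m' ⟶ SimplexCategory.mk m)) x

lemma rs_rs (N : SSet.{0}) {m m' m'' : ℕ} (α : Fin (m' + 1) →o Fin (m + 1))
    (β : Fin (m'' + 1) →o Fin (m' + 1)) (x : N.obj (op (SimplexCategory.mk m))) :
    rs N β (rs N α x) = rs N (α.comp β) x :=
  (sset_comp N (Quiver.Hom.op (SimplexCategory.Hom.mk α :
    SimplexCategory.mk m' ⟶ SimplexCategory.mk m)) (Quiver.Hom.op (SimplexCategory.Hom.mk β :
    SimplexCategory.mk m'' ⟶ SimplexCategory.mk m')) x).symm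

/-! ### The simplicial set of partial maps -/

section ES

variable {r : ℕ} (B : Fin r → SP C) (X : SP (Wr C)) (K : SSet.{0})

/-- An `m`-simplex: an `m`-simplex `σ` of `Δ[r]` and a map `Ph B σ ⊗ K ⟶ X`, written out. -/
structure ES (m : ℕ) : Type where
  σ : Fin (m + 1) →o Fin (r + 1)
  φ : ∀ (θ : Wr C) (l : SimplexCategoryᵒᵖ) (_ : K.obj l) (α : Fin (θ.len + 1) →o Fin (m + 1))
    (v : VS B θ l), v.f = σ.comp α → (X.obj (op θ)).obj l
  natθ : ∀ {θ θ' : Wr C} (g : θ' ⟶ θ) (l : SimplexCategoryᵒᵖ) (κ : K.obj l)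
    (α : Fin (θ.len + 1) →o Fin (m + 1)) (v : VS B θ l) (h : v.f = σ.comp α)
    (h' : (v.mapθ g).f = σ.comp (α.comp (Wr.Hom.f g))),
    φ θ' l κ (α.comp (Wr.Hom.f g)) (v.mapθ g) h' = (X.map g.op).app l (φ θ l κ α v h)
  natk : ∀ (θ : Wr C) {l l' : SimplexCategoryᵒᵖ} (β : l ⟶ l') (κ : K.obj l)
    (α : Fin (θ.len + 1) →o Fin (m + 1)) (v : VS B θ l) (h : v.f = σ.comp α),
    φ θ l' (K.map β κ) α (v.mapk β) h = (X.obj (op θ)).map β (φ θ l κ α v h)

variable {B X K}

theorem ES.ext' {m : ℕ} {a b : ES B X K m} (h : a.σ = b.σ)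
    (h' : ∀ θ l κ α v (h1 : v.f = a.σ.comp α) (h2 : v.f = b.σ.comp α),
      a.φ θ l κ α v h1 = b.φ θ l κ α v h2) : a = b := by
  obtain ⟨σ, φ, _, _⟩ := a
  obtain ⟨σ', φ', _, _⟩ := b
  obtain rfl : σ = σ' := h
  congr 1
  funext θ l κ α v h
  exact h' θ l κ α v h h

theorem ES.φ_congr {m : ℕ} {a b : ES B X K m} (h : a = b) {θ : Wr C} {l : SimplexCategoryᵒᵖ}
    {κ : K.obj l} {α : Fin (θ.len + 1) →o Fin (m + 1)} {v v' : VS B θ l} (hv : v = v')
    (h1 : v.f = a.σ.comp α) (h2 : v'.f = b.σ.comp α) :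
    a.φ θ l κ α v h1 = b.φ θ l κ α v' h2 := by
  subst h hv
  rfl

/-- Restriction. -/
@[simps]
def ES.res {m m' : ℕ} (a : ES B X K m) (β : Fin (m' + 1) →o Fin (m + 1)) : ES B X K m' where
  σ := a.σ.comp β
  φ θ l κ α v h := a.φ θ l κ (β.comp α) v h
  natθ g l κ α v h h' := a.natθ g l κ (β.comp α) v h h'
  natk θ _ _ γ κ α v h := a.natk θ γ κ (β.comp α) v h

variable (B X K)

/-- The simplicial set `E_K`. -/
def EE : SSet.{0} where
  obj m := ES B X K m.unop.len
  map α := ↾ fun a => a.res α.unop.toOrderHom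
  map_id _ := rfl
  map_comp _ _ := rfl

/-- The projection to `Δ[r]`. -/
def EEpr : EE B X K ⟶ SSet.stdSimplex.obj (SimplexCategory.mk r) where
  app _ := ↾ fun a => SSet.stdSimplex.objEquiv.symm (SimplexCategory.Hom.mk (ES.σ a))
  naturality _ _ _ := rfl

variable {K}

/-- Functoriality in `K`. -/
def EEres {L : SSet.{0}} (j : K ⟶ L) : EE B X L ⟶ EE B X K where
  app m := ↾ fun (a : ES B X L m.unop.len) =>
    ({ σ := a.σ
       φ := fun θ l κ α v h => a.φ θ l (j.app l κ) α v h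
       natθ := fun g l κ α v h h' => a.natθ g l (j.app l κ) α v h h'
       natk := fun θ {l l'} β κ α v h => by
        refine Eq.trans ?_ (a.natk θ β (j.app l κ) α v h)
        exact congrArg (fun t => a.φ θ l' t α (v.mapk β) h) (sset_nat j β κ) } :
      ES B X K m.unop.len)
  naturality _ _ _ := rfl

theorem EEres_pr {L : SSet.{0}} (j : K ⟶ L) : EEres B X j ≫ EEpr B X K = EEpr B X L := rfl

variable {B X}

/-- The value of `toE` on a simplex. -/
@[simps]
def toES {N : SSet.{0}} {s : N ⟶ SSet.stdSimplex.obj (SimplexCategory.mk r)}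
    (f : tn (Ph B s) K ⟶ X) {m : ℕ} (x : N.obj (op (SimplexCategory.mk m))) : ES B X K m where
  σ := sh s x
  φ θ l κ α v h := (f.app (op θ)).app l
    (mkPh (s := s) (rs N α x) v (h.trans (sh_map s α x).symm), κ)
  natθ {θ θ'} g l κ α v h h' := by
    have h1 : v.f = sh s (rs N α x) := h.trans (sh_map s α x).symm
    have h2 : (v.mapθ g).f = sh s (rs N (Wr.Hom.f g) (rs N α x)) := by
      refine h'.trans (Eq.trans ?_ (sh_map s (Wr.Hom.f g) (rs N α x)).symm)
      exact (congrArg (fun t => OrderHom.comp t (Wr.Hom.f g)) (sh_map s α x)).symm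
    refine Eq.trans ?_ (hom_nat f g.op (mkPh (s := s) (rs N α x) v h1, κ))
    refine congrArg ((f.app (op θ')).app l) (Prod.ext ?_ rfl)
    refine Eq.trans ?_ (mkPh_mapθ (s := s) g (rs N α x) v h1 h2).symm
    exact mkPh_congr (rs_rs N α (Wr.Hom.f g) x).symm (v.mapθ g)
      (h'.trans (sh_map s (α.comp (Wr.Hom.f g)) x).symm) h2
  natk θ {l l'} β κ α v h :=
    hom_natk f β (mkPh (s := s) (rs N α x) v (h.trans (sh_map s α x).symm), κ)

/-- Maps `Ph B s ⊗ K ⟶ X` are maps `N ⟶ E_K` over `Δ[r]`. -/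
def toE {N : SSet.{0}} {s : N ⟶ SSet.stdSimplex.obj (SimplexCategory.mk r)}
    (f : tn (Ph B s) K ⟶ X) : N ⟶ EE B X K where
  app m := ↾ fun (x : N.obj m) => toES f (m := m.unop.len) x
  naturality m m' β := by
    refine ConcreteCategory.hom_ext _ _ fun (x : N.obj m) => ?_
    have hσ : sh s (m := m'.unop.len) (rs N (m := m.unop.len) β.unop.toOrderHom x) =
      (sh s (m := m.unop.len) x).comp β.unop.toOrderHom :=
      sh_map s (m := m.unop.len) (m' := m'.unop.len) β.unop.toOrderHom x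
    refine ES.ext' (a := toES f (m := m'.unop.len) (rs N (m := m.unop.len) β.unop.toOrderHom x))
      (b := (toES f (m := m.unop.len) x).res β.unop.toOrderHom) hσ ?_
    intro θ l κ α v h1 h2
    refine congrArg ((f.app (op θ)).app l) (Prod.ext ?_ rfl)
    exact mkPh_congr (rs_rs N (m := m.unop.len) (m' := m'.unop.len)
      β.unop.toOrderHom α x) v (h1.trans (sh_map s α _).symm)
      (h2.trans (sh_map s (m := m.unop.len) (β.unop.toOrderHom.comp α) x).symm)

theorem toE_app {N : SSet.{0}} {s : N ⟶ SSet.stdSimplex.obj (SimplexCategory.mk r)}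
    (f : tn (Ph B s) K ⟶ X) {m : ℕ} (x : N.obj (op (SimplexCategory.mk m))) :
    (toE f).app _ x = toES f x := rfl

theorem toE_pr {N : SSet.{0}} {s : N ⟶ SSet.stdSimplex.obj (SimplexCategory.mk r)}
    (f : tn (Ph B s) K ⟶ X) : toE f ≫ EEpr B X K = s := by
  ext m x
  rfl

/-- The shape of the value of a map over `Δ[r]`. -/
theorem over_σ {N : SSet.{0}} {s : N ⟶ SSet.stdSimplex.obj (SimplexCategory.mk r)}
    {h : N ⟶ EE B X K} (hs : h ≫ EEpr B X K = s) {m : ℕ}
    (x : N.obj (op (SimplexCategory.mk m))) : (h.app _ x : ES B X K m).σ = sh s x := by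
  subst hs
  rfl

/-- The inverse construction. -/
def fromE {N : SSet.{0}} {s : N ⟶ SSet.stdSimplex.obj (SimplexCategory.mk r)}
    (h : N ⟶ EE B X K) (hs : h ≫ EEpr B X K = s) : tn (Ph B s) K ⟶ X where
  app θ :=
    { app := fun l => ↾ fun (z : PhS B s θ.unop l × K.obj l) =>
        (h.app _ z.1.x : ES B X K θ.unop.len).φ θ.unop l z.2 OrderHom.id (toVS z.1)
          (over_σ hs z.1.x).symm
      naturality := fun l l' β => by
        refine ConcreteCategory.hom_ext _ _ fun (z : PhS B s θ.unop l × K.obj l) => ?_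
        exact (h.app _ z.1.x : ES B X K θ.unop.len).natk θ.unop β z.2 OrderHom.id (toVS z.1)
          (over_σ hs z.1.x).symm }
  naturality θ θ' g := by
    refine NatTrans.ext (funext fun l => ?_)
    refine ConcreteCategory.hom_ext _ _ fun (z : PhS B s θ.unop l × K.obj l) => ?_
    have e1 : (h.app _ (rs N (Wr.Hom.f g.unop) z.1.x) : ES B X K θ'.unop.len) =
        (h.app _ z.1.x : ES B X K θ.unop.len).res (Wr.Hom.f g.unop) :=
      sset_nat h _ z.1.x
    have e2 := (over_σ hs z.1.x).symm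
    have e3 : ((toVS z.1).mapθ g.unop).f =
        (h.app _ z.1.x : ES B X K θ.unop.len).σ.comp
          (OrderHom.comp OrderHom.id (Wr.Hom.f g.unop)) :=
      congrArg (fun t => OrderHom.comp t (Wr.Hom.f g.unop)) e2
    refine Eq.trans ?_ ((h.app _ z.1.x : ES B X K θ.unop.len).natθ g.unop l z.2 OrderHom.id
      (toVS z.1) e2 e3)
    exact ES.φ_congr (α := OrderHom.id) e1 (toVS_mapθ g.unop z.1)
      (over_σ hs (z.1.mapθ g.unop).x).symm e3

theorem fromE_apply {N : SSet.{0}} {s : N ⟶ SSet.stdSimplex.obj (SimplexCategory.mk r)}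
    (h : N ⟶ EE B X K) (hs : h ≫ EEpr B X K = s) (θ : Wr C) (l : SimplexCategoryᵒᵖ)
    (u : PhS B s θ l) (κ : K.obj l) :
    ((fromE h hs).app (op θ)).app l (u, κ) = (h.app _ u.x : ES B X K θ.len).φ θ l κ
      OrderHom.id (toVS u) (over_σ hs u.x).symm := rfl

theorem rs_id (N : SSet.{0}) {m : ℕ} (x : N.obj (op (SimplexCategory.mk m))) :
    rs N OrderHom.id x = x := sset_id N x

theorem mkPh_toVS {N : SSet.{0}} {s : N ⟶ SSet.stdSimplex.obj (SimplexCategory.mk r)}
    {θ : Wr C} {l : SimplexCategoryᵒᵖ} (u : PhS B s θ l) : mkPh u.x (toVS u) rfl = u := rfl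

theorem toVS_mkPh {N : SSet.{0}} {s : N ⟶ SSet.stdSimplex.obj (SimplexCategory.mk r)}
    {θ : Wr C} {l : SimplexCategoryᵒᵖ} (x : N.obj (op (SimplexCategory.mk θ.len)))
    (v : VS B θ l) (h : v.f = sh s x) : toVS (mkPh x v h) = v := by
  obtain ⟨f, g⟩ := v
  obtain rfl : f = sh s x := h
  rfl

theorem fromE_toE {N : SSet.{0}} {s : N ⟶ SSet.stdSimplex.obj (SimplexCategory.mk r)}
    (f : tn (Ph B s) K ⟶ X) : fromE (toE f) (toE_pr f) = f := by
  ext θ l z
  obtain ⟨u, κ⟩ := z
  refine congrArg ((f.app θ).app l) (Prod.ext ?_ rfl)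
  exact mkPh_congr (s := s) (rs_id N (PhS.x u)) (toVS u)
    (show (toVS u).f = sh s (rs N OrderHom.id (PhS.x u)) by rw [rs_id]; rfl) rfl

theorem toE_fromE {N : SSet.{0}} {s : N ⟶ SSet.stdSimplex.obj (SimplexCategory.mk r)}
    (h : N ⟶ EE B X K) (hs : h ≫ EEpr B X K = s) : toE (fromE h hs) = h := by
  refine NatTrans.ext (funext fun m => ?_)
  refine ConcreteCategory.hom_ext _ _ fun (x : N.obj m) => ?_
  refine ES.ext' (a := toES (fromE h hs) (m := m.unop.len) x)
    (b := (h.app (op (SimplexCategory.mk m.unop.len)) x : ES B X K m.unop.len))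
    (over_σ hs (m := m.unop.len) x).symm ?_
  intro θ l κ α v h1 h2
  have e1 : (h.app _ (rs N (m := m.unop.len) α x) : ES B X K θ.len) =
      (h.app (op (SimplexCategory.mk m.unop.len)) x : ES B X K m.unop.len).res α :=
    sset_nat h _ x
  have e2 : v.f = sh s (rs N (m := m.unop.len) α x) :=
    h1.trans (sh_map s (m := m.unop.len) α x).symm
  exact ES.φ_congr (α := OrderHom.id) e1 (toVS_mkPh (s := s) (rs N (m := m.unop.len) α x) v e2)
    (over_σ hs _).symm h2

theorem toE_injective {N : SSet.{0}} {s : N ⟶ SSet.stdSimplex.obj (SimplexCategory.mk r)}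
    {f f' : tn (Ph B s) K ⟶ X} (h : toE f = toE f') : f = f' := by
  rw [← fromE_toE f, ← fromE_toE f']
  congr 1

theorem toE_pre {N N' : SSet.{0}} (i : N ⟶ N')
    {s : N' ⟶ SSet.stdSimplex.obj (SimplexCategory.mk r)} (f : tn (Ph B s) K ⟶ X) :
    toE (tnMap (Ph.map B i s) (𝟙 K) ≫ f) = i ≫ toE f := by
  refine NatTrans.ext (funext fun m => ?_)
  refine ConcreteCategory.hom_ext _ _ fun (x : N.obj m) => ?_
  refine ES.ext' (a := toES (tnMap (Ph.map B i s) (𝟙 K) ≫ f) (m := m.unop.len) x)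
    (b := toES f (m := m.unop.len) (i.app _ x)) rfl ?_
  intro θ l κ α v h1 h2
  refine congrArg ((f.app (op θ)).app l) (Prod.ext ?_ rfl)
  exact mkPh_congr (s := s) (x := i.app _ (rs N (m := m.unop.len) α x))
    (sset_nat i _ x) v (h1.trans (sh_map (i ≫ s) (m := m.unop.len) α x).symm)
    (h2.trans (sh_map s (m := m.unop.len) α (i.app _ x)).symm)

theorem toE_res {N K' : SSet.{0}} (j : K ⟶ K')
    {s : N ⟶ SSet.stdSimplex.obj (SimplexCategory.mk r)} (f : tn (Ph B s) K' ⟶ X) :
    toE (tnMap (𝟙 (Ph B s)) j ≫ f) = toE f ≫ EEres B X j := rfl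

end ES

section Lift

variable {r : ℕ} {B : Fin r → SP C} {X : SP (Wr C)} {K L : SSet.{0}} {N N' : SSet.{0}}

/-- The extension property for `Q ⊗ K ∪ P ⊗ L ⟶ Q ⊗ L`. -/
def ExtP {A : Type} [SmallCategory A] (X : SP A) {P Q : SP A} (p : P ⟶ Q) (j : K ⟶ L) : Prop :=
  ∀ (f : tn Q K ⟶ X) (g : tn P L ⟶ X), tnMap p (𝟙 K) ≫ f = tnMap (𝟙 P) j ≫ g →
    ∃ F : tn Q L ⟶ X, tnMap (𝟙 Q) j ≫ F = f ∧ tnMap p (𝟙 L) ≫ F = g

theorem extP_iff {A : Type} [SmallCategory A] (X : SP A) {P Q : SP A} (p : P ⟶ Q)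
    (j : K ⟶ L) : ExtP X p j ↔ HasLiftingProperty j (Mp.pre p X) := by
  constructor
  · intro h
    refine ⟨fun {f g} sq => ?_⟩
    obtain ⟨F, h1, h2⟩ := h (Mp.adj f) (Mp.adj g) (congrArg Mp.adj sq.w)
    refine ⟨⟨{ l := Mp.adj.symm F, fac_left := ?_, fac_right := ?_ }⟩⟩
    · apply Mp.adj.injective
      exact (Mp.adj_comp j (Mp.adj.symm F)).trans
        ((congrArg (tnMap (𝟙 Q) j ≫ ·) (Mp.adj.apply_symm_apply F)).trans h1)
    · apply Mp.adj.injective
      exact (Mp.adj_pre p (Mp.adj.symm F)).trans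
        ((congrArg (tnMap p (𝟙 L) ≫ ·) (Mp.adj.apply_symm_apply F)).trans h2)
  · intro h f g w
    have sq : CommSq (Mp.adj.symm f) j (Mp.pre p X) (Mp.adj.symm g) := ⟨by
      apply Mp.adj.injective
      refine Eq.trans (Mp.adj_pre p (Mp.adj.symm f)) ?_
      refine Eq.trans ?_ (Mp.adj_comp j (Mp.adj.symm g)).symm
      rw [Mp.adj.apply_symm_apply, Mp.adj.apply_symm_apply]
      exact w⟩
    refine ⟨Mp.adj sq.lift, ?_, ?_⟩
    · have := congrArg Mp.adj sq.fac_left
      rw [Mp.adj.apply_symm_apply] at this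
      exact this
    · have := congrArg Mp.adj sq.fac_right
      rw [Mp.adj.apply_symm_apply] at this
      exact this

theorem extP_of_llp (j : K ⟶ L) (i : N ⟶ N')
    (h : HasLiftingProperty i (EEres B X j))
    (s : N' ⟶ SSet.stdSimplex.obj (SimplexCategory.mk r)) : ExtP X (Ph.map B i s) j := by
  intro f g w
  have sq : CommSq (toE g) i (EEres B X j) (toE f) := ⟨by
    rw [← toE_res, ← w, toE_pre]⟩
  have hs : sq.lift ≫ EEpr B X L = s := by
    rw [← EEres_pr B X j, ← Category.assoc, sq.fac_right, toE_pr]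
  refine ⟨fromE sq.lift hs, ?_, ?_⟩
  · apply toE_injective
    rw [toE_res, toE_fromE, sq.fac_right]
  · apply toE_injective
    rw [toE_pre, toE_fromE, sq.fac_left]

theorem llp_of_extP (j : K ⟶ L) (i : N ⟶ N')
    (h : ∀ s : N' ⟶ SSet.stdSimplex.obj (SimplexCategory.mk r), ExtP X (Ph.map B i s) j) :
    HasLiftingProperty i (EEres B X j) := by
  refine ⟨fun {a b} sq => ?_⟩
  have hs : a ≫ EEpr B X L = i ≫ b ≫ EEpr B X K := by
    rw [← EEres_pr B X j, ← Category.assoc, sq.w, Category.assoc]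
  obtain ⟨F, h1, h2⟩ := h (b ≫ EEpr B X K) (fromE b rfl) (fromE a hs) (by
    apply toE_injective
    rw [toE_pre, toE_res, toE_fromE, toE_fromE, sq.w])
  refine ⟨⟨{ l := toE F, fac_left := ?_, fac_right := ?_ }⟩⟩
  · rw [← toE_pre, h2, toE_fromE]
  · rw [← toE_res, h1, toE_fromE]

open Simplicial in
/-- The transfer principle, from inner horns to inner anodyne extensions. -/
theorem trivFib_of_horn
    (hhorn : ∀ (m : ℕ) (k : Fin (m + 3)), 0 < k → k < Fin.last (m + 2) →
      ∀ s : (Δ[m + 2] : SSet.{0}) ⟶ SSet.stdSimplex.obj (SimplexCategory.mk r),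
        TrivFib (Mp.pre (Ph.map B Λ[m + 2, k].ι s) X))
    (i : N ⟶ N') (hi : SSet.innerAnodyneExtensions i)
    (s : N' ⟶ SSet.stdSimplex.obj (SimplexCategory.mk r)) :
    TrivFib (Mp.pre (Ph.map B i s) X) := by
  intro n
  rw [← extP_iff]
  refine extP_of_llp _ i (hi _ ?_) s
  rintro _ _ _ ⟨k, h0, h1⟩
  refine llp_of_extP _ _ fun t => ?_
  rw [extP_iff]
  exact hhorn _ k h0 h1 t n

end Lift

section Horn

/-- Membership in a finite union. -/
theorem mem_sup_iff {A : Type} [SmallCategory A] {P : SP A} {ι : Type} (T : Finset ι)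
    (F : ι → Sb P) (a : Aᵒᵖ) (k : SimplexCategoryᵒᵖ) (x : (P.obj a).obj k) :
    x ∈ (T.sup F).mem a k ↔ ∃ i ∈ T, x ∈ (F i).mem a k := by
  classical
  induction T using Finset.induction_on with
  | empty =>
    simp only [Finset.sup_empty, Finset.notMem_empty, false_and, exists_false, iff_false]
    exact Sb.mem_bot a k x
  | insert i T hi ih =>
    rw [Finset.sup_insert, Sb.mem_sup, ih]
    simp only [Finset.mem_insert, exists_eq_or_imp]

theorem Ph_map_injective {r : ℕ} (B : Fin r → SP C) {N N' : SSet.{0}} (i : N ⟶ N') [Mono i]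
    (s : N' ⟶ SSet.stdSimplex.obj (SimplexCategory.mk r)) (θ : (Wr C)ᵒᵖ)
    (l : SimplexCategoryᵒᵖ) : Function.Injective (((Ph.map B i s).app θ).app l) := by
  intro (u : PhS B (i ≫ s) θ.unop l) (v : PhS B (i ≫ s) θ.unop l) h
  have h1 : (⟨i.app _ u.x, fun p j h => u.g p j h⟩ : PhS B s θ.unop l) =
    ⟨i.app _ v.x, fun p j h => v.g p j h⟩ := h
  have hinj : Function.Injective (i.app (op (SimplexCategory.mk θ.unop.len))) :=
    (mono_iff_injective _).1 inferInstance
  have h2 : u.x = v.x := hinj (congrArg PhS.x h1)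
  obtain ⟨x, g⟩ := u
  obtain ⟨x', g'⟩ := v
  obtain rfl : x = x' := h2
  refine PhS.ext' rfl fun p j hp hp' => ?_
  have h3 := congrArg (fun (w : PhS B s θ.unop l) => (toVS w)) h1
  simp only [toVS] at h3
  injection h3 with _ h4
  exact congrFun (congrFun (congrFun h4 p) j) hp

theorem Ph_map_mono {r : ℕ} (B : Fin r → SP C) {N N' : SSet.{0}} (i : N ⟶ N') [Mono i]
    (s : N' ⟶ SSet.stdSimplex.obj (SimplexCategory.mk r)) (θ : (Wr C)ᵒᵖ) :
    Mono ((Ph.map B i s).app θ) := by
  rw [NatTrans.mono_iff_mono_app]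
  intro l
  rw [mono_iff_injective]
  exact Ph_map_injective B i s θ l

open Simplicial in
theorem range_horn {r m : ℕ} (B : Fin r → SP C) (k : Fin (m + 1))
    (s : (Δ[m] : SSet.{0}) ⟶ SSet.stdSimplex.obj (SimplexCategory.mk r))
    (B' : Fin m → SP C) (e : Ph B s ≅ V B')
    (he : ∀ (θ : (Wr C)ᵒᵖ) (k : SimplexCategoryᵒᵖ) (u : PhS B s θ.unop k),
      ((e.hom.app θ).app k u : VS B' θ.unop k).f = sh (𝟙 _) u.x) :
    Sb.range (Ph.map B Λ[m, k].ι s ≫ e.hom) =
      hornL (vface B') Finset.univ (Finset.univ.erase k) := by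
  refine Sb.ext (funext fun θ => funext fun l => Set.ext fun v => ?_)
  rw [hornL, mem_sup_iff]
  constructor
  · rintro ⟨u, rfl⟩
    have hx : (PhS.x u).1 ∈ (Λ[m, k] : (Δ[m] : SSet.{0}).Subcomplex).obj _ := (PhS.x u).2
    rw [SSet.mem_horn_iff_notMem_range] at hx
    obtain ⟨i, hik, hi⟩ := hx
    refine ⟨i, by simp [hik], fun t => ?_⟩
    have h1 := he θ l ((Ph.map B Λ[m, k].ι s).app θ |>.app l u)
    rw [Finset.mem_erase]
    refine ⟨fun h => hi ⟨t, ?_⟩, Finset.mem_univ _⟩
    rw [← h]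
    exact (DFunLike.congr_fun h1 t).symm
  · rintro ⟨i, hi, hv⟩
    have hev : (e.hom.app θ).app l ((e.inv.app θ).app l v) = v :=
      ConcreteCategory.congr_hom (NatTrans.congr_app (NatTrans.congr_app e.inv_hom_id θ) l) v
    have h1 := he θ l ((e.inv.app θ).app l v)
    have hx : (PhS.x ((e.inv.app θ).app l v : PhS B s θ.unop l)) ∈
        (Λ[m, k] : (Δ[m] : SSet.{0}).Subcomplex).obj _ := by
      rw [SSet.mem_horn_iff_notMem_range]
      refine ⟨i, Finset.ne_of_mem_erase hi, ?_⟩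
      rintro ⟨t, ht⟩
      have h2 := hv t
      rw [Finset.mem_erase] at h2
      refine h2.1 ?_
      refine Eq.trans ?_ ht
      refine Eq.trans ?_ (DFunLike.congr_fun h1 t)
      exact congrArg (fun w : VS B' θ.unop l => w.f t) hev.symm
    refine ⟨(⟨⟨_, hx⟩, fun p j h => ((e.inv.app θ).app l v : PhS B s θ.unop l).g p j h⟩ :
      PhS B (Λ[m, k].ι ≫ s) θ.unop l), ?_⟩
    exact hev

end Horn

open Simplicial in
/-- The theorem, with the facts about spines as hypotheses. -/
theorem Ph_transfer_of {X : SP (Wr C)}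
    (hPs : ∀ {r N : ℕ} (B : Fin r → SP C)
      (s : (SSet.stdSimplex.obj (SimplexCategory.mk N) : SSet.{0}) ⟶
        SSet.stdSimplex.obj (SimplexCategory.mk r)),
      ∃ (B' : Fin N → SP C) (e : Ph B s ≅ V B'), ∀ (θ : (Wr C)ᵒᵖ) (k : SimplexCategoryᵒᵖ)
        (u : PhS B s θ.unop k), ((e.hom.app θ).app k u : VS B' θ.unop k).f = sh (𝟙 _) u.x)
    (hvh : ∀ {m : ℕ} (B : Fin m → SP C) (i : Fin (m + 1)), 0 < i → i < Fin.last m →
      LocT X (hornL (vface B) Finset.univ (Finset.univ.erase i)) ⊤)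
    (hrange : ∀ {P Q : SP (Wr C)} (f : P ⟶ Q), (∀ a, Mono (f.app a)) →
      (Loc X f ↔ LocT X (Sb.range f) ⊤))
    (hright : ∀ {P Q R : SP (Wr C)} {f : P ⟶ Q} {g : Q ⟶ R}, Loc X g → Loc X (f ≫ g) →
      Loc X f)
    (hiso : ∀ {P Q : SP (Wr C)} (f : P ⟶ Q) [IsIso f], Loc X f)
    (htf : ∀ {P Q : SP (Wr C)} (i : P ⟶ Q), (∀ a, Mono (i.app a)) → Loc X i →
      TrivFib (Mp.pre i X))
    {r : ℕ} (B : Fin r → SP C) {N N' : SSet.{0}} (i : N ⟶ N')
    (hi : SSet.innerAnodyneExtensions i)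
    (s : N' ⟶ SSet.stdSimplex.obj (SimplexCategory.mk r)) :
    TrivFib (Mp.pre (Ph.map B i s) X) := by
  refine trivFib_of_horn (fun m k h0 h1 t => ?_) i hi s
  obtain ⟨B', e, he⟩ := hPs B t
  have hm := Ph_map_mono B (Λ[m + 2, k].ι : (Λ[m + 2, k] : SSet.{0}) ⟶ _) t
  refine htf _ hm ?_
  refine hright (g := e.hom) (hiso _) ?_
  rw [hrange _ (fun a => ?_), range_horn B k t B' e he]
  · exact hvh B' k h0 h1
  · have := hm a
    change Mono ((Ph.map B Λ[m + 2, k].ι t).app a ≫ e.hom.app a)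
    infer_instance

end

end Pool.Agent.Helper43.FL2
end

/- Helper44.FL2.Key -/
section
/-!
# Sub-presheaves of `P × E[m]` for pullbacks `P` of `V[r](B)`
-/

open CategoryTheory MonoidalCategory Opposite

set_option autoImplicit false

namespace Pool.Agent.Helper44.FL2

open FL

section

variable {A : Type} [SmallCategory A]

lemma isIso_of_bij {P Q : SP A} (f : P ⟶ Q)
    (h : ∀ a k, Function.Bijective ((f.app a).app k)) : IsIso f := by
  rw [NatTrans.isIso_iff_isIso_app]
  intro a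
  rw [NatTrans.isIso_iff_isIso_app]
  intro k
  rw [isIso_iff_bijective]
  exact h a k

end

variable {C : Type} [SmallCategory C]

/-- The transfer principle. -/
def Transfer (X : SP (Wr C)) : Prop :=
  ∀ {r : ℕ} (B : Fin r → SP C) {N N' : SSet.{0}} (i : N ⟶ N')
    (_ : SSet.innerAnodyneExtensions i)
    (s : N' ⟶ SSet.stdSimplex.obj (SimplexCategory.mk r)), Loc X (Ph.map B i s)

/-- Invariance of local maps under isomorphisms of arrows. -/
def ArrowIso (X : SP (Wr C)) : Prop :=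
  ∀ {P Q P' Q' : SP (Wr C)} {f : P ⟶ Q} {f' : P' ⟶ Q'} (e : P ≅ P')
    (e' : Q ≅ Q') (_ : f ≫ e'.hom = e.hom ≫ f') (_ : Loc X f), Loc X f'

/-- The comparison map. -/
def cmp {r : ℕ} {B : Fin r → SP C} {N : SSet.{0}}
    {s : N ⟶ SSet.stdSimplex.obj (SimplexCategory.mk r)} {P : SP (Wr C)} (ρ : Ph B s ⟶ P)
    (m : SimplexCategory) {M : SSet.{0}} (p : M ⟶ N) (q : M ⟶ EN (Fin (m.len + 1))) :
    Ph B (p ≫ s) ⟶ E0o P m where
  app θ :=
    { app := fun k => ↾ fun (u : PhS B (p ≫ s) θ.unop k) =>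
        ((ρ.app θ).app k (((Ph.map B p s).app θ).app k u), q.app _ u.x)
      naturality := fun k l α => by
        refine ConcreteCategory.hom_ext _ _ fun (u : PhS B (p ≫ s) θ.unop k) => ?_
        exact Prod.ext (hom_natk (Ph.map B p s ≫ ρ) α u) rfl }
  naturality θ θ' φ := by
    refine NatTrans.ext (funext fun k => ?_)
    refine ConcreteCategory.hom_ext _ _ fun (u : PhS B (p ≫ s) θ.unop k) => ?_
    refine Prod.ext (hom_nat (Ph.map B p s ≫ ρ) φ u) ?_
    exact sset_nat q _ u.x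

lemma cmp_inj {r : ℕ} {B : Fin r → SP C} {N : SSet.{0}}
    {s : N ⟶ SSet.stdSimplex.obj (SimplexCategory.mk r)} {P : SP (Wr C)} (ρ : Ph B s ⟶ P)
    (hρ : ∀ θ k, Function.Injective ((ρ.app θ).app k))
    (m : SimplexCategory) {M : SSet.{0}} (p : M ⟶ N) (q : M ⟶ EN (Fin (m.len + 1)))
    (hpq : ∀ (l : SimplexCategoryᵒᵖ) (y y' : M.obj l), p.app l y = p.app l y' →
      q.app l y = q.app l y' → y = y') (θ : (Wr C)ᵒᵖ) (k : SimplexCategoryᵒᵖ) :
    Function.Injective (((cmp ρ m p q).app θ).app k) := by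
  intro (u : PhS B (p ≫ s) θ.unop k) (v : PhS B (p ≫ s) θ.unop k) h
  have h1 := hρ θ k (congrArg Prod.fst h)
  have h2 : q.app _ u.x = q.app _ v.x := congrArg Prod.snd h
  have h3 : p.app _ u.x = p.app _ v.x := congrArg PhS.x h1
  have h4 := hpq _ _ _ h3 h2
  obtain ⟨x, g⟩ := u
  obtain ⟨x', g'⟩ := v
  simp only at h4
  subst h4
  refine congrArg (PhS.mk x) ?_
  have h5 : (PhS.mk (p.app _ x) (fun i j h => g i j h) : PhS B s θ.unop k) =
    PhS.mk (p.app _ x) (fun i j h => g' i j h) := h1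
  injection h5

theorem locT_of_inner {X : SP (Wr C)} (hT : Transfer X) (hA : ArrowIso X)
    {r : ℕ} {B : Fin r → SP C} {N : SSet.{0}}
    {s : N ⟶ SSet.stdSimplex.obj (SimplexCategory.mk r)} {P : SP (Wr C)} (ρ : Ph B s ⟶ P)
    (hρ : ∀ θ k, Function.Bijective ((ρ.app θ).app k))
    (m : SimplexCategory) {M M' : SSet.{0}} (i : M ⟶ M') (hi : SSet.innerAnodyneExtensions i)
    (p : M' ⟶ N) (q : M' ⟶ EN (Fin (m.len + 1)))
    (hinj : ∀ (l : SimplexCategoryᵒᵖ) (y y' : M.obj l), i.app l y = i.app l y' → y = y')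
    (hpq : ∀ (l : SimplexCategoryᵒᵖ) (y y' : M'.obj l), p.app l y = p.app l y' →
      q.app l y = q.app l y' → y = y')
    (S T : Sb (E0o P m))
    (hS : ∀ (θ : (Wr C)ᵒᵖ) (k : SimplexCategoryᵒᵖ) (u : PhS B s θ.unop k)
      (w : Fin (θ.unop.len + 1) → Fin (m.len + 1)),
      (((ρ.app θ).app k u, w) : ((E0o P m).obj θ).obj k) ∈ S.mem θ k ↔
        ∃ y, p.app _ (i.app _ y) = u.x ∧ q.app _ (i.app _ y) = w)
    (hT' : ∀ (θ : (Wr C)ᵒᵖ) (k : SimplexCategoryᵒᵖ) (u : PhS B s θ.unop k)
      (w : Fin (θ.unop.len + 1) → Fin (m.len + 1)),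
      (((ρ.app θ).app k u, w) : ((E0o P m).obj θ).obj k) ∈ T.mem θ k ↔
        ∃ y, p.app _ y = u.x ∧ q.app _ y = w) : LocT X S T := by
  have hle : S ≤ T := by
    intro θ k z hz
    obtain ⟨u, hu⟩ := (hρ θ k).2 z.1
    have e : z = (((ρ.app θ).app k u, z.2) : ((E0o P m).obj θ).obj k) := Prod.ext hu.symm rfl
    rw [e] at hz ⊢
    obtain ⟨y, h1, h2⟩ := (hS θ k u z.2).1 hz
    exact (hT' θ k u z.2).2 ⟨_, h1, h2⟩
  refine ⟨hle, ?_⟩
  -- the isomorphism on the targets
  have memT : ∀ (θ : (Wr C)ᵒᵖ) (k : SimplexCategoryᵒᵖ) (u : PhS B (p ≫ s) θ.unop k),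
      ((cmp ρ m p q).app θ).app k u ∈ T.mem θ k := by
    intro θ k u
    exact (hT' θ k (((Ph.map B p s).app θ).app k u) _).2 ⟨u.x, rfl, rfl⟩
  have memS : ∀ (θ : (Wr C)ᵒᵖ) (k : SimplexCategoryᵒᵖ) (u : PhS B (i ≫ p ≫ s) θ.unop k),
      ((cmp ρ m p q).app θ).app k (((Ph.map B i (p ≫ s)).app θ).app k u) ∈ S.mem θ k := by
    intro θ k u
    exact (hS θ k (((Ph.map B p s).app θ).app k (((Ph.map B i (p ≫ s)).app θ).app k u)) _).2
      ⟨u.x, rfl, rfl⟩
  let g' : Ph B (p ≫ s) ⟶ T.toSP :=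
    { app := fun θ =>
        { app := fun k => ↾ fun u => ⟨((cmp ρ m p q).app θ).app k u, memT θ k u⟩
          naturality := fun k l α => by
            refine ConcreteCategory.hom_ext _ _ fun u => ?_
            exact Subtype.ext (hom_natk (cmp ρ m p q) α u) }
      naturality := fun θ θ' φ => by
        refine NatTrans.ext (funext fun k => ?_)
        refine ConcreteCategory.hom_ext _ _ fun u => ?_
        exact Subtype.ext (hom_nat (cmp ρ m p q) φ u) }
  let g : Ph B (i ≫ p ≫ s) ⟶ S.toSP :=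
    { app := fun θ =>
        { app := fun k => ↾ fun u =>
            ⟨((cmp ρ m p q).app θ).app k (((Ph.map B i (p ≫ s)).app θ).app k u), memS θ k u⟩
          naturality := fun k l α => by
            refine ConcreteCategory.hom_ext _ _ fun u => ?_
            exact Subtype.ext (hom_natk (Ph.map B i (p ≫ s) ≫ cmp ρ m p q) α u) }
      naturality := fun θ θ' φ => by
        refine NatTrans.ext (funext fun k => ?_)
        refine ConcreteCategory.hom_ext _ _ fun u => ?_
        exact Subtype.ext (hom_nat (Ph.map B i (p ≫ s) ≫ cmp ρ m p q) φ u) }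
  have hg' : IsIso g' := by
    refine isIso_of_bij g' fun θ k => ⟨?_, ?_⟩
    · intro u v h
      exact cmp_inj ρ (fun θ k => (hρ θ k).1) m p q hpq θ k (congrArg Subtype.val h)
    · rintro ⟨z, hz⟩
      obtain ⟨u, hu⟩ := (hρ θ k).2 z.1
      have e : z = (((ρ.app θ).app k u, z.2) : ((E0o P m).obj θ).obj k) := Prod.ext hu.symm rfl
      have hz' := hz
      rw [e] at hz'
      obtain ⟨y, h1, h2⟩ := (hT' θ k u z.2).1 hz'
      obtain ⟨x, gg⟩ := u
      simp only at h1
      subst h1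
      refine ⟨(⟨y, fun a b h => gg a b h⟩ : PhS B (p ≫ s) θ.unop k), Subtype.ext ?_⟩
      exact Prod.ext hu h2
  have hg : IsIso g := by
    refine isIso_of_bij g fun θ k => ⟨?_, ?_⟩
    · intro (u : PhS B (i ≫ p ≫ s) θ.unop k) (v : PhS B (i ≫ p ≫ s) θ.unop k) h
      have h1 := cmp_inj ρ (fun θ k => (hρ θ k).1) m p q hpq θ k (congrArg Subtype.val h)
      have h3 : i.app _ u.x = i.app _ v.x := congrArg PhS.x h1
      have h4 := hinj _ _ _ h3
      obtain ⟨x, g⟩ := u
      obtain ⟨x', g'⟩ := v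
      simp only at h4
      subst h4
      refine congrArg (PhS.mk x) ?_
      have h5 : (PhS.mk (i.app _ x) (fun i j h => g i j h) : PhS B (p ≫ s) θ.unop k) =
        PhS.mk (i.app _ x) (fun i j h => g' i j h) := h1
      injection h5
    · rintro ⟨z, hz⟩
      obtain ⟨u, hu⟩ := (hρ θ k).2 z.1
      have e : z = (((ρ.app θ).app k u, z.2) : ((E0o P m).obj θ).obj k) := Prod.ext hu.symm rfl
      have hz' := hz
      rw [e] at hz'
      obtain ⟨y, h1, h2⟩ := (hS θ k u z.2).1 hz'
      obtain ⟨x, gg⟩ := u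
      simp only at h1
      subst h1
      refine ⟨(⟨y, fun a b h => gg a b h⟩ : PhS B (i ≫ p ≫ s) θ.unop k), Subtype.ext ?_⟩
      exact Prod.ext hu h2
  exact hA (asIso g) (asIso g') rfl (hT B i hi (p ≫ s))

end Pool.Agent.Helper44.FL2
end

/- Helper55.FL2.GPa -/
section
/-! FL2-G4, part 1: locality of the maps of unions of faces. -/

open CategoryTheory MonoidalCategory Opposite

set_option autoImplicit false

namespace Pool.Agent.Helper55.FL2

open FL Pool.Agent.Helper45.LOC
open Pool.Agent.Helper81.FL2 (cface_inf)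
open Pool.Agent.Helper88.FL (htpy_pre htpy_post)

universe v

/-! ### Retracts -/

theorem hoEq_retract {X Y X' Y' : SSet.{v}} {f : X ⟶ Y} {f' : X' ⟶ Y'} (i : X' ⟶ X)
    (r : X ⟶ X') (hir : i ≫ r = 𝟙 X') (j : Y' ⟶ Y) (q : Y ⟶ Y') (hjq : j ≫ q = 𝟙 Y')
    (h1 : i ≫ f = f' ≫ j) (h2 : r ≫ f' = f ≫ q) (hf : HoEq f) : HoEq f' := by
  obtain ⟨g, a, b⟩ := hf
  refine ⟨j ≫ g ≫ r, ?_, ?_⟩
  · have e1 : f' ≫ j ≫ g ≫ r = i ≫ (f ≫ g) ≫ r := by
      rw [← Category.assoc, ← h1]
      simp only [Category.assoc]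
    have e2 : i ≫ 𝟙 X ≫ r = 𝟙 X' := by rw [Category.id_comp, hir]
    have := htpy_pre i (htpy_post (show Htpy (f ≫ g) (𝟙 X) from a) r)
    rw [← e1, e2] at this
    exact this
  · have e1 : (j ≫ g ≫ r) ≫ f' = j ≫ (g ≫ f) ≫ q := by
      simp only [Category.assoc, h2]
    have e2 : j ≫ 𝟙 Y ≫ q = 𝟙 Y' := by rw [Category.id_comp, hjq]
    have := htpy_pre j (htpy_post (show Htpy (g ≫ f) (𝟙 Y) from b) q)
    rw [← e1, e2] at this
    exact this

section

variable {A : Type} [SmallCategory A] {X : SP A}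

theorem loc_retract {P Q P' Q' : SP A} {f : P ⟶ Q} {f' : P' ⟶ Q'} (i : P' ⟶ P) (r : P ⟶ P')
    (hir : i ≫ r = 𝟙 P') (j : Q' ⟶ Q) (q : Q ⟶ Q') (hjq : j ≫ q = 𝟙 Q')
    (h1 : i ≫ f = f' ≫ j) (h2 : r ≫ f' = f ≫ q) (hf : Loc X f) : Loc X f' := by
  have c : ∀ {P Q R : SP A} (a : P ⟶ Q) (b : Q ⟶ R),
      Mp.pre (a ≫ b) X = Mp.pre b X ≫ Mp.pre a X := fun _ _ => rfl
  refine hoEq_retract (f := Mp.pre f X) (f' := Mp.pre f' X) (Mp.pre q X) (Mp.pre j X) ?_
    (Mp.pre r X) (Mp.pre i X) ?_ ?_ ?_ hf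
  · rw [← c, hjq]; rfl
  · rw [← c, hir]; rfl
  · rw [← c, ← c, h2]
  · rw [← c, ← c, h1]

/-- Corestriction. -/
def cor {P Q : SP A} (f : P ⟶ Q) (T : Sb Q)
    (h : ∀ (a : Aᵒᵖ) (k : SimplexCategoryᵒᵖ) (x : (P.obj a).obj k),
      (f.app a).app k x ∈ T.mem a k) : P ⟶ T.toSP where
  app a :=
    { app := fun k => ↾ fun x => ⟨(f.app a).app k x, h a k x⟩
      naturality := fun k l α => by
        refine ConcreteCategory.hom_ext _ _ fun x => ?_
        exact Subtype.ext (hom_natk f α x) }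
  naturality a b g := by
    refine NatTrans.ext (funext fun k => ?_)
    refine ConcreteCategory.hom_ext _ _ fun x => ?_
    exact Subtype.ext (hom_nat f g x)

theorem loc_restr_congr {P Q : SP A} (f : P ⟶ Q) {S S₁ : Sb P} {T T₁ : Sb Q} (hS : S = S₁)
    (hT : T = T₁)
    (h : ∀ (a : Aᵒᵖ) (k : SimplexCategoryᵒᵖ) (x : (P.obj a).obj k),
      x ∈ S.mem a k → (f.app a).app k x ∈ T.mem a k)
    (h' : ∀ (a : Aᵒᵖ) (k : SimplexCategoryᵒᵖ) (x : (P.obj a).obj k),
      x ∈ S₁.mem a k → (f.app a).app k x ∈ T₁.mem a k)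
    (hl : Loc X (Sb.restr f S T h)) : Loc X (Sb.restr f S₁ T₁ h') := by
  subst hS hT
  exact hl

/-! ### Retractions onto faces -/

/-- `e` is a retraction of `[N]` onto `U`. -/
def Rt {N : SimplexCategory} (U : Finset (Fin (N.len + 1))) (e : N ⟶ N) : Prop :=
  (∀ i, e.toOrderHom i ∈ U) ∧ ∀ i ∈ U, e.toOrderHom i = i

theorem exists_rt {N : SimplexCategory} {U : Finset (Fin (N.len + 1))} (h : U.Nonempty) :
    ∃ e : N ⟶ N, Rt U e := by
  have hne : ∀ i, (U.filter (· ≤ max i (U.min' h))).Nonempty := fun i =>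
    ⟨U.min' h, Finset.mem_filter.2 ⟨U.min'_mem h, le_max_right _ _⟩⟩
  refine ⟨SimplexCategory.Hom.mk ⟨fun i => (U.filter (· ≤ max i (U.min' h))).max' (hne i),
    fun i j hij => ?_⟩, ?_, ?_⟩
  · refine Finset.max'_subset _ fun x hx => ?_
    rw [Finset.mem_filter] at hx ⊢
    exact ⟨hx.1, hx.2.trans (max_le_max_right _ hij)⟩
  · intro i
    exact (Finset.mem_filter.1 (Finset.max'_mem _ (hne i))).1
  · intro i hi
    have h1 : max i (U.min' h) = i := max_eq_left (U.min'_le i hi)
    refine le_antisymm ?_ ?_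
    · have := (Finset.mem_filter.1 (Finset.max'_mem _ (hne i))).2
      exact this.trans h1.le
    · exact Finset.le_max' _ _ (Finset.mem_filter.2 ⟨hi, h1.ge⟩)

theorem comp_rt {m N : SimplexCategory} {U : Finset (Fin (N.len + 1))} {e : N ⟶ N}
    (he : Rt U e) (α : m ⟶ N) (h : ∀ i, α.toOrderHom i ∈ U) : α ≫ e = α := by
  ext i : 3
  exact he.2 _ (h i)

theorem comp_rt_iff {m N : SimplexCategory} {U : Finset (Fin (N.len + 1))} {e : N ⟶ N}
    (he : Rt U e) (α : m ⟶ N) : α ≫ e = α ↔ ∀ i, α.toOrderHom i ∈ U := by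
  refine ⟨fun h i => ?_, comp_rt he α⟩
  rw [← h]
  exact he.1 _

theorem supp_iff (F : SimplexCategory ⥤ SP A) {N : SimplexCategory}
    {U : Finset (Fin (N.len + 1))} {e : N ⟶ N} (he : Rt U e) {a : Aᵒᵖ} {k : SimplexCategoryᵒᵖ}
    (x : ((F.obj N).obj a).obj k) : Supp F U x ↔ ((F.map e).app a).app k x = x := by
  constructor
  · rintro ⟨m, α, y, h, rfl⟩
    rw [← cos_comp, comp_rt he α h]
  · intro h
    exact ⟨N, e, x, he.1, h⟩

theorem mem_cface_iff (F : SimplexCategory ⥤ SP A) {N : SimplexCategory}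
    {U : Finset (Fin (N.len + 1))} {e : N ⟶ N} (he : Rt U e) {a : Aᵒᵖ} {k : SimplexCategoryᵒᵖ}
    (z : ((tn (F.obj N) (SSet.stdSimplex.obj N)).obj a).obj k) :
    z ∈ (cface F U).mem a k ↔ ((F.map e).app a).app k z.1 = z.1 ∧
      SSet.stdSimplex.objEquiv z.2 ≫ e = SSet.stdSimplex.objEquiv z.2 := by
  show (Supp F U z.1 ∧ _) ↔ _
  rw [supp_iff F he, comp_rt_iff he]

variable {F G : SimplexCategory ⥤ SP A}

/-- The map `F_N ⊗ Δ[N] ⟶ G_N ⊗ Δ[N]`. -/
abbrev tu (u : F ⟶ G) (N : SimplexCategory) :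
    tn (F.obj N) (SSet.stdSimplex.obj N) ⟶ tn (G.obj N) (SSet.stdSimplex.obj N) :=
  tnMap (u.app N) (𝟙 (SSet.stdSimplex.obj N))

theorem tu_supp (u : F ⟶ G) {N : SimplexCategory} {U : Finset (Fin (N.len + 1))} {a : Aᵒᵖ}
    {k : SimplexCategoryᵒᵖ} (x : ((F.obj N).obj a).obj k) (h : Supp F U x) :
    Supp G U (((u.app N).app a).app k x) := by
  obtain ⟨m, α, y, h, rfl⟩ := h
  refine ⟨m, α, ((u.app m).app a).app k y, h, ?_⟩
  exact (ConcreteCategory.congr_hom (NatTrans.congr_app (NatTrans.congr_app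
    (u.naturality α) a) k) y).symm

theorem tu_cface (u : F ⟶ G) {N : SimplexCategory} (U : Finset (Fin (N.len + 1))) (a : Aᵒᵖ)
    (k : SimplexCategoryᵒᵖ) (z : ((tn (F.obj N) (SSet.stdSimplex.obj N)).obj a).obj k)
    (h : z ∈ (cface F U).mem a k) : ((tu u N).app a).app k z ∈ (cface G U).mem a k :=
  ⟨tu_supp u z.1 h.1, h.2⟩

theorem u_nat (u : F ⟶ G) {m n : SimplexCategory} (α : m ⟶ n) {a : Aᵒᵖ}
    {k : SimplexCategoryᵒᵖ} (x : ((F.obj m).obj a).obj k) :
    ((u.app n).app a).app k (((F.map α).app a).app k x) =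
      ((G.map α).app a).app k (((u.app m).app a).app k x) :=
  ConcreteCategory.congr_hom (NatTrans.congr_app (NatTrans.congr_app (u.naturality α) a) k) x

/-- The retraction of `F_N ⊗ Δ[N]` onto a face. -/
def rface (F : SimplexCategory ⥤ SP A) {N : SimplexCategory} {U : Finset (Fin (N.len + 1))}
    {e : N ⟶ N} (he : Rt U e) :
    tn (F.obj N) (SSet.stdSimplex.obj N) ⟶ (cface F U).toSP :=
  cor (tnMap (F.map e) (SSet.stdSimplex.map e)) (cface F U) fun _ _ z =>
    ⟨⟨N, e, z.1, he.1, rfl⟩, fun i => he.1 ((SSet.stdSimplex.objEquiv z.2).toOrderHom i)⟩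

/-- One face. -/
theorem loc_face (hX : InjFib X) (u : F ⟶ G) (N : SimplexCategory) (h : Loc X (u.app N))
    (U : Finset (Fin (N.len + 1))) :
    Loc X (Sb.restr (tu u N) (cface F U) (cface G U) (tu_cface u U)) := by
  rcases U.eq_empty_or_nonempty with rfl | hU
  · -- both sides are empty
    have hempty : ∀ (F : SimplexCategory ⥤ SP A) (a : Aᵒᵖ) (k : SimplexCategoryᵒᵖ),
        IsEmpty (((cface F (∅ : Finset (Fin (N.len + 1)))).toSP.obj a).obj k) := by
      intro F a k
      refine ⟨fun z => ?_⟩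
      exact absurd (z.2.2 0) (Finset.notMem_empty _)
    have : IsIso (Sb.restr (tu u N) (cface F (∅ : Finset (Fin (N.len + 1)))) (cface G ∅)
        (tu_cface u ∅)) := by
      have : ∀ a, IsIso ((Sb.restr (tu u N) (cface F (∅ : Finset (Fin (N.len + 1))))
          (cface G ∅) (tu_cface u ∅)).app a) := by
        intro a
        have : ∀ k, IsIso (((Sb.restr (tu u N) (cface F (∅ : Finset (Fin (N.len + 1))))
            (cface G ∅) (tu_cface u ∅)).app a).app k) := by
          intro k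
          rw [isIso_iff_bijective]
          exact ⟨fun x => ((hempty F a k).false x).elim, fun x => ((hempty G a k).false x).elim⟩
        exact NatIso.isIso_of_isIso_app _
      exact NatIso.isIso_of_isIso_app _
    exact loc_of_isIso _
  · obtain ⟨e, he⟩ := exists_rt hU
    refine loc_retract (f := tu u N) (Sb.ι _) (rface F he) ?_ (Sb.ι _) (rface G he) ?_ rfl ?_
      (loc_tensor hX _ h _)
    · refine NatTrans.ext (funext fun a => NatTrans.ext (funext fun k => ?_))
      refine ConcreteCategory.hom_ext _ _ fun z => ?_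
      have h1 := (mem_cface_iff F he z.1).1 z.2
      refine Subtype.ext (Prod.ext h1.1 ?_)
      exact SSet.stdSimplex.objEquiv.injective h1.2
    · refine NatTrans.ext (funext fun a => NatTrans.ext (funext fun k => ?_))
      refine ConcreteCategory.hom_ext _ _ fun z => ?_
      have h1 := (mem_cface_iff G he z.1).1 z.2
      refine Subtype.ext (Prod.ext h1.1 ?_)
      exact SSet.stdSimplex.objEquiv.injective h1.2
    · refine NatTrans.ext (funext fun a => NatTrans.ext (funext fun k => ?_))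
      refine ConcreteCategory.hom_ext _ _ fun z => ?_
      exact Subtype.ext (Prod.ext (u_nat u e z.1) rfl)

/-! ### Families of faces -/

/-- The union of a list of faces. -/
def fam (F : SimplexCategory ⥤ SP A) {N : SimplexCategory}
    (l : List (Finset (Fin (N.len + 1)))) : Sb (tn (F.obj N) (SSet.stdSimplex.obj N)) :=
  l.foldr (fun U S => cface F U ⊔ S) ⊥

theorem fam_nil (F : SimplexCategory ⥤ SP A) {N : SimplexCategory} :
    fam F ([] : List (Finset (Fin (N.len + 1)))) = ⊥ := rfl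

theorem fam_cons (F : SimplexCategory ⥤ SP A) {N : SimplexCategory}
    (U : Finset (Fin (N.len + 1))) (l : List (Finset (Fin (N.len + 1)))) :
    fam F (U :: l) = cface F U ⊔ fam F l := rfl

theorem mem_fam (F : SimplexCategory ⥤ SP A) {N : SimplexCategory}
    (l : List (Finset (Fin (N.len + 1)))) {a : Aᵒᵖ} {k : SimplexCategoryᵒᵖ}
    (z : ((tn (F.obj N) (SSet.stdSimplex.obj N)).obj a).obj k) :
    z ∈ (fam F l).mem a k ↔ ∃ U ∈ l, z ∈ (cface F U).mem a k := by
  induction l with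
  | nil =>
    constructor
    · intro h
      exact (Sb.mem_bot _ _ _ h).elim
    · rintro ⟨U, h, _⟩
      exact absurd h List.not_mem_nil
  | cons V l ih =>
    rw [fam_cons, Sb.mem_sup, ih]
    constructor
    · rintro (h | ⟨U, hU, h⟩)
      · exact ⟨V, List.mem_cons_self, h⟩
      · exact ⟨U, List.mem_cons_of_mem _ hU, h⟩
    · rintro ⟨U, hU, h⟩
      rcases List.mem_cons.1 hU with rfl | hU
      · exact Or.inl h
      · exact Or.inr ⟨U, hU, h⟩

theorem fam_inf (F : SimplexCategory ⥤ SP A) {N : SimplexCategory}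
    (V : Finset (Fin (N.len + 1))) (l : List (Finset (Fin (N.len + 1)))) :
    fam F (l.map (V ∩ ·)) = cface F V ⊓ fam F l := by
  induction l with
  | nil => exact (inf_bot_eq _).symm
  | cons U l ih =>
    rw [List.map_cons, fam_cons, fam_cons, ih, cface_inf, inf_sup_left]

theorem tu_fam (u : F ⟶ G) {N : SimplexCategory} (l : List (Finset (Fin (N.len + 1)))) (a : Aᵒᵖ)
    (k : SimplexCategoryᵒᵖ) (z : ((tn (F.obj N) (SSet.stdSimplex.obj N)).obj a).obj k)
    (h : z ∈ (fam F l).mem a k) : ((tu u N).app a).app k z ∈ (fam G l).mem a k := by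
  rw [mem_fam] at h ⊢
  obtain ⟨U, hU, h⟩ := h
  exact ⟨U, hU, tu_cface u U a k z h⟩

theorem loc_fam (hX : InjFib X) (u : F ⟶ G) (N : SimplexCategory) (h : Loc X (u.app N)) :
    ∀ (n : ℕ) (l : List (Finset (Fin (N.len + 1)))), l.length = n →
      Loc X (Sb.restr (tu u N) (fam F l) (fam G l) (tu_fam u l)) := by
  intro n
  induction n with
  | zero =>
    intro l hl
    obtain rfl := List.length_eq_zero_iff.1 hl
    have hbot : ∀ F : SimplexCategory ⥤ SP A,
        cface F (∅ : Finset (Fin (N.len + 1))) = fam F [] := by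
      intro F
      refine Sb.ext ?_
      funext a k
      ext z
      constructor
      · rintro ⟨_, h⟩
        exact absurd (h 0) (Finset.notMem_empty _)
      · intro h
        exact (Sb.mem_bot _ _ _ h).elim
    exact loc_restr_congr (tu u N) (hbot F) (hbot G) _ _ (loc_face hX u N h ∅)
  | succ n ih =>
    intro l hl
    obtain ⟨V, l, rfl⟩ := List.exists_cons_of_length_eq_add_one hl
    have hl' : l.length = n := by simpa using hl
    refine loc_restr_sup hX (tu u N) (cface F V) (fam F l) (cface G V) (fam G l)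
      (tu_cface u V) (tu_fam u l) (loc_face hX u N h V) (ih l hl') ?_
    refine loc_restr_congr (tu u N) (fam_inf F V l) (fam_inf G V l) _ _
      (ih (l.map (V ∩ ·)) (by simpa using hl'))

end

end Pool.Agent.Helper55.FL2
end

/- Helper55.FL2.GPb -/
section
/-! FL2-G4, part 2: the generation principle for monomorphisms. -/

open CategoryTheory MonoidalCategory Opposite

set_option autoImplicit false

namespace Pool.Agent.Helper55.FL2

open FL Pool.Agent.Helper45.LOC
open Pool.Agent.Helper81.FL2 (cface_inf)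

section

variable {A : Type} [SmallCategory A] {X : SP A}

/-- A functional natural relation gives a map. -/
theorem glue {P : SP A} (D : Sb P)
    (Rel : ∀ (a : Aᵒᵖ) (k : SimplexCategoryᵒᵖ), (P.obj a).obj k → (X.obj a).obj k → Prop)
    (ex : ∀ a k z, z ∈ D.mem a k → ∃ v, Rel a k z v)
    (uniq : ∀ a k z v v', Rel a k z v → Rel a k z v' → v = v')
    (natA : ∀ {a b : Aᵒᵖ} (f : a ⟶ b) (k : SimplexCategoryᵒᵖ) (z : (P.obj a).obj k)
      (v : (X.obj a).obj k), Rel a k z v → Rel b k ((P.map f).app k z) ((X.map f).app k v))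
    (natk : ∀ (a : Aᵒᵖ) {k l : SimplexCategoryᵒᵖ} (α : k ⟶ l) (z : (P.obj a).obj k)
      (v : (X.obj a).obj k), Rel a k z v → Rel a l ((P.obj a).map α z) ((X.obj a).map α v)) :
    ∃ g : D.toSP ⟶ X, ∀ a k (z : (D.toSP.obj a).obj k),
      Rel a k z.1 ((g.app a).app k z) := by
  classical
  choose c hc using ex
  refine ⟨
    { app := fun a =>
        { app := fun k => ↾ fun z => c a k z.1 z.2
          naturality := fun k l α => ?_ }
      naturality := fun a b f => ?_ }, fun a k z => hc a k z.1 z.2⟩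
  · refine ConcreteCategory.hom_ext _ _ fun z => ?_
    exact uniq a l _ _ _ (hc a l _ (D.mapk a α z.1 z.2)) (natk a α z.1 _ (hc a k z.1 z.2))
  · refine NatTrans.ext (funext fun k => ?_)
    refine ConcreteCategory.hom_ext _ _ fun z => ?_
    exact uniq b k _ _ _ (hc b k _ (D.mapA f k z.1 z.2)) (natA f k z.1 _ (hc a k z.1 z.2))

theorem isIso_of_bij {P Q : SP A} (f : P ⟶ Q)
    (h : ∀ a k, Function.Bijective ((f.app a).app k)) : IsIso f := by
  have : ∀ a, IsIso (f.app a) := by
    intro a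
    have : ∀ k, IsIso ((f.app a).app k) := fun k => (isIso_iff_bijective _).2 (h a k)
    exact NatIso.isIso_of_isIso_app _
  exact NatIso.isIso_of_isIso_app _

theorem inj_of_mono {P Q : SP A} (f : P ⟶ Q) (h : ∀ a, Mono (f.app a)) (a : Aᵒᵖ)
    (k : SimplexCategoryᵒᵖ) : Function.Injective ((f.app a).app k) := by
  have := h a
  rw [← mono_iff_injective]
  infer_instance

theorem mono_of_inj {P Q : SP A} (f : P ⟶ Q)
    (h : ∀ a k, Function.Injective ((f.app a).app k)) (a : Aᵒᵖ) : Mono (f.app a) := by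
  have : ∀ k, Mono ((f.app a).app k) := fun k => (mono_iff_injective _).2 (h a k)
  exact NatTrans.mono_of_mono_app _

variable {F G : SimplexCategory ⥤ SP A}

theorem tu_inj (u : F ⟶ G) (hu : ∀ m a, Mono ((u.app m).app a)) (N : SimplexCategory)
    (a : Aᵒᵖ) (k : SimplexCategoryᵒᵖ) : Function.Injective (((tu u N).app a).app k) := by
  rintro ⟨x, s⟩ ⟨y, t⟩ h
  have h' : ((((u.app N).app a).app k x, s) : ((G.obj N).obj a).obj k ×
      (SSet.stdSimplex.obj N).obj k) = (((u.app N).app a).app k y, t) := h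
  refine Prod.ext ?_ (Prod.ext_iff.1 h').2
  exact inj_of_mono (u.app N) (hu N) a k (Prod.ext_iff.1 h').1

/-- Faces of `F` are the traces of the faces of `G`. -/
theorem trace_face (u : F ⟶ G) (hu : ∀ m a, Mono ((u.app m).app a)) {N : SimplexCategory}
    (U : Finset (Fin (N.len + 1))) (a : Aᵒᵖ) (k : SimplexCategoryᵒᵖ)
    (z : ((tn (F.obj N) (SSet.stdSimplex.obj N)).obj a).obj k)
    (h : ((tu u N).app a).app k z ∈ (cface G U).mem a k) : z ∈ (cface F U).mem a k := by
  have hU : U.Nonempty := ⟨_, h.2 0⟩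
  obtain ⟨e, he⟩ := exists_rt hU
  rw [mem_cface_iff G he] at h
  rw [mem_cface_iff F he]
  refine ⟨inj_of_mono (u.app N) (hu N) a k ?_, h.2⟩
  rw [u_nat]
  exact h.1

/-- The family of all faces of codimension one. -/
def bdl (N : SimplexCategory) : List (Finset (Fin (N.len + 1))) :=
  (List.finRange (N.len + 1)).map (fun j => Finset.univ.erase j)

theorem mem_bd (F : SimplexCategory ⥤ SP A) {N : SimplexCategory} {a : Aᵒᵖ}
    {k : SimplexCategoryᵒᵖ} (z : ((tn (F.obj N) (SSet.stdSimplex.obj N)).obj a).obj k) :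
    z ∈ (fam F (bdl N)).mem a k ↔
      ∃ U : Finset (Fin (N.len + 1)), U ≠ Finset.univ ∧ z ∈ (cface F U).mem a k := by
  rw [mem_fam]
  constructor
  · rintro ⟨U, hU, h⟩
    obtain ⟨j, _, rfl⟩ := List.mem_map.1 hU
    refine ⟨_, fun h' => ?_, h⟩
    have := Finset.mem_univ j
    rw [← h'] at this
    exact Finset.notMem_erase j _ this
  · rintro ⟨U, hU, ⟨m, α, y, h1, h2⟩, h3⟩
    obtain ⟨j, hj⟩ : ∃ j, j ∉ U := by
      by_contra hcon
      push Not at hcon
      exact hU (Finset.eq_univ_iff_forall.2 hcon)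
    refine ⟨Finset.univ.erase j, List.mem_map.2 ⟨j, List.mem_finRange j, rfl⟩, ⟨m, α, y, ?_, h2⟩, ?_⟩
    · intro i
      exact Finset.mem_erase.2 ⟨fun h => hj (h ▸ h1 i), Finset.mem_univ _⟩
    · intro i
      exact Finset.mem_erase.2 ⟨fun h => hj (h ▸ h3 i), Finset.mem_univ _⟩

/-- The domain of the extension problem. -/
def dom (u : F ⟶ G) (N : SimplexCategory) : Sb (tn (G.obj N) (SSet.stdSimplex.obj N)) :=
  fam G (bdl N) ⊔ Sb.range (tu u N)

theorem loc_dom (hX : InjFib X) (u : F ⟶ G) (hu : ∀ m a, Mono ((u.app m).app a))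
    (N : SimplexCategory) (h : Loc X (u.app N)) : Loc X (dom u N).ι := by
  have hinj := tu_inj u hu N
  have hR : LocT X (Sb.range (tu u N)) ⊤ :=
    (loc_iff_range (tu u N) (mono_of_inj _ hinj)).1 (loc_tensor hX _ h _)
  have h1 : LocT X (Sb.range (tu u N) ⊓ fam G (bdl N)) (fam G (bdl N)) := by
    refine ⟨inf_le_right, ?_⟩
    -- the map of boundaries
    have h2 := loc_fam hX u N h _ (bdl N) rfl
    let r : (fam F (bdl N)).toSP ⟶ (Sb.range (tu u N) ⊓ fam G (bdl N)).toSP :=
      Sb.restr (tu u N) _ _ fun a k z hz => ⟨⟨z, rfl⟩, tu_fam u _ a k z hz⟩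
    have hr : IsIso r := by
      refine isIso_of_bij r fun a k => ⟨?_, ?_⟩
      · intro z w hzw
        exact Subtype.ext (hinj a k (congrArg Subtype.val hzw))
      · rintro ⟨_, ⟨z, rfl⟩, hz⟩
        refine ⟨⟨z, ?_⟩, rfl⟩
        have hz' : ((tu u N).app a).app k z ∈ (fam G (bdl N)).mem a k := hz
        rw [mem_bd] at hz' ⊢
        obtain ⟨U, hU, hz'⟩ := hz'
        exact ⟨U, hU, trace_face u hu U a k z hz'⟩
    exact loc_of_comp_left hX (loc_of_isIso r) h2
  have h3 : LocT X (Sb.range (tu u N)) (dom u N) := by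
    have := locT_push hX h1
    rwa [sup_comm] at this
  have h4 : LocT X (dom u N) ⊤ := locT_cancel hX h3 hR le_top
  obtain ⟨hle, h4⟩ := h4
  have hi : IsIso (Sb.ι (⊤ : Sb (tn (G.obj N) (SSet.stdSimplex.obj N)))) :=
    isIso_of_bij _ fun a k => ⟨fun x y h => Subtype.ext h, fun x => ⟨⟨x, trivial⟩, rfl⟩⟩
  exact loc_comp hX h4 (loc_of_isIso (Sb.ι (⊤ : Sb (tn (G.obj N) (SSet.stdSimplex.obj N)))))

/-- Nonsurjective endomorphisms. -/
def NS {N : SimplexCategory} (e : N ⟶ N) : Prop := ∃ j, ∀ i, e.toOrderHom i ≠ j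

theorem ns_of_rt {N : SimplexCategory} {U : Finset (Fin (N.len + 1))} (hU : U ≠ Finset.univ)
    {e : N ⟶ N} (he : ∀ i, e.toOrderHom i ∈ U) : NS e := by
  obtain ⟨j, hj⟩ : ∃ j, j ∉ U := by
    by_contra hcon
    push Not at hcon
    exact hU (Finset.eq_univ_iff_forall.2 hcon)
  exact ⟨j, fun i h => hj (h ▸ he i)⟩

theorem ns_sub {N : SimplexCategory} {U : Finset (Fin (N.len + 1))} {e w : N ⟶ N} (hn : NS e)
    (he : Rt U e) (hw : ∀ i, w.toOrderHom i ∈ U) : NS w := by
  obtain ⟨j, hj⟩ := hn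
  refine ⟨j, fun i h => hj j ?_⟩
  exact he.2 j (h ▸ hw i)

/-- The extension problem. -/
theorem exists_ext (hX : InjFib X) (u : F ⟶ G) (hu : ∀ m a, Mono ((u.app m).app a))
    (N : SimplexCategory) (h : Loc X (u.app N)) (ψ : MpS (F.obj N) X N)
    (b : ∀ e : N ⟶ N, NS e → MpS (G.obj N) X N)
    (hb : ∀ e e' : N ⟶ N, ∀ U : Finset (Fin (N.len + 1)), Rt U e' →
      (∀ i, e.toOrderHom i ∈ U) → ∀ (h1 : NS e) (h2 : NS e'),
        b e h1 = (MpS.ofHom N (G.map e)).comp ((b e' h2).res e))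
    (hc : ∀ (e : N ⟶ N) (h1 : NS e),
      (MpS.ofHom N (u.app N)).comp (b e h1) = (MpS.ofHom N (F.map e)).comp (ψ.res e)) :
    ∃ φ : MpS (G.obj N) X N, (MpS.ofHom N (u.app N)).comp φ = ψ ∧
      ∀ e : N ⟶ N, ∀ U : Finset (Fin (N.len + 1)), U ≠ Finset.univ → Rt U e → ∀ h1 : NS e,
        ∀ (a : Aᵒᵖ) (k : SimplexCategoryᵒᵖ) (s : k.unop ⟶ N) (x : ((G.obj N).obj a).obj k),
          ((G.map e).app a).app k x = x → s ≫ e = s →
            φ.app a k s x = (b e h1).app a k s x := by
  let Rel : ∀ (a : Aᵒᵖ) (k : SimplexCategoryᵒᵖ),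
      ((tn (G.obj N) (SSet.stdSimplex.obj N)).obj a).obj k → (X.obj a).obj k → Prop :=
    fun a k z v =>
      (∃ x : ((F.obj N).obj a).obj k, ((u.app N).app a).app k x = z.1 ∧
        v = ψ.app a k (SSet.stdSimplex.objEquiv z.2) x) ∨
      (∃ (e : N ⟶ N) (U : Finset (Fin (N.len + 1))) (h1 : NS e), Rt U e ∧
        z ∈ (cface G U).mem a k ∧ v = (b e h1).app a k (SSet.stdSimplex.objEquiv z.2) z.1)
  have key : ∀ (a : Aᵒᵖ) (k : SimplexCategoryᵒᵖ)
      (z : ((tn (G.obj N) (SSet.stdSimplex.obj N)).obj a).obj k)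
      (x : ((F.obj N).obj a).obj k) (e : N ⟶ N) (U : Finset (Fin (N.len + 1))) (hn : NS e),
      Rt U e → ((u.app N).app a).app k x = z.1 → z ∈ (cface G U).mem a k →
      ψ.app a k (SSet.stdSimplex.objEquiv z.2) x =
        (b e hn).app a k (SSet.stdSimplex.objEquiv z.2) z.1 := by
    intro a k z x e U hn he hx hz
    rw [mem_cface_iff G he] at hz
    have h1 : ((F.map e).app a).app k x = x := by
      apply inj_of_mono (u.app N) (hu N) a k
      rw [u_nat, hx]
      exact hz.1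
    have h2 := congrArg (fun t : MpS (F.obj N) X N => t.app a k (SSet.stdSimplex.objEquiv z.2) x)
      (hc e hn)
    have h3 : (b e hn).app a k (SSet.stdSimplex.objEquiv z.2) (((u.app N).app a).app k x) =
      ψ.app a k (SSet.stdSimplex.objEquiv z.2 ≫ e) (((F.map e).app a).app k x) := h2
    rw [h1, hz.2, hx] at h3
    exact h3.symm
  have key2 : ∀ (a : Aᵒᵖ) (k : SimplexCategoryᵒᵖ)
      (z : ((tn (G.obj N) (SSet.stdSimplex.obj N)).obj a).obj k)
      (e e' : N ⟶ N) (U V : Finset (Fin (N.len + 1))) (hn : NS e) (hn' : NS e'),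
      Rt U e → Rt V e' → V ⊆ U → z ∈ (cface G V).mem a k →
      (b e' hn').app a k (SSet.stdSimplex.objEquiv z.2) z.1 =
        (b e hn).app a k (SSet.stdSimplex.objEquiv z.2) z.1 := by
    intro a k z e e' U V hn hn' he he' hVU hz
    rw [mem_cface_iff G he'] at hz
    have h2 := hb e' e U he (fun i => hVU (he'.1 i)) hn' hn
    have h3 := congrArg (fun t : MpS (G.obj N) X N => t.app a k (SSet.stdSimplex.objEquiv z.2) z.1) h2
    have h4 : (b e' hn').app a k (SSet.stdSimplex.objEquiv z.2) z.1 =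
      (b e hn).app a k (SSet.stdSimplex.objEquiv z.2 ≫ e') (((G.map e').app a).app k z.1) := h3
    rw [hz.1, hz.2] at h4
    exact h4
  have hglue : ∃ g : (dom u N).toSP ⟶ X, ∀ a k (z : ((dom u N).toSP.obj a).obj k),
      Rel a k z.1 ((g.app a).app k z) := by
    refine glue (X := X) (dom u N) Rel ?_ ?_ ?_ ?_
    · -- existence
      intro a k z hz
      rcases hz with hz | ⟨x, hx⟩
      · have hz' : z ∈ (fam G (bdl N)).mem a k := hz
        rw [mem_bd] at hz'
        obtain ⟨U, hU, hz'⟩ := hz'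
        obtain ⟨e, he⟩ := exists_rt (U := U) ⟨_, hz'.2 0⟩
        exact ⟨_, Or.inr ⟨e, U, ns_of_rt hU he.1, he, hz', rfl⟩⟩
      · exact ⟨_, Or.inl ⟨x.1, congrArg Prod.fst hx, rfl⟩⟩
    · -- uniqueness
      rintro a k z v v' (⟨x, hx, rfl⟩ | ⟨e, U, hn, he, hz, rfl⟩)
        (⟨x', hx', rfl⟩ | ⟨e', V, hn', he', hz', rfl⟩)
      · have : x = x' := inj_of_mono (u.app N) (hu N) a k (hx.trans hx'.symm)
        rw [this]
      · exact key a k z x e' V hn' he' hx hz'
      · exact (key a k z x' e U hn he hx' hz).symm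
      · have hW : z ∈ (cface G (V ∩ U)).mem a k := by
          rw [cface_inf]
          exact ⟨hz', hz⟩
        obtain ⟨w, hw⟩ := exists_rt (U := V ∩ U) ⟨_, hW.2 0⟩
        have hnw : NS w := ns_sub hn he fun i => Finset.inter_subset_right (hw.1 i)
        exact (key2 a k _ e w U (V ∩ U) hn hnw he hw Finset.inter_subset_right hW).symm.trans
          (key2 a k _ e' w V (V ∩ U) hn' hnw he' hw Finset.inter_subset_left hW)
    · -- naturality in `a`
      rintro a a' f k z v (⟨x, hx, rfl⟩ | ⟨e, U, hn, he, hz, rfl⟩)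
      · refine Or.inl ⟨((F.obj N).map f).app k x, ?_, ?_⟩
        · rw [hom_nat, hx]
          rfl
        · exact (ψ.nat_left f k _ x).symm
      · refine Or.inr ⟨e, U, hn, he, (cface G U).mapA f k z hz, ?_⟩
        exact ((b e hn).nat_left f k _ z.1).symm
    · -- naturality in `k`
      rintro a k l α z v (⟨x, hx, rfl⟩ | ⟨e, U, hn, he, hz, rfl⟩)
      · refine Or.inl ⟨((F.obj N).obj a).map α x, ?_, ?_⟩
        · rw [hom_natk, hx]
          rfl
        · exact (ψ.nat_right a α _ x).symm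
      · refine Or.inr ⟨e, U, hn, he, (cface G U).mapk a α z hz, ?_⟩
        exact ((b e hn).nat_right a α _ z.1).symm
  obtain ⟨g, hg⟩ := hglue
  obtain ⟨g', hg'⟩ := loc_extend hX (dom u N).ι (fun a => mono_of_inj _
    (fun a k x y h => Subtype.ext h) a) (loc_dom hX u hu N h) g
  have hval : ∀ (a : Aᵒᵖ) (k : SimplexCategoryᵒᵖ)
      (z : ((tn (G.obj N) (SSet.stdSimplex.obj N)).obj a).obj k)
      (_ : z ∈ (dom u N).mem a k), Rel a k z ((g'.app a).app k z) := by
    intro a k z hz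
    have h1 := hg a k ⟨z, hz⟩
    rw [← hg'] at h1
    exact h1
  refine ⟨
    { app := fun a k s x => (g'.app a).app k (x, SSet.stdSimplex.objEquiv.symm s)
      nat_left := fun f k s x => hom_nat g' f (x, SSet.stdSimplex.objEquiv.symm s)
      nat_right := fun a {k l} α s x => hom_natk g' α (x, SSet.stdSimplex.objEquiv.symm s) },
    ?_, ?_⟩
  · refine MpS.ext ?_
    funext a k s x
    show (g'.app a).app k (((u.app N).app a).app k x, SSet.stdSimplex.objEquiv.symm s) = _
    rcases hval a k (((u.app N).app a).app k x, SSet.stdSimplex.objEquiv.symm s)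
      (Or.inr ⟨(x, SSet.stdSimplex.objEquiv.symm s), rfl⟩) with
        ⟨x', hx', hv⟩ | ⟨e, U, hn, he, hz, hv⟩
    · rw [hv]
      have : x' = x := inj_of_mono (u.app N) (hu N) a k hx'
      rw [this]
      rfl
    · rw [hv]
      exact (key a k (((u.app N).app a).app k x, SSet.stdSimplex.objEquiv.symm s) x e U hn he rfl
        hz).symm
  · intro e U hU he hn a k s x hx hs
    show (g'.app a).app k (x, SSet.stdSimplex.objEquiv.symm s) = _
    have hz : ((x, SSet.stdSimplex.objEquiv.symm s) :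
        ((tn (G.obj N) (SSet.stdSimplex.obj N)).obj a).obj k) ∈ (cface G U).mem a k :=
      (mem_cface_iff G he _).2 ⟨hx, hs⟩
    rcases hval a k (x, SSet.stdSimplex.objEquiv.symm s)
      (Or.inl ((mem_bd G _).2 ⟨U, hU, hz⟩)) with ⟨x', hx', hv⟩ | ⟨e', V, hn', he', hz', hv⟩
    · rw [hv]
      exact key a k _ x' e U hn he hx' hz
    · rw [hv]
      have hW : ((x, SSet.stdSimplex.objEquiv.symm s) :
          ((tn (G.obj N) (SSet.stdSimplex.obj N)).obj a).obj k) ∈ (cface G (V ∩ U)).mem a k := by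
        rw [cface_inf]
        exact ⟨hz', hz⟩
      obtain ⟨w, hw⟩ := exists_rt (U := V ∩ U) ⟨_, hW.2 0⟩
      have hnw : NS w := ns_sub hn he fun i => Finset.inter_subset_right (hw.1 i)
      exact (key2 a k _ e' w V (V ∩ U) hn' hnw he' hw Finset.inter_subset_left hW).symm.trans
        (key2 a k _ e w U (V ∩ U) hn hnw he hw Finset.inter_subset_right hW)

end

end Pool.Agent.Helper55.FL2
end

/- Helper55.FL2.GPc -/
section
/-! FL2-G4, part 3: `Yc.pre u X` is a trivial fibration if `u` is a local monomorphism. -/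

open CategoryTheory MonoidalCategory Opposite Simplicial

set_option autoImplicit false

namespace Pool.Agent.Helper55.FL2

open FL Pool.Agent.Helper45.LOC
open Pool.Agent.Helper81.FL2 (cface_inf)

section

variable {A : Type} [SmallCategory A] {X : SP A}

theorem mem_bdry {n : ℕ} {k : SimplexCategoryᵒᵖ} (s : (Δ[n] : SSet.{0}).obj k) :
    s ∈ (∂Δ[n] : (Δ[n] : SSet.{0}).Subcomplex).obj k ↔
      ¬ Function.Surjective (SSet.stdSimplex.objEquiv s).toOrderHom := Iff.rfl

theorem Yc_pre_trivFib (hX : InjFib X) {F G : SimplexCategory ⥤ SP A} (u : F ⟶ G)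
    (hu : ∀ m a, Mono ((u.app m).app a)) (h : ∀ m, Loc X (u.app m)) :
    TrivFib (Yc.pre u X) := by
  intro n
  constructor
  intro b c sq
  have hsq : ∀ (k : SimplexCategoryᵒᵖ) (s : (∂Δ[n] : SSet.{0}).obj k),
      (Yc.pre u X).app k (b.app k s) = c.app k s.1 := fun k s =>
    ConcreteCategory.congr_hom (NatTrans.congr_app sq.w k) s
  let id' : (Δ[n] : SSet.{0}).obj (op ⦋n⦌) := SSet.stdSimplex.objEquiv.symm (𝟙 ⦋n⦌)
  let mk : ∀ e : ⦋n⦌ ⟶ ⦋n⦌, NS e → (∂Δ[n] : SSet.{0}).obj (op ⦋n⦌) := fun e he =>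
    ⟨SSet.stdSimplex.objEquiv.symm e, fun hs => by
      obtain ⟨j, hj⟩ := he
      obtain ⟨i, hi⟩ := hs j
      exact hj i hi⟩
  have hmk : ∀ (k : SimplexCategoryᵒᵖ) (α : k.unop ⟶ ⦋n⦌) (e : ⦋n⦌ ⟶ ⦋n⦌) (he : NS e)
      (hs : SSet.stdSimplex.objEquiv.symm (α ≫ e) ∈
        (∂Δ[n] : (Δ[n] : SSet.{0}).Subcomplex).obj k),
      (∂Δ[n] : SSet.{0}).map α.op (mk e he) = ⟨SSet.stdSimplex.objEquiv.symm (α ≫ e), hs⟩ :=
    fun _ _ _ _ _ => rfl
  obtain ⟨φ, hφ, hφ'⟩ := exists_ext hX u hu ⦋n⦌ (h _) (c.app (op ⦋n⦌) id')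
    (fun e he => b.app (op ⦋n⦌) (mk e he)) (by
      intro e e' U he' hU h1 h2
      have h3 : e ≫ e' = e := comp_rt he' e hU
      have h4 : (∂Δ[n] : SSet.{0}).map e.op (mk e' h2) = mk e h1 :=
        Subtype.ext (congrArg SSet.stdSimplex.objEquiv.symm h3)
      show b.app (op ⦋n⦌) (mk e h1) = (Yc G X).map e.op (b.app (op ⦋n⦌) (mk e' h2))
      rw [← h4]
      exact sset_nat b e.op (mk e' h2)) (by
      intro e h1
      have h2 := hsq (op ⦋n⦌) (mk e h1)
      refine h2.trans ?_
      have h3 : (mk e h1).1 = (Δ[n] : SSet.{0}).map e.op id' := by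
        show SSet.stdSimplex.objEquiv.symm e = SSet.stdSimplex.objEquiv.symm (e ≫ 𝟙 _)
        rw [Category.comp_id]
      rw [h3]
      exact sset_nat c e.op id')
  refine ⟨⟨{ l := SSet.yonedaEquiv.symm φ, fac_left := ?_, fac_right := ?_ }⟩⟩
  · refine NatTrans.ext (funext fun k => ?_)
    refine ConcreteCategory.hom_ext _ _ fun s => ?_
    obtain ⟨s, hs⟩ := s
    -- the image
    let α : k.unop ⟶ ⦋n⦌ := SSet.stdSimplex.objEquiv s
    let U : Finset (Fin (n + 1)) := Finset.univ.image α.toOrderHom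
    have hU : U ≠ Finset.univ := by
      intro hU
      refine hs fun j => ?_
      have hj : j ∈ U := hU ▸ Finset.mem_univ j
      obtain ⟨i, _, hi⟩ := Finset.mem_image.1 hj
      exact ⟨i, hi⟩
    have hαU : ∀ i, α.toOrderHom i ∈ U := fun i => Finset.mem_image_of_mem _ (Finset.mem_univ i)
    obtain ⟨e, he⟩ := exists_rt (N := ⦋n⦌) (U := U) ⟨_, hαU 0⟩
    have hn : NS e := ns_of_rt hU he.1
    have hαe : α ≫ e = α := comp_rt he α hαU
    have h1 : (⟨s, hs⟩ : (∂Δ[n] : SSet.{0}).obj k) = (∂Δ[n] : SSet.{0}).map α.op (mk e hn) := by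
      refine Subtype.ext ?_
      show s = SSet.stdSimplex.objEquiv.symm (α ≫ e)
      rw [hαe]
      exact (SSet.stdSimplex.objEquiv.symm_apply_apply s).symm
    show (Yc G X).map α.op φ = b.app k ⟨s, hs⟩
    rw [h1]
    refine Eq.trans ?_ (sset_nat b α.op (mk e hn)).symm
    refine MpS.ext ?_
    funext a m t x
    exact hφ' e U hU he hn a m (t ≫ α) (((G.map α).app a).app m x)
      ((cos_comp G α e x).symm.trans (by rw [hαe])) (by rw [Category.assoc, hαe])
  · apply SSet.yonedaEquiv.injective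
    show (Yc.pre u X).app (op ⦋n⦌) ((Yc G X).map (𝟙 _) φ) = c.app (op ⦋n⦌) id'
    exact (congrArg ((Yc.pre u X).app (op ⦋n⦌)) (sset_id (Yc G X) φ)).trans hφ

end

end Pool.Agent.Helper55.FL2
end

/- Helper55.FL2.GPd -/
section
/-! FL2-G4, part 4: the generation principle for arbitrary maps (mapping cylinders). -/

open CategoryTheory MonoidalCategory Opposite Simplicial

set_option autoImplicit false

namespace Pool.Agent.Helper55.FL2

open FL Pool.Agent.Helper45.LOC
open Pool.Agent.Helper81.FL2 (cface_inf)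
open Pool.Agent.Helper36.FL (Cyl CylS cst_ne)
open Pool.Agent.Helper36.FL.CylS

section

variable {A : Type} [SmallCategory A] {X : SP A}

section

variable {P Q P' Q' : SP A} {f : P ⟶ Q} {f' : P' ⟶ Q'}

/-- Functoriality of mapping cylinders, on simplices. -/
noncomputable def cylS (f : P ⟶ Q) (f' : P' ⟶ Q') (p : P ⟶ P') (q : Q ⟶ Q') (a : Aᵒᵖ)
    (k : SimplexCategoryᵒᵖ) : CylS f a k → CylS f' a k :=
  desc (fun t x => cy f' t ((p.app a).app k x)) (fun y => base ((q.app a).app k y))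

theorem cylS_cy {p : P ⟶ P'} {q : Q ⟶ Q'} (w : f ≫ q = p ≫ f') (a : Aᵒᵖ)
    (k : SimplexCategoryᵒᵖ) (t : k.unop ⟶ ⦋1⦌) (x : (P.obj a).obj k) :
    cylS f f' p q a k (cy f t x) = cy f' t ((p.app a).app k x) := by
  refine desc_cy _ _ (fun x => ?_) t x
  rw [cy_zero]
  exact congrArg base (ConcreteCategory.congr_hom (NatTrans.congr_app
    (NatTrans.congr_app w a) k) x).symm

theorem cylS_base {p : P ⟶ P'} {q : Q ⟶ Q'} (a : Aᵒᵖ)
    (k : SimplexCategoryᵒᵖ) (y : (Q.obj a).obj k) :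
    cylS f f' p q a k (base y) = base ((q.app a).app k y) := rfl

/-- Functoriality of mapping cylinders. -/
noncomputable def cylMap {p : P ⟶ P'} {q : Q ⟶ Q'} (w : f ≫ q = p ≫ f') : Cyl f ⟶ Cyl f' where
  app a :=
    { app := fun k => ↾ fun (c : CylS f a k) => cylS f f' p q a k c
      naturality := fun k l α => by
        refine ConcreteCategory.hom_ext _ _ fun c => ?_
        change cylS f f' p q a l (mapk α c) = mapk α (cylS f f' p q a k c)
        rcases CylS.eqv c with ⟨t, x, rfl⟩ | ⟨y, rfl⟩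
        · rw [mapk_cy, cylS_cy w, cylS_cy w, mapk_cy]
          exact congrArg (cy f' _) (hom_natk p α x)
        · rw [mapk_base, cylS_base, cylS_base, mapk_base]
          exact congrArg base (hom_natk q α y) }
  naturality a b g := by
    refine NatTrans.ext (funext fun k => ?_)
    refine ConcreteCategory.hom_ext _ _ fun c => ?_
    change cylS f f' p q b k (mapa g c) = mapa g (cylS f f' p q a k c)
    rcases CylS.eqv c with ⟨t, x, rfl⟩ | ⟨y, rfl⟩
    · rw [mapa_cy, cylS_cy w, cylS_cy w, mapa_cy]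
      exact congrArg (cy f' _) (hom_nat p g x)
    · rw [mapa_base, cylS_base, cylS_base, mapa_base]
      exact congrArg base (hom_nat q g y)

end

theorem sdr_ret {P Q : SP A} (f : P ⟶ Q) : SDR (Cyl.ret f) := by
  refine ⟨Cyl.inY f, ?_, Cyl.defo f, ?_, ?_⟩
  · rfl
  · refine MpS.ext ?_
    funext a k s (c : CylS f a k)
    have e : s ≫ (SimplexCategory.δ 1 : ⦋0⦌ ⟶ ⦋1⦌) = Pool.Agent.Helper36.FL.cst k.unop 0 := by
      ext i : 3
      change (SimplexCategory.δ 1 : ⦋0⦌ ⟶ ⦋1⦌).toOrderHom (s.toOrderHom i) = 0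
      rw [show s.toOrderHom i = 0 from Subsingleton.elim (α := Fin 1) _ _]
      rfl
    change (Cyl.defo f).app a k (s ≫ (SimplexCategory.δ 1 : ⦋0⦌ ⟶ ⦋1⦌)) c =
      base (((Cyl.ret f).app a).app k c)
    rw [e]
    rcases CylS.eqv c with ⟨t, x, rfl⟩ | ⟨y, rfl⟩
    · rw [Cyl.defo_cy, minT_zero_right, cy_zero, Cyl.ret_cy]
    · rfl
  · refine MpS.ext ?_
    funext a k s (c : CylS f a k)
    have e : s ≫ (SimplexCategory.δ 0 : ⦋0⦌ ⟶ ⦋1⦌) = Pool.Agent.Helper36.FL.cst k.unop 1 := by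
      ext i : 3
      change (SimplexCategory.δ 0 : ⦋0⦌ ⟶ ⦋1⦌).toOrderHom (s.toOrderHom i) = 1
      rw [show s.toOrderHom i = 0 from Subsingleton.elim (α := Fin 1) _ _]
      rfl
    change (Cyl.defo f).app a k (s ≫ (SimplexCategory.δ 0 : ⦋0⦌ ⟶ ⦋1⦌)) c = c
    rw [e]
    rcases CylS.eqv c with ⟨t, x, rfl⟩ | ⟨y, rfl⟩
    · rw [Cyl.defo_cy, minT_one_right]
    · rfl

theorem inX_ret {P Q : SP A} (f : P ⟶ Q) : Cyl.inX f ≫ Cyl.ret f = f := by
  refine NatTrans.ext (funext fun a => NatTrans.ext (funext fun k => ?_))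
  refine ConcreteCategory.hom_ext _ _ fun x => ?_
  exact Cyl.ret_cy f _ x

theorem inX_mono {P Q : SP A} (f : P ⟶ Q) (a : Aᵒᵖ) : Mono ((Cyl.inX f).app a) := by
  have : ∀ k, Mono (((Cyl.inX f).app a).app k) := by
    intro k
    rw [mono_iff_injective]
    intro x y hxy
    have h1 : cy f (Pool.Agent.Helper36.FL.cst k.unop 1) x =
      cy f (Pool.Agent.Helper36.FL.cst k.unop 1) y := hxy
    rw [cy_of_ne (cst_ne _), cy_of_ne (cst_ne _)] at h1
    injection h1
  exact NatTrans.mono_of_mono_app _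

theorem inY_mono {P Q : SP A} (f : P ⟶ Q) (a : Aᵒᵖ) : Mono ((Cyl.inY f).app a) := by
  have : ∀ k, Mono (((Cyl.inY f).app a).app k) := by
    intro k
    rw [mono_iff_injective]
    intro x y hxy
    have h1 : (base x : CylS f a k) = base y := hxy
    injection h1
  exact NatTrans.mono_of_mono_app _

variable {F G : SimplexCategory ⥤ SP A}

/-- The cosimplicial mapping cylinder. -/
noncomputable def cylF (u : F ⟶ G) : SimplexCategory ⥤ SP A where
  obj m := Cyl (u.app m)
  map α := cylMap (u.naturality α).symm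
  map_id m := by
    refine NatTrans.ext (funext fun a => NatTrans.ext (funext fun k => ?_))
    refine ConcreteCategory.hom_ext _ _ fun c => ?_
    change cylS _ _ _ _ a k c = c
    rcases CylS.eqv c with ⟨t, x, rfl⟩ | ⟨y, rfl⟩
    · rw [cylS_cy (u.naturality (𝟙 m)).symm]
      exact congrArg (cy (u.app m) t) (cos_id F x)
    · exact congrArg base (cos_id G y)
  map_comp {l m n} α β := by
    refine NatTrans.ext (funext fun a => NatTrans.ext (funext fun k => ?_))
    refine ConcreteCategory.hom_ext _ _ fun c => ?_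
    change cylS _ _ _ _ a k c = cylS _ _ _ _ a k (cylS _ _ _ _ a k c)
    rcases CylS.eqv c with ⟨t, x, rfl⟩ | ⟨y, rfl⟩
    · rw [cylS_cy (u.naturality (α ≫ β)).symm, cylS_cy (u.naturality α).symm,
        cylS_cy (u.naturality β).symm]
      exact congrArg (cy (u.app n) t) (cos_comp F α β x)
    · exact congrArg base (cos_comp G α β y)

/-- The inclusion of the source. -/
noncomputable def inXF (u : F ⟶ G) : F ⟶ cylF u where
  app m := Cyl.inX (u.app m)
  naturality m n α := by
    refine NatTrans.ext (funext fun a => NatTrans.ext (funext fun k => ?_))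
    refine ConcreteCategory.hom_ext _ _ fun x => ?_
    exact (cylS_cy (u.naturality α).symm a k _ x).symm

/-- The inclusion of the target. -/
noncomputable def inYF (u : F ⟶ G) : G ⟶ cylF u where
  app m := Cyl.inY (u.app m)
  naturality _ _ _ := rfl

/-- The retraction. -/
noncomputable def retF (u : F ⟶ G) : cylF u ⟶ G where
  app m := Cyl.ret (u.app m)
  naturality m n α := by
    refine NatTrans.ext (funext fun a => NatTrans.ext (funext fun k => ?_))
    refine ConcreteCategory.hom_ext _ _ fun c => ?_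
    change ((Cyl.ret (u.app n)).app a).app k (cylS _ _ _ _ a k c) =
      ((G.map α).app a).app k (((Cyl.ret (u.app m)).app a).app k c)
    rcases CylS.eqv c with ⟨t, x, rfl⟩ | ⟨y, rfl⟩
    · rw [cylS_cy (u.naturality α).symm, Cyl.ret_cy, Cyl.ret_cy]
      exact u_nat u α x
    · rfl

theorem Yc_pre_hoEq (hX : InjFib X) {F G : SimplexCategory ⥤ SP A} (u : F ⟶ G)
    (h : ∀ m, Loc X (u.app m)) (hF : SSet.KanComplex (Yc F X))
    (hG : SSet.KanComplex (Yc G X)) : HoEq (Yc.pre u X) := by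
  have hr : ∀ m, Loc X ((retF u).app m) := fun m => loc_of_sdr (sdr_ret (u.app m))
  have hi : ∀ m, Loc X ((inXF u).app m) := fun m => by
    refine loc_of_comp_right hX (hr m) ?_
    have h1 : (inXF u).app m ≫ (retF u).app m = u.app m := inX_ret (u.app m)
    rw [h1]
    exact h m
  have hj : ∀ m, Loc X ((inYF u).app m) := fun m => by
    refine loc_of_comp_right hX (hr m) ?_
    have h1 : (inYF u).app m ≫ (retF u).app m = 𝟙 (G.obj m) := rfl
    rw [h1]
    exact loc_of_isIso _
  have ti : TrivFib (Yc.pre (inXF u) X) :=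
    Yc_pre_trivFib hX (inXF u) (fun m a => inX_mono (u.app m) a) hi
  have tj : TrivFib (Yc.pre (inYF u) X) :=
    Yc_pre_trivFib hX (inYF u) (fun m a => inY_mono (u.app m) a) hj
  have hM : SSet.KanComplex (Yc (cylF u) X) :=
    Pool.Agent.Helper83.FL4.kan_of_kanFib (Pool.Agent.Helper45.FL2.TrivFib.kanFib ti) hF
  have e1 : Yc.pre (retF u) X ≫ Yc.pre (inYF u) X = 𝟙 _ := rfl
  have h2 : HoEq (Yc.pre (retF u) X) := by
    refine Pool.Agent.Helper88.FL.hoEq_of_comp_right hG hM hG
      (Pool.Agent.Helper45.FL2.TrivFib.hoEq tj) ?_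
    rw [e1]
    exact Pool.Agent.Helper88.FL.hoEq_of_isIso _
  have e2 : Yc.pre u X = Yc.pre (retF u) X ≫ Yc.pre (inXF u) X := by
    refine NatTrans.ext (funext fun m => ?_)
    refine ConcreteCategory.hom_ext _ _ fun φ => ?_
    refine MpS.ext ?_
    funext a k s x
    refine congrArg (MpS.app φ a k s) ?_
    exact (Cyl.ret_cy (u.app m.unop) _ x).symm
  rw [e2]
  exact Pool.Agent.Helper88.FL.hoEq_comp hG hM hF h2 (Pool.Agent.Helper45.FL2.TrivFib.hoEq ti)

end

end Pool.Agent.Helper55.FL2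
end

/- Helper55.FL2.GPe -/
section
/-! FL2-G4, part 5: the comparison map of a sub-presheaf. -/

open CategoryTheory MonoidalCategory Opposite Simplicial

set_option autoImplicit false

namespace Pool.Agent.Helper55.FL2

open FL Pool.Agent.Helper45.LOC
open Pool.Agent.Helper81.FL2 (cface_inf)

theorem kan_of_iso {K L : SSet.{0}} (f : K ⟶ L) [IsIso f] (hL : SSet.KanComplex L) :
    SSet.KanComplex K :=
  Pool.Agent.Helper83.FL4.kan_of_kanFib (p := f) (fun _ _ => inferInstance) hL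

theorem Fp_snd_kanFib {E₁ E₂ B : SSet.{0}} (p : E₁ ⟶ B) (q : E₂ ⟶ B) (hp : KanFib p) :
    KanFib (Fp.snd p q) := by
  intro n i
  have := hp n i
  constructor
  intro f g sq
  have w : f ≫ Fp.fst p q ≫ p = f ≫ Fp.snd p q ≫ q := by
    refine NatTrans.ext (funext fun k => ?_)
    refine ConcreteCategory.hom_ext _ _ fun z => ?_
    exact (f.app k z).2
  have sq' : CommSq (f ≫ Fp.fst p q) (Λ[n + 1, i].ι : (Λ[n + 1, i] : SSet.{0}) ⟶ _) p (g ≫ q) :=
    ⟨by rw [Category.assoc, w, ← Category.assoc, sq.w, Category.assoc]⟩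
  refine ⟨⟨{ l := Fp.lift sq'.lift g sq'.fac_right, fac_left := ?_, fac_right := ?_ }⟩⟩
  · refine NatTrans.ext (funext fun k => ?_)
    refine ConcreteCategory.hom_ext _ _ fun z => ?_
    refine Subtype.ext (Prod.ext ?_ ?_)
    · exact ConcreteCategory.congr_hom (NatTrans.congr_app sq'.fac_left k) z
    · exact (ConcreteCategory.congr_hom (NatTrans.congr_app sq.w k) z).symm
  · rfl

section

variable {C : Type} [SmallCategory C] {P : SP (Wr C)} (S : Sb P)

/-- The equivalence relation `(x, w) ~ (x, w')` for `x ∈ S`. -/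
def qS (m : SimplexCategory) (θ : (Wr C)ᵒᵖ) (k : SimplexCategoryᵒᵖ) :
    Setoid ((P.obj θ).obj k × (Fin (θ.unop.len + 1) → Fin (m.len + 1))) where
  r z z' := z.1 = z'.1 ∧ (z.1 ∈ S.mem θ k ∨ z.2 = z'.2)
  iseqv :=
    { refl := fun _ => ⟨rfl, Or.inr rfl⟩
      symm := fun {z z'} h => ⟨h.1.symm, h.2.elim (fun h' => Or.inl (h.1 ▸ h'))
        fun h' => Or.inr h'.symm⟩
      trans := fun {z z' z''} h h' => ⟨h.1.trans h'.1, by
        rcases h.2 with h2 | h2
        · exact Or.inl h2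
        · rcases h'.2 with h3 | h3
          · left
            rw [h.1]
            exact h3
          · exact Or.inr (h2.trans h3)⟩ }

/-- The quotient of `P × E[m]`. -/
noncomputable def Qo (m : SimplexCategory) : SP (Wr C) where
  obj θ :=
    { obj := fun k => Quotient (qS S m θ k)
      map := fun {k l} α => ↾ Quotient.map
        (fun z : (P.obj θ).obj k × (Fin (θ.unop.len + 1) → Fin (m.len + 1)) =>
          ((P.obj θ).map α z.1, z.2))
        (fun z z' (h : z.1 = z'.1 ∧ (z.1 ∈ S.mem θ k ∨ z.2 = z'.2)) =>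
          ⟨congrArg ((P.obj θ).map α) h.1, h.2.imp (fun h' => S.mapk θ α z.1 h') id⟩)
      map_id := fun k => by
        refine ConcreteCategory.hom_ext _ _ fun z => ?_
        induction z using Quotient.inductionOn with
        | h z => exact congrArg (Quotient.mk (qS S m θ k)) (Prod.ext (sset_id _ _) rfl)
      map_comp := fun {k l r} α β => by
        refine ConcreteCategory.hom_ext _ _ fun z => ?_
        induction z using Quotient.inductionOn with
        | h z => exact congrArg (Quotient.mk (qS S m θ r)) (Prod.ext (sset_comp _ α β _) rfl) }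
  map {θ θ'} φ :=
    { app := fun k => ↾ Quotient.map
        (fun z : (P.obj θ).obj k × (Fin (θ.unop.len + 1) → Fin (m.len + 1)) =>
          (((P.map φ).app k z.1, fun i => z.2 (Wr.Hom.f φ.unop i)) :
            (P.obj θ').obj k × (Fin (θ'.unop.len + 1) → Fin (m.len + 1))))
        (fun z z' (h : z.1 = z'.1 ∧ (z.1 ∈ S.mem θ k ∨ z.2 = z'.2)) =>
          ⟨congrArg ((P.map φ).app k) h.1, h.2.imp (fun h' => S.mapA φ k z.1 h')
            fun h' => congrArg (fun w i => w (Wr.Hom.f φ.unop i)) h'⟩)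
      naturality := fun k l α => by
        refine ConcreteCategory.hom_ext _ _ fun z => ?_
        induction z using Quotient.inductionOn with
        | h z => exact congrArg (Quotient.mk (qS S m θ' l)) (Prod.ext (sp_nat P φ α _) rfl) }
  map_id θ := by
    refine NatTrans.ext (funext fun k => ?_)
    refine ConcreteCategory.hom_ext _ _ fun z => ?_
    induction z using Quotient.inductionOn with
    | h z => exact congrArg (Quotient.mk (qS S m θ k)) (Prod.ext (sp_id P _) rfl)
  map_comp {θ θ' θ''} φ ψ := by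
    refine NatTrans.ext (funext fun k => ?_)
    refine ConcreteCategory.hom_ext _ _ fun z => ?_
    induction z using Quotient.inductionOn with
    | h z => exact congrArg (Quotient.mk (qS S m θ'' k)) (Prod.ext (sp_comp P φ ψ _) rfl)

/-- The cosimplicial structure of the quotients. -/
noncomputable def Qm {m n : SimplexCategory} (α : m ⟶ n) : Qo S m ⟶ Qo S n where
  app θ :=
    { app := fun k => ↾ Quotient.map
        (fun z : (P.obj θ).obj k × (Fin (θ.unop.len + 1) → Fin (m.len + 1)) =>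
          ((z.1, fun i => α.toOrderHom (z.2 i)) :
            (P.obj θ).obj k × (Fin (θ.unop.len + 1) → Fin (n.len + 1))))
        (fun z z' (h : z.1 = z'.1 ∧ (z.1 ∈ S.mem θ k ∨ z.2 = z'.2)) =>
          ⟨h.1, h.2.imp id fun h' => congrArg (fun w i => α.toOrderHom (w i)) h'⟩)
      naturality := fun k l β => by
        refine ConcreteCategory.hom_ext _ _ fun z => ?_
        induction z using Quotient.inductionOn with
        | h z => rfl }
  naturality θ θ' φ := by
    refine NatTrans.ext (funext fun k => ?_)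
    refine ConcreteCategory.hom_ext _ _ fun z => ?_
    induction z using Quotient.inductionOn with
    | h z => rfl

/-- The quotients as a cosimplicial object. -/
noncomputable def Qc : SimplexCategory ⥤ SP (Wr C) where
  obj m := Qo S m
  map α := Qm S α
  map_id m := by
    refine NatTrans.ext (funext fun θ => NatTrans.ext (funext fun k => ?_))
    refine ConcreteCategory.hom_ext _ _ fun z => ?_
    induction z using Quotient.inductionOn with
    | h z => rfl
  map_comp α β := by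
    refine NatTrans.ext (funext fun θ => NatTrans.ext (funext fun k => ?_))
    refine ConcreteCategory.hom_ext _ _ fun z => ?_
    induction z using Quotient.inductionOn with
    | h z => rfl

/-- The quotient map. -/
noncomputable def Qπ : (E0 C).obj P ⟶ Qc S where
  app m :=
    { app := fun θ =>
        { app := fun _ => ↾ fun z => Quotient.mk (qS S _ _ _) z
          naturality := fun _ _ _ => rfl }
      naturality := fun _ _ _ => rfl }
  naturality _ _ _ := rfl

/-- The projection. -/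
noncomputable def Qv : Qc S ⟶ cc P where
  app m :=
    { app := fun θ =>
        { app := fun k => ↾ Quotient.lift
            (fun z : (P.obj θ).obj k × (Fin (θ.unop.len + 1) → Fin (m.len + 1)) => z.1)
            (fun z z' (h : z.1 = z'.1 ∧ (z.1 ∈ S.mem θ k ∨ z.2 = z'.2)) => h.1)
          naturality := fun k l α => by
            refine ConcreteCategory.hom_ext _ _ fun z => ?_
            induction z using Quotient.inductionOn with
            | h z => rfl }
      naturality := fun θ θ' φ => by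
        refine NatTrans.ext (funext fun k => ?_)
        refine ConcreteCategory.hom_ext _ _ fun z => ?_
        induction z using Quotient.inductionOn with
        | h z => rfl }
  naturality m n α := by
    refine NatTrans.ext (funext fun θ => NatTrans.ext (funext fun k => ?_))
    refine ConcreteCategory.hom_ext _ _ fun z => ?_
    induction z using Quotient.inductionOn with
    | h z => rfl

/-- The section `x ↦ (x, 0)`. -/
noncomputable def Qs (m : SimplexCategory) : P ⟶ Qo S m where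
  app θ :=
    { app := fun k => ↾ fun x => Quotient.mk (qS S m θ k) (x, fun _ => 0)
      naturality := fun _ _ _ => rfl }
  naturality _ _ _ := rfl

/-- The first projection. -/
noncomputable def relFst (m : SimplexCategory) : (E0rel S m 0).toSP ⟶ P where
  app θ :=
    { app := fun k => ↾ fun z => z.1.1
      naturality := fun _ _ _ => rfl }
  naturality _ _ _ := rfl

theorem Qs_isPushout (m : SimplexCategory) :
    IsPushout (E0rel S m 0).ι (relFst S m) ((Qπ S).app m) (Qs S m) := by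
  refine isPushout_of_elem _ _ _ _ ?_ ?_ ?_ ?_ ?_ ?_
  · refine NatTrans.ext (funext fun θ => NatTrans.ext (funext fun k => ?_))
    refine ConcreteCategory.hom_ext _ _ fun z => ?_
    refine Quotient.sound (s := qS S m θ k) ⟨rfl, ?_⟩
    exact z.2.imp id fun h => funext h
  · intro θ k x y h
    exact Subtype.ext h
  · intro θ k x y h
    exact (Quotient.exact h : (qS S m θ k).r _ _).1
  · intro θ k x y hx _ h
    have h' : x.1 = y.1 ∧ (x.1 ∈ S.mem θ k ∨ x.2 = y.2) :=
      (Quotient.exact h : (qS S m θ k).r _ _)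
    refine Prod.ext h'.1 (h'.2.resolve_left fun h2 => hx ⟨⟨x, Or.inl h2⟩, rfl⟩)
  · rintro θ k x hx ⟨y, hy⟩
    have h' : y = x.1 ∧ (y ∈ S.mem θ k ∨ (fun _ => 0) = x.2) :=
      (Quotient.exact hy : (qS S m θ k).r _ _)
    refine hx ⟨⟨x, ?_⟩, rfl⟩
    rcases h'.2 with h2 | h2
    · exact Or.inl (h'.1 ▸ h2)
    · exact Or.inr fun i => (congrFun h2 i).symm
  · intro θ k z
    obtain ⟨w, hw⟩ := Quotient.exists_rep z
    exact Or.inl ⟨w, hw⟩

/-- The comparison of `Yc Q X` with the fibre product. -/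
noncomputable def Qfwd (X : SP (Wr C)) :
    Yc (Qc S) X ⟶ Fp (Yc.pre ((E0 C).map S.ι) X) (augY S.toSP X) where
  app m := ↾ fun χ => ⟨((MpS.ofHom m.unop ((Qπ S).app m.unop)).comp χ,
    (MpS.ofHom m.unop (S.ι ≫ Qs S m.unop)).comp χ), by
      refine MpS.ext ?_
      funext a k s z
      refine congrArg (MpS.app χ a k s) ?_
      exact Quotient.sound (s := qS S m.unop a k) ⟨rfl, Or.inl z.1.2⟩⟩
  naturality m n α := by
    refine ConcreteCategory.hom_ext _ _ fun χ => ?_
    refine Subtype.ext (Prod.ext rfl ?_)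
    refine MpS.ext ?_
    funext a k s z
    refine congrArg (MpS.app χ a k (s ≫ α.unop)) ?_
    exact Quotient.sound (s := qS S m.unop a k) ⟨rfl, Or.inl z.2⟩

theorem Qfwd_isIso (X : SP (Wr C)) : IsIso (Qfwd S X) := by
  have : ∀ m, IsIso ((Qfwd S X).app m) := by
    intro m
    rw [isIso_iff_bijective]
    constructor
    · intro χ χ' h
      refine MpS.ext ?_
      funext a k s z
      obtain ⟨w, rfl⟩ := Quotient.exists_rep z
      have h1 := congrArg (fun t => t.1.1) h
      exact congrFun (congrFun (congrFun (congrFun (congrArg MpS.app h1) a) k) s) w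
    · rintro ⟨⟨φ, ψ⟩, h⟩
      have h' : ∀ a k (s : k.unop ⟶ m.unop) (x : ((S.toSP).obj a).obj k)
          (w : Fin (a.unop.len + 1) → Fin (m.unop.len + 1)),
          φ.app a k s (x.1, w) = ψ.app a k s x := by
        intro a k s x w
        exact congrFun (congrFun (congrFun (congrFun (congrArg MpS.app h) a) k) s) (x, w)
      refine ⟨
        { app := fun a k s => Quotient.lift (fun z => φ.app a k s z) ?_
          nat_left := ?_
          nat_right := ?_ }, ?_⟩
      · rintro ⟨x, w⟩ ⟨y, w'⟩ ⟨h1, h2⟩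
        obtain rfl : x = y := h1
        rcases h2 with h2 | h2
        · exact (h' a k s ⟨x, h2⟩ w).trans (h' a k s ⟨x, h2⟩ w').symm
        · obtain rfl : w = w' := h2
          rfl
      · intro a b f k s z
        obtain ⟨w, rfl⟩ := Quotient.exists_rep z
        exact φ.nat_left f k s w
      · intro a k l g s z
        obtain ⟨w, rfl⟩ := Quotient.exists_rep z
        exact φ.nat_right a g s w
      · refine Subtype.ext (Prod.ext rfl ?_)
        refine MpS.ext ?_
        funext a k s x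
        exact h' a k s x fun _ => 0
  exact NatIso.isIso_of_isIso_app _

theorem loc_ι_of_top {A : Type} [SmallCategory A] {X : SP A} (hX : InjFib X) {P : SP A}
    (T : Sb P) (h : LocT X T ⊤) : Loc X T.ι := by
  obtain ⟨_, h⟩ := h
  have hi : IsIso (Sb.ι (⊤ : Sb P)) :=
    isIso_of_bij _ fun a k => ⟨fun x y h => Subtype.ext h, fun x => ⟨⟨x, trivial⟩, rfl⟩⟩
  exact loc_comp hX h (loc_of_isIso (Sb.ι (⊤ : Sb P)))

end

/-- `Mp P X` is `Yc` of the constant cosimplicial object. -/
def ccIso {A : Type} [SmallCategory A] (P X : SP A) : Yc (cc P) X ≅ Mp P X where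
  hom :=
    { app := fun m => ↾ fun φ => φ
      naturality := fun _ _ _ => rfl }
  inv :=
    { app := fun m => ↾ fun φ => φ
      naturality := fun _ _ _ => rfl }
  hom_inv_id := rfl
  inv_hom_id := rfl

theorem relMap_hoEq {C : Type} [SmallCategory C] {X : SP (Wr C)} (hX : InjFib X)
    {P : SP (Wr C)} (S : Sb P) (h : ∀ m, LocT X (E0rel S m 0) ⊤)
    (hK : SSet.KanComplex (Yc ((E0 C).obj P) X))
    (hF : KanFib (Yc.pre ((E0 C).map S.ι) X)) : HoEq (relMap S X) := by
  have hs : ∀ m, Loc X (Qs S m) := fun m =>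
    loc_pushout hX (Qs_isPushout S m) (fun a => mono_of_inj _
      (fun a k x y h => Subtype.ext h) a) (loc_ι_of_top hX _ (h m))
  have hv : ∀ m, Loc X ((Qv S).app m) := fun m => by
    have e : Loc X (𝟙 P) := loc_of_isIso _
    exact loc_of_comp_left (g := (Qv S).app m) hX (hs m) e
  have hP : SSet.KanComplex (Mp P X) := Pool.Agent.Helper83.FL4.Mp_kan P hX
  have hS : SSet.KanComplex (Mp S.toSP X) := Pool.Agent.Helper83.FL4.Mp_kan S.toSP hX
  have hc : SSet.KanComplex (Yc (cc P) X) := kan_of_iso (ccIso P X).hom hP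
  have hFp : SSet.KanComplex (Fp (Yc.pre ((E0 C).map S.ι) X) (augY S.toSP X)) :=
    Pool.Agent.Helper83.FL4.kan_of_kanFib (Fp_snd_kanFib _ _ hF) hS
  have hi := Qfwd_isIso S X
  have hQ : SSet.KanComplex (Yc (Qc S) X) := kan_of_iso (Qfwd S X) hFp
  have h1 := Yc_pre_hoEq hX (Qv S) hv hQ hc
  exact Pool.Agent.Helper88.FL.hoEq_of_arrow_iso (ccIso P X) (asIso (Qfwd S X)) rfl h1

end Pool.Agent.Helper55.FL2
end

/- Helper86.FL2.KGoodCore -/
section
/-!
# Project FL2, module C2 (KGOOD): `Kf T X` is vertex-fibrant and satisfies the Segal condition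

Everything relative to the results `Dep X` of the modules G1, G3, G4.
-/

open CategoryTheory MonoidalCategory Opposite

set_option autoImplicit false

namespace Pool.Agent.Helper86.FL2

open _root_.FL

/-- The results of the modules G1, G3, G4 which are used here. -/
structure Dep {A : Type} [SmallCategory A] (X : SP A) : Prop where
  locT_trans : ∀ {P : SP A} {S T U : Sb P}, LocT X S T → LocT X T U → LocT X S U
  locT_push : ∀ {P : SP A} {S T : Sb P}, LocT X (S ⊓ T) T → LocT X S (S ⊔ T)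
  locT_comap : ∀ {P Q : SP A} (f : P ⟶ Q) (_ : ∀ a, Mono (f.app a)) (S T : Sb Q)
    (_ : S ≤ T) (_ : T ≤ Sb.range f), LocT X (S.comap f) (T.comap f) ↔ LocT X S T
  loc_iff_range : ∀ {P Q : SP A} (f : P ⟶ Q) (_ : ∀ a, Mono (f.app a)),
    Loc X f ↔ LocT X (Sb.range f) ⊤
  Yc_kan : ∀ {F : SimplexCategory ⥤ SP A} (_ : Ext X F), SSet.KanComplex (Yc F X)
  Yc_pre_kanFib : ∀ {F G : SimplexCategory ⥤ SP A} (u : F ⟶ G)
    (_ : ∀ m a, Mono ((u.app m).app a)) (_ : Ext X F) (_ : Ext X G)
    (_ : ∀ i : Fin 2, HasLiftingProperty (SSet.horn.{0} 1 i).ι (Yc.pre u X)),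
    KanFib (Yc.pre u X)
  Yc_pre_trivFib : ∀ {F G : SimplexCategory ⥤ SP A} (u : F ⟶ G)
    (_ : ∀ m a, Mono ((u.app m).app a)) (_ : ∀ m, Loc X (u.app m)), TrivFib (Yc.pre u X)

section Elem

lemma inj_of_mono {K L : SSet.{0}} (f : K ⟶ L) (h : Mono f) (k : SimplexCategoryᵒᵖ) :
    Function.Injective (f.app k) := by
  have : Mono (f.app k) := inferInstance
  exact (CategoryTheory.mono_iff_injective _).1 this

lemma mono_of_inj {K L : SSet.{0}} (f : K ⟶ L)
    (h : ∀ k, Function.Injective (f.app k)) : Mono f := by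
  have : ∀ k, Mono (f.app k) := fun k => (CategoryTheory.mono_iff_injective _).2 (h k)
  exact NatTrans.mono_of_mono_app f

lemma isIso_of_bij {K L : SSet.{0}} (f : K ⟶ L)
    (h : ∀ k, Function.Bijective (f.app k)) : IsIso f := by
  have : ∀ k, IsIso (f.app k) := fun k => (CategoryTheory.isIso_iff_bijective _).2 (h k)
  exact NatIso.isIso_of_isIso_app f

end Elem


section Glue

variable {A : Type} [SmallCategory A]

open Classical in
/-- Gluing of maps defined on the two images. -/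
noncomputable def glue {P Q F X : SP A} (u : P ⟶ F) (v : Q ⟶ F) {m : SimplexCategory}
    (φ : MpS P X m) (ψ : MpS Q X m)
    (hu : ∀ a k, Function.Injective ((u.app a).app k))
    (hv : ∀ a k, Function.Injective ((v.app a).app k))
    (h : ∀ a k (s : k.unop ⟶ m) (x : (P.obj a).obj k) (y : (Q.obj a).obj k),
      (u.app a).app k x = (v.app a).app k y → φ.app a k s x = ψ.app a k s y) :
    { χ : MpS (Sb.range u ⊔ Sb.range v).toSP X m //
      (∀ a k s x, χ.app a k s ⟨(u.app a).app k x, Or.inl ⟨x, rfl⟩⟩ = φ.app a k s x) ∧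
      ∀ a k s y, χ.app a k s ⟨(v.app a).app k y, Or.inr ⟨y, rfl⟩⟩ = ψ.app a k s y } := by
  let g : ∀ (a : Aᵒᵖ) (k : SimplexCategoryᵒᵖ) (s : k.unop ⟶ m)
      (z : ((Sb.range u ⊔ Sb.range v).toSP.obj a).obj k), (X.obj a).obj k := fun a k s z =>
    if hz : ∃ x, (u.app a).app k x = z.1 then φ.app a k s hz.choose
    else ψ.app a k s (z.2.resolve_left hz).choose
  have gu : ∀ a k s x (hx), g a k s ⟨(u.app a).app k x, hx⟩ = φ.app a k s x := by
    intro a k s x hx
    have hz : ∃ x', (u.app a).app k x' = (u.app a).app k x := ⟨x, rfl⟩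
    refine (dif_pos hz).trans ?_
    exact congrArg (φ.app a k s) (hu a k hz.choose_spec)
  have gv : ∀ a k s y (hy), g a k s ⟨(v.app a).app k y, hy⟩ = ψ.app a k s y := by
    intro a k s y hy
    by_cases hz : ∃ x', (u.app a).app k x' = (v.app a).app k y
    · refine (dif_pos hz).trans ?_
      exact h a k s _ _ hz.choose_spec
    · refine (dif_neg hz).trans ?_
      exact congrArg (ψ.app a k s) (hv a k (hy.resolve_left hz).choose_spec)
  refine ⟨{ app := g, nat_left := ?_, nat_right := ?_ }, fun a k s x => gu a k s x _,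
    fun a k s y => gv a k s y _⟩
  · rintro a b f k s ⟨z, (⟨x, rfl⟩ | ⟨y, rfl⟩)⟩
    · have e : ((Sb.range u ⊔ Sb.range v).toSP.map f).app k ⟨(u.app a).app k x, Or.inl ⟨x, rfl⟩⟩ =
        ⟨(u.app b).app k ((P.map f).app k x), Or.inl ⟨_, rfl⟩⟩ := Subtype.ext (hom_nat u f x).symm
      rw [e, gu, gu, φ.nat_left]
    · have e : ((Sb.range u ⊔ Sb.range v).toSP.map f).app k ⟨(v.app a).app k y, Or.inr ⟨y, rfl⟩⟩ =
        ⟨(v.app b).app k ((Q.map f).app k y), Or.inr ⟨_, rfl⟩⟩ := Subtype.ext (hom_nat v f y).symm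
      rw [e, gv, gv, ψ.nat_left]
  · rintro a k l α s ⟨z, (⟨x, rfl⟩ | ⟨y, rfl⟩)⟩
    · have e : ((Sb.range u ⊔ Sb.range v).toSP.obj a).map α ⟨(u.app a).app k x, Or.inl ⟨x, rfl⟩⟩ =
        ⟨(u.app a).app l ((P.obj a).map α x), Or.inl ⟨_, rfl⟩⟩ := Subtype.ext (hom_natk u α x).symm
      rw [e, gu, gu, φ.nat_right]
    · have e : ((Sb.range u ⊔ Sb.range v).toSP.obj a).map α ⟨(v.app a).app k y, Or.inr ⟨y, rfl⟩⟩ =
        ⟨(v.app a).app l ((Q.obj a).map α y), Or.inr ⟨_, rfl⟩⟩ := Subtype.ext (hom_natk v α y).symm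
      rw [e, gv, gv, ψ.nat_right]

lemma glue_ext {P Q F X : SP A} (u : P ⟶ F) (v : Q ⟶ F) {m : SimplexCategory}
    {χ χ' : MpS (Sb.range u ⊔ Sb.range v).toSP X m}
    (h1 : ∀ a k s x, χ.app a k s ⟨(u.app a).app k x, Or.inl ⟨x, rfl⟩⟩ =
      χ'.app a k s ⟨(u.app a).app k x, Or.inl ⟨x, rfl⟩⟩)
    (h2 : ∀ a k s y, χ.app a k s ⟨(v.app a).app k y, Or.inr ⟨y, rfl⟩⟩ =
      χ'.app a k s ⟨(v.app a).app k y, Or.inr ⟨y, rfl⟩⟩) : χ = χ' := by
  refine MpS.ext ?_
  funext a k s z
  obtain ⟨z, (⟨x, rfl⟩ | ⟨y, rfl⟩)⟩ := z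
  · exact h1 a k s x
  · exact h2 a k s y

end Glue

section RU

variable {A : Type} [SmallCategory A]

/-- The union of the images of two maps of cosimplicial objects. -/
def RU {P Q F : SimplexCategory ⥤ SP A} (u : P ⟶ F) (v : Q ⟶ F) : SimplexCategory ⥤ SP A where
  obj m := (Sb.range (u.app m) ⊔ Sb.range (v.app m)).toSP
  map {m n} α := Sb.restr (F.map α) _ _ (by
    rintro a k z (⟨x, rfl⟩ | ⟨y, rfl⟩)
    · exact Or.inl ⟨((P.map α).app a).app k x, (ConcreteCategory.congr_hom (NatTrans.congr_app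
        (NatTrans.congr_app (u.naturality α) a) k) x)⟩
    · exact Or.inr ⟨((Q.map α).app a).app k y, (ConcreteCategory.congr_hom (NatTrans.congr_app
        (NatTrans.congr_app (v.naturality α) a) k) y)⟩)
  map_id m := by
    refine NatTrans.ext (funext fun a => NatTrans.ext (funext fun k => ?_))
    refine ConcreteCategory.hom_ext _ _ fun x => ?_
    exact Subtype.ext (cos_id F x.1)
  map_comp α β := by
    refine NatTrans.ext (funext fun a => NatTrans.ext (funext fun k => ?_))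
    refine ConcreteCategory.hom_ext _ _ fun x => ?_
    exact Subtype.ext (cos_comp F α β x.1)

variable {P Q F : SimplexCategory ⥤ SP A} (u : P ⟶ F) (v : Q ⟶ F)

lemma cos_nat {F G : SimplexCategory ⥤ SP A} (u : F ⟶ G) {m n : SimplexCategory} (α : m ⟶ n)
    {a : Aᵒᵖ} {k : SimplexCategoryᵒᵖ} (x : ((F.obj m).obj a).obj k) :
    ((u.app n).app a).app k (((F.map α).app a).app k x) =
      ((G.map α).app a).app k (((u.app m).app a).app k x) :=
  ConcreteCategory.congr_hom (NatTrans.congr_app (NatTrans.congr_app (u.naturality α) a) k) x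

/-- The inclusion. -/
def RU.ι : RU u v ⟶ F where
  app m := Sb.ι _
  naturality m n α := rfl

/-- The factorisation of `u`. -/
def RU.left : P ⟶ RU u v where
  app m :=
    { app := fun a =>
        { app := fun k => ↾ fun x => ⟨((u.app m).app a).app k x, Or.inl ⟨x, rfl⟩⟩
          naturality := fun k l α => by
            refine ConcreteCategory.hom_ext _ _ fun x => ?_
            exact Subtype.ext (hom_natk (u.app m) α x) }
      naturality := fun a b f => by
        refine NatTrans.ext (funext fun k => ?_)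
        refine ConcreteCategory.hom_ext _ _ fun x => ?_
        exact Subtype.ext (hom_nat (u.app m) f x) }
  naturality m n α := by
    refine NatTrans.ext (funext fun a => NatTrans.ext (funext fun k => ?_))
    refine ConcreteCategory.hom_ext _ _ fun x => ?_
    exact Subtype.ext (cos_nat u α x)

/-- The factorisation of `v`. -/
def RU.right : Q ⟶ RU u v where
  app m :=
    { app := fun a =>
        { app := fun k => ↾ fun x => ⟨((v.app m).app a).app k x, Or.inr ⟨x, rfl⟩⟩
          naturality := fun k l α => by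
            refine ConcreteCategory.hom_ext _ _ fun x => ?_
            exact Subtype.ext (hom_natk (v.app m) α x) }
      naturality := fun a b f => by
        refine NatTrans.ext (funext fun k => ?_)
        refine ConcreteCategory.hom_ext _ _ fun x => ?_
        exact Subtype.ext (hom_nat (v.app m) f x) }
  naturality m n α := by
    refine NatTrans.ext (funext fun a => NatTrans.ext (funext fun k => ?_))
    refine ConcreteCategory.hom_ext _ _ fun x => ?_
    exact Subtype.ext (cos_nat v α x)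

lemma RU.ι_mono (m : SimplexCategory) (a : Aᵒᵖ) : Mono (((RU.ι u v).app m).app a) :=
  mono_of_inj _ fun _ _ _ h => Subtype.ext h

lemma RU.left_mono (hu : ∀ m a, Mono ((u.app m).app a)) (m : SimplexCategory) (a : Aᵒᵖ) :
    Mono (((RU.left u v).app m).app a) :=
  mono_of_inj _ fun k _ _ h => inj_of_mono _ (hu m a) k (congrArg Subtype.val h)

lemma RU.right_mono (hv : ∀ m a, Mono ((v.app m).app a)) (m : SimplexCategory) (a : Aᵒᵖ) :
    Mono (((RU.right u v).app m).app a) :=
  mono_of_inj _ fun k _ _ h => inj_of_mono _ (hv m a) k (congrArg Subtype.val h)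

lemma RU.range_ι (m : SimplexCategory) :
    Sb.range ((RU.ι u v).app m) = Sb.range (u.app m) ⊔ Sb.range (v.app m) := by
  refine Sb.ext ?_
  funext a k
  refine Set.ext fun z => ?_
  constructor
  · rintro ⟨y, rfl⟩
    exact y.2
  · intro h
    exact ⟨⟨z, h⟩, rfl⟩

end RU


section Image

variable {A : Type} [SmallCategory A] {X : SP A}

/-- The image of a sub-presheaf. -/
def im {P Q : SP A} (f : P ⟶ Q) (S : Sb P) : Sb Q where
  mem a k := (f.app a).app k '' S.mem a k
  mapA := by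
    rintro a b g k _ ⟨y, hy, rfl⟩
    exact ⟨(P.map g).app k y, S.mapA g k y hy, hom_nat f g y⟩
  mapk := by
    rintro a k l α _ ⟨y, hy, rfl⟩
    exact ⟨(P.obj a).map α y, S.mapk a α y hy, hom_natk f α y⟩

lemma comap_im {P Q : SP A} (f : P ⟶ Q) (hf : ∀ a, Mono (f.app a)) (S : Sb P) :
    (im f S).comap f = S := by
  refine Sb.ext ?_
  funext a k
  refine Set.ext fun z => ?_
  constructor
  · rintro ⟨y, hy, e⟩
    exact inj_of_mono _ (hf a) k e ▸ hy
  · intro h
    exact ⟨z, h, rfl⟩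

lemma im_le_range {P Q : SP A} (f : P ⟶ Q) (S : Sb P) : im f S ≤ Sb.range f := by
  rintro a k _ ⟨y, _, rfl⟩
  exact ⟨y, rfl⟩

lemma im_mono {P Q : SP A} (f : P ⟶ Q) {S T : Sb P} (h : S ≤ T) : im f S ≤ im f T := by
  rintro a k _ ⟨y, hy, rfl⟩
  exact ⟨y, h a k hy, rfl⟩

lemma im_sup {P Q : SP A} (f : P ⟶ Q) (S T : Sb P) : im f (S ⊔ T) = im f S ⊔ im f T := by
  refine Sb.ext ?_
  funext a k
  exact Set.image_union _ _ _

lemma locT_im (D : Dep X) {P Q : SP A} (f : P ⟶ Q) (hf : ∀ a, Mono (f.app a)) {S T : Sb P}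
    (h : LocT X S T) : LocT X (im f S) (im f T) := by
  refine (D.locT_comap f hf _ _ (im_mono f h.1) (im_le_range f T)).1 ?_
  rw [comap_im f hf, comap_im f hf]
  exact h

/-- Locality of unions of disjoint images. -/
lemma locT_two (D : Dep X) {P Q F : SP A} (u : P ⟶ F) (v : Q ⟶ F)
    (hu : ∀ a, Mono (u.app a)) (hv : ∀ a, Mono (v.app a))
    (hd : Sb.range u ⊓ Sb.range v = ⊥) {S T : Sb P} {S' T' : Sb Q}
    (h : LocT X S T) (h' : LocT X S' T') :
    LocT X (im u S ⊔ im v S') (im u T ⊔ im v T') := by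
  have hd1 : ∀ (U : Sb P) (V : Sb Q), im u U ⊓ im v V = ⊥ := fun U V =>
    le_bot_iff.1 ((inf_le_inf (im_le_range u U) (im_le_range v V)).trans hd.le)
  have e1 : (im u S ⊔ im v S') ⊓ im u T = im u S := by
    rw [inf_sup_right, inf_eq_left.2 (im_mono u h.1), inf_comm (im v S'), hd1, sup_bot_eq]
  have e2 : (im u S ⊔ im v S') ⊔ im u T = im u T ⊔ im v S' := by
    rw [sup_right_comm, sup_eq_right.2 (im_mono u h.1)]
  have e3 : (im u T ⊔ im v S') ⊓ im v T' = im v S' := by
    rw [inf_sup_right, hd1, bot_sup_eq, inf_eq_left.2 (im_mono v h'.1)]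
  have e4 : (im u T ⊔ im v S') ⊔ im v T' = im u T ⊔ im v T' := by
    rw [sup_assoc, sup_eq_right.2 (im_mono v h'.1)]
  have l1 : LocT X (im u S ⊔ im v S') ((im u S ⊔ im v S') ⊔ im u T) :=
    D.locT_push (by rw [e1]; exact locT_im D u hu h)
  have l2 : LocT X (im u T ⊔ im v S') ((im u T ⊔ im v S') ⊔ im v T') :=
    D.locT_push (by rw [e3]; exact locT_im D v hv h')
  rw [e2] at l1
  rw [e4] at l2
  exact D.locT_trans l1 l2

variable {P Q F : SimplexCategory ⥤ SP A} (u : P ⟶ F) (v : Q ⟶ F)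

lemma fface_RU {N : SimplexCategory} (U : Finset (Fin (N.len + 1))) :
    fface (RU u v) U = im ((RU.left u v).app N) (fface P U) ⊔
      im ((RU.right u v).app N) (fface Q U) := by
  refine Sb.ext ?_
  funext a k
  refine Set.ext fun z => ?_
  constructor
  · rintro ⟨m, α, ⟨y, (⟨x, rfl⟩ | ⟨x, rfl⟩)⟩, hα, rfl⟩
    · refine Or.inl ⟨((P.map α).app a).app k x, ⟨m, α, x, hα, rfl⟩, ?_⟩
      exact Subtype.ext (cos_nat u α x)
    · refine Or.inr ⟨((Q.map α).app a).app k x, ⟨m, α, x, hα, rfl⟩, ?_⟩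
      exact Subtype.ext (cos_nat v α x)
  · rintro (⟨_, ⟨m, α, x, hα, rfl⟩, rfl⟩ | ⟨_, ⟨m, α, x, hα, rfl⟩, rfl⟩)
    · refine ⟨m, α, (((RU.left u v).app m).app a).app k x, hα, ?_⟩
      exact Subtype.ext (cos_nat u α x).symm
    · refine ⟨m, α, (((RU.right u v).app m).app a).app k x, hα, ?_⟩
      exact Subtype.ext (cos_nat v α x).symm

lemma ext_RU (D : Dep X) (hu : ∀ m a, Mono ((u.app m).app a))
    (hv : ∀ m a, Mono ((v.app m).app a))
    (hd : ∀ m, Sb.range (u.app m) ⊓ Sb.range (v.app m) = ⊥) (hP : Ext X P) (hQ : Ext X Q) :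
    Ext X (RU u v) := by
  intro N S S' i hi
  have hd' : Sb.range ((RU.left u v).app N) ⊓ Sb.range ((RU.right u v).app N) = ⊥ := by
    refine le_bot_iff.1 ?_
    rintro a k z ⟨⟨x, rfl⟩, ⟨y, hy⟩⟩
    have : (((u.app N).app a).app k x) ∈
        (Sb.range (u.app N) ⊓ Sb.range (v.app N)).mem a k :=
      ⟨⟨x, rfl⟩, ⟨y, congrArg Subtype.val hy⟩⟩
    rw [hd N] at this
    exact this
  have := locT_two D ((RU.left u v).app N) ((RU.right u v).app N) (RU.left_mono u v hu N)
    (RU.right_mono u v hv N) hd' (hP N S S' i hi) (hQ N S S' i hi)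
  rw [im_sup, im_sup] at this
  rw [fface_RU, fface_RU, fface_RU]
  rwa [sup_sup_sup_comm]

end Image

section Cmp

variable {A : Type} [SmallCategory A] {X : SP A}

/-- Elements of `Yc F X`. -/
lemma pre_app {F G : SimplexCategory ⥤ SP A} (u : F ⟶ G) (m : SimplexCategoryᵒᵖ)
    (φ : (Yc G X).obj m) (a : Aᵒᵖ) (k : SimplexCategoryᵒᵖ) (s : k.unop ⟶ m.unop)
    (x : ((F.obj m.unop).obj a).obj k) :
    MpS.app ((Yc.pre u X).app m φ) a k s x =
      MpS.app φ a k s (((u.app m.unop).app a).app k x) := rfl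

end Cmp

section Main

variable {C : Type} [SmallCategory C] {X : SP (Wr C)}

lemma lift_iso_right {E B B' K L : SSet.{0}} {i : K ⟶ L} {p : E ⟶ B} (e : B ⟶ B') [IsIso e]
    (h : HasLiftingProperty i p) : HasLiftingProperty i (p ≫ e) := inferInstance

lemma lift_of_iso_right {E B B' K L : SSet.{0}} {i : K ⟶ L} {p : E ⟶ B} (e : B ⟶ B') [IsIso e]
    (h : HasLiftingProperty i (p ≫ e)) : HasLiftingProperty i p := by
  have : HasLiftingProperty i ((p ≫ e) ≫ inv e) := inferInstance
  rwa [Category.assoc, IsIso.hom_inv_id, Category.comp_id] at this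

section Ends

variable (T : Fr (Wr C)) (c : C)

/-- The restriction to the two vertices. -/
noncomputable def endsCmp (X : SP (Wr C)) :
    Yc (RU (T.map (vtx (seg c) 0)) (T.map (vtx (seg c) 1))) X ⟶
      (Kf T X).obj (op Wr.pt) ⊗ (Kf T X).obj (op Wr.pt) :=
  CartesianMonoidalCategory.lift (Yc.pre (RU.left _ _) X) (Yc.pre (RU.right _ _) X)

/-- The restriction along the inclusion of the two vertices. -/
noncomputable def endsPre (X : SP (Wr C)) : (Kf T X).obj (op (seg c)) ⟶
    Yc (RU (T.map (vtx (seg c) 0)) (T.map (vtx (seg c) 1))) X :=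
  Yc.pre (RU.ι (T.map (vtx (seg c) 0)) (T.map (vtx (seg c) 1))) X

lemma ends_eq (X : SP (Wr C)) : ends (Kf T X) c = endsPre T c X ≫ endsCmp T c X := by
  refine CartesianMonoidalCategory.hom_ext _ _ ?_ ?_
  · rw [Category.assoc, endsCmp, ends, CartesianMonoidalCategory.lift_fst,
      CartesianMonoidalCategory.lift_fst]
    rfl
  · rw [Category.assoc, endsCmp, ends, CartesianMonoidalCategory.lift_snd,
      CartesianMonoidalCategory.lift_snd]
    rfl

lemma endsCmp_isIso (hT : GoodFr X T) : IsIso (endsCmp T c X) := by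
  refine isIso_of_bij _ fun m => ⟨?_, ?_⟩
  · intro φ ψ h
    have h1 : (Yc.pre (RU.left (T.map (vtx (seg c) 0)) (T.map (vtx (seg c) 1))) X).app m φ =
      (Yc.pre (RU.left (T.map (vtx (seg c) 0)) (T.map (vtx (seg c) 1))) X).app m ψ :=
      congrArg Prod.fst h
    have h2 : (Yc.pre (RU.right (T.map (vtx (seg c) 0)) (T.map (vtx (seg c) 1))) X).app m φ =
      (Yc.pre (RU.right (T.map (vtx (seg c) 0)) (T.map (vtx (seg c) 1))) X).app m ψ :=
      congrArg Prod.snd h
    refine glue_ext _ _ ?_ ?_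
    · intro a k s x
      exact congrFun (congrFun (congrFun (congrFun (congrArg MpS.app h1) a) k) s) x
    · intro a k s x
      exact congrFun (congrFun (congrFun (congrFun (congrArg MpS.app h2) a) k) s) x
  · rintro ⟨φ, ψ⟩
    obtain ⟨χ, h1, h2⟩ := glue ((T.map (vtx (seg c) 0)).app m.unop)
      ((T.map (vtx (seg c) 1)).app m.unop) φ ψ
      (fun a k => inj_of_mono _ (hT.mono_vtx (seg c) 0 m.unop a) k)
      (fun a k => inj_of_mono _ (hT.mono_vtx (seg c) 1 m.unop a) k)
      (fun a k s x y hxy => by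
        exfalso
        have : (((T.map (vtx (seg c) 0)).app m.unop).app a).app k x ∈
          (Sb.range ((T.map (vtx (seg c) 0)).app m.unop) ⊓
            Sb.range ((T.map (vtx (seg c) 1)).app m.unop)).mem a k :=
            ⟨⟨x, rfl⟩, ⟨y, hxy.symm⟩⟩
        rw [hT.disj c m.unop] at this
        exact this)
    refine ⟨χ, Prod.ext ?_ ?_⟩
    · refine MpS.ext ?_
      funext a k s x
      exact h1 a k s x
    · refine MpS.ext ?_
      funext a k s x
      exact h2 a k s x

theorem kanFib_ends (D : Dep X) (hT : GoodFr X T) : KanFib (ends (Kf T X) c) := by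
  have hiso := endsCmp_isIso T c hT
  have hu := fun m a => hT.mono_vtx (seg c) 0 m a
  have hv := fun m a => hT.mono_vtx (seg c) 1 m a
  have key : KanFib (endsPre T c X) := by
    refine D.Yc_pre_kanFib _ (RU.ι_mono _ _) (ext_RU _ _ D hu hv (hT.disj c) (hT.ext _)
      (hT.ext _)) (hT.ext _) fun i => ?_
    have := hT.edge c i
    rw [ends_eq] at this
    exact lift_of_iso_right (p := endsPre T c X) (endsCmp T c X) this
  intro n i
  rw [ends_eq]
  exact lift_iso_right (endsCmp T c X) (key n i)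

end Ends

section Bin

variable (T : Fr (Wr C)) {r : ℕ} (c : Fin (r + 1) → C)

lemma bin_comm (X : SP (Wr C)) :
    Yc.pre (RU.left (T.map (initMap c)) (T.map (lastMap' c))) X ≫
      (Kf T X).map (vtx (init c) (Fin.last r)).op =
    Yc.pre (RU.right (T.map (initMap c)) (T.map (lastMap' c))) X ≫
      (Kf T X).map (vtx (seg (c (Fin.last r))) 0).op := by
  refine NatTrans.ext (funext fun m => ?_)
  refine ConcreteCategory.hom_ext _ _ fun φ => ?_
  refine MpS.ext ?_
  funext a k s x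
  refine congrArg (MpS.app φ a k s) (Subtype.ext ?_)
  have e : T.map (vtx (init c) (Fin.last r)) ≫ T.map (initMap c) =
      T.map (vtx (seg (c (Fin.last r))) 0) ≫ T.map (lastMap' c) := by
    rw [← T.map_comp, ← T.map_comp, init_last]
  exact ConcreteCategory.congr_hom (NatTrans.congr_app (NatTrans.congr_app (NatTrans.congr_app e
    m.unop) a) k) x

/-- The comparison with the fibre product. -/
noncomputable def binCmp (X : SP (Wr C)) :
    Yc (RU (T.map (initMap c)) (T.map (lastMap' c))) X ⟶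
      Fp ((Kf T X).map (vtx (init c) (Fin.last r)).op)
      ((Kf T X).map (vtx (seg (c (Fin.last r))) 0).op) :=
  Fp.lift (Yc.pre (RU.left _ _) X) (Yc.pre (RU.right _ _) X) (bin_comm T c X)

/-- The restriction along the inclusion. -/
noncomputable def binPre (X : SP (Wr C)) : (Kf T X).obj (op ⟨r + 1, c⟩) ⟶
    Yc (RU (T.map (initMap c)) (T.map (lastMap' c))) X :=
  Yc.pre (RU.ι (T.map (initMap c)) (T.map (lastMap' c))) X

lemma binMap_eq (X : SP (Wr C)) : binMap (Kf T X) c = binPre T c X ≫ binCmp T c X := rfl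

lemma vtx_init : vtx (init c) (Fin.last r) ≫ initMap c =
    vtx ⟨r + 1, c⟩ (Fin.last r).castSucc := by
  rw [vtx_comp]
  rfl

lemma vtx_last : vtx (seg (c (Fin.last r))) 0 ≫ lastMap' c =
    vtx ⟨r + 1, c⟩ (Fin.last r).castSucc := by
  rw [← init_last, vtx_init]

lemma binCmp_isIso (hT : GoodFr X T) : IsIso (binCmp T c X) := by
  refine isIso_of_bij _ fun m => ⟨?_, ?_⟩
  · intro φ ψ h
    have h1 : (Yc.pre (RU.left (T.map (initMap c)) (T.map (lastMap' c))) X).app m φ =
      (Yc.pre (RU.left (T.map (initMap c)) (T.map (lastMap' c))) X).app m ψ :=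
      congrArg (fun z => z.1.1) h
    have h2 : (Yc.pre (RU.right (T.map (initMap c)) (T.map (lastMap' c))) X).app m φ =
      (Yc.pre (RU.right (T.map (initMap c)) (T.map (lastMap' c))) X).app m ψ :=
      congrArg (fun z => z.1.2) h
    refine glue_ext _ _ ?_ ?_
    · intro a k s x
      exact congrFun (congrFun (congrFun (congrFun (congrArg MpS.app h1) a) k) s) x
    · intro a k s x
      exact congrFun (congrFun (congrFun (congrFun (congrArg MpS.app h2) a) k) s) x
  · rintro ⟨⟨φ, ψ⟩, h⟩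
    obtain ⟨χ, h1, h2⟩ := glue ((T.map (initMap c)).app m.unop)
      ((T.map (lastMap' c)).app m.unop) φ ψ
      (fun a k => inj_of_mono _ (hT.mono_init c m.unop a) k)
      (fun a k => inj_of_mono _ (hT.mono_last c m.unop a) k)
      (fun a k s x y hxy => by
        obtain ⟨w, hw⟩ := hT.inter c m.unop a k
          (show (((T.map (initMap c)).app m.unop).app a).app k x ∈
            (Sb.range ((T.map (initMap c)).app m.unop) ⊓
              Sb.range ((T.map (lastMap' c)).app m.unop)).mem a k from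
            ⟨⟨x, rfl⟩, ⟨y, hxy.symm⟩⟩)
        have ex : (((T.map (vtx (init c) (Fin.last r))).app m.unop).app a).app k w = x := by
          refine inj_of_mono _ (hT.mono_init c m.unop a) k ?_
          refine Eq.trans ?_ hw
          have e := T.map_comp (vtx (init c) (Fin.last r)) (initMap c)
          rw [vtx_init] at e
          exact (ConcreteCategory.congr_hom (NatTrans.congr_app (NatTrans.congr_app
            (NatTrans.congr_app e m.unop) a) k) w).symm
        have ey : (((T.map (vtx (seg (c (Fin.last r))) 0)).app m.unop).app a).app k w = y := by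
          refine inj_of_mono _ (hT.mono_last c m.unop a) k ?_
          refine Eq.trans ?_ (hw.trans hxy)
          have e := T.map_comp (vtx (seg (c (Fin.last r))) 0) (lastMap' c)
          rw [vtx_last] at e
          exact (ConcreteCategory.congr_hom (NatTrans.congr_app (NatTrans.congr_app
            (NatTrans.congr_app e m.unop) a) k) w).symm
        have := congrFun (congrFun (congrFun (congrFun (congrArg MpS.app h) a) k) s) w
        rw [← ex, ← ey]
        exact this)
    refine ⟨χ, Subtype.ext (Prod.ext ?_ ?_)⟩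
    · refine MpS.ext ?_
      funext a k s x
      exact h1 a k s x
    · refine MpS.ext ?_
      funext a k s x
      exact h2 a k s x

theorem hoEq_bin (D : Dep X) (hT : GoodFr X T) : HoEq (binMap (Kf T X) c) := by
  have hiso := binCmp_isIso T c hT
  have key : TrivFib (binPre T c X) := by
    refine D.Yc_pre_trivFib _ (RU.ι_mono _ _) fun m => ?_
    refine (D.loc_iff_range _ (RU.ι_mono _ _ m)).2 ?_
    rw [RU.range_ι]
    exact hT.bin c m
  have : TrivFib (binMap (Kf T X) c) := fun n => by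
    rw [binMap_eq]
    exact lift_iso_right (binCmp T c X) (key n)
  exact Pool.Agent.Helper45.FL2.TrivFib.hoEq this

end Bin

/-- Module C2 of project FL2, relative to the modules G1, G3, G4. -/
theorem Kf_good_of (D : Dep X) {T : Fr (Wr C)} (hT : GoodFr X T) :
    VFib (Kf T X) ∧ BSeg (Kf T X) :=
  ⟨⟨fun a => D.Yc_kan (hT.ext a.unop), fun c => kanFib_ends T c D hT⟩,
    fun _ c => hoEq_bin T c D hT⟩

end Main

end Pool.Agent.Helper86.FL2
end
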