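import Pool.Agent.Helper16.FDG.G05
import Pool.Agent.Helper16.FDG.G06
import Pool.Agent.Helper16.FDG.G07
import Pool.Agent.Helper16.FDG.G10

/- Helper64.FL2.SurjA -/
section
/-!
# Project FL2, module F6 (SURJ), part A: lifting in squares, vertices
-/

open CategoryTheory MonoidalCategory Simplicial Opposite

set_option autoImplicit false

namespace Helper64FL2

open FL
open Pool.Agent.Helper83.FL4 (deps exists_rel_ext PPι_trivCof_of_anodyne horn_anodyne
  Mp_post_kanFib Mp_pre_kanFib Mp_kan kan_of_kanFib)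
open Pool.Agent.Helper46.FLb (yoIn yoOut yoIn_yoOut)
open Pool.Agent.Helper91.FL2 (objKan_of_injFib cn_of_htpy cn_symm cn_trans cn_map toHom
  toHom_ofHom)
open Pool.Agent.Helper54.FL2 (cn_lift Fp_fst_kanFib Fp_ext kanFib_comp)

/-! ### Levels -/

theorem lv_injFib {n : ℕ} {D : SP (Gn n)} (hD : InjFib D) (i : Fin (n + 1)) :
    InjFib (level D i) :=
  Pool.Agent.Helper30.FL16.level_injFib_of Pool.Agent.Helper91.FL17a.tool hD i

theorem lvMap_injFibration {n : ℕ} {D : SP (Gn n)} (hD : InjFib D) {i j : Fin (n + 1)}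
    (h : i ≤ j) : InjFibration (levelMap D h) :=
  Pool.Agent.Helper30.FL16.levelMap_injFibration_of Pool.Agent.Helper91.FL17a.tool hD h

/-! ### The values of an injective fibration -/

section

variable {A : Type} [SmallCategory A]

theorem app_kanFib {X Y : SP A} {q : X ⟶ Y} (hq : InjFibration q) (a : Aᵒᵖ) :
    KanFib (q.app a) := by
  intro n i
  refine ⟨fun {t b} sq => ?_⟩
  have h := Mp_post_kanFib (rep a.unop) q hq n i
  have e : yoIn X a ≫ Mp.post (rep a.unop) q = q.app a ≫ yoIn Y a := by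
    ext k x
    refine MpS.ext ?_
    funext c l s u
    show (q.app c).app l ((X.map _).app l ((X.obj a).map s.op x)) =
      (Y.map _).app l ((Y.obj a).map s.op ((q.app a).app k x))
    refine (hom_nat q _ _).trans ?_
    exact congrArg ((Y.map _).app l) (hom_natk q s.op x)
  have sq' : CommSq (t ≫ yoIn X a) (Λ[n + 1, i].ι : (Λ[n + 1, i] : SSet.{0}) ⟶ _)
      (Mp.post (rep a.unop) q) (b ≫ yoIn Y a) := ⟨by
    rw [Category.assoc, e, ← Category.assoc, sq.w, Category.assoc]⟩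
  refine ⟨⟨{ l := sq'.lift ≫ yoOut X a, fac_left := ?_, fac_right := ?_ }⟩⟩
  · rw [← Category.assoc, sq'.fac_left, Category.assoc, yoIn_yoOut, Category.comp_id]
  · have h2 : yoOut X a ≫ q.app a = Mp.post (rep a.unop) q ≫ yoOut Y a := rfl
    rw [Category.assoc, h2, ← Category.assoc, sq'.fac_right, Category.assoc, yoIn_yoOut,
      Category.comp_id]

/-- The comparison map `Map(Q, Z) ⟶ Map(P, Z) ×_{Map(P, Z')} Map(Q, Z')`. -/
def sqMap {P Q Z Z' : SP A} (i : P ⟶ Q) (q : Z ⟶ Z') :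
    Mp Q Z ⟶ Fp (Mp.post P q) (Mp.pre i Z') :=
  Fp.lift (Mp.pre i Z) (Mp.post Q q) rfl

theorem sqMap_kanFib {P Q Z Z' : SP A} (i : P ⟶ Q) (hi : ∀ a, Mono (i.app a)) (q : Z ⟶ Z')
    (hq : InjFibration q) : KanFib (sqMap i q) := by
  intro n k
  refine ⟨fun {u v} sq => ?_⟩
  have hP := PPι_trivCof_of_anodyne deps i _ (horn_anodyne n k)
  have e1 : u ≫ Mp.pre i Z = Λ[n + 1, k].ι ≫ v ≫ Fp.fst _ _ :=
    congrArg (fun r => r ≫ Fp.fst (Mp.post P q) (Mp.pre i Z')) sq.w
  have e2 : u ≫ Mp.post Q q = Λ[n + 1, k].ι ≫ v ≫ Fp.snd _ _ :=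
    congrArg (fun r => r ≫ Fp.snd (Mp.post P q) (Mp.pre i Z')) sq.w
  have e3 : (v ≫ Fp.fst _ _) ≫ Mp.post P q = (v ≫ Fp.snd _ _) ≫ Mp.pre i Z' := by
    rw [Category.assoc, Category.assoc, Pool.Agent.Helper54.FL2.Fp_w]
  obtain ⟨l, hl1, hl2, hl3⟩ := exists_rel_ext i hi Λ[n + 1, k].ι hP q hq
    (Mp.adj (v ≫ Fp.fst _ _)) (Mp.adj u) (Mp.adj (v ≫ Fp.snd _ _))
    (congrArg Mp.adj e1).symm (congrArg Mp.adj e3) (congrArg Mp.adj e2)
  refine ⟨⟨{ l := Mp.adj.symm l, fac_left := ?_, fac_right := ?_ }⟩⟩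
  · apply Mp.adj.injective
    exact (Mp.adj_comp _ (Mp.adj.symm l)).trans
      ((congrArg (tnMap (𝟙 Q) Λ[n + 1, k].ι ≫ ·) (Mp.adj.apply_symm_apply l)).trans hl2)
  · refine Fp_ext ?_ ?_
    · apply Mp.adj.injective
      refine (Mp.adj_pre i (Mp.adj.symm l)).trans ?_
      exact (congrArg (tnMap i (𝟙 _) ≫ ·) (Mp.adj.apply_symm_apply l)).trans hl1
    · apply Mp.adj.injective
      exact (Mp.adj_post q (Mp.adj.symm l)).trans
        ((congrArg (· ≫ q) (Mp.adj.apply_symm_apply l)).trans hl3)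

/-- The space of squares is fibrant. -/
theorem sq_kan {P Q Z Z' : SP A} (i : P ⟶ Q) (hi : ∀ a, Mono (i.app a)) (q : Z ⟶ Z')
    (hZ : InjFib Z) (hZ' : InjFib Z') :
    SSet.KanComplex (Fp (Mp.post P q) (Mp.pre i Z')) :=
  kan_of_kanFib (Fp_fst_kanFib (Mp.post P q) (Mp.pre i Z') (Mp_pre_kanFib i hi hZ'))
    (Mp_kan P hZ)

end

end Helper64FL2
end

/- Helper64.FL2.SurjB -/
section
/-!
# Project FL2, module F6 (SURJ), part B: objects of length zero, the case of vertices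
-/

open CategoryTheory MonoidalCategory Simplicial Opposite

set_option autoImplicit false

namespace Helper64FL2

open FL
open Pool.Agent.Helper91.FL2 (objKan_of_injFib cn_of_htpy cn_symm cn_trans cn_map toHom
  toHom_ofHom)
open Pool.Agent.Helper54.FL2 (cn_lift Fp_fst_kanFib Fp_ext kanFib_comp)

/-- All morphisms between objects of length zero are invertible. -/
theorem isIso_of_len {C : Type} [SmallCategory C] {X Y : Wr C} (hX : X.len = 0)
    (hY : Y.len = 0) (f : X ⟶ Y) : IsIso f := by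
  obtain ⟨m, c⟩ := X
  obtain ⟨m', c'⟩ := Y
  simp only at hX hY
  subst hX
  subst hY
  have hu : ∀ {d d' : Fin 0 → C} (u v : (⟨0, d⟩ : Wr C) ⟶ ⟨0, d'⟩), u = v := by
    intro d d' u v
    refine Wr.hom_ext' ?_ fun (i : Fin 0) _ _ _ => i.elim0
    ext t
    exact congrArg Fin.val (Subsingleton.elim (α := Fin 1) _ _)
  let g : (⟨0, c'⟩ : Wr C) ⟶ ⟨0, c⟩ := ({ f := OrderHom.id, g := fun (i : Fin 0) _ _ => i.elim0 } :
    Wr.Hom (⟨0, c'⟩ : Wr C) ⟨0, c⟩)
  exact ⟨g, hu _ _, hu _ _⟩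

theorem tr_pt_len (n i : ℕ) : ((tr (n + 1) i).obj (ptT (n + 1)) : Wr (Th n)).len = 0 := by
  cases i with
  | zero => rfl
  | succ i => rfl

theorem trMap_pt_isIso (n i j : ℕ) (h : i ≤ j) : IsIso ((trMap n i j h).app (ptT n)) := by
  cases n with
  | zero =>
    show IsIso (𝟙 (ptT 0))
    infer_instance
  | succ n => exact isIso_of_len (tr_pt_len n j) (tr_pt_len n i) _

/-- The maps between the levels of `filt X` are bijective at the point. -/
theorem filt_pt_surj {n : ℕ} (X : SP (Th n)) {i j : Fin (n + 1)} (h : i ≤ j)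
    (a' : ((level (filt X) j).obj (op (ptT n))).obj (op ⦋0⦌)) :
    ∃ a : ((level (filt X) i).obj (op (ptT n))).obj (op ⦋0⦌),
      ((levelMap (filt X) h).app (op (ptT n))).app _ a = a' := by
  let u : (tr n j.1).obj (ptT n) ⟶ (tr n i.1).obj (ptT n) := (tower n).map
    (((𝟙 (ptT n), (homOfLE h).op)) : ((ptT n, op j) : Gn n) ⟶ (ptT n, op i))
  have hu : IsIso u := by
    have := trMap_pt_isIso n i.1 j.1 h
    show IsIso ((tr n j.1).map (𝟙 (ptT n)) ≫ (trMap n i.1 j.1 h).app (ptT n))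
    rw [CategoryTheory.Functor.map_id]
    have e : 𝟙 ((tr n j.1).obj (ptT n)) ≫ (trMap n i.1 j.1 h).app (ptT n) =
      (trMap n i.1 j.1 h).app (ptT n) := Category.id_comp _
    rw [e]
    exact this
  have e : (levelMap (filt X) h).app (op (ptT n)) = X.map u.op := rfl
  refine ⟨(X.map (inv u).op).app _ a', ?_⟩
  rw [e]
  refine (sp_comp X (inv u).op u.op a').symm.trans ?_
  have e2 : (inv u).op ≫ u.op = 𝟙 _ := by rw [← op_comp, IsIso.hom_inv_id, op_id]
  rw [e2]
  exact sp_id X a'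

/-- The morphism to the terminal object of `Θ_n`. -/
theorem exists_toPtT (n : ℕ) : ∃ t : ∀ θ : Th n, θ ⟶ ptT n,
    ∀ (θ : Th n) (f : θ ⟶ ptT n), f = t θ := by
  cases n with
  | zero =>
    have hs : ∀ (a b : Discrete PUnit.{1}) (f g : a ⟶ b), f = g := fun _ _ f g =>
      Subsingleton.elim f g
    exact ⟨fun θ => (eqToHom (Subsingleton.elim (α := Discrete PUnit.{1}) _ _) :
      (θ : Discrete PUnit.{1}) ⟶ ⟨PUnit.unit⟩), fun θ f => hs θ ⟨PUnit.unit⟩ f _⟩
  | succ n => exact ⟨fun θ => Wr.toPt θ, fun _ f => Wr.toPt_unique f _⟩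

/-- ES maps are surjective on components of vertices. -/
theorem ES_vt : ∀ {n i : ℕ} {X Y : SP (Th n)} {f : X ⟶ Y}, ES n i f →
    ∀ y : (Y.obj (op (ptT n))).obj (op ⦋0⦌), ∃ x : (X.obj (op (ptT n))).obj (op ⦋0⦌),
      Cn (Y.obj (op (ptT n))) ((f.app (op (ptT n))).app _ x) y := by
  have key : ∀ {K L : SSet.{0}} {f : K ⟶ L}, HoEq f → ∀ y : L.obj (op ⦋0⦌),
      ∃ x : K.obj (op ⦋0⦌), Cn L (f.app _ x) y := by
    intro K L f hf y
    obtain ⟨g, -, h2⟩ := hf
    exact ⟨g.app _ y, cn_of_htpy h2 y⟩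
  intro n i X Y f h
  cases n with
  | zero => exact key h
  | succ n =>
    cases i with
    | zero => exact key h
    | succ i => exact h.1

/-- The map `1 ⟶ Z` given by a vertex of `Z` at the terminal object. -/
theorem exists_vmap {n : ℕ} (Z : SP (Th n)) (v : (Z.obj (op (ptT n))).obj (op ⦋0⦌)) :
    ∃ z : one (Th n) ⟶ Z, (z.app (op (ptT n))).app (op ⦋0⦌) PUnit.unit = v := by
  obtain ⟨t, ht⟩ := exists_toPtT n
  refine ⟨{ app := fun θ =>
      { app := fun k => ↾ fun _ => (Z.map (t θ.unop).op).app k (cst (Z.obj (op (ptT n))) v k)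
        naturality := fun k l α => ?_ }
            naturality := fun θ θ' g => ?_ }, ?_⟩
  · refine ConcreteCategory.hom_ext _ _ fun x => ?_
    refine Eq.trans ?_ (sp_nat Z (t θ.unop).op α (cst (Z.obj (op (ptT n))) v k))
    exact congrArg ((Z.map (t θ.unop).op).app l) (cst_map (Z.obj (op (ptT n))) v α).symm
  · refine NatTrans.ext (funext fun k => ?_)
    refine ConcreteCategory.hom_ext _ _ fun x => ?_
    refine Eq.trans ?_ (sp_comp Z (t θ.unop).op g (cst (Z.obj (op (ptT n))) v k))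
    refine congrArg (fun r => (Z.map r).app k (cst (Z.obj (op (ptT n))) v k)) ?_
    refine Quiver.Hom.unop_inj ?_
    exact (ht θ'.unop (g.unop ≫ t θ.unop)).symm
  · refine Eq.trans ?_ ((sp_id Z _).trans (cst_zero _ v))
    refine congrArg (fun r => (Z.map r).app (op ⦋0⦌) (cst (Z.obj (op (ptT n))) v (op ⦋0⦌))) ?_
    refine Quiver.Hom.unop_inj ?_
    exact (ht (ptT n) (𝟙 _)).symm

/-- Maps out of the terminal presheaf are determined by one vertex. -/
theorem vmap_ext {n : ℕ} {Z : SP (Th n)} {y y' : one (Th n) ⟶ Z}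
    (h : (y.app (op (ptT n))).app (op ⦋0⦌) PUnit.unit =
      (y'.app (op (ptT n))).app (op ⦋0⦌) PUnit.unit) : y = y' := by
  obtain ⟨t, ht⟩ := exists_toPtT n
  have key : ∀ (y : one (Th n) ⟶ Z) (θ : (Th n)ᵒᵖ) (k : SimplexCategoryᵒᵖ),
      (y.app θ).app k PUnit.unit = (Z.map (t θ.unop).op).app k ((Z.obj (op (ptT n))).map
        (SimplexCategory.const k.unop ⦋0⦌ 0).op
        ((y.app (op (ptT n))).app (op ⦋0⦌) PUnit.unit)) := by
    intro y θ k
    have e1 := hom_natk y (a := op (ptT n)) (SimplexCategory.const k.unop ⦋0⦌ 0).op PUnit.unit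
    have e2 := hom_nat y (t θ.unop).op (k := k) PUnit.unit
    exact e2.trans (congrArg ((Z.map (t θ.unop).op).app k) e1)
  refine NatTrans.ext (funext fun θ => NatTrans.ext (funext fun k => ?_))
  refine ConcreteCategory.hom_ext _ _ fun x => ?_
  obtain rfl : x = PUnit.unit := rfl
  refine (key y θ k).trans (Eq.trans ?_ (key y' θ k).symm)
  rw [h]

/-- The case of vertices. -/
theorem surj_zero {n : ℕ} {X : SP (Th n)} {D : SP (Gn n)} (hD : InjFib D) (f : filt X ⟶ D)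
    (h : ∀ i : Fin (n + 1), ES n i (levelHom f i)) (i j : Fin (n + 1)) (hij : i ≤ j)
    (x : empt (Th n) ⟶ level D i) (y : one (Th n) ⟶ level D j) :
    ∃ z : one (Th n) ⟶ level D i, emptToOne (Th n) ≫ z = x ∧ z ≫ levelMap D hij = y := by
  obtain ⟨a', ha'⟩ := ES_vt (h j) ((y.app (op (ptT n))).app (op ⦋0⦌) PUnit.unit)
  obtain ⟨a, ha⟩ := filt_pt_surj X hij a'
  have e : levelMap (filt X) hij ≫ levelHom f j = levelHom f i ≫ levelMap D hij := by
    refine NatTrans.ext (funext fun θ => ?_)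
    exact f.naturality _
  have e2 : ((levelHom f j).app (op (ptT n))).app (op ⦋0⦌) a' =
      ((levelMap D hij).app (op (ptT n))).app (op ⦋0⦌)
        (((levelHom f i).app (op (ptT n))).app (op ⦋0⦌) a) := by
    rw [← ha]
    exact congrArg (fun r : level (filt X) i ⟶ level D j => (r.app (op (ptT n))).app (op ⦋0⦌) a) e
  have hK := objKan_of_injFib (lv_injFib hD j) (op (ptT n))
  have hc := cn_symm hK ha'
  rw [e2] at hc
  obtain ⟨v, hv, -⟩ := cn_lift (app_kanFib (lvMap_injFibration hD hij) (op (ptT n))) hc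
  obtain ⟨z, hz⟩ := exists_vmap (level D i) v
  refine ⟨z, ?_, vmap_ext ?_⟩
  · refine NatTrans.ext (funext fun θ => NatTrans.ext (funext fun k => ?_))
    refine ConcreteCategory.hom_ext _ _ fun (u : PEmpty) => u.elim
  · refine Eq.trans ?_ hv
    exact congrArg (((levelMap D hij).app (op (ptT n))).app (op ⦋0⦌)) hz

end Helper64FL2
end

/- Helper64.FL2.SurjC -/
section
/-!
# Project FL2, module F6 (SURJ), part C: the suspension step

The statements of the modules V4 (`sg_succ_iff`), F2 and F3 which are used are collected, verbatim,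
in the structure `SurjHyp`.
-/

open CategoryTheory MonoidalCategory Simplicial Opposite

set_option autoImplicit false

namespace Helper64FL2

open FL
open Pool.Agent.Helper83.FL4 (deps exists_rel_ext PPι_trivCof_of_anodyne horn_anodyne
  Mp_post_kanFib Mp_pre_kanFib Mp_kan kan_of_kanFib)
open Pool.Agent.Helper91.FL2 (objKan_of_injFib cn_of_htpy cn_symm cn_trans cn_map cn_refl toHom
  toHom_ofHom)
open Pool.Agent.Helper54.FL2 (cn_lift Fp_fst_kanFib Fp_ext kanFib_comp)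
open Helper53FL2 (pk susH susH_vsOf susH_vsEnd V1_extH desusH desusH_val V1map_vsOf V1map_vsEnd
  V1map_mono endsV_kanFib)

/-- The statements of the modules V4, F2, F3 used below. -/
structure SurjHyp : Prop where
  sg_succ_iff : ∀ {n : ℕ} {X : SP (Th (n + 1))} (_ : InjFib X) (O : Set (Vt (C := Th n) X))
    (_ : ∀ z : Vt (C := Th n) X, ∃ x ∈ O, Cn (X.obj (op (ptT (n + 1)))) x z),
    Sg (n + 1) X ↔ SpLoc (C := Th n) X ∧ ∀ x ∈ O, ∀ y ∈ O, Sg n (Hm (C := Th n) X x y)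
  FHm_injFib : ∀ {n : ℕ} {D : SP (Gn (n + 1))} (_ : InjFib D) (x y : Vt (C := Th n) (level D 0)),
    InjFib (FHm D x y)
  FHm_levelMap : ∀ {n : ℕ} (D : SP (Gn (n + 1))) (x y : Vt (C := Th n) (level D 0))
    {i j : Fin (n + 1)} (h : i ≤ j) (h' : i.succ ≤ j.succ),
    ∃ e : level (FHm D x y) j ≅ Hm (C := Th n) (level D j.succ)
        (vtMap (C := Th n) (levelMap D h') (vlev D x i.succ))
        (vtMap (C := Th n) (levelMap D h') (vlev D y i.succ)),
      levelMap (FHm D x y) h ≫ e.hom =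
        HmMap (C := Th n) (levelMap D h') (vlev D x i.succ) (vlev D y i.succ)
  exists_NDHm : ∀ {n : ℕ} {X : SP (Th (n + 1))} {D : SP (Gn (n + 1))} (f : filt X ⟶ D)
    (x y : Vt (C := Th n) X),
    ∃ f' : filt (Hm (C := Th n) X x y) ⟶ FHm D (vf f x) (vf f y),
      (∀ (g : (Gn n)ᵒᵖ) (k : SimplexCategoryᵒᵖ)
        (z : ((Hm (C := Th n) X x y).obj (op ((tower n).obj g.unop))).obj k),
        ((f'.app g).app k z).1 =
          (f.app (op ((segG n).obj g.unop))).app k (Hm.val (C := Th n) z)) ∧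
      ∃ e : ND (FHm D (vf f x) (vf f y)) ≅ Hm (C := Th n) (ND D) (vtMap (C := Th n) (flat f) x)
        (vtMap (C := Th n) (flat f) y), flat f' ≫ e.hom = HmMap (C := Th n) (flat f) x y
  vt_filt : ∀ {n : ℕ} (X : SP (Th (n + 1))) (i : Fin (n + 1)),
    Function.Bijective fun a : Vt (C := Th n) (level (filt X) i.succ) =>
      ((X.map ((trUnit (n + 1) i.succ).app (ptT (n + 1))).op).app _ a : Vt (C := Th n) X)
  ES_NDHm : ∀ {n : ℕ} {X : SP (Th (n + 1))} {D : SP (Gn (n + 1))} (f : filt X ⟶ D)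
    (x y : Vt (C := Th n) X) (f' : filt (Hm (C := Th n) X x y) ⟶ FHm D (vf f x) (vf f y))
    (_ : ∀ (g : (Gn n)ᵒᵖ) (k : SimplexCategoryᵒᵖ)
        (z : ((Hm (C := Th n) X x y).obj (op ((tower n).obj g.unop))).obj k),
        ((f'.app g).app k z).1 =
          (f.app (op ((segG n).obj g.unop))).app k (Hm.val (C := Th n) z))
    (i : Fin (n + 1)) (a b : Vt (C := Th n) (level (filt X) i.succ))
    (_ : (X.map ((trUnit (n + 1) i.succ).app (ptT (n + 1))).op).app _ a = x)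
    (_ : (X.map ((trUnit (n + 1) i.succ).app (ptT (n + 1))).op).app _ b = y),
    vtMap (C := Th n) (levelHom f i.succ) a = vlev D (vf f x) i.succ ∧
    vtMap (C := Th n) (levelHom f i.succ) b = vlev D (vf f y) i.succ ∧
    ∀ m : ℕ, ES n m (HmMap (C := Th n) (levelHom f i.succ) a b) ↔ ES n m (levelHom f' i)

/-! ### Suspended lifting problems -/

section

variable {C : Type} [SmallCategory C]

/-- Lifting problems against suspensions with fixed ends. -/
theorem susp_lift {Z Z' : SP (Wr C)} (q : Z ⟶ Z') (u v : Vt Z) {P Q : SP C} (b : P ⟶ Q)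
    (H : ∀ (x : P ⟶ Hm Z u v) (y : Q ⟶ Hm Z' (vtMap q u) (vtMap q v)),
      x ≫ HmMap q u v = b ≫ y → ∃ z : Q ⟶ Hm Z u v, b ≫ z = x ∧ z ≫ HmMap q u v = y)
    (x : V1 P ⟶ Z) (y : V1 Q ⟶ Z') (hxy : x ≫ q = V1map b ≫ y)
    (hx : ∀ (i : Fin 2) (l : SimplexCategoryᵒᵖ), (x.app (op Wr.pt)).app l (vsEnd P i Wr.pt l) =
      cst (Z.obj (op Wr.pt)) (pk u v i) l) :
    ∃ z : V1 Q ⟶ Z, V1map b ≫ z = x ∧ z ≫ q = y := by
  have hpk : ∀ i : Fin 2, pk (vtMap q u) (vtMap q v) i = vtMap q (pk u v i) := by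
    intro i
    fin_cases i
    · rfl
    · rfl
  have hy : ∀ (i : Fin 2) (l : SimplexCategoryᵒᵖ), (y.app (op Wr.pt)).app l (vsEnd Q i Wr.pt l) =
      cst (Z'.obj (op Wr.pt)) (pk (vtMap q u) (vtMap q v) i) l := by
    intro i l
    have e1 := congrArg (fun r : V1 P ⟶ Z' => (r.app (op Wr.pt)).app l (vsEnd P i Wr.pt l)) hxy
    have e2 : (y.app (op Wr.pt)).app l (((V1map b).app (op Wr.pt)).app l (vsEnd P i Wr.pt l)) =
      (y.app (op Wr.pt)).app l (vsEnd Q i Wr.pt l) :=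
      congrArg ((y.app (op Wr.pt)).app l) (V1map_vsEnd b (op Wr.pt) l i)
    refine e2.symm.trans (e1.symm.trans ?_)
    refine (congrArg ((q.app (op Wr.pt)).app l) (hx i l)).trans ?_
    refine (app_cst (q.app (op Wr.pt)) (pk u v i) l).trans ?_
    rw [hpk]
  obtain ⟨z, hz1, hz2⟩ := H (desusH x hx) (desusH y hy) (by
    refine NatTrans.ext (funext fun c => NatTrans.ext (funext fun l => ?_))
    refine ConcreteCategory.hom_ext _ _ fun p => ?_
    refine Subtype.ext ?_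
    exact congrArg (fun r : V1 P ⟶ Z' => (r.app (op (seg c.unop))).app l (vsOf P p)) hxy)
  refine ⟨susH z, V1_extH (fun c l p => ?_) fun i l => ?_, V1_extH (fun c l p => ?_) fun i l => ?_⟩
  · refine (susH_vsOf z c l ((b.app c).app l p)).trans ?_
    exact congrArg (fun r : P ⟶ Hm Z u v => Hm.val ((r.app c).app l p)) hz1
  · refine (congrArg (((susH z).app (op Wr.pt)).app l) (V1map_vsEnd b (op Wr.pt) l i)).trans ?_
    exact (susH_vsEnd z i l).trans (hx i l).symm
  · refine (congrArg ((q.app (op (seg c.unop))).app l) (susH_vsOf z c l p)).trans ?_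
    exact congrArg (fun r : Q ⟶ Hm Z' (vtMap q u) (vtMap q v) => Hm.val ((r.app c).app l p)) hz2
  · refine (congrArg ((q.app (op Wr.pt)).app l) (susH_vsEnd z i l)).trans ?_
    refine (app_cst (q.app (op Wr.pt)) (pk u v i) l).trans ?_
    refine Eq.trans ?_ (hy i l).symm
    rw [hpk]

theorem ofHom_toHom {A : Type} [SmallCategory A] {X Y : SP A} (φ : MpS X Y ⦋0⦌) :
    MpS.ofHom ⦋0⦌ (toHom φ) = φ := by
  refine MpS.ext ?_
  funext a k s x
  refine congrArg (fun t => φ.app a k t x) ?_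
  ext i : 3
  exact Subsingleton.elim (α := Fin 1) _ _

/-- Lifting problems against suspensions: it is enough to treat ends in a set of vertices meeting
all components. -/
theorem susp_lift' {Z Z' : SP (Wr C)} (hZ : InjFib Z) (hZ' : InjFib Z') (q : Z ⟶ Z')
    (hq : InjFibration q) {P Q : SP C} (b : P ⟶ Q) (hb : ∀ a, Mono (b.app a))
    (O : Set (Vt Z)) (hO : ∀ z : Vt Z, ∃ x ∈ O, Cn (Z.obj (op Wr.pt)) x z)
    (H : ∀ u ∈ O, ∀ v ∈ O, ∀ (x : P ⟶ Hm Z u v) (y : Q ⟶ Hm Z' (vtMap q u) (vtMap q v)),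
      x ≫ HmMap q u v = b ≫ y → ∃ z : Q ⟶ Hm Z u v, b ≫ z = x ∧ z ≫ HmMap q u v = y)
    (x : V1 P ⟶ Z) (y : V1 Q ⟶ Z') (hxy : x ≫ q = V1map b ≫ y) :
    ∃ z : V1 Q ⟶ Z, V1map b ≫ z = x ∧ z ≫ q = y := by
  have hm : ∀ a, Mono ((V1map b).app a) := V1map_mono b hb
  have hp : KanFib (Fp.fst (Mp.post (V1 P) q) (Mp.pre (V1map b) Z') ≫ endsV P Z) :=
    kanFib_comp (Fp_fst_kanFib _ _ (Mp_pre_kanFib (V1map b) hm hZ')) (endsV_kanFib P hZ)
  let σ : (Fp (Mp.post (V1 P) q) (Mp.pre (V1map b) Z')).obj (op ⦋0⦌) :=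
    ⟨(MpS.ofHom ⦋0⦌ x, MpS.ofHom ⦋0⦌ y), congrArg (MpS.ofHom ⦋0⦌) hxy⟩
  obtain ⟨u, hu, e, he0, he1⟩ := hO ((x.app (op Wr.pt)).app (op ⦋0⦌) (vsEnd P 0 Wr.pt (op ⦋0⦌)))
  obtain ⟨v, hv, e', he0', he1'⟩ :=
    hO ((x.app (op Wr.pt)).app (op ⦋0⦌) (vsEnd P 1 Wr.pt (op ⦋0⦌)))
  have hc : Cn (Z.obj (op Wr.pt) ⊗ Z.obj (op Wr.pt)) (u, v)
      ((Fp.fst (Mp.post (V1 P) q) (Mp.pre (V1map b) Z') ≫ endsV P Z).app _ σ) :=
    ⟨(e, e'), Prod.ext he0 he0', Prod.ext he1 he1'⟩
  obtain ⟨σ', hσ', hcσ⟩ := cn_lift hp hc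
  have hσu : ((σ'.1.1 : MpS (V1 P) Z ⦋0⦌).app (op Wr.pt) (op ⦋0⦌) (𝟙 _)
      (vsEnd P 0 Wr.pt (op ⦋0⦌))) = u := congrArg Prod.fst hσ'
  have hσv : ((σ'.1.1 : MpS (V1 P) Z ⦋0⦌).app (op Wr.pt) (op ⦋0⦌) (𝟙 _)
      (vsEnd P 1 Wr.pt (op ⦋0⦌))) = v := congrArg Prod.snd hσ'
  have hx0 : ∀ i : Fin 2, ((toHom (σ'.1.1 : MpS (V1 P) Z ⦋0⦌)).app (op Wr.pt)).app (op ⦋0⦌)
      (vsEnd P i Wr.pt (op ⦋0⦌)) = pk u v i := by
    intro i
    have e : (SimplexCategory.const ⦋0⦌ ⦋0⦌ 0) = 𝟙 ⦋0⦌ := by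
      ext j : 3
      exact Subsingleton.elim (α := Fin 1) _ _
    have e2 : ((toHom (σ'.1.1 : MpS (V1 P) Z ⦋0⦌)).app (op Wr.pt)).app (op ⦋0⦌)
      (vsEnd P i Wr.pt (op ⦋0⦌)) = (σ'.1.1 : MpS (V1 P) Z ⦋0⦌).app (op Wr.pt) (op ⦋0⦌) (𝟙 _)
      (vsEnd P i Wr.pt (op ⦋0⦌)) := congrArg (fun t => (σ'.1.1 : MpS (V1 P) Z ⦋0⦌).app (op Wr.pt)
        (op ⦋0⦌) t (vsEnd P i Wr.pt (op ⦋0⦌))) e
    refine e2.trans ?_
    fin_cases i
    · exact hσu
    · exact hσv
  have hx' : ∀ (i : Fin 2) (l : SimplexCategoryᵒᵖ),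
      ((toHom (σ'.1.1 : MpS (V1 P) Z ⦋0⦌)).app (op Wr.pt)).app l (vsEnd P i Wr.pt l) =
      cst (Z.obj (op Wr.pt)) (pk u v i) l := by
    intro i l
    rw [← hx0 i]
    refine Eq.trans ?_ (hom_natk (toHom (σ'.1.1 : MpS (V1 P) Z ⦋0⦌))
      (SimplexCategory.const l.unop ⦋0⦌ 0).op (vsEnd P i Wr.pt (op ⦋0⦌)))
    refine congrArg (((toHom (σ'.1.1 : MpS (V1 P) Z ⦋0⦌)).app (op Wr.pt)).app l) ?_
    exact VS.ext' rfl fun (p : Fin 0) => p.elim0
  obtain ⟨z, hz1, hz2⟩ := susp_lift q u v b (H u hu v hv) (toHom (σ'.1.1 : MpS (V1 P) Z ⦋0⦌))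
    (toHom (σ'.1.2 : MpS (V1 Q) Z' ⦋0⦌)) (congrArg (fun φ : MpS (V1 P) Z' ⦋0⦌ => toHom φ) σ'.2) hx'
  have hz : (sqMap (V1map b) q).app (op ⦋0⦌) (MpS.ofHom ⦋0⦌ z) = σ' := by
    refine Subtype.ext (Prod.ext ?_ ?_)
    · refine Eq.trans ?_ (ofHom_toHom (σ'.1.1 : MpS (V1 P) Z ⦋0⦌))
      exact congrArg (MpS.ofHom ⦋0⦌) hz1
    · refine Eq.trans ?_ (ofHom_toHom (σ'.1.2 : MpS (V1 Q) Z' ⦋0⦌))
      exact congrArg (MpS.ofHom ⦋0⦌) hz2
  rw [← hz] at hcσ
  obtain ⟨ζ, hζ, -⟩ := cn_lift (sqMap_kanFib (V1map b) hm q hq)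
    (cn_symm (sq_kan (V1map b) hm q hZ hZ') hcσ)
  refine ⟨toHom ζ, ?_, ?_⟩
  · exact congrArg (fun φ : MpS (V1 P) Z ⦋0⦌ => toHom φ) (congrArg (fun r => r.1.1) hζ)
  · exact congrArg (fun φ : MpS (V1 Q) Z' ⦋0⦌ => toHom φ) (congrArg (fun r => r.1.2) hζ)

end

end Helper64FL2
end

/- Helper87.FLP.Surj -/
section
/-!
# Bridge, module FLP-B4: surjectivity on `k`-morphisms = lifting against the boundary of the `k`-cell
-/

open CategoryTheory MonoidalCategory CartesianMonoidalCategory Opposite Simplicial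

set_option autoImplicit false

namespace Pool.Agent.Helper87.FLPSurj

open FL (SP MpS HoEq InjFib InjFibration Th Wr ptT Cn V1 V1map)
open FLP
open Pool.Agent.Helper91.FL2 (objKan_of_injFib cn_of_htpy cn_symm cn_trans cn_map cn_refl
  htpy_of_cn)
open Pool.Agent.Helper54.FL2 (cn_lift)
open Helper53FL2 (pk susH susH_vsOf susH_vsEnd V1_extH desusH desusH_val V1map_vsOf V1map_vsEnd
  V1map_mono)
open Helper64FL2 (exists_vmap vmap_ext app_kanFib susp_lift)

/-! ### Isomorphisms -/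

section

variable {A : Type} [SmallCategory A]

theorem injFib_of_iso {X X' : SP A} (e : X ≅ X') (h : InjFib X) : InjFib X' := by
  intro P Q i hi f
  obtain ⟨g, hg⟩ := h i hi (f ≫ e.inv)
  refine ⟨g ≫ e.hom, ?_⟩
  rw [← Category.assoc, hg, Category.assoc, e.inv_hom_id, Category.comp_id]

theorem inv_sq {X X' Y Y' : SP A} {q : X ⟶ Y} {q' : X' ⟶ Y'} (e : X ≅ X')
    (e' : Y ≅ Y') (w : q ≫ e'.hom = e.hom ≫ q') : q' ≫ e'.symm.hom = e.symm.hom ≫ q := by
  show q' ≫ e'.inv = e.inv ≫ q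
  rw [Iso.comp_inv_eq, Category.assoc, w, Iso.inv_hom_id_assoc]

theorem injFibration_of_iso {X X' Y Y' : SP A} {q : X ⟶ Y} {q' : X' ⟶ Y'} (e : X ≅ X')
    (e' : Y ≅ Y') (w : q ≫ e'.hom = e.hom ≫ q') (h : InjFibration q) : InjFibration q' := by
  intro P Q i hi
  have := h i hi
  refine ⟨fun {f g} sq => ?_⟩
  have w' : e.inv ≫ q = q' ≫ e'.inv := by
    rw [Iso.inv_comp_eq, ← Category.assoc, ← w, Category.assoc, e'.hom_inv_id, Category.comp_id]
  have sq' : CommSq (f ≫ e.inv) i q (g ≫ e'.inv) := ⟨by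
    rw [Category.assoc, w', ← Category.assoc, sq.w, Category.assoc]⟩
  refine ⟨⟨{ l := sq'.lift ≫ e.hom, fac_left := ?_, fac_right := ?_ }⟩⟩
  · rw [← Category.assoc, sq'.fac_left, Category.assoc, e.inv_hom_id, Category.comp_id]
  · rw [Category.assoc, ← w, ← Category.assoc, sq'.fac_right, Category.assoc, e'.inv_hom_id,
      Category.comp_id]

end

/-- Lifting against the boundary of the `k`-cell. -/
def Lif (n k : ℕ) {X Y : SP (Th n)} (q : X ⟶ Y) : Prop :=
  ∀ (P Q : SP (Th n)) (b : P ⟶ Q), FL.IsBd n k b →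
    ∀ (x : P ⟶ X) (y : Q ⟶ Y), x ≫ q = b ≫ y → ∃ z : Q ⟶ X, b ≫ z = x ∧ z ≫ q = y

theorem lif_of_iso {n k : ℕ} {X X' Y Y' : SP (Th n)} {q : X ⟶ Y} {q' : X' ⟶ Y'} (e : X ≅ X')
    (e' : Y ≅ Y') (w : q ≫ e'.hom = e.hom ≫ q') (h : Lif n k q) : Lif n k q' := by
  intro P Q b hb x y hxy
  have w' : e.inv ≫ q = q' ≫ e'.inv := by
    rw [Iso.inv_comp_eq, ← Category.assoc, ← w, Category.assoc, e'.hom_inv_id, Category.comp_id]
  obtain ⟨z, hz1, hz2⟩ := h P Q b hb (x ≫ e.inv) (y ≫ e'.inv) (by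
    rw [Category.assoc, w', ← Category.assoc, hxy, Category.assoc])
  refine ⟨z ≫ e.hom, ?_, ?_⟩
  · rw [← Category.assoc, hz1, Category.assoc, e.inv_hom_id, Category.comp_id]
  · rw [Category.assoc, ← w, ← Category.assoc, hz2, Category.assoc, e'.inv_hom_id,
      Category.comp_id]

/-! ### Edges -/

theorem nm_app {K : SSet.{0}} (x : FLP.Vt K) :
    (FLP.nm x).app (op ⦋0⦌) PUnit.unit = x := FL.cst_zero K x

theorem edge_iff {K : SSet.{0}} (x y : FLP.Vt K) : FLP.Edge x y ↔ Cn K x y := by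
  constructor
  · intro h
    have h1 := cn_of_htpy (F := FLP.nm x) (G := FLP.nm y) h PUnit.unit
    rwa [nm_app, nm_app] at h1
  · intro h
    have key : ∀ z : FLP.Vt K, FLP.nm (K := (Δ[0] : SSet.{0}))
        (SSet.stdSimplex.objEquiv.symm (𝟙 _)) ≫ Pool.Agent.Helper91.FL2.pt K z = FLP.nm z := by
      intro z
      rw [FLP.nm_ev]
      exact congrArg FLP.nm (Pool.Agent.Helper91.FL2.pt_app z _)
    have h1 := Pool.Agent.Helper88.FL.htpy_pre (FLP.nm (K := (Δ[0] : SSet.{0}))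
        (SSet.stdSimplex.objEquiv.symm (𝟙 _))) (htpy_of_cn h)
    rw [key, key] at h1
    exact h1

/-! ### Vertices -/

theorem pt_eq (n : ℕ) : FLP.pt n = ptT n := by
  cases n <;> rfl

theorem surj_zero_iff {n : ℕ} {X Y : SP (Th n)} (q : X ⟶ Y) : FLP.Surj n 0 q ↔
    ∀ y : (Y.obj (op (ptT n))).obj (op ⦋0⦌), ∃ x : (X.obj (op (ptT n))).obj (op ⦋0⦌),
      Cn (Y.obj (op (ptT n))) ((q.app _).app _ x) y := by
  have h0 : FLP.Surj n 0 q ↔ ∀ y : FLP.Vt (vl Y (FLP.pt n)), ∃ x : FLP.Vt (vl X (FLP.pt n)),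
      FLP.Edge (ev (q.app _) x) y := by
    constructor
    · intro h
      cases h with
      | zero _ _ h => exact h
    · intro h
      exact FLP.Surj.zero n q h
  rw [h0, pt_eq]
  constructor
  · intro h y
    obtain ⟨x, hx⟩ := h y
    exact ⟨x, (edge_iff _ _).1 hx⟩
  · intro h y
    obtain ⟨x, hx⟩ := h y
    exact ⟨x, (edge_iff _ _).2 hx⟩

theorem surj_succ_iff {n k : ℕ} {X Y : SP (Wr (Th n))} (q : X ⟶ Y) :
    FLP.Surj (n + 1) (k + 1) (X := X) (Y := Y) q ↔
      ∀ x y : FLP.Vt (FLP.Ob X), FLP.Surj n k (FLP.HmMap q x y) := by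
  constructor
  · intro h
    cases h with
    | succ _ _ _ h => exact h
  · intro h
    exact FLP.Surj.succ n k q h

theorem lif_zero_iff {n : ℕ} {X Y : SP (Th n)} (hY : InjFib Y) {q : X ⟶ Y}
    (hq : InjFibration q) : Lif n 0 q ↔
      ∀ y : (Y.obj (op (ptT n))).obj (op ⦋0⦌), ∃ x : (X.obj (op (ptT n))).obj (op ⦋0⦌),
      Cn (Y.obj (op (ptT n))) ((q.app _).app _ x) y := by
  constructor
  · intro h y
    obtain ⟨y', hy'⟩ := exists_vmap Y y
    obtain ⟨z, -, hz⟩ := h _ _ _ (FL.IsBd.zero n)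
      { app := fun a => { app := fun k => ↾ fun (u : PEmpty) => u.elim,
                          naturality := fun k l α => ConcreteCategory.hom_ext _ _
                            fun (u : PEmpty) => u.elim }
        naturality := fun a b f => NatTrans.ext (funext fun k => ConcreteCategory.hom_ext _ _
          fun (u : PEmpty) => u.elim) } y'
      (NatTrans.ext (funext fun a => NatTrans.ext (funext fun k => ConcreteCategory.hom_ext _ _
          fun (u : PEmpty) => u.elim)))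
    refine ⟨(z.app (op (ptT n))).app (op ⦋0⦌) PUnit.unit, ?_⟩
    have e : (q.app (op (ptT n))).app (op ⦋0⦌) ((z.app (op (ptT n))).app (op ⦋0⦌) PUnit.unit) =
        y := by
      rw [← hy', ← hz]
      rfl
    rw [e]
    exact cn_refl y
  · intro h P Q b hb x y hxy
    cases hb with
    | zero =>
      obtain ⟨x0, hx0⟩ := h ((y.app (op (ptT n))).app (op ⦋0⦌) PUnit.unit)
      have hK := objKan_of_injFib hY (op (ptT n))
      obtain ⟨v, hv, -⟩ := cn_lift (app_kanFib hq (op (ptT n))) (cn_symm hK hx0)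
      obtain ⟨z, hz⟩ := exists_vmap X v
      refine ⟨z, ?_, vmap_ext ?_⟩
      · refine NatTrans.ext (funext fun θ => NatTrans.ext (funext fun k => ?_))
        refine ConcreteCategory.hom_ext _ _ fun (u : PEmpty) => u.elim
      · refine Eq.trans ?_ hv
        exact congrArg ((q.app (op (ptT n))).app (op ⦋0⦌)) hz

/-! ### Suspension -/

theorem lif_succ_iff {n k : ℕ} {X Y : SP (Wr (Th n))} (q : X ⟶ Y) :
    Lif (n + 1) (k + 1) (X := X) (Y := Y) q ↔ ∀ u v : FL.Vt X, Lif n k (FL.HmMap q u v) := by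
  constructor
  · intro h u v P Q b hb x y hxy
    have hpk : ∀ i : Fin 2, pk (FL.vtMap q u) (FL.vtMap q v) i = FL.vtMap q (pk u v i) := by
      intro i
      fin_cases i
      · rfl
      · rfl
    obtain ⟨z, hz1, hz2⟩ := h _ _ _ (FL.IsBd.susp b hb) (susH x) (susH y) (by
      refine V1_extH (fun c l p => ?_) fun i l => ?_
      · refine (congrArg ((q.app (op (FL.seg c.unop))).app l) (susH_vsOf x c l p)).trans ?_
        refine Eq.trans ?_ (susH_vsOf y c l ((b.app c).app l p)).symm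
        exact congrArg (fun r : P ⟶ FL.Hm Y (FL.vtMap q u) (FL.vtMap q v) =>
          FL.Hm.val ((r.app c).app l p)) hxy
      · refine (congrArg ((q.app (op Wr.pt)).app l) (susH_vsEnd x i l)).trans ?_
        refine Eq.trans ?_ (congrArg (((susH y).app (op Wr.pt)).app l)
          (V1map_vsEnd b (op Wr.pt) l i)).symm
        refine Eq.trans ?_ (susH_vsEnd y i l).symm
        rw [hpk]
        exact FL.app_cst (q.app (op Wr.pt)) (pk u v i) l)
    have hz : ∀ (i : Fin 2) (l : SimplexCategoryᵒᵖ),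
        (z.app (op Wr.pt)).app l (FL.vsEnd Q i Wr.pt l) =
          FL.cst (X.obj (op Wr.pt)) (pk u v i) l := by
      intro i l
      have e1 := congrArg (fun r : V1 P ⟶ X => (r.app (op Wr.pt)).app l
        (FL.vsEnd P i Wr.pt l)) hz1
      have e2 : (z.app (op Wr.pt)).app l (((V1map b).app (op Wr.pt)).app l
          (FL.vsEnd P i Wr.pt l)) = (z.app (op Wr.pt)).app l (FL.vsEnd Q i Wr.pt l) :=
        congrArg ((z.app (op Wr.pt)).app l) (V1map_vsEnd b (op Wr.pt) l i)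
      exact e2.symm.trans (e1.trans (susH_vsEnd x i l))
    refine ⟨desusH z hz, ?_, ?_⟩
    · refine NatTrans.ext (funext fun c => NatTrans.ext (funext fun l => ?_))
      refine ConcreteCategory.hom_ext _ _ fun p => ?_
      refine Subtype.ext ?_
      refine Eq.trans ?_ (susH_vsOf x c l p)
      exact congrArg (fun r : V1 P ⟶ X => (r.app (op (FL.seg c.unop))).app l (FL.vsOf P p)) hz1
    · refine NatTrans.ext (funext fun c => NatTrans.ext (funext fun l => ?_))
      refine ConcreteCategory.hom_ext _ _ fun p => ?_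
      refine Subtype.ext ?_
      refine Eq.trans ?_ (susH_vsOf y c l p)
      exact congrArg (fun r : V1 Q ⟶ Y => (r.app (op (FL.seg c.unop))).app l (FL.vsOf Q p)) hz2
  · intro h P Q b hb x y hxy
    cases hb with
    | susp b' hb' =>
      rename_i P Q
      let u : FL.Vt X := (x.app (op Wr.pt)).app (op ⦋0⦌) (FL.vsEnd P 0 Wr.pt (op ⦋0⦌))
      let v : FL.Vt X := (x.app (op Wr.pt)).app (op ⦋0⦌) (FL.vsEnd P 1 Wr.pt (op ⦋0⦌))
      refine susp_lift q u v b' (h u v P Q b' hb') x y hxy ?_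
      intro i l
      have hx0 : (x.app (op Wr.pt)).app (op ⦋0⦌) (FL.vsEnd P i Wr.pt (op ⦋0⦌)) = pk u v i := by
        fin_cases i
        · rfl
        · rfl
      rw [← hx0]
      refine Eq.trans ?_ (FL.hom_natk x (SimplexCategory.const l.unop ⦋0⦌ 0).op
        (FL.vsEnd P i Wr.pt (op ⦋0⦌)))
      refine congrArg ((x.app (op Wr.pt)).app l) ?_
      exact FL.VS.ext' rfl fun (p : Fin 0) => p.elim0

theorem surj_iff_lif (k : ℕ) : ∀ {n : ℕ}, k ≤ n → ∀ {X Y : SP (Th n)}, InjFib X → InjFib Y →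
    ∀ {q : X ⟶ Y}, InjFibration q → (FLP.Surj n k q ↔ Lif n k q) := by
  induction k with
  | zero =>
    intro n _ X Y _ hY q hq
    rw [surj_zero_iff, lif_zero_iff hY hq]
  | succ k ih =>
    intro n hk X Y hX hY q hq
    obtain ⟨n, rfl⟩ : ∃ m, n = m + 1 := ⟨n - 1, by omega⟩
    obtain ⟨e, he⟩ := Pool.Agent.Helper36.FLPHm.exists_hmIso (C := Th n)
    refine (surj_succ_iff (n := n) (k := k) (X := X) (Y := Y) q).trans
      (Iff.trans ?_ (lif_succ_iff (n := n) (k := k) (X := X) (Y := Y) q).symm)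
    refine forall_congr' fun u => forall_congr' fun v => ?_
    have hX' : InjFib (FLP.Hm (C := Th n) X u v) :=
      injFib_of_iso (e X u v) (Helper53FL2.Hm_injFib (C := Th n) (X := X) hX u v)
    have hY' : InjFib (FLP.Hm (C := Th n) Y (FL.vtMap (C := Th n) (X := X) (Y := Y) q u)
        (FL.vtMap (C := Th n) (X := X) (Y := Y) q v)) :=
      injFib_of_iso (e Y _ _) (Helper53FL2.Hm_injFib (C := Th n) (X := Y) hY _ _)
    have hq' : InjFibration (FLP.HmMap (C := Th n) (X := X) (Y := Y) q u v) :=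
      injFibration_of_iso (e X u v) (e Y _ _) (he (X := X) (Y := Y) q u v)
        (Helper53FL2.HmMap_injFibration (C := Th n) (X := X) (Y := Y) hq u v)
    refine (ih (n := n) (by omega) hX' hY' hq').trans ?_
    constructor
    · intro h
      exact lif_of_iso (e X u v).symm (e Y _ _).symm
        (inv_sq (e X u v) (e Y _ _) (he (X := X) (Y := Y) q u v)) h
    · intro h
      exact lif_of_iso (e X u v) (e Y _ _) (he (X := X) (Y := Y) q u v) h

theorem surj_iff {n k : ℕ} (hk : k ≤ n) {X Y : SP (Th n)} (hX : InjFib X) (hY : InjFib Y)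
    {q : X ⟶ Y} (hq : InjFibration q) :
    FLP.Surj n k q ↔ ∀ (P Q : SP (Th n)) (b : P ⟶ Q), FL.IsBd n k b →
      ∀ (x : P ⟶ X) (y : Q ⟶ Y), x ≫ q = b ≫ y → ∃ z : Q ⟶ X, b ≫ z = x ∧ z ≫ q = y :=
  surj_iff_lif k hk hX hY hq

end Pool.Agent.Helper87.FLPSurj
end

/- Helper28.FLP.Cmp -/
section
/-!
# FLP-B6b: presheaves on `Cat_n` and comparison maps
-/

open CategoryTheory MonoidalCategory CartesianMonoidalCategory Opposite

set_option autoImplicit false

namespace Pool.Agent.Helper28.FLCmp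

open FL (SP MpS HoEq InjFib InjFibration Th Wr)
open FLP

noncomputable section

variable {n : ℕ} (H : CatIff n)

theorem kan_iff (F : FLP.PSh n) : F.Kan ↔ (toPSh H F).Kan :=
  ⟨fun h K => h (ofC H K), fun h C => h (toC H C)⟩

theorem act_eq (F : FLP.PSh n) {C C' : FLP.CatN n} {m : SimplexCategory} (ψ : C.Mx C' m)
    (x : Sx (F.obj C') m) :
    F.act C C' ψ x = (toPSh H F).act (C := toC H C) (C' := toC H C') (k := op m) (ofMx ψ) x := by
  show F.act C C' ψ x = F.act C C' (toMx (ofMx ψ)) x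
  rw [toMx_ofMx]

/-- Equivalences `F ⟶ G`: if `G'` is a presheaf on `FL.CatN n` with an isomorphism
`toPSh G ≅ G'` compatible with the actions. -/
theorem equiv_iff (F G : FLP.PSh n) (G' : FL.PSh n)
    (e : ∀ K : FL.CatN n, (toPSh H G).obj K ≅ G'.obj K)
    (he : ∀ {K K' : FL.CatN n} {k : SimplexCategoryᵒᵖ} (φ : MpS K.1 K'.1 k.unop)
      (x : ((toPSh H G).obj K').obj k), (e K).hom.app k ((toPSh H G).act φ x) =
        G'.act φ ((e K').hom.app k x)) :
    PSh.Equiv F G ↔ FL.PSh.Equiv (toPSh H F) G' := by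
  constructor
  · rintro ⟨f, hact, hf⟩
    refine ⟨⟨fun K => f (ofC H K) ≫ (e K).hom, fun {K K' k} φ x => ?_⟩, fun K => ?_⟩
    · have h1 := hact (ofC H K) (ofC H K') (m := k.unop) (toMx φ) x
      refine Eq.trans (congrArg ((e K).hom.app k) h1) ?_
      exact he φ _
    · exact Pool.Agent.Helper88.FL.hoEq_of_arrow_iso (Iso.refl _) (e K)
        (Category.id_comp _).symm (hf (ofC H K))
  · rintro ⟨φ, hφ⟩
    refine ⟨fun C => φ.app (toC H C) ≫ (e (toC H C)).inv, fun C C' m ψ x => ?_, fun C => ?_⟩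
    · have h1 := φ.act (C := toC H C) (C' := toC H C') (k := op m) (ofMx ψ) x
      have h2 := he (K := toC H C) (K' := toC H C') (k := op m) (ofMx ψ)
        ((e (toC H C')).inv.app (op m) ((φ.app (toC H C')).app (op m) x))
      have h3 : (e (toC H C')).hom.app (op m)
          ((e (toC H C')).inv.app (op m) ((φ.app (toC H C')).app (op m) x)) =
          (φ.app (toC H C')).app (op m) x :=
        ConcreteCategory.congr_hom (NatTrans.congr_app (e (toC H C')).inv_hom_id (op m)) _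
      rw [h3, ← h1] at h2
      have h4 := congrArg ((e (toC H C)).inv.app (op m)) h2
      have h5 : ∀ y : ((toPSh H G).obj (toC H C)).obj (op m), (e (toC H C)).inv.app (op m)
          ((e (toC H C)).hom.app (op m) y) = y := fun y =>
        ConcreteCategory.congr_hom (NatTrans.congr_app (e (toC H C)).hom_inv_id (op m)) y
      refine Eq.trans ?_ (h4.symm.trans ((h5 _).trans ?_))
      · show (e (toC H C)).inv.app (op m) ((φ.app (toC H C)).app (op m) (F.act C C' ψ x)) = _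
        rw [act_eq H F ψ x]
      · exact (act_eq H G ψ _).symm
    · refine Pool.Agent.Helper88.FL.hoEq_of_arrow_iso (Iso.refl _) (e (toC H C)).symm
        (Category.id_comp _).symm (hφ (toC H C))

section

variable {J : Type} [SmallCategory J]

/-- precomposition with an isomorphism -/
def preIso {A : Type} [SmallCategory A] {X X' : SP A} (e : X ≅ X') (Y : SP A) :
    Mp X' Y ≅ Mp X Y where
  hom := Mp.pre e.hom Y
  inv := Mp.pre e.inv Y
  hom_inv_id := NatTrans.ext (funext fun m => ConcreteCategory.hom_ext _ _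
    fun (φ : Mx X' Y m.unop) => by
      show (Mx.of e.inv m.unop).comp ((Mx.of e.hom m.unop).comp φ) = φ
      rw [← Mx.comp_assoc, ← Mx.of_comp, e.inv_hom_id, Mx.id_comp])
  inv_hom_id := NatTrans.ext (funext fun m => ConcreteCategory.hom_ext _ _
    fun (φ : Mx X Y m.unop) => by
      show (Mx.of e.hom m.unop).comp ((Mx.of e.inv m.unop).comp φ) = φ
      rw [← Mx.comp_assoc, ← Mx.of_comp, e.hom_inv_id, Mx.id_comp])

theorem along_eq (F : FLP.PSh n) (p : PSh.Diag n J) :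
    (toPSh H F).along p.p (fun j => (H _).1 (p.cat j)) = F.along p := rfl

theorem compare_eq (e : PSh.Wt J ≅ FL.W J) (F : FLP.PSh n) {p : PSh.Diag n J} {K : FLP.CatN n}
    {Λ : PSh.Cocone p K} {Λ' : FL.Hoco p.p ⟶ K.X} (h : Corr e Λ Λ') :
    (toPSh H F).compare p.p (fun j => (H _).1 (p.cat j)) ((H _).1 K.cat) Λ' ≫
      (mpIso (FL.W J) (F.along p)).hom ≫ (preIso e (F.along p)).hom = F.compare Λ := by
  refine NatTrans.ext (funext fun m => ConcreteCategory.hom_ext _ _ fun x => ?_)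
  refine NatTrans.ext (funext fun j => NatTrans.ext (funext fun k =>
    ConcreteCategory.hom_ext _ _ fun z => ?_))
  show F.act (p.at j.unop) K (toMx (FL.coneS Λ' ((e.hom.app j).app k z.1)))
      ((F.obj K).map (SSet.stdSimplex.objEquiv z.2).op x) =
    F.act (p.at j.unop) K ((Λ.app j).app k z.1) ((SSet.yonedaEquiv.symm x : _ ⟶ F.obj K).app k z.2)
  have h1 := h j.unop k.unop ((e.hom.app j).app k z.1)
  have h2 : (e.inv.app j).app k ((e.hom.app j).app k z.1) = z.1 :=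
    ConcreteCategory.congr_hom (NatTrans.congr_app (NatTrans.congr_app e.hom_inv_id j) k) z.1
  exact congrArg (fun t => F.act (p.at j.unop) K (m := k.unop) t
    ((F.obj K).map (SSet.stdSimplex.objEquiv z.2).op x))
    ((congrArg toMx h1).trans ((toMx_ofMx _).trans (congrArg ((Λ.app j).app k) h2)))

theorem compare_iff (e : PSh.Wt J ≅ FL.W J) (F : FLP.PSh n) {p : PSh.Diag n J} {K : FLP.CatN n}
    {Λ : PSh.Cocone p K} {Λ' : FL.Hoco p.p ⟶ K.X} (h : Corr e Λ Λ') :
    HoEq (F.compare Λ) ↔ HoEq ((toPSh H F).compare p.p (fun j => (H _).1 (p.cat j))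
      ((H _).1 K.cat) Λ') := by
  constructor
  · intro h1
    refine Pool.Agent.Helper88.FL.hoEq_of_arrow_iso (Iso.refl _)
      ((mpIso (FL.W J) (F.along p)).trans (preIso e (F.along p))).symm ?_ h1
    refine (Iso.comp_inv_eq _).2 ?_
    exact (compare_eq H e F h).symm
  · intro h1
    refine Pool.Agent.Helper88.FL.hoEq_of_arrow_iso (Iso.refl _)
      ((mpIso (FL.W J) (F.along p)).trans (preIso e (F.along p))) ?_ h1
    exact (compare_eq H e F h).trans (Category.id_comp _).symm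

end

end

end Pool.Agent.Helper28.FLCmp
end

/- Helper83.FLP.RpCompare -/
section
/-! FLP-B6c: comparison maps of the representable presheaves (helper83). -/

open CategoryTheory MonoidalCategory CartesianMonoidalCategory Opposite

set_option autoImplicit false

namespace Helper83FLP

open FL (SP MpS HoEq InjFib InjFibration Th Wr)
open FLP

noncomputable section

section General

variable {A B J : Type} [SmallCategory A] [SmallCategory B] [SmallCategory J]

lemma iso_inv_hom {X X' : SP A} (f : X ≅ X') {a : Aᵒᵖ} {k : SimplexCategoryᵒᵖ}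
    (x : (X'.obj a).obj k) : (f.hom.app a).app k ((f.inv.app a).app k x) = x :=
  ConcreteCategory.congr_hom (NatTrans.congr_app (NatTrans.congr_app f.inv_hom_id a) k) x

lemma iso_hom_inv {X X' : SP A} (f : X ≅ X') {a : Aᵒᵖ} {k : SimplexCategoryᵒᵖ}
    (x : (X.obj a).obj k) : (f.inv.app a).app k ((f.hom.app a).app k x) = x :=
  ConcreteCategory.congr_hom (NatTrans.congr_app (NatTrans.congr_app f.hom_inv_id a) k) x

/-- Precomposition with an isomorphism. -/
def preIso {X X' : SP A} (f : X ≅ X') (Y : SP A) : FL.Mp X' Y ≅ FL.Mp X Y where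
  hom := FL.Mp.pre f.hom Y
  inv := FL.Mp.pre f.inv Y
  hom_inv_id := by
    refine NatTrans.ext (funext fun m => ConcreteCategory.hom_ext _ _
      fun (φ : MpS X' Y m.unop) => MpS.ext ?_)
    funext a k s x
    exact congrArg (φ.app a k s) (iso_inv_hom f x)
  inv_hom_id := by
    refine NatTrans.ext (funext fun m => ConcreteCategory.hom_ext _ _
      fun (φ : MpS X Y m.unop) => MpS.ext ?_)
    funext a k s x
    exact congrArg (φ.app a k s) (iso_hom_inv f x)

/-- Postcomposition with an isomorphism. -/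
def postIso (X : SP A) {Y Y' : SP A} (f : Y ≅ Y') : FL.Mp X Y ≅ FL.Mp X Y' where
  hom := FL.Mp.post X f.hom
  inv := FL.Mp.post X f.inv
  hom_inv_id := by
    refine NatTrans.ext (funext fun m => ConcreteCategory.hom_ext _ _
      fun (φ : MpS X Y m.unop) => MpS.ext ?_)
    funext a k s x
    exact iso_hom_inv f (φ.app a k s x)
  inv_hom_id := by
    refine NatTrans.ext (funext fun m => ConcreteCategory.hom_ext _ _
      fun (φ : MpS X Y' m.unop) => MpS.ext ?_)
    funext a k s x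
    exact iso_inv_hom f (φ.app a k s x)

lemma arrow_symm {X Y X' Y' : SSet.{0}} {f : X ⟶ Y} {f' : X' ⟶ Y'} (e : X ≅ X') (e' : Y ≅ Y')
    (h : f ≫ e'.hom = e.hom ≫ f') : f' ≫ e'.symm.hom = e.symm.hom ≫ f := by
  rw [Iso.symm_hom, Iso.symm_hom, Iso.comp_inv_eq, Category.assoc, h, Iso.inv_hom_id_assoc]

lemma yon_app {K : SSet.{0}} {m : SimplexCategory} (x : Sx K m) (k : SimplexCategoryᵒᵖ)
    (z : (SSet.stdSimplex.obj m : SSet.{0}).obj k) :
    (SSet.yonedaEquiv.symm x : SSet.stdSimplex.obj m ⟶ K).app k z =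
      res (SSet.stdSimplex.objEquiv z) x := rfl

lemma ofMx_along (t : B ⥤ A) {X Y : SP A} {m : SimplexCategory} (φ : Mx X Y m) (b : Bᵒᵖ)
    (l : SimplexCategoryᵒᵖ) (s : l.unop ⟶ m) (x : ((rs t X).obj b).obj l) :
    (ofMx (φ.along t)).app b l s x = (ofMx φ).app (t.op.obj b) l s x := rfl

lemma comp_elem (t : B ⥤ A) {X Y : SP A} {Z : SP B} {k m : SimplexCategory} (φ : Mx X Y k)
    (ψ : MpS (rs t Y) Z m) (α : k ⟶ m) (b : Bᵒᵖ) (l : SimplexCategoryᵒᵖ) (s : l.unop ⟶ k)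
    (x : ((rs t X).obj b).obj l) :
    (ofMx ((φ.along t).comp ((toMx ψ).res α))).app b l s x =
      ψ.app b l (s ≫ α) ((ofMx φ).app (t.op.obj b) l s x) := by
  rw [ofMx_comp, ← toMx_res, ofMx_toMx]
  rfl

/-- The diagram restricted along `t`. -/
abbrev rD (t : B ⥤ A) (p : J ⥤ SP A) : J ⥤ SP B :=
  p ⋙ (Functor.whiskeringLeft _ _ _).obj t.op

/-- Homotopy colimits commute with restriction. -/
def hocoIso (t : B ⥤ A) (p : J ⥤ SP A) : FL.Hoco (rD t p) ≅ t.op ⋙ FL.Hoco p where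
  hom := { app := fun a =>
             { app := fun k => ↾ fun (w : FL.HS (rD t p) a k) =>
                 (⟨w.σ, w.x⟩ : FL.HS p (t.op.obj a) k)
               naturality := fun _ _ _ => rfl }
           naturality := fun _ _ _ => rfl }
  inv := { app := fun a =>
             { app := fun k => ↾ fun (w : FL.HS p (t.op.obj a) k) =>
                 (⟨w.σ, w.x⟩ : FL.HS (rD t p) a k)
               naturality := fun _ _ _ => rfl }
           naturality := fun _ _ _ => rfl }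
  hom_inv_id := rfl
  inv_hom_id := rfl

end General

variable {n : ℕ} {J B : Type} [SmallCategory J] [SmallCategory B]

/-- The diagram of mapping spaces. -/
def dIso (t : B ⥤ Th n) (Z : SP B) (p : PSh.Diag n J) :
    FL.mpDiag (rD t p.p) Z ≅ (PSh.rp t Z).along p where
  hom := { app := fun j => (mpIso (t.op ⋙ p.p.obj j.unop) Z).hom
           naturality := fun _ _ _ => rfl }
  inv := { app := fun j => (mpIso (t.op ⋙ p.p.obj j.unop) Z).inv
           naturality := fun j j' f => by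
             have h := mpIso_pre (Functor.whiskerLeft t.op (p.p.map f.unop)) Z
             rw [← Iso.eq_comp_inv, Category.assoc] at h
             rw [← Iso.inv_comp_eq] at h
             exact h }
  hom_inv_id := NatTrans.ext (funext fun j => (mpIso (t.op ⋙ p.p.obj j.unop) Z).hom_inv_id)
  inv_hom_id := NatTrans.ext (funext fun j => (mpIso (t.op ⋙ p.p.obj j.unop) Z).inv_hom_id)

theorem rp_compare_iff' (t : B ⥤ Th n) (Z : SP B) (e : PSh.Wt J ≅ FL.W J) {p : PSh.Diag n J}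
    {K : FLP.CatN n} {Λ : PSh.Cocone p K} {Λ' : FL.Hoco p.p ⟶ K.X} (h : Corr e Λ Λ') :
    HoEq ((PSh.rp t Z).compare Λ) ↔ HoEq (FL.Mp.pre (Functor.whiskerLeft t.op Λ') Z) := by
  obtain ⟨E2, hE2⟩ := Helper61FL.exists_holimIso (rD t p.p) Z
  let E : FL.Mp (t.op ⋙ FL.Hoco p.p) Z ≅ Mp (PSh.Wt J) ((PSh.rp t Z).along p) :=
    preIso (hocoIso t p.p) Z ≪≫ E2 ≪≫ postIso _ (dIso t Z p) ≪≫ preIso e _ ≪≫ mpIso _ _
  have key : FL.Mp.pre (Functor.whiskerLeft t.op Λ') Z ≫ E.hom =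
      (mpIso (t.op ⋙ K.X) Z).hom ≫ (PSh.rp t Z).compare Λ := by
    refine NatTrans.ext (funext fun m => ConcreteCategory.hom_ext _ _
      fun (ψ : MpS (t.op ⋙ K.X) Z m.unop) => ?_)
    refine NatTrans.ext (funext fun j => NatTrans.ext (funext fun k =>
      ConcreteCategory.hom_ext _ _ fun w => ?_))
    obtain ⟨w, z⟩ := w
    let w' : FL.WS j.unop k.unop := (e.hom.app j).app k w
    let X : MpS (t.op ⋙ p.p.obj j.unop) Z k.unop :=
      (E2.hom.app m ((MpS.ofHom m.unop (hocoIso t p.p).hom).comp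
        ((MpS.ofHom m.unop (Functor.whiskerLeft t.op Λ')).comp ψ)) :
          MpS (FL.W J) (FL.mpDiag (rD t p.p) Z) m.unop).app j k (SSet.stdSimplex.objEquiv z) w'
    show toMx X = Mx.comp (Mx.along t (((Λ.app j).app k w : (p.at j.unop).Mx K k.unop)))
      ((SSet.yonedaEquiv.symm (toMx ψ : Sx ((PSh.rp t Z).obj K) m.unop) :
        SSet.stdSimplex.obj m.unop ⟶ (PSh.rp t Z).obj K).app k z)
    have hw : (e.inv.app j).app k w' = w := iso_hom_inv e w
    have hc := h j.unop k.unop w'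
    rw [show ((e.inv.app (op j.unop)).app (op k.unop)) w' = w from hw] at hc
    apply (mxEquiv _ _ _).symm.injective
    show ofMx (toMx X) = ofMx _
    rw [ofMx_toMx]
    refine MpS.ext ?_
    funext b l s x
    refine (hE2 m _ j k (SSet.stdSimplex.objEquiv z) w' b l s x).trans ?_
    have hc' := congrArg (fun χ : MpS (p.p.obj j.unop) K.X k.unop => χ.app (t.op.obj b) l s x) hc
    refine Eq.trans ?_ (comp_elem t ((Λ.app j).app k w : (p.at j.unop).Mx K k.unop) ψ
      (SSet.stdSimplex.objEquiv z) b l s x).symm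
    exact congrArg (ψ.app b l (s ≫ SSet.stdSimplex.objEquiv z)) hc'
  constructor
  · intro h1
    exact Pool.Agent.Helper88.FL.hoEq_of_arrow_iso (mpIso (t.op ⋙ K.X) Z).symm E.symm
      (arrow_symm (mpIso (t.op ⋙ K.X) Z) E key) h1
  · intro h1
    exact Pool.Agent.Helper88.FL.hoEq_of_arrow_iso (mpIso (t.op ⋙ K.X) Z) E key h1

theorem rp_compare_iff (e : PSh.Wt J ≅ FL.W J) {p : PSh.Diag n J} {K : FLP.CatN n}
    {Λ : PSh.Cocone p K} {Λ' : FL.Hoco p.p ⟶ K.X} (h : Corr e Λ Λ') (i : ℕ) (Z : FLP.CatN n) :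
    HoEq ((PSh.rp (FL.tr n i) Z.X).compare Λ) ↔
      HoEq (FL.Mp.pre (Functor.whiskerLeft (FL.tr n i).op Λ') Z.X) :=
  rp_compare_iff' (FL.tr n i) Z.X e h

end

end Helper83FLP
end

/- Helper64.FL2.Surj -/
section
/-!
# Project FL2, module F6 (SURJ): surjectivity on `k`-morphisms
-/

open CategoryTheory MonoidalCategory Simplicial Opposite

set_option autoImplicit false

namespace Helper64FL2

open FL
open Helper53FL2 (pk V1map_mono)

theorem IsBd.mono {n k : ℕ} {P Q : SP (Th n)} {b : P ⟶ Q} (hb : IsBd n k b) :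
    ∀ a, Mono (b.app a) := by
  induction hb with
  | zero n =>
    intro a
    refine Helper53FL2.mono_of_inj _ fun k => ?_
    intro (x : PEmpty) y _
    exact x.elim
  | susp f h ih => exact V1map_mono f ih

theorem lift_transport {A : Type} [SmallCategory A] {P Q L L' H : SP A} (b : P ⟶ Q) (m : L ⟶ L')
    (e : L' ≅ H) (g : L ⟶ H) (he : m ≫ e.hom = g)
    (K : ∀ (x : P ⟶ L) (y : Q ⟶ L'), x ≫ m = b ≫ y → ∃ z : Q ⟶ L, b ≫ z = x ∧ z ≫ m = y)
    (x : P ⟶ L) (y : Q ⟶ H) (hxy : x ≫ g = b ≫ y) :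
    ∃ z : Q ⟶ L, b ≫ z = x ∧ z ≫ g = y := by
  subst he
  obtain ⟨z, hz1, hz2⟩ := K x (y ≫ e.inv) (by
    rw [← cancel_mono e.hom, Category.assoc, Category.assoc, Category.assoc, Iso.inv_hom_id,
      Category.comp_id]
    exact hxy)
  refine ⟨z, hz1, ?_⟩
  rw [← Category.assoc, hz2, Category.assoc, Iso.inv_hom_id, Category.comp_id]

theorem surj_of_ES_of (HH : SurjHyp) {n : ℕ} {X : SP (Th n)} {D : SP (Gn n)} (hX : Sg n X)
    (hD : InjFib D) (f : filt X ⟶ D) (h : ∀ i : Fin (n + 1), ES n i (levelHom f i))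
    (i j : Fin (n + 1)) (hij : i ≤ j) (k : ℕ) (hk : k ≤ i.1) (P Q : SP (Th n)) (b : P ⟶ Q)
    (hb : IsBd n k b) (x : P ⟶ level D i) (y : Q ⟶ level D j)
    (hxy : x ≫ levelMap D hij = b ≫ y) :
    ∃ z : Q ⟶ level D i, b ≫ z = x ∧ z ≫ levelMap D hij = y := by
  induction hb with
  | zero n => exact surj_zero hD f h i j hij x y
  | @susp n k P Q b hb ih =>
    obtain ⟨i, rfl⟩ : ∃ i' : Fin (n + 1), i = i'.succ := by
      refine Fin.exists_succ_eq.2 ?_ |>.imp fun _ h => h.symm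
      rintro rfl
      exact absurd hk (Nat.not_succ_le_zero k)
    obtain ⟨j, rfl⟩ : ∃ j' : Fin (n + 1), j = j'.succ := by
      refine Fin.exists_succ_eq.2 ?_ |>.imp fun _ h => h.symm
      rintro rfl
      exact absurd (hk.trans hij) (Nat.not_succ_le_zero k)
    have hij' : i ≤ j := Fin.succ_le_succ_iff.1 hij
    have hk' : k ≤ i.1 := Nat.le_of_succ_le_succ hk
    have hES : ∀ i' : Fin (n + 1), ES (n + 1) (i'.1 + 1) (levelHom f i'.succ) := fun i' =>
      h i'.succ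
    refine susp_lift' (C := Th n) (lv_injFib hD i.succ) (lv_injFib hD j.succ)
      (levelMap D hij) (lvMap_injFibration hD hij) b (IsBd.mono hb)
      (Set.range fun a : Vt (C := Th n) (level (filt X) i.succ) =>
        vtMap (C := Th n) (levelHom f i.succ) a) ?_ ?_ x y hxy
    · intro z
      obtain ⟨a, ha⟩ := (hES i).1 z
      exact ⟨_, ⟨a, rfl⟩, ha⟩
    · rintro _ ⟨a, rfl⟩ _ ⟨a', rfl⟩
      let x₀ : Vt (C := Th n) X := (X.map ((trUnit (n + 1) i.succ).app (ptT (n + 1))).op).app _ a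
      let y₀ : Vt (C := Th n) X := (X.map ((trUnit (n + 1) i.succ).app (ptT (n + 1))).op).app _ a'
      obtain ⟨f', hf', -⟩ := HH.exists_NDHm f x₀ y₀
      obtain ⟨e1, e2, -⟩ := HH.ES_NDHm f x₀ y₀ f' hf' i a a' rfl rfl
      have hES' : ∀ i' : Fin (n + 1), ES n i' (levelHom f' i') := by
        intro i'
        obtain ⟨c, hc⟩ := (HH.vt_filt X i').2 x₀
        obtain ⟨c', hc'⟩ := (HH.vt_filt X i').2 y₀
        obtain ⟨-, -, e3⟩ := HH.ES_NDHm f x₀ y₀ f' hf' i' c c' hc hc'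
        exact (e3 i'.1).1 ((hES i').2 c c')
      have hXX : Sg n (Hm (C := Th n) X x₀ y₀) :=
        ((HH.sg_succ_iff hX.1 Set.univ fun z =>
          ⟨z, trivial, Pool.Agent.Helper91.FL2.cn_refl z⟩).1 hX).2 x₀ trivial y₀ trivial
      suffices core : ∀ (u v : Vt (C := Th n) (level D i.succ)),
          u = vlev D (vf f x₀) i.succ → v = vlev D (vf f y₀) i.succ →
          ∀ (x : P ⟶ Hm (C := Th n) (level D i.succ) u v)
            (y : Q ⟶ Hm (C := Th n) (level D j.succ) (vtMap (C := Th n) (levelMap D hij) u)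
              (vtMap (C := Th n) (levelMap D hij) v)),
            x ≫ HmMap (C := Th n) (levelMap D hij) u v = b ≫ y →
            ∃ z : Q ⟶ Hm (C := Th n) (level D i.succ) u v,
              b ≫ z = x ∧ z ≫ HmMap (C := Th n) (levelMap D hij) u v = y from
        core _ _ e1 e2
      rintro _ _ rfl rfl x' y' hxy'
      obtain ⟨e, he⟩ := HH.FHm_levelMap D (vf f x₀) (vf f y₀) hij' hij
      exact lift_transport b (levelMap (FHm D (vf f x₀) (vf f y₀)) hij') e
        (HmMap (C := Th n) (levelMap D hij) (vlev D (vf f x₀) i.succ)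
          (vlev D (vf f y₀) i.succ)) he
        (fun x y hxy => ih hXX (HH.FHm_injFib hD (vf f x₀) (vf f y₀)) f' hES' i j hij' hk' x y hxy)
        x' y' hxy'

end Helper64FL2
end

/- Helper7.FL2.Ndh -/
section
/-!
# Mapping presheaves of `ND D`
-/

open CategoryTheory MonoidalCategory Opposite

set_option autoImplicit false

namespace Pool.Agent.Helper7.FL2

open FL

noncomputable section

/-! ### Terminal objects -/

theorem disc_uniq (a b : Discrete PUnit.{1}) (f g : a ⟶ b) : f = g := Subsingleton.elim _ _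

theorem ptT_uniq : ∀ {n : ℕ} {a : Th n} (f g : a ⟶ ptT n), f = g
  | 0, a, f, g => disc_uniq a _ f g
  | (_ + 1), _, f, g => Wr.toPt_unique f g

def toPtT : ∀ {n : ℕ} (a : Th n), a ⟶ ptT n
  | 0, (a : Discrete PUnit.{1}) => (Discrete.eqToHom (Subsingleton.elim _ _) :
      a ⟶ (⟨PUnit.unit⟩ : Discrete PUnit.{1}))
  | (n + 1), a => Wr.toPt (C := Th n) a

theorem tow_uniq : ∀ {n : ℕ} {a : Th n} (f g : a ⟶ (tower n).obj (ptT n, op 0)), f = g
  | 0, a, f, g => disc_uniq a _ f g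
  | (_ + 1), _, f, g => Wr.toPt_unique f g

/-- The map to the terminal object of `Gn n`. -/
def toG {n : ℕ} (g : Gn n) : g ⟶ (ptT n, op 0) :=
  (toPtT g.1, (homOfLE (Fin.zero_le g.2.unop)).op)

theorem toG_uniq {n : ℕ} {g : Gn n} (u v : g ⟶ (ptT n, op 0)) : u = v :=
  Prod.ext (ptT_uniq _ _) (Subsingleton.elim _ _)

theorem ND_pt {n : ℕ} (D : SP (Gn n)) : IsIso ((eps D).app (op (ptT n, op 0))) := by
  rw [NatTrans.isIso_iff_isIso_app]
  intro k
  rw [isIso_iff_bijective]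
  constructor
  · intro (φ : MpS (filt (rep ((tower n).obj (ptT n, op 0)))) D k.unop)
      (ψ : MpS (filt (rep ((tower n).obj (ptT n, op 0)))) D k.unop) h
    have h' : φ.app (op (ptT n, op 0)) k (𝟙 _) (𝟙 ((tower n).obj (ptT n, op 0))) =
      ψ.app (op (ptT n, op 0)) k (𝟙 _) (𝟙 ((tower n).obj (ptT n, op 0))) := h
    have key : ∀ (φ : MpS (filt (rep ((tower n).obj (ptT n, op 0)))) D k.unop)
        (g : (Gn n)ᵒᵖ) (l : SimplexCategoryᵒᵖ) (s : l.unop ⟶ k.unop)
        (u : (tower n).obj g.unop ⟶ (tower n).obj (ptT n, op 0)),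
        φ.app g l s u = (D.map (toG g.unop).op).app l ((D.obj (op (ptT n, op 0))).map s.op
          (φ.app (op (ptT n, op 0)) k (𝟙 _) (𝟙 ((tower n).obj (ptT n, op 0))))) := by
      intro φ g l s u
      rw [← φ.nat_right (op (ptT n, op 0)) s.op (𝟙 _) (𝟙 ((tower n).obj (ptT n, op 0)))]
      rw [← φ.nat_left]
      have e1 : s = s.op.unop ≫ 𝟙 k.unop := (Category.comp_id s).symm
      rw [← e1]
      exact congrArg (φ.app g l s) (tow_uniq _ _)
    refine MpS.ext ?_
    funext g l s u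
    refine (key φ g l s u).trans (Eq.trans ?_ (key ψ g l s u).symm)
    rw [h']
  · intro d
    refine ⟨({ app := fun g l s u => (D.map (toG g.unop).op).app l
                ((D.obj (op (ptT n, op 0))).map s.op d)
               nat_left := fun {g g'} f l s u => by
                 rw [← sp_comp]
                 refine congrArg (fun t => (D.map t).app l _) ?_
                 refine Quiver.Hom.unop_inj ?_
                 exact toG_uniq _ _
               nat_right := fun g {l l'} α s u => by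
                 rw [← sp_nat]
                 refine congrArg ((D.map (toG g.unop).op).app l') ?_
                 exact sset_comp _ s.op α d } :
        MpS (filt (rep ((tower n).obj (ptT n, op 0)))) D k.unop), ?_⟩
    show (D.map (toG (ptT n, op 0)).op).app k ((D.obj (op (ptT n, op 0))).map (𝟙 _) d) = d
    rw [sset_id]
    have e : toG (ptT n, op 0) = 𝟙 _ := toG_uniq _ _
    rw [e]
    exact sp_id D d

/-! ### Constant simplices -/

/-- The constant simplex of `D` at `g` given by a vertex of `D` at the terminal object. -/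
def cd {n : ℕ} (D : SP (Gn n)) (d : (D.obj (op (ptT n, op 0))).obj (op (SimplexCategory.mk 0)))
    (g : (Gn n)ᵒᵖ) (l : SimplexCategoryᵒᵖ) : (D.obj g).obj l :=
  (D.map (toG g.unop).op).app l (cst _ d l)

theorem cd_map {n : ℕ} (D : SP (Gn n))
    (d : (D.obj (op (ptT n, op 0))).obj (op (SimplexCategory.mk 0)))
    {g g' : (Gn n)ᵒᵖ} (u : g ⟶ g') (l : SimplexCategoryᵒᵖ) :
    (D.map u).app l (cd D d g l) = cd D d g' l := by
  unfold cd
  rw [← sp_comp]
  refine congrArg (fun t => (D.map t).app l _) ?_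
  refine Quiver.Hom.unop_inj ?_
  exact toG_uniq _ _

theorem cd_mapk {n : ℕ} (D : SP (Gn n))
    (d : (D.obj (op (ptT n, op 0))).obj (op (SimplexCategory.mk 0)))
    (g : (Gn n)ᵒᵖ) {l l' : SimplexCategoryᵒᵖ} (α : l ⟶ l') :
    (D.obj g).map α (cd D d g l) = cd D d g l' := by
  unfold cd
  rw [← sp_nat, cst_map]

theorem map_cst {n : ℕ} (D : SP (Gn n))
    (d : (D.obj (op (ptT n, op 0))).obj (op (SimplexCategory.mk 0)))
    {g' : (Gn n)ᵒᵖ} (u : op (ptT n, op 0) ⟶ g') (l : SimplexCategoryᵒᵖ) :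
    (D.map u).app l (cst _ d l) = cd D d g' l := by
  unfold cd
  refine congrArg (fun t => (D.map t).app l _) ?_
  refine Quiver.Hom.unop_inj ?_
  exact toG_uniq _ _

section Succ

variable {n : ℕ}

theorem cst_vlev (D : SP (Gn (n + 1))) (d : Vt (C := Th n) (level D 0)) (i : Fin (n + 2))
    (l : SimplexCategoryᵒᵖ) :
    cst ((level D i).obj (op (ptT (n + 1)))) (vlev D d i) l =
      cd D d (op (ptT (n + 1), op i)) l := by
  refine (app_cst ((levelMap D (Fin.zero_le i)).app (op (ptT (n + 1)))) d l).symm.trans ?_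
  exact map_cst D d _ l

/-- Values of a map `filt X ⟶ D` at simplices which are images of vertices. -/
theorem f_cst {X : SP (Th (n + 1))} {D : SP (Gn (n + 1))} (f : filt X ⟶ D)
    (x : Vt (C := Th n) X) (g : (Gn (n + 1))ᵒᵖ) (l : SimplexCategoryᵒᵖ)
    (u : (tower (n + 1)).obj g.unop ⟶ ptT (n + 1)) :
    (f.app g).app l ((X.map u.op).app l (cst (X.obj (op (ptT (n + 1)))) x l)) =
      cd D (vf f x) g l := by
  have e : u = (tower (n + 1)).map (toG g.unop) := ptT_uniq _ _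
  rw [e]
  refine (hom_nat f (toG g.unop).op (cst (X.obj (op (ptT (n + 1)))) x l)).trans ?_
  refine congrArg ((D.map (toG g.unop).op).app l) ?_
  exact app_cst (f.app (op (ptT (n + 1), op 0))) x l

/-- The vertex `b` of `[1](c)`, as a map of `Gn (n + 1)`. -/
def vG (g : Gn n) (b : Fin 2) : (ptT (n + 1), op g.2.unop.succ) ⟶ (segG n).obj g :=
  ((vtx (seg g.1) b : (ptT (n + 1)) ⟶ (seg g.1 : Wr (Th n))), 𝟙 _)

/-- The simplex of `FHm D d d'` given by a simplex of `D` with the correct ends. -/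
def mkF (D : SP (Gn (n + 1))) (d d' : Vt (C := Th n) (level D 0)) (g : (Gn n)ᵒᵖ)
    (k : SimplexCategoryᵒᵖ) (y : (D.obj (op ((segG n).obj g.unop))).obj k)
    (h0 : (D.map (vG g.unop 0).op).app k y = cd D d _ k)
    (h1 : (D.map (vG g.unop 1).op).app k y = cd D d' _ k) : ((FHm D d d').obj g).obj k :=
  ⟨y, Prod.ext (h0.trans (cst_vlev D d _ k).symm) (h1.trans (cst_vlev D d' _ k).symm)⟩

/-- The underlying simplex. -/
def valF {D : SP (Gn (n + 1))} {d d' : Vt (C := Th n) (level D 0)} {g : (Gn n)ᵒᵖ}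
    {k : SimplexCategoryᵒᵖ} (z : ((FHm D d d').obj g).obj k) :
    (D.obj (op ((segG n).obj g.unop))).obj k := z.1

theorem valF_inj {D : SP (Gn (n + 1))} {d d' : Vt (C := Th n) (level D 0)} {g : (Gn n)ᵒᵖ}
    {k : SimplexCategoryᵒᵖ} {z z' : ((FHm D d d').obj g).obj k} (h : valF z = valF z') :
    z = z' := Subtype.ext h

theorem valF_mk (D : SP (Gn (n + 1))) (d d' : Vt (C := Th n) (level D 0)) (g : (Gn n)ᵒᵖ)
    (k : SimplexCategoryᵒᵖ) (y : (D.obj (op ((segG n).obj g.unop))).obj k)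
    (h0 : (D.map (vG g.unop 0).op).app k y = cd D d _ k)
    (h1 : (D.map (vG g.unop 1).op).app k y = cd D d' _ k) :
    valF (mkF D d d' g k y h0 h1) = y := rfl

theorem valF_zero {D : SP (Gn (n + 1))} {d d' : Vt (C := Th n) (level D 0)} {g : (Gn n)ᵒᵖ}
    {k : SimplexCategoryᵒᵖ} (z : ((FHm D d d').obj g).obj k) :
    (D.map (vG g.unop 0).op).app k (valF z) = cd D d _ k :=
  (congrArg Prod.fst z.2).trans (cst_vlev D d _ k)

theorem valF_one {D : SP (Gn (n + 1))} {d d' : Vt (C := Th n) (level D 0)} {g : (Gn n)ᵒᵖ}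
    {k : SimplexCategoryᵒᵖ} (z : ((FHm D d d').obj g).obj k) :
    (D.map (vG g.unop 1).op).app k (valF z) = cd D d' _ k :=
  (congrArg Prod.snd z.2).trans (cst_vlev D d' _ k)

theorem valF_map {D : SP (Gn (n + 1))} {d d' : Vt (C := Th n) (level D 0)} {g g' : (Gn n)ᵒᵖ}
    (u : g ⟶ g') {k : SimplexCategoryᵒᵖ} (z : ((FHm D d d').obj g).obj k) :
    valF (((FHm D d d').map u).app k z) = (D.map ((segG n).map u.unop).op).app k (valF z) := rfl

theorem valF_mapk {D : SP (Gn (n + 1))} {d d' : Vt (C := Th n) (level D 0)} {g : (Gn n)ᵒᵖ}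
    {k l : SimplexCategoryᵒᵖ} (α : k ⟶ l) (z : ((FHm D d d').obj g).obj k) :
    valF (((FHm D d d').obj g).map α z) = (D.obj _).map α (valF z) := rfl

/-- The underlying simplex of a simplex of a mapping presheaf. -/
theorem Hm_zero {X : SP (Th (n + 1))} {x y : Vt (C := Th n) X} {c : (Th n)ᵒᵖ}
    {k : SimplexCategoryᵒᵖ} (z : ((Hm (C := Th n) X x y).obj c).obj k) :
    (X.map (Quiver.Hom.op (vtx (seg c.unop) 0 : (Wr.pt : Wr (Th n)) ⟶ seg c.unop))).app k
      (Hm.val (C := Th n) z) = cst (X.obj (op (ptT (n + 1)))) x k := congrArg Prod.fst z.2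

theorem Hm_one {X : SP (Th (n + 1))} {x y : Vt (C := Th n) X} {c : (Th n)ᵒᵖ}
    {k : SimplexCategoryᵒᵖ} (z : ((Hm (C := Th n) X x y).obj c).obj k) :
    (X.map (Quiver.Hom.op (vtx (seg c.unop) 1 : (Wr.pt : Wr (Th n)) ⟶ seg c.unop))).app k
      (Hm.val (C := Th n) z) = cst (X.obj (op (ptT (n + 1)))) y k := congrArg Prod.snd z.2

/-- The image of the vertex `b` of `[1](c)` under the truncation. -/
theorem tow_vG (g : Gn n) (b : Fin 2) :
    (tower (n + 1)).map (vG g b) =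
      (Wr.toPt ((tower (n + 1)).obj (ptT (n + 1), op g.2.unop.succ) : Wr (Th n)) ≫
        (vtx (seg ((tower n).obj g)) b : (Wr.pt : Wr (Th n)) ⟶ seg ((tower n).obj g)) :
        ((tower (n + 1)).obj (ptT (n + 1), op g.2.unop.succ) : Wr (Th n)) ⟶
          seg ((tower n).obj g)) := by
  refine Wr.hom_ext' rfl fun (i : Fin 0) _ _ _ => i.elim0

theorem f_ends {X : SP (Th (n + 1))} {D : SP (Gn (n + 1))} (f : filt X ⟶ D)
    (g : (Gn n)ᵒᵖ) (k : SimplexCategoryᵒᵖ) (b : Fin 2) (x : Vt (C := Th n) X)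
    (z : (X.obj (op (seg ((tower n).obj g.unop) : Wr (Th n)))).obj k)
    (hz : (X.map (Quiver.Hom.op (vtx (seg ((tower n).obj g.unop)) b :
      (Wr.pt : Wr (Th n)) ⟶ seg ((tower n).obj g.unop)))).app k z =
        cst (X.obj (op (ptT (n + 1)))) x k) :
    (D.map (vG g.unop b).op).app k ((f.app (op ((segG n).obj g.unop))).app k z) =
      cd D (vf f x) _ k := by
  refine (hom_nat f (vG g.unop b).op z).symm.trans ?_
  refine Eq.trans ?_ (f_cst f x (op (ptT (n + 1), op g.unop.2.unop.succ)) k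
    (Wr.toPt ((tower (n + 1)).obj (ptT (n + 1), op g.unop.2.unop.succ) : Wr (Th n))))
  refine congrArg ((f.app (op (ptT (n + 1), op g.unop.2.unop.succ))).app k) ?_
  rw [← hz]
  refine Eq.trans ?_ (sp_comp X _ _ z)
  exact congrArg (fun t => (X.map (Quiver.Hom.op t)).app k z) (tow_vG g.unop b)

/-- The underlying monotone map of a truncated morphism. -/
theorem tow_f {θ θ' : Wr (Th n)} {i j : Fin (n + 1)}
    (m : ((θ, op j.succ) : Gn (n + 1)) ⟶ ((θ', op i.succ) : Gn (n + 1))) :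
    Wr.Hom.f (X := (Wr.map (tr n j)).obj θ) (Y := (Wr.map (tr n i)).obj θ')
      ((tower (n + 1)).map m) = Wr.Hom.f (X := θ) (Y := θ') m.1 := rfl

/-- The components of a truncated morphism. -/
theorem tow_g {θ θ' : Wr (Th n)} {i j : Fin (n + 1)}
    (m : ((θ, op j.succ) : Gn (n + 1)) ⟶ ((θ', op i.succ) : Gn (n + 1))) (hij : i ≤ j)
    (a : Fin θ.len) (b : Fin θ'.len) (h : Jump (Wr.Hom.f (X := θ) (Y := θ') m.1) a b) :
    Wr.Hom.g (X := (Wr.map (tr n j)).obj θ) (Y := (Wr.map (tr n i)).obj θ')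
      ((tower (n + 1)).map m) a b h =
      (tower n).map ((Wr.Hom.g (X := θ) (Y := θ') m.1 a b h, (homOfLE hij).op) :
        ((θ.obj a, op j) : Gn n) ⟶ (θ'.obj b, op i)) := by
  have e := Wr.comp_g (X := (Wr.map (tr n j)).obj θ) (Y := (Wr.map (tr n j)).obj θ')
    (Z := (Wr.map (tr n i)).obj θ')
    ((Wr.map (tr n j)).map m.1) ((Wr.mapNat (trMap n i j hij)).app θ') (i := a) (j := b) (k := b)
    h (jump_id.mpr rfl)
  refine e.trans ?_
  have e2 := Wr.ofComp_g (X := fun i => (tr n j).obj (θ'.obj i))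
    (Y := fun b => (tr n i).obj (θ'.obj b)) (fun b => (trMap n i j hij).app (θ'.obj b)) b
    (jump_id.mpr rfl)
  exact congrArg (fun t => (tr n j).map (Wr.Hom.g (X := θ) (Y := θ') m.1 a b h) ≫ t) e2

theorem tow_seg {g g' : Gn n} (v : g' ⟶ g) :
    (tower (n + 1)).map ((segG n).map v) = segMap ((tower n).map v) := by
  refine Wr.hom_ext' rfl fun i j h h' => ?_
  obtain rfl : i = j := jump_id.mp h'
  refine (tow_g (θ := seg g'.1) (θ' := seg g.1) ((segG n).map v) (leOfHom v.2.unop) i i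
    (jump_id.mpr rfl)).trans ?_
  refine Eq.trans ?_ (Wr.ofComp_g (X := fun _ => (tower n).obj g')
    (Y := fun _ => (tower n).obj g) (fun _ => (tower n).map v) i h').symm
  refine congrArg (fun t => (tower n).map t) ?_
  refine Prod.ext ?_ (Subsingleton.elim _ _)
  exact Wr.ofComp_g (X := fun _ => g'.1) (Y := fun _ => g.1) (fun _ => v.1) i (jump_id.mpr rfl)

/-- The map `f'`. -/
def fH {X : SP (Th (n + 1))} {D : SP (Gn (n + 1))} (f : filt X ⟶ D) (x y : Vt (C := Th n) X) :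
    filt (Hm (C := Th n) X x y) ⟶ FHm D (vf f x) (vf f y) where
  app g :=
    { app := fun k => ↾ fun (z : ((Hm (C := Th n) X x y).obj (op ((tower n).obj g.unop))).obj k) =>
        mkF D (vf f x) (vf f y) g k
          ((f.app (op ((segG n).obj g.unop))).app k (Hm.val (C := Th n) z))
          (f_ends f g k 0 x _ (Hm_zero z)) (f_ends f g k 1 y _ (Hm_one z))
      naturality := fun k l α => by
        refine ConcreteCategory.hom_ext _ _ fun z => ?_
        exact valF_inj (hom_natk f α _) }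
  naturality g g' u := by
    refine NatTrans.ext (funext fun k => ?_)
    refine ConcreteCategory.hom_ext _ _
      fun (z : ((Hm (C := Th n) X x y).obj (op ((tower n).obj g.unop))).obj k) => ?_
    refine valF_inj ?_
    refine Eq.trans ?_ (hom_nat f ((segG n).map u.unop).op (Hm.val (C := Th n) z))
    refine congrArg ((f.app (op ((segG n).obj g'.unop))).app k) ?_
    exact congrArg (fun t => (X.map (Quiver.Hom.op t)).app k (Hm.val (C := Th n) z))
      (tow_seg u.unop).symm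

end Succ

/-! ### Morphisms to `[1](c)` -/

section Wreath

variable {C : Type} [SmallCategory C]

theorem segMap_comp {c c' c'' : C} (f : c ⟶ c') (g : c' ⟶ c'') :
    segMap (f ≫ g) = segMap f ≫ segMap g := by
  refine Wr.hom_ext' rfl fun i j h h' => ?_
  obtain rfl : i = j := jump_id.mp h
  have e := Wr.comp_g (X := seg c) (Y := seg c') (Z := seg c'')
    (segMap f) (segMap g) (i := i) (j := i) (k := i) (jump_id.mpr rfl) (jump_id.mpr rfl)
  refine (Wr.ofComp_g (X := fun _ => c) (Y := fun _ => c'') _ i h).trans ?_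
  refine Eq.trans ?_ e.symm
  exact (congrArg₂ (· ≫ ·)
    (Wr.ofComp_g (X := fun _ => c) (Y := fun _ => c') (fun _ => f) i (jump_id.mpr rfl))
    (Wr.ofComp_g (X := fun _ => c') (Y := fun _ => c'') (fun _ => g) i (jump_id.mpr rfl))).symm

theorem trich {r : ℕ} (F : Fin (r + 1) →o Fin 2) :
    (∃ b, ∀ t, F t = b) ∨ ∃ a : Fin r, Jump F a (0 : Fin 1) := by
  by_cases h0 : F 0 = 0
  · by_cases h1 : F (Fin.last r) = 0
    · refine Or.inl ⟨0, fun t => ?_⟩
      have := F.monotone (Fin.le_last t)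
      rw [h1] at this
      exact le_antisymm this (Fin.zero_le _)
    · refine Or.inr ?_
      obtain ⟨a, _, _, h⟩ := exists_jump F (0 : Fin 1) (p := 0) (q := Fin.last r)
        (by rw [h0]; exact Fin.zero_le _) (by
          have h2 : F (Fin.last r) = 1 := by
            rcases Fin.exists_fin_two.mp ⟨F (Fin.last r), rfl⟩ with h | h
            · exact absurd h h1
            · exact h
          rw [h2]
          exact le_refl _)
      exact ⟨a, h⟩
  · refine Or.inl ⟨1, fun t => ?_⟩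
    have h2 : F 0 = 1 := by
      rcases Fin.exists_fin_two.mp ⟨F 0, rfl⟩ with h | h
      · exact absurd h h0
      · exact h
    have := F.monotone (Fin.zero_le t)
    rw [h2] at this
    exact le_antisymm (Fin.le_last _) this

/-- The collapse onto the gap `a`. -/
def cl (θ : Wr C) (F : Fin (θ.len + 1) →o Fin 2) (a : Fin θ.len) (h : Jump F a (0 : Fin 1)) :
    θ ⟶ seg (θ.obj a) :=
  ({ f := F
     g := fun _ j' h' => eqToHom (congrArg θ.obj
      (h'.unique ((Subsingleton.elim (0 : Fin 1) j') ▸ h))) } : Wr.Hom θ (seg (θ.obj a)))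

theorem cl_factor {θ : Wr C} {c : C} (φ : θ ⟶ seg c) (a : Fin θ.len)
    (h : Jump (Wr.Hom.f φ) a (0 : Fin 1)) :
    φ = cl θ (Wr.Hom.f φ) a h ≫ segMap (Wr.Hom.g φ a 0 h) := by
  refine Wr.hom_ext' rfl fun i (j : Fin 1) h1 h2 => ?_
  obtain rfl : j = 0 := Subsingleton.elim _ _
  obtain rfl : i = a := h1.unique h
  have e := Wr.comp_g (cl θ (Wr.Hom.f φ) i h) (segMap (Wr.Hom.g φ i 0 h)) (i := i)
    (j := (0 : Fin 1)) (k := (0 : Fin 1)) h (jump_id.mpr rfl)
  refine Eq.trans ?_ e.symm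
  have e2 := Wr.ofComp_g (X := fun _ => θ.obj i) (Y := fun _ => c)
    (fun _ => Wr.Hom.g φ i 0 h) (0 : Fin 1) (jump_id.mpr rfl)
  refine Eq.trans ?_ (congrArg (fun t => Wr.Hom.g (cl θ (Wr.Hom.f φ) i h) i (0 : Fin 1) h ≫ t)
    e2).symm
  exact (Category.id_comp _).symm

theorem const_factor {θ : Wr C} {c : C} (φ : θ ⟶ seg c) (b : Fin 2)
    (h : ∀ t, Wr.Hom.f φ t = b) : φ = Wr.toPt θ ≫ vtx (seg c) b := by
  refine Wr.hom_ext' (OrderHom.ext _ _ (funext h)) fun i j h1 _ => ?_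
  exfalso
  have h2 := h1.1
  have h3 := h1.2
  rw [h] at h2 h3
  exact lt_irrefl _ (h2.trans_lt ((Fin.castSucc_lt_succ).trans_le h3))

end Wreath

/-! ### Simplices of `ND (FHm D d d')` and simplices of `ND D` with fixed ends -/

section Main

variable {n : ℕ} {D : SP (Gn (n + 1))} {d d' : Vt (C := Th n) (level D 0)}

/-- The two vertices. -/
def dd (d d' : Vt (C := Th n) (level D 0)) (b : Fin 2) : Vt (C := Th n) (level D 0) :=
  if b = 0 then d else d'

theorem valF_end {g : (Gn n)ᵒᵖ} {k : SimplexCategoryᵒᵖ} (z : ((FHm D d d').obj g).obj k)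
    (b : Fin 2) : (D.map (vG g.unop b).op).app k (valF z) = cd D (dd d d' b) _ k := by
  rcases Fin.exists_fin_two.mp ⟨b, rfl⟩ with rfl | rfl
  · exact valF_zero z
  · exact valF_one z

/-- The relation between morphisms to `[1](c)` and simplices of `D` defined by a simplex of
`ND (FHm D d d')`. -/
def RR' (D : SP (Gn (n + 1))) (d d' : Vt (C := Th n) (level D 0)) {c : Th n} {k : SimplexCategory}
    (ψ : MpS (filt (rep c)) (FHm D d d') k) (g : (Gn (n + 1))ᵒᵖ) (l : SimplexCategoryᵒᵖ)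
    (s : l.unop ⟶ k) (u : (tower (n + 1)).obj g.unop ⟶ (seg c : Wr (Th n)))
    (y : (D.obj g).obj l) : Prop :=
  (∃ b, u = Wr.toPt (C := Th n) ((tower (n + 1)).obj g.unop) ≫ vtx (seg c) b ∧
    y = cd D (dd d d' b) g l) ∨
  ∃ (g0 : Gn n) (m : g.unop ⟶ (segG n).obj g0) (v : (tower n).obj g0 ⟶ c),
    u = (tower (n + 1)).map m ≫ (segMap v : (seg ((tower n).obj g0) : Wr (Th n)) ⟶ seg c) ∧
    y = (D.map m.op).app l (valF (ψ.app (op g0) l s v))

variable {c : Th n} {k : SimplexCategory} (ψ : MpS (filt (rep c)) (FHm D d d') k)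

theorem R_left {g g' : (Gn (n + 1))ᵒᵖ} {l : SimplexCategoryᵒᵖ} {s : l.unop ⟶ k}
    {u : (tower (n + 1)).obj g.unop ⟶ (seg c : Wr (Th n))} {y : (D.obj g).obj l}
    (h : RR' D d d' ψ g l s u y) (f : g ⟶ g') :
    RR' D d d' ψ g' l s ((tower (n + 1)).map f.unop ≫ u) ((D.map f).app l y) := by
  rcases h with ⟨b, rfl, rfl⟩ | ⟨g0, m, v, rfl, rfl⟩
  · refine Or.inl ⟨b, ?_, cd_map D _ f l⟩
    refine (Category.assoc _ _ _).symm.trans ?_
    exact congrArg (fun t => t ≫ vtx (seg c) b) (Wr.toPt_unique _ _)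
  · refine Or.inr ⟨g0, f.unop ≫ m, v, ?_, ?_⟩
    · refine (Category.assoc _ _ _).symm.trans ?_
      exact congrArg (fun t => t ≫ segMap v) ((tower (n + 1)).map_comp f.unop m).symm
    · exact (sp_comp D m.op f _).symm

theorem R_right {g : (Gn (n + 1))ᵒᵖ} {l l' : SimplexCategoryᵒᵖ} {s : l.unop ⟶ k}
    {u : (tower (n + 1)).obj g.unop ⟶ (seg c : Wr (Th n))} {y : (D.obj g).obj l}
    (h : RR' D d d' ψ g l s u y) (α : l ⟶ l') :
    RR' D d d' ψ g l' (α.unop ≫ s) u ((D.obj g).map α y) := by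
  rcases h with ⟨b, rfl, rfl⟩ | ⟨g0, m, v, rfl, rfl⟩
  · exact Or.inl ⟨b, rfl, cd_mapk D _ g α⟩
  · refine Or.inr ⟨g0, m, v, rfl, ?_⟩
    rw [← sp_nat]
    refine congrArg ((D.map m.op).app l') ?_
    exact congrArg valF (ψ.nat_right (op g0) α s v).symm

/-- The case of a constant morphism. -/
theorem val_const {θ : Wr (Th n)} {j : Fin (n + 1)} {g0 : Gn n} {l : SimplexCategoryᵒᵖ}
    (m : ((θ, op j.succ) : Gn (n + 1)) ⟶ (segG n).obj g0) (b : Fin 2)
    (hb : ∀ t, Wr.Hom.f (X := θ) (Y := seg g0.1) m.1 t = b)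
    (z : ((FHm D d d').obj (op g0)).obj l) :
    (D.map m.op).app l (valF z) = cd D (dd d d' b) (op ((θ, op j.succ) : Gn (n + 1))) l := by
  have e : m = ((Wr.toPt θ, m.2) : ((θ, op j.succ) : Gn (n + 1)) ⟶
      (ptT (n + 1), op g0.2.unop.succ)) ≫ vG g0 b := by
    refine Prod.ext ?_ (Subsingleton.elim _ _)
    exact const_factor (C := Th n) m.1 b hb
  have e2 : (D.map m.op).app l (valF z) =
      (D.map (Quiver.Hom.op ((Wr.toPt θ, m.2) : ((θ, op j.succ) : Gn (n + 1)) ⟶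
      (ptT (n + 1), op g0.2.unop.succ)))).app l ((D.map (vG g0 b).op).app l (valF z)) := by
    conv_lhs => rw [e]
    exact sp_comp D _ _ _
  rw [e2]
  refine (congrArg _ (valF_end z b)).trans ?_
  exact cd_map D _ _ l

/-- The collapse onto the gap `a`, as a map of `Gn (n + 1)`. -/
def clG (θ : Wr (Th n)) (j : Fin (n + 1)) (F : Fin (θ.len + 1) →o Fin 2) (a : Fin θ.len)
    (h : Jump F a (0 : Fin 1)) :
    ((θ, op j.succ) : Gn (n + 1)) ⟶ (segG n).obj ((θ.obj a, op j) : Gn n) :=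
  ((cl θ F a h : θ ⟶ seg (θ.obj a)), 𝟙 _)

/-- The case of a morphism which is not constant. -/
theorem val_jump {θ : Wr (Th n)} {j : Fin (n + 1)} {g0 : Gn n} {l : SimplexCategoryᵒᵖ}
    {s : l.unop ⟶ k} (m : ((θ, op j.succ) : Gn (n + 1)) ⟶ (segG n).obj g0)
    (v : (tower n).obj g0 ⟶ c) (a : Fin θ.len)
    (h : Jump (Wr.Hom.f (X := θ) (Y := seg g0.1) m.1) a (0 : Fin 1))
    (u : (tower (n + 1)).obj ((θ, op j.succ) : Gn (n + 1)) ⟶ (seg c : Wr (Th n)))
    (hu : u = (tower (n + 1)).map m ≫ (segMap v : (seg ((tower n).obj g0) : Wr (Th n)) ⟶ seg c))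
    (h' : Jump (Wr.Hom.f (X := (Wr.map (tr n j)).obj θ) (Y := seg c) u) a (0 : Fin 1)) :
    (D.map m.op).app l (valF (ψ.app (op g0) l s v)) =
      (D.map (clG θ j (Wr.Hom.f (X := (Wr.map (tr n j)).obj θ) (Y := seg c) u) a h').op).app l
        (valF (ψ.app (op ((θ.obj a, op j) : Gn n)) l s
          (Wr.Hom.g (X := (Wr.map (tr n j)).obj θ) (Y := seg c) u a (0 : Fin 1) h'))) := by
  subst hu
  have hij : g0.2.unop ≤ j := Fin.succ_le_succ_iff.mp (leOfHom m.2.unop)
  have e : m = clG θ j (Wr.Hom.f (X := θ) (Y := seg g0.1) m.1) a h ≫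
      (segG n).map ((Wr.Hom.g (X := θ) (Y := seg g0.1) m.1 a (0 : Fin 1) h,
        (homOfLE hij).op) : ((θ.obj a, op j) : Gn n) ⟶ g0) := by
    refine Prod.ext ?_ (Subsingleton.elim _ _)
    exact cl_factor (C := Th n) m.1 a h
  have e2 : (D.map m.op).app l (valF (ψ.app (op g0) l s v)) =
      (D.map (clG θ j (Wr.Hom.f (X := θ) (Y := seg g0.1) m.1) a h).op).app l
        ((D.map ((segG n).map ((Wr.Hom.g (X := θ) (Y := seg g0.1) m.1 a (0 : Fin 1) h,
        (homOfLE hij).op) : ((θ.obj a, op j) : Gn n) ⟶ g0)).op).app l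
          (valF (ψ.app (op g0) l s v))) := by
    conv_lhs => rw [e]
    exact sp_comp D _ _ _
  refine e2.trans ?_
  refine congrArg ((D.map (clG θ j (Wr.Hom.f (X := θ) (Y := seg g0.1) m.1) a h).op).app l) ?_
  have e3 := ψ.nat_left (Quiver.Hom.op ((Wr.Hom.g (X := θ) (Y := seg g0.1) m.1 a (0 : Fin 1) h,
        (homOfLE hij).op) : ((θ.obj a, op j) : Gn n) ⟶ g0)) l s v
  refine (congrArg valF e3).symm.trans ?_
  refine congrArg (fun t => valF (ψ.app (op ((θ.obj a, op j) : Gn n)) l s t)) ?_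
  have e4 := tow_g (θ := θ) (θ' := seg g0.1) (i := g0.2.unop) m hij a (0 : Fin 1) h
  have e5 := Wr.comp_g (X := (Wr.map (tr n j)).obj θ) (Y := seg ((tower n).obj g0))
    (Z := seg c) ((tower (n + 1)).map m) (segMap v) (i := a) (j := (0 : Fin 1))
    (k := (0 : Fin 1)) h (jump_id.mpr rfl)
  have e6 := Wr.ofComp_g (X := fun _ => (tower n).obj g0) (Y := fun _ => c)
    (fun _ => v) (0 : Fin 1) (jump_id.mpr rfl)
  refine Eq.trans ?_ e5.symm
  exact (congrArg₂ (· ≫ ·) e4 e6).symm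

theorem R_const {θ : Wr (Th n)} {j : Fin (n + 1)} {l : SimplexCategoryᵒᵖ} {s : l.unop ⟶ k}
    {u : (tower (n + 1)).obj ((θ, op j.succ) : Gn (n + 1)) ⟶ (seg c : Wr (Th n))}
    {y : (D.obj (op ((θ, op j.succ) : Gn (n + 1)))).obj l} (b : Fin 2)
    (hb : ∀ t, Wr.Hom.f (X := (Wr.map (tr n j)).obj θ) (Y := seg c) u t = b)
    (h : RR' D d d' ψ (op ((θ, op j.succ) : Gn (n + 1))) l s u y) :
    y = cd D (dd d d' b) (op ((θ, op j.succ) : Gn (n + 1))) l := by
  rcases h with ⟨b', h1, rfl⟩ | ⟨g0, m, v, h1, rfl⟩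
  · have h2 := hb 0
    rw [h1] at h2
    have h3 : b' = b := h2
    rw [h3]
  · refine val_const m b ?_ _
    intro t
    have h2 := hb t
    rw [h1] at h2
    exact h2

theorem R_jump {θ : Wr (Th n)} {j : Fin (n + 1)} {l : SimplexCategoryᵒᵖ} {s : l.unop ⟶ k}
    {u : (tower (n + 1)).obj ((θ, op j.succ) : Gn (n + 1)) ⟶ (seg c : Wr (Th n))}
    {y : (D.obj (op ((θ, op j.succ) : Gn (n + 1)))).obj l} (a : Fin θ.len)
    (ha : Jump (Wr.Hom.f (X := (Wr.map (tr n j)).obj θ) (Y := seg c) u) a (0 : Fin 1))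
    (h : RR' D d d' ψ (op ((θ, op j.succ) : Gn (n + 1))) l s u y) :
    y = (D.map (clG θ j (Wr.Hom.f (X := (Wr.map (tr n j)).obj θ) (Y := seg c) u) a ha).op).app l
        (valF (ψ.app (op ((θ.obj a, op j) : Gn n)) l s
          (Wr.Hom.g (X := (Wr.map (tr n j)).obj θ) (Y := seg c) u a (0 : Fin 1) ha))) := by
  rcases h with ⟨b', h1, rfl⟩ | ⟨g0, m, v, h1, rfl⟩
  · exfalso
    have h2 := ha
    rw [h1] at h2
    have h3 : ((0 : Fin 1).succ : Fin 2) ≤ b' := h2.2
    have h4 : b' ≤ ((0 : Fin 1).castSucc : Fin 2) := h2.1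
    exact absurd (h3.trans h4) (by decide)
  · refine val_jump ψ m v a ?_ u h1 ha
    have h2 := ha
    rw [h1] at h2
    exact h2

theorem R_fun {g : (Gn (n + 1))ᵒᵖ} {l : SimplexCategoryᵒᵖ} {s : l.unop ⟶ k}
    {u : (tower (n + 1)).obj g.unop ⟶ (seg c : Wr (Th n))} {y y' : (D.obj g).obj l}
    (h : RR' D d d' ψ g l s u y) (h' : RR' D d d' ψ g l s u y') : y = y' := by
  obtain ⟨⟨θ, ⟨j⟩⟩⟩ := g
  rcases Fin.eq_zero_or_eq_succ j with rfl | ⟨j, rfl⟩
  · have aux : ∀ (g0 : Gn n) (m : ((θ, op 0) : Gn (n + 1)) ⟶ (segG n).obj g0), False := by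
      intro g0 m
      have h1 : g0.2.unop.succ ≤ (0 : Fin (n + 2)) := leOfHom m.2.unop
      exact absurd h1 (not_le.mpr (Fin.succ_pos _))
    rcases h with ⟨b, h1, rfl⟩ | ⟨g0, m, v, h1, rfl⟩
    · rcases h' with ⟨b', h1', rfl⟩ | ⟨g0, m, v, h1', rfl⟩
      · have h2 := h1.symm.trans h1'
        have h3 := congrArg (fun t => Wr.Hom.f (X := (Wr.pt : Wr (Th n))) (Y := seg c) t 0) h2
        have h4 : b = b' := h3
        rw [h4]
      · exact (aux g0 m).elim
    · exact (aux g0 m).elim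
  · rcases trich (Wr.Hom.f (X := (Wr.map (tr n j)).obj θ) (Y := seg c) u) with ⟨b, hb⟩ | ⟨a, ha⟩
    · exact (R_const ψ b hb h).trans (R_const ψ b hb h').symm
    · exact (R_jump (θ := θ) ψ a ha h).trans (R_jump (θ := θ) ψ a ha h').symm

theorem clG_factor {θ : Wr (Th n)} {j : Fin (n + 1)}
    (u : (tower (n + 1)).obj ((θ, op j.succ) : Gn (n + 1)) ⟶ (seg c : Wr (Th n)))
    (a : Fin θ.len)
    (ha : Jump (Wr.Hom.f (X := (Wr.map (tr n j)).obj θ) (Y := seg c) u) a (0 : Fin 1)) :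
    u = (tower (n + 1)).map (clG θ j (Wr.Hom.f (X := (Wr.map (tr n j)).obj θ) (Y := seg c) u)
      a ha) ≫ (segMap (Wr.Hom.g (X := (Wr.map (tr n j)).obj θ) (Y := seg c) u a (0 : Fin 1) ha) :
        (seg ((tower n).obj ((θ.obj a, op j) : Gn n)) : Wr (Th n)) ⟶ seg c) := by
  refine Wr.hom_ext' (X := (Wr.map (tr n j)).obj θ) (Y := seg c) rfl
    fun i (j' : Fin 1) h1 h2 => ?_
  obtain rfl : j' = 0 := Subsingleton.elim _ _
  obtain rfl : i = a := h1.unique ha
  have e4 := tow_g (θ := θ) (θ' := seg (θ.obj i)) (i := j)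
    (clG θ j (Wr.Hom.f (X := (Wr.map (tr n j)).obj θ) (Y := seg c) u) i ha) (le_refl _) i
    (0 : Fin 1) ha
  have e5 := Wr.comp_g (X := (Wr.map (tr n j)).obj θ)
    (Y := seg ((tower n).obj ((θ.obj i, op j) : Gn n)))
    (Z := seg c) ((tower (n + 1)).map
      (clG θ j (Wr.Hom.f (X := (Wr.map (tr n j)).obj θ) (Y := seg c) u) i ha))
    (segMap (Wr.Hom.g (X := (Wr.map (tr n j)).obj θ) (Y := seg c) u i (0 : Fin 1) ha))
    (i := i) (j := (0 : Fin 1)) (k := (0 : Fin 1)) ha (jump_id.mpr rfl)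
  have e6 := Wr.ofComp_g (X := fun _ => (tower n).obj ((θ.obj i, op j) : Gn n)) (Y := fun _ => c)
    (fun _ => Wr.Hom.g (X := (Wr.map (tr n j)).obj θ) (Y := seg c) u i (0 : Fin 1) ha)
    (0 : Fin 1) (jump_id.mpr rfl)
  refine Eq.trans ?_ e5.symm
  refine Eq.trans ?_ (congrArg₂ (· ≫ ·) e4 e6).symm
  have e7 : (tower n).map ((Wr.Hom.g (X := θ) (Y := seg (θ.obj i))
      (clG θ j (Wr.Hom.f (X := (Wr.map (tr n j)).obj θ) (Y := seg c) u) i ha).1 i (0 : Fin 1) ha,
      (homOfLE (le_refl j)).op) : ((θ.obj i, op j) : Gn n) ⟶ (θ.obj i, op j)) = 𝟙 _ := by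
    refine Eq.trans ?_ ((tower n).map_id _)
    refine congrArg (fun t => (tower n).map t) ?_
    exact Prod.ext rfl (Subsingleton.elim _ _)
  refine Eq.trans ?_ (congrArg (fun t => t ≫
    Wr.Hom.g (X := (Wr.map (tr n j)).obj θ) (Y := seg c) u i (0 : Fin 1) ha) e7).symm
  exact (Category.id_comp _).symm

theorem R_tot (g : (Gn (n + 1))ᵒᵖ) (l : SimplexCategoryᵒᵖ) (s : l.unop ⟶ k)
    (u : (tower (n + 1)).obj g.unop ⟶ (seg c : Wr (Th n))) : ∃ y, RR' D d d' ψ g l s u y := by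
  obtain ⟨⟨θ, ⟨j⟩⟩⟩ := g
  rcases Fin.eq_zero_or_eq_succ j with rfl | ⟨j, rfl⟩
  · refine ⟨_, Or.inl ⟨Wr.Hom.f (X := (Wr.pt : Wr (Th n))) (Y := seg c) u 0, ?_, rfl⟩⟩
    refine const_factor (C := Th n) (θ := Wr.pt) u _ fun (t : Fin 1) => ?_
    obtain rfl : t = 0 := Subsingleton.elim _ _
    rfl
  · rcases trich (Wr.Hom.f (X := (Wr.map (tr n j)).obj θ) (Y := seg c) u) with ⟨b, hb⟩ | ⟨a, ha⟩
    · exact ⟨_, Or.inl ⟨b, const_factor (C := Th n) (θ := (Wr.map (tr n j)).obj θ) u b hb, rfl⟩⟩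
    · exact ⟨_, Or.inr ⟨(θ.obj a, op j), _, _, clG_factor u a ha, rfl⟩⟩

/-- The simplex of `ND D` attached to a simplex of `ND (FHm D d d')`. -/
def mkZ : MpS (filt (rep (seg c : Wr (Th n)) : SP (Th (n + 1)))) D k where
  app g l s u := (R_tot ψ g l s u).choose
  nat_left {g g'} f l s u := R_fun ψ (R_tot ψ g' l s _).choose_spec
    (R_left ψ (R_tot ψ g l s u).choose_spec f)
  nat_right g {l l'} α s u := R_fun ψ (R_tot ψ g l' _ _).choose_spec
    (R_right ψ (R_tot ψ g l s u).choose_spec α)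

theorem mkZ_spec {g : (Gn (n + 1))ᵒᵖ} {l : SimplexCategoryᵒᵖ} {s : l.unop ⟶ k}
    {u : (tower (n + 1)).obj g.unop ⟶ (seg c : Wr (Th n))} {y : (D.obj g).obj l}
    (h : RR' D d d' ψ g l s u y) : (mkZ ψ).app g l s u = y :=
  R_fun ψ (R_tot ψ g l s u).choose_spec h

theorem Phi_end (z : MpS (filt (rep (seg c : Wr (Th n)) : SP (Th (n + 1)))) D k)
    (hz : ∀ (b : Fin 2) (g : (Gn (n + 1))ᵒᵖ) (l : SimplexCategoryᵒᵖ) (s : l.unop ⟶ k)
      (u : (tower (n + 1)).obj g.unop ⟶ (Wr.pt : Wr (Th n))),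
      z.app g l s (u ≫ vtx (seg c) b : _ ⟶ (seg c : Wr (Th n))) = cd D (dd d d' b) g l)
    (b : Fin 2) (g : (Gn n)ᵒᵖ) (l : SimplexCategoryᵒᵖ) (s : l.unop ⟶ k)
    (u : (tower n).obj g.unop ⟶ c) :
    (D.map (vG g.unop b).op).app l (z.app (op ((segG n).obj g.unop)) l s
      (segMap u : (seg ((tower n).obj g.unop) : Wr (Th n)) ⟶ seg c)) =
      cd D (dd d d' b) (op (ptT (n + 1), op g.unop.2.unop.succ)) l := by
  refine (z.nat_left (vG g.unop b).op l s _).symm.trans ?_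
  refine Eq.trans ?_ (hz b (op (ptT (n + 1), op g.unop.2.unop.succ)) l s
    (Wr.toPt ((tower (n + 1)).obj (ptT (n + 1), op g.unop.2.unop.succ) : Wr (Th n))))
  refine congrArg (z.app (op (ptT (n + 1), op g.unop.2.unop.succ)) l s) ?_
  refine (congrArg (fun t => t ≫ (segMap u : (seg ((tower n).obj g.unop) : Wr (Th n)) ⟶ seg c))
    (tow_vG g.unop b)).trans ?_
  refine (Category.assoc _ _ _).trans ?_
  exact congrArg (fun t => Wr.toPt ((tower (n + 1)).obj
    (ptT (n + 1), op g.unop.2.unop.succ) : Wr (Th n)) ≫ t) (vtx_comp b (segMap u))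

/-- The simplex of `ND (FHm D d d')` attached to a simplex of `ND D` with fixed ends. -/
def Phi (z : MpS (filt (rep (seg c : Wr (Th n)) : SP (Th (n + 1)))) D k)
    (hz : ∀ (b : Fin 2) (g : (Gn (n + 1))ᵒᵖ) (l : SimplexCategoryᵒᵖ) (s : l.unop ⟶ k)
      (u : (tower (n + 1)).obj g.unop ⟶ (Wr.pt : Wr (Th n))),
      z.app g l s (u ≫ vtx (seg c) b : _ ⟶ (seg c : Wr (Th n))) = cd D (dd d d' b) g l) :
    MpS (filt (rep c)) (FHm D d d') k where
  app g l s u := mkF D d d' g l (z.app (op ((segG n).obj g.unop)) l s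
      (segMap u : (seg ((tower n).obj g.unop) : Wr (Th n)) ⟶ seg c))
    (Phi_end z hz 0 g l s u) (Phi_end z hz 1 g l s u)
  nat_left {g g'} f l s u := by
    refine valF_inj ?_
    refine Eq.trans ?_ (z.nat_left ((segG n).map f.unop).op l s _)
    refine congrArg (z.app (op ((segG n).obj g'.unop)) l s) ?_
    refine (segMap_comp _ _).trans ?_
    exact congrArg (fun t => t ≫ segMap u) (tow_seg f.unop).symm
  nat_right g {l l'} α s u := valF_inj (z.nat_right _ α s _)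

theorem R_of (z : MpS (filt (rep (seg c : Wr (Th n)) : SP (Th (n + 1)))) D k)
    (hz : ∀ (b : Fin 2) (g : (Gn (n + 1))ᵒᵖ) (l : SimplexCategoryᵒᵖ) (s : l.unop ⟶ k)
      (u : (tower (n + 1)).obj g.unop ⟶ (Wr.pt : Wr (Th n))),
      z.app g l s (u ≫ vtx (seg c) b : _ ⟶ (seg c : Wr (Th n))) = cd D (dd d d' b) g l)
    (g : (Gn (n + 1))ᵒᵖ) (l : SimplexCategoryᵒᵖ) (s : l.unop ⟶ k)
    (u : (tower (n + 1)).obj g.unop ⟶ (seg c : Wr (Th n))) :
    RR' D d d' (Phi z hz) g l s u (z.app g l s u) := by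
  obtain ⟨y, hy⟩ := R_tot (Phi z hz) g l s u
  rcases hy with ⟨b, rfl, rfl⟩ | ⟨g0, m, v, rfl, rfl⟩
  · exact Or.inl ⟨b, rfl, hz b g l s _⟩
  · exact Or.inr ⟨g0, m, v, rfl, z.nat_left m.op l s _⟩

theorem mkZ_Phi (z : MpS (filt (rep (seg c : Wr (Th n)) : SP (Th (n + 1)))) D k)
    (hz : ∀ (b : Fin 2) (g : (Gn (n + 1))ᵒᵖ) (l : SimplexCategoryᵒᵖ) (s : l.unop ⟶ k)
      (u : (tower (n + 1)).obj g.unop ⟶ (Wr.pt : Wr (Th n))),
      z.app g l s (u ≫ vtx (seg c) b : _ ⟶ (seg c : Wr (Th n))) = cd D (dd d d' b) g l) :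
    mkZ (Phi z hz) = z := by
  refine MpS.ext ?_
  funext g l s u
  exact mkZ_spec _ (R_of z hz g l s u)

theorem mkZ_end (b : Fin 2) (g : (Gn (n + 1))ᵒᵖ) (l : SimplexCategoryᵒᵖ) (s : l.unop ⟶ k)
    (u : (tower (n + 1)).obj g.unop ⟶ (Wr.pt : Wr (Th n))) :
    (mkZ ψ).app g l s (u ≫ vtx (seg c) b : _ ⟶ (seg c : Wr (Th n))) = cd D (dd d d' b) g l := by
  refine mkZ_spec ψ (Or.inl ⟨b, ?_, rfl⟩)
  exact congrArg (fun t => t ≫ vtx (seg c) b) (Wr.toPt_unique _ _)

theorem Phi_mkZ : Phi (mkZ ψ) (mkZ_end ψ) = ψ := by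
  refine MpS.ext ?_
  funext g l s u
  refine valF_inj ?_
  refine mkZ_spec ψ (Or.inr ⟨g.unop, 𝟙 _, u, ?_, ?_⟩)
  · refine Eq.trans ?_ (congrArg (fun t => t ≫ (segMap u :
      (seg ((tower n).obj g.unop) : Wr (Th n)) ⟶ seg c))
      ((tower (n + 1)).map_id ((segG n).obj g.unop))).symm
    exact (Category.id_comp _).symm
  · exact (sp_id D _).symm

variable {v w : Vt (C := Th n) (ND D)}

theorem hz_of (hv : ∀ (g : (Gn (n + 1))ᵒᵖ) (l : SimplexCategoryᵒᵖ)
      (s : l.unop ⟶ SimplexCategory.mk 0) (u : (tower (n + 1)).obj g.unop ⟶ ptT (n + 1)),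
      (v : MpS (filt (rep (ptT (n + 1)))) D (SimplexCategory.mk 0)).app g l s u = cd D d g l)
    (hw : ∀ (g : (Gn (n + 1))ᵒᵖ) (l : SimplexCategoryᵒᵖ)
      (s : l.unop ⟶ SimplexCategory.mk 0) (u : (tower (n + 1)).obj g.unop ⟶ ptT (n + 1)),
      (w : MpS (filt (rep (ptT (n + 1)))) D (SimplexCategory.mk 0)).app g l s u = cd D d' g l)
    {c : (Th n)ᵒᵖ} {k : SimplexCategoryᵒᵖ} (z : ((Hm (C := Th n) (ND D) v w).obj c).obj k)
    (b : Fin 2) (g : (Gn (n + 1))ᵒᵖ) (l : SimplexCategoryᵒᵖ) (s : l.unop ⟶ k.unop)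
    (u : (tower (n + 1)).obj g.unop ⟶ (Wr.pt : Wr (Th n))) :
    (Hm.val (C := Th n) z : MpS (filt (rep (seg c.unop : Wr (Th n)) : SP (Th (n + 1)))) D
      k.unop).app g l s (u ≫ vtx (seg c.unop) b : _ ⟶ (seg c.unop : Wr (Th n))) =
      cd D (dd d d' b) g l := by
  rcases Fin.exists_fin_two.mp ⟨b, rfl⟩ with rfl | rfl
  · refine Eq.trans ?_ (hv g l (s ≫ SimplexCategory.const k.unop (SimplexCategory.mk 0) 0) u)
    exact congrArg (fun (t : MpS (filt (rep (ptT (n + 1)))) D k.unop) => t.app g l s u)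
      (Hm_zero z)
  · refine Eq.trans ?_ (hw g l (s ≫ SimplexCategory.const k.unop (SimplexCategory.mk 0) 0) u)
    exact congrArg (fun (t : MpS (filt (rep (ptT (n + 1)))) D k.unop) => t.app g l s u)
      (Hm_one z)

/-- The comparison map. -/
def psi (hv : ∀ (g : (Gn (n + 1))ᵒᵖ) (l : SimplexCategoryᵒᵖ)
      (s : l.unop ⟶ SimplexCategory.mk 0) (u : (tower (n + 1)).obj g.unop ⟶ ptT (n + 1)),
      (v : MpS (filt (rep (ptT (n + 1)))) D (SimplexCategory.mk 0)).app g l s u = cd D d g l)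
    (hw : ∀ (g : (Gn (n + 1))ᵒᵖ) (l : SimplexCategoryᵒᵖ)
      (s : l.unop ⟶ SimplexCategory.mk 0) (u : (tower (n + 1)).obj g.unop ⟶ ptT (n + 1)),
      (w : MpS (filt (rep (ptT (n + 1)))) D (SimplexCategory.mk 0)).app g l s u = cd D d' g l) :
    Hm (C := Th n) (ND D) v w ⟶ ND (FHm D d d') where
  app c :=
    { app := fun k => ↾ fun (z : ((Hm (C := Th n) (ND D) v w).obj c).obj k) =>
        (Phi (Hm.val (C := Th n) z : MpS (filt (rep (seg c.unop : Wr (Th n)) :
          SP (Th (n + 1)))) D k.unop) (hz_of hv hw z) :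
          MpS (filt (rep c.unop)) (FHm D d d') k.unop)
      naturality := fun _ _ _ => rfl }
  naturality c c' h := by
    refine NatTrans.ext (funext fun k => ?_)
    refine ConcreteCategory.hom_ext _ _
      fun (z : ((Hm (C := Th n) (ND D) v w).obj c).obj k) => ?_
    refine MpS.ext ?_
    funext g l s u
    refine valF_inj ?_
    exact congrArg ((Hm.val (C := Th n) z : MpS (filt (rep (seg c.unop : Wr (Th n)) :
          SP (Th (n + 1)))) D k.unop).app (op ((segG n).obj g.unop)) l s)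
      (segMap_comp _ _).symm

theorem psi_isIso (hv : ∀ (g : (Gn (n + 1))ᵒᵖ) (l : SimplexCategoryᵒᵖ)
      (s : l.unop ⟶ SimplexCategory.mk 0) (u : (tower (n + 1)).obj g.unop ⟶ ptT (n + 1)),
      (v : MpS (filt (rep (ptT (n + 1)))) D (SimplexCategory.mk 0)).app g l s u = cd D d g l)
    (hw : ∀ (g : (Gn (n + 1))ᵒᵖ) (l : SimplexCategoryᵒᵖ)
      (s : l.unop ⟶ SimplexCategory.mk 0) (u : (tower (n + 1)).obj g.unop ⟶ ptT (n + 1)),
      (w : MpS (filt (rep (ptT (n + 1)))) D (SimplexCategory.mk 0)).app g l s u = cd D d' g l) :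
    IsIso (psi hv hw) := by
  rw [NatTrans.isIso_iff_isIso_app]
  intro c
  rw [NatTrans.isIso_iff_isIso_app]
  intro k
  rw [isIso_iff_bijective]
  constructor
  · intro (z : ((Hm (C := Th n) (ND D) v w).obj c).obj k)
      (z' : ((Hm (C := Th n) (ND D) v w).obj c).obj k) h
    have h' : Phi (Hm.val (C := Th n) z : MpS (filt (rep (seg c.unop : Wr (Th n)) :
          SP (Th (n + 1)))) D k.unop) (hz_of hv hw z) =
        Phi (Hm.val (C := Th n) z' : MpS (filt (rep (seg c.unop : Wr (Th n)) :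
          SP (Th (n + 1)))) D k.unop) (hz_of hv hw z') := h
    refine Subtype.ext ?_
    refine (mkZ_Phi _ (hz_of hv hw z)).symm.trans (Eq.trans ?_ (mkZ_Phi _ (hz_of hv hw z')))
    rw [h']
  · intro (ψ : MpS (filt (rep c.unop)) (FHm D d d') k.unop)
    refine ⟨(⟨mkZ ψ, ?_⟩ : ((Hm (C := Th n) (ND D) v w).obj c).obj k), ?_⟩
    · refine Prod.ext ?_ ?_
      · refine MpS.ext ?_
        funext g l s u
        refine (mkZ_end ψ 0 g l s u).trans ?_
        exact (hv g l (s ≫ SimplexCategory.const k.unop (SimplexCategory.mk 0) 0) u).symm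
      · refine MpS.ext ?_
        funext g l s u
        refine (mkZ_end ψ 1 g l s u).trans ?_
        exact (hw g l (s ≫ SimplexCategory.const k.unop (SimplexCategory.mk 0) 0) u).symm
    · exact Phi_mkZ ψ

end Main

section Final

variable {n : ℕ}

theorem flat_good {X : SP (Th (n + 1))} {D : SP (Gn (n + 1))} (f : filt X ⟶ D)
    (x : Vt (C := Th n) X) (g : (Gn (n + 1))ᵒᵖ) (l : SimplexCategoryᵒᵖ)
    (s : l.unop ⟶ SimplexCategory.mk 0) (u : (tower (n + 1)).obj g.unop ⟶ ptT (n + 1)) :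
    (vtMap (C := Th n) (flat f) x : MpS (filt (rep (ptT (n + 1)))) D
      (SimplexCategory.mk 0)).app g l s u = cd D (vf f x) g l := by
  refine Eq.trans ?_ (f_cst f x g l u)
  refine congrArg (fun t => (f.app g).app l ((X.map u.op).app l t)) ?_
  refine congrArg (fun t => (X.obj (op (ptT (n + 1)))).map (Quiver.Hom.op t) x) ?_
  ext i : 3
  exact Subsingleton.elim (α := Fin 1) _ _

theorem exists_NDHm {X : SP (Th (n + 1))} {D : SP (Gn (n + 1))} (f : filt X ⟶ D)
    (x y : Vt (C := Th n) X) :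
    ∃ f' : filt (Hm (C := Th n) X x y) ⟶ FHm D (vf f x) (vf f y),
      (∀ (g : (Gn n)ᵒᵖ) (k : SimplexCategoryᵒᵖ)
        (z : ((Hm (C := Th n) X x y).obj (op ((tower n).obj g.unop))).obj k),
        ((f'.app g).app k z).1 =
          (f.app (op ((segG n).obj g.unop))).app k (Hm.val (C := Th n) z)) ∧
      ∃ e : ND (FHm D (vf f x) (vf f y)) ≅ Hm (C := Th n) (ND D) (vtMap (C := Th n) (flat f) x)
        (vtMap (C := Th n) (flat f) y), flat f' ≫ e.hom = HmMap (C := Th n) (flat f) x y := by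
  refine ⟨fH f x y, fun _ _ _ => rfl, ?_⟩
  have hI := psi_isIso (flat_good f x) (flat_good f y)
  refine ⟨(asIso (psi (flat_good f x) (flat_good f y))).symm, ?_⟩
  rw [Iso.symm_hom, asIso_inv, IsIso.comp_inv_eq]
  refine NatTrans.ext (funext fun c => NatTrans.ext (funext fun k => ?_))
  refine ConcreteCategory.hom_ext _ _
    fun (z : ((Hm (C := Th n) X x y).obj c).obj k) => ?_
  refine MpS.ext ?_
  funext g l s u
  exact valF_inj rfl

/-- The map `t_{i+1}[0] ⟶ [0]`. -/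
def qpt (i : Fin (n + 1)) : (tower (n + 1)).obj (ptT (n + 1), op i.succ) ⟶ ptT (n + 1) :=
  Wr.toPt (C := Th n) _

/-- The map `[0] ⟶ t_{i+1}[0]`. -/
def upt (i : Fin (n + 1)) : ptT (n + 1) ⟶ (tower (n + 1)).obj (ptT (n + 1), op i.succ) :=
  (trUnit (n + 1) i.succ).app (ptT (n + 1))

theorem upt_qpt (i : Fin (n + 1)) : upt i ≫ qpt i = 𝟙 _ := ptT_uniq _ _

theorem qpt_upt (i : Fin (n + 1)) : qpt i ≫ upt i = 𝟙 _ := by
  refine Wr.hom_ext' (X := (Wr.map (tr n i)).obj (Wr.pt : Wr (Th n)))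
    (Y := (Wr.map (tr n i)).obj (Wr.pt : Wr (Th n))) ?_ fun (j : Fin 0) _ _ _ => j.elim0
  ext t
  exact congrArg Fin.val (Subsingleton.elim (α := Fin 1) _ _)

theorem map_upt_qpt (X : SP (Th (n + 1))) (i : Fin (n + 1)) {k : SimplexCategoryᵒᵖ}
    (a : (X.obj (op ((tower (n + 1)).obj (ptT (n + 1), op i.succ)))).obj k) :
    (X.map (qpt i).op).app k ((X.map (upt i).op).app k a) = a := by
  rw [← sp_comp, ← op_comp, qpt_upt]
  exact sp_id X a

theorem map_qpt_upt (X : SP (Th (n + 1))) (i : Fin (n + 1)) {k : SimplexCategoryᵒᵖ}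
    (a : (X.obj (op (ptT (n + 1)))).obj k) :
    (X.map (upt i).op).app k ((X.map (qpt i).op).app k a) = a := by
  rw [← sp_comp, ← op_comp, upt_qpt]
  exact sp_id X a

/-- Vertices of the levels of `filt X` and vertices of `X`. -/
theorem vt_filt (X : SP (Th (n + 1))) (i : Fin (n + 1)) :
    Function.Bijective fun a : Vt (C := Th n) (level (filt X) i.succ) =>
      ((X.map ((trUnit (n + 1) i.succ).app (ptT (n + 1))).op).app _ a : Vt (C := Th n) X) := by
  refine Function.bijective_iff_has_inverse.mpr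
    ⟨fun x => (X.map (qpt i).op).app (op (SimplexCategory.mk 0)) x, ?_, ?_⟩
  · intro a
    exact map_upt_qpt X i a
  · intro x
    exact map_qpt_upt X i x

theorem levelHom_vt {X : SP (Th (n + 1))} {D : SP (Gn (n + 1))} (f : filt X ⟶ D)
    (x : Vt (C := Th n) X) (i : Fin (n + 1)) (a : Vt (C := Th n) (level (filt X) i.succ))
    (ha : (X.map ((trUnit (n + 1) i.succ).app (ptT (n + 1))).op).app _ a = x) :
    vtMap (C := Th n) (levelHom f i.succ) a = vlev D (vf f x) i.succ := by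
  have h1 : a = (X.map (qpt i).op).app (op (SimplexCategory.mk 0)) x := by
    rw [← ha]
    exact (map_upt_qpt X i a).symm
  have h2 := f_cst f x (op (ptT (n + 1), op i.succ)) (op (SimplexCategory.mk 0)) (qpt i)
  have h4 := (congrArg (fun t => (f.app (op (ptT (n + 1), op i.succ))).app
    (op (SimplexCategory.mk 0)) ((X.map (qpt i).op).app (op (SimplexCategory.mk 0)) t))
    (cst_zero (X.obj (op (ptT (n + 1)))) x)).symm.trans h2
  have h3 := (cst_zero _ _).symm.trans (cst_vlev D (vf f x) i.succ (op (SimplexCategory.mk 0)))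
  rw [h1]
  exact h4.trans h3.symm

theorem vtx_upt (i : Fin (n + 1)) (c : Th n) (b : Fin 2) :
    (vtx (seg ((tower n).obj (c, op i))) b : (Wr.pt : Wr (Th n)) ⟶ seg ((tower n).obj (c, op i))) =
      (upt i ≫ (tower (n + 1)).map (vG (c, op i) b) :
        (Wr.pt : Wr (Th n)) ⟶ seg ((tower n).obj (c, op i))) :=
  Wr.hom_ext' rfl fun (j : Fin 0) _ _ _ => j.elim0

theorem end_iff {X : SP (Th (n + 1))} (x : Vt (C := Th n) X) (i : Fin (n + 1))
    (a : Vt (C := Th n) (level (filt X) i.succ))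
    (ha : (X.map ((trUnit (n + 1) i.succ).app (ptT (n + 1))).op).app _ a = x) (c : Th n)
    (b : Fin 2) (k : SimplexCategoryᵒᵖ)
    (z : (X.obj (op (seg ((tower n).obj (c, op i)) : Wr (Th n)))).obj k) :
    ((level (filt X) i.succ).map (Quiver.Hom.op (vtx (seg c) b :
      (Wr.pt : Wr (Th n)) ⟶ seg c))).app k z =
        cst ((level (filt X) i.succ).obj (op (ptT (n + 1)))) a k ↔
      (X.map (Quiver.Hom.op (vtx (seg ((tower n).obj (c, op i))) b :
        (Wr.pt : Wr (Th n)) ⟶ seg ((tower n).obj (c, op i))))).app k z =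
          cst (X.obj (op (ptT (n + 1)))) x k := by
  have h1 : (X.map (Quiver.Hom.op (vtx (seg ((tower n).obj (c, op i))) b :
      (Wr.pt : Wr (Th n)) ⟶ seg ((tower n).obj (c, op i))))).app k z =
      (X.map (upt i).op).app k ((X.map ((tower (n + 1)).map (vG (c, op i) b)).op).app k z) := by
    refine Eq.trans ?_ (sp_comp X _ _ z)
    exact congrArg (fun t => (X.map (Quiver.Hom.op t)).app k z) (vtx_upt i c b)
  have h2 : (X.map (upt i).op).app k (cst (X.obj (op ((tower (n + 1)).obj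
      (ptT (n + 1), op i.succ)))) a k) = cst (X.obj (op (ptT (n + 1)))) x k := by
    refine (app_cst (X.map (upt i).op) a k).trans ?_
    exact congrArg (fun t => cst (X.obj (op (ptT (n + 1)))) t k) ha
  constructor
  · intro h
    refine h1.trans (Eq.trans ?_ h2)
    exact congrArg ((X.map (upt i).op).app k) h
  · intro h
    have h3 := (h1.symm.trans h).trans h2.symm
    have h4 := congrArg ((X.map (qpt i).op).app k) h3
    exact ((map_upt_qpt X i _).symm.trans h4).trans (map_upt_qpt X i _)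

/-- The comparison of mapping presheaves of the levels of `filt X` and levels of `filt` of the
mapping presheaf. -/
def lvS {X : SP (Th (n + 1))} (x y : Vt (C := Th n) X) (i : Fin (n + 1))
    (a b : Vt (C := Th n) (level (filt X) i.succ))
    (ha : (X.map ((trUnit (n + 1) i.succ).app (ptT (n + 1))).op).app _ a = x)
    (hb : (X.map ((trUnit (n + 1) i.succ).app (ptT (n + 1))).op).app _ b = y) :
    Hm (C := Th n) (level (filt X) i.succ) a b ⟶ level (filt (Hm (C := Th n) X x y)) i where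
  app c :=
    { app := fun k => ↾ fun (z : ((Hm (C := Th n) (level (filt X) i.succ) a b).obj c).obj k) =>
        (⟨z.1, Prod.ext ((end_iff x i a ha c.unop 0 k z.1).mp (congrArg Prod.fst z.2))
          ((end_iff y i b hb c.unop 1 k z.1).mp (congrArg Prod.snd z.2))⟩ :
          ((Hm (C := Th n) X x y).obj (op ((tower n).obj (c.unop, op i)))).obj k)
      naturality := fun _ _ _ => rfl }
  naturality c c' h := by
    refine NatTrans.ext (funext fun k => ?_)
    refine ConcreteCategory.hom_ext _ _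
      fun (z : ((Hm (C := Th n) (level (filt X) i.succ) a b).obj c).obj k) => ?_
    refine Subtype.ext ?_
    refine congrArg (fun t => (X.map (Quiver.Hom.op t)).app k z.1) ?_
    exact tow_seg ((h.unop, 𝟙 (op i)) : ((c'.unop, op i) : Gn n) ⟶ (c.unop, op i))

theorem lvS_isIso {X : SP (Th (n + 1))} (x y : Vt (C := Th n) X) (i : Fin (n + 1))
    (a b : Vt (C := Th n) (level (filt X) i.succ))
    (ha : (X.map ((trUnit (n + 1) i.succ).app (ptT (n + 1))).op).app _ a = x)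
    (hb : (X.map ((trUnit (n + 1) i.succ).app (ptT (n + 1))).op).app _ b = y) :
    IsIso (lvS x y i a b ha hb) := by
  rw [NatTrans.isIso_iff_isIso_app]
  intro c
  rw [NatTrans.isIso_iff_isIso_app]
  intro k
  rw [isIso_iff_bijective]
  constructor
  · intro z z' h
    have h' := congrArg (fun t => (t : ((Hm (C := Th n) X x y).obj
      (op ((tower n).obj (c.unop, op i)))).obj k).1) h
    exact Subtype.ext h'
  · intro (z : ((Hm (C := Th n) X x y).obj (op ((tower n).obj (c.unop, op i)))).obj k)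
    exact ⟨(⟨z.1, Prod.ext ((end_iff x i a ha c.unop 0 k z.1).mpr (congrArg Prod.fst z.2))
          ((end_iff y i b hb c.unop 1 k z.1).mpr (congrArg Prod.snd z.2))⟩ :
        ((Hm (C := Th n) (level (filt X) i.succ) a b).obj c).obj k), rfl⟩

/-- Mapping presheaves for equal vertices. -/
theorem hm_eq {C : Type} [SmallCategory C] {P : SP (Wr C)} {p p' q q' : Vt P} (hp : p = p')
    (hq : q = q') : ∃ e : Hm P p q ≅ Hm P p' q', ∀ (c : Cᵒᵖ) (k : SimplexCategoryᵒᵖ)
      (z : ((Hm P p q).obj c).obj k), Hm.val ((e.hom.app c).app k z) = Hm.val z := by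
  subst hp hq
  exact ⟨Iso.refl _, fun _ _ _ => rfl⟩

theorem ES_NDHm {X : SP (Th (n + 1))} {D : SP (Gn (n + 1))} (f : filt X ⟶ D)
    (x y : Vt (C := Th n) X) (f' : filt (Hm (C := Th n) X x y) ⟶ FHm D (vf f x) (vf f y))
    (hf' : ∀ (g : (Gn n)ᵒᵖ) (k : SimplexCategoryᵒᵖ)
        (z : ((Hm (C := Th n) X x y).obj (op ((tower n).obj g.unop))).obj k),
        ((f'.app g).app k z).1 =
          (f.app (op ((segG n).obj g.unop))).app k (Hm.val (C := Th n) z))
    (i : Fin (n + 1)) (a b : Vt (C := Th n) (level (filt X) i.succ))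
    (ha : (X.map ((trUnit (n + 1) i.succ).app (ptT (n + 1))).op).app _ a = x)
    (hb : (X.map ((trUnit (n + 1) i.succ).app (ptT (n + 1))).op).app _ b = y) :
    vtMap (C := Th n) (levelHom f i.succ) a = vlev D (vf f x) i.succ ∧
    vtMap (C := Th n) (levelHom f i.succ) b = vlev D (vf f y) i.succ ∧
    ∀ m : ℕ, ES n m (HmMap (C := Th n) (levelHom f i.succ) a b) ↔ ES n m (levelHom f' i) := by
  have h1 := levelHom_vt f x i a ha
  have h2 := levelHom_vt f y i b hb
  refine ⟨h1, h2, fun m => ?_⟩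
  obtain ⟨e', he'⟩ := hm_eq (C := Th n) (P := level D i.succ) h1 h2
  have hI := lvS_isIso x y i a b ha hb
  have key : HmMap (C := Th n) (levelHom f i.succ) a b ≫ e'.hom =
      (asIso (lvS x y i a b ha hb)).hom ≫ levelHom f' i := by
    refine NatTrans.ext (funext fun c => NatTrans.ext (funext fun k => ?_))
    refine ConcreteCategory.hom_ext _ _
      fun (z : ((Hm (C := Th n) (level (filt X) i.succ) a b).obj c).obj k) => ?_
    refine Subtype.ext ?_
    refine (he' c k ((HmMap (C := Th n) (levelHom f i.succ) a b).app c |>.app k z)).trans ?_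
    exact (hf' (op (c.unop, op i)) k (((lvS x y i a b ha hb).app c).app k z)).symm
  constructor
  · intro h
    exact Pool.Agent.Helper61.FL2.ES_of_arrow_iso (asIso (lvS x y i a b ha hb)) e' key h
  · intro h
    refine Pool.Agent.Helper61.FL2.ES_of_arrow_iso (asIso (lvS x y i a b ha hb)).symm e'.symm
      ?_ h
    refine (Iso.comp_inv_eq e').mpr ?_
    refine Eq.trans ?_ (Category.assoc _ _ _).symm
    exact (Iso.eq_inv_comp _).mpr key.symm

end Final

end

end Pool.Agent.Helper7.FL2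
end

/- Helper43.FL2.Pair -/
section
/-!
# A criterion for inner anodyne inclusions of subcomplexes

`PData A` is a regular inner pairing given by predicates on simplices.
-/

open CategoryTheory MonoidalCategory Opposite Simplicial

set_option autoImplicit false

namespace Pool.Agent.Helper43.FL2

/-- Data for a regular inner pairing: `I x i` says that `x` is of type I with distinguished
face `i`, `II x` that `x` is of type II. -/
structure PData {X : SSet.{0}} (A : X.Subcomplex) where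
  I : ∀ {d : ℕ}, X _⦋d + 1⦌ → Fin (d + 2) → Prop
  II : ∀ {d : ℕ}, X _⦋d⦌ → Prop
  rk : ∀ {d : ℕ}, X _⦋d⦌ → ℕ
  I_nd : ∀ {d : ℕ} {x : X _⦋d + 1⦌} {i : Fin (d + 2)}, I x i → x ∈ X.nonDegenerate _
  I_not : ∀ {d : ℕ} {x : X _⦋d + 1⦌} {i : Fin (d + 2)}, I x i → x ∉ A.obj _
  II_nd : ∀ {d : ℕ} {x : X _⦋d⦌}, II x → x ∈ X.nonDegenerate _
  II_not : ∀ {d : ℕ} {x : X _⦋d⦌}, II x → x ∉ A.obj _
  I_II : ∀ {d : ℕ} {x : X _⦋d + 1⦌} {i : Fin (d + 2)}, I x i → II (X.δ i x)
  not_II : ∀ {d : ℕ} {x : X _⦋d + 1⦌} {i : Fin (d + 2)}, I x i → ¬ II x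
  cover0 : ∀ (x : X _⦋0⦌), x ∈ X.nonDegenerate _ → x ∉ A.obj _ → II x
  cover : ∀ {d : ℕ} (x : X _⦋d + 1⦌), x ∈ X.nonDegenerate _ → x ∉ A.obj _ →
    II x ∨ ∃ i, I x i
  ex : ∀ {d : ℕ} {x : X _⦋d⦌}, II x → ∃ (y : X _⦋d + 1⦌) (i : Fin (d + 2)), I y i ∧
    X.δ i y = x
  inj : ∀ {d : ℕ} {x y : X _⦋d + 1⦌} {i j : Fin (d + 2)}, I x i → I y j →
    X.δ i x = X.δ j y → x = y
  uniq : ∀ {d : ℕ} {x : X _⦋d + 1⦌} {i j : Fin (d + 2)}, I x i → I x j → i = j
  lt : ∀ {d : ℕ} {x : X _⦋d + 1⦌} {i j : Fin (d + 2)}, I x i → j ≠ i → II (X.δ j x) →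
    rk (X.δ j x) < rk (X.δ i x)
  inner0 : ∀ {d : ℕ} {x : X _⦋d + 1⦌} {i : Fin (d + 2)}, I x i → i ≠ 0
  innerL : ∀ {d : ℕ} {x : X _⦋d + 1⦌} {i : Fin (d + 2)}, I x i → i ≠ Fin.last _

namespace PData

variable {X : SSet.{0}} {A : X.Subcomplex} (P : PData A)

/-- The index type. -/
structure Ix where
  d : ℕ
  x : X _⦋d + 1⦌
  i : Fin (d + 2)
  h : P.I x i

variable {P}

theorem Ix.ext' {s t : P.Ix} (hd : s.d = t.d) (hx : SSet.S.mk s.x = SSet.S.mk t.x) : s = t := by
  obtain ⟨d, x, i, h⟩ := s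
  obtain ⟨d', x', i', h'⟩ := t
  obtain rfl : d = d' := hd
  obtain rfl : x = x' := (SSet.S.ext_iff x x').1 hx
  obtain rfl : i = i' := P.uniq h h'
  rfl

variable (P)

/-- The pairing. -/
def core : A.PairingCore where
  ι := P.Ix
  dim s := s.d
  simplex s := s.x
  index s := s.i
  nonDegenerate₁ s := P.I_nd s.h
  nonDegenerate₂ s := P.II_nd (P.I_II s.h)
  notMem₁ s := P.I_not s.h
  notMem₂ s := P.II_not (P.I_II s.h)
  injective_type₁' {s t} h := Ix.ext' (by
    have := SSet.S.dim_eq_of_mk_eq h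
    omega) h
  injective_type₂' {s t} h := by
    have hd : s.d = t.d := SSet.S.dim_eq_of_mk_eq h
    refine Ix.ext' hd ?_
    obtain ⟨d, x, i, hx⟩ := s
    obtain ⟨d', x', i', hx'⟩ := t
    obtain rfl : d = d' := hd
    have h2 := (SSet.S.ext_iff _ _).1 h
    exact congrArg (fun z => SSet.S.mk z) (P.inj hx hx' h2)
  type₁_ne_type₂' s t h := by
    obtain ⟨d, x, i, hx⟩ := s
    obtain ⟨d', x', i', hx'⟩ := t
    have hd : d + 1 = d' := SSet.S.dim_eq_of_mk_eq h
    subst hd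
    have h2 := (SSet.S.ext_iff _ _).1 h
    refine P.not_II hx ?_
    rw [show x = _ from h2]
    exact P.I_II hx'
  surjective' x := by
    obtain ⟨n, x, hx, hx', rfl⟩ := x.mk_surjective
    have key : P.II x → ∃ s : P.Ix, SSet.S.mk x = SSet.S.mk (X.δ s.i s.x) := by
      intro h
      obtain ⟨y, i, hy, rfl⟩ := P.ex h
      exact ⟨⟨_, y, i, hy⟩, rfl⟩
    cases n with
    | zero =>
      obtain ⟨s, hs⟩ := key (P.cover0 x hx hx')
      exact ⟨s, Or.inr hs⟩
    | succ n =>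
      rcases P.cover x hx hx' with h | ⟨i, hi⟩
      · obtain ⟨s, hs⟩ := key h
        exact ⟨s, Or.inr hs⟩
      · exact ⟨⟨n, x, i, hi⟩, Or.inl rfl⟩

instance : P.core.IsProper where
  isUniquelyCodimOneFace s := by
    obtain ⟨d, x, i, hx⟩ := s
    refine (SSet.S.IsUniquelyCodimOneFace.iff (d := d) (X.δ i x) x).2
      ⟨i, rfl, fun (j : Fin (d + 2)) hj => ?_⟩
    by_contra hne
    have h1 : X.δ j x = X.δ i x := hj
    have := P.lt hx hne (h1 ▸ P.I_II hx)
    rw [h1] at this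
    exact lt_irrefl _ this

instance : P.core.IsInner where
  ne_zero s := P.inner0 s.h
  ne_last s := P.innerL s.h

/-- The rank function. -/
def rankFn : P.core.WeakRankFunction ℕ where
  rank s := P.rk (X.δ s.i s.x)
  lt := by
    rintro ⟨d, x, i, hx⟩ ⟨d', x', i', hx'⟩ ⟨h1, h2⟩ h3
    obtain rfl : d = d' := h3
    obtain ⟨f, hf, hδ⟩ : ∃ (f : ⦋d⦌ ⟶ ⦋d + 1⦌), Mono f ∧ X.map f.op x' = X.δ i x := by
      obtain ⟨f, hf, hδ⟩ := SSet.N.le_iff_exists_mono.1 h2.le
      exact ⟨f, hf, hδ⟩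
    obtain ⟨j, rfl⟩ := SimplexCategory.eq_δ_of_mono f
    have h4 : X.δ j x' = X.δ i x := hδ
    by_cases hj : j = i'
    · subst hj
      have := P.inj hx hx' h4.symm
      subst this
      obtain rfl := P.uniq hx hx'
      exact absurd rfl h1
    · have := P.lt hx' hj (h4 ▸ P.I_II hx)
      rw [h4] at this
      exact this

include P in
theorem innerAnodyne : SSet.innerAnodyneExtensions A.ι := by
  have : P.core.IsRegular := P.rankFn.isRegular
  exact P.core.pairing.innerAnodyneExtensions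

end PData

end Pool.Agent.Helper43.FL2
end

/- Helper43.FL2.PairC -/
section
/-!
# Two inner anodyne extensions (module FL2-G10)
-/

open CategoryTheory MonoidalCategory Opposite Simplicial

set_option autoImplicit false

namespace Pool.Agent.Helper43.FL2

open FL

theorem predAbove_val {d : ℕ} (i : Fin (d + 1)) (j : Fin (d + 2)) :
    (i.predAbove j).val = if i.val < j.val then j.val - 1 else j.val := by
  simp only [Fin.predAbove, Fin.lt_def, Fin.val_castSucc]
  split_ifs <;> simp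

theorem succAbove_val {d : ℕ} (i : Fin (d + 2)) (j : Fin (d + 1)) :
    (i.succAbove j).val = if j.val < i.val then j.val else j.val + 1 := by
  simp only [Fin.succAbove, Fin.lt_def, Fin.val_castSucc]
  split_ifs <;> simp

/-- Clamping. -/
def cl (d n : ℕ) : Fin (d + 1) := ⟨min n d, by omega⟩

theorem cl_val' (d n : ℕ) : (cl d n).val = min n d := rfl

theorem cl_val {d n : ℕ} (h : n ≤ d) : (cl d n).val = n := by
  simp [cl, h]

theorem cl_eq {d : ℕ} (i : Fin (d + 1)) : cl d i.val = i := by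
  ext
  rw [cl_val (by omega)]

theorem cl_mono {d n m : ℕ} (h : n ≤ m) : cl d n ≤ cl d m := by
  rw [Fin.le_def, cl_val', cl_val']
  omega

theorem succAbove_cl {d : ℕ} (i : Fin (d + 2)) {n : ℕ} (h : n ≤ d) :
    i.succAbove (cl d n) = cl (d + 1) (if n < i.val then n else n + 1) := by
  ext
  rw [cl_val (by split_ifs <;> omega), succAbove_val, cl_val h]

section

variable {S : Type} {d : ℕ}

/-- Word criterion for degenerate simplices of `EN S`. -/
theorem EN_nd (w : (EN S) _⦋d⦌) : w ∈ (EN S).nonDegenerate d ↔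
    ∀ n < d, w (cl d n) ≠ w (cl d (n + 1)) := by
  cases d with
  | zero => simp
  | succ d =>
    rw [SSet.mem_nonDegenerate_iff_notMem_degenerate, SSet.degenerate_eq_iUnion_range_σ]
    simp only [Set.mem_iUnion, Set.mem_range, not_exists]
    constructor
    · intro h n hn heq
      refine h ⟨n, hn⟩ ((EN S).δ (⟨n, by omega⟩ : Fin (d + 2)) w) ?_
      funext j
      have hj : w j = w (cl (d + 1) j.val) := by rw [cl_eq]
      change w ((⟨n, by omega⟩ : Fin (d + 2)).succAbove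
        ((⟨n, hn⟩ : Fin (d + 1)).predAbove j)) = w j
      by_cases hjn : j.val = n
      · have h1 : j = cl (d + 1) n := by rw [← hjn, cl_eq]
        rw [h1, heq]
        congr 1
        ext
        rw [cl_val (by omega), succAbove_val, predAbove_val, cl_val (by omega)]
        simp
      · congr 1
        ext
        rw [succAbove_val, predAbove_val]
        simp only
        split_ifs <;> omega
    · intro h i y hy
      refine h i.val i.isLt ?_
      rw [← hy]
      change y (i.predAbove _) = y (i.predAbove _)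
      congr 1
      ext
      rw [predAbove_val, predAbove_val, cl_val (by omega), cl_val (by omega)]
      split_ifs <;> omega

/-- The vertex map of `Δ[1] ⊗ EN S`. -/
def uw (S : Type) : (Δ[1] : SSet.{0}) ⊗ EN S ⟶ EN (Fin 2 × S) where
  app _ := ↾ fun x i => (SSet.stdSimplex.asOrderHom x.1 i, x.2 i)
  naturality _ _ _ := rfl

instance (S : Type) : Mono (uw S) := by
  rw [NatTrans.mono_iff_mono_app]
  intro m
  rw [mono_iff_injective]
  intro x y h
  have h2 : ∀ i, (SSet.stdSimplex.asOrderHom x.1 i, x.2 i) =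
    (SSet.stdSimplex.asOrderHom y.1 i, y.2 i) := fun i => congrFun h i
  obtain ⟨x1, x2⟩ := x
  obtain ⟨y1, y2⟩ := y
  refine Prod.ext ?_ ?_
  · refine SSet.stdSimplex.ext _ _ fun i => ?_
    exact congrArg Prod.fst (h2 i)
  · funext i
    exact congrArg Prod.snd (h2 i)

/-- First components. -/
def fa (x : ((Δ[1] : SSet.{0}) ⊗ EN S) _⦋d⦌) (n : ℕ) : ℕ := (x.1 (cl d n)).val

/-- Second components. -/
def fb (x : ((Δ[1] : SSet.{0}) ⊗ EN S) _⦋d⦌) (n : ℕ) : S := x.2 (cl d n)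

theorem fa_le (x : ((Δ[1] : SSet.{0}) ⊗ EN S) _⦋d⦌) (n : ℕ) : fa x n ≤ 1 := by
  have := (x.1 (cl d n)).isLt
  simp only [fa]
  omega

theorem fa_mono (x : ((Δ[1] : SSet.{0}) ⊗ EN S) _⦋d⦌) {n m : ℕ} (h : n ≤ m) :
    fa x n ≤ fa x m :=
  SSet.stdSimplex.monotone_apply x.1 (cl_mono h)

theorem fa_δ (x : ((Δ[1] : SSet.{0}) ⊗ EN S) _⦋d + 1⦌) (i : Fin (d + 2)) {n : ℕ}
    (h : n ≤ d) : fa (((Δ[1] : SSet.{0}) ⊗ EN S).δ i x) n =
      fa x (if n < i.val then n else n + 1) := by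
  rw [fa, fa, ← succAbove_cl i h]
  rfl

theorem fb_δ (x : ((Δ[1] : SSet.{0}) ⊗ EN S) _⦋d + 1⦌) (i : Fin (d + 2)) {n : ℕ}
    (h : n ≤ d) : fb (((Δ[1] : SSet.{0}) ⊗ EN S).δ i x) n =
      fb x (if n < i.val then n else n + 1) := by
  rw [fb, fb, ← succAbove_cl i h]
  rfl

theorem f_ext {x y : ((Δ[1] : SSet.{0}) ⊗ EN S) _⦋d⦌} (h : ∀ n ≤ d, fa x n = fa y n)
    (h' : ∀ n ≤ d, fb x n = fb y n) : x = y := by
  obtain ⟨x1, x2⟩ := x
  obtain ⟨y1, y2⟩ := y
  refine Prod.ext ?_ ?_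
  · refine SSet.stdSimplex.ext _ _ fun i => ?_
    have := h i.val (by omega)
    simp only [fa, cl_eq] at this
    exact Fin.ext this
  · funext i
    have := h' i.val (Nat.le_of_lt_succ i.isLt)
    simp only [fb, cl_eq] at this
    exact this

theorem f_mk (d : ℕ) (a : ℕ → ℕ) (b : ℕ → S) (ha : ∀ n ≤ d, a n ≤ 1)
    (hm : ∀ n < d, a n ≤ a (n + 1)) :
    ∃ x : ((Δ[1] : SSet.{0}) ⊗ EN S) _⦋d⦌, (∀ n ≤ d, fa x n = a n) ∧
      ∀ n ≤ d, fb x n = b n := by
  have hm' : ∀ n m, n ≤ m → m ≤ d → a n ≤ a m := by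
    intro n m hnm
    induction m, hnm using Nat.le_induction with
    | base => intro _; exact le_rfl
    | succ m _ ih =>
      intro h
      exact (ih (by omega)).trans (hm m (by omega))
  refine ⟨(SSet.stdSimplex.objMk (m := op ⦋d⦌) ⟨fun i => ⟨a i.val, ?_⟩, ?_⟩,
    fun i => b i.val), ?_, ?_⟩
  · have := ha i.val (Nat.le_of_lt_succ i.isLt)
    change a i.val < 1 + 1
    omega
  · intro i j hij
    exact hm' _ _ hij (Nat.le_of_lt_succ j.isLt)
  · intro n hn
    change a (cl d n).val = a n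
    rw [cl_val hn]
  · intro n hn
    change b (cl d n).val = b n
    rw [cl_val hn]

/-- Nondegenerate words. -/
theorem f_nd (x : ((Δ[1] : SSet.{0}) ⊗ EN S) _⦋d⦌) :
    x ∈ ((Δ[1] : SSet.{0}) ⊗ EN S).nonDegenerate d ↔
      ∀ n < d, fa x n = fa x (n + 1) → fb x n ≠ fb x (n + 1) := by
  rw [← SSet.nonDegenerate_iff_of_mono (uw S), EN_nd]
  refine forall₂_congr fun n _ => ?_
  have h1 : ∀ n, ((uw S).app (op ⦋d⦌) x) (cl d n) = (x.1 (cl d n), fb x n) := fun _ => rfl
  rw [h1, h1, Ne, Prod.ext_iff, not_and]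
  simp only [fa, Fin.ext_iff]

/-- Words outside of the subcomplex. -/
theorem f_out (v : S) (x : ((Δ[1] : SSet.{0}) ⊗ EN S) _⦋d⦌) :
    x ∉ (SSet.Subcomplex.unionProd (SSet.boundary.{0} 1) (ENsub {v})).obj _ ↔
      fa x 0 = 0 ∧ fa x d = 1 ∧ ∃ n ≤ d, fb x n ≠ v := by
  have h0 : x ∈ (SSet.Subcomplex.unionProd (SSet.boundary.{0} 1) (ENsub {v})).obj _ ↔
      x.2 ∈ (ENsub {v}).obj (op ⦋d⦌) ∨ x.1 ∈ (SSet.boundary.{0} 1).obj (op ⦋d⦌) :=
    SSet.Subcomplex.mem_unionProd_iff (SSet.boundary.{0} 1) (ENsub {v}) x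
  rw [h0, not_or, SSet.mem_boundary_iff_notMem_range]
  have h1 : x.2 ∈ (ENsub {v}).obj (op ⦋d⦌) ↔ ∀ n ≤ d, fb x n = v := by
    constructor
    · intro h n _
      exact h _
    · intro h i
      have := h i.val (Nat.le_of_lt_succ i.isLt)
      rw [fb, cl_eq] at this
      exact this
  rw [h1]
  push Not
  constructor
  · rintro ⟨⟨n, hn, h2⟩, h3⟩
    refine ⟨?_, ?_, n, hn, h2⟩
    · obtain ⟨i, hi⟩ := h3 0
      have h4 : fa x i.val = 0 := by
        rw [fa, cl_eq, hi]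
        rfl
      have := fa_mono x (Nat.zero_le i.val)
      omega
    · obtain ⟨i, hi⟩ := h3 1
      have h4 : fa x i.val = 1 := by
        rw [fa, cl_eq, hi]
        rfl
      have := fa_mono x (Nat.le_of_lt_succ i.isLt)
      have := fa_le x d
      omega
  · rintro ⟨h2, h3, n, hn, h4⟩
    refine ⟨⟨n, hn, h4⟩, ?_⟩
    intro j
    have hj := j.isLt
    rcases (show j.val = 0 ∨ j.val = 1 by omega) with hj | hj
    · exact ⟨cl d 0, Fin.ext (h2.trans hj.symm)⟩
    · exact ⟨cl d d, Fin.ext (h3.trans hj.symm)⟩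

/-! ### The pairing -/

/-- Nondegenerate and outside. -/
structure Ok (v : S) (x : ((Δ[1] : SSet.{0}) ⊗ EN S) _⦋d⦌) : Prop where
  nd : ∀ n < d, fa x n = fa x (n + 1) → fb x n ≠ fb x (n + 1)
  z : fa x 0 = 0
  o : fa x d = 1
  ne : ∃ n ≤ d, fb x n ≠ v

theorem ok_iff (v : S) (x : ((Δ[1] : SSet.{0}) ⊗ EN S) _⦋d⦌) :
    Ok v x ↔ x ∈ ((Δ[1] : SSet.{0}) ⊗ EN S).nonDegenerate d ∧
      x ∉ (SSet.Subcomplex.unionProd (SSet.boundary.{0} 1) (ENsub {v})).obj _ := by
  rw [f_nd, f_out]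
  exact ⟨fun h => ⟨h.nd, h.z, h.o, h.ne⟩, fun h => ⟨h.1, h.2.1, h.2.2.1, h.2.2.2⟩⟩

/-- Jumps. -/
def IIa (v : S) (x : ((Δ[1] : SSet.{0}) ⊗ EN S) _⦋d⦌) : Prop :=
  ∃ n < d, fa x n = 0 ∧ fa x (n + 1) = 1 ∧ fb x n ≠ v

def IIb (v : S) (x : ((Δ[1] : SSet.{0}) ⊗ EN S) _⦋d⦌) : Prop :=
  1 ≤ d ∧ fa x 1 = 1 ∧ fb x 0 = v ∧ fb x 1 ≠ v

def Ia (v : S) (x : ((Δ[1] : SSet.{0}) ⊗ EN S) _⦋d + 1⦌) (i : Fin (d + 2)) : Prop :=
  1 ≤ i.val ∧ i.val < d + 1 ∧ fa x i.val = 0 ∧ fa x (i.val + 1) = 1 ∧ fb x i.val = v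

def Ib (v : S) (x : ((Δ[1] : SSet.{0}) ⊗ EN S) _⦋d + 1⦌) (i : Fin (d + 2)) : Prop :=
  i.val = 1 ∧ fa x 1 = 1 ∧ fb x 0 = v ∧ fb x 1 = v

theorem jump_unique {x : ((Δ[1] : SSet.{0}) ⊗ EN S) _⦋d⦌} {n m : ℕ} (h1 : fa x n = 0)
    (h2 : fa x (n + 1) = 1) (h3 : fa x m = 0) (h4 : fa x (m + 1) = 1) : n = m := by
  rcases Nat.lt_trichotomy n m with h | h | h
  · have := fa_mono x (show n + 1 ≤ m from h)
    omega
  · exact h
  · have := fa_mono x (show m + 1 ≤ n from h)
    omega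

theorem not_IIa_IIb {v : S} {x : ((Δ[1] : SSet.{0}) ⊗ EN S) _⦋d⦌} (hx : Ok v x)
    (h : IIa v x) (h' : IIb v x) : False := by
  obtain ⟨n, _, h1, h2, h3⟩ := h
  obtain ⟨_, h4, h5, _⟩ := h'
  have := jump_unique h1 h2 hx.z h4
  subst this
  exact h3 h5

/-- Deleting the distinguished letter of a word of type I-a. -/
theorem Ia_δ {v : S} {x : ((Δ[1] : SSet.{0}) ⊗ EN S) _⦋d + 1⦌} {i : Fin (d + 2)}
    (hx : Ok v x) (h : Ia v x i) : Ok v (((Δ[1] : SSet.{0}) ⊗ EN S).δ i x) ∧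
      IIa v (((Δ[1] : SSet.{0}) ⊗ EN S).δ i x) := by
  obtain ⟨h1, h2, h3, h4, h5⟩ := h
  obtain ⟨k, hk⟩ : ∃ k, i.val = k + 1 := ⟨i.val - 1, by omega⟩
  have h6 : fa x k = 0 := by
    have := fa_mono x (show k ≤ i.val by omega)
    omega
  have h7 : fb x k ≠ v := by
    have := hx.nd k (by omega) (by rw [h6, ← hk, h3])
    rwa [← hk, h5] at this
  refine ⟨⟨?_, ?_, ?_, k, by omega, ?_⟩, k, by omega, ?_, ?_, ?_⟩
  · intro n hn
    rw [fa_δ x i (by omega), fa_δ x i (by omega), fb_δ x i (by omega), fb_δ x i (by omega)]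
    rcases Nat.lt_trichotomy (n + 1) i.val with h | h | h
    · rw [if_pos (by omega), if_pos (by omega)]
      exact hx.nd n (by omega)
    · rw [if_pos (by omega), if_neg (by omega), h, h4]
      have : n = k := by omega
      subst this
      intro h8
      omega
    · rw [if_neg (by omega), if_neg (by omega)]
      exact hx.nd (n + 1) (by omega)
  · rw [fa_δ x i (by omega), if_pos (by omega)]
    exact hx.z
  · rw [fa_δ x i (by omega), if_neg (by omega)]
    exact hx.o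
  · rw [fb_δ x i (by omega), if_pos (by omega)]
    exact h7
  · rw [fa_δ x i (by omega), if_pos (by omega)]
    exact h6
  · rw [fa_δ x i (by omega), if_neg (by omega), ← hk]
    exact h4
  · rw [fb_δ x i (by omega), if_pos (by omega)]
    exact h7

theorem Ib_δ {v : S} {x : ((Δ[1] : SSet.{0}) ⊗ EN S) _⦋d + 1⦌} {i : Fin (d + 2)}
    (hx : Ok v x) (h : Ib v x i) : Ok v (((Δ[1] : SSet.{0}) ⊗ EN S).δ i x) ∧
      IIb v (((Δ[1] : SSet.{0}) ⊗ EN S).δ i x) := by
  obtain ⟨h1, h2, h3, h4⟩ := h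
  have hd : 1 ≤ d := by
    obtain ⟨n, hn, h5⟩ := hx.ne
    by_contra hd
    have : n = 0 ∨ n = 1 := by omega
    rcases this with rfl | rfl
    · exact h5 h3
    · exact h5 h4
  have h6 : fa x 2 = 1 := by
    have := fa_mono x (show 1 ≤ 2 by omega)
    have := fa_le x 2
    omega
  have h7 : fb x 2 ≠ v := by
    have := hx.nd 1 (by omega) (by rw [h6, h2])
    rw [h4] at this
    exact fun h => this h.symm
  have e0 : fa (((Δ[1] : SSet.{0}) ⊗ EN S).δ i x) 1 = 1 := by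
    rw [fa_δ x i hd, if_neg (by omega)]
    exact h6
  have e1 : fb (((Δ[1] : SSet.{0}) ⊗ EN S).δ i x) 1 ≠ v := by
    rw [fb_δ x i hd, if_neg (by omega)]
    exact h7
  have e2 : fa (((Δ[1] : SSet.{0}) ⊗ EN S).δ i x) 0 = 0 := by
    rw [fa_δ x i (by omega), if_pos (by omega)]
    exact hx.z
  refine ⟨⟨?_, e2, ?_, 1, hd, e1⟩, hd, e0, ?_, e1⟩
  · intro n hn
    rcases Nat.eq_zero_or_pos n with rfl | hn0
    · intro h
      rw [e2, e0] at h
      omega
    · rw [fa_δ x i (by omega), fa_δ x i (by omega), fb_δ x i (by omega), fb_δ x i (by omega),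
        if_neg (by omega), if_neg (by omega)]
      exact hx.nd (n + 1) (by omega)
  · rw [fa_δ x i (by omega), if_neg (by omega)]
    exact hx.o
  · rw [fb_δ x i (by omega), if_pos (by omega)]
    exact h3

/-- Insertion of a letter. -/
def ins {T : Type} (k : ℕ) (c : T) (f : ℕ → T) (n : ℕ) : T :=
  if n < k then f n else if n = k then c else f (n - 1)

theorem ins_skip {T : Type} (k : ℕ) (c : T) (f : ℕ → T) (n : ℕ) :
    ins k c f (if n < k then n else n + 1) = f n := by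
  unfold ins
  split_ifs <;> first | rfl | omega

theorem ex_IIa {v : S} {x : ((Δ[1] : SSet.{0}) ⊗ EN S) _⦋d⦌} (hx : Ok v x) (h : IIa v x) :
    ∃ (y : ((Δ[1] : SSet.{0}) ⊗ EN S) _⦋d + 1⦌) (i : Fin (d + 2)), Ok v y ∧ Ia v y i ∧
      ((Δ[1] : SSet.{0}) ⊗ EN S).δ i y = x := by
  obtain ⟨k, hk, h1, h2, h3⟩ := h
  have a0 : ∀ n ≤ k, fa x n = 0 := fun n hn => by
    have := fa_mono x hn
    omega
  have a1 : ∀ n, k + 1 ≤ n → fa x n = 1 := fun n hn => by
    have := fa_mono x hn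
    have := fa_le x n
    omega
  obtain ⟨y, ya, yb⟩ := f_mk (d + 1) (fun n => if n ≤ k + 1 then 0 else 1)
    (ins (k + 1) v (fb x))
    (by
      intro n _
      split_ifs <;> omega)
    (by
      intro n _
      split_ifs <;> omega)
  have ya' : ∀ n ≤ k + 1, fa y n = 0 := by
    intro n hn
    rw [ya n (by omega), if_pos hn]
  have ya1 : ∀ n, k + 2 ≤ n → n ≤ d + 1 → fa y n = 1 := by
    intro n hn hn'
    rw [ya n (by omega), if_neg (by omega)]
  have hi : (⟨k + 1, by omega⟩ : Fin (d + 2)).val = k + 1 := rfl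
  refine ⟨y, ⟨k + 1, by omega⟩, ⟨?_, ya' 0 (by omega), ?_, k, by omega, ?_⟩,
    ⟨by omega, by simp only; omega, ya' _ le_rfl, ?_, ?_⟩, f_ext ?_ ?_⟩
  · intro n hn
    rw [yb n (by omega), yb (n + 1) (by omega)]
    unfold ins
    rcases (show n < k ∨ n = k ∨ n = k + 1 ∨ k + 1 < n by omega) with h | h | h | h
    · rw [if_pos (by omega), if_pos (by omega)]
      intro _
      exact hx.nd n (by omega) (by rw [a0 _ (by omega), a0 _ (by omega)])
    · subst h
      rw [if_pos (by omega), if_neg (by omega), if_pos rfl]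
      intro _
      exact h3
    · intro h8
      rw [ya' _ (by omega), ya1 _ (by omega) (by omega)] at h8
      omega
    · rw [if_neg (by omega), if_neg (by omega), if_neg (by omega), if_neg (by omega)]
      intro _
      have := hx.nd (n - 1) (by omega) (by rw [a1 _ (by omega), a1 _ (by omega)])
      rwa [show n - 1 + 1 = n + 1 - 1 by omega] at this
  · exact ya1 _ (by omega) le_rfl
  · rw [yb _ (by omega), ins, if_pos (by omega)]
    exact h3
  · exact ya1 _ (by simp only; omega) (by simp only; omega)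
  · rw [hi, yb _ (by omega), ins, if_neg (by omega), if_pos rfl]
  · intro n hn
    rw [fa_δ y _ hn, hi]
    rcases Nat.lt_or_ge n (k + 1) with h | h
    · rw [if_pos h, ya' _ (by omega), a0 _ (by omega)]
    · rw [if_neg (by omega), ya1 _ (by omega) (by omega), a1 _ (by omega)]
  · intro n hn
    rw [fb_δ y _ hn, hi, yb _ (by split_ifs <;> omega), ins_skip]

theorem ex_IIb {v : S} {x : ((Δ[1] : SSet.{0}) ⊗ EN S) _⦋d⦌} (hx : Ok v x) (h : IIb v x) :
    ∃ (y : ((Δ[1] : SSet.{0}) ⊗ EN S) _⦋d + 1⦌) (i : Fin (d + 2)), Ok v y ∧ Ib v y i ∧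
      ((Δ[1] : SSet.{0}) ⊗ EN S).δ i y = x := by
  obtain ⟨hd, h1, h2, h3⟩ := h
  have a1 : ∀ n, 1 ≤ n → fa x n = 1 := fun n hn => by
    have := fa_mono x hn
    have := fa_le x n
    omega
  obtain ⟨y, ya, yb⟩ := f_mk (d + 1) (fun n => if n = 0 then 0 else 1) (ins 1 v (fb x))
    (by
      intro n _
      split_ifs <;> omega)
    (by
      intro n _
      rw [if_neg (Nat.succ_ne_zero n)]
      split_ifs <;> omega)
  have ya0 : fa y 0 = 0 := by
    rw [ya 0 (by omega), if_pos rfl]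
  have ya1 : ∀ n, 1 ≤ n → n ≤ d + 1 → fa y n = 1 := by
    intro n hn hn'
    rw [ya n (by omega), if_neg (by omega)]
  have hi : (⟨1, by omega⟩ : Fin (d + 2)).val = 1 := rfl
  refine ⟨y, ⟨1, by omega⟩, ⟨?_, ?_, ?_, 2, by omega, ?_⟩,
    ⟨rfl, ?_, ?_, ?_⟩, f_ext ?_ ?_⟩
  · intro n hn
    rw [yb n (by omega), yb (n + 1) (by omega)]
    unfold ins
    rcases (show n = 0 ∨ n = 1 ∨ 2 ≤ n by omega) with rfl | rfl | h
    · intro h8
      rw [ya0, ya1 _ (by omega) (by omega)] at h8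
      omega
    · rw [if_neg (by omega), if_pos rfl, if_neg (by omega), if_neg (by omega)]
      intro _
      exact fun h => h3 h.symm
    · rw [if_neg (by omega), if_neg (by omega), if_neg (by omega), if_neg (by omega)]
      intro _
      have := hx.nd (n - 1) (by omega) (by rw [a1 _ (by omega), a1 _ (by omega)])
      rwa [show n - 1 + 1 = n + 1 - 1 by omega] at this
  · exact ya0
  · exact ya1 _ (by omega) le_rfl
  · rw [yb _ (by omega), ins, if_neg (by omega), if_neg (by omega)]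
    exact h3
  · exact ya1 _ le_rfl (by omega)
  · rw [yb _ (by omega), ins, if_pos (by omega)]
    exact h2
  · rw [yb _ (by omega), ins, if_neg (by omega), if_pos rfl]
  · intro n hn
    rw [fa_δ y _ hn, hi]
    rcases Nat.eq_zero_or_pos n with h | h
    · subst h
      rw [if_pos (by omega), ya0, hx.z]
    · rw [if_neg (by omega), ya1 _ (by omega) (by omega), a1 _ h]
  · intro n hn
    rw [fb_δ y _ hn, hi, yb _ (by split_ifs <;> omega), ins_skip]

/-- A word is determined by a face and the deleted letter. -/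
theorem eq_of_δ {x y : ((Δ[1] : SSet.{0}) ⊗ EN S) _⦋d + 1⦌} {i : Fin (d + 2)}
    (h : ((Δ[1] : SSet.{0}) ⊗ EN S).δ i x = ((Δ[1] : SSet.{0}) ⊗ EN S).δ i y)
    (ha : fa x i.val = fa y i.val) (hb : fb x i.val = fb y i.val) : x = y := by
  have key : ∀ n ≤ d + 1, n ≠ i.val → ∃ m ≤ d, (if m < i.val then m else m + 1) = n := by
    intro n hn hni
    rcases Nat.lt_or_ge n i.val with h | h
    · exact ⟨n, by omega, by rw [if_pos h]⟩
    · exact ⟨n - 1, by omega, by rw [if_neg (by omega)]; omega⟩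
  refine f_ext ?_ ?_
  · intro n hn
    by_cases hni : n = i.val
    · rw [hni, ha]
    · obtain ⟨m, hm, rfl⟩ := key n hn hni
      rw [← fa_δ x i hm, ← fa_δ y i hm, h]
  · intro n hn
    by_cases hni : n = i.val
    · rw [hni, hb]
    · obtain ⟨m, hm, rfl⟩ := key n hn hni
      rw [← fb_δ x i hm, ← fb_δ y i hm, h]

theorem inj_aux {v : S} {x y : ((Δ[1] : SSet.{0}) ⊗ EN S) _⦋d + 1⦌} {i j : Fin (d + 2)}
    (hx : Ok v x) (hy : Ok v y) (hi : Ia v x i ∨ Ib v x i) (hj : Ia v y j ∨ Ib v y j)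
    (h : ((Δ[1] : SSet.{0}) ⊗ EN S).δ i x = ((Δ[1] : SSet.{0}) ⊗ EN S).δ j y) : x = y := by
  rcases hi with hi | hi <;> rcases hj with hj | hj
  · obtain ⟨i1, i2, i3, i4, i5⟩ := hi
    obtain ⟨j1, j2, j3, j4, j5⟩ := hj
    have e1 : fa (((Δ[1] : SSet.{0}) ⊗ EN S).δ i x) (i.val - 1) = 0 := by
      rw [fa_δ x i (by omega), if_pos (by omega)]
      have := fa_mono x (show i.val - 1 ≤ i.val by omega)
      omega
    have e2 : fa (((Δ[1] : SSet.{0}) ⊗ EN S).δ i x) (i.val - 1 + 1) = 1 := by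
      rw [fa_δ x i (by omega), if_neg (by omega), show i.val - 1 + 1 + 1 = i.val + 1 by omega]
      exact i4
    have e3 : fa (((Δ[1] : SSet.{0}) ⊗ EN S).δ j y) (j.val - 1) = 0 := by
      rw [fa_δ y j (by omega), if_pos (by omega)]
      have := fa_mono y (show j.val - 1 ≤ j.val by omega)
      omega
    have e4 : fa (((Δ[1] : SSet.{0}) ⊗ EN S).δ j y) (j.val - 1 + 1) = 1 := by
      rw [fa_δ y j (by omega), if_neg (by omega), show j.val - 1 + 1 + 1 = j.val + 1 by omega]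
      exact j4
    rw [h] at e1 e2
    have hij : i = j := by
      have := jump_unique e1 e2 e3 e4
      exact Fin.ext (by omega)
    subst hij
    exact eq_of_δ h (by rw [i3, j3]) (by rw [i5, j5])
  · have h1 := (Ia_δ hx hi).2
    have h2 := (Ib_δ hy hj).2
    rw [h] at h1
    exact (not_IIa_IIb (Ib_δ hy hj).1 h1 h2).elim
  · have h1 := (Ib_δ hx hi).2
    have h2 := (Ia_δ hy hj).2
    rw [h] at h1
    exact (not_IIa_IIb (Ia_δ hy hj).1 h2 h1).elim
  · have hij : i = j := Fin.ext (by rw [hi.1, hj.1])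
    subst hij
    refine eq_of_δ h ?_ ?_
    · rw [hi.1, hi.2.1, hj.2.1]
    · rw [hi.1, hi.2.2.2, hj.2.2.2]

theorem uniq_aux {v : S} {x : ((Δ[1] : SSet.{0}) ⊗ EN S) _⦋d + 1⦌} {i j : Fin (d + 2)}
    (hx : Ok v x) (hi : Ia v x i ∨ Ib v x i) (hj : Ia v x j ∨ Ib v x j) : i = j := by
  rcases hi with hi | hi <;> rcases hj with hj | hj
  · exact Fin.ext (jump_unique hi.2.2.1 hi.2.2.2.1 hj.2.2.1 hj.2.2.2.1)
  · have := jump_unique hi.2.2.1 hi.2.2.2.1 hx.z hj.2.1
    have := hi.1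
    omega
  · have := jump_unique hj.2.2.1 hj.2.2.2.1 hx.z hi.2.1
    have := hj.1
    omega
  · exact Fin.ext (by rw [hi.1, hj.1])

/-- A word of type I is not of type II. -/
theorem not_II_aux {v : S} {x : ((Δ[1] : SSet.{0}) ⊗ EN S) _⦋d + 1⦌} {i : Fin (d + 2)}
    (hx : Ok v x) (hi : Ia v x i ∨ Ib v x i) (h : IIa v x ∨ IIb v x) : False := by
  rcases hi with hi | hi <;> rcases h with h | h
  · obtain ⟨n, _, h1, h2, h3⟩ := h
    have := jump_unique hi.2.2.1 hi.2.2.2.1 h1 h2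
    rw [← this] at h3
    exact h3 hi.2.2.2.2
  · have := jump_unique hi.2.2.1 hi.2.2.2.1 hx.z h.2.1
    have := hi.1
    omega
  · obtain ⟨n, _, h1, h2, h3⟩ := h
    have := jump_unique hx.z hi.2.1 h1 h2
    rw [← this] at h3
    exact h3 hi.2.2.1
  · exact h.2.2.2 hi.2.2.2

theorem face_aux {v : S} {x : ((Δ[1] : SSet.{0}) ⊗ EN S) _⦋d + 1⦌} {i j : Fin (d + 2)}
    (hi : Ia v x i ∨ Ib v x i) (hji : j ≠ i)
    (ho : Ok v (((Δ[1] : SSet.{0}) ⊗ EN S).δ j x))
    (h : IIa v (((Δ[1] : SSet.{0}) ⊗ EN S).δ j x) ∨ IIb v (((Δ[1] : SSet.{0}) ⊗ EN S).δ j x)) :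
    Ia v x i ∧ ¬ IIa v (((Δ[1] : SSet.{0}) ⊗ EN S).δ j x) := by
  have hji' : j.val ≠ i.val := fun h => hji (Fin.ext h)
  rcases hi with hi | hi
  · refine ⟨hi, ?_⟩
    obtain ⟨i1, i2, i3, i4, i5⟩ := hi
    -- `k` is the position of the distinguished letter in the face
    obtain ⟨k, hk, k1, k2, k3⟩ : ∃ k ≤ d, fa (((Δ[1] : SSet.{0}) ⊗ EN S).δ j x) k = 0 ∧
        fb (((Δ[1] : SSet.{0}) ⊗ EN S).δ j x) k = v ∧
        (k + 1 ≤ d → fa (((Δ[1] : SSet.{0}) ⊗ EN S).δ j x) (k + 1) = 1) := by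
      rcases Nat.lt_or_ge j.val i.val with hj | hj
      · refine ⟨i.val - 1, by omega, ?_, ?_, ?_⟩
        · rw [fa_δ x j (by omega), if_neg (by omega), show i.val - 1 + 1 = i.val by omega]
          exact i3
        · rw [fb_δ x j (by omega), if_neg (by omega), show i.val - 1 + 1 = i.val by omega]
          exact i5
        · intro hk
          rw [fa_δ x j (by omega), if_neg (by omega),
            show i.val - 1 + 1 + 1 = i.val + 1 by omega]
          exact i4
      · refine ⟨i.val, by omega, ?_, ?_, ?_⟩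
        · rw [fa_δ x j (by omega), if_pos (by omega)]
          exact i3
        · rw [fb_δ x j (by omega), if_pos (by omega)]
          exact i5
        · intro hk
          rw [fa_δ x j (by omega)]
          have h1 := fa_mono x (show i.val + 1 ≤ (if i.val + 1 < j.val then i.val + 1
            else i.val + 1 + 1) by split_ifs <;> omega)
          have h2 := fa_le x (if i.val + 1 < j.val then i.val + 1 else i.val + 1 + 1)
          omega
    rintro ⟨n, hn, n1, n2, n3⟩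
    have hkd : k + 1 ≤ d := by
      by_contra hkd
      have : k = d := by omega
      rw [this, ho.o] at k1
      omega
    have := jump_unique n1 n2 k1 (k3 hkd)
    rw [this] at n3
    exact n3 k2
  · exfalso
    obtain ⟨i1, i2, i3, i4⟩ := hi
    rcases Nat.eq_zero_or_pos j.val with hj | hj
    · have h9 := ho.z
      rw [fa_δ x j (by omega), if_neg (by omega)] at h9
      rw [show 0 + 1 = 1 from rfl, i2] at h9
      exact absurd h9 (by omega)
    · have hd : 1 ≤ d := by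
        have := j.isLt
        omega
      have e0 : fb (((Δ[1] : SSet.{0}) ⊗ EN S).δ j x) 0 = v := by
        rw [fb_δ x j (by omega), if_pos (by omega)]
        exact i3
      have e1 : fb (((Δ[1] : SSet.{0}) ⊗ EN S).δ j x) 1 = v := by
        rw [fb_δ x j (by omega), if_pos (by omega)]
        exact i4
      have e2 : fa (((Δ[1] : SSet.{0}) ⊗ EN S).δ j x) 1 = 1 := by
        rw [fa_δ x j (by omega), if_pos (by omega)]
        exact i2
      rcases h with ⟨n, hn, n1, n2, n3⟩ | h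
      · have := jump_unique n1 n2 ho.z e2
        rw [this] at n3
        exact n3 e0
      · exact h.2.2.2 e1

open Classical in
/-- The pairing. -/
noncomputable def pd (v : S) :
    PData (SSet.Subcomplex.unionProd (SSet.boundary.{0} 1) (ENsub {v})) where
  I x i := Ok v x ∧ (Ia v x i ∨ Ib v x i)
  II x := Ok v x ∧ (IIa v x ∨ IIb v x)
  rk x := if IIa v x then 1 else 0
  I_nd h := ((ok_iff v _).1 h.1).1
  I_not h := ((ok_iff v _).1 h.1).2
  II_nd h := ((ok_iff v _).1 h.1).1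
  II_not h := ((ok_iff v _).1 h.1).2
  I_II := by
    rintro d x i ⟨hx, h | h⟩
    · exact ⟨(Ia_δ hx h).1, Or.inl (Ia_δ hx h).2⟩
    · exact ⟨(Ib_δ hx h).1, Or.inr (Ib_δ hx h).2⟩
  not_II h h' := not_II_aux h.1 h.2 h'.2
  cover0 x h h' := by
    have := (ok_iff v x).2 ⟨h, h'⟩
    have h1 := this.z
    have h2 := this.o
    omega
  cover {d} x h h' := by
    have hx := (ok_iff v x).2 ⟨h, h'⟩
    have hex : ∃ n, fa x (n + 1) = 1 := ⟨d, hx.o⟩
    set n := Nat.find hex with hn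
    have h1 : fa x (n + 1) = 1 := Nat.find_spec hex
    have h2 : n ≤ d := Nat.find_min' hex hx.o
    have h3 : fa x n = 0 := by
      rcases Nat.eq_zero_or_pos n with h0 | h0
      · rw [h0]
        exact hx.z
      · have h4 := Nat.find_min hex (show n - 1 < Nat.find hex by omega)
        rw [show n - 1 + 1 = n by omega] at h4
        have := fa_le x n
        omega
    by_cases hb : fb x n = v
    · rcases Nat.eq_zero_or_pos n with h0 | h0
      · rw [h0] at h1 hb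
        by_cases hb1 : fb x 1 = v
        · exact Or.inr ⟨⟨1, by omega⟩, hx, Or.inr ⟨rfl, h1, hb, hb1⟩⟩
        · exact Or.inl ⟨hx, Or.inr ⟨by omega, h1, hb, hb1⟩⟩
      · exact Or.inr ⟨⟨n, by omega⟩, hx, Or.inl ⟨h0, by simp only; omega, h3, h1, hb⟩⟩
    · exact Or.inl ⟨hx, Or.inl ⟨n, by omega, h3, h1, hb⟩⟩
  ex := by
    rintro d x ⟨hx, h | h⟩
    · obtain ⟨y, i, h1, h2, h3⟩ := ex_IIa hx h
      exact ⟨y, i, ⟨h1, Or.inl h2⟩, h3⟩
    · obtain ⟨y, i, h1, h2, h3⟩ := ex_IIb hx h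
      exact ⟨y, i, ⟨h1, Or.inr h2⟩, h3⟩
  inj h h' e := inj_aux h.1 h'.1 h.2 h'.2 e
  uniq h h' := uniq_aux h.1 h.2 h'.2
  lt h hne h' := by
    obtain ⟨h1, h2⟩ := face_aux h.2 hne h'.1 h'.2
    rw [if_neg h2, if_pos (Ia_δ h.1 h1).2]
    exact Nat.zero_lt_one
  inner0 := by
    rintro d x i ⟨_, h | h⟩ rfl
    · exact absurd h.1 (by simp)
    · exact absurd h.1 (by simp)
  innerL := by
    rintro d x i ⟨hx, h | h⟩ rfl
    · exact absurd h.2.1 (by simp)
    · obtain ⟨n, hn, h5⟩ := hx.ne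
      have h1 : d + 1 = 1 := h.1
      have : n = 0 ∨ n = 1 := by omega
      rcases this with rfl | rfl
      · exact h5 h.2.2.1
      · exact h5 h.2.2.2

end

theorem EN_inner_prod {S : Type} (v : S) :
    SSet.innerAnodyneExtensions
      (SSet.Subcomplex.unionProd (SSet.boundary.{0} 1) (ENsub {v})).ι :=
  (pd v).innerAnodyne

end Pool.Agent.Helper43.FL2
end

/- Helper43.FL2.BinInner -/
section
/-!
# `bin_inner` (module FL2-G10)
-/

open CategoryTheory MonoidalCategory Opposite Simplicial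

set_option autoImplicit false

namespace Pool.Agent.Helper43.FL2

namespace Bin

variable {r d : ℕ}

/-- Values. -/
def fa (x : (Δ[r + 1] : SSet.{0}) _⦋d⦌) (n : ℕ) : ℕ := (x (cl d n)).val

theorem fa_le (x : (Δ[r + 1] : SSet.{0}) _⦋d⦌) (n : ℕ) : fa x n ≤ r + 1 := by
  have := (x (cl d n)).isLt
  simp only [fa]
  omega

theorem fa_mono (x : (Δ[r + 1] : SSet.{0}) _⦋d⦌) {n m : ℕ} (h : n ≤ m) :
    fa x n ≤ fa x m :=
  SSet.stdSimplex.monotone_apply x (cl_mono h)

theorem fa_δ (x : (Δ[r + 1] : SSet.{0}) _⦋d + 1⦌) (i : Fin (d + 2)) {n : ℕ}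
    (h : n ≤ d) : fa ((Δ[r + 1] : SSet.{0}).δ i x) n =
      fa x (if n < i.val then n else n + 1) := by
  rw [fa, fa, ← succAbove_cl i h]
  rfl

theorem f_ext {x y : (Δ[r + 1] : SSet.{0}) _⦋d⦌} (h : ∀ n ≤ d, fa x n = fa y n) : x = y := by
  refine SSet.stdSimplex.ext _ _ fun i => ?_
  have := h i.val (by omega)
  simp only [fa, cl_eq] at this
  exact Fin.ext this

theorem f_mk (d : ℕ) (a : ℕ → ℕ) (ha : ∀ n ≤ d, a n ≤ r + 1)
    (hm : ∀ n < d, a n ≤ a (n + 1)) :
    ∃ x : (Δ[r + 1] : SSet.{0}) _⦋d⦌, ∀ n ≤ d, fa x n = a n := by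
  have hm' : ∀ n m, n ≤ m → m ≤ d → a n ≤ a m := by
    intro n m hnm
    induction m, hnm using Nat.le_induction with
    | base => intro _; exact le_rfl
    | succ m _ ih =>
      intro h
      exact (ih (by omega)).trans (hm m (by omega))
  refine ⟨SSet.stdSimplex.objMk (m := op ⦋d⦌) ⟨fun i => ⟨a i.val, ?_⟩, ?_⟩, ?_⟩
  · have := ha i.val (Nat.le_of_lt_succ i.isLt)
    change a i.val < r + 1 + 1
    omega
  · intro i j hij
    exact hm' _ _ hij (Nat.le_of_lt_succ j.isLt)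
  · intro n hn
    change a (cl d n).val = a n
    rw [cl_val hn]

theorem f_nd (x : (Δ[r + 1] : SSet.{0}) _⦋d⦌) :
    x ∈ (Δ[r + 1] : SSet.{0}).nonDegenerate d ↔ ∀ n < d, fa x n < fa x (n + 1) := by
  rw [SSet.stdSimplex.mem_nonDegenerate_iff_strictMono]
  constructor
  · intro h n hn
    refine h ?_
    rw [Fin.lt_def, cl_val (by omega), cl_val (by omega)]
    omega
  · intro h
    rw [Fin.strictMono_iff_lt_succ]
    intro i
    have := h i.val i.isLt
    have e1 : cl d i.val = i.castSucc := by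
      rw [← Fin.val_castSucc, cl_eq]
    have e2 : cl d (i.val + 1) = i.succ := by
      rw [← Fin.val_succ, cl_eq]
    rw [fa, fa, e1, e2] at this
    exact this

/-- The subcomplex. -/
def A (r : ℕ) : (Δ[r + 1] : SSet.{0}).Subcomplex :=
  SSet.stdSimplex.face.{0} (n := r + 1) (Finset.univ.erase (Fin.last (r + 1))) ⊔
    SSet.stdSimplex.face {(Fin.last r).castSucc, Fin.last (r + 1)}

theorem f_out (x : (Δ[r + 1] : SSet.{0}) _⦋d⦌) :
    x ∉ (A r).obj _ ↔ fa x d = r + 1 ∧ fa x 0 < r := by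
  have h0 : x ∈ (A r).obj (op ⦋d⦌) ↔
      x ∈ (SSet.stdSimplex.face.{0} (n := r + 1) (Finset.univ.erase (Fin.last (r + 1)))).obj
        (op ⦋d⦌) ∨ x ∈ (SSet.stdSimplex.face.{0} (n := r + 1)
          {(Fin.last r).castSucc, Fin.last (r + 1)}).obj (op ⦋d⦌) := Iff.rfl
  rw [h0, SSet.stdSimplex.mem_face_iff, SSet.stdSimplex.mem_face_iff, not_or]
  push Not
  have hv : ∀ i : Fin (d + 1), (x i).val = fa x i.val := by
    intro i
    rw [fa, cl_eq]
  refine and_congr ?_ ?_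
  · constructor
    · rintro ⟨i, hi⟩
      simp only [Finset.mem_erase, Finset.mem_univ, and_true, not_not] at hi
      have h1 := congrArg Fin.val hi
      rw [hv] at h1
      have := fa_mono x (Nat.le_of_lt_succ i.isLt)
      have := fa_le x d
      simp only [Fin.val_last] at h1
      omega
    · intro h
      refine ⟨cl d d, ?_⟩
      simp only [Finset.mem_erase, Finset.mem_univ, and_true, not_not]
      exact Fin.ext h
  · constructor
    · rintro ⟨i, hi⟩
      simp only [Finset.mem_insert, Finset.mem_singleton, not_or, Fin.ext_iff, hv,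
        Fin.val_castSucc, Fin.val_last] at hi
      have := fa_mono x (Nat.zero_le i.val)
      have := fa_le x i.val
      omega
    · intro h
      refine ⟨cl d 0, ?_⟩
      simp only [Finset.mem_insert, Finset.mem_singleton, not_or, Fin.ext_iff,
        Fin.val_castSucc, Fin.val_last]
      change ¬ fa x 0 = r ∧ ¬ fa x 0 = r + 1
      omega

structure Ok (x : (Δ[r + 1] : SSet.{0}) _⦋d⦌) : Prop where
  nd : ∀ n < d, fa x n < fa x (n + 1)
  o : fa x d = r + 1
  z : fa x 0 < r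

theorem ok_iff (x : (Δ[r + 1] : SSet.{0}) _⦋d⦌) :
    Ok x ↔ x ∈ (Δ[r + 1] : SSet.{0}).nonDegenerate d ∧ x ∉ (A r).obj _ := by
  rw [f_nd, f_out]
  exact ⟨fun h => ⟨h.nd, h.o, h.z⟩, fun h => ⟨h.1, h.2.1, h.2.2⟩⟩

theorem mono_lt {x : (Δ[r + 1] : SSet.{0}) _⦋d⦌} (h : Ok x) {n m : ℕ} (hnm : n < m)
    (hm : m ≤ d) : fa x n < fa x m :=
  (h.nd n (by omega)).trans_le (fa_mono x hnm)

/-- The position of `r` is the last but one. -/
theorem pos {x : (Δ[r + 1] : SSet.{0}) _⦋d + 1⦌} (h : Ok x) {i : ℕ} (hi : i ≤ d + 1)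
    (hr : fa x i = r) : i = d ∧ 1 ≤ d := by
  have h1 : i ≠ 0 := by
    rintro rfl
    have := h.z
    omega
  have h2 : i ≠ d + 1 := by
    rintro rfl
    have := h.o
    omega
  have h3 : ¬ i < d := by
    intro h3
    have h4 := mono_lt h h3 (by omega)
    have h5 := h.nd d (by omega)
    have := h.o
    omega
  omega

theorem Ok.δ {x : (Δ[r + 1] : SSet.{0}) _⦋d + 1⦌} (h : Ok x) {i : Fin (d + 2)}
    (hr : fa x i.val = r) : Ok ((Δ[r + 1] : SSet.{0}).δ i x) := by
  obtain ⟨h1, h2⟩ := pos h (Nat.le_of_lt_succ i.isLt) hr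
  refine ⟨?_, ?_, ?_⟩
  · intro n hn
    rw [fa_δ x i (by omega), fa_δ x i (by omega)]
    exact mono_lt h (by split_ifs <;> omega) (by split_ifs <;> omega)
  · rw [fa_δ x i (by omega), if_neg (by omega)]
    exact h.o
  · rw [fa_δ x i (by omega), if_pos (by omega)]
    exact h.z

theorem δ_ne {x : (Δ[r + 1] : SSet.{0}) _⦋d + 1⦌} (h : Ok x) {i : Fin (d + 2)}
    (hr : fa x i.val = r) {n : ℕ} (hn : n ≤ d) :
    fa ((Δ[r + 1] : SSet.{0}).δ i x) n ≠ r := by
  obtain ⟨h1, h2⟩ := pos h (Nat.le_of_lt_succ i.isLt) hr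
  rw [fa_δ x i hn]
  intro h3
  have h4 := pos h (i := if n < i.val then n else n + 1) (by split_ifs <;> omega) h3
  split_ifs at h4 <;> omega

theorem has_r {x : (Δ[r + 1] : SSet.{0}) _⦋d + 1⦌} {i j : Fin (d + 2)}
    (hr : fa x i.val = r) (hij : j ≠ i) :
    ∃ n ≤ d, fa ((Δ[r + 1] : SSet.{0}).δ j x) n = r := by
  have hji' : j.val ≠ i.val := fun h => hij (Fin.ext h)
  have hj := j.isLt
  have hi := i.isLt
  rcases Nat.lt_or_ge i.val j.val with h | h
  · refine ⟨i.val, by omega, ?_⟩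
    rw [fa_δ x j (by omega), if_pos h]
    exact hr
  · refine ⟨i.val - 1, by omega, ?_⟩
    rw [fa_δ x j (by omega), if_neg (by omega), show i.val - 1 + 1 = i.val by omega]
    exact hr

theorem ex_aux {x : (Δ[r + 1] : SSet.{0}) _⦋d⦌} (hx : Ok x) (h : ∀ n ≤ d, fa x n ≠ r) :
    ∃ (y : (Δ[r + 1] : SSet.{0}) _⦋d + 1⦌) (i : Fin (d + 2)), Ok y ∧ fa y i.val = r ∧
      (Δ[r + 1] : SSet.{0}).δ i y = x := by
  have hd : 1 ≤ d := by
    by_contra hd
    have : d = 0 := by omega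
    subst this
    have := hx.z
    have := hx.o
    omega
  have a0 : ∀ n < d, fa x n < r := by
    intro n hn
    have h1 := mono_lt hx hn le_rfl
    have h2 := hx.o
    have h3 := h n (by omega)
    omega
  have hr : 1 ≤ r := by
    have := hx.z
    omega
  have mono : ∀ n < d + 1, ins d r (fa x) n < ins d r (fa x) (n + 1) := by
    intro n hn
    unfold ins
    rcases (show n + 1 < d ∨ n + 1 = d ∨ n = d by omega) with h1 | h1 | h1
    · rw [if_pos (by omega), if_pos (by omega)]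
      exact hx.nd n (by omega)
    · rw [if_pos (by omega), if_neg (by omega), if_pos (by omega)]
      exact a0 n (by omega)
    · subst h1
      rw [if_neg (by omega), if_pos rfl, if_neg (by omega), if_neg (by omega),
        show n + 1 - 1 = n by omega, hx.o]
      omega
  obtain ⟨y, hy⟩ := f_mk (r := r) (d + 1) (ins d r (fa x))
    (by
      intro n _
      unfold ins
      split_ifs
      · exact fa_le x n
      · omega
      · exact fa_le x _)
    (fun n hn => (mono n hn).le)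
  have hi : (⟨d, by omega⟩ : Fin (d + 2)).val = d := rfl
  refine ⟨y, ⟨d, by omega⟩, ⟨?_, ?_, ?_⟩, ?_, f_ext ?_⟩
  · intro n hn
    rw [hy n (by omega), hy (n + 1) (by omega)]
    exact mono n hn
  · rw [hy _ le_rfl, ins, if_neg (by omega), if_neg (by omega), show d + 1 - 1 = d by omega]
    exact hx.o
  · rw [hy _ (by omega), ins, if_pos (by omega)]
    exact hx.z
  · rw [hi, hy _ (by omega), ins, if_neg (by omega), if_pos rfl]
  · intro n hn
    rw [fa_δ y _ hn, hi, hy _ (by split_ifs <;> omega), ins_skip]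

theorem inj_aux {x y : (Δ[r + 1] : SSet.{0}) _⦋d + 1⦌} {i j : Fin (d + 2)} (hx : Ok x)
    (hy : Ok y) (hi : fa x i.val = r) (hj : fa y j.val = r)
    (h : (Δ[r + 1] : SSet.{0}).δ i x = (Δ[r + 1] : SSet.{0}).δ j y) : x = y := by
  obtain ⟨h1, _⟩ := pos hx (Nat.le_of_lt_succ i.isLt) hi
  obtain ⟨h2, _⟩ := pos hy (Nat.le_of_lt_succ j.isLt) hj
  have hij : i = j := Fin.ext (by omega)
  subst hij
  refine f_ext fun n hn => ?_
  by_cases hni : n = i.val
  · rw [hni, hi, hj]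
  · obtain ⟨m, hm, rfl⟩ : ∃ m ≤ d, (if m < i.val then m else m + 1) = n := by
      rcases Nat.lt_or_ge n i.val with h | h
      · exact ⟨n, by omega, by rw [if_pos h]⟩
      · exact ⟨n - 1, by omega, by rw [if_neg (by omega)]; omega⟩
    rw [← fa_δ x i hm, ← fa_δ y i hm, h]

/-- The pairing. -/
def pd (r : ℕ) : PData (A r) where
  I x i := Ok x ∧ fa x i.val = r
  II {d} x := Ok x ∧ ∀ n ≤ d, fa x n ≠ r
  rk _ := 0
  I_nd h := ((ok_iff _).1 h.1).1
  I_not h := ((ok_iff _).1 h.1).2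
  II_nd h := ((ok_iff _).1 h.1).1
  II_not h := ((ok_iff _).1 h.1).2
  I_II := by
    rintro d x i ⟨hx, h⟩
    exact ⟨hx.δ h, fun n hn => δ_ne hx h hn⟩
  not_II {d x i} h h' := h'.2 i.val (Nat.le_of_lt_succ i.isLt) h.2
  cover0 x h h' := by
    have := (ok_iff x).2 ⟨h, h'⟩
    have h1 := this.z
    have h2 := this.o
    omega
  cover {d} x h h' := by
    have hx := (ok_iff x).2 ⟨h, h'⟩
    by_cases hr : ∀ n ≤ d + 1, fa x n ≠ r
    · exact Or.inl ⟨hx, hr⟩
    · push Not at hr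
      obtain ⟨n, hn, hr⟩ := hr
      exact Or.inr ⟨⟨n, by omega⟩, hx, hr⟩
  ex := by
    rintro d x ⟨hx, h⟩
    obtain ⟨y, i, h1, h2, h3⟩ := ex_aux hx h
    exact ⟨y, i, ⟨h1, h2⟩, h3⟩
  inj h h' e := inj_aux h.1 h'.1 h.2 h'.2 e
  uniq {d x i j} h h' := by
    have h1 := (pos h.1 (Nat.le_of_lt_succ i.isLt) h.2).1
    have h2 := (pos h'.1 (Nat.le_of_lt_succ j.isLt) h'.2).1
    exact Fin.ext (by omega)
  lt h hne h' := by
    obtain ⟨n, hn, h1⟩ := has_r h.2 hne
    exact absurd h1 (h'.2 n hn)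
  inner0 := by
    rintro d x i ⟨hx, h⟩ rfl
    have := (pos hx (Nat.zero_le _) h)
    omega
  innerL := by
    rintro d x i ⟨hx, h⟩ rfl
    have := (pos hx le_rfl h).1
    omega

end Bin

theorem bin_inner (r : ℕ) :
    SSet.innerAnodyneExtensions
      (SSet.stdSimplex.face.{0} (n := r + 1) (Finset.univ.erase (Fin.last (r + 1))) ⊔
        SSet.stdSimplex.face {(Fin.last r).castSucc, Fin.last (r + 1)}).ι :=
  (Bin.pd r).innerAnodyne

end Pool.Agent.Helper43.FL2
end
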