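import Pool.Agent.Helper16.FDG.G01
import Pool.Agent.Helper16.FDG.G03
import Pool.Agent.Helper16.FDG.G05
import Pool.Agent.Helper16.FDG.G06
import Pool.Agent.Helper16.FDG.G07
import Pool.Agent.Helper16.FDG.G08
import Pool.Agent.Helper16.FDG.G09
import Pool.Agent.Helper16.FDG.G10
import Pool.Agent.Helper16.FDG.G11

/- Helper61.FL2.BSegB -/
section
/-!
Project FL2, module V2 (second part): locality with respect to spines and the binary Segal
condition.
-/

open CategoryTheory MonoidalCategory CartesianMonoidalCategory Opposite HomotopicalAlgebra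

set_option autoImplicit false

namespace Pool.Agent.Helper61.FL2

open _root_.FL Pool.Agent.Helper88.FL

noncomputable section

variable {C : Type} [SmallCategory C]

theorem g_congr {X Y : Wr C} {φ ψ : X ⟶ Y} (e : φ = ψ) {i : Fin X.len} {j : Fin Y.len}
    (h : Jump (Wr.Hom.f φ) i j) (h' : Jump (Wr.Hom.f ψ) i j) :
    Wr.Hom.g φ i j h = Wr.Hom.g ψ i j h' := by
  subst e
  rfl

/-- Constant monotone maps have no jumps. -/
theorem no_jump {a b : ℕ} {f : Fin (a + 1) →o Fin (b + 1)} {v : Fin (b + 1)}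
    (hf : ∀ t, f t = v) {i : Fin a} {j : Fin b} (h : Jump f i j) : False := by
  have h1 := h.1
  have h2 := h.2
  rw [hf] at h1 h2
  have := h2.trans h1
  rw [Fin.le_def] at this
  simp at this

theorem hom_of_const {X Y : Wr C} {φ ψ : X ⟶ Y} {v : Fin (Y.len + 1)}
    (h : ∀ t, Wr.Hom.f φ t = v) (h' : ∀ t, Wr.Hom.f ψ t = v) : φ = ψ := by
  refine Wr.hom_ext' ?_ fun i j hj _ => (no_jump h hj).elim
  ext t : 2
  rw [h, h']

section Init

variable {r : ℕ} (c : Fin (r + 1) → C)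

/-- Factorisation through `initMap`. -/
def facI {η : Wr C} (φ : η ⟶ (⟨r + 1, c⟩ : Wr C)) (h : ∀ t, (Wr.Hom.f φ t).1 ≤ r) :
    η ⟶ init c :=
  ({ f := ⟨fun t => ⟨(Wr.Hom.f φ t).1, Nat.lt_succ_of_le (h t)⟩,
       fun _ _ hst => (Wr.Hom.f φ).monotone hst⟩
     g := fun (i : Fin η.len) (j : Fin r) hj => Wr.Hom.g φ i j.castSucc ⟨hj.1, hj.2⟩ } :
    Wr.Hom η (init c))

theorem facI_comp {η : Wr C} (φ : η ⟶ (⟨r + 1, c⟩ : Wr C)) (h : ∀ t, (Wr.Hom.f φ t).1 ≤ r) :
    facI c φ h ≫ initMap c = φ := by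
  refine Wr.hom_ext' rfl fun i (j : Fin (r + 1)) hj hj' => ?_
  obtain ⟨j0, rfl⟩ : ∃ j0 : Fin r, j = j0.castSucc := by
    have h1 : j.1 + 1 ≤ (Wr.Hom.f φ i.succ).1 := hj'.2
    have h2 := h i.succ
    exact ⟨⟨j.1, by omega⟩, rfl⟩
  have h1 : Jump (Wr.Hom.f (facI c φ h)) i j0 := ⟨hj'.1, hj'.2⟩
  have h2 : Jump (Wr.Hom.f (initMap c)) j0 j0.castSucc := ⟨le_refl _, le_refl _⟩
  refine (Wr.comp_g (facI c φ h) (initMap c) h1 h2).trans ?_
  exact Category.comp_id _

theorem initMap_cancel {η : Wr C} {ψ ψ' : η ⟶ init c} (e : ψ ≫ initMap c = ψ' ≫ initMap c) :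
    ψ = ψ' := by
  have hf : Wr.Hom.f ψ = Wr.Hom.f ψ' := by
    ext t : 2
    have h1 : (Wr.Hom.f (ψ ≫ initMap c) t).1 = (Wr.Hom.f (ψ' ≫ initMap c) t).1 := by rw [e]
    exact Fin.ext h1
  refine Wr.hom_ext' hf fun i (j : Fin r) hj hj' => ?_
  have h2 : Jump (Wr.Hom.f (initMap c)) j j.castSucc := ⟨le_refl _, le_refl _⟩
  have e1 := Wr.comp_g ψ (initMap c) hj h2
  have e2 := Wr.comp_g ψ' (initMap c) hj' h2
  have e3 := g_congr e (hj.comp h2) (hj'.comp h2)
  have a1 : Wr.Hom.g ψ i j hj ≫ Wr.Hom.g (initMap c) j j.castSucc h2 = Wr.Hom.g ψ i j hj :=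
    Category.comp_id _
  have a2 : Wr.Hom.g ψ' i j hj' ≫ Wr.Hom.g (initMap c) j j.castSucc h2 = Wr.Hom.g ψ' i j hj' :=
    Category.comp_id _
  rw [a1] at e1
  rw [a2] at e2
  exact e1.symm.trans (e3.trans e2)

/-- Factorisation through `lastMap'`. -/
def facL {η : Wr C} (φ : η ⟶ (⟨r + 1, c⟩ : Wr C)) (h : ∀ t, r ≤ (Wr.Hom.f φ t).1) :
    η ⟶ seg (c (Fin.last r)) :=
  ({ f := ⟨fun t => ⟨(Wr.Hom.f φ t).1 - r, by
          have h1 : (Wr.Hom.f φ t).1 < r + 1 + 1 := (Wr.Hom.f φ t).2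
          show (Wr.Hom.f φ t).1 - r < 1 + 1
          omega⟩,
       fun s t hst => by
        have h1 : (Wr.Hom.f φ s).1 ≤ (Wr.Hom.f φ t).1 := (Wr.Hom.f φ).monotone hst
        show (Wr.Hom.f φ s).1 - r ≤ (Wr.Hom.f φ t).1 - r
        omega⟩
     g := fun (i : Fin η.len) (j : Fin 1) hj => Wr.Hom.g φ i (Fin.last r) (by
      have h1 : (Wr.Hom.f φ i.castSucc).1 - r ≤ j.1 := hj.1
      have h2 : j.1 + 1 ≤ (Wr.Hom.f φ i.succ).1 - r := hj.2
      have h3 : j.1 = 0 := by omega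
      constructor
      · show (Wr.Hom.f φ i.castSucc).1 ≤ r
        omega
      · show r + 1 ≤ (Wr.Hom.f φ i.succ).1
        omega) } :
    Wr.Hom η (seg (c (Fin.last r))))

theorem jump_lastMap (j : Fin 1) : Jump (Wr.Hom.f (lastMap' c)) j (Fin.last r) := by
  have hj : j.1 = 0 := by omega
  constructor
  · show r + j.1 ≤ r
    omega
  · show r + 1 ≤ r + (j.1 + 1)
    omega

theorem facL_comp {η : Wr C} (φ : η ⟶ (⟨r + 1, c⟩ : Wr C)) (h : ∀ t, r ≤ (Wr.Hom.f φ t).1) :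
    facL c φ h ≫ lastMap' c = φ := by
  have hf : Wr.Hom.f (facL c φ h ≫ lastMap' c) = Wr.Hom.f φ := by
    ext t
    show r + ((Wr.Hom.f φ t).1 - r) = (Wr.Hom.f φ t).1
    have := h t
    omega
  refine Wr.hom_ext' hf fun i (j : Fin (r + 1)) hj hj' => ?_
  obtain rfl : j = Fin.last r := by
    have h1 : (Wr.Hom.f φ i.castSucc).1 ≤ j.1 := hj'.1
    have h2 := h i.castSucc
    exact Fin.ext (by simp; omega)
  have h1 : Jump (Wr.Hom.f (facL c φ h)) i (0 : Fin 1) := by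
    have a1 : (Wr.Hom.f φ i.castSucc).1 ≤ r := hj'.1
    have a2 : r + 1 ≤ (Wr.Hom.f φ i.succ).1 := hj'.2
    constructor
    · show (Wr.Hom.f φ i.castSucc).1 - r ≤ 0
      omega
    · show 0 + 1 ≤ (Wr.Hom.f φ i.succ).1 - r
      omega
  refine (Wr.comp_g (facL c φ h) (lastMap' c) h1 (jump_lastMap c 0)).trans ?_
  exact Category.comp_id _

theorem lastMap_cancel {η : Wr C} {ψ ψ' : η ⟶ seg (c (Fin.last r))}
    (e : ψ ≫ lastMap' c = ψ' ≫ lastMap' c) : ψ = ψ' := by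
  have hf : Wr.Hom.f ψ = Wr.Hom.f ψ' := by
    ext t : 2
    have h1 : r + (Wr.Hom.f ψ t).1 = r + (Wr.Hom.f ψ' t).1 :=
      congrArg (fun u => (Wr.Hom.f u t).1) e
    exact Fin.ext (by omega)
  refine Wr.hom_ext' hf fun i (j : Fin 1) hj hj' => ?_
  have h2 := jump_lastMap c j
  have e1 := Wr.comp_g ψ (lastMap' c) hj h2
  have e2 := Wr.comp_g ψ' (lastMap' c) hj' h2
  have e3 := g_congr e (hj.comp h2) (hj'.comp h2)
  have a1 : Wr.Hom.g ψ i j hj ≫ Wr.Hom.g (lastMap' c) j (Fin.last r) h2 = Wr.Hom.g ψ i j hj :=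
    Category.comp_id _
  have a2 : Wr.Hom.g ψ' i j hj' ≫ Wr.Hom.g (lastMap' c) j (Fin.last r) h2 = Wr.Hom.g ψ' i j hj' :=
    Category.comp_id _
  rw [a1] at e1
  rw [a2] at e2
  exact e1.symm.trans (e3.trans e2)

theorem facI_cancel {η : Wr C} (ψ : η ⟶ init c)
    (h : ∀ t, (Wr.Hom.f (ψ ≫ initMap c) t).1 ≤ r) : facI c (ψ ≫ initMap c) h = ψ :=
  initMap_cancel c (facI_comp c _ _)

theorem facL_cancel {η : Wr C} (ψ : η ⟶ seg (c (Fin.last r)))
    (h : ∀ t, r ≤ (Wr.Hom.f (ψ ≫ lastMap' c) t).1) : facL c (ψ ≫ lastMap' c) h = ψ :=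
  lastMap_cancel c (facL_comp c _ _)

theorem initMap_le (t : Fin ((init c).len + 1)) : (Wr.Hom.f (initMap c) t).1 ≤ r :=
  Nat.lt_succ_iff.mp t.2

theorem le_lastMap (t : Fin ((seg (c (Fin.last r))).len + 1)) :
    r ≤ (Wr.Hom.f (lastMap' c) t).1 := Nat.le_add_right _ _

theorem mem_init {η : Wr C} (ψ : η ⟶ init c) (k : SimplexCategoryᵒᵖ) :
    (ψ ≫ initMap c : η ⟶ (⟨r + 1, c⟩ : Wr C)) ∈ (binSb c).mem (op η) k :=
  Or.inl fun _ => initMap_le c _

theorem mem_last {η : Wr C} (ψ : η ⟶ seg (c (Fin.last r))) (k : SimplexCategoryᵒᵖ) :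
    (ψ ≫ lastMap' c : η ⟶ (⟨r + 1, c⟩ : Wr C)) ∈ (binSb c).mem (op η) k :=
  Or.inr fun _ => le_lastMap c _

/-- The element of `binSb c` given by a morphism to `[r](c_1, …, c_r)`. -/
def elI {η : (Wr C)ᵒᵖ} (ψ : η.unop ⟶ init c) (k : SimplexCategoryᵒᵖ) :
    ((binSb c).toSP.obj η).obj k :=
  (⟨(ψ ≫ initMap c : η.unop ⟶ (⟨r + 1, c⟩ : Wr C)), mem_init c ψ k⟩ :
    { x : ((rep (⟨r + 1, c⟩ : Wr C)).obj η).obj k // x ∈ (binSb c).mem η k })

/-- The element of `binSb c` given by a morphism to `[1](c_{r+1})`. -/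
def elL {η : (Wr C)ᵒᵖ} (ψ : η.unop ⟶ seg (c (Fin.last r))) (k : SimplexCategoryᵒᵖ) :
    ((binSb c).toSP.obj η).obj k :=
  (⟨(ψ ≫ lastMap' c : η.unop ⟶ (⟨r + 1, c⟩ : Wr C)), mem_last c ψ k⟩ :
    { x : ((rep (⟨r + 1, c⟩ : Wr C)).obj η).obj k // x ∈ (binSb c).mem η k })

theorem el_cases {η : (Wr C)ᵒᵖ} {k : SimplexCategoryᵒᵖ} (x : ((binSb c).toSP.obj η).obj k) :
    (∃ ψ, x = elI c ψ k) ∨ ∃ ψ, x = elL c ψ k := by
  obtain ⟨φ, h | h⟩ := x
  · exact Or.inl ⟨facI c φ h, Subtype.ext (facI_comp c φ h).symm⟩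
  · exact Or.inr ⟨facL c φ h, Subtype.ext (facL_comp c φ h).symm⟩

theorem elI_mapA {η η' : (Wr C)ᵒᵖ} (u : η ⟶ η') (ψ : η.unop ⟶ init c) (k : SimplexCategoryᵒᵖ) :
    ((binSb c).toSP.map u).app k (elI c ψ k) = elI c (u.unop ≫ ψ) k :=
  Subtype.ext (Category.assoc u.unop ψ (initMap c)).symm

theorem elL_mapA {η η' : (Wr C)ᵒᵖ} (u : η ⟶ η') (ψ : η.unop ⟶ seg (c (Fin.last r)))
    (k : SimplexCategoryᵒᵖ) :
    ((binSb c).toSP.map u).app k (elL c ψ k) = elL c (u.unop ≫ ψ) k :=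
  Subtype.ext (Category.assoc u.unop ψ (lastMap' c)).symm

theorem elI_vtx (k : SimplexCategoryᵒᵖ) :
    elI c (η := op Wr.pt) (vtx (init c) (Fin.last r)) k =
      elL c (η := op Wr.pt) (vtx (seg (c (Fin.last r))) 0) k :=
  Subtype.ext (init_last c)

variable (X : SP (Wr C))

/-- Evaluation on the two generators of `binSb c`. -/
def evBin : Mp (binSb c).toSP X ⟶ Fp (X.map (vtx (init c) (Fin.last r)).op)
    (X.map (vtx (seg (c (Fin.last r))) 0).op) where
  app k := ↾ fun (φ : MpS (binSb c).toSP X k.unop) =>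
    ⟨(φ.app (op (init c)) k (𝟙 _) (elI c (𝟙 _) k),
      φ.app (op (seg (c (Fin.last r)))) k (𝟙 _) (elL c (𝟙 _) k)), by
      refine (φ.nat_left (vtx (init c) (Fin.last r)).op k (𝟙 _) (elI c (𝟙 _) k)).symm.trans ?_
      refine Eq.trans ?_ (φ.nat_left (vtx (seg (c (Fin.last r))) 0).op k (𝟙 _) (elL c (𝟙 _) k))
      refine congrArg (φ.app (op Wr.pt) k (𝟙 _)) ?_
      rw [elI_mapA, elL_mapA, Category.comp_id, Category.comp_id]
      exact elI_vtx c k⟩
  naturality k l α := by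
    refine ConcreteCategory.hom_ext _ _ fun (φ : MpS (binSb c).toSP X k.unop) => ?_
    refine Subtype.ext (Prod.ext ?_ ?_)
    · refine Eq.trans ?_ (φ.nat_right (op (init c)) α (𝟙 _) (elI c (𝟙 _) k))
      show φ.app _ l (𝟙 _ ≫ α.unop) _ = φ.app _ l (α.unop ≫ 𝟙 _) _
      rw [Category.id_comp, Category.comp_id]
      rfl
    · refine Eq.trans ?_ (φ.nat_right (op (seg (c (Fin.last r)))) α (𝟙 _) (elL c (𝟙 _) k))
      show φ.app _ l (𝟙 _ ≫ α.unop) _ = φ.app _ l (α.unop ≫ 𝟙 _) _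
      rw [Category.id_comp, Category.comp_id]
      rfl

section Glue

variable {X} {k : SimplexCategoryᵒᵖ} (z : (Fp (X.map (vtx (init c) (Fin.last r)).op)
    (X.map (vtx (seg (c (Fin.last r))) 0).op)).obj k)

open Classical in
/-- The function glued from a simplex over each of the two generators. -/
def gluef (η : (Wr C)ᵒᵖ) (l : SimplexCategoryᵒᵖ) (s : l.unop ⟶ k.unop)
    (x : ((binSb c).toSP.obj η).obj l) : (X.obj η).obj l :=
  if h : ∀ t, (Wr.Hom.f (x.1 : η.unop ⟶ (⟨r + 1, c⟩ : Wr C)) t).1 ≤ r then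
    (X.map (facI c x.1 h).op).app l ((X.obj (op (init c))).map s.op z.1.1)
  else (X.map (facL c x.1 (x.2.resolve_left h)).op).app l
    ((X.obj (op (seg (c (Fin.last r))))).map s.op z.1.2)

theorem gluef_elI (η : (Wr C)ᵒᵖ) (l : SimplexCategoryᵒᵖ) (s : l.unop ⟶ k.unop)
    (ψ : η.unop ⟶ init c) : gluef c z η l s (elI c ψ l) =
      (X.map (Quiver.Hom.op ψ)).app l ((X.obj (op (init c))).map s.op z.1.1) := by
  have h : ∀ t, (Wr.Hom.f (ψ ≫ initMap c) t).1 ≤ r := fun t => initMap_le c _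
  refine (dif_pos h).trans ?_
  exact congrArg (fun u => (X.map (Quiver.Hom.op u)).app l _) (facI_cancel c ψ h)

theorem gluef_elL (η : (Wr C)ᵒᵖ) (l : SimplexCategoryᵒᵖ) (s : l.unop ⟶ k.unop)
    (ψ : η.unop ⟶ seg (c (Fin.last r))) : gluef c z η l s (elL c ψ l) =
      (X.map (Quiver.Hom.op ψ)).app l ((X.obj (op (seg (c (Fin.last r))))).map s.op z.1.2) := by
  by_cases h : ∀ t, (Wr.Hom.f (ψ ≫ lastMap' c) t).1 ≤ r
  · refine (dif_pos h).trans ?_
    have h1 : ∀ t, (Wr.Hom.f ψ t).1 = 0 := fun t => by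
      have : r + (Wr.Hom.f ψ t).1 ≤ r := h t
      omega
    have h2 : ψ = Wr.toPt η.unop ≫ vtx (seg (c (Fin.last r))) 0 :=
      hom_of_const (v := (0 : Fin (1 + 1))) (fun t => Fin.ext (h1 t)) (fun t => rfl)
    have h3 : facI c (ψ ≫ lastMap' c) h = Wr.toPt η.unop ≫ vtx (init c) (Fin.last r) :=
      hom_of_const (v := Fin.last r) (fun t => Fin.ext (by
        show r + (Wr.Hom.f ψ t).1 = r
        rw [h1 t]; rfl)) (fun t => rfl)
    have e1 : (X.map (Quiver.Hom.op (facI c (ψ ≫ lastMap' c) h))).app l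
        ((X.obj (op (init c))).map s.op z.1.1) =
        (X.map (Quiver.Hom.op (Wr.toPt η.unop))).app l ((X.obj (op Wr.pt)).map s.op
          ((X.map (vtx (init c) (Fin.last r)).op).app k z.1.1)) := by
      rw [h3, op_comp, sp_comp, sp_nat]
    have e2 : (X.map (Quiver.Hom.op ψ)).app l
        ((X.obj (op (seg (c (Fin.last r))))).map s.op z.1.2) =
        (X.map (Quiver.Hom.op (Wr.toPt η.unop))).app l ((X.obj (op Wr.pt)).map s.op
          ((X.map (vtx (seg (c (Fin.last r))) 0).op).app k z.1.2)) := by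
      rw [h2, op_comp, sp_comp, sp_nat]
    exact e1.trans ((congrArg (fun w => (X.map (Quiver.Hom.op (Wr.toPt η.unop))).app l
      ((X.obj (op Wr.pt)).map s.op w)) z.2).trans e2.symm)
  · refine (dif_neg h).trans ?_
    exact congrArg (fun u => (X.map (Quiver.Hom.op u)).app l _) (facL_cancel c ψ _)

/-- The simplex of the mapping space glued from a simplex over each of the two generators. -/
def glueS : MpS (binSb c).toSP X k.unop where
  app := gluef c z
  nat_left {η η'} u l s x := by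
    rcases el_cases c x with ⟨ψ, rfl⟩ | ⟨ψ, rfl⟩
    · rw [elI_mapA, gluef_elI, gluef_elI]
      exact sp_comp X (Quiver.Hom.op ψ) u _
    · rw [elL_mapA, gluef_elL, gluef_elL]
      exact sp_comp X (Quiver.Hom.op ψ) u _
  nat_right η l m g s x := by
    rcases el_cases c x with ⟨ψ, rfl⟩ | ⟨ψ, rfl⟩
    · refine (gluef_elI c z η m (g.unop ≫ s) ψ).trans ?_
      rw [gluef_elI]
      refine (congrArg _ (sset_comp _ s.op g z.1.1)).trans ?_
      exact sp_nat X (Quiver.Hom.op ψ) g _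
    · refine (gluef_elL c z η m (g.unop ≫ s) ψ).trans ?_
      rw [gluef_elL]
      refine (congrArg _ (sset_comp _ s.op g z.1.2)).trans ?_
      exact sp_nat X (Quiver.Hom.op ψ) g _

end Glue

/-- `evBin` is an isomorphism. -/
def evBinIso : Mp (binSb c).toSP X ≅ Fp (X.map (vtx (init c) (Fin.last r)).op)
    (X.map (vtx (seg (c (Fin.last r))) 0).op) where
  hom := evBin c X
  inv :=
    { app := fun k => ↾ fun z => (glueS c z : MpS (binSb c).toSP X k.unop)
      naturality := fun k l α => by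
        refine ConcreteCategory.hom_ext _ _ fun z => ?_
        refine MpS.ext ?_
        funext η m s x
        show gluef c _ η m s x = gluef c z η m (s ≫ α.unop) x
        rcases el_cases c x with ⟨ψ, rfl⟩ | ⟨ψ, rfl⟩
        · rw [gluef_elI, gluef_elI]
          exact congrArg _ (sset_comp _ α s.op z.1.1).symm
        · rw [gluef_elL, gluef_elL]
          exact congrArg _ (sset_comp _ α s.op z.1.2).symm }
  hom_inv_id := by
    refine NatTrans.ext (funext fun k => ?_)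
    refine ConcreteCategory.hom_ext _ _ fun (φ : MpS (binSb c).toSP X k.unop) => ?_
    refine MpS.ext ?_
    funext η m s x
    show gluef c ((evBin c X).app k φ) η m s x = φ.app η m s x
    rcases el_cases c x with ⟨ψ, rfl⟩ | ⟨ψ, rfl⟩
    · rw [gluef_elI]
      refine (congrArg ((X.map (Quiver.Hom.op ψ)).app m)
        (φ.nat_right (op (init c)) s.op (𝟙 _) (elI c (𝟙 _) k)).symm).trans ?_
      refine (φ.nat_left (Quiver.Hom.op ψ) m (s.op.unop ≫ 𝟙 _) _).symm.trans ?_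
      have e1 : (s.op.unop ≫ 𝟙 k.unop) = s := Category.comp_id s
      rw [e1]
      refine congrArg (φ.app η m s) ?_
      exact (elI_mapA c (Quiver.Hom.op ψ) (𝟙 _) m).trans
        (congrArg (fun u => elI c u m) (Category.comp_id ψ))
    · rw [gluef_elL]
      refine (congrArg ((X.map (Quiver.Hom.op ψ)).app m)
        (φ.nat_right (op (seg (c (Fin.last r)))) s.op (𝟙 _) (elL c (𝟙 _) k)).symm).trans ?_
      refine (φ.nat_left (Quiver.Hom.op ψ) m (s.op.unop ≫ 𝟙 _) _).symm.trans ?_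
      have e1 : (s.op.unop ≫ 𝟙 k.unop) = s := Category.comp_id s
      rw [e1]
      refine congrArg (φ.app η m s) ?_
      exact (elL_mapA c (Quiver.Hom.op ψ) (𝟙 _) m).trans
        (congrArg (fun u => elL c u m) (Category.comp_id ψ))
  inv_hom_id := by
    refine NatTrans.ext (funext fun k => ?_)
    refine ConcreteCategory.hom_ext _ _ fun z => ?_
    refine Subtype.ext (Prod.ext ?_ ?_)
    · refine (gluef_elI c z (op (init c)) k (𝟙 _) (𝟙 _)).trans ?_
      refine (sp_id X _).trans ?_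
      exact sset_id _ _
    · refine (gluef_elL c z (op (seg (c (Fin.last r)))) k (𝟙 _) (𝟙 _)).trans ?_
      refine (sp_id X _).trans ?_
      exact sset_id _ _

end Init

end

end Pool.Agent.Helper61.FL2
end

/- Helper61.FL2.BSegC -/
section
/-!
Project FL2, module V2 (third part): locality with respect to spines is equivalent to the binary
Segal condition.
-/

open CategoryTheory MonoidalCategory CartesianMonoidalCategory Opposite HomotopicalAlgebra

set_option autoImplicit false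

namespace Pool.Agent.Helper61.FL2

open _root_.FL Pool.Agent.Helper45.LOC Pool.Agent.Helper88.FL Pool.Agent.Helper46.FLb

noncomputable section

variable {C : Type} [SmallCategory C]

/-- The mapping space out of the top sub-presheaf of a representable presheaf. -/
def topIso (X : SP (Wr C)) (θ : Wr C) : X.obj (op θ) ≅ Mp (⊤ : Sb (rep θ)).toSP X where
  hom := yoIn X (op θ) ≫ Mp.pre (⊤ : Sb (rep θ)).ι X
  inv :=
    { app := fun k => ↾ fun (φ : MpS (⊤ : Sb (rep θ)).toSP X k.unop) =>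
        φ.app (op θ) k (𝟙 _) (⟨(𝟙 θ : θ ⟶ θ), trivial⟩ :
          { x : ((rep θ).obj (op θ)).obj k // x ∈ (⊤ : Sb (rep θ)).mem (op θ) k })
      naturality := fun k l α => by
        refine ConcreteCategory.hom_ext _ _ fun (φ : MpS (⊤ : Sb (rep θ)).toSP X k.unop) => ?_
        refine Eq.trans ?_ (φ.nat_right (op θ) α (𝟙 _) _)
        show φ.app _ l (𝟙 _ ≫ α.unop) _ = φ.app _ l (α.unop ≫ 𝟙 _) _
        rw [Category.id_comp, Category.comp_id]
        rfl }
  hom_inv_id := by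
    refine NatTrans.ext (funext fun k => ?_)
    refine ConcreteCategory.hom_ext _ _ fun x => ?_
    show (X.map (Quiver.Hom.op (𝟙 θ))).app k ((X.obj (op θ)).map (𝟙 k.unop).op x) = x
    exact (congrArg _ (sset_id (X.obj (op θ)) x)).trans (sp_id X x)
  inv_hom_id := by
    refine NatTrans.ext (funext fun k => ?_)
    refine ConcreteCategory.hom_ext _ _ fun (φ : MpS (⊤ : Sb (rep θ)).toSP X k.unop) => ?_
    refine MpS.ext ?_
    funext η m s x
    obtain ⟨ψ, hψ⟩ := x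
    show (X.map (Quiver.Hom.op (show η.unop ⟶ θ from ψ))).app m ((X.obj (op θ)).map s.op
      (φ.app (op θ) k (𝟙 _) _)) = φ.app η m s _
    refine (congrArg ((X.map (Quiver.Hom.op (show η.unop ⟶ θ from ψ))).app m)
      (φ.nat_right (op θ) s.op (𝟙 _) _).symm).trans ?_
    refine (φ.nat_left (Quiver.Hom.op (show η.unop ⟶ θ from ψ)) m (s.op.unop ≫ 𝟙 _) _).symm.trans ?_
    have e1 : (s.op.unop ≫ 𝟙 k.unop) = s := Category.comp_id s
    rw [e1]
    exact congrArg (φ.app η m s) (Subtype.ext (Category.comp_id (show η.unop ⟶ θ from ψ)))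

theorem topIso_ev (X : SP (Wr C)) {r : ℕ} (c : Fin (r + 1) → C) (h : binSb c ≤ ⊤) :
    (topIso X ⟨r + 1, c⟩).hom ≫ Mp.pre (Sb.ofLE h) X ≫ (evBinIso c X).hom = binMap X c := by
  refine NatTrans.ext (funext fun k => ?_)
  refine ConcreteCategory.hom_ext _ _ fun x => ?_
  refine Subtype.ext (Prod.ext ?_ ?_)
  · show (X.map (Quiver.Hom.op (𝟙 (init c) ≫ initMap c))).app k
      ((X.obj _).map (𝟙 k.unop).op x) = (X.map (initMap c).op).app k x
    rw [Category.id_comp]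
    exact congrArg _ (sset_id _ x)
  · show (X.map (Quiver.Hom.op (𝟙 (seg (c (Fin.last r))) ≫ lastMap' c))).app k
      ((X.obj _).map (𝟙 k.unop).op x) = (X.map (lastMap' c).op).app k x
    rw [Category.id_comp]
    exact congrArg _ (sset_id _ x)

theorem locT_bin_iff (X : SP (Wr C)) {r : ℕ} (c : Fin (r + 1) → C) :
    LocT X (binSb c) ⊤ ↔ HoEq (binMap X c) := by
  constructor
  · rintro ⟨h, hl⟩
    refine hoEq_of_arrow_iso (topIso X ⟨r + 1, c⟩).symm (evBinIso c X) ?_ hl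
    rw [Iso.symm_hom, ← topIso_ev X c h, Iso.inv_hom_id_assoc]
  · intro hb
    refine ⟨le_top, ?_⟩
    refine hoEq_of_arrow_iso (topIso X ⟨r + 1, c⟩) (evBinIso c X).symm ?_ hb
    rw [← topIso_ev X c le_top, Iso.symm_hom, Category.assoc, Category.assoc, Iso.hom_inv_id,
      Category.comp_id]

/-- The spine as a sub-presheaf. -/
def spS (θ : Wr C) : Sb (rep θ) where
  mem η _ := fun (φ : η.unop ⟶ θ) => (spine θ).arrows φ
  mapA := by
    intro η η' f k φ h
    exact (spine θ).downward_closed h f.unop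
  mapk := by
    intro η k l α φ h
    exact h

theorem range_sieveIncl (θ : Wr C) : Sb.range (sieveIncl (spine θ)) = spS θ := by
  refine Sb.ext (funext fun η => funext fun k => Set.ext fun φ => ⟨?_, ?_⟩)
  · rintro ⟨y, rfl⟩
    exact y.2
  · intro h
    exact ⟨⟨φ, h⟩, rfl⟩

/-- The sub-presheaf of the representable presheaf of `[r+1](c)` generated by `[r](c)`. -/
def iS {r : ℕ} (c : Fin (r + 1) → C) : Sb (rep (⟨r + 1, c⟩ : Wr C)) where
  mem η _ := fun (φ : η.unop ⟶ (⟨r + 1, c⟩ : Wr C)) => ∀ t, (Wr.Hom.f φ t).1 ≤ r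
  mapA := by
    intro η η' f k φ h t
    exact h _
  mapk := by
    intro η k l α φ h
    exact h

theorem iS_le_range {r : ℕ} (c : Fin (r + 1) → C) : iS c ≤ Sb.range (repMap (initMap c)) := by
  intro η k φ h
  exact ⟨facI c φ h, facI_comp c φ h⟩

theorem iS_comap {r : ℕ} (c : Fin (r + 1) → C) : (iS c).comap (repMap (initMap c)) = ⊤ := by
  refine Sb.ext (funext fun η => funext fun k => Set.ext fun ψ => ⟨fun _ => trivial, fun _ => ?_⟩)
  intro t
  exact initMap_le c _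

theorem spS_sup {r : ℕ} (c : Fin (r + 1) → C) : spS (⟨r + 1, c⟩ : Wr C) ⊔ iS c = binSb c := by
  refine Sb.ext (funext fun η => funext fun k => Set.ext fun (φ : η.unop ⟶ ⟨r + 1, c⟩) => ⟨?_, ?_⟩)
  · rintro ((⟨v, hv⟩ | ⟨i, hi⟩) | h)
    · by_cases hr : v.1 ≤ r
      · exact Or.inl fun t => by rw [hv t]; exact hr
      · exact Or.inr fun t => by rw [hv t]; omega
    · by_cases hr : i.1 < r
      · refine Or.inl fun t => ?_
        rcases hi t with h1 | h1
        · rw [h1]; exact hr.le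
        · rw [h1]; exact hr
      · refine Or.inr fun t => ?_
        rcases hi t with h1 | h1
        · rw [h1]; exact not_lt.mp hr
        · rw [h1]; exact (not_lt.mp hr).trans (Nat.le_succ _)
    · exact Or.inl h
  · rintro (h | h)
    · exact Or.inr h
    · refine Or.inl (Or.inr ⟨Fin.last r, fun t => ?_⟩)
      have h1 := h t
      have h2 : (Wr.Hom.f φ t).1 < r + 1 + 1 := (Wr.Hom.f φ t).2
      by_cases h3 : (Wr.Hom.f φ t).1 = r
      · exact Or.inl (Fin.ext h3)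
      · refine Or.inr (Fin.ext ?_)
        show (Wr.Hom.f φ t).1 = r + 1
        omega

theorem spS_comap {r : ℕ} (c : Fin (r + 1) → C) :
    (spS (⟨r + 1, c⟩ : Wr C) ⊓ iS c).comap (repMap (initMap c)) = spS (init c) := by
  refine Sb.ext (funext fun η => funext fun k => Set.ext fun (ψ : η.unop ⟶ init c) => ⟨?_, ?_⟩)
  · rintro ⟨(⟨v, hv⟩ | ⟨i, hi⟩), -⟩
    · refine Or.inl ⟨Wr.Hom.f ψ 0, fun t => Fin.ext ?_⟩
      have h1 : (Wr.Hom.f ψ t).1 = v.1 := congrArg Fin.val (hv t)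
      have h2 : (Wr.Hom.f ψ 0).1 = v.1 := congrArg Fin.val (hv 0)
      exact h1.trans h2.symm
    · have hi' : ∀ t, (Wr.Hom.f ψ t).1 = i.1 ∨ (Wr.Hom.f ψ t).1 = i.1 + 1 := fun t => by
        rcases hi t with h1 | h1
        · have h3 := congrArg Fin.val h1
          exact Or.inl h3
        · have h3 := congrArg Fin.val h1
          exact Or.inr h3
      by_cases hr : i.1 < r
      · refine Or.inr ⟨⟨i.1, hr⟩, fun t => ?_⟩
        exact (hi' t).imp (fun h => Fin.ext h) fun h => Fin.ext h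
      · refine Or.inl ⟨Fin.last r, fun t => Fin.ext ?_⟩
        have h1 : (Wr.Hom.f ψ t).1 < r + 1 := (Wr.Hom.f ψ t).2
        have h2 := hi' t
        show (Wr.Hom.f ψ t).1 = r
        omega
  · rintro (⟨v, hv⟩ | ⟨i, hi⟩)
    · refine ⟨Or.inl ⟨v.castSucc, fun t => Fin.ext ?_⟩, fun t => initMap_le c _⟩
      have h1 : (Wr.Hom.f ψ t).1 = v.1 := congrArg Fin.val (hv t)
      exact h1
    · refine ⟨Or.inr ⟨i.castSucc, fun t => ?_⟩, fun t => initMap_le c _⟩
      rcases hi t with h1 | h1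
      · have h2 : (Wr.Hom.f ψ t).1 = i.1 := congrArg Fin.val h1
        exact Or.inl (Fin.ext h2)
      · have h2 : (Wr.Hom.f ψ t).1 = i.1 + 1 := congrArg Fin.val h1
        exact Or.inr (Fin.ext h2)

theorem mono_repMap_init {r : ℕ} (c : Fin (r + 1) → C) (a : (Wr C)ᵒᵖ) :
    Mono ((repMap (initMap c)).app a) := by
  have : Mono (initMap c) := ⟨fun _ _ e => initMap_cancel c e⟩
  infer_instance

theorem locT_spS_bin {X : SP (Wr C)} (hX : InjFib X) {r : ℕ} (c : Fin (r + 1) → C)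
    (h : LocT X (spS (init c)) ⊤) : LocT X (spS (⟨r + 1, c⟩ : Wr C)) (binSb c) := by
  have h1 : LocT X (spS (⟨r + 1, c⟩ : Wr C) ⊓ iS c) (iS c) := by
    rw [← locT_comap (repMap (initMap c)) (mono_repMap_init c) _ _ inf_le_right (iS_le_range c),
      spS_comap, iS_comap]
    exact h
  have h2 := locT_push hX h1
  rwa [spS_sup] at h2

theorem spS_zero (c : Fin 0 → C) : spS (⟨0, c⟩ : Wr C) = ⊤ := by
  refine Sb.ext (funext fun η => funext fun k => Set.ext fun (φ : η.unop ⟶ ⟨0, c⟩) =>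
    ⟨fun _ => trivial, fun _ => Or.inl ⟨0, fun t => ?_⟩⟩)
  exact Fin.ext (Nat.lt_one_iff.mp (Wr.Hom.f φ t).2)

theorem mono_sieveIncl (θ : Wr C) (a : (Wr C)ᵒᵖ) : Mono ((sieveIncl (spine θ)).app a) := by
  infer_instance

theorem spLoc_iff_spS {X : SP (Wr C)} : SpLoc X ↔ ∀ θ : Wr C, LocT X (spS θ) ⊤ := by
  refine forall_congr' fun θ => ?_
  rw [loc_iff_range _ (mono_sieveIncl θ), range_sieveIncl]

theorem spLoc_iff {X : SP (Wr C)} (hX : InjFib X) : SpLoc X ↔ BSeg X := by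
  rw [spLoc_iff_spS]
  constructor
  · intro h r c
    exact (locT_bin_iff X c).mp (locT_cancel hX (locT_spS_bin hX c (h _)) (h _) le_top)
  · intro h
    have key : ∀ (r : ℕ) (c : Fin r → C), LocT X (spS (⟨r, c⟩ : Wr C)) ⊤ := by
      intro r
      induction r with
      | zero =>
        intro c
        rw [spS_zero]
        exact locT_refl _
      | succ r ih =>
        intro c
        exact locT_trans hX (locT_spS_bin hX c (ih _)) ((locT_bin_iff X c).mpr (h r c))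
    intro θ
    exact key θ.len θ.obj

end

end Pool.Agent.Helper61.FL2
end

/- Helper25.FL2.TrSgAux -/
section
/-!
# FL2-F1a: truncated presheaves, first part (presheaves on a wreath product)
-/

open CategoryTheory MonoidalCategory Opposite CartesianMonoidalCategory

set_option autoImplicit false

namespace Pool.Agent.Helper25.FL2

open FL Pool.Agent.Helper88.FL Pool.Agent.Helper54.FL2

theorem fst_kanFib {E B : SSet.{0}} (hB : SSet.KanComplex B) : KanFib (fst E B) := by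
  intro n i
  have hl := kanFib_toUnit hB n i
  refine ⟨fun {u v} sq => ?_⟩
  have sq' : CommSq (u ≫ snd E B) (SSet.horn.{0} (n + 1) i).ι (toUnit B) (toUnit _) :=
    ⟨toUnit_unique _ _⟩
  refine ⟨⟨{ l := lift v sq'.lift, fac_left := ?_, fac_right := lift_fst _ _ }⟩⟩
  refine CartesianMonoidalCategory.hom_ext _ _ ?_ ?_
  · rw [Category.assoc, lift_fst]
    exact sq.w.symm
  · rw [Category.assoc, lift_snd]
    exact sq'.fac_left

section Const

variable {C : Type} [SmallCategory C] {Z : SP (Wr C)}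

/-- In a constant presheaf all restriction maps are equivalences. -/
theorem map_hoEq (hZ : InjFib Z) (h : ∀ θ : Wr C, HoEq (Z.map (Wr.toPt θ).op)) {θ θ' : Wr C}
    (φ : θ ⟶ θ') : HoEq (Z.map φ.op) := by
  have hK := Pool.Agent.Helper91.FL2.objKan_of_injFib hZ
  refine hoEq_of_comp_left (hK _) (hK _) (hK _) (h θ') ?_
  rw [← Z.map_comp, ← op_comp, Wr.toPt_unique (φ ≫ Wr.toPt θ') (Wr.toPt θ)]
  exact h θ

theorem bSeg_of_const (hZ : InjFib Z) (h : ∀ θ : Wr C, HoEq (Z.map (Wr.toPt θ).op)) :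
    BSeg Z := by
  intro r c
  have hK := Pool.Agent.Helper91.FL2.objKan_of_injFib hZ
  have hq : KanFib (Z.map (vtx (seg (c (Fin.last r))) 0).op) := by
    have e : Z.map (vtx (seg (c (Fin.last r))) 0).op =
        ends Z (c (Fin.last r)) ≫ fst _ _ := (lift_fst _ _).symm
    rw [e]
    exact kanFib_comp (Helper53FL2.ends_kanFib hZ _) (fst_kanFib (hK _))
  have hq' : TrivFib (Z.map (vtx (seg (c (Fin.last r))) 0).op) :=
    Pool.Agent.Helper45.FL2.trivFib_of_hoEq (hK _) (hK _) hq (map_hoEq hZ h _)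
  have hf : HoEq (Fp.fst (Z.map (vtx (init c) (Fin.last r)).op)
      (Z.map (vtx (seg (c (Fin.last r))) 0).op)) :=
    Pool.Agent.Helper45.FL2.TrivFib.hoEq (Fp_fst_trivFib _ _ hq')
  have hKF := kan_total (Fp_fst_kanFib (Z.map (vtx (init c) (Fin.last r)).op)
      (Z.map (vtx (seg (c (Fin.last r))) 0).op) hq) (hK _)
  refine hoEq_of_comp_right (hK _) hKF (hK _) hf ?_
  have e : binMap Z c ≫ Fp.fst (Z.map (vtx (init c) (Fin.last r)).op)
      (Z.map (vtx (seg (c (Fin.last r))) 0).op) = Z.map (initMap c).op := Fp_lift_fst _ _ _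
  rw [e]
  exact map_hoEq hZ h _

theorem Hm_map_hoEq (hZ : InjFib Z) (h : ∀ θ : Wr C, HoEq (Z.map (Wr.toPt θ).op)) (x y : Vt Z)
    {c c' : C} (u : c ⟶ c') : HoEq ((Hm Z x y).map u.op) :=
  Fb_map_hoEq (Helper53FL2.ends_kanFib hZ c') (Helper53FL2.ends_kanFib hZ c)
    (Helper53FL2.kan_pt2 hZ) (Helper53FL2.kan_pt2 hZ) (Z.map (segMap u).op) (𝟙 _)
    ((ends_nat Z u).trans (Category.comp_id _).symm) (map_hoEq hZ h _) (hoEq_of_isIso _) (x, y)

end Const

section Tr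

variable {C : Type} [SmallCategory C] (F : C ⥤ C) (τ : 𝟭 C ⟶ F) (X : SP (Wr C))

lemma toPt_vtx (θ : Wr C) (i : Fin (θ.len + 1)) :
    Wr.toPt ((Wr.map F).obj Wr.pt) ≫ vtx ((Wr.map F).obj θ) i = (Wr.map F).map (vtx θ i) :=
  hom_ext_zero (c := fun i => F.obj ((Wr.pt : Wr C).obj i)) rfl

lemma unit_vtx' (θ : Wr C) (i : Fin (θ.len + 1)) :
    (Wr.mapIdNat τ).app Wr.pt ≫ (Wr.map F).map (vtx θ i) = vtx ((Wr.map F).obj θ) i :=
  hom_ext_zero (c := Fin.elim0) rfl

lemma map_initMap {r : ℕ} (c : Fin (r + 1) → C) :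
    (Wr.map F).map (initMap c) = initMap fun i => F.obj (c i) :=
  Wr.hom_ext' rfl fun (i : Fin r) (j : Fin (r + 1)) h _ => eqToHom_map F (by
    have h1 : i.1 ≤ j.1 := h.1
    have h2 : j.1 + 1 ≤ i.1 + 1 := h.2
    refine congrArg c (Fin.ext ?_)
    show i.1 = j.1
    omega)

lemma map_lastMap {r : ℕ} (c : Fin (r + 1) → C) :
    (Wr.map F).map (lastMap' c) = lastMap' fun i => F.obj (c i) :=
  Wr.hom_ext' rfl fun (i : Fin 1) (j : Fin (r + 1)) h _ => eqToHom_map F (by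
    have h1 : r + i.1 ≤ j.1 := h.1
    refine congrArg c (Fin.ext ?_)
    have h2 : j.1 < r + 1 := j.2
    show r = j.1
    omega)

include τ in
lemma isIso_toPt : IsIso (Wr.toPt ((Wr.map F).obj (Wr.pt : Wr C))) :=
  ⟨(Wr.mapIdNat τ).app Wr.pt, toPt_unit F τ, unit_toPt F τ⟩

include τ in
theorem vfib_tr (hX : VFib X) : VFib ((Wr.map F).op ⋙ X) := by
  refine ⟨fun a => hX.1 _, fun c => ?_⟩
  have := isIso_toPt F τ
  have e : ends ((Wr.map F).op ⋙ X) c = ends X (F.obj c) ≫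
      (X.map (Wr.toPt ((Wr.map F).obj (Wr.pt : Wr C))).op ⊗ₘ
        X.map (Wr.toPt ((Wr.map F).obj (Wr.pt : Wr C))).op) := by
    refine NatTrans.ext (funext fun k => ?_)
    refine ConcreteCategory.hom_ext _ _ fun z => ?_
    have key : ∀ i : Fin 2, (X.map ((Wr.map F).map (vtx (seg c) i)).op).app k z =
        (X.map (Wr.toPt ((Wr.map F).obj (Wr.pt : Wr C))).op).app k
          ((X.map (vtx (seg (F.obj c)) i).op).app k z) := by
      intro i
      refine Eq.trans ?_ (sp_comp X (vtx (seg (F.obj c)) i).op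
        (Wr.toPt ((Wr.map F).obj (Wr.pt : Wr C))).op z)
      exact congrArg (fun t => (X.map (Quiver.Hom.op t)).app k z) (toPt_vtx F (seg c) i).symm
    exact Prod.ext (key 0) (key 1)
  rw [e]
  exact kanFib_comp (hX.2 _) (Helper53FL2.kanFib_of_isIso _)

/-- The comparison of the fibre products. -/
noncomputable def fpIso {r : ℕ} (c : Fin (r + 1) → C) :
    Fp (X.map (vtx (init fun i => F.obj (c i)) (Fin.last r)).op)
        (X.map (vtx (seg (F.obj (c (Fin.last r)))) 0).op) ≅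
      Fp (((Wr.map F).op ⋙ X).map (vtx (init c) (Fin.last r)).op)
        (((Wr.map F).op ⋙ X).map (vtx (seg (c (Fin.last r))) 0).op) where
  hom := Fp.map (𝟙 _) (𝟙 _) (X.map (Wr.toPt ((Wr.map F).obj (Wr.pt : Wr C))).op)
    ((Category.id_comp _).trans ((congrArg (fun t => X.map (Quiver.Hom.op t))
      (toPt_vtx F (init c) (Fin.last r)).symm).trans (X.map_comp _ _)))
    ((Category.id_comp _).trans ((congrArg (fun t => X.map (Quiver.Hom.op t))
      (toPt_vtx F (seg (c (Fin.last r))) 0).symm).trans (X.map_comp _ _)))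
  inv := Fp.map (𝟙 _) (𝟙 _) (X.map ((Wr.mapIdNat τ).app (Wr.pt : Wr C)).op)
    ((Category.id_comp _).trans ((congrArg (fun t => X.map (Quiver.Hom.op t))
      (unit_vtx' F τ (init c) (Fin.last r)).symm).trans (X.map_comp _ _)))
    ((Category.id_comp _).trans ((congrArg (fun t => X.map (Quiver.Hom.op t))
      (unit_vtx' F τ (seg (c (Fin.last r))) 0).symm).trans (X.map_comp _ _)))
  hom_inv_id := rfl
  inv_hom_id := rfl

include τ in
theorem bSeg_tr (hX : BSeg X) : BSeg ((Wr.map F).op ⋙ X) := by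
  intro r c
  refine hoEq_of_arrow_iso (Iso.refl _) (fpIso F τ X c) ?_ (hX r fun i => F.obj (c i))
  refine NatTrans.ext (funext fun k => ?_)
  refine ConcreteCategory.hom_ext _ _ fun z => ?_
  refine Subtype.ext (Prod.ext ?_ ?_)
  · exact congrArg (fun t => (X.map (Quiver.Hom.op t)).app k z) (map_initMap F c).symm
  · exact congrArg (fun t => (X.map (Quiver.Hom.op t)).app k z) (map_lastMap F c).symm

end Tr

end Pool.Agent.Helper25.FL2
end

/- Helper41.FL2.V5 -/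
section
/-!
# FL2-V5: injectively fibrant replacement and mapping presheaves
-/

open CategoryTheory MonoidalCategory Opposite HomotopicalAlgebra

set_option autoImplicit false

namespace Helper41FL2

open FL Pool.Agent.Helper61.FL2 Helper53FL2

/-- The constant map. -/
def cstMap (K : SSet.{0}) {B : SSet.{0}} (b : B.obj (op (SimplexCategory.mk 0))) : K ⟶ B where
  app k := ↾ fun _ => FL.cst B b k
  naturality k l α := by
    refine ConcreteCategory.hom_ext _ _ fun z => ?_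
    exact (cst_map B b α).symm

/-- The fibres of a Kan fibration are Kan complexes. -/
theorem Fb_kan' {E B : SSet.{0}} {p : E ⟶ B} (hp : KanFib p)
    (b : B.obj (op (SimplexCategory.mk 0))) : SSet.KanComplex (Fb p b) := by
  refine Pool.Agent.Helper83.FL4.kan_of_lift fun n i t => ?_
  have h := hp n i
  have sq : CommSq (t ≫ Fb.ι p b) (SSet.horn (n + 1) i).ι p (cstMap _ b) := ⟨by
    refine NatTrans.ext (funext fun k => ?_)
    refine ConcreteCategory.hom_ext _ _ fun z => ?_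
    exact (t.app k z).2⟩
  refine ⟨{ app := fun k => ↾ fun z => ⟨sq.lift.app k z,
              ConcreteCategory.congr_hom (NatTrans.congr_app sq.fac_right k) z⟩
            naturality := fun k l α => ?_ }, ?_⟩
  · refine ConcreteCategory.hom_ext _ _ fun z => ?_
    exact Subtype.ext (sset_nat sq.lift α z)
  · refine NatTrans.ext (funext fun k => ?_)
    refine ConcreteCategory.hom_ext _ _ fun z => ?_
    have e := ConcreteCategory.congr_hom (NatTrans.congr_app sq.fac_left k) z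
    exact Subtype.ext e

section

variable {C : Type} [SmallCategory C]

theorem Hm_objKan {A : SP (Wr C)} (hA : VFib A) (x y : Vt A) : ObjKan (Hm A x y) :=
  fun c => Fb_kan' (hA.2 c.unop) (x, y)

theorem RR_vt {A : SP (Wr C)} (hA : ObjKan A) (z : Vt ((RR (Wr C)).obj A)) :
    ∃ x : Vt A, Cn (((RR (Wr C)).obj A).obj (op Wr.pt)) (vtMap ((RR (Wr C)).η A) x) z := by
  obtain ⟨g, -, h2⟩ := RR_objHoEq hA (op Wr.pt)
  exact ⟨g.app _ z, Pool.Agent.Helper91.FL2.cn_of_htpy h2 z⟩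

theorem exists_HmRR {A : SP (Wr C)} (hA : VFib A) (x y : Vt A) :
    ∃ g : (RR C).obj (Hm A x y) ⟶
      Hm ((RR (Wr C)).obj A) (vtMap ((RR (Wr C)).η A) x) (vtMap ((RR (Wr C)).η A) y),
      (RR C).η (Hm A x y) ≫ g = HmMap ((RR (Wr C)).η A) x y ∧ ObjHoEq g := by
  have h1 : ObjKan (Hm A x y) := Hm_objKan hA x y
  have h2 : InjFib ((RR (Wr C)).obj A) := RR_injFib hA.1
  have h3 := Hm_injFib h2 (vtMap ((RR (Wr C)).η A) x) (vtMap ((RR (Wr C)).η A) y)
  obtain ⟨g, hg⟩ := h3 ((RR C).η (Hm A x y)) (RR_trivCof h1) (HmMap ((RR (Wr C)).η A) x y)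
  refine ⟨g, hg, fun c => ?_⟩
  have h4 := HmMap_objHoEq hA (Helper53FL2.InjFib.vfib h2) (RR_objHoEq hA.1) x y c
  have e : ((RR C).η (Hm A x y)).app c ≫ g.app c = (HmMap ((RR (Wr C)).η A) x y).app c :=
    NatTrans.congr_app hg c
  refine Pool.Agent.Helper88.FL.hoEq_of_comp_left (h1 c) (RR_objKan h1 c)
    (Pool.Agent.Helper91.FL2.objKan_of_injFib h3 c) (RR_objHoEq h1 c) ?_
  rw [e]
  exact h4

end

theorem sg_RR {n : ℕ} {A : SP (Th (n + 1))} (hV : VFib (C := Th n) A)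
    (hB : BSeg (C := Th n) A)
    (hH : ∀ x y : Vt (C := Th n) A, Sg n ((RR (Th n)).obj (Hm (C := Th n) A x y))) :
    Sg (n + 1) ((RR (Th (n + 1))).obj A) := by
  have h2 : InjFib ((RR (Th (n + 1))).obj A) := RR_injFib hV.1
  refine (sg_succ_iff h2 (Set.range (vtMap (C := Th n) ((RR (Th (n + 1))).η A))) fun z => ?_).2
    ⟨?_, ?_⟩
  · obtain ⟨x, hx⟩ := RR_vt (C := Th n) hV.1 z
    exact ⟨_, ⟨x, rfl⟩, hx⟩
  · exact (spLoc_iff (C := Th n) h2).2 (bSeg_of_objHoEq (C := Th n) hV (Helper53FL2.InjFib.vfib h2)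
      (RR_objHoEq hV.1) hB)
  · rintro _ ⟨x, rfl⟩ _ ⟨y, rfl⟩
    obtain ⟨g, -, hg⟩ := exists_HmRR (C := Th n) hV x y
    exact (sg_of_objHoEq (RR_injFib (Hm_objKan hV x y)) (Hm_injFib (C := Th n) h2 _ _) hg).1
      (hH x y)

theorem cj_RR {n j : ℕ} {A : SP (Th (n + 1))} (hV : VFib (C := Th n) A)
    (hH : ∀ x y : Vt (C := Th n) A, Cj n j ((RR (Th n)).obj (Hm (C := Th n) A x y))) :
    Cj (n + 1) (j + 1) ((RR (Th (n + 1))).obj A) := by
  have h2 : InjFib ((RR (Th (n + 1))).obj A) := RR_injFib hV.1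
  refine (cj_succ_iff h2 (Set.range (vtMap (C := Th n) ((RR (Th (n + 1))).η A))) fun z => ?_).2 ?_
  · obtain ⟨x, hx⟩ := RR_vt (C := Th n) hV.1 z
    exact ⟨_, ⟨x, rfl⟩, hx⟩
  · rintro _ ⟨x, rfl⟩ _ ⟨y, rfl⟩
    obtain ⟨g, -, hg⟩ := exists_HmRR (C := Th n) hV x y
    exact (cj_of_objHoEq (RR_injFib (Hm_objKan hV x y)) (Hm_injFib (C := Th n) h2 _ _) hg).1
      (hH x y)

end Helper41FL2
end

/- Helper25.FL2.TrSg -/
section
open CategoryTheory MonoidalCategory Opposite CartesianMonoidalCategory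

set_option autoImplicit false

namespace Pool.Agent.Helper25.FL2

open FL Pool.Agent.Helper88.FL Pool.Agent.Helper54.FL2
open Pool.Agent.Helper61.FL2 (spLoc_iff)
open Helper41FL2 (sg_succ_iff cj_succ_iff cj_zero_iff isCat_iff sg_of_objHoEq sg_RR)

theorem isCat_of_truncated_zero : ∀ {n : ℕ} {Z : SP (Th n)} (_ : InjFib Z) (_ : Truncated 0 Z),
    IsCat n Z
  | 0, Z, hZ, _ => isCat_iff.2 ⟨⟨hZ, fun θ S hS => by cases hS⟩, fun j P Q f hf => by cases hf⟩
  | n + 1, Z, hZ, h => by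
    have h' : ∀ θ : Wr (Th n), HoEq (Z.map (Wr.toPt θ).op) := fun θ => h θ
    have hH : ∀ x y : Vt (C := Th n) Z, IsCat n (Hm (C := Th n) Z x y) := fun x y =>
      isCat_of_truncated_zero (Helper53FL2.Hm_injFib hZ x y) fun c =>
        Hm_map_hoEq (C := Th n) hZ h' x y ((trUnit n 0).app c)
    have hO : ∀ z : Vt (C := Th n) Z, ∃ x ∈ (Set.univ : Set (Vt (C := Th n) Z)),
        Cn (Z.obj (op (ptT (n + 1)))) x z := fun z => ⟨z, trivial, cn_refl z⟩
    refine isCat_iff.2 ⟨(sg_succ_iff hZ Set.univ hO).2 ⟨(spLoc_iff hZ).2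
      (bSeg_of_const (C := Th n) hZ h'), fun x _ y _ => (isCat_iff.1 (hH x y)).1⟩, fun j => ?_⟩
    cases j with
    | zero => exact cj_zero_iff.2 (iso_local_const hZ h')
    | succ j => exact (cj_succ_iff hZ Set.univ hO).2 fun x _ y _ => (isCat_iff.1 (hH x y)).2 j

theorem sg_tr : ∀ {n : ℕ} {X : SP (Th n)} (_ : Sg n X) (i : ℕ),
    Sg n ((RR (Th n)).obj ((tr n i).op ⋙ X))
  | 0, X, hX, i => ⟨Helper41FL2.RR_injFib fun a =>
      Pool.Agent.Helper91.FL2.objKan_of_injFib hX.1 _, fun θ S hS => by cases hS⟩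
  | n + 1, X, hX, 0 => by
    have hK := Pool.Agent.Helper91.FL2.objKan_of_injFib hX.1
    have hA : ObjKan ((tr (n + 1) 0).op ⋙ X) := fun a => hK _
    refine (isCat_iff.1 (isCat_of_truncated_zero (Helper41FL2.RR_injFib hA) fun θ => ?_)).1
    have hη := Helper41FL2.RR_objHoEq hA
    have hK' := Helper41FL2.RR_objKan hA
    have e := ((RR (Th (n + 1))).η ((tr (n + 1) 0).op ⋙ X)).naturality
      ((trUnit (n + 1) 0).app θ).op
    have e1 : ((tr (n + 1) 0).op ⋙ X).map ((trUnit (n + 1) 0).app θ).op =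
        𝟙 (X.obj (op (ptT (n + 1)))) := X.map_id _
    have e2 : ((tr (n + 1) 0).op ⋙ X).map ((trUnit (n + 1) 0).app θ).op ≫
        ((RR (Th (n + 1))).η ((tr (n + 1) 0).op ⋙ X)).app (op θ) =
        ((RR (Th (n + 1))).η ((tr (n + 1) 0).op ⋙ X)).app (op θ) :=
      (congrArg (fun t : X.obj (op (ptT (n + 1))) ⟶ X.obj (op (ptT (n + 1))) =>
        t ≫ (((RR (Th (n + 1))).η ((tr (n + 1) 0).op ⋙ X)).app (op θ) :
          X.obj (op (ptT (n + 1))) ⟶ _)) e1).trans (Category.id_comp _)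
    refine hoEq_of_comp_left (hA _) (hK' _) (hK' _) (hη _) ?_
    have e3 := e2.symm.trans e
    exact e3 ▸ hη (op θ)
  | n + 1, X, hX, i + 1 => by
    have hO : ∀ z : Vt (C := Th n) X, ∃ x ∈ (Set.univ : Set (Vt (C := Th n) X)),
        Cn (X.obj (op (ptT (n + 1)))) x z := fun z => ⟨z, trivial, cn_refl z⟩
    have hS := (sg_succ_iff hX.1 Set.univ hO).1 hX
    have hV : VFib (C := Th n) ((tr (n + 1) (i + 1)).op ⋙ X) :=
      vfib_tr (C := Th n) (tr n i) (trUnit n i) X (Helper53FL2.InjFib.vfib hX.1)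
    have hB : BSeg (C := Th n) ((tr (n + 1) (i + 1)).op ⋙ X) :=
      bSeg_tr (C := Th n) (tr n i) (trUnit n i) X ((spLoc_iff hX.1).1 hS.1)
    refine sg_RR hV hB fun x y => ?_
    let e := hmIso (C := Th n) (tr n i) (trUnit n i) X x y
    have hH := hS.2 (vu (C := Th n) (tr n i) (trUnit n i) X x) trivial
      (vu (C := Th n) (tr n i) (trUnit n i) X y) trivial
    have h1 : ObjKan (Hm (C := Th n) ((tr (n + 1) (i + 1)).op ⋙ X) x y) := fun c =>
      kan_fb (hV.2 c.unop) (x, y)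
    have h2 : ObjKan ((tr n i).op ⋙ Hm (C := Th n) X
        (vu (C := Th n) (tr n i) (trUnit n i) X x)
        (vu (C := Th n) (tr n i) (trUnit n i) X y)) := fun c =>
      Pool.Agent.Helper91.FL2.objKan_of_injFib hH.1 _
    exact (sg_of_objHoEq (Helper41FL2.RR_injFib h1) (Helper41FL2.RR_injFib h2)
      (Helper41FL2.RR_map_objHoEq h1 h2 (f := e.hom) fun c => hoEq_of_isIso (e.hom.app c))).2
      (sg_tr hH i)

end Pool.Agent.Helper25.FL2
end

/- Helper25.FL2.HmKfAux -/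
section
/-!
# FL2-C3: mapping presheaves of the completions at level `≥ 1` (given the suspension adjunction)
-/

open CategoryTheory MonoidalCategory Opposite

set_option autoImplicit false

namespace Pool.Agent.Helper25.FL2

open FL

variable {C : Type} [SmallCategory C]

/-- The simplex of `V[0]`. -/
def u0 (Z : Fin 0 → SP C) (θ : Wr C) (k : SimplexCategoryᵒᵖ) : VS Z θ k where
  f := ⟨fun _ => 0, fun _ _ _ => le_refl _⟩
  g _ j := j.elim0

lemma vs_zero {Z : Fin 0 → SP C} {θ : Wr C} {k : SimplexCategoryᵒᵖ} (u v : VS Z θ k) : u = v :=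
  VS.ext' (by ext x; exact congrArg Fin.val (Subsingleton.elim (α := Fin 1) _ _))
    fun _ j => j.elim0

lemma mps_pt {Z : Fin 0 → SP C} {X : SP (Wr C)} {m : SimplexCategory} (φ : MpS (V Z) X m)
    (θ : (Wr C)ᵒᵖ) (l : SimplexCategoryᵒᵖ) (s : l.unop ⟶ m) (u : VS Z θ.unop l) :
    φ.app θ l s u = (X.map (Wr.toPt θ.unop).op).app l ((X.obj (op Wr.pt)).map s.op
      (φ.app (op Wr.pt) (op m) (𝟙 m) (u0 Z Wr.pt (op m)))) := by
  have h1 : u = ((V Z).map (Wr.toPt θ.unop).op).app l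
      (((V Z).obj (op Wr.pt)).map s.op (u0 Z Wr.pt (op m))) := vs_zero _ _
  rw [h1]
  refine (φ.nat_left (Wr.toPt θ.unop).op l s _).trans ?_
  refine congrArg ((X.map (Wr.toPt θ.unop).op).app l) ?_
  refine Eq.trans ?_ (φ.nat_right (op Wr.pt) s.op (𝟙 m) (u0 Z Wr.pt (op m)))
  exact congrArg (fun t => φ.app (op Wr.pt) l t _) (Category.comp_id s).symm

/-- The letters of the frame `VFr T` at `[0]`. -/
abbrev Zf (T : Fr C) (m : SimplexCategory) : Fin 0 → SP C :=
  fun i => (T.obj ((Wr.pt : Wr C).obj i)).obj m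

/-- Evaluation at the vertex. -/
noncomputable def evp (T : Fr C) (X : SP (Wr C)) :
    (Kf (VFr T) X).obj (op Wr.pt) ⟶ X.obj (op Wr.pt) where
  app k := ↾ fun (φ : MpS (V (Zf T k.unop)) X k.unop) =>
    φ.app (op Wr.pt) k (𝟙 _) (u0 (Zf T k.unop) Wr.pt k)
  naturality k l α := by
    refine ConcreteCategory.hom_ext _ _ fun (φ : MpS (V (Zf T k.unop)) X k.unop) => ?_
    refine (mps_pt φ (op Wr.pt) l (𝟙 _ ≫ α.unop) _).trans ?_
    refine (congrArg (fun t => (X.map (Quiver.Hom.op t)).app l _)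
      (Wr.toPt_unique (Wr.toPt (Wr.pt : Wr C)) (𝟙 _))).trans ?_
    refine (sp_id X _).trans ?_
    exact congrArg (fun t => (X.obj (op Wr.pt)).map (Quiver.Hom.op t) _)
      (Category.id_comp α.unop)

lemma evp_inj (T : Fr C) (X : SP (Wr C)) (k : SimplexCategoryᵒᵖ) :
    Function.Injective ((evp T X).app k) := by
  intro (φ : MpS (V (Zf T k.unop)) X k.unop) (ψ : MpS (V (Zf T k.unop)) X k.unop) h
  refine MpS.ext ?_
  funext θ l s u
  refine (mps_pt φ θ l s u).trans (Eq.trans ?_ (mps_pt ψ θ l s u).symm)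
  exact congrArg (fun t => (X.map (Wr.toPt θ.unop).op).app l ((X.obj (op Wr.pt)).map s.op t)) h

lemma evp_eta (T : Fr C) (τ : T ⟶ yoFr C) (X : SP (Wr C)) (k : SimplexCategoryᵒᵖ)
    (x : (X.obj (op Wr.pt)).obj k) :
    (evp T X).app k ((((SFun.ofFrame (VFr T) (VFrAug τ)).η X).app (op Wr.pt)).app k x) = x := by
  have e : ∀ t : (Wr.pt : Wr C) ⟶ Wr.pt,
      (X.map t.op).app k ((X.obj (op Wr.pt)).map (𝟙 k.unop).op x) = x := by
    intro t
    rw [Wr.toPt_unique t (𝟙 _)]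
    exact (sp_id X _).trans (sset_id _ x)
  exact e _

theorem VFr_pt_isIso (T : Fr C) (τ : T ⟶ yoFr C) (X : SP (Wr C)) :
    IsIso (((SFun.ofFrame (VFr T) (VFrAug τ)).η X).app (op Wr.pt)) := by
  have h1 : ((SFun.ofFrame (VFr T) (VFrAug τ)).η X).app (op Wr.pt) ≫ evp T X = 𝟙 _ := by
    refine NatTrans.ext (funext fun k => ?_)
    refine ConcreteCategory.hom_ext _ _ fun x => ?_
    exact evp_eta T τ X k x
  refine ⟨evp T X, h1, ?_⟩
  refine NatTrans.ext (funext fun k => ?_)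
  refine ConcreteCategory.hom_ext _ _ fun φ => ?_
  refine evp_inj T X k ?_
  exact evp_eta T τ X k ((evp T X).app k φ)

/-- The two forms of the condition on the ends agree. -/
lemma ends_iff_one (T : Fr C) (τ : T ⟶ yoFr C) (X : SP (Wr C)) (x : Vt X) (c : C)
    (k : SimplexCategoryᵒᵖ) (φ : MpS (V1 ((T.obj c).obj k.unop)) X k.unop) (i : Fin 2) :
    ((Kf (VFr T) X).map (vtx (seg c) i).op).app k φ =
        cst ((Kf (VFr T) X).obj (op Wr.pt))
          (vtMap ((SFun.ofFrame (VFr T) (VFrAug τ)).η X) x) k ↔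
      φ.app (op Wr.pt) k (𝟙 _) (vsEnd ((T.obj c).obj k.unop) i Wr.pt k) =
        cst (X.obj (op Wr.pt)) x k := by
  have e1 : (evp T X).app k (((Kf (VFr T) X).map (vtx (seg c) i).op).app k φ) =
      φ.app (op Wr.pt) k (𝟙 _) (vsEnd ((T.obj c).obj k.unop) i Wr.pt k) := by
    refine congrArg (φ.app (op Wr.pt) k (𝟙 _)) ?_
    exact VS.ext' rfl fun p => p.elim0
  have e2 : (evp T X).app k (cst ((Kf (VFr T) X).obj (op Wr.pt))
      (vtMap ((SFun.ofFrame (VFr T) (VFrAug τ)).η X) x) k) = cst (X.obj (op Wr.pt)) x k := by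
    refine (app_cst (evp T X) _ k).trans ?_
    exact congrArg (fun t => cst (X.obj (op Wr.pt)) t k) (evp_eta T τ X _ x)
  rw [← e1, ← e2]
  exact (evp_inj T X k).eq_iff.symm

lemma ends_iff (T : Fr C) (τ : T ⟶ yoFr C) (X : SP (Wr C)) (x y : Vt X) (c : C)
    (k : SimplexCategoryᵒᵖ) (φ : MpS (V1 ((T.obj c).obj k.unop)) X k.unop) :
    (ends (Kf (VFr T) X) c).app k φ =
        cst _ (vtMap ((SFun.ofFrame (VFr T) (VFrAug τ)).η X) x,
          vtMap ((SFun.ofFrame (VFr T) (VFrAug τ)).η X) y) k ↔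
      (endsV ((T.obj c).obj k.unop) X).app k φ = cst _ (x, y) k := by
  constructor
  · intro h
    refine Prod.ext ?_ ?_
    · exact (ends_iff_one T τ X x c k φ 0).1 (congrArg Prod.fst h)
    · exact (ends_iff_one T τ X y c k φ 1).1 (congrArg Prod.snd h)
  · intro h
    refine Prod.ext ?_ ?_
    · exact (ends_iff_one T τ X x c k φ 0).2 (congrArg Prod.fst h)
    · exact (ends_iff_one T τ X y c k φ 1).2 (congrArg Prod.snd h)

lemma val_inj {X : SP (Wr C)} {x y : Vt X} {c : Cᵒᵖ} {k : SimplexCategoryᵒᵖ}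
    {z w : ((Hm X x y).obj c).obj k} (h : Hm.val z = Hm.val w) : z = w := Subtype.ext h

/-- `V[1](p)` on the simplices `(id, b)`. -/
lemma push_vsOf {B B' : SP C} (p : B ⟶ B') {c : C} {k : SimplexCategoryᵒᵖ}
    (b : (B.obj (op c)).obj k) :
    ((V1map p).app (op (seg c))).app k (vsOf B b) = vsOf B' ((p.app (op c)).app k b) :=
  VS.ext' rfl fun _ _ _ _ => rfl

/-- The functoriality of `VFr T` on the simplices `(id, b)`. -/
lemma frame_vsOf (T : Fr C) {c c' : C} (f : c ⟶ c') (m : SimplexCategory) {d : C}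
    {k : SimplexCategoryᵒᵖ} (b : (((T.obj c).obj m).obj (op d)).obj k) :
    ((((VFr T).map (segMap f)).app m).app (op (seg d))).app k (vsOf ((T.obj c).obj m) b) =
      vsOf ((T.obj c').obj m) ((((T.map f).app m).app (op d)).app k b) := by
  refine VS.ext' rfl fun i l h h' => ?_
  obtain ⟨j, hj, hj'⟩ := Jump.split (f := OrderHom.id) (g := Wr.Hom.f (segMap f)) h
  refine (VS.pushW_g (X := fun _ : Fin 1 => (T.obj c).obj m)
    (Y := fun _ : Fin 1 => (T.obj c').obj m) (Wr.Hom.f (segMap f))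
    (fun j k h => (T.map (Wr.Hom.g (segMap f) j k h)).app m) (vsOf ((T.obj c).obj m) b)
    hj hj').trans ?_
  obtain rfl : j = l := jump_id.mp hj'
  have e : Wr.Hom.g (segMap f) j j hj' = f :=
    Wr.ofComp_g (X := fun _ => c) (Y := fun _ => c') (fun _ => f) j hj'
  exact congrArg (fun t : c ⟶ c' => (((T.map t).app m).app (op d)).app k b) e

/-- The augmentation on the simplices `(id, b)`. -/
lemma aug_vsOf {T : Fr C} (τ : T ⟶ yoFr C) (c : C) (m : SimplexCategory) {d : C}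
    {k : SimplexCategoryᵒᵖ} (b : (((T.obj c).obj m).obj (op d)).obj k) :
    ((((VFrAug τ).app (seg c)).app m).app (op (seg d))).app k (vsOf ((T.obj c).obj m) b) =
      segMap ((((τ.app c).app m).app (op d)).app k b : d ⟶ c) := by
  refine Wr.hom_ext' rfl fun i l h h' => ?_
  obtain rfl : i = l := jump_id.mp h
  exact (Wr.ofComp_g (X := fun _ => d) (Y := fun _ => c)
    (fun _ => ((((τ.app c).app m).app (op d)).app k b : d ⟶ c)) i h').symm

section Main

variable (T : Fr C) (τ : T ⟶ yoFr C) (X : SP (Wr C)) (x y : Vt X)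
  (E : ∀ B : SP C, Mp B (Hm X x y) ≅ Fb (endsV B X) (x, y))
  (hE : ∀ (B : SP C) (k : SimplexCategoryᵒᵖ) (φ : (Fb (endsV B X) (x, y)).obj k) (c : Cᵒᵖ)
        (l : SimplexCategoryᵒᵖ) (s : l.unop ⟶ k.unop) (b : (B.obj c).obj l),
        Hm.val (((E B).inv.app k φ : MpS B (Hm X x y) k.unop).app c l s b) =
          (φ.1 : MpS (V1 B) X k.unop).app (op (seg c.unop)) l s (vsOf B b))

/-- The inverse of the comparison isomorphism. -/
noncomputable def invKf (hE : ∀ (B : SP C) (k : SimplexCategoryᵒᵖ)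
    (φ : (Fb (endsV B X) (x, y)).obj k) (c : Cᵒᵖ)
        (l : SimplexCategoryᵒᵖ) (s : l.unop ⟶ k.unop) (b : (B.obj c).obj l),
        Hm.val (((E B).inv.app k φ : MpS B (Hm X x y) k.unop).app c l s b) =
          (φ.1 : MpS (V1 B) X k.unop).app (op (seg c.unop)) l s (vsOf B b)) :
    Hm (Kf (VFr T) X) (vtMap ((SFun.ofFrame (VFr T) (VFrAug τ)).η X) x)
      (vtMap ((SFun.ofFrame (VFr T) (VFrAug τ)).η X) y) ⟶ Kf T (Hm X x y) where
  app c :=
    { app := fun k => ↾ fun φ => (E ((T.obj c.unop).obj k.unop)).inv.app k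
        ⟨φ.1, (ends_iff T τ X x y c.unop k φ.1).1 φ.2⟩
      naturality := fun k l α => by
        refine ConcreteCategory.hom_ext _ _ fun φ => ?_
        refine MpS.ext ?_
        funext c' r s b
        refine val_inj ?_
        refine (hE _ _ _ _ _ _ _).trans (Eq.trans ?_ (hE _ _ _ _ _ _ _).symm)
        exact congrArg ((φ.1 : MpS (V1 ((T.obj c.unop).obj k.unop)) X k.unop).app
          (op (seg c'.unop)) r (s ≫ α.unop)) (push_vsOf ((T.obj c.unop).map α.unop) b) }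
  naturality c c' f := by
    refine NatTrans.ext (funext fun k => ?_)
    refine ConcreteCategory.hom_ext _ _ fun φ => ?_
    refine MpS.ext ?_
    funext d r s b
    refine val_inj ?_
    refine (hE _ _ _ _ _ _ _).trans (Eq.trans ?_ (hE _ _ _ _ _ _ _).symm)
    exact congrArg ((φ.1 : MpS (V1 ((T.obj c.unop).obj k.unop)) X k.unop).app
      (op (seg d.unop)) r s) (frame_vsOf T f.unop k.unop b)

end Main

theorem exists_HmKf_aux (T : Fr C) (τ : T ⟶ yoFr C) (X : SP (Wr C)) (x y : Vt X)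
    (hadj : ∀ B : SP C, ∃ e : Mp B (Hm X x y) ≅ Fb (endsV B X) (x, y),
      ∀ (k : SimplexCategoryᵒᵖ) (φ : (Fb (endsV B X) (x, y)).obj k) (c : Cᵒᵖ)
        (l : SimplexCategoryᵒᵖ) (s : l.unop ⟶ k.unop) (b : (B.obj c).obj l),
        Hm.val ((e.inv.app k φ : MpS B (Hm X x y) k.unop).app c l s b) =
          (φ.1 : MpS (V1 B) X k.unop).app (op (seg c.unop)) l s (vsOf B b)) :
    ∃ e : Kf T (Hm X x y) ≅ Hm (Kf (VFr T) X)
        (vtMap ((SFun.ofFrame (VFr T) (VFrAug τ)).η X) x)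
        (vtMap ((SFun.ofFrame (VFr T) (VFrAug τ)).η X) y),
      (SFun.ofFrame T τ).η (Hm X x y) ≫ e.hom =
        HmMap ((SFun.ofFrame (VFr T) (VFrAug τ)).η X) x y := by
  choose E hE using hadj
  have hbij : ∀ (c : Cᵒᵖ) (k : SimplexCategoryᵒᵖ),
      Function.Bijective (((invKf T τ X x y E hE).app c).app k) := by
    intro c k
    have h1 : ∀ ψ : (Mp ((T.obj c.unop).obj k.unop) (Hm X x y)).obj k,
        (E ((T.obj c.unop).obj k.unop)).inv.app k
          ((E ((T.obj c.unop).obj k.unop)).hom.app k ψ) = ψ := fun ψ =>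
      ConcreteCategory.congr_hom (NatTrans.congr_app
        (E ((T.obj c.unop).obj k.unop)).hom_inv_id k) ψ
    have h2 : ∀ φ : (Fb (endsV ((T.obj c.unop).obj k.unop) X) (x, y)).obj k,
        (E ((T.obj c.unop).obj k.unop)).hom.app k
          ((E ((T.obj c.unop).obj k.unop)).inv.app k φ) = φ := fun φ =>
      ConcreteCategory.congr_hom (NatTrans.congr_app
        (E ((T.obj c.unop).obj k.unop)).inv_hom_id k) φ
    constructor
    · intro φ ψ h
      have h3 : (E ((T.obj c.unop).obj k.unop)).inv.app k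
          ⟨φ.1, (ends_iff T τ X x y c.unop k φ.1).1 φ.2⟩ =
          (E ((T.obj c.unop).obj k.unop)).inv.app k
          ⟨ψ.1, (ends_iff T τ X x y c.unop k ψ.1).1 ψ.2⟩ := h
      have h4 := (h2 _).symm.trans ((congrArg _ h3).trans (h2 _))
      have h5 : φ.1 = ψ.1 := congrArg
        (fun t : (Fb (endsV ((T.obj c.unop).obj k.unop) X) (x, y)).obj k => t.1) h4
      exact Subtype.ext h5
    · intro ψ
      refine ⟨⟨((E ((T.obj c.unop).obj k.unop)).hom.app k ψ).1,
        (ends_iff T τ X x y c.unop k _).2 ((E ((T.obj c.unop).obj k.unop)).hom.app k ψ).2⟩, ?_⟩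
      exact h1 ψ
  have hiso : IsIso (invKf T τ X x y E hE) := by
    have : ∀ c, IsIso ((invKf T τ X x y E hE).app c) := by
      intro c
      have : ∀ k, IsIso (((invKf T τ X x y E hE).app c).app k) := fun k =>
        (isIso_iff_bijective _).2 (hbij c k)
      exact NatIso.isIso_of_isIso_app _
    exact NatIso.isIso_of_isIso_app _
  refine ⟨(asIso (invKf T τ X x y E hE)).symm, ?_⟩
  have key : (SFun.ofFrame T τ).η (Hm X x y) =
      HmMap ((SFun.ofFrame (VFr T) (VFrAug τ)).η X) x y ≫ invKf T τ X x y E hE := by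
    refine NatTrans.ext (funext fun c => NatTrans.ext (funext fun k => ?_))
    refine ConcreteCategory.hom_ext _ _ fun z => ?_
    refine MpS.ext ?_
    funext d r s b
    refine val_inj ?_
    refine Eq.trans ?_ (hE _ _ _ _ _ _ _).symm
    exact (congrArg (fun t => (X.map (Quiver.Hom.op t)).app r ((X.obj _).map s.op z.1))
      (aug_vsOf τ c.unop k.unop b)).symm
  rw [key]
  exact (Category.assoc _ _ _).trans ((congrArg (_ ≫ ·)
    (asIso (invKf T τ X x y E hE)).hom_inv_id).trans (Category.comp_id _))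

end Pool.Agent.Helper25.FL2
end

/- Helper25.FL2.HmKf -/
section
/-!
# FL2-C3: mapping presheaves of the completions at level `≥ 1`
-/

open CategoryTheory MonoidalCategory Opposite

set_option autoImplicit false

namespace Pool.Agent.Helper25.FL2

open FL

theorem exists_HmKf {C : Type} [SmallCategory C] (T : Fr C) (τ : T ⟶ yoFr C) (X : SP (Wr C))
    (x y : Vt X) :
    ∃ e : Kf T (Hm X x y) ≅ Hm (Kf (VFr T) X)
        (vtMap ((SFun.ofFrame (VFr T) (VFrAug τ)).η X) x)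
        (vtMap ((SFun.ofFrame (VFr T) (VFrAug τ)).η X) y),
      (SFun.ofFrame T τ).η (Hm X x y) ≫ e.hom =
        HmMap ((SFun.ofFrame (VFr T) (VFrAug τ)).η X) x y :=
  exists_HmKf_aux T τ X x y fun B => Helper53FL2.exists_HmAdj B X x y

end Pool.Agent.Helper25.FL2
end

/- Helper85.FL2.C4 -/
section
/-!
# FL2-C4: mapping presheaves of the completion at level 0
-/

open CategoryTheory MonoidalCategory Opposite

set_option autoImplicit false

namespace Helper85FL2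

open FL

noncomputable section

/-- A map of simplicial sets which is bijective in every degree is an isomorphism. -/
lemma isIso_of_bij {K L : SSet.{0}} (f : K ⟶ L) (h : ∀ k, Function.Bijective (f.app k)) :
    IsIso f := by
  rw [NatTrans.isIso_iff_isIso_app]
  intro k
  exact (isIso_iff_bijective _).mpr (h k)

section Yoneda

variable {A : Type} [SmallCategory A]

/-- The Yoneda map `X(a) ⟶ Map(h_a, X)`. -/
def yoMp (X : SP A) (a : A) : X.obj (op a) ⟶ Mp (rep a) X where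
  app k := ↾ fun (x : (X.obj (op a)).obj k) => (yoS (k := k.unop) (a := a) x : MpS (rep a) X k.unop)
  naturality k l α := by
    refine ConcreteCategory.hom_ext _ _ fun x => ?_
    refine MpS.ext ?_
    funext b m s u
    exact congrArg (fun z => (X.map (Quiver.Hom.op u)).app m z) (sset_comp _ α s.op x).symm

lemma yoS_apply {X : SP A} {a : A} {k : SimplexCategory} (x : (X.obj (op a)).obj (op k))
    {b : Aᵒᵖ} {l : SimplexCategoryᵒᵖ} (s : l.unop ⟶ k) (u : b.unop ⟶ a) :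
    (yoS (a := a) x).app b l s u =
      (X.map (Quiver.Hom.op u)).app l ((X.obj (op a)).map s.op x) := rfl

lemma yoS_eval {X : SP A} {a : A} {k : SimplexCategory} (φ : MpS (rep a) X k) :
    yoS (a := a) (k := k) (φ.app (op a) (op k) (𝟙 k) (𝟙 a)) = φ := by
  refine MpS.ext ?_
  funext b l s u
  have h1 := φ.nat_right (op a) (k := op k) (l := l) s.op (𝟙 k) (𝟙 a)
  have h2 := φ.nat_left (Quiver.Hom.op (show b.unop ⟶ a from u)) l s (𝟙 a)
  have h3 : ((rep a).map (Quiver.Hom.op (show b.unop ⟶ a from u))).app l (𝟙 a) = u :=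
    Category.comp_id (obj := A) _
  have h4 : s.op.unop ≫ 𝟙 k = s := Category.comp_id _
  refine (yoS_apply _ s u).trans ?_
  rw [h3] at h2
  rw [h4] at h1
  refine Eq.trans ?_ h2.symm
  exact congrArg _ h1.symm

lemma yoMp_bij (X : SP A) (a : A) (k : SimplexCategoryᵒᵖ) :
    Function.Bijective ((yoMp X a).app k) := by
  constructor
  · intro x y h
    have e := congrFun (congrFun (congrFun (congrFun (congrArg MpS.app h) (op a)) k) (𝟙 _)) (𝟙 a)
    have r : ∀ z : (X.obj (op a)).obj k,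
        (X.map (𝟙 (op a))).app k ((X.obj (op a)).map (𝟙 k) z) = z := fun z => by
      rw [sp_id, sset_id]
    exact (r x).symm.trans (Eq.trans e (r y))
  · intro φ
    exact ⟨(φ : MpS (rep a) X k.unop).app (op a) k (𝟙 _) (𝟙 a), yoS_eval φ⟩

end Yoneda

section Fibres

/-- The map of fibres over corresponding vertices. -/
def fmap {E B E' B' : SSet.{0}} {p : E ⟶ B} {p' : E' ⟶ B'} (f : E ⟶ E') (g : B ⟶ B')
    (w : f ≫ p' = p ≫ g) (b : B.obj (op (SimplexCategory.mk 0)))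
    (b' : B'.obj (op (SimplexCategory.mk 0))) (hb : g.app _ b = b') : Fb p b ⟶ Fb p' b' where
  app k := ↾ fun z => ⟨f.app k z.1, by
    have := ConcreteCategory.congr_hom (NatTrans.congr_app w k) z.1
    refine this.trans ?_
    show g.app k (p.app k z.1) = _
    rw [z.2, app_cst, hb]⟩
  naturality k l α := by
    refine ConcreteCategory.hom_ext _ _ fun z => ?_
    exact Subtype.ext (sset_nat f α z.1)

lemma fmap_bij {E B E' B' : SSet.{0}} {p : E ⟶ B} {p' : E' ⟶ B'} (f : E ⟶ E') (g : B ⟶ B')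
    (w : f ≫ p' = p ≫ g) (b : B.obj (op (SimplexCategory.mk 0)))
    (b' : B'.obj (op (SimplexCategory.mk 0))) (hb : g.app _ b = b')
    (hf : ∀ k, Function.Bijective (f.app k)) (hg : ∀ k, Function.Injective (g.app k))
    (k : SimplexCategoryᵒᵖ) : Function.Bijective ((fmap f g w b b' hb).app k) := by
  constructor
  · intro z z' h
    exact Subtype.ext ((hf k).1 (congrArg Subtype.val h))
  · intro y
    obtain ⟨z, hz⟩ := (hf k).2 y.1
    refine ⟨⟨z, ?_⟩, Subtype.ext hz⟩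
    refine hg k ?_
    have := ConcreteCategory.congr_hom (NatTrans.congr_app w k) z
    refine this.symm.trans ?_
    show p'.app k (f.app k z) = _
    rw [hz, y.2, app_cst, hb]

/-- The fibre of a base change. -/
lemma fmap_fst_bij {E E' B D : SSet.{0}} (p : E ⟶ B) (q : E' ⟶ B) (κ : B ⟶ D)
    (hκ : ∀ k, Function.Injective (κ.app k)) (p' : E ⟶ D) (hp' : p ≫ κ = p')
    (w : Fp.fst p q ≫ p' = Fp.snd p q ≫ (q ≫ κ)) (b : E'.obj (op (SimplexCategory.mk 0)))
    (b' : D.obj (op (SimplexCategory.mk 0))) (hb : (q ≫ κ).app _ b = b')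
    (k : SimplexCategoryᵒᵖ) :
    Function.Bijective ((fmap (Fp.fst p q) (q ≫ κ) w b b' hb).app k) := by
  constructor
  · intro z z' h
    refine Subtype.ext (Subtype.ext (Prod.ext (congrArg Subtype.val h) ?_))
    exact z.2.trans z'.2.symm
  · intro y
    subst hp'
    refine ⟨⟨⟨(y.1, cst E' b k), ?_⟩, rfl⟩, rfl⟩
    refine hκ k ?_
    refine y.2.trans ?_
    refine Eq.trans ?_ (congrArg (κ.app k) (app_cst q b k)).symm
    refine Eq.trans ?_ (app_cst κ _ k).symm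
    exact congrArg (fun t => cst D t k) hb.symm

end Fibres

section Wreath

variable {C : Type} [SmallCategory C]

/-- A vertex of `[1](c)`, as a map to the sub-presheaf of vertices. -/
def vS (c : C) (i : Fin 2) : rep (Wr.pt : Wr C) ⟶ (vert (seg c)).toSP where
  app η :=
    { app := fun k => ↾ fun (u : η.unop ⟶ Wr.pt) =>
        ⟨(u ≫ vtx (seg c) i : η.unop ⟶ seg c), ⟨i, fun _ => rfl⟩⟩
      naturality := fun _ _ _ => rfl }
  naturality η η' f := by
    refine NatTrans.ext (funext fun k => ?_)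
    refine ConcreteCategory.hom_ext _ _ fun (u : η.unop ⟶ Wr.pt) => ?_
    exact Subtype.ext (Category.assoc f.unop u (vtx (seg c) i))

lemma const_factor {θ η : Wr C} (φ : η ⟶ θ) (h : ∃ v, ∀ t, Wr.Hom.f φ t = v) :
    Wr.toPt η ≫ vtx θ (Wr.Hom.f φ 0) = φ := by
  obtain ⟨v, hv⟩ := h
  refine Wr.hom_ext' ?_ fun i j h h' => ?_
  · refine OrderHom.ext _ _ (funext fun t => ?_)
    show Wr.Hom.f φ 0 = Wr.Hom.f φ t
    rw [hv, hv]
  · exfalso
    have h1 := h'.1
    have h2 := h'.2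
    rw [hv] at h1 h2
    have := h2.trans h1
    rw [Fin.le_def] at this
    simp at this

lemma vS_factor (c : C) (η : (Wr C)ᵒᵖ) (k : SimplexCategoryᵒᵖ)
    (z : ((vert (seg c)).toSP.obj η).obj k) :
    ((vS c (Wr.Hom.f (X := η.unop) (Y := seg c) z.1 0)).app η).app k (Wr.toPt η.unop) = z :=
  Subtype.ext (const_factor (θ := seg c) (η := η.unop) z.1 z.2)

/-- The map `X([0]) ⊗ X([0]) ⟶ Map({0, 1}, X)`. -/
def rhoS (X : SP (Wr C)) (c : C) {k : SimplexCategory}
    (u : Fin 2 → (X.obj (op Wr.pt)).obj (op k)) : MpS (vert (seg c)).toSP X k where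
  app η l s z := (X.map (Wr.toPt η.unop).op).app l
    ((X.obj (op Wr.pt)).map s.op (u (Wr.Hom.f (X := η.unop) (Y := seg c) z.1 0)))
  nat_left {η η'} f l s z := by
    have e : Wr.Hom.f (X := η'.unop) (Y := seg c)
        ((((vert (seg c)).toSP.map f).app l z).1) 0 =
        Wr.Hom.f (X := η.unop) (Y := seg c) z.1 0 := by
      obtain ⟨v, hv⟩ := z.2
      show Wr.Hom.f (X := η.unop) (Y := seg c) z.1 (Wr.Hom.f f.unop 0) = _
      exact (hv _).trans (hv _).symm
    rw [e, ← sp_comp]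
    refine congrArg (fun t => (X.map t).app l _) ?_
    exact congrArg Quiver.Hom.op (Wr.toPt_unique _ _)
  nat_right η l m g s z := by
    refine (congrArg _ (sset_comp _ s.op g _)).trans ?_
    exact sp_nat X _ g _

/-- The map `X([0]) ⊗ X([0]) ⟶ Map({0, 1}, X)`. -/
def rho (X : SP (Wr C)) (c : C) :
    X.obj (op Wr.pt) ⊗ X.obj (op Wr.pt) ⟶ Mp (vert (seg c)).toSP X where
  app k := ↾ fun (u : (X.obj (op Wr.pt)).obj k × (X.obj (op Wr.pt)).obj k) =>
    (rhoS X c (k := k.unop) ![u.1, u.2] : MpS (vert (seg c)).toSP X k.unop)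
  naturality k l α := by
    refine ConcreteCategory.hom_ext _ _ fun
      (u : (X.obj (op Wr.pt)).obj k × (X.obj (op Wr.pt)).obj k) => ?_
    refine MpS.ext ?_
    funext η m s z
    refine congrArg ((X.map (Wr.toPt η.unop).op).app m) ?_
    have aux : ∀ i : Fin 2, (X.obj (op Wr.pt)).map s.op
        ((![(X.obj (op Wr.pt)).map α u.1, (X.obj (op Wr.pt)).map α u.2] :
          Fin 2 → (X.obj (op Wr.pt)).obj l) i) =
        (X.obj (op Wr.pt)).map (s ≫ α.unop).op
          ((![u.1, u.2] : Fin 2 → (X.obj (op Wr.pt)).obj k) i) := by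
      intro i
      match i with
      | 0 => exact (sset_comp _ α s.op u.1).symm
      | 1 => exact (sset_comp _ α s.op u.2).symm
    exact aux _

lemma rhoS_vS (X : SP (Wr C)) (c : C) {k : SimplexCategory}
    (u : Fin 2 → (X.obj (op Wr.pt)).obj (op k)) (i : Fin 2) :
    (rhoS X c u).app (op Wr.pt) (op k) (𝟙 k)
      (((vS c i).app (op Wr.pt)).app (op k) (𝟙 (Wr.pt : Wr C))) = u i := by
  show (X.map (Wr.toPt (Wr.pt : Wr C)).op).app (op k)
    ((X.obj (op Wr.pt)).map (𝟙 k).op (u i)) = _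
  have e : Wr.toPt (Wr.pt : Wr C) = 𝟙 _ := Wr.toPt_unique _ _
  rw [e]
  exact (sp_id X _).trans (sset_id _ _)

lemma rho_inj (X : SP (Wr C)) (c : C) (k : SimplexCategoryᵒᵖ) :
    Function.Injective ((rho X c).app k) := by
  intro (u : (X.obj (op Wr.pt)).obj k × (X.obj (op Wr.pt)).obj k)
    (u' : (X.obj (op Wr.pt)).obj k × (X.obj (op Wr.pt)).obj k) h
  have key : ∀ i : Fin 2, (![u.1, u.2] : Fin 2 → (X.obj (op Wr.pt)).obj k) i =
      (![u'.1, u'.2] : Fin 2 → (X.obj (op Wr.pt)).obj k) i := by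
    intro i
    have e := congrFun (congrFun (congrFun (congrFun (congrArg MpS.app h) (op Wr.pt)) k)
      (𝟙 k.unop)) (((vS c i).app (op Wr.pt)).app k (𝟙 (Wr.pt : Wr C)))
    exact (rhoS_vS X c (k := k.unop) _ i).symm.trans (Eq.trans e
      (rhoS_vS X c (k := k.unop) _ i))
  exact Prod.ext (key 0) (key 1)

lemma ends_rho (X : SP (Wr C)) (c : C) :
    yoMp X (seg c) ≫ Mp.pre (vert (seg c)).ι X = ends X c ≫ rho X c := by
  refine NatTrans.ext (funext fun k => ?_)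
  refine ConcreteCategory.hom_ext _ _ fun (x : (X.obj (op (seg c))).obj k) => ?_
  refine MpS.ext ?_
  funext η l s z
  obtain ⟨v, hv⟩ : ∃ v, Wr.Hom.f (X := η.unop) (Y := seg c) z.1 0 = v := ⟨_, rfl⟩
  have hz : (Wr.toPt η.unop ≫ vtx (seg c) v : η.unop ⟶ seg c) = z.1 := by
    rw [← hv]
    exact const_factor (θ := seg c) (η := η.unop) z.1 z.2
  show (X.map (Quiver.Hom.op (show η.unop ⟶ seg c from z.1))).app l
      ((X.obj (op (seg c))).map s.op x) =
    (X.map (Wr.toPt η.unop).op).app l ((X.obj (op Wr.pt)).map s.op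
      ((![(X.map (vtx (seg c) 0).op).app k x, (X.map (vtx (seg c) 1).op).app k x] :
        Fin 2 → (X.obj (op Wr.pt)).obj k) (Wr.Hom.f (X := η.unop) (Y := seg c) z.1 0)))
  have aux : ∀ i : Fin 2, (![(X.map (vtx (seg c) 0).op).app k x,
      (X.map (vtx (seg c) 1).op).app k x] : Fin 2 → (X.obj (op Wr.pt)).obj k) i =
      (X.map (vtx (seg c) i).op).app k x := by
    intro i
    match i with
    | 0 => rfl
    | 1 => rfl
  rw [aux, hv, ← sp_nat, ← sp_comp]
  refine congrArg (fun t => (X.map t).app l _) ?_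
  exact congrArg Quiver.Hom.op hz.symm

/-- Restriction to the two vertices. -/
def kapY (X : SP (Wr C)) (c : C) : Yc ((E0 C).obj (vert (seg c)).toSP) X ⟶
    (Kf (T0 C) X).obj (op Wr.pt) ⊗ (Kf (T0 C) X).obj (op Wr.pt) :=
  CartesianMonoidalCategory.lift (Yc.pre ((E0 C).map (vS c 0)) X)
    (Yc.pre ((E0 C).map (vS c 1)) X)

lemma pre_kapY (X : SP (Wr C)) (c : C) :
    Yc.pre ((E0 C).map (vert (seg c)).ι) X ≫ kapY X c = ends (Kf (T0 C) X) c := rfl

/-- Gluing of two simplices of `Kf (T0 C) X ([0])`. -/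
def glueY (X : SP (Wr C)) (c : C) {k : SimplexCategory}
    (ψ : Fin 2 → MpS (E0o (rep (Wr.pt : Wr C)) k) X k) :
    MpS (E0o (vert (seg c)).toSP k) X k where
  app η l s z := (ψ (Wr.Hom.f (X := η.unop) (Y := seg c) z.1.1 0)).app η l s
    (Wr.toPt η.unop, z.2)
  nat_left {η η'} f l s z := by
    have e : Wr.Hom.f (X := η'.unop) (Y := seg c)
        ((((E0o (vert (seg c)).toSP k).map f).app l z).1.1) 0 =
        Wr.Hom.f (X := η.unop) (Y := seg c) z.1.1 0 := by
      obtain ⟨v, hv⟩ := z.1.2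
      show Wr.Hom.f (X := η.unop) (Y := seg c) z.1.1 (Wr.Hom.f f.unop 0) = _
      exact (hv _).trans (hv _).symm
    rw [e]
    refine Eq.trans ?_ ((ψ (Wr.Hom.f (X := η.unop) (Y := seg c) z.1.1 0)).nat_left f l s
      (Wr.toPt η.unop, z.2))
    refine congrArg ((ψ (Wr.Hom.f (X := η.unop) (Y := seg c) z.1.1 0)).app η' l s) ?_
    exact Prod.ext (Wr.toPt_unique _ _) rfl
  nat_right η l m g s z :=
    (ψ (Wr.Hom.f (X := η.unop) (Y := seg c) z.1.1 0)).nat_right η g s (Wr.toPt η.unop, z.2)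

lemma glueY_vS (X : SP (Wr C)) (c : C) {k : SimplexCategory}
    (ψ : Fin 2 → MpS (E0o (rep (Wr.pt : Wr C)) k) X k) (i : Fin 2) :
    (MpS.ofHom k (((E0 C).map (vS c i)).app k)).comp (glueY X c ψ) = ψ i := by
  refine MpS.ext ?_
  funext η l s z
  show (ψ i).app η l s (Wr.toPt η.unop, z.2) = (ψ i).app η l s z
  refine congrArg ((ψ i).app η l s) ?_
  exact Prod.ext (Wr.toPt_unique _ _) rfl

lemma eq_of_vS (X : SP (Wr C)) (c : C) {k : SimplexCategory}
    (φ ψ : MpS (E0o (vert (seg c)).toSP k) X k)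
    (h : ∀ i : Fin 2, (MpS.ofHom k (((E0 C).map (vS c i)).app k)).comp φ =
      (MpS.ofHom k (((E0 C).map (vS c i)).app k)).comp ψ) : φ = ψ := by
  refine MpS.ext ?_
  funext η l s z
  have e := congrFun (congrFun (congrFun (congrFun (congrArg MpS.app
    (h (Wr.Hom.f (X := η.unop) (Y := seg c) z.1.1 0))) η) l) s) (Wr.toPt η.unop, z.2)
  have e1 : (((vS c (Wr.Hom.f (X := η.unop) (Y := seg c) z.1.1 0)).app η).app l
      (Wr.toPt η.unop), z.2) = z := Prod.ext (vS_factor c η l z.1) rfl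
  have e2 : ∀ χ : MpS (E0o (vert (seg c)).toSP k) X k,
      ((MpS.ofHom k (((E0 C).map (vS c
        (Wr.Hom.f (X := η.unop) (Y := seg c) z.1.1 0))).app k)).comp χ).app η l s
        (Wr.toPt η.unop, z.2) = χ.app η l s z := fun χ => congrArg (χ.app η l s) e1
  exact (e2 φ).symm.trans (e.trans (e2 ψ))

lemma kapY_inj (X : SP (Wr C)) (c : C) (k : SimplexCategoryᵒᵖ) :
    Function.Injective ((kapY X c).app k) := by
  intro φ ψ h
  refine eq_of_vS X c (k := k.unop) φ ψ fun i => ?_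
  match i with
  | 0 => exact congrArg Prod.fst h
  | 1 => exact congrArg Prod.snd h

lemma kapY_bij (X : SP (Wr C)) (c : C) (k : SimplexCategoryᵒᵖ) :
    Function.Bijective ((kapY X c).app k) := by
  refine ⟨kapY_inj X c k, ?_⟩
  intro (y : MpS (E0o (rep (Wr.pt : Wr C)) k.unop) X k.unop ×
    MpS (E0o (rep (Wr.pt : Wr C)) k.unop) X k.unop)
  refine ⟨(glueY X c (k := k.unop) ![y.1, y.2] : MpS (E0o (vert (seg c)).toSP k.unop) X k.unop),
    ?_⟩
  exact Prod.ext (glueY_vS X c (k := k.unop) ![y.1, y.2] 0)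
    (glueY_vS X c (k := k.unop) ![y.1, y.2] 1)

/-- The value of `X([0])^2 ⟶ Map({0, 1}, X) ⟶ … ⟶ (Kf (T0 C) X)([0])^2`. -/
lemma rho_aug_kap (X : SP (Wr C)) (c : C) :
    rho X c ≫ augY (vert (seg c)).toSP X ≫ kapY X c =
      ((SFun.ofFrame (T0 C) (T0aug C)).η X).app (op Wr.pt) ⊗ₘ
        ((SFun.ofFrame (T0 C) (T0aug C)).η X).app (op Wr.pt) := by
  have key : ∀ (k : SimplexCategoryᵒᵖ) (u : Fin 2 → (X.obj (op Wr.pt)).obj k) (i : Fin 2),
      (MpS.ofHom k.unop (((E0 C).map (vS c i)).app k.unop)).comp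
        ((MpS.ofHom k.unop ((E0aug (vert (seg c)).toSP).app k.unop)).comp
          (rhoS X c (k := k.unop) u)) =
      (MpS.ofHom k.unop (((T0aug C).app Wr.pt).app k.unop)).comp
        (yoS (k := k.unop) (a := Wr.pt) (u i)) := by
    intro k u i
    refine MpS.ext ?_
    funext η l s z
    show (X.map (Wr.toPt η.unop).op).app l ((X.obj (op Wr.pt)).map s.op (u i)) =
      (X.map (Quiver.Hom.op (show η.unop ⟶ Wr.pt from z.1))).app l
        ((X.obj (op Wr.pt)).map s.op (u i))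
    refine congrArg (fun t => (X.map t).app l _) ?_
    exact congrArg Quiver.Hom.op (Wr.toPt_unique _ _)
  refine NatTrans.ext (funext fun k => ?_)
  refine ConcreteCategory.hom_ext _ _ fun
    (u : (X.obj (op Wr.pt)).obj k × (X.obj (op Wr.pt)).obj k) => ?_
  exact Prod.ext (key k ![u.1, u.2] 0) (key k ![u.1, u.2] 1)

/-- Every vertex of `Kf (T0 C) X` comes from `X`. -/
theorem T0_vt_surj (X : SP (Wr C)) (z : Vt (Kf (T0 C) X)) :
    ∃ x : Vt X, vtMap ((SFun.ofFrame (T0 C) (T0aug C)).η X) x = z := by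
  let z' : MpS (E0o (rep (Wr.pt : Wr C)) (SimplexCategory.mk 0)) X (SimplexCategory.mk 0) := z
  let w0 : (((E0o (rep (Wr.pt : Wr C)) (SimplexCategory.mk 0)).obj (op Wr.pt)).obj
    (op (SimplexCategory.mk 0))) := (𝟙 (Wr.pt : Wr C), fun _ => 0)
  refine ⟨z'.app (op Wr.pt) (op (SimplexCategory.mk 0)) (𝟙 _) w0, ?_⟩
  refine MpS.ext ?_
  funext η l s u
  show (X.map (Quiver.Hom.op (show η.unop ⟶ Wr.pt from u.1))).app l
    ((X.obj (op Wr.pt)).map s.op (z'.app (op Wr.pt) (op (SimplexCategory.mk 0)) (𝟙 _) w0)) =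
      z'.app η l s u
  rw [← z'.nat_right (op Wr.pt) (k := op (SimplexCategory.mk 0)) (l := l) s.op (𝟙 _) w0,
    ← z'.nat_left]
  have e : s.op.unop ≫ 𝟙 (SimplexCategory.mk 0) = s := Category.comp_id _
  refine congrArg₂ (fun t w => z'.app η l t w) e ?_
  refine Prod.ext (Wr.toPt_unique _ _) (funext fun i => ?_)
  exact Subsingleton.elim (α := Fin 1) _ _

lemma kanFib_of_comp_mono {E B D : SSet.{0}} {f : E ⟶ B} {κ : B ⟶ D} [Mono κ]
    (h : KanFib (f ≫ κ)) : KanFib f := fun n i => ⟨fun {u v} sq => by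
  have := h n i
  have sq' : CommSq u (SSet.horn.{0} (n + 1) i).ι (f ≫ κ) (v ≫ κ) :=
    ⟨by rw [← Category.assoc, sq.w, Category.assoc]⟩
  exact ⟨⟨{ l := sq'.lift
            fac_left := sq'.fac_left
            fac_right := by
              rw [← cancel_mono κ, Category.assoc]
              exact sq'.fac_right }⟩⟩⟩

lemma mono_ι (c : C) (a : (Wr C)ᵒᵖ) : Mono ((vert (seg c)).ι.app a) := by
  have : ∀ k, Mono (((vert (seg c)).ι.app a).app k) := fun k =>
    (mono_iff_injective _).mpr fun z z' h => Subtype.ext h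
  exact NatTrans.mono_of_mono_app _

/-- The mapping presheaves of the completion at level `0`, given the properties of the frame. -/
theorem HmK0_objHoEq_of {X : SP (Wr C)} (hX : InjFib X)
    (hV : ∀ c : C, KanFib (ends (Kf (T0 C) X) c))
    (hrel : ∀ c : C, KanFib (Yc.pre ((E0 C).map (vert (seg c)).ι) X) →
      HoEq (relMap (vert (seg c)) X)) (x y : Vt X) :
    ObjHoEq (HmMap ((SFun.ofFrame (T0 C) (T0aug C)).η X) x y) := by
  intro c
  let xy : (X.obj (op Wr.pt) ⊗ X.obj (op Wr.pt)).obj (op (SimplexCategory.mk 0)) := (x, y)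
  have iκ : IsIso (kapY X c.unop) := isIso_of_bij _ (kapY_bij X c.unop)
  have hF : KanFib (Yc.pre ((E0 C).map (vert (seg c.unop)).ι) X) :=
    kanFib_of_comp_mono (κ := kapY X c.unop) (by
      rw [pre_kapY]
      exact hV c.unop)
  have h1 := hrel c.unop hF
  have hB : SSet.KanComplex (Mp (vert (seg c.unop)).toSP X) := Pool.Agent.Helper83.FL4.Mp_kan _ hX
  have hp : KanFib (Mp.pre (vert (seg c.unop)).ι X) :=
    Pool.Agent.Helper83.FL4.Mp_pre_kanFib _ (mono_ι c.unop) hX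
  have w : relMap (vert (seg c.unop)) X ≫
      Fp.snd (Yc.pre ((E0 C).map (vert (seg c.unop)).ι) X) (augY (vert (seg c.unop)).toSP X) =
      Mp.pre (vert (seg c.unop)).ι X ≫ 𝟙 _ := rfl
  have h2 := Pool.Agent.Helper54.FL2.Fb_map_hoEq hp
    (Pool.Agent.Helper54.FL2.Fp_snd_kanFib _ _ hF) hB hB (relMap (vert (seg c.unop)) X) (𝟙 _) w h1
    (Pool.Agent.Helper88.FL.hoEq_of_isIso _)
    ((rho X c.unop).app (op (SimplexCategory.mk 0)) xy)
  let e₀ := fmap (yoMp X (seg c.unop)) (rho X c.unop) (ends_rho X c.unop) xy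
    ((rho X c.unop).app (op (SimplexCategory.mk 0)) xy) rfl
  have he₀ : IsIso e₀ := isIso_of_bij _
    (fmap_bij _ _ _ _ _ _ (yoMp_bij X (seg c.unop)) (rho_inj X c.unop))
  have w' : Fp.fst (Yc.pre ((E0 C).map (vert (seg c.unop)).ι) X)
        (augY (vert (seg c.unop)).toSP X) ≫ ends (Kf (T0 C) X) c.unop =
      Fp.snd (Yc.pre ((E0 C).map (vert (seg c.unop)).ι) X)
        (augY (vert (seg c.unop)).toSP X) ≫ (augY (vert (seg c.unop)).toSP X ≫ kapY X c.unop) := by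
    rw [← pre_kapY, ← Category.assoc, ← Category.assoc, Pool.Agent.Helper54.FL2.Fp_w]
  let xy' : ((Kf (T0 C) X).obj (op Wr.pt) ⊗ (Kf (T0 C) X).obj (op Wr.pt)).obj
      (op (SimplexCategory.mk 0)) := (vtMap ((SFun.ofFrame (T0 C) (T0aug C)).η X) x,
        vtMap ((SFun.ofFrame (T0 C) (T0aug C)).η X) y)
  have hb : (augY (vert (seg c.unop)).toSP X ≫ kapY X c.unop).app
      (op (SimplexCategory.mk 0)) ((rho X c.unop).app (op (SimplexCategory.mk 0)) xy) = xy' :=
    ConcreteCategory.congr_hom (NatTrans.congr_app (rho_aug_kap X c.unop)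
      (op (SimplexCategory.mk 0))) xy
  let q := fmap (Fp.fst (Yc.pre ((E0 C).map (vert (seg c.unop)).ι) X)
    (augY (vert (seg c.unop)).toSP X)) (augY (vert (seg c.unop)).toSP X ≫ kapY X c.unop) w'
    ((rho X c.unop).app (op (SimplexCategory.mk 0)) xy) xy' hb
  have hq : IsIso q := isIso_of_bij _ (fmap_fst_bij _ _ (kapY X c.unop) (kapY_inj X c.unop)
    (ends (Kf (T0 C) X) c.unop) (pre_kapY X c.unop) w' ((rho X c.unop).app (op (SimplexCategory.mk 0)) xy) xy' hb)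
  exact Pool.Agent.Helper88.FL.hoEq_of_arrow_iso (asIso e₀).symm (@asIso _ _ _ _ q hq)
    ((Iso.eq_inv_comp (asIso e₀)).mpr rfl) h2

end Wreath

end

end Helper85FL2
end

/- Helper41.FL2.C6Core -/
section
/-!
# FL2-C6: one step of the completion (core; remaining inputs as a structure)
-/

open CategoryTheory MonoidalCategory Opposite HomotopicalAlgebra

set_option autoImplicit false

namespace Helper41FL2

open FL Helper53FL2 Pool.Agent.Helper88.FL Pool.Agent.Helper91.FL2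
open Pool.Agent.Helper61.FL2 (ES_comp ES_of_objHoEq HmMap_objHoEq)
open Pool.Agent.Helper81.FL2 (Yc_kan)
open Pool.Agent.Helper25.FL2 (exists_HmKf VFr_pt_isIso)
open Helper85FL2 (T0_vt_surj)

/-- The inputs of the step. -/
structure StepDep : Prop where
  ext_cc : ∀ {A : Type} [SmallCategory A] (X P : SP A), Ext X (cc P)
  goodFr_Tfr : ∀ {n : ℕ} (j : ℕ) {X : SP (Th (n + 1))} (_ : Sg (n + 1) X),
    GoodFr (C := Th n) X (Tfr (n + 1) j)
  Kf_good : ∀ {C : Type} [SmallCategory C] {X : SP (Wr C)} (_ : InjFib X) {T : Fr (Wr C)}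
    (_ : GoodFr X T), VFib (Kf T X) ∧ BSeg (Kf T X)
  HmK0_objHoEq : ∀ {C : Type} [SmallCategory C] {X : SP (Wr C)} (_ : InjFib X) (_ : SpLoc X)
    (x y : Vt X), ObjHoEq (HmMap ((SFun.ofFrame (T0 C) (T0aug C)).η X) x y)
  K0_complete : ∀ {C : Type} [SmallCategory C] {X : SP (Wr C)} (_ : InjFib X) (_ : SpLoc X),
    Loc ((RR (Wr C)).obj (Kf (T0 C) X)) (isoMap C)

section

variable {A : Type} [SmallCategory A]

/-- Composition of objectwise equivalences. -/
theorem objHoEq_comp {X Y Z : SP A} (hX : ObjKan X) (hY : ObjKan Y) (hZ : ObjKan Z) {f : X ⟶ Y}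
    {g : Y ⟶ Z} (hf : ObjHoEq f) (hg : ObjHoEq g) : ObjHoEq (f ≫ g) :=
  fun a => hoEq_comp (hX a) (hY a) (hZ a) (hf a) (hg a)

theorem comp_swap {D : Type 1} [Category.{0} D] {a b c c' d e : D} (p : a ⟶ b) (q : b ⟶ c)
    (r : c ⟶ d) (s : d ⟶ e) (q' : b ⟶ c') (r' : c' ⟶ d) (h : q ≫ r = q' ≫ r') :
    (p ≫ q) ≫ (r ≫ s) = (p ≫ q') ≫ (r' ≫ s) := by
  rw [Category.assoc, Category.assoc, ← Category.assoc q, h, Category.assoc]

theorem objHoEq_iso {X Y : SP A} (e : X ≅ Y) : ObjHoEq e.hom := fun a => by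
  have : IsIso (e.hom.app a) := inferInstance
  exact hoEq_of_isIso _

/-- Yoneda: the augmentation of the constant frame is invertible. -/
theorem yoFr_isIso (X : SP A) (a : Aᵒᵖ) :
    IsIso (((SFun.ofFrame (yoFr A) (𝟙 (yoFr A))).η X).app a) := by
  refine ⟨⟨{ app := fun k => ↾ fun (φ : MpS (rep a.unop) X k.unop) =>
        φ.app a k (𝟙 _) (𝟙 a.unop : a.unop ⟶ a.unop)
             naturality := fun k l α => ?_ }, ?_, ?_⟩⟩
  · refine ConcreteCategory.hom_ext _ _ fun (φ : MpS (rep a.unop) X k.unop) => ?_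
    show φ.app a l (𝟙 _ ≫ α.unop) (𝟙 a.unop : a.unop ⟶ a.unop) = _
    refine Eq.trans ?_ (φ.nat_right a α (𝟙 _) (𝟙 a.unop : a.unop ⟶ a.unop))
    rw [Category.id_comp, Category.comp_id]
    rfl
  · refine NatTrans.ext (funext fun k => ?_)
    refine ConcreteCategory.hom_ext _ _ fun x => ?_
    show (X.map (Quiver.Hom.op (𝟙 a.unop))).app k ((X.obj a).map (𝟙 k.unop).op x) = x
    exact (congrArg _ (sset_id (X.obj a) x)).trans (sp_id X x)
  · refine NatTrans.ext (funext fun k => ?_)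
    refine ConcreteCategory.hom_ext _ _ fun (φ : MpS (rep a.unop) X k.unop) => ?_
    refine MpS.ext ?_
    funext b l s (u : b.unop ⟶ a.unop)
    show (X.map (Quiver.Hom.op u)).app l ((X.obj a).map s.op
      (φ.app a k (𝟙 _) (𝟙 a.unop : a.unop ⟶ a.unop))) = φ.app b l s u
    have e1 := φ.nat_right a s.op (𝟙 _) (𝟙 a.unop : a.unop ⟶ a.unop)
    have e2 := φ.nat_left u.op l s (𝟙 a.unop : a.unop ⟶ a.unop)
    refine (congrArg ((X.map u.op).app l) e1.symm).trans ?_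
    have e3 : s.op.unop ≫ 𝟙 k.unop = s := Category.comp_id s
    rw [e3]
    refine e2.symm.trans ?_
    exact congrArg (φ.app b l s) (Category.comp_id u)

end

section

variable {n : ℕ}

/-- Replacing a fibrant object by a weakly equivalent one. -/
theorem sg_RR_of {H H' : SP (Th n)} (hH : InjFib H) (hH' : ObjKan H') (f : H ⟶ H')
    (hf : ObjHoEq f) : Sg n H ↔ Sg n ((RR (Th n)).obj H') :=
  sg_of_objHoEq hH (RR_injFib hH') (objHoEq_comp (objKan_of_injFib hH) hH' (RR_objKan hH') hf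
    (RR_objHoEq hH'))

theorem cj_RR_of {j : ℕ} {H H' : SP (Th n)} (hH : InjFib H) (hH' : ObjKan H') (f : H ⟶ H')
    (hf : ObjHoEq f) : Cj n j H ↔ Cj n j ((RR (Th n)).obj H') :=
  cj_of_objHoEq hH (RR_injFib hH') (objHoEq_comp (objKan_of_injFib hH) hH' (RR_objKan hH') hf
    (RR_objHoEq hH'))

theorem sg_RR_iso {H H' : SP (Th n)} (hH : ObjKan H) (hH' : ObjKan H') (f : H ⟶ H')
    (hf : ObjHoEq f) : Sg n ((RR (Th n)).obj H) ↔ Sg n ((RR (Th n)).obj H') :=
  sg_of_objHoEq (RR_injFib hH) (RR_injFib hH') (RR_map_objHoEq hH hH' hf)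

theorem cj_RR_iso {j : ℕ} {H H' : SP (Th n)} (hH : ObjKan H) (hH' : ObjKan H') (f : H ⟶ H')
    (hf : ObjHoEq f) : Cj n j ((RR (Th n)).obj H) ↔ Cj n j ((RR (Th n)).obj H') :=
  cj_of_objHoEq (RR_injFib hH) (RR_injFib hH') (RR_map_objHoEq hH hH' hf)

theorem cn_univ {C : Type} [SmallCategory C] {X : SP (Wr C)} :
    ∀ z : Vt X, ∃ x ∈ (Set.univ : Set (Vt X)), Cn (X.obj (op Wr.pt)) x z :=
  fun z => ⟨z, trivial, cn_refl z⟩

theorem HmMap_comp {C : Type} [SmallCategory C] {X Y Z : SP (Wr C)} (f : X ⟶ Y) (g : Y ⟶ Z)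
    (x y : Vt X) : HmMap (f ≫ g) x y = HmMap f x y ≫ HmMap g (vtMap f x) (vtMap f y) := rfl

theorem KJ_objKan (W : StepDep) {n j : ℕ} {X : SP (Th n)} (hX : Sg n X) : ObjKan ((KJ n j).obj X) := by
  cases n with
  | zero => exact fun a => Yc_kan hX.1 (W.ext_cc X _)
  | succ n => exact (W.Kf_good (C := Th n) hX.1 (W.goodFr_Tfr j hX)).1.1

theorem KJ_step_zero (W : StepDep) {j : ℕ} {X : SP (Th 0)} (hX : Sg 0 X) :
    Sg 0 ((RR (Th 0)).obj ((KJ 0 j).obj X)) ∧
    (j < 0 → Cj 0 j ((RR (Th 0)).obj ((KJ 0 j).obj X))) ∧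
    (∀ j', j < j' → Cj 0 j' X → Cj 0 j' ((RR (Th 0)).obj ((KJ 0 j).obj X))) ∧
    ES 0 0 ((KJ 0 j).η X ≫ (RR (Th 0)).η ((KJ 0 j).obj X)) := by
  have hK : ObjKan ((KJ 0 j).obj X) := KJ_objKan W hX
  refine ⟨⟨RR_injFib hK, fun θ S hS => by cases hS⟩, fun h => absurd h (Nat.not_lt_zero _),
    fun j' _ _ P Q f hf => (by cases hf), ?_⟩
  have h1 : HoEq (((KJ 0 j).η X).app (op (ptT 0))) := by
    have := yoFr_isIso (A := Th 0) X (op (ptT 0))
    exact hoEq_of_isIso (((SFun.ofFrame (yoFr (Th 0)) (𝟙 (yoFr (Th 0)))).η X).app (op (ptT 0)))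
  exact hoEq_comp (objKan_of_injFib hX.1 _) (hK _) (RR_objKan hK _) h1 (RR_objHoEq hK _)

theorem KJ_step_T0 (W : StepDep) {X : SP (Th (n + 1))} (hX : Sg (n + 1) X) :
    Sg (n + 1) ((RR (Th (n + 1))).obj ((KJ (n + 1) 0).obj X)) ∧
    (0 < n + 1 → Cj (n + 1) 0 ((RR (Th (n + 1))).obj ((KJ (n + 1) 0).obj X))) ∧
    (∀ j', 0 < j' → Cj (n + 1) j' X →
      Cj (n + 1) j' ((RR (Th (n + 1))).obj ((KJ (n + 1) 0).obj X))) ∧
    ES (n + 1) (n + 1) ((KJ (n + 1) 0).η X ≫ (RR (Th (n + 1))).η ((KJ (n + 1) 0).obj X)) := by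
  obtain ⟨hS, hHm⟩ := (sg_succ_iff hX.1 Set.univ cn_univ).1 hX
  obtain ⟨hV, hB⟩ : VFib (C := Th n) ((KJ (n + 1) 0).obj X) ∧ BSeg (C := Th n)
    ((KJ (n + 1) 0).obj X) := W.Kf_good (C := Th n) hX.1 (W.goodFr_Tfr 0 hX)
  have hsurj : ∀ z : Vt (C := Th n) ((KJ (n + 1) 0).obj X), ∃ x : Vt (C := Th n) X,
      vtMap (C := Th n) ((KJ (n + 1) 0).η X) x = z := T0_vt_surj (C := Th n) X
  have hH : ∀ x y : Vt (C := Th n) X, InjFib (Hm (C := Th n) X x y) :=
    fun x y => Hm_injFib (C := Th n) hX.1 x y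
  have hH' : ∀ x y : Vt (C := Th n) ((KJ (n + 1) 0).obj X), ObjKan (Hm (C := Th n) _ x y) :=
    fun x y => Hm_objKan (C := Th n) hV x y
  have hη : ∀ x y : Vt (C := Th n) X,
      ObjHoEq (HmMap (C := Th n) ((KJ (n + 1) 0).η X) x y) :=
    fun x y => W.HmK0_objHoEq (C := Th n) hX.1 hS x y
  refine ⟨?_, fun _ => ?_, ?_, ?_, ?_⟩
  · refine sg_RR hV hB fun a b => ?_
    obtain ⟨x, rfl⟩ := hsurj a
    obtain ⟨y, rfl⟩ := hsurj b
    exact (sg_RR_of (hH x y) (hH' _ _) _ (hη x y)).1 (hHm x trivial y trivial)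
  · exact cj_zero_iff.2 (W.K0_complete (C := Th n) hX.1 hS)
  · intro j' hj' hc
    obtain ⟨i, rfl⟩ : ∃ i, j' = i + 1 := ⟨j' - 1, by omega⟩
    have h2 := (cj_succ_iff hX.1 Set.univ cn_univ).1 hc
    refine cj_RR hV fun a b => ?_
    obtain ⟨x, rfl⟩ := hsurj a
    obtain ⟨y, rfl⟩ := hsurj b
    exact (cj_RR_of (hH x y) (hH' _ _) _ (hη x y)).1 (h2 x trivial y trivial)
  · intro z
    obtain ⟨a, ha⟩ := RR_vt (C := Th n) hV.1 z
    obtain ⟨x, rfl⟩ := hsurj a
    exact ⟨x, ha⟩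
  · intro x y
    have h3 : InjFib ((RR (Th (n + 1))).obj ((KJ (n + 1) 0).obj X)) := RR_injFib hV.1
    have h5 : InjFib (Hm (C := Th n) ((RR (Th (n + 1))).obj ((KJ (n + 1) 0).obj X))
      (vtMap (C := Th n) ((KJ (n + 1) 0).η X ≫ (RR (Th (n + 1))).η ((KJ (n + 1) 0).obj X)) x)
      (vtMap (C := Th n) ((KJ (n + 1) 0).η X ≫ (RR (Th (n + 1))).η ((KJ (n + 1) 0).obj X)) y)) :=
      Hm_injFib (C := Th n) h3 _ _
    refine ES_of_objHoEq (hH x y) h5 ?_
    have h4 := HmMap_objHoEq (C := Th n) hV (Helper53FL2.InjFib.vfib h3) (RR_objHoEq hV.1)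
      (vtMap (C := Th n) ((KJ (n + 1) 0).η X) x) (vtMap (C := Th n) ((KJ (n + 1) 0).η X) y)
    exact objHoEq_comp (objKan_of_injFib (hH x y)) (hH' _ _) (objKan_of_injFib h5) (hη x y) h4

theorem KJ_step_succ (W : StepDep) {j : ℕ}
    (ih : ∀ {X : SP (Th n)} (_ : Sg n X), Sg n ((RR (Th n)).obj ((KJ n j).obj X)) ∧
      (j < n → Cj n j ((RR (Th n)).obj ((KJ n j).obj X))) ∧
      (∀ j', j < j' → Cj n j' X → Cj n j' ((RR (Th n)).obj ((KJ n j).obj X))) ∧
      ES n n ((KJ n j).η X ≫ (RR (Th n)).η ((KJ n j).obj X)))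
    {X : SP (Th (n + 1))} (hX : Sg (n + 1) X) :
    Sg (n + 1) ((RR (Th (n + 1))).obj ((KJ (n + 1) (j + 1)).obj X)) ∧
    (j + 1 < n + 1 → Cj (n + 1) (j + 1) ((RR (Th (n + 1))).obj ((KJ (n + 1) (j + 1)).obj X))) ∧
    (∀ j', j + 1 < j' → Cj (n + 1) j' X →
      Cj (n + 1) j' ((RR (Th (n + 1))).obj ((KJ (n + 1) (j + 1)).obj X))) ∧
    ES (n + 1) (n + 1) ((KJ (n + 1) (j + 1)).η X ≫
      (RR (Th (n + 1))).η ((KJ (n + 1) (j + 1)).obj X)) := by
  obtain ⟨hS, hHm⟩ := (sg_succ_iff hX.1 Set.univ cn_univ).1 hX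
  obtain ⟨hV, hB⟩ : VFib (C := Th n) ((KJ (n + 1) (j + 1)).obj X) ∧ BSeg (C := Th n)
    ((KJ (n + 1) (j + 1)).obj X) := W.Kf_good (C := Th n) hX.1 (W.goodFr_Tfr (j + 1) hX)
  have hsurj : ∀ z : Vt (C := Th n) ((KJ (n + 1) (j + 1)).obj X), ∃ x : Vt (C := Th n) X,
      vtMap (C := Th n) ((KJ (n + 1) (j + 1)).η X) x = z := by
    intro z
    have : IsIso (((SFun.ofFrame (VFr (Tfr n j)) (VFrAug (TfrAug n j))).η X).app (op Wr.pt)) :=
      VFr_pt_isIso (C := Th n) (Tfr n j) (TfrAug n j) X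
    let i := inv (((SFun.ofFrame (VFr (Tfr n j)) (VFrAug (TfrAug n j))).η X).app (op Wr.pt))
    refine ⟨i.app _ z, ?_⟩
    exact ConcreteCategory.congr_hom (NatTrans.congr_app (IsIso.inv_hom_id
      (((SFun.ofFrame (VFr (Tfr n j)) (VFrAug (TfrAug n j))).η X).app (op Wr.pt))) _) z
  have hH : ∀ x y : Vt (C := Th n) X, InjFib (Hm (C := Th n) X x y) :=
    fun x y => Hm_injFib (C := Th n) hX.1 x y
  have hSg : ∀ x y : Vt (C := Th n) X, Sg n (Hm (C := Th n) X x y) :=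
    fun x y => hHm x trivial y trivial
  have hH' : ∀ x y : Vt (C := Th n) ((KJ (n + 1) (j + 1)).obj X),
      ObjKan (Hm (C := Th n) _ x y) := fun x y => Hm_objKan (C := Th n) hV x y
  have hK : ∀ x y : Vt (C := Th n) X, ObjKan ((KJ n j).obj (Hm (C := Th n) X x y)) :=
    fun x y => KJ_objKan W (hSg x y)
  have hη : ∀ x y : Vt (C := Th n) X, ∃ e : (KJ n j).obj (Hm (C := Th n) X x y) ≅
      Hm (C := Th n) ((KJ (n + 1) (j + 1)).obj X)
        (vtMap (C := Th n) ((KJ (n + 1) (j + 1)).η X) x)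
        (vtMap (C := Th n) ((KJ (n + 1) (j + 1)).η X) y),
      (KJ n j).η (Hm (C := Th n) X x y) ≫ e.hom =
        HmMap (C := Th n) ((KJ (n + 1) (j + 1)).η X) x y :=
    fun x y => exists_HmKf (C := Th n) (Tfr n j) (TfrAug n j) X x y
  refine ⟨?_, fun hj => ?_, ?_, ?_, ?_⟩
  · refine sg_RR hV hB fun a b => ?_
    obtain ⟨x, rfl⟩ := hsurj a
    obtain ⟨y, rfl⟩ := hsurj b
    obtain ⟨e, -⟩ := hη x y
    exact (sg_RR_iso (hK x y) (hH' _ _) e.hom (objHoEq_iso e)).1 (ih (hSg x y)).1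
  · refine cj_RR hV fun a b => ?_
    obtain ⟨x, rfl⟩ := hsurj a
    obtain ⟨y, rfl⟩ := hsurj b
    obtain ⟨e, -⟩ := hη x y
    exact (cj_RR_iso (hK x y) (hH' _ _) e.hom (objHoEq_iso e)).1
      ((ih (hSg x y)).2.1 (by omega))
  · intro j' hj' hc
    obtain ⟨i, rfl⟩ : ∃ i, j' = i + 1 := ⟨j' - 1, by omega⟩
    have h2 := (cj_succ_iff hX.1 Set.univ cn_univ).1 hc
    refine cj_RR hV fun a b => ?_
    obtain ⟨x, rfl⟩ := hsurj a
    obtain ⟨y, rfl⟩ := hsurj b
    obtain ⟨e, -⟩ := hη x y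
    exact (cj_RR_iso (hK x y) (hH' _ _) e.hom (objHoEq_iso e)).1
      ((ih (hSg x y)).2.2.1 i (by omega) (h2 x trivial y trivial))
  · intro z
    obtain ⟨a, ha⟩ := RR_vt (C := Th n) hV.1 z
    obtain ⟨x, rfl⟩ := hsurj a
    exact ⟨x, ha⟩
  · intro x y
    obtain ⟨e, he⟩ := hη x y
    obtain ⟨g, hg, hg'⟩ := exists_HmRR (C := Th n) hV
      (vtMap (C := Th n) ((KJ (n + 1) (j + 1)).η X) x)
      (vtMap (C := Th n) ((KJ (n + 1) (j + 1)).η X) y)
    have h3 : InjFib ((RR (Th (n + 1))).obj ((KJ (n + 1) (j + 1)).obj X)) := RR_injFib hV.1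
    have h5 : InjFib (Hm (C := Th n) ((RR (Th (n + 1))).obj ((KJ (n + 1) (j + 1)).obj X))
      (vtMap (C := Th n) ((KJ (n + 1) (j + 1)).η X ≫
        (RR (Th (n + 1))).η ((KJ (n + 1) (j + 1)).obj X)) x)
      (vtMap (C := Th n) ((KJ (n + 1) (j + 1)).η X ≫
        (RR (Th (n + 1))).η ((KJ (n + 1) (j + 1)).obj X)) y)) :=
      Hm_injFib (C := Th n) h3 _ _
    have h6 := (ih (hSg x y)).2.2.2
    have h7 : InjFib ((RR (Th n)).obj ((KJ n j).obj (Hm (C := Th n) X x y))) :=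
      RR_injFib (hK x y)
    have e1 : HmMap (C := Th n) ((KJ (n + 1) (j + 1)).η X ≫
        (RR (Th (n + 1))).η ((KJ (n + 1) (j + 1)).obj X)) x y =
        ((KJ n j).η (Hm (C := Th n) X x y) ≫ (RR (Th n)).η _) ≫ ((RR (Th n)).map e.hom ≫ g) := by
      refine (HmMap_comp (C := Th n) _ _ x y).trans ?_
      refine (congrArg₂ (· ≫ ·) he.symm hg.symm).trans ?_
      exact comp_swap _ _ _ _ _ _ ((RR (Th n)).η_naturality e.hom)
    have h8 : ES n n (((KJ n j).η (Hm (C := Th n) X x y) ≫ (RR (Th n)).η _) ≫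
        ((RR (Th n)).map e.hom ≫ g)) := by
      refine ES_comp h7 h5 (hH x y) h6 (ES_of_objHoEq h7 h5 ?_)
      exact objHoEq_comp (objKan_of_injFib h7) (RR_objKan (hH' _ _)) (objKan_of_injFib h5)
        (RR_map_objHoEq (hK x y) (hH' _ _) (objHoEq_iso e)) hg'
    rw [← e1] at h8
    exact h8

theorem KJ_step_of (W : StepDep) {n j : ℕ} {X : SP (Th n)} (hX : Sg n X) :
    Sg n ((RR (Th n)).obj ((KJ n j).obj X)) ∧
    (j < n → Cj n j ((RR (Th n)).obj ((KJ n j).obj X))) ∧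
    (∀ j', j < j' → Cj n j' X → Cj n j' ((RR (Th n)).obj ((KJ n j).obj X))) ∧
    ES n n ((KJ n j).η X ≫ (RR (Th n)).η ((KJ n j).obj X)) := by
  induction n generalizing j with
  | zero => exact KJ_step_zero W hX
  | succ n ih =>
    cases j with
    | zero => exact KJ_step_T0 W hX
    | succ j => exact KJ_step_succ W (fun hX => ih hX) hX

end

end Helper41FL2
end

/- Helper71.FL2.Cons0 -/
section
/-!
# Project FL2, module D2 (CONS): equivalences of complete Segal presheaves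
(the statements of V1 - V4 used are explicit hypotheses)
-/

open CategoryTheory MonoidalCategory CartesianMonoidalCategory Opposite

set_option autoImplicit false

namespace Pool.Agent.Helper71.FL2

open _root_.FL

/-- The statements of the modules V1 - V4 which are used. -/
structure Deps : Prop where
  vfib : ∀ {C : Type} [SmallCategory C] {X : SP (Wr C)}, InjFib X → VFib X
  spLoc_iff : ∀ {C : Type} [SmallCategory C] {X : SP (Wr C)}, InjFib X → (SpLoc X ↔ BSeg X)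
  objHoEq_of_Hm : ∀ {C : Type} [SmallCategory C] {X Y : SP (Wr C)}, VFib X → VFib Y → BSeg X →
    BSeg Y → ∀ {f : X ⟶ Y}, HoEq (f.app (op Wr.pt)) → ∀ O : Set (Vt X),
    (∀ z : Vt X, ∃ x ∈ O, Cn (X.obj (op Wr.pt)) x z) →
    (∀ x ∈ O, ∀ y ∈ O, ObjHoEq (HmMap f x y)) → ObjHoEq f
  evE_kanFib : ∀ {C : Type} [SmallCategory C] {X : SP (Wr C)}, InjFib X → KanFib (evE X)
  ff_evE : ∀ {C : Type} [SmallCategory C] {X Y : SP (Wr C)}, InjFib X → InjFib Y → BSeg X →
    BSeg Y → ∀ (f : X ⟶ Y), (∀ x y : Vt X, ObjHoEq (HmMap f x y)) →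
    HoEq (Fp.lift (Mp.post (disc (isoPsh C)) f) (evE X) (evE_post f) :
      Mp (disc (isoPsh C)) X ⟶ Fp (evE Y) (f.app (op Wr.pt) ⊗ₘ f.app (op Wr.pt)))
  sg_succ_iff : ∀ {n : ℕ} {X : SP (Th (n + 1))}, InjFib X → ∀ O : Set (Vt (C := Th n) X),
    (∀ z : Vt (C := Th n) X, ∃ x ∈ O, Cn (X.obj (op (ptT (n + 1)))) x z) →
    (Sg (n + 1) X ↔ SpLoc (C := Th n) X ∧ ∀ x ∈ O, ∀ y ∈ O, Sg n (Hm (C := Th n) X x y))
  cj_succ_iff : ∀ {n j : ℕ} {X : SP (Th (n + 1))}, InjFib X → ∀ O : Set (Vt (C := Th n) X),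
    (∀ z : Vt (C := Th n) X, ∃ x ∈ O, Cn (X.obj (op (ptT (n + 1)))) x z) →
    (Cj (n + 1) (j + 1) X ↔ ∀ x ∈ O, ∀ y ∈ O, Cj n j (Hm (C := Th n) X x y))
  cj_zero_iff : ∀ {n : ℕ} {X : SP (Th (n + 1))}, Cj (n + 1) 0 X ↔ Loc X (isoMap (Th n))
  isCat_iff : ∀ {n : ℕ} {X : SP (Th n)}, IsCat n X ↔ Sg n X ∧ ∀ j, Cj n j X

theorem isCat_Hm (D : Deps) {n : ℕ} {X : SP (Th (n + 1))} (hX : IsCat (n + 1) X)
    (x y : Vt (C := Th n) X) : IsCat n (Hm (C := Th n) X x y) := by
  have h := D.isCat_iff.1 hX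
  have hu : ∀ z : Vt (C := Th n) X, ∃ x ∈ (Set.univ : Set (Vt (C := Th n) X)),
      Cn (X.obj (op (ptT (n + 1)))) x z := fun z =>
    ⟨z, trivial, Pool.Agent.Helper54.FL2.cn_refl z⟩
  refine D.isCat_iff.2 ⟨((D.sg_succ_iff hX.inj Set.univ hu).1 h.1).2 x trivial y trivial,
    fun j => (D.cj_succ_iff hX.inj Set.univ hu).1 (h.2 (j + 1)) x trivial y trivial⟩

theorem ES_objHoEq_of (D : Deps) : ∀ (n : ℕ) (X Y : SP (Th n)), IsCat n X → IsCat n Y →
    ∀ (f : X ⟶ Y), ES n n f → ObjHoEq f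
  | 0, X, Y, _, _, f, hf => by
    rintro ⟨⟨⟨⟩⟩⟩
    exact hf
  | (n + 1), X, Y, hX, hY, f, hf => by
    have hH : ∀ x y : Vt (C := Th n) X, ObjHoEq (HmMap (C := Th n) f x y) := fun x y =>
      ES_objHoEq_of D n _ _ (isCat_Hm D hX x y) (isCat_Hm D hY _ _) _ (hf.2 x y)
    have hu : ∀ z : Vt (C := Th n) X, ∃ x ∈ (Set.univ : Set (Vt (C := Th n) X)),
        Cn (X.obj (op (ptT (n + 1)))) x z := fun z =>
      ⟨z, trivial, Pool.Agent.Helper54.FL2.cn_refl z⟩
    have huY : ∀ z : Vt (C := Th n) Y, ∃ x ∈ (Set.univ : Set (Vt (C := Th n) Y)),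
        Cn (Y.obj (op (ptT (n + 1)))) x z := fun z =>
      ⟨z, trivial, Pool.Agent.Helper54.FL2.cn_refl z⟩
    have h1 := D.isCat_iff.1 hX
    have h2 := D.isCat_iff.1 hY
    have hBX : BSeg (C := Th n) X :=
      (D.spLoc_iff (C := Th n) hX.inj).1 ((D.sg_succ_iff hX.inj Set.univ hu).1 h1.1).1
    have hBY : BSeg (C := Th n) Y :=
      (D.spLoc_iff (C := Th n) hY.inj).1 ((D.sg_succ_iff hY.inj Set.univ huY).1 h2.1).1
    have h0 : HoEq (f.app (op (Wr.pt : Wr (Th n)))) :=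
      hoEq_pt (C := Th n) hX.inj hY.inj (D.cj_zero_iff.1 (h1.2 0)) (D.cj_zero_iff.1 (h2.2 0)) f
        (D.evE_kanFib (C := Th n) hX.inj) (D.evE_kanFib (C := Th n) hY.inj)
        (D.ff_evE (C := Th n) hX.inj hY.inj hBX hBY f hH) hf.1
    exact D.objHoEq_of_Hm (C := Th n) (D.vfib (C := Th n) hX.inj) (D.vfib (C := Th n) hY.inj)
      hBX hBY h0 Set.univ hu fun x _ y _ => hH x y

end Pool.Agent.Helper71.FL2
end

/- Helper91.FL2.RSFinal -/
section
/-!
# FL2, module V3 RS: the last statement of the section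
-/

open CategoryTheory MonoidalCategory Opposite

set_option autoImplicit false

namespace Pool.Agent.Helper91.FL2

open _root_.FL

variable {C : Type} [SmallCategory C]

/-- Fully faithful maps of Segal presheaves are cartesian over the space of equivalences. -/
theorem ff_evE {X Y : SP (Wr C)} (hX : InjFib X) (hY : InjFib Y) (hX' : BSeg X) (hY' : BSeg Y)
    (f : X ⟶ Y) (h : ∀ x y : Vt X, ObjHoEq (HmMap f x y)) :
    HoEq (Fp.lift (Mp.post (disc (isoPsh C)) f) (evE X) (evE_post f) :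
      Mp (disc (isoPsh C)) X ⟶ Fp (evE Y) (f.app (op Wr.pt) ⊗ₘ f.app (op Wr.pt))) :=
  ff_evE_of (fun hX => Helper53FL2.InjFib.vfib hX)
    (fun hX hY hX' hY' _ h0 O hO h => Pool.Agent.Helper61.FL2.objHoEq_of_Hm hX hY hX' hY' h0 O hO h)
    hX hY hX' hY' f h

end Pool.Agent.Helper91.FL2
end

/- Helper71.FL2.Cons -/
section
/-!
# Project FL2, module D2 (CONS): equivalences of complete Segal presheaves
-/

open CategoryTheory MonoidalCategory Opposite

set_option autoImplicit false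

namespace Pool.Agent.Helper71.FL2

open _root_.FL

theorem deps : Deps where
  vfib := fun hX => Helper53FL2.InjFib.vfib hX
  spLoc_iff := fun hX => Pool.Agent.Helper61.FL2.spLoc_iff hX
  objHoEq_of_Hm := fun hX hY hX' hY' _ h0 O hO h =>
    Pool.Agent.Helper61.FL2.objHoEq_of_Hm hX hY hX' hY' h0 O hO h
  evE_kanFib := fun hX => Pool.Agent.Helper91.FL2.evE_kanFib hX
  ff_evE := fun hX hY hX' hY' f h => Pool.Agent.Helper91.FL2.ff_evE hX hY hX' hY' f h
  sg_succ_iff := fun hX O hO => Helper41FL2.sg_succ_iff hX O hO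
  cj_succ_iff := fun hX O hO => Helper41FL2.cj_succ_iff hX O hO
  cj_zero_iff := Helper41FL2.cj_zero_iff
  isCat_iff := Helper41FL2.isCat_iff

/-- The mapping presheaves of an `(∞,n+1)`-category are `(∞,n)`-categories. -/
theorem isCat_Hm' {n : ℕ} {X : SP (Th (n + 1))} (hX : IsCat (n + 1) X)
    (x y : Vt (C := Th n) X) : IsCat n (Hm (C := Th n) X x y) := isCat_Hm deps hX x y

theorem ES_objHoEq {n : ℕ} {X Y : SP (Th n)} (hX : IsCat n X) (hY : IsCat n Y) {f : X ⟶ Y}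
    (hf : ES n n f) : ObjHoEq f := ES_objHoEq_of deps n X Y hX hY f hf

end Pool.Agent.Helper71.FL2
end

/- Helper55.FL2.TruncA -/
section
/-! FL2-F1b, part 1: the map `X ∘ t_i ⟶ X`. -/

open CategoryTheory MonoidalCategory Opposite

set_option autoImplicit false

namespace Pool.Agent.Helper55.FL2

open FL
open Helper41FL2 (sg_succ_iff cj_succ_iff isCat_iff RR_vt exists_HmRR)
open Pool.Agent.Helper61.FL2 (spLoc_iff ES_of_arrow_iso ES_comp ES_of_objHoEq ES_of_comp_left)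
open Pool.Agent.Helper71.FL2 (ES_objHoEq)
open Pool.Agent.Helper25.FL2 (isCat_of_truncated_zero)
open Pool.Agent.Helper91.FL2 (Rs_injFib Rs_Hm_isIso)
open Pool.Agent.Helper25.FL2 (vu hmIso hom_ext_zero unit_toPt toPt_unit unit_inj)
open Pool.Agent.Helper88.FL (hoEq_comp hoEq_of_comp_left hoEq_of_comp_right hoEq_of_isIso
  hoEq_of_arrow_iso)

theorem vfib_tr {n : ℕ} {X : SP (Th (n + 1))} (hX : VFib (C := Th n) X) (i : ℕ) :
    VFib (C := Th n) ((tr (n + 1) (i + 1)).op ⋙ X) :=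
  Pool.Agent.Helper25.FL2.vfib_tr (tr n i) (trUnit n i) X hX

theorem bSeg_tr {n : ℕ} {X : SP (Th (n + 1))} (hX' : BSeg (C := Th n) X) (i : ℕ) :
    BSeg (C := Th n) ((tr (n + 1) (i + 1)).op ⋙ X) :=
  Pool.Agent.Helper25.FL2.bSeg_tr (tr n i) (trUnit n i) X hX'

/-- The map `Z ∘ t_i ⟶ Z`. -/
noncomputable def tU (n i : ℕ) (Z : SP (Th n)) : (tr n i).op ⋙ Z ⟶ Z where
  app θ := Z.map ((trUnit n i).app θ.unop).op
  naturality θ θ' f := by
    have h : f.unop ≫ (trUnit n i).app θ.unop =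
      (trUnit n i).app θ'.unop ≫ (tr n i).map f.unop := (trUnit n i).naturality f.unop
    refine (Z.map_comp _ _).symm.trans (Eq.trans ?_ (Z.map_comp _ _))
    exact congrArg (fun t => Z.map (Quiver.Hom.op t)) h.symm

theorem truncated_iff {n i : ℕ} {Z : SP (Th n)} : Truncated i Z ↔ ObjHoEq (tU n i Z) :=
  ⟨fun h a => h a.unop, fun h θ => h (op θ)⟩

theorem tU_Hm {n i : ℕ} (Z : SP (Th (n + 1)))
    (a b : Vt (C := Th n) ((tr (n + 1) (i + 1)).op ⋙ Z)) :
    (hmIso (C := Th n) (tr n i) (trUnit n i) Z a b).hom ≫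
      tU n i (Hm (C := Th n) Z (vu (C := Th n) (tr n i) (trUnit n i) Z a)
        (vu (C := Th n) (tr n i) (trUnit n i) Z b)) =
      HmMap (C := Th n) (tU (n + 1) (i + 1) Z) a b := rfl

theorem tU_nat {n i : ℕ} {Z Z' : SP (Th n)} (f : Z ⟶ Z') :
    Functor.whiskerLeft (tr n i).op f ≫ tU n i Z' = tU n i Z ≫ f := by
  refine NatTrans.ext (funext fun a => ?_)
  exact (f.naturality ((trUnit n i).app a.unop).op).symm

theorem objKan_tr {n : ℕ} (i : ℕ) {X : SP (Th n)} (hX : ObjKan X) :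
    ObjKan ((tr n i).op ⋙ X) := fun a => hX (op ((tr n i).obj a.unop))

theorem truncated_of_objHoEq {n i : ℕ} {Z Z' : SP (Th n)} (hZ : ObjKan Z) (hZ' : ObjKan Z')
    (f : Z ⟶ Z') (hf : ObjHoEq f) (h : Truncated i Z) : Truncated i Z' := by
  intro θ
  have e : f.app _ ≫ Z'.map ((trUnit n i).app θ).op = Z.map ((trUnit n i).app θ).op ≫ f.app _ :=
    (f.naturality ((trUnit n i).app θ).op).symm
  refine hoEq_of_comp_left (hZ _) (hZ' _) (hZ' _) (hf (op ((tr n i).obj θ))) ?_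
  rw [e]
  exact hoEq_comp (hZ _) (hZ _) (hZ' _) (h θ) (hf _)

end Pool.Agent.Helper55.FL2
end

/- Helper55.FL2.TruncB -/
section
/-! FL2-F1b, part 2: truncated presheaves and their mapping presheaves. -/

open CategoryTheory MonoidalCategory Opposite

set_option autoImplicit false

namespace Pool.Agent.Helper55.FL2

open FL
open Helper41FL2 (sg_succ_iff cj_succ_iff isCat_iff RR_vt exists_HmRR)
open Pool.Agent.Helper61.FL2 (spLoc_iff ES_of_arrow_iso ES_comp ES_of_objHoEq ES_of_comp_left)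
open Pool.Agent.Helper71.FL2 (ES_objHoEq)
open Pool.Agent.Helper25.FL2 (isCat_of_truncated_zero)
open Pool.Agent.Helper91.FL2 (Rs_injFib Rs_Hm_isIso)
open Pool.Agent.Helper25.FL2 (vu hmIso hom_ext_zero unit_toPt toPt_unit unit_inj tr_vt_bij)
open Pool.Agent.Helper88.FL (hoEq_comp hoEq_of_comp_left hoEq_of_comp_right hoEq_of_isIso
  hoEq_of_arrow_iso)
open Pool.Agent.Helper54.FL2 (cn_map)

variable {n : ℕ}

theorem objHoEq_iso_comp {A : Type} [SmallCategory A] {X Y Z : SP A} (e : X ≅ Y) (f : Y ⟶ Z) :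
    ObjHoEq (e.hom ≫ f) ↔ ObjHoEq f := by
  constructor
  · intro h a
    exact hoEq_of_arrow_iso (e.app a) (Iso.refl _) rfl (h a)
  · intro h a
    refine hoEq_of_arrow_iso (e.app a).symm (Iso.refl _) ?_ (h a)
    show f.app a ≫ 𝟙 _ = e.inv.app a ≫ e.hom.app a ≫ f.app a
    rw [Category.comp_id, ← Category.assoc, ← NatTrans.comp_app, e.inv_hom_id, NatTrans.id_app,
      Category.id_comp]

theorem truncated_Hm {Z : SP (Th (n + 1))} (hZ : VFib (C := Th n) Z) {i : ℕ}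
    (h : Truncated (i + 1) Z) (x y : Vt (C := Th n) Z) :
    Truncated i (Hm (C := Th n) Z x y) := by
  obtain ⟨a, rfl⟩ := (tr_vt_bij Z i).2 x
  obtain ⟨b, rfl⟩ := (tr_vt_bij Z i).2 y
  refine truncated_iff.2 ?_
  have h1 := Pool.Agent.Helper61.FL2.HmMap_objHoEq (C := Th n) (vfib_tr hZ i) hZ
    (truncated_iff.1 h) a b
  exact (objHoEq_iso_comp (hmIso (C := Th n) (tr n i) (trUnit n i) Z a b) (tU n i _)).1 h1

theorem truncated_of_Hm {Z : SP (Th (n + 1))} (hZ : VFib (C := Th n) Z)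
    (hB : BSeg (C := Th n) Z) {i : ℕ} (O : Set (Vt (C := Th n) Z))
    (hO : ∀ z : Vt (C := Th n) Z, ∃ x ∈ O, Cn (Z.obj (op (ptT (n + 1)))) x z)
    (h : ∀ x ∈ O, ∀ y ∈ O, Truncated i (Hm (C := Th n) Z x y)) : Truncated (i + 1) Z := by
  have key : ∀ (k : SimplexCategoryᵒᵖ)
      (z : (Z.obj (op ((Wr.map (tr n i)).obj (Wr.pt : Wr (Th n))))).obj k),
      (Z.map (Wr.toPt ((Wr.map (tr n i)).obj (Wr.pt : Wr (Th n)))).op).app k
        ((Z.map ((Wr.mapIdNat (trUnit n i)).app (Wr.pt : Wr (Th n))).op).app k z) = z := by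
    intro k z
    refine (sp_comp Z ((Wr.mapIdNat (trUnit n i)).app (Wr.pt : Wr (Th n))).op
      (Wr.toPt ((Wr.map (tr n i)).obj (Wr.pt : Wr (Th n)))).op z).symm.trans ?_
    refine Eq.trans ?_ (sp_id Z z)
    exact congrArg (fun t => (Z.map (Quiver.Hom.op t)).app k z) (toPt_unit (tr n i) (trUnit n i))
  refine truncated_iff.2 (Pool.Agent.Helper61.FL2.objHoEq_of_Hm (C := Th n) (vfib_tr hZ i) hZ
    (bSeg_tr hB i) hB (f := tU (n + 1) (i + 1) Z) ?_
    {a | vu (C := Th n) (tr n i) (trUnit n i) Z a ∈ O} ?_ ?_)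
  · let I : (Wr.pt : Wr (Th n)) ≅ (Wr.map (tr n i)).obj (Wr.pt : Wr (Th n)) :=
      ⟨(Wr.mapIdNat (trUnit n i)).app (Wr.pt : Wr (Th n)), Wr.toPt _,
        unit_toPt (tr n i) (trUnit n i), toPt_unit (tr n i) (trUnit n i)⟩
    exact hoEq_of_isIso (Functor.mapIso Z (Iso.op I)).hom
  · intro z
    obtain ⟨x, hx, hc⟩ := hO (vu (C := Th n) (tr n i) (trUnit n i) Z z)
    obtain ⟨a, rfl⟩ := (tr_vt_bij Z i).2 x
    refine ⟨a, hx, ?_⟩
    have h1 := cn_map (Z.map (Wr.toPt ((Wr.map (tr n i)).obj (Wr.pt : Wr (Th n)))).op) hc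
    have e1 := key _ a
    have e2 := key _ z
    exact (congrArg₂ (Cn (Z.obj (op ((Wr.map (tr n i)).obj (Wr.pt : Wr (Th n)))))) e1 e2).mp h1
  · intro a ha b hb
    exact (objHoEq_iso_comp (hmIso (C := Th n) (tr n i) (trUnit n i) Z a b) (tU n i _)).2
      (truncated_iff.1 (h _ ha _ hb))

end Pool.Agent.Helper55.FL2
end

/- Helper55.FL2.TruncC -/
section
/-! FL2-F1b, part 3: `tr_down` and `tr_up`. -/

open CategoryTheory MonoidalCategory Opposite

set_option autoImplicit false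

namespace Pool.Agent.Helper55.FL2

open FL
open Helper41FL2 (sg_succ_iff cj_succ_iff isCat_iff RR_vt exists_HmRR)
open Pool.Agent.Helper61.FL2 (spLoc_iff ES_of_arrow_iso ES_comp ES_of_objHoEq ES_of_comp_left)
open Pool.Agent.Helper71.FL2 (ES_objHoEq)
open Pool.Agent.Helper25.FL2 (isCat_of_truncated_zero)
open Pool.Agent.Helper91.FL2 (Rs_injFib Rs_Hm_isIso)
open Pool.Agent.Helper25.FL2 (vu hmIso hom_ext_zero unit_toPt toPt_unit unit_inj tr_vt_bij)
open Pool.Agent.Helper88.FL (hoEq_comp hoEq_of_comp_left hoEq_of_comp_right hoEq_of_isIso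
  hoEq_of_arrow_iso)
open Pool.Agent.Helper54.FL2 (cn_map cn_trans cn_refl kan_fb)
open Helper41FL2 (RR_injFib RR_objKan RR_objHoEq RR_map_objHoEq)
open Helper53FL2 (Hm_injFib InjFib.vfib)

theorem objKan_of_inj {A : Type} [SmallCategory A] {Z : SP A} (hZ : InjFib Z) : ObjKan Z :=
  Pool.Agent.Helper46.FLb.InjFib.objKan (fun P _ h => Pool.Agent.Helper83.FL4.Mp_kan P h) hZ

variable {n : ℕ}

theorem hm_sg {X : SP (Th (n + 1))} (hX : Sg (n + 1) X) (x y : Vt (C := Th n) X) :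
    Sg n (Hm (C := Th n) X x y) :=
  ((sg_succ_iff hX.1 Set.univ fun z => ⟨z, trivial, cn_refl z⟩).1 hX).2 x trivial y trivial

theorem hm_isCat {Y : SP (Th (n + 1))} (hY : IsCat (n + 1) Y) (x y : Vt (C := Th n) Y) :
    IsCat n (Hm (C := Th n) Y x y) := by
  have h := isCat_iff.1 hY
  refine isCat_iff.2 ⟨hm_sg h.1 x y, fun j => ?_⟩
  exact (cj_succ_iff h.1.1 Set.univ fun z => ⟨z, trivial, cn_refl z⟩).1 (h.2 (j + 1)) x trivial
    y trivial

theorem objHoEq_of_isIso {A : Type} [SmallCategory A] {X Y : SP A} (f : X ⟶ Y) [IsIso f] :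
    ObjHoEq f := fun _ => hoEq_of_isIso _

theorem alg {K : Type*} [Category K] {A B R S U V : K} (φ : A ≅ B) (ηB : B ⟶ R) (ηA : A ⟶ S)
    (m : R ⟶ S) (g : S ⟶ U) (q : U ⟶ V) (h1 : φ.inv ≫ ηA = ηB ≫ m) :
    φ.hom ≫ ηB ≫ (m ≫ g) ≫ q = (ηA ≫ g) ≫ q := by
  have h2 : φ.hom ≫ ηB ≫ m = ηA := by
    rw [← h1, ← Category.assoc, φ.hom_inv_id, Category.id_comp]
  rw [← h2]
  simp only [Category.assoc]

/-- The comparison for mapping presheaves. -/
theorem hm_data {X Y : SP (Th (n + 1))} (hX : InjFib X) (hY : InjFib Y) (i : ℕ)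
    (e' : (RR (Th (n + 1))).obj ((tr (n + 1) (i + 1)).op ⋙ X) ⟶ Y)
    (a b : Vt (C := Th n) ((tr (n + 1) (i + 1)).op ⋙ X)) :
    ∃ e₁ : (RR (Th n)).obj ((tr n i).op ⋙ Hm (C := Th n) X
        (vu (C := Th n) (tr n i) (trUnit n i) X a) (vu (C := Th n) (tr n i) (trUnit n i) X b)) ⟶
      Hm (C := Th n) Y
        (vtMap (C := Th n) ((RR (Th (n + 1))).η ((tr (n + 1) (i + 1)).op ⋙ X) ≫ e') a)
        (vtMap (C := Th n) ((RR (Th (n + 1))).η ((tr (n + 1) (i + 1)).op ⋙ X) ≫ e') b),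
      (hmIso (C := Th n) (tr n i) (trUnit n i) X a b).hom ≫ (RR (Th n)).η _ ≫ e₁ =
        HmMap (C := Th n) ((RR (Th (n + 1))).η ((tr (n + 1) (i + 1)).op ⋙ X) ≫ e') a b ∧
      (ES n n e₁ ↔ ES n n (HmMap (C := Th n) e'
        (vtMap (C := Th n) ((RR (Th (n + 1))).η ((tr (n + 1) (i + 1)).op ⋙ X)) a)
        (vtMap (C := Th n) ((RR (Th (n + 1))).η ((tr (n + 1) (i + 1)).op ⋙ X)) b))) := by
  have hV : VFib (C := Th n) ((tr (n + 1) (i + 1)).op ⋙ X) :=
    vfib_tr (InjFib.vfib (C := Th n) hX) i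
  obtain ⟨g, hg1, hg2⟩ := exists_HmRR (C := Th n) hV a b
  have hI : InjFib ((RR (Th (n + 1))).obj ((tr (n + 1) (i + 1)).op ⋙ X)) :=
    RR_injFib (objKan_tr (i + 1) (objKan_of_inj hX))
  have k1 : ObjKan (Hm (C := Th n) ((tr (n + 1) (i + 1)).op ⋙ X) a b) := fun c =>
    kan_fb (hV.2 c.unop) (a, b)
  have k2 : ObjKan ((tr n i).op ⋙ Hm (C := Th n) X
        (vu (C := Th n) (tr n i) (trUnit n i) X a)
        (vu (C := Th n) (tr n i) (trUnit n i) X b)) :=
    objKan_tr i (objKan_of_inj (Hm_injFib (C := Th n) hX _ _))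
  have i1 := RR_injFib k2
  have i2 := Hm_injFib (C := Th n) hI
    (vtMap (C := Th n) ((RR (Th (n + 1))).η ((tr (n + 1) (i + 1)).op ⋙ X)) a)
    (vtMap (C := Th n) ((RR (Th (n + 1))).η ((tr (n + 1) (i + 1)).op ⋙ X)) b)
  let φ := hmIso (C := Th n) (tr n i) (trUnit n i) X a b
  have hq : ObjHoEq ((RR (Th n)).map φ.inv ≫ g) := by
    intro c
    have h1 : ObjHoEq ((RR (Th n)).map φ.inv) :=
      RR_map_objHoEq k2 k1 (objHoEq_of_isIso φ.inv)
    exact hoEq_comp (RR_objKan k2 c) (RR_objKan k1 c) (objKan_of_inj i2 c) (h1 c) (hg2 c)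
  have hq' : ES n n ((RR (Th n)).map φ.inv ≫ g) := ES_of_objHoEq i1 i2 hq
  have i3 := Hm_injFib (C := Th n) hY
    (vtMap (C := Th n) ((RR (Th (n + 1))).η ((tr (n + 1) (i + 1)).op ⋙ X) ≫ e') a)
    (vtMap (C := Th n) ((RR (Th (n + 1))).η ((tr (n + 1) (i + 1)).op ⋙ X) ≫ e') b)
  refine ⟨((RR (Th n)).map φ.inv ≫ g) ≫ HmMap (C := Th n) e' _ _, ?_, ?_⟩
  · have h1 : φ.inv ≫ (RR (Th n)).η _ = (RR (Th n)).η _ ≫ (RR (Th n)).map φ.inv :=
      (RR (Th n)).η_naturality φ.inv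
    exact (alg φ _ _ _ g _ h1).trans (congrArg (· ≫ HmMap (C := Th n) e' _ _) hg1)
  · exact ⟨fun h => ES_of_comp_left i1 i2 i3 hq' h, fun h => ES_comp i2 i3 i1 hq' h⟩

end Pool.Agent.Helper55.FL2
end

/- Helper55.FL2.TruncD -/
section
/-! FL2-F1b, part 4: `tr_down` and `tr_up`. -/

open CategoryTheory MonoidalCategory Opposite

set_option autoImplicit false

namespace Pool.Agent.Helper55.FL2

open FL
open Helper41FL2 (sg_succ_iff cj_succ_iff isCat_iff RR_vt exists_HmRR)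
open Pool.Agent.Helper61.FL2 (spLoc_iff ES_of_arrow_iso ES_comp ES_of_objHoEq ES_of_comp_left)
open Pool.Agent.Helper71.FL2 (ES_objHoEq)
open Pool.Agent.Helper25.FL2 (isCat_of_truncated_zero)
open Pool.Agent.Helper91.FL2 (Rs_injFib Rs_Hm_isIso)
open Pool.Agent.Helper25.FL2 (vu hmIso hom_ext_zero unit_toPt toPt_unit unit_inj tr_vt_bij)
open Pool.Agent.Helper88.FL (hoEq_comp hoEq_of_comp_left hoEq_of_comp_right hoEq_of_isIso
  hoEq_of_arrow_iso)
open Pool.Agent.Helper54.FL2 (cn_map cn_trans cn_refl kan_fb)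
open Helper41FL2 (RR_injFib RR_objKan RR_objHoEq RR_map_objHoEq)
open Helper53FL2 (Hm_injFib InjFib.vfib)

theorem truncated_const {n : ℕ} (X : SP (Th (n + 1))) :
    Truncated 0 ((tr (n + 1) 0).op ⋙ X) := by
  intro θ
  have e : ((tr (n + 1) 0).op ⋙ X).map ((trUnit (n + 1) 0).app θ).op =
    𝟙 (X.obj (op (Wr.pt : Wr (Th n)))) := X.map_id (op (Wr.pt : Wr (Th n)))
  have h : HoEq (𝟙 (X.obj (op (Wr.pt : Wr (Th n))))) := hoEq_of_isIso _
  rw [← e] at h
  exact h

theorem tr_down_aux : ∀ (n : ℕ) {X Y : SP (Th n)} (_ : Sg n X) (_ : IsCat n Y) (i : ℕ)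
    (e' : (RR (Th n)).obj ((tr n i).op ⋙ X) ⟶ Y) (_ : ES n n e'),
    ES n i ((RR (Th n)).η ((tr n i).op ⋙ X) ≫ e') ∧ Truncated i Y := by
  intro n
  induction n with
  | zero =>
    intro X Y hX hY i e' he
    have hK := objKan_tr i (objKan_of_inj hX.1)
    refine ⟨?_, ?_⟩
    · have he' : HoEq (e'.app (op (ptT 0))) := he
      exact hoEq_comp (hK _) (RR_objKan hK _) (objKan_of_inj hY.inj _) (RR_objHoEq hK _) he'
    · intro θ
      have e : Y.map ((trUnit 0 i).app θ).op = 𝟙 (Y.obj (op θ)) := Y.map_id (op θ)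
      have h : HoEq (𝟙 (Y.obj (op θ))) := hoEq_of_isIso _
      rw [← e] at h
      exact h
  | succ n ih =>
    intro X Y hX hY i e' he
    have hXK := objKan_of_inj hX.1
    have hYK := objKan_of_inj hY.inj
    cases i with
    | zero =>
      have hK := objKan_tr 0 hXK
      have hI := RR_injFib hK
      have hT : Truncated 0 ((RR (Th (n + 1))).obj ((tr (n + 1) 0).op ⋙ X)) :=
        truncated_of_objHoEq hK (RR_objKan hK) _ (RR_objHoEq hK) (truncated_const X)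
      have hC := isCat_of_truncated_zero hI hT
      have h1 : ObjHoEq e' := ES_objHoEq hC hY he
      refine ⟨?_, truncated_of_objHoEq (RR_objKan hK) hYK e' h1 hT⟩
      exact hoEq_comp (hK _) (RR_objKan hK _) (hYK _) (RR_objHoEq hK _) (h1 _)
    | succ i =>
      have hK := objKan_tr (i + 1) hXK
      have hsurj : ∀ y : Vt (C := Th n) Y, ∃ a : Vt (C := Th n) ((tr (n + 1) (i + 1)).op ⋙ X),
          Cn (Y.obj (op (ptT (n + 1))))
            (vtMap (C := Th n) ((RR (Th (n + 1))).η ((tr (n + 1) (i + 1)).op ⋙ X) ≫ e') a) y := by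
        intro y
        obtain ⟨z, hz⟩ := he.1 y
        obtain ⟨a, ha⟩ := RR_vt (C := Th n) hK z
        exact ⟨a, cn_trans (hYK _) (cn_map (e'.app (op (ptT (n + 1)))) ha) hz⟩
      have main : ∀ a b : Vt (C := Th n) ((tr (n + 1) (i + 1)).op ⋙ X),
          ES n i (HmMap (C := Th n)
            ((RR (Th (n + 1))).η ((tr (n + 1) (i + 1)).op ⋙ X) ≫ e') a b) ∧
          Truncated i (Hm (C := Th n) Y
            (vtMap (C := Th n) ((RR (Th (n + 1))).η ((tr (n + 1) (i + 1)).op ⋙ X) ≫ e') a)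
            (vtMap (C := Th n) ((RR (Th (n + 1))).η ((tr (n + 1) (i + 1)).op ⋙ X) ≫ e') b)) := by
        intro a b
        obtain ⟨e₁, h1, h2⟩ := hm_data hX.1 hY.inj i e' a b
        obtain ⟨h3, h4⟩ := ih (hm_sg hX _ _) (hm_isCat hY _ _) i e₁ (h2.2 (he.2 _ _))
        refine ⟨?_, h4⟩
        exact ES_of_arrow_iso (hmIso (C := Th n) (tr n i) (trUnit n i) X a b).symm
          (Iso.refl _) ((Category.comp_id _).trans
            (((hmIso (C := Th n) (tr n i) (trUnit n i) X a b).inv_hom_id_assoc _).symm.trans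
              (congrArg ((hmIso (C := Th n) (tr n i) (trUnit n i) X a b).inv ≫ ·) h1))) h3
      refine ⟨⟨hsurj, fun a b => (main a b).1⟩, ?_⟩
      have hSp : SpLoc (C := Th n) Y := ((sg_succ_iff hY.inj Set.univ
        fun z => ⟨z, trivial, cn_refl z⟩).1 (isCat_iff.1 hY).1).1
      refine truncated_of_Hm (InjFib.vfib (C := Th n) hY.inj)
        ((spLoc_iff (C := Th n) hY.inj).1 hSp)
        (Set.range fun a => vtMap (C := Th n)
          ((RR (Th (n + 1))).η ((tr (n + 1) (i + 1)).op ⋙ X) ≫ e') a) ?_ ?_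
      · intro y
        obtain ⟨a, ha⟩ := hsurj y
        exact ⟨_, ⟨a, rfl⟩, ha⟩
      · rintro _ ⟨a, rfl⟩ _ ⟨b, rfl⟩
        exact (main a b).2

theorem tr_up_aux : ∀ (n : ℕ) {X D : SP (Th n)} (_ : Sg n X) (_ : Sg n D) (i : ℕ)
    (_ : Truncated i D) (e' : (RR (Th n)).obj ((tr n i).op ⋙ X) ⟶ D)
    (_ : ES n i ((RR (Th n)).η ((tr n i).op ⋙ X) ≫ e')), ES n n e' := by
  intro n
  induction n with
  | zero =>
    intro X D hX hD i hT e' he
    have hK := objKan_tr i (objKan_of_inj hX.1)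
    have he' : HoEq (((RR (Th 0)).η ((tr 0 i).op ⋙ X)).app (op (ptT 0)) ≫
      e'.app (op (ptT 0))) := he
    exact hoEq_of_comp_left (hK _) (RR_objKan hK _) (objKan_of_inj hD.1 _)
      (RR_objHoEq hK _) he'
  | succ n ih =>
    intro X D hX hD i hT e' he
    have hXK := objKan_of_inj hX.1
    have hDK := objKan_of_inj hD.1
    cases i with
    | zero =>
      have hK := objKan_tr 0 hXK
      have hI := RR_injFib hK
      have he' : HoEq (((RR (Th (n + 1))).η ((tr (n + 1) 0).op ⋙ X) ≫ e').app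
        (op (ptT (n + 1)))) := he
      refine ES_of_objHoEq hI hD.1 fun θ => ?_
      refine hoEq_of_comp_left (hK _) (RR_objKan hK _) (hDK _) (RR_objHoEq hK θ) ?_
      have h1 := ((RR (Th (n + 1))).η ((tr (n + 1) 0).op ⋙ X) ≫ e').naturality
        ((trUnit (n + 1) 0).app θ.unop).op
      refine hoEq_of_comp_left (hK _) (hK _) (hDK _) (truncated_const X θ.unop) ?_
      have h2 := hoEq_comp (hK _) (hDK _) (hDK _) he' (hT θ.unop)
      exact (congrArg HoEq h1).mpr h2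
    | succ i =>
      have hK := objKan_tr (i + 1) hXK
      have hI := RR_injFib hK
      have main : ∀ a b : Vt (C := Th n) ((tr (n + 1) (i + 1)).op ⋙ X),
          ES n n (HmMap (C := Th n) e'
            (vtMap (C := Th n) ((RR (Th (n + 1))).η ((tr (n + 1) (i + 1)).op ⋙ X)) a)
            (vtMap (C := Th n) ((RR (Th (n + 1))).η ((tr (n + 1) (i + 1)).op ⋙ X)) b)) := by
        intro a b
        obtain ⟨e₁, h1, h2⟩ := hm_data hX.1 hD.1 i e' a b
        refine h2.1 (ih (hm_sg hX _ _) (hm_sg hD _ _) i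
          (truncated_Hm (InjFib.vfib (C := Th n) hD.1) hT _ _) e₁ ?_)
        exact ES_of_arrow_iso (hmIso (C := Th n) (tr n i) (trUnit n i) X a b)
          (Iso.refl _) ((Category.comp_id _).trans h1.symm) (he.2 a b)
      -- restriction to the vertices of `X ∘ t`
      let η := (RR (Th (n + 1))).η ((tr (n + 1) (i + 1)).op ⋙ X)
      let W : SP (Th (n + 1)) := Rs (C := Th n)
        ((RR (Th (n + 1))).obj ((tr (n + 1) (i + 1)).op ⋙ X)) (η.app (op (ptT (n + 1))))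
      let q : W ⟶ (RR (Th (n + 1))).obj ((tr (n + 1) (i + 1)).op ⋙ X) :=
        Rs.fst (C := Th n) _ (η.app (op (ptT (n + 1))))
      have hW : InjFib W := Rs_injFib (C := Th n) hI (hK _) _
      have hq1 : ∀ w : Vt (C := Th n) W, ∃ a : Vt (C := Th n) ((tr (n + 1) (i + 1)).op ⋙ X),
          vtMap (C := Th n) q w = vtMap (C := Th n) η a := by
        intro w
        refine ⟨w.1.2 0, ?_⟩
        refine Eq.trans ?_ (w.2 0)
        have e0 : vtx (Wr.pt : Wr (Th n)) 0 = 𝟙 _ := Wr.toPt_unique _ _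
        refine (sp_id ((RR (Th (n + 1))).obj ((tr (n + 1) (i + 1)).op ⋙ X)) w.1.1).symm.trans ?_
        exact congrArg (fun t => (((RR (Th (n + 1))).obj
          ((tr (n + 1) (i + 1)).op ⋙ X)).map (Quiver.Hom.op t)).app _ w.1.1) e0.symm
      have hq2 : ∀ a : Vt (C := Th n) ((tr (n + 1) (i + 1)).op ⋙ X),
          ∃ w : Vt (C := Th n) W, vtMap (C := Th n) q w = vtMap (C := Th n) η a := fun a =>
        ⟨vtMap (C := Th n) (toRs (C := Th n) η) a, rfl⟩
      have hiso : ∀ w w' : Vt (C := Th n) W, ES n n (HmMap (C := Th n) q w w') := by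
        intro w w'
        have := Rs_Hm_isIso (C := Th n) (η.app (op (ptT (n + 1)))) w w'
        exact ES_of_objHoEq (Hm_injFib (C := Th n) hW _ _) (Hm_injFib (C := Th n) hI _ _)
          (objHoEq_of_isIso _)
      have hES : ES (n + 1) (n + 1) q := by
        refine ⟨fun z => ?_, hiso⟩
        obtain ⟨a, ha⟩ := RR_vt (C := Th n) hK z
        obtain ⟨w, hw⟩ := hq2 a
        exact ⟨w, by rw [hw]; exact ha⟩
      have hES' : ES (n + 1) (n + 1) (q ≫ e') := by
        refine ⟨fun y => ?_, fun w w' => ?_⟩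
        · obtain ⟨a, ha⟩ := he.1 y
          obtain ⟨w, hw⟩ := hq2 a
          refine ⟨w, ?_⟩
          have h1 : vtMap (C := Th n) (q ≫ e') w = vtMap (C := Th n) (η ≫ e') a :=
            congrArg (vtMap (C := Th n) e') hw
          exact (congrArg (fun t => Cn (D.obj (op (ptT (n + 1)))) t y) h1).mpr ha
        · have h1 : ∀ z z' : Vt (C := Th n)
              ((RR (Th (n + 1))).obj ((tr (n + 1) (i + 1)).op ⋙ X)),
              (∃ a, z = vtMap (C := Th n) η a) → (∃ b, z' = vtMap (C := Th n) η b) →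
              ES n n (HmMap (C := Th n) e' z z') := by
            rintro _ _ ⟨a, rfl⟩ ⟨b, rfl⟩
            exact main a b
          exact ES_comp (Hm_injFib (C := Th n) hI _ _) (Hm_injFib (C := Th n) hD.1 _ _)
            (Hm_injFib (C := Th n) hW _ _) (hiso w w') (h1 _ _ (hq1 w) (hq1 w'))
      exact ES_of_comp_left hW hI hD.1 hES hES'

variable {n : ℕ}

theorem tr_down {X Y : SP (Th n)} (hX : Sg n X) (hY : IsCat n Y) {i : ℕ}
    (e : (tr n i).op ⋙ X ⟶ Y) (e' : (RR (Th n)).obj ((tr n i).op ⋙ X) ⟶ Y)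
    (h : (RR (Th n)).η _ ≫ e' = e) (he : ES n n e') : ES n i e ∧ Truncated i Y := by
  subst h
  exact tr_down_aux n hX hY i e' he

theorem tr_up {X D : SP (Th n)} (hX : Sg n X) (hD : Sg n D) {i : ℕ} (hT : Truncated i D)
    (e : (tr n i).op ⋙ X ⟶ D) (e' : (RR (Th n)).obj ((tr n i).op ⋙ X) ⟶ D)
    (h : (RR (Th n)).η _ ≫ e' = e) (he : ES n i e) : ES n n e' := by
  subst h
  exact tr_up_aux n hX hD i hT e' he

end Pool.Agent.Helper55.FL2
end

/- Helper91.FL2.RETR -/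
section
/-!
# FL2, module G8 RETR: the retract argument
-/

open CategoryTheory MonoidalCategory Simplicial Opposite

set_option autoImplicit false

namespace Pool.Agent.Helper91.FL2

open _root_.FL
open Pool.Agent.Helper88.FL (htpy_symm htpy_trans htpy_post htpy_pre)

/-- Maps which are homotopy retracts of homotopy equivalences are homotopy equivalences. -/
theorem hoEq_of_retract {A B A' B' A'' B'' : SSet.{0}} {f : A ⟶ B} {f' : A' ⟶ B'} {f'' : A'' ⟶ B''}
    {α : A ⟶ A'} {β : A' ⟶ A''} {α' : B ⟶ B'} {β' : B' ⟶ B''}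
    (e : α ≫ f' = f ≫ α') (e' : β ≫ f'' = f' ≫ β') (hA : SSet.KanComplex A)
    (hB : SSet.KanComplex B) (hB'' : SSet.KanComplex B'') (hf' : HoEq f')
    (hw : HoEq (α ≫ β)) (hw' : HoEq (α' ≫ β')) : HoEq f := by
  obtain ⟨k, k1, k2⟩ := hf'
  obtain ⟨u, u1, u2⟩ := hw
  obtain ⟨v, v1, -⟩ := hw'
  refine ⟨α' ≫ k ≫ β ≫ u, ?_, ?_⟩
  · have h1 := htpy_pre α (htpy_post k1 (β ≫ u))
    rw [Category.id_comp] at h1
    have h2 : f ≫ α' ≫ k ≫ β ≫ u = α ≫ (f' ≫ k) ≫ β ≫ u := by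
      rw [← Category.assoc f, ← e]
      simp only [Category.assoc]
    rw [h2]
    refine htpy_trans hA h1 ?_
    rw [← Category.assoc]
    exact u1
  · have h3 : f ≫ α' ≫ β' = (α ≫ β) ≫ f'' := by
      rw [← Category.assoc, ← e, Category.assoc, Category.assoc, ← e']
    have a1 : Htpy (((α' ≫ k ≫ β ≫ u) ≫ f) ≫ α' ≫ β') (α' ≫ β') := by
      have b1 := htpy_pre (α' ≫ k ≫ β) (htpy_post u2 f'')
      have b2 := htpy_pre α' (htpy_post k2 β')
      rw [Category.id_comp] at b1 b2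
      have b3 : ((α' ≫ k ≫ β ≫ u) ≫ f) ≫ α' ≫ β' = (α' ≫ k ≫ β) ≫ (u ≫ α ≫ β) ≫ f'' := by
        have := congrArg (fun t => α' ≫ k ≫ β ≫ u ≫ t) h3
        simp only [Category.assoc] at this ⊢
        exact this
      have b4 : (α' ≫ k ≫ β) ≫ f'' = α' ≫ (k ≫ f') ≫ β' := by
        have := congrArg (fun t => α' ≫ k ≫ t) e'
        simp only [Category.assoc] at this ⊢
        exact this
      rw [b3]
      refine htpy_trans hB'' b1 ?_
      rw [b4]
      exact b2
    have a2 := htpy_post a1 v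
    have a3 := htpy_pre ((α' ≫ k ≫ β ≫ u) ≫ f) (htpy_symm hB v1)
    rw [Category.comp_id] at a3
    refine htpy_trans hB a3 (htpy_trans hB ?_ v1)
    rw [← Category.assoc]
    exact a2

variable {A : Type} [SmallCategory A]

/-- The map of mapping spaces induced by a simplicial endofunctor. -/
def SFunMp (K : SFun A) (P Z : SP A) : Mp P Z ⟶ Mp (K.obj P) (K.obj Z) where
  app m := ↾ fun (φ : MpS P Z m.unop) => (K.mapS φ : MpS (K.obj P) (K.obj Z) m.unop)
  naturality m n α := by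
    ext (φ : MpS P Z m.unop)
    exact K.mapS_res α.unop φ

/-- If `K f` is an equivalence and `Z ⟶ K Z` is an equivalence, then `f` is local with respect to
`Z`. -/
theorem loc_of_SFun (K : SFun A) {P Q Z : SP A} (f : P ⟶ Q) (hZ : InjFib Z)
    (hKZ : InjFib (K.obj Z)) (h : ObjHoEq (K.η Z)) (hf : ∀ a, WE ((K.map f).app a)) :
    Loc Z f := by
  have key : ∀ R : SP A, SFunMp K R Z ≫ Mp.pre (K.η R) (K.obj Z) = Mp.post R (K.η Z) := by
    intro R
    ext m (φ : MpS R Z m.unop)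
    exact (K.η_nat φ).symm
  have e : SFunMp K Q Z ≫ Mp.pre (K.map f) (K.obj Z) = Mp.pre f Z ≫ SFunMp K P Z := by
    ext m (φ : MpS Q Z m.unop)
    have := K.mapS_comp (MpS.ofHom m.unop f) φ
    rw [K.mapS_ofHom] at this
    exact this.symm
  have e' : Mp.pre (K.η Q) (K.obj Z) ≫ Mp.pre f (K.obj Z) =
      Mp.pre (K.map f) (K.obj Z) ≫ Mp.pre (K.η P) (K.obj Z) := by
    have := congrArg (fun t => Mp.pre t (K.obj Z)) (K.η_naturality f)
    exact this
  have hf' : HoEq (Mp.pre (K.map f) (K.obj Z)) := preHoEq (K.map f) hf hKZ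
  refine hoEq_of_retract e e' (Pool.Agent.Helper83.FL4.Mp_kan Q hZ)
    (Pool.Agent.Helper83.FL4.Mp_kan P hZ) (Pool.Agent.Helper83.FL4.Mp_kan P hKZ) hf' ?_ ?_
  · rw [key]
    exact post_hoEq hZ hKZ h Q
  · rw [key]
    exact post_hoEq hZ hKZ h P

end Pool.Agent.Helper91.FL2
end

/- Helper59.FL2.ComplOf -/
section
/-!
# The completion theorem, and locality of essentially surjective, fully faithful maps

These are the deductions of `Cp_isCat` and `ES_loc` from the facts they rest on, which are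
explicit hypotheses here.
-/

open CategoryTheory MonoidalCategory Opposite HomotopicalAlgebra

set_option autoImplicit false

namespace Helper59.FL2

open FL

/-- Completeness maps of level `j` exist only for `j < n`. -/
theorem lt_of_isComplJ {n j : ℕ} {X Y : SP (Th n)} {f : X ⟶ Y} (h : IsComplJ n j f) :
    j < n := by
  induction h with
  | base n => exact Nat.succ_pos n
  | susp f h ih => exact Nat.succ_lt_succ ih

/-- Completeness at levels `≥ n` is vacuous. -/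
theorem cj_of_le {n j : ℕ} (h : n ≤ j) (X : SP (Th n)) : Cj n j X :=
  fun _ _ _ hf => absurd (lt_of_isComplJ hf) (Nat.not_lt.mpr h)

section Compl

variable {n : ℕ}

/-- The completion theorem, from its ingredients. -/
theorem Cp_isCat_of
    (KJ_step : ∀ {j : ℕ} {X : SP (Th n)}, Sg n X →
      Sg n ((RR (Th n)).obj ((KJ n j).obj X)) ∧
      (j < n → Cj n j ((RR (Th n)).obj ((KJ n j).obj X))) ∧
      (∀ j', j < j' → Cj n j' X → Cj n j' ((RR (Th n)).obj ((KJ n j).obj X))) ∧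
      ES n n ((KJ n j).η X ≫ (RR (Th n)).η ((KJ n j).obj X)))
    (isCat_iff : ∀ {X : SP (Th n)}, IsCat n X ↔ Sg n X ∧ ∀ j, Cj n j X)
    (ES_comp : ∀ {X Y Z : SP (Th n)}, InjFib Y → InjFib Z → ∀ {f : X ⟶ Y} {g : Y ⟶ Z},
      InjFib X → ES n n f → ES n n g → ES n n (f ≫ g))
    (ES_of_objHoEq : ∀ {X Y : SP (Th n)}, InjFib X → InjFib Y → ∀ {f : X ⟶ Y},
      ObjHoEq f → ES n n f)
    (hid : ∀ {X : SP (Th n)}, ObjHoEq (𝟙 X))
    {A : SP (Th n)} (hS : Sg n ((RR (Th n)).obj A)) :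
    IsCat n ((Cp n n).obj A) ∧ ∃ e : (RR (Th n)).obj A ⟶ (Cp n n).obj A,
      (RR (Th n)).η A ≫ e = (Cp n n).η A ∧ ES n n e := by
  have key : ∀ d : ℕ, d ≤ n → Sg n ((Cp n d).obj A) ∧
      (∀ j, n - d ≤ j → Cj n j ((Cp n d).obj A)) ∧
      ∃ e : (RR (Th n)).obj A ⟶ (Cp n d).obj A,
        (RR (Th n)).η A ≫ e = (Cp n d).η A ∧ ES n n e := by
    intro d
    induction d with
    | zero =>
      intro _
      refine ⟨hS, fun j hj => cj_of_le (by omega) _, 𝟙 _, ?_, ?_⟩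
      · exact Category.comp_id _
      · exact ES_of_objHoEq hS.1 hS.1 hid
    | succ d ih =>
      intro hd
      obtain ⟨h1, h2, e, he, hE⟩ := ih (by omega)
      obtain ⟨k1, k2, k3, k4⟩ := KJ_step (j := n - 1 - d) h1
      refine ⟨k1, ?_, e ≫ (KJ n (n - 1 - d)).η _ ≫ (RR (Th n)).η _, ?_, ?_⟩
      · intro j hj
        rcases Nat.eq_or_lt_of_le (show n - 1 - d ≤ j by omega) with h | h
        · subst h
          exact k2 (by omega)
        · exact k3 j h (h2 j (by omega))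
      · rw [← Category.assoc, he]
        exact (Category.assoc _ _ _).symm
      · exact ES_comp h1.1 k1.1 hS.1 hE k4
  obtain ⟨h1, h2, h3⟩ := key n le_rfl
  exact ⟨isCat_iff.mpr ⟨h1, fun j => h2 j (by omega)⟩, h3⟩

/-- Essentially surjective and fully faithful maps are local, from the ingredients. -/
theorem ES_loc_of
    (objKan : ∀ {X : SP (Th n)}, InjFib X → ObjKan X)
    (RR_injFib : ∀ {X : SP (Th n)}, ObjKan X → InjFib ((RR (Th n)).obj X))
    (RR_objHoEq : ∀ {X : SP (Th n)}, ObjKan X → ObjHoEq ((RR (Th n)).η X))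
    (sg_of_objHoEq : ∀ {X Y : SP (Th n)}, InjFib X → InjFib Y → ∀ {f : X ⟶ Y},
      ObjHoEq f → (Sg n X ↔ Sg n Y))
    (Cp_isCat : ∀ {A : SP (Th n)}, ObjKan A → Sg n ((RR (Th n)).obj A) →
      IsCat n ((Cp n n).obj A) ∧ ∃ e : (RR (Th n)).obj A ⟶ (Cp n n).obj A,
        (RR (Th n)).η A ≫ e = (Cp n n).η A ∧ ES n n e)
    (isCat_iff : ∀ {X : SP (Th n)}, IsCat n X ↔ Sg n X ∧ ∀ j, Cj n j X)
    (ES_comp : ∀ {X Y Z : SP (Th n)}, InjFib Y → InjFib Z → ∀ {f : X ⟶ Y} {g : Y ⟶ Z},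
      InjFib X → ES n n f → ES n n g → ES n n (f ≫ g))
    (ES_of_objHoEq : ∀ {X Y : SP (Th n)}, InjFib X → InjFib Y → ∀ {f : X ⟶ Y},
      ObjHoEq f → ES n n f)
    (ES_of_comp_left : ∀ {X Y Z : SP (Th n)}, InjFib X → InjFib Y → InjFib Z →
      ∀ {f : X ⟶ Y} {g : Y ⟶ Z}, ES n n f → ES n n (f ≫ g) → ES n n g)
    (ES_objHoEq : ∀ {X Y : SP (Th n)}, IsCat n X → IsCat n Y → ∀ {f : X ⟶ Y},
      ES n n f → ObjHoEq f)
    {X Y Z : SP (Th n)} (hX : Sg n X) (hY : Sg n Y) (hZ : IsCat n Z) {f : X ⟶ Y}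
    (hf : ES n n f) : Loc Z f := by
  have key : ∀ {W : SP (Th n)}, Sg n W →
      IsCat n ((Cp n n).obj W) ∧ ES n n ((Cp n n).η W) := by
    intro W hW
    have hK := objKan hW.1
    have hR := RR_injFib hK
    have hS : Sg n ((RR (Th n)).obj W) := (sg_of_objHoEq hW.1 hR (RR_objHoEq hK)).mp hW
    obtain ⟨h1, e, he, hE⟩ := Cp_isCat hK hS
    refine ⟨h1, ?_⟩
    rw [← he]
    exact ES_comp hR h1.inj hW.1 (ES_of_objHoEq hW.1 hR (RR_objHoEq hK)) hE
  obtain ⟨x1, x2⟩ := key hX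
  obtain ⟨y1, y2⟩ := key hY
  obtain ⟨z1, z2⟩ := key (isCat_iff.mp hZ).1
  have h1 : ES n n ((Cp n n).η X ≫ (Cp n n).map f) := by
    rw [← (Cp n n).η_naturality f]
    exact ES_comp hY.1 y1.inj hX.1 hf y2
  have h2 : ES n n ((Cp n n).map f) := ES_of_comp_left hX.1 x1.inj y1.inj x2 h1
  exact Pool.Agent.Helper91.FL2.loc_of_SFun (Cp n n) f hZ.inj z1.inj (ES_objHoEq hZ z1 z2)
    fun a => Helper85FL.we_of_hoEq (ES_objHoEq x1 y1 h2 a)

end Compl

end Helper59.FL2
end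

/- Helper91.FL2.Comp0C -/
section
/-!
# FL2, module C5 COMP0, third part: completeness at level 0
-/

open CategoryTheory MonoidalCategory Opposite

set_option autoImplicit false

namespace Pool.Agent.Helper91.FL2

open _root_.FL
open Pool.Agent.Helper88.FL (hoEq_comp hoEq_of_comp_left hoEq_of_comp_right hoEq_of_isIso)
open Pool.Agent.Helper54.FL2 (Fb_map_hoEq hoEq_of_fibres Fp_snd_kanFib kan_fb kan_total)
open Pool.Agent.Helper61.FL2 (kan_tensor hoEq_tensor kanFib_comp kanFib_of_isIso)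

noncomputable section

variable {C : Type} [SmallCategory C]

/-- The first vertex. -/
abbrev ev0 (X : SP (Wr C)) : Yc ((E0 C).obj (disc (isoPsh C))) X ⟶ K0 X :=
  Yc.pre ((E0 C).map (aE C false)) X

/-- The section of `ev0`. -/
abbrev se0 (X : SP (Wr C)) : K0 X ⟶ Yc ((E0 C).obj (disc (isoPsh C))) X :=
  Yc.pre ((E0 C).map (toPtP (disc (isoPsh C)))) X

theorem se0_ev0 (X : SP (Wr C)) : se0 X ≫ ev0 X = 𝟙 _ := by
  refine NatTrans.ext (funext fun m => ?_)
  refine ConcreteCategory.hom_ext _ _ fun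
    (φ : MpS (E0o (rep (Wr.pt : Wr C)) m.unop) X m.unop) => ?_
  refine MpS.ext ?_
  funext η l t z
  refine congrArg (φ.app η l t) ?_
  exact Prod.ext (Wr.toPt_unique _ _) rfl

/-- The homotopy, on simplices. -/
def h0S {X : SP (Wr C)} {m : SimplexCategory} (ψ : MpS (E0o (disc (isoPsh C)) m) X m)
    (σ : m ⟶ SimplexCategory.mk 1) : MpS (E0o (disc (isoPsh C)) m) X m where
  app η l t (z : (Fin (η.unop.len + 1) → Bool) × (Fin (η.unop.len + 1) → Fin (m.len + 1))) :=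
    ψ.app η l t ((fun i => z.1 i && decide (σ.toOrderHom (z.2 i) = (1 : Fin 2)) :
      Fin (η.unop.len + 1) → Bool), z.2)
  nat_left {η _} f l t z := ψ.nat_left f l t ((fun i => z.1 i &&
    decide (σ.toOrderHom (z.2 i) = (1 : Fin 2)) : Fin (η.unop.len + 1) → Bool), z.2)
  nat_right η _ _ g t z := ψ.nat_right η g t ((fun i => z.1 i &&
    decide (σ.toOrderHom (z.2 i) = (1 : Fin 2)) : Fin (η.unop.len + 1) → Bool), z.2)

theorem ev0_hoEq (X : SP (Wr C)) : HoEq (ev0 X) := by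
  refine ⟨se0 X, Pool.Agent.Helper36.FL.htpy_mk
    (fun k (ψ : MpS (E0o (disc (isoPsh C)) k.unop) X k.unop) σ => h0S ψ σ) ?_ ?_ ?_,
    Pool.Agent.Helper36.FL.htpy_of_eq (se0_ev0 X)⟩
  · intro k l α (ψ : MpS (E0o (disc (isoPsh C)) k.unop) X k.unop) σ
    rfl
  · intro k (ψ : MpS (E0o (disc (isoPsh C)) k.unop) X k.unop)
    refine MpS.ext ?_
    funext η l t (z : (Fin (η.unop.len + 1) → Bool) × (Fin (η.unop.len + 1) →
      Fin (k.unop.len + 1)))
    refine congrArg (ψ.app η l t) ?_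
    refine Prod.ext ?_ rfl
    funext i
    exact Bool.and_false (z.1 i)
  · intro k (ψ : MpS (E0o (disc (isoPsh C)) k.unop) X k.unop)
    refine MpS.ext ?_
    funext η l t (z : (Fin (η.unop.len + 1) → Bool) × (Fin (η.unop.len + 1) →
      Fin (k.unop.len + 1)))
    refine congrArg (ψ.app η l t) ?_
    refine Prod.ext ?_ rfl
    funext i
    exact Bool.and_true (z.1 i)

/-- Completeness of the completion at level 0, from the statements of the other modules. -/
theorem K0_complete_of {X : SP (Wr C)} (hX : InjFib X) (hB : BSeg X)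
    (hKV : VFib (Kf (T0 C) X)) (hKB : BSeg (Kf (T0 C) X))
    (hk : KanFib (Yc.pre ((E0 C).map (vertE C).ι) X))
    (hrel : HoEq (relMap (vertE C) X))
    (hsurj : ∀ z : Vt (Kf (T0 C) X),
      ∃ x : Vt X, vtMap ((SFun.ofFrame (T0 C) (T0aug C)).η X) x = z)
    (hHm : ∀ x y : Vt X, ObjHoEq (HmMap ((SFun.ofFrame (T0 C) (T0aug C)).η X) x y)) :
    Loc ((RR (Wr C)).obj (Kf (T0 C) X)) (isoMap C) := by
  obtain ⟨κ, hκ⟩ : ∃ κ : X ⟶ Kf (T0 C) X, κ = (SFun.ofFrame (T0 C) (T0aug C)).η X := ⟨_, rfl⟩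
  obtain ⟨ρ, hρ⟩ : ∃ ρ : Kf (T0 C) X ⟶ (RR (Wr C)).obj (Kf (T0 C) X), ρ = (RR (Wr C)).η _ :=
    ⟨_, rfl⟩
  have hZ : InjFib ((RR (Wr C)).obj (Kf (T0 C) X)) := Helper41FL2.RR_injFib hKV.1
  have hρe : ObjHoEq ρ := by rw [hρ]; exact Helper41FL2.RR_objHoEq hKV.1
  have hZV : VFib ((RR (Wr C)).obj (Kf (T0 C) X)) := Helper53FL2.InjFib.vfib hZ
  have hZB : BSeg ((RR (Wr C)).obj (Kf (T0 C) X)) :=
    Pool.Agent.Helper61.FL2.bSeg_of_objHoEq hKV hZV hρe hKB
  rw [← hκ] at hsurj hHm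
  have hXK : ObjKan X := objKan_of_injFib hX
  have kX : SSet.KanComplex (X.obj (op Wr.pt) ⊗ X.obj (op Wr.pt)) := kan_tensor (hXK _) (hXK _)
  have kK : SSet.KanComplex (K0 X ⊗ K0 X) := kan_tensor (hKV.1 (op Wr.pt)) (hKV.1 (op Wr.pt))
  have kZ : SSet.KanComplex (((RR (Wr C)).obj (Kf (T0 C) X)).obj (op Wr.pt) ⊗
      ((RR (Wr C)).obj (Kf (T0 C) X)).obj (op Wr.pt)) := kan_tensor (hZV.1 _) (hZV.1 _)
  -- the fibration `evP`
  have hevP : KanFib (evP X) := by
    have := isIso_of_bij (evPD X) (evPD_bij X)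
    rw [← pre_evPD]
    exact kanFib_comp hk (kanFib_of_isIso _)
  -- the comparison on the level of fibres, first part
  have wκ : augY (disc (isoPsh C)) X ≫ evP X =
      evE X ≫ (κ.app (op Wr.pt) ⊗ₘ κ.app (op Wr.pt)) := by
    have e1 : augY (disc (isoPsh C)) X ≫ Lam (disc (isoPsh C)) X ≫ evE (Kf (T0 C) X) =
        augY (disc (isoPsh C)) X ≫ evP X := congrArg (augY (disc (isoPsh C)) X ≫ ·) (Lam_evE X)
    refine e1.symm.trans ?_
    refine (Category.assoc _ _ _).symm.trans ?_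
    refine (congrArg (· ≫ evE (Kf (T0 C) X)) (augY_Lam _ X)).trans ?_
    rw [← hκ]
    exact evE_post κ
  have wD : augY (vertE C).toSP X ≫ evPD X =
      evD X ≫ (κ.app (op Wr.pt) ⊗ₘ κ.app (op Wr.pt)) := by
    subst hκ
    refine NatTrans.ext (funext fun m => ?_)
    refine ConcreteCategory.hom_ext _ _ fun (φ : MpS (vertE C).toSP X m.unop) => ?_
    have key : ∀ b : Bool, (Yc.pre ((E0 C).map (aD C b)) X).app m
        ((augY (vertE C).toSP X).app m φ) =
        (((SFun.ofFrame (T0 C) (T0aug C)).η X).app (op Wr.pt)).app m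
          (φ.app (op Wr.pt) m (𝟙 _) ⟨fun _ => b, b, fun _ => rfl⟩) := by
      intro b
      refine MpS.ext ?_
      funext η l t z
      obtain ⟨(u : η.unop ⟶ Wr.pt), v⟩ := z
      show φ.app η l t ⟨fun _ => b, b, fun _ => rfl⟩ = (X.map (Quiver.Hom.op u)).app l
        ((X.obj (op Wr.pt)).map t.op (φ.app (op Wr.pt) m (𝟙 _) ⟨fun _ => b, b, fun _ => rfl⟩))
      have e1 := φ.nat_left (Quiver.Hom.op u) l t ⟨fun _ => b, b, fun _ => rfl⟩
      have e2 := φ.nat_right (op Wr.pt) t.op (𝟙 _) ⟨fun _ => b, b, fun _ => rfl⟩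
      have e3 : t.op.unop ≫ 𝟙 m.unop = t := Category.comp_id t
      rw [e3] at e2
      exact e1.trans (congrArg ((X.map (Quiver.Hom.op u)).app l) e2)
    exact Prod.ext (key false) (key true)
  have f1 : ∀ b : (X.obj (op Wr.pt) ⊗ X.obj (op Wr.pt)).obj (op (SimplexCategory.mk 0)),
      HoEq (Fb.map (augY (disc (isoPsh C)) X) (κ.app (op Wr.pt) ⊗ₘ κ.app (op Wr.pt)) wκ b) := by
    intro b
    obtain ⟨b, rfl⟩ := evD_surj X _ b
    refine fb_change (augY (disc (isoPsh C)) X) (augY (vertE C).toSP X)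
      (p₁ := Mp.pre (vertE C).ι X) (p₂ := Yc.pre ((E0 C).map (vertE C).ι) X) rfl
      (κ.app (op Wr.pt) ⊗ₘ κ.app (op Wr.pt)) wκ (evD X) (evPD X) (pre_evD X) (pre_evPD X) wD
      (evD_inj X) (fun k => (evPD_bij X k).1) b ?_
    refine fb_of_fp (Pool.Agent.Helper83.FL4.Mp_pre_kanFib _ (fun a => sb_mono _ a) hX) hk
      (Pool.Agent.Helper83.FL4.Mp_kan _ hX) _ _ rfl hrel b
  -- the comparison on the level of fibres, second part
  have hι : ∀ x y : Vt X, ObjHoEq (HmMap (κ ≫ ρ) x y) := by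
    intro x y c
    have h1 := hHm x y c
    have h2 := Pool.Agent.Helper61.FL2.HmMap_objHoEq hKV hZV hρe (vtMap κ x) (vtMap κ y) c
    exact hoEq_comp (kan_fb ((Helper53FL2.InjFib.vfib hX).2 _) _) (kan_fb (hKV.2 _) _)
      (kan_fb (hZV.2 _) _) h1 h2
  have hff := ff_evE hX hZ hB hZB (κ ≫ ρ) hι
  have f2 := fb_of_fp (evE_kanFib hX) (evE_kanFib hZ) kX _ _ _ hff
  -- the map `Λ`
  obtain ⟨Λ, hΛ⟩ : ∃ Λ : Yc ((E0 C).obj (disc (isoPsh C))) X ⟶
      Mp (disc (isoPsh C)) ((RR (Wr C)).obj (Kf (T0 C) X)),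
      Λ = Lam (disc (isoPsh C)) X ≫ Mp.post _ ρ := ⟨_, rfl⟩
  have wΛ : Λ ≫ evE ((RR (Wr C)).obj (Kf (T0 C) X)) =
      evP X ≫ (ρ.app (op Wr.pt) ⊗ₘ ρ.app (op Wr.pt)) := by
    rw [hΛ, Category.assoc, evE_post, ← Category.assoc, Lam_evE]
    rfl
  have hΛe : HoEq Λ := by
    refine hoEq_of_fibres hevP (evE_kanFib hZ) kK kZ Λ
      (ρ.app (op Wr.pt) ⊗ₘ ρ.app (op Wr.pt)) wΛ (hoEq_tensor (hρe _) (hρe _)) Set.univ
      (fun b => ⟨b, trivial, Pool.Agent.Helper54.FL2.cn_refl b⟩) ?_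
    rintro ⟨(a : Vt (Kf (T0 C) X)), (b : Vt (Kf (T0 C) X))⟩ -
    obtain ⟨x, rfl⟩ := hsurj a
    obtain ⟨y, rfl⟩ := hsurj b
    have g1 := f1 (x, y)
    have g2 := f2 (x, y)
    refine hoEq_of_comp_left (kan_fb (evE_kanFib hX) _) (kan_fb hevP _)
      (kan_fb (evE_kanFib hZ) _) g1 ?_
    refine (congrArg HoEq ?_).mp g2
    refine NatTrans.ext (funext fun k => ?_)
    refine ConcreteCategory.hom_ext _ _ fun z => ?_
    refine Subtype.ext ?_
    have e1 : augY (disc (isoPsh C)) X ≫ Λ = Mp.post (disc (isoPsh C)) (κ ≫ ρ) := by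
      rw [hΛ, ← Category.assoc, augY_Lam, ← hκ]
      rfl
    exact (ConcreteCategory.congr_hom (NatTrans.congr_app e1 k) z.1).symm
  -- the value at the first vertex
  have kP : SSet.KanComplex (Yc ((E0 C).obj (disc (isoPsh C))) X) := kan_total hevP kK
  have kM : SSet.KanComplex (Mp (disc (isoPsh C)) ((RR (Wr C)).obj (Kf (T0 C) X))) :=
    Pool.Agent.Helper83.FL4.Mp_kan _ hZ
  have w0 : Λ ≫ Pool.Agent.Helper54.FL2.ev ((RR (Wr C)).obj (Kf (T0 C) X)) =
      ev0 X ≫ ρ.app (op Wr.pt) := by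
    have := congrArg (· ≫ CartesianMonoidalCategory.fst _ _) wΛ
    exact this
  have h0 : HoEq (Pool.Agent.Helper54.FL2.ev ((RR (Wr C)).obj (Kf (T0 C) X))) := by
    refine hoEq_of_comp_left kP kM (hZV.1 _) hΛe ?_
    rw [w0]
    exact hoEq_comp kP (hKV.1 (op Wr.pt)) (hZV.1 _) (ev0_hoEq X) (hρe _)
  have h1 : HoEq (Mp.pre (isoMap C) ((RR (Wr C)).obj (Kf (T0 C) X)) ≫
      Pool.Agent.Helper54.FL2.ev ((RR (Wr C)).obj (Kf (T0 C) X))) := by
    have := Pool.Agent.Helper54.FL2.ev1_isIso ((RR (Wr C)).obj (Kf (T0 C) X))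
    exact hoEq_of_isIso (Pool.Agent.Helper54.FL2.ev1 _)
  exact hoEq_of_comp_right (Pool.Agent.Helper83.FL4.Mp_kan _ hZ) kM (hZV.1 _) h0 h1

end

end Pool.Agent.Helper91.FL2
end
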