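import Pool.Agent.Helper16.FDG.G01
import Pool.Agent.Helper16.FDG.G03
import Pool.Agent.Helper16.FDG.G05
import Pool.Agent.Helper16.FDG.G06
import Pool.Agent.Helper16.FDG.G07
import Pool.Agent.Helper16.FDG.G08
import Pool.Agent.Helper16.FDG.G09
import Pool.Agent.Helper16.FDG.G10
import Pool.Agent.Helper16.FDG.G11

/- Helper61.FL10 -/
section
/-! FL-10: discrete simplicial presheaves are injectively fibrant. -/

open CategoryTheory MonoidalCategory Simplicial Opposite

set_option autoImplicit false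

namespace Helper61FL

open FL

/-- The discrete simplicial set on a type. -/
abbrev Dsc (T : Type) : SSet.{0} := (Functor.const SimplexCategoryᵒᵖ).obj T

/-- A map into a discrete simplicial set does not change under restriction. -/
theorem dsc_map {Z : SSet.{0}} {T : Type} (q : Z ⟶ Dsc T) {k l : SimplexCategoryᵒᵖ} (α : k ⟶ l)
    (z : Z.obj k) : (q.app l (Z.map α z) : T) = q.app k z :=
  sset_nat q α z

theorem std_const {n : ℕ} {T : Type} (g : (Δ[n] : SSet.{0}) ⟶ Dsc T) {k k' : SimplexCategoryᵒᵖ}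
    (s : (Δ[n] : SSet.{0}).obj k) (s' : (Δ[n] : SSet.{0}).obj k') :
    (g.app k s : T) = g.app k' s' := by
  have h : ∀ {k : SimplexCategoryᵒᵖ} (s : (Δ[n] : SSet.{0}).obj k),
      (g.app k s : T) = g.app (op ⦋n⦌) (SSet.stdSimplex.objEquiv.symm (𝟙 _)) := by
    intro k s
    have h1 := dsc_map g (SSet.stdSimplex.objEquiv s).op
      (SSet.stdSimplex.objEquiv.symm (𝟙 ⦋n⦌))
    refine Eq.trans (congrArg (g.app k) ?_) h1
    obtain ⟨t, rfl⟩ := SSet.stdSimplex.objEquiv.symm.surjective s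
    refine congrArg SSet.stdSimplex.objEquiv.symm (Category.comp_id t).symm
  exact (h s).trans (h s').symm

theorem dsc_kan (T : Type) : SSet.KanComplex (Dsc T) := by
  rw [SSet.KanComplex.iff]
  intro n i f hf
  have hj0 : ∃ j0 : Fin (n + 2), j0 ≠ i := exists_ne i
  obtain ⟨j0, hj0⟩ := hj0
  let c : T := (f j0 hj0).app (op ⦋n⦌) (SSet.stdSimplex.objEquiv.symm (𝟙 ⦋n⦌))
  refine ⟨{ app := fun k => ↾ fun _ => c, naturality := fun _ _ _ => rfl }, fun j hj => ?_⟩
  ext k s
  change c = ((f j hj).app k s : T)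
  rcases n with _ | n
  · have : j = j0 := by
      have h1 := j.2; have h2 := j0.2; have h3 := i.2
      rw [Ne, Fin.ext_iff] at hj hj0
      ext; omega
    subst this
    exact std_const (f j hj) _ _
  · rw [SSet.horn.isCompatible_iff] at hf
    have h1 : ∀ (m : ℕ) (g : (Δ[m] : SSet.{0}) ⟶ Δ[m + 1])
        (g' : (Δ[m] : SSet.{0}) ⟶ Δ[m + 1]) (u v : (Δ[m + 1] : SSet.{0}) ⟶ Dsc T),
        g ≫ u = g' ≫ v → ∀ {k k' : SimplexCategoryᵒᵖ} (s : (Δ[m + 1] : SSet.{0}).obj k)
        (s' : (Δ[m + 1] : SSet.{0}).obj k'), (u.app k s : T) = v.app k' s' := by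
      intro m g g' u v h k k' s s'
      have h2 := ConcreteCategory.congr_hom (NatTrans.congr_app h (op ⦋m⦌))
        (SSet.stdSimplex.objEquiv.symm (𝟙 ⦋m⦌))
      have h3 : (u.app (op ⦋m⦌) (g.app (op ⦋m⦌) (SSet.stdSimplex.objEquiv.symm (𝟙 ⦋m⦌))) : T) =
        v.app (op ⦋m⦌) (g'.app (op ⦋m⦌) (SSet.stdSimplex.objEquiv.symm (𝟙 ⦋m⦌))) := h2
      have h4 : (u.app k s : T) =
        u.app (op ⦋m⦌) (g.app (op ⦋m⦌) (SSet.stdSimplex.objEquiv.symm (𝟙 ⦋m⦌))) :=
        std_const u s _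
      have h5 : (v.app k' s' : T) =
        v.app (op ⦋m⦌) (g'.app (op ⦋m⦌) (SSet.stdSimplex.objEquiv.symm (𝟙 ⦋m⦌))) :=
        std_const v s' _
      exact h4.trans (h3.trans h5.symm)
    rcases lt_trichotomy j j0 with h | h | h
    · exact (h1 _ _ _ _ _ (hf j j0 hj hj0 h) s
        (SSet.stdSimplex.objEquiv.symm (𝟙 ⦋n + 1⦌) :
          (Δ[n + 1] : SSet.{0}).obj (op ⦋n + 1⦌))).symm
    · subst h
      exact std_const (f j hj) _ _
    · exact h1 _ _ _ _ _ (hf j0 j hj0 hj h) _ s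

/-- Homotopic maps into `Dsc T ^ X` are equal. -/
theorem eq_of_htpy {X P : SSet.{0}} {T : Type} {u v : P ⟶ (ihom X).obj (Dsc T)}
    (h : Nonempty (SSet.Homotopy u v)) : u = v := by
  obtain ⟨H⟩ := h
  obtain ⟨w, hu, hv⟩ : ∃ w : P ⊗ Δ[1] ⟶ (ihom X).obj (Dsc T), SSet.ι₀ ≫ w = u ∧
      SSet.ι₁ ≫ w = v := ⟨H.h, H.h₀, H.h₁⟩
  apply MonoidalClosed.uncurry_injective
  rw [← hu, ← hv, MonoidalClosed.uncurry_natural_left, MonoidalClosed.uncurry_natural_left]
  generalize MonoidalClosed.uncurry w = q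
  have key : ∀ (x : X.obj (op ⦋0⦌)) (p : P.obj (op ⦋0⦌)),
      (q.app (op ⦋0⦌) (x, (SSet.ι₀.app _ p : (P ⊗ Δ[1] : SSet.{0}).obj (op ⦋0⦌))) : T) =
        q.app (op ⦋0⦌) (x, (SSet.ι₁.app _ p : (P ⊗ Δ[1] : SSet.{0}).obj (op ⦋0⦌))) := by
    intro x p
    let e : (X ⊗ (P ⊗ Δ[1]) : SSet.{0}).obj (op ⦋1⦌) :=
      (X.map (SimplexCategory.σ 0).op x, (P.map (SimplexCategory.σ 0).op p,
        SSet.stdSimplex.objEquiv.symm (𝟙 ⦋1⦌)))
    have h0 := dsc_map q (SimplexCategory.δ 1).op e
    have h1 := dsc_map q (SimplexCategory.δ 0).op e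
    have e0 : (X ⊗ (P ⊗ Δ[1]) : SSet.{0}).map (SimplexCategory.δ 1).op e =
        (x, (SSet.ι₀.app _ p : (P ⊗ Δ[1] : SSet.{0}).obj (op ⦋0⦌))) := by
      refine Prod.ext ?_ (Prod.ext ?_ ?_)
      · change X.map _ (X.map _ x) = x
        rw [← sset_comp, ← op_comp, SimplexCategory.δ_comp_σ_succ' (by rfl)]
        exact sset_id X x
      · change P.map _ (P.map _ p) = p
        rw [← sset_comp, ← op_comp, SimplexCategory.δ_comp_σ_succ' (by rfl)]
        exact sset_id P p
      · ext i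
        fin_cases i
        rfl
    have e1 : (X ⊗ (P ⊗ Δ[1]) : SSet.{0}).map (SimplexCategory.δ 0).op e =
        (x, (SSet.ι₁.app _ p : (P ⊗ Δ[1] : SSet.{0}).obj (op ⦋0⦌))) := by
      refine Prod.ext ?_ (Prod.ext ?_ ?_)
      · change X.map _ (X.map _ x) = x
        rw [← sset_comp, ← op_comp, SimplexCategory.δ_comp_σ_self' (by rfl)]
        exact sset_id X x
      · change P.map _ (P.map _ p) = p
        rw [← sset_comp, ← op_comp, SimplexCategory.δ_comp_σ_self' (by rfl)]
        exact sset_id P p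
      · ext i
        fin_cases i
        rfl
    rw [e0] at h0
    rw [e1] at h1
    exact h0.trans h1.symm
  ext k ⟨x, p⟩
  change (q.app k (x, (SSet.ι₀.app _ p : (P ⊗ Δ[1] : SSet.{0}).obj k)) : T) =
    q.app k (x, (SSet.ι₁.app _ p : (P ⊗ Δ[1] : SSet.{0}).obj k))
  obtain ⟨k⟩ := k
  let v : (op k : SimplexCategoryᵒᵖ) ⟶ op ⦋0⦌ := (SimplexCategory.const ⦋0⦌ k 0).op
  have h0 := dsc_map q v (x, (SSet.ι₀.app _ p : (P ⊗ Δ[1] : SSet.{0}).obj (op k)))
  have h1 := dsc_map q v (x, (SSet.ι₁.app _ p : (P ⊗ Δ[1] : SSet.{0}).obj (op k)))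
  refine h0.symm.trans (Eq.trans ?_ h1)
  exact key (X.map v x) (P.map v p)

/-- Weak equivalences induce bijections on maps to discrete simplicial sets. -/
theorem we_bij {X Y : SSet.{0}} {i : X ⟶ Y} (hi : WE i) (T : Type) :
    Function.Bijective fun g : Y ⟶ Dsc T => i ≫ g := by
  obtain ⟨r, h1, h2⟩ := hi (Dsc T) (dsc_kan T)
  have h1 := eq_of_htpy h1
  have h2 := eq_of_htpy h2
  have key : ∀ g : Y ⟶ Dsc T, MonoidalClosed.curry ((ρ_ Y).hom ≫ g) ≫
      (MonoidalClosed.pre i).app (Dsc T) = MonoidalClosed.curry ((ρ_ X).hom ≫ i ≫ g) := by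
    intro g
    rw [MonoidalClosed.curry_pre_app]
    congr 1
  constructor
  · intro g g' hg
    have h3 := congrArg (fun t => t ≫ r) ((key g).trans ((congrArg (fun t =>
      MonoidalClosed.curry ((ρ_ X).hom ≫ t)) hg).trans (key g').symm))
    simp only [Category.assoc, h1, Category.comp_id] at h3
    have h4 := MonoidalClosed.curry_injective h3
    exact (cancel_epi (ρ_ Y).hom).1 h4
  · intro f
    refine ⟨(ρ_ Y).inv ≫ MonoidalClosed.uncurry (MonoidalClosed.curry ((ρ_ X).hom ≫ f) ≫ r), ?_⟩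
    have h3 := key ((ρ_ Y).inv ≫ MonoidalClosed.uncurry
      (MonoidalClosed.curry ((ρ_ X).hom ≫ f) ≫ r))
    rw [Iso.hom_inv_id_assoc, MonoidalClosed.curry_uncurry, Category.assoc, h2,
      Category.comp_id] at h3
    have h4 := MonoidalClosed.curry_injective h3
    exact ((cancel_epi (ρ_ X).hom).1 h4).symm

section

variable {A : Type} [SmallCategory A]

theorem disc_injFib (F : Aᵒᵖ ⥤ Type) : InjFib (disc F) := by
  intro X Y i hi f
  have hb := fun a : Aᵒᵖ => we_bij (hi.2 a) (F.obj a)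
  choose g hg using fun a : Aᵒᵖ => (hb a).2 (f.app a)
  refine ⟨{ app := g, naturality := ?_ }, ?_⟩
  · intro a b h
    apply (we_bij (hi.2 a) (F.obj b)).1
    change i.app a ≫ Y.map h ≫ g b = i.app a ≫ g a ≫ (disc F).map h
    have h1 : i.app a ≫ Y.map h = X.map h ≫ i.app b := (i.naturality h).symm
    have h2 : i.app b ≫ g b = f.app b := hg b
    have h3 : i.app a ≫ g a = f.app a := hg a
    rw [reassoc_of% h1, h2, reassoc_of% h3]
    exact f.naturality h
  · ext a : 2
    exact hg a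

/-- Simplices of the mapping space into a discrete presheaf do not depend on the simplex
coordinate. -/
theorem mps_const {X : SP A} {F : Aᵒᵖ ⥤ Type} {m : SimplexCategory} (φ : MpS X (disc F) m)
    (a : Aᵒᵖ) (k : SimplexCategoryᵒᵖ) (s s' : k.unop ⟶ m) (x : (X.obj a).obj k) :
    φ.app a k s x = φ.app a k s' x := by
  have hr : ∀ {k l : SimplexCategoryᵒᵖ} (g : k ⟶ l) (s : k.unop ⟶ m) (x : (X.obj a).obj k),
      (φ.app a l (g.unop ≫ s) ((X.obj a).map g x) : F.obj a) = φ.app a k s x :=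
    fun g s x => φ.nat_right a g s x
  have key : ∀ (y : (X.obj a).obj (op ⦋0⦌)) (e : ⦋1⦌ ⟶ m),
      (φ.app a (op ⦋0⦌) (SimplexCategory.δ 1 ≫ e) y : F.obj a) =
        φ.app a (op ⦋0⦌) (SimplexCategory.δ 0 ≫ e) y := by
    intro y e
    have h0 := hr (k := op ⦋1⦌) (l := op ⦋0⦌) (SimplexCategory.δ 1).op e
      ((X.obj a).map (SimplexCategory.σ 0).op y)
    have h1 := hr (k := op ⦋1⦌) (l := op ⦋0⦌) (SimplexCategory.δ 0).op e
      ((X.obj a).map (SimplexCategory.σ 0).op y)
    rw [← sset_comp, ← op_comp, SimplexCategory.δ_comp_σ_succ' (by rfl), op_id, sset_id] at h0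
    rw [← sset_comp, ← op_comp, SimplexCategory.δ_comp_σ_self' (by rfl), op_id, sset_id] at h1
    exact h0.trans h1.symm
  have hv : ∀ (y : (X.obj a).obj (op ⦋0⦌)) (p p' : ⦋0⦌ ⟶ m),
      (φ.app a (op ⦋0⦌) p y : F.obj a) = φ.app a (op ⦋0⦌) p' y := by
    have hle : ∀ (y : (X.obj a).obj (op ⦋0⦌)) (p p' : ⦋0⦌ ⟶ m),
        p.toOrderHom 0 ≤ p'.toOrderHom 0 →
        (φ.app a (op ⦋0⦌) p y : F.obj a) = φ.app a (op ⦋0⦌) p' y := by
      intro y p p' h
      let e : ⦋1⦌ ⟶ m := SimplexCategory.Hom.mk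
        ⟨fun i => if i = 0 then p.toOrderHom 0 else p'.toOrderHom 0, by
          intro i j hij
          dsimp only
          split_ifs with h1 h2 h2
          · exact le_rfl
          · exact h
          · exfalso
            subst h2
            exact h1 (Fin.le_zero_iff.1 hij)
          · exact le_rfl⟩
      have h1 := key y e
      have e0 : SimplexCategory.δ 1 ≫ e = p := by
        ext i : 3
        fin_cases i
        rfl
      have e1 : SimplexCategory.δ 0 ≫ e = p' := by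
        ext i : 3
        fin_cases i
        rfl
      rwa [e0, e1] at h1
    intro y p p'
    rcases le_total (p.toOrderHom 0) (p'.toOrderHom 0) with h | h
    · exact hle y p p' h
    · exact (hle y p' p h).symm
  obtain ⟨k⟩ := k
  let v : (op k : SimplexCategoryᵒᵖ) ⟶ op ⦋0⦌ := (SimplexCategory.const ⦋0⦌ k 0).op
  have h0 := hr v s x
  have h1 := hr v s' x
  exact h0.symm.trans ((hv _ _ _).trans h1)

/-- The strict map underlying a simplex of the mapping space into a discrete presheaf. -/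
def toHom {X : SP A} {F : Aᵒᵖ ⥤ Type} {m : SimplexCategory} (φ : MpS X (disc F) m) :
    X ⟶ disc F where
  app a :=
    { app := fun k => ↾ fun x => φ.app a k (SimplexCategory.const k.unop m 0) x
      naturality := fun k l α => by
        ext x
        exact (mps_const φ a l _ _ _).trans (φ.nat_right a α _ x) }
  naturality a b f := by
    ext k x
    exact φ.nat_left f k _ x

theorem ofHom_toHom {X : SP A} {F : Aᵒᵖ ⥤ Type} {m : SimplexCategory} (φ : MpS X (disc F) m) :
    MpS.ofHom m (toHom φ) = φ := by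
  refine MpS.ext ?_
  funext a k s x
  exact mps_const φ a k _ _ _

theorem toHom_ofHom {X : SP A} {F : Aᵒᵖ ⥤ Type} (m : SimplexCategory) (f : X ⟶ disc F) :
    toHom (MpS.ofHom m f) = f := rfl

theorem hoEq_of_isIso' {X Y : SSet.{0}} (f : X ⟶ Y) [IsIso f] : HoEq f :=
  ⟨inv f, by rw [IsIso.hom_inv_id]; exact ⟨SSet.RelativeMorphism.Homotopy.refl _⟩,
    by rw [IsIso.inv_hom_id]; exact ⟨SSet.RelativeMorphism.Homotopy.refl _⟩⟩

/-- Mapping spaces into discrete presheaves are discrete: if `f : X ⟶ Y` induces a bijection on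
maps to `disc F`, then it induces an isomorphism of mapping spaces. -/
theorem hoEq_disc {X Y : SP A} (f : X ⟶ Y) (F : Aᵒᵖ ⥤ Type)
    (h : Function.Bijective fun g : Y ⟶ disc F => f ≫ g) : HoEq (Mp.pre f (disc F)) := by
  have hb : ∀ k : SimplexCategoryᵒᵖ, Function.Bijective fun φ : MpS Y (disc F) k.unop =>
      (MpS.ofHom k.unop f).comp φ := by
    intro k
    constructor
    · intro φ φ' hφ
      have h1 : f ≫ toHom φ = f ≫ toHom φ' := by
        have h2 := congrArg toHom hφ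
        exact h2
      rw [← ofHom_toHom φ, ← ofHom_toHom φ', h.1 h1]
    · intro ψ
      obtain ⟨g, hg⟩ := h.2 (toHom ψ)
      refine ⟨MpS.ofHom k.unop g, ?_⟩
      rw [← ofHom_toHom ψ, ← hg]
      rfl
  have : IsIso (Mp.pre f (disc F)) := by
    have : ∀ k, IsIso ((Mp.pre f (disc F)).app k) := by
      intro k
      rw [isIso_iff_bijective]
      exact hb k
    exact NatIso.isIso_of_isIso_app _
  exact hoEq_of_isIso' _

end

end Helper61FL
end

/- Helper82.FL.Seg -/
section
/-!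
# Project FL, module FL-11: the representable presheaves on `Θ_n` are sheaves for the Segal
sieves
-/

open CategoryTheory MonoidalCategory Opposite

set_option autoImplicit false

namespace Pool.Agent.Helper82.FL11

open FL

/-! ### Translation to compatible families -/

section Trans

variable {A : Type} [SmallCategory A]

/-- The presheaf represented by `η` is a sheaf for the sieve `S`. -/
def ShF {θ : A} (S : Sieve θ) (η : A) : Prop :=
  ∀ x : (∀ (ζ : A) (u : ζ ⟶ θ), S.arrows u → (ζ ⟶ η)),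
    (∀ (ζ ζ' : A) (v : ζ' ⟶ ζ) (u : ζ ⟶ θ) (hu : S.arrows u) (hu' : S.arrows (v ≫ u)),
      x ζ' (v ≫ u) hu' = v ≫ x ζ u hu) →
    ∃! t : θ ⟶ η, ∀ (ζ : A) (u : ζ ⟶ θ) (hu : S.arrows u), u ≫ t = x ζ u hu

/-- The map `k ⟶ [0]`. -/
def toZero (k : SimplexCategoryᵒᵖ) : op (SimplexCategory.mk 0) ⟶ k :=
  (SimplexCategory.const k.unop (SimplexCategory.mk 0) 0).op

/-- A map of discrete presheaves is given by the same formula in all degrees. -/
theorem disc_app_eq {F G : Aᵒᵖ ⥤ Type} (g : disc F ⟶ disc G) (a : Aᵒᵖ)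
    (k : SimplexCategoryᵒᵖ) (x : F.obj a) :
    (g.app a).app k x = (g.app a).app (op (SimplexCategory.mk 0)) x :=
  hom_natk g (a := a) (toZero k) x

/-- The map of sheaves of sets underlying a map of discrete presheaves. -/
def undisc {F G : Aᵒᵖ ⥤ Type} (g : disc F ⟶ disc G) : F ⟶ G where
  app a := (g.app a).app (op (SimplexCategory.mk 0))
  naturality a b f := by
    ext x
    exact hom_nat g f (k := op (SimplexCategory.mk 0)) x

theorem discMap_undisc {F G : Aᵒᵖ ⥤ Type} (g : disc F ⟶ disc G) : discMap (undisc g) = g := by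
  ext a k x
  exact (disc_app_eq g a k x).symm

theorem bij_of_shF {θ η : A} {S : Sieve θ} (h : ShF S η) :
    Function.Bijective fun g : rep θ ⟶ rep η => sieveIncl S ≫ g := by
  have hval : ∀ (g : rep θ ⟶ rep η) (a : Aᵒᵖ) (k : SimplexCategoryᵒᵖ) (u : a.unop ⟶ θ),
      (g.app a).app k u = (u ≫ ((g.app (op θ)).app (op (SimplexCategory.mk 0)) (𝟙 θ) : θ ⟶ η) :
        a.unop ⟶ η) := by
    intro g a k u
    refine (disc_app_eq g a k u).trans ?_
    have h1 := hom_nat g u.op (k := op (SimplexCategory.mk 0)) (𝟙 θ : θ ⟶ θ)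
    refine Eq.trans ?_ h1
    congr 1
    exact (Category.comp_id u).symm
  constructor
  · intro g g' hg
    have hx : ∀ (ζ : A) (u : ζ ⟶ θ) (hu : S.arrows u),
        (u ≫ ((g.app (op θ)).app (op (SimplexCategory.mk 0)) (𝟙 θ) : θ ⟶ η) : ζ ⟶ η) =
        (u ≫ ((g'.app (op θ)).app (op (SimplexCategory.mk 0)) (𝟙 θ) : θ ⟶ η) : ζ ⟶ η) := by
      intro ζ u hu
      rw [← hval g (op ζ) (op (SimplexCategory.mk 0)) u,
        ← hval g' (op ζ) (op (SimplexCategory.mk 0)) u]
      have h2 := NatTrans.congr_app (NatTrans.congr_app hg (op ζ)) (op (SimplexCategory.mk 0))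
      exact ConcreteCategory.congr_hom h2 (⟨u, hu⟩ : S.functor.obj (op ζ))
    obtain ⟨t, _, ht⟩ := h (fun ζ u _ =>
      (u ≫ ((g.app (op θ)).app (op (SimplexCategory.mk 0)) (𝟙 θ) : θ ⟶ η) : ζ ⟶ η))
      (fun ζ ζ' v u _ _ => Category.assoc v u _)
    have e1 := ht _ (fun ζ u hu => rfl)
    have e2 := ht ((g'.app (op θ)).app (op (SimplexCategory.mk 0)) (𝟙 θ) : θ ⟶ η)
      (fun ζ u hu => (hx ζ u hu).symm)
    ext a k u
    refine (hval g a k u).trans (Eq.trans ?_ (hval g' a k u).symm)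
    exact congrArg (fun w : θ ⟶ η => (u ≫ w : a.unop ⟶ η)) (e1.trans e2.symm)
  · intro f
    obtain ⟨t, ht, _⟩ := h (fun ζ u hu =>
        ((f.app (op ζ)).app (op (SimplexCategory.mk 0)) (⟨u, hu⟩ : S.functor.obj (op ζ)) : ζ ⟶ η))
      (fun ζ ζ' v u hu hu' =>
        hom_nat f v.op (k := op (SimplexCategory.mk 0)) (⟨u, hu⟩ : S.functor.obj (op ζ)))
    refine ⟨repMap t, ?_⟩
    ext a k u
    refine Eq.trans ?_ (disc_app_eq f a k u).symm
    exact ht a.unop u.1 u.2

end Trans

/-! ### Vertices, edges and suspensions in the wreath product -/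

section Wreath

variable {C : Type} [SmallCategory C]

/-- The vertex `v` of `θ`. -/
def vert (θ : Wr C) (v : Fin (θ.len + 1)) : (Wr.pt : Wr C) ⟶ θ :=
  ({ f := ⟨fun _ => v, fun _ _ _ => le_refl _⟩
     g := fun (i : Fin 0) _ _ => i.elim0 } : Wr.Hom (⟨0, Fin.elim0⟩ : Wr C) θ)

theorem vert_f (θ : Wr C) (v : Fin (θ.len + 1)) (t : Fin 1) :
    Wr.Hom.f (vert θ v) t = v := rfl

theorem vert_comp {θ η : Wr C} (v : Fin (θ.len + 1)) (φ : θ ⟶ η) :
    vert θ v ≫ φ = vert η (Wr.Hom.f φ v) :=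
  Wr.hom_ext' (by rfl) fun (i : Fin 0) _ _ _ => i.elim0

theorem fin2_cases (t : Fin 2) : t = 0 ∨ t = 1 := by
  omega

/-- The monotone map `[1] → [b]` with values `p ≤ q`. -/
def pair {b : ℕ} (p q : Fin (b + 1)) (h : p ≤ q) : Fin 2 →o Fin (b + 1) where
  toFun t := if t = 0 then p else q
  monotone' := by
    intro s t hst
    by_cases hs : s = 0
    · by_cases ht : t = 0
      · simp [hs, ht]
      · simpa [hs, ht] using h
    · have ht : t ≠ 0 := by
        intro ht
        apply hs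
        rw [ht] at hst
        exact le_antisymm hst (Fin.zero_le _)
      simp [hs, ht]

theorem pair_zero {b : ℕ} (p q : Fin (b + 1)) (h : p ≤ q) : pair p q h 0 = p := rfl
theorem pair_one {b : ℕ} (p q : Fin (b + 1)) (h : p ≤ q) : pair p q h 1 = q := rfl

theorem castSucc_le_succ' {n : ℕ} (i : Fin n) : i.castSucc ≤ i.succ := by
  rw [Fin.le_def]; simp

theorem jump_pair {n : ℕ} {i j : Fin n} {a : Fin 1}
    (h : Jump (pair i.castSucc i.succ (castSucc_le_succ' i)) a j) : i = j := by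
  obtain ⟨h1, h2⟩ := h
  have ha : a = 0 := Subsingleton.elim _ _
  subst ha
  have h1' : i.castSucc ≤ j.castSucc := h1
  have h2' : j.succ ≤ i.succ := h2
  rw [Fin.le_def] at h1' h2'
  simp at h1' h2'
  exact Fin.ext (by omega)

theorem jump_pair_self {n : ℕ} (i : Fin n) :
    Jump (pair i.castSucc i.succ (castSucc_le_succ' i)) 0 i :=
  ⟨le_refl _, le_refl _⟩

/-- The `i`-th edge `[1](θ_i) ⟶ θ`. -/
def edge (θ : Wr C) (i : Fin θ.len) : (⟨1, fun _ => θ.obj i⟩ : Wr C) ⟶ θ :=
  ({ f := pair i.castSucc i.succ (castSucc_le_succ' i)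
     g := fun _ _ h => eqToHom (congrArg θ.obj (jump_pair h)) } :
    Wr.Hom (⟨1, fun _ => θ.obj i⟩ : Wr C) θ)

theorem edge_f (θ : Wr C) (i : Fin θ.len) :
    Wr.Hom.f (edge θ i) = pair i.castSucc i.succ (castSucc_le_succ' i) := rfl

theorem edge_jump (θ : Wr C) (i : Fin θ.len) : Jump (Wr.Hom.f (edge θ i)) (0 : Fin 1) i :=
  jump_pair_self i

theorem edge_g (θ : Wr C) (i : Fin θ.len) (h : Jump (Wr.Hom.f (edge θ i)) (0 : Fin 1) i) :
    Wr.Hom.g (edge θ i) (0 : Fin 1) i h = 𝟙 (θ.obj i) := rfl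

/-- The component of `φ` seen on the `i`-th edge. -/
theorem edge_comp_g {θ η : Wr C} (φ : θ ⟶ η) (i : Fin θ.len) (j : Fin η.len)
    (h : Jump (Wr.Hom.f φ) i j) :
    Wr.Hom.g (edge θ i ≫ φ) (0 : Fin 1) j ((edge_jump θ i).comp h) = Wr.Hom.g φ i j h := by
  refine (Wr.comp_g (edge θ i) φ (edge_jump θ i) h).trans ?_
  exact Category.id_comp _

/-- The suspension `[1](c) ⟶ [1](d)` of a morphism. -/
def sus {c d : C} (u : c ⟶ d) : (⟨1, fun _ => c⟩ : Wr C) ⟶ ⟨1, fun _ => d⟩ :=
  Wr.ofComp (X := fun _ : Fin 1 => c) (Y := fun _ : Fin 1 => d) fun _ => u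

theorem sus_jump {c d : C} (u : c ⟶ d) : Jump (Wr.Hom.f (sus u)) (0 : Fin 1) (0 : Fin 1) :=
  jump_id.mpr rfl

theorem sus_g {c d : C} (u : c ⟶ d) (h : Jump (Wr.Hom.f (sus u)) (0 : Fin 1) (0 : Fin 1)) :
    Wr.Hom.g (sus u) (0 : Fin 1) (0 : Fin 1) h = u := by
  exact Wr.ofComp_g (X := fun _ : Fin 1 => c) (Y := fun _ : Fin 1 => d) (fun _ => u) 0 h

theorem sus_comp_f {c d : C} (u : c ⟶ d) {η : Wr C} (φ : (⟨1, fun _ => d⟩ : Wr C) ⟶ η) :
    Wr.Hom.f (sus u ≫ φ) = Wr.Hom.f φ := by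
  rfl

theorem sus_comp_g {c d : C} (u : c ⟶ d) {η : Wr C} (φ : (⟨1, fun _ => d⟩ : Wr C) ⟶ η)
    (j : Fin η.len) (h : Jump (Wr.Hom.f φ) (0 : Fin 1) j) :
    Wr.Hom.g (sus u ≫ φ) (0 : Fin 1) j h = u ≫ Wr.Hom.g φ (0 : Fin 1) j h := by
  refine (Wr.comp_g (sus u) φ (sus_jump u) h).trans ?_
  rw [sus_g]

theorem sus_sus {b c d : C} (v : b ⟶ c) (u : c ⟶ d) : sus (v ≫ u) = sus v ≫ sus u := by
  refine Wr.hom_ext' rfl fun i j h h' => ?_
  obtain rfl : i = (0 : Fin 1) := Subsingleton.elim _ _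
  obtain rfl : j = (0 : Fin 1) := Subsingleton.elim _ _
  refine (sus_g _ _).trans (Eq.trans ?_ (sus_comp_g v (sus u) 0 (sus_jump u)).symm)
  rw [sus_g]

/-- If `φ` maps the `i`-th edge to the `k`-th edge of the target, it does so by the suspension
of its component. -/
theorem edge_comp_eq {ζ θ : Wr C} (φ : ζ ⟶ θ) (a : Fin ζ.len) (i : Fin θ.len)
    (h : Jump (Wr.Hom.f φ) a i) (h0 : Wr.Hom.f φ a.castSucc = i.castSucc)
    (h1 : Wr.Hom.f φ a.succ = i.succ) :
    edge ζ a ≫ φ = sus (Wr.Hom.g φ a i h) ≫ edge θ i := by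
  have hf : Wr.Hom.f (edge ζ a ≫ φ) = Wr.Hom.f (sus (Wr.Hom.g φ a i h) ≫ edge θ i) := by
    ext t
    refine congrArg Fin.val ?_
    show Wr.Hom.f φ (pair a.castSucc a.succ (castSucc_le_succ' a) t) =
      pair i.castSucc i.succ (castSucc_le_succ' i) t
    have ht : t = (0 : Fin 2) ∨ t = (1 : Fin 2) := fin2_cases t
    rcases ht with ht | ht
    · rw [ht]
      exact h0
    · rw [ht]
      exact h1
  refine Wr.hom_ext' hf fun b j hb hb' => ?_
  obtain rfl : b = (0 : Fin 1) := Subsingleton.elim _ _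
  obtain rfl : i = j := jump_pair (a := 0) hb'
  refine (edge_comp_g φ a i h).trans ?_
  refine Eq.trans ?_ (sus_comp_g (Wr.Hom.g φ a i h) (edge θ i) i (edge_jump θ i)).symm
  rw [edge_g]
  exact (Category.comp_id _).symm

/-- The spine is a covering sieve for the representable presheaves. -/
theorem spine_shF (θ η : Wr C) : ShF (spine θ) η := by
  intro x hx
  have hvert : ∀ v, (spine θ).arrows (vert θ v) := fun v => Or.inl ⟨v, fun _ => rfl⟩
  have hedge : ∀ i, (spine θ).arrows (edge θ i) := fun i => Or.inr ⟨i, fun t => by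
    rw [edge_f]
    by_cases ht : t = (0 : Fin 2)
    · left; rw [ht]; rfl
    · right
      exact if_neg ht⟩
  -- the values on vertices
  let F : Fin (θ.len + 1) → Fin (η.len + 1) := fun v =>
    Wr.Hom.f (x _ (vert θ v) (hvert v)) (0 : Fin 1)
  have hF : ∀ (ζ : Wr C) (φ : ζ ⟶ θ) (hφ : (spine θ).arrows φ) (s : Fin (ζ.len + 1)),
      Wr.Hom.f (x ζ φ hφ) s = F (Wr.Hom.f φ s) := by
    intro ζ φ hφ s
    have h1 : (spine θ).arrows (vert ζ s ≫ φ) := (spine θ).downward_closed hφ _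
    have h2 := hx ζ _ (vert ζ s) φ hφ h1
    have h3 : x _ (vert ζ s ≫ φ) h1 = x _ (vert θ (Wr.Hom.f φ s)) (hvert _) := by
      congr 1
      exact vert_comp s φ
    rw [h3, vert_comp s (x ζ φ hφ)] at h2
    have h4 := congrArg (fun w => Wr.Hom.f w (0 : Fin 1)) h2
    exact h4.symm
  have hmono : Monotone F := by
    rw [Fin.monotone_iff_le_succ]
    intro i
    have h0 := hF _ (edge θ i) (hedge i) (0 : Fin 2)
    have h1 := hF _ (edge θ i) (hedge i) (1 : Fin 2)
    rw [edge_f] at h0 h1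
    refine (le_of_eq h0.symm).trans (le_trans ?_ (le_of_eq h1))
    exact (Wr.Hom.f (x _ (edge θ i) (hedge i))).monotone (Fin.zero_le _)
  have hjump : ∀ (i : Fin θ.len) (j : Fin η.len), Jump (⟨F, hmono⟩ : _ →o _) i j →
      Jump (Wr.Hom.f (x _ (edge θ i) (hedge i))) (0 : Fin 1) j := by
    intro i j h
    constructor
    · exact (le_of_eq (hF _ (edge θ i) (hedge i) (0 : Fin 2))).trans h.1
    · exact h.2.trans (le_of_eq (hF _ (edge θ i) (hedge i) (1 : Fin 2)).symm)
  let t : θ ⟶ η := ({ f := ⟨F, hmono⟩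
                      g := fun i j h => Wr.Hom.g (x _ (edge θ i) (hedge i)) (0 : Fin 1) j
                        (hjump i j h) } : Wr.Hom θ η)
  refine ⟨t, ?_, ?_⟩
  · intro ζ φ hφ
    have hf : Wr.Hom.f (φ ≫ t) = Wr.Hom.f (x ζ φ hφ) := by
      ext s
      exact congrArg Fin.val (hF ζ φ hφ s).symm
    refine Wr.hom_ext' hf fun a j h h' => ?_
    obtain ⟨i, hi, hj⟩ := Jump.split (f := Wr.Hom.f φ) (g := Wr.Hom.f t) h
    refine (Wr.comp_g φ t hi hj).trans ?_
    -- the edge `a` is mapped onto the edge `i`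
    have hends : Wr.Hom.f φ a.castSucc = i.castSucc ∧ Wr.Hom.f φ a.succ = i.succ := by
      rcases hφ with ⟨v, hv⟩ | ⟨i', hi'⟩
      · exfalso
        have h1 := hi.1
        have h2 := hi.2
        rw [hv] at h1 h2
        have h3 := h2.trans h1
        rw [Fin.le_def] at h3
        simp at h3
      · have h1 := hi.1
        have h2 := hi.2
        rw [Fin.le_def] at h1 h2
        rcases hi' a.castSucc with e | e <;> rcases hi' a.succ with e' | e' <;>
          rw [e] at h1 ⊢ <;> rw [e'] at h2 ⊢ <;> simp at h1 h2 <;>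
          first
            | (exfalso; omega)
            | (have hii : i' = i := Fin.ext (by omega)
               subst hii
               exact ⟨rfl, rfl⟩)
    have h1 : (spine θ).arrows (edge ζ a ≫ φ) := (spine θ).downward_closed hφ _
    have h2 := hx ζ _ (edge ζ a) φ hφ h1
    have h3 : (spine θ).arrows (sus (Wr.Hom.g φ a i hi) ≫ edge θ i) :=
      (spine θ).downward_closed (hedge i) _
    have h4 := hx _ _ (sus (Wr.Hom.g φ a i hi)) (edge θ i) (hedge i) h3
    have h5 : x _ (edge ζ a ≫ φ) h1 = x _ (sus (Wr.Hom.g φ a i hi) ≫ edge θ i) h3 := by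
      congr 1
      exact edge_comp_eq φ a i hi hends.1 hends.2
    have h6 : edge ζ a ≫ x ζ φ hφ = sus (Wr.Hom.g φ a i hi) ≫ x _ (edge θ i) (hedge i) :=
      h2.symm.trans (h5.trans h4)
    have h7 := edge_comp_g (x ζ φ hφ) a j h'
    have h8 := sus_comp_g (Wr.Hom.g φ a i hi) (x _ (edge θ i) (hedge i)) j (hjump i j hj)
    refine h8.symm.trans (Eq.trans ?_ h7)
    have aux : ∀ (w w' : (⟨1, fun _ => ζ.obj a⟩ : Wr C) ⟶ η) (_ : w = w')
        (hw : Jump (Wr.Hom.f w) (0 : Fin 1) j) (hw' : Jump (Wr.Hom.f w') (0 : Fin 1) j),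
        Wr.Hom.g w (0 : Fin 1) j hw = Wr.Hom.g w' (0 : Fin 1) j hw' := by
      rintro w _ rfl hw hw'
      rfl
    exact aux _ _ h6.symm _ _
  · intro t' ht'
    have hf : Wr.Hom.f t' = Wr.Hom.f t := by
      ext v
      refine congrArg Fin.val ?_
      have h1 := ht' _ (vert θ v) (hvert v)
      rw [vert_comp] at h1
      exact congrArg (fun w => Wr.Hom.f w (0 : Fin 1)) h1
    refine Wr.hom_ext' hf fun i j h h' => ?_
    have h1 := ht' _ (edge θ i) (hedge i)
    have h2 := edge_comp_g t' i j h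
    refine h2.symm.trans ?_
    have aux : ∀ (w w' : (⟨1, fun _ => θ.obj i⟩ : Wr C) ⟶ η) (_ : w = w')
        (hw : Jump (Wr.Hom.f w) (0 : Fin 1) j) (hw' : Jump (Wr.Hom.f w') (0 : Fin 1) j),
        Wr.Hom.g w (0 : Fin 1) j hw = Wr.Hom.g w' (0 : Fin 1) j hw' := by
      rintro w _ rfl hw hw'
      rfl
    exact aux _ _ h1 _ (hjump i j h')

/-- The suspension of a covering sieve (with at least one arrow) is covering for the
representable presheaves. -/
theorem susp_shF {θ : C} {S : Sieve θ} (hne : ∃ (ζ : C) (u : ζ ⟶ θ), S.arrows u)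
    (hS : ∀ η, ShF S η) (η : Wr C) : ShF (suspSieve S) η := by
  intro x hx
  have hvert : ∀ v, (suspSieve S).arrows (vert (⟨1, fun _ => θ⟩ : Wr C) v) :=
    fun v (i : Fin 0) _ _ => i.elim0
  have hsus : ∀ {ζ : C} (u : ζ ⟶ θ), S.arrows u → (suspSieve S).arrows (sus u) := by
    intro ζ u hu i j h
    obtain rfl : i = (0 : Fin 1) := Subsingleton.elim _ _
    obtain rfl : j = (0 : Fin 1) := Subsingleton.elim _ _
    rw [sus_g]
    exact hu
  let F : Fin 2 → Fin (η.len + 1) := fun v =>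
    Wr.Hom.f (x _ (vert (⟨1, fun _ => θ⟩ : Wr C) v) (hvert v)) (0 : Fin 1)
  have hF : ∀ (ζ : Wr C) (φ : ζ ⟶ (⟨1, fun _ => θ⟩ : Wr C)) (hφ : (suspSieve S).arrows φ)
      (s : Fin (ζ.len + 1)), Wr.Hom.f (x ζ φ hφ) s = F (Wr.Hom.f φ s) := by
    intro ζ φ hφ s
    have h1 : (suspSieve S).arrows (vert ζ s ≫ φ) := (suspSieve S).downward_closed hφ _
    have h2 := hx ζ _ (vert ζ s) φ hφ h1
    have h3 : x _ (vert ζ s ≫ φ) h1 =
        x _ (vert (⟨1, fun _ => θ⟩ : Wr C) (Wr.Hom.f φ s)) (hvert _) := by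
      congr 1
      exact vert_comp s φ
    rw [h3, vert_comp s (x ζ φ hφ)] at h2
    have h4 := congrArg (fun w => Wr.Hom.f w (0 : Fin 1)) h2
    exact h4.symm
  have hmono : Monotone F := by
    rw [Fin.monotone_iff_le_succ]
    intro i
    obtain rfl : i = (0 : Fin 1) := Subsingleton.elim _ _
    obtain ⟨ζ, u, hu⟩ := hne
    have h0 := hF _ (sus u) (hsus u hu) (0 : Fin 2)
    have h1 := hF _ (sus u) (hsus u hu) (1 : Fin 2)
    refine (le_of_eq h0.symm).trans (le_trans ?_ (le_of_eq h1))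
    exact (Wr.Hom.f (x _ (sus u) (hsus u hu))).monotone (Fin.zero_le _)
  have hjump : ∀ {ζ : C} (u : ζ ⟶ θ) (hu : S.arrows u) (j : Fin η.len),
      Jump (⟨F, hmono⟩ : Fin 2 →o _) (0 : Fin 1) j →
      Jump (Wr.Hom.f (x _ (sus u) (hsus u hu))) (0 : Fin 1) j := by
    intro ζ u hu j h
    constructor
    · exact (le_of_eq (hF _ (sus u) (hsus u hu) (0 : Fin 2))).trans h.1
    · exact h.2.trans (le_of_eq (hF _ (sus u) (hsus u hu) (1 : Fin 2)).symm)
  have aux : ∀ {c : C} {j : Fin η.len} (w w' : (⟨1, fun _ => c⟩ : Wr C) ⟶ η) (_ : w = w')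
      (hw : Jump (Wr.Hom.f w) (0 : Fin 1) j) (hw' : Jump (Wr.Hom.f w') (0 : Fin 1) j),
      Wr.Hom.g w (0 : Fin 1) j hw = Wr.Hom.g w' (0 : Fin 1) j hw' := by
    rintro c j w _ rfl hw hw'
    rfl
  -- the components
  have hcomp : ∀ (j : Fin η.len) (hj : Jump (⟨F, hmono⟩ : Fin 2 →o _) (0 : Fin 1) j),
      ∃! t : θ ⟶ η.obj j, ∀ (ζ : C) (u : ζ ⟶ θ) (hu : S.arrows u),
        u ≫ t = Wr.Hom.g (x _ (sus u) (hsus u hu)) (0 : Fin 1) j (hjump u hu j hj) := by
    intro j hj
    refine hS (η.obj j) (fun ζ u hu =>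
      Wr.Hom.g (x _ (sus u) (hsus u hu)) (0 : Fin 1) j (hjump u hu j hj)) ?_
    intro ζ ζ' v u hu hu'
    have h1 : (suspSieve S).arrows (sus v ≫ sus u) :=
      (suspSieve S).downward_closed (hsus u hu) _
    have h2 := hx _ _ (sus v) (sus u) (hsus u hu) h1
    have h3 : x _ (sus (v ≫ u)) (hsus _ hu') = x _ (sus v ≫ sus u) h1 := by
      congr 1
      exact sus_sus v u
    refine (aux _ _ (h3.trans h2) _ (hjump u hu j hj)).trans ?_
    exact sus_comp_g v (x _ (sus u) (hsus u hu)) j (hjump u hu j hj)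
  choose tc htc htc' using hcomp
  let t : (⟨1, fun _ => θ⟩ : Wr C) ⟶ η :=
    ({ f := ⟨F, hmono⟩
       g := fun i j h => tc j (by
        obtain rfl : i = (0 : Fin 1) := Subsingleton.elim _ _
        exact h) } : Wr.Hom (⟨1, fun _ => θ⟩ : Wr C) η)
  refine ⟨t, ?_, ?_⟩
  · intro ζ φ hφ
    have hf : Wr.Hom.f (φ ≫ t) = Wr.Hom.f (x ζ φ hφ) := by
      ext s
      exact congrArg Fin.val (hF ζ φ hφ s).symm
    refine Wr.hom_ext' hf fun a j h h' => ?_
    obtain ⟨i, hi, hj⟩ := Jump.split (f := Wr.Hom.f φ) (g := Wr.Hom.f t) h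
    obtain rfl : i = (0 : Fin 1) := Subsingleton.elim _ _
    refine (Wr.comp_g φ t hi hj).trans ?_
    have hu : S.arrows (Wr.Hom.g φ a (0 : Fin 1) hi) := hφ a 0 hi
    refine (htc j hj _ (Wr.Hom.g φ a (0 : Fin 1) hi) hu).trans ?_
    have hends : Wr.Hom.f φ a.castSucc = (0 : Fin 1).castSucc ∧
        Wr.Hom.f φ a.succ = (0 : Fin 1).succ := by
      have h1 := hi.1
      have h2 := hi.2
      rw [Fin.le_def] at h1 h2
      have h3 : (Wr.Hom.f φ a.succ).1 < 2 := (Wr.Hom.f φ a.succ).2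
      have h4 : ((0 : Fin 1).castSucc : Fin 2).1 = 0 := rfl
      have h5 : ((0 : Fin 1).succ : Fin 2).1 = 1 := rfl
      constructor
      · exact Fin.ext (by
          have : (Wr.Hom.f φ a.castSucc).1 ≤ 0 := h1
          show (Wr.Hom.f φ a.castSucc).1 = 0
          omega)
      · exact Fin.ext (by
          have : 1 ≤ (Wr.Hom.f φ a.succ).1 := h2
          show (Wr.Hom.f φ a.succ).1 = 1
          omega)
    have h1 : (suspSieve S).arrows (edge ζ a ≫ φ) := (suspSieve S).downward_closed hφ _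
    have h2 := hx ζ _ (edge ζ a) φ hφ h1
    have h5 : x _ (edge ζ a ≫ φ) h1 = x _ (sus (Wr.Hom.g φ a (0 : Fin 1) hi)) (hsus _ hu) := by
      congr 1
      refine (edge_comp_eq φ a (0 : Fin 1) hi hends.1 hends.2).trans ?_
      have he : edge (⟨1, fun _ => θ⟩ : Wr C) (0 : Fin 1) = 𝟙 _ := by
        have hf : Wr.Hom.f (edge (⟨1, fun _ => θ⟩ : Wr C) (0 : Fin 1)) =
            Wr.Hom.f (𝟙 (⟨1, fun _ => θ⟩ : Wr C)) := by
          ext s
          refine congrArg Fin.val ?_
          have hs : s = (0 : Fin 2) ∨ s = (1 : Fin 2) := fin2_cases s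
          rcases hs with hs | hs <;> rw [hs] <;> rfl
        refine Wr.hom_ext' hf fun b l hb hb' => ?_
        obtain rfl : b = (0 : Fin 1) := Subsingleton.elim _ _
        obtain rfl : l = (0 : Fin 1) := Subsingleton.elim _ _
        rfl
      rw [he]
      exact Category.comp_id _
    have h7 := edge_comp_g (x ζ φ hφ) a j h'
    refine Eq.trans ?_ h7
    exact aux _ _ (h5.symm.trans h2) _ _
  · intro t' ht'
    have hf : Wr.Hom.f t' = Wr.Hom.f t := by
      ext v
      refine congrArg Fin.val ?_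
      have h1 := ht' _ (vert (⟨1, fun _ => θ⟩ : Wr C) v) (hvert v)
      rw [vert_comp] at h1
      exact congrArg (fun w => Wr.Hom.f w (0 : Fin 1)) h1
    refine Wr.hom_ext' hf fun i j h h' => ?_
    obtain rfl : i = (0 : Fin 1) := Subsingleton.elim _ _
    refine htc' j h' (Wr.Hom.g t' (0 : Fin 1) j h) ?_
    intro ζ u hu
    have h1 := ht' _ (sus u) (hsus u hu)
    refine (sus_comp_g u t' j h).symm.trans ?_
    exact aux _ _ h1 _ _

end Wreath

/-! ### The Segal covers -/

theorem segCov_shF {n : ℕ} {θ : Th n} {S : Sieve θ} (hS : SegCov n θ S) :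
    (∃ (ζ : Th n) (u : ζ ⟶ θ), S.arrows u) ∧ ∀ η, ShF S η := by
  induction hS with
  | spine n θ =>
    refine ⟨⟨_, vert (C := Th n) θ 0, Or.inl ⟨0, fun _ => rfl⟩⟩, fun η => ?_⟩
    exact spine_shF (C := Th n) θ η
  | @susp n θ S h ih =>
    obtain ⟨⟨ζ, u, hu⟩, ih2⟩ := ih
    refine ⟨⟨(⟨1, fun _ => ζ⟩ : Wr (Th n)), sus (C := Th n) u, ?_⟩, fun η => ?_⟩
    · intro i j h
      obtain rfl : i = (0 : Fin 1) := Subsingleton.elim _ _
      obtain rfl : j = (0 : Fin 1) := Subsingleton.elim _ _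
      rw [sus_g]
      exact hu
    · exact susp_shF (C := Th n) ⟨ζ, u, hu⟩ ih2 η

/-- FL-11. -/
theorem segCov_sheaf {n : ℕ} {θ : Th n} {S : Sieve θ} (hS : SegCov n θ S) (η : Th n) :
    Function.Bijective fun g : rep θ ⟶ rep η => sieveIncl S ≫ g :=
  bij_of_shF ((segCov_shF hS).2 η)

end Pool.Agent.Helper82.FL11
end

/- Helper67.FL.Compl -/
section
/-!
# FL-12 (MP_e8a4f2_al): the objects of `Θ_n` are complete
-/

open CategoryTheory MonoidalCategory Opposite

set_option autoImplicit false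

namespace Pool.Agent.Helper67.FLC

open FL

section General

variable {A : Type} [SmallCategory A]

/-- `f` is objectwise surjective and every map to a representable presheaf is constant on its
fibres. -/
def Compat {X Y : SP A} (f : X ⟶ Y) : Prop :=
  (∀ (a : Aᵒᵖ) (k : SimplexCategoryᵒᵖ) (y : (Y.obj a).obj k), ∃ x, (f.app a).app k x = y) ∧
  ∀ (η : A) (g : X ⟶ rep η) (a : Aᵒᵖ) (k : SimplexCategoryᵒᵖ) (x x' : (X.obj a).obj k),
    (f.app a).app k x = (f.app a).app k x' → (g.app a).app k x = (g.app a).app k x'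

theorem compat_bij {X Y : SP A} (f : X ⟶ Y) (h : Compat f) (η : A) :
    Function.Bijective (fun g : Y ⟶ rep η => f ≫ g) := by
  constructor
  · intro g g' hgg
    ext a k y
    obtain ⟨x, rfl⟩ := h.1 a k y
    exact ConcreteCategory.congr_hom (NatTrans.congr_app (NatTrans.congr_app hgg a) k) x
  · intro g
    choose s hs using h.1
    refine ⟨{ app := fun a =>
        { app := fun k => ↾ fun y => (g.app a).app k (s a k y)
          naturality := ?_ }
              naturality := ?_ }, ?_⟩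
    · intro k l α
      ext y
      refine (h.2 η g a l (s a l ((Y.obj a).map α y)) ((X.obj a).map α (s a k y)) ?_).trans
        (hom_natk g α (s a k y))
      rw [hs, hom_natk, hs]
    · intro a b φ
      ext k y
      refine (h.2 η g b k (s b k ((Y.map φ).app k y)) ((X.map φ).app k (s a k y)) ?_).trans
        (hom_nat g φ (s a k y))
      rw [hs, hom_nat, hs]
    · ext a k x
      exact h.2 η g a k (s a k ((f.app a).app k x)) x (hs a k _)

end General

section Wreath

variable {C : Type} [SmallCategory C]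

/-- the vertex `t` of `θ` -/
def vert (θ : Wr C) (t : Fin (θ.len + 1)) : (Wr.pt : Wr C) ⟶ θ :=
  ({ f := ⟨fun _ => t, fun _ _ _ => le_refl _⟩, g := fun (i : Fin 0) _ _ => i.elim0 } :
    Wr.Hom (Wr.pt : Wr C) θ)

@[simp] lemma vert_f (θ : Wr C) (t : Fin (θ.len + 1)) (s : Fin 1) :
    Wr.Hom.f (vert θ t) s = t := rfl

theorem hom_pt_ext {η : Wr C} {φ ψ : (Wr.pt : Wr C) ⟶ η}
    (h : Wr.Hom.f φ (0 : Fin 1) = Wr.Hom.f ψ (0 : Fin 1)) : φ = ψ := by
  refine Wr.hom_ext' ?_ fun (i : Fin 0) _ _ _ => i.elim0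
  ext (x : Fin 1)
  rw [Subsingleton.elim x (0 : Fin 1), h]

theorem not_jump_const {a b : ℕ} {f : Fin (a + 1) →o Fin (b + 1)} {p : Fin (b + 1)}
    (hf : ∀ t, f t = p) (i : Fin a) (j : Fin b) : ¬ Jump f i j := by
  rintro ⟨h1, h2⟩
  rw [hf] at h1 h2
  have := h2.trans h1
  rw [Fin.le_def] at this
  simp at this

theorem compat_iso (c : C) : Compat (isoMap C) := by
  refine ⟨fun a k y => ⟨fun _ => true, rfl⟩, ?_⟩
  intro η g a k x x' _
  -- the vertices
  set P : Bool → ((Wr.pt : Wr C) ⟶ η) := fun b => (g.app (op Wr.pt)).app k (fun _ => b) with hP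
  have key : ∀ (θ : Wr C) (ε : Fin (θ.len + 1) → Bool) (t : Fin (θ.len + 1)),
      Wr.Hom.f ((g.app (op θ)).app k ε : θ ⟶ η) t = Wr.Hom.f (P (ε t)) (0 : Fin 1) := by
    intro θ ε t
    have h := hom_nat g (vert θ t).op (k := k) ε
    have h2 : vert θ t ≫ ((g.app (op θ)).app k ε : θ ⟶ η) = P (ε t) := h.symm
    rw [← h2]
    rfl
  have hle : ∀ b b' : Bool, Wr.Hom.f (P b) (0 : Fin 1) ≤ Wr.Hom.f (P b') (0 : Fin 1) := by
    intro b b'
    have h0 := key (⟨1, fun _ => c⟩ : Wr C) (fun t : Fin 2 => if t = 0 then b else b') (0 : Fin 2)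
    have h1 := key (⟨1, fun _ => c⟩ : Wr C) (fun t : Fin 2 => if t = 0 then b else b') (1 : Fin 2)
    simp only [if_true] at h0
    rw [if_neg (by decide)] at h1
    rw [← h0, ← h1]
    exact (Wr.Hom.f _).monotone (Fin.zero_le _)
  have heq : ∀ b b' : Bool, Wr.Hom.f (P b) (0 : Fin 1) = Wr.Hom.f (P b') (0 : Fin 1) :=
    fun b b' => le_antisymm (hle b b') (hle b' b)
  have hconst : ∀ (ε : Fin (a.unop.len + 1) → Bool) (t : Fin (a.unop.len + 1)),
      Wr.Hom.f ((g.app a).app k ε : a.unop ⟶ η) t = Wr.Hom.f (P true) (0 : Fin 1) := by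
    intro ε t
    exact (key a.unop ε t).trans (heq _ _)
  refine Wr.hom_ext' (X := a.unop) (Y := η) ?_ fun i j h _ => ?_
  · ext t
    exact congrArg Fin.val ((hconst x t).trans (hconst x' t).symm)
  · exact absurd h (not_jump_const (hconst x) i j)

/-! ### the suspension -/

variable {X Y : SP C}

/-- the simplex of the suspension attached to a simplex of `X` -/
def ww (c : C) (k : SimplexCategoryᵒᵖ) (x : (X.obj (op c)).obj k) :
    VS (fun _ : Fin 1 => X) (⟨1, fun _ => c⟩ : Wr C) k where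
  f := OrderHom.id
  g _ _ _ := x

/-- the vertices of the suspension -/
def ve (X : SP C) (t : Fin 2) (k : SimplexCategoryᵒᵖ) :
    VS (fun _ : Fin 1 => X) (Wr.pt : Wr C) k where
  f := ⟨fun _ => t, fun _ _ _ => le_refl _⟩
  g := fun (i : Fin 0) _ _ => i.elim0

theorem g_congr {θ : Wr C} {k : SimplexCategoryᵒᵖ} {m : ℕ} {Z : Fin m → SP C} {u v : VS Z θ k}
    (h : u = v) (i : Fin θ.len) (j : Fin m) (hu : Jump u.f i j) (hv : Jump v.f i j) :
    u.g i j hu = v.g i j hv := by
  subst h; rfl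

theorem hg_congr {θ η : Wr C} {u v : θ ⟶ η}
    (h : u = v) (i : Fin θ.len) (j : Fin η.len) (hu : Jump (Wr.Hom.f u) i j)
    (hv : Jump (Wr.Hom.f v) i j) : Wr.Hom.g u i j hu = Wr.Hom.g v i j hv := by
  subst h; rfl

theorem map_vert (c : C) (k : SimplexCategoryᵒᵖ) (x : (X.obj (op c)).obj k) (t : Fin 2) :
    (ww c k x).mapθ (vert (⟨1, fun _ => c⟩ : Wr C) t) = ve X t k := by
  refine VS.ext' ?_ fun (i : Fin 0) _ _ _ => i.elim0
  ext (s : Fin 1)
  rfl

theorem map_ofComp {c c' : C} (γ : c' ⟶ c) (k : SimplexCategoryᵒᵖ) (x : (X.obj (op c)).obj k) :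
    (ww c k x).mapθ (Wr.ofComp (X := fun _ : Fin 1 => c') (Y := fun _ => c) fun _ => γ) =
      ww c' k ((X.map γ.op).app k x) := by
  refine VS.ext' rfl fun (i : Fin 1) (j : Fin 1) h h' => ?_
  have h0 : Jump (Wr.Hom.f (Wr.ofComp (X := fun _ : Fin 1 => c') (Y := fun _ => c) fun _ => γ))
      i i := jump_id.mpr rfl
  have h1 : Jump (ww c k x).f i j := h
  refine (VS.mapθ_g (Wr.ofComp (X := fun _ : Fin 1 => c') (Y := fun _ => c) fun _ => γ)
    (ww c k x) h0 h1).trans ?_
  rw [Wr.ofComp_g]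
  rfl

section

variable {η : Wr C} (G : V1 X ⟶ rep η)

/-- evaluation of `G` -/
def ev {θ : Wr C} {k : SimplexCategoryᵒᵖ} (u : VS (fun _ : Fin 1 => X) θ k) : θ ⟶ η :=
  (G.app (op θ)).app k u

theorem ev_map {θ θ' : Wr C} (φ : θ' ⟶ θ) {k : SimplexCategoryᵒᵖ}
    (u : VS (fun _ : Fin 1 => X) θ k) : ev G (u.mapθ φ) = φ ≫ ev G u :=
  hom_nat G φ.op (k := k) u

theorem ev_mapk {θ : Wr C} {k l : SimplexCategoryᵒᵖ} (α : k ⟶ l)
    (u : VS (fun _ : Fin 1 => X) θ k) : ev G (u.mapk α) = ev G u :=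
  hom_natk G (a := op θ) α u

/-- the end points -/
def pp (t : Fin 2) : Fin (η.len + 1) :=
  Wr.Hom.f (ev G (ve X t (op (SimplexCategory.mk 0)))) (0 : Fin 1)

theorem ev_ve (t : Fin 2) (k : SimplexCategoryᵒᵖ) :
    Wr.Hom.f (ev G (ve X t k)) (0 : Fin 1) = pp G t := by
  have α : op (SimplexCategory.mk 0) ⟶ k :=
    (SimplexCategory.isTerminalZero.from k.unop).op
  have h : (ve X t (op (SimplexCategory.mk 0))).mapk α = ve X t k := by
    refine VS.ext' rfl fun (i : Fin 0) _ _ _ => i.elim0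
  rw [← h, ev_mapk]
  rfl

theorem ev_ww (c : C) (k : SimplexCategoryᵒᵖ) (x : (X.obj (op c)).obj k) (t : Fin 2) :
    Wr.Hom.f (ev G (ww c k x)) t = pp G t := by
  have h := ev_map G (vert (⟨1, fun _ => c⟩ : Wr C) t) (ww c k x)
  rw [map_vert] at h
  rw [← ev_ve G t k, h]
  rfl

theorem jump_ww (c : C) (k : SimplexCategoryᵒᵖ) (x : (X.obj (op c)).obj k) (j : Fin η.len)
    (h0 : pp G 0 ≤ j.castSucc) (h1 : j.succ ≤ pp G 1) :
    Jump (Wr.Hom.f (ev G (ww c k x))) (0 : Fin 1) j := by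
  constructor
  · exact (ev_ww G c k x 0).le.trans h0
  · exact h1.trans (ev_ww G c k x 1).ge

/-- the components of `G` -/
def comp (j : Fin η.len) (h0 : pp G 0 ≤ j.castSucc) (h1 : j.succ ≤ pp G 1) :
    X ⟶ rep (η.obj j) where
  app a :=
    { app := fun k => ↾ fun x => Wr.Hom.g (ev G (ww a.unop k x)) (0 : Fin 1) j
        (jump_ww G a.unop k x j h0 h1)
      naturality := fun k l α => by
        ext x
        exact hg_congr (ev_mapk G α (ww a.unop k x)) _ _ _ _ }
  naturality a b γ := by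
    ext k x
    have e := ev_map G (Wr.ofComp (X := fun _ : Fin 1 => b.unop) (Y := fun _ => a.unop)
      fun _ => γ.unop) (ww a.unop k x)
    rw [map_ofComp] at e
    have h2 : Jump (Wr.Hom.f (Wr.ofComp (X := fun _ : Fin 1 => b.unop) (Y := fun _ => a.unop)
      fun _ => γ.unop)) (0 : Fin 1) (0 : Fin 1) := jump_id.mpr rfl
    have h3 := jump_ww G a.unop k x j h0 h1
    refine (hg_congr e (0 : Fin 1) j _ (h2.comp h3)).trans ?_
    refine (Wr.comp_g _ _ h2 h3).trans ?_
    rw [Wr.ofComp_g]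
    rfl

end

theorem ev_ww_eq {f : X ⟶ Y} (h : Compat f) {η : Wr C} (G : V1 X ⟶ rep η) (c : C)
    (k : SimplexCategoryᵒᵖ) (x x' : (X.obj (op c)).obj k)
    (hx : (f.app (op c)).app k x = (f.app (op c)).app k x') :
    ev G (ww c k x) = ev G (ww c k x') := by
  have hv : ∀ y : (X.obj (op c)).obj k, ∀ t, Wr.Hom.f (ev G (ww c k y)) t = pp G t :=
    fun y t => ev_ww G c k y t
  refine Wr.hom_ext' (X := (⟨1, fun _ => c⟩ : Wr C)) (Y := η) ?_ fun (i : Fin 1) j hj hj' => ?_
  · ext t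
    exact congrArg Fin.val ((hv x t).trans (hv x' t).symm)
  · obtain rfl : i = 0 := Subsingleton.elim _ _
    have h0 : pp G 0 ≤ j.castSucc := (hv x 0).ge.trans hj.1
    have h1 : j.succ ≤ pp G 1 := hj.2.trans (hv x 1).le
    exact h.2 (η.obj j) (comp G j h0 h1) (op c) k x x' hx

/-- the morphism `θ ⟶ [1](θ_i)` -/
def psi (θ : Wr C) (F : Fin (θ.len + 1) →o Fin 2) (i0 : Fin θ.len) (h0 : Jump (b := 1) F i0 0) :
    θ ⟶ (⟨1, fun _ => θ.obj i0⟩ : Wr C) :=
  ({ f := F
     g := fun i (j : Fin 1) h => eqToHom (by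
      obtain rfl : j = 0 := Subsingleton.elim _ _
      rw [Jump.unique h h0]) } : Wr.Hom θ (⟨1, fun _ => θ.obj i0⟩ : Wr C))

theorem psi_g (θ : Wr C) (F : Fin (θ.len + 1) →o Fin 2) (i0 : Fin θ.len)
    (h0 : Jump (b := 1) F i0 0) : Wr.Hom.g (psi θ F i0 h0) i0 (0 : Fin 1) h0 = 𝟙 _ := rfl

theorem eq_map_psi (θ : Wr C) (k : SimplexCategoryᵒᵖ) (u : VS (fun _ : Fin 1 => X) θ k)
    (i0 : Fin θ.len) (h0 : Jump u.f i0 (0 : Fin 1)) :
    u = (ww (θ.obj i0) k (u.g i0 0 h0)).mapθ (psi θ u.f i0 h0) := by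
  refine VS.ext' rfl fun i (j : Fin 1) h h' => ?_
  obtain rfl : j = 0 := Subsingleton.elim _ _
  obtain rfl : i = i0 := Jump.unique h h0
  have h1 : Jump (ww (θ.obj i) k (u.g i 0 h0)).f (0 : Fin 1) (0 : Fin 1) := jump_id.mpr rfl
  refine Eq.trans ?_ (VS.mapθ_g (psi θ u.f i h0) (ww (θ.obj i) k (u.g i 0 h0)) h0 h1).symm
  rw [psi_g]
  exact (sp_id X _).symm

theorem compat_susp (f : X ⟶ Y) (h : Compat f) : Compat (V1map f) := by
  constructor
  · intro a k y
    let y' : VS (fun _ : Fin 1 => Y) a.unop k := y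
    choose s hs using fun (i : Fin a.unop.len) (j : Fin 1) (hj : Jump y'.f i j) =>
      h.1 (op (a.unop.obj i)) k (y'.g i j hj)
    exact ⟨(⟨y'.f, s⟩ : VS (fun _ : Fin 1 => X) a.unop k),
      VS.ext' (u := VS.push (fun _ : Fin 1 => f) ⟨y'.f, s⟩) (v := y') rfl
        fun i j hj _ => hs i j hj⟩
  · intro η G a k u u' huu
    show ev G (θ := a.unop) u = ev G (θ := a.unop) u'
    have huu' : VS.push (fun _ : Fin 1 => f) (θ := a.unop) (k := k) u =
      VS.push (fun _ : Fin 1 => f) (θ := a.unop) (k := k) u' := huu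
    obtain ⟨uf, ug⟩ := u
    obtain ⟨uf', ug'⟩ := u'
    have hf : uf = uf' := congrArg VS.f huu'
    subst hf
    have hg : ∀ i j (hj : Jump uf i j), (f.app (op (a.unop.obj i))).app k (ug i j hj) =
        (f.app (op (a.unop.obj i))).app k (ug' i j hj) :=
      fun i j hj => g_congr huu' i j hj hj
    by_cases hex : ∃ i, Jump uf i (0 : Fin 1)
    · obtain ⟨i0, h0⟩ := hex
      rw [eq_map_psi a.unop k ⟨uf, ug⟩ i0 h0, eq_map_psi a.unop k ⟨uf, ug'⟩ i0 h0, ev_map, ev_map]
      rw [ev_ww_eq h G (a.unop.obj i0) k (ug i0 0 h0) (ug' i0 0 h0) (hg i0 0 h0)]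
    · congr 1
      refine VS.ext' rfl fun i (j : Fin 1) hj _ => ?_
      obtain rfl : j = 0 := Subsingleton.elim _ _
      exact absurd ⟨i, hj⟩ hex

end Wreath

/-- `Θ_n` is inhabited -/
noncomputable def obTh : (n : ℕ) → Th n
  | 0 => (⟨PUnit.unit⟩ : Discrete PUnit.{1})
  | (n + 1) => (Wr.pt : Wr (Th n))

theorem isCompl_compat {n : ℕ} {X Y : SP (Th n)} (f : X ⟶ Y) (hf : IsCompl n f) : Compat f := by
  induction hf with
  | base n => exact compat_iso (obTh n)
  | susp f _ ih => exact compat_susp f ih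

theorem isCompl_bij {n : ℕ} {X Y : SP (Th n)} (f : X ⟶ Y) (hf : IsCompl n f) (η : Th n) :
    Function.Bijective fun g : Y ⟶ rep η => f ≫ g :=
  compat_bij f (isCompl_compat f hf) η

end Pool.Agent.Helper67.FLC
end

/- Helper58.FL.RepCat -/
section
/-! FL-13: the objects of `Θ_n` are `(∞,n)`-categories. -/

open CategoryTheory Opposite

set_option autoImplicit false

namespace Pool.Agent.Helper58.FLR

open FL

theorem rep_isCat {n : ℕ} (θ : Th n) : IsCat n (rep θ) where
  inj := Helper61FL.disc_injFib _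
  segal := fun _ _ hS => Helper61FL.hoEq_disc _ _ (Pool.Agent.Helper82.FL11.segCov_sheaf hS θ)
  complete := fun _ _ f hf => Helper61FL.hoEq_disc f _ (Pool.Agent.Helper67.FLC.isCompl_bij f hf θ)

end Pool.Agent.Helper58.FLR
end

/- Helper94.FL.Holim -/
section
/-!
Project FL, module FL-7: homotopy invariance of Bousfield-Kan homotopy limits.
-/

open CategoryTheory MonoidalCategory Simplicial Opposite Limits HomotopicalAlgebra

set_option autoImplicit false

namespace Pool.Agent.Helper94.FL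

open _root_.FL Pool.Agent.Helper45.FL2

theorem W_lift {J : Type} [SmallCategory J] {G G' : SP J} (q : G ⟶ G')
    (hq : ∀ j, TrivFib (q.app j)) (f : W J ⟶ G') :
    ∃ g : W J ⟶ G, g ≫ q = f :=
  FL68.W_lift_of q hq f fun hp _ _ i _ => TrivFib.lift hp i

variable {J : Type} [SmallCategory J]

/-- lifting against the map of homotopy limits -/
theorem post_lift {G G' P : SP J} (q : G ⟶ G') {K L : SSet.{0}} (i : K ⟶ L) (fst : P ⟶ pw G K)
    (snd : P ⟶ pw G' L) (hP : IsPullback fst snd (pwMap q K) (pwPre G' i))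
    (π : pw G L ⟶ P) (h1 : π ≫ fst = pwPre G i) (h2 : π ≫ snd = pwMap q L)
    (hπ : ∀ j, TrivFib (π.app j)) : HasLiftingProperty i (Mp.post (W J) q) := by
  constructor
  intro t b sq
  have h3 : Mp.adj t ≫ q = tnMap (𝟙 (W J)) i ≫ Mp.adj b := by
    rw [← Mp.adj_post, ← Mp.adj_comp, sq.w]
  have h4 : cur (Mp.adj t) ≫ pwMap q K = cur (Mp.adj b) ≫ pwPre G' i := by
    rw [← cur_map, h3, cur_pre]
  obtain ⟨g, hg⟩ := W_lift π hπ (hP.lift _ _ h4)
  refine ⟨⟨⟨Mp.adj.symm (unc g), ?_, ?_⟩⟩⟩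
  · apply Mp.adj.injective
    rw [Mp.adj_comp, Equiv.apply_symm_apply, ← unc_pre, ← h1, ← Category.assoc, hg,
      hP.lift_fst, unc_cur]
  · apply Mp.adj.injective
    rw [Mp.adj_post, Equiv.apply_symm_apply, ← unc_map, ← h2, ← Category.assoc, hg,
      hP.lift_snd, unc_cur]

/-- the pullback-hom of a boundary inclusion and a trivial fibration -/
theorem pullbackHom_trivFib {E B : SSet.{0}} {p : E ⟶ B} (hp : TrivFib p) (m : ℕ)
    (sq : MonoidalClosed.internalHom.PullbackObjObj (∂Δ[m].ι : (∂Δ[m] : SSet.{0}) ⟶ Δ[m]) p) :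
    TrivFib sq.π := by
  intro n
  rw [← MonoidalClosed.internalHomAdjunction₂.hasLiftingProperty_iff
    (SSet.Subcomplex.unionProd.pushoutObjObj.{0} ∂Δ[m] ∂Δ[n])]
  have h : (MorphismProperty.monomorphisms SSet.{0}).rlp p := by
    rw [SSet.rlp_monomorphisms]
    rintro _ _ _ ⟨n⟩
    exact hp n
  rw [SSet.Subcomplex.unionProd.pushoutObjObj_ι]
  have hm : Mono (SSet.Subcomplex.ι (SSet.Subcomplex.unionProd.{0} ∂Δ[m] ∂Δ[n])) := by
    infer_instance
  exact h _ hm

theorem Holim_trivFib {G G' : SP J} (q : G ⟶ G') (hq : ∀ j, TrivFib (q.app j)) :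
    TrivFib (Mp.post (W J) q) := by
  intro m
  have hP := IsPullback.of_hasPullback (pwMap q (∂Δ[m] : SSet.{0}))
    (pwPre G' (∂Δ[m].ι : (∂Δ[m] : SSet.{0}) ⟶ Δ[m]))
  have hw := pw_comm q (∂Δ[m].ι : (∂Δ[m] : SSet.{0}) ⟶ Δ[m])
  refine post_lift q _ _ _ hP (hP.lift _ _ hw) (hP.lift_fst _ _ hw) (hP.lift_snd _ _ hw) ?_
  intro j
  have hj := hP.map ((evaluation Jᵒᵖ SSet.{0}).obj j)
  exact pullbackHom_trivFib (hq j) m
    { pt := _
      fst := _
      snd := _
      isPullback := hj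
      π := (hP.lift _ _ hw).app j
      π_fst := NatTrans.congr_app (hP.lift_fst _ _ hw) j
      π_snd := NatTrans.congr_app (hP.lift_snd _ _ hw) j }

open SSet.modelCategoryQuillen in
/-- the restriction of a power of a Kan complex along an anodyne extension -/
theorem pre_trivFib {K L X : SSet.{0}} (i : K ⟶ L) (hi : SSet.anodyneExtensions i)
    (hX : SSet.KanComplex X) : TrivFib ((MonoidalClosed.pre i).app X) := by
  intro n
  rw [← MonoidalCategory.Arrow.PushoutProduct.hasLiftingProperty_mk_isTerminal_iff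
    terminalIsTerminal]
  have h := SSet.anodyneExtensions_pushoutObjObjι'
    (Functor.PushoutObjObj.ofHasPushout (curriedTensor SSet.{0}) i
      (∂Δ[n].ι : (∂Δ[n] : SSet.{0}) ⟶ Δ[n])) hi
  have h2 : Fibration (terminal.from X) := (isFibrant_iff X).1 hX
  exact h _ ((fibration_iff _).1 h2)

theorem Holim_kan {G : SP J} (hG : ObjKan G) : SSet.KanComplex (Holim G) := by
  refine kan_of_fill fun n i t => ?_
  obtain ⟨g, hg⟩ := W_lift (pwPre G (Λ[n + 1, i].ι : (Λ[n + 1, i] : SSet.{0}) ⟶ _))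
    (fun j => pre_trivFib _ (SSet.anodyneExtensions.horn_ι i) (hG j))
    (cur (Mp.adj (t : (Λ[n + 1, i] : SSet.{0}) ⟶ Mp (W J) G)))
  refine ⟨Mp.adj.symm (unc g), ?_⟩
  apply Mp.adj.injective
  rw [Mp.adj_comp, Equiv.apply_symm_apply, ← unc_pre, hg, unc_cur]

/-- evaluation at the vertex `0` -/
noncomputable def pev0 (G : SP J) : pw G Δ[1] ⟶ G where
  app j := ev0 (G.obj j)
  naturality _ _ g := ev0_nat (G.map g)

/-- evaluation at the vertex `1` -/
noncomputable def pev1 (G : SP J) : pw G Δ[1] ⟶ G where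
  app j := ev1 (G.obj j)
  naturality _ _ g := ev1_nat (G.map g)

/-- the constant path -/
noncomputable def pcst {G G' : SP J} (q : G ⟶ G') : G ⟶ pw G' Δ[1] :=
  cur (G := G') { app := fun j => CartesianMonoidalCategory.fst (G.obj j) Δ[1] ≫ q.app j
                  naturality := fun j j' g => by
                    have h1 : G.map g ≫ q.app j' = q.app j ≫ G'.map g := q.naturality g
                    change G.map g ▷ Δ[1] ≫ CartesianMonoidalCategory.fst _ _ ≫ q.app j' =
                      (CartesianMonoidalCategory.fst _ _ ≫ q.app j) ≫ G'.map g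
                    rw [CartesianMonoidalCategory.whiskerRight_fst_assoc, h1, Category.assoc] }

lemma pcst_ev0 {G G' : SP J} (q : G ⟶ G') : pcst q ≫ pev0 G' = q := by
  ext1
  ext1 j
  change curS (CartesianMonoidalCategory.fst (G.obj j) Δ[1] ≫ q.app j) ≫ ev0 _ = _
  rw [comp_ev0, uncS_curS, SSet.ι₀_fst_assoc]

lemma pcst_ev1 {G G' : SP J} (q : G ⟶ G') : pcst q ≫ pev1 G' = q := by
  ext1
  ext1 j
  change curS (CartesianMonoidalCategory.fst (G.obj j) Δ[1] ≫ q.app j) ≫ ev1 _ = _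
  rw [comp_ev1, uncS_curS, SSet.ι₁_fst_assoc]

theorem post_comp (X : SP J) {G G' G'' : SP J} (p : G ⟶ G') (q : G' ⟶ G'') :
    Mp.post X (p ≫ q) = Mp.post X p ≫ Mp.post X q := rfl

theorem post_id (X : SP J) (G : SP J) : Mp.post X (𝟙 G) = 𝟙 _ := rfl

theorem Holim_hoEq {G G' : SP J} (hG : ObjKan G) (hG' : ObjKan G') (q : G ⟶ G')
    (hq : ObjHoEq q) : HoEq (Mp.post (W J) q) := by
  obtain ⟨P, p, s, hP⟩ : ∃ (P : SP J) (p : P ⟶ G) (s : P ⟶ pw G' Δ[1]),
      IsPullback p s q (pev0 G') := ⟨_, _, _, IsPullback.of_hasPullback q (pev0 G')⟩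
  have hPj : ∀ j, IsPullback (p.app j) (s.app j) (q.app j) (ev0 (G'.obj j)) :=
    fun j => hP.map ((evaluation Jᵒᵖ SSet.{0}).obj j)
  have hw : 𝟙 G ≫ q = pcst q ≫ pev0 G' := by rw [Category.id_comp, pcst_ev0]
  have hKP : ObjKan P := fun j => path_kan (hPj j) (hG j) (hG' j)
  have hp : ∀ j, TrivFib (p.app j) := fun j => fst_trivFib (hPj j) (hG' j)
  obtain ⟨σ, h1, h2⟩ : ∃ σ : G ⟶ P, σ ≫ p = 𝟙 G ∧ σ ≫ s = pcst q :=
    ⟨hP.lift _ _ hw, hP.lift_fst _ _ hw, hP.lift_snd _ _ hw⟩
  have h3 : σ ≫ s ≫ pev1 G' = q := by rw [← Category.assoc, h2, pcst_ev1]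
  have he : ∀ j, TrivFib ((s ≫ pev1 G').app j) := by
    intro j
    have hσ : HoEq (σ.app j) := by
      refine right_of (hKP j) (TrivFib.hoEq (hp j)) ?_
      have h4 : σ.app j ≫ p.app j = 𝟙 _ := NatTrans.congr_app h1 j
      rw [h4]
      exact id_of _
    have h5 : σ.app j ≫ (s ≫ pev1 G').app j = q.app j := NatTrans.congr_app h3 j
    refine trivFib_of_hoEq (hKP j) (hG' j) (snd_kanFib (hPj j) (hG j) (hG' j)) ?_
    refine left_of (hKP j) hσ ?_
    rw [h5]
    exact hq j
  have h6 : HoEq (Mp.post (W J) σ) := by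
    refine right_of (Holim_kan hKP) (TrivFib.hoEq (Holim_trivFib p hp)) ?_
    rw [← post_comp, h1, post_id]
    exact id_of _
  rw [← h3, post_comp]
  exact comp_of (Holim_kan hG) (Holim_kan hG') h6 (TrivFib.hoEq (Holim_trivFib _ he))

end Pool.Agent.Helper94.FL
end

/- Helper58.FL.Stage1 -/
section
/-! Stage 1 of project FL: the reduction of the conjecture to the theorem on `Θ_n`. -/

open CategoryTheory MonoidalCategory Opposite

set_option autoImplicit false

namespace Pool.Agent.Helper58.FLS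

open _root_.FL

variable {n : ℕ}

theorem hrep (θ : Th n) : IsCat n (rep θ) := Pool.Agent.Helper58.FLR.rep_isCat θ

theorem YDmap_iff (D D' : SP (Gn n)) : HoEq (YDmap D D') ↔ HoEq (NDmap D D') :=
  Helper43.FL.YDmap_iff hrep D D'

theorem YD_kan {D : SP (Gn n)} (hD : InjFib D) : (YD D).Kan :=
  Pool.Agent.Helper91.FL17a.YD_kan hD

theorem YD_injFib {D : SP (Gn n)} (hD : InjFib D) : (YD D).InjFib :=
  Pool.Agent.Helper82.FL15.YD_injFib hrep D hD

theorem YD_gauntDescent {D : SP (Gn n)} (hD : InjFib D) (hc : ∀ i, IsCat n (level D i)) :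
    (YD D).GauntDescent :=
  Pool.Agent.Helper91.FL17a.YD_gauntDescent hD hc

theorem gauntDescent_of_equiv {F G : PSh n} (hF : F.Kan) (hG : G.Kan) (h : PSh.Equiv F G)
    (hG' : G.GauntDescent) : F.GauntDescent :=
  Pool.Agent.Helper72.RKE.gauntDescent_of_equiv_of
    (fun hX hY hZ _ _ h1 h2 => Pool.Agent.Helper88.FL.hoEq_comp hX hY hZ h1 h2)
    (fun hX hY hZ _ _ h1 h2 => Pool.Agent.Helper88.FL.hoEq_of_comp_right hX hY hZ h1 h2)
    (fun h => Helper94.FL.Holim_kan h)
    (fun h1 h2 q hq => Helper94.FL.Holim_hoEq h1 h2 q hq) hF hG h hG'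

theorem equiv_YD_iff {F : PSh n} (hF : F.Kan) (hF' : F.GauntDescent) {D : SP (Gn n)}
    (hD : InjFib D) (hc : ∀ i, IsCat n (level D i)) :
    PSh.Equiv F (YD D) ↔ ∃ f : F.restr hrep ⟶ ND D, ObjHoEq f :=
  Pool.Agent.Helper72.RKE.equiv_YD_iff_of hrep
    (fun hX hY hZ _ _ h1 h2 => Pool.Agent.Helper88.FL.hoEq_comp hX hY hZ h1 h2)
    (fun hX hY hZ _ _ h1 h2 => Pool.Agent.Helper88.FL.hoEq_of_comp_right hX hY hZ h1 h2)
    (fun h => Helper94.FL.Holim_kan h)
    (fun h1 h2 q hq => Helper94.FL.Holim_hoEq h1 h2 q hq)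
    (fun F D => by
      obtain ⟨e, he, _⟩ := Pool.Agent.Helper82.FL15.exists_YDequiv hrep F D
      exact ⟨e, he⟩)
    (fun C hC => Pool.Agent.Helper91.FL17a.canCone_isGaunt hrep C hC)
    YD_kan YD_gauntDescent hF hF' hD hc

theorem segalDescent_restr {F : PSh n} (hF : F.GauntDescent) (hG : KnownGaunt n) :
    SegalDescent (F.restr hrep) :=
  Pool.Agent.Helper72.RKE.segalDescent_restr hrep hF hG

theorem conjecture_of (h : KnownTheorem n) (h' : KnownGaunt n) : Conjecture n := by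
  refine ⟨fun D D' hD hD' => (YDmap_iff D D').2 (h.1 D D' hD hD'), fun F hF => ⟨fun hF' => ?_, ?_⟩⟩
  · obtain ⟨D, hD, hf⟩ := (h.2 (F.restr hrep) fun a => hF _).1 (segalDescent_restr hF' h')
    exact ⟨D, hD, (equiv_YD_iff hF hF' hD.inj hD.cat).2 hf⟩
  · rintro ⟨D, hD, hE⟩
    exact gauntDescent_of_equiv hF (YD_kan hD.inj) hE (YD_gauntDescent hD.inj hD.cat)

end Pool.Agent.Helper58.FLS
end

/- Helper64.FL2.GauntB -/
section
/-!
# FL2-F8: restrictions of spines and of suspensions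
-/

open CategoryTheory MonoidalCategory Opposite FL

set_option autoImplicit false

namespace Pool.Agent.Helper64.FL2

section

variable {A : Type} [SmallCategory A] {P : SP A}

theorem mem_fsup {ι : Type} (s : Finset ι) (F : ι → Sb P) (a : Aᵒᵖ) (k : SimplexCategoryᵒᵖ)
    (x : (P.obj a).obj k) : x ∈ (s.sup F).mem a k ↔ ∃ i ∈ s, x ∈ (F i).mem a k := by
  classical
  induction s using Finset.induction_on with
  | empty => simp
  | insert i s hi ih =>
    rw [Finset.sup_insert, Sb.mem_sup, ih]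
    simp

end

section

variable {C D : Type} [SmallCategory C] [SmallCategory D]

theorem mem_spineL {m : ℕ} (B : Fin m → SP C) (η : (Wr C)ᵒᵖ) (k : SimplexCategoryᵒᵖ)
    (x : VS B η.unop k) : x ∈ (spineL (vface B) Finset.univ).mem η k ↔
      (∃ v, ∀ t, x.f t = v) ∨ ∃ i : Fin m, ∀ t, x.f t = i.castSucc ∨ x.f t = i.succ := by
  refine (Sb.mem_sup (P := V B) _ _ η k x).trans (or_congr ?_ ?_)
  · refine (mem_fsup (P := V B) _ _ η k x).trans ?_
    constructor
    · rintro ⟨a, -, h⟩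
      exact ⟨a, fun t => by simpa using h t⟩
    · rintro ⟨v, h⟩
      exact ⟨v, Finset.mem_univ _, fun t => by simpa using h t⟩
  refine (mem_fsup (P := V B) _ _ η k x).trans ?_
  · constructor
    · rintro ⟨⟨a, b⟩, hab, h⟩
      simp only [Finset.mem_filter, Finset.mem_product, Finset.mem_univ, true_and, true_implies] at hab
      obtain ⟨hlt, hc⟩ := hab
      have hlt' : a.val < b.val := hlt
      have hb := b.2
      refine ⟨⟨a.val, by omega⟩, fun t => ?_⟩
      have e1 : (⟨a.val, by omega⟩ : Fin m).castSucc = a := rfl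
      have e2 : (⟨a.val, by omega⟩ : Fin m).succ = b := by
        by_contra hne
        apply hc (⟨a.val, by omega⟩ : Fin m).succ
        refine ⟨?_, ?_⟩
        · rw [Fin.lt_def]; simp
        · rw [Fin.lt_def]
          have : b.val ≠ a.val + 1 := fun hh => hne (Fin.ext (by simp [hh]))
          simp
          omega
      rw [e1, e2]
      simpa using h t
    · rintro ⟨i, h⟩
      refine ⟨(i.castSucc, i.succ), ?_, fun t => ?_⟩
      · simp only [Finset.mem_filter, Finset.mem_product, Finset.mem_univ, true_and, true_implies]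
        refine ⟨Fin.castSucc_lt_succ, fun c hc => ?_⟩
        rw [Fin.lt_def, Fin.lt_def] at hc
        simp at hc
        omega
      · simpa using h t

variable (F : D ⥤ C)

/-- The restriction of a sieve, as a sub-presheaf. -/
def sbIso {θ : Wr C} (S : Sb (V (lb F θ))) (R : Sieve θ)
    (h : ∀ (η : (Wr D)ᵒᵖ) (k : SimplexCategoryᵒᵖ) (u : VS (lb F θ) η.unop k),
      u ∈ S.mem η k ↔ R.arrows (((repV F θ).hom.app η).app k u : (Wr.map F).obj η.unop ⟶ θ)) :
    S.toSP ≅ (Wr.map F).op ⋙ disc R.functor where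
  hom :=
    { app := fun η =>
        { app := fun k => ↾ fun (u : { x : VS (lb F θ) η.unop k // x ∈ S.mem η k }) =>
            (⟨((repV F θ).hom.app η).app k u.1, (h η k u.1).1 u.2⟩ :
              R.functor.obj (op ((Wr.map F).obj η.unop)))
          naturality := fun k l α => rfl }
      naturality := fun η η' φ => by
        refine NatTrans.ext (funext fun k => ?_)
        refine ConcreteCategory.hom_ext _ _ fun u => ?_
        exact Subtype.ext (hom_nat (repV F θ).hom φ u.1) }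
  inv :=
    { app := fun η =>
        { app := fun k => ↾ fun (u : R.functor.obj (op ((Wr.map F).obj η.unop))) =>
            (⟨((repV F θ).inv.app η).app k u.1, (h η k _).2 u.2⟩ :
              { x : VS (lb F θ) η.unop k // x ∈ S.mem η k })
          naturality := fun k l α => rfl }
      naturality := fun η η' φ => by
        refine NatTrans.ext (funext fun k => ?_)
        refine ConcreteCategory.hom_ext _ _ fun u => ?_
        exact Subtype.ext (hom_nat (repV F θ).inv φ u.1) }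
  hom_inv_id := rfl
  inv_hom_id := rfl

/-- The whole restriction of a representable, as a sub-presheaf. -/
def sbTop {θ : Wr C} (S : Sb (V (lb F θ)))
    (h : ∀ (η : (Wr D)ᵒᵖ) (k : SimplexCategoryᵒᵖ) (u : VS (lb F θ) η.unop k), u ∈ S.mem η k) :
    S.toSP ≅ (Wr.map F).op ⋙ rep θ where
  hom :=
    { app := fun η =>
        { app := fun k => ↾ fun (u : { x : VS (lb F θ) η.unop k // x ∈ S.mem η k }) =>
            ((repV F θ).hom.app η).app k u.1
          naturality := fun k l α => rfl }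
      naturality := fun η η' φ => by
        refine NatTrans.ext (funext fun k => ?_)
        refine ConcreteCategory.hom_ext _ _ fun u => ?_
        exact hom_nat (repV F θ).hom φ u.1 }
  inv :=
    { app := fun η =>
        { app := fun k => ↾ fun (u : (Wr.map F).obj η.unop ⟶ θ) =>
            (⟨((repV F θ).inv.app η).app k u, h η k _⟩ :
              { x : VS (lb F θ) η.unop k // x ∈ S.mem η k })
          naturality := fun k l α => rfl }
      naturality := fun η η' φ => by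
        refine NatTrans.ext (funext fun k => ?_)
        refine ConcreteCategory.hom_ext _ _ fun u => ?_
        exact Subtype.ext (hom_nat (repV F θ).inv φ u) }
  hom_inv_id := rfl
  inv_hom_id := rfl

/-- Restrictions of spines are local. -/
theorem loc_spine
    (hspine : ∀ {X : SP (Wr D)} (_ : InjFib X) (_ : SpLoc X) {m : ℕ} (B : Fin m → SP D)
      (U : Finset (Fin (m + 1))) (_ : U.Nonempty), LocT X (spineL (vface B) U) (vface B U))
    {Z : SP (Wr D)} (hZ : InjFib Z) (hS : SpLoc Z) (θ : Wr C) :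
    Loc Z (Functor.whiskerLeft (Wr.map F).op (sieveIncl (spine θ))) := by
  obtain ⟨hle, hl⟩ := hspine hZ hS (lb F θ) Finset.univ ⟨0, Finset.mem_univ _⟩
  exact lc_arrow_iso (sbIso F (spineL (vface (lb F θ)) Finset.univ) (spine θ)
    (fun η k u => mem_spineL (lb F θ) η k u)) (sbTop F (vface (lb F θ) Finset.univ)
    (fun η k u t => Finset.mem_univ _)) rfl hl

/-- The restriction of the suspension of a sieve. -/
def suspIso {θ : C} (S : Sieve θ) :
    V1 (F.op ⋙ disc S.functor) ≅ (Wr.map F).op ⋙ disc (suspSieve S).functor where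
  hom :=
    { app := fun η =>
        { app := fun k => ↾ fun (u : VS (fun _ : Fin 1 => F.op ⋙ disc S.functor) η.unop k) =>
            (⟨(({ f := u.f, g := fun i j h => (u.g i j h).1 } :
              Wr.Hom ((Wr.map F).obj η.unop) ⟨1, fun _ => θ⟩) :
                (Wr.map F).obj η.unop ⟶ (⟨1, fun _ => θ⟩ : Wr C)), fun i j h => (u.g i j h).2⟩ :
              (suspSieve S).functor.obj (op ((Wr.map F).obj η.unop)))
          naturality := fun k l α => rfl }
      naturality := fun η η' φ => by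
        refine NatTrans.ext (funext fun k => ?_)
        refine ConcreteCategory.hom_ext _ _
          fun (u : VS (fun _ : Fin 1 => F.op ⋙ disc S.functor) η.unop k) => ?_
        refine Subtype.ext (Wr.hom_ext' rfl fun i l h h' => ?_)
        obtain ⟨r, hr, hr'⟩ := Jump.split (f := Wr.Hom.f φ.unop) (g := u.f) h
        refine (congrArg Subtype.val (VS.mapθ_g φ.unop u hr hr')).trans ?_
        exact (Wr.comp_g (X := (Wr.map F).obj η'.unop) (Y := (Wr.map F).obj η.unop)
          (Z := (⟨1, fun _ => θ⟩ : Wr C))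
          ((Wr.map F).map φ.unop) (({ f := u.f, g := fun i j h => (u.g i j h).1 } :
              Wr.Hom ((Wr.map F).obj η.unop) ⟨1, fun _ => θ⟩) :
              (Wr.map F).obj η.unop ⟶ (⟨1, fun _ => θ⟩ : Wr C)) hr hr').symm }
  inv :=
    { app := fun η =>
        { app := fun k => ↾ fun (u : (suspSieve S).functor.obj (op ((Wr.map F).obj η.unop))) =>
            ({ f := Wr.Hom.f (X := (Wr.map F).obj η.unop) (Y := (⟨1, fun _ => θ⟩ : Wr C)) u.1
               g := fun i j h => ⟨Wr.Hom.g (X := (Wr.map F).obj η.unop)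
                (Y := (⟨1, fun _ => θ⟩ : Wr C)) u.1 i j h, u.2 i j h⟩ } :
              VS (fun _ : Fin 1 => F.op ⋙ disc S.functor) η.unop k)
          naturality := fun k l α => rfl }
      naturality := fun η η' φ => by
        refine NatTrans.ext (funext fun k => ?_)
        refine ConcreteCategory.hom_ext _ _
          fun (u : (suspSieve S).functor.obj (op ((Wr.map F).obj η.unop))) => ?_
        refine VS.ext' rfl fun i l h h' => ?_
        obtain ⟨r, hr, hr'⟩ := Jump.split (f := Wr.Hom.f φ.unop)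
          (g := Wr.Hom.f (X := (Wr.map F).obj η.unop) (Y := (⟨1, fun _ => θ⟩ : Wr C)) u.1) h
        refine Subtype.ext ((Wr.comp_g (X := (Wr.map F).obj η'.unop)
          (Y := (Wr.map F).obj η.unop) (Z := (⟨1, fun _ => θ⟩ : Wr C))
          ((Wr.map F).map φ.unop) u.1 hr hr').trans ?_)
        exact (congrArg Subtype.val (VS.mapθ_g φ.unop
          ({ f := Wr.Hom.f (X := (Wr.map F).obj η.unop) (Y := (⟨1, fun _ => θ⟩ : Wr C)) u.1
             g := fun i j h => ⟨Wr.Hom.g (X := (Wr.map F).obj η.unop)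
                (Y := (⟨1, fun _ => θ⟩ : Wr C)) u.1 i j h, u.2 i j h⟩ } :
              VS (fun _ : Fin 1 => F.op ⋙ disc S.functor) η.unop k) hr hr')).symm }
  hom_inv_id := rfl
  inv_hom_id := rfl

/-- The restriction of a representable suspension. -/
def suspTop (θ : C) :
    V1 (F.op ⋙ rep θ) ≅ (Wr.map F).op ⋙ rep (⟨1, fun _ => θ⟩ : Wr C) :=
  repV F (⟨1, fun _ => θ⟩ : Wr C)

/-- Restrictions of suspensions of sieves. -/
theorem loc_susp {Z : SP (Wr D)} {θ : C} (S : Sieve θ)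
    (h : Loc Z (V1map (Functor.whiskerLeft F.op (sieveIncl S)))) :
    Loc Z (Functor.whiskerLeft (Wr.map F).op (sieveIncl (suspSieve S))) :=
  lc_arrow_iso (suspIso F S) (suspTop F θ) rfl h

end

end Pool.Agent.Helper64.FL2
end

/- Helper64.FL2.GauntC -/
section
/-!
# FL2-F8: Segal covers are gaunt colimit diagrams
-/

open CategoryTheory MonoidalCategory Opposite FL

set_option autoImplicit false

namespace Pool.Agent.Helper64.FL2

/-- `knownGaunt`, from the modules H3 (`vface_spine`), V1 (`loc_V1map_iff`), V4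
(`sg_succ_iff`). -/
theorem knownGaunt_of
    (hspine : ∀ {C : Type} [SmallCategory C] {X : SP (Wr C)} (_ : InjFib X) (_ : SpLoc X) {m : ℕ}
      (B : Fin m → SP C) (U : Finset (Fin (m + 1))) (_ : U.Nonempty),
      LocT X (spineL (vface B) U) (vface B U))
    (hV1 : ∀ {C : Type} [SmallCategory C] {X : SP (Wr C)} (_ : InjFib X) {B B' : SP C}
      (f : B ⟶ B') (O : Set (Vt X)) (_ : ∀ z : Vt X, ∃ x ∈ O, Cn (X.obj (op Wr.pt)) x z),
      Loc X (V1map f) ↔ ∀ x ∈ O, ∀ y ∈ O, Loc (Hm X x y) f)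
    (hsg : ∀ {n : ℕ} {X : SP (Th (n + 1))} (_ : InjFib X) (O : Set (Vt (C := Th n) X))
      (_ : ∀ z : Vt (C := Th n) X, ∃ x ∈ O, Cn (X.obj (op (ptT (n + 1)))) x z),
      Sg (n + 1) X ↔ SpLoc (C := Th n) X ∧ ∀ x ∈ O, ∀ y ∈ O, Sg n (Hm (C := Th n) X x y))
    (n : ℕ) : KnownGaunt n := by
  have main : ∀ (n : ℕ) (θ : Th n) (S : Sieve θ), SegCov n θ S → ∀ (i : ℕ) (Z : SP (Th n)),
      Sg n Z → Loc Z (Functor.whiskerLeft (tr n i).op (sieveIncl S)) := by
    intro n θ S hS
    induction hS with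
    | spine n θ =>
      intro i Z hZ
      rcases i with _ | i
      · refine lc_isIso _ (isIso_whisker_sieve (tr (n + 1) 0) (FL.spine θ) ?_)
        intro b f
        left
        refine ⟨Wr.Hom.f (X := (Wr.pt : Wr (Th n))) (Y := θ) f 0, fun t => ?_⟩
        exact congrArg (Wr.Hom.f (X := (Wr.pt : Wr (Th n))) (Y := θ) f)
          (Subsingleton.elim (α := Fin 1) _ _)
      · have hcn : ∀ z : Vt (C := Th n) Z, ∃ x ∈ (Set.univ : Set (Vt (C := Th n) Z)),
            Cn (Z.obj (op (ptT (n + 1)))) x z := fun z => ⟨z, trivial, Pool.Agent.Helper91.FL2.cn_refl z⟩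
        have h2 := (hsg hZ.1 Set.univ hcn).1 hZ
        exact loc_spine (D := Th n) (tr n i) (fun hX hS => hspine hX hS) hZ.1 h2.1 θ
    | @susp n θ S h ih =>
      intro i Z hZ
      rcases i with _ | i
      · refine lc_isIso _ (isIso_whisker_sieve (tr (n + 1) 0) (suspSieve S) ?_)
        intro b f p
        exact Fin.elim0 p
      · have hcn : ∀ z : Vt (C := Th n) Z, ∃ x ∈ (Set.univ : Set (Vt (C := Th n) Z)),
            Cn (Z.obj (op (ptT (n + 1)))) x z :=
          fun z => ⟨z, trivial, Pool.Agent.Helper91.FL2.cn_refl z⟩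
        have h2 := (hsg hZ.1 Set.univ hcn).1 hZ
        refine loc_susp (C := Th n) (D := Th n) (tr n i) S ?_
        refine (hV1 (C := Th n) hZ.1 _ Set.univ hcn).2 fun x hx y hy => ?_
        exact ih i _ (h2.2 x hx y hy)
  intro θ S hS
  refine ⟨fun j => Pool.Agent.Helper58.FLR.rep_isCat _, Pool.Agent.Helper58.FLR.rep_isCat _, ?_⟩
  intro i _ Z hZ
  obtain ⟨π, hπ, hπ'⟩ := Pool.Agent.Helper64.FLCan.svCone_factor S
  have h1 : Functor.whiskerLeft (tr n i).op (svCone S) =
      Functor.whiskerLeft (tr n i).op π ≫ Functor.whiskerLeft (tr n i).op (sieveIncl S) := by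
    rw [← hπ]; rfl
  show Loc Z _
  rw [h1]
  refine lc_comp hZ.inj ?_ (main n θ S hS i Z ⟨hZ.inj, hZ.segal⟩)
  exact Pool.Agent.Helper91.FL2.preHoEq _ (fun a => hπ' _) hZ.inj

end Pool.Agent.Helper64.FL2
end

/- Helper82.FL2.VWEb -/
section
/-!
# FL2-H1 (second part): the functor `Z ↦ V[m](B_1, …, Z, …, B_m)`
-/

open CategoryTheory MonoidalCategory Opposite HomotopicalAlgebra

set_option autoImplicit false

namespace Pool.Agent.Helper82.FL2

open _root_.FL

variable {C : Type} [SmallCategory C] {m : ℕ}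

/-- The components of a simplex of `V[m](B)` at one label. -/
abbrev LS (Y : SP C) {a : ℕ} (c : Fin a → C) (f : Fin (a + 1) →o Fin (m + 1)) (i : Fin m)
    (k : SimplexCategoryᵒᵖ) : Type :=
  ∀ r : Fin a, Jump f r i → (Y.obj (op (c r))).obj k

/-- The presheaf structure on the components. -/
noncomputable def LS.pull {Y : SP C} {θ θ' : Wr C} (φ : θ' ⟶ θ)
    {f : Fin (θ.len + 1) →o Fin (m + 1)} {i : Fin m} {k : SimplexCategoryᵒᵖ}
    (z : LS Y θ.obj f i k) : LS Y θ'.obj (f.comp (Wr.Hom.f φ)) i k := fun r h =>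
  (Y.map (Wr.Hom.g φ r h.split.choose h.split.choose_spec.1).op).app k
    (z h.split.choose h.split.choose_spec.2)

theorem LS.pull_apply {Y : SP C} {θ θ' : Wr C} (φ : θ' ⟶ θ)
    {f : Fin (θ.len + 1) →o Fin (m + 1)} {i : Fin m} {k : SimplexCategoryᵒᵖ}
    (z : LS Y θ.obj f i k) {r : Fin θ'.len} {j : Fin θ.len} (h : Jump (Wr.Hom.f φ) r j)
    (h' : Jump f j i) :
    z.pull φ r (h.comp h') = (Y.map (Wr.Hom.g φ r j h).op).app k (z j h') := by
  have hj := (h.comp h').split.choose_spec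
  have e : (h.comp h').split.choose = j := hj.2.unique h'
  show (Y.map (Wr.Hom.g φ r _ hj.1).op).app k (z _ hj.2) = _
  have aux : ∀ j' (e : j' = j) (h1 : Jump (Wr.Hom.f φ) r j') (h2 : Jump f j' i),
      (Y.map (Wr.Hom.g φ r j' h1).op).app k (z j' h2) =
        (Y.map (Wr.Hom.g φ r j h).op).app k (z j h') := by
    rintro j' rfl h1 h2; rfl
  exact aux _ e _ _

theorem LS.pull_id {Y : SP C} {θ : Wr C} {f : Fin (θ.len + 1) →o Fin (m + 1)} {i : Fin m}
    {k : SimplexCategoryᵒᵖ} (z : LS Y θ.obj f i k) : z.pull (𝟙 θ) = z := by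
  funext r h
  refine (LS.pull_apply (𝟙 θ) z (jump_id.mpr rfl) h).trans ?_
  exact sp_id Y _

theorem LS.pull_comp {Y : SP C} {θ θ' θ'' : Wr C} (φ : θ' ⟶ θ) (ψ : θ'' ⟶ θ')
    {f : Fin (θ.len + 1) →o Fin (m + 1)} {i : Fin m} {k : SimplexCategoryᵒᵖ}
    (z : LS Y θ.obj f i k) : z.pull (ψ ≫ φ) = (z.pull φ).pull ψ := by
  funext r h
  obtain ⟨j, hr, hr'⟩ := Jump.split (f := Wr.Hom.f (ψ ≫ φ)) (g := f) h
  obtain ⟨s, hs, hs'⟩ := Jump.split (f := Wr.Hom.f ψ) (g := Wr.Hom.f φ) hr
  refine (LS.pull_apply (ψ ≫ φ) z hr hr').trans ?_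
  refine Eq.trans ?_ (LS.pull_apply ψ (z.pull φ) hs (hs'.comp hr')).symm
  rw [LS.pull_apply φ z hs' hr']
  have e := Wr.comp_g ψ φ hs hs'
  have e' : Wr.Hom.g (ψ ≫ φ) r j hr = Wr.Hom.g (ψ ≫ φ) r j (hs.comp hs') := rfl
  rw [e', e, op_comp]
  exact sp_comp Y _ _ _

/-- A simplex of `V[m](B)` at `θ`, the label `i` being separated. -/
structure VP (i : Fin m) (B : { j : Fin m // j ≠ i } → SP C) (Z : SP C) (θ : Wr C)
    (k : SimplexCategoryᵒᵖ) : Type where
  f : Fin (θ.len + 1) →o Fin (m + 1)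
  z : LS Z θ.obj f i k
  g : ∀ j : { j : Fin m // j ≠ i }, LS (B j) θ.obj f j.1 k

variable {i : Fin m} {B : { j : Fin m // j ≠ i } → SP C}

theorem VP.ext' {Z : SP C} {θ : Wr C} {k : SimplexCategoryᵒᵖ} {u v : VP i B Z θ k}
    (hf : u.f = v.f) (hz : ∀ r h h', u.z r h = v.z r h')
    (hg : ∀ j r h h', u.g j r h = v.g j r h') : u = v := by
  obtain ⟨f, z, g⟩ := u
  obtain ⟨f', z', g'⟩ := v
  simp only at hf
  subst hf
  have h1 : z = z' := funext fun r => funext fun h => hz r h h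
  have h2 : g = g' := funext fun j => funext fun r => funext fun h => hg j r h h
  rw [h1, h2]

/-- The presheaf `V[m](B)`, the label `i` being separated. -/
noncomputable def vp (i : Fin m) (B : { j : Fin m // j ≠ i } → SP C) (Z : SP C) : SP (Wr C) where
  obj θ :=
    { obj := fun k => VP i B Z θ.unop k
      map := fun {k l} α => ↾ fun u =>
        { f := u.f
          z := fun r h => (Z.obj (op (θ.unop.obj r))).map α (u.z r h)
          g := fun j r h => ((B j).obj (op (θ.unop.obj r))).map α (u.g j r h) }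
      map_id := fun k => by
        refine ConcreteCategory.hom_ext _ _ fun u => ?_
        exact VP.ext' rfl (fun r h h' => sset_id _ _) fun j r h h' => sset_id _ _
      map_comp := fun {k l n} α β => by
        refine ConcreteCategory.hom_ext _ _ fun u => ?_
        exact VP.ext' rfl (fun r h h' => sset_comp _ _ _ _) fun j r h h' => sset_comp _ _ _ _ }
  map {θ θ'} φ :=
    { app := fun k => ↾ fun u =>
        { f := u.f.comp (Wr.Hom.f φ.unop)
          z := u.z.pull φ.unop
          g := fun j => (u.g j).pull φ.unop }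
      naturality := fun k l α => by
        refine ConcreteCategory.hom_ext _ _ fun u => ?_
        exact VP.ext' rfl (fun r h h' => sp_nat Z _ α _) fun j r h h' => sp_nat (B j) _ α _ }
  map_id θ := by
    refine NatTrans.ext (funext fun k => ConcreteCategory.hom_ext _ _ fun u => ?_)
    exact VP.ext' rfl (fun r h h' => congrFun (congrFun (LS.pull_id u.z) r) h)
      fun j r h h' => congrFun (congrFun (LS.pull_id (u.g j)) r) h
  map_comp {θ θ' θ''} φ ψ := by
    refine NatTrans.ext (funext fun k => ConcreteCategory.hom_ext _ _ fun u => ?_)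
    exact VP.ext' rfl
      (fun r h h' => congrFun (congrFun (LS.pull_comp φ.unop ψ.unop u.z) r) h)
      fun j r h h' => congrFun (congrFun (LS.pull_comp φ.unop ψ.unop (u.g j)) r) h

/-- Functoriality of `V[m](B)` in the label `i`. -/
noncomputable def vpMap (i : Fin m) (B : { j : Fin m // j ≠ i } → SP C) {Z Z' : SP C}
    (p : Z ⟶ Z') : vp i B Z ⟶ vp i B Z' where
  app θ :=
    { app := fun k => ↾ fun u =>
        { f := u.f
          z := fun r h => (p.app (op (θ.unop.obj r))).app k (u.z r h)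
          g := u.g }
      naturality := fun k l α => by
        refine ConcreteCategory.hom_ext _ _ fun u => ?_
        exact VP.ext' rfl (fun r h h' => hom_natk p α _) fun j r h h' => rfl }
  naturality θ θ' φ := by
    refine NatTrans.ext (funext fun k => ConcreteCategory.hom_ext _ _ fun u => ?_)
    exact VP.ext' rfl (fun r h h' => hom_nat p _ _) fun j r h h' => rfl

/-- The sub-presheaf of `V[m](B)` attached to a family of vertex sets. -/
noncomputable def vpK (i : Fin m) (B : { j : Fin m // j ≠ i } → SP C) (Z : SP C)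
    (K : LowerSet (Finset (Fin (m + 1)))) : Sb (vp i B Z) where
  mem θ k := fun (u : VP i B Z θ.unop k) => Finset.univ.image u.f ∈ K
  mapA := by
    rintro θ θ' φ k u h
    refine K.lower ?_ h
    intro a ha
    obtain ⟨i, _, rfl⟩ := Finset.mem_image.mp ha
    exact Finset.mem_image.mpr ⟨_, Finset.mem_univ _, rfl⟩
  mapk := by
    rintro θ k l α u h
    exact h

/-- The functor `Z ↦ V[m](B_1, …, Z, …, B_m)`. -/
noncomputable def vF (i : Fin m) (B : { j : Fin m // j ≠ i } → SP C)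
    (K : LowerSet (Finset (Fin (m + 1)))) : SP C ⥤ SP (Wr C) where
  obj Z := (vpK i B Z K).toSP
  map p := Sb.restr (vpMap i B p) (vpK i B _ K) (vpK i B _ K) fun _ _ _ h => h
  map_id Z := rfl
  map_comp p q := rfl

/-- The inclusion `V(K) ⟶ V(K')`. -/
noncomputable def vI (i : Fin m) (B : { j : Fin m // j ≠ i } → SP C)
    {K K' : LowerSet (Finset (Fin (m + 1)))} (h : K ≤ K') : vF i B K ⟶ vF i B K' where
  app Z := Sb.ofLE (S := vpK i B Z K) (T := vpK i B Z K') fun _ _ _ hx => h hx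
  naturality _ _ _ := rfl

end Pool.Agent.Helper82.FL2
end

/- Helper82.FL2.VWEc -/
section
/-!
# FL2-H1 (third part): homotopy colimits and `V[m]`
-/

open CategoryTheory MonoidalCategory Opposite HomotopicalAlgebra

set_option autoImplicit false

namespace Pool.Agent.Helper82.FL2

open _root_.FL

section Hoco

variable {A J : Type} [SmallCategory A] [SmallCategory J]

/-- Functoriality of homotopy colimits. -/
def hocoMap {p p' : J ⥤ SP A} (τ : p ⟶ p') : Hoco p ⟶ Hoco p' where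
  app a :=
    { app := fun k => ↾ fun (w : HS p a k) =>
        (⟨w.σ, ((τ.app (w.σ.obj 0)).app a).app k w.x⟩ : HS p' a k)
      naturality := fun k l α => by
        refine ConcreteCategory.hom_ext _ _ fun w => ?_
        refine congrArg (HS.mk (Chain.res (HS.σ w) α.unop)) ?_
        refine Eq.trans ?_ (congrArg (((p'.map ((HS.σ w).zeroTo α.unop)).app a).app l)
          (hom_natk (τ.app ((HS.σ w).obj 0)) α (HS.x w)))
        exact ConcreteCategory.congr_hom (NatTrans.congr_app (NatTrans.congr_app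
          (τ.naturality ((HS.σ w).zeroTo α.unop)) a) l) _ }
  naturality a b f := by
    refine NatTrans.ext (funext fun k => ConcreteCategory.hom_ext _ _ fun w => ?_)
    exact congrArg (HS.mk (HS.σ w)) (hom_nat (τ.app ((HS.σ w).obj 0)) f (HS.x w))

/-- The map of diagrams of mapping spaces. -/
noncomputable def mpDiagMap {p p' : J ⥤ SP A} (τ : p ⟶ p') (X : SP A) :
    mpDiag p' X ⟶ mpDiag p X where
  app j := Mp.pre (τ.app j.unop) X
  naturality j j' f := by
    refine NatTrans.ext (funext fun k => ConcreteCategory.hom_ext _ _ fun φ => ?_)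
    refine MpS.ext ?_
    funext a l s x
    refine congrArg (MpS.app φ a l s) ?_
    exact (ConcreteCategory.congr_hom (NatTrans.congr_app (NatTrans.congr_app
      (τ.naturality f.unop) a) l) x).symm

theorem hoEq_of_isIso {X Y : SSet.{0}} (f : X ⟶ Y) [IsIso f] : HoEq f :=
  ⟨inv f, Pool.Agent.Helper36.FL.htpy_of_eq (IsIso.hom_inv_id f),
    Pool.Agent.Helper36.FL.htpy_of_eq (IsIso.inv_hom_id f)⟩

theorem loc_hoco {X : SP A} (hX : InjFib X) {p p' : J ⥤ SP A} (τ : p ⟶ p')
    (h : ∀ j, Loc X (τ.app j)) : Loc X (hocoMap τ) := by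
  obtain ⟨e, he⟩ := Helper61FL.exists_holimIso p X
  obtain ⟨e', he'⟩ := Helper61FL.exists_holimIso p' X
  have hk : ∀ Y : SP A, SSet.KanComplex (Mp Y X) := fun Y => Pool.Agent.Helper83.FL4.Mp_kan Y hX
  have h1 : HoEq (Mp.post (W J) (mpDiagMap τ X)) :=
    Pool.Agent.Helper94.FL.Holim_hoEq (fun j => hk _) (fun j => hk _) _ fun j => h j.unop
  have h2 : Mp.pre (hocoMap τ) X = e'.hom ≫ Mp.post (W J) (mpDiagMap τ X) ≫ e.inv := by
    rw [← Category.assoc, Iso.eq_comp_inv]
    refine NatTrans.ext (funext fun k => ConcreteCategory.hom_ext _ _ fun ψ => ?_)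
    refine MpS.ext ?_
    funext j l s w
    refine MpS.ext ?_
    funext a m t y
    refine (he k ((Mp.pre (hocoMap τ) X).app k ψ) j l s w a m t y).trans ?_
    refine Eq.trans ?_ (he' k ψ j l s w a m t (((τ.app j.unop).app a).app m y)).symm
    refine congrArg (fun x => MpS.app ψ a m (t ≫ s) x) ?_
    refine congrArg (HS.mk (Chain.res (WS.σ w) t)) ?_
    exact ConcreteCategory.congr_hom (NatTrans.congr_app (NatTrans.congr_app
      (τ.naturality (WS.u w ≫ (WS.σ w).zeroTo t)) a) m) y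
  have h3 : SSet.KanComplex (Holim (mpDiag p' X)) :=
    Pool.Agent.Helper94.FL.Holim_kan fun j => hk _
  show HoEq _
  rw [h2]
  refine Helper85FL.hoEq_comp (hk _) (hk _) (hoEq_of_isIso _) ?_
  exact Helper85FL.hoEq_comp h3 (hk _) h1 (hoEq_of_isIso _)

end Hoco

end Pool.Agent.Helper82.FL2
end

/- Helper82.FL2.VWEd -/
section
/-!
# FL2-H1 (fourth part): the pushout square
-/

open CategoryTheory MonoidalCategory Opposite HomotopicalAlgebra

set_option autoImplicit false

namespace Pool.Agent.Helper82.FL2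

open _root_.FL

section Assembly

variable {C : Type} [SmallCategory C] {m : ℕ} (i : Fin m) (B : { j : Fin m // j ≠ i } → SP C)
  (K : LowerSet (Finset (Fin (m + 1)))) {J : Type} [SmallCategory J] (p : J ⥤ SP C)

/-- The map from the empty presheaf. -/
def emptTo (Z : SP C) : empt C ⟶ Z where
  app a :=
    { app := fun k => ↾ fun (x : PEmpty.{1}) => x.elim
      naturality := fun k l α => by
        refine ConcreteCategory.hom_ext _ _ fun (x : PEmpty.{1}) => x.elim }
  naturality a b f := by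
    refine NatTrans.ext (funext fun k => ?_)
    refine ConcreteCategory.hom_ext _ _ fun (x : PEmpty.{1}) => x.elim

/-- The projection of a tensor. -/
def tnFst {A : Type} [SmallCategory A] (P : SP A) (N : SSet.{0}) : tn P N ⟶ P where
  app a := { app := fun k => ↾ fun x => x.1, naturality := fun _ _ _ => rfl }
  naturality _ _ _ := rfl

/-- The upper map of the pushout square. -/
noncomputable def asT : tn ((vF i B K).obj (empt C)) (Nv J) ⟶ Hoco (p ⋙ vF i B K) where
  app a :=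
    { app := fun k => ↾ fun w =>
        (⟨w.2, (((vF i B K).map (emptTo (p.obj (Chain.obj w.2 0)))).app a).app k w.1⟩ :
          HS (p ⋙ vF i B K) a k)
      naturality := fun k l α => by
        refine ConcreteCategory.hom_ext _ _ fun w => ?_
        refine congrArg (HS.mk (Chain.res w.2 α.unop)) ?_
        exact Subtype.ext (VP.ext' rfl (fun r h h' => PEmpty.elim (w.1.1.z r h))
          fun j r h h' => rfl) }
  naturality a b f := by
    refine NatTrans.ext (funext fun k => ConcreteCategory.hom_ext _ _ fun w => ?_)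
    refine congrArg (HS.mk w.2) ?_
    exact Subtype.ext (VP.ext' rfl (fun r h h' => PEmpty.elim
      (LS.pull f.unop (Y := empt C) w.1.1.z r h)) fun j r h h' => rfl)

/-- The right map of the pushout square. -/
noncomputable def asV : Hoco (p ⋙ vF i B K) ⟶ (vF i B K).obj (Hoco p) where
  app a :=
    { app := fun k => ↾ fun (w : HS (p ⋙ vF i B K) a k) =>
        ⟨{ f := w.x.1.f, z := fun r h => ⟨w.σ, w.x.1.z r h⟩, g := w.x.1.g }, w.x.2⟩
      naturality := fun k l α => by
        refine ConcreteCategory.hom_ext _ _ fun w => ?_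
        rfl }
  naturality a b f := by
    refine NatTrans.ext (funext fun k => ConcreteCategory.hom_ext _ _ fun w => ?_)
    rfl

theorem asSq : asT i B K p ≫ asV i B K p =
    tnFst _ _ ≫ (vF i B K).map (emptTo (Hoco p)) := by
  refine NatTrans.ext (funext fun a => NatTrans.ext (funext fun k => ?_))
  refine ConcreteCategory.hom_ext _ _ fun w => ?_
  exact Subtype.ext (VP.ext' rfl (fun r h h' => PEmpty.elim (w.1.1.z r h)) fun j r h h' => rfl)

theorem vF_empt_inj {Z Z' : SP C} (q : Z ⟶ Z') (hq : ∀ a k (x y : (Z.obj a).obj k),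
      (q.app a).app k x = (q.app a).app k y → x = y) (a : (Wr C)ᵒᵖ) (k : SimplexCategoryᵒᵖ) :
    Function.Injective ((((vF i B K).map q).app a).app k) := by
  rintro ⟨⟨f, z, g⟩, hu⟩ ⟨⟨f', z', g'⟩, hu'⟩ h
  have h1 := congrArg Subtype.val h
  injection h1 with h2 h3 h4
  subst h2
  subst h4
  refine Subtype.ext (VP.ext' rfl (fun r h h' => ?_) fun j r h h' => rfl)
  exact hq _ _ _ _ (congrFun (congrFun (eq_of_heq h3) r) h)

theorem asT_inj (a : (Wr C)ᵒᵖ) (k : SimplexCategoryᵒᵖ) :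
    Function.Injective (((asT i B K p).app a).app k) := by
  rintro ⟨u, σ⟩ ⟨u', σ'⟩ h
  injection h with h1 h2
  subst h1
  refine Prod.ext ?_ rfl
  exact vF_empt_inj i B K (emptTo (p.obj (Chain.obj σ 0)))
    (fun a k (x : PEmpty.{1}) y _ => x.elim) a k (eq_of_heq h2)

variable {i B K p}

/-- Simplices which are not in the image of `asT` have a component of label `i`. -/
theorem exists_jump_of {a : (Wr C)ᵒᵖ} {k : SimplexCategoryᵒᵖ}
    (w : HS (p ⋙ vF i B K) a k) (hw : w ∉ Set.range (((asT i B K p).app a).app k)) :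
    ∃ r, Jump w.x.1.f r i := by
  by_contra hc
  rw [not_exists] at hc
  refine hw ⟨(⟨{ f := w.x.1.f, z := fun r h => (hc r h).elim, g := w.x.1.g }, w.x.2⟩, w.σ), ?_⟩
  refine congrArg (HS.mk (HS.σ w)) ?_
  exact Subtype.ext (VP.ext' rfl (fun r h h' => (hc r h').elim) fun j r h h' => rfl)

theorem exists_lift_z {a : ℕ} {c : Fin a → C} {f : Fin (a + 1) →o Fin (m + 1)}
    {k : SimplexCategoryᵒᵖ} (z : LS (Hoco p) c f i k) {r : Fin a} (h : Jump f r i) :
    ∃ (σ : Chain J k.unop) (z' : LS (p.obj (σ.obj 0)) c f i k), z = fun r h => ⟨σ, z' r h⟩ := by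
  refine ⟨(z r h).σ, ?_⟩
  have key : ∀ r' (h' : Jump f r' i), ∃ x, z r' h' = ⟨(z r h).σ, x⟩ := by
    intro r' h'
    obtain rfl := h.unique h'
    exact ⟨(z r h).x, rfl⟩
  choose z' hz' using key
  exact ⟨z', funext fun r' => funext fun h' => hz' r' h'⟩

variable (i B K p)

theorem asPo : IsPushout (asT i B K p) (tnFst _ _) (asV i B K p)
    ((vF i B K).map (emptTo (Hoco p))) := by
  refine Pool.Agent.Helper45.LOC.isPushout_of_elem _ _ _ _ (asSq i B K p) (asT_inj i B K p)
    (vF_empt_inj i B K (emptTo (Hoco p)) fun a k (x : PEmpty.{1}) y _ => x.elim) ?_ ?_ ?_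
  · intro a k x y hx hy h
    obtain ⟨r, hr⟩ := exists_jump_of x hx
    obtain ⟨σ, ⟨⟨f, z, g⟩, hu⟩⟩ := x
    obtain ⟨σ', ⟨⟨f', z', g'⟩, hu'⟩⟩ := y
    have h1 := congrArg Subtype.val h
    injection h1 with h2 h3 h4
    simp only at h2
    subst h2
    have h5 := fun r hr => congrFun (congrFun (eq_of_heq h3) r) hr
    have h6 : σ = σ' := congrArg HS.σ (h5 r hr)
    subst h6
    refine congrArg (HS.mk σ) ?_
    refine Subtype.ext (VP.ext' rfl (fun r h h' => ?_) fun j r h h' => ?_)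
    · have h7 := h5 r h
      injection h7
    · exact congrFun (congrFun (congrFun (eq_of_heq h4) j) r) h
  · rintro a k x hx ⟨y, hy⟩
    obtain ⟨r, hr⟩ := exists_jump_of x hx
    have h1 := congrArg Subtype.val hy
    have h2 : y.1.f = x.x.1.f := congrArg VP.f h1
    rw [← h2] at hr
    exact PEmpty.elim (y.1.z r hr)
  · rintro a k ⟨⟨f, z, g⟩, hu⟩
    by_cases hj : ∃ r, Jump f r i
    · obtain ⟨r, hr⟩ := hj
      obtain ⟨σ, z', rfl⟩ := exists_lift_z z hr
      exact Or.inl ⟨⟨σ, ⟨⟨f, z', g⟩, hu⟩⟩, rfl⟩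
    · rw [not_exists] at hj
      refine Or.inr ⟨⟨{ f := f, z := fun r h => (hj r h).elim, g := g }, hu⟩, ?_⟩
      exact Subtype.ext (VP.ext' rfl (fun r h h' => (hj r h').elim) fun j r h h' => rfl)

end Assembly

end Pool.Agent.Helper82.FL2
end

/- Helper82.FL2.VWE -/
section
/-!
# FL2-H1 VWE: `V[m]` preserves objectwise equivalences; generation by representable presheaves
-/

open CategoryTheory MonoidalCategory Opposite HomotopicalAlgebra

set_option autoImplicit false

namespace Pool.Agent.Helper82.FL2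

open _root_.FL

section

variable {C : Type} [SmallCategory C] {m : ℕ}

theorem loc_vF_hoco {i : Fin m} {B : { j : Fin m // j ≠ i } → SP C} {X : SP (Wr C)}
    (hX : InjFib X) {K K' : LowerSet (Finset (Fin (m + 1)))} (h : K ≤ K') {J : Type}
    [SmallCategory J] (p : J ⥤ SP C) (h0 : Loc X ((vI i B h).app (empt C)))
    (h1 : ∀ j, Loc X ((vI i B h).app (p.obj j))) : Loc X ((vI i B h).app (Hoco p)) := by
  refine Pool.Agent.Helper45.LOC.loc_glue hX (asPo i B K p) (asPo i B K' p)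
    (fun a => mono_of_inj _ (asT_inj i B K p a)) (fun a => mono_of_inj _ (asT_inj i B K' p a))
    (tnMap ((vI i B h).app (empt C)) (𝟙 (Nv J))) (hocoMap (Functor.whiskerLeft p (vI i B h)))
    ((vI i B h).app (empt C)) ((vI i B h).app (Hoco p)) rfl rfl rfl rfl
    (Pool.Agent.Helper45.LOC.loc_tensor hX _ h0 _) (loc_hoco hX _ h1) h0

/-- The comparison of the two descriptions of `V[m](B)`. -/
noncomputable def cmpK (i : Fin m) (B : Fin m → SP C) (K : LowerSet (Finset (Fin (m + 1)))) :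
    (vK B K).toSP ⟶ (vF i (fun j => B j.1) K).obj (B i) where
  app θ :=
    { app := fun k => ↾ fun u =>
        ⟨{ f := (u.1 : VS B θ.unop k).f
           z := fun r h => (u.1 : VS B θ.unop k).g r i h
           g := fun j r h => (u.1 : VS B θ.unop k).g r j.1 h }, u.2⟩
      naturality := fun _ _ _ => rfl }
  naturality _ _ _ := rfl

theorem cmpK_bij (i : Fin m) (B : Fin m → SP C) (K : LowerSet (Finset (Fin (m + 1))))
    (θ : (Wr C)ᵒᵖ) (k : SimplexCategoryᵒᵖ) :
    Function.Bijective (((cmpK i B K).app θ).app k) := by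
  constructor
  · rintro ⟨⟨f, g⟩, hu⟩ ⟨⟨f', g'⟩, hu'⟩ h
    have h1 := congrArg Subtype.val h
    injection h1 with h2 h3 h4
    simp only at h2
    subst h2
    refine Subtype.ext (VS.ext' rfl fun r j hh hh' => ?_)
    by_cases hj : j = i
    · subst hj
      exact congrFun (congrFun (eq_of_heq h3) r) hh
    · exact congrFun (congrFun (congrFun (eq_of_heq h4) ⟨j, hj⟩) r) hh
  · rintro ⟨⟨f, z, g⟩, hu⟩
    have key : ∀ r j (h : Jump f r j), ∃ x : ((B j).obj (op (θ.unop.obj r))).obj k,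
        (∀ e : j = i, e ▸ x = z r (e ▸ h)) ∧ ∀ e : j ≠ i, x = g ⟨j, e⟩ r h := by
      intro r j h
      by_cases hj : j = i
      · subst hj
        exact ⟨z r h, fun e => rfl, fun e => (e rfl).elim⟩
      · exact ⟨g ⟨j, hj⟩ r h, fun e => (hj e).elim, fun e => rfl⟩
    choose x hx hx' using key
    refine ⟨⟨{ f := f, g := x }, hu⟩, ?_⟩
    exact Subtype.ext (VP.ext' rfl (fun r h h' => hx r i h rfl) fun j r h h' => hx' r j.1 h j.2)

/-- Objectwise bijective maps of simplicial presheaves are isomorphisms. -/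
theorem exists_iso {A : Type} [SmallCategory A] {P Q : SP A} (f : P ⟶ Q)
    (h : ∀ a k, Function.Bijective ((f.app a).app k)) : ∃ e : P ≅ Q, e.hom = f := by
  have : ∀ a, IsIso (f.app a) := fun a => isIso_of_bij _ (h a)
  have : IsIso f := NatIso.isIso_of_isIso_app f
  exact ⟨asIso f, rfl⟩

theorem locT_iff {X : SP (Wr C)} (i : Fin m) (B : Fin m → SP C)
    {K K' : LowerSet (Finset (Fin (m + 1)))} (h : K ≤ K') :
    LocT X (vK B K) (vK B K') ↔ Loc X ((vI i (fun j => B j.1) h).app (B i)) := by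
  obtain ⟨e, he⟩ := exists_iso _ (cmpK_bij i B K)
  obtain ⟨e', he'⟩ := exists_iso _ (cmpK_bij i B K')
  constructor
  · rintro ⟨h', h1⟩
    refine Pool.Agent.Helper45.LOC.loc_of_arrow_iso e e' ?_ h1
    rw [he, he']
    rfl
  · intro h1
    refine ⟨fun _ _ _ hx => h hx, ?_⟩
    refine Pool.Agent.Helper45.LOC.loc_of_arrow_iso e.symm e'.symm ?_ h1
    rw [Iso.symm_hom, Iso.symm_hom, Iso.eq_inv_comp, ← Category.assoc, Iso.comp_inv_eq, he, he']
    rfl

theorem mem_NC_iff {a : ℕ} (f : Fin (a + 1) →o Fin (m + 1)) (i : Fin m) :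
    Finset.univ.image f ∈ NC i ↔ ∀ r, ¬ Jump f r i := by
  constructor
  · intro h r hr
    have h1 : f r.castSucc ∈ Finset.univ.image f := Finset.mem_image_of_mem _ (Finset.mem_univ _)
    have h2 : f r.succ ∈ Finset.univ.image f := Finset.mem_image_of_mem _ (Finset.mem_univ _)
    rcases h with h | h
    · exact absurd (hr.2.trans (h _ h2)) (not_le.mpr (Fin.castSucc_lt_succ))
    · exact absurd ((h _ h1).trans hr.1) (not_le.mpr (Fin.castSucc_lt_succ))
  · intro h
    by_contra hc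
    have h1 : ¬ ((∀ a ∈ Finset.univ.image f, a ≤ i.castSucc) ∨
      ∀ a ∈ Finset.univ.image f, i.succ ≤ a) := hc
    push Not at h1
    obtain ⟨⟨x, hx, hx'⟩, y, hy, hy'⟩ := h1
    obtain ⟨q, _, rfl⟩ := Finset.mem_image.mp hx
    obtain ⟨p, _, rfl⟩ := Finset.mem_image.mp hy
    obtain ⟨r, _, _, hr⟩ := exists_jump f i (p := p) (q := q)
      (by rw [Fin.lt_def] at hy'; rw [Fin.le_def]; simp at hy' ⊢; omega)
      (by rw [Fin.lt_def] at hx'; rw [Fin.le_def]; simp at hx' ⊢; omega)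
    exact h r hr

/-- The part of `V(K)` whose simplices do not cross the gap `i`. -/
noncomputable def emK (i : Fin m) (B : { j : Fin m // j ≠ i } → SP C) (Z : SP C)
    (K : LowerSet (Finset (Fin (m + 1)))) :
    (vF i B K).obj (empt C) ⟶ (vF i B (K ⊓ NC i)).obj Z :=
  Sb.restr (vpMap i B (emptTo Z)) (vpK i B (empt C) K) (vpK i B Z (K ⊓ NC i))
    fun _ _ (u : VP i B (empt C) _ _) hu =>
      ⟨hu, (mem_NC_iff u.f i).mpr fun r hr => PEmpty.elim (u.z r hr)⟩

theorem emK_bij (i : Fin m) (B : { j : Fin m // j ≠ i } → SP C) (Z : SP C)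
    (K : LowerSet (Finset (Fin (m + 1)))) (θ : (Wr C)ᵒᵖ) (k : SimplexCategoryᵒᵖ) :
    Function.Bijective (((emK i B Z K).app θ).app k) := by
  constructor
  · rintro ⟨⟨f, z, g⟩, hu⟩ ⟨⟨f', z', g'⟩, hu'⟩ h
    have h1 := congrArg Subtype.val h
    injection h1 with h2 h3 h4
    subst h2
    subst h4
    exact Subtype.ext (VP.ext' rfl (fun r h h' => PEmpty.elim (z r h)) fun j r h h' => rfl)
  · rintro ⟨⟨f, z, g⟩, hu⟩
    have h1 := (mem_NC_iff f i).mp hu.2
    refine ⟨⟨{ f := f, z := fun r h => (h1 r h).elim, g := g }, hu.1⟩, ?_⟩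
    exact Subtype.ext (VP.ext' rfl (fun r h h' => (h1 r h').elim) fun j r h h' => rfl)

theorem loc_empt_iff {X : SP (Wr C)} (i : Fin m) (B : { j : Fin m // j ≠ i } → SP C) (Z : SP C)
    {K K' : LowerSet (Finset (Fin (m + 1)))} (h : K ≤ K') (h' : K ⊓ NC i ≤ K' ⊓ NC i)
    (h1 : Loc X ((vI i B h').app Z)) : Loc X ((vI i B h).app (empt C)) := by
  obtain ⟨e, he⟩ := exists_iso _ (emK_bij i B Z K)
  obtain ⟨e', he'⟩ := exists_iso _ (emK_bij i B Z K')
  refine Pool.Agent.Helper45.LOC.loc_of_arrow_iso e.symm e'.symm ?_ h1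
  rw [Iso.symm_hom, Iso.symm_hom, Iso.eq_inv_comp, ← Category.assoc, Iso.comp_inv_eq, he, he']
  rfl

theorem loc_update {X : SP (Wr C)} (i : Fin m) (B : Fin m → SP C) (Z : SP C)
    {K K' : LowerSet (Finset (Fin (m + 1)))} (h : K ≤ K') :
    LocT X (vK (Function.update B i Z) K) (vK (Function.update B i Z) K') ↔
      Loc X ((vI i (fun j => B j.1) h).app Z) := by
  rw [locT_iff i (Function.update B i Z) h]
  have e1 : (fun j : { j : Fin m // j ≠ i } => Function.update B i Z j.1) = fun j => B j.1 :=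
    funext fun j => Function.update_of_ne j.2 _ _
  rw [e1, Function.update_self]

theorem vK_generate {X : SP (Wr C)} (hX : InjFib X) {m : ℕ} (B : Fin m → SP C) (i : Fin m)
    (K K' : LowerSet (Finset (Fin (m + 1)))) (hKK' : K ≤ K')
    (h0 : LocT X (vK B (K ⊓ NC i)) (vK B (K' ⊓ NC i)))
    (h1 : ∀ c : C, LocT X (vK (Function.update B i (rep c)) K)
      (vK (Function.update B i (rep c)) K')) : LocT X (vK B K) (vK B K') := by
  have hNC : K ⊓ NC i ≤ K' ⊓ NC i := inf_le_inf_right _ hKK'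
  have h2 : Loc X ((vI i (fun j => B j.1) hKK').app (empt C)) :=
    loc_empt_iff i _ (B i) hKK' hNC ((locT_iff i B hNC).mp h0)
  have h3 : Loc X ((vI i (fun j => B j.1) hKK').app (Hoco (canDiag (B i)))) :=
    loc_vF_hoco hX hKK' (canDiag (B i)) h2 fun e => (loc_update i B (rep e.a) hKK').mp (h1 e.a)
  obtain ⟨h4, h4'⟩ := (loc_update i B (Hoco (canDiag (B i))) hKK').mpr h3
  have h5 : ∀ j, ∃ q : Function.update B i (Hoco (canDiag (B i))) j ⟶ B j,
      ∀ a, WE (q.app a) := by
    intro j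
    by_cases hj : j = i
    · subst hj
      rw [Function.update_self]
      exact ⟨canCone (B j), fun a => Pool.Agent.Helper64.FLCan.canCone_we (B j) a⟩
    · rw [Function.update_of_ne hj]
      exact ⟨𝟙 _, fun a => we_of_isIso _⟩
  choose q hq using h5
  have hle : vK B K ≤ vK B K' := fun _ _ _ hx => hKK' hx
  refine ⟨hle, ?_⟩
  have w1 : Loc X (Sb.restr (V.map q) (vK _ K) (vK B K) fun _ _ _ h => h) :=
    Pool.Agent.Helper45.LOC.loc_of_we hX _ (V_we q hq K)
  have w2 : Loc X (Sb.restr (V.map q) (vK _ K') (vK B K') fun _ _ _ h => h) :=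
    Pool.Agent.Helper45.LOC.loc_of_we hX _ (V_we q hq K')
  refine Pool.Agent.Helper45.LOC.loc_of_comp_left hX w1 ?_
  have e : Sb.restr (V.map q) (vK _ K) (vK B K) (fun _ _ _ h => h) ≫ Sb.ofLE hle =
    Sb.ofLE h4 ≫ Sb.restr (V.map q) (vK _ K') (vK B K') fun _ _ _ h => h := rfl
  rw [e]
  exact Pool.Agent.Helper45.LOC.loc_comp hX h4' w2

end

end Pool.Agent.Helper82.FL2
end

/- Helper51.FL2.Spine -/
section
/-!
# Spines and inner horns of `V[m](B)` are local for arbitrary labels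
-/

open CategoryTheory MonoidalCategory Opposite

set_option autoImplicit false

namespace Pool.Agent.Helper51.FL2

open _root_.FL
open Pool.Agent.Helper45.LOC (locT_refl locT_trans locT_cancel locT_push locT_comap loc_iff_range)
open Pool.Agent.Helper82.FL2 (vK_generate)
open Pool.Agent.Helper7.FL2 (lat_JT lat_bin vface_iso)
open Pool.Agent.Helper7.FL2.LatAux (Sp dn_Sp Fa Dn)

noncomputable section

variable {C : Type} [SmallCategory C]

section Faces

variable {m : ℕ} (B : Fin m → SP C)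

theorem vface_bot : vface B ∅ = ⊥ := by
  apply le_antisymm
  · intro θ k u hu
    exact absurd (hu 0) (Finset.notMem_empty _)
  · exact bot_le

theorem vface_inf (U V : Finset (Fin (m + 1))) :
    vface B (U ∩ V) = vface B U ⊓ vface B V := by
  apply le_antisymm
  · intro θ k u hu
    exact ⟨fun i => (Finset.mem_inter.1 (hu i)).1, fun i => (Finset.mem_inter.1 (hu i)).2⟩
  · intro θ k u hu
    exact fun i => Finset.mem_inter.2 ⟨hu.1 i, hu.2 i⟩

theorem vface_univ : vface B Finset.univ = ⊤ := by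
  apply le_antisymm le_top
  intro θ k u _ i
  exact Finset.mem_univ _

theorem vface_mono {U V : Finset (Fin (m + 1))} (h : U ⊆ V) : vface B U ≤ vface B V := by
  intro θ k u hu i
  exact h (hu i)

/-- Membership in a finite union. -/
theorem mem_sup_iff {A : Type} [SmallCategory A] {P : SP A} {ι : Type} (s : Finset ι)
    (F : ι → Sb P) (a : Aᵒᵖ) (k : SimplexCategoryᵒᵖ) (x : (P.obj a).obj k) :
    x ∈ (s.sup F).mem a k ↔ ∃ i ∈ s, x ∈ (F i).mem a k := by
  classical
  induction s using Finset.induction_on with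
  | empty =>
    rw [Finset.sup_empty]
    exact ⟨fun h => h.elim, fun ⟨i, hi, _⟩ => absurd hi (Finset.notMem_empty i)⟩
  | insert j s hj ih =>
    rw [Finset.sup_insert, Sb.mem_sup, ih]
    constructor
    · rintro (h | ⟨i, hi, h⟩)
      · exact ⟨j, Finset.mem_insert_self _ _, h⟩
      · exact ⟨i, Finset.mem_insert_of_mem hi, h⟩
    · rintro ⟨i, hi, h⟩
      rcases Finset.mem_insert.1 hi with rfl | hi
      · exact Or.inl h
      · exact Or.inr ⟨i, hi, h⟩

/-- The lower set of a down-closed family. -/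
def LS (D : Finset (Fin (m + 1)) → Prop) (hD : Dn D) : LowerSet (Finset (Fin (m + 1))) where
  carrier := { U | D U }
  lower' := fun U V h hU => hD V U h hU

theorem Fa_eq (D : Finset (Fin (m + 1)) → Prop) (hD : Dn D) :
    Fa (vface B) D = vK B (LS D hD) := by
  classical
  refine Sb.ext ?_
  funext θ k
  ext (u : VS B θ.unop k)
  unfold Fa
  refine (mem_sup_iff _ _ _ _ _).trans ?_
  constructor
  · rintro ⟨X, hX, h⟩
    refine hD _ X ?_ (Finset.mem_filter.1 hX).2
    intro a ha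
    obtain ⟨i, _, rfl⟩ := Finset.mem_image.1 ha
    exact h i
  · intro h
    refine ⟨Finset.univ.image u.f, Finset.mem_filter.2 ⟨Finset.mem_univ _, h⟩, ?_⟩
    intro i
    exact Finset.mem_image.2 ⟨i, Finset.mem_univ _, rfl⟩

theorem spine_eq_vK (U : Finset (Fin (m + 1))) :
    spineL (vface B) U = vK B (LS (Sp U) (dn_Sp U)) :=
  (Pool.Agent.Helper7.FL2.LatAux.spine_eq (vface_bot B) (vface_inf B) U).trans
    (Fa_eq B (Sp U) (dn_Sp U))

theorem mem_spine {U : Finset (Fin (m + 1))} {θ : (Wr C)ᵒᵖ} {k : SimplexCategoryᵒᵖ}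
    (u : VS B θ.unop k) :
    (spineL (vface B) U).mem θ k u ↔ Sp U (Finset.univ.image u.f) := by
  rw [spine_eq_vK]
  exact Iff.rfl

theorem spine_le (U : Finset (Fin (m + 1))) : spineL (vface B) U ≤ vface B U := by
  intro θ k (u : VS B θ.unop k) hu
  have h := ((mem_spine B u).1 hu).1
  intro i
  exact h (Finset.mem_image.2 ⟨i, Finset.mem_univ _, rfl⟩)

end Faces

variable {X : SP (Wr C)}

/-- The statement of the main claim for `V[m]`. -/
def Clm (X : SP (Wr C)) (m : ℕ) : Prop :=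
  ∀ B : Fin m → SP C, LocT X (spineL (vface B) Finset.univ) ⊤

/-- From the claim to faces. -/
theorem locT_face {m k : ℕ} (hk : Clm X k) (B : Fin m → SP C) (U : Finset (Fin (m + 1)))
    (hU : U.card = k + 1) : LocT X (spineL (vface B) U) (vface B U) := by
  classical
  set p := U.orderEmbOfFin hU with hp
  obtain ⟨B', f, hf, hr, hff⟩ := vface_iso B p
  have hmap : Finset.univ.map p.toEmbedding = U := by
    ext a
    rw [Finset.mem_map]
    have h1 : Set.range p = (U : Set (Fin (m + 1))) := Finset.range_orderEmbOfFin U hU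
    constructor
    · rintro ⟨t, _, rfl⟩
      exact Finset.orderEmbOfFin_mem U hU t
    · intro ha
      have : a ∈ Set.range p := by rw [h1]; exact ha
      obtain ⟨t, ht⟩ := this
      exact ⟨t, Finset.mem_univ _, ht⟩
  rw [hmap] at hr
  rw [← locT_comap f hf _ _ (spine_le B U) (le_of_eq hr.symm)]
  have e1 : (spineL (vface B) U).comap f = spineL (vface B') Finset.univ := by
    refine Sb.ext ?_
    funext θ l
    ext (u : VS B' θ.unop l)
    refine Iff.trans (mem_spine B ((f.app θ).app l u : VS B θ.unop l)) ?_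
    refine Iff.trans ?_ (mem_spine B' u).symm
    rw [hff]
    constructor
    · rintro ⟨_, h⟩
      refine ⟨Finset.subset_univ _, ?_⟩
      intro a ha b hb c _ hac hcb
      obtain ⟨i, _, rfl⟩ := Finset.mem_image.1 ha
      obtain ⟨j, _, rfl⟩ := Finset.mem_image.1 hb
      exact h (p (u.f i)) (Finset.mem_image.2 ⟨i, Finset.mem_univ _, rfl⟩) (p (u.f j))
        (Finset.mem_image.2 ⟨j, Finset.mem_univ _, rfl⟩) (p c)
        (Finset.orderEmbOfFin_mem U hU c) (p.lt_iff_lt.2 hac) (p.lt_iff_lt.2 hcb)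
    · rintro ⟨_, h⟩
      refine ⟨?_, ?_⟩
      · intro a ha
        obtain ⟨i, _, rfl⟩ := Finset.mem_image.1 ha
        exact Finset.orderEmbOfFin_mem U hU _
      · intro a ha b hb c hc hac hcb
        obtain ⟨i, _, rfl⟩ := Finset.mem_image.1 ha
        obtain ⟨j, _, rfl⟩ := Finset.mem_image.1 hb
        rw [← hmap] at hc
        obtain ⟨c, _, rfl⟩ := Finset.mem_map.1 hc
        exact h (u.f i) (Finset.mem_image.2 ⟨i, Finset.mem_univ _, rfl⟩) (u.f j)
          (Finset.mem_image.2 ⟨j, Finset.mem_univ _, rfl⟩) c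
          (Finset.mem_univ _) (p.lt_iff_lt.1 hac) (p.lt_iff_lt.1 hcb)
  have e2 : (vface B U).comap f = ⊤ := by
    apply le_antisymm le_top
    rw [← hr]
    intro θ l u _
    exact ⟨u, rfl⟩
  rw [e1, e2]
  exact hk B'

/-- Disjoint unions. -/
theorem locT_disj (hX : InjFib X) {P : SP (Wr C)} {S S' T T' : Sb P} (h : LocT X S S')
    (h' : LocT X T T') (hd : S' ⊓ T' = ⊥) : LocT X (S ⊔ T) (S' ⊔ T') := by
  have hS : S ≤ S' := h.1
  have hT : T ≤ T' := h'.1
  have e1 : (S ⊔ T) ⊓ S' = S := by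
    rw [inf_sup_right, inf_eq_left.2 hS]
    have : T ⊓ S' = ⊥ := by
      apply le_antisymm _ bot_le
      rw [← hd, inf_comm]
      exact inf_le_inf_left _ hT
    rw [this, sup_bot_eq]
  have e2 : (S' ⊔ T) ⊓ T' = T := by
    rw [inf_sup_right, inf_eq_left.2 hT, hd, bot_sup_eq]
  have s1 : LocT X (S ⊔ T) ((S ⊔ T) ⊔ S') := by
    apply locT_push hX
    rw [e1]
    exact h
  have s2 : LocT X (S' ⊔ T) ((S' ⊔ T) ⊔ T') := by
    apply locT_push hX
    rw [e2]
    exact h'
  have e3 : (S ⊔ T) ⊔ S' = S' ⊔ T := by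
    rw [sup_right_comm, sup_eq_right.2 hS]
  have e4 : (S' ⊔ T) ⊔ T' = S' ⊔ T' := by
    rw [sup_assoc, sup_eq_right.2 hT]
  rw [e3] at s1
  rw [e4] at s2
  exact locT_trans hX s1 s2

/-- The underlying morphism of a simplex of `V[m](h_{c_1}, …, h_{c_m})`. -/
def toHom {m : ℕ} {c : Fin m → C} {η : Wr C} {k : SimplexCategoryᵒᵖ}
    (u : VS (fun i => rep (c i)) η k) : η ⟶ (⟨m, c⟩ : Wr C) :=
  ({ f := u.f, g := fun i j h => u.g i j h } : Wr.Hom η ⟨m, c⟩)

theorem toHom_inj {m : ℕ} {c : Fin m → C} {η : Wr C} {k : SimplexCategoryᵒᵖ}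
    {u v : VS (fun i => rep (c i)) η k} (h : toHom u = toHom v) : u = v := by
  have hf : u.f = v.f := congrArg Wr.Hom.f h
  refine VS.ext' hf fun i j h1 h2 => ?_
  have key : ∀ (a b : Wr.Hom η (⟨m, c⟩ : Wr C)) (_ : a = b) (h1 : Jump a.f i j)
      (h2 : Jump b.f i j), a.g i j h1 = b.g i j h2 := by
    rintro a b rfl h1 h2
    rfl
  exact key _ _ h _ _

theorem toHom_surj {m : ℕ} {c : Fin m → C} {η : Wr C} {k : SimplexCategoryᵒᵖ}
    (φ : η ⟶ (⟨m, c⟩ : Wr C)) : ∃ u : VS (fun i => rep (c i)) η k, toHom u = φ :=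
  ⟨{ f := Wr.Hom.f φ, g := fun i j h => Wr.Hom.g φ i j h }, rfl⟩

/-- The vertices of an edge of the spine. -/
theorem spine_iff {m n : ℕ} (f : Fin (n + 1) →o Fin (m + 1)) :
    ((∃ v, ∀ t, f t = v) ∨ ∃ i : Fin m, ∀ t, f t = i.castSucc ∨ f t = i.succ) ↔
      Sp Finset.univ (Finset.univ.image f) := by
  constructor
  · intro h
    refine ⟨Finset.subset_univ _, ?_⟩
    intro a ha b hb c _ hac hcb
    obtain ⟨i, _, rfl⟩ := Finset.mem_image.1 ha
    obtain ⟨j, _, rfl⟩ := Finset.mem_image.1 hb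
    rcases h with ⟨v, hv⟩ | ⟨v, hv⟩
    · rw [hv i] at hac
      rw [hv j] at hcb
      exact lt_irrefl _ (hac.trans hcb)
    · have h1 : v.castSucc ≤ f i := by
        rcases hv i with h | h
        · rw [h]
        · rw [h]; exact (Fin.castSucc_lt_succ).le
      have h2 : f j ≤ v.succ := by
        rcases hv j with h | h
        · rw [h]; exact (Fin.castSucc_lt_succ).le
        · rw [h]
      have h3 := h1.trans_lt hac
      have h4 := hcb.trans_le h2
      rw [Fin.lt_def] at h3 h4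
      rw [Fin.val_castSucc] at h3
      rw [Fin.val_succ] at h4
      omega
  · rintro ⟨_, h⟩
    have hab : ∀ t, f 0 ≤ f t ∧ f t ≤ f (Fin.last n) := fun t =>
      ⟨f.monotone (Fin.zero_le _), f.monotone (Fin.le_last _)⟩
    have hm : ∀ t, f t ∈ Finset.univ.image f := fun t =>
      Finset.mem_image.2 ⟨t, Finset.mem_univ _, rfl⟩
    have hlt : (f (Fin.last n)).1 ≤ (f 0).1 + 1 := by
      by_contra hc
      rw [not_le] at hc
      have hb := (f (Fin.last n)).2
      refine h (f 0) (hm _) (f (Fin.last n)) (hm _) ⟨(f 0).1 + 1, by omega⟩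
        (Finset.mem_univ _) ?_ ?_
      · rw [Fin.lt_def]
        show (f 0).1 < (f 0).1 + 1
        omega
      · rw [Fin.lt_def]
        exact hc
    by_cases he : f 0 = f (Fin.last n)
    · left
      refine ⟨f 0, fun t => ?_⟩
      exact le_antisymm (he ▸ (hab t).2) (hab t).1
    · right
      have h0 : (f 0).1 < (f (Fin.last n)).1 := by
        have := (hab (Fin.last n)).1
        exact Fin.lt_def.1 (lt_of_le_of_ne this he)
      have hb := (f (Fin.last n)).2
      refine ⟨⟨(f 0).1, by omega⟩, fun t => ?_⟩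
      have h1 := Fin.le_def.1 (hab t).1
      have h2 := Fin.le_def.1 (hab t).2
      rcases Nat.lt_or_ge (f 0).1 (f t).1 with h3 | h3
      · right
        apply Fin.ext
        rw [Fin.val_succ]
        show (f t).1 = (f 0).1 + 1
        omega
      · left
        apply Fin.ext
        rw [Fin.val_castSucc]
        show (f t).1 = (f 0).1
        omega

/-- The case of representable labels. -/
theorem clm_rep (hS : SpLoc X) {m : ℕ} (c : Fin m → C) :
    LocT X (spineL (vface fun i => rep (c i)) Finset.univ) ⊤ := by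
  classical
  have hmono : ∀ a, Mono ((sieveIncl (spine (⟨m, c⟩ : Wr C))).app a) := by
    intro a
    have : ∀ l, Mono (((sieveIncl (spine (⟨m, c⟩ : Wr C))).app a).app l) := by
      intro l
      rw [mono_iff_injective]
      intro u v h
      exact Subtype.ext h
    exact NatTrans.mono_of_mono_app _
  have h1 := (loc_iff_range _ hmono).1 (hS ⟨m, c⟩)
  have hfm : ∀ a, Mono ((((VGyo C).app ⟨m, c⟩ :
      V (fun i => rep (c i)) ⟶ rep (⟨m, c⟩ : Wr C))).app a) := by
    intro a
    have : ∀ l, Mono (((((VGyo C).app ⟨m, c⟩ :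
      V (fun i => rep (c i)) ⟶ rep (⟨m, c⟩ : Wr C))).app a).app l) := by
      intro l
      rw [mono_iff_injective]
      intro u v h
      exact toHom_inj h
    exact NatTrans.mono_of_mono_app _
  have hr : (⊤ : Sb (rep (⟨m, c⟩ : Wr C))) ≤ Sb.range ((VGyo C).app ⟨m, c⟩ :
      V (fun i => rep (c i)) ⟶ rep (⟨m, c⟩ : Wr C)) := by
    intro η k φ _
    obtain ⟨u, hu⟩ := toHom_surj (k := k) (φ : η.unop ⟶ (⟨m, c⟩ : Wr C))
    exact ⟨u, hu⟩
  have h2 := (locT_comap ((VGyo C).app ⟨m, c⟩ :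
      V (fun i => rep (c i)) ⟶ rep (⟨m, c⟩ : Wr C)) hfm _ _ le_top hr).2 h1
  have e1 : (Sb.range (sieveIncl (spine (⟨m, c⟩ : Wr C)))).comap ((VGyo C).app ⟨m, c⟩ :
      V (fun i => rep (c i)) ⟶ rep (⟨m, c⟩ : Wr C)) =
      spineL (vface fun i => rep (c i)) Finset.univ := by
    refine Sb.ext ?_
    funext η l
    ext (u : VS (fun i => rep (c i)) η.unop l)
    refine Iff.trans ?_ (mem_spine (fun i => rep (c i)) u).symm
    refine Iff.trans ?_ (spine_iff u.f)
    constructor
    · rintro ⟨w, hw⟩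
      have h3 : (spine (⟨m, c⟩ : Wr C)).arrows (toHom u) := by
        have h4 : (w.1 : η.unop ⟶ (⟨m, c⟩ : Wr C)) = toHom u := hw
        rw [← h4]
        exact w.2
      exact h3
    · intro h
      exact ⟨⟨toHom u, h⟩, rfl⟩
  rw [e1] at h2
  exact h2

/-- The inductive step at a label. -/
theorem clm_step (hX : InjFib X) {m : ℕ} (IH : ∀ k < m, Clm X k) (B : Fin m → SP C) (i : Fin m)
    (h1 : ∀ c : C, LocT X (spineL (vface (Function.update B i (rep c))) Finset.univ) ⊤) :
    LocT X (spineL (vface B) Finset.univ) ⊤ := by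
  classical
  have key := vK_generate hX B i (LS (Sp Finset.univ) (dn_Sp Finset.univ)) ⊤ le_top ?_ ?_
  · rw [spine_eq_vK]
    have e : vK B ⊤ = ⊤ := by
      apply le_antisymm le_top
      intro θ k u _
      exact trivial
    rw [e] at key
    exact key
  · -- the part which does not cross the gap
    set U₁ : Finset (Fin (m + 1)) := Finset.univ.filter (· ≤ i.castSucc) with hU₁
    set U₂ : Finset (Fin (m + 1)) := Finset.univ.filter (i.succ ≤ ·) with hU₂
    have hc1 : ∃ k < m, U₁.card = k + 1 := by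
      refine ⟨i.1, i.2, ?_⟩
      have : U₁ = Finset.Iic i.castSucc := by
        ext a
        rw [hU₁, Finset.mem_filter, Finset.mem_Iic]
        exact ⟨fun h => h.2, fun h => ⟨Finset.mem_univ _, h⟩⟩
      rw [this, Fin.card_Iic]
      rfl
    have hc2 : ∃ k < m, U₂.card = k + 1 := by
      refine ⟨m - i.1 - 1, by omega, ?_⟩
      have : U₂ = Finset.Ici i.succ := by
        ext a
        rw [hU₂, Finset.mem_filter, Finset.mem_Ici]
        exact ⟨fun h => h.2, fun h => ⟨Finset.mem_univ _, h⟩⟩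
      rw [this, Fin.card_Ici, Fin.val_succ]
      omega
    obtain ⟨k₁, hk₁, hc1⟩ := hc1
    obtain ⟨k₂, hk₂, hc2⟩ := hc2
    have l1 := locT_face (IH k₁ hk₁) B U₁ hc1
    have l2 := locT_face (IH k₂ hk₂) B U₂ hc2
    have hd : vface B U₁ ⊓ vface B U₂ = ⊥ := by
      rw [← vface_inf, ← vface_bot]
      congr 1
      apply Finset.eq_empty_of_forall_notMem
      intro a ha
      obtain ⟨h3, h4⟩ := Finset.mem_inter.1 ha
      have h5 := (Finset.mem_filter.1 h3).2
      have h6 := (Finset.mem_filter.1 h4).2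
      have := (Fin.castSucc_lt_succ (i := i)).trans_le (h6.trans h5)
      exact lt_irrefl _ this
    have l3 := locT_disj hX l1 l2 hd
    have e1 : vK B (LS (Sp Finset.univ) (dn_Sp Finset.univ) ⊓ NC i) =
        spineL (vface B) U₁ ⊔ spineL (vface B) U₂ := by
      refine Sb.ext ?_
      funext θ k
      ext (u : VS B θ.unop k)
      have h3 := mem_spine B (U := U₁) u
      have h4 := mem_spine B (U := U₂) u
      constructor
      · rintro ⟨⟨_, h⟩, h5 | h5⟩
        · left
          apply h3.2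
          refine ⟨fun a ha => Finset.mem_filter.2 ⟨Finset.mem_univ _, h5 a ha⟩, ?_⟩
          intro a ha b hb c _
          exact h a ha b hb c (Finset.mem_univ _)
        · right
          apply h4.2
          refine ⟨fun a ha => Finset.mem_filter.2 ⟨Finset.mem_univ _, h5 a ha⟩, ?_⟩
          intro a ha b hb c _
          exact h a ha b hb c (Finset.mem_univ _)
      · rintro (h | h)
        · obtain ⟨h5, h6⟩ := h3.1 h
          refine ⟨⟨Finset.subset_univ _, ?_⟩, Or.inl fun a ha => (Finset.mem_filter.1 (h5 ha)).2⟩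
          intro a ha b hb c _ hac hcb
          refine h6 a ha b hb c ?_ hac hcb
          exact Finset.mem_filter.2 ⟨Finset.mem_univ _,
            hcb.le.trans (Finset.mem_filter.1 (h5 hb)).2⟩
        · obtain ⟨h5, h6⟩ := h4.1 h
          refine ⟨⟨Finset.subset_univ _, ?_⟩, Or.inr fun a ha => (Finset.mem_filter.1 (h5 ha)).2⟩
          intro a ha b hb c _ hac hcb
          refine h6 a ha b hb c ?_ hac hcb
          exact Finset.mem_filter.2 ⟨Finset.mem_univ _,
            (Finset.mem_filter.1 (h5 ha)).2.trans hac.le⟩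
    have e2 : vK B (⊤ ⊓ NC i) = vface B U₁ ⊔ vface B U₂ := by
      refine Sb.ext ?_
      funext θ k
      ext (u : VS B θ.unop k)
      have hm : ∀ t, u.f t ∈ Finset.univ.image u.f := fun t =>
        Finset.mem_image.2 ⟨t, Finset.mem_univ _, rfl⟩
      constructor
      · rintro ⟨_, h5 | h5⟩
        · left
          intro t
          exact Finset.mem_filter.2 ⟨Finset.mem_univ _, h5 _ (hm t)⟩
        · right
          intro t
          exact Finset.mem_filter.2 ⟨Finset.mem_univ _, h5 _ (hm t)⟩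
      · rintro (h | h)
        · refine ⟨trivial, Or.inl ?_⟩
          intro a ha
          obtain ⟨t, _, rfl⟩ := Finset.mem_image.1 ha
          exact (Finset.mem_filter.1 (h t)).2
        · refine ⟨trivial, Or.inr ?_⟩
          intro a ha
          obtain ⟨t, _, rfl⟩ := Finset.mem_image.1 ha
          exact (Finset.mem_filter.1 (h t)).2
    rw [e1, e2]
    exact l3
  · intro c
    have h2 := h1 c
    rw [spine_eq_vK] at h2
    have e : vK (Function.update B i (rep c)) ⊤ = ⊤ := by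
      apply le_antisymm le_top
      intro θ k u _
      exact trivial
    rw [e]
    exact h2

/-- Spines of `V[m](B)` are local. -/
theorem clm (hX : InjFib X) (hS : SpLoc X) (m : ℕ) : Clm X m := by
  classical
  induction m using Nat.strong_induction_on with
  | _ m IH =>
    have key : ∀ (n : ℕ) (B : Fin m → SP C),
        (Finset.univ.filter fun i => ¬ ∃ c, B i = rep c).card = n →
          LocT X (spineL (vface B) Finset.univ) ⊤ := by
      intro n
      induction n using Nat.strong_induction_on with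
      | _ n ihn =>
        intro B hB
        by_cases hall : ∀ i, ∃ c, B i = rep c
        · choose c hc using hall
          obtain rfl : B = fun i => rep (c i) := funext hc
          exact clm_rep hS c
        · push Not at hall
          obtain ⟨i, hi⟩ := hall
          apply clm_step hX IH B i
          intro c
          refine ihn _ ?_ (Function.update B i (rep c)) rfl
          rw [← hB]
          apply Finset.card_lt_card
          rw [Finset.ssubset_iff_of_subset]
          · refine ⟨i, Finset.mem_filter.2 ⟨Finset.mem_univ _, ?_⟩, ?_⟩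
            · rintro ⟨c', hc'⟩
              exact hi c' hc'
            · intro h
              refine (Finset.mem_filter.1 h).2 ⟨c, ?_⟩
              exact Function.update_self i (rep c) B
          · intro j hj
            refine Finset.mem_filter.2 ⟨Finset.mem_univ _, ?_⟩
            rintro ⟨c', hc'⟩
            refine (Finset.mem_filter.1 hj).2 ?_
            by_cases hji : j = i
            · subst hji
              exact ⟨c, Function.update_self j (rep c) B⟩
            · exact ⟨c', (Function.update_of_ne hji (rep c) B).trans hc'⟩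
    intro B
    exact key _ B rfl

theorem vface_spine {X : SP (Wr C)} (hX : InjFib X) (hS : SpLoc X) {m : ℕ} (B : Fin m → SP C)
    (U : Finset (Fin (m + 1))) (hU : U.Nonempty) :
    LocT X (spineL (vface B) U) (vface B U) := by
  obtain ⟨k, hk⟩ : ∃ k, U.card = k + 1 :=
    ⟨U.card - 1, by have := hU.card_pos; omega⟩
  exact locT_face (clm hX hS k) B U hk

theorem vface_horn {X : SP (Wr C)} (hX : InjFib X) (hS : SpLoc X) {m : ℕ} (B : Fin m → SP C)
    (i : Fin (m + 1)) (h0 : 0 < i) (h1 : i < Fin.last m) :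
    LocT X (hornL (vface B) Finset.univ (Finset.univ.erase i)) ⊤ := by
  classical
  have h := lat_JT (vface B) (vface_bot B) (vface_inf B) (LocT X) (fun K => locT_refl K)
    (fun _ _ _ h h' => locT_trans hX h h') (fun _ _ _ h h' hle => locT_cancel hX h h' hle)
    (fun _ _ h => locT_push hX h) (fun U hU => vface_spine hX hS B U hU)
    Finset.univ {i} (Finset.singleton_nonempty i) (Finset.subset_univ _) (by
      intro j hj
      obtain rfl := Finset.mem_singleton.1 hj
      exact ⟨⟨0, Finset.mem_univ _, h0⟩, ⟨Fin.last m, Finset.mem_univ _, h1⟩⟩)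
  rw [vface_univ] at h
  have e : (Finset.univ : Finset (Fin (m + 1))) \ {i} = Finset.univ.erase i :=
    Finset.sdiff_singleton_eq_erase i _
  rw [e] at h
  exact h

theorem vface_bin {X : SP (Wr C)} (hX : InjFib X) (hS : SpLoc X) {m : ℕ} (B : Fin m → SP C)
    (a : Fin (m + 1)) :
    LocT X (vface B (Finset.univ.filter (· ≤ a)) ⊔ vface B (Finset.univ.filter (a ≤ ·))) ⊤ := by
  have h := lat_bin (vface B) (vface_bot B) (vface_inf B) (LocT X) (fun K => locT_refl K)
    (fun _ _ _ h h' => locT_trans hX h h') (fun _ _ _ h h' hle => locT_cancel hX h h' hle)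
    (fun _ _ h => locT_push hX h) (fun U hU => vface_spine hX hS B U hU)
    Finset.univ a (Finset.mem_univ _)
  rw [vface_univ] at h
  exact h

end

end Pool.Agent.Helper51.FL2
end

/- Helper64.FL2.GauntFinal -/
section
/-!
# FL2-F8: `KnownGaunt n`, unconditionally
-/

open CategoryTheory MonoidalCategory Opposite FL

set_option autoImplicit false

namespace Pool.Agent.Helper64.FL2

/-- Segal covers are colimit diagrams in gaunt categories, and generate them: `KnownGaunt n`. -/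
theorem knownGaunt (n : ℕ) : KnownGaunt n :=
  knownGaunt_of (fun hX hS _ B U hU => Pool.Agent.Helper51.FL2.vface_spine hX hS B U hU)
    (fun hX _ _ f O hO => Helper53FL2.loc_V1map_iff hX f O hO)
    (fun hX O hO => Helper41FL2.sg_succ_iff hX O hO) n

end Pool.Agent.Helper64.FL2
end

/- Helper81.FLQ.Small -/
section
/-!
# Project FLQ, module U5: small subpresheaves of essentially small Kan presheaves
-/

open CategoryTheory MonoidalCategory Opposite HomotopicalAlgebra CartesianMonoidalCategory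

set_option autoImplicit false

namespace Pool.Agent.Helper81.FLQ

open _root_.FL

universe u

/-- terms of the closure -/
inductive Tm {A : Type} [SmallCategory A] (K : Aᵒᵖ → SSet.{0}) :
    Aᵒᵖ → SimplexCategoryᵒᵖ → Type
  | gen (a : Aᵒᵖ) (k : SimplexCategoryᵒᵖ) (x : (K a).obj k) : Tm K a k
  | act {a b : Aᵒᵖ} (f : a ⟶ b) {k : SimplexCategoryᵒᵖ} (t : Tm K a k) : Tm K b k
  | map {a : Aᵒᵖ} {k l : SimplexCategoryᵒᵖ} (α : k ⟶ l) (t : Tm K a k) : Tm K a l
  | hot {a : Aᵒᵖ} {k : SimplexCategoryᵒᵖ} (s : k.unop ⟶ SimplexCategory.mk 1) (t : Tm K a k) :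
      Tm K a k
  | fil {a : Aᵒᵖ} {n : ℕ} (i : Fin (n + 2))
      (t : ∀ j : Fin (n + 2), j ≠ i → Tm K a (op (SimplexCategory.mk n))) :
      Tm K a (op (SimplexCategory.mk (n + 1)))

/-! ### Kan complexes in terms of elements -/

open Classical in
/-- a chosen filler -/
noncomputable def fillE {Z : SSet.{u}} {n : ℕ} {i : Fin (n + 2)}
    (y : ∀ j : Fin (n + 2), j ≠ i → Z.obj (op (SimplexCategory.mk n))) :
    Z.obj (op (SimplexCategory.mk (n + 1))) :=
  if h : ∃ w : Z.obj (op (SimplexCategory.mk (n + 1))),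
    ∀ j hj, Z.map (SimplexCategory.δ j).op w = y j hj
  then h.choose
  else Z.map (SimplexCategory.σ (0 : Fin (n + 1))).op
    (y (i.succAbove 0) (Fin.succAbove_ne i 0))

/-- evaluation of terms -/
noncomputable def ev {A : Type} [SmallCategory A] {F : Aᵒᵖ ⥤ SSet.{1}} {K : Aᵒᵖ → SSet.{0}}
    (g : ∀ a, SSet.uliftFunctor.{1, 0}.obj (K a) ⟶ F.obj a)
    (H : ∀ a, F.obj a ⊗ SSet.stdSimplex.obj (SimplexCategory.mk 1) ⟶ F.obj a) :
    ∀ {a : Aᵒᵖ} {k : SimplexCategoryᵒᵖ}, Tm K a k → (F.obj a).obj k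
  | _, _, .gen a k x => (g a).app k (ULift.up x)
  | _, _, .act f t => (F.map f).app _ (ev g H t)
  | a, _, .map α t => (F.obj a).map α (ev g H t)
  | a, k, .hot s t => (H a).app k (ev g H t, SSet.stdSimplex.objEquiv.symm s)
  | _, _, .fil _ t => fillE (fun j hj => ev g H (t j hj))

open Simplicial

/-- compatible families of faces -/
def CompE {Z : SSet.{u}} {n : ℕ} {i : Fin (n + 2)}
    (y : ∀ j : Fin (n + 2), j ≠ i → Z.obj (op ⦋n⦌)) : Prop :=
  match n, i, y with
  | 0, _, _ => True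
  | n + 1, i, y => ∀ (j k : Fin (n + 3)) (hj : j ≠ i) (hk : k ≠ i) (hjk : j < k),
      Z.map (SimplexCategory.δ (k.pred (Fin.ne_zero_of_lt hjk))).op (y j hj) =
      Z.map (SimplexCategory.δ (j.castPred (Fin.ne_last_of_lt hjk))).op (y k hk)

theorem δ_symm {Z : SSet.{u}} {n : ℕ} (j : Fin (n + 2)) (w : Z.obj (op ⦋n + 1⦌)) :
    SSet.stdSimplex.δ j ≫ SSet.yonedaEquiv.symm w =
      SSet.yonedaEquiv.symm (Z.map (SimplexCategory.δ j).op w) := by
  apply SSet.yonedaEquiv.injective
  rw [Equiv.apply_symm_apply]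
  rfl

theorem compE_iff {Z : SSet.{u}} {n : ℕ} {i : Fin (n + 2)}
    (y : ∀ j : Fin (n + 2), j ≠ i → Z.obj (op ⦋n⦌)) :
    SSet.horn.IsCompatible (i := i) (fun j hj => SSet.yonedaEquiv.symm (y j hj)) ↔ CompE y := by
  cases n with
  | zero => exact Iff.rfl
  | succ n =>
    rw [SSet.horn.isCompatible_iff]
    unfold CompE
    simp only [δ_symm, Equiv.apply_eq_iff_eq]

theorem kan_iff {Z : SSet.{u}} : SSet.KanComplex Z ↔
    ∀ (n : ℕ) (i : Fin (n + 2)) (y : ∀ j : Fin (n + 2), j ≠ i → Z.obj (op ⦋n⦌)), CompE y →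
      ∃ w : Z.obj (op ⦋n + 1⦌), ∀ j hj, Z.map (SimplexCategory.δ j).op w = y j hj := by
  rw [SSet.KanComplex.iff]
  constructor
  · intro h n i y hy
    obtain ⟨φ, hφ⟩ := h _ ((compE_iff y).2 hy)
    refine ⟨SSet.yonedaEquiv φ, fun j hj => ?_⟩
    apply SSet.yonedaEquiv.symm.injective
    rw [← δ_symm, Equiv.symm_apply_apply, hφ]
  · intro h n i f hf
    obtain ⟨w, hw⟩ := h n i (fun j hj => SSet.yonedaEquiv (f j hj)) ((compE_iff _).1 (by
      simpa only [Equiv.symm_apply_apply] using hf))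
    refine ⟨SSet.yonedaEquiv.symm w, fun j hj => ?_⟩
    rw [δ_symm, hw, Equiv.symm_apply_apply]

theorem fillE_spec {Z : SSet.{u}} (hZ : SSet.KanComplex Z) {n : ℕ} {i : Fin (n + 2)}
    (y : ∀ j : Fin (n + 2), j ≠ i → Z.obj (op ⦋n⦌)) (hy : CompE y) (j : Fin (n + 2))
    (hj : j ≠ i) : Z.map (SimplexCategory.δ j).op (fillE y) = y j hj := by
  have h := kan_iff.1 hZ n i y hy
  unfold fillE
  rw [dif_pos h]
  exact h.choose_spec j hj

/-! ### Small subpresheaves -/

section Sub

variable {A : Type} [SmallCategory A]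

/-- subpresheaves with small values -/
structure Sub (F : Aᵒᵖ ⥤ SSet.{1}) where
  P : ∀ (a : Aᵒᵖ) (k : SimplexCategoryᵒᵖ), Set ((F.obj a).obj k)
  act : ∀ {a b : Aᵒᵖ} (f : a ⟶ b) {k : SimplexCategoryᵒᵖ} (x : (F.obj a).obj k),
    x ∈ P a k → (F.map f).app k x ∈ P b k
  map : ∀ {a : Aᵒᵖ} {k l : SimplexCategoryᵒᵖ} (α : k ⟶ l) (x : (F.obj a).obj k),
    x ∈ P a k → (F.obj a).map α x ∈ P a l
  small : ∀ a k, Small.{0} (P a k)

namespace Sub

variable {F : Aᵒᵖ ⥤ SSet.{1}} (T : Sub F)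

attribute [instance] Sub.small

/-- elements -/
noncomputable def val {a : Aᵒᵖ} {k : SimplexCategoryᵒᵖ} (x : Shrink.{0} (T.P a k)) :
    (F.obj a).obj k := ((equivShrink (T.P a k)).symm x).1

theorem val_mem {a : Aᵒᵖ} {k : SimplexCategoryᵒᵖ} (x : Shrink.{0} (T.P a k)) :
    T.val x ∈ T.P a k := ((equivShrink (T.P a k)).symm x).2

/-- constructor -/
noncomputable def mk' {a : Aᵒᵖ} {k : SimplexCategoryᵒᵖ} (x : (F.obj a).obj k)
    (hx : x ∈ T.P a k) : Shrink.{0} (T.P a k) := equivShrink (T.P a k) ⟨x, hx⟩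

theorem val_mk' {a : Aᵒᵖ} {k : SimplexCategoryᵒᵖ} (x : (F.obj a).obj k) (hx : x ∈ T.P a k) :
    T.val (T.mk' x hx) = x := by
  unfold val mk'
  rw [Equiv.symm_apply_apply]

theorem val_inj {a : Aᵒᵖ} {k : SimplexCategoryᵒᵖ} {x y : Shrink.{0} (T.P a k)}
    (h : T.val x = T.val y) : x = y :=
  (equivShrink (T.P a k)).symm.injective (Subtype.ext h)

/-- the values of the small presheaf -/
noncomputable def objS (a : Aᵒᵖ) : SSet.{0} where
  obj k := Shrink.{0} (T.P a k)
  map α := ↾ fun x => T.mk' ((F.obj a).map α (T.val x)) (T.map α _ (T.val_mem x))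
  map_id k := by
    refine ConcreteCategory.hom_ext _ _ fun x => T.val_inj ?_
    exact (T.val_mk' _ _).trans (sset_id (F.obj a) _)
  map_comp α β := by
    refine ConcreteCategory.hom_ext _ _ fun x => T.val_inj ?_
    exact (T.val_mk' _ _).trans ((sset_comp (F.obj a) α β _).trans
      ((congrArg _ (T.val_mk' _ _).symm).trans (T.val_mk' _ _).symm))

/-- the small presheaf -/
noncomputable def S : Aᵒᵖ ⥤ SSet.{0} where
  obj a := T.objS a
  map {a b} f :=
    { app k := ↾ fun x => T.mk' ((F.map f).app k (T.val x)) (T.act f _ (T.val_mem x))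
      naturality k l α := by
        refine ConcreteCategory.hom_ext _ _ fun x => T.val_inj ?_
        exact (T.val_mk' _ _).trans ((congrArg _ (T.val_mk' _ _)).trans
          ((sset_nat (F.map f) α _).trans
          ((congrArg _ (T.val_mk' _ _).symm).trans (T.val_mk' _ _).symm))) }
  map_id a := by
    apply NatTrans.ext
    funext k
    refine ConcreteCategory.hom_ext _ _ fun x => T.val_inj ?_
    refine (T.val_mk' _ _).trans ?_
    rw [CategoryTheory.Functor.map_id]
    rfl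
  map_comp {a b c} f g := by
    apply NatTrans.ext
    funext k
    refine ConcreteCategory.hom_ext _ _ fun x => T.val_inj ?_
    refine (T.val_mk' _ _).trans (Eq.trans ?_
      ((congrArg _ (T.val_mk' _ _).symm).trans (T.val_mk' _ _).symm))
    rw [CategoryTheory.Functor.map_comp]
    rfl

theorem val_map {a : Aᵒᵖ} {k l : SimplexCategoryᵒᵖ} (α : k ⟶ l) (x : (T.S.obj a).obj k) :
    T.val ((T.S.obj a).map α x) = (F.obj a).map α (T.val x) := T.val_mk' _ _

/-- the inclusion -/
noncomputable def i : T.S ⋙ SSet.uliftFunctor.{1, 0} ⟶ F where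
  app a :=
    { app k := ↾ fun x => T.val x.down
      naturality k l α := by
        ext x
        exact T.val_mk' _ _ }
  naturality a b f := by
    ext k x
    exact T.val_mk' _ _

theorem i_app (a : Aᵒᵖ) (k : SimplexCategoryᵒᵖ)
    (x : ((T.S ⋙ SSet.uliftFunctor.{1, 0}).obj a).obj k) :
    (T.i.app a).app k x = T.val x.down := rfl

theorem mono_i (a : Aᵒᵖ) : Mono (T.i.app a) := by
  constructor
  intro Z g h hgh
  ext k x
  have := ConcreteCategory.congr_hom (NatTrans.congr_app hgh k) x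
  exact ULift.down_injective (T.val_inj this)

/-- maps with values in the subpresheaf -/
theorem exists_factor {X : SSet.{1}} {a : Aᵒᵖ} (φ : X ⟶ F.obj a)
    (hφ : ∀ k (x : X.obj k), φ.app k x ∈ T.P a k) :
    ∃ ψ : X ⟶ (T.S ⋙ SSet.uliftFunctor.{1, 0}).obj a, ψ ≫ T.i.app a = φ := by
  refine ⟨{ app := fun k => ↾ fun x => ULift.up (T.mk' (φ.app k x) (hφ k x)),
            naturality := fun k l α => ?_ }, ?_⟩
  · ext x
    refine ULift.down_injective (T.val_inj ?_)
    exact (T.val_mk' _ _).trans ((sset_nat φ α x).trans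
      ((congrArg _ (T.val_mk' _ _).symm).trans (T.val_mk' _ _).symm))
  · ext k x
    exact T.val_mk' _ _

/-- Kan complexes -/
theorem kan (hK : ∀ a, SSet.KanComplex (F.obj a))
    (hf : ∀ (a : Aᵒᵖ) (n : ℕ) (i : Fin (n + 2))
      (y : ∀ j : Fin (n + 2), j ≠ i → (F.obj a).obj (op ⦋n⦌)),
      (∀ j hj, y j hj ∈ T.P a _) → fillE y ∈ T.P a _) (a : Aᵒᵖ) :
    SSet.KanComplex (T.S.obj a) := by
  rw [kan_iff]
  intro n i y hy
  have hy' : CompE (fun j hj => T.val (y j hj)) := by
    cases n with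
    | zero => trivial
    | succ n =>
      intro j k hj hk hjk
      have h1 := congrArg T.val (hy j k hj hk hjk)
      rw [val_map, val_map] at h1
      exact h1
  refine ⟨T.mk' (fillE fun j hj => T.val (y j hj)) (hf a n i _ fun j hj => T.val_mem _), ?_⟩
  intro j hj
  apply T.val_inj
  exact (T.val_map _ _).trans ((congrArg _ (T.val_mk' _ _)).trans
    (fillE_spec (hK a) _ hy' j hj))

end Sub

/-! ### The closure -/

variable {F : Aᵒᵖ ⥤ SSet.{1}} {K : Aᵒᵖ → SSet.{0}}
  (g : ∀ a, SSet.uliftFunctor.{1, 0}.obj (K a) ⟶ F.obj a)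
  (H : ∀ a, F.obj a ⊗ Δ[1] ⟶ F.obj a)

/-- the closure -/
noncomputable def cl : Sub F where
  P a k := Set.range (ev g H (a := a) (k := k))
  act {a b} f {k} x := by
    rintro ⟨t, rfl⟩
    exact ⟨.act f t, rfl⟩
  map {a k l} α x := by
    rintro ⟨t, rfl⟩
    exact ⟨.map α t, rfl⟩
  small a k := inferInstance

theorem exists_small (F : Aᵒᵖ ⥤ SSet.{1}) (hK : ∀ a, SSet.KanComplex (F.obj a))
    (hs : ∀ a, ∃ (K : SSet.{0}) (f : F.obj a ⟶ SSet.uliftFunctor.{1, 0}.obj K), FL.HoEq f) :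
    ∃ (S : Aᵒᵖ ⥤ SSet.{0}) (i : S ⋙ SSet.uliftFunctor.{1, 0} ⟶ F), (∀ a, Mono (i.app a)) ∧
      (∀ a, SSet.KanComplex (S.obj a)) ∧ ∀ a, FL.HoEq (i.app a) := by
  have hs' : ∀ a, ∃ (K : SSet.{0}) (f : F.obj a ⟶ SSet.uliftFunctor.{1, 0}.obj K)
      (g : SSet.uliftFunctor.{1, 0}.obj K ⟶ F.obj a) (H : F.obj a ⊗ Δ[1] ⟶ F.obj a),
      SSet.ι₀ ≫ H = f ≫ g ∧ SSet.ι₁ ≫ H = 𝟙 _ := by
    intro a
    obtain ⟨K, f, g, h1, -⟩ := hs a
    obtain ⟨H, h2, h3⟩ := (Pool.Agent.Helper88.FL.htpy_iff _ _).1 h1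
    exact ⟨K, f, g, H, h2, h3⟩
  choose K f g H h0 h1 using hs'
  let T := cl g H
  refine ⟨T.S, T.i, T.mono_i, T.kan hK ?_, fun a => ?_⟩
  · intro a n i y hy
    choose t ht using hy
    refine ⟨.fil i t, ?_⟩
    change fillE (fun j hj => ev g H (t j hj)) = _
    congr 1
    funext j hj
    exact ht j hj
  · obtain ⟨g', hg'⟩ := T.exists_factor (g a) (fun k x => ⟨.gen a k x.down, rfl⟩)
    obtain ⟨H', hH'⟩ := T.exists_factor (T.i.app a ▷ Δ[1] ≫ H a) (by
      rintro k ⟨x, s⟩
      obtain ⟨t, ht⟩ := T.val_mem x.down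
      refine ⟨.hot (SSet.stdSimplex.objEquiv s) t, ?_⟩
      change (H a).app k (ev g H t, SSet.stdSimplex.objEquiv.symm (SSet.stdSimplex.objEquiv s)) = _
      rw [Equiv.symm_apply_apply, ht]
      rfl)
    have := T.mono_i a
    refine ⟨f a ≫ g', ?_, ?_⟩
    · refine (Pool.Agent.Helper88.FL.htpy_iff _ _).2 ⟨H', ?_, ?_⟩
      · rw [← cancel_mono (T.i.app a), Category.assoc, hH', ← Category.assoc, SSet.ι₀_comp,
          Category.assoc, h0, Category.assoc, Category.assoc, hg']
      · rw [← cancel_mono (T.i.app a), Category.assoc, hH', ← Category.assoc, SSet.ι₁_comp,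
          Category.assoc, h1, Category.comp_id, Category.id_comp]
    · rw [Category.assoc, hg']
      exact (Pool.Agent.Helper88.FL.htpy_iff _ _).2 ⟨H a, h0 a, h1 a⟩

end Sub

end Pool.Agent.Helper81.FLQ
end

/- Helper41.FL2.F2 -/
section
/-!
# FL2-F2: mapping objects of flagged categories
-/

open CategoryTheory MonoidalCategory Opposite HomotopicalAlgebra

set_option autoImplicit false

namespace Helper41FL2

open FL Helper53FL2 Pool.Agent.Helper30.FL16

/-- Products of Kan complexes are Kan complexes. -/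
theorem kan_prod {K L : SSet.{0}} (hK : SSet.KanComplex K) (hL : SSet.KanComplex L) :
    SSet.KanComplex (K ⊗ L) := by
  refine Pool.Agent.Helper83.FL4.kan_of_lift fun n i f => ?_
  obtain ⟨g1, h1⟩ := SSet.KanComplex.hornFilling (S := K)
    (f ≫ CartesianMonoidalCategory.fst K L)
  obtain ⟨g2, h2⟩ := SSet.KanComplex.hornFilling (S := L)
    (f ≫ CartesianMonoidalCategory.snd K L)
  refine ⟨CartesianMonoidalCategory.lift g1 g2, ?_⟩
  refine CartesianMonoidalCategory.hom_ext _ _ ?_ ?_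
  · rw [Category.assoc, CartesianMonoidalCategory.lift_fst]
    exact h1.symm
  · rw [Category.assoc, CartesianMonoidalCategory.lift_snd]
    exact h2.symm

section

variable {C : Type} [SmallCategory C]

/-- Mapping presheaves between equal vertices. -/
def HmCongr (X : SP (Wr C)) {x x' y y' : Vt X} (hx : x = x') (hy : y = y') :
    Hm X x y ≅ Hm X x' y' where
  hom :=
    { app := fun c => { app := fun k => ↾ fun z => ⟨z.1, by rw [← hx, ← hy]; exact z.2⟩
                        naturality := fun _ _ _ => rfl }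
      naturality := fun _ _ _ => rfl }
  inv :=
    { app := fun c => { app := fun k => ↾ fun z => ⟨z.1, by rw [hx, hy]; exact z.2⟩
                        naturality := fun _ _ _ => rfl }
      naturality := fun _ _ _ => rfl }
  hom_inv_id := rfl
  inv_hom_id := rfl

theorem HmCongr_val (X : SP (Wr C)) {x x' y y' : Vt X} (hx : x = x') (hy : y = y')
    {c : Cᵒᵖ} {k : SimplexCategoryᵒᵖ} (z : ((Hm X x y).obj c).obj k) :
    Hm.val (((HmCongr X hx hy).hom.app c).app k z) = Hm.val z := rfl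

lemma segMap_id (c : C) : segMap (𝟙 c) = 𝟙 (seg c) := by
  refine Wr.hom_ext' rfl fun i j h h' => ?_
  obtain rfl : i = j := jump_id.mp h
  exact Wr.ofComp_g (X := fun _ => c) (Y := fun _ => c) _ i h

/-- Injective fibrations are stable under composition with isomorphisms. -/
theorem injFibration_of_comp_iso {A : Type} [SmallCategory A] {X Y Z : SP A} {q : X ⟶ Y}
    (e : Y ≅ Z) (h : InjFibration (q ≫ e.hom)) : InjFibration q := by
  intro P Q i hi
  have := h i hi
  refine ⟨fun {f g} sq => ?_⟩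
  have sq' : CommSq f i (q ≫ e.hom) (g ≫ e.hom) := ⟨by
    rw [← Category.assoc, sq.w, Category.assoc]⟩
  refine ⟨⟨{ l := sq'.lift, fac_left := sq'.fac_left, fac_right := ?_ }⟩⟩
  have h1 := sq'.fac_right
  rw [← Category.assoc] at h1
  exact (cancel_mono e.hom).1 h1

end

variable {n : ℕ}

/-- The maps between the levels of `FHm D x y`. -/
theorem FHm_levelMap (D : SP (Gn (n + 1))) (x y : Vt (C := Th n) (level D 0))
    {i j : Fin (n + 1)} (h : i ≤ j) (h' : i.succ ≤ j.succ) :
    ∃ e : level (FHm D x y) j ≅ Hm (C := Th n) (level D j.succ)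
        (vtMap (C := Th n) (levelMap D h') (vlev D x i.succ))
        (vtMap (C := Th n) (levelMap D h') (vlev D y i.succ)),
      levelMap (FHm D x y) h ≫ e.hom =
        HmMap (C := Th n) (levelMap D h') (vlev D x i.succ) (vlev D y i.succ) := by
  refine ⟨HmCongr (C := Th n) (level D j.succ) (levelMap_cst D h' x).symm
    (levelMap_cst D h' y).symm, ?_⟩
  refine NatTrans.ext (funext fun c => NatTrans.ext (funext fun k => ?_))
  refine ConcreteCategory.hom_ext _ _ fun z => ?_
  refine Subtype.ext ?_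
  show (D.map (Quiver.Hom.op ((segG n).map ((𝟙 c.unop, (homOfLE h).op) :
      ((c.unop, op j) : Gn n) ⟶ (c.unop, op i))))).app k z.1 =
    (D.map (Quiver.Hom.op ((𝟙 (seg c.unop), (homOfLE h').op) :
      (seg c.unop, op j.succ) ⟶ (seg c.unop, op i.succ)))).app k z.1
  refine congrArg (fun t => (D.map (Quiver.Hom.op t)).app k z.1) ?_
  exact Prod.ext (segMap_id (C := Th n) c.unop) (Subsingleton.elim _ _)

theorem FHm_injFib {D : SP (Gn (n + 1))} (hD : InjFib D) (x y : Vt (C := Th n) (level D 0)) :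
    InjFib (FHm D x y) := by
  refine injFib_of_levels (fun i => ?_) (fun i j h => ?_)
  · exact Hm_injFib (C := Th n)
      (level_injFib_of Pool.Agent.Helper91.FL17a.tool hD i.succ) (vlev D x i.succ)
      (vlev D y i.succ)
  · obtain ⟨e, he⟩ := FHm_levelMap D x y h (Fin.succ_le_succ_iff.mpr h)
    refine injFibration_of_comp_iso e ?_
    rw [he]
    exact HmMap_injFibration (C := Th n)
      (levelMap_injFibration_of Pool.Agent.Helper91.FL17a.tool hD _) _ _

theorem FHm_isCat {Z : SP (Th (n + 1))} (hZ : IsCat (n + 1) Z) (x y : Vt (C := Th n) Z) :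
    IsCat n (Hm (C := Th n) Z x y) := by
  have hO : ∀ z : Vt (C := Th n) Z, ∃ x ∈ (Set.univ : Set (Vt (C := Th n) Z)),
      Cn (Z.obj (op (ptT (n + 1)))) x z :=
    fun z => ⟨z, trivial, Pool.Agent.Helper91.FL2.cn_refl z⟩
  obtain ⟨h1, h2⟩ := isCat_iff.1 hZ
  refine isCat_iff.2 ⟨((sg_succ_iff hZ.inj Set.univ hO).1 h1).2 x trivial y trivial, fun j => ?_⟩
  exact (cj_succ_iff hZ.inj Set.univ hO).1 (h2 (j + 1)) x trivial y trivial

theorem Hm_truncated {Z : SP (Th (n + 1))} (hZ : InjFib Z) {i : ℕ} (h : Truncated (i + 1) Z)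
    (x y : Vt (C := Th n) Z) : Truncated i (Hm (C := Th n) Z x y) := by
  intro c
  have hV := Helper53FL2.InjFib.vfib (C := Th n) hZ
  have h1 : HoEq (Z.map (Quiver.Hom.op (segMap ((trUnit n i).app c)))) := h (seg c)
  have hk : SSet.KanComplex (Z.obj (op (Wr.pt : Wr (Th n))) ⊗ Z.obj (op (Wr.pt : Wr (Th n)))) := by
    have h2 : SSet.KanComplex (Z.obj (op (Wr.pt : Wr (Th n)))) :=
      Pool.Agent.Helper91.FL2.objKan_of_injFib hZ _
    exact kan_prod h2 h2
  exact Pool.Agent.Helper54.FL2.Fb_map_hoEq (hV.2 ((tr n i).obj c)) (hV.2 c) hk hk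
    (Z.map (Quiver.Hom.op (segMap ((trUnit n i).app c)))) (𝟙 _)
    ((ends_nat (C := Th n) Z ((trUnit n i).app c)).trans (Category.comp_id _).symm) h1
    (Pool.Agent.Helper88.FL.hoEq_of_isIso _) (x, y)

theorem FHm_levelMap_val (D : SP (Gn (n + 1))) (x y : Vt (C := Th n) (level D 0))
    {i j : Fin (n + 1)} (h : i ≤ j) (h' : i.succ ≤ j.succ) (c : (Th n)ᵒᵖ)
    (k : SimplexCategoryᵒᵖ) (z : ((level (FHm D x y) i).obj c).obj k) :
    Subtype.val (((levelMap (FHm D x y) h).app c).app k z) =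
      ((levelMap D h').app (op (seg c.unop : Wr (Th n)))).app k (Subtype.val z) := by
  show (D.map (Quiver.Hom.op ((segG n).map ((𝟙 c.unop, (homOfLE h).op) :
      ((c.unop, op j) : Gn n) ⟶ (c.unop, op i))))).app k (Subtype.val z) =
    (D.map (Quiver.Hom.op ((𝟙 (seg c.unop), (homOfLE h').op) :
      (seg c.unop, op j.succ) ⟶ (seg c.unop, op i.succ)))).app k (Subtype.val z)
  refine congrArg (fun t => (D.map (Quiver.Hom.op t)).app k (Subtype.val z)) ?_
  exact Prod.ext (segMap_id (C := Th n) c.unop) (Subsingleton.elim _ _)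

lemma V1map_vsEnd {C : Type} [SmallCategory C] {P Q : SP C} (b : P ⟶ Q) (i : Fin 2)
    (k : SimplexCategoryᵒᵖ) :
    ((V1map b).app (op Wr.pt)).app k (vsEnd P i Wr.pt k) = vsEnd Q i Wr.pt k :=
  VS.ext' rfl fun p => p.elim0

lemma V1map_vsOf {C : Type} [SmallCategory C] {P Q : SP C} (b : P ⟶ Q) (c : Cᵒᵖ)
    (k : SimplexCategoryᵒᵖ) (p : (P.obj c).obj k) :
    ((V1map b).app (op (seg c.unop))).app k (vsOf P p) = vsOf Q ((b.app c).app k p) := rfl

lemma endsEq_post {C : Type} [SmallCategory C] {B : SP C} {X Y : SP (Wr C)} {G : V1 B ⟶ X}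
    {x y : Vt X} (h : EndsEq G x y) (q : X ⟶ Y) : EndsEq (G ≫ q) (vtMap q x) (vtMap q y) :=
  ⟨congrArg ((q.app (op Wr.pt)).app _) h.1, congrArg ((q.app (op Wr.pt)).app _) h.2⟩

lemma endsEq_pre {C : Type} [SmallCategory C] {P Q : SP C} {X : SP (Wr C)} {G : V1 Q ⟶ X}
    {x y : Vt X} (b : P ⟶ Q) : EndsEq (V1map b ≫ G) x y ↔ EndsEq G x y := by
  have h : ∀ i : Fin 2, ((V1map b ≫ G).app (op Wr.pt)).app (op (SimplexCategory.mk 0))
      (vsEnd P i Wr.pt _) = (G.app (op Wr.pt)).app (op (SimplexCategory.mk 0))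
      (vsEnd Q i Wr.pt _) := fun i => congrArg ((G.app (op Wr.pt)).app _) (V1map_vsEnd b i _)
  show (_ ∧ _) ↔ (_ ∧ _)
  rw [h 0, h 1]

theorem FHm_surj {D : SP (Gn (n + 1))} (hD : Flagged D) (x y : Vt (C := Th n) (level D 0))
    (i j : Fin (n + 1)) (h : i ≤ j) (k : ℕ) (hk : k ≤ i.1) (P Q : SP (Th n)) (b : P ⟶ Q)
    (hb : IsBd n k b) (u : P ⟶ level (FHm D x y) i) (v : Q ⟶ level (FHm D x y) j)
    (huv : u ≫ levelMap (FHm D x y) h = b ≫ v) :
    ∃ z : Q ⟶ level (FHm D x y) i, b ≫ z = u ∧ z ≫ levelMap (FHm D x y) h = v := by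
  have h' : i.succ ≤ j.succ := Fin.succ_le_succ_iff.mpr h
  obtain ⟨U, hU1, hU2⟩ := exists_V1_of_hom (C := Th n) (X := level D i.succ)
    (x := vlev D x i.succ) (y := vlev D y i.succ) u
  obtain ⟨V, hV1, hV2⟩ := exists_V1_of_hom (C := Th n) (X := level D j.succ)
    (x := vlev D x j.succ) (y := vlev D y j.succ) v
  have e1 : U ≫ levelMap D h' = V1map b ≫ V := by
    refine V1_hom_ext (C := Th n) (x := vlev D x j.succ) (y := vlev D y j.succ) ?_
      ((endsEq_pre (C := Th n) b).2 hV1) fun c l p => ?_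
    · have := endsEq_post (C := Th n) hU1 (levelMap D h')
      rw [levelMap_cst, levelMap_cst] at this
      exact this
    · show ((levelMap D h').app (op (seg c.unop : Wr (Th n)))).app l
          ((U.app (op (seg c.unop : Wr (Th n)))).app l (vsOf P p)) =
        (V.app (op (seg c.unop : Wr (Th n)))).app l (vsOf Q ((b.app c).app l p))
      rw [← hU2, ← hV2]
      refine (FHm_levelMap_val D x y h h' c l ((u.app c).app l p)).symm.trans ?_
      exact congrArg Subtype.val (congrArg (fun t => (t.app c).app l p) huv)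
  obtain ⟨Z, hZ1, hZ2⟩ := hD.surj i.succ j.succ h' (k + 1) (Nat.succ_le_succ hk) _ _ (V1map b)
    (IsBd.susp b hb) U V e1
  have hZe : EndsEq (C := Th n) Z (vlev D x i.succ) (vlev D y i.succ) := by
    refine (endsEq_pre (C := Th n) b).1 ?_
    have e2 : EndsEq (C := Th n) (V1map b ≫ Z) (vlev D x i.succ) (vlev D y i.succ) ↔
        EndsEq (C := Th n) U (vlev D x i.succ) (vlev D y i.succ) :=
      iff_of_eq (congrArg (fun t => EndsEq (C := Th n) t (vlev D x i.succ) (vlev D y i.succ)) hZ1)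
    exact e2.2 hU1
  obtain ⟨z, hz⟩ := exists_hom_of_V1 (C := Th n) Z hZe
  refine ⟨z, ?_, ?_⟩
  · refine NatTrans.ext (funext fun c => NatTrans.ext (funext fun l => ?_))
    refine ConcreteCategory.hom_ext _ _ fun p => ?_
    refine Subtype.ext ?_
    refine (hz c l ((b.app c).app l p)).trans ?_
    refine Eq.trans ?_ (hU2 c l p).symm
    exact congrArg (fun t => (t.app (op (seg c.unop : Wr (Th n)))).app l (vsOf P p)) hZ1
  · refine NatTrans.ext (funext fun c => NatTrans.ext (funext fun l => ?_))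
    refine ConcreteCategory.hom_ext _ _ fun q => ?_
    refine Subtype.ext ?_
    refine (FHm_levelMap_val D x y h h' c l ((z.app c).app l q)).trans ?_
    refine Eq.trans ?_ (hV2 c l q).symm
    refine Eq.trans ?_ (congrArg (fun t => (t.app (op (seg c.unop : Wr (Th n)))).app l
      (vsOf Q q)) hZ2)
    exact congrArg (((levelMap D h').app (op (seg c.unop : Wr (Th n)))).app l) (hz c l q)

theorem FHm_flagged {D : SP (Gn (n + 1))} (hD : Flagged D) (x y : Vt (C := Th n) (level D 0)) :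
    Flagged (FHm D x y) where
  inj := FHm_injFib hD.inj x y
  cat i := FHm_isCat (hD.cat i.succ) (vlev D x i.succ) (vlev D y i.succ)
  trunc i := Hm_truncated (hD.cat i.succ).inj (hD.trunc i.succ) (vlev D x i.succ)
    (vlev D y i.succ)
  surj i j h k hk P Q b hb u v huv := FHm_surj hD x y i j h k hk P Q b hb u v huv

end Helper41FL2
end

/- Helper81.FL2.DX -/
section
/-!
# F7 DX: existence of the flagged category attached to a Segal presheaf
-/

open CategoryTheory MonoidalCategory Opposite HomotopicalAlgebra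

set_option autoImplicit false

namespace Pool.Agent.Helper81.FL2

open FL

section DX

variable {n : ℕ}

/-- The statements of other sections used in this file. -/
structure DXDeps (n : ℕ) : Prop where
  isCat_of_objHoEq : ∀ {X Y : SP (Th n)} (_ : InjFib X) (_ : InjFib Y) {f : X ⟶ Y}
    (_ : ObjHoEq f), IsCat n X ↔ IsCat n Y
  Cp_isCat : ∀ {A : SP (Th n)} (_ : ObjKan A) (_ : Sg n ((RR (Th n)).obj A)),
    IsCat n ((Cp n n).obj A) ∧ ∃ e : (RR (Th n)).obj A ⟶ (Cp n n).obj A,
      (RR (Th n)).η A ≫ e = (Cp n n).η A ∧ ES n n e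
  ES_of_arrow_iso : ∀ {i : ℕ} {X Y X' Y' : SP (Th n)} {f : X ⟶ Y} {f' : X' ⟶ Y'}
    (e : X ≅ X') (e' : Y ≅ Y') (_ : f ≫ e'.hom = e.hom ≫ f') (_ : ES n i f), ES n i f'
  ES_comp : ∀ {X Y Z : SP (Th n)} (_ : InjFib Y) (_ : InjFib Z) {f : X ⟶ Y} {g : Y ⟶ Z}
    (_ : InjFib X) (_ : ES n n f) (_ : ES n n g), ES n n (f ≫ g)
  ES_of_objHoEq : ∀ {X Y : SP (Th n)} (_ : InjFib X) (_ : InjFib Y) {f : X ⟶ Y}
    (_ : ObjHoEq f), ES n n f
  sg_tr : ∀ {X : SP (Th n)} (_ : Sg n X) (i : ℕ), Sg n ((RR (Th n)).obj ((tr n i).op ⋙ X))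
  tr_down : ∀ {X Y : SP (Th n)} (_ : Sg n X) (_ : IsCat n Y) {i : ℕ}
    (e : (tr n i).op ⋙ X ⟶ Y) (e' : (RR (Th n)).obj ((tr n i).op ⋙ X) ⟶ Y)
    (_ : (RR (Th n)).η _ ≫ e' = e) (_ : ES n n e'), ES n i e ∧ Truncated i Y
  surj_of_ES : ∀ {X : SP (Th n)} {D : SP (Gn n)} (_ : Sg n X) (_ : InjFib D)
    (f : filt X ⟶ D) (_ : ∀ i : Fin (n + 1), ES n i (levelHom f i)) (i j : Fin (n + 1))
    (hij : i ≤ j) (k : ℕ) (_ : k ≤ i.1) (P Q : SP (Th n)) (b : P ⟶ Q) (_ : IsBd n k b)
    (x : P ⟶ level D i) (y : Q ⟶ level D j) (_ : x ≫ levelMap D hij = b ≫ y),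
    ∃ z : Q ⟶ level D i, b ≫ z = x ∧ z ≫ levelMap D hij = y

/-- The map `filt X ⟶ seqK K X` given by the units. -/
noncomputable def unitF (K : SFun (Th n)) (X : SP (Th n)) : filt X ⟶ seqK K X where
  app g := (K.η ((tr n g.unop.2.unop).op ⋙ X)).app (op g.unop.1)
  naturality g g' u := by
    have h1 := NatTrans.congr_app (K.η_naturality (Functor.whiskerRight
      (NatTrans.op (trMap n g.unop.2.unop g'.unop.2.unop (leOfHom u.unop.2.unop))) X))
      (op g.unop.1)
    have h2 := (K.η ((tr n g'.unop.2.unop).op ⋙ X)).naturality u.unop.1.op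
    have h3 : (filt X).map u = (Functor.whiskerRight (NatTrans.op (trMap n g.unop.2.unop
        g'.unop.2.unop (leOfHom u.unop.2.unop))) X).app (op g.unop.1) ≫
        ((tr n g'.unop.2.unop).op ⋙ X).map u.unop.1.op := X.map_comp _ _
    rw [h3]
    refine (Category.assoc _ _ _).trans ?_
    refine (congrArg (_ ≫ ·) h2).trans ?_
    refine (Category.assoc _ _ _).symm.trans ?_
    refine (congrArg (· ≫ _) h1).trans ?_
    exact Category.assoc _ _ _

/-- The levels of `seqK K X`. -/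
noncomputable def levelSeqK (K : SFun (Th n)) (X : SP (Th n)) (i : Fin (n + 1)) :
    level (seqK K X) i ≅ K.obj ((tr n i.1).op ⋙ X) :=
  NatIso.ofComponents (fun _ => Iso.refl _) (by
    intro θ θ' f
    refine (Category.comp_id _).trans (Eq.trans ?_ (Category.id_comp _).symm)
    have e : Functor.whiskerRight
        (NatTrans.op (trMap n i.1 i.1 (le_refl _))) X = 𝟙 _ := by
      rw [trMap_refl]
      ext a
      simp
    refine (congrArg (fun t : (tr n i.1).op ⋙ X ⟶ (tr n i.1).op ⋙ X =>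
      (K.map t).app θ ≫ (K.obj ((tr n i.1).op ⋙ X)).map f) e).trans ?_
    rw [K.map_id]
    exact Category.id_comp _)

theorem exists_flagged_of (H : DXDeps n) {X : SP (Th n)} (hX : Sg n X) :
    ∃ (D : SP (Gn n)) (f : filt X ⟶ D), Flagged D ∧
      ∀ i : Fin (n + 1), ES n i (levelHom f i) := by
  have hXk : ObjKan X := Pool.Agent.Helper46.FLb.InjFib.objKan
    (fun X {_} hZ => Pool.Agent.Helper83.FL4.Mp_kan X hZ) hX.1
  have hAk : ∀ i : ℕ, ObjKan ((tr n i).op ⋙ X) := fun i a => hXk _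
  have hC := fun i : ℕ => H.Cp_isCat (hAk i) (H.sg_tr hX i)
  have hSk : ObjKan (seqK (Cp n n) X) := fun g =>
    Pool.Agent.Helper46.FLb.InjFib.objKan
      (fun X {_} hZ => Pool.Agent.Helper83.FL4.Mp_kan X hZ) (hC g.unop.2.unop).1.inj _
  have hD : InjFib ((RR (Gn n)).obj (seqK (Cp n n) X)) := Helper41FL2.RR_injFib hSk
  have hη : ObjHoEq ((RR (Gn n)).η (seqK (Cp n n) X)) := Helper41FL2.RR_objHoEq hSk
  have hL : ∀ i : Fin (n + 1), InjFib (level ((RR (Gn n)).obj (seqK (Cp n n) X)) i) :=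
    fun i => Pool.Agent.Helper30.FL16.level_injFib_of Pool.Agent.Helper91.FL17a.tool hD i
  have key : ∀ i : Fin (n + 1), ObjHoEq ((levelSeqK (Cp n n) X i).inv ≫
      levelHom ((RR (Gn n)).η (seqK (Cp n n) X)) i) := by
    intro i θ
    have := hη (op (θ.unop, op i))
    refine (congrArg HoEq ?_).mp this
    exact (Category.id_comp _).symm
  have hcat : ∀ i : Fin (n + 1), IsCat n (level ((RR (Gn n)).obj (seqK (Cp n n) X)) i) :=
    fun i => (H.isCat_of_objHoEq (hC i).1.inj (hL i) (key i)).mp (hC i).1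
  have hES : ∀ i : Fin (n + 1),
      ES n i ((Cp n n).η ((tr n i.1).op ⋙ X) ≫ (levelSeqK (Cp n n) X i).inv ≫
        levelHom ((RR (Gn n)).η (seqK (Cp n n) X)) i) ∧
      Truncated i (level ((RR (Gn n)).obj (seqK (Cp n n) X)) i) := by
    intro i
    obtain ⟨e, he, he'⟩ := (hC i).2
    refine H.tr_down hX (hcat i) _ (e ≫ (levelSeqK (Cp n n) X i).inv ≫
      levelHom ((RR (Gn n)).η (seqK (Cp n n) X)) i) ?_ ?_
    · rw [← Category.assoc, he]
    · exact H.ES_comp (hC i).1.inj (hL i) (Helper41FL2.RR_injFib (hAk i)) he'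
        (H.ES_of_objHoEq (hC i).1.inj (hL i) (key i))
  have hf : ∀ i : Fin (n + 1), ES n i
      (levelHom (unitF (Cp n n) X ≫ (RR (Gn n)).η (seqK (Cp n n) X)) i) := by
    intro i
    obtain ⟨E, hE⟩ := Pool.Agent.Helper25.FL2.level_filt X i
    refine H.ES_of_arrow_iso E.symm (Iso.refl _) ?_ (hES i).1
    rw [Iso.symm_hom, Iso.eq_inv_comp, Iso.refl_hom, Category.comp_id]
    refine NatTrans.ext (funext fun θ => NatTrans.ext (funext fun k => ?_))
    refine ConcreteCategory.hom_ext _ _ fun x => ?_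
    exact congrArg (fun t => (((RR (Gn n)).η (seqK (Cp n n) X)).app (op (θ.unop, op i))).app k
      ((((Cp n n).η ((tr n i.1).op ⋙ X)).app θ).app k t)) (hE θ k x)
  exact ⟨_, unitF (Cp n n) X ≫ (RR (Gn n)).η (seqK (Cp n n) X),
    ⟨hD, hcat, fun i => (hES i).2, fun i j h k hk P Q b hb x y hxy =>
      H.surj_of_ES hX hD _ hf i j h k hk P Q b hb x y hxy⟩, hf⟩

end DX

end Pool.Agent.Helper81.FL2
end
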