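import Pool.Agent.Helper43.FLQ.Public
import Pool.Agent.Helper16.FDG.G01
import Pool.Agent.Helper16.FDG.G02
import Pool.Agent.Helper16.FDG.G03
import Pool.Agent.Helper16.FDG.G05
import Pool.Agent.Helper16.FDG.G06
import Pool.Agent.Helper16.FDG.G07
import Pool.Agent.Helper16.FDG.G08
import Pool.Agent.Helper16.FDG.G09
import Pool.Agent.Helper16.FDG.G10
import Pool.Agent.Helper16.FDG.G11
import Pool.Agent.Helper16.FDG.G12
import Pool.Agent.Helper16.FDG.G13
import Pool.Agent.Helper16.FDG.G14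
import Pool.Agent.Helper16.FDG.G15

/- Helper43.FLQ.B1 -/
section
/-!
# Project FLQ: the two forms of mapping spaces, in any universe
-/

open CategoryTheory MonoidalCategory CartesianMonoidalCategory Opposite

set_option autoImplicit false

namespace Pool.Agent.Helper43.FLQB

open FL (HoEq)
open FLQ (SPU)
open Pool.Agent.Helper43.FLU (MpS)

noncomputable section

universe u

variable {A B : Type} [SmallCategory A] [SmallCategory B]

/-- From families of functions to maps `X × Δ[m] ⟶ Y`. -/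
def toMx {X Y : SPU.{u} A} {m : SimplexCategory} (φ : MpS X Y m) : FLQ.Mx X Y m where
  app a :=
    { app := fun k => ↾ fun (z : (X.obj a).obj k × (SSet.stdSimplex.obj m : SSet.{u}).obj k) =>
        φ.app a k (SSet.stdSimplex.objEquiv z.2) z.1
      naturality := fun k l α => by
        refine ConcreteCategory.hom_ext _ _ fun z => ?_
        exact φ.nat_right a α (SSet.stdSimplex.objEquiv z.2) z.1 }
  naturality a b f := by
    refine NatTrans.ext (funext fun k => ConcreteCategory.hom_ext _ _ fun z => ?_)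
    exact φ.nat_left f k (SSet.stdSimplex.objEquiv z.2) z.1

/-- From maps `X × Δ[m] ⟶ Y` to families of functions. -/
def ofMx {X Y : SPU.{u} A} {m : SimplexCategory} (φ : FLQ.Mx X Y m) : MpS X Y m where
  app a k s x := (φ.app a).app k (x, SSet.stdSimplex.objEquiv.symm s)
  nat_left {a b} f k s x := by
    exact FLU.hom_nat φ f (k := k) (x, SSet.stdSimplex.objEquiv.symm s)
  nat_right a k l g s x := by
    refine Eq.trans ?_ (FLU.hom_natk φ g (a := a) (x, SSet.stdSimplex.objEquiv.symm s))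
    rfl

lemma toMx_ofMx {X Y : SPU.{u} A} {m : SimplexCategory} (φ : FLQ.Mx X Y m) :
    toMx (ofMx φ) = φ := by
  refine NatTrans.ext (funext fun a => NatTrans.ext (funext fun k =>
    ConcreteCategory.hom_ext _ _ fun z => ?_))
  show (φ.app a).app k (z.1, SSet.stdSimplex.objEquiv.symm (SSet.stdSimplex.objEquiv z.2)) = _
  rw [Equiv.symm_apply_apply]
  rfl

lemma ofMx_toMx {X Y : SPU.{u} A} {m : SimplexCategory} (φ : MpS X Y m) :
    ofMx (toMx φ) = φ := by
  refine FLU.MpS.ext ?_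
  funext a k s x
  show φ.app a k (SSet.stdSimplex.objEquiv.{u} (SSet.stdSimplex.objEquiv.{u}.symm s)) x = _
  rw [Equiv.apply_symm_apply]

lemma toMx_injective {X Y : SPU.{u} A} {m : SimplexCategory} :
    Function.Injective (toMx : MpS X Y m → FLQ.Mx X Y m) := fun a b h => by
  rw [← ofMx_toMx a, h, ofMx_toMx]

lemma toMx_res {X Y : SPU.{u} A} {m l : SimplexCategory} (α : l ⟶ m) (φ : MpS X Y m) :
    toMx (φ.res α) = (toMx φ).res α := rfl

lemma toMx_comp {X Y Z : SPU.{u} A} {m : SimplexCategory} (φ : MpS X Y m) (ψ : MpS Y Z m) :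
    toMx (φ.comp ψ) = (toMx φ).comp (toMx ψ) := rfl

lemma toMx_of {X Y : SPU.{u} A} (f : X ⟶ Y) (m : SimplexCategory) :
    toMx (FLU.MpS.ofHom m f) = FLQ.Mx.of f m := rfl

lemma ofMx_res {X Y : SPU.{u} A} {m l : SimplexCategory} (α : l ⟶ m) (φ : FLQ.Mx X Y m) :
    ofMx (φ.res α) = (ofMx φ).res α := by
  apply toMx_injective
  rw [toMx_res, toMx_ofMx, toMx_ofMx]

lemma ofMx_comp {X Y Z : SPU.{u} A} {m : SimplexCategory} (φ : FLQ.Mx X Y m)
    (ψ : FLQ.Mx Y Z m) : ofMx (φ.comp ψ) = (ofMx φ).comp (ofMx ψ) := by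
  apply toMx_injective
  rw [toMx_comp, toMx_ofMx, toMx_ofMx, toMx_ofMx]

/-- The isomorphism between the two forms of mapping spaces. -/
def mpIso (X Y : SPU.{u} A) : FLU.Mp X Y ≅ FLQ.Mp X Y where
  hom := { app := fun m => ↾ fun (φ : MpS X Y m.unop) => toMx φ
           naturality := fun _ _ _ => rfl }
  inv := { app := fun m => ↾ fun (φ : FLQ.Mx X Y m.unop) => ofMx φ
           naturality := fun m l α => ConcreteCategory.hom_ext _ _ fun (φ : FLQ.Mx X Y m.unop) =>
             ofMx_res α.unop φ }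
  hom_inv_id := NatTrans.ext (funext fun m => ConcreteCategory.hom_ext _ _
    fun (φ : MpS X Y m.unop) => ofMx_toMx φ)
  inv_hom_id := NatTrans.ext (funext fun m => ConcreteCategory.hom_ext _ _
    fun (φ : FLQ.Mx X Y m.unop) => toMx_ofMx φ)

/-- Precomposition with an isomorphism. -/
def preIso {X X' : SPU.{u} A} (e : X ≅ X') (Y : SPU.{u} A) :
    FLQ.Mp X' Y ≅ FLQ.Mp X Y where
  hom := FLQ.Mp.pre e.hom Y
  inv := FLQ.Mp.pre e.inv Y
  hom_inv_id := NatTrans.ext (funext fun m => ConcreteCategory.hom_ext _ _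
    fun (φ : FLQ.Mx X' Y m.unop) => by
      show (FLQ.Mx.of e.inv m.unop).comp ((FLQ.Mx.of e.hom m.unop).comp φ) = φ
      rw [← FLQ.Mx.comp_assoc, ← FLQ.Mx.of_comp, e.inv_hom_id, FLQ.Mx.id_comp])
  inv_hom_id := NatTrans.ext (funext fun m => ConcreteCategory.hom_ext _ _
    fun (φ : FLQ.Mx X Y m.unop) => by
      show (FLQ.Mx.of e.hom m.unop).comp ((FLQ.Mx.of e.inv m.unop).comp φ) = φ
      rw [← FLQ.Mx.comp_assoc, ← FLQ.Mx.of_comp, e.hom_inv_id, FLQ.Mx.id_comp])

end

end Pool.Agent.Helper43.FLQB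
end

/- Helper58.FLP.B9Of -/
section
/-!
# Bridge, part 9: injectively fibrant presheaves
-/

open CategoryTheory MonoidalCategory CartesianMonoidalCategory Opposite

set_option autoImplicit false

namespace FLP

open FL (SP MpS HoEq Th Wr WE)

noncomputable section

variable {n : ℕ}

/-- From `Hom` to `FL.PSh.Hom`. -/
def toHomP (H : CatIff n) {F G : PSh n} (f : PSh.Hom F G) :
    FL.PSh.Hom (toPSh H F) (toPSh H G) where
  app K := f.app (ofC H K)
  act {K K' k} φ x := f.act (ofC H K) (ofC H K') (m := k.unop) (toMx φ) x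

theorem injFib_of (H : CatIff n) {G : PSh n} {G' : FL.PSh n} (hG : G'.InjFib)
    (e : ∀ K : FL.CatN n, (toPSh H G).obj K ≅ G'.obj K)
    (he : ∀ {K K' : FL.CatN n} {k : SimplexCategoryᵒᵖ} (φ : MpS K.1 K'.1 k.unop)
      (x : ((toPSh H G).obj K').obj k), (e K).hom.app k ((toPSh H G).act φ x) =
        G'.act φ ((e K').hom.app k x)) : G.InjFib := by
  intro F F' i hi hi' f
  obtain ⟨g, hg⟩ := hG (toHomP H i) (fun C => hi _) (fun C => hi' _)
    { app := fun K => f.app (ofC H K) ≫ (e K).hom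
      act := fun {K K' k} φ x =>
        (congrArg ((e K).hom.app k) (f.act (ofC H K) (ofC H K') (m := k.unop)
          (toMx φ) x)).trans (he φ _) }
  refine ⟨{ app := fun C => g.app (toC H C) ≫ (e (toC H C)).inv, act := ?_ }, fun C => ?_⟩
  · intro C C' m φ x
    have h1 := g.act (C := toC H C) (C' := toC H C') (k := op m) (ofMx φ) x
    have h2 : (toPSh H F').act (C := toC H C) (C' := toC H C') (k := op m) (ofMx φ) x =
        F'.act C C' φ x := by
      show F'.act C C' (toMx (ofMx φ)) x = _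
      rw [toMx_ofMx]
    rw [h2] at h1
    have h3 := he (K := toC H C) (K' := toC H C') (k := op m) (ofMx φ)
      ((e (toC H C')).inv.app (op m) ((g.app (toC H C')).app (op m) x))
    have h4 : ∀ (K : FL.CatN n) (y : (G'.obj K).obj (op m)),
        (e K).hom.app (op m) ((e K).inv.app (op m) y) = y := fun K y =>
      ConcreteCategory.congr_hom (NatTrans.congr_app (e K).inv_hom_id (op m)) y
    have h5 : ∀ (K : FL.CatN n) (y : ((toPSh H G).obj K).obj (op m)),
        (e K).inv.app (op m) ((e K).hom.app (op m) y) = y := fun K y =>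
      ConcreteCategory.congr_hom (NatTrans.congr_app (e K).hom_inv_id (op m)) y
    rw [h4] at h3
    have h6 : (toPSh H G).act (C := toC H C) (C' := toC H C') (k := op m) (ofMx φ)
        ((e (toC H C')).inv.app (op m) ((g.app (toC H C')).app (op m) x)) =
        G.act C C' φ ((e (toC H C')).inv.app (op m) ((g.app (toC H C')).app (op m) x)) := by
      show G.act C C' (toMx (ofMx φ)) _ = _
      rw [toMx_ofMx]
    show (e (toC H C)).inv.app (op m) ((g.app (toC H C)).app (op m) (F'.act C C' φ x)) =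
      G.act C C' φ ((e (toC H C')).inv.app (op m) ((g.app (toC H C')).app (op m) x))
    rw [h1, ← h3, h5, h6]
  · have h := hg (toC H C)
    refine (Category.assoc _ _ _).symm.trans ?_
    exact (congrArg (· ≫ (e (toC H C)).inv) h).trans
      ((Category.assoc _ _ _).trans ((congrArg (f.app C ≫ ·) (e (toC H C)).hom_inv_id).trans
        (Category.comp_id _)))

end

end FLP
end

/- Helper45.FLP.YD -/
section
/-!
# Bridge FLP-B7: the restricted Yoneda functor
-/

open CategoryTheory MonoidalCategory CartesianMonoidalCategory Opposite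

set_option autoImplicit false

namespace Pool.Agent.Helper45.FLPYD

open FL (SP MpS HoEq Th)
open FLP

noncomputable section

variable {n : ℕ}

/-- The two forms of `filt` on maps agree. -/
lemma ofMx_along {X Y : SP (Th n)} {m : SimplexCategory} (φ : MpS X Y m) :
    ofMx ((toMx φ).along (FLP.tower n)) =
      (FL.filtS φ : MpS (FL.filt X) (FL.filt Y) m) := by
  have h : (toMx φ).along (FLP.tower n) =
      toMx (FL.filtS φ : MpS (FL.filt X) (FL.filt Y) m) := rfl
  rw [h]
  exact ofMx_toMx _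

theorem exists_ydIso (H : CatIff n) (D : SP (FLP.Gn n)) :
    ∃ e : ∀ K : FL.CatN n, (toPSh H (FLP.YD D)).obj K ≅ (FL.YD D).obj K,
      ∀ {K K' : FL.CatN n} {k : SimplexCategoryᵒᵖ} (φ : MpS K.1 K'.1 k.unop)
        (x : ((toPSh H (FLP.YD D)).obj K').obj k),
        (e K).hom.app k ((toPSh H (FLP.YD D)).act φ x) =
          (FL.YD D).act φ ((e K').hom.app k x) := by
  refine ⟨fun K => (mpIso (FL.filt K.1) D).symm, ?_⟩
  intro K K' k φ x
  have h : ofMx (((toMx φ).along (FLP.tower n)).comp (x : Mx (rs (FLP.tower n) K'.1) D k.unop)) =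
      MpS.comp (FL.filtS φ : MpS (FL.filt K.1) (FL.filt K'.1) k.unop)
        (ofMx (x : Mx (rs (FLP.tower n) K'.1) D k.unop)) := by
    rw [ofMx_comp, ofMx_along]
    rfl
  exact h

variable (H : CatIff n) (D D' : SP (FLP.Gn n))

/-- From `FLP` to `FL`. -/
def toM {m : SimplexCategory} (ψ : FLP.PSh.MapS (FLP.YD D) (FLP.YD D') m) :
    FL.PSh.MapS (FL.YD D) (FL.YD D') m where
  app K k s x := ofMx (ψ.app (ofC H K) (l := k.unop) s (toMx x))
  nat K k l g s x := by
    have h := ψ.nat (ofC H K) g.unop s (toMx x)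
    have h2 : ofMx (Mx.res g.unop (ψ.app (ofC H K) (l := k.unop) s (toMx x))) =
      (ofMx (ψ.app (ofC H K) (l := k.unop) s (toMx x))).res g.unop := ofMx_res _ _
    exact (congrArg ofMx h).trans h2
  act {K K'} k s φ x := by
    have h := ψ.act (ofC H K) (ofC H K') s (toMx φ) (toMx x)
    have h2 : ofMx (((toMx φ).along (FLP.tower n)).comp
        (ψ.app (ofC H K') (l := k.unop) s (toMx x))) =
      MpS.comp (FL.filtS φ : MpS (FL.filt K.1) (FL.filt K'.1) k.unop)
        (ofMx (ψ.app (ofC H K') (l := k.unop) s (toMx x))) := by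
      rw [ofMx_comp, ofMx_along]
      rfl
    exact (congrArg ofMx h).trans h2

/-- From `FL` to `FLP`. -/
def fromM {m : SimplexCategory} (ψ : FL.PSh.MapS (FL.YD D) (FL.YD D') m) :
    FLP.PSh.MapS (FLP.YD D) (FLP.YD D') m where
  app C {l} s x := toMx (ψ.app (toC H C) (op l) s (ofMx x))
  nat C {l k} α s x := by
    have h := ψ.nat (toC H C) (k := op l) (l := op k) α.op s (ofMx x)
    have h2 : ofMx (Mx.res α (x : Mx (rs (FLP.tower n) C.X) D l)) = (ofMx x).res α :=
      ofMx_res _ _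
    have h3 := congrArg (fun t : MpS (FL.filt C.X) D k =>
      toMx (ψ.app (toC H C) (op k) (α ≫ s) t)) h2
    exact h3.trans (congrArg toMx h)
  act C C' {l} s φ x := by
    have h := ψ.act (C := toC H C) (C' := toC H C') (k := op l) s (ofMx φ) (ofMx x)
    have h2 : ofMx (((toMx (ofMx φ)).along (FLP.tower n)).comp
        (x : Mx (rs (FLP.tower n) C'.X) D l)) =
      MpS.comp (FL.filtS (ofMx φ) : MpS (FL.filt C.X) (FL.filt C'.X) l) (ofMx x) := by
      rw [ofMx_comp, ofMx_along]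
      rfl
    rw [toMx_ofMx] at h2
    have h3 := (congrArg (fun t : MpS (FL.filt C.X) D l =>
      toMx (ψ.app (toC H C) (op l) s t)) h2).trans (congrArg toMx h)
    refine h3.trans ?_
    show toMx (MpS.comp (FL.filtS (ofMx φ) : MpS (FL.filt C.X) (FL.filt C'.X) l)
          (ψ.app (toC H C') (op l) s (ofMx x))) = _
    have h4 : toMx (FL.filtS (ofMx φ) : MpS (FL.filt C.X) (FL.filt C'.X) l) =
        φ.along (FLP.tower n) := by
      have h5 : toMx (FL.filtS (ofMx φ) : MpS (FL.filt C.X) (FL.filt C'.X) l) =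
        (toMx (ofMx φ)).along (FLP.tower n) := rfl
      rw [h5, toMx_ofMx]
    rw [toMx_comp, h4]
    rfl

lemma toM_fromM {m : SimplexCategory} (ψ : FL.PSh.MapS (FL.YD D) (FL.YD D') m) :
    toM H D D' (fromM H D D' ψ) = ψ := by
  refine FL.PSh.MapS.ext ?_
  funext K k s x
  show ofMx (toMx (ψ.app K k s (ofMx (toMx x)))) = ψ.app K k s x
  rw [ofMx_toMx, ofMx_toMx]

lemma fromM_toM {m : SimplexCategory} (ψ : FLP.PSh.MapS (FLP.YD D) (FLP.YD D') m) :
    fromM H D D' (toM H D D' ψ) = ψ := by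
  refine FLP.PSh.MapS.ext ?_
  funext C l s x
  show toMx (ofMx (ψ.app C s (toMx (ofMx x)))) = ψ.app C s x
  rw [toMx_ofMx, toMx_ofMx]

/-- The isomorphism of mapping spaces. -/
def mapIso : FLP.PSh.Map (FLP.YD D) (FLP.YD D') ≅ FL.PSh.Map (FL.YD D) (FL.YD D') where
  hom := { app := fun m => ↾ fun (ψ : FLP.PSh.MapS (FLP.YD D) (FLP.YD D') m.unop) =>
             toM H D D' ψ
           naturality := fun _ _ _ => rfl }
  inv := { app := fun m => ↾ fun (ψ : FL.PSh.MapS (FL.YD D) (FL.YD D') m.unop) =>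
             fromM H D D' ψ
           naturality := fun _ _ _ => rfl }
  hom_inv_id := NatTrans.ext (funext fun m => ConcreteCategory.hom_ext _ _
    fun (ψ : FLP.PSh.MapS (FLP.YD D) (FLP.YD D') m.unop) => fromM_toM H D D' ψ)
  inv_hom_id := NatTrans.ext (funext fun m => ConcreteCategory.hom_ext _ _
    fun (ψ : FL.PSh.MapS (FL.YD D) (FL.YD D') m.unop) => toM_fromM H D D' ψ)

/-- The square. -/
lemma square : FLP.YDmap D D' ≫ (mapIso H D D').hom =
    (SSet.uliftFunctor.{1, 0}.mapIso (mpIso D D').symm).hom ≫ FL.YDmap D D' := by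
  refine NatTrans.ext (funext fun m => ConcreteCategory.hom_ext _ _
    fun (φ : ULift (Mx D D' m.unop)) => ?_)
  refine FL.PSh.MapS.ext ?_
  funext K k s x
  have h : ofMx (Mx.comp (toMx x) (φ.down.res s)) = MpS.comp x (MpS.res s (ofMx φ.down)) := by
    rw [ofMx_comp, ofMx_toMx, ofMx_res]
  exact h

include H in
theorem yDmap_iff : HoEq (FLP.YDmap D D') ↔ HoEq (FL.YDmap D D') := by
  constructor
  · exact Pool.Agent.Helper88.FL.hoEq_of_arrow_iso _ _ (square H D D')
  · refine Pool.Agent.Helper88.FL.hoEq_of_arrow_iso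
      (SSet.uliftFunctor.{1, 0}.mapIso (mpIso D D').symm).symm (mapIso H D D').symm ?_
    rw [Iso.symm_hom, Iso.symm_hom, Iso.comp_inv_eq, Category.assoc, square,
      Iso.inv_hom_id_assoc]

end

end Pool.Agent.Helper45.FLPYD
end

/- Helper58.FLP.B8 -/
section
/-!
# Bridge: the conjecture in its public form
-/

open CategoryTheory MonoidalCategory CartesianMonoidalCategory Opposite

set_option autoImplicit false

namespace FLP

open FL (SP MpS HoEq InjFib InjFibration Th Wr)

variable {n : ℕ}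

theorem catIff (n : ℕ) : CatIff n := Helper84FLP.isCat_iff n

theorem surjIff (n : ℕ) : SurjIff n := fun hk _ _ hX hY _ hq =>
  Pool.Agent.Helper87.FLPSurj.surj_iff hk hX hY hq

theorem hyp (H : CatIff n) : Hyp n H where
  kan_iff := fun F => Pool.Agent.Helper28.FLCmp.kan_iff H F
  equiv_iff := fun F G G' e he => Pool.Agent.Helper28.FLCmp.equiv_iff H F G G' e he
  exists_wtIso := fun _ => Pool.Agent.Helper55.FLP.exists_wtIso
  exists_corr := fun e p K => Pool.Agent.Helper55.FLP.exists_corr e p K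
  compare_iff := fun e F _ _ _ _ h => Pool.Agent.Helper28.FLCmp.compare_iff H e F h
  rp_compare_iff := fun e _ _ _ _ h i Z => Helper83FLP.rp_compare_iff e h i Z
  exists_ydIso := fun D => Pool.Agent.Helper45.FLPYD.exists_ydIso H D
  yDmap_iff := fun D D' => Pool.Agent.Helper45.FLPYD.yDmap_iff H D D'

theorem flagged_iff (D : SP (Gn n)) : Flagged D ↔ FL.Flagged D :=
  flagged_iff_of (catIff n) (surjIff n) D

theorem conjecture_of (h : FL.Conjecture n) : FLP.Conjecture n :=
  conjecture_of' (catIff n) (surjIff n) (hyp (catIff n)) h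

theorem yd_injFib_of {D : SP (Gn n)} (h : (FL.YD D).InjFib) : (YD D).InjFib := by
  obtain ⟨e, he⟩ := (hyp (catIff n)).exists_ydIso D
  exact injFib_of (catIff n) h e he

end FLP
end

/- Helper43.FLQ.Cat -/
section
/-!
# Project FLQ: the notions of `(∞,n)`-category and of flagged category
-/

open CategoryTheory MonoidalCategory CartesianMonoidalCategory Opposite

set_option autoImplicit false

namespace Pool.Agent.Helper43.FLQB

open FL (SP MpS HoEq InjFib Th Wr)

theorem segal_iff {C : Type} [SmallCategory C] (X : SP (Wr C)) : FLQ.Segal X ↔ FLP.Segal X :=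
  Iff.rfl

theorem complete_iff {C : Type} [SmallCategory C] (X : SP (Wr C)) :
    FLQ.Complete X ↔ FLP.Complete X := Iff.rfl

theorem isCat_mp {n : ℕ} {X : SP (Th n)} (h : FLQ.IsCat n X) : FLP.IsCat n X := by
  induction h with
  | zero X inj => exact FLP.IsCat.zero X inj
  | succ n X inj segal complete hom ih =>
    exact FLP.IsCat.succ n X inj segal complete ih

theorem isCat_mpr {n : ℕ} {X : SP (Th n)} (h : FLP.IsCat n X) : FLQ.IsCat n X := by
  induction h with
  | zero X inj => exact FLQ.IsCat.zero X inj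
  | succ n X inj segal complete hom ih =>
    exact FLQ.IsCat.succ n X inj segal complete ih

theorem isCat_iff' {n : ℕ} {X : SP (Th n)} : FLQ.IsCat n X ↔ FLP.IsCat n X :=
  ⟨isCat_mp, isCat_mpr⟩

/-- The two notions of `(∞,n)`-category agree. -/
theorem catIff (n : ℕ) (X : SP (Th n)) : FLQ.IsCat n X ↔ FL.IsCat n X :=
  isCat_iff'.trans (FLP.catIff n X)

theorem surj_mp {n k : ℕ} {X Y : SP (Th n)} {f : X ⟶ Y} (h : FLQ.Surj n k f) :
    FLP.Surj n k f := by
  induction h with
  | zero n f h => exact FLP.Surj.zero n f h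
  | succ n k f h ih => exact FLP.Surj.succ n k f ih

theorem surj_mpr {n k : ℕ} {X Y : SP (Th n)} {f : X ⟶ Y} (h : FLP.Surj n k f) :
    FLQ.Surj n k f := by
  induction h with
  | zero n f h => exact FLQ.Surj.zero n f h
  | succ n k f h ih => exact FLQ.Surj.succ n k f ih

variable {n : ℕ}

theorem flagged_iff' (D : SP (FLQ.Gn n)) : FLQ.Flagged D ↔ FLP.Flagged D := by
  constructor
  · intro h
    exact ⟨h.inj, fun i => isCat_mp (h.cat i), h.trunc, fun i j hij k hk =>
      surj_mp (h.surj i j hij k hk)⟩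
  · intro h
    exact ⟨h.inj, fun i => isCat_mpr (h.cat i), h.trunc, fun i j hij k hk =>
      surj_mpr (h.surj i j hij k hk)⟩

theorem flagged_iff (D : SP (FLQ.Gn n)) : FLQ.Flagged D ↔ FL.Flagged D :=
  (flagged_iff' D).trans (FLP.flagged_iff D)

end Pool.Agent.Helper43.FLQB
end

/- Helper43.FLU.Main -/
section
/-!
# Project FLQ: the essential image of `Y` in presheaves of large simplicial sets
-/

open CategoryTheory MonoidalCategory Opposite

set_option autoImplicit false

namespace Pool.Agent.Helper43.FLU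

open FL (SP HoEq Htpy sset_id sset_comp sset_nat Chain WS W BrS Th CatN IsCat Hoco HS coneS diag_comp
  Gn YD ND rep repMap filt yoS tower yo svDiag svCone svProj sieveCompare SvObj canDiag canCone
  SegalDescent KnownGaunt KnownTheorem Flagged level SegCov)
open FLQ (SPU)
open Pool.Agent.Helper88.FL (hoEq_comp hoEq_of_comp_left hoEq_of_comp_right hoEq_of_isIso
  hoEq_of_arrow_iso hoEq_ulift_iff)

universe u

/-- Homotopy equivalences are weak homotopy equivalences, in any universe. -/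
theorem pre_hoEq {X Y : SSet.{u}} {f : X ⟶ Y} (h : HoEq f) (K : SSet.{u}) :
    HoEq ((MonoidalClosed.pre f).app K) := by
  obtain ⟨g, h1, h2⟩ := h
  refine ⟨(MonoidalClosed.pre g).app K, ?_, ?_⟩
  · have := Helper85FL.htpy_pre (a := g ≫ f) (b := 𝟙 Y) h2 K
    rw [MonoidalClosed.pre_map, MonoidalClosed.pre_id] at this
    exact this
  · have := Helper85FL.htpy_pre (a := f ≫ g) (b := 𝟙 X) h1 K
    rw [MonoidalClosed.pre_map, MonoidalClosed.pre_id] at this
    exact this

variable {n : ℕ}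

/-- Presheaves with essentially small values. -/
def PSh.EssSmall (F : PSh n) : Prop :=
  ∀ C, ∃ (K : SSet.{0}) (f : F.obj C ⟶ SSet.uliftFunctor.{1, 0}.obj K), HoEq f

theorem segal_square (hrep : ∀ θ : Th n, IsCat n (rep θ)) {F : PSh n} {Z : SP (Th n)}
    (i : upP Z ⟶ F.restr hrep) {θ : Th n} (S : Sieve θ) (hp : ∀ j, IsCat n ((svDiag S).obj j))
    (hC : IsCat n (rep θ)) :
    i.app (op θ) ≫ F.compare (svDiag S) hp hC (svCone S) =
      SSet.uliftFunctor.{1, 0}.map (sieveCompare Z S) ≫ (mpUp ((svProj S).op ⋙ Z)).inv ≫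
        Mp.post (WU _) (Y := upP ((svProj S).op ⋙ Z)) (Y' := F.along (svDiag S) hp)
          (Functor.whiskerLeft (svProj S).op i) := by
  ext k x
  refine MpS.ext ?_
  funext j l s w
  have h1 := hom_nat i j.unop.f.op (k := l) ((SSet.uliftFunctor.{1, 0}.obj (Z.obj (op θ))).map s.op x)
  have h2 := hom_natk i s.op x
  refine (congrArg (fun t => F.act (C := ⟨_, hp j.unop⟩) (C' := ⟨_, hC⟩) t
    ((F.obj ⟨rep θ, hC⟩).map s.op ((i.app (op θ)).app k x)))
    (Pool.Agent.Helper72.RKE.coneS_svCone S w.down)).trans ?_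
  refine Eq.trans ?_ h1.symm
  exact congrArg (((F.restr hrep).map j.unop.f.op).app l) h2.symm

/-- Segal descent of a small model of the restriction to `Θ_n`. -/
theorem segal_small (hrep : ∀ θ : Th n, IsCat n (rep θ)) {F : PSh n} (hF : F.Kan)
    (hF' : F.GauntDescent) (hG : KnownGaunt n) {Z : SP (Th n)} (hZ : FL.ObjKan Z)
    (i : upP Z ⟶ F.restr hrep) (hi : ∀ a, HoEq (i.app a)) : SegalDescent Z := by
  intro θ S hS
  have h := hG θ S hS
  have h1 := hF' _ _ _ _ h
  have hK1 : ObjKan (upP ((svProj S).op ⋙ Z)) := fun j => kan_up (hZ _)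
  have hK2 : ObjKan (F.along (svDiag S) h.cat_obj) := fun j => hF _
  have h2 : HoEq (i.app (op θ) ≫ F.compare (svDiag S) h.cat_obj h.cat_pt (svCone S)) :=
    hoEq_comp (kan_up (hZ _)) (hF _) (Holim_kan hK2) (hi _) h1
  rw [segal_square, ← Category.assoc] at h2
  have h3 : HoEq (SSet.uliftFunctor.{1, 0}.map (sieveCompare Z S) ≫
      (mpUp ((svProj S).op ⋙ Z)).inv) := by
    refine hoEq_of_comp_right (kan_up (hZ _)) (Holim_kan hK1) (Holim_kan hK2) ?_ h2
    exact Holim_hoEq hK1 hK2 _ (fun j => hi _)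
  rw [← hoEq_ulift_iff]
  exact hoEq_of_arrow_iso (Iso.refl _) (mpUp ((svProj S).op ⋙ Z)) (by
    rw [Category.assoc, Iso.inv_hom_id, Category.comp_id]
    exact (Category.id_comp _).symm) h3

/-- A morphism `F ⟶ Y D` is an equivalence if it is one on `Θ_n`. -/
theorem hoEq_of_restr (hrep : ∀ θ : Th n, IsCat n (rep θ)) {F : PSh n} (hF : F.Kan)
    (hF' : F.GauntDescent) {D : SP (Gn n)} (hD : FL.InjFib D) (hc : ∀ i, IsCat n (level D i))
    (φ : PSh.Hom F (upPSh (YD D))) (hφ : ∀ a, HoEq ((toRestr hrep φ).app a)) (C : CatN n) :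
    HoEq (φ.app C) := by
  have hg := Pool.Agent.Helper91.FL17a.canCone_isGaunt hrep C.1 C.2
  have hYK : (upPSh (YD D)).Kan := fun C => kan_up (Pool.Agent.Helper91.FL17a.YD_kan hD C)
  have hK1 : ObjKan (F.along (canDiag C.1) hg.cat_obj) := fun j => hF _
  have hK2 : ObjKan ((upPSh (YD D)).along (canDiag C.1) hg.cat_obj) := fun j => hYK _
  have h1 : HoEq (F.compare (canDiag C.1) hg.cat_obj hg.cat_pt (canCone C.1) ≫
      Mp.post (WU _) (alongMap φ (canDiag C.1) hg.cat_obj)) := by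
    refine hoEq_comp (hF _) (Holim_kan hK1) (Holim_kan hK2) (hF' _ _ _ _ hg) ?_
    exact Holim_hoEq hK1 hK2 _ (fun j => hφ (op j.unop.a))
  rw [compare_square] at h1
  refine hoEq_of_comp_right (hF _) (hYK _) (Holim_kan hK2) ?_ h1
  exact (compare_up_iff _ _ _ _ _).2 (Pool.Agent.Helper91.FL17a.YD_gauntDescent hD hc _ _ _ _ hg)

/-- The essential image of `Y`, in presheaves of large simplicial sets. -/
theorem main (hrep : ∀ θ : Th n, IsCat n (rep θ)) (hT : KnownTheorem n) (hG : KnownGaunt n)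
    {F : PSh n} (hF : F.Kan) :
    (F.GauntDescent ∧ F.EssSmall) ↔
      ∃ D : SP (Gn n), Flagged D ∧ PSh.Equiv F (upPSh (YD D)) := by
  constructor
  · rintro ⟨hF', hs⟩
    obtain ⟨Z, i, hm, hZ, hi⟩ := Pool.Agent.Helper81.FLQ.exists_small (F.restr hrep)
      (fun a => hF _) (fun a => hs _)
    obtain ⟨D, hD, f, hf⟩ := (hT.2 Z hZ).1 (segal_small hrep hF hF' hG hZ i hi)
    obtain ⟨g, hg⟩ := injFib_up (Pool.Agent.Helper36.FL.ND_injFib hD.inj) i
      ⟨hm, fun a K _ => pre_hoEq (hi a) K⟩ (upPm f)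
    have hN : ∀ a, SSet.KanComplex ((ND D).obj a) := fun a =>
      Pool.Agent.Helper91.FL17a.YD_kan hD.inj ⟨rep a.unop, hrep _⟩
    have hg' : ∀ a, HoEq (g.app a) := by
      intro a
      have h1 : i.app a ≫ g.app a = (upPm f).app a := by
        rw [← hg]
        rfl
      have h2 : HoEq (i.app a ≫ g.app a) := by
        rw [h1]
        exact (hoEq_ulift_iff _).2 (hf a)
      exact hoEq_of_comp_left (kan_up (hZ a)) (hF _) (kan_up (hN a)) (hi a) h2
    refine ⟨D, hD, ofRestr hrep g, fun C => ?_⟩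
    refine hoEq_of_restr hrep hF hF' hD.inj hD.cat _ (fun a => ?_) C
    rw [toRestr_ofRestr]
    exact hg' a
  · rintro ⟨D, hD, φ, hφ⟩
    refine ⟨?_, fun C => ⟨(YD D).obj C, φ.app C, hφ C⟩⟩
    intro J _ p C Λ hΛ
    exact compare_hoEq_of_equiv hF
      (fun C => kan_up (Pool.Agent.Helper91.FL17a.YD_kan hD.inj C)) φ hφ p hΛ.cat_obj hΛ.cat_pt Λ
      ((compare_up_iff _ _ _ _ _).2
        (Pool.Agent.Helper91.FL17a.YD_gauntDescent hD.inj hD.cat _ _ _ _ hΛ))

end Pool.Agent.Helper43.FLU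
end

/- Helper43.FLQ.B2 -/
section
/-!
# Project FLQ: presheaves on `Cat_n`
-/

open CategoryTheory MonoidalCategory CartesianMonoidalCategory Opposite

set_option autoImplicit false

namespace Pool.Agent.Helper43.FLQB

open FL (SP HoEq Th Wr)
open FLQ (SPU)

noncomputable section

variable {n : ℕ}

/-- From `FL.CatN` to `FLQ.CatN`. -/
def ofC (C : FL.CatN n) : FLQ.CatN n := ⟨C.1, (catIff n C.1).2 C.2⟩

/-- From `FLQ.CatN` to `FL.CatN`. -/
def toC (C : FLQ.CatN n) : FL.CatN n := ⟨C.X, (catIff n C.X).1 C.cat⟩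

/-- From `FLQ.PSh` to `FLU.PSh`. -/
def toPSh (F : FLQ.PSh n) : FLU.PSh n where
  obj C := F.obj (ofC C)
  act {C C' k} φ x := F.act (ofC C) (ofC C') (m := k.unop) (FLP.toMx φ) x
  act_nat {C C' k l} α φ x := F.act_res (ofC C) (ofC C') α.unop (FLP.toMx φ) x
  act_id {C k} x := F.act_id (ofC C) (m := k.unop) x
  act_comp {C C' C'' k} φ ψ x := F.act_comp (ofC C) (ofC C') (ofC C'') (m := k.unop)
    (FLP.toMx φ) (FLP.toMx ψ) x

theorem kan_iff (F : FLQ.PSh n) : F.Kan ↔ (toPSh F).Kan :=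
  ⟨fun h K => h (ofC K), fun h C => h (toC C)⟩

theorem essSmall_iff (F : FLQ.PSh n) : F.EssSmall ↔ (toPSh F).EssSmall :=
  ⟨fun h K => h (ofC K), fun h C => h (toC C)⟩

theorem act_eq (F : FLQ.PSh n) {C C' : FLQ.CatN n} {m : SimplexCategory} (ψ : C.Mx C' m)
    (x : FLQ.Sx (F.obj C') m) :
    F.act C C' ψ x = (toPSh F).act (C := toC C) (C' := toC C') (k := op m) (FLP.ofMx ψ) x :=
  congrArg (fun t => F.act C C' t x) (FLP.toMx_ofMx ψ).symm

/-- From `FLQ.PSh.Hom` to `FLU.PSh.Hom`. -/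
def toHomP {F G : FLQ.PSh n} (f : FLQ.PSh.Hom F G) : FLU.PSh.Hom (toPSh F) (toPSh G) where
  app K := f.app (ofC K)
  act {K K' k} φ x := f.act (ofC K) (ofC K') (m := k.unop) (FLP.toMx φ) x

/-- From morphisms `toPSh F ⟶ G'` to morphisms `F ⟶ G` for `G'` isomorphic to `toPSh G`. -/
theorem exists_hom {F G : FLQ.PSh n} {G' : FLU.PSh n}
    (e : ∀ K : FL.CatN n, (toPSh G).obj K ≅ G'.obj K)
    (he : ∀ {K K' : FL.CatN n} {k : SimplexCategoryᵒᵖ} (φ : FL.MpS K.1 K'.1 k.unop)
      (x : ((toPSh G).obj K').obj k), (e K).hom.app k ((toPSh G).act φ x) =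
        G'.act φ ((e K').hom.app k x)) (g : FLU.PSh.Hom (toPSh F) G') :
    ∃ h : FLQ.PSh.Hom F G, ∀ C, h.app C = g.app (toC C) ≫ (e (toC C)).inv := by
  refine ⟨{ app := fun C => g.app (toC C) ≫ (e (toC C)).inv, act := ?_ }, fun C => rfl⟩
  intro C C' m ψ x
  have h1 := g.act (C := toC C) (C' := toC C') (k := op m) (FLP.ofMx ψ) x
  have h2 := he (K := toC C) (K' := toC C') (k := op m) (FLP.ofMx ψ)
    ((e (toC C')).inv.app (op m) ((g.app (toC C')).app (op m) x))
  have h3 : (e (toC C')).hom.app (op m)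
      ((e (toC C')).inv.app (op m) ((g.app (toC C')).app (op m) x)) =
      (g.app (toC C')).app (op m) x :=
    ConcreteCategory.congr_hom (NatTrans.congr_app (e (toC C')).inv_hom_id (op m)) _
  rw [h3, ← h1] at h2
  have h4 := congrArg ((e (toC C)).inv.app (op m)) h2
  have h5 : ∀ y : ((toPSh G).obj (toC C)).obj (op m), (e (toC C)).inv.app (op m)
      ((e (toC C)).hom.app (op m) y) = y := fun y =>
    ConcreteCategory.congr_hom (NatTrans.congr_app (e (toC C)).hom_inv_id (op m)) y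
  refine Eq.trans ?_ (h4.symm.trans ((h5 _).trans ?_))
  · show (e (toC C)).inv.app (op m) ((g.app (toC C)).app (op m) (F.act C C' ψ x)) = _
    rw [act_eq F ψ x]
  · exact (act_eq G ψ _).symm

/-- Equivalences `F ⟶ G`: if `G'` is a presheaf on `FL.CatN n` with an isomorphism
`toPSh G ≅ G'` compatible with the actions. -/
theorem equiv_iff (F G : FLQ.PSh n) (G' : FLU.PSh n)
    (e : ∀ K : FL.CatN n, (toPSh G).obj K ≅ G'.obj K)
    (he : ∀ {K K' : FL.CatN n} {k : SimplexCategoryᵒᵖ} (φ : FL.MpS K.1 K'.1 k.unop)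
      (x : ((toPSh G).obj K').obj k), (e K).hom.app k ((toPSh G).act φ x) =
        G'.act φ ((e K').hom.app k x)) :
    FLQ.PSh.Equiv F G ↔ FLU.PSh.Equiv (toPSh F) G' := by
  constructor
  · rintro ⟨f, hf⟩
    refine ⟨⟨fun K => f.app (ofC K) ≫ (e K).hom, fun {K K' k} φ x => ?_⟩, fun K => ?_⟩
    · have h1 := f.act (ofC K) (ofC K') (m := k.unop) (FLP.toMx φ) x
      refine Eq.trans (congrArg ((e K).hom.app k) h1) ?_
      exact he φ _
    · exact Pool.Agent.Helper88.FL.hoEq_of_arrow_iso (Iso.refl _) (e K)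
        (Category.id_comp _).symm (hf (ofC K))
  · rintro ⟨φ, hφ⟩
    obtain ⟨h, hh⟩ := exists_hom e he φ
    refine ⟨h, fun C => ?_⟩
    rw [hh]
    exact Pool.Agent.Helper88.FL.hoEq_of_arrow_iso (Iso.refl _) (e (toC C)).symm
      (Category.id_comp _).symm (hφ (toC C))

theorem injFib_of {G : FLQ.PSh n} {G' : FLU.PSh n} (hG : G'.InjFib)
    (e : ∀ K : FL.CatN n, (toPSh G).obj K ≅ G'.obj K)
    (he : ∀ {K K' : FL.CatN n} {k : SimplexCategoryᵒᵖ} (φ : FL.MpS K.1 K'.1 k.unop)
      (x : ((toPSh G).obj K').obj k), (e K).hom.app k ((toPSh G).act φ x) =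
        G'.act φ ((e K').hom.app k x)) : G.InjFib := by
  intro F F' i hi hi' f
  obtain ⟨g, hg⟩ := hG _ _ (toHomP i) (fun C => hi _) (fun C => hi' _)
    { app := fun K => f.app (ofC K) ≫ (e K).hom
      act := fun {K K' k} φ x =>
        (congrArg ((e K).hom.app k) (f.act (ofC K) (ofC K') (m := k.unop)
          (FLP.toMx φ) x)).trans (he φ _) }
  obtain ⟨h, hh⟩ := exists_hom e he g
  refine ⟨h, fun C => ?_⟩
  rw [hh]
  have h1 := hg (toC C)
  refine (Category.assoc _ _ _).symm.trans ?_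
  exact (congrArg (· ≫ (e (toC C)).inv) h1).trans
    ((Category.assoc _ _ _).trans ((congrArg (f.app C ≫ ·) (e (toC C)).hom_inv_id).trans
      (Category.comp_id _)))

end

end Pool.Agent.Helper43.FLQB
end

/- Helper43.FLQ.B3 -/
section
/-!
# Project FLQ: cocones and comparison maps
-/

open CategoryTheory MonoidalCategory CartesianMonoidalCategory Opposite

set_option autoImplicit false

namespace Pool.Agent.Helper43.FLQB

open FL (SP HoEq Th Wr)
open FLQ (SPU)

noncomputable section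

variable {n : ℕ} {J : Type} [SmallCategory J]

/-- The diagram. -/
def toD (p : FLQ.PSh.Diag n J) : FLP.PSh.Diag n J := ⟨p.p, fun j => isCat_mp (p.cat j)⟩

/-- The category. -/
def toCP (C : FLQ.CatN n) : FLP.CatN n := ⟨C.X, isCat_mp C.cat⟩

variable {p : FLQ.PSh.Diag n J} {C : FLQ.CatN n}

/-- From cocones in large to cocones in small simplicial sets. -/
def dnC (Λ : FLQ.PSh.Cocone p C) : FLP.PSh.Cocone (toD p) (toCP C) where
  app j :=
    { app := fun k => ↾ fun (w : ((FLP.PSh.Wt J).obj j).obj k) =>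
        (((Λ.app j).app k (ULift.up w) : ULift.{1} _).down :
          (((FLP.PSh.rp (𝟭 (Th n)) (toCP C).X).along (toD p)).obj j).obj k)
      naturality := fun k l α => by
        refine ConcreteCategory.hom_ext _ _ fun w => ?_
        exact congrArg ULift.down (FLU.hom_natk Λ α (a := j)
          (ULift.up w : ULift.{1} (((FLP.PSh.Wt J).obj j).obj k))) }
  naturality j j' f := by
    refine NatTrans.ext (funext fun k => ConcreteCategory.hom_ext _ _ fun w => ?_)
    exact congrArg ULift.down (FLU.hom_nat Λ f (k := k)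
      (ULift.up w : ULift.{1} (((FLP.PSh.Wt J).obj j).obj k)))

/-- From cocones in small to cocones in large simplicial sets. -/
def upC (Λ : FLP.PSh.Cocone (toD p) (toCP C)) : FLQ.PSh.Cocone p C where
  app j :=
    { app := fun k => ↾ fun (w : ULift.{1} (((FLP.PSh.Wt J).obj j).obj k)) =>
        (ULift.up ((Λ.app j).app k w.down) :
          ULift.{1} ((((FLP.PSh.rp (𝟭 (Th n)) (toCP C).X).along (toD p)).obj j).obj k))
      naturality := fun k l α => by
        refine ConcreteCategory.hom_ext _ _ fun (w : ULift.{1} (((FLP.PSh.Wt J).obj j).obj k)) => ?_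
        exact congrArg ULift.up (FL.hom_natk Λ α (a := j) w.down) }
  naturality j j' f := by
    refine NatTrans.ext (funext fun k => ConcreteCategory.hom_ext _ _ fun
      (w : ULift.{1} (((FLP.PSh.Wt J).obj j).obj k)) => ?_)
    exact congrArg ULift.up (FL.hom_nat Λ f (k := k) w.down)

theorem dnC_upC (Λ : FLP.PSh.Cocone (toD p) (toCP C)) : dnC (upC Λ) = Λ := rfl

/-- The weights. -/
def upW (e : FLP.PSh.Wt J ≅ FL.W J) : FLQ.PSh.Wt J ≅ (FLU.WU J : SPU.{1} J) :=
  Functor.isoWhiskerRight e SSet.uliftFunctor.{1, 0}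

theorem along_eq (F : FLQ.PSh n) (p : FLQ.PSh.Diag n J) :
    (toPSh F).along p.p (fun j => (catIff n _).1 (p.cat j)) = F.along p := rfl

theorem compare_eq (e : FLP.PSh.Wt J ≅ FL.W J) (F : FLQ.PSh n)
    {Λ : FLQ.PSh.Cocone p C} {Λ' : FL.Hoco p.p ⟶ C.X} (h : FLP.Corr e (dnC Λ) Λ') :
    (toPSh F).compare p.p (fun j => (catIff n _).1 (p.cat j)) ((catIff n _).1 C.cat) Λ' ≫
      (mpIso (FLU.WU J) (F.along p)).hom ≫ (preIso (upW e) (F.along p)).hom = F.compare Λ := by
  refine NatTrans.ext (funext fun m => ConcreteCategory.hom_ext _ _ fun x => ?_)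
  refine NatTrans.ext (funext fun j => NatTrans.ext (funext fun k =>
    ConcreteCategory.hom_ext _ _ fun z => ?_))
  show F.act (p.at j.unop) C (FLP.toMx (FL.coneS Λ' ((e.hom.app j).app k (z.1 : ULift.{1} _).down)))
      ((F.obj C).map (SSet.stdSimplex.objEquiv z.2).op x) =
    F.act (p.at j.unop) C ((Λ.app j).app k z.1 : ULift.{1} _).down
      ((SSet.yonedaEquiv.symm x : _ ⟶ F.obj C).app k z.2)
  have h1 := h j.unop k.unop ((e.hom.app j).app k (z.1 : ULift.{1} _).down)
  have h2 : (e.inv.app j).app k ((e.hom.app j).app k (z.1 : ULift.{1} _).down) =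
      (z.1 : ULift.{1} _).down :=
    ConcreteCategory.congr_hom (NatTrans.congr_app (NatTrans.congr_app e.hom_inv_id j) k) _
  exact congrArg (fun t => F.act (p.at j.unop) C (m := k.unop) t
    ((F.obj C).map (SSet.stdSimplex.objEquiv z.2).op x))
    ((congrArg FLP.toMx h1).trans ((FLP.toMx_ofMx _).trans (congrArg ((dnC Λ).app j |>.app k) h2)))

theorem compare_iff (e : FLP.PSh.Wt J ≅ FL.W J) (F : FLQ.PSh n)
    {Λ : FLQ.PSh.Cocone p C} {Λ' : FL.Hoco p.p ⟶ C.X} (h : FLP.Corr e (dnC Λ) Λ') :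
    HoEq (F.compare Λ) ↔ HoEq ((toPSh F).compare p.p (fun j => (catIff n _).1 (p.cat j))
      ((catIff n _).1 C.cat) Λ') := by
  constructor
  · intro h1
    refine Pool.Agent.Helper88.FL.hoEq_of_arrow_iso (Iso.refl _)
      ((mpIso (FLU.WU J) (F.along p)).trans (preIso (upW e) (F.along p))).symm ?_ h1
    refine (Iso.comp_inv_eq _).2 ?_
    exact (compare_eq e F h).symm
  · intro h1
    refine Pool.Agent.Helper88.FL.hoEq_of_arrow_iso (Iso.refl _)
      ((mpIso (FLU.WU J) (F.along p)).trans (preIso (upW e) (F.along p))) ?_ h1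
    exact (compare_eq e F h).trans (Category.id_comp _).symm

theorem rp_eq {B : Type} [SmallCategory B] (t : B ⥤ Th n) (Z : SP B) :
    toPSh (FLQ.PSh.rp t Z) =
      FLU.upPSh (FLP.toPSh (FLP.catIff n) (FLP.PSh.rp t Z)) := rfl

theorem rp_compare_iff (e : FLP.PSh.Wt J ≅ FL.W J)
    {Λ : FLQ.PSh.Cocone p C} {Λ' : FL.Hoco p.p ⟶ C.X} (h : FLP.Corr e (dnC Λ) Λ') (i : ℕ)
    (Z : FLQ.CatN n) :
    HoEq ((FLQ.PSh.rp (FL.tr n i) Z.X).compare Λ) ↔
      HoEq (FL.Mp.pre (Functor.whiskerLeft (FL.tr n i).op Λ') Z.X) := by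
  rw [compare_iff e _ h, rp_eq]
  refine (FLU.compare_up_iff _ _ _ _ _).trans ?_
  refine ((FLP.hyp (FLP.catIff n)).compare_iff e _ h).symm.trans ?_
  exact (FLP.hyp (FLP.catIff n)).rp_compare_iff e h i (toCP Z)

theorem gauntDescent_iff (F : FLQ.PSh n) : F.GauntDescent ↔ (toPSh F).GauntDescent := by
  constructor
  · intro h J _ p C Λ' hΛ
    obtain ⟨e⟩ := (FLP.hyp (FLP.catIff n)).exists_wtIso J
    let P : FLQ.PSh.Diag n J := ⟨p, fun j => (catIff n _).2 (hΛ.cat_obj j)⟩
    let K : FLQ.CatN n := ⟨C, (catIff n _).2 hΛ.cat_pt⟩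
    obtain ⟨Λ, hc⟩ := ((FLP.hyp (FLP.catIff n)).exists_corr e (toD P) (toCP K)).2 Λ'
    have hc' : FLP.Corr e (dnC (upC (p := P) (C := K) Λ)) Λ' := hc
    have hg : FLQ.PSh.IsGaunt (upC (p := P) (C := K) Λ) := fun i hi Z =>
      (rp_compare_iff e hc' i Z).2 (hΛ.colim i hi Z.X ((catIff n _).1 Z.cat))
    exact (compare_iff e F hc').1 (h J P K _ hg)
  · intro h J _ P K Λ hΛ
    obtain ⟨e⟩ := (FLP.hyp (FLP.catIff n)).exists_wtIso J
    obtain ⟨Λ', hc⟩ := ((FLP.hyp (FLP.catIff n)).exists_corr e (toD P) (toCP K)).1 (dnC Λ)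
    have hg : FL.IsGaunt P.p Λ' := ⟨fun j => (catIff n _).1 (P.cat j), (catIff n _).1 K.cat,
      fun i hi Z hZ => (rp_compare_iff e hc i ⟨Z, (catIff n _).2 hZ⟩).1
        (hΛ i hi ⟨Z, (catIff n _).2 hZ⟩)⟩
    exact (compare_iff e F hc).2 (h J P.p K.X Λ' hg)

end

end Pool.Agent.Helper43.FLQB
end

/- Helper43.FLQ.B4 -/
section
/-!
# Project FLQ: the restricted Yoneda functor and the conjecture
-/

open CategoryTheory MonoidalCategory CartesianMonoidalCategory Opposite

set_option autoImplicit false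

namespace Pool.Agent.Helper43.FLQB

open FL (SP HoEq Th Wr)
open FLQ (SPU)

noncomputable section

variable {n : ℕ}

theorem yd_eq (D : SP (FLQ.Gn n)) :
    toPSh (FLQ.YD D) = FLU.upPSh (FLP.toPSh (FLP.catIff n) (FLP.YD D)) := rfl

theorem exists_ydIso (D : SP (FLQ.Gn n)) :
    ∃ e : ∀ K : FL.CatN n, (toPSh (FLQ.YD D)).obj K ≅ (FLU.upPSh (FL.YD D)).obj K,
      ∀ {K K' : FL.CatN n} {k : SimplexCategoryᵒᵖ} (φ : FL.MpS K.1 K'.1 k.unop)
        (x : ((toPSh (FLQ.YD D)).obj K').obj k),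
        (e K).hom.app k ((toPSh (FLQ.YD D)).act φ x) =
          (FLU.upPSh (FL.YD D)).act φ ((e K').hom.app k x) := by
  obtain ⟨e, he⟩ := Pool.Agent.Helper45.FLPYD.exists_ydIso (FLP.catIff n) D
  refine ⟨fun K => SSet.uliftFunctor.{1, 0}.mapIso (e K), ?_⟩
  intro K K' k φ x
  exact congrArg ULift.up (he φ (ULift.down x))

section Map

variable (D D' : SP (FLQ.Gn n))

/-- From `FLQ` to `FLP`. -/
def dnM {m : SimplexCategory} (ψ : FLQ.PSh.MapS (FLQ.YD D) (FLQ.YD D') m) :
    FLP.PSh.MapS (FLP.YD D) (FLP.YD D') m where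
  app C {l} s x := (ψ.app ⟨C.X, isCat_mpr C.cat⟩ s (ULift.up x) : ULift.{1} _).down
  nat C {l k} α s x := congrArg ULift.down (ψ.nat ⟨C.X, isCat_mpr C.cat⟩ α s (ULift.up x))
  act C C' {l} s φ x := congrArg ULift.down
    (ψ.act ⟨C.X, isCat_mpr C.cat⟩ ⟨C'.X, isCat_mpr C'.cat⟩ s φ (ULift.up x))

/-- From `FLP` to `FLQ`. -/
def upM {m : SimplexCategory} (ψ : FLP.PSh.MapS (FLP.YD D) (FLP.YD D') m) :
    FLQ.PSh.MapS (FLQ.YD D) (FLQ.YD D') m where
  app C {l} s x := ULift.up (ψ.app ⟨C.X, isCat_mp C.cat⟩ s (x : ULift.{1} _).down)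
  nat C {l k} α s x := congrArg ULift.up
    (ψ.nat ⟨C.X, isCat_mp C.cat⟩ α s (x : ULift.{1} _).down)
  act C C' {l} s φ x := congrArg ULift.up
    (ψ.act ⟨C.X, isCat_mp C.cat⟩ ⟨C'.X, isCat_mp C'.cat⟩ s φ (x : ULift.{1} _).down)

/-- The isomorphism of mapping spaces. -/
def mapIso : FLQ.PSh.Map (FLQ.YD D) (FLQ.YD D') ≅ FLP.PSh.Map (FLP.YD D) (FLP.YD D') where
  hom := { app := fun m => ↾ fun (ψ : FLQ.PSh.MapS (FLQ.YD D) (FLQ.YD D') m.unop) =>
             dnM D D' ψ
           naturality := fun _ _ _ => rfl }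
  inv := { app := fun m => ↾ fun (ψ : FLP.PSh.MapS (FLP.YD D) (FLP.YD D') m.unop) =>
             upM D D' ψ
           naturality := fun _ _ _ => rfl }
  hom_inv_id := rfl
  inv_hom_id := rfl

lemma square : FLQ.YDmap D D' ≫ (mapIso D D').hom = FLP.YDmap D D' := rfl

theorem yDmap_iff : HoEq (FLQ.YDmap D D') ↔ HoEq (FL.YDmap D D') := by
  refine Iff.trans ?_ (Pool.Agent.Helper45.FLPYD.yDmap_iff (FLP.catIff n) D D')
  constructor
  · exact Pool.Agent.Helper88.FL.hoEq_of_arrow_iso (Iso.refl _) (mapIso D D') (square D D')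
  · exact Pool.Agent.Helper88.FL.hoEq_of_arrow_iso (Iso.refl _) (mapIso D D').symm rfl

end Map

theorem conjecture_of (hT : FL.KnownTheorem n) (hG : FL.KnownGaunt n) : FLQ.Conjecture n := by
  refine ⟨fun D hD => ?_, fun D D' hD hD' => ?_, fun F hF => ?_⟩
  · obtain ⟨e, he⟩ := exists_ydIso D
    exact injFib_of (FLU.YD_injFib Pool.Agent.Helper58.FLS.hrep D hD.inj) e he
  · exact (yDmap_iff D D').2 ((Pool.Agent.Helper58.FLS.YDmap_iff D D').2
      (hT.1 D D' ((flagged_iff D).1 hD) ((flagged_iff D').1 hD')))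
  · rw [gauntDescent_iff, essSmall_iff,
      FLU.main Pool.Agent.Helper58.FLS.hrep hT hG ((kan_iff F).1 hF)]
    refine exists_congr fun D => and_congr (flagged_iff D).symm ?_
    obtain ⟨e, he⟩ := exists_ydIso D
    exact (equiv_iff F (FLQ.YD D) _ e he).symm

end

end Pool.Agent.Helper43.FLQB
end

/- Helper64.FL2.Desc -/
section
/-!
# FL2-F9: Segal descent and locality
-/

open CategoryTheory MonoidalCategory Opposite FL

set_option autoImplicit false

namespace Pool.Agent.Helper64.FL2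

open Pool.Agent.Helper88.FL Pool.Agent.Helper46.FLb

section

variable {A : Type} [SmallCategory A]

theorem yoOut_yoIn (Z : SP A) (a : Aᵒᵖ) : yoOut Z a ≫ yoIn Z a = 𝟙 _ := by
  ext k φ
  refine MpS.ext ?_
  funext b l s u
  have h1 := MpS.nat_right (φ : MpS (rep a.unop) Z k.unop) a s.op (𝟙 _)
    (𝟙 a.unop : a.unop ⟶ a.unop)
  have h2 := MpS.nat_left (φ : MpS (rep a.unop) Z k.unop) (Quiver.Hom.op (u : b.unop ⟶ a.unop)) l s
    (𝟙 a.unop : a.unop ⟶ a.unop)
  refine (congrArg ((Z.map (Quiver.Hom.op (u : b.unop ⟶ a.unop))).app l) h1.symm).trans ?_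
  have e1 : s.op.unop ≫ 𝟙 k.unop = s := Category.comp_id s
  rw [e1]
  refine Eq.trans h2.symm ?_
  refine congrArg (MpS.app (φ : MpS (rep a.unop) Z k.unop) b l s) ?_
  exact Category.comp_id (u : b.unop ⟶ a.unop)

theorem yoIn_hoEq (Z : SP A) (a : Aᵒᵖ) : HoEq (yoIn Z a) := by
  have : IsIso (yoIn Z a) := ⟨yoOut Z a, yoIn_yoOut Z a, yoOut_yoIn Z a⟩
  exact hoEq_of_isIso _

theorem sieveCompare_nat {X Y : SP A} (η : X ⟶ Y) {a : A} (S : Sieve a) :
    sieveCompare X S ≫ Mp.post (W (SvObj S)) (Functor.whiskerLeft (svProj S).op η) =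
      η.app (op a) ≫ sieveCompare Y S := by
  ext k x
  refine MpS.ext ?_
  funext j l s w
  refine (hom_nat η j.unop.f.op _).trans ?_
  exact congrArg ((Y.map j.unop.f.op).app l) (hom_natk η s.op x)

/-- Yoneda for the diagram of a sieve. -/
noncomputable def yoDiag (Y : SP A) {a : A} (S : Sieve a) :
    (svProj S).op ⋙ Y ⟶ mpDiag (svDiag S) Y where
  app j := yoIn Y (op j.unop.b)
  naturality i j f := by
    ext k x
    refine MpS.ext ?_
    funext c m t u
    refine (congrArg ((Y.map (Quiver.Hom.op (u : c.unop ⟶ j.unop.b))).app m)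
      (sp_nat Y f.unop.1.op t.op x)).symm.trans ?_
    exact (sp_comp Y f.unop.1.op (Quiver.Hom.op (u : c.unop ⟶ j.unop.b)) _).symm

theorem desc_aux (Y : SP A) {a b c d : A} (f : b ⟶ a) (u : b ⟶ d) (g : d ⟶ a) (h : u ≫ g = f)
    (y : c ⟶ b) {k l m : SimplexCategory} (s : l ⟶ k) (t : m ⟶ l)
    (x : (Y.obj (op a)).obj (op k)) :
    (Y.map y.op).app (op m) ((Y.obj (op b)).map t.op ((Y.map f.op).app (op l)
      ((Y.obj (op a)).map s.op x))) =
    (Y.map ((y ≫ u) ≫ g).op).app (op m) ((Y.obj (op a)).map (t ≫ s).op x) := by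
  rw [Category.assoc, h, op_comp, op_comp, sp_comp, sset_comp, ← sp_nat]

theorem sieveCompare_yo (Y : SP A) {a : A} (S : Sieve a)
    (e : Mp (Hoco (svDiag S)) Y ≅ Holim (mpDiag (svDiag S) Y))
    (he : ∀ (k : SimplexCategoryᵒᵖ) (ψ : MpS (Hoco (svDiag S)) Y k.unop) (j : (SvObj S)ᵒᵖ)
        (l : SimplexCategoryᵒᵖ)
        (s : l.unop ⟶ k.unop) (w : WS j.unop l.unop) (a : Aᵒᵖ) (m : SimplexCategoryᵒᵖ)
        (t : m.unop ⟶ l.unop) (y : (((svDiag S).obj j.unop).obj a).obj m),
        ((e.hom.app k ψ : MpS (W (SvObj S)) (mpDiag (svDiag S) Y) k.unop).app j l s w :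
          MpS ((svDiag S).obj j.unop) Y l.unop).app a m t y =
        ψ.app a m (t ≫ s) ⟨w.σ.res t, (((svDiag S).map (w.u ≫ w.σ.zeroTo t)).app a).app m y⟩) :
    sieveCompare Y S ≫ Mp.post (W (SvObj S)) (yoDiag Y S) =
      yoIn Y (op a) ≫ Mp.pre (svCone S) Y ≫ e.hom := by
  ext k x
  refine MpS.ext ?_
  funext j l s w
  refine MpS.ext ?_
  funext c m t y
  refine Eq.trans ?_ (he k _ j l s w c m t y).symm
  have h := (WS.u (w : WS j.unop l.unop) ≫ Chain.zeroTo (WS.σ (w : WS j.unop l.unop)) t).2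
  exact desc_aux Y j.unop.f
    (WS.u (w : WS j.unop l.unop) ≫ Chain.zeroTo (WS.σ (w : WS j.unop l.unop)) t).1
    (((WS.σ (w : WS j.unop l.unop)).res t).obj 0).f h (y : c.unop ⟶ j.unop.b) s t x

theorem sieveCompare_iff_loc {Y : SP A} (hY : InjFib Y) {a : A} (S : Sieve a) :
    HoEq (sieveCompare Y S) ↔ Loc Y (sieveIncl S) := by
  obtain ⟨e, he⟩ := Helper61FL.exists_holimIso (svDiag S) Y
  obtain ⟨π, hπ, hπ'⟩ := Pool.Agent.Helper64.FLCan.svCone_factor S
  have hK := Pool.Agent.Helper91.FL2.objKan_of_injFib hY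
  have hK1 : ObjKan ((svProj S).op ⋙ Y) := fun j => hK _
  have hM : ∀ P : SP A, SSet.KanComplex (Mp P Y) := fun P => Pool.Agent.Helper83.FL4.Mp_kan P hY
  have hK2 : ObjKan (mpDiag (svDiag S) Y) := fun j => hM _
  have hH1 := Pool.Agent.Helper94.FL.Holim_kan hK1
  have hH2 := Pool.Agent.Helper94.FL.Holim_kan hK2
  have h1 : HoEq (Mp.post (W (SvObj S)) (yoDiag Y S)) :=
    Pool.Agent.Helper94.FL.Holim_hoEq hK1 hK2 _ fun j => yoIn_hoEq Y _
  have h2 := sieveCompare_yo Y S e he
  have h3 : HoEq (Mp.pre π Y) := Pool.Agent.Helper91.FL2.preHoEq π hπ' hY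
  have h4 : Mp.pre (svCone S) Y = Mp.pre (sieveIncl S) Y ≫ Mp.pre π Y := by rw [← hπ]; rfl
  have h5 : HoEq e.hom := hoEq_of_isIso _
  have h6 := yoIn_hoEq Y (op a)
  constructor
  · intro h
    have h7 := hoEq_comp (hK _) hH1 hH2 h h1
    rw [h2] at h7
    have h8 := hoEq_of_comp_left (hK _) (hM _) hH2 h6 h7
    have h9 := hoEq_of_comp_right (hM _) (hM _) hH2 h5 h8
    rw [h4] at h9
    exact hoEq_of_comp_right (hM _) (hM _) (hM _) h3 h9
  · intro h
    have h9 : HoEq (Mp.pre (svCone S) Y) := by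
      rw [h4]
      exact hoEq_comp (hM _) (hM _) (hM _) h h3
    have h8 := hoEq_comp (hM _) (hM _) hH2 h9 h5
    have h7 := hoEq_comp (hK _) (hM _) hH2 h6 h8
    rw [← h2] at h7
    exact hoEq_of_comp_right (hK _) hH1 hH2 h1 h7

theorem sieveCompare_iff {X Y : SP A} (hX : ObjKan X) (hY : ObjKan Y) (η : X ⟶ Y)
    (h : ObjHoEq η) {a : A} (S : Sieve a) :
    HoEq (sieveCompare X S) ↔ HoEq (sieveCompare Y S) := by
  have hK1 : ObjKan ((svProj S).op ⋙ X) := fun j => hX _
  have hK2 : ObjKan ((svProj S).op ⋙ Y) := fun j => hY _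
  have hH1 := Pool.Agent.Helper94.FL.Holim_kan hK1
  have hH2 := Pool.Agent.Helper94.FL.Holim_kan hK2
  have h1 : HoEq (Mp.post (W (SvObj S)) (Functor.whiskerLeft (svProj S).op η)) :=
    Pool.Agent.Helper94.FL.Holim_hoEq hK1 hK2 _ fun j => h _
  have h2 := sieveCompare_nat η S
  constructor
  · intro h3
    have h4 := hoEq_comp (hX _) hH1 hH2 h3 h1
    rw [h2] at h4
    exact hoEq_of_comp_left (hX _) (hY _) hH2 (h _) h4
  · intro h3
    have h4 := hoEq_comp (hX _) (hY _) hH2 (h _) h3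
    rw [← h2] at h4
    exact hoEq_of_comp_right (hX _) hH1 hH2 h1 h4

end

theorem segalDescent_iff {n : ℕ} {X : SP (Th n)} (hX : ObjKan X) :
    SegalDescent X ↔ Sg n ((RR (Th n)).obj X) := by
  have hI : InjFib ((RR (Th n)).obj X) := Helper41FL2.RR_injFib hX
  have hK : ObjKan ((RR (Th n)).obj X) := Pool.Agent.Helper91.FL2.objKan_of_injFib hI
  have hη : ObjHoEq ((RR (Th n)).η X) := Helper41FL2.RR_objHoEq hX
  constructor
  · intro h
    exact ⟨hI, fun θ S hS => (sieveCompare_iff_loc hI S).1 ((sieveCompare_iff hX hK _ hη S).1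
      (h θ S hS))⟩
  · intro h θ S hS
    exact (sieveCompare_iff hX hK _ hη S).2 ((sieveCompare_iff_loc hI S).2 (h.2 θ S hS))

end Pool.Agent.Helper64.FL2
end

/- Helper64.FL2.SurjFinal -/
section
/-!
# FL2-F6: surjectivity on `k`-morphisms, unconditionally
-/

open CategoryTheory MonoidalCategory Opposite FL

set_option autoImplicit false

namespace Helper64FL2

theorem surjHyp : SurjHyp where
  sg_succ_iff := fun hX O hO => Helper41FL2.sg_succ_iff hX O hO
  FHm_injFib := fun hD x y => Helper41FL2.FHm_injFib hD x y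
  FHm_levelMap := fun D x y _ _ h h' => Helper41FL2.FHm_levelMap D x y h h'
  exists_NDHm := fun f x y => Pool.Agent.Helper7.FL2.exists_NDHm f x y
  vt_filt := fun X i => Pool.Agent.Helper7.FL2.vt_filt X i
  ES_NDHm := fun f x y f' hf' i a b ha hb =>
    Pool.Agent.Helper7.FL2.ES_NDHm f x y f' hf' i a b ha hb

theorem surj_of_ES {n : ℕ} {X : SP (Th n)} {D : SP (Gn n)} (hX : Sg n X)
    (hD : InjFib D) (f : filt X ⟶ D) (h : ∀ i : Fin (n + 1), ES n i (levelHom f i))
    (i j : Fin (n + 1)) (hij : i ≤ j) (k : ℕ) (hk : k ≤ i.1) (P Q : SP (Th n)) (b : P ⟶ Q)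
    (hb : IsBd n k b) (x : P ⟶ level D i) (y : Q ⟶ level D j)
    (hxy : x ≫ levelMap D hij = b ≫ y) :
    ∃ z : Q ⟶ level D i, b ≫ z = x ∧ z ≫ levelMap D hij = y :=
  surj_of_ES_of surjHyp hX hD f h i j hij k hk P Q b hb x y hxy

end Helper64FL2
end

/- Helper94.FL2.Eps -/
section
/-!
# Project FL, stage 2, module F4

`ES_eps`: the counit `filt (ND D) ⟶ D` of a flagged category is, at level `i`, surjective on
`k`-morphisms for `k < i` and an equivalence on spaces of `i`-morphisms.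
`objHoEq_flat`: characterisation of the maps `filt X ⟶ D` whose adjoint is an equivalence.
-/

open CategoryTheory MonoidalCategory Opposite

set_option autoImplicit false

namespace Pool.Agent.Helper94.FL2

open _root_.FL Helper53FL2 Helper41FL2

open Pool.Agent.Helper88.FL (hoEq_of_isIso hoEq_of_arrow_iso)

open Pool.Agent.Helper36.FL (ND_injFib)

open Pool.Agent.Helper61.FL2 (spLoc_iff objHoEq_of_Hm ES_of_arrow_iso)

open Pool.Agent.Helper7.FL2 (ND_pt exists_NDHm vt_filt ES_NDHm)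

/-! ### Elementary facts -/

theorem cn_refl (B : SSet.{0}) (b : B.obj (op (SimplexCategory.mk 0))) : Cn B b b := by
  refine ⟨cst B b _, ?_, ?_⟩
  · exact (cst_map B b _).trans (cst_zero B b)
  · exact (cst_map B b _).trans (cst_zero B b)

section

variable {n : ℕ}

/-- `f = filt (flat f) ≫ eps D`. -/
theorem filt_flat_eps {X : SP (Th n)} {D : SP (Gn n)} (f : filt X ⟶ D) :
    (Functor.whiskerLeft (tower n).op (flat f) : filt X ⟶ filt (ND D)) ≫ eps D = f := by
  refine NatTrans.ext (funext fun g => ?_)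
  refine NatTrans.ext (funext fun k => ?_)
  refine ConcreteCategory.hom_ext _ _ fun x => ?_
  show (f.app g).app k ((X.map (Quiver.Hom.op (𝟙 ((tower n).obj g.unop)))).app k
    ((X.obj (op ((tower n).obj g.unop))).map (𝟙 k.unop).op x)) = (f.app g).app k x
  refine congrArg ((f.app g).app k) ?_
  refine Eq.trans ?_ (sp_id X x)
  exact congrArg ((X.map (Quiver.Hom.op (𝟙 ((tower n).obj g.unop)))).app k) (sset_id _ x)

/-- `flat (eps D) = 𝟙`. -/
theorem flat_eps (D : SP (Gn n)) : flat (eps D) = 𝟙 (ND D) := by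
  refine NatTrans.ext (funext fun a => ?_)
  refine NatTrans.ext (funext fun k => ?_)
  refine ConcreteCategory.hom_ext _ _ fun (φ : MpS (filt (rep a.unop)) D k.unop) => ?_
  refine MpS.ext ?_
  funext g m t (u : (tower n).obj g.unop ⟶ a.unop)
  show φ.app g m (𝟙 _ ≫ t) (𝟙 _ ≫ u) = φ.app g m t u
  rw [Category.id_comp, Category.id_comp]

end

section

variable {C : Type} [SmallCategory C]

theorem isIso_HmMap_of_eq {X : SP (Wr C)} (f : X ⟶ X) (h : f = 𝟙 X) (x y : Vt X) :
    IsIso (HmMap f x y) := by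
  subst h
  exact (inferInstance : IsIso (𝟙 (Hm X x y)))

/-- The map from the terminal presheaf given by a vertex. -/
noncomputable def ofVt (Z : SP (Wr C)) (y : Vt Z) : one (Wr C) ⟶ Z where
  app a :=
    { app := fun k => ↾ fun _ => (Z.map (Wr.toPt a.unop).op).app k (cst _ y k)
      naturality := fun k l α => by
        refine ConcreteCategory.hom_ext _ _ fun _ => ?_
        show (Z.map (Wr.toPt a.unop).op).app l (cst _ y l) =
          (Z.obj a).map α ((Z.map (Wr.toPt a.unop).op).app k (cst _ y k))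
        rw [← sp_nat, cst_map] }
  naturality a b f := by
    refine NatTrans.ext (funext fun k => ?_)
    refine ConcreteCategory.hom_ext _ _ fun _ => ?_
    show (Z.map (Wr.toPt b.unop).op).app k (cst _ y k) =
      (Z.map f).app k ((Z.map (Wr.toPt a.unop).op).app k (cst _ y k))
    rw [← sp_comp]
    refine congrArg (fun t => (Z.map t).app k (cst _ y k)) ?_
    refine Quiver.Hom.unop_inj ?_
    exact Wr.toPt_unique _ _

theorem ofVt_pt (Z : SP (Wr C)) (y : Vt Z) :
    ((ofVt Z y).app (op Wr.pt)).app (op (SimplexCategory.mk 0)) PUnit.unit = y := by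
  show (Z.map (Wr.toPt (Wr.pt : Wr C)).op).app _ (cst _ y _) = y
  have e : Wr.toPt (Wr.pt : Wr C) = 𝟙 _ := Wr.toPt_unique _ _
  rw [e, cst_zero]
  exact sp_id Z y

theorem empt_hom_ext {A : Type} [SmallCategory A] {Z : SP A} (f g : empt A ⟶ Z) : f = g := by
  refine NatTrans.ext (funext fun a => ?_)
  refine NatTrans.ext (funext fun k => ?_)
  refine ConcreteCategory.hom_ext _ _ fun (z : PEmpty) => z.elim

/-- The map from the empty presheaf. -/
noncomputable def ofEmpt {A : Type} [SmallCategory A] (Z : SP A) : empt A ⟶ Z where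
  app a :=
    { app := fun k => ↾ fun (z : PEmpty) => z.elim
      naturality := fun k l α => by
        refine ConcreteCategory.hom_ext _ _ fun (z : PEmpty) => z.elim }
  naturality a b f := by
    refine NatTrans.ext (funext fun k => ?_)
    refine ConcreteCategory.hom_ext _ _ fun (z : PEmpty) => z.elim

end

theorem isIso_wl {A B : Type} [SmallCategory A] [SmallCategory B] (F : A ⥤ B) {X Y : SP B}
    (f : X ⟶ Y) [IsIso f] :
    IsIso (Functor.whiskerLeft F.op f : (F.op ⋙ X : SP A) ⟶ F.op ⋙ Y) := by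
  have h : ∀ a, IsIso ((Functor.whiskerLeft F.op f : (F.op ⋙ X : SP A) ⟶ F.op ⋙ Y).app a) :=
    fun a => (inferInstance : IsIso (f.app (F.op.obj a)))
  exact NatIso.isIso_of_isIso_app _

theorem isIso_levelHom {n : ℕ} {X Y : SP (Gn n)} (f : X ⟶ Y) [IsIso f] (i : Fin (n + 1)) :
    IsIso (levelHom f i) := isIso_wl (Prod.sectL (Th n) (op i)) f

/-! ### F4: `ES_eps` -/

theorem ES_eps {n : ℕ} {D : SP (Gn n)} (hD : Flagged D) (i : Fin (n + 1)) :
    ES n i (levelHom (eps D) i) := by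
  induction n with
  | zero =>
    obtain rfl : i = 0 := Fin.ext (by omega)
    have := ND_pt D
    exact hoEq_of_isIso ((eps D).app (op (ptT 0, op 0)))
  | succ n ih =>
    refine Fin.cases ?_ (fun j => ?_) i
    · have := ND_pt D
      exact hoEq_of_isIso ((eps D).app (op (ptT (n + 1), op 0)))
    · refine ⟨fun y => ?_, fun a b => ?_⟩
      · obtain ⟨z, -, hz⟩ := hD.surj 0 j.succ (Fin.zero_le _) 0 (le_refl _) _ _ _
          (IsBd.zero (n + 1)) (ofEmpt _) (ofVt (C := Th n) _ y) (empt_hom_ext _ _)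
        have hiso := ND_pt D
        -- the vertex of `level D 0`
        have h1 : ∃ w : (((filt (ND D)).obj (op (ptT (n + 1), op 0))).obj
            (op (SimplexCategory.mk 0))),
            ((eps D).app (op (ptT (n + 1), op 0))).app _ w =
              (z.app (op (ptT (n + 1)))).app (op (SimplexCategory.mk 0)) PUnit.unit := by
          have hiso2 : IsIso (((eps D).app (op (ptT (n + 1), op 0))).app
            (op (SimplexCategory.mk 0))) := inferInstance
          have hb := (isIso_iff_bijective _).mp hiso2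
          exact hb.2 _
        obtain ⟨w, hw⟩ := h1
        refine ⟨vtMap (C := Th n) (levelMap (filt (ND D)) (Fin.zero_le j.succ)) w, ?_⟩
        have h2 : vtMap (C := Th n) (levelHom (eps D) j.succ)
            (vtMap (C := Th n) (levelMap (filt (ND D)) (Fin.zero_le j.succ)) w) = y := by
          refine (hom_nat (eps D) ((NatTrans.op (secMap (Fin.zero_le j.succ))).app
            (op (ptT (n + 1)))) w).trans ?_
          refine (congrArg (((D.map ((NatTrans.op (secMap (Fin.zero_le j.succ))).app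
            (op (ptT (n + 1)))))).app _) hw).trans ?_
          have h3 := congrArg (fun t : one (Th (n + 1)) ⟶ level D j.succ =>
            (t.app (op (ptT (n + 1)))).app (op (SimplexCategory.mk 0)) PUnit.unit) hz
          exact h3.trans (ofVt_pt (C := Th n) _ y)
        rw [h2]
        exact cn_refl _ _
      · obtain ⟨f', hf', e, he⟩ := exists_NDHm (eps D)
          (((ND D).map ((trUnit (n + 1) j.succ).app (ptT (n + 1))).op).app _ a)
          (((ND D).map ((trUnit (n + 1) j.succ).app (ptT (n + 1))).op).app _ b)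
        have h1 := (ES_NDHm (eps D) _ _ f' hf' j a b rfl rfl).2.2 j
        refine h1.mpr ?_
        have h2 : IsIso (flat f') := by
          have h3 : flat f' = HmMap (C := Th n) (flat (eps D)) _ _ ≫ e.inv := by
            rw [← he, Category.assoc, Iso.hom_inv_id, Category.comp_id]
          rw [h3]
          have := isIso_HmMap_of_eq (C := Th n) (flat (eps D)) (flat_eps D)
            (((ND D).map ((trUnit (n + 1) j.succ).app (ptT (n + 1))).op).app _ a)
            (((ND D).map ((trUnit (n + 1) j.succ).app (ptT (n + 1))).op).app _ b)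
          infer_instance
        have h4 := ih (FHm_flagged hD (vf (eps D)
          (((ND D).map ((trUnit (n + 1) j.succ).app (ptT (n + 1))).op).app _ a)) (vf (eps D)
          (((ND D).map ((trUnit (n + 1) j.succ).app (ptT (n + 1))).op).app _ b))) j
        have h5 := filt_flat_eps f'
        have h6 := isIso_wl (tower n) (flat f')
        have h7 := @isIso_levelHom _ (filt _) (filt _)
          (Functor.whiskerLeft (tower n).op (flat f')) h6 j
        refine ES_of_arrow_iso (asIso (levelHom (X := filt _) (Y := filt _)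
          (Functor.whiskerLeft (tower n).op (flat f')) j)).symm (Iso.refl _) ?_ h4
        rw [Iso.symm_hom, asIso_inv, Iso.refl_hom, Category.comp_id, IsIso.eq_inv_comp]
        exact congrArg (fun t => levelHom t j) h5

/-! ### F5: `objHoEq_flat` -/

theorem hoEq_of_comp_iso {P Q R : SSet.{0}} (u : P ⟶ Q) (v : Q ⟶ R) [IsIso v] (f : P ⟶ R)
    (w : u ≫ v = f) (h : HoEq f) : HoEq u := by
  refine hoEq_of_arrow_iso (Iso.refl _) (asIso v).symm ?_ h
  rw [Iso.refl_hom, Category.id_comp, Iso.symm_hom, asIso_inv, IsIso.comp_inv_eq]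
  exact w.symm

theorem flat_pt {n : ℕ} {X : SP (Th n)} {D : SP (Gn n)} (f : filt X ⟶ D)
    (h : HoEq (f.app (op (ptT n, op 0)))) :
    HoEq ((flat f).app (op ((tower n).obj (ptT n, op 0)))) := by
  have := ND_pt D
  refine @hoEq_of_comp_iso _ _ _ _ ((eps D).app (op (ptT n, op 0))) this _ ?_ h
  exact NatTrans.congr_app (filt_flat_eps f) (op (ptT n, op 0))

theorem cn_univ {n : ℕ} (X : SP (Th (n + 1))) (z : Vt (C := Th n) X) :
    ∃ x ∈ (Set.univ : Set (Vt (C := Th n) X)), Cn (X.obj (op (ptT (n + 1)))) x z :=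
  ⟨z, trivial, cn_refl _ _⟩

theorem objHoEq_flat {n : ℕ} {X : SP (Th n)} {D : SP (Gn n)} (hX : Sg n X) (hD : InjFib D)
    (hc : ∀ i, IsCat n (level D i)) (hN : Sg n (ND D)) (f : filt X ⟶ D)
    (h : ∀ i : Fin (n + 1), ES n i (levelHom f i)) : ObjHoEq (flat f) := by
  induction n with
  | zero =>
    intro a
    exact flat_pt f (h 0)
  | succ n ih =>
    have hX' := (sg_succ_iff hX.1 Set.univ (cn_univ X)).mp hX
    have hN' := (sg_succ_iff hN.1 Set.univ (cn_univ (ND D))).mp hN
    refine objHoEq_of_Hm (C := Th n) (InjFib.vfib hX.1) (InjFib.vfib hN.1)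
      ((spLoc_iff hX.1).mp hX'.1) ((spLoc_iff hN.1).mp hN'.1) (flat_pt f (h 0))
      Set.univ (cn_univ X) ?_
    intro x _ y _
    obtain ⟨f', hf', e, he⟩ := exists_NDHm f x y
    have he' : ObjHoEq e.hom := fun a => hoEq_of_isIso (e.hom.app a)
    have hNF : InjFib (ND (FHm D (vf f x) (vf f y))) := ND_injFib (FHm_injFib hD _ _)
    have key : ObjHoEq (flat f') := by
      refine ih (hX'.2 x trivial y trivial) (FHm_injFib hD _ _) (fun i => ?_) ?_ f' (fun i => ?_)
      · have h1 := isCat_iff.mp (hc i.succ)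
        have h2 := (sg_succ_iff h1.1.1 Set.univ (cn_univ (level D i.succ))).mp h1.1
        refine isCat_iff.mpr ⟨h2.2 (vlev D (vf f x) i.succ) trivial
          (vlev D (vf f y) i.succ) trivial, fun j => ?_⟩
        exact (cj_succ_iff h1.1.1 Set.univ (cn_univ (level D i.succ))).mp (h1.2 (j + 1))
          (vlev D (vf f x) i.succ) trivial (vlev D (vf f y) i.succ) trivial
      · have h1 := hN'.2 (vtMap (C := Th n) (flat f) x) trivial (vtMap (C := Th n) (flat f) y)
          trivial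
        exact (sg_of_objHoEq hNF h1.1 he').mpr h1
      · obtain ⟨a, ha⟩ := (vt_filt X i).2 x
        obtain ⟨b, hb⟩ := (vt_filt X i).2 y
        exact ((ES_NDHm f x y f' hf' i a b ha hb).2.2 i).mp ((h i.succ).2 a b)
    intro a
    rw [← he]
    exact hoEq_of_arrow_iso (Iso.refl _) ((Iso.app e a)) (by simp) (key a)

end Pool.Agent.Helper94.FL2
end

/- Helper58.FL2.FinalOf -/
section
/-! # F10: the theorem of Ayala and Francis and the conjecture, from the completion theorem -/

open CategoryTheory MonoidalCategory Opposite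

set_option autoImplicit false

namespace Pool.Agent.Helper58.FL2F

open _root_.FL

variable {n : ℕ}

/-- The statements of the last modules. -/
structure KDeps (n : ℕ) : Prop where
  Cp_isCat : ∀ {A : SP (Th n)} (_ : ObjKan A) (_ : Sg n ((RR (Th n)).obj A)),
    IsCat n ((Cp n n).obj A) ∧ ∃ e : (RR (Th n)).obj A ⟶ (Cp n n).obj A,
      (RR (Th n)).η A ≫ e = (Cp n n).η A ∧ ES n n e
  sg_tr : ∀ {X : SP (Th n)} (_ : Sg n X) (i : ℕ), Sg n ((RR (Th n)).obj ((tr n i).op ⋙ X))
  tr_down : ∀ {X Y : SP (Th n)} (_ : Sg n X) (_ : IsCat n Y) {i : ℕ}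
    (e : (tr n i).op ⋙ X ⟶ Y) (e' : (RR (Th n)).obj ((tr n i).op ⋙ X) ⟶ Y)
    (_ : (RR (Th n)).η _ ≫ e' = e) (_ : ES n n e'), ES n i e ∧ Truncated i Y
  tr_up : ∀ {X D : SP (Th n)} (_ : Sg n X) (_ : Sg n D) {i : ℕ} (_ : Truncated i D)
    (e : (tr n i).op ⋙ X ⟶ D) (e' : (RR (Th n)).obj ((tr n i).op ⋙ X) ⟶ D)
    (_ : (RR (Th n)).η _ ≫ e' = e) (_ : ES n i e), ES n n e'
  ES_loc : ∀ {X Y Z : SP (Th n)} (_ : Sg n X) (_ : Sg n Y) (_ : IsCat n Z) {f : X ⟶ Y}
    (_ : ES n n f), Loc Z f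

theorem exists_flagged (H : KDeps n) {X : SP (Th n)} (hX : Sg n X) :
    ∃ (D : SP (Gn n)) (f : filt X ⟶ D), Flagged D ∧
      ∀ i : Fin (n + 1), ES n i (levelHom f i) :=
  Pool.Agent.Helper81.FL2.exists_flagged_of
    { isCat_of_objHoEq := fun hX hY _ hf => Helper41FL2.isCat_of_objHoEq hX hY hf
      Cp_isCat := H.Cp_isCat
      ES_of_arrow_iso := fun e e' h hf => Pool.Agent.Helper61.FL2.ES_of_arrow_iso e e' h hf
      ES_comp := fun hY hZ _ _ hX hf hg => Pool.Agent.Helper61.FL2.ES_comp hY hZ hX hf hg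
      ES_of_objHoEq := fun hX hY _ hf => Pool.Agent.Helper61.FL2.ES_of_objHoEq hX hY hf
      sg_tr := H.sg_tr
      tr_down := H.tr_down
      surj_of_ES := Helper64FL2.surj_of_ES } hX

/-- `N D` is a Segal presheaf. -/
theorem sg_ND {D : SP (Gn n)} (hD : Flagged D) : Sg n (ND D) := by
  have h1 : (YD D).GauntDescent := FLS.YD_gauntDescent hD.inj hD.cat
  have h2 : SegalDescent ((YD D).restr FLS.hrep) :=
    FLS.segalDescent_restr h1 (Pool.Agent.Helper64.FL2.knownGaunt n)
  have hN : InjFib (ND D) := Pool.Agent.Helper36.FL.ND_injFib hD.inj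
  have hK : ObjKan (ND D) := Pool.Agent.Helper61.FL2.kanPt hN
  have h3 : Sg n ((RR (Th n)).obj (ND D)) := (Pool.Agent.Helper64.FL2.segalDescent_iff hK).1 h2
  exact (Helper41FL2.sg_of_objHoEq hN (Helper41FL2.RR_injFib hK)
    (Helper41FL2.RR_objHoEq hK)).2 h3

theorem eps_local (H : KDeps n) {D D' : SP (Gn n)} (hD : Flagged D) (hD' : Flagged D') :
    HoEq (Mp.pre (eps D) D') := by
  refine Pool.Agent.Helper30.FL16.level_lemma_of Pool.Agent.Helper91.FL17a.tool hD'.inj (eps D)
    fun i k _ => ?_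
  have hN := sg_ND hD
  have hK : ObjKan ((tr n i).op ⋙ ND D) := fun a =>
    Pool.Agent.Helper61.FL2.kanPt hN.1 _
  have hL : InjFib (level D i) := (hD.cat i).inj
  obtain ⟨e, -⟩ := Pool.Agent.Helper25.FL2.level_filt (ND D) i
  have hg : ES n i (e.inv ≫ levelHom (eps D) i) :=
    Pool.Agent.Helper61.FL2.ES_of_arrow_iso e (Iso.refl _) (by simp)
      (Pool.Agent.Helper94.FL2.ES_eps hD i)
  obtain ⟨e', he'⟩ := hL _ (Helper41FL2.RR_trivCof hK) (e.inv ≫ levelHom (eps D) i)
  have h1 : ES n n e' := H.tr_up hN (Helper41FL2.isCat_iff.1 (hD.cat i)).1 (hD.trunc i) _ e'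
    he' hg
  have h2 : Loc (level D' k) e' := H.ES_loc (H.sg_tr hN i)
    (Helper41FL2.isCat_iff.1 (hD.cat i)).1 (hD'.cat k) h1
  have hZ : InjFib (level D' k) := (hD'.cat k).inj
  have h3 : Loc (level D' k) ((RR (Th n)).η ((tr n i).op ⋙ ND D)) :=
    Pool.Agent.Helper45.LOC.loc_of_we hZ _ (Helper41FL2.RR_trivCof hK).2
  have h4 : Loc (level D' k) (e.inv ≫ levelHom (eps D) i) := by
    rw [← he']
    exact Pool.Agent.Helper45.LOC.loc_comp hZ h3 h2
  exact Pool.Agent.Helper45.LOC.loc_of_arrow_iso e.symm (Iso.refl _) (by simp) h4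

theorem NDmap_hoEq (H : KDeps n) {D D' : SP (Gn n)} (hD : Flagged D) (hD' : Flagged D') :
    HoEq (NDmap D D') := by
  have h : NDmap D D' = Mp.pre (eps D) D' ≫ (Pool.Agent.Helper36.FL.filtIso (ND D) D').hom := by
    refine NatTrans.ext (funext fun m => ?_)
    refine ConcreteCategory.hom_ext _ _ fun (φ : MpS D D' m.unop) => ?_
    refine MpS.ext ?_
    funext a l s (ψ : MpS (filt (rep a.unop)) D l.unop)
    refine MpS.ext ?_
    funext g m' t (u : (tower n).obj g.unop ⟶ a.unop)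
    show φ.app g m' (t ≫ s) (ψ.app g m' t u) =
      φ.app g m' (t ≫ s) (ψ.app g m' (𝟙 _ ≫ t) (𝟙 ((tower n).obj g.unop) ≫ u))
    rw [Category.id_comp]
    exact congrArg (fun z => φ.app g m' (t ≫ s) (ψ.app g m' t z))
      (Category.id_comp (obj := Th n) u).symm
  rw [h]
  have hI : InjFib (ND D') := Pool.Agent.Helper36.FL.ND_injFib hD'.inj
  exact Pool.Agent.Helper88.FL.hoEq_comp (Pool.Agent.Helper83.FL4.Mp_kan _ hD'.inj)
    (Pool.Agent.Helper83.FL4.Mp_kan _ hD'.inj) (Pool.Agent.Helper83.FL4.Mp_kan _ hI)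
    (eps_local H hD hD') (Pool.Agent.Helper88.FL.hoEq_of_isIso _)

theorem knownTheorem (H : KDeps n) : KnownTheorem n := by
  refine ⟨fun D D' hD hD' => NDmap_hoEq H hD hD', fun X hX => ⟨fun hs => ?_, ?_⟩⟩
  · have hS := (Pool.Agent.Helper64.FL2.segalDescent_iff hX).1 hs
    obtain ⟨D, f, hD, hf⟩ := exists_flagged H hS
    have h1 := Pool.Agent.Helper94.FL2.objHoEq_flat hS hD.inj hD.cat (sg_ND hD) f hf
    refine ⟨D, hD, (RR (Th n)).η X ≫ flat f, fun a => ?_⟩
    have hK : ObjKan (ND D) := Pool.Agent.Helper61.FL2.kanPt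
      (Pool.Agent.Helper36.FL.ND_injFib hD.inj)
    exact Pool.Agent.Helper88.FL.hoEq_comp (hX a) (Helper41FL2.RR_objKan hX a) (hK a)
      (Helper41FL2.RR_objHoEq hX a) (h1 a)
  · rintro ⟨D, hD, f, hf⟩
    have hN : InjFib (ND D) := Pool.Agent.Helper36.FL.ND_injFib hD.inj
    have hK : ObjKan (ND D) := Pool.Agent.Helper61.FL2.kanPt hN
    refine (Pool.Agent.Helper64.FL2.segalDescent_iff hX).2 ?_
    refine (Helper41FL2.sg_of_objHoEq (Helper41FL2.RR_injFib hX) (Helper41FL2.RR_injFib hK)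
      (Helper41FL2.RR_map_objHoEq hX hK hf)).2 ?_
    exact (Helper41FL2.sg_of_objHoEq hN (Helper41FL2.RR_injFib hK)
      (Helper41FL2.RR_objHoEq hK)).1 (sg_ND hD)

theorem conjecture (H : KDeps n) : Conjecture n :=
  FLS.conjecture_of (knownTheorem H) (Pool.Agent.Helper64.FL2.knownGaunt n)

end Pool.Agent.Helper58.FL2F
end

/- Helper43.FL2.TransferMain -/
section
/-!
# FL2-H4: inner anodyne extensions induce local maps
-/

open CategoryTheory MonoidalCategory Opposite

set_option autoImplicit false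

namespace Pool.Agent.Helper43.FL2

open FL

variable {C : Type} [SmallCategory C]

theorem Ph_transfer {X : SP (Wr C)} (hX : InjFib X) (hS : SpLoc X) {r : ℕ} (B : Fin r → SP C)
    {N N' : SSet.{0}} (i : N ⟶ N') (hi : SSet.innerAnodyneExtensions i)
    (s : N' ⟶ SSet.stdSimplex.obj (SimplexCategory.mk r)) : Loc X (Ph.map B i s) :=
  Pool.Agent.Helper45.FL2.TrivFib.hoEq
    (Ph_transfer_of (fun B s => Pool.Agent.Helper7.FL2.Ph_simplex B s)
      (fun B i h0 h1 => Pool.Agent.Helper51.FL2.vface_horn hX hS B i h0 h1)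
      (fun f hf => Pool.Agent.Helper45.LOC.loc_iff_range f hf)
      (fun hg hfg => Pool.Agent.Helper45.LOC.loc_of_comp_right hX hg hfg)
      (fun f _ => Pool.Agent.Helper45.LOC.loc_of_isIso f)
      (fun i hi h => (Pool.Agent.Helper45.LOC.loc_iff_trivFib hX i hi).1 h) B i hi s)

end Pool.Agent.Helper43.FL2
end

/- Helper44.FL2.Anod -/
section
/-!
# Inner anodyne inclusions of subcomplexes of nerves of chaotic categories
-/

open CategoryTheory MonoidalCategory Opposite

set_option autoImplicit false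

namespace Pool.Agent.Helper44.FL2

open FL

lemma isIso_of_bij' {K L : SSet.{0}} (f : K ⟶ L)
    (h : ∀ k, Function.Bijective (f.app k)) : IsIso f := by
  rw [NatTrans.isIso_iff_isIso_app]
  intro k
  rw [isIso_iff_bijective]
  exact h k

lemma ia_of_sq {K L K' L' : SSet.{0}} {f : K ⟶ L} (hf : SSet.innerAnodyneExtensions f)
    {f' : K' ⟶ L'} (a : K ⟶ K') (b : L ⟶ L') (w : a ≫ f' = f ≫ b)
    (ha : ∀ k, Function.Bijective (a.app k)) (hb : ∀ k, Function.Bijective (b.app k)) :
    SSet.innerAnodyneExtensions f' := by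
  have := isIso_of_bij' a ha
  have := isIso_of_bij' b hb
  exact (SSet.innerAnodyneExtensions.arrow_mk_iso_iff
    (Arrow.isoMk (f := Arrow.mk f) (g := Arrow.mk f') (asIso a) (asIso b) w)).1 hf

/-- Inner anodyne inclusions of subcomplexes. -/
def IA {Y : SSet.{0}} (K K' : Y.Subcomplex) : Prop :=
  ∃ h : K ≤ K', SSet.innerAnodyneExtensions (SSet.Subcomplex.homOfLE h)

lemma IA.push {Y : SSet.{0}} {K K' : Y.Subcomplex} (h : IA (K ⊓ K') K') : IA K (K ⊔ K') := by
  obtain ⟨h1, h2⟩ := h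
  refine ⟨le_sup_left, ?_⟩
  have sq : SSet.Subcomplex.BicartSq (K ⊓ K') K' K (K ⊔ K') :=
    { sup_eq := sup_comm _ _
      inf_eq := inf_comm _ _ }
  exact MorphismProperty.of_isPushout sq.isPushout.flip h2

/-- The union of the words in `U` and the words in `U'` with one common letter. -/
theorem EN_IA {T : Type} (U U' : Set T) (v : T) (h : U ∩ U' = {v}) :
    IA (ENsub U ⊔ ENsub U') (ENsub (U ∪ U')) := by
  have hv : v ∈ U ∩ U' := by rw [h]; rfl
  have hle : ENsub U ⊔ ENsub U' ≤ ENsub (U ∪ U') := by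
    intro k w hw
    rcases hw with hw | hw
    · exact fun i => Or.inl (hw i)
    · exact fun i => Or.inr (hw i)
  refine ⟨hle, ?_⟩
  let T' : Type := { t : T // t ∈ U ∪ U' }
  let W : Set T' := { t | t.1 ∈ U }
  let W' : Set T' := { t | t.1 ∈ U' }
  have h1 : W ∩ W' = {⟨v, Or.inl hv.1⟩} := by
    ext t
    constructor
    · rintro ⟨ht, ht'⟩
      have : t.1 ∈ U ∩ U' := ⟨ht, ht'⟩
      rw [h] at this
      exact Subtype.ext this
    · rintro rfl
      exact hv
  have h2 : W ∪ W' = Set.univ := by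
    ext t
    exact ⟨fun _ => trivial, fun _ => t.2⟩
  have key := Pool.Agent.Helper64.FL2.EN_inner W W' _ h1 h2
  let b : EN T' ⟶ (ENsub (U ∪ U') : SSet.{0}) :=
    { app := fun k => ↾ fun w => ⟨fun i => (w i).1, fun i => (w i).2⟩
      naturality := fun _ _ _ => rfl }
  let a : ((ENsub W ⊔ ENsub W' : (EN T').Subcomplex) : SSet.{0}) ⟶
      ((ENsub U ⊔ ENsub U' : (EN T).Subcomplex) : SSet.{0}) :=
    { app := fun k => ↾ fun w => ⟨fun i => (w.1 i).1, by
        rcases w.2 with h | h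
        · exact Or.inl fun i => h i
        · exact Or.inr fun i => h i⟩
      naturality := fun _ _ _ => rfl }
  refine ia_of_sq key a b rfl ?_ ?_
  · intro k
    constructor
    · intro w w' e
      refine Subtype.ext (funext fun i => Subtype.ext ?_)
      exact congrFun (congrArg Subtype.val e) i
    · rintro ⟨w, hw⟩
      refine ⟨⟨fun i => ⟨w i, hle k hw i⟩, ?_⟩, rfl⟩
      rcases hw with h | h
      · exact Or.inl fun i => h i
      · exact Or.inr fun i => h i
  · intro k
    constructor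
    · intro w w' e
      refine funext fun i => Subtype.ext ?_
      exact congrFun (congrArg Subtype.val e) i
    · rintro ⟨w, hw⟩
      exact ⟨fun i => ⟨w i, hw i⟩, rfl⟩

/-- The subcomplex of `E[Bool × T]` which corresponds to the union of `{0, 1} × E[T]` and
`E[Bool] × {v}`. -/
def isoK {T : Type} (v : T) : (EN (Bool × T)).Subcomplex :=
  (ENsub { z | z.1 = false } ⊔ ENsub { z | z.2 = v }) ⊔ ENsub { z | z.1 = true }

theorem isoK_inner {T : Type} (v : T) : SSet.innerAnodyneExtensions (isoK v).ι := by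
  let U1 : Set (Bool × T) := { z | z.1 = false }
  let U2 : Set (Bool × T) := { z | z.2 = v }
  let U3 : Set (Bool × T) := { z | z.1 = true }
  have h12 : U1 ∩ U2 = {(false, v)} := by
    ext ⟨b, t⟩
    constructor
    · rintro ⟨h, h'⟩
      exact Prod.ext h h'
    · intro h
      rw [Set.mem_singleton_iff] at h
      rw [h]
      exact ⟨rfl, rfl⟩
  have h123 : (U1 ∪ U2) ∩ U3 = {(true, v)} := by
    ext ⟨b, t⟩
    constructor
    · rintro ⟨h | h, h'⟩
      · exact absurd (h.symm.trans h') (by decide)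
      · exact Prod.ext h' h
    · intro h
      rw [Set.mem_singleton_iff] at h
      rw [h]
      exact ⟨Or.inr rfl, rfl⟩
  have hun : (U1 ∪ U2) ∪ U3 = Set.univ := by
    ext ⟨b, t⟩
    refine ⟨fun _ => trivial, fun _ => ?_⟩
    cases b
    · exact Or.inl (Or.inl rfl)
    · exact Or.inr rfl
  have k1 : IA (ENsub U1 ⊔ ENsub U2) (ENsub (U1 ∪ U2)) := EN_IA U1 U2 _ h12
  have k2 : SSet.innerAnodyneExtensions (ENsub (U1 ∪ U2) ⊔ ENsub U3).ι :=
    Pool.Agent.Helper64.FL2.EN_inner (U1 ∪ U2) U3 _ h123 hun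
  have e1 : isoK v ⊓ ENsub (U1 ∪ U2) = ENsub U1 ⊔ ENsub U2 := by
    apply le_antisymm
    · rintro k w ⟨hw, hw'⟩
      rcases hw with hw | hw
      · exact hw
      · refine Or.inr fun i => ?_
        have : w i ∈ (U1 ∪ U2) ∩ U3 := ⟨hw' i, hw i⟩
        rw [h123] at this
        exact congrArg Prod.snd this
    · intro k w hw
      refine ⟨Or.inl hw, ?_⟩
      rcases hw with hw | hw
      · exact fun i => Or.inl (hw i)
      · exact fun i => Or.inr (hw i)
  have e2 : isoK v ⊔ ENsub (U1 ∪ U2) = ENsub (U1 ∪ U2) ⊔ ENsub U3 := by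
    apply le_antisymm
    · rintro k w (hw | hw)
      · rcases hw with hw | hw
        · exact Or.inl (k1.1 k hw)
        · exact Or.inr hw
      · exact Or.inl hw
    · rintro k w (hw | hw)
      · exact Or.inr hw
      · exact Or.inl (Or.inr hw)
  have k3 : IA (isoK v) (ENsub (U1 ∪ U2) ⊔ ENsub U3) := by
    rw [← e2]
    apply IA.push
    rw [e1]
    exact k1
  obtain ⟨k4, k5⟩ := k3
  have : (isoK v).ι = SSet.Subcomplex.homOfLE k4 ≫ (ENsub (U1 ∪ U2) ⊔ ENsub U3).ι := rfl
  rw [this]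
  exact SSet.innerAnodyneExtensions.comp_mem _ _ k5 k2

end Pool.Agent.Helper44.FL2
end

/- Helper44.FL2.Pres -/
section
/-!
# Presentations of presheaves as pullbacks of `V[r](B)`
-/

open CategoryTheory MonoidalCategory Opposite

set_option autoImplicit false

namespace Pool.Agent.Helper44.FL2

open FL

variable {C : Type} [SmallCategory C]

/-- The presentation of a representable presheaf. -/
def rhoRep (θ : Wr C) : Ph (fun i => rep (θ.obj i))
    (𝟙 (SSet.stdSimplex.obj (SimplexCategory.mk θ.len) : SSet.{0})) ⟶ rep θ where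
  app η :=
    { app := fun k => ↾ fun (u : PhS (fun i => rep (θ.obj i)) (𝟙 _) η.unop k) =>
        (({ f := sh (𝟙 _) u.x, g := fun i j h => u.g i j h } : Wr.Hom η.unop θ) : η.unop ⟶ θ)
      naturality := fun k l α => rfl }
  naturality η η' φ := by
    refine NatTrans.ext (funext fun k => ?_)
    refine ConcreteCategory.hom_ext _ _ fun (u : PhS (fun i => rep (θ.obj i)) (𝟙 _) η.unop k) => ?_
    refine Wr.hom_ext' ?_ fun i l h h' => ?_
    · exact sh_map (𝟙 _) (Wr.Hom.f φ.unop) u.x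
    · obtain ⟨j, hj, hj'⟩ := Jump.split (f := Wr.Hom.f φ.unop) (g := sh (𝟙 _) u.x) h'
      refine (PhS.mapθ_g φ.unop u hj hj' h).trans ?_
      exact (Wr.comp_g (X := η'.unop) (Y := η.unop) (Z := θ) φ.unop
          ({ f := sh (𝟙 _) u.x, g := fun i j h => u.g i j h } : Wr.Hom η.unop θ) hj hj').symm

lemma sh_id_inj {r m : ℕ}
    {x y : (SSet.stdSimplex.obj (SimplexCategory.mk r) : SSet.{0}).obj
      (op (SimplexCategory.mk m))}
    (h : sh (𝟙 _) x = sh (𝟙 _) y) : x = y := by
  refine SSet.stdSimplex.objEquiv.injective ?_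
  exact SimplexCategory.Hom.ext _ _ h

lemma rhoRep_bij (θ : Wr C) (η : (Wr C)ᵒᵖ) (k : SimplexCategoryᵒᵖ) :
    Function.Bijective (((rhoRep θ).app η).app k) := by
  constructor
  · intro (u : PhS (fun i => rep (θ.obj i)) (𝟙 _) η.unop k)
      (v : PhS (fun i => rep (θ.obj i)) (𝟙 _) η.unop k) h
    have h1 : sh (𝟙 _) u.x = sh (𝟙 _) v.x := congrArg Wr.Hom.f h
    have h2 := sh_id_inj h1
    obtain ⟨x, g⟩ := u
    obtain ⟨x', g'⟩ := v
    simp only at h2
    subst h2
    refine congrArg (PhS.mk x) ?_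
    have h5 : (({ f := sh (𝟙 _) x, g := fun i j h => g i j h } : Wr.Hom η.unop θ)) =
      ({ f := sh (𝟙 _) x, g := fun i j h => g' i j h } : Wr.Hom η.unop θ) := h
    injection h5
  · intro (φ : η.unop ⟶ θ)
    refine ⟨(⟨SSet.stdSimplex.objMk (Wr.Hom.f φ), fun i j h => Wr.Hom.g φ i j h⟩ :
      PhS (fun i => rep (θ.obj i)) (𝟙 _) η.unop k), ?_⟩
    rfl

/-- The presentation of a sub-presheaf. -/
def rhoSub {r : ℕ} {B : Fin r → SP C} {N : SSet.{0}}
    {s : N ⟶ SSet.stdSimplex.obj (SimplexCategory.mk r)} {P : SP (Wr C)} (ρ : Ph B s ⟶ P)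
    (K : N.Subcomplex) (S : Sb P)
    (h : ∀ (θ : (Wr C)ᵒᵖ) (k : SimplexCategoryᵒᵖ) (u : PhS B s θ.unop k),
      (ρ.app θ).app k u ∈ S.mem θ k ↔ u.x ∈ K.obj _) :
    Ph B (K.ι ≫ s) ⟶ S.toSP where
  app θ :=
    { app := fun k => ↾ fun (u : PhS B (K.ι ≫ s) θ.unop k) =>
        ⟨(ρ.app θ).app k (((Ph.map B K.ι s).app θ).app k u), (h θ k _).2 u.x.2⟩
      naturality := fun k l α => by
        refine ConcreteCategory.hom_ext _ _ fun (u : PhS B (K.ι ≫ s) θ.unop k) => ?_
        exact Subtype.ext (hom_natk (Ph.map B K.ι s ≫ ρ) α u) }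
  naturality θ θ' φ := by
    refine NatTrans.ext (funext fun k => ?_)
    refine ConcreteCategory.hom_ext _ _ fun (u : PhS B (K.ι ≫ s) θ.unop k) => ?_
    exact Subtype.ext (hom_nat (Ph.map B K.ι s ≫ ρ) φ u)

lemma rhoSub_bij {r : ℕ} {B : Fin r → SP C} {N : SSet.{0}}
    {s : N ⟶ SSet.stdSimplex.obj (SimplexCategory.mk r)} {P : SP (Wr C)} (ρ : Ph B s ⟶ P)
    (hρ : ∀ θ k, Function.Bijective ((ρ.app θ).app k))
    (K : N.Subcomplex) (S : Sb P)
    (h : ∀ (θ : (Wr C)ᵒᵖ) (k : SimplexCategoryᵒᵖ) (u : PhS B s θ.unop k),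
      (ρ.app θ).app k u ∈ S.mem θ k ↔ u.x ∈ K.obj _) (θ : (Wr C)ᵒᵖ) (k : SimplexCategoryᵒᵖ) :
    Function.Bijective (((rhoSub ρ K S h).app θ).app k) := by
  constructor
  · intro (u : PhS B (K.ι ≫ s) θ.unop k) (v : PhS B (K.ι ≫ s) θ.unop k) e
    have h1 := (hρ θ k).1 (congrArg Subtype.val e)
    have h3 : u.x.1 = v.x.1 := congrArg PhS.x h1
    have h4 : u.x = v.x := Subtype.ext h3
    obtain ⟨x, g⟩ := u
    obtain ⟨x', g'⟩ := v
    simp only at h4
    subst h4
    refine congrArg (PhS.mk x) ?_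
    have h5 : (PhS.mk x.1 (fun i j h => g i j h) : PhS B s θ.unop k) =
      PhS.mk x.1 (fun i j h => g' i j h) := h1
    injection h5
  · rintro ⟨z, hz⟩
    obtain ⟨u, rfl⟩ := (hρ θ k).2 z
    obtain ⟨x, g⟩ := u
    exact ⟨(⟨⟨x, (h θ k _).1 hz⟩, fun i j h => g i j h⟩ : PhS B (K.ι ≫ s) θ.unop k), rfl⟩

/-- The map to `Δ[0]`. -/
def toΔ (K : SSet.{0}) : K ⟶ (SSet.stdSimplex.obj (SimplexCategory.mk 0) : SSet.{0}) where
  app k := ↾ fun _ => SSet.stdSimplex.objMk ⟨fun _ => (0 : Fin 1), fun _ _ _ => le_refl _⟩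
  naturality _ _ _ := rfl

/-- The presentation of the nerve of the free-standing isomorphism. -/
def rhoIso (C : Type) [SmallCategory C] : Ph (fun i : Fin 0 => (i.elim0 : SP C)) (toΔ (EN Bool)) ⟶
    disc (isoPsh C) where
  app η :=
    { app := fun k => ↾ fun (u : PhS (fun i : Fin 0 => (i.elim0 : SP C)) (toΔ (EN Bool))
        η.unop k) => u.x
      naturality := fun k l α => rfl }
  naturality η η' φ := rfl

lemma rhoIso_bij (η : (Wr C)ᵒᵖ) (k : SimplexCategoryᵒᵖ) :
    Function.Bijective (((rhoIso C).app η).app k) := by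
  constructor
  · intro (u : PhS (fun i : Fin 0 => (i.elim0 : SP C)) (toΔ (EN Bool)) η.unop k)
      (v : PhS (fun i : Fin 0 => (i.elim0 : SP C)) (toΔ (EN Bool)) η.unop k) h
    exact PhS.ext' h fun i j _ _ => j.elim0
  · intro w
    exact ⟨(⟨w, fun i j _ => j.elim0⟩ :
      PhS (fun i : Fin 0 => (i.elim0 : SP C)) (toΔ (EN Bool)) η.unop k), rfl⟩

end Pool.Agent.Helper44.FL2
end

/- Helper44.FL2.E0Loc -/
section
/-!
# Locality statements for `P × E[m]`
-/

open CategoryTheory MonoidalCategory Opposite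

set_option autoImplicit false

namespace Pool.Agent.Helper44.FL2

open FL

variable {C : Type} [SmallCategory C] {X : SP (Wr C)}

/-- Elements of the faces of `P × E[N]`. -/
lemma mem_fface (P : SP (Wr C)) {N : SimplexCategory} (U : Finset (Fin (N.len + 1)))
    (hU : U.Nonempty) (θ : (Wr C)ᵒᵖ) (k : SimplexCategoryᵒᵖ)
    (z : ((E0o P N).obj θ).obj k) :
    z ∈ (fface ((E0 C).obj P) U).mem θ k ↔ ∀ i, z.2 i ∈ U := by
  constructor
  · rintro ⟨m, α, y, h, rfl⟩
    exact fun i => h _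
  · intro h
    have hc : U.card = (U.card - 1) + 1 :=
      (Nat.succ_pred_eq_of_pos (Finset.card_pos.mpr hU)).symm
    have hr : ∀ i, ∃ t, U.orderEmbOfFin hc t = z.2 i := by
      intro i
      have h1 : z.2 i ∈ Set.range (U.orderEmbOfFin hc) := by
        rw [Finset.range_orderEmbOfFin]
        exact h i
      exact h1
    choose w hw using hr
    refine ⟨SimplexCategory.mk (U.card - 1), SimplexCategory.Hom.mk
      (U.orderEmbOfFin hc).toOrderHom, (z.1, w), ?_, ?_⟩
    · intro i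
      exact Finset.orderEmbOfFin_mem U hc i
    · exact Prod.ext rfl (funext fun i => hw i)

theorem ext_of_pres (hT : Transfer X) (hA : ArrowIso X)
    {r : ℕ} {B : Fin r → SP C} {N : SSet.{0}}
    {s : N ⟶ SSet.stdSimplex.obj (SimplexCategory.mk r)} {P : SP (Wr C)} (ρ : Ph B s ⟶ P)
    (hρ : ∀ θ k, Function.Bijective ((ρ.app θ).app k)) : Ext X ((E0 C).obj P) := by
  intro m S S' v hv
  have hvS : v ∈ S ∩ S' := by rw [hv]; exact Finset.mem_singleton_self v
  rw [Finset.mem_inter] at hvS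
  let U : Set (Fin (m.len + 1)) := { t | t ∈ S }
  let U' : Set (Fin (m.len + 1)) := { t | t ∈ S' }
  have hUU' : U ∩ U' = {v} := by
    ext t
    constructor
    · rintro ⟨h, h'⟩
      have : t ∈ S ∩ S' := Finset.mem_inter.mpr ⟨h, h'⟩
      rw [hv] at this
      exact Finset.mem_singleton.mp this
    · intro h
      rw [Set.mem_singleton_iff] at h
      rw [h]
      exact hvS
  obtain ⟨hle, hia⟩ := EN_IA U U' v hUU'
  refine locT_of_inner hT hA ρ hρ m
    (N ◁ SSet.Subcomplex.homOfLE hle) (hia.whiskerLeft N)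
    (CartesianMonoidalCategory.fst N _)
    (CartesianMonoidalCategory.snd N _ ≫ (ENsub (U ∪ U')).ι) ?_ ?_ _ _ ?_ ?_
  · intro l y y' h
    obtain ⟨a, b⟩ := y
    obtain ⟨a', b'⟩ := y'
    have h1 : a = a' := congrArg Prod.fst h
    have h2 : b.1 = b'.1 := congrArg (fun t => (Prod.snd t).1) h
    exact Prod.ext h1 (Subtype.ext h2)
  · intro l y y' h h'
    obtain ⟨a, b⟩ := y
    obtain ⟨a', b'⟩ := y'
    exact Prod.ext h (Subtype.ext h')
  · intro θ k u w
    refine Iff.trans (or_congr (mem_fface P S ⟨v, hvS.1⟩ θ k _)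
      (mem_fface P S' ⟨v, hvS.2⟩ θ k _)) ?_
    constructor
    · intro h
      refine ⟨(u.x, ⟨w, ?_⟩), rfl, rfl⟩
      rcases h with h | h
      · exact Or.inl h
      · exact Or.inr h
    · rintro ⟨⟨a, b⟩, h1, h2⟩
      have h3 : b.1 = w := h2
      subst h3
      rcases b.2 with h | h
      · exact Or.inl h
      · exact Or.inr h
  · intro θ k u w
    refine Iff.trans (mem_fface P (S ∪ S') ⟨v, Finset.mem_union_left _ hvS.1⟩ θ k _) ?_
    constructor
    · intro h
      exact ⟨(u.x, ⟨w, fun i => Finset.mem_union.mp (h i)⟩), rfl, rfl⟩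
    · rintro ⟨⟨a, b⟩, h1, h2⟩
      have h3 : b.1 = w := h2
      subst h3
      exact fun i => Finset.mem_union.mpr (b.2 i)

lemma vert_iff (c : C) (θ : (Wr C)ᵒᵖ) (k : SimplexCategoryᵒᵖ)
    (u : PhS (fun _ : Fin 1 => rep c)
      (𝟙 (SSet.stdSimplex.obj (SimplexCategory.mk 1) : SSet.{0})) θ.unop k) :
    ((rhoRep (seg c)).app θ).app k u ∈ (vert (seg c)).mem θ k ↔
      u.x ∈ (SSet.boundary.{0} 1).obj (op (SimplexCategory.mk θ.unop.len)) := by
  constructor
  · rintro ⟨v, hv⟩
    intro hs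
    have h0 := hs 0
    have h1 := hs 1
    obtain ⟨a, ha⟩ := h0
    obtain ⟨b, hb⟩ := h1
    have ha' : v = 0 := (hv a).symm.trans ha
    have hb' : v = 1 := (hv b).symm.trans hb
    exact absurd (ha'.symm.trans hb') (show ¬ ((0 : Fin 2) = 1) by decide)
  · intro h
    by_contra hc
    refine h ?_
    have h2 : ∃ a b, sh (𝟙 _) u.x a ≠ sh (𝟙 _) u.x b := by
      by_contra hn
      refine hc ⟨sh (𝟙 _) u.x 0, fun t => ?_⟩
      by_contra hq
      exact hn ⟨t, 0, hq⟩
    obtain ⟨a, b, hab⟩ := h2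
    intro v
    by_contra hv
    have h3 : ∀ t, sh (𝟙 _) u.x t ≠ v := fun t ht => hv ⟨t, ht⟩
    have h4 := h3 a
    have h5 := h3 b
    have aux : ∀ p q v : Fin 2, p ≠ q → p ≠ v → q ≠ v → False := by decide
    exact aux _ _ _ hab h4 h5

theorem ext_T0' (hT : Transfer X) (hA : ArrowIso X) (θ : Wr C) : Ext X ((T0 C).obj θ) :=
  ext_of_pres hT hA (rhoRep θ) (rhoRep_bij θ)

theorem ext_vert' (hT : Transfer X) (hA : ArrowIso X) (c : C) :
    Ext X ((E0 C).obj (vert (seg c)).toSP) :=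
  ext_of_pres hT hA (rhoSub (rhoRep (seg c)) (SSet.boundary.{0} 1) (vert (seg c)) (vert_iff c))
    (rhoSub_bij (rhoRep (seg c)) (rhoRep_bij (seg c)) (SSet.boundary.{0} 1) (vert (seg c))
      (vert_iff c))

theorem ext_iso' (hT : Transfer X) (hA : ArrowIso X) : Ext X ((E0 C).obj (disc (isoPsh C))) :=
  ext_of_pres hT hA (rhoIso C) rhoIso_bij

/-- The two vertices of `E`. -/
def vE : (EN Bool).Subcomplex := ENsub {false} ⊔ ENsub {true}

lemma vE_iff (θ : (Wr C)ᵒᵖ) (k : SimplexCategoryᵒᵖ)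
    (u : PhS (fun i : Fin 0 => (i.elim0 : SP C)) (toΔ (EN Bool)) θ.unop k) :
    ((rhoIso C).app θ).app k u ∈ (vertE C).mem θ k ↔ u.x ∈ vE.obj _ := by
  constructor
  · rintro ⟨v, hv⟩
    cases v
    · exact Or.inl hv
    · exact Or.inr hv
  · rintro (h | h)
    · exact ⟨false, h⟩
    · exact ⟨true, h⟩

theorem ext_vertE' (hT : Transfer X) (hA : ArrowIso X) : Ext X ((E0 C).obj (vertE C).toSP) :=
  ext_of_pres hT hA (rhoSub (rhoIso C) vE (vertE C) vE_iff)
    (rhoSub_bij (rhoIso C) rhoIso_bij vE (vertE C) vE_iff)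

theorem E0rel_seg' (hT : Transfer X) (hA : ArrowIso X) (c : C) (m : SimplexCategory)
    (v : Fin (m.len + 1)) : LocT X (E0rel (vert (seg c)) m v) ⊤ := by
  refine locT_of_inner hT hA (rhoRep (seg c)) (rhoRep_bij (seg c)) m
    (SSet.Subcomplex.unionProd (SSet.boundary.{0} 1) (ENsub {v})).ι
    (Pool.Agent.Helper43.FL2.EN_inner_prod v)
    (CartesianMonoidalCategory.fst _ _) (CartesianMonoidalCategory.snd _ _) ?_ ?_ _ _ ?_ ?_
  · intro l y y' h
    exact Subtype.ext h
  · intro l y y' h h'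
    obtain ⟨a, b⟩ := y
    obtain ⟨a', b'⟩ := y'
    exact Prod.ext h h'
  · intro θ k u w
    constructor
    · rintro (h | h)
      · exact ⟨⟨(u.x, w), Or.inr ⟨(vert_iff c θ k u).1 h, trivial⟩⟩, rfl, rfl⟩
      · exact ⟨⟨(u.x, w), Or.inl ⟨trivial, h⟩⟩, rfl, rfl⟩
    · rintro ⟨⟨⟨a, b⟩, h⟩, h1, h2⟩
      have h1' : a = u.x := h1
      have h2' : b = w := h2
      subst h2'
      rcases h with ⟨_, h⟩ | ⟨h, _⟩
      · exact Or.inr h
      · refine Or.inl ((vert_iff c θ k u).2 ?_)
        rw [← h1']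
        exact h
  · intro θ k u w
    exact ⟨fun _ => ⟨(u.x, w), rfl, rfl⟩, fun _ => trivial⟩

/-- Functoriality of `E[S]`. -/
def ENmap {S T : Type} (f : S → T) : EN S ⟶ EN T where
  app k := ↾ fun w i => f (w i)
  naturality _ _ _ := rfl

theorem E0rel_iso' (hT : Transfer X) (hA : ArrowIso X) (m : SimplexCategory)
    (v : Fin (m.len + 1)) : LocT X (E0rel (vertE C) m v) ⊤ := by
  refine locT_of_inner hT hA (rhoIso C) rhoIso_bij m (isoK v).ι (isoK_inner v)
    (ENmap Prod.fst) (ENmap Prod.snd) ?_ ?_ _ _ ?_ ?_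
  · intro l y y' h
    exact Subtype.ext h
  · intro l y y' h h'
    exact funext fun i => Prod.ext (congrFun h i) (congrFun h' i)
  · intro θ k u w
    constructor
    · rintro (⟨b, h⟩ | h)
      · refine ⟨⟨fun i => (u.x i, w i), ?_⟩, rfl, rfl⟩
        cases b
        · exact Or.inl (Or.inl h)
        · exact Or.inr h
      · exact ⟨⟨fun i => (u.x i, w i), Or.inl (Or.inr h)⟩, rfl, rfl⟩
    · rintro ⟨⟨y, h⟩, h1, h2⟩
      rcases h with (h | h) | h
      · refine Or.inl ⟨false, fun t => ?_⟩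
        exact (congrFun h1 t).symm.trans (h t)
      · refine Or.inr fun t => ?_
        exact (congrFun h2 t).symm.trans (h t)
      · refine Or.inl ⟨true, fun t => ?_⟩
        exact (congrFun h1 t).symm.trans (h t)
  · intro θ k u w
    exact ⟨fun _ => ⟨fun i => (u.x i, w i), rfl, rfl⟩, fun _ => trivial⟩

theorem E0bin_loc' (hT : Transfer X) (hA : ArrowIso X) {r : ℕ} (c : Fin (r + 1) → C)
    (m : SimplexCategory) : LocT X (E0bin c m) ⊤ := by
  refine locT_of_inner hT hA (rhoRep (⟨r + 1, c⟩ : Wr C)) (rhoRep_bij _) m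
    ((SSet.stdSimplex.face.{0} (n := r + 1) (Finset.univ.erase (Fin.last (r + 1))) ⊔
        SSet.stdSimplex.face {(Fin.last r).castSucc, Fin.last (r + 1)}).ι ▷
          EN (Fin (m.len + 1)))
    ((Pool.Agent.Helper43.FL2.bin_inner r).whiskerRight _)
    (CartesianMonoidalCategory.fst _ _) (CartesianMonoidalCategory.snd _ _) ?_ ?_ _ _ ?_ ?_
  · intro l y y' h
    obtain ⟨a, b⟩ := y
    obtain ⟨a', b'⟩ := y'
    have h1 : a.1 = a'.1 := congrArg Prod.fst h
    have h2 : b = b' := congrArg Prod.snd h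
    exact Prod.ext (Subtype.ext h1) h2
  · intro l y y' h h'
    obtain ⟨a, b⟩ := y
    obtain ⟨a', b'⟩ := y'
    exact Prod.ext h h'
  · intro θ k u w
    have key : u.x ∈ (SSet.stdSimplex.face.{0} (n := r + 1)
        (Finset.univ.erase (Fin.last (r + 1))) ⊔
        SSet.stdSimplex.face {(Fin.last r).castSucc, Fin.last (r + 1)}).obj
          (op (SimplexCategory.mk θ.unop.len)) ↔
        (∀ t, (sh (𝟙 _) u.x t).1 ≤ r) ∨ ∀ t, r ≤ (sh (𝟙 _) u.x t).1 := by
      refine or_congr ((SSet.stdSimplex.mem_face_iff _ u.x).trans ?_)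
        ((SSet.stdSimplex.mem_face_iff _ u.x).trans ?_)
      · refine forall_congr' fun t => ?_
        refine Finset.mem_erase.trans ?_
        constructor
        · rintro ⟨h, _⟩
          have h2 : (sh (𝟙 _) u.x t).1 < r + 1 + 1 := (sh (𝟙 _) u.x t).2
          have h3 : (sh (𝟙 _) u.x t).1 ≠ r + 1 := fun e => h (Fin.ext e)
          omega
        · intro h
          refine ⟨fun e => ?_, Finset.mem_univ _⟩
          have e' : (sh (𝟙 _) u.x t).1 = r + 1 := congrArg Fin.val e
          omega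
      · refine forall_congr' fun t => ?_
        refine Finset.mem_insert.trans ?_
        constructor
        · rintro (h | h)
          · have e' : (sh (𝟙 _) u.x t).1 = r := congrArg Fin.val h
            omega
          · have e' : (sh (𝟙 _) u.x t).1 = r + 1 := congrArg Fin.val (Finset.mem_singleton.mp h)
            omega
        · intro h
          have h2 : (sh (𝟙 _) u.x t).1 < r + 1 + 1 := (sh (𝟙 _) u.x t).2
          by_cases h3 : (sh (𝟙 _) u.x t).1 = r
          · exact Or.inl (Fin.ext h3)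
          · refine Or.inr (Finset.mem_singleton.mpr (Fin.ext ?_))
            show (sh (𝟙 _) u.x t).1 = r + 1
            omega
    constructor
    · intro h
      exact ⟨(⟨u.x, key.2 h⟩, w), rfl, rfl⟩
    · rintro ⟨⟨a, b⟩, h1, h2⟩
      have h1' : a.1 = u.x := h1
      refine key.1 ?_
      rw [← h1']
      exact a.2
  · intro θ k u w
    exact ⟨fun _ => ⟨(u.x, w), rfl, rfl⟩, fun _ => trivial⟩

lemma arrowIso (X : SP (Wr C)) : ArrowIso X :=
  fun e e' h hf => Pool.Agent.Helper45.LOC.loc_of_arrow_iso e e' h hf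

/-! The statements of section H5, from the transfer principle (`Ph_transfer` of section H4). -/

theorem ext_T0_of (hT : Transfer X) (θ : Wr C) : Ext X ((T0 C).obj θ) :=
  ext_T0' hT (arrowIso X) θ

theorem ext_vert_of (hT : Transfer X) (c : C) : Ext X ((E0 C).obj (vert (seg c)).toSP) :=
  ext_vert' hT (arrowIso X) c

theorem ext_iso_of (hT : Transfer X) : Ext X ((E0 C).obj (disc (isoPsh C))) :=
  ext_iso' hT (arrowIso X)

theorem ext_vertE_of (hT : Transfer X) : Ext X ((E0 C).obj (vertE C).toSP) :=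
  ext_vertE' hT (arrowIso X)

theorem E0rel_seg_of (hT : Transfer X) (c : C) (m : SimplexCategory)
    (v : Fin (m.len + 1)) : LocT X (E0rel (vert (seg c)) m v) ⊤ :=
  E0rel_seg' hT (arrowIso X) c m v

theorem E0rel_iso_of (hT : Transfer X) (m : SimplexCategory)
    (v : Fin (m.len + 1)) : LocT X (E0rel (vertE C) m v) ⊤ :=
  E0rel_iso' hT (arrowIso X) m v

theorem E0bin_loc_of (hT : Transfer X) {r : ℕ} (c : Fin (r + 1) → C)
    (m : SimplexCategory) : LocT X (E0bin c m) ⊤ :=
  E0bin_loc' hT (arrowIso X) c m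

end Pool.Agent.Helper44.FL2
end

/- Helper43.FL2.Good -/
section
/-!
# FL2-C1a: the frame `T0` is good (final form), and the final forms of section H5
-/

open CategoryTheory MonoidalCategory Opposite

set_option autoImplicit false

namespace Pool.Agent.Helper43.FL2

open FL

variable {C : Type} [SmallCategory C]

theorem transfer {X : SP (Wr C)} (hX : InjFib X) (hS : SpLoc X) :
    Pool.Agent.Helper44.FL2.Transfer X :=
  fun B _ _ i hi s => Ph_transfer hX hS B i hi s

theorem g1F {A : Type} [SmallCategory A] {X : SP A} (hX : InjFib X) : G1F X where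
  isIso f _ := Pool.Agent.Helper45.LOC.loc_of_isIso f
  comp hf hg := Pool.Agent.Helper45.LOC.loc_comp hX hf hg
  comp_right hg hfg := Pool.Agent.Helper45.LOC.loc_of_comp_right hX hg hfg
  sdr hf := Pool.Agent.Helper45.LOC.loc_of_sdr hf
  extend i hi h g := Pool.Agent.Helper45.LOC.loc_extend hX i hi h g
  restr_sup f S T S' T' hS hT h1 h2 h12 :=
    Pool.Agent.Helper45.LOC.loc_restr_sup hX f S T S' T' hS hT h1 h2 h12

theorem ext_T0 {X : SP (Wr C)} (hX : InjFib X) (hS : SpLoc X) (θ : Wr C) :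
    Ext X ((T0 C).obj θ) :=
  Pool.Agent.Helper44.FL2.ext_T0_of (transfer hX hS) θ

theorem E0rel_seg {X : SP (Wr C)} (hX : InjFib X) (hS : SpLoc X) (c : C) (m : SimplexCategory)
    (v : Fin (m.len + 1)) : LocT X (E0rel (vert (seg c)) m v) ⊤ :=
  Pool.Agent.Helper44.FL2.E0rel_seg_of (transfer hX hS) c m v

theorem E0bin_loc {X : SP (Wr C)} (hX : InjFib X) (hS : SpLoc X) {r : ℕ}
    (c : Fin (r + 1) → C) (m : SimplexCategory) : LocT X (E0bin c m) ⊤ :=
  Pool.Agent.Helper44.FL2.E0bin_loc_of (transfer hX hS) c m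

theorem goodFr_T0 {X : SP (Wr C)} (hX : InjFib X) (hS : SpLoc X) : GoodFr X (T0 C) :=
  goodFr_T0_of (g1F hX) (ext_T0 hX hS) (E0rel_seg hX hS) (fun c m => E0bin_loc hX hS c m)

theorem ext_cc {A : Type} [SmallCategory A] (X P : SP A) : Ext X (cc P) :=
  ext_cc_of X P fun S => Pool.Agent.Helper45.LOC.locT_refl S

end Pool.Agent.Helper43.FL2
end

/- Helper37.FL2.GoodV -/
section
/-!
# FL2-C1b: the frames `VFr T` and `Tfr` are good
-/

open CategoryTheory MonoidalCategory Opposite Simplicial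

set_option autoImplicit false

namespace Pool.Agent.Helper37.FL2

open FL Pool.Agent.Helper43.FL2

section

variable {C : Type} [SmallCategory C]

theorem spHyp_of {X : SP (Wr C)} (hX : InjFib X) (hS : SpLoc X) : SpHyp X := by
  intro m B
  have h := Pool.Agent.Helper51.FL2.vface_spine hX hS B Finset.univ
    ⟨0, Finset.mem_univ _⟩
  rwa [Pool.Agent.Helper51.FL2.vface_univ] at h

theorem goodFr_VFr {X : SP (Wr C)} (hX : InjFib X) (hS : SpLoc X) (T : Fr C)
    (hT : ∀ (x y : Vt X) (c : C), Ext (Hm X x y) (T.obj c)) : GoodFr X (VFr T) where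
  ext θ := ext_VFr hX (spHyp_of hX hS) T hT θ
  mono_init c m a := mono_inertV T (inert_init c) m a
  mono_last c m a := mono_inertV T (inert_last c) m a
  inter c m := inter_VFr T c m
  mono_vtx θ i m a := mono_inertV T (inert_vtx θ i) m a
  disj c m := disj_VFr T c m
  bin c m := by
    rw [binT_VFr]
    exact Pool.Agent.Helper51.FL2.vface_bin hX hS _ _
  edge c i := edge_VFr (g1F hX) (fun S => Pool.Agent.Helper45.LOC.locT_refl S) T c i

end

theorem goodFr_Tfr {n : ℕ} (j : ℕ) {X : SP (Th (n + 1))} (hX : Sg (n + 1) X) :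
    GoodFr (C := Th n) X (Tfr (n + 1) j) := by
  induction n generalizing j with
  | zero =>
    have hS := ((Helper41FL2.sg_succ_iff hX.1 Set.univ
      (fun z => ⟨z, Set.mem_univ _, cn_refl _ _⟩)).1 hX).1
    cases j with
    | zero => exact goodFr_T0 hX.1 hS
    | succ j =>
      exact goodFr_VFr hX.1 hS (Tfr 0 j) fun x y c => ext_cc _ _
  | succ n ih =>
    have hS := (Helper41FL2.sg_succ_iff hX.1 Set.univ
      (fun z => ⟨z, Set.mem_univ _, cn_refl _ _⟩)).1 hX
    cases j with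
    | zero => exact goodFr_T0 hX.1 hS.1
    | succ j =>
      exact goodFr_VFr hX.1 hS.1 (Tfr (n + 1) j) fun x y c =>
        (ih j (hS.2 x (Set.mem_univ _) y (Set.mem_univ _))).ext c

end Pool.Agent.Helper37.FL2
end

/- Helper59.FL2.ComplStep -/
section
/-!
# FL2-C7 and FL2-D3, from the statement of C6
-/

open CategoryTheory MonoidalCategory Opposite HomotopicalAlgebra

set_option autoImplicit false

namespace Helper59.FL2

open FL

/-- The statement of module C6. -/
def StepHyp (n : ℕ) : Prop := ∀ (j : ℕ) (X : SP (Th n)), Sg n X →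
      Sg n ((RR (Th n)).obj ((KJ n j).obj X)) ∧
      (j < n → Cj n j ((RR (Th n)).obj ((KJ n j).obj X))) ∧
      (∀ j', j < j' → Cj n j' X → Cj n j' ((RR (Th n)).obj ((KJ n j).obj X))) ∧
      ES n n ((KJ n j).η X ≫ (RR (Th n)).η ((KJ n j).obj X))

theorem objHoEq_id {n : ℕ} {X : SP (Th n)} : ObjHoEq (𝟙 X) := fun a =>
  Pool.Agent.Helper88.FL.hoEq_of_isIso ((𝟙 X : X ⟶ X).app a)

theorem objKan_of_injFib {n : ℕ} {X : SP (Th n)} (hX : InjFib X) : ObjKan X :=
  Pool.Agent.Helper46.FLb.InjFib.objKan (fun X {_} hZ => Pool.Agent.Helper83.FL4.Mp_kan X hZ) hX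

theorem Cp_isCat_step {n : ℕ} (h : StepHyp n) {A : SP (Th n)}
    (hS : Sg n ((RR (Th n)).obj A)) :
    IsCat n ((Cp n n).obj A) ∧ ∃ e : (RR (Th n)).obj A ⟶ (Cp n n).obj A,
      (RR (Th n)).η A ≫ e = (Cp n n).η A ∧ ES n n e :=
  Cp_isCat_of (fun {j X} hX => h j X hX) Helper41FL2.isCat_iff
    (fun {_ _ _} hY hZ {_ _} hX hf hg => Pool.Agent.Helper61.FL2.ES_comp hY hZ hX hf hg)
    (fun {_ _} hX hY {_} hf => Pool.Agent.Helper61.FL2.ES_of_objHoEq hX hY hf)
    objHoEq_id hS

theorem ES_loc_step {n : ℕ} (h : StepHyp n) {X Y Z : SP (Th n)} (hX : Sg n X) (hY : Sg n Y)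
    (hZ : IsCat n Z) {f : X ⟶ Y} (hf : ES n n f) : Loc Z f :=
  ES_loc_of objKan_of_injFib Helper41FL2.RR_injFib Helper41FL2.RR_objHoEq
    (fun {_ _} hX hY {_} hf => Helper41FL2.sg_of_objHoEq hX hY hf)
    (fun _ hS => Cp_isCat_step h hS) Helper41FL2.isCat_iff
    (fun {_ _ _} hY hZ {_ _} hX hf hg => Pool.Agent.Helper61.FL2.ES_comp hY hZ hX hf hg)
    (fun {_ _} hX hY {_} hf => Pool.Agent.Helper61.FL2.ES_of_objHoEq hX hY hf)
    (fun {_ _ _} hX hY hZ {_ _} hf hfg => Pool.Agent.Helper61.FL2.ES_of_comp_left hX hY hZ hf hfg)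
    (fun {_ _} hX hY {_} hf => Pool.Agent.Helper71.FL2.ES_objHoEq hX hY hf) hX hY hZ hf

end Helper59.FL2
end

/- Helper86.FL2.KGood -/
section
/-!
# Project FL2, module C2 (KGOOD): `Kf T X` is vertex-fibrant and satisfies the Segal condition
-/

open CategoryTheory MonoidalCategory Opposite

set_option autoImplicit false

namespace Pool.Agent.Helper86.FL2

open _root_.FL

/-- The results of the modules G1, G3, G4. -/
theorem dep {A : Type} [SmallCategory A] {X : SP A} (hX : InjFib X) : Dep X where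
  locT_trans := Pool.Agent.Helper45.LOC.locT_trans hX
  locT_push := Pool.Agent.Helper45.LOC.locT_push hX
  locT_comap := Pool.Agent.Helper45.LOC.locT_comap
  loc_iff_range := Pool.Agent.Helper45.LOC.loc_iff_range
  Yc_kan := Pool.Agent.Helper81.FL2.Yc_kan hX
  Yc_pre_kanFib := Pool.Agent.Helper81.FL2.Yc_pre_kanFib hX
  Yc_pre_trivFib := Pool.Agent.Helper55.FL2.Yc_pre_trivFib hX

/-- Module C2: for every good frame `T`, `Kf T X` is vertex-fibrant and Segal. -/
theorem Kf_good {C : Type} [SmallCategory C] {X : SP (Wr C)} (hX : InjFib X) {T : Fr (Wr C)}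
    (hT : GoodFr X T) : VFib (Kf T X) ∧ BSeg (Kf T X) :=
  Kf_good_of (dep hX) hT

end Pool.Agent.Helper86.FL2
end

/- Helper91.FL2.Comp0D -/
section
/-!
# FL2, module C5 COMP0, fourth part: completeness at level 0 from the transfer principle
-/

open CategoryTheory MonoidalCategory Opposite

set_option autoImplicit false

namespace Pool.Agent.Helper91.FL2

open _root_.FL

noncomputable section

variable {C : Type} [SmallCategory C]

theorem hTo (C : Type) [SmallCategory C] (m : SimplexCategory) (a : (Wr C)ᵒᵖ) :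
    Mono ((((E0 C).map (vertE C).ι).app m).app a) := by
  have h' : ∀ k, Mono (((((E0 C).map (vertE C).ι).app m).app a).app k) := fun k => by
    refine (mono_iff_injective _).2 ?_
    rintro ⟨⟨x, hx⟩, w⟩ ⟨⟨x', hx'⟩, w'⟩ e
    have e1 : (x, w) = (x', w') := e
    have e2 : x = x' := congrArg Prod.fst e1
    have e3 : w = w' := congrArg Prod.snd e1
    exact Prod.ext (Subtype.ext e2) e3
  exact NatTrans.mono_of_mono_app _

theorem vertE_kanFib {X : SP (Wr C)} (hX : InjFib X) (hT : Pool.Agent.Helper44.FL2.Transfer X) :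
    KanFib (Yc.pre ((E0 C).map (vertE C).ι) X) :=
  Pool.Agent.Helper81.FL2.Yc_pre_kanFib hX ((E0 C).map (vertE C).ι) (hTo C)
    (Pool.Agent.Helper44.FL2.ext_vertE_of hT) (Pool.Agent.Helper44.FL2.ext_iso_of hT)
    fun i => edge_lift (vertE C) hX i (Pool.Agent.Helper44.FL2.E0rel_iso_of hT _ i)

theorem vertE_relMap {X : SP (Wr C)} (hX : InjFib X) (hT : Pool.Agent.Helper44.FL2.Transfer X) :
    HoEq (relMap (vertE C) X) :=
  Pool.Agent.Helper55.FL2.relMap_hoEq hX (vertE C)
    (fun m => Pool.Agent.Helper44.FL2.E0rel_iso_of hT m 0)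
    (Pool.Agent.Helper81.FL2.Yc_kan hX (Pool.Agent.Helper44.FL2.ext_iso_of hT))
    (vertE_kanFib hX hT)

/-- Completeness of the completion at level 0, from the transfer principle and the properties of
`Kf (T0 C) X`. -/
theorem K0_complete_tr {X : SP (Wr C)} (hX : InjFib X) (hS : SpLoc X)
    (hT : Pool.Agent.Helper44.FL2.Transfer X)
    (hK : VFib (Kf (T0 C) X) ∧ BSeg (Kf (T0 C) X)) :
    Loc ((RR (Wr C)).obj (Kf (T0 C) X)) (isoMap C) :=
  K0_complete_of hX ((Pool.Agent.Helper61.FL2.spLoc_iff hX).1 hS) hK.1 hK.2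
    (vertE_kanFib hX hT) (vertE_relMap hX hT) (fun z => Helper85FL2.T0_vt_surj X z)
    (Helper85FL2.HmK0_objHoEq_of hX hK.1.2 fun c hF =>
      Pool.Agent.Helper55.FL2.relMap_hoEq hX (vert (seg c))
        (fun m => Pool.Agent.Helper44.FL2.E0rel_seg_of hT c m 0)
        (Pool.Agent.Helper81.FL2.Yc_kan hX (Pool.Agent.Helper44.FL2.ext_T0_of hT (seg c))) hF)

end

end Pool.Agent.Helper91.FL2
end

/- Helper91.FL2.Comp0 -/
section
/-!
# FL2, module C5 COMP0: the completion at level 0 is complete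

The final statement, together with the final forms of the transfer principle, of the goodness of
the frame `T0`, and of the properties of `Kf T X` for a good frame.
-/

open CategoryTheory MonoidalCategory Opposite

set_option autoImplicit false

namespace Pool.Agent.Helper91.FL2

open _root_.FL

noncomputable section

/-- The facts of section G1 used for the frame `T0`. -/
theorem g1F {A : Type} [SmallCategory A] {X : SP A} (hX : InjFib X) :
    Pool.Agent.Helper43.FL2.G1F X where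
  isIso f _ := Pool.Agent.Helper45.LOC.loc_of_isIso f
  comp h h' := Pool.Agent.Helper45.LOC.loc_comp hX h h'
  comp_right h h' := Pool.Agent.Helper45.LOC.loc_of_comp_right hX h h'
  sdr h := Pool.Agent.Helper45.LOC.loc_of_sdr h
  extend i hi h g := Pool.Agent.Helper45.LOC.loc_extend hX i hi h g
  restr_sup f S T S' T' hS hT h1 h2 h12 :=
    Pool.Agent.Helper45.LOC.loc_restr_sup hX f S T S' T' hS hT h1 h2 h12

/-- The facts of sections G1, G3 and G4 used for `Kf`. -/
theorem depX {A : Type} [SmallCategory A] {X : SP A} (hX : InjFib X) :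
    Pool.Agent.Helper86.FL2.Dep X where
  locT_trans h h' := Pool.Agent.Helper45.LOC.locT_trans hX h h'
  locT_push h := Pool.Agent.Helper45.LOC.locT_push hX h
  locT_comap f hf S T hST hT := Pool.Agent.Helper45.LOC.locT_comap f hf S T hST hT
  loc_iff_range f hf := Pool.Agent.Helper45.LOC.loc_iff_range f hf
  Yc_kan h := Pool.Agent.Helper81.FL2.Yc_kan hX h
  Yc_pre_kanFib u hu hF hG e := Pool.Agent.Helper81.FL2.Yc_pre_kanFib hX u hu hF hG e
  Yc_pre_trivFib u hu h := Pool.Agent.Helper55.FL2.Yc_pre_trivFib hX u hu h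

/-- `Kf T X` is vertex-fibrant and satisfies the Segal condition for a good frame `T`. -/
theorem kf_good {C : Type} [SmallCategory C] {X : SP (Wr C)} (hX : InjFib X) {T : Fr (Wr C)}
    (hT : GoodFr X T) : VFib (Kf T X) ∧ BSeg (Kf T X) :=
  Pool.Agent.Helper86.FL2.Kf_good_of (depX hX) hT

variable {C : Type} [SmallCategory C]

/-- The transfer principle. -/
theorem ph_transfer {X : SP (Wr C)} (hX : InjFib X) (hS : SpLoc X) {r : ℕ} (B : Fin r → SP C)
    {N N' : SSet.{0}} (i : N ⟶ N') (hi : SSet.innerAnodyneExtensions i)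
    (s : N' ⟶ SSet.stdSimplex.obj (SimplexCategory.mk r)) :
    TrivFib (Mp.pre (Ph.map B i s) X) :=
  Pool.Agent.Helper43.FL2.Ph_transfer_of
    (fun B s => Pool.Agent.Helper7.FL2.Ph_simplex B s)
    (fun B i h0 h1 => Pool.Agent.Helper51.FL2.vface_horn hX hS B i h0 h1)
    (fun f hf => Pool.Agent.Helper45.LOC.loc_iff_range f hf)
    (fun h h' => Pool.Agent.Helper45.LOC.loc_of_comp_right hX h h')
    (fun f _ => Pool.Agent.Helper45.LOC.loc_of_isIso f)
    (fun i hi h => (Pool.Agent.Helper45.LOC.loc_iff_trivFib hX i hi).1 h) B i hi s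

theorem transferX {X : SP (Wr C)} (hX : InjFib X) (hS : SpLoc X) :
    Pool.Agent.Helper44.FL2.Transfer X := fun B _ _ i hi s =>
  Pool.Agent.Helper45.FL2.TrivFib.hoEq (ph_transfer hX hS B i hi s)

/-- The frame `T0` is good. -/
theorem good_T0 {X : SP (Wr C)} (hX : InjFib X) (hS : SpLoc X) : GoodFr X (T0 C) :=
  Pool.Agent.Helper43.FL2.goodFr_T0_of (g1F hX)
    (fun θ => Pool.Agent.Helper44.FL2.ext_T0_of (transferX hX hS) θ)
    (fun c m v => Pool.Agent.Helper44.FL2.E0rel_seg_of (transferX hX hS) c m v)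
    (fun c m => Pool.Agent.Helper44.FL2.E0bin_loc_of (transferX hX hS) c m)

/-- The completion at level 0 is complete. -/
theorem K0_complete {X : SP (Wr C)} (hX : InjFib X) (hS : SpLoc X) :
    Loc ((RR (Wr C)).obj (Kf (T0 C) X)) (isoMap C) :=
  K0_complete_tr hX hS (transferX hX hS) (kf_good hX (good_T0 hX hS))

end

end Pool.Agent.Helper91.FL2
end

/- Helper58.FL2.Final -/
section
/-! # F10: the theorem of Ayala and Francis and the conjecture -/

open CategoryTheory MonoidalCategory Opposite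

set_option autoImplicit false

namespace Pool.Agent.Helper58.FL2F

open _root_.FL

section

variable {C : Type} [SmallCategory C] {X : SP (Wr C)}

theorem HmK0_objHoEq (hX : InjFib X) (hS : SpLoc X) (x y : Vt X) :
    ObjHoEq (HmMap ((SFun.ofFrame (T0 C) (T0aug C)).η X) x y) := by
  refine Helper85FL2.HmK0_objHoEq_of hX ?_ (fun c hF => ?_) x y
  · intro c
    exact (Pool.Agent.Helper86.FL2.Kf_good hX (Pool.Agent.Helper43.FL2.goodFr_T0 hX hS)).1.2 c
  · exact Pool.Agent.Helper55.FL2.relMap_hoEq hX (vert (seg c))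
      (fun m => Pool.Agent.Helper43.FL2.E0rel_seg hX hS c m 0)
      (Pool.Agent.Helper81.FL2.Yc_kan hX (Pool.Agent.Helper43.FL2.ext_T0 hX hS (seg c))) hF

end

/-- The statement of C1b. -/
abbrev TfrGood : Prop := ∀ {n : ℕ} (j : ℕ) {X : SP (Th (n + 1))} (_ : Sg (n + 1) X),
    GoodFr (C := Th n) X (Tfr (n + 1) j)

theorem tfrGood : TfrGood := fun j _ hX => Pool.Agent.Helper37.FL2.goodFr_Tfr j hX

theorem stepDep (h : TfrGood) : Helper41FL2.StepDep where
  ext_cc := fun X P => Pool.Agent.Helper43.FL2.ext_cc X P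
  goodFr_Tfr := h
  Kf_good := fun hX _ hT => Pool.Agent.Helper86.FL2.Kf_good hX hT
  HmK0_objHoEq := fun hX hS x y => HmK0_objHoEq hX hS x y
  K0_complete := fun hX hS => Pool.Agent.Helper91.FL2.K0_complete hX hS

theorem stepHyp (h : TfrGood) (n : ℕ) : Helper59.FL2.StepHyp n := fun _ _ hX =>
  Helper41FL2.KJ_step_of (stepDep h) hX

theorem kDeps (h : TfrGood) (n : ℕ) : KDeps n where
  Cp_isCat := fun _ hS => Helper59.FL2.Cp_isCat_step (stepHyp h n) hS
  sg_tr := fun hX i => Pool.Agent.Helper25.FL2.sg_tr hX i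
  tr_down := fun hX hY _ e e' he hE => Pool.Agent.Helper55.FL2.tr_down hX hY e e' he hE
  tr_up := fun hX hD _ hT e e' he hE => Pool.Agent.Helper55.FL2.tr_up hX hD hT e e' he hE
  ES_loc := fun hX hY hZ _ hf => Helper59.FL2.ES_loc_step (stepHyp h n) hX hY hZ hf

theorem knownTheorem' (n : ℕ) : KnownTheorem n := knownTheorem (kDeps tfrGood n)

theorem conjecture' (n : ℕ) : Conjecture n := conjecture (kDeps tfrGood n)

theorem knownTheorem_all (n : ℕ) : KnownTheorem n := knownTheorem' n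

theorem conjecture_all (n : ℕ) : Conjecture n := conjecture' n

end Pool.Agent.Helper58.FL2F
end

/- Helper43.FLQ.Final -/
section
/-!
# Project FLQ: the conjecture of Ayala and Francis on flagged `(∞,n)`-categories
-/

set_option autoImplicit false

namespace Pool.Agent.Helper43.FLQB

theorem conjecture (n : ℕ) : FLQ.Conjecture n :=
  conjecture_of (Pool.Agent.Helper58.FL2F.knownTheorem' n)
    (Pool.Agent.Helper64.FL2.knownGaunt n)

end Pool.Agent.Helper43.FLQB
end
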